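import Pool.Agent.Work.MP_97f157_lc.TauIsoBAux
import Pool.Agent.Lib.ANT.RosserMain
import Pool.Agent.Lib.ANT.Mertens

-- merged part: Pool.Agent.Work.MP_97f157_lc.TauExtAux4
section
-- merged part: Pool.Agent.Work.MP_97f157_lc.TauLatt
section
-- merged part: Pool.Agent.Work.MP_97f157_lc.TauClus
section
/-! Clustering, gaps, selection of a top line, counting near-integers. -/

noncomputable section
open Finset

namespace Pool.Agent.Work.MP_97f157_lc.Tau

variable {κ : Type*}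

/-- Single linkage: representatives of the equivalence relation generated by `R` on `s`;
every point is joined to its representative by a chain of length `< card s`. -/
theorem exists_rep (s : Finset κ) (R : κ → κ → Prop) (hR : ∀ x y, R x y → R y x) :
    ∃ rep : κ → κ, (∀ k ∈ s, rep k ∈ s) ∧ (∀ k ∈ s, rep (rep k) = rep k) ∧
      (∀ k ∈ s, ∀ k' ∈ s, R k k' → rep k = rep k') ∧
      ∀ φ : κ → κ → ℝ, (∀ x ∈ s, φ x x ≤ 0) →
        (∀ x ∈ s, ∀ y ∈ s, ∀ z ∈ s, R y z → φ x z ≤ φ x y + 1) →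
        ∀ k ∈ s, φ (rep k) k ≤ s.card := by
  classical
  let Γ : SimpleGraph s := SimpleGraph.fromRel fun x y => R x y
  let rep : κ → κ := fun k => if h : k ∈ s then ((Γ.connectedComponentMk ⟨k, h⟩).out : s) else k
  have e : ∀ k (h : k ∈ s), rep k = ((Γ.connectedComponentMk ⟨k, h⟩).out : s) := fun k h =>
    dif_pos h
  have o : ∀ c : Γ.ConnectedComponent, Γ.connectedComponentMk c.out = c := fun c => c.out_eq
  refine ⟨rep, fun k h => by rw [e k h]; exact Subtype.property _, fun k h => ?_,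
    fun k h k' h' r => ?_, fun φ h0 h1 k h => ?_⟩
  · rw [e k h, e _ (Subtype.property _), o]
  · rw [e k h, e k' h']
    by_cases c : (⟨k, h⟩ : s) = ⟨k', h'⟩
    · rw [c]
    · rw [SimpleGraph.ConnectedComponent.connectedComponentMk_eq_of_adj
        ((SimpleGraph.fromRel_adj _ _ _).2 ⟨c, Or.inl r⟩)]
  · have w : ∀ x ∈ s, ∀ (u v : s) (p : Γ.Walk u v), φ x v ≤ φ x u + p.length := by
      intro x hx u v p
      induction p with
      | nil => simp
      | @cons a b c hab p ih =>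
        have := h1 x hx a a.2 b b.2 (((SimpleGraph.fromRel_adj _ _ _).1 hab).2.elim id (hR _ _))
        rw [SimpleGraph.Walk.length_cons]
        push_cast
        linarith
    rw [e k h]
    obtain ⟨p, hp⟩ := (SimpleGraph.ConnectedComponent.exact
      (o (Γ.connectedComponentMk ⟨k, h⟩))).exists_isPath
    have h2 := w _ (Γ.connectedComponentMk ⟨k, h⟩).out.2 _ _ p
    have h3 := h0 _ (Γ.connectedComponentMk ⟨k, h⟩).out.2
    have h4 := hp.length_lt
    rw [Fintype.card_coe] at h4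
    have h5 : (p.length : ℝ) ≤ s.card := by exact_mod_cast h4.le
    exact h2.trans (by linarith)

theorem clus_near {E : Type*} [NormedAddCommGroup E] {s : Finset κ} (f : κ → E)
    (hf : ∀ k ∈ s, f k ≠ 0) {e1 e0 : ℝ} {n : ℕ} (hn : s.card ≤ n) (he0 : 0 < e0)
    (he : 8 * n * e0 ≤ e1) (he1 : e1 ≤ 1) {rep : κ → κ} {R : κ → κ → Prop}
    (h1 : ∀ k ∈ s, rep k ∈ s)
    (h4 : ∀ φ : κ → κ → ℝ, (∀ x ∈ s, φ x x ≤ 0) →
      (∀ x ∈ s, ∀ y ∈ s, ∀ z ∈ s, R y z → φ x z ≤ φ x y + 1) → ∀ k ∈ s, φ (rep k) k ≤ s.card)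
    (hR : ∀ y z, R y z → ‖f y - f z‖ ≤ e0 * min ‖f y‖ ‖f z‖) :
    ∀ k ∈ s, ‖f k - f (rep k)‖ ≤ e1 / 4 * ‖f (rep k)‖ := by
  intro k hk
  have l0 : 0 < Real.log (1 + e0) := Real.log_pos (by linarith)
  have h := h4 (fun x y => Real.log (1 + ‖f y - f x‖ / ‖f x‖) / Real.log (1 + e0))
    (fun x _ => by simp) (fun x hx y _ z _ r => by
      have x0 := norm_pos_iff.2 (hf x hx)
      rw [div_add_one l0.ne', ← Real.log_mul (by positivity) (by positivity)]
      refine div_le_div_of_nonneg_right (Real.log_le_log (by positivity) ?_) l0.le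
      have a1 := (hR y z r).trans (mul_le_mul_of_nonneg_left (min_le_left _ _) he0.le)
      have a2 : ‖f z - f x‖ ≤ ‖f y - f x‖ + ‖f y - f z‖ := by
        rw [norm_sub_rev (f y) (f z), add_comm]; exact norm_sub_le_norm_sub_add_norm_sub _ _ _
      have a3 : ‖f y‖ ≤ ‖f x‖ + ‖f y - f x‖ := norm_le_norm_add_norm_sub' _ _
      have a4 := mul_le_mul_of_nonneg_left a3 he0.le
      rw [one_add_div x0.ne', one_add_div x0.ne', div_mul_eq_mul_div]
      refine div_le_div_of_nonneg_right ?_ x0.le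
      linarith) k hk
  have x0 := norm_pos_iff.2 (hf _ (h1 k hk))
  have n0 : (s.card : ℝ) ≤ n := by exact_mod_cast hn
  have b0 : 0 ≤ n * e0 := by positivity
  have b1 := Real.log_le_sub_one_of_pos (show 0 < 1 + e0 by linarith)
  rw [div_le_iff₀ l0] at h
  have b2 : (s.card : ℝ) * Real.log (1 + e0) ≤ n * e0 :=
    mul_le_mul n0 (by linarith) l0.le (by positivity)
  have b3 := (Real.log_le_iff_le_exp (by positivity)).1 (h.trans b2)
  have b4 := (abs_le.1 (Real.abs_exp_sub_one_le (x := n * e0)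
    (by rw [abs_of_nonneg b0]; linarith))).2
  rw [abs_of_nonneg b0] at b4
  rw [← div_le_iff₀ x0]
  linarith

/-- use `φ x y = log (1 + ‖f y - f x‖ / ‖f x‖) / log (1 + e0)` and `(1+e0)^n - 1 ≤ 2 n e0` -/
theorem exists_rclus (s : Finset κ) (f : κ → ℂ) (hf : ∀ k ∈ s, f k ≠ 0) {e1 e0 : ℝ} {n : ℕ}
    (hn : s.card ≤ n) (he0 : 0 < e0) (he : 8 * n * e0 ≤ e1) (he1 : e1 ≤ 1) :
    ∃ rep, RClus s f rep e1 e0 := by
  obtain ⟨rep, h1, h2, h3, h4⟩ := exists_rep s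
    (fun k k' => ‖f k - f k'‖ ≤ e0 * min ‖f k‖ ‖f k'‖) fun x y h => by
      rwa [norm_sub_rev, min_comm]
  exact ⟨rep, h1, h2, clus_near f hf hn he0 he he1 h1 h4 fun _ _ h => h,
    fun k hk k' hk' c => not_le.1 fun r => c (h3 k hk k' hk' r)⟩

theorem exists_aclus (s : Finset κ) (f : κ → ℝ) {e1 e0 : ℝ} {n : ℕ}
    (hn : s.card ≤ n) (he0 : 0 < e0) (he : n * e0 ≤ e1) : ∃ rep, AClus s f rep e1 e0 := by
  obtain ⟨rep, h1, h2, h3, h4⟩ := exists_rep s (fun k k' => |f k - f k'| ≤ e0) fun x y h => by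
    rwa [abs_sub_comm]
  refine ⟨rep, h1, h2, fun k hk => ?_, fun k hk k' hk' c => not_le.1 fun r => c (h3 k hk k' hk' r)⟩
  have h := h4 (fun x y => |f y - f x| / e0) (fun x _ => by simp) (fun x _ y _ z _ r => by
    rw [div_add_one he0.ne']
    refine div_le_div_of_nonneg_right ?_ he0.le
    have := abs_sub_le (f z) (f y) (f x)
    rw [abs_sub_comm] at r
    linarith) k hk
  rw [div_le_iff₀ he0] at h
  have n0 : (s.card : ℝ) ≤ n := by exact_mod_cast hn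
  exact h.trans ((mul_le_mul_of_nonneg_right n0 he0.le).trans he)

theorem exists_cclus (s : Finset κ) (a x : κ → ℝ) (ha : ∀ k ∈ s, a k ≠ 0) (hx : ∀ k ∈ s, x k ≠ 0)
    {e1 e0 : ℝ} {n : ℕ} (hn : s.card ≤ n) (he0 : 0 < e0) (he : 8 * n * e0 ≤ e1) (he1 : e1 ≤ 1) :
    ∃ rep, CClus s a x rep e1 e0 := by
  obtain ⟨rep, h1, h2, h3, h4⟩ := exists_rep s
    (fun k k' => |a k - a k'| ≤ e0 * min |a k| |a k'| ∧ |x k - x k'| ≤ e0 * min |x k| |x k'|)
    fun u v h => by rwa [abs_sub_comm (a v), abs_sub_comm (x v), min_comm |a v|, min_comm |x v|]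
  refine ⟨rep, h1, h2, clus_near a ha hn he0 he he1 h1 h4 fun _ _ h => h.1,
    clus_near x hx hn he0 he he1 h1 h4 fun _ _ h => h.2, fun k hk k' hk' c => ?_⟩
  by_contra r
  rw [not_or, not_lt, not_lt] at r
  exact c (h3 k hk k' hk' r)

/-- one of the `n+1` intervals `(T0 (1 + i/(n+1)), T0 (1 + (i+1)/(n+1)))` contains no value -/
theorem exists_gap (s : Finset κ) (f : κ → ℝ) {n : ℕ} (hn : s.card ≤ n) {T0 : ℝ} (hT : 0 < T0) :
    ∃ T, T0 ≤ T ∧ T ≤ 2 * T0 ∧ ∀ k ∈ s, f k ≤ T ∨ T * (1 + 1 / (2 * (n + 1))) ≤ f k := by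
  by_contra c
  push Not at c
  have n0 : (0 : ℝ) < n + 1 := by positivity
  have key : ∀ i : ℕ, ∃ k, i ∈ range (n + 1) →
      k ∈ s ∧ T0 * (1 + i / (n + 1)) < f k ∧ f k < T0 * (1 + (i + 1) / (n + 1)) := by
    intro i
    by_cases hi : i ∈ range (n + 1)
    · have i1 : (i : ℝ) / (n + 1) ≤ 1 := by
        rw [div_le_one n0]; exact_mod_cast (mem_range.1 hi).le
      have i0 : (0 : ℝ) ≤ i / (n + 1) := by positivity
      obtain ⟨k, hk, h1, h2⟩ := c (T0 * (1 + i / (n + 1))) (by nlinarith only [hT, i0]) (by nlinarith)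
      refine ⟨k, fun _ => ⟨hk, h1, h2.trans_le ?_⟩⟩
      rw [mul_assoc]
      refine mul_le_mul_of_nonneg_left ?_ hT.le
      have e : (1 : ℝ) / (2 * (n + 1)) = 1 / (n + 1) / 2 := by field_simp
      have : (0 : ℝ) < 1 / (n + 1) := by positivity
      rw [e, add_div]
      nlinarith only [i1, this]
    · obtain ⟨k, -⟩ := c T0 le_rfl (by linarith)
      exact ⟨k, fun h => absurd h hi⟩
  choose g hg using key
  have lt : ∀ i ∈ range (n + 1), ∀ j ∈ range (n + 1), g i = g j → i ≤ j := by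
    intro i hi j hj e
    have h1 := (hg i hi).2.1
    rw [e] at h1
    have h2 := lt_of_mul_lt_mul_left (h1.trans (hg j hj).2.2) hT.le
    rw [add_lt_add_iff_left, div_lt_div_iff_of_pos_right n0] at h2
    have : i < j + 1 := by exact_mod_cast h2
    omega
  have := card_le_card_of_injOn g (s := range (n + 1)) (t := s) (fun i hi => (hg i hi).1)
    fun i hi j hj e => le_antisymm (lt i hi j hj e) (lt j hj i hi e.symm)
  rw [card_range] at this
  omega

/-- Top line on a long piece: some `r` is on top at `≥ (W+1)/n` integers of `[j0, j0+W]`, and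
then on the whole interval spanned by them. -/
theorem exists_top (s : Finset κ) (hs : s.Nonempty) (N ρ : κ → ℝ) (hN : ∀ k ∈ s, 0 ≤ N k)
    (hρ : ∀ k ∈ s, 0 < ρ k) {n H j0 W : ℕ} (hn : s.card ≤ n) (hW : n * (H + 1) ≤ W + 1) :
    ∃ r ∈ s, ∃ j1, j0 ≤ j1 ∧ j1 + H ≤ j0 + W ∧
      ∀ k ∈ s, ∀ j, j1 ≤ j → j ≤ j1 + H → N k * ρ k ^ j ≤ N r * ρ r ^ j := by
  classical
  choose g hg using fun j : ℕ => exists_max_image s (fun k => N k * ρ k ^ j) hs
  obtain ⟨r, hr, hc⟩ := exists_le_card_fiber_of_mul_le_card_of_maps_to (s := Icc j0 (j0 + W))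
    (t := s) (f := g) (n := H + 1) (fun j _ => (hg j).1) hs (by
      rw [Nat.card_Icc]
      have := Nat.mul_le_mul_right (H + 1) hn
      omega)
  set F := (Icc j0 (j0 + W)).filter (fun j => g j = r)
  have ne : F.Nonempty := card_pos.1 (by omega)
  obtain ⟨a1, a2⟩ := mem_filter.1 (F.min'_mem ne)
  obtain ⟨b1, b2⟩ := mem_filter.1 (F.max'_mem ne)
  have sub : F ⊆ Icc (F.min' ne) (F.max' ne) := fun j hj =>
    mem_Icc.2 ⟨F.min'_le j hj, F.le_max' j hj⟩
  have cd := card_le_card sub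
  rw [Nat.card_Icc] at cd
  rw [mem_Icc] at a1 b1
  refine ⟨r, hr, F.min' ne, a1.1, by omega, fun k hk j h1 h2 => ?_⟩
  have u := (hg (F.min' ne)).2 k hk
  have v := (hg (F.max' ne)).2 k hk
  rw [a2] at u
  rw [b2] at v
  have p1 := hρ k hk
  have p2 := hρ r hr
  have p3 := hN r hr
  rcases le_total (ρ k) (ρ r) with c | c
  · obtain ⟨d, rfl⟩ := Nat.exists_eq_add_of_le h1
    rw [pow_add, pow_add, ← mul_assoc, ← mul_assoc]
    exact mul_le_mul u (by gcongr) (by positivity) (by positivity)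
  · obtain ⟨d, hd⟩ := Nat.exists_eq_add_of_le (show j ≤ F.max' ne by omega)
    rw [hd, pow_add, pow_add, ← mul_assoc, ← mul_assoc] at v
    exact le_of_mul_le_mul_right (v.trans (by gcongr)) (pow_pos p1 d)

/-- a line below another one at distance `q` on both sides -/
theorem line_gap {N N' ρ ρ' η : ℝ} (hN : 0 ≤ N) (hN' : 0 ≤ N') (hρ : 0 < ρ) (hρ' : 0 < ρ')
    {j q : ℕ} (hq : q ≤ j) (h1 : N * ρ ^ (j - q) ≤ N' * ρ' ^ (j - q))
    (h2 : N * ρ ^ (j + q) ≤ N' * ρ' ^ (j + q)) (hη : η ≤ |Real.log (ρ / ρ')|) :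
    N * ρ ^ j ≤ Real.exp (-(η * q)) * (N' * ρ' ^ j) := by
  have e : Real.exp (-(η * q)) = Real.exp (-η) ^ q := by
    rw [← Real.exp_nat_mul]; congr 1; ring
  have e0 := Real.exp_pos (-η)
  rw [e]
  rcases le_abs'.1 hη with c | c
  · have h3 : ρ ≤ Real.exp (-η) * ρ' := by
      rwa [Real.log_le_iff_le_exp (by positivity), div_le_iff₀ hρ'] at c
    obtain ⟨i, rfl⟩ := Nat.exists_eq_add_of_le' hq
    rw [Nat.add_sub_cancel] at h1
    calc _ = N * ρ ^ i * ρ ^ q := by ring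
      _ ≤ N' * ρ' ^ i * (Real.exp (-η) * ρ') ^ q := by gcongr
      _ = _ := by ring
  · have h3 : ρ' ≤ Real.exp (-η) * ρ := by
      rw [Real.le_log_iff_exp_le (by positivity), le_div_iff₀ hρ'] at c
      rw [Real.exp_neg, inv_mul_eq_div, le_div_iff₀' (Real.exp_pos _)]
      exact c
    refine le_of_mul_le_mul_right ?_ (pow_pos hρ q)
    calc _ = N * ρ ^ (j + q) := by ring
      _ ≤ N' * ρ' ^ j * ρ' ^ q := by rw [mul_assoc, ← pow_add]; exact h2
      _ ≤ N' * ρ' ^ j * (Real.exp (-η) * ρ) ^ q := by gcongr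
      _ = _ := by ring

/-- a line above another one at `j` stays above on one side -/
theorem line_side {N N' ρ ρ' : ℝ} (hρ : 0 < ρ) (hρ' : 0 < ρ') (hN' : 0 ≤ N') {j : ℕ}
    (h : N' * ρ' ^ j < N * ρ ^ j) :
    (∀ i, j ≤ i → N' * ρ' ^ i < N * ρ ^ i) ∨ (∀ i, i ≤ j → N' * ρ' ^ i < N * ρ ^ i) := by
  have h0 : 0 < N * ρ ^ j := lt_of_le_of_lt (by positivity) h
  rcases le_total ρ' ρ with c | c
  · refine Or.inl fun i hi => ?_
    obtain ⟨d, rfl⟩ := Nat.exists_eq_add_of_le hi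
    rw [pow_add, pow_add, ← mul_assoc, ← mul_assoc]
    exact mul_lt_mul h (by gcongr) (by positivity) h0.le
  · refine Or.inr fun i hi => ?_
    obtain ⟨d, rfl⟩ := Nat.exists_eq_add_of_le hi
    rw [pow_add, pow_add, ← mul_assoc, ← mul_assoc] at h
    refine lt_of_mul_lt_mul_right (lt_of_le_of_lt ?_ h) (pow_pos hρ d).le
    gcongr

theorem clus_count_int (x R : ℝ) (hR : 0 ≤ R) (S : Finset ℤ)
    (hS : ∀ i ∈ S, |(i : ℝ) - x| ≤ R) : (S.card : ℝ) ≤ 2 * R + 1 := by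
  have sub : S ⊆ Icc ⌈x - R⌉ ⌊x + R⌋ := fun i hi => by
    have := abs_le.1 (hS i hi)
    exact mem_Icc.2 ⟨Int.ceil_le.2 (by linarith), Int.le_floor.2 (by linarith)⟩
  have h1 := card_le_card sub
  rw [Int.card_Icc] at h1
  have h2 := Int.le_ceil (x - R)
  have h3 := Int.floor_le (x + R)
  rcases le_total (⌊x + R⌋ + 1 - ⌈x - R⌉) 0 with c | c
  · rw [Int.toNat_of_nonpos c, Nat.le_zero] at h1
    rw [h1]; push_cast; linarith
  · have h4 : (S.card : ℤ) ≤ ⌊x + R⌋ + 1 - ⌈x - R⌉ := by omega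
    have h5 : (S.card : ℝ) ≤ ⌊x + R⌋ + 1 - ⌈x - R⌉ := by exact_mod_cast h4
    linarith

theorem clus_count_nat (x R : ℝ) (hR : 0 ≤ R) (S : Finset ℕ)
    (hS : ∀ i ∈ S, |(i : ℝ) - x| ≤ R) : (S.card : ℝ) ≤ 2 * R + 1 := by
  rw [← card_image_of_injective S (Nat.cast_injective (R := ℤ))]
  refine clus_count_int x R hR _ fun i hi => ?_
  obtain ⟨j, hj, rfl⟩ := mem_image.1 hi
  exact_mod_cast hS j hj

/-- integers `i < Q` with `x0 + i θ` close to an integer -/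
theorem count_near_int (x0 θ δ : ℝ) (hθ : 0 < θ) (hδ : 0 ≤ δ) (Q : ℕ) (S : Finset ℕ)
    (hS : ∀ i ∈ S, i < Q ∧ ∃ n : ℤ, |x0 + i * θ - n| ≤ δ) :
    (S.card : ℝ) ≤ (Q * θ + 2 * δ + 2) * (2 * δ / θ + 1) := by
  classical
  choose! g hg using fun i hi => (hS i hi).2
  have h1 : ((S.image g).card : ℝ) ≤ 2 * (Q * θ / 2 + δ) + 1 := by
    refine clus_count_int (x0 + Q * θ / 2) _ (by positivity) _ fun n hn => ?_
    obtain ⟨i, hi, rfl⟩ := mem_image.1 hn
    have a1 := abs_le.1 (hg i hi)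
    have a2 : (i : ℝ) * θ ≤ Q * θ := by gcongr; exact (hS i hi).1.le
    have a3 : 0 ≤ (i : ℝ) * θ := by positivity
    rw [abs_le]; constructor <;> linarith [a1.1, a1.2]
  have h2 : ∀ n ∈ S.image g, ((S.filter fun i => g i = n).card : ℝ) ≤ 2 * δ / θ + 1 := by
    intro n _
    rw [mul_div_assoc]
    refine clus_count_nat ((n - x0) / θ) _ (by positivity) _ fun i hi => ?_
    obtain ⟨hi', rfl⟩ := mem_filter.1 hi
    rw [show (i : ℝ) - (g i - x0) / θ = (x0 + i * θ - g i) / θ by field_simp; ring, abs_div,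
      abs_of_pos hθ]
    gcongr
    exact hg i hi'
  rw [card_eq_sum_card_image g S, Nat.cast_sum]
  refine (sum_le_card_nsmul _ _ _ h2).trans ?_
  rw [nsmul_eq_mul]
  gcongr
  linarith

/-- integers in a real interval -/
theorem count_interval (x R : ℝ) (hR : 0 ≤ R) (S : Finset ℕ) (hS : ∀ i ∈ S, |(i : ℝ) - x| ≤ R) :
    (S.card : ℝ) ≤ 2 * R + 1 := clus_count_nat x R hR S hS

/-- a window avoiding finitely many intervals -/
theorem exists_free_window (L : Finset ℝ) (R : ℝ) (hR : 0 ≤ R) (j0 W H : ℕ)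
    (h : (L.card : ℝ) * (2 * R + H + 1) < W) :
    ∃ j1, j0 ≤ j1 ∧ j1 ≤ j0 + W ∧ ∀ j, j1 ≤ j → j ≤ j1 + H → ∀ x ∈ L, R ≤ |(j : ℝ) - x| := by
  classical
  by_contra c
  push Not at c
  have sub : Icc j0 (j0 + W) ⊆ L.biUnion fun x =>
      (Icc j0 (j0 + W)).filter fun j : ℕ => |(j : ℝ) - (x - H / 2)| ≤ R + H / 2 := by
    intro j1 hj
    obtain ⟨j, h1, h2, x, hx, h3⟩ := c j1 (mem_Icc.1 hj).1 (mem_Icc.1 hj).2
    refine mem_biUnion.2 ⟨x, hx, mem_filter.2 ⟨hj, ?_⟩⟩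
    have a1 : (j1 : ℝ) ≤ j := by exact_mod_cast h1
    have a2 : (j : ℝ) ≤ j1 + H := by exact_mod_cast h2
    rw [abs_lt] at h3
    rw [abs_le]; constructor <;> linarith [h3.1, h3.2]
  have h1 := (card_le_card sub).trans card_biUnion_le
  rw [Nat.card_Icc, show j0 + W + 1 - j0 = W + 1 by omega] at h1
  have h2 := (Nat.cast_le (α := ℝ)).2 h1
  rw [Nat.cast_sum] at h2
  have h3 := h2.trans (sum_le_card_nsmul _ _ (2 * (R + H / 2) + 1) fun x _ =>
    clus_count_nat (x - H / 2) _ (by positivity) _ fun i hi => (mem_filter.1 hi).2)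
  rw [nsmul_eq_mul, show 2 * (R + H / 2) + 1 = 2 * R + H + 1 by ring] at h3
  push_cast at h3
  linarith

/-- a step with bounded growth -/
theorem exists_slow_step (f : ℕ → ℝ) (X : ℝ) (n : ℕ) (h0 : 0 < f 0) (hn : f n ≤ Real.exp X * f 0)
    (hX : 2 * X < n) : ∃ r < n, 0 < f r ∧ f 0 ≤ f r ∧ f (r + 1) ≤ 2 * f r := by
  by_contra c
  push Not at c
  have key : ∀ r ≤ n, 2 ^ r * f 0 ≤ f r := by
    intro r hr
    induction r with
    | zero => simp
    | succ r ih =>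
      have h1 := ih (by omega)
      have h2 : f 0 ≤ f r := (le_mul_of_one_le_left h0.le (one_le_pow₀ one_le_two)).trans h1
      have := c r (by omega) (by linarith) h2
      rw [pow_succ]; linarith
  have h1 := le_of_mul_le_mul_right ((key n le_rfl).trans hn) h0
  have h2 : Real.exp X < Real.exp (n * Real.log 2) := by
    have := Real.log_two_gt_d9
    have n0 : (0 : ℝ) ≤ n := by positivity
    exact Real.exp_lt_exp.2 (by nlinarith)
  rw [Real.exp_nat_mul, Real.exp_log two_pos] at h2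
  linarith

theorem clus_round {ε : ℝ} (h0 : 0 < ε) (h1 : ε ≤ 1 / 64) {a b : ℕ} (hb : 64 * ε * b ≤ 1)
    (h : a * (1 - ε) ^ 3 ≤ b * (1 + ε) ^ 3) : a ≤ b := by
  by_contra c
  have c' : (b : ℝ) + 1 ≤ a := by exact_mod_cast not_le.1 c
  have h2 : 0 ≤ (1 - ε) ^ 3 := pow_nonneg (by linarith) 3
  have h3 := (mul_le_mul_of_nonneg_right c' h2).trans h
  have h4 : ε ^ 2 ≤ 1 := by nlinarith only [h0, h1, hb, h3]
  have h5 : ε * b * ε ^ 2 ≤ ε * b := mul_le_of_le_one_right (by positivity) h4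
  have h6 : 1 - 3 * ε ≤ (1 - ε) ^ 3 := by nlinarith only [h0, h1, hb, h3, h5, sq_nonneg ε]
  linarith

/-- Arithmetic of blocked indices.  For a coarser group `G''`, two blocked indices `n1, n2` with
partners `n1' < n1`, `n2' < n2` satisfy `n1' n2 = n2' n1`; hence all blocked indices are
multiples of a prime factor of the reduced denominator.  Partners `n' = n` are excluded by
`sep` (then `k'` lies in the group), partners `n' > n` by size. -/
theorem unblocked (s : Finset κ) (η : κ → ℝ) (hη : ∀ k ∈ s, 0 < η k) (gr : κ → κ) {e1 e0 : ℝ}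
    (hgr : RClus s (fun k => (η k : ℂ)) gr e1 e0) (he0 : 0 < e0) (he : e0 ≤ e1) (L : ℕ)
    (hL : 16 * e1 * (L + 1) ^ 2 ≤ 1) (G : κ) (hG : G ∈ s) (hGG : gr G = G) :
    ∃ P : Finset ℕ, (∀ p ∈ P, p.Prime) ∧ P.card ≤ s.card ∧
      ∀ n : ℕ, 1 ≤ n → n ≤ L → (∀ p ∈ P, ¬ p ∣ n) → ∀ k1 ∈ s, gr k1 = G → ∀ k' ∈ s,
        ∀ n' : ℕ, 1 ≤ n' → |n' * η k' - n * η k1| ≤ e0 / 4 * (n * η k1) →
          (gr k' = G ∧ n' = n) ∨ η (gr k') < η G := by
  classical
  obtain ⟨ε, rfl⟩ : ∃ ε, e1 = 4 * ε := ⟨e1 / 4, by ring⟩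
  have ε0 : 0 < ε := by linarith
  have L1 : (1 : ℝ) ≤ (L + 1) ^ 2 := one_le_pow₀ (by linarith [Nat.cast_nonneg (α := ℝ) L])
  have ε1 : ε ≤ 1 / 64 := by nlinarith
  have A : ∀ a b : ℕ, b ≤ (L + 1) ^ 2 → a * (1 - ε) ^ 3 ≤ b * (1 + ε) ^ 3 → a ≤ b :=
    fun a b hb h => clus_round ε0 ε1 (by
      have : (b : ℝ) ≤ (L + 1) ^ 2 := by exact_mod_cast hb
      nlinarith only [he0, he, hL, this]) h
  have nr : ∀ k ∈ s, (1 - ε) * η (gr k) ≤ η k ∧ η k ≤ (1 + ε) * η (gr k) := by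
    intro k hk
    have h := hgr.near k hk
    rw [← Complex.ofReal_sub, Complex.norm_real, Complex.norm_real, Real.norm_eq_abs,
      Real.norm_eq_abs, abs_of_pos (hη _ (hgr.mem k hk)), abs_le] at h
    constructor <;> linarith only [h, h.1, h.2]
  have G0 := hη G hG
  have e1 : 0 < 1 - ε := by linarith
  have key : ∀ g, ∃ p : ℕ, p.Prime ∧ (0 < η g → ∀ n n' : ℕ, 1 ≤ n' → n' < n → n ≤ L →
      n' * η g * (1 - ε) ≤ n * η G * (1 + ε) ^ 2 → n * η G * (1 - ε) ^ 2 ≤ n' * η g * (1 + ε) →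
      p ∣ n) := by
    intro g
    by_cases c : ∃ n n' : ℕ, 1 ≤ n' ∧ n' < n ∧ n ≤ L ∧
      n' * η g * (1 - ε) ≤ n * η G * (1 + ε) ^ 2 ∧ n * η G * (1 - ε) ^ 2 ≤ n' * η g * (1 + ε)
    · obtain ⟨a, a', a1, a2, a3, a4, a5⟩ := c
      obtain ⟨d, d', cop, e, e'⟩ := Nat.exists_coprime a a'
      have g0 : 0 < Nat.gcd a a' := Nat.gcd_pos_of_pos_right _ a1
      have d1 : d ≠ 1 := by
        rintro rfl
        have := Nat.gcd_le_right a a1
        omega
      refine ⟨d.minFac, Nat.minFac_prime d1, fun g1 b b' b1 b2 b3 b4 b5 => ?_⟩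
      have B : ∀ x x' y y' : ℕ, x ≤ L → y' ≤ L → x' * η g * (1 - ε) ≤ x * η G * (1 + ε) ^ 2 →
          y * η G * (1 - ε) ^ 2 ≤ y' * η g * (1 + ε) → x' * y ≤ x * y' := by
        intro x x' y y' h1 h2 h3 h4
        refine A _ _ (by nlinarith only [a1, a2, a3, h1, h2]) (le_of_mul_le_mul_right ?_ (mul_pos g1 G0))
        push_cast
        calc _ = (x' * η g * (1 - ε)) * (y * η G * (1 - ε) ^ 2) := by ring
          _ ≤ (x * η G * (1 + ε) ^ 2) * (y' * η g * (1 + ε)) :=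
              mul_le_mul h3 h4 (by positivity) (by positivity)
          _ = _ := by ring
      have E : a' * b = a * b' := le_antisymm (B a a' b b' a3 (by omega) a4 b5) (by
        have := B b b' a a' b3 (by omega) b4 a5
        rwa [mul_comm, mul_comm b] at this)
      have E2 : d' * b = d * b' := by
        refine Nat.eq_of_mul_eq_mul_right g0 ?_
        rw [mul_right_comm, ← e', mul_right_comm, ← e, E]
      exact (Nat.minFac_dvd d).trans (cop.dvd_of_dvd_mul_left ⟨b', E2⟩)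
    · exact ⟨2, Nat.prime_two, fun _ n n' h1 h2 h3 h4 h5 => absurd ⟨n, n', h1, h2, h3, h4, h5⟩ c⟩
  choose p hp using key
  refine ⟨s.image p, fun q hq => ?_, card_image_le, fun n n1 nL hn k1 hk1 e k' hk' n' n1' h => ?_⟩
  · obtain ⟨g, -, rfl⟩ := mem_image.1 hq
    exact (hp g).1
  refine or_iff_not_imp_right.2 fun c => ?_
  rw [not_lt] at c
  obtain ⟨u1, u2⟩ := nr k1 hk1
  obtain ⟨v1, v2⟩ := nr k' hk'
  rw [e] at u1 u2
  have k0 := hη k1 hk1
  have k0' := hη k' hk'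
  have n0 : (0 : ℝ) < n := by exact_mod_cast n1
  have n0' : (0 : ℝ) < n' := by exact_mod_cast n1'
  have h' := h.trans (mul_le_mul_of_nonneg_right (show e0 / 4 ≤ ε by linarith) (by positivity))
  rw [abs_le] at h'
  have w1 : n' * η (gr k') * (1 - ε) ≤ n * η G * (1 + ε) ^ 2 :=
    calc _ = n' * ((1 - ε) * η (gr k')) := by ring
      _ ≤ n' * η k' := by gcongr
      _ ≤ (1 + ε) * (n * η k1) := by linarith [h'.2]
      _ ≤ (1 + ε) * (n * ((1 + ε) * η G)) := by gcongr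
      _ = _ := by ring
  have w2 : n * η G * (1 - ε) ^ 2 ≤ n' * η (gr k') * (1 + ε) :=
    calc _ = (1 - ε) * (n * ((1 - ε) * η G)) := by ring
      _ ≤ (1 - ε) * (n * η k1) := by gcongr
      _ ≤ n' * η k' := by linarith [h'.1]
      _ ≤ n' * ((1 + ε) * η (gr k')) := by gcongr
      _ = _ := by ring
  have p1 : (1 - ε) ^ 3 ≤ (1 - ε) ^ 2 := pow_le_pow_of_le_one e1.le (by linarith) (by norm_num)
  have p2 : (1 - ε) ^ 2 ≤ 1 - ε := by nlinarith only [he0, he, hL, ε0, L1, ε1]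
  have p3 : (1 + ε) ^ 2 ≤ (1 + ε) ^ 3 := pow_le_pow_right₀ (by linarith) (by norm_num)
  have p4 : 1 + ε ≤ (1 + ε) ^ 2 := by nlinarith only [he0, he, ε0, ε1]
  have g0' := hη _ (hgr.mem k' hk')
  have le : n' ≤ n := by
    refine A _ _ (by nlinarith only [n1, nL]) (le_of_mul_le_mul_right ?_ G0)
    calc _ = n' * η G * (1 - ε) ^ 3 := by ring
      _ ≤ n' * η (gr k') * (1 - ε) := by gcongr; linarith
      _ ≤ n * η G * (1 + ε) ^ 3 := w1.trans (by gcongr)
      _ = _ := by ring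
  by_cases c2 : gr k' = G
  · refine ⟨c2, le_antisymm le (A _ _ (by nlinarith only [n1, nL, le]) (le_of_mul_le_mul_right ?_ G0))⟩
    rw [c2] at w2
    calc _ = n * η G * (1 - ε) ^ 3 := by ring
      _ ≤ n * η G * (1 - ε) ^ 2 := by gcongr
      _ ≤ n' * η G * (1 + ε) ^ 3 := w2.trans (by gcongr; linarith)
      _ = _ := by ring
  · exfalso
    rcases le.lt_or_eq with lt | rfl
    · exact hn _ (mem_image_of_mem p (hgr.mem k' hk'))
        ((hp _).2 (hη _ (hgr.mem k' hk')) n n' n1' lt nL w1 w2)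
    · have sp := hgr.sep k' hk' k1 hk1 (by rwa [e])
      rw [← Complex.ofReal_sub, Complex.norm_real, Complex.norm_real, Complex.norm_real,
        Real.norm_eq_abs, Real.norm_eq_abs, Real.norm_eq_abs, abs_of_pos k0, abs_of_pos k0'] at sp
      rw [← mul_sub, abs_mul, abs_of_pos n0, mul_left_comm] at h
      have h2 := sp.trans_le (le_of_mul_le_mul_left h n0)
      have h3 : (1 - ε) * η k1 ≤ η k' := le_of_mul_le_mul_left (by linarith [h'.1]) n0
      have h4 : η k1 / 4 ≤ min (η k') (η k1) := le_min (by nlinarith only [hL, L1, G0, c, u2, v1]) (by linarith)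
      have := mul_le_mul_of_nonneg_left h4 he0.le
      linarith

end Pool.Agent.Work.MP_97f157_lc.Tau
end
end

-- merged part: Pool.Agent.Work.MP_97f157_lc.TauJac
section
/-! Polynomial bound for Jacobsthal's function (linear sieve), and a divisor bound. -/

noncomputable section
open Finset Filter Pool.Agent.Lib.ANT

namespace Pool.Agent.Work.MP_97f157_lc.Tau

theorem jac_inv_le_exp {x : ℝ} (h1 : x ≤ 1 / 2) : (1 - x)⁻¹ ≤ Real.exp (x + 2 * x ^ 2) := by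
  refine le_trans ?_ (Real.add_one_le_exp _)
  rw [inv_le_iff_one_le_mul₀ (by linarith)]
  linarith [mul_nonneg (sq_nonneg x) (sub_nonneg.2 h1)]

theorem jac_linHyp : ∃ w : ℕ, ∀ Ps : Finset ℕ, (∀ p ∈ Ps, p.Prime ∧ w < p) →
    LinHyp Ps (fun p => (p : ℝ)⁻¹) (1 / 1000) := by
  obtain ⟨η, η0, hη⟩ : ∃ η : ℝ, 0 < η ∧ Real.exp (2 * η) = 1 + 1 / 1000 :=
    ⟨Real.log (1 + 1 / 1000) / 2, div_pos (Real.log_pos (by norm_num)) (by norm_num), by
      rw [mul_div_cancel₀ _ (by norm_num), Real.exp_log (by norm_num)]⟩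
  obtain ⟨w, h1, h2, h3⟩ := (((Real.tendsto_log_atTop.comp
    tendsto_natCast_atTop_atTop).eventually_ge_atTop (48 / η)).and
    ((tendsto_natCast_atTop_atTop.eventually_ge_atTop (5 / η)).and
      (eventually_ge_atTop (2 : ℕ)))).exists
  refine ⟨w, fun Ps hPs => ?_⟩
  have w2 : (2 : ℝ) ≤ w := by exact_mod_cast h3
  have g1 : ∀ p ∈ Ps, (p : ℝ)⁻¹ ≤ 1 / 2 := fun p hp => by
    rw [one_div]
    exact inv_anti₀ (by norm_num) (by exact_mod_cast (hPs p hp).1.two_le)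
  refine ⟨fun p hp => (hPs p hp).1.two_le, fun p _ => by positivity,
    fun p hp => by linarith [g1 p hp], fun u v hu huv => ?_⟩
  have lu := Real.log_pos hu
  have luv := Real.log_le_log (by linarith) huv
  set Q := Ps.filter fun p : ℕ => u ≤ p ∧ (p : ℝ) < v with hQ
  rcases Q.eq_empty_or_nonempty with h | h
  · rw [h, prod_empty, inv_one, le_div_iff₀ lu]
    linarith
  obtain ⟨a1, a2, -⟩ : Q.min' h ∈ Ps ∧ u ≤ Q.min' h ∧ (Q.min' h : ℝ) < v := by
    simpa [hQ] using Q.min'_mem h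
  obtain ⟨c1, -, c2⟩ : Q.max' h ∈ Ps ∧ u ≤ Q.max' h ∧ (Q.max' h : ℝ) < v := by
    simpa [hQ] using Q.max'_mem h
  have s1 : Q ⊆ insert (Q.min' h) ((Ioc (Q.min' h) (Q.max' h)).filter Nat.Prime) := fun p hp => by
    rcases (Q.min'_le p hp).eq_or_lt with k | k
    · exact k ▸ mem_insert_self _ _
    · exact mem_insert_of_mem (mem_filter.2 ⟨mem_Ioc.2 ⟨k, Q.le_max' p hp⟩,
        (hPs p (mem_filter.1 hp).1).1⟩)
  have ac := Q.min'_le_max' h
  generalize Q.min' h = a at *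
  generalize Q.max' h = c at *
  have wa : (w : ℝ) ≤ a := Nat.cast_le.2 (hPs a a1).2.le
  have t1 := (abs_le.1 (abs_sum_inv_prime_Ioc_sub_le a c (hPs a a1).1.two_le ac)).2
  have lw : 0 < Real.log w := Real.log_pos (by linarith)
  have lwa : Real.log w ≤ Real.log a := Real.log_le_log (by linarith) wa
  have t0 : 48 / Real.log a ≤ η := by
    rw [div_le_comm₀ (by linarith) η0]
    exact le_trans h1 lwa
  have k2 : (a : ℝ)⁻¹ ≤ η / 5 := by
    rw [div_le_comm₀ η0 (by linarith)] at h2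
    have := inv_anti₀ (by linarith) wa
    rw [div_eq_mul_inv] at h2
    linarith
  have t2 : ∑ p ∈ (Ioc a c).filter Nat.Prime, 2 * ((p : ℝ)⁻¹) ^ 2 ≤ 2 * (a : ℝ)⁻¹ := by
    have k1 := sum_Ioc_inv_sq_le_sub (α := ℝ) (hPs a a1).1.ne_zero ac
    have k3 : (0 : ℝ) ≤ (c : ℝ)⁻¹ := by positivity
    calc _ ≤ ∑ p ∈ Ioc a c, 2 * ((p : ℝ)⁻¹) ^ 2 :=
          sum_le_sum_of_subset_of_nonneg (filter_subset _ _) fun _ _ _ => by positivity
      _ ≤ _ := by
          simp only [inv_pow]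
          rw [← mul_sum]
          linarith only [k1, k3]
  have t3 : 2 * ((a : ℝ)⁻¹) ^ 2 ≤ (a : ℝ)⁻¹ := by
    have : (0 : ℝ) ≤ (a : ℝ)⁻¹ := by positivity
    nlinarith only [this, g1 a a1]
  have t4 := sum_le_sum_of_subset_of_nonneg
    (f := fun p : ℕ => (p : ℝ)⁻¹ + 2 * ((p : ℝ)⁻¹) ^ 2) s1 fun p _ _ => by positivity
  rw [sum_insert (by simp), sum_add_distrib (s := (Ioc a c).filter Nat.Prime)] at t4
  have la : Real.log u ≤ Real.log a := Real.log_le_log (by linarith only [hu]) a2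
  have lc : Real.log c ≤ Real.log v :=
    Real.log_le_log (by exact_mod_cast (hPs c c1).1.pos) c2.le
  have lac : Real.log a ≤ Real.log c := Real.log_le_log (by linarith) (Nat.cast_le.2 ac)
  have l1 := Real.log_le_log lu la
  have l2 := Real.log_le_log (by linarith) lc
  have k0 : (0 : ℝ) ≤ (a : ℝ)⁻¹ := by positivity
  calc _ = ∏ p ∈ Q, (1 - (p : ℝ)⁻¹)⁻¹ := (prod_inv_distrib _).symm
    _ ≤ ∏ p ∈ Q, Real.exp ((p : ℝ)⁻¹ + 2 * ((p : ℝ)⁻¹) ^ 2) :=
      prod_le_prod (fun p hp => inv_nonneg.2 (by linarith only [g1 p (mem_filter.1 hp).1]))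
        fun p hp => jac_inv_le_exp (g1 p (mem_filter.1 hp).1)
    _ ≤ Real.exp (2 * η + (Real.log (Real.log v) - Real.log (Real.log u))) := by
      rw [← Real.exp_sum]
      exact Real.exp_le_exp.2 (by linarith only [η0, t1, t0, k2, t2, t3, t4, l1, l2])
    _ = _ := by
      rw [Real.exp_add, Real.exp_sub, hη, Real.exp_log lu, Real.exp_log (by linarith only [lu, luv]), mul_div_assoc]

theorem jac_prod_ge (S : Finset ℕ) (h : ∀ p ∈ S, 2 ≤ p) :
    ((S.card : ℝ) + 1)⁻¹ ≤ ∏ p ∈ S, (1 - (p : ℝ)⁻¹) := by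
  induction S using Finset.induction_on_max with
  | empty => simp
  | insert a s ha ih =>
    have hn : a ∉ s := fun hh => lt_irrefl a (ha a hh)
    have h1 : s.card ≤ a - 2 := by
      rw [← Nat.card_Ico]
      exact card_le_card fun p hp => mem_Ico.2 ⟨h p (mem_insert_of_mem hp), ha p hp⟩
    have h2 := h a (mem_insert_self _ _)
    have h3 : (s.card : ℝ) + 1 + 1 ≤ a := by exact_mod_cast (show s.card + 1 + 1 ≤ a by omega)
    have h4 := inv_anti₀ (by positivity) h3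
    rw [prod_insert hn, card_insert_of_notMem hn]
    push_cast
    refine le_trans ?_ (mul_le_mul (sub_le_sub_left h4 1) (ih fun p hp => h p (mem_insert_of_mem hp))
      (by positivity) ?_)
    · apply le_of_eq
      field_simp
      ring
    · exact sub_nonneg.2 (inv_le_one_of_one_le₀ (by exact_mod_cast (show 1 ≤ a by omega)))

theorem jac_count {w : ℕ} (x X : ℕ) (d : Finset ℕ) (hd : ∀ p ∈ d, p.Prime ∧ w < p) :
    |((((Ioc x (x + w.factorial * X)).filter (fun y => y ≡ 1 [MOD w.factorial])).filter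
      (fun y => ∀ p ∈ d, p ∣ y)).card : ℝ) - X * ∏ p ∈ d, (p : ℝ)⁻¹| ≤ 1 := by
  have co : w.factorial.Coprime (∏ p ∈ d, p) := Nat.Coprime.prod_right fun p hp =>
    ((Nat.Prime.coprime_iff_not_dvd (hd p hp).1).2 fun h =>
      absurd (((hd p hp).1.dvd_factorial).1 h) (not_le.2 (hd p hp).2)).symm
  obtain ⟨v, v1, v2⟩ := Nat.chineseRemainder co 1 0
  have p0 : 0 < ∏ p ∈ d, p := prod_pos fun p hp => (hd p hp).1.pos
  have := abs_card_modEq_sub_le x (w.factorial * X) (w.factorial * ∏ p ∈ d, p) v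
    (Nat.mul_pos w.factorial_pos p0)
  have e : (Ioc x (x + w.factorial * X)).filter (fun y => y ≡ 1 [MOD w.factorial] ∧ ∀ p ∈ d, p ∣ y)
      = (Ioc x (x + w.factorial * X)).filter (fun y => y ≡ v [MOD w.factorial * ∏ p ∈ d, p]) := by
    refine filter_congr fun y _ => ?_
    rw [← Nat.modEq_and_modEq_iff_modEq_mul co]
    refine and_congr ⟨fun h => h.trans v1.symm, fun h => h.trans v1⟩ ⟨fun h => ?_, fun h p hp => ?_⟩
    · exact (Nat.modEq_zero_iff_dvd.2 (Finset.prod_primes_dvd y (fun p hp => (hd p hp).1.prime)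
        h)).trans v2.symm
    · exact (dvd_prod_of_mem _ hp).trans (Nat.modEq_zero_iff_dvd.1 (h.trans v2))
  rw [filter_filter, e, prod_inv_distrib, ← div_eq_mul_inv]
  push_cast at this
  rwa [mul_div_mul_left _ _ (by positivity)] at this

theorem jac_card_rSet {z : ℕ} (hz : 1 < z) (Ps : Finset ℕ) (hPs : ∀ p ∈ Ps, p.Prime) :
    (rSet 1 ((z : ℝ) ^ 12) (below Ps z)).card ≤ z ^ 12 := by
  have z1 : (1 : ℝ) < z := by exact_mod_cast hz
  have z2 : (z : ℝ) ≤ (z : ℝ) ^ 12 := le_self_pow₀ z1.le (by norm_num)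
  rw [← card_range (z ^ 12)]
  refine card_le_card_of_injOn (fun d => ∏ p ∈ d, p) (fun d hd => ?_) fun d hd e he h => ?_
  · obtain ⟨h1, h2⟩ := mem_rSet.1 hd
    have := prod_lt_of_rOK le_rfl h2 (z1.trans_le z2) fun p hp =>
      ⟨(hPs p (mem_below.1 (h1 hp)).1).pos, (mem_below.1 (h1 hp)).2.trans_le z2⟩
    rw [← Nat.cast_prod] at this
    exact mem_coe.2 (mem_range.2 (by exact_mod_cast this))
  · rw [← Nat.primeFactors_prod fun p hp => hPs p (mem_below.1 ((mem_rSet.1 hd).1 hp)).1,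
      ← Nat.primeFactors_prod fun p hp => hPs p (mem_below.1 ((mem_rSet.1 he).1 hp)).1]
    exact congrArg _ h

theorem jacobsthal_poly : ∃ C c : ℕ, ∀ n M : ℕ, C * (n + 1) ^ c ≤ M → JacH n M := by
  classical
  obtain ⟨w, hw⟩ := jac_linHyp
  refine ⟨w.factorial * 8 * 4 ^ 12 + 1, 25, fun n M hM P hP hn x => ?_⟩
  by_contra hc
  push Not at hc
  obtain ⟨z, hz⟩ : ∃ z, z = 4 * (n + 1) ^ 2 := ⟨_, rfl⟩
  obtain ⟨X, hX⟩ : ∃ X, X = 8 * (n + 1) * z ^ 12 := ⟨_, rfl⟩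
  have hN : w.factorial * X < M := by
    have : 0 < (n + 1) ^ 25 := by positivity
    have e : (w.factorial * 8 * 4 ^ 12 + 1) * (n + 1) ^ 25 = w.factorial * X + (n + 1) ^ 25 := by
      rw [hX, hz]; ring
    omega
  set Ps := P.filter (fun p => w < p)
  have hPs : ∀ p ∈ Ps, p.Prime ∧ w < p := fun p hp =>
    ⟨hP p (mem_filter.1 hp).1, (mem_filter.1 hp).2⟩
  have hc1 : (Ps.card : ℝ) ≤ n := by exact_mod_cast (card_filter_le _ _).trans hn
  have nz : n + 1 < z := by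
    rw [hz]
    clear * -
    nlinarith
  have z1 : (1 : ℝ) < z := by exact_mod_cast (show 1 < z by omega)
  set A := (Ioc x (x + w.factorial * X)).filter (fun y => y ≡ 1 [MOD w.factorial]) with hA
  set R := rSet 1 ((z : ℝ) ^ 12) (below Ps z)
  have r1 := rosser_lower (hw Ps hPs) (by norm_num) le_rfl z1 le_rfl
  have r2 : (R.card : ℝ) ≤ (z : ℝ) ^ 12 := by
    rw [← Nat.cast_pow]
    exact Nat.cast_le.2 (jac_card_rSet (z := z) (by omega) Ps fun p hp => (hPs p hp).1)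
  have r3 : ((n : ℝ) + 1)⁻¹ ≤ VV Ps (fun p => (p : ℝ)⁻¹) z :=
    le_trans (inv_anti₀ (Nat.cast_add_one_pos (below Ps z).card) (by
      have : ((below Ps z).card : ℝ) ≤ Ps.card := by exact_mod_cast card_filter_le _ _
      linarith only [hc1, this])) (jac_prod_ge _ fun p hp => (hPs p (mem_below.1 hp).1).1.two_le)
  have l1 : X * rSum 1 ((z : ℝ) ^ 12) (below Ps z) (fun p => (p : ℝ)⁻¹) - R.card ≤
      ∑ d ∈ R, (-1 : ℝ) ^ d.card * (A.filter (fun y => ∀ p ∈ d, p ∣ y)).card := by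
    rw [rSum, mul_sum, card_eq_sum_ones, Nat.cast_sum, ← sum_sub_distrib]
    refine sum_le_sum fun d hd => ?_
    have := abs_le.1 (jac_count x X d fun p hp => hPs p (mem_below.1 ((mem_rSet.1 hd).1 hp)).1)
    rcases neg_one_pow_eq_or ℝ d.card with h | h <;> rw [h] <;> push_cast <;> linarith only [this, this.1, this.2]
  have l2 : ∑ d ∈ R, (-1 : ℝ) ^ d.card * (A.filter (fun y => ∀ p ∈ d, p ∣ y)).card ≤
      ∑ p ∈ Ps \ below Ps z, ((A.filter (fun y => ∀ q ∈ ({p} : Finset ℕ), q ∣ y)).card : ℝ) := by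
    simp only [card_filter, Nat.cast_sum, mul_sum, Nat.cast_ite, Nat.cast_one, Nat.cast_zero]
    rw [sum_comm, sum_comm (s := Ps \ below Ps z)]
    refine sum_le_sum fun y hy => ?_
    rw [sum_rSet_ind]
    refine (sum_rSet_lower _ _).trans ?_
    have h0 : ∀ p ∈ Ps \ below Ps z, (0 : ℝ) ≤ if ∀ q ∈ ({p} : Finset ℕ), q ∣ y then 1 else 0 :=
      fun p _ => by split_ifs <;> norm_num
    split_ifs with h
    · obtain ⟨y1, y2⟩ := mem_filter.1 hy
      obtain ⟨p, p1, p2⟩ := hc y (mem_Ioc.1 y1).1.le (by have := (mem_Ioc.1 y1).2; omega)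
      have p3 : w < p := not_le.1 fun k => (hP p p1).one_lt.ne' (Nat.dvd_one.1
        ((y2.dvd_iff ((hP p p1).dvd_factorial.2 k)).1 p2))
      have p4 : p ∈ Ps \ below Ps z := mem_sdiff.2 ⟨mem_filter.2 ⟨p1, p3⟩, fun k =>
        notMem_empty p (h ▸ mem_filter.2 ⟨k, p2⟩)⟩
      refine le_trans ?_ (single_le_sum h0 p4)
      simp [p2]
    · exact sum_nonneg h0
  have l3 : ∑ p ∈ Ps \ below Ps z, ((A.filter (fun y => ∀ q ∈ ({p} : Finset ℕ), q ∣ y)).card : ℝ)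
      ≤ n * (X * (z : ℝ)⁻¹ + 1) := by
    refine (sum_le_card_nsmul _ _ (X * (z : ℝ)⁻¹ + 1) fun p hp => ?_).trans ?_
    · obtain ⟨p1, p2⟩ := mem_sdiff.1 hp
      have := (abs_le.1 (jac_count x X {p} fun q hq => mem_singleton.1 hq ▸ hPs p p1)).2
      rw [prod_singleton] at this
      have k := mul_le_mul_of_nonneg_left (inv_anti₀ (by linarith only [z1])
        (not_lt.1 fun k => p2 (mem_below.2 ⟨p1, k⟩))) (Nat.cast_nonneg (α := ℝ) X)
      linarith only [this, k]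
    · rw [nsmul_eq_mul]
      have : ((Ps \ below Ps z).card : ℝ) ≤ Ps.card := by exact_mod_cast card_le_card sdiff_subset
      exact mul_le_mul_of_nonneg_right (this.trans hc1) (by positivity)
  have e1 : (X : ℝ) * ((n : ℝ) + 1)⁻¹ = 8 * (z : ℝ) ^ 12 := by
    rw [hX]; push_cast; field_simp
  have e2 : ((n : ℝ) + 1) * (X * (z : ℝ)⁻¹) = 2 * (z : ℝ) ^ 12 := by
    have : (z : ℝ) = 4 * ((n : ℝ) + 1) ^ 2 := by rw [hz]; push_cast; ring
    rw [hX]; push_cast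
    generalize (z : ℝ) ^ 12 = t
    rw [this]; field_simp; ring
  have e3 : (n : ℝ) < (z : ℝ) ^ 12 :=
    lt_of_lt_of_le (by exact_mod_cast (show n < z by omega)) (le_self_pow₀ z1.le (by norm_num))
  have X0 := Nat.cast_nonneg (α := ℝ) X
  have e4 := mul_le_mul_of_nonneg_left r1 X0
  have e5 := mul_le_mul_of_nonneg_left r3 X0
  have e6 : 0 ≤ (X : ℝ) * (z : ℝ)⁻¹ := by positivity
  linarith only [r2, l1, l2, l3, e1, e2, e3, e4, e5, e6]

theorem jac_cube (p k : ℕ) (hp : p.Prime) :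
    (k + 1) ^ 3 ≤ (if p = 2 then 8 else if p = 3 then 3 else if p < 8 then 2 else 1) * p ^ k := by
  have a : ∀ b c j : ℕ, (j + 1) ^ 3 ≤ c * b ^ j → (∀ i, j ≤ i → (i + 2) ^ 3 ≤ b * (i + 1) ^ 3) →
      ∀ i, j ≤ i → (i + 1) ^ 3 ≤ c * b ^ i := fun b c j h1 h2 i hi => by
    induction i, hi using Nat.le_induction with
    | base => exact h1
    | succ i hi ih =>
      calc _ ≤ b * (i + 1) ^ 3 := h2 i hi
        _ ≤ b * (c * b ^ i) := Nat.mul_le_mul_left _ ih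
        _ = _ := by ring
  split_ifs with h1 h2 h3
  · subst h1
    rcases lt_or_ge k 3 with h | h
    · interval_cases k <;> norm_num
    · refine a 2 8 3 (by norm_num) (fun i hi => ?_) k h
      obtain ⟨j, rfl⟩ := Nat.exists_eq_add_of_le hi
      linarith [Nat.zero_le j, Nat.zero_le (j ^ 2), Nat.zero_le (j ^ 3)]
  · subst h2
    rcases lt_or_ge k 2 with h | h
    · interval_cases k <;> norm_num
    · refine a 3 3 2 (by norm_num) (fun i hi => ?_) k h
      obtain ⟨j, rfl⟩ := Nat.exists_eq_add_of_le hi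
      linarith [Nat.zero_le j, Nat.zero_le (j ^ 2), Nat.zero_le (j ^ 3)]
  · have p5 : 5 ≤ p := hp.five_le_of_ne_two_of_ne_three h1 h2
    refine le_trans ?_ (Nat.mul_le_mul_left _ (Nat.pow_le_pow_left p5 k))
    rcases lt_or_ge k 1 with h | h
    · interval_cases k; norm_num
    · refine a 5 2 1 (by norm_num) (fun i hi => ?_) k h
      obtain ⟨j, rfl⟩ := Nat.exists_eq_add_of_le hi
      linarith [Nat.zero_le j, Nat.zero_le (j ^ 2), Nat.zero_le (j ^ 3)]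
  · refine le_trans ?_ (Nat.mul_le_mul_left _ (Nat.pow_le_pow_left (not_lt.1 h3) k))
    refine a 8 1 0 (by norm_num) (fun i _ => ?_) k (Nat.zero_le k)
    linarith [Nat.zero_le i, Nat.zero_le (i ^ 2), Nat.zero_le (i ^ 3)]

theorem card_divisors_cube_le (n : ℕ) : (n.divisors.card) ^ 3 ≤ 125 * n := by
  rcases n.eq_zero_or_pos with rfl | hn
  · simp
  set c : ℕ → ℕ := fun p => if p = 2 then 8 else if p = 3 then 3 else if p < 8 then 2 else 1
  have h1 : ∏ p ∈ n.primeFactors, c p ≤ 125 := by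
    rw [← prod_filter_mul_prod_filter_not n.primeFactors (fun p => p < 8),
      prod_eq_one (s := n.primeFactors.filter fun p => ¬ p < 8) fun p hp => by
        have := (mem_filter.1 hp).2
        simp only [c]
        rw [if_neg (by omega), if_neg (by omega), if_neg this], mul_one]
    refine (prod_le_prod_of_subset_of_one_le' (t := {2, 3, 5, 7}) (fun p hp => ?_)
      fun p _ _ => ?_).trans (by decide)
    · obtain ⟨a, b⟩ := mem_filter.1 hp
      have := Nat.prime_of_mem_primeFactors a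
      interval_cases p <;> first | decide | exact absurd this (by decide)
    · simp only [c]
      split_ifs <;> norm_num
  rw [Nat.card_divisors hn.ne', ← prod_pow]
  calc _ ≤ ∏ p ∈ n.primeFactors, c p * p ^ n.factorization p :=
        prod_le_prod' fun p hp => jac_cube p _ (Nat.prime_of_mem_primeFactors hp)
    _ = (∏ p ∈ n.primeFactors, c p) * n := by
        rw [prod_mul_distrib]
        exact congrArg _ (Nat.prod_factorization_pow_eq_self hn.ne')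
    _ ≤ _ := Nat.mul_le_mul_right _ h1

theorem exists_par : ∃ C c : ℕ, ∀ m : ℕ, ∃ M, Par m M ∧ M ≤ C * (m + 1) ^ c := by
  obtain ⟨C, c, h⟩ := jacobsthal_poly
  refine ⟨(C + 10 ^ 12) * 2 ^ (c + 1), c + 1, fun m => ⟨_, ⟨?_, ?_, h _ _ ?_⟩, le_rfl⟩⟩
  all_goals
    have e : (C + 10 ^ 12) * 2 ^ (c + 1) * (m + 1) ^ (c + 1) =
        (C + 10 ^ 12) * ((2 * m + 2) ^ c * (2 * m + 2)) := by
      rw [mul_assoc, ← mul_pow, ← pow_succ, mul_add, mul_one]
    have e1 : 1 ≤ (2 * m + 2) ^ c := Nat.one_le_pow _ _ (by omega)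
    rw [e]
  · exact (Nat.le_add_left _ C).trans (Nat.le_mul_of_pos_right _ (by positivity))
  · exact le_trans (by nlinarith only [e1]) (Nat.le_mul_of_pos_left _ (by positivity))
  · exact Nat.mul_le_mul (Nat.le_add_right _ _) ((Nat.pow_le_pow_left (by omega) c).trans
      (Nat.le_mul_of_pos_right _ (by omega)))

end Pool.Agent.Work.MP_97f157_lc.Tau
end
end

-- merged part: Pool.Agent.Work.MP_97f157_lc.TauLatt
section
/-! Moebius inversion on probes, and Kos' inequality. -/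

noncomputable section
open Finset

namespace Pool.Agent.Work.MP_97f157_lc.Tau

lemma latt_tail (g : ℕ → ℂ) (S : Finset ℕ) (hS : ∀ k ∈ S, 1 ≤ k) (e : ℝ)
    (h : ∀ F : Finset ℕ, (∀ k ∈ F, 1 ≤ k ∧ k ∉ S) → ∑ k ∈ F, ‖g k‖ ≤ e) :
    ‖∑' k, g (k + 1) - ∑ k ∈ S, g k‖ ≤ e := by
  have h1 : ∀ n, ∑ k ∈ Ico 1 (n + 1) \ S, ‖g k‖ ≤ e := fun n =>
    h _ fun k hk => ⟨(mem_Ico.1 (mem_sdiff.1 hk).1).1, (mem_sdiff.1 hk).2⟩
  have hs : Summable fun k => g (k + 1) := by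
    refine Summable.of_norm (summable_of_sum_range_le (c := e + ∑ k ∈ S, ‖g k‖)
      (fun _ => norm_nonneg _) fun n => ?_)
    rw [range_eq_Ico, sum_Ico_add' (fun k => ‖g k‖), ← sum_sdiff (inter_subset_left (s₂ := S)),
      sdiff_inter_self_left]
    exact add_le_add (h1 n) (sum_le_sum_of_subset_of_nonneg inter_subset_right
      fun _ _ _ => norm_nonneg _)
  refine le_of_tendsto ((hs.hasSum.tendsto_sum_nat.sub_const (∑ k ∈ S, g k)).norm)
    (Filter.eventually_atTop.2 ⟨S.sup id, fun n hn => ?_⟩)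
  have : S ⊆ Ico 1 (n + 1) := fun k hk =>
    mem_Ico.2 ⟨hS k hk, Nat.lt_succ_of_le ((le_sup (f := id) hk).trans hn)⟩
  rw [range_eq_Ico, sum_Ico_add' g, ← sum_sdiff this, add_sub_cancel_right]
  exact (norm_sum_le _ _).trans (h1 n)

lemma latt_div (N : ℕ) {t : ℝ} (ht : 0 ≤ t) (h : t ^ 6 ≤ N) :
    (N.divisors.card : ℝ) * t ≤ 5 * √N := by
  have h1 : ((N.divisors.card : ℝ)) ^ 3 ≤ 125 * N := by exact_mod_cast card_divisors_cube_le N
  have h2 : t ^ 3 ≤ √N := Real.le_sqrt_of_sq_le (by rw [← pow_mul]; exact h)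
  have h3 : √(N : ℝ) ^ 2 = N := Real.sq_sqrt (Nat.cast_nonneg N)
  refine le_of_pow_le_pow_left₀ (n := 3) (by norm_num) (by positivity) ?_
  calc ((N.divisors.card : ℝ) * t) ^ 3 = (N.divisors.card : ℝ) ^ 3 * t ^ 3 := by ring
    _ ≤ 125 * N * √N := mul_le_mul h1 h2 (by positivity) (by positivity)
    _ = (5 * √N) ^ 3 := by nth_rw 1 [← h3]; ring

lemma latt_arg {h : ℝ} {c nc N : ℕ} (hc : 1 ≤ c) (hn : 1 ≤ nc) (hN : c ∣ N) :
    nc * h / c / ((nc * (N / c) : ℕ) : ℝ) = h / N := by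
  obtain ⟨j, rfl⟩ := hN
  rw [Nat.mul_div_cancel_left _ hc]
  have : (c : ℝ) ≠ 0 := by positivity
  have : (nc : ℝ) ≠ 0 := by positivity
  push_cast
  by_cases hj : (j : ℝ) = 0
  · simp [hj]
  · field_simp

lemma latt_err {m M : ℕ} (hp : Par m M) {h σ B ε P : ℝ} (hh : 0 < h) (hσ : 0 < σ)
    (hσh : σ * (M : ℝ) ^ 850 ≤ h) (hP : (M : ℝ) ^ 260 * h ≤ 2 * P) (hε0 : 0 ≤ ε) (hB : 0 ≤ B)
    {H : Finset ℝ} (hH : H.card ≤ M) (hη : ∀ η ∈ H, ((M : ℝ) ^ 165)⁻¹ * σ ≤ η) {c nc D : ℕ}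
    (hc : 1 ≤ c) (hn : 1 ≤ nc) (hPc : P = nc * h / c)
    (hd : ∀ η ∈ H, (M : ℝ) ^ 260 * σ ≤ η → ∀ k : ℕ, 1 ≤ k → |k * η - P| ≤ σ → nc ∣ k)
    (A : ℝ → ℂ) (hA1 : ∀ η, 0 < η → ‖A η‖ ≤ B * √(η / h) + ε)
    (hA3 : ∀ F : Finset ℕ, (∀ k ∈ F, 1 ≤ k ∧ ∀ η ∈ H, σ < |k * η - P|) →
      ∑ k ∈ F, ‖A (P / k)‖ ≤ ε) (F : Finset ℕ)
    (hF : ∀ k ∈ F, 1 ≤ k ∧ k ∉ ((Icc 1 D).filter (c ∣ ·)).image fun N => nc * (N / c)) :
    ∑ k ∈ F, ‖A (P / k)‖ ≤ ε +
      ∑ N ∈ ((H.image fun η => ⌊h / η + 1 / 2⌋₊).filter (D < ·)).filter (c ∣ ·), (B / √N + ε) +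
      3 * (M : ℝ) ^ 166 * (2 * B / (M : ℝ) ^ 295 + ε) := by
  classical
  have M0 := hp.pos
  have c0 : (0 : ℝ) < c := by exact_mod_cast hc
  have n0 : (0 : ℝ) < nc := by exact_mod_cast hn
  have P0 : 0 < P := by rw [hPc]; positivity
  have hσP : 2 * σ ≤ P := by
    have h1 := hp.mul_pow_le (c := 4) (by norm_num) (show 0 < 260 by norm_num)
    have h2 := hp.pow_mono (show 0 ≤ 850 by norm_num)
    rw [pow_zero] at h1 h2
    nlinarith only [hh, hσ, hσh, hP, h1, h2]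
  let p1 : ℕ → Prop := fun k => ∀ η ∈ H, σ < |k * η - P|
  let p2 : ℕ → Prop := fun k => ∃ η ∈ H, (M : ℝ) ^ 260 * σ ≤ η ∧ |k * η - P| ≤ σ
  rw [← sum_filter_add_sum_filter_not F p1, ← sum_filter_add_sum_filter_not (F.filter (¬ p1 ·)) p2,
    add_assoc]
  refine add_le_add (hA3 _ fun k hk => ⟨(hF k (mem_filter.1 hk).1).1, (mem_filter.1 hk).2⟩)
    (add_le_add ?_ ?_)
  · refine (sum_le_sum_of_subset_of_nonneg (t := (((H.image fun η => ⌊h / η + 1 / 2⌋₊).filter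
      (D < ·)).filter (c ∣ ·)).image fun N => nc * (N / c)) (fun k hk => ?_)
      fun _ _ _ => norm_nonneg _).trans ((sum_image_le_of_nonneg fun _ _ => norm_nonneg _).trans
        (sum_le_sum fun N hN => ?_))
    · obtain ⟨h1, η, h2, h3, h4⟩ := mem_filter.1 hk
      obtain ⟨h5, h6⟩ := hF k (mem_filter.1 h1).1
      obtain ⟨j, rfl⟩ := hd η h2 h3 k h5 h4
      have e : nc * (c * j / c) = nc * j := by rw [Nat.mul_div_cancel_left _ hc]
      have η0 : 0 < η := lt_of_lt_of_le (by positivity) h3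
      refine mem_image.2 ⟨c * j, mem_filter.2 ⟨mem_filter.2 ⟨mem_image.2 ⟨η, h2, ?_⟩, ?_⟩,
        dvd_mul_right _ _⟩, e⟩
      · have e1 : ((c * j : ℕ) : ℝ) - h / η = c / nc / η * (((nc * j : ℕ) : ℝ) * η - P) := by
          rw [hPc]
          push_cast
          field_simp
        have e2 : (c : ℝ) / nc / η * σ ≤ 1 / 4 := by
          have a1 : (c : ℝ) / nc = h / P := by rw [hPc]; field_simp
          have a2 := hp.mul_pow_le (c := 8) (by norm_num) (show 0 < 260 by norm_num)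
          have a3 := hp.pow_mono (show 0 ≤ 260 by norm_num)
          rw [pow_zero] at a2 a3
          rw [a1, div_div, div_mul_eq_mul_div, div_le_iff₀ (by positivity)]
          have a4 : 4 * h ≤ P := by nlinarith only [hh, hP, a2]
          have a5 : σ ≤ η := by nlinarith only [hσ, h3, a2]
          linarith only [hσ, P0, a4, a5, mul_le_mul a4 a5 hσ.le P0.le]
        have e3 : |((c * j : ℕ) : ℝ) - h / η| ≤ 1 / 4 := by
          rw [e1, abs_mul, abs_of_pos (by positivity)]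
          exact (mul_le_mul_of_nonneg_left h4 (by positivity)).trans e2
        rw [abs_le] at e3
        rw [Nat.floor_eq_iff (by positivity)]
        constructor <;> linarith only [e3]
      · by_contra k
        refine h6 (mem_image.2 ⟨c * j, mem_filter.2 ⟨mem_Icc.2 ⟨?_, not_lt.1 k⟩,
          dvd_mul_right _ _⟩, e⟩)
        exact Nat.mul_pos hc (Nat.pos_of_mul_pos_left h5)
    · obtain ⟨h1, h2⟩ := mem_filter.1 hN
      have N0 : (0 : ℝ) < N := by exact_mod_cast (Nat.zero_le D).trans_lt (mem_filter.1 h1).2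
      rw [hPc, latt_arg hc hn h2]
      refine (hA1 _ (by positivity)).trans (le_of_eq ?_)
      rw [show h / N / h = (N : ℝ)⁻¹ by field_simp, Real.sqrt_inv, div_eq_mul_inv]
  · set F3 := (F.filter (¬ p1 ·)).filter (¬ p2 ·)
    have k1 : ∀ k ∈ F3, 1 ≤ k ∧ ∃ η ∈ H, η < (M : ℝ) ^ 260 * σ ∧ |k * η - P| ≤ σ := fun k hk => by
      obtain ⟨h1, h2⟩ := mem_filter.1 hk
      obtain ⟨h3, h4⟩ := mem_filter.1 h1
      simp only [p1, p2, not_forall, not_lt, not_exists, not_and] at h2 h4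
      obtain ⟨η, h5, h6⟩ := h4
      exact ⟨(hF k h3).1, η, h5, lt_of_not_ge fun k => h2 η h5 k h6, h6⟩
    have η0 : ∀ η ∈ H, 0 < η := fun η h => lt_of_lt_of_le (by positivity) (hη η h)
    have k2 : (F3.card : ℝ) ≤ 3 * (M : ℝ) ^ 166 := by
      have a1 : F3 ⊆ H.biUnion fun η => F3.filter fun k => |k * η - P| ≤ σ := fun k hk => by
        obtain ⟨-, η, h1, -, h2⟩ := k1 k hk
        exact mem_biUnion.2 ⟨η, h1, mem_filter.2 ⟨hk, h2⟩⟩
      have a2 : ∀ η ∈ H, ((F3.filter fun k : ℕ => |k * η - P| ≤ σ).card : ℝ) ≤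
          3 * (M : ℝ) ^ 165 := fun η h => by
        have b0 := η0 η h
        have b1 := hp.pow_mono (show 0 ≤ 165 by norm_num)
        rw [pow_zero] at b1
        refine (count_interval (P / η) ((M : ℝ) ^ 165) (by positivity) _ fun k hk => ?_).trans
          (by linarith)
        rw [show (k : ℝ) - P / η = (k * η - P) / η by field_simp, abs_div, abs_of_pos b0,
          div_le_iff₀ b0]
        refine (mem_filter.1 hk).2.trans ?_
        exact (inv_mul_le_iff₀ (by positivity)).1 (hη η h)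
      calc (F3.card : ℝ) ≤ ((∑ η ∈ H, (F3.filter fun k : ℕ => |k * η - P| ≤ σ).card : ℕ) : ℝ) :=
            Nat.cast_le.2 ((card_le_card a1).trans card_biUnion_le)
        _ ≤ H.card • (3 * (M : ℝ) ^ 165) := by
            rw [Nat.cast_sum]
            exact sum_le_card_nsmul _ _ _ a2
        _ ≤ M * (3 * (M : ℝ) ^ 165) := by
            rw [nsmul_eq_mul]
            exact mul_le_mul_of_nonneg_right (Nat.cast_le.2 hH) (by positivity)
        _ = _ := by ring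
    refine (sum_le_card_nsmul _ _ (2 * B / (M : ℝ) ^ 295 + ε) fun k hk => ?_).trans ?_
    · obtain ⟨h1, η, h2, h3, h4⟩ := k1 k hk
      have k0 : (0 : ℝ) < k := by exact_mod_cast h1
      refine (hA1 _ (by positivity)).trans (add_le_add_left ?_ _)
      rw [show 2 * B / (M : ℝ) ^ 295 = B * (2 / (M : ℝ) ^ 295) by ring]
      refine mul_le_mul_of_nonneg_left (Real.sqrt_le_iff.2 ⟨by positivity, ?_⟩) hB
      have a1 : P / k ≤ 2 * η := by
        rw [div_le_iff₀ k0]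
        have := (abs_le.1 h4).1
        linarith
      rw [div_le_iff₀ hh, div_pow, div_mul_eq_mul_div, le_div_iff₀ (by positivity)]
      calc P / k * ((M : ℝ) ^ 295) ^ 2 ≤ 2 * ((M : ℝ) ^ 260 * σ) * ((M : ℝ) ^ 295) ^ 2 :=
            mul_le_mul_of_nonneg_right (by linarith) (by positivity)
        _ = 2 * (σ * (M : ℝ) ^ 850) := by ring
        _ ≤ 2 ^ 2 * h := by linarith
    · rw [nsmul_eq_mul]
      exact mul_le_mul_of_nonneg_right k2 (by positivity)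

/-- With `P c = n c * h / c`, `U c = ∑' k, Amp (P c / (k+1)) (P c)`, `D = M^108`:
`∑_{c ≤ D} μ(c) ∑_{N' ≤ D/c} Amp (P c / (n c N')) (P c) = ∑_{N ≤ D} ∑_{c ∣ N} μ(c) Amp (h/N) (P c)`,
which is `Amp h Ps` up to `∑_{N ≤ D} d(N) M^{-126} B / √N`.  The other terms `k` of `U c` are
unoccupied (total `≤ ε`), or occupied by `η ≥ M^260 σ`, then `k = n c * N / c` with `N > D`,
`c ∣ N`, `|N η - h| ≤ 2 σ h / Ps` (at most one `N` per `η`; use `card_divisors_cube_le`), or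
occupied by `η < M^260 σ` (at most `3 M^165` values `k` per `η`, each with
`P c / k ≤ 2 M^260 σ`).  Total error `≤ B / (2 M^16)`. -/
theorem latt {m M : ℕ} (hp : Par m M) (h Ps σ B ε : ℝ) (hh : 0 < h) (hσ : 0 < σ)
    (hσh : σ * (M : ℝ) ^ 850 ≤ h) (hP : (M : ℝ) ^ 260 * h ≤ Ps) (hε0 : 0 ≤ ε)
    (hε : ε * (M : ℝ) ^ 400 ≤ B) (H : Finset ℝ) (hH : H.card ≤ M)
    (hη : ∀ η ∈ H, ((M : ℝ) ^ 165)⁻¹ * σ ≤ η) (n : ℕ → ℕ)
    (hn : ∀ c : ℕ, 1 ≤ c → c ≤ M ^ 108 → 1 ≤ n c ∧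
      |n c * h / c - Ps| ≤ ((M : ℝ) ^ 146)⁻¹ * Ps ∧
      ∀ η ∈ H, (M : ℝ) ^ 260 * σ ≤ η → ∀ k : ℕ, 1 ≤ k → |k * η - n c * h / c| ≤ σ → n c ∣ k)
    (Amp : ℝ → ℝ → ℂ)
    (hA1 : ∀ P, |P - Ps| ≤ ((M : ℝ) ^ 146)⁻¹ * Ps → ∀ η, 0 < η → ‖Amp η P‖ ≤ B * √(η / h) + ε)
    (hA2 : ∀ P, |P - Ps| ≤ ((M : ℝ) ^ 146)⁻¹ * Ps → ∀ N : ℕ, 1 ≤ N → N ≤ M ^ 108 →
      ‖Amp (h / N) P - Amp (h / N) Ps‖ ≤ ((M : ℝ) ^ 126)⁻¹ * B / √N)
    (hA3 : ∀ P, |P - Ps| ≤ ((M : ℝ) ^ 146)⁻¹ * Ps → ∀ F : Finset ℕ,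
      (∀ k ∈ F, 1 ≤ k ∧ ∀ η ∈ H, σ < |k * η - P|) → ∑ k ∈ F, ‖Amp (P / k) P‖ ≤ ε)
    (hbig : B / (M : ℝ) ^ 16 ≤ ‖Amp h Ps‖) :
    ∃ c : ℕ, 1 ≤ c ∧ c ≤ M ^ 108 ∧
      B / (M : ℝ) ^ 125 ≤ ‖∑' k : ℕ, Amp (n c * h / c / ((k : ℝ) + 1)) (n c * h / c)‖ := by
  classical
  by_contra hcon
  simp only [not_exists, not_and, not_le] at hcon
  have M0 := hp.pos
  have M1 := hp.one_le
  have D1 : 1 ≤ M ^ 108 := Nat.one_le_pow _ _ hp.one_leN
  have B0 : 0 < B := by
    have := (norm_nonneg _).trans_lt (hcon 1 le_rfl D1)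
    exact (div_pos_iff_of_pos_right (by positivity)).1 this
  set D := M ^ 108 with hD
  have eD : (D : ℝ) = (M : ℝ) ^ 108 := by rw [hD, Nat.cast_pow]
  let P : ℕ → ℝ := fun c => n c * h / c
  let U : ℕ → ℂ := fun c => ∑' k : ℕ, Amp (P c / ((k : ℝ) + 1)) (P c)
  let T := (H.image fun η => ⌊h / η + 1 / 2⌋₊).filter (D < ·)
  let μ : ℕ → ℂ := fun c => (ArithmeticFunction.moebius c : ℤ)
  have μ1 : ∀ c, ‖μ c‖ ≤ 1 := fun c => by
    rw [Complex.norm_intCast]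
    exact_mod_cast ArithmeticFunction.abs_moebius_le_one
  have h1 : ∀ c ∈ Icc 1 D, ‖U c - ∑ N ∈ (Icc 1 D).filter (c ∣ ·), Amp (h / N) (P c)‖ ≤
      ε + ∑ N ∈ T.filter (c ∣ ·), (B / √N + ε) +
        3 * (M : ℝ) ^ 166 * (2 * B / (M : ℝ) ^ 295 + ε) := fun c hc => by
    obtain ⟨c1, c2⟩ := mem_Icc.1 hc
    obtain ⟨n1, n2, n3⟩ := hn c c1 c2
    have P1 : (M : ℝ) ^ 260 * h ≤ 2 * P c := by
      have a1 := hp.inv_pow_le (c := 2) (by norm_num) (show 0 < 146 by norm_num)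
      have a2 := (abs_le.1 n2).1
      have a3 : 0 < Ps := lt_of_lt_of_le (by positivity) hP
      rw [pow_zero, inv_one] at a1
      simp only [P]
      nlinarith only [hP, a1, a2, a3]
    have := latt_tail (fun k => Amp (P c / k) (P c)) _ ?_ _ (latt_err (D := D) hp hh hσ hσh P1 hε0
      B0.le hH hη c1 n1 rfl n3 (fun η => Amp η (P c)) (hA1 _ n2) (hA3 _ n2))
    · rw [sum_image, sum_congr rfl fun N hN => by
        rw [latt_arg c1 n1 (mem_filter.1 hN).2]] at this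
      · simpa only [Nat.cast_add, Nat.cast_one] using this
      · intro N hN N' hN' e
        have e' := Nat.eq_of_mul_eq_mul_left n1 e
        rw [← Nat.div_mul_cancel (mem_filter.1 hN).2, ← Nat.div_mul_cancel (mem_filter.1 hN').2]
        exact congrArg (· * c) e'
    · intro k hk
      obtain ⟨N, hN, rfl⟩ := mem_image.1 hk
      obtain ⟨a1, a2⟩ := mem_filter.1 hN
      exact Nat.mul_pos n1 (Nat.div_pos (Nat.le_of_dvd (mem_Icc.1 a1).1 a2) c1)
  have h2 : ∀ N ∈ Icc 1 D, (Icc 1 D).filter (· ∣ N) = N.divisors := fun N hN => by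
    obtain ⟨a1, a2⟩ := mem_Icc.1 hN
    ext c
    simp only [mem_filter, mem_Icc, Nat.mem_divisors]
    exact ⟨fun k => ⟨k.2, by omega⟩, fun k => ⟨⟨Nat.pos_of_dvd_of_pos k.1 a1,
      (Nat.le_of_dvd a1 k.1).trans a2⟩, k.1⟩⟩
  have h3 : ∑ c ∈ Icc 1 D, μ c * ∑ N ∈ (Icc 1 D).filter (c ∣ ·), Amp (h / N) (P c) =
      ∑ N ∈ Icc 1 D, ∑ c ∈ N.divisors, μ c * Amp (h / N) (P c) := by
    simp only [mul_sum, sum_filter, mul_ite, mul_zero]
    rw [sum_comm]
    exact sum_congr rfl fun N hN => by rw [← h2 N hN, sum_filter]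
  have h4 : ∑ N ∈ Icc 1 D, ∑ c ∈ N.divisors, μ c * Amp (h / N) Ps = Amp h Ps := by
    have a : ∀ N : ℕ, ∑ c ∈ N.divisors, μ c = if N = 1 then 1 else 0 := fun N => by
      have := congrArg (fun f : ArithmeticFunction ℤ => f N)
        ArithmeticFunction.moebius_mul_coe_zeta
      simp only [ArithmeticFunction.coe_mul_zeta_apply, ArithmeticFunction.one_apply] at this
      simp only [μ]
      rw [← Int.cast_sum, this]
      split_ifs <;> simp
    simp only [← sum_mul, a, ite_mul, one_mul, zero_mul, sum_ite_eq', mem_Icc, le_refl, D1,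
      and_self, if_true, Nat.cast_one, div_one]
  have h5 : ‖∑ N ∈ Icc 1 D, ∑ c ∈ N.divisors, μ c * Amp (h / N) (P c) - Amp h Ps‖ ≤
      D * (5 * B / (M : ℝ) ^ 126) := by
    rw [← h4, ← sum_sub_distrib]
    refine (norm_sum_le _ _).trans ((sum_le_card_nsmul _ _ (5 * B / (M : ℝ) ^ 126)
      fun N hN => ?_).trans (by simp))
    obtain ⟨a1, a2⟩ := mem_Icc.1 hN
    have N0 : (1 : ℝ) ≤ N := by exact_mod_cast a1
    rw [← sum_sub_distrib]
    refine (norm_sum_le _ _).trans ((sum_le_card_nsmul _ _ (((M : ℝ) ^ 126)⁻¹ * B / √N)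
      fun c hc => ?_).trans ?_)
    · have := mem_Icc.1 (mem_filter.1 (h2 N hN ▸ hc)).1
      rw [← mul_sub, norm_mul]
      exact (mul_le_of_le_one_left (norm_nonneg _) (μ1 c)).trans
        (hA2 _ (hn c this.1 this.2).2.1 N a1 a2)
    · have := latt_div N zero_le_one (by simpa using N0)
      rw [nsmul_eq_mul, ← mul_div_assoc, div_le_iff₀ (Real.sqrt_pos.2 (by linarith))]
      calc (N.divisors.card : ℝ) * (((M : ℝ) ^ 126)⁻¹ * B) =
            N.divisors.card * 1 * (((M : ℝ) ^ 126)⁻¹ * B) := by ring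
        _ ≤ 5 * √N * (((M : ℝ) ^ 126)⁻¹ * B) := mul_le_mul_of_nonneg_right this (by positivity)
        _ = _ := by ring
  have h6 : ∑ c ∈ Icc 1 D, ∑ N ∈ T.filter (c ∣ ·), (B / √N + ε) ≤
      M * (5 * B / (M : ℝ) ^ 18 + D * ε) := by
    simp only [sum_filter]
    rw [sum_comm]
    refine (sum_le_card_nsmul _ _ (5 * B / (M : ℝ) ^ 18 + D * ε) fun N hN => ?_).trans ?_
    · have a1 : D < N := (mem_filter.1 hN).2
      have a2 : (D : ℝ) ≤ N := by exact_mod_cast a1.le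
      have a3 : (0 : ℝ) < √N := Real.sqrt_pos.2 (by exact_mod_cast (Nat.zero_le D).trans_lt a1)
      rw [← sum_filter, sum_const, nsmul_eq_mul, mul_add]
      refine add_le_add ?_ (mul_le_mul_of_nonneg_right (Nat.cast_le.2
        ((card_filter_le _ _).trans (by simp))) hε0)
      have a4 : (((Icc 1 D).filter (· ∣ N)).card : ℝ) ≤ N.divisors.card :=
        Nat.cast_le.2 (card_le_card fun c hc => Nat.mem_divisors.2 ⟨(mem_filter.1 hc).2, by omega⟩)
      have a5 := latt_div N (t := (M : ℝ) ^ 18) (by positivity) (by rw [← pow_mul, ← eD]; exact a2)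
      refine (mul_le_mul_of_nonneg_right a4 (by positivity)).trans ?_
      rw [← mul_div_assoc, div_le_div_iff₀ a3 (by positivity)]
      nlinarith only [B0, a5]
    · rw [nsmul_eq_mul]
      exact mul_le_mul_of_nonneg_right (Nat.cast_le.2
        ((card_filter_le _ _).trans (card_image_le.trans hH))) (by positivity)
  have h7 : ‖∑ c ∈ Icc 1 D, μ c * U c -
      ∑ c ∈ Icc 1 D, μ c * ∑ N ∈ (Icc 1 D).filter (c ∣ ·), Amp (h / N) (P c)‖ ≤
      D * ε + M * (5 * B / (M : ℝ) ^ 18 + D * ε) +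
        D * (3 * (M : ℝ) ^ 166 * (2 * B / (M : ℝ) ^ 295 + ε)) := by
    rw [← sum_sub_distrib]
    refine (norm_sum_le _ _).trans ((sum_le_sum fun c hc => ?_).trans
      ((sum_le_sum h1).trans ?_))
    · rw [← mul_sub, norm_mul]
      exact mul_le_of_le_one_left (norm_nonneg _) (μ1 c)
    · rw [sum_add_distrib, sum_add_distrib]
      exact add_le_add (add_le_add (by simp) h6) (by simp)
  have h8 : ‖∑ c ∈ Icc 1 D, μ c * U c‖ ≤ D * (B / (M : ℝ) ^ 125) := by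
    refine (norm_sum_le _ _).trans ((sum_le_card_nsmul _ _ (B / (M : ℝ) ^ 125)
      fun c hc => ?_).trans (by simp))
    rw [norm_mul]
    exact (mul_le_of_le_one_left (norm_nonneg _) (μ1 c)).trans
      (hcon c (mem_Icc.1 hc).1 (mem_Icc.1 hc).2).le
  rw [h3] at h7
  have h9 := norm_sub_norm_le (Amp h Ps) (∑ c ∈ Icc 1 D, μ c * U c)
  have h10 := norm_sub_le_norm_sub_add_norm_sub (Amp h Ps)
    (∑ N ∈ Icc 1 D, ∑ c ∈ N.divisors, μ c * Amp (h / N) (P c)) (∑ c ∈ Icc 1 D, μ c * U c)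
  rw [norm_sub_rev] at h5 h7
  rw [eD] at h5 h7 h8
  obtain ⟨b, rfl⟩ : ∃ b, B = b * (M : ℝ) ^ 21 := ⟨B / (M : ℝ) ^ 21, by field_simp⟩
  have b0 : 0 < b := (mul_pos_iff_of_pos_right (by positivity)).1 B0
  have e1 : b * (M : ℝ) ^ 21 / (M : ℝ) ^ 16 = b * (M : ℝ) ^ 5 := by field_simp
  have e2 : (M : ℝ) ^ 108 * (5 * (b * (M : ℝ) ^ 21) / (M : ℝ) ^ 126) = 5 * (b * (M : ℝ) ^ 3) := by
    field_simp
  have e3 : (M : ℝ) ^ 108 * (b * (M : ℝ) ^ 21 / (M : ℝ) ^ 125) = b * (M : ℝ) ^ 4 := by field_simp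
  have e4 : (M : ℝ) ^ 108 * ε + M * (5 * (b * (M : ℝ) ^ 21) / (M : ℝ) ^ 18 + (M : ℝ) ^ 108 * ε) +
      (M : ℝ) ^ 108 * (3 * (M : ℝ) ^ 166 * (2 * (b * (M : ℝ) ^ 21) / (M : ℝ) ^ 295 + ε)) =
      5 * (b * (M : ℝ) ^ 4) + 6 * b + (ε * (M : ℝ) ^ 108 + ε * (M : ℝ) ^ 109 +
        3 * (ε * (M : ℝ) ^ 274)) := by
    field_simp
    ring
  have e5 : ∀ i ≤ 379, ε * (M : ℝ) ^ i ≤ b := fun i hi => by
    refine (mul_le_mul_of_nonneg_left (hp.pow_mono hi) hε0).trans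
      (le_of_mul_le_mul_right ?_ (hp.pow_pos 21))
    rwa [mul_assoc, ← pow_add]
  have e6 := mul_le_mul_of_nonneg_left (hp.mul_pow_le (c := 23) (by norm_num)
    (show 4 < 5 by norm_num)) b0.le
  have e7 := mul_le_mul_of_nonneg_left (hp.pow_mono (show 3 ≤ 4 by norm_num)) b0.le
  have e8 := mul_le_mul_of_nonneg_left (hp.pow_mono (show 0 ≤ 4 by norm_num)) b0.le
  rw [pow_zero, mul_one] at e8
  rw [e1] at hbig
  rw [e2] at h5
  rw [e3] at h8
  rw [e4] at h7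
  linarith only [h9, h10, hbig, h5, h7, h8, b0, e6, e7, e8, e5 108 (by norm_num), e5 109 (by norm_num), e5 274 (by norm_num)]

end Pool.Agent.Work.MP_97f157_lc.Tau
end
end
end

-- merged part: Pool.Agent.Work.MP_97f157_lc.TauExtAux4
section
-- merged part: Pool.Agent.Work.MP_97f157_lc.TauExtAux1
section
/-! Lagrange bounds and samples. -/

noncomputable section
open Complex Finset Polynomial

namespace Pool.Agent.Work.MP_97f157_lc.Tau

theorem ext_one_le_sub {x y : ℕ} (h : x ≠ y) : 1 ≤ ‖(x : ℂ) - (y : ℂ)‖ := by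
  have : (x : ℂ) - (y : ℂ) = (((x : ℤ) - (y : ℤ) : ℤ) : ℂ) := by push_cast; ring
  rw [this, Complex.norm_intCast]
  have h0 : (x : ℤ) - (y : ℤ) ≠ 0 := by omega
  have := Int.one_le_abs h0
  exact_mod_cast this

theorem ext_coeff_step (q : ℂ[X]) (A : ℝ) (hq : ∀ i, ‖q.coeff i‖ ≤ A) (x y : ℕ) (hxy : x ≠ y)
    (L : ℕ) (hy : y ≤ L) (i : ℕ) :
    ‖(Lagrange.basisDivisor (x : ℂ) (y : ℂ) * q).coeff i‖ ≤ (1 + L) * A := by
  have hA : 0 ≤ A := le_trans (norm_nonneg _) (hq 0)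
  have hinv : ‖((x : ℂ) - (y : ℂ))⁻¹‖ ≤ 1 := by
    rw [norm_inv]; exact inv_le_one_of_one_le₀ (ext_one_le_sub hxy)
  have hyL : ‖(y : ℂ)‖ ≤ L := by rw [Complex.norm_natCast]; exact_mod_cast hy
  have key : ‖((X - C (y : ℂ)) * q).coeff i‖ ≤ (1 + L) * A := by
    rw [sub_mul, coeff_sub, coeff_C_mul]
    have h1 : ‖(X * q).coeff i‖ ≤ A := by
      cases i with
      | zero => simpa using hA
      | succ i => rw [coeff_X_mul]; exact hq i
    have h2 : ‖(y : ℂ) * q.coeff i‖ ≤ L * A := by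
      rw [norm_mul]; exact mul_le_mul hyL (hq i) (norm_nonneg _) (by positivity)
    calc _ ≤ ‖(X * q).coeff i‖ + ‖(y : ℂ) * q.coeff i‖ := norm_sub_le _ _
      _ ≤ A + L * A := add_le_add h1 h2
      _ = (1 + L) * A := by ring
  unfold Lagrange.basisDivisor
  rw [mul_assoc, coeff_C_mul, norm_mul]
  calc _ ≤ 1 * ((1 + L) * A) := mul_le_mul hinv key (norm_nonneg _) zero_le_one
    _ = _ := one_mul _

theorem ext_coeff_prod (L x : ℕ) (u : Finset ℕ) (hu : ∀ y ∈ u, y ≤ L ∧ x ≠ y) :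
    ∀ i, ‖(∏ y ∈ u, Lagrange.basisDivisor (x : ℂ) (y : ℂ)).coeff i‖ ≤ (1 + L) ^ u.card := by
  classical
  induction u using Finset.induction_on with
  | empty =>
    intro i
    simp only [prod_empty, card_empty, pow_zero, coeff_one]
    split_ifs <;> simp
  | insert a u ha ih =>
    intro i
    rw [prod_insert ha, card_insert_of_notMem ha, pow_succ']
    exact ext_coeff_step _ _ (ih fun y hy => hu y (mem_insert_of_mem hy)) x a
      (hu a (mem_insert_self _ _)).2 L (hu a (mem_insert_self _ _)).1 i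

theorem ext_eval_prod (L x y0 : ℕ) (u : Finset ℕ) (hu : ∀ y ∈ u, y ≤ L ∧ x ≠ y) :
    ‖(∏ y ∈ u, Lagrange.basisDivisor (x : ℂ) (y : ℂ)).eval (y0 : ℂ)‖ ≤ (1 + L + y0) ^ u.card := by
  rw [eval_prod, norm_prod, ← prod_const]
  apply prod_le_prod (fun _ _ => norm_nonneg _)
  intro y hy
  unfold Lagrange.basisDivisor
  simp only [eval_mul, eval_C, eval_sub, eval_X, norm_mul]
  have hinv : ‖((x : ℂ) - (y : ℂ))⁻¹‖ ≤ 1 := by
    rw [norm_inv]; exact inv_le_one_of_one_le₀ (ext_one_le_sub (hu y hy).2)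
  have h2 : ‖(y0 : ℂ) - (y : ℂ)‖ ≤ 1 + L + y0 := by
    have hyL : (y : ℝ) ≤ L := by exact_mod_cast (hu y hy).1
    calc _ ≤ ‖(y0 : ℂ)‖ + ‖(y : ℂ)‖ := norm_sub_le _ _
      _ = y0 + y := by rw [Complex.norm_natCast, Complex.norm_natCast]
      _ ≤ _ := by linarith
  calc _ ≤ 1 * (1 + L + y0 : ℝ) := mul_le_mul hinv h2 (norm_nonneg _) zero_le_one
    _ = _ := one_mul _

def extPoly (R : ℕ) (c : ℕ → ℂ) : ℂ[X] := ∑ i ∈ range R, monomial i (c i)

theorem extPoly_eval (R : ℕ) (c : ℕ → ℂ) (z : ℂ) :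
    (extPoly R c).eval z = ∑ i ∈ range R, c i * z ^ i := by
  simp [extPoly, eval_finsetSum]

theorem extPoly_coeff (R : ℕ) (c : ℕ → ℂ) {i : ℕ} (hi : i < R) : (extPoly R c).coeff i = c i := by
  simp [extPoly, coeff_monomial, hi]

theorem extPoly_degree (R : ℕ) (c : ℕ → ℂ) : (extPoly R c).degree < R := by
  unfold extPoly
  apply lt_of_le_of_lt (degree_sum_le _ _)
  rw [Finset.sup_lt_iff (by exact WithBot.bot_lt_coe R)]
  intro i hi
  exact lt_of_le_of_lt (degree_monomial_le _ _) (by exact_mod_cast mem_range.1 hi)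

theorem extPoly_eq (R : ℕ) (c : ℕ → ℂ) (t : Finset ℕ) (ht : t.card = R) :
    extPoly R c = ∑ x ∈ t, C (∑ i ∈ range R, c i * (x : ℂ) ^ i) *
      ∏ y ∈ t.erase x, Lagrange.basisDivisor (x : ℂ) (y : ℂ) := by
  have hinj : Set.InjOn (fun x : ℕ => (x : ℂ)) t := fun a _ b _ h => Nat.cast_injective h
  have := Lagrange.eq_interpolate hinj (f := extPoly R c) (by rw [ht]; exact extPoly_degree R c)
  rw [this, Lagrange.interpolate_apply]
  apply sum_congr rfl
  intro x _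
  rw [extPoly_eval]
  rfl

theorem ext_coeff_le (R L : ℕ) (c : ℕ → ℂ) (t : Finset ℕ) (ht : t.card = R)
    (htL : ∀ x ∈ t, x ≤ L) (B : ℝ) (hB : ∀ x ∈ t, ‖∑ i ∈ range R, c i * (x : ℂ) ^ i‖ ≤ B) :
    ∀ i < R, ‖c i‖ ≤ R * (1 + L) ^ R * B := by
  intro i hi
  rw [← extPoly_coeff R c hi, extPoly_eq R c t ht, finsetSum_coeff]
  have hL : (1 : ℝ) ≤ 1 + L := by have : (0 : ℝ) ≤ L := by positivity
                                  linarith
  calc _ ≤ ∑ x ∈ t, ‖(C (∑ i ∈ range R, c i * (x : ℂ) ^ i) *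
      ∏ y ∈ t.erase x, Lagrange.basisDivisor (x : ℂ) (y : ℂ)).coeff i‖ := norm_sum_le _ _
    _ ≤ ∑ _x ∈ t, (1 + L : ℝ) ^ R * B := by
      apply sum_le_sum
      intro x hx
      rw [coeff_C_mul, norm_mul, mul_comm]
      have h1 := ext_coeff_prod L x (t.erase x)
        (fun y hy => ⟨htL y (mem_of_mem_erase hy), (ne_of_mem_erase hy).symm⟩) i
      have h2 : (1 + L : ℝ) ^ (t.erase x).card ≤ (1 + L : ℝ) ^ R :=
        pow_le_pow_right₀ hL (by rw [← ht]; exact card_erase_le)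
      exact mul_le_mul (h1.trans h2) (hB x hx) (norm_nonneg _) (by positivity)
    _ = _ := by rw [sum_const, ht, nsmul_eq_mul, mul_assoc]

theorem ext_eval_le (R L : ℕ) (c : ℕ → ℂ) (t : Finset ℕ) (ht : t.card = R)
    (htL : ∀ x ∈ t, x ≤ L) (B : ℝ) (hB : ∀ x ∈ t, ‖∑ i ∈ range R, c i * (x : ℂ) ^ i‖ ≤ B) (y : ℕ) :
    ‖∑ i ∈ range R, c i * (y : ℂ) ^ i‖ ≤ R * (1 + L + y) ^ R * B := by
  rw [← extPoly_eval R c, extPoly_eq R c t ht, eval_finsetSum]
  have hL : (1 : ℝ) ≤ 1 + L + y := by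
    have : (0 : ℝ) ≤ L := by positivity
    have : (0 : ℝ) ≤ y := by positivity
    linarith
  calc _ ≤ ∑ x ∈ t, ‖(C (∑ i ∈ range R, c i * (x : ℂ) ^ i) *
      ∏ y ∈ t.erase x, Lagrange.basisDivisor (x : ℂ) (y : ℂ)).eval (y : ℂ)‖ := norm_sum_le _ _
    _ ≤ ∑ _x ∈ t, (1 + L + y : ℝ) ^ R * B := by
      apply sum_le_sum
      intro x hx
      rw [eval_mul, eval_C, norm_mul, mul_comm]
      have h1 := ext_eval_prod L x y (t.erase x)
        (fun y hy => ⟨htL y (mem_of_mem_erase hy), (ne_of_mem_erase hy).symm⟩)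
      have h2 : (1 + L + y : ℝ) ^ (t.erase x).card ≤ (1 + L + y : ℝ) ^ R :=
        pow_le_pow_right₀ hL (by rw [← ht]; exact card_erase_le)
      exact mul_le_mul (h1.trans h2) (hB x hx) (norm_nonneg _) (by positivity)
    _ = _ := by rw [sum_const, ht, nsmul_eq_mul, mul_assoc]

theorem ext_samples (M R x : ℕ) (good : ℕ → Prop) (h : ∀ x, ∃ y, x ≤ y ∧ y < x + M ∧ good y) :
    ∃ t : Finset ℕ, t.card = R ∧ ∀ y ∈ t, x ≤ y ∧ y < x + R * M ∧ good y := by
  induction R with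
  | zero => exact ⟨∅, rfl, by simp⟩
  | succ R ih =>
    obtain ⟨t, ht, h2⟩ := ih
    obtain ⟨y, hy1, hy2, hy3⟩ := h (x + R * M)
    have hyt : y ∉ t := fun hy => by have := (h2 y hy).2.1; omega
    refine ⟨insert y t, by rw [card_insert_of_notMem hyt, ht], ?_⟩
    intro z hz
    have e : (R + 1) * M = R * M + M := by ring
    rcases mem_insert.1 hz with rfl | hz
    · exact ⟨by omega, by omega, hy3⟩
    · obtain ⟨a, b, c⟩ := h2 z hz
      exact ⟨a, by omega, c⟩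

end Pool.Agent.Work.MP_97f157_lc.Tau
end
end

-- merged part: Pool.Agent.Work.MP_97f157_lc.TauExtAux2
section
/-! Shifts, Taylor remainder and recovery of the moment norm from samples. -/

noncomputable section
open Complex Finset

namespace Pool.Agent.Work.MP_97f157_lc.Tau

variable {ι : Type*}

def extU (T : ι → ℝ) (T1 l : ℝ) (k : ι) : ℂ := (((T k - T1) / l : ℝ) : ℂ)

def extG (c : ι → ℂ) (T : ι → ℝ) (T1 a : ℝ) (k : ι) : ℂ :=
  c k * (Real.exp (-(a * (T k - T1))) : ℂ)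

theorem ext_mu_exp (s : Finset ι) (T : ι → ℝ) (T1 l a : ℝ) (hl : 0 < l) :
    Mu s (extU T T1 l) (fun _ => 0) (fun k => (Real.exp (a * (T k - T1)) : ℂ))
      (Real.exp (|a| * l)) := by
  have h1 : Mu s (extU T T1 l) (fun _ => 0) (fun k => ((a * l : ℝ) : ℂ) * extU T T1 l k)
      (‖((a * l : ℝ) : ℂ)‖ * 1) := Mu.fst.smul _
  have h2 : ‖((a * l : ℝ) : ℂ)‖ * 1 = |a| * l := by
    rw [Complex.norm_real, Real.norm_eq_abs, abs_mul, abs_of_pos hl, mul_one]
  rw [h2] at h1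
  refine (h1.exp (by positivity)).congr ?_
  intro k _
  rw [Complex.ofReal_exp]
  congr 1
  unfold extU
  rw [← Complex.ofReal_mul]
  congr 1
  field_simp

theorem ext_shift {s : Finset ι} {c : ι → ℂ} {T : ι → ℝ} {T1 l a N : ℝ} (b : ℝ) (hl : 0 < l)
    (h : NB s (extU T T1 l) (fun _ => 0) (extG c T T1 a) N) :
    NB s (extU T T1 l) (fun _ => 0) (extG c T T1 b) (Real.exp (|a - b| * l) * N) := by
  refine (ext_mu_exp s T T1 l (a - b) hl _ _ h).congr (fun _ _ => rfl) (fun _ _ => rfl) ?_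
  intro k _
  unfold extG
  rw [mul_left_comm, ← Complex.ofReal_mul, ← Real.exp_add]
  congr 3
  ring

theorem ext_sum (s : Finset ι) (c : ι → ℂ) (T : ι → ℝ) (T1 a : ℝ) :
    ∑ k ∈ s, c k * (Real.exp (-(a * T k)) : ℂ) =
      (Real.exp (-(a * T1)) : ℂ) * ∑ k ∈ s, extG c T T1 a k := by
  rw [mul_sum]
  apply sum_congr rfl
  intro k _
  unfold extG
  rw [mul_left_comm, ← Complex.ofReal_mul, ← Real.exp_add]
  congr 3
  ring

theorem ext_part {s : Finset ι} {c : ι → ℂ} {T : ι → ℝ} {T1 l a N : ℝ} (b : ℝ) (hl : 0 < l)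
    (h : NB s (extU T T1 l) (fun _ => 0) (extG c T T1 a) N) :
    ‖∑ k ∈ s, c k * (Real.exp (-(b * T k)) : ℂ)‖ ≤
      Real.exp (-(b * T1)) * (Real.exp (|a - b| * l) * N) := by
  rw [ext_sum s c T T1 b, norm_mul, Complex.norm_real, Real.norm_eq_abs,
    abs_of_pos (Real.exp_pos _)]
  exact mul_le_mul_of_nonneg_left (ext_shift b hl h).sum_le (Real.exp_pos _).le

theorem ext_taylor {t : Finset ι} {v g : ι → ℂ} {N : ℝ} (hN : NB t v (fun _ => 0) g N) (y : ℝ)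
    (hy0 : 0 ≤ y) (hy : y ≤ 1 / 2) (R : ℕ) :
    ‖∑ k ∈ t, g k * exp (y * v k) -
      ∑ i ∈ range R, ((y : ℂ) ^ i / (i.factorial : ℂ)) * ∑ k ∈ t, g k * v k ^ i‖ ≤
      2 * y ^ R * N := by
  have hb : HasSum (fun n : ℕ => y ^ R * (1 / 2 : ℝ) ^ n) (y ^ R * 2) :=
    hasSum_geometric_two.mul_left _
  have hM : Mu t v (fun _ => 0)
      (fun k => exp (y * v k) - ∑ i ∈ range R, (y * v k) ^ i / (i.factorial : ℂ)) (y ^ R * 2) := by
    refine Mu.tsum (fun n k => (y * v k) ^ (n + R) / ((n + R).factorial : ℂ)) _ ?_ hb ?_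
    · intro n
      have h1 : Mu t v (fun _ => 0) (fun k => ((y : ℂ) ^ (n + R) / ((n + R).factorial : ℂ)) *
          v k ^ (n + R)) (‖(y : ℂ) ^ (n + R) / ((n + R).factorial : ℂ)‖ * 1 ^ (n + R)) :=
        (Mu.fst.pow (n + R)).smul _
      refine (h1.mono ?_).congr (fun k _ => by rw [mul_pow]; ring)
      rw [one_pow, mul_one, norm_div, norm_pow, Complex.norm_real, Real.norm_eq_abs,
        abs_of_nonneg hy0, Complex.norm_natCast]
      have hf : (1 : ℝ) ≤ ((n + R).factorial : ℝ) := by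
        exact_mod_cast Nat.one_le_iff_ne_zero.2 (Nat.factorial_ne_zero _)
      calc y ^ (n + R) / ((n + R).factorial : ℝ) ≤ y ^ (n + R) := div_le_self (by positivity) hf
        _ = y ^ R * y ^ n := by ring
        _ ≤ y ^ R * (1 / 2) ^ n :=
          mul_le_mul_of_nonneg_left (pow_le_pow_left₀ hy0 hy n) (by positivity)
    · intro k _
      exact (hasSum_nat_add_iff' R).2 (Nrm_hasSum_C (y * v k))
  have h := hM.apply hN
  have e : ∑ k ∈ t, g k * exp (y * v k) -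
      ∑ i ∈ range R, ((y : ℂ) ^ i / (i.factorial : ℂ)) * ∑ k ∈ t, g k * v k ^ i =
      ∑ k ∈ t, (exp (y * v k) - ∑ i ∈ range R, (y * v k) ^ i / (i.factorial : ℂ)) * g k := by
    simp_rw [mul_sum, sub_mul, sum_sub_distrib, sum_mul]
    rw [sum_comm (s := range R)]
    congr 1
    · exact sum_congr rfl fun k _ => mul_comm _ _
    · refine sum_congr rfl fun k _ => sum_congr rfl fun i _ => ?_
      rw [mul_pow]; ring
  rw [e]
  linarith

theorem ext_two_mul_le (p : ℕ) (hp : 1 ≤ p) : 2 * p ≤ 2 ^ p := by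
  induction p, hp using Nat.le_induction with
  | base => norm_num
  | succ n hn ih => rw [pow_succ]; omega

/-- recovery of the moment norm from `2 m` samples -/
theorem ext_moments {m M : ℕ} (hp : Par m M) (hm : 1 ≤ m) (t : Finset ι) (ht : t.card ≤ m)
    (v g : ι → ℂ) (hv : ∀ k ∈ t, ‖v k‖ ≤ 1 / 2) (X : Finset ℕ) (hX : X.card = 2 * m)
    (hXL : ∀ x ∈ X, x ≤ M ^ 2) (B : ℝ) (hB : 0 ≤ B)
    (h : ∀ x ∈ X, ‖∑ k ∈ t, g k * exp (((x * ((M : ℝ) ^ 10)⁻¹ : ℝ) : ℂ) * v k)‖ ≤ B) :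
    NB t v (fun _ => 0) g (2 * ((M : ℝ) ^ 16) ^ m * B) := by
  have hM := hp.pos
  have hM1 := hp.one_le
  have hbig := hp.bigR
  set N := Nm t v (fun _ => 0) g with hNdef
  have hN : NB t v (fun _ => 0) g N :=
    nb_Nm (fun k hk => (hv k hk).trans (by norm_num)) (fun _ _ => by simp)
  have hN0 : 0 ≤ N := Nm_nonneg
  set lam : ℝ := ((M : ℝ) ^ 10)⁻¹ with hlam
  have hlam0 : 0 < lam := by positivity
  set μ : ℕ → ℂ := fun i => ∑ k ∈ t, g k * v k ^ i with hμ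
  set w : ℝ := ((M : ℝ) ^ 8)⁻¹ with hw
  have hw2 : w ≤ 1 / 2 := by
    have := hp.inv_pow_le (c := 2) (by norm_num) (i := 0) (k := 8) (by norm_num)
    simp only [pow_zero, inv_one] at this
    linarith
  set B1 := B + 2 * w ^ (2 * m) * N with hB1
  have hB10 : 0 ≤ B1 := by positivity
  have hval : ∀ x ∈ X, ‖∑ i ∈ range (2 * m),
      ((lam : ℂ) ^ i / (i.factorial : ℂ) * μ i) * (x : ℂ) ^ i‖ ≤ B1 := by
    intro x hx
    have hxw : x * lam ≤ w := by
      have : (x : ℝ) ≤ (M : ℝ) ^ 2 := by exact_mod_cast hXL x hx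
      calc x * lam ≤ (M : ℝ) ^ 2 * lam := mul_le_mul_of_nonneg_right this hlam0.le
        _ = w := by rw [hlam, hw]; field_simp
    have h0 : 0 ≤ x * lam := by positivity
    have h1 := ext_taylor hN (x * lam) h0 (hxw.trans hw2) (2 * m)
    have e : ∑ i ∈ range (2 * m), ((lam : ℂ) ^ i / (i.factorial : ℂ) * μ i) * (x : ℂ) ^ i =
        ∑ i ∈ range (2 * m), ((((x * lam : ℝ)) : ℂ) ^ i / (i.factorial : ℂ)) *
          ∑ k ∈ t, g k * v k ^ i := by
      refine sum_congr rfl fun i _ => ?_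
      push_cast
      rw [mul_pow]; simp only [hμ]; ring
    rw [e]
    have h2 := h x hx
    have h3 : 2 * (x * lam) ^ (2 * m) * N ≤ 2 * w ^ (2 * m) * N := by
      gcongr
    have h4 := norm_sub_norm_le
      (∑ i ∈ range (2 * m), ((((x * lam : ℝ)) : ℂ) ^ i / (i.factorial : ℂ)) *
          ∑ k ∈ t, g k * v k ^ i) (∑ k ∈ t, g k * exp (((x * lam : ℝ) : ℂ) * v k))
    rw [norm_sub_rev] at h4
    linarith only [h1, h2, h3, h4]
  have hc := ext_coeff_le (2 * m) (M ^ 2) _ X hX hXL B1 hval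
  have hmom : ∀ i < m, ‖∑ k ∈ t, g k * v k ^ i‖ ≤ (8 * (M : ℝ) ^ 15) ^ m * B1 := by
    intro i hi
    have h1 := hc i (by omega)
    rw [norm_mul, norm_div, norm_pow, Complex.norm_real, Real.norm_eq_abs, abs_of_pos hlam0,
      Complex.norm_natCast] at h1
    have hfi : (i.factorial : ℝ) ≤ (M : ℝ) ^ i := by
      have h2 : i.factorial ≤ i ^ i := Nat.factorial_le_pow i
      have h3 : i ^ i ≤ M ^ i := Nat.pow_le_pow_left (by have := hp.two; omega) i
      exact_mod_cast h2.trans h3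
    have hf0 : (0 : ℝ) < i.factorial := by exact_mod_cast Nat.factorial_pos i
    have h4 : ((M : ℝ) ^ 11) ^ i * (lam ^ i / i.factorial) ≥ 1 := by
      rw [ge_iff_le, ← mul_div_assoc, le_div_iff₀ hf0, one_mul, ← mul_pow]
      have : (M : ℝ) ^ 11 * lam = M := by rw [hlam]; field_simp
      rw [this]; exact hfi
    have h5 : ((M : ℝ) ^ 11) ^ i ≤ ((M : ℝ) ^ 11) ^ m :=
      pow_le_pow_right₀ (one_le_pow₀ hM1) hi.le
    have h6 : ((2 * m : ℕ) : ℝ) ≤ 2 ^ m := by exact_mod_cast ext_two_mul_le m hm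
    have h7 : (1 + ((M ^ 2 : ℕ) : ℝ)) ^ (2 * m) ≤ (4 * (M : ℝ) ^ 4) ^ m := by
      rw [pow_mul]
      apply pow_le_pow_left₀ (by positivity)
      push_cast
      have : (1 : ℝ) ≤ (M : ℝ) ^ 2 := one_le_pow₀ hM1
      nlinarith only [this]
    calc ‖μ i‖ ≤ ((M : ℝ) ^ 11) ^ i * (lam ^ i / i.factorial) * ‖μ i‖ :=
          le_mul_of_one_le_left (norm_nonneg _) h4
      _ = ((M : ℝ) ^ 11) ^ i * (lam ^ i / i.factorial * ‖μ i‖) := by ring
      _ ≤ ((M : ℝ) ^ 11) ^ m * (2 ^ m * (4 * (M : ℝ) ^ 4) ^ m * B1) := by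
          apply mul_le_mul h5 (h1.trans _) (by positivity) (by positivity)
          gcongr
      _ = (8 * (M : ℝ) ^ 15) ^ m * B1 := by
          rw [← mul_assoc, ← mul_assoc, ← mul_pow, ← mul_pow]; congr 2; ring
  have hall : NB t v (fun _ => 0) g (3 ^ m * ((8 * (M : ℝ) ^ 15) ^ m * B1)) :=
    NB.of_one (reduce_one ht hv (by positivity) hmom)
  have hNle : N ≤ (24 * (M : ℝ) ^ 15) ^ m * B1 := by
    have := hall.Nm_le
    rw [← mul_assoc, ← mul_pow] at this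
    convert this using 3
    ring
  have hsmall : (24 * (M : ℝ) ^ 15) ^ m * w ^ (2 * m) ≤ 1 / 4 := by
    rw [pow_mul, ← mul_pow]
    have e : 24 * (M : ℝ) ^ 15 * w ^ 2 = 24 / M := by rw [hw]; field_simp
    have h1 : 24 / (M : ℝ) ≤ 1 / 4 := by rw [div_le_iff₀ hM]; linarith only [hbig]
    rw [e]
    calc (24 / (M : ℝ)) ^ m ≤ (24 / (M : ℝ)) ^ 1 :=
          pow_le_pow_of_le_one (by positivity) (by linarith only [h1]) hm
      _ ≤ 1 / 4 := by rw [pow_one]; exact h1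
  have h16 : (24 * (M : ℝ) ^ 15) ^ m ≤ ((M : ℝ) ^ 16) ^ m :=
    pow_le_pow_left₀ (by positivity) (hp.mul_pow_le (by norm_num) (by norm_num)) m
  refine hN.mono ?_
  have h8 : (24 * (M : ℝ) ^ 15) ^ m * B1 ≤ ((M : ℝ) ^ 16) ^ m * B + N / 2 := by
    rw [hB1, mul_add]
    have : (24 * (M : ℝ) ^ 15) ^ m * (2 * w ^ (2 * m) * N) =
        2 * N * ((24 * (M : ℝ) ^ 15) ^ m * w ^ (2 * m)) := by ring
    rw [this]
    have h9 := mul_le_mul_of_nonneg_right h16 hB
    nlinarith only [hN0, hsmall, h9]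
  linarith only [hNle, h8]

end Pool.Agent.Work.MP_97f157_lc.Tau
end
end

-- merged part: Pool.Agent.Work.MP_97f157_lc.TauExtAux3
section
/-! Recovery of the top cluster. -/

noncomputable section
open Complex Finset

namespace Pool.Agent.Work.MP_97f157_lc.Tau

variable {ι : Type*}

theorem ext_pow_le {m M : ℕ} (hp : Par m M) {k : ℕ} (hk : k ≤ 100000) (j : ℕ) (hj : j ≤ M ^ 2) :
    ((M : ℝ) ^ k) ^ j ≤ Real.exp ((M : ℝ) ^ 3) := by
  have hj' : (j : ℝ) ≤ (M : ℝ) ^ 2 := by exact_mod_cast hj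
  have hM := hp.pos
  calc ((M : ℝ) ^ k) ^ j ≤ (Real.exp M) ^ j :=
        pow_le_pow_left₀ (by positivity) (hp.pow_le_exp hk) j
    _ = Real.exp (j * M) := by rw [Real.exp_nat_mul]
    _ ≤ _ := by
      apply Real.exp_le_exp.2
      calc (j : ℝ) * M ≤ (M : ℝ) ^ 2 * M := mul_le_mul_of_nonneg_right hj' hM.le
        _ = _ := by ring

theorem ext_norm_U {T : ι → ℝ} {T1 l q : ℝ} (hl : 0 < l) {k : ι} (h : |T k - T1| ≤ q * l) :
    ‖extU T T1 l k‖ ≤ q := by
  unfold extU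
  rw [Complex.norm_real, Real.norm_eq_abs, abs_div, abs_of_pos hl, div_le_iff₀ hl]
  exact h

theorem ext_recover {m M : ℕ} (hp : Par m M) (t C : Finset ι) (ht : t.card ≤ m) (hC : C ⊆ t)
    (T : ι → ℝ) (T1 : ℝ) (g : ι → ℂ) (N : ℝ)
    (hv : ∀ k ∈ t, |T k - T1| ≤ 1 / 2 * ((M : ℝ) ^ 10)⁻¹)
    (hsep : ∀ k ∈ C, ∀ w ∈ t, w ∉ C → ((M : ℝ) ^ 20)⁻¹ < |T k - T w|)
    (hnear : ∀ k ∈ C, |T k - T1| ≤ ((M : ℝ) ^ 19)⁻¹)
    (h : NB t (extU T T1 ((M : ℝ) ^ 10)⁻¹) (fun _ => 0) g N) :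
    NB C (extU T T1 (2 * ((M : ℝ) ^ 19)⁻¹)) (fun _ => 0) g
      (Real.exp ((M : ℝ) ^ 3) * (Real.exp ((M : ℝ) ^ 3) * N)) := by
  have hM := hp.pos
  have hM1 := hp.one_le
  have hN := h.nonneg
  have hmM : m ≤ M := by have := hp.two; omega
  have hl : (0 : ℝ) < ((M : ℝ) ^ 10)⁻¹ := by positivity
  have hl1 : ((M : ℝ) ^ 10)⁻¹ ≤ 1 := inv_le_one_of_one_le₀ (one_le_pow₀ hM1)
  have h1 := h.restrict hC ht hl hl1
    (fun k hk => (ext_norm_U hl (hv k hk)).trans (by norm_num)) (by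
      intro k hk w hw hwC
      have h2 := hsep k hk w hw hwC
      unfold extU
      rw [← Complex.ofReal_sub, Complex.norm_real, Real.norm_eq_abs, ← sub_div, abs_div,
        abs_of_pos hl, le_div_iff₀ hl]
      have e1 : T k - T1 - (T w - T1) = T k - T w := by ring
      have e2 : ((M : ℝ) ^ 10)⁻¹ * ((M : ℝ) ^ 10)⁻¹ = ((M : ℝ) ^ 20)⁻¹ := by field_simp
      rw [e1, e2]; exact h2.le)
  have hK : (1 : ℝ) ≤ (M : ℝ) ^ 9 := one_le_pow₀ hM1
  have hmu : Mu C (extU T T1 ((M : ℝ) ^ 10)⁻¹) (fun _ => 0)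
      (extU T T1 (2 * ((M : ℝ) ^ 19)⁻¹)) ((M : ℝ) ^ 9) := by
    have h3 : Mu C (extU T T1 ((M : ℝ) ^ 10)⁻¹) (fun _ => 0)
        (fun k => (((M : ℝ) ^ 9 / 2 : ℝ) : ℂ) * extU T T1 ((M : ℝ) ^ 10)⁻¹ k)
        (‖(((M : ℝ) ^ 9 / 2 : ℝ) : ℂ)‖ * 1) := Mu.fst.smul _
    refine (h3.mono ?_).congr ?_
    · rw [Complex.norm_real, Real.norm_eq_abs, abs_of_pos (by positivity)]; linarith
    · intro k _
      unfold extU
      rw [← Complex.ofReal_mul]
      congr 1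
      field_simp
  have hmu0 : Mu C (extU T T1 ((M : ℝ) ^ 10)⁻¹) (fun _ => 0) (fun _ => (0 : ℂ)) ((M : ℝ) ^ 9) :=
    (Mu.const 0).mono (by simp)
  have h4 := h1.recenter ((card_le_card hC).trans ht) hK hmu hmu0
    (fun k hk => ext_norm_U (by positivity) (by have := hnear k hk; linarith only [this])) (fun _ _ => by simp)
  refine h4.mono ?_
  have ha : (9 : ℝ) ^ m * ((M : ℝ) ^ 9) ^ (2 * m) ≤ Real.exp ((M : ℝ) ^ 3) := by
    rw [pow_mul, ← mul_pow]
    refine le_trans (pow_le_pow_left₀ (by positivity) ?_ m)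
      (ext_pow_le hp (k := 19) (by norm_num) m (hmM.trans (by nlinarith only [hp.one_leN])))
    rw [← pow_mul]
    exact hp.mul_pow_le (by norm_num) (by norm_num)
  have hb : (4 / ((M : ℝ) ^ 10)⁻¹) ^ (m * m) ≤ Real.exp ((M : ℝ) ^ 3) := by
    refine le_trans (pow_le_pow_left₀ (by positivity) ?_ _)
      (ext_pow_le hp (k := 11) (by norm_num) (m * m) (by nlinarith only [hmM]))
    rw [div_inv_eq_mul]
    exact hp.mul_pow_le (by norm_num) (by norm_num)
  exact mul_le_mul ha (mul_le_mul_of_nonneg_right hb hN) (by positivity) (by positivity)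

theorem ext_exp_pow (a : ℝ) (j : ℕ) : Real.exp (-a) ^ j = Real.exp (-(j * a)) := by
  rw [← Real.exp_nat_mul]; congr 1; ring

/-- numerical absorption -/
theorem ext_absorb {m M : ℕ} (hp : Par m M) :
    3 * (Real.exp ((M : ℝ) ^ 3) * (Real.exp ((M : ℝ) ^ 3) * (2 * Real.exp ((M : ℝ) ^ 3)))) *
      (m * (3 * Real.exp (-(M : ℝ) ^ 5))) ≤ 1 / 2 := by
  have hM := hp.pos
  have hm := hp.mle
  have h1 : (18 : ℝ) * M ≤ Real.exp ((M : ℝ) ^ 3) := by
    have h2 : (18 : ℝ) * M ^ 1 ≤ (M : ℝ) ^ 3 := hp.mul_pow_le (by norm_num) (by norm_num)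
    have := Real.add_one_le_exp ((M : ℝ) ^ 3)
    linarith
  have h3 : Real.exp ((M : ℝ) ^ 3) ^ 4 * Real.exp (-(M : ℝ) ^ 5) ≤ 1 := by
    rw [← Real.exp_nat_mul, ← Real.exp_add]
    apply Real.exp_le_one_iff.2
    have : (4 : ℝ) * M ^ 3 ≤ (M : ℝ) ^ 5 := hp.mul_pow_le (by norm_num) (by norm_num)
    push_cast
    linarith
  set E := Real.exp ((M : ℝ) ^ 3)
  set F := Real.exp (-(M : ℝ) ^ 5)
  have hE : 0 < E := Real.exp_pos _
  have hF : 0 < F := Real.exp_pos _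
  have h4 : 3 * (E * (E * (2 * E))) * (m * (3 * F)) = (18 * m) * (E ^ 3 * F) := by ring
  have h5 : (18 * (m : ℝ)) ≤ E / 2 := by linarith
  rw [h4]
  calc (18 * (m : ℝ)) * (E ^ 3 * F) ≤ (E / 2) * (E ^ 3 * F) :=
        mul_le_mul_of_nonneg_right h5 (by positivity)
    _ = (E ^ 4 * F) / 2 := by ring
    _ ≤ 1 / 2 := by linarith

theorem ext_final_num {m M : ℕ} (hp : Par m M) :
    m * (3 * (2 * (3 * (Real.exp ((M : ℝ) ^ 3) * (Real.exp ((M : ℝ) ^ 3) *
      (2 * Real.exp ((M : ℝ) ^ 3))))))) ≤ Real.exp ((M : ℝ) ^ 4) := by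
  have hM := hp.pos
  have hm := hp.mle
  have h1 : (18 : ℝ) * M ≤ Real.exp ((M : ℝ) ^ 3) := by
    have h2 : (18 : ℝ) * M ^ 1 ≤ (M : ℝ) ^ 3 := hp.mul_pow_le (by norm_num) (by norm_num)
    have := Real.add_one_le_exp ((M : ℝ) ^ 3)
    linarith
  have h3 : Real.exp ((M : ℝ) ^ 3) ^ 4 ≤ Real.exp ((M : ℝ) ^ 4) := by
    rw [← Real.exp_nat_mul]
    apply Real.exp_le_exp.2
    have : (4 : ℝ) * M ^ 3 ≤ (M : ℝ) ^ 4 := hp.mul_pow_le (by norm_num) (by norm_num)
    push_cast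
    linarith
  set E := Real.exp ((M : ℝ) ^ 3)
  have hE : 0 < E := Real.exp_pos _
  have h4 : m * (3 * (2 * (3 * (E * (E * (2 * E)))))) = (36 * m) * E ^ 3 := by ring
  rw [h4]
  calc (36 * (m : ℝ)) * E ^ 3 ≤ E * E ^ 3 :=
        mul_le_mul_of_nonneg_right (by linarith) (by positivity)
    _ = E ^ 4 := by ring
    _ ≤ _ := h3

theorem ext_exp_small {m M : ℕ} (hp : Par m M) {a b : ℝ} (hab : a ≤ b) (hb : b ≤ a + (M : ℝ) ^ 17) :
    Real.exp (|a - b| * (2 * ((M : ℝ) ^ 19)⁻¹)) ≤ 3 := by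
  have hM := hp.pos
  have h1 : |a - b| ≤ (M : ℝ) ^ 17 := by rw [abs_sub_comm, abs_of_nonneg (by linarith)]; linarith
  have h2 : (M : ℝ) ^ 17 * (2 * ((M : ℝ) ^ 19)⁻¹) ≤ 1 := by
    have e : (M : ℝ) ^ 17 * (2 * ((M : ℝ) ^ 19)⁻¹) = 2 * ((M : ℝ) ^ 2)⁻¹ := by field_simp
    have := hp.inv_pow_le (c := 2) (by norm_num) (i := 0) (k := 2) (by norm_num)
    rw [e]; simpa using this
  have h3 : |a - b| * (2 * ((M : ℝ) ^ 19)⁻¹) ≤ 1 :=
    (mul_le_mul_of_nonneg_right h1 (by positivity)).trans h2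
  exact (Real.exp_le_exp.2 h3).trans (Real.exp_one_lt_d9.le.trans (by norm_num))

end Pool.Agent.Work.MP_97f157_lc.Tau
end
end

-- merged part: Pool.Agent.Work.MP_97f157_lc.TauExtAux4
section
/-! The top line is controlled by the samples. -/

noncomputable section
open Complex Finset

namespace Pool.Agent.Work.MP_97f157_lc.Tau

variable {ι : Type*}

def extN (M : ℕ) (s : Finset ι) (rep : ι → ι) (c : ι → ℂ) (T : ι → ℝ) (n0 : ℕ) (r : ι) : ℝ :=
  Nm (cls s rep r) (extU T (T r) (2 * ((M : ℝ) ^ 19)⁻¹)) (fun _ => 0) (extG c T (T r) n0)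

theorem ext_nb {m M : ℕ} (hp : Par m M) {s : Finset ι} {rep : ι → ι} {T : ι → ℝ} {e0 : ℝ}
    (hcl : AClus s T rep ((M : ℝ) ^ 19)⁻¹ e0) (c : ι → ℂ) (n0 : ℕ) (r : ι) :
    NB (cls s rep r) (extU T (T r) (2 * ((M : ℝ) ^ 19)⁻¹)) (fun _ => 0) (extG c T (T r) n0)
      (extN M s rep c T n0 r) := by
  have hM := hp.pos
  refine nb_Nm (fun k hk => ?_) (fun _ _ => by simp)
  obtain ⟨h1, h2⟩ := mem_cls.1 hk
  have := hcl.near k h1
  rw [h2] at this
  have h0 : (0 : ℝ) < ((M : ℝ) ^ 19)⁻¹ := by positivity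
  exact ext_norm_U (by positivity) (by linarith)

theorem ext_sat_le {s : Finset ι} {rep : ι → ι} (hmem : ∀ k ∈ s, rep k ∈ s)
    (hidem : ∀ k ∈ s, rep (rep k) = rep k) {t : Finset ι} (ht : t ⊆ s)
    (hsat : ∀ k ∈ s, k ∈ t ↔ rep k ∈ t) (F : ι → ℂ) {m : ℕ} (hs : s.card ≤ m) {A : ℝ} (hA : 0 ≤ A)
    (h : ∀ r ∈ t, rep r = r → ‖∑ k ∈ cls s rep r, F k‖ ≤ A) : ‖∑ k ∈ t, F k‖ ≤ m * A := by
  classical
  rw [sum_cls hmem hidem ht hsat F]
  calc _ ≤ ∑ r ∈ t.filter (fun r => rep r = r), ‖∑ k ∈ cls s rep r, F k‖ := norm_sum_le _ _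
    _ ≤ ∑ _r ∈ t.filter (fun r => rep r = r), A :=
      sum_le_sum fun r hr => h r (mem_filter.1 hr).1 (mem_filter.1 hr).2
    _ = (t.filter (fun r => rep r = r)).card * A := by rw [sum_const, nsmul_eq_mul]
    _ ≤ m * A := by
      apply mul_le_mul_of_nonneg_right _ hA
      exact_mod_cast ((card_filter_le _ _).trans (card_le_card ht)).trans hs

theorem ext_G_eq (c : ι → ℂ) (T : ι → ℝ) (T1 l : ℝ) (hl : 0 < l) (a x : ℝ) (k : ι) :
    extG c T T1 a k * exp (((x * l : ℝ) : ℂ) * extU T T1 l k) = extG c T T1 (a - x) k := by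
  unfold extG extU
  rw [← Complex.ofReal_mul, ← Complex.ofReal_exp, mul_assoc, ← Complex.ofReal_mul, ← Real.exp_add]
  congr 3
  field_simp
  ring

theorem ext_top {m M : ℕ} (hp : Par m M) (s : Finset ι) (hs : s.card ≤ m) (hne : s.Nonempty)
    (c : ι → ℂ) (T : ι → ℝ) (θ B : ℝ) (hT : ∀ k ∈ s, θ ≤ T k) (hB : 0 ≤ B)
    (n0 : ℕ) (good : ℕ → Prop) (hgood : ∀ x, ∃ y, x ≤ y ∧ y < x + M ∧ good y)
    (h : ∀ n, good n → n0 ≤ n → n ≤ n0 + M ^ 17 →
      ‖∑ k ∈ s, c k * (Real.exp (-(n * T k)) : ℂ)‖ ≤ B * Real.exp (-(θ * n)))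
    (rep : ι → ι) (hcl : AClus s T rep ((M : ℝ) ^ 19)⁻¹ ((M : ℝ) ^ 20)⁻¹) :
    ∃ n1 : ℕ, n0 ≤ n1 ∧ n1 ≤ n0 + M ^ 17 ∧ ∀ r ∈ s, rep r = r →
      extN M s rep c T n0 r * Real.exp (-(n1 * T r)) ≤
        2 * (3 * (Real.exp ((M : ℝ) ^ 3) * (Real.exp ((M : ℝ) ^ 3) *
          (2 * Real.exp ((M : ℝ) ^ 3))))) * (B * Real.exp (-(θ * n1))) := by
  classical
  have hM := hp.pos
  have hM1 := hp.one_leN
  have hm1 : 1 ≤ m := (card_pos.2 hne).trans_le hs
  have h2m := hp.two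
  set N := extN M s rep c T n0 with hNdef
  have hN0 : ∀ r, 0 ≤ N r := fun r => Nm_nonneg
  set S0 := s.filter (fun r => rep r = r) with hS0
  have hS0ne : S0.Nonempty := by
    obtain ⟨k, hk⟩ := hne
    exact ⟨rep k, mem_filter.2 ⟨hcl.mem k hk, hcl.idem k hk⟩⟩
  set Q := 100 * M ^ 15 with hQ
  have hQ2 : M ^ 2 ≤ M ^ 15 := hp.pow_monoN (by norm_num)
  have hW : m * (2 * Q + 1) ≤ M ^ 17 + 1 := by
    have h1 : 201 * M ^ 16 ≤ M ^ 17 := hp.mul_pow_leN (by norm_num) (by norm_num)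
    have h2 : 1 ≤ M ^ 15 := Nat.one_le_pow _ _ hM1
    have h3 : m * (2 * Q + 1) ≤ M * (201 * M ^ 15) := Nat.mul_le_mul (by omega) (by omega)
    have h4 : M * (201 * M ^ 15) = 201 * M ^ 16 := by ring
    omega
  obtain ⟨r0, hr0, j1, hj1, hj2, htop⟩ := exists_top S0 hS0ne N (fun r => Real.exp (-T r))
    (fun k _ => hN0 k) (fun k _ => Real.exp_pos _) (n := m) (H := 2 * Q) (j0 := n0) (W := M ^ 17)
    ((card_filter_le _ _).trans hs) hW
  obtain ⟨hr0s, hr0r⟩ := mem_filter.1 hr0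
  set n1 := j1 + Q with hn1
  refine ⟨n1, by omega, by omega, ?_⟩
  set lam : ℝ := ((M : ℝ) ^ 10)⁻¹ with hlam
  have hlam0 : 0 < lam := by positivity
  set t := s.filter (fun k => |T (rep k) - T r0| < lam / 8) with ht
  set tc := s.filter (fun k => ¬ |T (rep k) - T r0| < lam / 8) with htc
  set B1 := B * Real.exp (n1 * (T r0 - θ)) + m * (3 * Real.exp (-(M : ℝ) ^ 5)) * N r0 with hB1
  have hB10 : 0 ≤ B1 := by have := hN0 r0; positivity
  -- samples
  have hsample : ∀ y : ℕ, good y → n1 ≤ y + M ^ 2 → y ≤ n1 →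
      ‖∑ k ∈ t, extG c T (T r0) y k‖ ≤ B1 := by
    intro y hy hy1 hy2
    have hyn0 : n0 ≤ y := by omega
    have hyn : y ≤ n0 + M ^ 17 := by omega
    have htot := h y hy hyn0 hyn
    have hfar : ‖∑ k ∈ tc, c k * (Real.exp (-(y * T k)) : ℂ)‖ ≤
        m * (3 * Real.exp (-(M : ℝ) ^ 5) * N r0 * Real.exp (-(y * T r0))) := by
      refine ext_sat_le hcl.mem hcl.idem (filter_subset _ _) ?_ _ hs
        (by have := hN0 r0; positivity) ?_
      · intro k hk
        simp only [htc, mem_filter, hk, hcl.mem k hk, hcl.idem k hk]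
      · intro r hr hrr
        obtain ⟨hrs, hfar⟩ := mem_filter.1 hr
        rw [hrr, not_lt] at hfar
        have h1 := ext_part (y : ℝ) (by positivity) (ext_nb hp hcl c n0 r)
        have h2 := ext_exp_small hp (a := n0) (b := y) (by exact_mod_cast hyn0)
          (by exact_mod_cast hyn)
        have hr0' : r ∈ S0 := mem_filter.2 ⟨hrs, hrr⟩
        have h3 := line_gap (hN0 r) (hN0 r0) (Real.exp_pos (-T r)) (Real.exp_pos (-T r0))
          (j := y) (q := Q - M ^ 2) (η := lam / 8) (by omega)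
          (htop r hr0' _ (by omega) (by omega)) (htop r hr0' _ (by omega) (by omega))
          (by rw [← Real.exp_sub, Real.log_exp]
              have : -T r - -T r0 = -(T r - T r0) := by ring
              rw [this, abs_neg]; exact hfar)
        rw [ext_exp_pow, ext_exp_pow] at h3
        have h4 : Real.exp (-(lam / 8 * ((Q - M ^ 2 : ℕ) : ℝ))) ≤ Real.exp (-(M : ℝ) ^ 5) := by
          apply Real.exp_le_exp.2
          have h5 : 8 * M ^ 15 ≤ Q - M ^ 2 := by omega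
          have h6 : 8 * (M : ℝ) ^ 15 ≤ ((Q - M ^ 2 : ℕ) : ℝ) := by exact_mod_cast h5
          have h7 : lam / 8 * (8 * (M : ℝ) ^ 15) = (M : ℝ) ^ 5 := by rw [hlam]; field_simp
          have h8 := mul_le_mul_of_nonneg_left h6 (show 0 ≤ lam / 8 by positivity)
          linarith only [h7, h8]
        have h9 : N r * Real.exp (-(y * T r)) ≤
            Real.exp (-(M : ℝ) ^ 5) * (N r0 * Real.exp (-(y * T r0))) :=
          h3.trans (mul_le_mul_of_nonneg_right h4 (by have := hN0 r0; positivity))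
        have h10 : Real.exp (-(y * T r)) * (Real.exp (|(n0 : ℝ) - y| * (2 * ((M : ℝ) ^ 19)⁻¹)) * N r)
            ≤ Real.exp (-(y * T r)) * (3 * N r) :=
          mul_le_mul_of_nonneg_left (mul_le_mul_of_nonneg_right h2 (hN0 r)) (Real.exp_pos _).le
        calc _ ≤ _ := h1
          _ ≤ _ := h10
          _ = 3 * (N r * Real.exp (-(y * T r))) := by ring
          _ ≤ 3 * (Real.exp (-(M : ℝ) ^ 5) * (N r0 * Real.exp (-(y * T r0)))) := by linarith only [h9]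
          _ = _ := by ring
    have hsplit := sum_filter_add_sum_filter_not s (fun k => |T (rep k) - T r0| < lam / 8)
      (fun k => c k * (Real.exp (-(y * T k)) : ℂ))
    have hnear : ‖∑ k ∈ t, c k * (Real.exp (-(y * T k)) : ℂ)‖ ≤ B * Real.exp (-(θ * y)) +
        m * (3 * Real.exp (-(M : ℝ) ^ 5) * N r0 * Real.exp (-(y * T r0))) := by
      rw [eq_sub_of_add_eq hsplit]
      exact (norm_sub_le _ _).trans (add_le_add htot hfar)
    rw [ext_sum t c T (T r0) y, norm_mul, Complex.norm_real, Real.norm_eq_abs,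
      abs_of_pos (Real.exp_pos _)] at hnear
    have hE := Real.exp_pos (-(y * T r0))
    refine le_of_mul_le_mul_left (hnear.trans ?_) hE
    have h11 : Real.exp (-(θ * y)) ≤ Real.exp (-(y * T r0)) * Real.exp (n1 * (T r0 - θ)) := by
      rw [← Real.exp_add]
      apply Real.exp_le_exp.2
      have h12 : (y : ℝ) ≤ n1 := by exact_mod_cast hy2
      have h13 := hT r0 hr0s
      nlinarith only [h12, h13]
    have h14 := mul_le_mul_of_nonneg_left h11 hB
    rw [hB1]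
    linarith only [h14]
  obtain ⟨Y, hY, hY2⟩ := ext_samples M (2 * m) (n1 - M ^ 2) good hgood
  have hRM : 2 * m * M ≤ M ^ 2 := by rw [sq]; exact Nat.mul_le_mul_right _ h2m
  have hXc : (Y.image (fun y => n1 - y)).card = 2 * m := by
    rw [card_image_of_injOn, hY]
    intro a ha b hb hab
    have h1 := hY2 a ha
    have h2 := hY2 b hb
    simp only at hab
    omega
  have htv : ∀ k ∈ t, |T k - T r0| ≤ 1 / 2 * lam := by
    intro k hk
    obtain ⟨hks, hk2⟩ := mem_filter.1 hk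
    have h1 := hcl.near k hks
    have h2 : 8 * ((M : ℝ) ^ 19)⁻¹ ≤ lam := hp.inv_pow_le (by norm_num) (by norm_num)
    have h3 := abs_sub_le (T k) (T (rep k)) (T r0)
    linarith only [hlam0, hk2, h1, h2, h3]
  have hmom := ext_moments hp hm1 t ((card_filter_le _ _).trans hs) (extU T (T r0) lam)
    (extG c T (T r0) n1) (fun k hk => ext_norm_U hlam0 (htv k hk)) _ hXc
    (by
      intro x hx
      obtain ⟨y, hy, rfl⟩ := mem_image.1 hx
      have := hY2 y hy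
      omega) B1 hB10
    (by
      intro x hx
      obtain ⟨y, hy, rfl⟩ := mem_image.1 hx
      obtain ⟨h1, h2, h3⟩ := hY2 y hy
      have h4 : y ≤ n1 := by omega
      have h5 := hsample y h3 (by omega) h4
      have e : (n1 : ℝ) - ((n1 - y : ℕ) : ℝ) = y := by rw [Nat.cast_sub h4]; ring
      simp_rw [← hlam, ext_G_eq c T (T r0) lam hlam0, e]
      exact h5)
  have hCt : cls s rep r0 ⊆ t := by
    intro k hk
    obtain ⟨h1, h2⟩ := mem_cls.1 hk
    refine mem_filter.2 ⟨h1, ?_⟩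
    rw [h2, sub_self, abs_zero]; positivity
  have hrec := ext_recover hp t (cls s rep r0) ((card_filter_le _ _).trans hs) hCt T (T r0) _ _ htv
    (by
      intro k hk w hw hwC
      obtain ⟨h1, h2⟩ := mem_cls.1 hk
      have hws := (mem_filter.1 hw).1
      refine hcl.sep k h1 w hws ?_
      intro h3
      exact hwC (mem_cls.2 ⟨hws, by rw [← h3, h2]⟩))
    (by
      intro k hk
      obtain ⟨h1, h2⟩ := mem_cls.1 hk
      have := hcl.near k h1
      rwa [h2] at this) hmom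
  have hsh := (ext_shift (n0 : ℝ) (by positivity) hrec).Nm_le
  have h3 := ext_exp_small hp (a := n0) (b := n1) (by exact_mod_cast (show n0 ≤ n1 by omega))
    (by exact_mod_cast (show n1 ≤ n0 + M ^ 17 by omega))
  rw [abs_sub_comm] at h3
  have h16 := ext_pow_le hp (k := 16) (by norm_num) m (by nlinarith only [hM1, hm1, hRM])
  set E := Real.exp ((M : ℝ) ^ 3) with hE
  have hE0 : 0 < E := Real.exp_pos _
  set K := 3 * (E * (E * (2 * E))) with hK
  have hK0 : 0 < K := by positivity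
  have hNK : N r0 ≤ K * B1 := by
    refine hsh.trans ?_
    calc _ ≤ 3 * (E * (E * (2 * E * B1))) := by gcongr
      _ = _ := by rw [hK]; ring
  have habs : K * (m * (3 * Real.exp (-(M : ℝ) ^ 5))) ≤ 1 / 2 := ext_absorb hp
  have hN1 : N r0 ≤ 2 * K * (B * Real.exp (n1 * (T r0 - θ))) := by
    rw [hB1, mul_add, ← mul_assoc K _ (N r0)] at hNK
    have := mul_le_mul_of_nonneg_right habs (hN0 r0)
    linarith only [hNK, this]
  intro r hr hrr
  have h4 := htop r (mem_filter.2 ⟨hr, hrr⟩) n1 (by omega) (by omega)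
  rw [ext_exp_pow, ext_exp_pow] at h4
  refine h4.trans ?_
  have h5 : Real.exp (n1 * (T r0 - θ)) * Real.exp (-(n1 * T r0)) = Real.exp (-(θ * n1)) := by
    rw [← Real.exp_add]; congr 1; ring
  calc _ ≤ 2 * K * (B * Real.exp (n1 * (T r0 - θ))) * Real.exp (-(n1 * T r0)) :=
        mul_le_mul_of_nonneg_right hN1 (Real.exp_pos _).le
    _ = _ := by rw [← h5]; ring

end Pool.Agent.Work.MP_97f157_lc.Tau
end
end
end
end

-- merged part: Pool.Agent.Work.MP_97f157_lc.TauApxHAux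
section
-- merged part: Pool.Agent.Work.MP_97f157_lc.TauIsoA
section
-- merged part: Pool.Agent.Work.MP_97f157_lc.TauExt
section
/-! Extrapolation of real exponential sums from scattered samples. -/

noncomputable section
open Complex Finset

namespace Pool.Agent.Work.MP_97f157_lc.Tau

/-- Lagrange: coefficients of a polynomial of degree `< R` from its values at `R` distinct
integers of `[0, L]` (`ℓ¹` norm of each basis polynomial is `≤ (1+L)^R`) -/
theorem coeff_le_of_values (R L : ℕ) (c : ℕ → ℂ) (t : Finset ℕ) (ht : t.card = R)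
    (htL : ∀ x ∈ t, x ≤ L) (B : ℝ) (hB : ∀ x ∈ t, ‖∑ i ∈ range R, c i * (x : ℂ) ^ i‖ ≤ B) :
    ∀ i < R, ‖c i‖ ≤ R * (1 + L) ^ R * B := ext_coeff_le R L c t ht htL B hB

/-- Lagrange extrapolation of a polynomial of degree `< R` -/
theorem eval_le_of_values (R L : ℕ) (c : ℕ → ℂ) (t : Finset ℕ) (ht : t.card = R)
    (htL : ∀ x ∈ t, x ≤ L) (B : ℝ) (hB : ∀ x ∈ t, ‖∑ i ∈ range R, c i * (x : ℂ) ^ i‖ ≤ B) (y : ℕ) :
    ‖∑ i ∈ range R, c i * (y : ℂ) ^ i‖ ≤ R * (1 + L + y) ^ R * B :=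
  ext_eval_le R L c t ht htL B hB y

/-- `R` good integers in a window of length `R * M` -/
theorem exists_samples (M R x : ℕ) (good : ℕ → Prop) (h : ∀ x, ∃ y, x ≤ y ∧ y < x + M ∧ good y) :
    ∃ t : Finset ℕ, t.card = R ∧ ∀ y ∈ t, x ≤ y ∧ y < x + R * M ∧ good y :=
  ext_samples M R x good h

/-- Cluster the `T k` absolutely at level `M^{-20}` (`exists_aclus`, radius `M^{-19}`), with norms
`N_Γ = Nm (cls Γ) ((T - T_Γ)/(2 M^{-19})) 0 (c exp(-n0 (T - T_Γ)))`; the part of the cluster at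
`n ≥ n0` is at most `N_Γ exp(-n T_Γ) exp((n - n0) 2 M^{-19})`.  Take a top line among
`N_Γ exp(-T_Γ)^n` on a piece of length `M^16 / 2` (`exists_top`), let `n°` be its middle.
Clusters with `|T_Γ - T_*| ≥ M^{-10}/8` are smaller by `exp(-M^5)` (`line_gap`) on
`[n° - M², n°]`, which contains `R = 2 card s` good samples.  On the union `t` of the other clusters put
`v = (T - T_*)/λ`, `λ = M^{-10}`, `g = c exp(-n°(T - T_*))`, `N = Nm t v 0 g`; expand
`∑ g exp(x λ v)` in `x = n° - n` up to degree `R - 1` (remainder `≤ 2 N (M² λ)^R`), bound the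
coefficients by `coeff_le_of_values`, and `N` by `reduce_one`; absorb the remainder.  Recover the top
cluster by `NB.restrict`, `NB.recenter`; absorb the far clusters. -/
theorem extrapolate {ι : Type*} {m M : ℕ} (hp : Par m M) (s : Finset ι) (hs : s.card ≤ m)
    (c : ι → ℂ) (T : ι → ℝ) (T0 θ B : ℝ) (hT : ∀ k ∈ s, T0 ≤ T k) (hθ : θ + 1 ≤ T0) (hB : 0 ≤ B)
    (n0 : ℕ) (good : ℕ → Prop) (hgood : ∀ x, ∃ y, x ≤ y ∧ y < x + M ∧ good y)
    (h : ∀ n, good n → n0 ≤ n → n ≤ n0 + M ^ 17 →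
      ‖∑ k ∈ s, c k * (Real.exp (-(n * T k)) : ℂ)‖ ≤ B * Real.exp (-(θ * n)))
    (n : ℕ) (hn : n0 + M ^ 17 ≤ n) :
    ‖∑ k ∈ s, c k * (Real.exp (-(n * T k)) : ℂ)‖ ≤ Real.exp ((M : ℝ) ^ 4) * B *
      Real.exp (-(θ * (n0 + M ^ 17 : ℕ))) * Real.exp (-(((n : ℝ) - (n0 + M ^ 17 : ℕ)) * (T0 - 1))) := by
  have hM := hp.pos
  rcases s.eq_empty_or_nonempty with rfl | hne
  · rw [sum_empty, norm_zero]; positivity
  have hmM : (m : ℝ) ≤ M := by have := hp.mle; linarith only [hM, this]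
  obtain ⟨rep, hcl⟩ := exists_aclus s T (e1 := ((M : ℝ) ^ 19)⁻¹) (e0 := ((M : ℝ) ^ 20)⁻¹) hs
    (by positivity) (by
      calc (m : ℝ) * ((M : ℝ) ^ 20)⁻¹ ≤ M * ((M : ℝ) ^ 20)⁻¹ :=
            mul_le_mul_of_nonneg_right hmM (by positivity)
        _ = _ := by field_simp)
  obtain ⟨n1, h1, h2, h3⟩ := ext_top hp s hs hne c T θ B
    (fun k hk => by have := hT k hk; linarith only [hθ, this]) hB n0 good hgood h rep hcl
  set K := 2 * (3 * (Real.exp ((M : ℝ) ^ 3) * (Real.exp ((M : ℝ) ^ 3) *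
          (2 * Real.exp ((M : ℝ) ^ 3))))) with hK
  have hK0 : 0 ≤ K := by positivity
  set n2 : ℕ := n0 + M ^ 17 with hn2
  set A := B * Real.exp (-(θ * n2)) * Real.exp (-(((n : ℝ) - n2) * (T0 - 1))) with hA
  have hA0 : 0 ≤ A := by positivity
  have hb := ext_sat_le hcl.mem hcl.idem (Subset.refl s)
    (fun k hk => ⟨fun _ => hcl.mem k hk, fun _ => hk⟩)
    (fun k => c k * (Real.exp (-(n * T k)) : ℂ)) hs (A := 3 * K * A) (by positivity) (by
      intro r hr hrr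
      have h4 := ext_part (n : ℝ) (by positivity) (ext_nb hp hcl c n0 r)
      have h5 := h3 r hr hrr
      have h02 : (n0 : ℝ) ≤ n2 := by exact_mod_cast (show n0 ≤ n2 by omega)
      have h12 : (n1 : ℝ) ≤ n2 := by exact_mod_cast h2
      have h2n : (n2 : ℝ) ≤ n := by exact_mod_cast hn
      have h6 := ext_exp_small hp (a := n0) (b := n2) h02 (by rw [hn2]; push_cast; exact le_rfl)
      have he : 2 * ((M : ℝ) ^ 19)⁻¹ ≤ 1 := by
        have := hp.inv_pow_le (c := 2) (by norm_num) (i := 0) (k := 19) (by norm_num)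
        simpa using this
      have he0 : 0 ≤ 2 * ((M : ℝ) ^ 19)⁻¹ := by positivity
      set e := 2 * ((M : ℝ) ^ 19)⁻¹
      have hTr := hT r hr
      have h7 : Real.exp (-(n * T r)) * Real.exp (|(n0 : ℝ) - n| * e) * Real.exp (-(θ * n1)) ≤
          Real.exp (|(n0 : ℝ) - n2| * e) * Real.exp (-(n1 * T r)) *
            (Real.exp (-(θ * n2)) * Real.exp (-(((n : ℝ) - n2) * (T0 - 1)))) := by
        simp only [← Real.exp_add]
        apply Real.exp_le_exp.2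
        rw [abs_sub_comm (n0 : ℝ) n, abs_sub_comm (n0 : ℝ) n2, abs_of_nonneg (by linarith only [h02, h2n]),
          abs_of_nonneg (by linarith only [h02])]
        have a1 : ((n : ℝ) - n2) * e ≤ ((n : ℝ) - n2) * 1 :=
          mul_le_mul_of_nonneg_left he (by linarith only [h2n])
        have a2 : ((n : ℝ) - n2) * T0 ≤ ((n : ℝ) - n2) * T r :=
          mul_le_mul_of_nonneg_left hTr (by linarith only [h2n])
        have a3 : ((n2 : ℝ) - n1) * θ ≤ ((n2 : ℝ) - n1) * T r :=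
          mul_le_mul_of_nonneg_left (by linarith only [hθ, hTr]) (by linarith only [h12])
        linarith only [a1, a2, a3]
      have hN0 : 0 ≤ extN M s rep c T n0 r := Nm_nonneg
      set N := extN M s rep c T n0 r
      have hθ1 := Real.exp_pos (-(θ * n1))
      refine h4.trans (le_of_mul_le_mul_right ?_ hθ1)
      have h8 : 0 ≤ Real.exp (-(θ * n2)) * Real.exp (-(((n : ℝ) - n2) * (T0 - 1))) := by positivity
      calc _ = N * (Real.exp (-(n * T r)) * Real.exp (|(n0 : ℝ) - n| * e) *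
            Real.exp (-(θ * n1))) := by ring
        _ ≤ N * (Real.exp (|(n0 : ℝ) - n2| * e) * Real.exp (-(n1 * T r)) *
            (Real.exp (-(θ * n2)) * Real.exp (-(((n : ℝ) - n2) * (T0 - 1))))) :=
          mul_le_mul_of_nonneg_left h7 hN0
        _ = Real.exp (|(n0 : ℝ) - n2| * e) * (N * Real.exp (-(n1 * T r))) *
            (Real.exp (-(θ * n2)) * Real.exp (-(((n : ℝ) - n2) * (T0 - 1)))) := by ring
        _ ≤ 3 * (K * (B * Real.exp (-(θ * n1)))) *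
            (Real.exp (-(θ * n2)) * Real.exp (-(((n : ℝ) - n2) * (T0 - 1)))) :=
          mul_le_mul_of_nonneg_right (mul_le_mul h6 h5 (by positivity) (by norm_num)) h8
        _ = _ := by rw [hA]; ring)
  have hfin : m * (3 * K) ≤ Real.exp ((M : ℝ) ^ 4) := ext_final_num hp
  calc _ ≤ _ := hb
    _ = m * (3 * K) * A := by ring
    _ ≤ Real.exp ((M : ℝ) ^ 4) * A := mul_le_mul_of_nonneg_right hfin hA0
    _ = _ := by rw [hA]; ring

end Pool.Agent.Work.MP_97f157_lc.Tau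
end
end

-- merged part: Pool.Agent.Work.MP_97f157_lc.TauIsoB
section
/-! Far poles of the lattices of class `B` are negligible. -/

noncomputable section
open Complex Finset

namespace Pool.Agent.Work.MP_97f157_lc.Tau

variable {ι : Type*} {m M : ℕ}

theorem isoB_extra (D : Dat ι) (s : Finset ι) (G : ι) {Q e1 : ℝ} (n L : ℕ) (hs : s.card ≤ n)
    (hb : 0 < sp (D.a G)) (hQ : 0 < Q) (he1 : 0 ≤ e1) (heL : e1 * L ≤ Q)
    (t : Finset ℕ) (ht : t.card = n) (htL : ∀ x ∈ t, x ≤ L) (C : ℝ) (hC : 0 ≤ C)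
    (h : ∀ x ∈ t, NB s (isoB_u D Q e1 G x) (fun _ => 0) (fun k => (D.W k : ℂ)) C) (l : ℕ)
    (hu : ∀ k ∈ s, ‖isoB_u D Q e1 G l k‖ ≤ 1 / 2) :
    NB s (isoB_u D Q e1 G l) (fun _ => 0) (fun k => (D.W k : ℂ))
      (3 ^ n * (n * (1 + L + l) ^ n * 2 ^ n * C)) := by
  refine NB.of_one (reduce_one hs hu (by positivity) fun i hi => ?_)
  have hpos : ∀ y : ℕ, 0 < (2 * Q + e1 * y) * sp (D.a G) := fun y => by positivity
  have key : ∀ y : ℕ, ‖∑ p ∈ range n, (∑ k ∈ s, (D.W k : ℂ) *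
      ((I * (sp (D.a k) - sp (D.a G) : ℝ)) ^ p * (D.x k : ℂ) ^ (i - p) * (i.choose p : ℂ))) *
        (y : ℂ) ^ p‖ = ((2 * Q + e1 * y) * sp (D.a G)) ^ i *
          ‖∑ k ∈ s, (D.W k : ℂ) * isoB_u D Q e1 G y k ^ i‖ := fun y => by
    have c0 : ((((2 * Q + e1 * y) * sp (D.a G) : ℝ)) : ℂ) ≠ 0 := by exact_mod_cast (hpos y).ne'
    rw [← Real.norm_of_nonneg (hpos y).le, ← Complex.norm_real, ← norm_pow, ← norm_mul, mul_sum]
    congr 1
    simp only [sum_mul]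
    rw [sum_comm]
    refine sum_congr rfl fun k _ => ?_
    rw [isoB_u, isoB_sub, div_pow, mul_left_comm, mul_div_cancel₀ _ (pow_ne_zero _ c0), add_comm,
      add_pow, mul_sum, ← sum_subset (range_subset_range.2 (show i + 1 ≤ n from hi))]
    · exact sum_congr rfl fun p _ => by ring
    · intro p _ hp
      rw [Nat.choose_eq_zero_of_lt (by simpa using hp)]
      simp
  have h1 := eval_le_of_values n L _ t ht htL ((3 * Q * sp (D.a G)) ^ i * C) (fun x hx => by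
    rw [key]
    have t1 : e1 * x ≤ Q :=
      (mul_le_mul_of_nonneg_left (by exact_mod_cast htL x hx) he1).trans heL
    exact mul_le_mul (pow_le_pow_left₀ (hpos x).le
      (mul_le_mul_of_nonneg_right (by linarith only [t1]) hb.le) _) ((h x hx).one i) (norm_nonneg _)
      (by positivity)) l
  rw [key] at h1
  refine le_of_mul_le_mul_left (h1.trans ?_) (pow_pos (hpos l) i)
  have t1 : 3 * Q * sp (D.a G) ≤ 2 * ((2 * Q + e1 * l) * sp (D.a G)) := by
    have : 0 ≤ e1 * l * sp (D.a G) := by positivity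
    have : 0 ≤ Q * sp (D.a G) := by positivity
    linarith
  have t2 : (3 * Q * sp (D.a G)) ^ i ≤ 2 ^ n * ((2 * Q + e1 * l) * sp (D.a G)) ^ i := by
    refine (pow_le_pow_left₀ (by positivity) t1 i).trans ?_
    rw [mul_pow]
    exact mul_le_mul_of_nonneg_right (pow_le_pow_right₀ (by norm_num) hi.le)
      (pow_pos (hpos l) i).le
  calc (n : ℝ) * (1 + L + l) ^ n * ((3 * Q * sp (D.a G)) ^ i * C)
      ≤ n * (1 + L + l) ^ n * (2 ^ n * ((2 * Q + e1 * l) * sp (D.a G)) ^ i * C) := by gcongr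
    _ = _ := by ring

theorem isoB_u_le (D : Dat ι) {B : Finset ι} (ha : ∀ k ∈ B, 0 < D.a k) {gr : ι → ι}
    {Q e1 e0 : ℝ} (hT : ∀ k ∈ B, D.T k ≤ 2 * Q) (hQ : 0 < Q) (he0 : 0 ≤ e1) (he1 : e1 ≤ 1)
    (hgr : RClus B (fun k => (sp (D.a k) : ℂ)) gr e1 e0) {G : ι} (hG : G ∈ B) (l : ℕ) :
    ∀ k ∈ cls B gr G, ‖isoB_u D Q e1 G l k‖ ≤ 1 / 2 := fun k hk => by
  obtain ⟨h1, h2⟩ := mem_cls.1 hk
  have h3 := isoB_dist D ha hT hQ.le he1 hgr h1 l
  have hb := sp_pos (ha G hG)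
  have h4 : 0 < (2 * Q + e1 * l) * sp (D.a G) := by positivity
  rw [h2] at h3
  rw [isoB_u, norm_div, Complex.norm_real, Real.norm_of_nonneg h4.le, div_le_iff₀ h4]
  linarith only [h3, h4]

theorem isoB_pw {c y A : ℝ} (hc : 0 ≤ c) (hy : 0 ≤ y) (h : c ≤ Real.exp y) {p : ℕ}
    (hp : (p : ℝ) ≤ A) : c ^ p ≤ Real.exp (y * A) := by
  calc c ^ p ≤ Real.exp y ^ p := pow_le_pow_left₀ hc h p
    _ = Real.exp (p * y) := (Real.exp_nat_mul y p).symm
    _ ≤ Real.exp (y * A) := Real.exp_le_exp.2 (by linarith only [hy, hp, mul_nonneg_of_nonpos_of_nonpos (Mathlib.Tactic.Linarith.sub_nonpos_of_le hy) (Mathlib.Tactic.Linarith.sub_nonpos_of_le hp)])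

theorem isoB_alg {Z c1 c2 c3 c4 c5 c6 R X Y Y' : ℝ} (hZ : 2 ≤ Z) (hR : 1 ≤ R) (hX : 0 ≤ X)
    (h1 : c1 ≤ Z) (h2 : c2 ≤ Z) (h3 : c3 ≤ Z) (h4 : c4 ≤ Z) (h5 : c5 ≤ Z) (h6 : c6 ≤ Z)
    (g2 : 0 ≤ c2) (g3 : 0 ≤ c3) (g4 : 0 ≤ c4) (g5 : 0 ≤ c5) (g6 : 0 ≤ c6) (hY : 0 ≤ Y)
    (hY' : Y ≤ Y') :
    c1 * (c2 * Y * c3 * (c4 * (X + c5 * c6 * (R * Z * X)))) ≤ Z ^ 8 * R * Y' * X := by
  have hZ0 : 0 ≤ Z := by linarith only [hZ]
  have hR0 : 0 ≤ R := by linarith
  have hY0 : 0 ≤ Y' := hY.trans hY'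
  have t1 : X ≤ Z * Z * (R * Z * X) := by
    rw [← mul_assoc]
    refine le_mul_of_one_le_left hX ?_
    have : 1 ≤ Z := by linarith only [hZ]
    exact one_le_mul_of_one_le_of_one_le (one_le_mul_of_one_le_of_one_le this this)
      (one_le_mul_of_one_le_of_one_le hR this)
  calc c1 * (c2 * Y * c3 * (c4 * (X + c5 * c6 * (R * Z * X))))
      ≤ Z * (Z * Y' * Z * (Z * (Z * Z * (R * Z * X) + Z * Z * (R * Z * X)))) := by gcongr
    _ = 2 * (Z ^ 7 * R * Y' * X) := by ring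
    _ ≤ Z * (Z ^ 7 * R * Y' * X) := by gcongr
    _ = _ := by ring

theorem isoB_inv_le (hp : Par m M) {k : ℕ} (hk : 0 < k) :
    0 < ((M : ℝ) ^ k)⁻¹ ∧ ((M : ℝ) ^ k)⁻¹ ≤ 1 / 4 := by
  have h := hp.inv_pow_le (c := 4) (by norm_num) hk
  rw [pow_zero, inv_one] at h
  exact ⟨inv_pos.2 (hp.pow_pos k), by linarith only [h]⟩

theorem isoB_Z (hp : Par m M) {c : ℝ} (hc : 0 ≤ c) {k : ℕ} (hk : k ≤ 100000)
    (h : c ≤ (M : ℝ) ^ k) {p : ℕ} (hpm : (p : ℝ) ≤ (M : ℝ) ^ 2) :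
    c ^ p ≤ Real.exp ((M : ℝ) ^ 3) := by
  have h1 := isoB_pw hc hp.pos.le (h.trans (hp.pow_le_exp hk)) hpm
  rwa [← pow_succ'] at h1

theorem isoB_card (hp : Par m M) (D : Dat ι) (B : Finset ι) (hB : B.card ≤ m) :
    ((D.pB B (M ^ 269)).card : ℝ) ≤ (M : ℝ) ^ 271 := by
  have h1 : (D.pB B (M ^ 269)).card ≤ m * (2 * M ^ 269 + 1) := by
    refine (card_filter_le _ _).trans ?_
    rw [card_product, Int.card_Icc]
    refine Nat.mul_le_mul hB (le_of_eq ?_)
    generalize M ^ 269 = L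
    omega
  have h2 := hp.mul_pow_leN (c := 3) (by norm_num) (show 269 < 270 by norm_num)
  have h3 := hp.pow_monoN (Nat.zero_le 269)
  have h4 := hp.two
  rw [pow_zero] at h3
  have h5 : m * (2 * M ^ 269 + 1) ≤ M * M ^ 270 := Nat.mul_le_mul (by omega) (by omega)
  rw [← pow_succ'] at h5
  rw [← Nat.cast_pow]
  exact Nat.cast_le.2 (h1.trans h5)

theorem isoB_ind (hp : Par m M) (D : Dat ι) (B : Finset ι) (hB : B.card ≤ m)
    (ha : ∀ k ∈ B, 0 < D.a k) (hT : ∀ k ∈ B, D.T k ≤ 2 * (M : ℝ) ^ 267)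
    (bt : ι × ℤ → ι × ℤ) (hbt : RClus (D.pB B (M ^ 269)) D.node bt (eA1 M) (eA0 M))
    (hne : ∀ ν ∈ D.pB B (M ^ 269), D.node ν ≠ 0)
    (gr : ι → ι) (hgr : RClus B (fun k => (sp (D.a k) : ℂ)) gr (eG1 M) (eG0 M))
    (j : ℕ) (E : ℝ) (hE0 : 0 ≤ E)
    (hE : ∀ α ∈ D.pB B (M ^ 269), bt α = α →
      D.NP M (D.pB B (M ^ 269)) bt α / ‖D.node α‖ ^ (j + 1) ≤ E) (r : ℕ) :
    ∀ G ∈ B, gr G = G → (B.filter fun k => sp (D.a k) < sp (D.a G)).card < r → ∀ l : ℕ, 1 ≤ l →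
      NB (cls B gr G) (isoB_u D ((M : ℝ) ^ 267) (eG1 M) G l) (fun _ => 0) (fun k => (D.W k : ℂ))
        (Real.exp (3 * (M : ℝ) ^ 4 * r) * (1 + (M : ℝ) ^ 2 + l) ^ M *
          (E * (3 * (M : ℝ) ^ 267 * sp (D.a G)) ^ (j + 1))) := by
  induction r with
  | zero => intro G _ _ h; omega
  | succ r ih =>
    intro G hG hGG hr l hl
    have hM := hp.one_le
    have hm := hp.mle
    have hm0 : (0 : ℝ) ≤ m := Nat.cast_nonneg m
    have hQ := hp.pow_pos 267
    have hb := sp_pos (ha G hG)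
    obtain ⟨g1, g1'⟩ : 0 < eG1 M ∧ eG1 M ≤ 1 / 4 := isoB_inv_le hp (by norm_num)
    obtain ⟨g0, g0'⟩ : 0 < eG0 M ∧ eG0 M ≤ 1 / 4 := isoB_inv_le hp (by norm_num)
    obtain ⟨a1, a1'⟩ : 0 < eA1 M ∧ eA1 M ≤ 1 / 4 := isoB_inv_le hp (by norm_num)
    obtain ⟨a0, a0'⟩ : 0 < eA0 M ∧ eA0 M ≤ 1 / 4 := isoB_inv_le hp (by norm_num)
    have p1 : (M : ℝ) ≤ (M : ℝ) ^ 2 := by simpa using hp.pow_mono (show 1 ≤ 2 by norm_num)
    have p0 : ∀ k : ℕ, (1 : ℝ) ≤ (M : ℝ) ^ k := fun k => one_le_pow₀ hM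
    have hG01 : eG0 M ≤ eG1 M := inv_anti₀ (hp.pow_pos _) (hp.pow_mono (by norm_num))
    have hL2 : 16 * eG1 M * (((M ^ 2 : ℕ) : ℝ) + 1) ^ 2 ≤ 1 := by
      clear * - M m hp p0 hM p1
      have t1 := hp.mul_pow_le (c := 64) (by norm_num) (show 4 < 24000 by norm_num)
      have t2 : (((M ^ 2 : ℕ) : ℝ) + 1) ^ 2 ≤ 4 * (M : ℝ) ^ 4 := by
        push_cast
        have := p0 2
        nlinarith only [hM, p1]
      rw [eG1, mul_right_comm, mul_inv_le_iff₀ (hp.pow_pos _), one_mul]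
      linarith only [t1, t2]
    have heL : ∀ k : ℕ, k ≤ 269 → eG1 M * ((M ^ k : ℕ) : ℝ) ≤ (M : ℝ) ^ 267 := fun k hk => by
      refine le_trans ?_ (p0 267)
      rw [eG1, inv_mul_le_iff₀ (hp.pow_pos _), mul_one, Nat.cast_pow]
      exact hp.pow_mono (by omega)
    have hae : 12 * (M : ℝ) ^ 267 * eA1 M ≤ eG0 M := by
      rw [eA1, eG0, mul_inv_le_iff₀ (hp.pow_pos _), le_inv_mul_iff₀ (hp.pow_pos _), mul_left_comm,
        ← pow_add]
      exact hp.mul_pow_le (by norm_num) (by norm_num)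
    obtain ⟨P, hP1, hP2, hP3⟩ := unblocked B (fun k => sp (D.a k)) (fun k hk => sp_pos (ha k hk))
      gr hgr g0 hG01 (M ^ 2) hL2 G hG hGG
    obtain ⟨t, ht1, ht2⟩ := exists_samples M m 1 (fun y => ∀ p ∈ P, ¬ p ∣ y)
      (hp.jac P hP1 (by omega))
    have htL : ∀ x ∈ t, x ≤ M ^ 2 := fun x hx => by
      have t1 := (ht2 x hx).2.1
      have t2 : m * M ≤ M * M := Nat.mul_le_mul_right M (by have := hp.two; omega)
      rw [sq]
      omega
    set X := E * (3 * (M : ℝ) ^ 267 * sp (D.a G)) ^ (j + 1) with hX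
    have hX0 : 0 ≤ X := by positivity
    set Z := Real.exp ((M : ℝ) ^ 3) with hZ
    set R := Real.exp (3 * (M : ℝ) ^ 4 * r) with hR
    have hR1 : 1 ≤ R := Real.one_le_exp (by clear * - M r hM; positivity)
    have hZ0 : 0 < Z := Real.exp_pos _
    have hgood := fun x (hx : x ∈ t) => isoB_good D B hB ha hT bt hbt hne gr hgr j E hE0 hE G hG x
      (ht2 x hx).1 ((htL x hx).trans (hp.pow_monoN (by norm_num)))
      (le_trans (by exact_mod_cast htL x hx) (hp.pow_mono (show 2 ≤ 267 by norm_num)))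
      g1 (by linarith only [g1, g1']) a1 (by linarith only [g1, g1', a1']) a0 (by linarith only [g1, g1', a0']) (heL 269 le_rfl) hae (by linarith only [g1, g1', g0'])
      (hP3 x (ht2 x hx).1 (htL x hx) (ht2 x hx).2.2) (R * Z * X) (by clear * - R Z X M r E ι D G j hE0 hM hb; positivity)
      fun G' hG' hGG' hlt l' hl' hl'L => by
        clear * - ι D G' B G hlt hG' gr M l' R E j Z X ih hGG' r m hr l P t hl' ha hl'L hp hM p1 hE0
          p0
        have t0 : (B.filter fun k => sp (D.a k) < sp (D.a G')) ⊂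
            B.filter fun k => sp (D.a k) < sp (D.a G) := by
          refine (ssubset_iff_of_subset fun k hk => ?_).2 ⟨G', mem_filter.2 ⟨hG', hlt⟩, ?_⟩
          · exact mem_filter.2 ⟨(mem_filter.1 hk).1, (mem_filter.1 hk).2.trans hlt⟩
          · exact fun h => lt_irrefl _ (mem_filter.1 h).2
        have t1 := card_lt_card t0
        refine (ih G' hG' hGG' (by omega) l' hl').mono ?_
        have t2 := sp_pos (ha G' hG')
        have t3 : (l' : ℝ) ≤ (M : ℝ) ^ 269 := by exact_mod_cast hl'L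
        have t4 := hp.mul_pow_le (c := 3) (by norm_num) (show 269 < 270 by norm_num)
        have t5 := hp.pow_mono (show 2 ≤ 269 by norm_num)
        have t6 : (1 + (M : ℝ) ^ 2 + l') ^ M ≤ Z :=
          isoB_Z hp (by positivity) (k := 270) (by norm_num) (by linarith only [hM, p1, t3, t4, t5, p0 269]) p1
        exact mul_le_mul (mul_le_mul_of_nonneg_left t6 (by positivity))
          (mul_le_mul_of_nonneg_left (pow_le_pow_left₀ (by positivity)
            (mul_le_mul_of_nonneg_left hlt.le (by positivity)) _) hE0) (by clear * - E M ι D G' j hE0 hM t2; positivity)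
          (by positivity)
    have hd0 : 0 ≤ 4 / (eA0 M / (8 * (M : ℝ) ^ 267)) :=
      div_nonneg (by norm_num) (div_nonneg a0.le (mul_nonneg (by norm_num) hQ.le))
    refine (isoB_extra D (cls B gr G) G m (M ^ 2)
      ((card_le_card fun k hk => (mem_cls.1 hk).1).trans hB) hb hQ g1.le (heL 2 (by norm_num)) t ht1
      htL _ (mul_nonneg (Nat.cast_nonneg _) (add_nonneg hX0 (mul_nonneg
        (mul_nonneg (by positivity) (pow_nonneg hd0 _)) (by clear * - R Z X M r E ι D G j hE0 hM hb hgood l; positivity)))) hgood l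
      (isoB_u_le D ha hT hQ g1.le (by linarith only [g1, g1']) hgr hG l)).mono ?_
    have hc : ∀ c : ℝ, 0 ≤ c → c ≤ 10 ^ 12 → c ^ m ≤ Z := fun c h0 h1 =>
      isoB_Z hp h0 (k := 1) (by norm_num) (by rw [pow_one]; exact h1.trans hp.bigR) (by linarith only [hM, hm, g1, g1', p1])
    have hc1 : ∀ c : ℝ, 0 ≤ c → c ≤ (M : ℝ) ^ 271 → c ≤ Z := fun c h0 h1 => by
      have := isoB_Z hp h0 (k := 271) (by norm_num) h1 (p := 1) (by simpa using p0 2)
      rwa [pow_one] at this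
    have p2 : (M : ℝ) ≤ (M : ℝ) ^ 271 := by simpa using hp.pow_mono (show 1 ≤ 271 by norm_num)
    have hδ : (4 / (eA0 M / (8 * (M : ℝ) ^ 267))) ^ (m * m) ≤ Z := by
      clear * - m M hp hd0 hM g1 g1' p1 hm
      refine isoB_Z hp hd0 (k := 32568) (by norm_num) ?_ ?_
      · rw [div_div_eq_mul_div, eA0, div_inv_eq_mul, ← mul_assoc, mul_assoc, ← pow_add]
        exact hp.mul_pow_le (by norm_num) (by norm_num)
      · push_cast
        nlinarith only [hM, hm, g1, g1', p1]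
    refine (isoB_alg (Z := Z) (Y' := (1 + (M : ℝ) ^ 2 + l) ^ M)
      (hc1 2 (by norm_num) (by linarith only [g1, g1', p2, hp.bigR])) hR1 hX0 (hc 3 (by norm_num) (by norm_num))
      (hc1 m hm0 (by linarith only [hM, hm, g1, g1', p2])) (hc 2 (by norm_num) (by norm_num))
      (hc1 _ (by clear * - ι D B M hB hc hm0 hp hδ; positivity) (isoB_card hp D B hB)) (hc 576 (by norm_num) (by norm_num)) hδ hm0
      (by positivity) (by clear * - ι D B M hd0; positivity) (by positivity) (pow_nonneg hd0 _) (by positivity)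
      ?_).trans ?_
    · push_cast
      exact pow_le_pow_right₀ (by linarith only [hM, g1, g1', p1, p0 2, (Nat.cast_nonneg l : (0 : ℝ) ≤ l)])
        (by have := hp.two; omega)
    · refine mul_le_mul_of_nonneg_right (mul_le_mul_of_nonneg_right ?_ (by positivity)) hX0
      rw [hZ, hR, ← Real.exp_nat_mul, ← Real.exp_add]
      refine Real.exp_le_exp.2 ?_
      have t1 := hp.mul_pow_le (c := 8) (by norm_num) (show 3 < 4 by norm_num)
      have t2 := p0 4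
      push_cast
      linarith only [g1, g1', t1, t2]

/-- Induction over the representatives `G` by increasing spacing `b G = sp (a G)`, constant
`exp (3 M^4 (rank + 1))`.  Take `card B` good indices `l ∈ [1, 1 + m M]` (`unblocked` for `η = sp ∘ a`,
`L = M^2`, `exists_samples`).  For a good `l` apply `ustep` with `P = pB B (M^269)`, `x = node`,
`lab ν = (gr ν.1, ν.2)`, `y0 = (G, l)`, `x0 = I l b G`, `lam = (2 M^267 + eG1 l) b G`,
`δ = eA0 / (8 M^267)`; other labels `(G', l')` have `l' ≥ 1` (compare imaginary parts) and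
`b G' < b G`.  The moment `∑ W k (x k + I l (b k - b G))^i` is a polynomial in `l` of degree
`≤ i`; for `i < card B` extrapolate it by `eval_le_of_values`, then use `reduce_one`. -/
theorem isoB (hp : Par m M) (D : Dat ι) (B : Finset ι) (hB : B.card ≤ m)
    (ha : ∀ k ∈ B, 0 < D.a k) (hT : ∀ k ∈ B, D.T k ≤ 2 * (M : ℝ) ^ 267)
    (bt : ι × ℤ → ι × ℤ) (hbt : RClus (D.pB B (M ^ 269)) D.node bt (eA1 M) (eA0 M))
    (hne : ∀ ν ∈ D.pB B (M ^ 269), D.node ν ≠ 0)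
    (gr : ι → ι) (hgr : RClus B (fun k => (sp (D.a k) : ℂ)) gr (eG1 M) (eG0 M))
    (j : ℕ) (E : ℝ) (hE0 : 0 ≤ E)
    (hE : ∀ α ∈ D.pB B (M ^ 269), bt α = α →
      D.NP M (D.pB B (M ^ 269)) bt α / ‖D.node α‖ ^ (j + 1) ≤ E)
    (G : ι) (hG : G ∈ B) (hGG : gr G = G) (l : ℕ) (hl : 1 ≤ l) :
    NB (cls B gr G)
      (fun k => (D.node (k, (l : ℤ)) - I * ((l * sp (D.a G) : ℝ) : ℂ)) /
        (((2 * (M : ℝ) ^ 267 + eG1 M * l) * sp (D.a G) : ℝ) : ℂ))
      (fun _ => 0) (fun k => (D.W k : ℂ))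
      (Real.exp ((M : ℝ) ^ 6) * (1 + (M : ℝ) ^ 2 + l) ^ M * E *
        (3 * (M : ℝ) ^ 267 * sp (D.a G)) ^ (j + 1)) := by
  refine (isoB_ind hp D B hB ha hT bt hbt hne gr hgr j E hE0 hE (m + 1) G hG hGG
    (Nat.lt_succ_of_le ((card_filter_le _ _).trans hB)) l hl).mono ?_
  have hb := sp_pos (ha G hG)
  have hQ := hp.pow_pos 267
  rw [mul_assoc (_ * _) E]
  refine mul_le_mul_of_nonneg_right (mul_le_mul_of_nonneg_right (Real.exp_le_exp.2 ?_)
    (by positivity)) (by positivity)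
  have t1 := hp.mul_pow_le (c := 3) (by norm_num) (show 5 < 6 by norm_num)
  have t2 : ((m + 1 : ℕ) : ℝ) ≤ M := by
    have := hp.mle
    have := hp.bigR
    push_cast
    linarith
  have t3 := mul_le_mul_of_nonneg_left t2 (show 0 ≤ 3 * (M : ℝ) ^ 4 by positivity)
  rw [mul_assoc 3 _ (M : ℝ), ← pow_succ] at t3
  exact t3.trans t1

theorem isoB_numT (hp : Par m M) {j l : ℕ} (hj : M ^ 8000 ≤ j) (hl : M ^ 269 ≤ l) :
    m * (Real.exp ((M : ℝ) ^ 6) * (1 + (M : ℝ) ^ 2 + l) ^ M * (6 * (M : ℝ) ^ 267 / l) ^ (j + 1)) ≤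
      Real.exp (-(10 * (M : ℝ) ^ 8000)) / 4 * (1 / (l : ℝ) ^ 2) := by
  have hM := hp.one_le
  have hm := hp.mle
  have p0 : ∀ k : ℕ, (1 : ℝ) ≤ (M : ℝ) ^ k := fun k => one_le_pow₀ hM
  have p1 : ∀ k : ℕ, 1 ≤ k → (M : ℝ) ≤ (M : ℝ) ^ k := fun k hk => by simpa using hp.pow_mono hk
  have hlR : (M : ℝ) ^ 269 ≤ l := by exact_mod_cast hl
  have hjR : (M : ℝ) ^ 8000 ≤ j := by exact_mod_cast hj
  have hl0 : (0 : ℝ) < l := (hp.pow_pos _).trans_le hlR
  have hQ := hp.pow_pos 267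
  have hjM : M + 1 ≤ j := by
    have t1 := hp.mul_pow_leN (c := 2) (by norm_num) (show 1 < 8000 by norm_num)
    have t2 := hp.one_leN
    rw [pow_one] at t1
    omega
  obtain ⟨q, rfl⟩ := Nat.exists_eq_add_of_le' hjM
  set Z := Real.exp ((M : ℝ) ^ 3) with hZ
  have hc1 : ∀ c : ℝ, 0 ≤ c → c ≤ (M : ℝ) ^ 535 → c ≤ Z := fun c h0 h1 => by
    have := isoB_Z hp h0 (k := 535) (by norm_num) h1 (p := 1) (by simpa using p0 2)
    rwa [pow_one] at this
  have h1 : (6 * (M : ℝ) ^ 267 / l) ^ q ≤ Real.exp (q * (-12)) := by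
    rw [Real.exp_nat_mul]
    refine pow_le_pow_left₀ (by positivity) ?_ q
    have t1 : Real.exp 12 ≤ 3 ^ 12 := by
      have := pow_le_pow_left₀ (Real.exp_pos 1).le
        (Real.exp_one_lt_d9.le.trans (by norm_num : (2.7182818286 : ℝ) ≤ 3)) 12
      rwa [← Real.exp_nat_mul, mul_one] at this
    rw [Real.exp_neg, div_le_iff₀ hl0, le_inv_mul_iff₀ (Real.exp_pos _), ← mul_assoc]
    exact (hp.mul_pow_le (by linarith only [t1]) (show 267 < 269 by norm_num)).trans hlR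
  have h2 : ((1 + (M : ℝ) ^ 2 + l) * (6 * (M : ℝ) ^ 267 / l)) ^ M ≤ Z := by
    refine isoB_Z hp (by positivity) (k := 268) (by norm_num) ?_ (p1 2 (by norm_num))
    refine le_trans ?_ (hp.mul_pow_le (c := 18) (by norm_num) (show 267 < 268 by norm_num))
    have t1 := hp.pow_mono (show 2 ≤ 269 by norm_num)
    have t2 : 1 + (M : ℝ) ^ 2 + l ≤ 3 * l := by linarith only [hlR, t1, p0, p0 269]
    refine (mul_le_mul_of_nonneg_right t2 (by positivity)).trans (le_of_eq ?_)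
    generalize (M : ℝ) ^ 267 = Q
    field_simp
    ring
  have h3 : (6 * (M : ℝ) ^ 267) ^ 2 ≤ Z := by
    refine hc1 _ (by positivity) ?_
    rw [mul_pow, ← pow_mul]
    exact hp.mul_pow_le (by norm_num) (by norm_num)
  have h4 : (4 * m : ℝ) ≤ Z := by
    refine hc1 _ (by positivity) ?_
    have t1 := hp.mul_pow_le (c := 2) (by norm_num) (show 1 < 535 by norm_num)
    rw [pow_one] at t1
    linarith only [hm, t1]
  have h5 : Z * Real.exp ((M : ℝ) ^ 6) * Z * Real.exp (q * (-12)) * Z ≤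
      Real.exp (-(10 * (M : ℝ) ^ 8000)) := by
    rw [hZ, ← Real.exp_add, ← Real.exp_add, ← Real.exp_add, ← Real.exp_add]
    refine Real.exp_le_exp.2 ?_
    have t1 := hp.mul_pow_le (c := 28) (by norm_num) (show 6 < 8000 by norm_num)
    have t2 := hp.pow_mono (show 3 ≤ 6 by norm_num)
    have t3 := p1 6 (by norm_num)
    have t4 := p0 6
    have t5 := p0 8000
    push_cast at hjR
    linarith only [hM, t1, t2, t3, hjR]
  calc (m : ℝ) * (Real.exp ((M : ℝ) ^ 6) * (1 + (M : ℝ) ^ 2 + l) ^ M *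
        (6 * (M : ℝ) ^ 267 / l) ^ (q + (M + 1) + 1))
      = 4 * m * Real.exp ((M : ℝ) ^ 6) * ((1 + (M : ℝ) ^ 2 + l) * (6 * (M : ℝ) ^ 267 / l)) ^ M *
        (6 * (M : ℝ) ^ 267 / l) ^ q * (6 * (M : ℝ) ^ 267) ^ 2 / 4 * (1 / (l : ℝ) ^ 2) := by
        rw [show q + (M + 1) + 1 = q + M + 2 by ring, pow_add, pow_add, mul_pow, div_pow _ _ 2]
        generalize (6 * (M : ℝ) ^ 267 / l) ^ M = A
        generalize (6 * (M : ℝ) ^ 267 / l) ^ q = A'
        generalize (1 + (M : ℝ) ^ 2 + l) ^ M = A''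
        generalize (6 * (M : ℝ) ^ 267) ^ 2 = A'''
        ring
    _ ≤ Z * Real.exp ((M : ℝ) ^ 6) * Z * Real.exp (q * (-12)) * Z / 4 * (1 / (l : ℝ) ^ 2) := by
        gcongr
    _ ≤ _ := by gcongr

theorem isoB_row (hp : Par m M) (D : Dat ι) (B : Finset ι) (hB : B.card ≤ m)
    (ha : ∀ k ∈ B, 0 < D.a k) (ρ : ℝ) (hT : ∀ k ∈ B, D.T k ≤ 2 * (M : ℝ) ^ 267)
    (hfar : ∀ k ∈ B, 32 * ρ ≤ ‖D.node (k, 1)‖)
    (bt : ι × ℤ → ι × ℤ) (hbt : RClus (D.pB B (M ^ 269)) D.node bt (eA1 M) (eA0 M))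
    (hne : ∀ ν ∈ D.pB B (M ^ 269), D.node ν ≠ 0)
    (j : ℕ) (hj : M ^ 8000 ≤ j) (E : ℝ) (hE0 : 0 ≤ E)
    (hE : ∀ α ∈ D.pB B (M ^ 269), bt α = α →
      D.NP M (D.pB B (M ^ 269)) bt α / ‖D.node α‖ ^ (j + 1) ≤ E)
    (z : ℂ) (hz : ‖z‖ ≤ 4 * ρ) (l : ℕ) (hl : M ^ 269 ≤ l) :
    ‖∑ k ∈ B, (D.W k : ℂ) * pc (D.node (k, (l : ℤ))) j z‖ ≤
      Real.exp (-(10 * (M : ℝ) ^ 8000)) / 4 * E * (1 / (l : ℝ) ^ 2) := by
  classical
  have hM := hp.one_le
  have hQ := hp.pow_pos 267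
  have hQ1 : (1 : ℝ) ≤ (M : ℝ) ^ 267 := one_le_pow₀ hM
  obtain ⟨g1, g1'⟩ : 0 < eG1 M ∧ eG1 M ≤ 1 / 4 := isoB_inv_le hp (by norm_num)
  obtain ⟨g0, -⟩ : 0 < eG0 M ∧ eG0 M ≤ 1 / 4 := isoB_inv_le hp (by norm_num)
  obtain ⟨gr, hgr⟩ := exists_rclus B (fun k => (sp (D.a k) : ℂ))
    (fun k hk => by exact_mod_cast (sp_pos (ha k hk)).ne') (e1 := eG1 M) hB g0 (by
      rw [eG1, eG0, mul_inv_le_iff₀ (hp.pow_pos _), le_inv_mul_iff₀ (hp.pow_pos _)]
      have t1 := hp.mul_pow_le (c := 4) (by norm_num) (show 24001 < 24002 by norm_num)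
      have t2 := mul_le_mul_of_nonneg_left hp.mle (hp.pow_pos 24000).le
      rw [← pow_succ] at t2
      refine le_trans ?_ t1
      have t3 : (M : ℝ) ^ 24000 * (2 * m) ≤ (M : ℝ) ^ 24001 := t2
      generalize (M : ℝ) ^ 24000 = A at t3 ⊢
      generalize (M : ℝ) ^ 24001 = A' at t3 ⊢
      linarith only [t3]) (by linarith only [g1, g1'])
  have hlR : (M : ℝ) ^ 269 ≤ l := by exact_mod_cast hl
  have hl0 : (0 : ℝ) < l := (hp.pow_pos _).trans_le hlR
  have hlQ := (hp.mul_pow_le (c := 12) (by norm_num) (show 267 < 269 by norm_num)).trans hlR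
  have h1 : ∀ G ∈ B.filter (fun r => gr r = r),
      ‖∑ k ∈ cls B gr G, (D.W k : ℂ) * pc (D.node (k, (l : ℤ))) j z‖ ≤
        Real.exp ((M : ℝ) ^ 6) * (1 + (M : ℝ) ^ 2 + l) ^ M * (6 * (M : ℝ) ^ 267 / l) ^ (j + 1) *
          E := fun G hG' => by
    obtain ⟨hG, hGG⟩ := mem_filter.1 hG'
    have hb := sp_pos (ha G hG)
    have hN : NB (cls B gr G) (isoB_u D ((M : ℝ) ^ 267) (eG1 M) G l) _ _ _ :=
      isoB hp D B hB ha hT bt hbt hne gr hgr j E hE0 hE G hG hGG l (by exact_mod_cast hl0)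
    have hu := isoB_u_le D ha hT hQ g1.le (by linarith only [g1, g1']) hgr hG l
    have hlam : 0 < (2 * (M : ℝ) ^ 267 + eG1 M * l) * sp (D.a G) :=
      mul_pos (add_pos (by linarith only [hQ1, g1, g1']) (mul_pos g1 hl0)) hb
    have hzb : ‖z‖ ≤ (M : ℝ) ^ 267 * sp (D.a G) := by
      have t1 := hfar G hG
      have t2 := isoB_x D (ha G hG) (hT G hG)
      have t3 : ‖D.node (G, 1)‖ ≤ |D.x G| + sp (D.a G) := by
        refine (norm_add_le _ _).trans (le_of_eq ?_)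
        simp [abs_of_pos hb]
      have t4 := le_mul_of_one_le_left hb.le hQ1
      linarith only [hz, hb, t1, t2, t3, t4]
    have hc : l * sp (D.a G) / 2 ≤ ‖z - I * ((l * sp (D.a G) : ℝ) : ℂ)‖ -
        (2 * (M : ℝ) ^ 267 + eG1 M * l) * sp (D.a G) := by
      have t1 := norm_sub_norm_le (I * ((l * sp (D.a G) : ℝ) : ℂ)) z
      rw [norm_sub_rev, norm_mul, Complex.norm_I, one_mul, Complex.norm_real,
        Real.norm_of_nonneg (by positivity)] at t1
      have t2 := mul_le_mul_of_nonneg_right hlQ hb.le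
      have t3 := mul_le_mul_of_nonneg_right g1' (mul_pos hl0 hb).le
      generalize (M : ℝ) ^ 267 = Q at *
      generalize eG1 M = e at *
      linarith only [t1, hzb, t2, t3]
    have hlb : 0 < l * sp (D.a G) / 2 := by positivity
    have hMu := ((((Mu.fst.smul (((2 * (M : ℝ) ^ 267 + eG1 M * l) * sp (D.a G) : ℝ) : ℂ)).mono
      (le_of_eq (by rw [mul_one, Complex.norm_real, Real.norm_of_nonneg hlam.le]))).inv_sub
      (fun k hk => (hu k hk).trans (by norm_num)) (v := fun _ => 0) (by simp) hlam.le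
      (c := z - I * ((l * sp (D.a G) : ℝ) : ℂ)) (by linarith only [hc, hlb])).mono (inv_anti₀ hlb hc)).pow (j + 1)
    have t1 := hMu.apply hN
    have c0 : ((((2 * (M : ℝ) ^ 267 + eG1 M * l) * sp (D.a G) : ℝ)) : ℂ) ≠ 0 :=
      Complex.ofReal_ne_zero.2 hlam.ne'
    refine le_trans (le_of_eq ?_) (t1.trans (le_of_eq ?_))
    · congr 1
      refine sum_congr rfl fun k _ => ?_
      rw [isoB_u, mul_div_cancel₀ _ c0, sub_sub_sub_cancel_right, pc, mul_comm]
    · rw [show 6 * (M : ℝ) ^ 267 / l = (l * sp (D.a G) / 2)⁻¹ * (3 * (M : ℝ) ^ 267 * sp (D.a G)) by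
        generalize (M : ℝ) ^ 267 = Q
        field_simp
        ring, mul_pow (l * sp (D.a G) / 2)⁻¹]
      generalize (l * sp (D.a G) / 2)⁻¹ ^ (j + 1) = A
      generalize (3 * (M : ℝ) ^ 267 * sp (D.a G)) ^ (j + 1) = A'
      generalize (1 + (M : ℝ) ^ 2 + l) ^ M = A''
      ring
  rw [sum_cls hgr.mem hgr.idem (Subset.refl B) fun k hk => iff_of_true hk (hgr.mem k hk)]
  refine (norm_sum_le_of_le _ h1).trans ?_
  rw [sum_const, nsmul_eq_mul, ← mul_assoc, mul_right_comm _ E]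
  refine mul_le_mul_of_nonneg_right (le_trans ?_ (isoB_numT hp hj hl)) hE0
  refine mul_le_mul_of_nonneg_right ?_ (by positivity)
  exact_mod_cast (card_filter_le _ _).trans hB

/-- `lat B - poles = ∑_k ∑_{|l| > M^269}` (`Dat.hasSum_poles`); for `l > M^269` the function
`pc (node (k, l)) j z` is a multiplier of norm `≤ (l b G / 2)^{-(j+1)}` on the class of `G`
(`‖z‖ ≤ M^267 b G`); negative `l` by `NB.conj`. -/
theorem tailB_le (hp : Par m M) (D : Dat ι) (B : Finset ι) (hB : B.card ≤ m)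
    (ha : ∀ k ∈ B, 0 < D.a k) (ρ : ℝ) (hT : ∀ k ∈ B, D.T k ≤ 2 * (M : ℝ) ^ 267)
    (hfar : ∀ k ∈ B, 32 * ρ ≤ ‖D.node (k, 1)‖)
    (bt : ι × ℤ → ι × ℤ) (hbt : RClus (D.pB B (M ^ 269)) D.node bt (eA1 M) (eA0 M))
    (hne : ∀ ν ∈ D.pB B (M ^ 269), D.node ν ≠ 0)
    (j : ℕ) (hj : M ^ 8000 ≤ j) (E : ℝ) (hE0 : 0 ≤ E)
    (hE : ∀ α ∈ D.pB B (M ^ 269), bt α = α →
      D.NP M (D.pB B (M ^ 269)) bt α / ‖D.node α‖ ^ (j + 1) ≤ E)
    (z : ℂ) (hz : ‖z‖ ≤ 4 * ρ) :
    ‖D.lat B j z - D.poles (D.pB B (M ^ 269)) j z‖ ≤ Real.exp (-(10 * (M : ℝ) ^ 8000)) * E := by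
  have hrow := isoB_row hp D B hB ha ρ hT hfar bt hbt hne j hj E hE0 hE
  have hj1 : 1 ≤ j := (hp.pow_monoN (Nat.zero_le 8000)).trans hj
  have hC : 0 ≤ Real.exp (-(10 * (M : ℝ) ^ 8000)) / 4 * E := by positivity
  generalize M ^ 269 = L at hrow ⊢
  generalize Real.exp (-(10 * (M : ℝ) ^ 8000)) = A at hrow hC ⊢
  set F : ℤ → ℂ := fun l => ∑ k ∈ B,
    if D.fl k = true ∧ l = 0 then 0 else (D.W k : ℂ) * pc (D.node (k, l)) j z with hF
  have h1 : HasSum F (D.lat B j z) := hasSum_sum fun k hk => D.hasSum_poles (ha k hk) hj1 z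
  have h2 : HasSum (fun l => if l ∈ Icc (-(L : ℤ)) L then F l else 0) (D.poles (D.pB B L) j z) := by
    have t1 := hasSum_sum_of_ne_finset_zero (L := SummationFilter.unconditional ℤ)
      (f := fun l => if l ∈ Icc (-(L : ℤ)) L then F l else 0)
      (s := Icc (-(L : ℤ)) L) fun l hl => if_neg hl
    convert t1 using 1
    rw [sum_congr rfl fun l hl => if_pos hl, Dat.poles, Dat.pB, sum_filter, sum_product_right]
    exact sum_congr rfl fun l _ => sum_congr rfl fun k _ => ite_not _ _ _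
  have h3 : HasSum (fun l : ℤ => 1 / (l : ℝ) ^ 2)
      (Real.pi ^ 2 / 6 + Real.pi ^ 2 / 6 - 1 / ((0 : ℤ) : ℝ) ^ 2) :=
    HasSum.of_nat_of_neg (f := fun l : ℤ => 1 / (l : ℝ) ^ 2) (by simpa using hasSum_zeta_two)
      (by simpa using hasSum_zeta_two)
  refine ((h1.sub h2).norm_le_of_bounded (h3.mul_left (A / 4 * E)) fun l => ?_).trans ?_
  · split_ifs with hl
    · rw [sub_self, norm_zero]
      positivity
    · rw [sub_zero]
      rw [mem_Icc] at hl
      have t1 : F l = ∑ k ∈ B, (D.W k : ℂ) * pc (D.node (k, l)) j z :=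
        sum_congr rfl fun k _ => if_neg fun h => by omega
      rw [t1]
      obtain ⟨n, rfl | rfl⟩ := Int.eq_nat_or_neg l
      · rw [Int.cast_natCast]
        exact hrow z hz n (by omega)
      · have t2 := hrow ((starRingEnd ℂ) z) (by rwa [Complex.norm_conj]) n (by omega)
        rw [← Complex.norm_conj, map_sum] at t2
        refine le_trans (le_of_eq ?_) (t2.trans (le_of_eq (by simp)))
        congr 1
        refine sum_congr rfl fun k _ => ?_
        rw [map_mul, lip_pc_conj, Complex.conj_conj, Complex.conj_ofReal]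
        congr 2
        simp [Dat.node]
  · have t1 : Real.pi ^ 2 ≤ 12 := by nlinarith only [Real.pi_lt_d2, Real.pi_pos]
    have t2 := mul_le_mul_of_nonneg_left t1 hC
    simp only [Int.cast_zero, ne_eq, OfNat.ofNat_ne_zero, not_false_eq_true, zero_pow, div_zero,
      sub_zero]
    linarith only [t2]

end Pool.Agent.Work.MP_97f157_lc.Tau
end
end

-- merged part: Pool.Agent.Work.MP_97f157_lc.TauIsoA
section
/-! Isolation of a group of lattices among the harmonics. -/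

noncomputable section
open Complex Finset

namespace Pool.Agent.Work.MP_97f157_lc.Tau

variable {ι : Type*} {m M : ℕ}

theorem IsoA_near {κ : Type*} {s : Finset κ} {f : κ → ℝ} {rep : κ → κ} {e1 e0 : ℝ}
    (h : RClus s (fun k => (f k : ℂ)) rep e1 e0) (hf : ∀ k ∈ s, 0 < f k) {k : κ} (hk : k ∈ s) :
    |f k - f (rep k)| ≤ e1 / 4 * f (rep k) := by
  have h1 := h.near k hk
  rwa [← ofReal_sub, norm_real, norm_real, Real.norm_eq_abs,
    Real.norm_of_nonneg (hf _ (h.mem k hk)).le] at h1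

theorem IsoA_sep {κ : Type*} {s : Finset κ} {f : κ → ℝ} {rep : κ → κ} {e1 e0 : ℝ}
    (h : RClus s (fun k => (f k : ℂ)) rep e1 e0) (hf : ∀ k ∈ s, 0 < f k) {k k' : κ} (hk : k ∈ s)
    (hk' : k' ∈ s) (hne : rep k ≠ rep k') : e0 * min (f k) (f k') < |f k - f k'| := by
  have h1 := h.sep k hk k' hk' hne
  rwa [← ofReal_sub, norm_real, norm_real, norm_real, Real.norm_eq_abs (_ - _),
    Real.norm_of_nonneg (hf _ hk).le, Real.norm_of_nonneg (hf _ hk').le] at h1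

theorem IsoA_mem {s : Finset ι} {L : ℕ} {ν : ι × ℕ} :
    ν ∈ Dat.pA s L ↔ ν.1 ∈ s ∧ 1 ≤ ν.2 ∧ ν.2 ≤ L := by
  rw [Dat.pA, mem_product, mem_Icc]

theorem IsoA_pos {s : Finset ι} {L : ℕ} {a : ι → ℝ} (ha : ∀ k ∈ s, 0 < a k) :
    ∀ ν ∈ Dat.pA s L, 0 < (ν.2 : ℝ) * a ν.1 := fun ν hν => by
  obtain ⟨h1, h2, -⟩ := IsoA_mem.1 hν
  exact mul_pos (by exact_mod_cast h2) (ha _ h1)

structure IsoA_Num (M : ℕ) : Prop where
  a0 : 0 < eA0 M
  a0' : eA0 M ≤ 1
  a1 : 0 < eA1 M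
  g0 : 0 < eG0 M
  g1 : 0 < eG1 M
  ag : 8 * eA1 M ≤ eG0 M
  gg : eG0 M ≤ eG1 M
  g1' : eG1 M ≤ 1 / 100
  gL : 16 * eG1 M * (((M ^ 263 : ℕ) : ℝ) + 1) ^ 2 ≤ 1
  gt : 4 * (eG1 M * (M : ℝ) ^ 2) ≤ ((M : ℝ) ^ 300)⁻¹
  t1 : ((M : ℝ) ^ 300)⁻¹ ≤ 1
  gj : eG1 M * (12 * (M : ℝ) ^ 8000) ≤ 1
  ex : 4 / eA0 M ≤ Real.exp M
  ga : 6 * eG1 M ≤ Real.exp M * eA1 M

theorem IsoA_num (hp : Par m M) : IsoA_Num M := by
  have h0 : ∀ k, (0 : ℝ) < ((M : ℝ) ^ k)⁻¹ := fun k => inv_pos.2 (hp.pow_pos k)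
  have h1 : ∀ k, ((M : ℝ) ^ k)⁻¹ ≤ 1 := fun k => inv_le_one_of_one_le₀ (one_le_pow₀ hp.one_le)
  have h2 : ∀ (c : ℝ) (i k : ℕ), c ≤ 10 ^ 12 → i < k → ((M : ℝ) ^ k)⁻¹ * (c * (M : ℝ) ^ i) ≤ 1 :=
    fun c i k hc hik => by
      rw [inv_mul_le_iff₀ (hp.pow_pos k), mul_one]
      exact hp.mul_pow_le hc hik
  refine ⟨h0 _, h1 _, h0 _, h0 _, h0 _, hp.inv_pow_le (by norm_num) (by norm_num),
    inv_anti₀ (hp.pow_pos _) (hp.pow_mono (by norm_num)), ?_, ?_, ?_, h1 _,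
    h2 _ _ _ (by norm_num) (by norm_num), ?_, ?_⟩
  · have := hp.inv_pow_le (c := 100) (by norm_num) (by norm_num : 0 < 24000)
    rw [pow_zero, inv_one] at this
    unfold eG1
    linarith only [this]
  · have h3 := h2 64 (263 * 2) 24000 (by norm_num) (by norm_num)
    have h4 : (1 : ℝ) ≤ (M : ℝ) ^ 263 := one_le_pow₀ hp.one_le
    have h5 := h0 24000
    rw [pow_mul] at h3
    rw [Nat.cast_pow, eG1]
    generalize (M : ℝ) ^ 263 = y at *
    generalize ((M : ℝ) ^ 24000)⁻¹ = e at *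
    have h6 : (y + 1) ^ 2 ≤ 4 * y ^ 2 := by linarith only [h4, mul_nonneg_of_nonpos_of_nonpos (Mathlib.Tactic.Linarith.sub_nonpos_of_le h4) (Mathlib.Tactic.Linarith.sub_nonpos_of_le h4)]
    linarith only [h3, h5, h6, mul_nonneg_of_nonpos_of_nonpos (le_of_lt (Mathlib.Tactic.Linarith.sub_neg_of_lt h5)) (Mathlib.Tactic.Linarith.sub_nonpos_of_le h6)]
  · have h3 := h2 4 (2 + 300) 24000 (by norm_num) (by norm_num)
    rw [pow_add] at h3
    rw [eG1, ← one_div ((M : ℝ) ^ 300), le_div_iff₀ (hp.pow_pos _)]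
    linarith only [h3]
  · rw [eA0, div_inv_eq_mul]
    exact (hp.mul_pow_le (by norm_num) (by norm_num : 32300 < 32301)).trans
      (hp.pow_le_exp (by norm_num))
  · have h3 := hp.inv_pow_le (c := 6) (by norm_num) (by norm_num : 23999 < 24000)
    have h4 := hp.pow_le_exp (by norm_num : 8001 ≤ 100000)
    refine h3.trans (le_trans (le_of_eq ?_) (mul_le_mul_of_nonneg_right h4 (h0 32000).le))
    rw [eA1, show 32000 = 8001 + 23999 by norm_num, pow_add, mul_inv, ← mul_assoc,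
      mul_inv_cancel₀ (hp.pow_pos _).ne', one_mul]

theorem IsoA_pow (hp : Par m M) {c : ℝ} (hc0 : 0 ≤ c) (hc : c ≤ Real.exp M) (k : ℕ) :
    c ^ k ≤ Real.exp (k * M) := by
  have _ := hp
  rw [Real.exp_nat_mul]
  exact pow_le_pow_left₀ hc0 hc k

theorem IsoA_c (hp : Par m M) {c : ℝ} (hc : c ≤ 10 ^ 12) : c ≤ Real.exp M :=
  (hc.trans hp.bigR).trans (by simpa using hp.pow_le_exp (k := 1) (by norm_num))

theorem IsoA_card (hp : Par m M) {s : Finset ι} (hs : s.card ≤ m) :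
    ((Dat.pA s (M ^ 263)).card : ℝ) ≤ Real.exp M := by
  refine le_trans ?_ (hp.pow_le_exp (k := 263 + 1) (by norm_num))
  rw [Dat.pA, card_product, Nat.card_Icc, Nat.add_sub_cancel, pow_succ (M : ℝ), mul_comm]
  have h1 : (s.card : ℝ) ≤ M := by exact_mod_cast (show s.card ≤ M by have := hp.two; omega)
  rw [Nat.cast_mul, Nat.cast_pow]
  exact mul_le_mul_of_nonneg_left h1 (hp.pow_pos _).le

theorem IsoA_exp (hp : Par m M) :
    (M : ℝ) + M + m * M + m * M + m * M + m * m * M ≤ (M : ℝ) ^ 4 := by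
  have h1 := hp.mle
  have h2 := hp.bigR
  have h3 : (0 : ℝ) ≤ m := Nat.cast_nonneg m
  have h4 : (m : ℝ) * m ≤ M * M := mul_le_mul (by linarith only [h1, h2]) (by linarith) h3 (by linarith)
  have h5 : (2 : ℝ) + 3 * m + m * m ≤ M * (M * M) := by nlinarith only [h1, h2, h4]
  have h6 := mul_le_mul_of_nonneg_left h5 hp.pos.le
  linarith

theorem IsoA_B1 (j : ℕ) (θ : ℝ) {a p q r : ℝ} (ha : 0 < a) (hp : 0 < p) (hpq : p ≤ q)
    (hqr : q ≤ r) : ((q * a) ^ j)⁻¹ * Real.exp (-(θ * (q * a))) ≤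
      ((r * a) ^ j)⁻¹ * Real.exp (-(θ * (r * a))) * Real.exp ((j / p + θ * a) * (r - q)) := by
  have hq : 0 < q := hp.trans_le hpq
  have hr : 0 < r := hq.trans_le hqr
  have h1 : r * a ≤ q * a * Real.exp ((r - q) / p) := by
    have h2 := Real.add_one_le_exp ((r - q) / p)
    have h3 : (r - q) / q ≤ (r - q) / p := div_le_div_of_nonneg_left (by linarith) hp hpq
    have h4 : q * ((r - q) / q + 1) = r := by field_simp; ring
    have h5 : r ≤ q * Real.exp ((r - q) / p) := by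
      rw [← h4]
      refine mul_le_mul_of_nonneg_left ?_ hq.le
      rw [h4]
      linarith only [h2, h3]
    nlinarith only [ha, h5]
  have h2 := pow_le_pow_left₀ (by positivity) h1 j
  rw [mul_pow (q * a), ← Real.exp_nat_mul] at h2
  have h3 : ((q * a) ^ j)⁻¹ ≤ ((r * a) ^ j)⁻¹ * Real.exp (j * ((r - q) / p)) := by
    rw [← div_eq_inv_mul, le_div_iff₀ (by positivity), inv_mul_le_iff₀ (by positivity)]
    exact h2
  refine (mul_le_mul_of_nonneg_right h3 (Real.exp_pos _).le).trans (le_of_eq ?_)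
  rw [mul_assoc, mul_assoc, ← Real.exp_add, ← Real.exp_add]
  congr 2
  ring

theorem IsoA_B2 (j : ℕ) (θ : ℝ) {x z e : ℝ} (hx : 0 < x) (h : |z - x| ≤ e * x) (he0 : 0 ≤ e)
    (he : e ≤ 1 / 2) (hj : 4 * e * j ≤ 1) : (z ^ j)⁻¹ * Real.exp (-(θ * z)) ≤
      2 * ((x ^ j)⁻¹ * Real.exp (-(θ * x))) * Real.exp (|θ| * (e * x)) := by
  have h0 := (abs_le.1 h).1
  have hz : 0 < z := by nlinarith only [hx, he, h0]
  have h1 : x ≤ z * Real.exp (2 * e) := by
    have h2 := Real.add_one_le_exp (2 * e)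
    have h3 : x * 1 ≤ x * ((1 - e) * (2 * e + 1)) :=
      mul_le_mul_of_nonneg_left (by nlinarith only [he0, he]) hx.le
    have h4 : x * (1 - e) * (2 * e + 1) ≤ z * (2 * e + 1) :=
      mul_le_mul_of_nonneg_right (by linarith only [h0]) (by linarith only [he0])
    have h5 := mul_le_mul_of_nonneg_left h2 hz.le
    linarith only [h3, h4, h5]
  have h2 := pow_le_pow_left₀ hx.le h1 j
  rw [mul_pow, ← Real.exp_nat_mul] at h2
  have h3 : Real.exp (j * (2 * e)) ≤ 2 := by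
    have h4 := Real.exp_bound_div_one_sub_of_interval (x := 1 / 2) (by norm_num) (by norm_num)
    have h5 : Real.exp (j * (2 * e)) ≤ Real.exp (1 / 2) := Real.exp_le_exp.2 (by linarith only [hj])
    exact h5.trans (h4.trans (by norm_num))
  have h4 : (z ^ j)⁻¹ ≤ 2 * (x ^ j)⁻¹ := by
    rw [← div_eq_mul_inv, le_div_iff₀ (by positivity), inv_mul_le_iff₀ (by positivity)]
    exact h2.trans (mul_le_mul_of_nonneg_left h3 (by positivity))
  have h5 : Real.exp (-(θ * z)) ≤ Real.exp (-(θ * x)) * Real.exp (|θ| * (e * x)) := by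
    rw [← Real.exp_add, Real.exp_le_exp]
    have h6 : |θ * (z - x)| ≤ |θ| * (e * x) := by
      rw [abs_mul]
      exact mul_le_mul_of_nonneg_left h (abs_nonneg _)
    have := (abs_le.1 h6).1
    linarith only [this]
  refine (mul_le_mul h4 h5 (Real.exp_pos _).le (by positivity)).trans (le_of_eq ?_)
  ring

/-- comparison of the induction hypothesis with the yardstick -/
theorem IsoA_B3 (j : ℕ) (θ τ : ℝ) {a p q r x e t y : ℝ} (ha : 0 < a) (hp : 0 < p) (hpq : p ≤ q)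
    (hqr : q ≤ r) (hx : 0 < x) (h : |r * a - x| ≤ e * x) (he0 : 0 ≤ e) (he : e ≤ 1 / 2)
    (hj : 4 * e * j ≤ 1) (hy : 1 ≤ y) (het : 4 * (e * y) ≤ t) (ht : t ≤ 1)
    (ho : q * a * (1 + t) ≤ x) (hs : j / p + θ * a + |θ| * a / y + 2 ≤ τ) :
    ((q * a) ^ j)⁻¹ * Real.exp (-(θ * (q * a))) * Real.exp (-((r - q) * (τ - 1))) ≤
      2 * ((x ^ j)⁻¹ * Real.exp (-(θ * x))) := by
  have h1 := (IsoA_B1 j θ ha hp hpq hqr).trans
    (mul_le_mul_of_nonneg_right (IsoA_B2 j θ hx h he0 he hj) (Real.exp_pos _).le)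
  refine (mul_le_mul_of_nonneg_right h1 (Real.exp_pos _).le).trans ?_
  rw [mul_assoc, mul_assoc, ← Real.exp_add, ← Real.exp_add]
  refine mul_le_of_le_one_right (by positivity) (Real.exp_le_one_iff.2 ?_)
  have h0 := (abs_le.1 h).1
  have hey : e ≤ e * y := le_mul_of_one_le_right he0 hy
  have ht0 : 0 ≤ t := by linarith only [he0, het, hey]
  have hqa : 0 < q * a := mul_pos (hp.trans_le hpq) ha
  have h2 : q * a ≤ x * (1 - t / 2) := by
    have h3 : q * a * 1 ≤ q * a * ((1 + t) * (1 - t / 2)) :=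
      mul_le_mul_of_nonneg_left (by nlinarith only [he0, het, ht, hey]) hqa.le
    have h4 := mul_le_mul_of_nonneg_right ho (show 0 ≤ 1 - t / 2 by linarith only [ht])
    linarith only [h3, h4]
  have h3 : e * x ≤ (r - q) * a / y := by
    rw [le_div_iff₀ (by linarith only [hy])]
    have h4 : x * (e * y + e) ≤ x * (t / 2) := mul_le_mul_of_nonneg_left (by linarith only [het, hey]) hx.le
    linarith only [h0, h2, h4]
  have h4 := mul_le_mul_of_nonneg_left h3 (abs_nonneg θ)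
  have h5 := mul_le_mul_of_nonneg_left hs (sub_nonneg.2 hqr)
  have h6 : |θ| * ((r - q) * a / y) = (r - q) * (|θ| * a / y) := by ring
  linarith only [hqr, h4, h5, h6]

section lab
open scoped Classical

theorem IsoA_cardlab {s : Finset ι} (hs : s.card ≤ m) (gr : ι → ι) (L : ℕ) (y : ι × ℕ) :
    ((Dat.pA s L).filter (fun ν => (gr ν.1, ν.2) = y)).card ≤ m := by
  refine le_trans (card_le_card_of_injOn Prod.fst (fun ν hν => ?_) fun ν hν ν' hν' e => ?_) hs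
  · exact (IsoA_mem.1 (mem_filter.1 hν).1).1
  · have h1 := congrArg Prod.snd (mem_filter.1 hν).2
    have h2 := congrArg Prod.snd (mem_filter.1 hν').2
    exact Prod.ext e (h1.trans h2.symm)

theorem IsoA_reindex {s : Finset ι} {a : ι → ℝ} {gr : ι → ι} {L n : ℕ} {G : ι} {e B : ℝ}
    (c : ι × ℕ → ℂ) (hG : 0 < a G) (h1 : 1 ≤ n) (h2 : n ≤ L) :
    NB ((Dat.pA s L).filter (fun ν => (gr ν.1, ν.2) = (G, n)))
      (fun ν => (((ν.2 * a ν.1 : ℝ) : ℂ) - ((n * a G : ℝ) : ℂ)) / ((e * (n * a G) : ℝ) : ℂ))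
      (fun _ => 0) c B ↔
    NB (cls s gr G) (rv (fun k => (a k : ℂ)) gr e) (fun _ => 0) (fun k => c (k, n)) B := by
  rw [NB.reindex (s := cls s gr G)
    (t := (Dat.pA s L).filter (fun ν => (gr ν.1, ν.2) = (G, n))) (fun k => (k, n))
    (fun k hk => mem_filter.2 ⟨IsoA_mem.2 ⟨(mem_cls.1 hk).1, h1, h2⟩, by rw [(mem_cls.1 hk).2]⟩)
    (fun k _ k' _ e => congrArg Prod.fst e)
    (fun ν hν => ⟨ν.1, mem_cls.2 ⟨(IsoA_mem.1 (mem_filter.1 hν).1).1,
      congrArg Prod.fst (mem_filter.1 hν).2⟩,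
      Prod.ext rfl (congrArg Prod.snd (mem_filter.1 hν).2).symm⟩)]
  have h3 : ∀ k ∈ cls s gr G,
      (((n * a k : ℝ) : ℂ) - ((n * a G : ℝ) : ℂ)) / ((e * (n * a G) : ℝ) : ℂ) =
        rv (fun k => (a k : ℂ)) gr e k := fun k hk => by
    have h4 : (n : ℂ) ≠ 0 := by exact_mod_cast (show n ≠ 0 by omega)
    have h5 : (a G : ℂ) ≠ 0 := by exact_mod_cast hG.ne'
    rw [rv, (mem_cls.1 hk).2]
    push_cast
    field_simp
  exact ⟨fun h => h.congr h3 (fun _ _ => rfl) fun _ _ => rfl,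
    fun h => h.congr (fun k hk => (h3 k hk).symm) (fun _ _ => rfl) fun _ _ => rfl⟩

end lab

theorem IsoA_rv {κ : Type*} {P : Finset κ} {x : κ → ℝ} {at' : κ → κ} {e : ℝ} {α : κ}
    (hα : 0 < x α) : ∀ ν ∈ cls P at' α, rv (fun ν => (x ν : ℂ)) at' e ν =
      ((x ν : ℂ) - (x α : ℂ)) / ((e * x α : ℝ) : ℂ) := fun ν hν => by
  have h5 : (x α : ℂ) ≠ 0 := by exact_mod_cast hα.ne'
  rw [rv, (mem_cls.1 hν).2]
  push_cast
  field_simp

theorem IsoA_lab {s : Finset ι} {a : ι → ℝ} (ha : ∀ k ∈ s, 0 < a k) {gr : ι → ι} {e1 e0 : ℝ}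
    (hgr : RClus s (fun k => (a k : ℂ)) gr e1 e0) {L : ℕ} {ν : ι × ℕ} (hν : ν ∈ Dat.pA s L)
    {G : ι} {n : ℕ} (h : (gr ν.1, ν.2) = (G, n)) :
    |ν.2 * a ν.1 - n * a G| ≤ e1 / 4 * (n * a G) := by
  obtain ⟨rfl, rfl⟩ := Prod.mk.inj h
  have h1 := mul_le_mul_of_nonneg_left (IsoA_near hgr ha (IsoA_mem.1 hν).1) (Nat.cast_nonneg ν.2)
  rw [← mul_sub, abs_mul, Nat.abs_cast]
  linarith only [h1]

theorem IsoA_norm (x y : ℝ) : ‖(x : ℂ) - (y : ℂ)‖ = |x - y| := by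
  rw [← ofReal_sub, norm_real, Real.norm_eq_abs]

theorem IsoA_gap (hN : IsoA_Num M) {s : Finset ι} {a : ι → ℝ} (ha : ∀ k ∈ s, 0 < a k)
    {at' : ι × ℕ → ι × ℕ} {L : ℕ}
    (hat : RClus (Dat.pA s L) (fun ν => ((ν.2 * a ν.1 : ℝ) : ℂ)) at' (eA1 M) (eA0 M))
    {gr : ι → ι} (hgr : RClus s (fun k => (a k : ℂ)) gr (eG1 M) (eG0 M)) {ν ν' : ι × ℕ}
    (hν : ν ∈ Dat.pA s L) (hν' : ν' ∈ Dat.pA s L) {G : ι} {n : ℕ} (h : (gr ν.1, ν.2) = (G, n))
    (h' : (gr ν'.1, ν'.2) = (G, n)) (hz : 0 < n * a G) (hne : at' ν ≠ at' ν') :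
    eA0 M * (eG1 M * (n * a G)) ≤ |ν.2 * a ν.1 - ν'.2 * a ν'.1| := by
  refine le_trans (mul_le_mul_of_nonneg_left ?_ hN.a0.le)
    (IsoA_sep (f := fun ν : ι × ℕ => ν.2 * a ν.1) hat (IsoA_pos ha) hν hν' hne).le
  have h1 := (abs_le.1 (IsoA_lab ha hgr hν h)).1
  have h2 := (abs_le.1 (IsoA_lab ha hgr hν' h')).1
  have h3 := mul_le_mul_of_nonneg_right hN.g1' hz.le
  exact le_min (by linarith only [hz, h1, h3]) (by linarith only [hz, h2, h3])

theorem IsoA_step (hp : Par m M) (s : Finset ι) (hs : s.card ≤ m) (a : ι → ℝ) (c : ι × ℕ → ℂ)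
    (ha : ∀ k ∈ s, 0 < a k) (at' : ι × ℕ → ι × ℕ)
    (hat : RClus (Dat.pA s (M ^ 263)) (fun ν => ((ν.2 * a ν.1 : ℝ) : ℂ)) at' (eA1 M) (eA0 M))
    (gr : ι → ι) (hgr : RClus s (fun k => (a k : ℂ)) gr (eG1 M) (eG0 M)) (G : ι) (hG : G ∈ s)
    (n : ℕ) (h1 : 1 ≤ n) (h2 : n ≤ M ^ 263) (B K : ℝ) (hB : 0 ≤ B) (hK : 1 ≤ K)
    (hgood : ∀ k1 ∈ s, gr k1 = G → ∀ k' ∈ s, ∀ n' : ℕ, 1 ≤ n' →
      |n' * a k' - n * a k1| ≤ eG0 M / 4 * (n * a k1) → (gr k' = G ∧ n' = n) ∨ a (gr k') < a G)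
    (hyard : ∀ α ∈ Dat.pA s (M ^ 263), at' α = α →
      |α.2 * a α.1 - n * a G| ≤ eG1 M * (n * a G) →
      Nm (cls (Dat.pA s (M ^ 263)) at' α) (rv (fun ν => ((ν.2 * a ν.1 : ℝ) : ℂ)) at' (eA1 M))
        (fun _ => 0) c ≤ B)
    (hih : ∀ k' ∈ s, a (gr k') < a G → ∀ n' : ℕ, 1 ≤ n' → n' ≤ M ^ 263 →
      |n' * a (gr k') - n * a G| ≤ eG1 M * (n * a G) →
      NB (cls s gr (gr k')) (rv (fun k => (a k : ℂ)) gr (eG1 M)) (fun _ => 0)
        (fun k => c (k, n')) (K * (2 * B))) :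
    NB (cls s gr G) (rv (fun k => (a k : ℂ)) gr (eG1 M)) (fun _ => 0) (fun k => c (k, n))
      (Real.exp ((M : ℝ) ^ 4) * K * B) := by
  classical
  have hN := IsoA_num hp
  have hx : 0 < n * a G := mul_pos (by exact_mod_cast h1) (ha G hG)
  have hpos := IsoA_pos (L := M ^ 263) ha
  have hnear : ∀ ν ∈ Dat.pA s (M ^ 263), _ := fun ν hν =>
    abs_le.1 (IsoA_near (f := fun ν : ι × ℕ => ν.2 * a ν.1) hat hpos hν)
  have q1 := mul_le_mul_of_nonneg_right (hN.ag.trans hN.gg) hx.le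
  have q2 := mul_le_mul_of_nonneg_right hN.g1' hx.le
  have q3 := mul_pos hN.g1 hx
  have q4 : eA1 M ≤ 1 / 800 := by have := hN.ag.trans (hN.gg.trans hN.g1'); linarith only [this]
  have hhalf : ∀ ν ∈ Dat.pA s (M ^ 263),
      eA1 M * ((at' ν).2 * a (at' ν).1) ≤ 2 * (eA1 M * (ν.2 * a ν.1)) := fun ν hν => by
    have e1 := (hnear ν hν).1
    have e2 := mul_le_mul_of_nonneg_right q4 (hpos _ (hat.mem ν hν)).le
    have e3 := hpos _ (hat.mem ν hν)
    have e4 : ((at' ν).2 : ℝ) * a (at' ν).1 ≤ 2 * (ν.2 * a ν.1) := by linarith only [e1, e2, e3]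
    have e5 := mul_le_mul_of_nonneg_left e4 hN.a1.le
    linarith only [e5]
  have hlab : ∀ ν ∈ Dat.pA s (M ^ 263), (gr ν.1, ν.2) = (G, n) →
      eA1 M * ((at' ν).2 * a (at' ν).1) ≤ eG1 M * (n * a G) / 2 := fun ν hν h => by
    have e1 := (abs_le.1 (IsoA_lab ha hgr hν h)).2
    have e2 : (ν.2 : ℝ) * a ν.1 ≤ 2 * (n * a G) := by linarith only [q2, q3, e1]
    have e3 := mul_le_mul_of_nonneg_left e2 hN.a1.le
    have e4 := hhalf ν hν
    linarith only [q1, e3, e4]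
  have hX : ∀ ν ∈ Dat.pA s (M ^ 263), ∀ ν1 ∈ Dat.pA s (M ^ 263), (gr ν1.1, ν1.2) = (G, n) →
      at' ν = at' ν1 → |ν.2 * a ν.1 - n * a G| ≤ eG1 M * (n * a G) / 2 := by
    clear * - ι s M gr G n at' a ha hgr hnear hlab
    intro ν hν ν1 hν1 h e
    have e1 := abs_le.1 (IsoA_lab ha hgr hν1 h)
    have e2 := hnear ν hν
    have e3 := hnear ν1 hν1
    have e4 := hlab ν1 hν1 h
    rw [e] at e2
    exact abs_le.2 ⟨by linarith only [e1, e2, e3, e4], by linarith only [e1, e2, e3, e4]⟩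
  have key := ustep (Dat.pA s (M ^ 263)) (fun ν => ((ν.2 * a ν.1 : ℝ) : ℂ)) c at'
    (fun ν => (gr ν.1, ν.2)) (G, n) ((n * a G : ℝ) : ℂ) (eG1 M * (n * a G)) q3 m (eA0 M) B
    (K * (2 * B)) hN.a0 hN.a0' hB (by positivity) (IsoA_cardlab hs gr _)
    (fun ν hν ν1 hν1 h e => by rw [IsoA_norm]; exact hX ν hν ν1 hν1 h e)
    (fun ν hν h => by
      clear * - ι s M at' ν a hat hν n G ha gr hgr h hnear hlab q3 c B hN hpos hyard
      have hα := hat.mem ν hν
      have e1 := abs_le.1 (IsoA_lab ha hgr hν h)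
      have e3 := hnear ν hν
      have e4 := hlab ν hν h
      have e5 : |((at' ν).2 : ℝ) * a (at' ν).1 - n * a G| ≤ eG1 M * (n * a G) / 2 :=
        abs_le.2 ⟨by clear * - M n a G ι at' ν q3 e1 e3 e4; linarith only [q3, e1, e3, e4], by linarith only [q3, e1, e3, e4]⟩
      refine ⟨(((at' ν).2 * a (at' ν).1 : ℝ) : ℂ), eA1 M * ((at' ν).2 * a (at' ν).1),
        mul_pos hN.a1 (hpos _ hα), by rw [IsoA_norm]; linarith only [e4, e5], ?_⟩
      refine ((nb_Nm (fun k hk => (hat.rv_le hN.a1 (fun k hk => ?_) k (mem_cls.1 hk).1).trans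
        (by norm_num)) (by simp)).mono (hyard _ hα (hat.idem ν hν) (by linarith only [q3, e5]))).congr
        (IsoA_rv (x := fun ν : ι × ℕ => ν.2 * a ν.1) (hpos _ hα)) (fun _ _ => rfl) fun _ _ => rfl
      exact_mod_cast (hpos k hk).ne')
    (fun ν hν ν1 hν1 h e hne => by
      obtain ⟨m1, m2, m3⟩ := IsoA_mem.1 hν
      have hlt : a (gr ν.1) < a G := by
        clear * - ι gr ν1 G n a ν h hgood s M hν1 m1 m2 at' hnear hν hhalf hN hpos e hne
        obtain ⟨e1, e2⟩ := Prod.mk.inj h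
        refine (hgood ν1.1 (IsoA_mem.1 hν1).1 e1 ν.1 m1 ν.2 m2 ?_).resolve_left
          fun h' => hne (Prod.ext h'.1 h'.2)
        have e3 := hnear ν hν
        have e4 := hnear ν1 hν1
        have e5 := hhalf ν1 hν1
        have e6 := mul_le_mul_of_nonneg_right hN.ag (hpos ν1 hν1).le
        have e7 := mul_pos hN.a1 (hpos ν1 hν1)
        rw [e] at e3
        rw [← e2]
        exact abs_le.2 ⟨by linarith only [e3, e4, e5, e6, e7], by linarith only [e3, e4, e5, e6, e7]⟩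
      have hz : 0 < ν.2 * a (gr ν.1) := mul_pos (by exact_mod_cast m2) (ha _ (hgr.mem _ m1))
      have e1 := abs_le.1 (hX ν hν ν1 hν1 h e)
      have e2 := abs_le.1 (IsoA_lab ha hgr hν rfl)
      have e3 := mul_le_mul_of_nonneg_right hN.g1' hz.le
      have e4 : (ν.2 : ℝ) * a (gr ν.1) ≤ 2 * (n * a G) := by clear * - ι ν a gr n G M q2 q3 e1 e2 e3; linarith only [q2, q3, e1, e2, e3]
      have e5 := mul_le_mul_of_nonneg_left e4 hN.g1.le
      have e6 : |(ν.2 : ℝ) * a (gr ν.1) - n * a G| ≤ eG1 M * (n * a G) :=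
        abs_le.2 ⟨by linarith only [e1, e2, e5], by linarith only [e1, e2, e5]⟩
      have e7 := mul_pos hN.g1 hz
      refine ⟨((ν.2 * a (gr ν.1) : ℝ) : ℂ), eG1 M * (ν.2 * a (gr ν.1)), e7,
        by rw [IsoA_norm]; linarith only [q3, e5, e6], fun ν' hν' h' => ?_, fun ν' hν' ν'' hν'' h' h'' hne' => ?_,
        (IsoA_reindex c (ha _ (hgr.mem _ m1)) m2 m3).2 (hih _ m1 hlt _ m2 m3 e6)⟩
      · rw [IsoA_norm]
        exact (IsoA_lab ha hgr hν' h').trans (by linarith only [e7])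
      · rw [IsoA_norm]
        exact IsoA_gap hN ha hat hgr hν' hν'' h' h'' hz hne')
  refine ((IsoA_reindex c (ha G hG) h1 h2).1 key).mono ?_
  have f1 := IsoA_card hp hs
  have f2 := IsoA_pow hp (c := 576) (by norm_num) (IsoA_c hp (by norm_num)) m
  have f3 := IsoA_pow hp (div_pos (by norm_num) hN.a0).le hN.ex (m * m)
  have f4 := mul_le_mul f2 f3 (pow_pos (div_pos (by norm_num) hN.a0) _).le (Real.exp_pos _).le
  rw [← Real.exp_add] at f4
  have f5 : 1 ≤ Real.exp (m * M + ((m * m : ℕ) : ℝ) * M) := Real.one_le_exp (by clear * - m M; positivity)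
  have f6 : Real.exp M * (Real.exp M * Real.exp (m * M + ((m * m : ℕ) : ℝ) * M)) ≤
      Real.exp ((M : ℝ) ^ 4) := by
    clear * - M m hp
    rw [← Real.exp_add, ← Real.exp_add, Real.exp_le_exp]
    have := IsoA_exp hp
    have : (0 : ℝ) ≤ m * M := by positivity
    push_cast
    linarith
  have f7 := IsoA_c hp (c := 3) (by norm_num)
  have f8 : B ≤ K * B := le_mul_of_one_le_left hB hK
  have f9 : 0 ≤ K * B := hB.trans f8
  generalize Real.exp (m * M + ((m * m : ℕ) : ℝ) * M) = E at *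
  generalize (576 : ℝ) ^ m * (4 / eA0 M) ^ (m * m) = F at *
  have g1 : B + F * (K * (2 * B)) ≤ Real.exp M * E * (K * B) := by
    have g2 := mul_le_mul_of_nonneg_right f4 f9
    have g3 := mul_le_mul_of_nonneg_right f5 f9
    have g4 := mul_le_mul_of_nonneg_right f7 (mul_nonneg (zero_le_one.trans f5) f9)
    linarith only [f8, g2, g3, g4]
  have g2 := mul_le_mul_of_nonneg_left g1 (Nat.cast_nonneg (α := ℝ) (Dat.pA s (M ^ 263)).card)
  have g3 := mul_le_mul_of_nonneg_right f1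
    (mul_nonneg (mul_nonneg (Real.exp_pos M).le (zero_le_one.trans f5)) f9)
  have g4 := mul_le_mul_of_nonneg_right f6 f9
  linarith only [g2, g3, g4]

/-- Induction over the group representatives `G ∈ slow` by increasing `a G`, with the constant
`exp (3 M^4 (rank G + 1))`.  For good `n ∈ [nm G, nm G + M^17]` (`unblocked` with `L = M^263`,
`Par.jac`) apply `ustep` with `P = pA s L`, `x ν = ν.2 * a ν.1`, `lab ν = (gr ν.1, ν.2)`,
`y0 = (G, n)`, `x0 = n a G`, `lam = eG1 * n a G`, `δ = eA0`; the other labels `(G', n')` have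
`a G' < a G`, so `G' ∈ slow`, `n' ≥ nm G' + M^17` with `n' - (nm G' + M^17) ≥ n' M^{-300}/4`
(`hord`), and the induction hypothesis gives the bound `2 * const * B (n a G)`,
`B μ = B0 μ^{-j} exp (-θ μ)` (the factor `exp (eG1 |θ| n a G)` is absorbed by the term
`|θ| a / M²` of `hslope`).  Then apply `extrapolate` to `c k = w k * u k ^ i` for each `i`, with
`θ_E = j / nm G + θ a G`, using `B (n a) ≤ B (n⁺ a) exp (θ_E (n⁺ - n))` for `nm G ≤ n ≤ n⁺`. -/
theorem isoA (hp : Par m M) (s : Finset ι) (hs : s.card ≤ m) (a T : ι → ℝ) (w : ι → ℂ)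
    (ha : ∀ k ∈ s, 0 < a k) (at' : ι × ℕ → ι × ℕ)
    (hat : RClus (Dat.pA s (M ^ 263)) (fun ν => ((ν.2 * a ν.1 : ℝ) : ℂ)) at' (eA1 M) (eA0 M))
    (gr : ι → ι) (hgr : RClus s (fun k => (a k : ℂ)) gr (eG1 M) (eG0 M))
    (slow : Finset ι) (hsub : slow ⊆ s) (hsat : ∀ k ∈ s, k ∈ slow ↔ gr k ∈ slow)
    (hdown : ∀ k ∈ s, k ∉ slow → ∀ k' ∈ slow, a (gr k') < a (gr k))
    (nm : ι → ℕ) (τ : ι → ℝ) (j : ℕ) (hj : j ≤ 3 * M ^ 8000) (θ B0 : ℝ) (hB0 : 0 ≤ B0)
    (hnm : ∀ G ∈ slow, 1 ≤ nm G) (hτ : ∀ k ∈ slow, τ (gr k) ≤ T k)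
    (hslope : ∀ G ∈ slow, gr G = G → nm G + M ^ 17 ≤ M ^ 263 →
      (j : ℝ) / nm G + θ * a G + |θ| * a G / (M : ℝ) ^ 2 + 2 ≤ τ G)
    (hord : ∀ G ∈ slow, ∀ G' ∈ slow, gr G = G → gr G' = G' → a G' < a G →
      ((nm G' + M ^ 17 : ℕ) : ℝ) * a G' * (1 + ((M : ℝ) ^ 300)⁻¹) ≤ nm G * a G)
    (hyard : ∀ G ∈ slow, gr G = G → nm G + M ^ 17 ≤ M ^ 263 → ∀ n : ℕ, nm G ≤ n →
      n ≤ nm G + M ^ 17 → ∀ α ∈ Dat.pA s (M ^ 263), at' α = α →
      |α.2 * a α.1 - n * a G| ≤ eG1 M * (n * a G) →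
      Nm (cls (Dat.pA s (M ^ 263)) at' α) (rv (fun ν => ((ν.2 * a ν.1 : ℝ) : ℂ)) at' (eA1 M))
        (fun _ => 0) (fun ν => w ν.1 * (Real.exp (-(ν.2 * T ν.1)) : ℂ)) ≤
        B0 * ((n * a G) ^ j)⁻¹ * Real.exp (-(θ * (n * a G))))
    (G : ι) (hG : G ∈ slow) (hGG : gr G = G) (hL : nm G + M ^ 17 ≤ M ^ 263) (n : ℕ)
    (hn : nm G + M ^ 17 ≤ n) :
    NB (cls s gr G) (rv (fun k => (a k : ℂ)) gr (eG1 M)) (fun _ => 0)
      (fun k => w k * (Real.exp (-(n * T k)) : ℂ))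
      (Real.exp ((M : ℝ) ^ 6) * B0 * ((((nm G + M ^ 17 : ℕ) : ℝ) * a G) ^ j)⁻¹ *
        Real.exp (-(θ * (((nm G + M ^ 17 : ℕ) : ℝ) * a G))) *
        Real.exp (-(((n : ℝ) - (nm G + M ^ 17 : ℕ)) * (τ G - 1)))) := by
  classical
  have hN := IsoA_num hp
  have hjR : 4 * eG1 M * j ≤ 1 := by
    have h1 : (j : ℝ) ≤ 3 * (M : ℝ) ^ 8000 := by exact_mod_cast hj
    have h2 := mul_le_mul_of_nonneg_left h1 hN.g1.le
    have h3 := hN.gj
    linarith only [h2, h3]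
  have h4 : 0 ≤ (M : ℝ) ^ 4 := (hp.pow_pos 4).le
  generalize hH : M ^ 17 = H at *
  have key : ∀ r : ℕ, ∀ G ∈ slow, gr G = G → (s.filter fun k => a k < a G).card < r →
      nm G + H ≤ M ^ 263 → ∀ n : ℕ, nm G + H ≤ n →
      NB (cls s gr G) (rv (fun k => (a k : ℂ)) gr (eG1 M)) (fun _ => 0)
        (fun k => w k * (Real.exp (-(n * T k)) : ℂ))
        (Real.exp (2 * (M : ℝ) ^ 4 * r) * (B0 * (((((nm G + H : ℕ) : ℝ) * a G) ^ j)⁻¹ *
          Real.exp (-(θ * (((nm G + H : ℕ) : ℝ) * a G))) *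
          Real.exp (-(((n : ℝ) - (nm G + H : ℕ)) * (τ G - 1)))))) := by
    intro r
    induction r with
    | zero => exact fun _ _ _ h => absurd h (Nat.not_lt_zero _)
    | succ r ih =>
      intro G hG hGG hr hL n hn
      have haG := ha G (hsub hG)
      have hnmG : (0 : ℝ) < nm G := by exact_mod_cast hnm G hG
      obtain ⟨Pr, hPr, hPc, hun⟩ := unblocked s a ha gr hgr hN.g0 hN.gg (M ^ 263) hN.gL G
        (hsub hG) hGG
      have st : ∀ n1 : ℕ, (∀ p ∈ Pr, ¬ p ∣ n1) → nm G ≤ n1 → n1 ≤ nm G + H →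
          NB (cls s gr G) (rv (fun k => (a k : ℂ)) gr (eG1 M)) (fun _ => 0)
            (fun k => w k * (Real.exp (-(n1 * T k)) : ℂ))
            (Real.exp ((M : ℝ) ^ 4) * Real.exp (2 * (M : ℝ) ^ 4 * r) *
              (B0 * (((n1 * a G) ^ j)⁻¹ * Real.exp (-(θ * (n1 * a G)))))) := by
        intro n1 g1 g2 g3
        have g4 : 1 ≤ n1 := (hnm G hG).trans g2
        have g5 : (nm G : ℝ) ≤ n1 := by exact_mod_cast g2
        have hx : 0 < n1 * a G := mul_pos (hnmG.trans_le g5) haG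
        refine IsoA_step hp s hs a (fun ν => w ν.1 * (Real.exp (-(ν.2 * T ν.1)) : ℂ)) ha at' hat
          gr hgr G (hsub hG) n1 g4 (g3.trans hL) _ _ (by positivity)
          (Real.one_le_exp (by clear * - M r g1 g3 g4 hL hun n1; positivity)) (hun n1 g4 (g3.trans hL) g1)
          (fun α b1 b2 b3 => (hyard G hG hGG hL n1 g2 g3 α b1 b2 b3).trans_eq (mul_assoc _ _ _))
          fun k' hk' hlt n' b1 b2 b3 => ?_
        have c1 : k' ∈ slow := by
          by_contra c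
          have := hdown k' hk' c G hG
          rw [hGG] at this
          linarith only [hlt, this]
        have c2 := (hsat k' hk').1 c1
        have c3 := hgr.idem k' hk'
        generalize gr k' = G' at *
        have haG' := ha G' (hsub c2)
        have c4 : ((nm G' + H : ℕ) : ℝ) * a G' * (1 + ((M : ℝ) ^ 300)⁻¹) ≤ n1 * a G :=
          (hord G hG G' c2 hGG c3 hlt).trans (mul_le_mul_of_nonneg_right g5 haG.le)
        have hy : (1 : ℝ) ≤ (M : ℝ) ^ 2 := one_le_pow₀ hp.one_le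
        have c5 : nm G' + H ≤ n' := by
          clear * - M n1 a G n' G' b3 hN hy nm H haG' c4 g1
          have d1 := (abs_le.1 b3).1
          have d2 : eG1 M ≤ eG1 M * (M : ℝ) ^ 2 := le_mul_of_one_le_right hN.g1.le hy
          have d3 := hN.gt
          have d4 := hN.t1
          have d5 := hN.g1
          have d6 : (0 : ℝ) ≤ ((nm G' + H : ℕ) : ℝ) * a G' := by positivity
          have d0 := hN.g1'
          generalize ((M : ℝ) ^ 300)⁻¹ = t at *
          have d7 : ((nm G' + H : ℕ) : ℝ) * a G' * 1 ≤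
              ((nm G' + H : ℕ) : ℝ) * a G' * ((1 + t) * (1 - eG1 M)) :=
            mul_le_mul_of_nonneg_left (by nlinarith only [d2, d5, d0, d3, d4]) d6
          have d8 := mul_le_mul_of_nonneg_right c4 (show 0 ≤ 1 - eG1 M by linarith only [d5, d0])
          have d9 : ((nm G' + H : ℕ) : ℝ) * a G' ≤ n' * a G' := by linarith only [d1, d7, d8]
          exact_mod_cast le_of_mul_le_mul_right d9 haG'
        have c6 : (s.filter fun k => a k < a G').card < (s.filter fun k => a k < a G).card := by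
          refine card_lt_card ⟨fun k hk => mem_filter.2 ⟨(mem_filter.1 hk).1,
            (mem_filter.1 hk).2.trans hlt⟩, fun h => ?_⟩
          exact lt_irrefl _ (mem_filter.1 (h (mem_filter.2 ⟨hsub c2, hlt⟩))).2
        refine (ih G' c2 c3 (by omega) (c5.trans b2) n' c5).mono
          (mul_le_mul_of_nonneg_left ?_ (Real.exp_pos _).le)
        have c7 := IsoA_B3 j θ (τ G') haG' (p := nm G') (q := ((nm G' + H : ℕ) : ℝ)) (r := n')
          (by exact_mod_cast hnm G' c2) (by exact_mod_cast Nat.le_add_right _ _)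
          (by exact_mod_cast c5) hx b3 hN.g1.le (hN.g1'.trans (by norm_num)) hjR hy hN.gt hN.t1 c4
          (hslope G' c2 c3 (c5.trans b2))
        have c8 := mul_le_mul_of_nonneg_left c7 hB0
        linarith only [c8]
      refine NB.of_one fun i => ?_
      have e : ∀ n1 : ℕ, ∑ k ∈ cls s gr G, w k * (Real.exp (-(n1 * T k)) : ℂ) *
          rv (fun k => (a k : ℂ)) gr (eG1 M) k ^ i = ∑ k ∈ cls s gr G,
          w k * rv (fun k => (a k : ℂ)) gr (eG1 M) k ^ i * (Real.exp (-(n1 * T k)) : ℂ) :=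
        fun n1 => sum_congr rfl fun k _ => by ring
      have hsl := hslope G hG hGG hL
      have hnn : 0 ≤ |θ| * a G / (M : ℝ) ^ 2 := by clear * - θ a G M haG; positivity
      have ex := extrapolate hp (cls s gr G)
        ((card_le_card fun k hk => (mem_cls.1 hk).1).trans hs)
        (fun k => w k * rv (fun k => (a k : ℂ)) gr (eG1 M) k ^ i) T (τ G) (j / nm G + θ * a G)
        (Real.exp ((M : ℝ) ^ 4) * Real.exp (2 * (M : ℝ) ^ 4 * r) *
          (B0 * (((((nm G + H : ℕ) : ℝ) * a G) ^ j)⁻¹ *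
            Real.exp (-(θ * (((nm G + H : ℕ) : ℝ) * a G))) *
            Real.exp ((j / nm G + θ * a G) * ((nm G + H : ℕ) : ℝ)))))
        (fun k hk => by
          obtain ⟨k1, k2⟩ := mem_cls.1 hk
          rw [← k2]
          exact hτ k ((hsat k k1).2 (k2 ▸ hG)))
        (by linarith only [hsl, hnn]) (by clear * - M r B0 nm G H a j θ hB0 haG Pr; positivity) (nm G) (fun y => ∀ p ∈ Pr, ¬ p ∣ y)
        (hp.jac Pr hPr (by omega))
        (fun n1 g1 g2 g3 => by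
          rw [hH] at g3
          rw [← e]
          refine ((st n1 g1 g2 g3).one i).trans ?_
          have d1 := IsoA_B1 j θ haG hnmG (q := n1) (r := ((nm G + H : ℕ) : ℝ))
            (by exact_mod_cast g2) (by exact_mod_cast g3)
          rw [mul_sub, sub_eq_add_neg, Real.exp_add] at d1
          refine (mul_le_mul_of_nonneg_left (mul_le_mul_of_nonneg_left d1 hB0)
            (by positivity)).trans (le_of_eq ?_)
          ring) n (by rwa [hH])
      rw [e]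
      refine ex.trans (le_of_eq ?_)
      rw [hH, Real.exp_neg ((j / nm G + θ * a G) * _), show 2 * (M : ℝ) ^ 4 * ((r + 1 : ℕ) : ℝ) =
        (M : ℝ) ^ 4 + (M : ℝ) ^ 4 + 2 * (M : ℝ) ^ 4 * r by push_cast; ring, Real.exp_add,
        Real.exp_add]
      clear * - M r B0 nm G H a j θ n τ hnmG haG; field_simp
  refine (key (m + 1) G hG hGG (Nat.lt_succ_of_le ((card_filter_le _ _).trans hs)) hL n hn).mono ?_
  have h5 : Real.exp (2 * (M : ℝ) ^ 4 * (m + 1 : ℕ)) ≤ Real.exp ((M : ℝ) ^ 6) := by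
    clear * - M m hp h4
    refine Real.exp_le_exp.2 (le_trans ?_ (hp.mul_pow_le (c := 4) (by norm_num)
      (by norm_num : 4 + 1 < 6)))
    have h6 := hp.mle
    have h7 := hp.one_le
    have h8 : (m : ℝ) + 1 ≤ 2 * M := by linarith only [h6, h7]
    have h9 := mul_le_mul_of_nonneg_left h8 h4
    rw [pow_succ _ 4]
    push_cast
    linarith only [h9]
  have haG := ha G (hsub hG)
  refine (mul_le_mul_of_nonneg_right h5 (by clear * - B0 nm G H a j θ n τ hB0 haG; positivity)).trans (le_of_eq ?_)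
  ring

/-- Split the atom along the labels `(gr k, n)`; each piece is cut out of the class by
`NB.restrict` and recentered to the (smaller) scale of the atom by `NB.recenter`. -/
theorem atom_le_groups (hp : Par m M) (s : Finset ι) (hs : s.card ≤ m) (a T : ι → ℝ) (w : ι → ℂ)
    (ha : ∀ k ∈ s, 0 < a k) (at' : ι × ℕ → ι × ℕ)
    (hat : RClus (Dat.pA s (M ^ 263)) (fun ν => ((ν.2 * a ν.1 : ℝ) : ℂ)) at' (eA1 M) (eA0 M))
    (gr : ι → ι) (hgr : RClus s (fun k => (a k : ℂ)) gr (eG1 M) (eG0 M))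
    (α : ι × ℕ) (hα : α ∈ Dat.pA s (M ^ 263)) (hαα : at' α = α) (B1 : ℝ) (hB1 : 0 ≤ B1)
    (h : ∀ ν ∈ cls (Dat.pA s (M ^ 263)) at' α,
      NB (cls s gr (gr ν.1)) (rv (fun k => (a k : ℂ)) gr (eG1 M)) (fun _ => 0)
        (fun k => w k * (Real.exp (-(ν.2 * T k)) : ℂ)) B1) :
    Nm (cls (Dat.pA s (M ^ 263)) at' α) (rv (fun ν => ((ν.2 * a ν.1 : ℝ) : ℂ)) at' (eA1 M))
      (fun _ => 0) (fun ν => w ν.1 * (Real.exp (-(ν.2 * T ν.1)) : ℂ)) ≤
      Real.exp ((M : ℝ) ^ 4) * B1 := by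
  classical
  have hN := IsoA_num hp
  have _ := hαα
  have hpos := IsoA_pos (L := M ^ 263) ha
  have hx := hpos α hα
  have q4 : eA1 M ≤ eG1 M := by have := hN.ag.trans hN.gg; have := hN.a1; linarith
  have hd : 0 < 4 / eA0 M := div_pos (by norm_num) hN.a0
  have hE : 1 ≤ Real.exp M := Real.one_le_exp hp.pos.le
  have key : NB (cls (Dat.pA s (M ^ 263)) at' α)
      (rv (fun ν => ((ν.2 * a ν.1 : ℝ) : ℂ)) at' (eA1 M)) (fun _ => 0)
      (fun ν => w ν.1 * (Real.exp (-(ν.2 * T ν.1)) : ℂ))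
      ((cls (Dat.pA s (M ^ 263)) at' α).card *
        (9 ^ m * Real.exp M ^ (2 * m) * ((4 / eA0 M) ^ (m * m) * B1))) := by
    refine Kill_fib (fun ν : ι × ℕ => (gr ν.1, ν.2)) (mul_nonneg (mul_nonneg
      (pow_nonneg (by norm_num) _) (pow_nonneg (Real.exp_pos _).le _))
      (mul_nonneg (pow_nonneg hd.le _) hB1)) fun ν hν => ?_
    obtain ⟨k1, k2⟩ := mem_cls.1 hν
    obtain ⟨m1, m2, m3⟩ := IsoA_mem.1 k1
    have hz : 0 < ν.2 * a (gr ν.1) := mul_pos (by exact_mod_cast m2) (ha _ (hgr.mem _ m1))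
    have e7 := mul_pos hN.g1 hz
    have hsub : ((cls (Dat.pA s (M ^ 263)) at' α).filter fun k => (gr k.1, k.2) = (gr ν.1, ν.2)) ⊆
        (Dat.pA s (M ^ 263)).filter fun k => (gr k.1, k.2) = (gr ν.1, ν.2) := fun k hk =>
      mem_filter.2 ⟨(mem_cls.1 (mem_filter.1 hk).1).1, (mem_filter.1 hk).2⟩
    have hnl : ‖((eG1 M * (ν.2 * a (gr ν.1)) : ℝ) : ℂ)‖ = eG1 M * (ν.2 * a (gr ν.1)) := by
      rw [norm_real, Real.norm_of_nonneg e7.le]
    have h1 := ((IsoA_reindex (fun ν => w ν.1 * (Real.exp (-(ν.2 * T ν.1)) : ℂ))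
      (ha _ (hgr.mem _ m1)) m2 m3).2 (h ν hν)).restrict hsub (IsoA_cardlab hs gr _ _) hN.a0 hN.a0'
      (fun k hk => by
        rw [norm_div, hnl, div_le_one e7, IsoA_norm]
        exact (IsoA_lab ha hgr (mem_filter.1 hk).1 (mem_filter.1 hk).2).trans (by linarith only [e7]))
      (fun k hk k' hk' hne => by
        rw [← sub_div, sub_sub_sub_cancel_right, norm_div, hnl, le_div_iff₀ e7, IsoA_norm]
        refine IsoA_gap hN ha hat hgr (mem_filter.1 (hsub hk)).1 (mem_filter.1 hk').1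
          (mem_filter.1 hk).2 (mem_filter.1 hk').2 hz fun e => hne ?_
        exact mem_filter.2 ⟨mem_cls.2 ⟨(mem_filter.1 hk').1,
          e.symm.trans (mem_cls.1 (mem_filter.1 hk).1).2⟩, (mem_filter.1 hk').2⟩)
    refine h1.recenter ((card_le_card hsub).trans (IsoA_cardlab hs gr _ _)) hE
      ((Kill_aff (fun ν : ι × ℕ => ((ν.2 * a ν.1 : ℝ) : ℂ)) _ ((α.2 * a α.1 : ℝ) : ℂ) e7
        (mul_pos hN.a1 hx) ?_).congr fun k hk =>
          (IsoA_rv (x := fun ν : ι × ℕ => ν.2 * a ν.1) hx k (mem_filter.1 hk).1).symm)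
      (Mu.snd.mono hE)
      (fun k hk => (hat.rv_le hN.a1 (fun k hk => by exact_mod_cast (hpos k hk).ne') k
        (mem_filter.1 (hsub hk)).1).trans (by norm_num)) fun _ _ => by norm_num
    rw [IsoA_norm]
    have e1 := abs_le.1 (IsoA_near (f := fun ν : ι × ℕ => ν.2 * a ν.1) hat hpos k1)
    have e2 := abs_le.1 (IsoA_lab ha hgr k1 rfl)
    rw [k2] at e1
    have e3 := mul_le_mul_of_nonneg_right hN.g1' hz.le
    have e4 := mul_le_mul_of_nonneg_right q4 hx.le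
    have e5 := mul_le_mul_of_nonneg_right hN.g1' hx.le
    have e6 : (ν.2 : ℝ) * a (gr ν.1) ≤ 2 * (α.2 * a α.1) := by linarith only [e7, e1, e2, e3, e4, e5]
    have e8 := mul_le_mul_of_nonneg_left e6 hN.g1.le
    have e9 := mul_le_mul_of_nonneg_right hN.ga hx.le
    have e10 : |(ν.2 : ℝ) * a (gr ν.1) - α.2 * a α.1| ≤ eG1 M * (α.2 * a α.1) :=
      abs_le.2 ⟨by linarith only [e7, e1, e2, e4, e8], by linarith only [e7, e1, e2, e4, e8]⟩
    linarith only [e7, e8, e9, e10]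
  refine key.Nm_le.trans ?_
  have f1 : ((cls (Dat.pA s (M ^ 263)) at' α).card : ℝ) ≤ Real.exp M :=
    le_trans (by exact_mod_cast card_le_card fun k hk => (mem_cls.1 hk).1) (IsoA_card hp hs)
  have f2 := IsoA_pow hp (c := 9) (by norm_num) (IsoA_c hp (by norm_num)) m
  have f3 := IsoA_pow hp hd.le hN.ex (m * m)
  have f4 := IsoA_pow hp (Real.exp_pos _).le le_rfl (2 * m)
  generalize 4 / eA0 M = y at *
  refine (mul_le_mul f1 (mul_le_mul (mul_le_mul f2 f4 (by positivity) (by positivity))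
    (mul_le_mul_of_nonneg_right f3 hB1) (by positivity) (by positivity)) (by positivity)
    (by positivity)).trans ?_
  rw [← mul_assoc, ← mul_assoc, ← Real.exp_add, ← Real.exp_add, ← Real.exp_add]
  refine mul_le_mul_of_nonneg_right (Real.exp_le_exp.2 ?_) hB1
  have := IsoA_exp hp
  have := hp.pos
  push_cast
  linarith

/-- atoms of signed frequencies restrict to atoms of positive frequencies on one side -/
theorem side_atoms (hp : Par m M) (D : Dat ι) (A : Finset ι) (ha : ∀ k ∈ A, 0 < D.a k)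
    (at' : ι × ℕ → ι × ℕ)
    (hat : RClus (Dat.pA A (M ^ 263)) (fun ν => (D.freq ν : ℂ)) at' (eA1 M) (eA0 M)) (σ : ℝ) :
    RClus (Dat.pA (A.filter (fun k => D.sg k = σ)) (M ^ 263))
        (fun ν => ((ν.2 * D.a ν.1 : ℝ) : ℂ)) at' (eA1 M) (eA0 M) ∧
      ∀ α ∈ Dat.pA (A.filter (fun k => D.sg k = σ)) (M ^ 263), at' α = α →
        Nm (cls (Dat.pA (A.filter (fun k => D.sg k = σ)) (M ^ 263)) at' α)
          (rv (fun ν => ((ν.2 * D.a ν.1 : ℝ) : ℂ)) at' (eA1 M)) (fun _ => 0)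
          (fun ν => ((-D.sg ν.1 * D.W ν.1 * D.a ν.1 : ℝ) : ℂ) * (Real.exp (-(ν.2 * D.T ν.1)) : ℂ)) =
          D.NA M (Dat.pA A (M ^ 263)) at' D.cf α ∧
        cls (Dat.pA (A.filter (fun k => D.sg k = σ)) (M ^ 263)) at' α =
          cls (Dat.pA A (M ^ 263)) at' α := by
  have hN := IsoA_num hp
  have hpos := IsoA_pos (L := M ^ 263) ha
  have q4 : eA1 M ≤ 1 / 800 := by have := hN.ag.trans (hN.gg.trans hN.g1'); linarith only [this]
  have hsg : ∀ k, D.sg k = -1 ∨ D.sg k = 1 := fun k => by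
    unfold Dat.sg
    split_ifs <;> simp
  have hsame : ∀ ν ∈ Dat.pA A (M ^ 263), D.sg (at' ν).1 = D.sg ν.1 := fun ν hν => by
    have h1 := hat.near ν hν
    have h2 := hpos ν hν
    have h3 := hpos _ (hat.mem ν hν)
    have h4 := mul_le_mul_of_nonneg_right q4 h3.le
    rw [IsoA_norm, norm_real, Real.norm_eq_abs, Dat.freq, Dat.freq] at h1
    rcases hsg ν.1 with e | e <;> rcases hsg (at' ν).1 with e' | e' <;> rw [e, e'] at h1 ⊢
    · rw [one_mul, abs_of_pos h3] at h1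
      have := (abs_le.1 h1).1
      linarith only [h2, h3, h4, this]
    · rw [neg_one_mul, abs_neg, abs_of_pos h3] at h1
      have := (abs_le.1 h1).2
      linarith only [h2, h3, h4, this]
  have hm : ∀ ν, ν ∈ Dat.pA (A.filter (fun k => D.sg k = σ)) (M ^ 263) ↔
      ν ∈ Dat.pA A (M ^ 263) ∧ D.sg ν.1 = σ := fun ν => by
    rw [IsoA_mem, IsoA_mem, mem_filter]
    tauto
  have hn1 : ∀ ν : ι × ℕ, ‖(D.freq ν : ℂ)‖ = ‖((ν.2 * D.a ν.1 : ℝ) : ℂ)‖ := fun ν => by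
    rw [Dat.freq]
    rcases hsg ν.1 with e | e <;> rw [e] <;> simp
  have hn2 : ∀ ν ν' : ι × ℕ, D.sg ν.1 = D.sg ν'.1 → ‖(D.freq ν : ℂ) - (D.freq ν' : ℂ)‖ =
      ‖((ν.2 * D.a ν.1 : ℝ) : ℂ) - ((ν'.2 * D.a ν'.1 : ℝ) : ℂ)‖ := fun ν ν' h => by
    rw [IsoA_norm, IsoA_norm, Dat.freq, Dat.freq, ← h, ← mul_sub, abs_mul]
    rcases hsg ν.1 with e | e <;> rw [e] <;> simp
  refine ⟨⟨fun ν hν => ?_, fun ν hν => hat.idem ν ((hm ν).1 hν).1, fun ν hν => ?_,
    fun ν hν ν' hν' hne => ?_⟩, fun α hα _ => ?_⟩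
  · obtain ⟨h1, h2⟩ := (hm ν).1 hν
    exact (hm _).2 ⟨hat.mem ν h1, (hsame ν h1).trans h2⟩
  · obtain ⟨h1, -⟩ := (hm ν).1 hν
    rw [← hn1, ← hn2 _ _ (hsame ν h1).symm]
    exact hat.near ν h1
  · obtain ⟨h1, h2⟩ := (hm ν).1 hν
    obtain ⟨h3, h4⟩ := (hm ν').1 hν'
    rw [← hn1, ← hn1, ← hn2 _ _ (h2.trans h4.symm)]
    exact hat.sep ν h1 ν' h3 hne
  · have hc : cls (Dat.pA (A.filter (fun k => D.sg k = σ)) (M ^ 263)) at' α =
        cls (Dat.pA A (M ^ 263)) at' α := by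
      ext ν
      rw [mem_cls, mem_cls, hm]
      exact ⟨fun h => ⟨h.1.1, h.2⟩, fun h =>
        ⟨⟨h.1, (hsame ν h.1).symm.trans (h.2 ▸ ((hm α).1 hα).2)⟩, h.2⟩⟩
    refine ⟨?_, hc⟩
    rw [hc, Dat.NA, Nm, Nm]
    refine iSup_congr fun p => congrArg norm (sum_congr rfl fun ν hν => ?_)
    have h1 := (mem_cls.1 hν).1
    have h2 : rv (fun ν => ((ν.2 * D.a ν.1 : ℝ) : ℂ)) at' (eA1 M) ν =
        rv (fun ν => (D.freq ν : ℂ)) at' (eA1 M) ν := by
      have h3 : (D.sg ν.1 : ℂ) ≠ 0 := by rcases hsg ν.1 with e | e <;> rw [e] <;> simp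
      simp only [rv, Dat.freq, hsame ν h1]
      rw [ofReal_mul (D.sg ν.1), ofReal_mul (D.sg ν.1), mul_div_mul_left _ _ h3]
    rw [h2, Dat.cf, Dat.coef, ofReal_mul _ (Real.exp _)]

end Pool.Agent.Work.MP_97f157_lc.Tau
end
end
end

-- merged part: Pool.Agent.Work.MP_97f157_lc.TauApxHAux
section
-- merged part: Pool.Agent.Work.MP_97f157_lc.TauTailA
section
/-! High harmonics are negligible. -/

noncomputable section
open Complex Finset

namespace Pool.Agent.Work.MP_97f157_lc.Tau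

variable {ι : Type*} {m M : ℕ}

theorem tailA_eps (hp : Par m M) :
    0 < eG1 M ∧ eG1 M ≤ 1 / 100 ∧ 3 * (M : ℝ) ^ 8000 * eG1 M ≤ 1 / 2 := by
  have h1 := hp.inv_pow_le (c := 100) (by norm_num) (show 0 < 24000 by norm_num)
  have h2 := hp.mul_pow_le (c := 6) (by norm_num) (show 8000 < 24000 by norm_num)
  have h3 := hp.pow_pos 24000
  rw [pow_zero, inv_one] at h1
  unfold eG1
  refine ⟨inv_pos.2 h3, by linarith only [h1], ?_⟩
  rw [← div_eq_mul_inv, div_le_iff₀ h3]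
  linarith only [h2]

theorem tailA_num {n np τ r j ε q M6 : ℝ} (hnp : 0 < np) (hn : 100 * np ≤ n) (hτ : 100 ≤ τ)
    (hr : 0 ≤ r) (hrτ : 31 * r ≤ τ) (hj : 20 * j ≤ np * τ) (hε : ε ≤ 1 / 100)
    (hjε : j * ε ≤ 1 / 2) (hq : q ≤ n * r / 4) :
    j * (n / np) + j * ε + 4 * (n * r * (1 + ε)) + q + M6 + 7 / 2 * (np * r) -
      (n - np) * (τ - 1) ≤ M6 + 1 - 7 / 10 * (n * τ) := by
  have hn0 : 0 < n := by linarith only [hnp, hn]
  have h1 : j * (n / np) ≤ n * τ / 20 := by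
    rw [mul_div_assoc', div_le_iff₀ hnp]; nlinarith only [hnp, hn, hj]
  have h2 : 31 * (n * r) ≤ n * τ := by nlinarith only [hnp, hn, hrτ]
  have h3 : 100 * (np * r) ≤ n * r := by nlinarith only [hn, hr]
  have h4 : n * r * ε ≤ n * r / 100 := by nlinarith only [hr, hε, hn0, mul_nonneg hn0.le hr]
  have h5 : 100 * (np * τ) ≤ n * τ := by nlinarith only [hn, hτ]
  have h6 : 100 * n ≤ n * τ := by nlinarith only [hnp, hn, hτ]
  linarith only [hnp, hn, hjε, hq, h1, h2, h3, h4, h5, h6]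

/-- the multiplier attached to one harmonic on a group of lattices -/
theorem tailA_mu {C : Finset ι} {u : ι → ℂ} {φ : ι → ℝ} {y ε c ρ P : ℝ} (hy : 0 ≤ y) (hε : 0 ≤ ε)
    (hε1 : ε ≤ 1) (hc : |c| = y) (hφ : ∀ k ∈ C, (φ k : ℂ) = c * (1 + ε * u k)) (hP : 0 < P)
    (hρ : 0 ≤ ρ) (j : ℕ) (l : List ℝ) (hl' : ∀ μ ∈ l, P ≤ |μ| * ρ) (z : ℂ) (hz : ‖z‖ ≤ 4 * ρ) :
    Mu C u (fun _ => 0) (fun k => Lm l (φ k) * ec (φ k) j z)
      (Real.exp (l.length * (2 * y * ρ / P)) *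
        ((y * (1 + ε)) ^ j * Real.exp (4 * (y * ρ * (1 + ε))) / (j.factorial : ℝ))) := by
  have h1 : Mu C u (fun _ => 0) (fun k => (φ k : ℂ)) (y * (1 + ε)) := by
    have := (Mu.one.add ((Mu.fst (s := C) (u := u) (v := fun _ => 0)).smul (ε : ℂ))).smul (c : ℂ)
    refine (this.congr fun k hk => (hφ k hk).symm).mono (le_of_eq ?_)
    rw [Complex.norm_real, Complex.norm_real, Real.norm_eq_abs, hc, Real.norm_of_nonneg hε, mul_one]
  refine Mu.mul ?_ ?_
  · have h2 := Mu.listprod (s := C) (u := u) (v := fun _ => 0) l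
      (fun μ k => 1 - (φ k : ℂ) / (μ : ℂ)) (fun _ => Real.exp (2 * y * ρ / P)) fun μ hμ => ?_
    · refine h2.mono (le_of_eq ?_)
      rw [List.map_const', List.prod_replicate, Real.exp_nat_mul]
    · have h3 := hl' μ hμ
      have h4 : 0 < |μ| := by
        by_contra h
        have : |μ| = 0 := le_antisymm (not_lt.1 h) (abs_nonneg _)
        rw [this, zero_mul] at h3
        linarith
      refine ((Mu.one.sub (h1.smul (μ : ℂ)⁻¹)).congr fun k _ => by
        rw [div_eq_inv_mul]).mono ?_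
      refine le_trans ?_ (Real.add_one_le_exp _)
      rw [norm_inv, Complex.norm_real, Real.norm_eq_abs, add_comm, add_le_add_iff_right,
        inv_mul_eq_div, div_le_div_iff₀ h4 hP]
      have h5 : y * P ≤ y * (|μ| * ρ) := mul_le_mul_of_nonneg_left h3 hy
      have h6 : y * P * ε ≤ y * P := mul_le_of_le_one_right (by positivity) hε1
      linarith only [h5, h6]
  · have h2 := ((h1.neg.pow j).mul ((h1.smul z).exp (by positivity))).smul
      ((j.factorial : ℂ))⁻¹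
    refine (h2.congr fun k _ => ?_).mono ?_
    · rw [ec, div_eq_inv_mul, mul_comm z]
    · rw [norm_inv, Complex.norm_natCast, div_eq_inv_mul]
      have h3 : ‖z‖ * (y * (1 + ε)) ≤ 4 * (y * ρ * (1 + ε)) :=
        calc ‖z‖ * (y * (1 + ε)) ≤ 4 * ρ * (y * (1 + ε)) := by gcongr
          _ = 4 * (y * ρ * (1 + ε)) := by ring
      exact mul_le_mul_of_nonneg_left (mul_le_mul_of_nonneg_left (Real.exp_le_exp.2 h3)
        (by positivity)) (by positivity)

/-- one harmonic of one group -/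
theorem tailA_term (hp : Par m M) {C : Finset ι} {u g : ι → ℂ} {φ : ι → ℝ} {aG c ρ τ E : ℝ}
    {n np : ℕ} (haG : 0 < aG) (hc : |c| = n * aG)
    (hφ : ∀ k ∈ C, (φ k : ℂ) = c * (1 + (eG1 M : ℝ) * u k)) (hρ : 0 ≤ ρ)
    (j : ℕ) (hj : j ≤ 3 * M ^ 8000) (l : List ℝ) (hl : l.length ≤ M ^ 265)
    (hl' : ∀ μ ∈ l, (M : ℝ) ^ 8540 ≤ |μ| * ρ) (z : ℂ) (hz : ‖z‖ ≤ 4 * ρ) (hE0 : 0 ≤ E)
    (hnp1 : 60 * M ^ 262 ≤ np) (hnp2 : 100 * np ≤ n) (hτ1 : (M : ℝ) ^ 7738 ≤ τ)
    (hτ2 : 31 * (aG * ρ) ≤ τ)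
    (hNB : NB C u (fun _ => 0) g
      (Real.exp ((M : ℝ) ^ 6) * (2 * E * j.factorial) * (((np : ℝ) * aG) ^ j)⁻¹ *
        Real.exp (-(-(7 / 2 * ρ) * ((np : ℝ) * aG))) * Real.exp (-(((n : ℝ) - np) * (τ - 1))))) :
    ‖∑ k ∈ C, (Lm l (φ k) * ec (φ k) j z) * g k‖ ≤
      2 * E * Real.exp ((M : ℝ) ^ 6 + 1 - 7 / 10 * (n * τ)) := by
  obtain ⟨e0, e1, e2⟩ := tailA_eps hp
  have hnp1' : 60 * (M : ℝ) ^ 262 ≤ np := by exact_mod_cast hnp1
  have hnp2' : 100 * (np : ℝ) ≤ n := by exact_mod_cast hnp2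
  have hj' : (j : ℝ) ≤ 3 * (M : ℝ) ^ 8000 := by exact_mod_cast hj
  have hl1 : (l.length : ℝ) ≤ (M : ℝ) ^ 265 := by exact_mod_cast hl
  have hnp0 : (0 : ℝ) < np := lt_of_lt_of_le (mul_pos (by norm_num) (hp.pow_pos 262)) hnp1'
  have hn0 : (0 : ℝ) < n := by linarith only [hnp2', hnp0]
  have hP := hp.pow_pos 8540
  have h1 := (tailA_mu (C := C) (u := u) (φ := φ) (by positivity) e0.le (by linarith only [e0, e1]) hc hφ hP hρ
    j l hl' z hz).apply hNB
  refine h1.trans ?_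
  have hf : (0 : ℝ) < j.factorial := by exact_mod_cast j.factorial_pos
  have hτ0 : 100 ≤ τ := by
    have := hp.mul_pow_le (c := 100) (by norm_num) (show 0 < 7738 by norm_num)
    rw [pow_zero] at this; linarith only [hτ1, this]
  have hjτ : 20 * (j : ℝ) ≤ np * τ := by
    have e : (M : ℝ) ^ 8000 = (M : ℝ) ^ 262 * (M : ℝ) ^ 7738 := by rw [← pow_add]
    have := mul_le_mul hnp1' hτ1 (hp.pow_pos _).le hnp0.le
    rw [e] at hj'
    linarith only [hj', this]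
  have hq : l.length * (2 * (n * aG) * ρ / (M : ℝ) ^ 8540) ≤ n * (aG * ρ) / 4 := by
    have h8 := hp.mul_pow_le (c := 8) (by norm_num) (show 265 < 8540 by norm_num)
    rw [mul_div_assoc', div_le_iff₀ hP]
    have h9 : 0 ≤ n * (aG * ρ) := by positivity
    have h10 : 8 * (l.length : ℝ) ≤ (M : ℝ) ^ 8540 := by linarith only [hl1, h8]
    linarith only [h9, h10, mul_le_mul_of_nonneg_left h10 h9]
  have hnum := tailA_num (M6 := (M : ℝ) ^ 6) hnp0 hnp2' hτ0 (by positivity) hτ2 hjτ e1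
    ((mul_le_mul_of_nonneg_right hj' e0.le).trans e2) hq
  have hpow : ((n : ℝ) * aG * (1 + eG1 M)) ^ j * (((np : ℝ) * aG) ^ j)⁻¹ ≤
      Real.exp (j * (n / np) + j * eG1 M) := by
    have e : ((n : ℝ) * aG * (1 + eG1 M)) ^ j * (((np : ℝ) * aG) ^ j)⁻¹ =
        ((n : ℝ) / np) ^ j * (1 + eG1 M) ^ j := by
      rw [← inv_pow, ← mul_pow, ← mul_pow]
      refine congrArg (· ^ j) ?_
      have a1 := haG.ne'
      have a2 := hnp0.ne'
      generalize 1 + eG1 M = y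
      clear * - a1 a2
      field_simp
    rw [e, Real.exp_add]
    refine mul_le_mul ?_ (chain_pow_le_exp j e0.le) (by positivity) (Real.exp_pos _).le
    rw [Real.exp_nat_mul]
    exact pow_le_pow_left₀ (by positivity) (by linarith only [e0, e1, Real.add_one_le_exp ((n : ℝ) / np)]) j
  calc _ = 2 * E * ((((n : ℝ) * aG * (1 + eG1 M)) ^ j * (((np : ℝ) * aG) ^ j)⁻¹) *
        (Real.exp (4 * (n * aG * ρ * (1 + eG1 M))) *
          Real.exp (l.length * (2 * (n * aG) * ρ / (M : ℝ) ^ 8540)) * Real.exp ((M : ℝ) ^ 6) *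
          Real.exp (-(-(7 / 2 * ρ) * ((np : ℝ) * aG))) *
          Real.exp (-(((n : ℝ) - np) * (τ - 1))))) := by
        generalize Real.exp (4 * (n * aG * ρ * (1 + eG1 M))) = x1
        generalize Real.exp (l.length * (2 * (n * aG) * ρ / (M : ℝ) ^ 8540)) = x2
        generalize Real.exp ((M : ℝ) ^ 6) = x3
        generalize Real.exp (-(-(7 / 2 * ρ) * ((np : ℝ) * aG))) = x4
        generalize Real.exp (-(((n : ℝ) - np) * (τ - 1))) = x5
        generalize ((n : ℝ) * aG * (1 + eG1 M)) ^ j = x6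
        generalize (((np : ℝ) * aG) ^ j)⁻¹ = x7
        have hf' := hf.ne'
        generalize (j.factorial : ℝ) = x8 at hf' ⊢
        clear * - hf'
        field_simp
    _ ≤ 2 * E * (Real.exp (j * (n / np) + j * eG1 M) * _) := by gcongr
    _ ≤ _ := by
        rw [← Real.exp_add, ← Real.exp_add, ← Real.exp_add, ← Real.exp_add, ← Real.exp_add]
        gcongr
        refine le_trans (le_of_eq ?_) hnum
        generalize (M : ℝ) ^ 8540 = P
        generalize (M : ℝ) ^ 6 = P6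
        ring

open Classical in
/-- number of group representatives with smaller slope -/
def tailA_rank (s : Finset ι) (a : ι → ℝ) (gr : ι → ι) (G : ι) : ℕ :=
  (s.filter fun G' => gr G' = G' ∧ a G' < a G).card

theorem tailA_rank_le (s : Finset ι) (a : ι → ℝ) (gr : ι → ι) (G : ι) :
    tailA_rank s a gr G ≤ s.card := by
  classical
  exact card_filter_le _ _

theorem tailA_rank_lt {s : Finset ι} {a : ι → ℝ} {gr : ι → ι} {G G' : ι} (hG' : G' ∈ s)
    (h1 : gr G' = G') (h2 : a G' < a G) : tailA_rank s a gr G' < tailA_rank s a gr G := by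
  classical
  refine card_lt_card ⟨fun k hk => ?_, fun h => ?_⟩
  · rw [mem_filter] at hk ⊢
    exact ⟨hk.1, hk.2.1, hk.2.2.trans h2⟩
  · have := h (mem_filter.2 ⟨hG', h1, h2⟩)
    exact lt_irrefl _ (mem_filter.1 this).2.2

theorem tailA_np (hp : Par m M) {r : ℕ} (hr : r ≤ m) :
    60 * M ^ 262 + 2 * M ^ 17 * r + M ^ 17 ≤ 62 * M ^ 262 := by
  have h1 : 2 * M ^ 17 * r ≤ M ^ 18 := by
    have := hp.two
    calc 2 * M ^ 17 * r = M ^ 17 * (2 * r) := by ring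
      _ ≤ M ^ 17 * M := Nat.mul_le_mul_left _ (by omega)
      _ = M ^ 18 := (pow_succ M 17).symm
  have h2 := hp.pow_monoN (show 18 ≤ 262 by norm_num)
  have h3 := hp.pow_monoN (show 17 ≤ 262 by norm_num)
  omega

/-- one side -/
theorem tailA_side (hp : Par m M) (D : Dat ι) (A : Finset ι) (hA : A.card ≤ m)
    (ha : ∀ k ∈ A, 0 < D.a k) (ρ : ℝ) (hρ : 0 ≤ ρ) (hT : ∀ k ∈ A, (M : ℝ) ^ 7738 ≤ D.T k)
    (hx : ∀ k ∈ A, 32 * ρ ≤ |D.x k|) (at' : ι × ℕ → ι × ℕ)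
    (hat : RClus (Dat.pA A (M ^ 263)) (fun ν => (D.freq ν : ℂ)) at' (eA1 M) (eA0 M))
    (j : ℕ) (hj : j ≤ 3 * M ^ 8000) (l : List ℝ) (hl : l.length ≤ M ^ 265)
    (hl' : ∀ μ ∈ l, (M : ℝ) ^ 8540 ≤ |μ| * ρ) (E : ℝ) (hE0 : 0 ≤ E)
    (hE : ∀ α ∈ Dat.pA A (M ^ 263), at' α = α →
      D.NA M (Dat.pA A (M ^ 263)) at' D.cf α * |D.freq α| ^ j / (j.factorial : ℝ) ≤
        E * Real.exp (13 / 4 * ρ * |D.freq α|))
    (z : ℂ) (hz : ‖z‖ ≤ 4 * ρ) (V : ι → ℂ)
    (hV : ∀ k ∈ A, HasSum (fun n : ℕ => (D.coef (k, n + M ^ 263 + 1) : ℂ) *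
      (Lm l (D.freq (k, n + M ^ 263 + 1)) * ec (D.freq (k, n + M ^ 263 + 1)) j z)) (V k))
    (σ : ℝ) (hσ : |σ| = 1) :
    ‖∑ k ∈ A.filter (fun k => D.sg k = σ), V k‖ ≤
      m * (2 * E * Real.exp ((M : ℝ) ^ 6 + 1 - 7 / 10 * (M : ℝ) ^ 8001) * 2) := by
  obtain ⟨hat', hN⟩ := side_atoms hp D A ha at' hat σ
  set s := A.filter (fun k => D.sg k = σ) with hs
  have hsA : s ⊆ A := filter_subset _ _
  have hsσ : ∀ k ∈ s, D.sg k = σ := fun k hk => (mem_filter.1 hk).2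
  have hsm : s.card ≤ m := (card_le_card hsA).trans hA
  have has : ∀ k ∈ s, 0 < D.a k := fun k hk => ha k (hsA hk)
  obtain ⟨e0, e1, e2⟩ := tailA_eps hp
  obtain ⟨gr, hgr⟩ := exists_rclus s (fun k => (D.a k : ℂ))
    (fun k hk => by exact_mod_cast (has k hk).ne') (e1 := eG1 M) (e0 := eG0 M) hsm
    (inv_pos.2 (hp.pow_pos _)) (by
      have h1 := hp.inv_pow_le (c := 4) (by norm_num) (show 24001 < 24002 by norm_num)
      have h2 : (M : ℝ) * ((M : ℝ) ^ 24001)⁻¹ = ((M : ℝ) ^ 24000)⁻¹ := by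
        rw [pow_succ _ 24000, mul_inv, mul_comm, mul_assoc, inv_mul_cancel₀ hp.pos.ne', mul_one]
      have h3 := hp.mle
      have h4 := inv_pos.2 (hp.pow_pos 24002)
      unfold eG0 eG1
      rw [← h2]
      nlinarith only [e0, e1, h1, h3, h4, mul_le_mul_of_nonneg_left h1 hp.pos.le]) (by linarith only [e0, e1])
  have hnear : ∀ k ∈ s, D.a (gr k) * (1 - eG1 M) ≤ D.a k := fun k hk => by
    have h1 := hgr.near k hk
    have h2 := has _ (hgr.mem k hk)
    rw [← ofReal_sub, Complex.norm_real, Complex.norm_real, Real.norm_eq_abs,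
      Real.norm_of_nonneg h2.le, abs_le] at h1
    linarith only [h1, h1.1, mul_pos h2 e0]
  let nm : ι → ℕ := fun G => 60 * M ^ 262 + 2 * M ^ 17 * tailA_rank s D.a gr G
  let τ : ι → ℝ := fun G => max ((M : ℝ) ^ 7738) (32 * ρ * (D.a G * (1 - eG1 M)))
  have hnp : ∀ G, nm G + M ^ 17 ≤ 62 * M ^ 262 := fun G =>
    tailA_np hp ((tailA_rank_le _ _ _ _).trans hsm)
  have hbig := hp.mul_pow_leN (c := 6200) (by norm_num) (show 262 < 263 by norm_num)
  have hM1 : 0 < M ^ 262 := Nat.pow_pos hp.one_leN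
  have hnm0 : ∀ G, 60 * M ^ 262 ≤ nm G := fun G => Nat.le_add_right _ _
  have hj' : (j : ℝ) ≤ 3 * (M : ℝ) ^ 8000 := by exact_mod_cast hj
  have hf : (0 : ℝ) < j.factorial := by exact_mod_cast j.factorial_pos
  have key := isoA hp s hsm D.a D.T (fun k => ((-D.sg k * D.W k * D.a k : ℝ) : ℂ)) has at' hat' gr
    hgr s subset_rfl (fun k hk => ⟨fun _ => hgr.mem k hk, fun _ => hk⟩)
    (fun k hk hk' => absurd hk hk') nm τ j hj (-(7 / 2 * ρ)) (2 * E * j.factorial) (by positivity)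
    (fun G _ => by have := hnm0 G; omega)
    (fun k hk => max_le (hT k (hsA hk)) (by
      have h1 := hnear k hk
      have h2 := hx k (hsA hk)
      calc 32 * ρ * (D.a (gr k) * (1 - eG1 M)) ≤ 32 * ρ * D.a k := by gcongr
        _ ≤ |D.x k| * D.a k := mul_le_mul_of_nonneg_right h2 (has k hk).le
        _ = D.T k := mul_comm _ _))
    (fun G hG _ _ => by
      refine le_trans ?_ (le_max_left _ _)
      have h1 : 60 * (M : ℝ) ^ 262 ≤ nm G := by exact_mod_cast hnm0 G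
      have h0 := hp.pow_pos 262
      have h2 : (j : ℝ) / nm G ≤ (M : ℝ) ^ 7738 / 20 := by
        have e : (M : ℝ) ^ 8000 = (M : ℝ) ^ 262 * (M : ℝ) ^ 7738 := by rw [← pow_add]
        rw [div_le_iff₀ (by linarith only [h1, h0])]
        have := mul_le_mul_of_nonneg_right h1 (hp.pow_pos 7738).le
        rw [e] at hj'
        linarith only [hj', this]
      have h3 : |-(7 / 2 * ρ)| * D.a G / (M : ℝ) ^ 2 ≤ 7 / 2 * ρ * D.a G := by
        rw [abs_neg, abs_of_nonneg (by positivity)]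
        have := has G hG
        exact div_le_self (by positivity) (one_le_pow₀ hp.one_le)
      have h4 := hp.mul_pow_le (c := 100) (by norm_num) (show 0 < 7738 by norm_num)
      rw [pow_zero] at h4
      linarith only [e0, e1, h2, h3, h4])
    (fun G hG G' hG' _ h2 h3 => by
      have h4 := tailA_rank_lt hG' h2 h3
      have h5 : nm G' + M ^ 17 + M ^ 17 ≤ nm G := by
        have := Nat.mul_le_mul_left (2 * M ^ 17) (Nat.succ_le_of_lt h4)
        simp only [nm]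
        rw [Nat.mul_succ] at this
        omega
      have h6 : ((nm G' + M ^ 17 : ℕ) : ℝ) + (M : ℝ) ^ 17 ≤ nm G := by exact_mod_cast h5
      have h7 : ((nm G' + M ^ 17 : ℕ) : ℝ) ≤ (M : ℝ) ^ 300 := by
        have h8 := hnp G'
        have h9 := hp.pow_monoN (show 263 ≤ 300 by norm_num)
        exact_mod_cast (by omega : nm G' + M ^ 17 ≤ M ^ 300)
      have h8 : ((nm G' + M ^ 17 : ℕ) : ℝ) * ((M : ℝ) ^ 300)⁻¹ ≤ (M : ℝ) ^ 17 := by
        rw [← div_eq_mul_inv]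
        exact ((div_le_one (hp.pow_pos _)).2 h7).trans (one_le_pow₀ hp.one_le)
      have h9 := has G' hG'
      calc ((nm G' + M ^ 17 : ℕ) : ℝ) * D.a G' * (1 + ((M : ℝ) ^ 300)⁻¹)
          = (((nm G' + M ^ 17 : ℕ) : ℝ) + ((nm G' + M ^ 17 : ℕ) : ℝ) * ((M : ℝ) ^ 300)⁻¹) *
            D.a G' := by ring
        _ ≤ nm G * D.a G := mul_le_mul (by linarith only [h6, h8]) h3.le h9.le (Nat.cast_nonneg _))
    (fun G hG _ _ n hn1 _ α hα hαα hcl => by
      rw [(hN α hα hαα).1]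
      have hαA : α ∈ Dat.pA A (M ^ 263) := product_subset_product_left hsA hα
      have h1 := hE α hαA hαα
      have hα1 : α.1 ∈ s := (mem_product.1 hα).1
      have hfr : |D.freq α| = α.2 * D.a α.1 := by
        have := has _ hα1
        rw [Dat.freq, abs_mul, hsσ _ hα1, hσ, one_mul, abs_of_nonneg (by positivity)]
      rw [hfr, div_le_iff₀ hf] at h1
      have hn0 : (0 : ℝ) < n := by
        have := hnm0 G
        exact_mod_cast (by omega : 0 < n)
      have hy : 0 < n * D.a G := mul_pos hn0 (has G hG)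
      generalize (n : ℝ) * D.a G = y at hcl hy ⊢
      generalize (α.2 : ℝ) * D.a α.1 = φ at hcl h1
      have hNA : 0 ≤ D.NA M (Dat.pA A (M ^ 263)) at' D.cf α := Nm_nonneg
      generalize D.NA M (Dat.pA A (M ^ 263)) at' D.cf α = N at h1 hNA ⊢
      rw [abs_le] at hcl
      have h2 : y ^ j ≤ 2 * φ ^ j := by
        have h3 : 1 + (j : ℝ) * (-eG1 M) ≤ (1 + -eG1 M) ^ j := one_add_mul_le_pow (by linarith only [e0, e1]) j
        have h4 : (j : ℝ) * eG1 M ≤ 1 / 2 := (mul_le_mul_of_nonneg_right hj' e0.le).trans e2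
        have h5 : (y * (1 + -eG1 M)) ^ j ≤ φ ^ j :=
          pow_le_pow_left₀ (mul_nonneg hy.le (by linarith only [e0, e1])) (by linarith only [hcl, hcl.1]) j
        rw [mul_pow] at h5
        nlinarith only [e0, e1, hy, h3, h4, h5, pow_pos hy j]
      have h6 : Real.exp (13 / 4 * ρ * φ) ≤ Real.exp (-(-(7 / 2 * ρ) * y)) := by
        refine Real.exp_le_exp.2 ?_
        have h7 : φ ≤ 101 / 100 * y := by nlinarith only [e1, hy, hcl, hcl.2]
        linarith only [hρ, hy, h7, mul_le_mul_of_nonneg_left h7 hρ, mul_nonneg hρ hy.le]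
      rw [mul_right_comm, ← div_eq_mul_inv, le_div_iff₀ (pow_pos hy j)]
      calc N * y ^ j ≤ N * (2 * φ ^ j) := mul_le_mul_of_nonneg_left h2 hNA
        _ = 2 * (N * φ ^ j) := by ring
        _ ≤ 2 * (E * Real.exp (-(-(7 / 2 * ρ) * y)) * j.factorial) := by
            refine mul_le_mul_of_nonneg_left (h1.trans ?_) (by norm_num)
            gcongr
        _ = _ := by ring)
  classical
  have hsum : ∑ k ∈ s, V k = ∑ G ∈ s.filter (fun G => gr G = G), ∑ k ∈ cls s gr G, V k := by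
    rw [← sum_fiberwise_of_maps_to (s := s) (t := s.filter (fun G => gr G = G)) (g := gr)
      (fun k hk => mem_filter.2 ⟨hgr.mem k hk, hgr.idem k hk⟩)]
    refine sum_congr rfl fun G _ => sum_congr ?_ fun _ _ => rfl
    ext k
    simp [cls]
  rw [hsum]
  refine (norm_sum_le_of_le _ (n := fun _ =>
    2 * E * Real.exp ((M : ℝ) ^ 6 + 1 - 7 / 10 * (M : ℝ) ^ 8001) * 2) fun G hG => ?_).trans ?_
  · obtain ⟨hG, hGG⟩ := mem_filter.1 hG
    have hcls : ∀ k ∈ cls s gr G, k ∈ s ∧ gr k = G := fun k hk => by simpa [cls] using hk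
    refine (hasSum_sum fun k hk => hV k (hsA (hcls k hk).1)).norm_le_of_bounded
      (hasSum_geometric_two.mul_left _) fun n => ?_
    have h1 := hnp G
    have haG := has G hG
    have h2 := tailA_term hp (C := cls s gr G) (φ := fun k => D.freq (k, n + M ^ 263 + 1))
      (c := σ * ((n + M ^ 263 + 1 : ℕ) * D.a G)) (n := n + M ^ 263 + 1) (np := nm G + M ^ 17)
      (τ := τ G) haG (by rw [abs_mul, hσ, one_mul, abs_of_nonneg (mul_nonneg (Nat.cast_nonneg _) haG.le)])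
      (fun k hk => ?_) hρ j hj l hl hl' z hz hE0 (by have := hnm0 G; omega) (by omega)
      (le_max_left _ _) (le_trans (by nlinarith only [hρ, e0, e1, haG, mul_nonneg haG.le hρ]) (le_max_right _ _))
      (key G hG hGG (by omega) (n + M ^ 263 + 1) (by omega))
    · refine le_trans (le_of_eq ?_) (h2.trans ?_)
      · congr 1
        refine sum_congr rfl fun k _ => ?_
        rw [mul_comm, Dat.coef, ofReal_mul]
      · rw [mul_assoc (2 * E)]
        refine mul_le_mul_of_nonneg_left ?_ (by positivity)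
        have h3 : Real.exp (-(n : ℝ)) ≤ (1 / 2) ^ n := by
          rw [← neg_one_mul, mul_comm, Real.exp_nat_mul]
          refine pow_le_pow_left₀ (Real.exp_pos _).le ?_ n
          rw [Real.exp_neg, one_div]
          exact inv_anti₀ two_pos (by linarith only [Real.add_one_le_exp 1])
        refine le_trans ?_ (mul_le_mul_of_nonneg_left h3 (Real.exp_pos _).le)
        rw [← Real.exp_add]
        refine Real.exp_le_exp.2 ?_
        have h4 : (M : ℝ) ^ 7738 ≤ τ G := le_max_left _ _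
        have h5 := hp.mul_pow_le (c := 100) (by norm_num) (show 0 < 7738 by norm_num)
        have e : (M : ℝ) ^ 8001 = (M : ℝ) ^ 263 * (M : ℝ) ^ 7738 := by rw [← pow_add]
        rw [pow_zero] at h5
        have h6 := hp.pow_pos 263
        rw [e, Nat.cast_add, Nat.cast_add, Nat.cast_pow, Nat.cast_one]
        have h7 : (0 : ℝ) ≤ n := Nat.cast_nonneg n
        generalize (M : ℝ) ^ 263 = P at h6 ⊢
        generalize (M : ℝ) ^ 7738 = X at h4 h5 ⊢
        generalize (M : ℝ) ^ 6 = Y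
        nlinarith only [e0, e1, h7, h6, h4, h5, mul_le_mul_of_nonneg_left h4 h6.le, mul_le_mul_of_nonneg_left h4 h7]
    · obtain ⟨hk1, hk2⟩ := hcls k hk
      have h3 : (D.a G : ℂ) ≠ 0 := by exact_mod_cast haG.ne'
      have h4 : ((eG1 M : ℝ) : ℂ) ≠ 0 := by exact_mod_cast e0.ne'
      rw [Dat.freq, hsσ k hk1, rv, hk2]
      generalize n + M ^ 263 + 1 = n'
      push_cast
      field_simp
      ring
  · rw [sum_const, nsmul_eq_mul]
    refine mul_le_mul_of_nonneg_right ?_ (by positivity)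
    exact_mod_cast (card_filter_le _ _).trans hsm

/-- Treat each side `σ = ±1` separately (`side_atoms`).  Groups from `exists_rclus`; apply `isoA`
with `slow = s`, `nm G = 60 M^262 + 2 M^17 rank(G)` (`rank G` = number of representatives with
smaller `a`), `θ = -7ρ/2`, `B0 = 2 E j!`, `τ G = max (M^7738) (32 ρ a G (1 - eG1))`.  On the
class of `G` the function `Lm l μ * ec μ j z` at `μ = σ n a k` is a multiplier of norm
`≤ (n a)^j (1+eG1)^j exp (4 ρ n a (1+eG1)) (1 + 2 n a ρ / M^8540)^{|l|} / j!`; for `n > M^263` the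
product is `≤ 4 E exp (M^6 - 0.7 n τ G)` (use `log (n/n⁺) ≤ n/n⁺`).  Sum over `n` and `G`.
`Lop l (tailA)` is computed termwise by `LL_finsum`, `LL_hasSum`, `LL_ec`. -/
theorem tailA_le (hp : Par m M) (D : Dat ι) (A : Finset ι) (hA : A.card ≤ m)
    (ha : ∀ k ∈ A, 0 < D.a k) (ρ : ℝ) (hρ : 0 ≤ ρ) (hT : ∀ k ∈ A, (M : ℝ) ^ 7738 ≤ D.T k)
    (hx : ∀ k ∈ A, 32 * ρ ≤ |D.x k|) (at' : ι × ℕ → ι × ℕ)
    (hat : RClus (Dat.pA A (M ^ 263)) (fun ν => (D.freq ν : ℂ)) at' (eA1 M) (eA0 M))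
    (j : ℕ) (hj : j ≤ 3 * M ^ 8000) (l : List ℝ) (hl : l.length ≤ M ^ 265)
    (hl' : ∀ μ ∈ l, (M : ℝ) ^ 8540 ≤ |μ| * ρ) (E : ℝ) (hE0 : 0 ≤ E)
    (hE : ∀ α ∈ Dat.pA A (M ^ 263), at' α = α →
      D.NA M (Dat.pA A (M ^ 263)) at' D.cf α * |D.freq α| ^ j / (j.factorial : ℝ) ≤
        E * Real.exp (13 / 4 * ρ * |D.freq α|))
    (z : ℂ) (hz : ‖z‖ ≤ 4 * ρ) :
    ‖Lop l (D.tailA A (M ^ 263)) j z‖ ≤ Real.exp (-((M : ℝ) ^ 8001 / 4)) * E := by
  have hz' : ∀ k ∈ A, |z.re| < |D.x k| := fun k hk => by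
    have h1 := hx k hk
    have h2 : 0 < D.a k * |D.x k| := (hp.pow_pos 7738).trans_le (hT k hk)
    have h3 : 0 < |D.x k| := (pos_iff_pos_of_mul_pos h2).1 (ha k hk)
    linarith only [hz, h1, h3, abs_re_le_norm z]
  let V : ι → ℂ := fun k => LL l (fun i => ∑' n : ℕ, (D.coef (k, n + M ^ 263 + 1) : ℂ) *
    ec (D.freq (k, n + M ^ 263 + 1)) i z) j
  have hV : ∀ k ∈ A, HasSum (fun n : ℕ => (D.coef (k, n + M ^ 263 + 1) : ℂ) *
      (Lm l (D.freq (k, n + M ^ 263 + 1)) * ec (D.freq (k, n + M ^ 263 + 1)) j z)) (V k) := by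
    intro k hk
    have h1 := LL_hasSum l (fun (n : ℕ) i => (D.coef (k, n + M ^ 263 + 1) : ℂ) *
      ec (D.freq (k, n + M ^ 263 + 1)) i z) _ j
      fun i _ => (D.hasSum_tailA (ha k hk) (M ^ 263) i (hz' k hk)).hasSum
    simpa only [LL_smul, LL_ec] using h1
  have hL : Lop l (D.tailA A (M ^ 263)) j z = ∑ k ∈ A, V k := LL_finsum l A _ j
  have hsplit : ∑ k ∈ A, V k = ∑ k ∈ A.filter (fun k => D.sg k = 1), V k +
      ∑ k ∈ A.filter (fun k => D.sg k = -1), V k := by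
    rw [← sum_filter_add_sum_filter_not A (fun k => D.sg k = 1)]
    congr 1
    refine sum_congr (filter_congr fun k _ => ?_) fun _ _ => rfl
    unfold Dat.sg
    split_ifs <;> norm_num
  have h1 := tailA_side hp D A hA ha ρ hρ hT hx at' hat j hj l hl hl' E hE0 hE z hz V hV 1 abs_one
  have h2 := tailA_side hp D A hA ha ρ hρ hT hx at' hat j hj l hl hl' E hE0 hE z hz V hV (-1)
    (by rw [abs_neg, abs_one])
  rw [hL, hsplit]
  refine (norm_add_le _ _).trans ((add_le_add h1 h2).trans ?_)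
  have h3 : 8 * (m : ℝ) ≤ Real.exp M := by
    have h4 := hp.pow_le_exp (k := 2) (by norm_num)
    have h5 := hp.mul_pow_le (c := 4) (by norm_num) (show 1 < 2 by norm_num)
    have h6 := hp.mle
    rw [pow_one] at h5
    linarith only [h4, h5, h6]
  have h4 : Real.exp M * Real.exp ((M : ℝ) ^ 6 + 1 - 7 / 10 * (M : ℝ) ^ 8001) ≤
      Real.exp (-((M : ℝ) ^ 8001 / 4)) := by
    rw [← Real.exp_add]
    refine Real.exp_le_exp.2 ?_
    have h5 := hp.mul_pow_le (c := 10) (by norm_num) (show 6 < 8001 by norm_num)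
    have h6 := hp.mul_pow_le (c := 10) (by norm_num) (show 1 < 8001 by norm_num)
    have h7 := hp.mul_pow_le (c := 10) (by norm_num) (show 0 < 8001 by norm_num)
    rw [pow_one] at h6
    rw [pow_zero] at h7
    linarith only [h5, h6, h7]
  have h5 := Real.exp_pos ((M : ℝ) ^ 6 + 1 - 7 / 10 * (M : ℝ) ^ 8001)
  generalize Real.exp ((M : ℝ) ^ 6 + 1 - 7 / 10 * (M : ℝ) ^ 8001) = x at h4 h5 ⊢
  calc _ = 8 * (m : ℝ) * x * E := by ring
    _ ≤ Real.exp M * x * E := by gcongr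
    _ ≤ _ := mul_le_mul_of_nonneg_right h4 hE0

end Pool.Agent.Work.MP_97f157_lc.Tau
end
end

-- merged part: Pool.Agent.Work.MP_97f157_lc.TauApxHAux
section
/-! Auxiliary lemmas for the expansion of classes of close frequencies. -/

noncomputable section
open Complex Finset

namespace Pool.Agent.Work.MP_97f157_lc.Tau

variable {κ : Type*} {m M : ℕ}

theorem apxH_tail (s : Finset κ) {n : ℕ} (hs : s.card ≤ n + 1) (g v : κ → ℂ) {G B : ℝ}
    (hG : 4 ≤ G) (hv : ∀ k ∈ s, ‖v k‖ * G ≤ 1) (hB0 : 0 ≤ B)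
    (hB : ∀ i < n + 1, ‖(∑ k ∈ s, g k * v k ^ i) / (i.factorial : ℂ)‖ ≤ B) :
    ‖∑ k ∈ s, g k * exp (v k) -
      ∑ i ∈ range (n + 1), (∑ k ∈ s, g k * v k ^ i) / (i.factorial : ℂ)‖ ≤ 4 * 3 ^ (n + 1) / G * B := by
  have G0 : 0 < G := by linarith only [hG]
  set H : ℝ := G / 2 with hH
  have H2 : 2 ≤ H := by linarith only [hG, hH]
  have H0 : 0 < H := by linarith only [hG, hH]
  have e : ∀ i, ‖∑ k ∈ s, g k * (v k * (H : ℂ)) ^ i‖ = H ^ i * ‖∑ k ∈ s, g k * v k ^ i‖ := by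
    intro i
    rw [show ∑ k ∈ s, g k * (v k * (H : ℂ)) ^ i = (H : ℂ) ^ i * ∑ k ∈ s, g k * v k ^ i by
      rw [mul_sum]; exact sum_congr rfl fun k _ => by ring, norm_mul, norm_pow, norm_real,
      Real.norm_of_nonneg H0.le]
  have h1 := reduce_one (s := s) (g := g) (u := fun k => v k * (H : ℂ))
    (B := H ^ n * ((n + 1).factorial * B)) hs (fun k hk => by
      have := hv k hk
      rw [norm_mul, norm_real, Real.norm_of_nonneg H0.le, hH]
      linarith only [this]) (by positivity) fun i hi => by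
      have h2 := hB i hi
      rw [norm_div, Complex.norm_natCast, div_le_iff₀ (by positivity)] at h2
      rw [e]
      have h3 : (i.factorial : ℝ) ≤ (n + 1).factorial := by
        exact_mod_cast Nat.factorial_le hi.le
      have h4 : H ^ i ≤ H ^ n := pow_le_pow_right₀ (by linarith only [hG, hH]) (by omega)
      exact mul_le_mul h4 (h2.trans (by rw [mul_comm]; gcongr)) (norm_nonneg _) (by positivity)
  have h2 : HasSum (fun i : ℕ => (∑ k ∈ s, g k * v k ^ i) / (i.factorial : ℂ))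
      (∑ k ∈ s, g k * exp (v k)) := by
    simp only [sum_div, mul_div_assoc]
    exact hasSum_sum fun k _ => (Nrm_hasSum_C (v k)).mul_left _
  have h3 := (hasSum_nat_add_iff' (n + 1)).2 h2
  have q0 : 0 ≤ H⁻¹ := by positivity
  have q1 : H⁻¹ ≤ 1 / 2 := by rw [one_div]; exact inv_anti₀ (by norm_num) H2
  have h4 := (hasSum_geometric_of_lt_one q0 (by linarith only [q1])).mul_left (3 ^ (n + 1) * H⁻¹ * B)
  refine (h3.norm_le_of_bounded h4 fun i => ?_).trans ?_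
  · have h5 := h1 (i + (n + 1))
    rw [e] at h5
    have h6 : ((n + 1).factorial : ℝ) ≤ (i + (n + 1)).factorial := by
      exact_mod_cast Nat.factorial_le (by omega)
    rw [norm_div, Complex.norm_natCast, div_le_iff₀ (by positivity)]
    have h7 : 0 < H ^ (i + (n + 1)) := by positivity
    refine le_of_mul_le_mul_left (h5.trans ?_) h7
    have h8 : H ^ (i + (n + 1)) * (3 ^ (n + 1) * H⁻¹ * B * H⁻¹ ^ i * (i + (n + 1)).factorial) =
        3 ^ (n + 1) * (H ^ n * ((i + (n + 1)).factorial * B)) := by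
      rw [inv_pow]
      field_simp
      ring
    rw [h8]
    gcongr
  · have h5 : (1 - H⁻¹)⁻¹ ≤ 2 := by
      rw [inv_le_comm₀ (by linarith only [q1]) (by norm_num)]
      linarith only [q1]
    calc _ ≤ 3 ^ (n + 1) * H⁻¹ * B * 2 := by gcongr
      _ = _ := by rw [hH]; field_simp; ring

theorem apxH_nb (s : Finset κ) {n : ℕ} (hs : s.card ≤ n) (g v : κ → ℂ) {B : ℝ}
    (hv : ∀ k ∈ s, ‖v k‖ ≤ 1 / 2) (hB0 : 0 ≤ B)
    (hB : ∀ i < n, ‖(∑ k ∈ s, g k * v k ^ i) / (i.factorial : ℂ)‖ ≤ B) :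
    NB s v (fun _ => 0) (fun k => g k * exp (v k)) (Real.exp 1 * (3 ^ n * (n ^ n * B))) := by
  have h1 := NB.of_one (reduce_one (s := s) (g := g) (u := v) (B := n ^ n * B) hs hv
    (by positivity) fun i hi => by
      have h2 := hB i hi
      rw [norm_div, Complex.norm_natCast, div_le_iff₀ (by positivity)] at h2
      have h3 : (i.factorial : ℝ) ≤ (n : ℝ) ^ n := by
        exact_mod_cast (Nat.factorial_le hi.le).trans (Nat.factorial_le_pow n)
      exact h2.trans (by rw [mul_comm]; gcongr))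
  exact ((Mu.fst.exp zero_le_one) _ _ h1).congr (fun _ _ => rfl) (fun _ _ => rfl)
    fun k _ => mul_comm _ _

theorem apxH_three (n : ℕ) : (3 : ℝ) ^ n ≤ Real.exp (2 * n) := by
  rw [mul_comm, Real.exp_nat_mul]
  exact pow_le_pow_left₀ (by norm_num) (by linarith [Real.add_one_le_exp (2 : ℝ)]) n

theorem apxH_num1 (hp : Par m M) :
    4 * 3 ^ (M ^ 264) / Real.exp ((M : ℝ) ^ 16001) ≤ Real.exp (-(M : ℝ) ^ 16000) := by
  have h1 := apxH_three (M ^ 264)
  have h2 : (4 : ℝ) ≤ Real.exp 3 := by linarith [Real.add_one_le_exp (3 : ℝ)]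
  rw [div_le_iff₀ (Real.exp_pos _), ← Real.exp_add]
  refine (mul_le_mul h2 h1 (by positivity) (by positivity)).trans ?_
  rw [← Real.exp_add, Nat.cast_pow]
  refine Real.exp_le_exp.2 ?_
  have h3 := hp.mul_pow_le (c := 6) (by norm_num) (show 16000 < 16001 by norm_num)
  have h4 := hp.pow_mono (show 264 ≤ 16000 by norm_num)
  have h5 : (1 : ℝ) ≤ (M : ℝ) ^ 16000 := one_le_pow₀ hp.one_le
  linarith only [h3, h4, h5]

theorem apxH_num2 (hp : Par m M) :
    Real.exp 1 * (3 ^ (M ^ 264) * ((M ^ 264 : ℕ) : ℝ) ^ (M ^ 264)) ≤ Real.exp ((M : ℝ) ^ 265) := by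
  have h1 := apxH_three (M ^ 264)
  have h2 : ((M ^ 264 : ℕ) : ℝ) ≤ Real.exp (M / 2) := by
    refine le_of_pow_le_pow_left₀ (n := 2) (by norm_num) (Real.exp_pos _).le ?_
    rw [← Real.exp_nat_mul, Nat.cast_pow, ← pow_mul, show ((2 : ℕ) : ℝ) * (M / 2) = M by
      push_cast; ring]
    exact hp.pow_le_exp (by norm_num)
  have h3 : ((M ^ 264 : ℕ) : ℝ) ^ (M ^ 264) ≤ Real.exp ((M ^ 264 : ℕ) * (M / 2)) := by
    rw [Real.exp_nat_mul]
    exact pow_le_pow_left₀ (Nat.cast_nonneg _) h2 _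
  refine (mul_le_mul_of_nonneg_left (mul_le_mul h1 h3 (by positivity) (by positivity))
    (Real.exp_pos _).le).trans ?_
  rw [← Real.exp_add, ← Real.exp_add, Nat.cast_pow]
  refine Real.exp_le_exp.2 ?_
  have h4 := hp.mul_pow_le (c := 6) (by norm_num) (show 264 < 265 by norm_num)
  have h5 : (1 : ℝ) ≤ (M : ℝ) ^ 264 := one_le_pow₀ hp.one_le
  rw [pow_succ] at h4 ⊢
  linarith only [h4, h5]

theorem apxH_pow_le (hp : Par m M) {k : ℕ} (hk : k ≤ 100000) :
    (M : ℝ) ^ k ≤ Real.exp ((M : ℝ) ^ 16001) := by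
  refine (hp.pow_le_exp hk).trans (Real.exp_le_exp.2 ?_)
  have := hp.pow_mono (show 1 ≤ 16001 by norm_num)
  rwa [pow_one] at this

theorem apxH_mul_le (hp : Par m M) {c : ℝ} (hc : c ≤ 10 ^ 12) {k : ℕ} (hk : k < 100000) :
    c * (M : ℝ) ^ k ≤ Real.exp ((M : ℝ) ^ 16001) :=
  (hp.mul_pow_le hc (Nat.lt_succ_self k)).trans (apxH_pow_le hp hk)

/-- centres of the classes of close frequencies -/
theorem apxH_phi (P : Finset κ) (μ : κ → ℝ) {n : ℕ} (hn : P.card ≤ n) {G t1 t2 : ℝ}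
    (ht1 : 0 < t1) (ht : t1 ≤ t2) (hG0 : 1 < G) (hG : (n : ℝ) ≤ G)
    (h0 : ∀ k ∈ P, G ≤ |μ k| * t1)
    (hd : ∀ k ∈ P, ∀ k' ∈ P, |μ k - μ k'| * t2 * G ≤ 1 ∨ G ≤ |μ k - μ k'| * t1) :
    ∃ φ : κ → ℝ, (∀ k ∈ P, |μ k - φ k| * t2 * G ≤ 1) ∧ (∀ k ∈ P, G ≤ |φ k| * t1) ∧
      ∀ k ∈ P, ∀ k' ∈ P, φ k = φ k' ∨ G ≤ |φ k - φ k'| * t1 := by
  have t0 : 0 < t2 := ht1.trans_le ht
  have G0 : 0 < G := by linarith only [hG0]
  obtain ⟨rep, h⟩ := exists_aclus P μ (e0 := (t2 * G)⁻¹) hn (by positivity) le_rfl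
  refine ⟨fun k => μ (rep k), fun k hk => ?_, fun k hk => h0 _ (h.mem k hk), fun k hk k' hk' => ?_⟩
  · refine (hd k hk _ (h.mem k hk)).resolve_right fun c => ?_
    have h1 := h.near k hk
    rw [← div_eq_mul_inv, le_div_iff₀ (by positivity)] at h1
    have h2 := mul_le_mul_of_nonneg_left ht (abs_nonneg (μ k - μ (rep k)))
    linarith only [hG0, hG, c, h1, h2, hG0, hG, c, h1, h2, mul_pos_of_neg_of_neg (Mathlib.Tactic.Linarith.sub_neg_of_lt hG0) (Mathlib.Tactic.Linarith.sub_neg_of_lt hG0), mul_nonneg_of_nonpos_of_nonpos (le_of_lt (Mathlib.Tactic.Linarith.sub_neg_of_lt hG0)) (Mathlib.Tactic.Linarith.sub_nonpos_of_le c), mul_nonneg_of_nonpos_of_nonpos (le_of_lt (Mathlib.Tactic.Linarith.sub_neg_of_lt hG0)) (Mathlib.Tactic.Linarith.sub_nonpos_of_le h2)]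
  · by_cases c : rep k = rep k'
    · exact Or.inl (by simp only [c])
    · refine Or.inr ((hd _ (h.mem k hk) _ (h.mem k' hk')).resolve_left fun c' => ?_)
      have h1 := h.sep _ (h.mem k hk) _ (h.mem k' hk') (by rwa [h.idem k hk, h.idem k' hk'])
      rw [inv_lt_iff_one_lt_mul₀ (by positivity)] at h1
      linarith only [c', h1]

/-- the moment bound on the classes gives a moment bound on the atoms -/
theorem apxH_atom (P : Finset κ) (μ φ : κ → ℝ) (g : κ → ℂ) {G t e1 e0 B : ℝ} (ht : 0 < t)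
    (he1 : 0 < e1) (he0 : 0 < e0) (hG : 2 ≤ G) (hG1 : 4 ≤ G * e1) (hG0 : 1 ≤ G * e0)
    (h0 : ∀ k ∈ P, G ≤ |μ k| * t) (hφ : ∀ k ∈ P, |μ k - φ k| * t * G ≤ 1) (hB : 0 ≤ B)
    (hN : ∀ k ∈ P, NB (P.filter fun k' => φ k' = φ k) (fun ν => (((μ ν - φ k) * t : ℝ) : ℂ))
      (fun _ => 0) g B)
    {at' : κ → κ} (hat : RClus P (fun ν => (μ ν : ℂ)) at' e1 e0) {α : κ} (hα : α ∈ P) :
    NB (cls P at' α) (rv (fun ν => (μ ν : ℂ)) at' e1) (fun _ => 0) g (P.card * B) := by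
  have G0 : 0 < G := by linarith only [hG]
  have hne : ∀ k ∈ P, μ k ≠ 0 := fun k hk c => by
    have := h0 k hk
    rw [c, abs_zero, zero_mul] at this
    linarith
  have hsame : ∀ k ∈ P, ∀ ν ∈ P, φ ν = φ k → at' ν = at' k := fun k hk ν hν c => by
    by_contra c'
    have h1 := hat.sep ν hν k hk c'
    rw [← ofReal_sub, norm_real, norm_real, norm_real, Real.norm_eq_abs, Real.norm_eq_abs,
      Real.norm_eq_abs] at h1
    have h2 : G ≤ min |μ ν| |μ k| * t := by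
      rcases min_choice |μ ν| |μ k| with h | h <;> rw [h]
      exacts [h0 ν hν, h0 k hk]
    have h3 := abs_sub_le (μ ν) (φ k) (μ k)
    have h4 := hφ ν hν
    have h5 := hφ k hk
    rw [c] at h4
    rw [abs_sub_comm (φ k)] at h3
    have h6 : |μ ν - μ k| * t * G ≤ 2 := by
      have := mul_le_mul_of_nonneg_right h3 (mul_pos ht G0).le
      linarith only [h4, h5, this]
    have h7 := mul_lt_mul_of_pos_right h1 (mul_pos ht G0)
    have h8 := mul_le_mul_of_nonneg_right h2 (mul_pos G0 he0).le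
    linarith only [hG, hG0, h6, h7, h8, hG, hG0, h6, h7, h8, mul_nonneg_of_nonpos_of_nonpos (Mathlib.Tactic.Linarith.sub_nonpos_of_le hG) (Mathlib.Tactic.Linarith.sub_nonpos_of_le hG0)]
  have hc : ((cls P at' α).card : ℝ) ≤ P.card := by
    exact_mod_cast card_le_card fun k hk => (mem_cls.1 hk).1
  refine (Kill_fib φ hB fun k hk => ?_).mono (mul_le_mul_of_nonneg_right hc hB)
  obtain ⟨hkP, hkα⟩ := mem_cls.1 hk
  have hset : (cls P at' α).filter (fun k' => φ k' = φ k) = P.filter fun k' => φ k' = φ k := by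
    ext ν
    simp only [mem_filter, mem_cls]
    exact ⟨fun h => ⟨h.1.1, h.2⟩, fun h => ⟨⟨h.1, (hsame k hkP ν h.1 h.2).trans hkα⟩, h.2⟩⟩
  rw [hset]
  have hμα := hne α hα
  set c : ℂ := (((t * μ α * e1)⁻¹ : ℝ) : ℂ) with hc'
  have hcn : ‖c‖ ≤ 1 / 4 := by
    rw [hc', norm_real, Real.norm_eq_abs, abs_inv, abs_mul, abs_mul, abs_of_pos ht, abs_of_pos he1,
      one_div]
    refine inv_anti₀ (by norm_num) (hG1.trans ?_)
    rw [mul_comm t]
    exact mul_le_mul_of_nonneg_right (h0 α hα) he1.le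
  have hrk := hat.rv_le he1 (fun ν hν => by exact_mod_cast hne ν hν) k hkP
  have hvk : ‖(((μ k - φ k) * t : ℝ) : ℂ)‖ ≤ 1 := by
    rw [norm_real, Real.norm_eq_abs, abs_mul, abs_of_pos ht]
    have h1 := hφ k hkP
    have h2 : 0 ≤ |μ k - φ k| * t := by positivity
    nlinarith only [hG, h1, h2]
  refine (hN k hkP).recenter_le ((((Mu.fst.smul c).add (Mu.const
    (rv (fun ν => (μ ν : ℂ)) at' e1 k - c * (((μ k - φ k) * t : ℝ) : ℂ)))).mono ?_).congr
      fun ν hν => ?_) Mu.snd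
  · have h1 := norm_sub_le (rv (fun ν => (μ ν : ℂ)) at' e1 k) (c * (((μ k - φ k) * t : ℝ) : ℂ))
    rw [norm_mul] at h1
    have h2 := mul_le_mul hcn hvk (norm_nonneg _) (by norm_num)
    linarith only [hcn, hrk, h1, h2]
  · obtain ⟨h1, h2⟩ := mem_filter.1 hν
    have h3 := (hsame k hkP ν h1 h2).trans hkα
    have a1 : (μ α : ℂ) ≠ 0 := by exact_mod_cast hμα
    have a2 : (t : ℂ) ≠ 0 := by exact_mod_cast ht.ne'
    have a3 : (e1 : ℂ) ≠ 0 := by exact_mod_cast he1.ne'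
    simp only [rv, h3, hkα, hc']
    push_cast
    field_simp
    ring

end Pool.Agent.Work.MP_97f157_lc.Tau
end
end
end
end
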