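import Pool.Agent.Work.MP_97f157_lc.TauIsoBAux
import Pool.Agent.Work.MP_97f157_lc.TauApxHAux

-- merged part: Pool.Agent.Work.MP_97f157_lc.TauCP
section
/-! Bounds for the pole amplitudes of one cluster of the band. -/

noncomputable section
open Complex Finset Metric

namespace Pool.Agent.Work.MP_97f157_lc.Tau

variable {ι : Type*} {m M : ℕ}

theorem cp_exp_le {y : ℝ} (hy : y ≤ 1 / 2) : Real.exp (-(y + 2 * y ^ 2)) ≤ 1 - y := by
  have h1 := Real.add_one_le_exp (y + 2 * y ^ 2)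
  have h2 : 0 < 1 - y := by linarith only [hy]
  rw [Real.exp_neg, inv_le_iff_one_le_mul₀ (Real.exp_pos _)]
  have h3 := mul_le_mul_of_nonneg_left h1 h2.le
  linarith only [h3, hy, mul_nonneg (sq_nonneg y) (show 0 ≤ 1 - 2 * y by linarith)]

theorem cp_inv_pow {y : ℝ} (hy : y ≤ 1 / 2) (n : ℕ) :
    (1 - y)⁻¹ ^ n ≤ Real.exp (n * y + 2 * (n * y ^ 2)) := by
  have h1 : (1 - y)⁻¹ ≤ Real.exp (y + 2 * y ^ 2) := by
    have := inv_anti₀ (Real.exp_pos _) (cp_exp_le hy)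
    rwa [Real.exp_neg, inv_inv] at this
  have h2 : 0 ≤ (1 - y)⁻¹ := inv_nonneg.2 (by linarith only [hy])
  refine (pow_le_pow_left₀ h2 h1 n).trans (le_of_eq ?_)
  rw [← Real.exp_nat_mul]
  congr 1
  ring

theorem cp_small (hp : Par m M) {c : ℝ} (hc : c ≤ 10 ^ 12) {i k : ℕ} (hik : i < k) :
    c * (M : ℝ) ^ i * ((M : ℝ) ^ k)⁻¹ ≤ 1 := by
  rw [← div_eq_mul_inv, div_le_one (hp.pow_pos k)]
  exact hp.mul_pow_le hc hik

theorem cp_inv_small (hp : Par m M) {k : ℕ} (hk : 0 < k) : 1000 * ((M : ℝ) ^ k)⁻¹ ≤ 1 := by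
  have := cp_small hp (c := 1000) (by norm_num) hk
  rwa [pow_zero, mul_one] at this

theorem cp_eps (hp : Par m M) : 0 < eC1 M ∧ eC1 M ≤ 1 / 1000 := by
  have h1 := cp_inv_small hp (k := 16000) (by norm_num)
  refine ⟨inv_pos.2 (hp.pow_pos _), ?_⟩
  unfold eC1
  linarith only [h1]

/-- `n y² ≤ 1/8` -/
theorem cp_sq (hp : Par m M) {n y : ℝ} (hn : n ≤ 5 * (M : ℝ) ^ 8000)
    (hy : |y| ≤ 4 * ((M : ℝ) ^ 7989)⁻¹) : n * y ^ 2 ≤ 1 / 8 := by
  have h1 : y ^ 2 ≤ (4 * ((M : ℝ) ^ 7989)⁻¹) ^ 2 := by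
    rw [← sq_abs]
    exact pow_le_pow_left₀ (abs_nonneg _) hy 2
  have h2 : (4 * ((M : ℝ) ^ 7989)⁻¹) ^ 2 = 16 * ((M : ℝ) ^ (7989 * 2))⁻¹ := by
    rw [mul_pow, inv_pow, ← pow_mul]
    norm_num only
  have h3 := cp_small hp (c := 640) (by norm_num) (show 8000 < 7989 * 2 by norm_num)
  have h4 := hp.pow_pos 8000
  rw [h2] at h1
  have h5 := mul_le_mul hn h1 (sq_nonneg y) (by positivity)
  generalize (M : ℝ) ^ 8000 = A at *
  generalize ((M : ℝ) ^ (7989 * 2))⁻¹ = B at *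
  linarith only [h3, h5]

namespace CDat
variable (C : CDat ι m M)

theorem pB_split {S : Finset ι} (hS : C.Sat S) (η : ℝ) (j : ℕ) (κ : ℝ) (lam : ℂ)
    [DecidablePred fun r => C.cl r = r] :
    C.pB S η j κ lam = ∑ r ∈ S.filter (fun r => C.cl r = r), C.pB (cls C.D.s C.cl r) η j κ lam :=
  sum_cls C.clus.mem C.clus.idem hS.1 hS.2 _

/-- the pole amplitude is a normalised pole term with real index `τ / η` -/
theorem pB_eq (S : Finset ι) (η : ℝ) (hη : η ≠ 0) (j : ℕ) (Dd τ : ℝ) (hD : Dd ≠ 0) :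
    C.pB S η j (τ / Dd) ((Dd⁻¹ : ℝ) : ℂ) = (Dd : ℂ) ^ (j + 1) *
      ∑ k ∈ S, (C.D.W k : ℂ) * pc (C.D.x k + I * ((τ / η * sp (C.D.a k) : ℝ) : ℂ)) j (zp C.d Dd τ) := by
  have h1 : (Dd : ℂ) ≠ 0 := by exact_mod_cast hD
  have h2 : (η : ℂ) ≠ 0 := by exact_mod_cast hη
  rw [pB, mul_sum]
  refine sum_congr rfl fun k _ => ?_
  have e : zp C.d Dd τ - (C.D.x k + I * ((τ / η * sp (C.D.a k) : ℝ) : ℂ)) =
      (Dd : ℂ) * (1 - ((C.D.x k + C.d : ℝ) : ℂ) * ((Dd⁻¹ : ℝ) : ℂ) +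
        I * ((τ / Dd * (1 - sp (C.D.a k) / η) : ℝ) : ℂ)) := by
    rw [zp]
    push_cast
    field_simp
    ring
  rw [pc, e, mul_inv, mul_pow, mul_left_comm, ← mul_assoc ((Dd : ℂ) ^ (j + 1)), ← mul_pow,
    mul_inv_cancel₀ h1, one_pow, one_mul]

theorem cp_rv (r : ι) : (∀ k ∈ cls C.D.s C.cl r, ‖rv (fun k => (C.D.a k : ℂ)) C.cl (eC1 M) k‖ ≤ 1) ∧
    ∀ k ∈ cls C.D.s C.cl r, ‖rv (fun k => (C.D.x k : ℂ)) C.cl (eC1 M) k‖ ≤ 1 := by
  have h := C.clus.rv_le (cp_eps C.par).1 (fun k hk => (C.apos k hk).ne') C.xne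
  exact ⟨fun k hk => (h k (mem_cls.1 hk).1).1.trans (by norm_num),
    fun k hk => (h k (mem_cls.1 hk).1).2.trans (by norm_num)⟩

/-- the perturbation of the denominator inside a cluster -/
theorem cp_pert (r : ι) (hr : r ∈ C.D.s) (η : ℝ) (hη : 0 < η) (κ : ℝ) (hκ0 : 0 ≤ κ) (lam : ℂ)
    (hlam : ‖lam‖ * C.d ≤ 2) :
    Mu (cls C.D.s C.cl r) (rv (fun k => (C.D.a k : ℂ)) C.cl (eC1 M))
      (rv (fun k => (C.D.x k : ℂ)) C.cl (eC1 M))
      (fun k => (1 - ((C.D.x k + C.d : ℝ) : ℂ) * lam + I * ((κ * (1 - sp (C.D.a k) / η) : ℝ) : ℂ)) -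
        (1 - ((C.D.x r + C.d : ℝ) : ℂ) * lam + I * ((κ * (1 - sp (C.D.a r) / η) : ℝ) : ℂ)))
      (eC1 M * (3 + 2 * (κ * (sp (C.D.a r) / η)))) := by
  obtain ⟨he0, he1⟩ := cp_eps C.par
  obtain ⟨hu, hv⟩ := C.cp_rv r
  have har := C.apos r hr
  have hβ : 0 ≤ κ * (sp (C.D.a r) / η) := mul_nonneg hκ0 (div_pos (sp_pos har) hη).le
  set ε := eC1 M with hε
  set u := rv (fun k => (C.D.a k : ℂ)) C.cl ε with hudef
  set v := rv (fun k => (C.D.x k : ℂ)) C.cl ε with hvdef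
  have hnε : ‖(ε : ℂ)‖ = ε := by rw [Complex.norm_real, Real.norm_of_nonneg he0.le]
  have m1 : Mu (cls C.D.s C.cl r) u v (fun k => (ε : ℂ) * u k) ε := by
    have := (Mu.fst (s := cls C.D.s C.cl r) (u := u) (v := v)).smul (ε : ℂ)
    rwa [hnε, mul_one] at this
  have m2 := (m1.inv_one_add_sub hu hv he0.le (by linarith only [he0, he1])).smul
    (-(I * ((κ * (sp (C.D.a r) / η) : ℝ) : ℂ)))
  have m3 := (Mu.snd (s := cls C.D.s C.cl r) (u := u) (v := v)).smul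
    (-((C.D.x r : ℂ) * lam * (ε : ℂ)))
  refine ((m3.add m2).congr fun k hk => ?_).mono ?_
  · obtain ⟨hk1, hk2⟩ := mem_cls.1 hk
    have hak := C.apos k hk1
    have e1 := rv_eq (f := fun k => (C.D.a k : ℂ)) (rep := C.cl) he0.ne' (k := k)
      (by rw [hk2]; exact_mod_cast har.ne')
    have e2 := rv_eq (f := fun k => (C.D.x k : ℂ)) (rep := C.cl) he0.ne' (k := k)
      (by rw [hk2]; exact_mod_cast C.xne r hr)
    rw [hk2] at e1 e2
    change (C.D.a k : ℂ) = C.D.a r * (1 + ε * u k) at e1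
    change (C.D.x k : ℂ) = C.D.x r * (1 + ε * v k) at e2
    have e3 : (C.D.a r : ℂ) ≠ 0 := by exact_mod_cast har.ne'
    have e4 : 1 + (ε : ℂ) * u k ≠ 0 := fun h => by
      rw [h, mul_zero] at e1
      exact hak.ne' (by exact_mod_cast e1)
    have e5 : (η : ℂ) ≠ 0 := by exact_mod_cast hη.ne'
    simp only [sp]
    push_cast
    rw [e1, e2]
    field_simp
    ring
  · rw [norm_neg, norm_neg, norm_mul, norm_mul, norm_mul, hnε, norm_I, one_mul, Complex.norm_real,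
      Complex.norm_real, Real.norm_of_nonneg hβ, Real.norm_eq_abs, mul_one]
    have h1 := (C.x_abs r hr).2
    have h2 : |C.D.x r| * ‖lam‖ ≤ 3 := by
      have := mul_le_mul_of_nonneg_right h1 (norm_nonneg lam)
      linarith only [hlam, he0, he1, this]
    have h3 : ε / (1 - ε) ≤ 2 * ε := by
      rw [div_le_iff₀ (by linarith only [he0, he1])]
      nlinarith only [he0, he1]
    have h4 := mul_le_mul_of_nonneg_right h2 he0.le
    have h5 := mul_le_mul_of_nonneg_left h3 hβ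
    linarith only [h4, h5]

/-- `ξ_r = 1 - e lam + I κ (1 - β)`; the perturbation has norm `≤ 20 ε ‖ξ_r‖`;
`‖ξ_r‖ ≥ 1 - e Re lam`, and `lev` at `ω = (j+1) Re lam`. -/
theorem pbase_nb (r : ι) (hr : r ∈ C.D.s) (hrr : C.cl r = r) (η : ℝ) (hη : 0 < η) (j : ℕ)
    (hj : j ≤ 3 * M ^ 8000) (κ : ℝ) (hκ0 : 0 ≤ κ) (hκ : κ ≤ 1) (lam : ℂ) (hlam : ‖lam‖ * C.d ≤ 2)
    (hω : |((j : ℝ) + 1) * lam.re * C.d - C.jc| ≤ (M : ℝ) ^ 7998) :
    NB (cls C.D.s C.cl r) (rv (fun k => (C.D.a k : ℂ)) C.cl (eC1 M))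
      (rv (fun k => (C.D.x k : ℂ)) C.cl (eC1 M))
      (fun k => (C.D.W k : ℂ) * (1 - ((C.D.x k + C.d : ℝ) : ℂ) * lam +
        I * ((κ * (1 - sp (C.D.a k) / η) : ℝ) : ℂ))⁻¹ ^ (j + 1))
      (5 * C.N0 * (√(1 + (κ * (1 - sp (C.D.a r) / η) - (C.D.x r + C.d) * lam.im) ^ 2 / 2))⁻¹ ^ (j + 1)) := by
  obtain ⟨he0, he1⟩ := cp_eps C.par
  obtain ⟨hu, hv⟩ := C.cp_rv r
  have m1 := C.cp_pert r hr η hη κ hκ0 lam hlam
  have hlev := C.lev r hr hrr _ hω
  have hNC : 0 ≤ C.D.NC M C.D.s C.cl r := Nm_nonneg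
  have hβ : 0 ≤ κ * (sp (C.D.a r) / η) :=
    mul_nonneg hκ0 (div_pos (sp_pos (C.apos r hr)) hη).le
  have hδ := cp_inv_small C.par (k := 7989) (by norm_num)
  have hel : |C.D.x r + C.d| * ‖lam‖ ≤ 4 * ((M : ℝ) ^ 7989)⁻¹ := by
    have h1 := mul_le_mul_of_nonneg_right (C.band r hr) (norm_nonneg lam)
    have h2 := mul_le_mul_of_nonneg_left hlam (inv_pos.2 (C.par.pow_pos 7989)).le
    linarith only [h1, h2]
  have hy : |(C.D.x r + C.d) * lam.re| ≤ 4 * ((M : ℝ) ^ 7989)⁻¹ := by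
    rw [abs_mul]
    exact (mul_le_mul_of_nonneg_left (Complex.abs_re_le_norm lam) (abs_nonneg _)).trans hel
  have hy' : |(C.D.x r + C.d) * lam.im| ≤ 4 * ((M : ℝ) ^ 7989)⁻¹ := by
    rw [abs_mul]
    exact (mul_le_mul_of_nonneg_left (Complex.abs_im_le_norm lam) (abs_nonneg _)).trans hel
  have hjR : (j : ℝ) + 1 ≤ 5 * (M : ℝ) ^ 8000 := by
    have h1 : (j : ℝ) ≤ 3 * (M : ℝ) ^ 8000 := by exact_mod_cast hj
    have h2 : (1 : ℝ) ≤ (M : ℝ) ^ 8000 := one_le_pow₀ C.par.one_le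
    linarith only [he0, he1, h1, h2]
  have hsq := cp_sq C.par hjR hy
  have hjε : ((j : ℝ) + 1) * eC1 M ≤ 1 / 1000 := by
    have h1 := cp_small C.par (c := 5000) (by norm_num) (show 8000 < 16000 by norm_num)
    have h2 := mul_le_mul_of_nonneg_right hjR he0.le
    unfold eC1 at h2 ⊢
    linarith only [h1, h2]
  set ξ : ℂ := 1 - ((C.D.x r + C.d : ℝ) : ℂ) * lam + I * ((κ * (1 - sp (C.D.a r) / η) : ℝ) : ℂ)
    with hξ
  have hre : ξ.re = 1 - (C.D.x r + C.d) * lam.re := by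
    rw [hξ, add_re, sub_re, one_re, re_ofReal_mul, mul_comm I, re_ofReal_mul, I_re, mul_zero,
      add_zero]
  have him : ξ.im = κ * (1 - sp (C.D.a r) / η) - (C.D.x r + C.d) * lam.im := by
    rw [hξ, add_im, sub_im, one_im, im_ofReal_mul, mul_comm I, im_ofReal_mul, I_im]
    ring
  rw [← him]
  set y := (C.D.x r + C.d) * lam.re with hydef
  set ε := eC1 M with hε
  obtain ⟨y1, y2⟩ := abs_le.1 hy
  obtain ⟨y3, y4⟩ := abs_le.1 hy'
  have n1 : 1 / 2 ≤ ‖ξ‖ := le_trans (by rw [hre]; linarith only [hδ, he0, he1, y2]) (Complex.re_le_norm ξ)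
  have n2 := abs_le.1 (Complex.abs_im_le_norm ξ)
  have n3 : κ * (sp (C.D.a r) / η) ≤ 5 * ‖ξ‖ := by
    have := n2.1
    rw [him] at this
    linarith only [hκ, hδ, him, he0, he1, y3, n1, n2]
  have n4 : ε * (3 + 2 * (κ * (sp (C.D.a r) / η))) ≤ 20 * ε * ‖ξ‖ := by nlinarith only [hκ, hδ, him, he0, he1, y3, n1, n2]
  have n5 : 20 * ε * ‖ξ‖ < ‖ξ‖ := by nlinarith only [he0, he1, n1]
  have m2 := ((m1.mono n4).inv_add hu hv (by positivity) n5).pow (j + 1)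
  have m3 := m2 _ _ (nb_Nm (g := fun k => (C.D.W k : ℂ)) hu hv)
  refine (m3.congr (fun _ _ => rfl) (fun _ _ => rfl) fun k _ => ?_).mono ?_
  · simp only [add_sub_cancel]
    rw [mul_comm]
  · change _ * C.D.NC M C.D.s C.cl r ≤ _
    have s0 : 0 < √(1 + ξ.im ^ 2 / 2) := Real.sqrt_pos.2 (by positivity)
    have s1 : (1 - y) * √(1 + ξ.im ^ 2 / 2) ≤ ‖ξ‖ := by
      refine (pow_le_pow_iff_left₀ (mul_nonneg (by linarith only [hδ, he0, he1, y2]) s0.le) (norm_nonneg _)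
        two_ne_zero).1 ?_
      rw [mul_pow, Real.sq_sqrt (by positivity), Complex.sq_norm, Complex.normSq_apply, hre]
      have : (1 - y) ^ 2 ≤ 2 := by nlinarith only [hδ, hsq, he0, he1, y1]
      linarith only [this, mul_le_mul_of_nonneg_right this (sq_nonneg ξ.im)]
    have s2 : (‖ξ‖ - 20 * ε * ‖ξ‖)⁻¹ ≤ (1 - 20 * ε)⁻¹ * ((1 - y)⁻¹ * (√(1 + ξ.im ^ 2 / 2))⁻¹) := by
      rw [← mul_inv, ← mul_inv]
      refine inv_anti₀ (mul_pos (by linarith only [he0, he1]) (mul_pos (by linarith only [hδ, he0, he1, y2]) s0)) ?_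
      have := mul_le_mul_of_nonneg_left s1 (show 0 ≤ 1 - 20 * ε by linarith only [he0, he1])
      linarith only [this]
    have s3 := pow_le_pow_left₀ (inv_nonneg.2 (by linarith only [n5])) s2 (j + 1)
    rw [mul_pow, mul_pow] at s3
    have s4 := cp_inv_pow (y := 20 * ε) (by linarith only [he0, he1]) (j + 1)
    have s5 := cp_inv_pow (y := y) (by linarith only [hδ, he0, he1, y2]) (j + 1)
    push_cast at s4 s5
    have s6 : Real.exp (((j : ℝ) + 1) * (20 * ε) + 2 * (((j : ℝ) + 1) * (20 * ε) ^ 2)) *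
        Real.exp (((j : ℝ) + 1) * y + 2 * (((j : ℝ) + 1) * y ^ 2)) ≤
        Real.exp (((j : ℝ) + 1) * lam.re * (C.D.x r + C.d)) * 2 := by
      refine le_trans ?_ (mul_le_mul_of_nonneg_left chain_exp_half (Real.exp_pos _).le)
      rw [← Real.exp_add, ← Real.exp_add, Real.exp_le_exp]
      have t1 : ((j : ℝ) + 1) * lam.re * (C.D.x r + C.d) = ((j : ℝ) + 1) * y := by
        rw [hydef]; ring
      have t2 : ((j : ℝ) + 1) * ε * ε ≤ 1 / 1000 * (1 / 1000) :=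
        mul_le_mul hjε he1 he0.le (by norm_num)
      rw [t1]
      linarith only [hsq, he0, he1, hjε, t2]
    have s7 : (1 - 20 * ε)⁻¹ ^ (j + 1) * (1 - y)⁻¹ ^ (j + 1) ≤
        Real.exp (((j : ℝ) + 1) * lam.re * (C.D.x r + C.d)) * 2 :=
      (mul_le_mul s4 s5 (pow_nonneg (inv_nonneg.2 (by linarith only [hδ, he0, he1, y2])) _) (Real.exp_pos _).le).trans s6
    have s8 : 0 ≤ (√(1 + ξ.im ^ 2 / 2))⁻¹ ^ (j + 1) := by positivity
    have s9 := mul_le_mul_of_nonneg_right s7 s8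
    have s10 := mul_le_mul_of_nonneg_right (s3.trans ((mul_assoc _ _ _).symm.le.trans s9)) hNC
    have s11 := mul_le_mul_of_nonneg_right hlev s8
    have s12 := mul_nonneg C.N0pos.le s8
    linarith only [s10, s11, s12]

theorem pbase (r : ι) (hr : r ∈ C.D.s) (hrr : C.cl r = r) (η : ℝ) (hη : 0 < η) (j : ℕ)
    (hj : j ≤ 3 * M ^ 8000) (κ : ℝ) (hκ0 : 0 ≤ κ) (hκ : κ ≤ 1) (lam : ℂ) (hlam : ‖lam‖ * C.d ≤ 2)
    (hω : |((j : ℝ) + 1) * lam.re * C.d - C.jc| ≤ (M : ℝ) ^ 7998) :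
    ‖C.pB (cls C.D.s C.cl r) η j κ lam‖ ≤
      5 * C.N0 * (√(1 + (κ * (1 - sp (C.D.a r) / η) - (C.D.x r + C.d) * lam.im) ^ 2 / 2))⁻¹ ^ (j + 1) :=
  (C.pbase_nb r hr hrr η hη j hj κ hκ0 hκ lam hlam hω).sum_le

/-- harmonic lattice identity: `hasSum_tw_right` with `w = Dd - e + I τ` -/
theorem hasSum_gA (S : Finset ι) (hS : S ⊆ C.D.s) (j : ℕ) (ω y : ℝ) (hω : 0 < ω)
    (hD : C.d / 2 ≤ j / ω) :
    HasSum (fun n : ℕ => C.gA S (ω / ((n : ℝ) + 1)) j ω y)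
      (((j.factorial : ℝ) * Real.exp j / ω ^ j : ℝ) * C.D.lat S j (zp C.d (j / ω) (y / ω))) := by
  rw [Dat.lat, mul_sum]
  refine hasSum_sum fun k hk => ?_
  have hk' := hS hk
  have ha := C.apos k hk'
  have hδ := cp_inv_small C.par (k := 7989) (by norm_num)
  have hw : 0 < (zp C.d (j / ω) (y / ω) - C.D.x k).re := by
    rw [zp, sub_re, add_re, ofReal_re, ofReal_re, mul_comm I, re_ofReal_mul, I_re, mul_zero,
      add_zero]
    have h1 := (abs_le.1 (C.band k hk')).2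
    have h2 := mul_le_mul_of_nonneg_right hδ C.dpos.le
    linarith only [hD, h1, h2, C.dpos]
  rw [C.nfl k hk']
  refine lip_hs (((hasSum_tw_right ha j hw).mul_left (C.D.W k : ℂ)).mul_left
    (((j.factorial : ℝ) * Real.exp j / ω ^ j : ℝ) : ℂ)) (fun n => ?_) rfl
  have hω' : (ω : ℂ) ≠ 0 := by exact_mod_cast hω.ne'
  have hn : (n : ℂ) + 1 ≠ 0 := by exact_mod_cast n.succ_ne_zero
  have hf : (j.factorial : ℂ) ≠ 0 := by exact_mod_cast j.factorial_ne_zero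
  have e1 : ((-(((n : ℝ) + 1) * C.D.a k) : ℝ) : ℂ) * (zp C.d (j / ω) (y / ω) - C.D.x k) =
      -(j : ℂ) + (((-(j * (C.D.a k / (ω / ((n : ℝ) + 1)) - 1)) : ℝ) : ℂ) +
        (ω * ((C.D.a k / (ω / ((n : ℝ) + 1)) * (C.D.x k + C.d) : ℝ) : ℂ) +
          -(I * ((y * (C.D.a k / (ω / ((n : ℝ) + 1))) : ℝ) : ℂ)))) := by
    rw [zp]
    push_cast
    field_simp
    ring
  have e2 : ((C.D.a k / (ω / ((n : ℝ) + 1)) : ℝ) : ℂ) ^ j =
      (-((-(((n : ℝ) + 1) * C.D.a k) : ℝ) : ℂ)) ^ j / (ω : ℂ) ^ j := by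
    rw [← div_pow]
    congr 1
    push_cast
    field_simp
  rw [ec, e1, Complex.exp_add, Complex.exp_add, Complex.exp_add, gw,
    ofReal_mul (_ ^ j), ofReal_pow, e2,
    ofReal_exp, ofReal_div, ofReal_mul (j.factorial : ℝ), ofReal_exp, ofReal_pow,
    Complex.exp_neg (j : ℂ), ofReal_natCast, ofReal_natCast]
  have := Complex.exp_ne_zero (j : ℂ)
  field_simp

/-- elementary consequences of `Reg` -/
theorem cp_reg (r : ι) (hr : r ∈ C.D.s) {j : ℕ} {Dd τ : ℝ} (hR : Reg M 2 C.jc C.d j Dd τ) :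
    C.D.T r ≤ (M : ℝ) ^ 7990 ∧ 1 ≤ j ∧ j ≤ 4 * M ^ 8000 ∧ 2 * ‖zp C.d Dd τ‖ ≤ |C.D.x r| ∧
      (M : ℝ) ^ 8000 / 2 ≤ (j : ℝ) - 1 ∧ (j : ℝ) + 1 ≤ 3 * (M : ℝ) ^ 8000 := by
  have hd := C.dpos
  obtain ⟨x1, x2⟩ := C.x_abs r hr
  obtain ⟨j1, j2⟩ := abs_le.1 hR.hj
  have c1 : (M : ℝ) ^ 8000 ≤ C.jc := by exact_mod_cast C.jlo
  have c2 : (C.jc : ℝ) ≤ 2 * (M : ℝ) ^ 8000 := by exact_mod_cast C.jhi
  have p1 := C.par.mul_pow_le (c := 8) (by norm_num) (show 7994 < 8000 by norm_num)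
  have p2 : (1 : ℝ) ≤ (M : ℝ) ^ 7994 := one_le_pow₀ C.par.one_le
  refine ⟨?_, ?_, ?_, ?_, by linarith only [j1, c1, p1, p2], by linarith only [j2, c2, p1, p2]⟩
  · have h1 := C.ahi r hr
    have h2 := mul_le_mul_of_nonneg_left x2 (C.apos r hr).le
    have h3 := C.par.mul_pow_le (c := 5) (by norm_num) (show 7738 < 7990 by norm_num)
    have h4 := C.par.pow_pos 7738
    rw [Dat.T]
    linarith only [h1, h2, h3, h4]
  · have : (1 : ℝ) ≤ j := by linarith only [j1, c1, p1, p2]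
    exact_mod_cast this
  · have : (j : ℝ) ≤ 4 * (M : ℝ) ^ 8000 := by linarith only [j2, c2, p1, p2]
    exact_mod_cast this
  · have hδ := cp_inv_small C.par (k := 5) (by norm_num)
    have hδ0 := inv_pos.2 (C.par.pow_pos 5)
    have h1 := hR.hD1
    have h2 := hR.hD2
    have h3 := hR.hτ1
    have h4 := hR.hτ2
    have h5 := mul_le_mul_of_nonneg_left hδ hd.le
    have h6 := mul_pos hd hδ0
    have h7 : ‖zp C.d Dd τ‖ ≤ |-C.d + Dd| + |τ| := by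
      refine (norm_add_le _ _).trans (le_of_eq ?_)
      rw [norm_mul, norm_I, one_mul, Complex.norm_real, Complex.norm_real, Real.norm_eq_abs,
        Real.norm_eq_abs]
    generalize ((M : ℝ) ^ 5)⁻¹ = δ at *
    have h8 : |-C.d + Dd| ≤ C.d * δ := abs_le.2 ⟨by linarith only [h1], by linarith only [h2, h6]⟩
    have h9 : |τ| ≤ 3 * (C.d * δ) := abs_le.2 ⟨by linarith only [h3, h6], by linarith only [h4]⟩
    linarith only [x1, h7, h5, h6, h8, h9]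

theorem cp_re (Dd τ : ℝ) : (zp C.d Dd τ).re = -C.d + Dd := by
  rw [zp, add_re, ofReal_re, mul_comm I, re_ofReal_mul, I_re, mul_zero, add_zero]

theorem cp_im (Dd τ : ℝ) : (zp C.d Dd τ).im = τ := by
  rw [zp, add_im, ofReal_im, mul_comm I, im_ofReal_mul, I_im, mul_one, zero_add]

theorem cp_Dpos {j : ℕ} {Dd τ : ℝ} (hR : Reg M 2 C.jc C.d j Dd τ) : C.d / 2 ≤ Dd := by
  have hδ := cp_inv_small C.par (k := 5) (by norm_num)
  have h5 := mul_le_mul_of_nonneg_left hδ C.dpos.le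
  have h1 := hR.hD1
  linarith only [h5, h1, C.dpos]

/-- the normalised size of a cluster at a probe point -/
theorem cp_amp (r : ι) (hr : r ∈ C.D.s) (hrr : C.cl r = r) {j : ℕ} {Dd τ : ℝ}
    (hR : Reg M 2 C.jc C.d j Dd τ) :
    Dd ^ (j + 1) * (C.D.NC M C.D.s C.cl r / |(zp C.d Dd τ).re - C.D.x r| ^ (j + 1)) ≤ 4 * C.N0 := by
  have hd := C.dpos
  have hD := C.cp_Dpos hR
  have hD0 : 0 < Dd := by linarith only [hd, hD]
  obtain ⟨-, -, -, -, -, hj⟩ := C.cp_reg r hr hR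
  have hM := C.par.pow_pos 8000
  have hNC : 0 ≤ C.D.NC M C.D.s C.cl r := Nm_nonneg
  have hδ := cp_inv_small C.par (k := 7989) (by norm_num)
  have hy : |(C.D.x r + C.d) / Dd| ≤ 4 * ((M : ℝ) ^ 7989)⁻¹ := by
    rw [abs_div, abs_of_pos hD0, div_le_iff₀ hD0]
    have h1 := C.band r hr
    have h2 := mul_le_mul_of_nonneg_left hD (inv_pos.2 (C.par.pow_pos 7989)).le
    linarith only [h1, h2]
  have hsq := cp_sq C.par (n := (j : ℝ) + 1) (by linarith only [hj, hM]) hy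
  have hω : |((j : ℝ) + 1) / Dd * C.d - C.jc| ≤ (M : ℝ) ^ 7998 := by
    obtain ⟨j1, j2⟩ := abs_le.1 hR.hj
    have hδ5 := cp_inv_small C.par (k := 5) (by norm_num)
    have hδ0 := inv_pos.2 (C.par.pow_pos 5)
    have h1 := hR.hD1
    have h2 := hR.hD2
    have p1 := C.par.mul_pow_le (c := 8) (by norm_num) (show 7994 < 7998 by norm_num)
    have p2 : (1 : ℝ) ≤ (M : ℝ) ^ 7994 := one_le_pow₀ C.par.one_le
    have p3 : 12 * ((M : ℝ) ^ 8000 * ((M : ℝ) ^ 5)⁻¹) ≤ (M : ℝ) ^ 7998 := by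
      rw [← div_eq_mul_inv, ← mul_div_assoc, div_le_iff₀ (C.par.pow_pos 5), ← pow_add]
      exact C.par.mul_pow_le (by norm_num) (by norm_num)
    have h6 := mul_pos hd hδ0
    generalize ((M : ℝ) ^ 5)⁻¹ = δ at *
    have q1 : 1 ≤ C.d / Dd := (one_le_div hD0).2 (by linarith only [h1, h2])
    have q2 : C.d / Dd ≤ 1 + 2 * δ := by
      rw [div_le_iff₀ hD0]
      linarith only [h1, hD, hδ0, mul_le_mul_of_nonneg_left hD hδ0.le]
    have q3 : ((j : ℝ) + 1) / Dd * C.d = ((j : ℝ) + 1) * (C.d / Dd) := by ring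
    have q4 : (0 : ℝ) ≤ (j : ℝ) + 1 := by positivity
    have q5 := mul_le_mul_of_nonneg_left q1 q4
    have q6 := mul_le_mul_of_nonneg_left q2 q4
    have q7 := mul_le_mul_of_nonneg_right hj hδ0.le
    rw [q3]
    exact abs_le.2 ⟨by linarith only [j1, p1, p2, hδ5, hδ0, q5], by linarith only [j2, p1, p2, hδ5, hδ0, p3, q6, q7]⟩
  have hlev := C.lev r hr hrr _ hω
  obtain ⟨y1, y2⟩ := abs_le.1 hy
  have e1 : |(zp C.d Dd τ).re - C.D.x r| = Dd * (1 - (C.D.x r + C.d) / Dd) := by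
    rw [← abs_of_pos (mul_pos hD0 (show 0 < 1 - (C.D.x r + C.d) / Dd by linarith only [hδ, y2])), C.cp_re]
    congr 1
    field_simp
    ring
  have e2 : ((j : ℝ) + 1) / Dd * (C.D.x r + C.d) = ((j : ℝ) + 1) * ((C.D.x r + C.d) / Dd) := by
    ring
  rw [e2] at hlev
  rw [e1]
  generalize (C.D.x r + C.d) / Dd = y at *
  have s5 := cp_inv_pow (y := y) (by linarith only [hδ, y2]) (j + 1)
  push_cast at s5
  have s6 : Real.exp (((j : ℝ) + 1) * y + 2 * (((j : ℝ) + 1) * y ^ 2)) ≤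
      Real.exp (((j : ℝ) + 1) * y) * 2 := by
    refine le_trans ?_ (mul_le_mul_of_nonneg_left chain_exp_half (Real.exp_pos _).le)
    rw [← Real.exp_add, Real.exp_le_exp]
    linarith only [hsq]
  have e3 : Dd ^ (j + 1) * (C.D.NC M C.D.s C.cl r / (Dd * (1 - y)) ^ (j + 1)) =
      C.D.NC M C.D.s C.cl r * (1 - y)⁻¹ ^ (j + 1) := by
    have : 1 - y ≠ 0 := by linarith only [hδ, y2]
    rw [mul_pow, inv_pow]
    field_simp
  rw [e3]
  have s7 := mul_le_mul_of_nonneg_left (s5.trans s6) hNC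
  linarith only [hlev, s7]

theorem cp_delta (r : ι) (hr : r ∈ C.D.s) :
    0 ≤ (M : ℝ) ^ 5 * C.d / (M : ℝ) ^ 4000 ∧ (M : ℝ) ^ 5 * C.d / (M : ℝ) ^ 4000 ≤ |C.D.x r| := by
  have hd := C.dpos
  refine ⟨by positivity, le_trans ?_ (C.x_abs r hr).1⟩
  rw [div_le_iff₀ (C.par.pow_pos _)]
  have h1 := C.par.mul_pow_le (c := 2) (by norm_num) (show 5 < 4000 by norm_num)
  have h2 := mul_le_mul_of_nonneg_right h1 hd.le
  have h3 := mul_pos (C.par.pow_pos 5) hd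
  linarith only [h2, h3]

theorem cp_decay (r : ι) (hr : r ∈ C.D.s) (hrr : C.cl r = r) {j : ℕ} {Dd τ : ℝ}
    (hR : Reg M 2 C.jc C.d j Dd τ) :
    Dd ^ (j + 1) * ((M : ℝ) ^ 8000 * C.D.NC M C.D.s C.cl r /
      |(zp C.d Dd τ).re - C.D.x r| ^ (j + 1) * Real.exp (-(((j : ℝ) - 1) *
        ((M : ℝ) ^ 5 * C.d / (M : ℝ) ^ 4000) ^ 2 / (32 * C.D.x r ^ 2)))) ≤
      Real.exp (-(M : ℝ) ^ 9) * C.N0 := by
  have h1 := C.cp_amp r hr hrr hR
  obtain ⟨-, -, -, -, hj, -⟩ := C.cp_reg r hr hR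
  have hd := C.dpos
  have hM := C.par.pow_pos 8000
  have hx : 0 < C.D.x r ^ 2 := sq_pos_of_ne_zero (C.xne r hr)
  have hx2 : C.D.x r ^ 2 ≤ (101 / 100 * C.d) ^ 2 := by
    rw [← sq_abs]
    exact pow_le_pow_left₀ (abs_nonneg _) (C.x_abs r hr).2 2
  have h2 : ((M : ℝ) ^ 5 * C.d / (M : ℝ) ^ 4000) ^ 2 = (M : ℝ) ^ 10 * C.d ^ 2 / (M : ℝ) ^ 8000 := by
    rw [div_pow, mul_pow, ← pow_mul, ← pow_mul]
  have h3 : 2 * (M : ℝ) ^ 9 ≤ ((j : ℝ) - 1) * ((M : ℝ) ^ 5 * C.d / (M : ℝ) ^ 4000) ^ 2 /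
      (32 * C.D.x r ^ 2) := by
    rw [h2, le_div_iff₀ (by positivity)]
    have a1 : (M : ℝ) ^ 8000 / 2 * ((M : ℝ) ^ 10 * C.d ^ 2 / (M : ℝ) ^ 8000) =
        (M : ℝ) ^ 10 * C.d ^ 2 / 2 := by
      generalize (M : ℝ) ^ 8000 = A at *
      field_simp
    have a2 := mul_le_mul_of_nonneg_right hj
      (show 0 ≤ (M : ℝ) ^ 10 * C.d ^ 2 / (M : ℝ) ^ 8000 by positivity)
    have a3 := C.par.mul_pow_le (c := 200) (by norm_num) (show 9 < 10 by norm_num)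
    have a4 := mul_le_mul_of_nonneg_right a3 (sq_nonneg C.d)
    have a5 := mul_le_mul_of_nonneg_left hx2 (C.par.pow_pos 9).le
    have a6 := mul_nonneg (C.par.pow_pos 9).le (sq_nonneg C.d)
    rw [a1] at a2
    linarith only [a2, a4, a5, a6]
  have h4 : 4 * (M : ℝ) ^ 8000 ≤ Real.exp ((M : ℝ) ^ 9) := by
    refine (C.par.mul_pow_le (k := 8001) (by norm_num) (by norm_num)).trans
      ((C.par.pow_le_exp (by norm_num)).trans (Real.exp_le_exp.2 ?_))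
    have := C.par.pow_mono (show 1 ≤ 9 by norm_num)
    rwa [pow_one] at this
  have h5 : 4 * (M : ℝ) ^ 8000 * Real.exp (-(((j : ℝ) - 1) *
      ((M : ℝ) ^ 5 * C.d / (M : ℝ) ^ 4000) ^ 2 / (32 * C.D.x r ^ 2))) ≤ Real.exp (-(M : ℝ) ^ 9) := by
    refine (mul_le_mul_of_nonneg_right h4 (Real.exp_pos _).le).trans ?_
    rw [← Real.exp_add, Real.exp_le_exp]
    linarith only [h3]
  have h6 := mul_le_mul_of_nonneg_right h5 C.N0pos.le
  have h7 := mul_le_mul_of_nonneg_right h1 (mul_pos hM (Real.exp_pos (-(((j : ℝ) - 1) *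
      ((M : ℝ) ^ 5 * C.d / (M : ℝ) ^ 4000) ^ 2 / (32 * C.D.x r ^ 2))))).le
  rw [mul_div_assoc]
  generalize Real.exp (-(((j : ℝ) - 1) *
      ((M : ℝ) ^ 5 * C.d / (M : ℝ) ^ 4000) ^ 2 / (32 * C.D.x r ^ 2))) = E at *
  generalize C.D.NC M C.D.s C.cl r / |(zp C.d Dd τ).re - C.D.x r| ^ (j + 1) = A at *
  generalize (M : ℝ) ^ 8000 = B at *
  linarith only [h6, h7]

/-- normalised size of a cluster at a probe point whose height avoids the poles in `F` -/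
theorem part_negl (r : ι) (hr : r ∈ C.D.s) (hrr : C.cl r = r) (j : ℕ) (Dd τ : ℝ)
    (hR : Reg M 2 C.jc C.d j Dd τ) (t0 t1 : ℝ) (ht1 : 1 ≤ t1) (F : Finset ℤ)
    (hF : ∀ l ∈ F, (M : ℝ) ^ 5 * C.d / (M : ℝ) ^ 4000 ≤ |τ - (t0 + l * t1) * sp (C.D.a r)|) :
    Dd ^ (j + 1) * ∑ l ∈ F, ‖∑ k ∈ cls C.D.s C.cl r, (C.D.W k : ℂ) *
        pc (C.D.x k + I * (((t0 + l * t1) * sp (C.D.a k) : ℝ) : ℂ)) j (zp C.d Dd τ)‖ ≤
      Real.exp (-(M : ℝ) ^ 9) * C.N0 := by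
  obtain ⟨h1, h2, h3, h4, -, -⟩ := C.cp_reg r hr hR
  have hD : 0 ≤ Dd := by linarith only [hR, C.cp_Dpos hR, C.dpos]
  refine le_trans (mul_le_mul_of_nonneg_left ?_ (pow_nonneg hD _)) (C.cp_decay r hr hrr hR)
  exact cluster_part C.par C.D C.D.s C.cl C.clus C.apos C.xne r hr hrr t0 t1 (by linarith only [ht1])
    (h1.trans (le_mul_of_one_le_right (C.par.pow_pos _).le ht1)) j h2 h3 _ h4 _
    (C.cp_delta r hr).1 (C.cp_delta r hr).2 F fun l hl => by rw [C.cp_im]; exact hF l hl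

theorem lat_le {S : Finset ι} (hS : C.Sat S) (j : ℕ) (Dd τ : ℝ) (hR : Reg M 2 C.jc C.d j Dd τ) :
    Dd ^ (j + 1) * ‖C.D.lat S j (zp C.d Dd τ)‖ ≤ Real.exp M * C.N0 := by
  classical
  have hD : 0 ≤ Dd := by linarith only [hR, C.cp_Dpos hR, C.dpos]
  have hM := C.par.pow_pos 8000
  have e : C.D.lat S j (zp C.d Dd τ) =
      ∑ r ∈ S.filter (fun r => C.cl r = r), C.D.lat (cls C.D.s C.cl r) j (zp C.d Dd τ) :=
    sum_cls C.clus.mem C.clus.idem hS.1 hS.2 _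
  rw [e]
  refine (mul_le_mul_of_nonneg_left (norm_sum_le _ _) (pow_nonneg hD _)).trans ?_
  rw [mul_sum]
  refine (sum_le_card_nsmul _ _ ((M : ℝ) ^ 8000 * (4 * C.N0)) fun r hr => ?_).trans ?_
  · obtain ⟨hr1, hrr⟩ := mem_filter.1 hr
    have hr' := hS.1 hr1
    obtain ⟨h1, h2, h3, h4, -, -⟩ := C.cp_reg r hr' hR
    have h5 := cluster_bound C.par C.D C.D.s C.cl C.clus C.apos C.xne C.nfl r hr' hrr h1 j h2 h3
      _ h4 0 le_rfl (abs_nonneg _) fun l => abs_nonneg _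
    rw [zero_pow two_ne_zero, mul_zero, zero_div, neg_zero, Real.exp_zero, mul_one,
      mul_div_assoc] at h5
    refine (mul_le_mul_of_nonneg_left h5 (pow_nonneg hD _)).trans ?_
    rw [mul_left_comm]
    exact mul_le_mul_of_nonneg_left (C.cp_amp r hr' hrr hR) hM.le
  · have c1 : ((S.filter (fun r => C.cl r = r)).card : ℝ) ≤ m := by
      exact_mod_cast (card_le_card ((filter_subset _ _).trans hS.1)).trans C.card
    have c2 := C.par.mle
    have c3 : 2 * (M : ℝ) ^ 8001 ≤ Real.exp M :=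
      (C.par.mul_pow_le (k := 8002) (by norm_num) (by norm_num)).trans
        (C.par.pow_le_exp (by norm_num))
    rw [show 8001 = 8000 + 1 from rfl, pow_succ] at c3
    rw [nsmul_eq_mul]
    have c4 := mul_le_mul_of_nonneg_right c3 C.N0pos.le
    have c5 := mul_le_mul_of_nonneg_right (show 2 * ((S.filter (fun r => C.cl r = r)).card : ℝ) ≤ M
      by linarith) (mul_pos hM C.N0pos).le
    generalize (M : ℝ) ^ 8000 = A at *
    linarith only [c4, c5]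

theorem lat_negl (r : ι) (hr : r ∈ C.D.s) (hrr : C.cl r = r) (j : ℕ) (Dd τ : ℝ)
    (hR : Reg M 2 C.jc C.d j Dd τ)
    (hF : ∀ l : ℤ, (M : ℝ) ^ 5 * C.d / (M : ℝ) ^ 4000 ≤ |τ - l * sp (C.D.a r)|) :
    Dd ^ (j + 1) * ‖C.D.lat (cls C.D.s C.cl r) j (zp C.d Dd τ)‖ ≤ Real.exp (-(M : ℝ) ^ 9) * C.N0 := by
  obtain ⟨h1, h2, h3, h4, -, -⟩ := C.cp_reg r hr hR
  have hD : 0 ≤ Dd := by linarith only [hR, C.cp_Dpos hR, C.dpos]
  refine le_trans (mul_le_mul_of_nonneg_left ?_ (pow_nonneg hD _)) (C.cp_decay r hr hrr hR)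
  exact cluster_bound C.par C.D C.D.s C.cl C.clus C.apos C.xne C.nfl r hr hrr h1 j h2 h3 _ h4 _
    (C.cp_delta r hr).1 (C.cp_delta r hr).2 fun l => by rw [C.cp_im]; exact hF l

end CDat

end Pool.Agent.Work.MP_97f157_lc.Tau
end
end

-- merged part: Pool.Agent.Work.MP_97f157_lc.TauH1
section
-- merged part: Pool.Agent.Work.MP_97f157_lc.TauSel
section
-- merged part: Pool.Agent.Work.MP_97f157_lc.TauSelAux
section
/-! Elementary estimates for the selection of the level. -/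

noncomputable section
open Complex Finset

namespace Pool.Agent.Work.MP_97f157_lc.Tau

variable {ι : Type*} {m M : ℕ}

theorem sel_inv_le (hp : Par m M) {i : ℕ} (hi : 1 ≤ i) : ((M : ℝ) ^ i)⁻¹ ≤ 1 / 10 ^ 12 := by
  have h := hp.inv_pow_le (c := 10 ^ 12) le_rfl (i := 0) (k := i) (by omega)
  rw [pow_zero, inv_one] at h
  rw [le_div_iff₀ (by norm_num)]
  linarith only [h]

theorem sel_inv_pos (hp : Par m M) (i : ℕ) : 0 < ((M : ℝ) ^ i)⁻¹ := inv_pos.2 (hp.pow_pos i)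

theorem sel_inv_mono (hp : Par m M) {i k : ℕ} (h : i ≤ k) : ((M : ℝ) ^ k)⁻¹ ≤ ((M : ℝ) ^ i)⁻¹ :=
  inv_anti₀ (hp.pow_pos i) (hp.pow_mono h)

theorem sel_pow_split (hp : Par m M) {i k l : ℕ} (h : i + k = l) :
    (M : ℝ) ^ i = ((M : ℝ) ^ k)⁻¹ * (M : ℝ) ^ l := by
  rw [← h, pow_add, mul_comm ((M : ℝ) ^ i), inv_mul_cancel_left₀ (hp.pow_pos k).ne']

theorem sel_pow_exp (hp : Par m M) {c : ℝ} (hc0 : 0 ≤ c) (hc : c ≤ Real.exp M) {k : ℕ}
    (hk : k ≤ M * M) : c ^ k ≤ Real.exp ((M : ℝ) ^ 3) := by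
  refine (pow_le_pow_left₀ hc0 hc k).trans ?_
  rw [← Real.exp_nat_mul]
  refine Real.exp_le_exp.2 ?_
  have h1 : (k : ℝ) ≤ M * M := by exact_mod_cast hk
  have h2 := mul_le_mul_of_nonneg_right h1 hp.pos.le
  linarith only [h2, show (M : ℝ) ^ 3 = M * M * M by ring]

theorem sel_const_exp (hp : Par m M) {c : ℝ} (hc : c ≤ 10 ^ 12) : c ≤ Real.exp M := by
  have := hp.bigR
  linarith only [hc, this, Real.add_one_le_exp (M : ℝ)]

/-- the real inequalities behind `arg_of_near` -/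
theorem sel_real {P J j η θ Ω w Y : ℝ} (hP : 0 < P) (hJ1 : P ≤ J) (hJ2 : J ≤ 2 * P) (hη : 0 < η)
    (hη1 : η ≤ 1 / 100) (hθ : 0 < θ) (hθη : 100 * θ ≤ η) (hΩ : Ω * (1 - 3 / 4 * η) = J)
    (hj : |j - J| ≤ 4 * (θ * P)) (hw : |w - Ω| ≤ 4 * θ * Ω) (hY : |Y - Ω * η| ≤ 4 * θ * (Ω * η)) :
    |w - J| ≤ 3 * (η * P) ∧ P ≤ 2 * w ∧ w ≤ 3 * P ∧ η * P ≤ 2 * Y ∧ Y ≤ 3 * (η * P) ∧
      (1 - η) * w ≤ j ∧ j ≤ (1 - η / 2) * w ∧ η / 2 * w ≤ Y ∧ Y ≤ 2 * η * w := by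
  have hΩ0 : 0 < Ω := by
    by_contra c
    have : Ω * (1 - 3 / 4 * η) ≤ 0 := mul_nonpos_of_nonpos_of_nonneg (not_lt.1 c) (by linarith only [hη1, hθ, hθη])
    linarith only [hP, hJ1, hΩ, this]
  have hΩη : 0 < Ω * η := by positivity
  have hΩθ : 0 < Ω * θ := by positivity
  have hΩθη : 0 < Ω * θ * η := by positivity
  have h1 : J ≤ Ω := by linarith only [hΩ, hΩη]
  have h2 : Ω * η ≤ Ω * (1 / 100) := mul_le_mul_of_nonneg_left hη1 hΩ0.le
  have h3 : Ω ≤ 21 / 10 * P := by linarith only [hJ2, hΩ, hΩη, h2]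
  have h4 : Ω * (100 * θ) ≤ Ω * η := mul_le_mul_of_nonneg_left hθη hΩ0.le
  have h5 : Ω * η ≤ 21 / 10 * P * η := mul_le_mul_of_nonneg_right h3 hη.le
  have h6 : P * η ≤ Ω * η := mul_le_mul_of_nonneg_right (hJ1.trans h1) hη.le
  have h7 : P * θ ≤ Ω * θ := mul_le_mul_of_nonneg_right (hJ1.trans h1) hθ.le
  have h8 : Ω * η * θ ≤ Ω * η * (1 / 10000) := mul_le_mul_of_nonneg_left (by linarith only [hη1, hθη]) hΩη.le
  obtain ⟨j1, j2⟩ := abs_le.1 hj
  obtain ⟨w1, w2⟩ := abs_le.1 hw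
  obtain ⟨y1, y2⟩ := abs_le.1 hY
  have w3 : η * w ≤ η * (Ω + 4 * θ * Ω) := mul_le_mul_of_nonneg_left (by linarith only [w2]) hη.le
  have w4 : η * (Ω - 4 * θ * Ω) ≤ η * w := mul_le_mul_of_nonneg_left (by linarith only [w1]) hη.le
  refine ⟨abs_le.2 ⟨by linarith only [hΩ, hΩθη, h4, h5, h8, w1], by linarith only [hΩ, hΩθη, h4, h5, h8, w2]⟩, by linarith only [hJ1, hΩ, hΩθη, h2, h4, h8, w1], by linarith only [hJ2, hΩ, hΩθη, h2, h4, h8, w2], by linarith only [hΩθη, h6, h8, y1],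
    by linarith only [hΩθη, h5, h8, y2], by linarith only [hΩ, hΩθη, h4, h7, h8, j1, w2, w4], by linarith only [hΩ, hΩθη, h4, h7, h8, j2, w1, w3], by linarith only [hΩθη, h8, y1, w3], by linarith only [hΩθη, h8, y2, w4]⟩

namespace CDat
variable (C : CDat ι m M)

theorem sel_ω0 : C.ω0 * C.d * (1 - 3 / 4 * ((M : ℝ) ^ 5)⁻¹) = C.jc := by
  have h1 := sel_inv_le C.par (i := 5) (by norm_num)
  have h2 : (1 - 3 / 4 * ((M : ℝ) ^ 5)⁻¹) ≠ 0 := by
    have : (0 : ℝ) < 1 - 3 / 4 * ((M : ℝ) ^ 5)⁻¹ := by linarith only [h1]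
    exact this.ne'
  have h3 := C.dpos.ne'
  rw [ω0, mul_assoc, div_mul_cancel₀ _ (mul_ne_zero h3 h2)]

theorem sel_jc : (M : ℝ) ^ 8000 ≤ C.jc ∧ (C.jc : ℝ) ≤ 2 * (M : ℝ) ^ 8000 :=
  ⟨by exact_mod_cast C.jlo, by exact_mod_cast C.jhi⟩

theorem sel_ω0_range : (M : ℝ) ^ 8000 ≤ C.ω0 * C.d ∧ C.ω0 * C.d ≤ 3 * (M : ℝ) ^ 8000 := by
  have h1 := sel_inv_le C.par (i := 5) (by norm_num)
  have h2 := sel_inv_pos C.par 5
  have h3 := C.sel_ω0
  obtain ⟨h4, h5⟩ := C.sel_jc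
  have h6 := C.par.pow_pos 8000
  generalize (M : ℝ) ^ 8000 = P at *
  generalize ((M : ℝ) ^ 5)⁻¹ = η at *
  generalize C.ω0 * C.d = Ω at *
  have hΩ0 : 0 < Ω := by
    by_contra c
    have : Ω * (1 - 3 / 4 * η) ≤ 0 := mul_nonpos_of_nonpos_of_nonneg (not_lt.1 c) (by linarith only [h1, h2])
    linarith only [h4, h6, h3, this]
  constructor <;> (refine le_of_not_gt fun h_nl => ?_; linarith only [h_nl, h4, h3, h6, h2, h1, h5, hΩ0, mul_pos_of_neg_of_neg (Mathlib.Tactic.Linarith.sub_neg_of_lt h6) (Mathlib.Tactic.Linarith.sub_neg_of_lt h2), mul_nonneg_of_nonpos_of_nonpos (Mathlib.Tactic.Linarith.sub_nonpos_of_le h1) (le_of_lt (Mathlib.Tactic.Linarith.sub_neg_of_lt h_nl)), mul_nonneg_of_nonpos_of_nonpos (Mathlib.Tactic.Linarith.sub_nonpos_of_le h1) (le_of_lt (Mathlib.Tactic.Linarith.sub_neg_of_lt hΩ0))])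

theorem sel_ω0_pos : 0 < C.ω0 :=
  (pos_iff_pos_of_mul_pos (lt_of_lt_of_le (C.par.pow_pos 8000) C.sel_ω0_range.1)).2 C.dpos

theorem sel_y0 : C.y0 = C.ω0 * C.d * ((M : ℝ) ^ 5)⁻¹ := by rw [y0, mul_assoc]

theorem sel_y0_range : (M : ℝ) ^ 7995 ≤ C.y0 ∧ C.y0 ≤ 3 * (M : ℝ) ^ 7995 := by
  have h2 := sel_inv_pos C.par 5
  obtain ⟨h4, h5⟩ := C.sel_ω0_range
  rw [sel_y0, sel_pow_split C.par (i := 7995) (k := 5) (l := 8000) rfl]
  constructor <;> linarith only [h2, h4, h5, mul_nonneg_of_nonpos_of_nonpos (le_of_lt (Mathlib.Tactic.Linarith.sub_neg_of_lt h2)) (Mathlib.Tactic.Linarith.sub_nonpos_of_le h4), mul_nonneg_of_nonpos_of_nonpos (le_of_lt (Mathlib.Tactic.Linarith.sub_neg_of_lt h2)) (Mathlib.Tactic.Linarith.sub_nonpos_of_le h5)]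

theorem sel_y0_pos : 0 < C.y0 := lt_of_lt_of_le (C.par.pow_pos 7995) C.sel_y0_range.1

theorem sel_arg (j : ℕ) (ω y : ℝ) (hj : |(j : ℝ) - C.jc| ≤ 4 * (M : ℝ) ^ 7993)
    (hω : |ω - C.ω0| ≤ 4 * ((M : ℝ) ^ 7)⁻¹ * C.ω0) (hy : |y - C.y0| ≤ 4 * ((M : ℝ) ^ 7)⁻¹ * C.y0) :
    C.Arg j ω y ∧ 2 * |y| ≤ (M : ℝ) ^ 8000 ∧ Reg M 1 C.jc C.d j (j / ω) (y / ω) ∧
      (M : ℝ) ^ 8000 / C.d ≤ 2 * ω ∧ ω * C.d ≤ 3 * (M : ℝ) ^ 8000 ∧
      (M : ℝ) ^ 7995 ≤ 2 * y ∧ y ≤ 3 * (M : ℝ) ^ 7995 := by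
  have hp := C.par
  have hd := C.dpos
  have e5 := sel_pow_split hp (i := 7995) (k := 5) (l := 8000) rfl
  have e7 := sel_pow_split hp (i := 7993) (k := 7) (l := 8000) rfl
  have hw : |ω * C.d - C.ω0 * C.d| ≤ 4 * ((M : ℝ) ^ 7)⁻¹ * (C.ω0 * C.d) := by
    rw [← sub_mul, abs_mul, abs_of_pos hd, ← mul_assoc]
    exact mul_le_mul_of_nonneg_right hω hd.le
  obtain ⟨a1, a2, a3, a4, a5, a6, a7, a8, a9⟩ := sel_real (hp.pow_pos 8000) C.sel_jc.1 C.sel_jc.2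
    (sel_inv_pos hp 5) ((sel_inv_le hp (by norm_num)).trans (by norm_num)) (sel_inv_pos hp 7)
    (hp.inv_pow_le (by norm_num) (by norm_num)) C.sel_ω0 (e7 ▸ hj) hw (C.sel_y0 ▸ hy)
  rw [← e5] at a1 a4 a5
  have b1 := hp.mul_pow_le (c := 4) (by norm_num) (i := 7993) (k := 7994) (by norm_num)
  have b2 := hp.pow_mono (i := 7994) (k := 7998) (by norm_num)
  have b3 := hp.mul_pow_le (c := 3) (by norm_num) (i := 7995) (k := 7998) (by norm_num)
  have b4 := hp.mul_pow_le (c := 6) (by norm_num) (i := 7995) (k := 8000) (by norm_num)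
  have b5 := hp.pow_pos 7995
  have b6 := hp.pow_pos 8000
  have hω0 : 0 < ω := (pos_iff_pos_of_mul_pos (show 0 < ω * C.d by linarith only [a2, b4, b5])).2 hd
  have hy0 : 0 < y := by linarith only [a4, b5]
  refine ⟨⟨by linarith only [hj, b1, b2], by rw [ofReal_re]; linarith only [a1, b3], ?_, by rw [abs_of_pos hy0]; linarith only [a5, b4, b5]⟩,
    by rw [abs_of_pos hy0]; linarith only [a5, b4], ⟨by linarith only [hj, b1], ?_, ?_, ?_, ?_⟩, ?_, a3, a4, a5⟩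
  · rw [Complex.norm_real, Real.norm_of_nonneg hω0.le]; exact a3
  · rw [le_div_iff₀ hω0]; linarith only [a6]
  · rw [div_le_iff₀ hω0]; linarith only [a7]
  · rw [le_div_iff₀ hω0]; linarith only [a8]
  · rw [div_le_iff₀ hω0]; linarith only [a9]
  · rw [div_le_iff₀ hd]; linarith only [a2]

theorem sel_gr_cl {gr : ι → ι}
    (hgr : RClus C.D.s (fun k => (C.D.a k : ℂ)) gr (4 * ((M : ℝ) ^ 13)⁻¹) ((M : ℝ) ^ 14)⁻¹) :
    ∀ k ∈ C.D.s, gr (C.cl k) = gr k := by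
  intro k hk
  by_contra c
  have hk' := C.clus.mem k hk
  have h1 := hgr.sep _ hk' _ hk c
  have h2 := C.clus.neara k hk
  have p1 := C.apos k hk
  have p2 := C.apos _ hk'
  simp only [← ofReal_sub, Complex.norm_real, Real.norm_eq_abs] at h1
  rw [abs_of_pos p1, abs_of_pos p2, abs_sub_comm] at h1
  rw [abs_of_pos p2] at h2
  have h3 : eC1 M ≤ ((M : ℝ) ^ 14)⁻¹ := sel_inv_mono C.par (by norm_num)
  have h4 := sel_inv_le C.par (i := 14) (by norm_num)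
  have h5 := sel_inv_pos C.par 14
  have h6 := (abs_le.1 h2).1
  have h7 : 1 / 2 * C.D.a (C.cl k) ≤ min (C.D.a (C.cl k)) (C.D.a k) :=
    le_min (by linarith only [p2]) (by linarith only [h6, p1, h4, h5, p2, h3, mul_nonneg_of_nonpos_of_nonpos (le_of_lt (Mathlib.Tactic.Linarith.sub_neg_of_lt p1)) (Mathlib.Tactic.Linarith.sub_nonpos_of_le h4), mul_pos_of_neg_of_neg (Mathlib.Tactic.Linarith.sub_neg_of_lt p1) (Mathlib.Tactic.Linarith.sub_neg_of_lt h5), mul_nonneg_of_nonpos_of_nonpos (le_of_lt (Mathlib.Tactic.Linarith.sub_neg_of_lt p2)) (Mathlib.Tactic.Linarith.sub_nonpos_of_le h3), mul_nonneg_of_nonpos_of_nonpos (le_of_lt (Mathlib.Tactic.Linarith.sub_neg_of_lt p2)) (Mathlib.Tactic.Linarith.sub_nonpos_of_le h4)])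
  have h8 := mul_le_mul_of_nonneg_left h7 h5.le
  linarith only [h2, h1, h8, p2, h3, h5, mul_nonneg_of_nonpos_of_nonpos (le_of_lt (Mathlib.Tactic.Linarith.sub_neg_of_lt p2)) (Mathlib.Tactic.Linarith.sub_nonpos_of_le h3), mul_pos_of_neg_of_neg (Mathlib.Tactic.Linarith.sub_neg_of_lt p2) (Mathlib.Tactic.Linarith.sub_neg_of_lt h5)]

/-- two members of one coarse group -/
theorem sel_gr_near {gr : ι → ι}
    (hgr : RClus C.D.s (fun k => (C.D.a k : ℂ)) gr (4 * ((M : ℝ) ^ 13)⁻¹) ((M : ℝ) ^ 14)⁻¹)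
    {k r : ι} (hk : k ∈ C.D.s) (hr : r ∈ C.D.s) (h : gr k = gr r) :
    |C.D.a k - C.D.a r| ≤ 21 / 10 * ((M : ℝ) ^ 13)⁻¹ * C.D.a r := by
  have h1 := hgr.near k hk
  have h2 := hgr.near r hr
  have p1 := C.apos _ (hgr.mem r hr)
  simp only [← ofReal_sub, Complex.norm_real, Real.norm_eq_abs] at h1 h2
  rw [h] at h1
  rw [abs_of_pos p1] at h1 h2
  have h4 := sel_inv_le C.par (i := 13) (by norm_num)
  have h5 := sel_inv_pos C.par 13
  generalize ((M : ℝ) ^ 13)⁻¹ = η at *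
  obtain ⟨a1, a2⟩ := abs_le.1 h1
  obtain ⟨a3, a4⟩ := abs_le.1 h2
  have a5 : C.D.a (gr r) ≤ 21 / 20 * C.D.a r := by linarith only [p1, a3, h4, mul_nonneg_of_nonpos_of_nonpos (le_of_lt (Mathlib.Tactic.Linarith.sub_neg_of_lt p1)) (Mathlib.Tactic.Linarith.sub_nonpos_of_le h4)]
  have a6 := mul_le_mul_of_nonneg_left a5 h5.le
  exact abs_le.2 ⟨by linarith only [a1, a4, a6], by linarith only [a2, a3, a6]⟩

end CDat

end Pool.Agent.Work.MP_97f157_lc.Tau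
end
end

-- merged part: Pool.Agent.Work.MP_97f157_lc.TauSelAux2
section
/-! Moment-norm steps for the lower bound of the harmonic amplitude. -/

noncomputable section
open Complex Finset

namespace Pool.Agent.Work.MP_97f157_lc.Tau

variable {κ : Type*} {s t : Finset κ} {g : κ → ℂ} {B : ℝ} {n : ℕ}

theorem sel_reduce {U V : κ → ℂ} (hn : s.card ≤ n) (hU : ∀ k ∈ s, ‖U k‖ ≤ 2)
    (hV : ∀ k ∈ s, ‖V k‖ ≤ 2) (hB : 0 ≤ B)
    (h : ∀ i < n, ∀ l < n, ‖∑ k ∈ s, g k * U k ^ i * V k ^ l‖ ≤ B) :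
    NB s (fun k => U k / 4) (fun k => V k / 4) g (9 ^ n * B) := by
  have h4 : ‖(4 : ℂ)‖ = 4 := by simp
  refine reduce hn (fun k hk => by rw [norm_div, h4]; linarith only [hU, hk, hU k hk])
    (fun k hk => by rw [norm_div, h4]; linarith only [hV, hk, hV k hk]) hB fun i hi l hl => ?_
  have e : mom s (fun k => U k / 4) (fun k => V k / 4) g i l =
      (1 / 4) ^ (i + l) * ∑ k ∈ s, g k * U k ^ i * V k ^ l := by
    rw [mom, mul_sum]
    exact sum_congr rfl fun k _ => by ring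
  rw [e, norm_mul, norm_pow]
  refine (mul_le_of_le_one_left (norm_nonneg _) (pow_le_one₀ (norm_nonneg _) ?_)).trans (h i hi l hl)
  rw [norm_div, h4, norm_one]
  norm_num

theorem sel_exp_sep {z w : ℂ} (h : ‖z - w‖ ≤ 1 / 2) : ‖exp w‖ * ‖z - w‖ / 2 ≤ ‖exp z - exp w‖ := by
  have h1 := Complex.norm_exp_sub_one_sub_id_le (x := z - w) (by linarith only [h])
  have h2 := norm_sub_norm_le (z - w) (exp (z - w) - 1)
  rw [norm_sub_rev (z - w)] at h2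
  have h3 := norm_nonneg (z - w)
  have e : exp z - exp w = exp w * (exp (z - w) - 1) := by
    rw [mul_sub, ← exp_add]; simp
  rw [e, norm_mul, mul_div_assoc]
  exact mul_le_mul_of_nonneg_left (by linarith only [h1, h2, h, h3, mul_nonneg_of_nonpos_of_nonpos (Mathlib.Tactic.Linarith.sub_nonpos_of_le h) (Mathlib.Tactic.Linarith.sub_nonpos_of_le h3)]) (norm_nonneg _)

theorem sel_exp_quarter {b : ℝ} (hb : |b| ≤ 1 / 4) : 3 / 4 ≤ Real.exp b ∧ Real.exp b ≤ 2 := by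
  obtain ⟨h1, h2⟩ := abs_le.1 hb
  refine ⟨by linarith only [h1, Real.add_one_le_exp b], ?_⟩
  have h3 := Real.add_one_le_exp (-b)
  have h4 : Real.exp b * Real.exp (-b) = 1 := by rw [← Real.exp_add]; simp
  (refine le_of_not_gt fun h_nl => ?_; linarith only [h_nl, h2, h3, h4, Real.exp_pos b, mul_nonneg_of_nonpos_of_nonpos (Mathlib.Tactic.Linarith.sub_nonpos_of_le h2) (le_of_lt (Mathlib.Tactic.Linarith.sub_neg_of_lt h_nl)), mul_nonneg_of_nonpos_of_nonpos (Mathlib.Tactic.Linarith.sub_nonpos_of_le h3) (le_of_lt (Mathlib.Tactic.Linarith.sub_neg_of_lt h_nl))])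

theorem sel_restrict {α β : κ → ℝ} {δ : ℝ} (ht : t ⊆ s) (hn : s.card ≤ n) (hδ : 0 < δ) (hδ1 : δ ≤ 1)
    (hα : ∀ k ∈ s, |α k - 1| ≤ 1 / 4) (hβ : ∀ k ∈ s, |β k| ≤ 1 / 4)
    (hsep : ∀ k ∈ t, ∀ w ∈ s, w ∉ t → δ ≤ |α w - α k| ∨ δ ≤ |β w - β k|)
    (h : NB s (fun k => exp (-(I * (α k : ℂ))) / 4) (fun k => exp (β k : ℂ) / 4) g B) :
    NB t (fun k => exp (-(I * (α k : ℂ))) / 4) (fun k => exp (β k : ℂ) / 4) g
      ((64 / δ) ^ (n * n) * B) := by
  classical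
  have h4 : ‖(4 : ℂ)‖ = 4 := by simp
  have h2 : ‖(1 / 2 : ℂ)‖ = 1 / 2 := by simp
  have hU : ∀ k, ‖exp (-(I * (α k : ℂ)))‖ = 1 := fun k => by
    rw [Complex.norm_exp]; simp
  have hV : ∀ k, ‖exp (β k : ℂ)‖ = Real.exp (β k) := fun k => Complex.norm_exp_ofReal _
  have h1 := Mu.indicator (u := fun k => exp (-(I * (α k : ℂ))) / 4)
    (v := fun k => exp (β k : ℂ) / 4) (δ := δ / 32) ht hn (by positivity) (by linarith only [hδ1])
    fun k hk w hw hw' => by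
      obtain ⟨a1, a2⟩ := abs_le.1 (hα k (ht hk))
      obtain ⟨a3, a4⟩ := abs_le.1 (hα w hw)
      obtain ⟨b1, b2⟩ := abs_le.1 (hβ k (ht hk))
      obtain ⟨b3, b4⟩ := abs_le.1 (hβ w hw)
      rcases hsep k hk w hw hw' with c | c
      · refine ⟨fun x => (1 / 2 : ℂ) * (exp (-(I * (α x : ℂ))) / 4 - exp (-(I * (α k : ℂ))) / 4),
          ((Mu.fst.sub (Mu.const _)).smul _).mono ?_, by simp, ?_⟩
        · rw [h2, norm_div, hU, h4]; norm_num
        · have e : ‖-(I * (α w : ℂ)) - -(I * (α k : ℂ))‖ = |α w - α k| := by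
            rw [show -(I * (α w : ℂ)) - -(I * (α k : ℂ)) = -(I * ((α w - α k : ℝ) : ℂ)) by
              push_cast; ring, norm_neg, norm_mul, norm_I, one_mul, Complex.norm_real,
              Real.norm_eq_abs]
          have h5 := sel_exp_sep (z := -(I * (α w : ℂ))) (w := -(I * (α k : ℂ)))
            (by rw [e]; exact abs_le.2 ⟨by linarith only [a2, a3], by linarith only [a1, a4]⟩)
          rw [e, hU] at h5
          rw [norm_mul, h2, ← sub_div, norm_div, h4]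
          linarith only [hδ, c, h5]
      · refine ⟨fun x => (1 / 2 : ℂ) * (exp (β x : ℂ) / 4 - exp (β k : ℂ) / 4),
          ((Mu.snd.sub (Mu.const _)).smul _).mono ?_, by simp, ?_⟩
        · rw [h2, norm_div, hV, h4]
          linarith only [hβ, ht, hk, (sel_exp_quarter (hβ k (ht hk))).2]
        · have e : ‖(β w : ℂ) - (β k : ℂ)‖ = |β w - β k| := by
            rw [← ofReal_sub, Complex.norm_real, Real.norm_eq_abs]
          have h5 := sel_exp_sep (z := (β w : ℂ)) (w := (β k : ℂ))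
            (by rw [e]; exact abs_le.2 ⟨by linarith only [b2, b3], by linarith only [b1, b4]⟩)
          rw [e, hV] at h5
          have h6 := mul_le_mul (sel_exp_quarter (hβ k (ht hk))).1 c hδ.le (Real.exp_pos _).le
          rw [norm_mul, h2, ← sub_div, norm_div, h4]
          linarith only [hδ, h5, h6]
  rw [show 2 / (δ / 32) = 64 / δ by field_simp; norm_num] at h1
  exact (NB.ite_iff ht).1 ((h1 g B h).congr (fun _ _ => rfl) (fun _ _ => rfl)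
    fun k _ => by by_cases hk : k ∈ t <;> simp [hk])

theorem sel_log_exp {z : ℂ} (h : ‖z‖ ≤ 1) : log (exp z) = z := by
  have h1 := abs_le.1 ((Complex.abs_im_le_norm z).trans h)
  exact Complex.log_exp (by linarith [Real.pi_gt_three]) (by linarith [Real.pi_gt_three])

theorem sel_recenter {p q u v : κ → ℂ} {ε : ℝ} (hn : t.card ≤ n) (hε : 0 < ε) (hε1 : ε ≤ 1 / 100)
    (hp : ∀ k ∈ t, ‖p k‖ ≤ 1 / 4) (hq : ∀ k ∈ t, ‖q k‖ ≤ 1 / 4)
    (hu : ∀ k ∈ t, u k = exp (-(I * (1 + ε * p k))) / 4)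
    (hv : ∀ k ∈ t, v k = exp (-((1 + ε * p k) * (ε * q k))) / 4) (h : NB t u v g B) :
    NB t p q g (9 ^ n * 16 ^ (2 * n) * (9 ^ n * (3 / ε) ^ (2 * n) * B)) := by
  have hεC : (ε : ℂ) ≠ 0 := by exact_mod_cast hε.ne'
  have nε : ‖(ε : ℂ)‖ = ε := by rw [Complex.norm_real, Real.norm_of_nonneg hε.le]
  have n2 : ‖(2 : ℂ)‖ = 2 := by simp
  have n4 : ‖(4 : ℂ)‖ = 4 := by simp
  have nI : ‖exp I‖ = 1 := by rw [Complex.norm_exp]; simp
  have a1 : ∀ k ∈ t, ‖-(I * (ε * p k))‖ ≤ ε / 4 := fun k hk => by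
    rw [norm_neg, norm_mul, norm_I, one_mul, norm_mul, nε]
    linarith only [hε, hp, hk, hp k hk, mul_nonneg_of_nonpos_of_nonpos (le_of_lt (Mathlib.Tactic.Linarith.sub_neg_of_lt hε)) (Mathlib.Tactic.Linarith.sub_nonpos_of_le (hp k hk))]
  have a2 : ∀ k ∈ t, ‖-((1 + ε * p k) * (ε * q k))‖ ≤ ε / 2 := fun k hk => by
    have b1 : ‖1 + ε * p k‖ ≤ 2 := by
      refine (norm_add_le _ _).trans ?_
      rw [norm_one, norm_mul, nε]
      linarith only [hε1, hε, hp, hk, hp k hk, mul_pos_of_neg_of_neg (Mathlib.Tactic.Linarith.sub_neg_of_lt hε) (Mathlib.Tactic.Linarith.sub_neg_of_lt hε), mul_nonneg_of_nonpos_of_nonpos (le_of_lt (Mathlib.Tactic.Linarith.sub_neg_of_lt hε)) (Mathlib.Tactic.Linarith.sub_nonpos_of_le hε1), mul_nonneg_of_nonpos_of_nonpos (le_of_lt (Mathlib.Tactic.Linarith.sub_neg_of_lt hε)) (Mathlib.Tactic.Linarith.sub_nonpos_of_le (hp k hk))]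
    have b2 : ‖ε * q k‖ ≤ ε / 4 := by
      rw [norm_mul, nε]
      linarith only [hε, hq, hk, hq k hk, mul_nonneg_of_nonpos_of_nonpos (le_of_lt (Mathlib.Tactic.Linarith.sub_neg_of_lt hε)) (Mathlib.Tactic.Linarith.sub_nonpos_of_le (hq k hk))]
    rw [norm_neg, norm_mul]
    linarith only [b1, b2, mul_le_mul b1 b2 (norm_nonneg _) (by norm_num)]
  set u' : κ → ℂ := fun k => (exp (-(I * (ε * p k))) - 1) / (2 * ε) with hu'
  set v' : κ → ℂ := fun k => (exp (-((1 + ε * p k) * (ε * q k))) - 1) / (4 * ε) with hv'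
  have c1 : ∀ k ∈ t, ‖u' k‖ ≤ 1 / 2 := fun k hk => by
    have := Complex.norm_exp_sub_one_le (x := -(I * (ε * p k))) ((a1 k hk).trans (by linarith only [hε, hε1]))
    rw [hu', norm_div, norm_mul, n2, nε, div_le_iff₀ (by positivity)]
    linarith only [hε, this, a1, hk, a1 k hk]
  have c2 : ∀ k ∈ t, ‖v' k‖ ≤ 1 / 2 := fun k hk => by
    have := Complex.norm_exp_sub_one_le (x := -((1 + ε * p k) * (ε * q k)))
      ((a2 k hk).trans (by linarith only [hε, hε1]))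
    rw [hv', norm_div, norm_mul, n4, nε, div_le_iff₀ (by positivity)]
    linarith only [hε, this, a2, hk, a2 k hk]
  have h1 : NB t u' v' g (9 ^ n * (3 / ε) ^ (2 * n) * B) := by
    refine h.recenter hn (by rw [le_div_iff₀ hε]; linarith only [hε, hε1]) ?_ ?_ c1 c2
    · refine ((((Mu.fst.smul (4 * exp I)).sub Mu.one).smul (2 * ε : ℂ)⁻¹).congr
        fun k hk => ?_).mono ?_
      · have e : exp (-(I * (ε * p k))) = exp I * exp (-(I * (1 + ε * p k))) := by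
          rw [← exp_add]; congr 1; ring
        rw [hu k hk, hu']
        simp only
        rw [e]
        field_simp
      · rw [norm_inv, norm_mul, norm_mul, n2, n4, nε, nI, inv_mul_eq_div,
          div_le_div_iff₀ (by positivity) hε]
        linarith only [hε]
    · refine ((((Mu.snd.smul 4).sub Mu.one).smul (4 * ε : ℂ)⁻¹).congr fun k hk => ?_).mono ?_
      · rw [hv k hk, hv']
        simp only
        field_simp
      · rw [norm_inv, norm_mul, n4, nε, inv_mul_eq_div, div_le_div_iff₀ (by positivity) hε]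
        linarith only [hε]
  have c1' : ∀ k ∈ t, ‖u' k‖ ≤ 1 := fun k hk => (c1 k hk).trans (by norm_num)
  have c2' : ∀ k ∈ t, ‖v' k‖ ≤ 1 := fun k hk => (c2 k hk).trans (by norm_num)
  have mp : Mu t u' v' p 4 := by
    have b1 : Mu t u' v' (fun k => 2 * ε * u' k) (2 * ε) := by
      simpa only [norm_mul, n2, nε, mul_one] using Mu.fst.smul (s := t) (u := u') (v := v') (2 * ε)
    refine (((b1.log_one_add c1' c2' (by positivity) (by linarith only [hε, hε1])).smul (I / ε)).congr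
      fun k hk => ?_).mono ?_
    · have e : 1 + 2 * ε * u' k = exp (-(I * (ε * p k))) := by
        rw [hu']
        simp only
        field_simp
        ring
      rw [e, sel_log_exp ((a1 k hk).trans (by linarith only [hε, hε1]))]
      field_simp
      rw [I_sq, neg_mul, one_mul, neg_neg]
    · rw [norm_div, norm_I, nε, div_mul_div_comm, div_le_iff₀ (mul_pos hε (by linarith only [hε, hε1]))]
      linarith only [hε, hε1, mul_pos_of_neg_of_neg (Mathlib.Tactic.Linarith.sub_neg_of_lt hε) (Mathlib.Tactic.Linarith.sub_neg_of_lt hε), mul_nonneg_of_nonpos_of_nonpos (le_of_lt (Mathlib.Tactic.Linarith.sub_neg_of_lt hε)) (Mathlib.Tactic.Linarith.sub_nonpos_of_le hε1)]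
  have mq : Mu t u' v' q 16 := by
    have b1 : Mu t u' v' (fun k => 4 * ε * v' k) (4 * ε) := by
      simpa only [norm_mul, n4, nε, mul_one] using Mu.snd.smul (s := t) (u := u') (v := v') (4 * ε)
    have b2 : Mu t u' v' (fun k => ε * p k) (ε * 4) := by simpa only [nε] using mp.smul ε
    have b3 := b2.inv_add c1' c2' (by positivity) (c := 1) (by rw [norm_one]; linarith only [hε, hε1])
    refine ((((b1.log_one_add c1' c2' (by positivity) (by linarith only [hε, hε1])).mul b3).smul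
      (-(ε : ℂ)⁻¹)).congr fun k hk => ?_).mono ?_
    · have e : 1 + 4 * ε * v' k = exp (-((1 + ε * p k) * (ε * q k))) := by
        rw [hv']
        simp only
        field_simp
        ring
      have e2 : 1 + ε * p k ≠ 0 := fun c => by
        have := a1 k hk
        rw [norm_neg, norm_mul, norm_I, one_mul, eq_neg_of_add_eq_zero_right c, norm_neg,
          norm_one] at this
        linarith only [hε, hε1, this]
      rw [e, sel_log_exp ((a2 k hk).trans (by linarith only [hε, hε1]))]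
      field_simp
    · have b4 : (1 - ε * 4)⁻¹ ≤ 2 := by
        rw [inv_le_comm₀ (by linarith only [hε, hε1]) (by norm_num)]; linarith only [hε, hε1]
      have b5 : 4 * ε / (1 - 4 * ε) ≤ 8 * ε := by
        rw [div_le_iff₀ (by linarith only [hε, hε1])]; linarith only [hε, hε1, mul_pos_of_neg_of_neg (Mathlib.Tactic.Linarith.sub_neg_of_lt hε) (Mathlib.Tactic.Linarith.sub_neg_of_lt hε), mul_nonneg_of_nonpos_of_nonpos (le_of_lt (Mathlib.Tactic.Linarith.sub_neg_of_lt hε)) (Mathlib.Tactic.Linarith.sub_nonpos_of_le hε1)]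
      have b6 := mul_le_mul b5 b4 (inv_nonneg.2 (by linarith only [hε, hε1])) (by positivity)
      rw [norm_neg, norm_inv, nε, norm_one, inv_mul_le_iff₀ hε]
      linarith only [b6]
  exact h1.recenter hn (by norm_num) (mp.mono (by norm_num)) mq
    (fun k hk => (hp k hk).trans (by norm_num)) fun k hk => (hq k hk).trans (by norm_num)

theorem sel_divide {p q W : κ → ℂ} {ε h Ω y : ℝ} {J : ℕ} (hε : 0 < ε) (hε1 : ε ≤ 1 / 100)
    (hh : 0 < h) (hΩ : 0 ≤ Ω) (hJ : ((J : ℝ) + 1) * ε ≤ 1 / 10) (hΩ1 : Ω * ε ≤ 1 / 10)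
    (hy : |y| * ε ≤ 1 / 10) (hp : ∀ k ∈ t, ‖p k‖ ≤ 1 / 4) (hq : ∀ k ∈ t, ‖q k‖ ≤ 1 / 4)
    (hg : ∀ k ∈ t, g k = W k * (h * (1 + ε * p k)) *
      ((1 + ε * p k) ^ J * exp (-(J * (ε * p k)))) * exp (-(Ω * ((1 + ε * p k) * (ε * q k)))) *
        exp (-(I * (y * (1 + ε * p k)))))
    (hB : NB t p q g B) : NB t p q W (3 / h * B) := by
  have nε : ‖(ε : ℂ)‖ = ε := by rw [Complex.norm_real, Real.norm_of_nonneg hε.le]
  have c1 : ∀ k ∈ t, ‖p k‖ ≤ 1 := fun k hk => (hp k hk).trans (by norm_num)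
  have c2 : ∀ k ∈ t, ‖q k‖ ≤ 1 := fun k hk => (hq k hk).trans (by norm_num)
  have b1 : Mu t p q (fun k => ε * p k) ε := by
    simpa only [nε, mul_one] using Mu.fst.smul (s := t) (u := p) (v := q) ε
  have b2 : Mu t p q (fun k => ε * q k) ε := by
    simpa only [nε, mul_one] using Mu.snd.smul (s := t) (u := p) (v := q) ε
  have b3 : Mu t p q (fun k => log (1 + ε * p k)) (2 * ε) :=
    (b1.log_one_add c1 c2 hε.le (by linarith only [hε, hε1])).mono (by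
      rw [div_le_iff₀ (by linarith only [hε, hε1])]; linarith only [hε, hε1, mul_nonneg_of_nonpos_of_nonpos (le_of_lt (Mathlib.Tactic.Linarith.sub_neg_of_lt hε)) (Mathlib.Tactic.Linarith.sub_nonpos_of_le hε1)])
  have b4 : Mu t p q (fun k => -((J : ℂ) + 1) * log (1 + ε * p k) + J * (ε * p k) +
      Ω * ((1 + ε * p k) * (ε * q k)) + I * y * (ε * p k)) 1 := by
    refine ((((b3.smul _).add (b1.smul _)).add (((Mu.one.add b1).mul b2).smul _)).add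
      (b1.smul _)).mono ?_
    have e1 : ‖-((J : ℂ) + 1)‖ = J + 1 := by
      rw [norm_neg]; exact_mod_cast Complex.norm_natCast (J + 1)
    rw [e1, Complex.norm_natCast, Complex.norm_real, Real.norm_of_nonneg hΩ, norm_mul, norm_I,
      one_mul, Complex.norm_real, Real.norm_eq_abs]
    have := mul_le_mul hΩ1 hε1 hε.le (by norm_num)
    linarith only [hε, hε1, hJ, hΩ1, hy, this]
  have b5 := (b4.exp zero_le_one).smul ((h : ℂ)⁻¹ * exp (I * y))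
  refine ((b5 g B hB).congr (fun _ _ => rfl) (fun _ _ => rfl) fun k hk => ?_).mono ?_
  · have e2 : 1 + ε * p k ≠ 0 := fun c => by
      have := b1.pt c1 c2 k hk
      rw [eq_neg_of_add_eq_zero_right c, norm_neg, norm_one] at this
      linarith only [hε, hε1, this]
    have hhC : (h : ℂ) ≠ 0 := by exact_mod_cast hh.ne'
    obtain ⟨L, hL⟩ : ∃ L, L = log (1 + ε * p k) := ⟨_, rfl⟩
    have e3 : exp L = 1 + ε * p k := by rw [hL, exp_log e2]
    have e4 : exp (I * y) * exp (-((J : ℂ) + 1) * L + J * (ε * p k) +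
        Ω * ((1 + ε * p k) * (ε * q k)) + I * y * (ε * p k)) * (exp L * (exp (J * L) *
          exp (-(J * (ε * p k)))) * exp (-(Ω * ((1 + ε * p k) * (ε * q k)))) *
            exp (-(I * (y * (1 + ε * p k))))) = 1 := by
      simp only [← exp_add]
      refine Eq.trans (congrArg exp ?_) exp_zero
      ring
    rw [exp_nat_mul, e3] at e4
    simp only
    rw [hg k hk, ← hL]
    calc _ = W k * ((h : ℂ)⁻¹ * h) * (exp (I * y) * exp (-((J : ℂ) + 1) * L + J * (ε * p k) +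
        Ω * ((1 + ε * p k) * (ε * q k)) + I * y * (ε * p k)) * ((1 + ε * p k) *
          ((1 + ε * p k) ^ J * exp (-(J * (ε * p k)))) *
            exp (-(Ω * ((1 + ε * p k) * (ε * q k)))) * exp (-(I * (y * (1 + ε * p k)))))) := by ring
      _ = W k := by rw [e4, inv_mul_cancel₀ hhC, mul_one, mul_one]
  · refine mul_le_mul_of_nonneg_right ?_ hB.nonneg
    have nI : ‖exp (I * y)‖ = 1 := by rw [Complex.norm_exp]; simp
    rw [norm_mul, nI, mul_one, norm_inv, Complex.norm_real, Real.norm_of_nonneg hh.le,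
      inv_mul_eq_div]
    exact div_le_div_of_nonneg_right (Real.exp_one_lt_d9.le.trans (by norm_num)) hh.le

end Pool.Agent.Work.MP_97f157_lc.Tau
end
end

-- merged part: Pool.Agent.Work.MP_97f157_lc.TauSelAux3
section
/-! The lower bound for the harmonic amplitude of the coarse group of `g0`. -/

noncomputable section
open Complex Finset

namespace Pool.Agent.Work.MP_97f157_lc.Tau

variable {ι : Type*} {m M : ℕ}

theorem sel_sep_real {a1 a2 c1 c2 e : ℝ} (he : 0 < e) (h1 : |a1 - 1| ≤ 1 / 100)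
    (h2 : |c2| ≤ 1 / 100) (h3 : |a2 - a1| ≤ e / 2) (h4 : 99 / 100 * e ≤ |c2 - c1|) :
    e / 2 ≤ |a2 * c2 - a1 * c1| := by
  have e1 : a1 * (c2 - c1) = (a2 * c2 - a1 * c1) - (a2 - a1) * c2 := by ring
  have h5 := abs_sub (a2 * c2 - a1 * c1) ((a2 - a1) * c2)
  have h6 := (abs_le.1 h1).1
  rw [← e1, abs_mul, abs_mul, abs_of_pos (show 0 < a1 by linarith only [h6])] at h5
  have h7 := mul_le_mul h3 h2 (abs_nonneg _) (by linarith only [he])
  have h8 := mul_le_mul (show 99 / 100 ≤ a1 by linarith only [h6]) h4 (by linarith only [he]) (by linarith only [h6])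
  linarith only [he, h5, h7, h8]

theorem sel_final (hp : Par m M) {B N h : ℝ} (hh : 0 < h) (hB : 0 ≤ B)
    (hN : N ≤ 3 / h * (9 ^ M * 16 ^ (2 * M) * (9 ^ M * (3 / eC1 M) ^ (2 * M) *
      ((64 / (eC0 M / 2)) ^ (M * M) * (9 ^ M * B))))) :
    Real.exp (-(M : ℝ) ^ 4) * N * h ≤ B := by
  have hM : 2 ≤ M := le_trans (by norm_num) hp.big
  have k1 : M ≤ M * M := Nat.le_mul_self M
  have k2 : 2 * M ≤ M * M := Nat.mul_le_mul_right M hM
  have b1 := sel_pow_exp hp (c := 9) (by norm_num) (sel_const_exp hp (by norm_num)) k1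
  have b2 := sel_pow_exp hp (c := 16) (by norm_num) (sel_const_exp hp (by norm_num)) k2
  have b3 : (3 / eC1 M) ^ (2 * M) ≤ Real.exp ((M : ℝ) ^ 3) := by
    rw [eC1, div_inv_eq_mul]
    exact sel_pow_exp hp (mul_pos (by norm_num) (hp.pow_pos _)).le
      ((hp.mul_pow_le (by norm_num) (Nat.lt_succ_self _)).trans (hp.pow_le_exp (by norm_num))) k2
  have b4 : (64 / (eC0 M / 2)) ^ (M * M) ≤ Real.exp ((M : ℝ) ^ 3) := by
    rw [eC0, div_div_eq_mul_div, div_inv_eq_mul]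
    exact sel_pow_exp hp (mul_pos (by norm_num) (hp.pow_pos _)).le
      ((hp.mul_pow_le (by norm_num) (Nat.lt_succ_self _)).trans (hp.pow_le_exp (by norm_num))) le_rfl
  have b5 := sel_pow_exp hp (c := 3) (by norm_num) (sel_const_exp hp (by norm_num))
    (k := 1) (by linarith only [hM, k2])
  rw [pow_one] at b5
  have b6 : Real.exp ((M : ℝ) ^ 3) ^ 7 ≤ Real.exp ((M : ℝ) ^ 4) := by
    rw [← Real.exp_nat_mul]
    exact Real.exp_le_exp.2 (hp.mul_pow_le (by norm_num) (by norm_num))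
  have p1 : 0 ≤ (3 / eC1 M) ^ (2 * M) := pow_nonneg (div_pos (by norm_num) (sel_inv_pos hp _)).le _
  have p2 : 0 ≤ (64 / (eC0 M / 2)) ^ (M * M) :=
    pow_nonneg (div_pos (by norm_num) (half_pos (sel_inv_pos hp _))).le _
  generalize (3 / eC1 M) ^ (2 * M) = x3 at *
  generalize (64 / (eC0 M / 2)) ^ (M * M) = x4 at *
  have p3 : (0 : ℝ) ≤ 9 ^ M := by positivity
  have p4 : (0 : ℝ) ≤ 16 ^ (2 * M) := by positivity
  generalize (9 : ℝ) ^ M = x1 at *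
  generalize (16 : ℝ) ^ (2 * M) = x2 at *
  have p5 := (Real.exp_pos ((M : ℝ) ^ 3)).le
  generalize Real.exp ((M : ℝ) ^ 3) = E at *
  have b7 : N * h ≤ E ^ 7 * B := by
    rw [← le_div_iff₀ hh]
    refine hN.trans ?_
    rw [div_mul_eq_mul_div]
    refine div_le_div_of_nonneg_right ?_ hh.le
    calc _ ≤ E * (E * E * (E * E * (E * (E * B)))) := by clear * - E x1 x2 x3 x4 B b5 b1 b2 p4 b3 p1 b4 hB p3 p2; gcongr
      _ = _ := by ring
  rw [Real.exp_neg, mul_assoc, inv_mul_le_iff₀ (Real.exp_pos _)]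
  exact b7.trans (mul_le_mul_of_nonneg_right b6 hB)

namespace CDat
variable (C : CDat ι m M)

theorem sel_card {S : Finset ι} (hS : S ⊆ C.D.s) : S.card ≤ M := by
  have := card_le_card hS
  have := C.card
  have := C.par.two
  omega

theorem sel_shift (S : Finset ι) (h : ℝ) (j i l : ℕ) (ω y : ℝ) :
    C.gA S h j ((ω + l / C.d : ℝ) : ℂ) (y + i) = ∑ k ∈ S,
      (C.D.W k : ℂ) * (C.D.a k : ℂ) * (gw j (C.D.a k / h) : ℂ) *
        exp (ω * ((C.D.a k / h * (C.D.x k + C.d) : ℝ) : ℂ)) *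
          exp (-(I * ((y * (C.D.a k / h) : ℝ) : ℂ))) * exp (-(I * ((C.D.a k / h : ℝ) : ℂ))) ^ i *
            exp ((C.D.a k / h * ((C.D.x k + C.d) / C.d) : ℝ) : ℂ) ^ l := by
  refine sum_congr rfl fun k _ => ?_
  rw [← exp_nat_mul, ← exp_nat_mul]
  simp only [mul_assoc, ← exp_add]
  congr 4
  push_cast
  ring

theorem sel_slow {gr : ι → ι}
    (hgr : RClus C.D.s (fun k => (C.D.a k : ℂ)) gr (4 * ((M : ℝ) ^ 13)⁻¹) ((M : ℝ) ^ 14)⁻¹) :
    ∃ i i' : ℕ, i ≤ M ∧ i' ≤ M ∧ Real.exp (-(M : ℝ) ^ 4) * C.N0 * C.D.a C.g0 ≤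
      ‖C.gA (cls C.D.s gr (gr C.g0)) (C.D.a C.g0) C.jc ((C.ω0 + i' / C.d : ℝ) : ℂ) (C.y0 + i)‖ := by
  have hp := C.par
  have hd := C.dpos
  have hh := C.apos _ C.g0mem
  obtain ⟨⟨i, l⟩, hil, hmax⟩ := exists_max_image (range M ×ˢ range M) (fun z : ℕ × ℕ =>
    ‖C.gA (cls C.D.s gr (gr C.g0)) (C.D.a C.g0) C.jc ((C.ω0 + z.2 / C.d : ℝ) : ℂ) (C.y0 + z.1)‖)
    ⟨(0, 0), mem_product.2 ⟨mem_range.2 hp.one_leN, mem_range.2 hp.one_leN⟩⟩
  refine ⟨i, l, (mem_range.1 (mem_product.1 hil).1).le, (mem_range.1 (mem_product.1 hil).2).le,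
    sel_final hp hh (norm_nonneg _) ?_⟩
  set B := ‖C.gA (cls C.D.s gr (gr C.g0)) (C.D.a C.g0) C.jc ((C.ω0 + l / C.d : ℝ) : ℂ) (C.y0 + i)‖
  set s := cls C.D.s gr (gr C.g0) with hs
  set t := cls C.D.s C.cl C.g0 with ht
  have hs1 : s ⊆ C.D.s := fun k hk => (mem_cls.1 hk).1
  have hts : t ⊆ s := fun k hk => by
    obtain ⟨h1, h2⟩ := mem_cls.1 hk
    exact mem_cls.2 ⟨h1, by rw [← C.sel_gr_cl hgr k h1, h2]⟩
  have hα : ∀ k ∈ s, |C.D.a k / C.D.a C.g0 - 1| ≤ 1 / 100 := fun k hk => by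
    have h1 := C.sel_gr_near hgr (hs1 hk) C.g0mem (mem_cls.1 hk).2
    have h2 := sel_inv_le hp (i := 13) (by norm_num)
    rw [div_sub_one hh.ne', abs_div, abs_of_pos hh, div_le_iff₀ hh]
    exact h1.trans (mul_le_mul_of_nonneg_right (by linarith only [h2]) hh.le)
  have hγ : ∀ k ∈ s, |(C.D.x k + C.d) / C.d| ≤ 1 / 100 := fun k hk => by
    have h2 := sel_inv_le hp (i := 7989) (by norm_num)
    rw [abs_div, abs_of_pos hd, div_le_iff₀ hd]
    exact (C.band k (hs1 hk)).trans (mul_le_mul_of_nonneg_right (by linarith only [h2]) hd.le)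
  have hβ : ∀ k ∈ s, |C.D.a k / C.D.a C.g0 * ((C.D.x k + C.d) / C.d)| ≤ 1 / 4 := fun k hk => by
    obtain ⟨h1, h2⟩ := abs_le.1 (hα k hk)
    rw [abs_mul, abs_of_pos (show 0 < C.D.a k / C.D.a C.g0 by linarith only [h1])]
    linarith only [h2, hγ, hk, mul_le_mul (show C.D.a k / C.D.a C.g0 ≤ 2 by linarith) (hγ k hk) (abs_nonneg _)
      (by norm_num)]
  have he0 : 0 < eC0 M := sel_inv_pos hp _
  have he0' : eC0 M ≤ 1 / 10 ^ 12 := sel_inv_le hp (by norm_num)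
  have he1 : 0 < eC1 M := sel_inv_pos hp _
  have he1' : eC1 M ≤ 1 / 10 ^ 12 := sel_inv_le hp (by norm_num)
  have n1 := sel_reduce (s := s) (n := M) (B := B)
    (U := fun k => exp (-(I * ((C.D.a k / C.D.a C.g0 : ℝ) : ℂ))))
    (V := fun k => exp ((C.D.a k / C.D.a C.g0 * ((C.D.x k + C.d) / C.d) : ℝ) : ℂ))
    (C.sel_card hs1) (fun k _ => by rw [Complex.norm_exp]; simp)
    (fun k hk => by rw [Complex.norm_exp_ofReal]; exact (sel_exp_quarter (hβ k hk)).2)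
    (norm_nonneg _) fun i' hi' l' hl' => by
      rw [← C.sel_shift]
      exact hmax (i', l') (mem_product.2 ⟨mem_range.2 hi', mem_range.2 hl'⟩)
  have n2 := sel_restrict (δ := eC0 M / 2) hts (C.sel_card hs1) (by linarith only [he0]) (by linarith only [he0, he0'])
    (fun k hk => (hα k hk).trans (by norm_num)) hβ (fun k hk w hw hw' => by
      obtain ⟨k1, k2⟩ := mem_cls.1 hk
      by_cases c : eC0 M / 2 ≤ |C.D.a w / C.D.a C.g0 - C.D.a k / C.D.a C.g0|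
      · exact Or.inl c
      refine Or.inr (sel_sep_real he0 (hα k (hts hk)) (hγ w hw) (not_le.1 c).le ?_)
      rcases C.clus.sep w (hs1 hw) k k1 (fun e => hw' (mem_cls.2 ⟨hs1 hw, e.trans k2⟩)) with c' | c'
      · exfalso
        have a1 := (abs_le.1 (hα k (hts hk))).1
        have a2 := (abs_le.1 (hα w hw)).1
        rw [← sub_div, abs_div, abs_of_pos hh, not_le, div_lt_iff₀ hh] at c
        rw [abs_of_pos (C.apos w (hs1 hw)), abs_of_pos (C.apos k k1)] at c'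
        rw [le_sub_iff_add_le, le_div_iff₀ hh] at a1 a2
        have a3 := mul_le_mul_of_nonneg_left (le_min a2 a1) he0.le
        linarith only [c, c', a3, he0, hh, mul_pos he0 hh]
      · have a3 := mul_le_mul_of_nonneg_left
          (le_min (C.x_abs w (hs1 hw)).1 (C.x_abs k k1).1) he0.le
        rw [← sub_div, add_sub_add_right_eq_sub, abs_div, abs_of_pos hd, le_div_iff₀ hd]
        linarith only [c', a3]) n1
  have hrv := C.clus.rv_le he1 (fun k hk => (C.apos k hk).ne') C.xne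
  have hhC : (C.D.a C.g0 : ℂ) ≠ 0 := by exact_mod_cast hh.ne'
  have hdC : (C.d : ℂ) ≠ 0 := by exact_mod_cast hd.ne'
  have ea : ∀ k ∈ t, (C.D.a k : ℂ) =
      C.D.a C.g0 * (1 + eC1 M * rv (fun k => (C.D.a k : ℂ)) C.cl (eC1 M) k) := fun k hk => by
    have h1 := rv_eq (f := fun k => (C.D.a k : ℂ)) (rep := C.cl) he1.ne' (k := k)
      (by rw [(mem_cls.1 hk).2]; exact hhC)
    rwa [(mem_cls.1 hk).2] at h1
  have ex : ∀ k ∈ t, (C.D.x k : ℂ) =
      -C.d * (1 + eC1 M * rv (fun k => (C.D.x k : ℂ)) C.cl (eC1 M) k) := fun k hk => by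
    have h1 := rv_eq (f := fun k => (C.D.x k : ℂ)) (rep := C.cl) he1.ne' (k := k)
      (by rw [(mem_cls.1 hk).2]; exact_mod_cast C.xne _ C.g0mem)
    rwa [(mem_cls.1 hk).2, C.g0x, ofReal_neg] at h1
  have hp1 := fun k (hk : k ∈ t) => (hrv k (hs1 (hts hk))).1
  have hq1 := fun k (hk : k ∈ t) => (hrv k (hs1 (hts hk))).2
  have n3 := sel_recenter (C.sel_card (hts.trans hs1)) he1 (by linarith only [he0, he0', he1']) hp1 hq1
    (fun k hk => by
      congr 4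
      rw [ofReal_div, ea k hk, mul_div_cancel_left₀ _ hhC])
    (fun k hk => by
      congr 2
      push_cast
      rw [ea k hk, ex k hk]
      field_simp
      ring) n2
  have e8 : (M : ℝ) ^ 8000 * eC1 M ≤ 1 / 10 ^ 12 := by
    rw [eC1, show (16000 : ℕ) = 8000 + 8000 from rfl, pow_add, mul_inv,
      mul_inv_cancel_left₀ (hp.pow_pos _).ne']
    exact sel_inv_le hp (by norm_num)
  have n4 := sel_divide (W := fun k => (C.D.W k : ℂ)) (Ω := C.ω0 * C.d) (y := C.y0) (J := C.jc)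
    he1 (by linarith only [he0, he0', he1']) hh (mul_pos C.sel_ω0_pos hd).le
    (by linarith only [he0, he0', he1', e8, he1, mul_le_mul_of_nonneg_right C.sel_jc.2 he1.le])
    (by linarith only [he0, he0', e8, he1, mul_le_mul_of_nonneg_right C.sel_ω0_range.2 he1.le])
    (by
      have a1 := C.sel_y0_range.2.trans (mul_le_mul_of_nonneg_left
        (hp.pow_mono (k := 8000) (by norm_num)) (by norm_num))
      rw [abs_of_pos C.sel_y0_pos]
      linarith only [he0, he0', e8, a1, he1, mul_le_mul_of_nonneg_right a1 he1.le]) hp1 hq1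
    (fun k hk => by
      have e1 : (C.D.a k : ℂ) / C.D.a C.g0 =
          1 + eC1 M * rv (fun k => (C.D.a k : ℂ)) C.cl (eC1 M) k := by
        rw [ea k hk, mul_div_cancel_left₀ _ hhC]
      rw [gw]
      push_cast
      rw [e1, ex k hk, ← ea k hk, add_sub_cancel_left]
      congr 3
      ring) n3
  rw [← C.g0N]
  exact n4.Nm_le

end CDat

end Pool.Agent.Work.MP_97f157_lc.Tau
end
end

-- merged part: Pool.Agent.Work.MP_97f157_lc.TauSel
section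
/-! Selection of the level `S` and of a near-maximiser. -/

noncomputable section
open Complex Finset Metric

namespace Pool.Agent.Work.MP_97f157_lc.Tau

variable {ι : Type*} {m M : ℕ}

namespace CDat
variable (C : CDat ι m M)

/-- union of coarse groups -/
def GSat (gr : ι → ι) (S : Finset ι) : Prop := S ⊆ C.D.s ∧ ∀ k ∈ C.D.s, k ∈ S ↔ gr k ∈ S

theorem gr_cl {gr : ι → ι}
    (hgr : RClus C.D.s (fun k => (C.D.a k : ℂ)) gr (4 * ((M : ℝ) ^ 13)⁻¹) ((M : ℝ) ^ 14)⁻¹) :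
    ∀ k ∈ C.D.s, gr (C.cl k) = gr k := C.sel_gr_cl hgr

theorem GSat.sat {gr : ι → ι}
    (hgr : RClus C.D.s (fun k => (C.D.a k : ℂ)) gr (4 * ((M : ℝ) ^ 13)⁻¹) ((M : ℝ) ^ 14)⁻¹)
    {S : Finset ι} (h : C.GSat gr S) : C.Sat S :=
  ⟨h.1, fun k hk => by rw [h.2 k hk, h.2 _ (C.clus.mem k hk), C.gr_cl hgr k hk]⟩

theorem gsat_cls {gr : ι → ι}
    (hgr : RClus C.D.s (fun k => (C.D.a k : ℂ)) gr (4 * ((M : ℝ) ^ 13)⁻¹) ((M : ℝ) ^ 14)⁻¹)
    (G : ι) (hG : G ∈ C.D.s) (hGG : gr G = G) : C.GSat gr (cls C.D.s gr G) :=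
  have _ := hG
  have _ := hGG
  ⟨fun _ hk => (mem_cls.1 hk).1, fun k hk => by
    rw [mem_cls, mem_cls, hgr.idem k hk]
    exact ⟨fun h => ⟨hgr.mem k hk, h.2⟩, fun h => ⟨hk, h.2⟩⟩⟩

/-- With `h = a g0`, `α = a k / h`, `e = x k + d`, the values are `∑ g U^i V^i'`,
`U = exp (-I α)`, `V = exp (α e / d)`, over the coarse group of `g0`.  `reduce` for `(U/4, V/4)`;
`Mu.indicator` for the cluster of `g0` (a point outside is separated from each point inside by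
`eC0/100` in `U` or in `V`); `NB.recenter` to `((U/U0 - 1)/(2ε), (V - 1)/(4ε))`, `ε = eC1`; then to
`(rv a, rv x)` through `Mu.log_one_add` (`α - 1 = I log (U/U0)`, `α e / d = log V`,
`e / d = - ε v`), finally divide by `g / W` (`Mu.exp`, `Mu.inv_add`). -/
theorem slow_lower {gr : ι → ι}
    (hgr : RClus C.D.s (fun k => (C.D.a k : ℂ)) gr (4 * ((M : ℝ) ^ 13)⁻¹) ((M : ℝ) ^ 14)⁻¹) :
    ∃ i i' : ℕ, i ≤ M ∧ i' ≤ M ∧ Real.exp (-(M : ℝ) ^ 4) * C.N0 * C.D.a C.g0 ≤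
      ‖C.gA (cls C.D.s gr (gr C.g0)) (C.D.a C.g0) C.jc ((C.ω0 + i' / C.d : ℝ) : ℂ) (C.y0 + i)‖ :=
  C.sel_slow hgr

theorem arg_of_near (j : ℕ) (ω y : ℝ) (hj : |(j : ℝ) - C.jc| ≤ 4 * (M : ℝ) ^ 7993)
    (hω : |ω - C.ω0| ≤ 4 * ((M : ℝ) ^ 7)⁻¹ * C.ω0) (hy : |y - C.y0| ≤ 4 * ((M : ℝ) ^ 7)⁻¹ * C.y0) :
    C.Arg j ω y ∧ 2 * |y| ≤ (M : ℝ) ^ 8000 ∧ Reg M 1 C.jc C.d j (j / ω) (y / ω) ∧
      (M : ℝ) ^ 8000 / C.d ≤ 2 * ω ∧ ω * C.d ≤ 3 * (M : ℝ) ^ 8000 ∧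
      (M : ℝ) ^ 7995 ≤ 2 * y ∧ y ≤ 3 * (M : ℝ) ^ 7995 := C.sel_arg j ω y hj hω hy

/-- normalised amplitudes on the box of radius `R` -/
def selSet (gr : ι → ι) (R : ℝ) : Set ℝ :=
  {v | ∃ G ∈ C.D.s, gr G = G ∧ ∃ h : ℝ, 0 < h ∧ ∃ (j : ℕ) (ω y : ℝ),
    |(j : ℝ) - C.jc| ≤ R * (M : ℝ) ^ 7988 ∧ |ω - C.ω0| ≤ R * (((M : ℝ) ^ 12)⁻¹ * C.ω0) ∧
      |y - C.y0| ≤ R * (((M : ℝ) ^ 12)⁻¹ * C.y0) ∧ v = ‖C.gA (cls C.D.s gr G) h j ω y‖ / √h}

theorem sel_box {R : ℝ} (hR : R ≤ 3 * (M : ℝ) ^ 5) :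
    R * (M : ℝ) ^ 7988 ≤ 3 * (M : ℝ) ^ 7993 ∧
      R * (((M : ℝ) ^ 12)⁻¹ * C.ω0) ≤ 3 * ((M : ℝ) ^ 7)⁻¹ * C.ω0 ∧
        R * (((M : ℝ) ^ 12)⁻¹ * C.y0) ≤ 3 * ((M : ℝ) ^ 7)⁻¹ * C.y0 := by
  have hp := C.par
  have h1 : R * ((M : ℝ) ^ 12)⁻¹ ≤ 3 * ((M : ℝ) ^ 7)⁻¹ := by
    refine (mul_le_mul_of_nonneg_right hR (sel_inv_pos hp 12).le).trans (le_of_eq ?_)
    have := hp.pos.ne'
    field_simp
  refine ⟨(mul_le_mul_of_nonneg_right hR (hp.pow_pos _).le).trans (le_of_eq ?_), ?_, ?_⟩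
  · rw [mul_assoc, ← pow_add]
  · rw [← mul_assoc]; exact mul_le_mul_of_nonneg_right h1 C.sel_ω0_pos.le
  · rw [← mul_assoc]; exact mul_le_mul_of_nonneg_right h1 C.sel_y0_pos.le

theorem selSet_le {gr : ι → ι}
    (hgr : RClus C.D.s (fun k => (C.D.a k : ℂ)) gr (4 * ((M : ℝ) ^ 13)⁻¹) ((M : ℝ) ^ 14)⁻¹)
    {R : ℝ} (hR : R ≤ 3 * (M : ℝ) ^ 5) : ∀ v ∈ C.selSet gr R, v ≤ (M : ℝ) ^ 4000 * C.N0 / √C.d := by
  rintro v ⟨G, hG, hGG, h, hh, j, ω, y, hj, hω, hy, rfl⟩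
  obtain ⟨b1, b2, b3⟩ := C.sel_box hR
  have p1 := C.par.pow_pos 7993
  have p2 := mul_pos (sel_inv_pos C.par 7) C.sel_ω0_pos
  have p3 := mul_pos (sel_inv_pos C.par 7) C.sel_y0_pos
  rw [div_le_iff₀ (Real.sqrt_pos.2 hh)]
  exact C.gA_le (GSat.sat C hgr (C.gsat_cls hgr G hG hGG)) h hh j ω y
    (C.arg_of_near j ω y (by linarith only [hj, b1, p1]) (by linarith only [hω, b2, p2]) (by linarith only [hy, b3, p3])).1

theorem selSet_mono (gr : ι → ι) {R R' : ℝ} (hR : R ≤ R') : C.selSet gr R ⊆ C.selSet gr R' := by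
  rintro v ⟨G, hG, hGG, h, hh, j, ω, y, hj, hω, hy, rfl⟩
  exact ⟨G, hG, hGG, h, hh, j, ω, y,
    hj.trans (mul_le_mul_of_nonneg_right hR (C.par.pow_pos _).le),
    hω.trans (mul_le_mul_of_nonneg_right hR (mul_pos (sel_inv_pos C.par _) C.sel_ω0_pos).le),
    hy.trans (mul_le_mul_of_nonneg_right hR (mul_pos (sel_inv_pos C.par _) C.sel_y0_pos).le), rfl⟩

theorem sel_ad (k : ι) (hk : k ∈ C.D.s) : 1 ≤ C.D.a k * C.d := by
  have h1 := C.alo k hk
  have h2 := C.par.mul_pow_le (c := 2) (by norm_num) (i := 0) (k := 267) (by norm_num)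
  rw [pow_zero] at h2
  linarith only [h1, h2]

theorem selSet_one {gr : ι → ι}
    (hgr : RClus C.D.s (fun k => (C.D.a k : ℂ)) gr (4 * ((M : ℝ) ^ 13)⁻¹) ((M : ℝ) ^ 14)⁻¹) :
    ∃ v ∈ C.selSet gr 1, Real.exp (-(M : ℝ) ^ 4) * C.N0 / √C.d ≤ v := by
  have hp := C.par
  have hd := C.dpos
  have hh := C.apos _ C.g0mem
  obtain ⟨i, l, hi, hl, h⟩ := C.slow_lower hgr
  have hi' : (i : ℝ) ≤ M := by exact_mod_cast hi
  have hl' : (l : ℝ) ≤ M := by exact_mod_cast hl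
  have p12 := sel_inv_pos hp 12
  refine ⟨_, ⟨gr C.g0, hgr.mem _ C.g0mem, hgr.idem _ C.g0mem, _, hh, C.jc, C.ω0 + l / C.d,
    C.y0 + i, ?_, ?_, ?_, rfl⟩, ?_⟩
  · rw [sub_self, abs_zero, one_mul]; exact (hp.pow_pos _).le
  · have a1 := mul_le_mul_of_nonneg_left C.sel_ω0_range.1 p12.le
    have a2 := hp.pow_mono (i := 1) (k := 7988) (by norm_num)
    rw [← sel_pow_split hp (i := 7988) rfl] at a1
    rw [add_sub_cancel_left, abs_of_nonneg (by positivity), div_le_iff₀ hd]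
    linarith only [hl', a1, a2]
  · have a1 := mul_le_mul_of_nonneg_left C.sel_y0_range.1 p12.le
    have a2 := hp.pow_mono (i := 1) (k := 7983) (by norm_num)
    rw [← sel_pow_split hp (i := 7983) rfl] at a1
    rw [add_sub_cancel_left, abs_of_nonneg (by positivity)]
    linarith only [hi', a1, a2]
  · have s1 := Real.sqrt_pos.2 hh
    have s2 := Real.sqrt_pos.2 hd
    have s3 : 1 ≤ √(C.D.a C.g0) * √C.d := by
      rw [← Real.sqrt_mul hh.le]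
      exact Real.one_le_sqrt.2 (C.sel_ad _ C.g0mem)
    have s4 := mul_pos (Real.exp_pos (-(M : ℝ) ^ 4)) C.N0pos
    rw [le_div_iff₀ s1]
    refine le_trans ?_ h
    rw [div_mul_eq_mul_div, div_le_iff₀ s2, mul_assoc _ (C.D.a C.g0)]
    refine mul_le_mul_of_nonneg_left ?_ s4.le
    (refine le_of_not_gt fun h_nl => ?_; linarith only [h_nl, hh, s3, s1, Real.mul_self_sqrt hh.le, mul_nonneg_of_nonpos_of_nonpos (le_of_lt (Mathlib.Tactic.Linarith.sub_neg_of_lt hh)) (Mathlib.Tactic.Linarith.sub_nonpos_of_le s3), mul_pos_of_neg_of_neg (Mathlib.Tactic.Linarith.sub_neg_of_lt s1) (Mathlib.Tactic.Linarith.sub_neg_of_lt h_nl)])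

/-- `f r` = supremum of `‖gA G h j ω y‖ / √h` over the box of radius `r + 1` (steps `M^7988`,
`M^{-12} ω0`, `M^{-12} y0`), bounded by `gA_le`; `slow_lower`, `exists_slow_step` with `X = M^5`-ish,
`n = 2 M^5 + 1`; `S = f (r+1)`. -/
theorem exists_sel : Nonempty C.Sel := by
  have hp := C.par
  have hm := hp.mle
  obtain ⟨gr, hgr⟩ := exists_rclus C.D.s (fun k => (C.D.a k : ℂ))
    (fun k hk => by exact_mod_cast (C.apos k hk).ne') (e1 := 4 * ((M : ℝ) ^ 13)⁻¹)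
    (e0 := ((M : ℝ) ^ 14)⁻¹) C.card (sel_inv_pos hp _) (by
      have h1 : ((M : ℝ) ^ 13)⁻¹ = M * ((M : ℝ) ^ 14)⁻¹ := by
        have := hp.pos.ne'
        field_simp
      rw [h1]
      linarith only [hm, hp, mul_le_mul_of_nonneg_right hm (sel_inv_pos hp 14).le])
    (by linarith only [hp, sel_inv_le hp (i := 13) (by norm_num)])
  obtain ⟨v0, hv0, hv1⟩ := C.selSet_one hgr
  have p0 : 0 < Real.exp (-(M : ℝ) ^ 4) * C.N0 / √C.d :=
    div_pos (mul_pos (Real.exp_pos _) C.N0pos) (Real.sqrt_pos.2 C.dpos)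
  have h5 := hp.mul_pow_le (c := 2) (by norm_num) (i := 0) (k := 5) (by norm_num)
  rw [pow_zero] at h5
  have hb : ∀ r : ℕ, r ≤ 2 * M ^ 5 + 1 → (r : ℝ) + 1 ≤ 3 * (M : ℝ) ^ 5 := fun r hr => by
    have : (r : ℝ) ≤ 2 * (M : ℝ) ^ 5 + 1 := by exact_mod_cast hr
    linarith only [h5, this]
  have hne : ∀ r : ℕ, v0 ∈ C.selSet gr (r + 1) := fun r =>
    C.selSet_mono gr (le_add_of_nonneg_left r.cast_nonneg) hv0
  have hbd : ∀ r : ℕ, r ≤ 2 * M ^ 5 + 1 → BddAbove (C.selSet gr (r + 1)) := fun r hr =>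
    ⟨_, C.selSet_le hgr (hb r hr)⟩
  have f0 := hv1.trans (le_csSup (hbd 0 (Nat.zero_le _)) (hne 0))
  obtain ⟨r, hr, r1, r2, r3⟩ := exists_slow_step (fun r : ℕ => sSup (C.selSet gr (r + 1)))
    ((M : ℝ) ^ 5) (2 * M ^ 5 + 1) (p0.trans_le f0) (by
      refine (csSup_le ⟨_, hne _⟩ (C.selSet_le hgr (hb _ le_rfl))).trans
        (le_trans ?_ (mul_le_mul_of_nonneg_left f0 (Real.exp_pos _).le))
      rw [← mul_div_assoc, ← mul_assoc, ← Real.exp_add]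
      refine div_le_div_of_nonneg_right (mul_le_mul_of_nonneg_right ((hp.pow_le_exp
        (by norm_num)).trans (Real.exp_le_exp.2 ?_)) C.N0pos.le) (Real.sqrt_nonneg _)
      have a1 := hp.mul_pow_le (c := 2) (by norm_num) (i := 4) (k := 5) (by norm_num)
      have a2 := hp.pow_mono (i := 1) (k := 4) (by norm_num)
      linarith only [a1, a2]) (by push_cast; linarith only [])
  obtain ⟨_, ⟨G, hG, hGG, h, hh, j, ω, y, hj, hω, hy, rfl⟩, hv⟩ :=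
    exists_lt_of_lt_csSup ⟨_, hne r⟩ (half_lt_self r1)
  obtain ⟨b1, b2, b3⟩ := C.sel_box (hb r hr.le)
  refine ⟨⟨gr, sSup (C.selSet gr ((r + 1 : ℕ) + 1)), j, ω, y, G, h, hgr, hj.trans b1, hω.trans b2,
    hy.trans b3, hG, hGG, hh, hv1.trans (le_csSup (hbd _ hr) (hne _)), ?_, ?_⟩⟩
  · intro G' hG' hGG' h' hh' j' ω' y' hj' hω' hy'
    rw [← div_le_iff₀ (Real.sqrt_pos.2 hh')]
    refine le_csSup (hbd _ hr) ⟨G', hG', hGG', h', hh', j', ω', y', ?_, ?_, ?_, rfl⟩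
    · push_cast
      linarith only [hj, hj', abs_sub_le (j' : ℝ) j C.jc]
    · push_cast
      linarith only [hω, hω', abs_sub_le ω' ω C.ω0]
    · push_cast
      linarith only [hy, hy', abs_sub_le y' y C.y0]
  · rw [lt_div_iff₀ (Real.sqrt_pos.2 hh)] at hv
    linarith only [hv, r3, mul_le_mul_of_nonneg_right r3 (Real.sqrt_nonneg h)]

/-- a union of clusters all far from `h` is negligible -/
theorem sel_negl {T : Finset ι} (hT : C.Sat T) (h : ℝ) (hh : 0 < h) (j : ℕ) (ω : ℂ) (y : ℝ)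
    (hA : C.Arg j ω y) {β : ℝ} (hβ0 : 0 ≤ β)
    (hβ : ∀ r ∈ C.D.s, C.D.a r * Real.exp (-(C.D.a r / h)) ≤ β)
    (hfar : ∀ r ∈ T, C.cl r = r → (M : ℝ) ^ 5 / (2 * (M : ℝ) ^ 4000) ≤ |C.D.a r / h - 1|) :
    ‖C.gA T h j ω y‖ ≤ M * (Real.exp (-(M : ℝ) ^ 9) * C.N0 * β) := by
  classical
  have p0 := (mul_pos (Real.exp_pos (-(M : ℝ) ^ 9)) C.N0pos).le
  rw [C.gA_split hT]
  refine (norm_sum_le_of_le _ (n := fun _ => Real.exp (-(M : ℝ) ^ 9) * C.N0 * β)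
    fun r hr => ?_).trans ?_
  · obtain ⟨r1, r2⟩ := mem_filter.1 hr
    refine (C.gA_negl r (hT.1 r1) r2 h hh j ω y hA (hfar r r1 r2)).trans ?_
    rw [mul_assoc]
    exact mul_le_mul_of_nonneg_left (hβ r (hT.1 r1)) p0
  · rw [sum_const, nsmul_eq_mul]
    exact mul_le_mul_of_nonneg_right
      (by exact_mod_cast C.sel_card ((filter_subset _ _).trans hT.1)) (mul_nonneg p0 hβ0)

theorem sel_mu (hp : Par m M) : 0 < (M : ℝ) ^ 5 / (2 * (M : ℝ) ^ 4000) ∧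
    100 * ((M : ℝ) ^ 5 / (2 * (M : ℝ) ^ 4000)) ≤ ((M : ℝ) ^ 14)⁻¹ := by
  have p1 := hp.pow_pos 4000
  refine ⟨div_pos (hp.pow_pos _) (by linarith only [p1]), ?_⟩
  have h1 := hp.inv_pow_le (c := 50) (by norm_num) (i := 14) (k := 3995) (by norm_num)
  rw [sel_pow_split hp (i := 5) (k := 3995) (l := 4000) rfl, mul_div_mul_right _ _ p1.ne']
  linarith only [h1]

namespace Sel
variable {C} (σ : C.Sel)

/-- points close to the near-maximiser -/
structure Near (j : ℕ) (ω y : ℝ) : Prop where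
  hj : |(j : ℝ) - σ.j| ≤ (M : ℝ) ^ 7988
  hω : |ω - σ.ω| ≤ ((M : ℝ) ^ 12)⁻¹ * C.ω0
  hy : |y - σ.y| ≤ ((M : ℝ) ^ 12)⁻¹ * C.y0

theorem near_self : σ.Near σ.j σ.ω σ.y :=
  ⟨by rw [sub_self, abs_zero]; exact (C.par.pow_pos _).le,
    by rw [sub_self, abs_zero]; exact (mul_pos (sel_inv_pos C.par _) C.sel_ω0_pos).le,
    by rw [sub_self, abs_zero]; exact (mul_pos (sel_inv_pos C.par _) C.sel_y0_pos).le⟩

theorem Near.facts {j : ℕ} {ω y : ℝ} (h : σ.Near j ω y) :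
    C.Arg j ω y ∧ 2 * |y| ≤ (M : ℝ) ^ 8000 ∧ Reg M 1 C.jc C.d j (j / ω) (y / ω) ∧
      (M : ℝ) ^ 8000 / C.d ≤ 2 * ω ∧ ω * C.d ≤ 3 * (M : ℝ) ^ 8000 ∧
      (M : ℝ) ^ 7995 ≤ 2 * y ∧ y ≤ 3 * (M : ℝ) ^ 7995 := by
  have a1 := C.par.pow_mono (i := 7988) (k := 7993) (by norm_num)
  have a2 := sel_inv_mono C.par (i := 7) (k := 12) (by norm_num)
  exact C.arg_of_near j ω y (by linarith only [a1, h, abs_sub_le (j : ℝ) σ.j C.jc, h.hj, σ.hj])
    (by linarith only [h, a2, abs_sub_le ω σ.ω C.ω0, h.hω, σ.hω, mul_le_mul_of_nonneg_right a2 C.sel_ω0_pos.le])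
    (by linarith only [h, a2, abs_sub_le y σ.y C.y0, h.hy, σ.hy, mul_le_mul_of_nonneg_right a2 C.sel_y0_pos.le])

theorem Spos : 0 < σ.S :=
  (div_pos (mul_pos (Real.exp_pos _) C.N0pos) (Real.sqrt_pos.2 C.dpos)).trans_le σ.Slo

/-- otherwise `gA_negl` contradicts `big` and `Slo` -/
theorem near_h : ∃ r ∈ C.D.s, C.cl r = r ∧ σ.gr r = σ.G ∧
    |C.D.a r / σ.h - 1| ≤ (M : ℝ) ^ 5 / (2 * (M : ℝ) ^ 4000) := by
  by_contra c
  push Not at c
  have hp := C.par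
  have hh := σ.hpos
  have s1 := Real.sqrt_pos.2 hh
  have s2 := Real.sqrt_pos.2 C.dpos
  have p1 := hp.pow_pos 3869
  have h1 := C.sel_negl (GSat.sat C σ.hgr (C.gsat_cls σ.hgr σ.G σ.Gmem σ.Grep)) σ.h hh σ.j σ.ω σ.y
    (σ.near_self.facts σ).1 (β := 2 * (M : ℝ) ^ 3869 * (√σ.h / √C.d)) (by positivity)
    (fun r hr => by
      have a0 := C.apos r hr
      have a1 : √(C.D.a r) * √C.d ≤ 2 * (M : ℝ) ^ 3869 := by
        rw [← Real.sqrt_mul a0.le]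
        refine Real.sqrt_le_iff.2 ⟨by positivity, (C.ahi r hr).trans (le_of_eq ?_)⟩
        rw [mul_pow, ← pow_mul]
        norm_num
      have a2 : √(C.D.a r) ≤ √σ.h * Real.exp (C.D.a r / σ.h) := by
        refine Real.sqrt_le_iff.2 ⟨by positivity, ?_⟩
        have b1 := Real.add_one_le_exp (C.D.a r / σ.h)
        have b2 := div_pos a0 hh
        rw [mul_pow, Real.sq_sqrt hh.le, ← div_le_iff₀' hh]
        linarith only [b1, b2, mul_nonneg_of_nonpos_of_nonpos (Mathlib.Tactic.Linarith.sub_nonpos_of_le b1) (Mathlib.Tactic.Linarith.sub_nonpos_of_le b1), mul_nonneg_of_nonpos_of_nonpos (Mathlib.Tactic.Linarith.sub_nonpos_of_le b1) (le_of_lt (Mathlib.Tactic.Linarith.sub_neg_of_lt b2)), mul_pos_of_neg_of_neg (Mathlib.Tactic.Linarith.sub_neg_of_lt b2) (Mathlib.Tactic.Linarith.sub_neg_of_lt b2)]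
      rw [Real.exp_neg, ← div_eq_mul_inv, ← mul_div_assoc, div_le_div_iff₀ (Real.exp_pos _) s2]
      have a3 := mul_le_mul a1 a2 (Real.sqrt_nonneg _) (by positivity)
      have a4 := Real.mul_self_sqrt a0.le
      calc _ = √(C.D.a r) * √C.d * √(C.D.a r) := by rw [mul_right_comm, a4]
        _ ≤ _ := a3.trans (le_of_eq (by ring)))
    fun r hr hrr => (c r (mem_cls.1 hr).1 hrr (mem_cls.1 hr).2).le
  have h2 := σ.big.trans h1
  have h3 := mul_le_mul_of_nonneg_right σ.Slo s1.le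
  have h4 : 8 * M * (M : ℝ) ^ 3869 * Real.exp (-(M : ℝ) ^ 9) < Real.exp (-(M : ℝ) ^ 4) := by
    have a1 := hp.mul_pow_le (c := 8) (by norm_num) (i := 3869 + 1) (k := 3871) (by norm_num)
    have a2 := hp.mul_pow_le (c := 3) (by norm_num) (i := 4) (k := 9) (by norm_num)
    have a3 := hp.pow_mono (i := 1) (k := 4) (by norm_num)
    have a4 := hp.pos
    rw [pow_succ', ← mul_assoc] at a1
    refine (mul_le_mul_of_nonneg_right (a1.trans (hp.pow_le_exp (by norm_num)))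
      (Real.exp_pos _).le).trans_lt ?_
    rw [← Real.exp_add]
    exact Real.exp_lt_exp.2 (by linarith only [a2, a3, a4])
  have h5 := mul_lt_mul_of_pos_right h4 (mul_pos C.N0pos (div_pos s1 s2))
  rw [div_mul_eq_mul_div, mul_div_assoc] at h3
  linarith only [h2, h3, h5]

theorem h_range : (M : ℝ) ^ 267 / 3 ≤ σ.h * C.d ∧ σ.h * C.d ≤ 41 / 10 * (M : ℝ) ^ 7738 ∧
    ∀ k ∈ C.D.s, σ.gr k = σ.G → |C.D.a k / σ.h - 1| ≤ 3 * ((M : ℝ) ^ 13)⁻¹ := by
  obtain ⟨r, hr, -, r2, r3⟩ := σ.near_h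
  obtain ⟨m1, m2⟩ := sel_mu C.par
  have hp := C.par
  have hh := σ.hpos
  have a1 := sel_inv_le hp (i := 14) (by norm_num)
  have a2 := sel_inv_mono hp (i := 13) (k := 14) (by norm_num)
  have a3 := sel_inv_pos hp 13
  obtain ⟨b1, b2⟩ := abs_le.1 r3
  have b3 : 99 / 100 * σ.h ≤ C.D.a r := by rw [← le_div_iff₀ hh]; linarith only [m1, m2, a1, b1]
  have b4 : C.D.a r ≤ 101 / 100 * σ.h := by rw [← div_le_iff₀ hh]; linarith only [m1, m2, a1, b2]
  have c1 := mul_le_mul_of_nonneg_right b3 C.dpos.le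
  have c2 := mul_le_mul_of_nonneg_right b4 C.dpos.le
  have p1 := hp.pow_pos 267
  have p2 := hp.pow_pos 7738
  refine ⟨by linarith only [c2, p1, hr, C.alo r hr], by linarith only [c1, p2, hr, C.ahi r hr], fun k hk hkG => ?_⟩
  have d1 := C.sel_gr_near σ.hgr hk hr (hkG.trans r2.symm)
  have d2 : |C.D.a k / σ.h - C.D.a r / σ.h| ≤ 5 / 2 * ((M : ℝ) ^ 13)⁻¹ := by
    rw [← sub_div, abs_div, abs_of_pos hh, div_le_iff₀ hh]
    linarith only [d1, b4, a3, hh, mul_le_mul_of_nonneg_left b4 a3.le, mul_pos a3 hh]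
  linarith only [r3, m1, m2, a2, d2, abs_sub_le (C.D.a k / σ.h) (C.D.a r / σ.h) 1]

theorem Sbig : Real.exp (-(M : ℝ) ^ 4) * C.N0 / C.d ≤ σ.S * √σ.h := by
  have hd := C.dpos
  have s2 := Real.sqrt_pos.2 hd
  have h1 := σ.h_range.1
  have h2 := C.par.mul_pow_le (c := 3) (by norm_num) (i := 0) (k := 267) (by norm_num)
  rw [pow_zero] at h2
  have s3 : 1 ≤ √σ.h * √C.d := by
    rw [← Real.sqrt_mul σ.hpos.le]
    exact Real.one_le_sqrt.2 (by linarith only [h1, h2])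
  refine le_trans ?_ (mul_le_mul_of_nonneg_right σ.Slo (Real.sqrt_nonneg _))
  rw [div_mul_eq_mul_div, div_le_div_iff₀ hd s2, mul_assoc _ √σ.h]
  refine mul_le_mul_of_nonneg_left ?_ (mul_pos (Real.exp_pos _) C.N0pos).le
  (refine le_of_not_gt fun h_nl => ?_; linarith only [h_nl, hd, s3, s2, Real.mul_self_sqrt hd.le, mul_nonneg_of_nonpos_of_nonpos (le_of_lt (Mathlib.Tactic.Linarith.sub_neg_of_lt hd)) (Mathlib.Tactic.Linarith.sub_nonpos_of_le s3), mul_pos_of_neg_of_neg (Mathlib.Tactic.Linarith.sub_neg_of_lt s2) (Mathlib.Tactic.Linarith.sub_neg_of_lt h_nl)])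

/-- at most one coarse group has a cluster within `M^5 / (2 M^4000)` of `h` -/
theorem gA_up {S : Finset ι} (hS : C.GSat σ.gr S) (h : ℝ) (hh : 0 < h) {j : ℕ} {ω y : ℝ}
    (hn : σ.Near j ω y) :
    ‖C.gA S h j ω y‖ ≤ σ.S * √h + Real.exp (-(M : ℝ) ^ 8) * C.N0 / C.d := by
  classical
  have hp := C.par
  have hd := C.dpos
  have p2 := hp.pow_pos 7738
  have key : ∀ T : Finset ι, C.GSat σ.gr T →
      (∀ r ∈ T, C.cl r = r → (M : ℝ) ^ 5 / (2 * (M : ℝ) ^ 4000) ≤ |C.D.a r / h - 1|) →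
      ‖C.gA T h j ω y‖ ≤ Real.exp (-(M : ℝ) ^ 8) * C.N0 / C.d := fun T hT hfar => by
    refine (C.sel_negl (GSat.sat C σ.hgr hT) h hh j ω y (hn.facts σ).1
      (β := 4 * (M : ℝ) ^ 7738 / C.d) (by positivity) (fun r hr => ?_) hfar).trans ?_
    · have a0 := C.apos r hr
      refine (mul_le_of_le_one_right a0.le (Real.exp_le_one_iff.2 ?_)).trans ?_
      · exact neg_nonpos.2 (div_pos a0 hh).le
      · rw [le_div_iff₀ hd]; exact C.ahi r hr
    · have a1 := hp.mul_pow_le (c := 4) (by norm_num) (i := 7738 + 1) (k := 7740) (by norm_num)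
      have a2 := hp.mul_pow_le (c := 2) (by norm_num) (i := 8) (k := 9) (by norm_num)
      have a3 := hp.pow_mono (i := 1) (k := 8) (by norm_num)
      rw [pow_succ', ← mul_assoc] at a1
      have a4 := mul_le_mul_of_nonneg_right (a1.trans (hp.pow_le_exp (by norm_num)))
        (Real.exp_pos (-(M : ℝ) ^ 9)).le
      rw [← Real.exp_add] at a4
      have a5 := mul_le_mul_of_nonneg_right (a4.trans (Real.exp_le_exp.2
        (show (M : ℝ) + -(M : ℝ) ^ 9 ≤ -(M : ℝ) ^ 8 by linarith))) (div_pos C.N0pos hd).le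
      rw [mul_div_assoc (Real.exp _)]
      refine le_trans (le_of_eq ?_) a5
      generalize (M : ℝ) ^ 7738 = P
      ring
  by_cases c : ∀ r ∈ S, C.cl r = r → (M : ℝ) ^ 5 / (2 * (M : ℝ) ^ 4000) ≤ |C.D.a r / h - 1|
  · exact (key S hS c).trans (le_add_of_nonneg_left (mul_nonneg σ.Spos.le (Real.sqrt_nonneg _)))
  push Not at c
  obtain ⟨r0, r1, -, r3⟩ := c
  have hr0 := hS.1 r1
  have hG := σ.hgr.mem r0 hr0
  have hGG := σ.hgr.idem r0 hr0
  have hc := C.gsat_cls σ.hgr _ hG hGG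
  have hsub : cls C.D.s σ.gr (σ.gr r0) ⊆ S := fun k hk => by
    obtain ⟨k1, k2⟩ := mem_cls.1 hk
    rw [hS.2 k k1, k2]
    exact (hS.2 r0 hr0).1 r1
  have e : C.gA S h j ω y = C.gA (cls C.D.s σ.gr (σ.gr r0)) h j ω y +
      C.gA (S \ cls C.D.s σ.gr (σ.gr r0)) h j ω y := by
    rw [add_comm]
    exact (sum_sdiff hsub).symm
  rw [e]
  refine (norm_add_le _ _).trans (add_le_add (σ.up _ hG hGG h hh j ω y hn.hj hn.hω hn.hy)
    (key _ ⟨sdiff_subset.trans hS.1, fun k hk => by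
      rw [mem_sdiff, mem_sdiff, ← hS.2 k hk, ← hc.2 k hk]⟩ fun r hr _ => ?_))
  by_contra c
  obtain ⟨k1, k2⟩ := mem_sdiff.1 hr
  have h1 := σ.hgr.sep r (hS.1 k1) r0 hr0 fun e' => k2 (mem_cls.2 ⟨hS.1 k1, e'⟩)
  simp only [← ofReal_sub, Complex.norm_real, Real.norm_eq_abs] at h1
  rw [abs_of_pos (C.apos r (hS.1 k1)), abs_of_pos (C.apos r0 hr0)] at h1
  obtain ⟨m1, m2⟩ := sel_mu C.par
  have a1 := sel_inv_le hp (i := 14) (by norm_num)
  have a2 := sel_inv_pos hp 14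
  obtain ⟨b1, b2⟩ := abs_lt.1 r3
  obtain ⟨b3, b4⟩ := abs_lt.1 (not_le.1 c)
  have b5 : 1 / 2 * h ≤ C.D.a r := by rw [← le_div_iff₀ hh]; linarith only [m1, m2, a1, b3]
  have b6 : 1 / 2 * h ≤ C.D.a r0 := by rw [← le_div_iff₀ hh]; linarith only [m1, m2, a1, b1]
  have b7 := mul_le_mul_of_nonneg_left (le_min b5 b6) a2.le
  have b8 : |C.D.a r - C.D.a r0| ≤ ((M : ℝ) ^ 14)⁻¹ / 4 * h := by
    rw [← div_le_iff₀ hh, ← abs_of_pos hh, ← abs_div, sub_div]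
    exact abs_le.2 ⟨by linarith only [m1, m2, b2, b3], by linarith only [m1, m2, b1, b4]⟩
  linarith only [h1, b7, b8, a2, hh, mul_pos a2 hh]

theorem hA_up {S : Finset ι} (hS : C.GSat σ.gr S) (h : ℝ) (hh : 0 < h) {j : ℕ} {ω y : ℝ} (α' : ℝ)
    (hn : ∀ t : ℝ, |t| ≤ (M : ℝ) ^ 7446 → σ.Near j ω (y + t)) :
    ‖C.hA S h j ω y α'‖ ≤ σ.S * √h + Real.exp (-(M : ℝ) ^ 8) * C.N0 / C.d := by
  refine (norm_sum_le_of_le _ (n := fun i => bw (M ^ 3452) i *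
    (σ.S * √h + Real.exp (-(M : ℝ) ^ 8) * C.N0 / C.d)) fun i hi => ?_).trans ?_
  · have h1 : (i : ℝ) ≤ 2 * (M : ℝ) ^ 3452 := by exact_mod_cast Nat.lt_succ_iff.1 (mem_range.1 hi)
    have h2 : (0 : ℝ) ≤ i := i.cast_nonneg
    have p1 := C.par.pow_pos 3994
    rw [norm_mul, norm_mul, Complex.norm_real, Real.norm_of_nonneg (bw_nonneg _ _), mul_comm I,
      Complex.norm_exp_ofReal_mul_I, mul_one]
    refine mul_le_mul_of_nonneg_left (σ.gA_up hS h hh (hn _ ?_)) (bw_nonneg _ _)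
    rw [abs_mul, abs_of_pos p1, show (7446 : ℕ) = 3452 + 3994 from rfl, pow_add]
    exact mul_le_mul_of_nonneg_right (abs_le.2 ⟨by linarith, by linarith⟩) p1.le
  · rw [← sum_mul, bw_sum, one_mul]

end Sel

end CDat

end Pool.Agent.Work.MP_97f157_lc.Tau
end
end
end

-- merged part: Pool.Agent.Work.MP_97f157_lc.TauH1
section
-- merged part: Pool.Agent.Work.MP_97f157_lc.TauKos
section
/-! Kos' inequality. -/

noncomputable section
open Finset

namespace Pool.Agent.Work.MP_97f157_lc.Tau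

theorem Kos_summable {κ : Type*} (s : Finset κ) (c w : κ → ℂ) (hw : ∀ k ∈ s, ‖w k‖ < 1) :
    Summable fun i : ℕ => ‖∑ k ∈ s, c k * w k ^ i‖ ^ 2 := by
  have h1 : Summable fun i : ℕ => ∑ k ∈ s, ‖c k‖ * ‖w k‖ ^ i :=
    summable_sum fun k hk =>
      (summable_geometric_of_lt_one (norm_nonneg _) (hw k hk)).mul_left _
  refine Summable.of_nonneg_of_le (fun _ => by positivity) (fun i => ?_)
    (h1.mul_left (∑ k ∈ s, ‖c k‖))
  have h2 : ‖∑ k ∈ s, c k * w k ^ i‖ ≤ ∑ k ∈ s, ‖c k‖ * ‖w k‖ ^ i :=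
    (norm_sum_le _ _).trans (by simp)
  have h3 : ∑ k ∈ s, ‖c k‖ * ‖w k‖ ^ i ≤ ∑ k ∈ s, ‖c k‖ :=
    sum_le_sum fun k hk => mul_le_of_le_one_right (norm_nonneg _)
      (pow_le_one₀ (norm_nonneg _) (hw k hk).le)
  rw [sq]
  exact mul_le_mul (h2.trans h3) h2 (norm_nonneg _) (sum_nonneg fun _ _ => norm_nonneg _)

theorem Kos_id (a x y : ℂ) : ‖x - (starRingEnd ℂ) a * y‖ ^ 2 =
    ‖y - a * x‖ ^ 2 + ((1 - ‖a‖ ^ 2) * ‖x‖ ^ 2 - (1 - ‖a‖ ^ 2) * ‖y‖ ^ 2) := by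
  simp only [Complex.sq_norm, Complex.normSq_apply, Complex.sub_re, Complex.sub_im,
    Complex.mul_re, Complex.mul_im, Complex.conj_re, Complex.conj_im]
  ring

theorem Kos_cs {α A U x y z : ℝ} (hα : 0 ≤ α) (hA : 0 ≤ A) (hU : 0 ≤ U) (hz : 0 ≤ z)
    (hy : y ^ 2 ≤ A * U) (h : z ≤ α * x + y) : z ^ 2 ≤ (α + A) * (U + α * x ^ 2) := by
  have h1 : z ^ 2 ≤ (α * x + y) ^ 2 := pow_le_pow_left₀ hz h 2
  have h2 : 2 * x * y ≤ U + A * x ^ 2 := by
    by_contra hc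
    push Not at hc
    have h3 : 0 ≤ U + A * x ^ 2 := by positivity
    have h4 : (U + A * x ^ 2) ^ 2 < (2 * x * y) ^ 2 := pow_lt_pow_left₀ hc h3 two_ne_zero
    have h5 : x ^ 2 * y ^ 2 ≤ x ^ 2 * (A * U) := mul_le_mul_of_nonneg_left hy (sq_nonneg x)
    linarith only [h4, h5, sq_nonneg (U - A * x ^ 2)]
  linarith [mul_le_mul_of_nonneg_left h2 hα]

/-- Discrete Malmquist-Takenaka (Kos) inequality.  Induct on `s` (for arbitrary polynomial or
`ℓ²` sequences): with `b(w) = (w - w1)/(1 - conj w1 w)` one has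
`1 = (1 - |w1|²)/(1 - conj w1 w) - conj w1 * b(w)`; the sequence of `c * b(w)` has lost the node
`w1` and its `ℓ²` norm squared is that of `c` minus `(1 - |w1|²) |∑ c/(1 - conj w1 w)|²`.
Any proof is fine, e.g. Cauchy-Schwarz against the coefficients of
`(1 - conj(B 0) B(z))`-type kernels. -/
theorem kos {κ : Type*} (s : Finset κ) (c w : κ → ℂ) (hw : ∀ k ∈ s, ‖w k‖ < 1) :
    ‖∑ k ∈ s, c k‖ ^ 2 ≤ (∑ k ∈ s, (1 - ‖w k‖ ^ 2)) * ∑' i : ℕ, ‖∑ k ∈ s, c k * w k ^ i‖ ^ 2 := by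
  classical
  induction s using Finset.induction_on generalizing c with
  | empty => simp
  | insert j s hj ih =>
    have hs : ∀ k ∈ s, ‖w k‖ < 1 := fun k hk => hw k (mem_insert_of_mem hk)
    have ha : ‖w j‖ < 1 := hw j (mem_insert_self _ _)
    have ne : ∀ k ∈ insert j s, 1 - (starRingEnd ℂ) (w j) * w k ≠ 0 := fun k hk h0 => by
      have h1 : ‖(starRingEnd ℂ) (w j) * w k‖ < 1 := by
        rw [norm_mul, Complex.norm_conj]
        exact mul_lt_one_of_nonneg_of_lt_one_left (norm_nonneg _) ha (hw k hk).le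
      rw [← sub_eq_zero.1 h0] at h1
      simp at h1
    obtain ⟨d, hd⟩ : ∃ d : κ → ℂ, ∀ k, d k = c k / (1 - (starRingEnd ℂ) (w j) * w k) :=
      ⟨_, fun _ => rfl⟩
    obtain ⟨v, hv⟩ : ∃ v : ℕ → ℂ, ∀ i, v i = ∑ k ∈ insert j s, d k * w k ^ i :=
      ⟨_, fun _ => rfl⟩
    have e1 : ∀ i, ∑ k ∈ insert j s, c k * w k ^ i = v i - (starRingEnd ℂ) (w j) * v (i + 1) := by
      intro i
      rw [hv, hv, mul_sum, ← sum_sub_distrib]
      refine sum_congr rfl fun k hk => ?_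
      have := ne k hk
      rw [hd]
      field_simp
      ring
    have e2 : ∀ i, ∑ k ∈ s, d k * (w k - w j) * w k ^ i = v (i + 1) - w j * v i := by
      intro i
      rw [hv, hv, mul_sum, ← sum_sub_distrib, sum_insert hj]
      rw [show d j * w j ^ (i + 1) - w j * (d j * w j ^ i) = 0 by ring, zero_add]
      exact sum_congr rfl fun k _ => by ring
    have sv : Summable fun i => ‖v i‖ ^ 2 := by
      simp only [hv]
      exact Kos_summable _ d w hw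
    have sv1 : Summable fun i => ‖v (i + 1)‖ ^ 2 :=
      (summable_nat_add_iff (f := fun i => ‖v i‖ ^ 2) 1).2 sv
    have su := Kos_summable s (fun k => d k * (w k - w j)) w hs
    have ih' := ih (fun k => d k * (w k - w j)) hs
    have e0 := e1 0
    have e20 := e2 0
    simp only [pow_zero, mul_one, zero_add] at e0 e20
    simp only [e2] at su ih'
    have tot : ∑' i : ℕ, ‖∑ k ∈ insert j s, c k * w k ^ i‖ ^ 2 =
        ∑' i : ℕ, ‖v (i + 1) - w j * v i‖ ^ 2 + (1 - ‖w j‖ ^ 2) * ‖v 0‖ ^ 2 := by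
      simp only [e1, Kos_id]
      rw [su.tsum_add ((sv.mul_left _).sub (sv1.mul_left _)),
        (sv.mul_left _).tsum_sub (sv1.mul_left _), tsum_mul_left, tsum_mul_left,
        sv.tsum_eq_zero_add]
      ring
    have α0 : 0 ≤ 1 - ‖w j‖ ^ 2 := by nlinarith only [ha, norm_nonneg (w j)]
    rw [tot, sum_insert hj (f := fun k => 1 - ‖w k‖ ^ 2), e0]
    rw [e20] at ih'
    refine Kos_cs α0 (sum_nonneg fun k hk => by nlinarith only [norm_nonneg (w k), hs k hk])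
      (tsum_nonneg fun _ => by positivity) (norm_nonneg _) ih' ?_
    have e3 : v 0 - (starRingEnd ℂ) (w j) * v 1 =
        ((1 - ‖w j‖ ^ 2 : ℝ) : ℂ) * v 0 - (starRingEnd ℂ) (w j) * (v 1 - w j * v 0) := by
      push_cast
      rw [← Complex.conj_mul' (w j)]
      ring
    rw [e3]
    refine (norm_sub_le _ _).trans (add_le_add ?_ ?_)
    · rw [norm_mul, Complex.norm_real, Real.norm_of_nonneg α0]
    · rw [norm_mul, Complex.norm_conj]
      exact mul_le_of_le_one_left (norm_nonneg _) ha.le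

theorem Kos_num {M : ℝ} (hM : 10 ^ 12 ≤ M) :
    32 * M ^ 33 * Real.exp (6 * M ^ 5) * Real.exp (-M ^ 7 / 8) ≤ 1 := by
  have h0 : (1 : ℝ) ≤ M := le_trans (by norm_num) hM
  have h1 : M ≤ Real.exp M := by linarith [Real.add_one_le_exp M]
  have h2 : 32 * M ^ 33 ≤ Real.exp (34 * M) := by
    calc 32 * M ^ 33 ≤ M * M ^ 33 := by gcongr; linarith
      _ = M ^ 34 := by ring
      _ ≤ Real.exp M ^ 34 := by gcongr
      _ = _ := by rw [← Real.exp_nat_mul]; norm_num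
  have h3 : M ≤ M ^ 5 := le_self_pow₀ h0 (by norm_num)
  have h4 : 320 ≤ M ^ 2 := by linarith only [hM, mul_nonneg_of_nonpos_of_nonpos (Mathlib.Tactic.Linarith.sub_nonpos_of_le hM) (Mathlib.Tactic.Linarith.sub_nonpos_of_le hM)]
  have h5 : 320 * M ^ 5 ≤ M ^ 7 := by
    calc 320 * M ^ 5 ≤ M ^ 2 * M ^ 5 := by gcongr
      _ = _ := by ring
  calc _ ≤ Real.exp (34 * M) * Real.exp (6 * M ^ 5) * Real.exp (-M ^ 7 / 8) := by gcongr
    _ = Real.exp (34 * M + 6 * M ^ 5 + -M ^ 7 / 8) := by rw [Real.exp_add, Real.exp_add]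
    _ ≤ 1 := Real.exp_le_one_iff.2 (by linarith only [h3, h5])

/-- apply `kos` to `r w`, `r² = 1 - 1/Q`, and split the sum into good, bad and far indices -/
theorem kos_select {κ : Type*} {M : ℕ} (hM : 10 ^ 12 ≤ M) (s : Finset κ) (hs : s.card ≤ M)
    (c w : κ → ℂ) (Q : ℕ) (hQ : M ≤ Q) (hw1 : ∀ k ∈ s, ‖w k‖ ≤ 1)
    (hw2 : ∀ k ∈ s, 1 - 1 / (Q : ℝ) ≤ ‖w k‖ ^ 2) (B : ℝ) (hB : 0 < B)
    (hup : ∀ i ≤ Q * M ^ 7, ‖∑ k ∈ s, c k * w k ^ i‖ ≤ B)
    (hall : ∀ i : ℕ, ‖∑ k ∈ s, c k * w k ^ i‖ ≤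
      Real.exp (3 * (M : ℝ) ^ 5) * (1 + 1 / (4 * (Q : ℝ))) ^ i * B)
    (hbig : B / (M : ℝ) ^ 16 ≤ ‖∑ k ∈ s, c k‖) (bad : Finset ℕ)
    (hbad : (bad.card : ℝ) * (M : ℝ) ^ 34 ≤ Q) :
    ∃ i ≤ Q * M ^ 7, i ∉ bad ∧ ‖∑ k ∈ s, c k‖ ≤ 3 * √M * ‖∑ k ∈ s, c k * w k ^ i‖ := by
  by_contra hc
  push Not at hc
  have hM' : (10 : ℝ) ^ 12 ≤ M := by exact_mod_cast hM
  have M0 : (0 : ℝ) < M := lt_of_lt_of_le (by norm_num) hM'
  have hQ' : (M : ℝ) ≤ Q := by exact_mod_cast hQ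
  have Q0 : (0 : ℝ) < Q := M0.trans_le hQ'
  obtain ⟨x, hx⟩ : ∃ x : ℝ, x = 1 / Q := ⟨_, rfl⟩
  have x0 : 0 < x := by rw [hx]; positivity
  have xQ : x * Q = 1 := by rw [hx]; field_simp
  have x1 : x ≤ 1 := by rw [hx, div_le_one Q0]; linarith only [hM', hQ']
  have x4 : 1 / (4 * (Q : ℝ)) = x / 4 := by rw [hx]; field_simp
  rw [x4] at hall
  rw [← hx] at hw2
  obtain ⟨r, hr⟩ : ∃ r : ℝ, r = √(1 - x) := ⟨_, rfl⟩
  have r0 : 0 ≤ r := by rw [hr]; positivity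
  have r2 : r ^ 2 = 1 - x := by rw [hr, Real.sq_sqrt (by linarith only [x1])]
  have r1 : r < 1 := by nlinarith only [x0, r0, r2]
  obtain ⟨a, ha⟩ : ∃ a, a = ‖∑ k ∈ s, c k‖ := ⟨_, rfl⟩
  obtain ⟨u, hu⟩ : ∃ u : ℕ → ℝ, ∀ i, u i = ‖∑ k ∈ s, c k * w k ^ i‖ := ⟨_, fun _ => rfl⟩
  have u0 : ∀ i, 0 ≤ u i := fun i => by rw [hu]; positivity
  have nw : ∀ k, ‖(r : ℂ) * w k‖ = r * ‖w k‖ := fun k => by
    rw [norm_mul, Complex.norm_real, Real.norm_of_nonneg r0]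
  have hw : ∀ k ∈ s, ‖(r : ℂ) * w k‖ < 1 := fun k hk => by
    rw [nw]
    exact (mul_le_of_le_one_right r0 (hw1 k hk)).trans_lt r1
  have K := kos s c (fun k => r * w k) hw
  have S := Kos_summable s c (fun k => r * w k) hw
  have e : ∀ i : ℕ, ‖∑ k ∈ s, c k * (r * w k) ^ i‖ ^ 2 = (1 - x) ^ i * u i ^ 2 := fun i => by
    rw [show ∑ k ∈ s, c k * (r * w k) ^ i = ((r ^ i : ℝ) : ℂ) * ∑ k ∈ s, c k * w k ^ i by
      rw [mul_sum]
      exact sum_congr rfl fun k _ => by push_cast; ring]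
    rw [norm_mul, Complex.norm_real, Real.norm_of_nonneg (pow_nonneg r0 i), mul_pow, ← hu, ← r2,
      ← pow_mul, ← pow_mul, mul_comm i 2]
  simp only [e] at K S
  simp only [← hu, ← ha] at K hc hup hall hbig
  have a0 : 0 < a := lt_of_lt_of_le (by positivity) hbig
  have hBa : B ^ 2 ≤ (M : ℝ) ^ 32 * a ^ 2 := by
    rw [div_le_iff₀ (by positivity)] at hbig
    calc B ^ 2 ≤ (a * (M : ℝ) ^ 16) ^ 2 := by gcongr
      _ = _ := by ring
  have hA : ∑ k ∈ s, (1 - ‖(r : ℂ) * w k‖ ^ 2) ≤ M * (2 * x) := by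
    clear * - κ s r w x M nw r2 hw2 x1 x0 hs
    calc _ ≤ ∑ k ∈ s, 2 * x := sum_le_sum fun k hk => by
          rw [nw, mul_pow, r2]
          nlinarith only [x0, x1, mul_le_mul_of_nonneg_left (hw2 k hk) (sub_nonneg.2 x1)]
      _ = s.card * (2 * x) := by simp
      _ ≤ _ := by
          have : (s.card : ℝ) ≤ M := by exact_mod_cast hs
          gcongr
  obtain ⟨t, ht⟩ : ∃ t, t = 1 - x / 8 := ⟨_, rfl⟩
  have t0 : 0 ≤ t := by linarith only [x1, ht]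
  have t1 : t < 1 := by linarith only [x0, ht]
  obtain ⟨E, hE⟩ : ∃ E, E = Real.exp (6 * (M : ℝ) ^ 5) * Real.exp (-(M : ℝ) ^ 7 / 8) * B ^ 2 :=
    ⟨_, rfl⟩
  have E0 : 0 ≤ E := by rw [hE]; positivity
  have tN : t ^ (Q * M ^ 7) ≤ Real.exp (-(M : ℝ) ^ 7 / 8) := by
    calc t ^ (Q * M ^ 7) ≤ Real.exp (-(x / 8)) ^ (Q * M ^ 7) :=
          pow_le_pow_left₀ t0 (by linarith only [ht, Real.add_one_le_exp (-(x / 8))]) _
      _ = _ := by
          rw [← Real.exp_nat_mul]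
          congr 1
          push_cast
          linear_combination (-(M : ℝ) ^ 7 / 8) * xQ
  have term : ∀ i : ℕ, (1 - x) ^ i * u i ^ 2 ≤
      a ^ 2 / (9 * M) * (1 - x) ^ i + (if i ∈ bad then B ^ 2 else 0) + E * t ^ i := by
    clear * - x x1 t ht t1 a M a0 hM bad B hB E E0 t0 u Q u0 hup hc M0 hall x0 κ s tN hE
    intro i
    have p0 : 0 ≤ (1 - x) ^ i := pow_nonneg (by linarith only [x1]) i
    have p1 : (1 - x) ^ i ≤ 1 := pow_le_one₀ (by linarith only [x1]) (by linarith only [ht, t1])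
    have q1 : 0 ≤ a ^ 2 / (9 * M) * (1 - x) ^ i := by positivity
    have q2 : 0 ≤ (if i ∈ bad then B ^ 2 else 0) := by split_ifs <;> positivity
    have q3 : 0 ≤ E * t ^ i := by positivity
    by_cases hi : i ≤ Q * M ^ 7
    · by_cases hb : i ∈ bad
      · have h1 : u i ^ 2 ≤ B ^ 2 := pow_le_pow_left₀ (u0 i) (hup i hi) 2
        have h2 : (1 - x) ^ i * u i ^ 2 ≤ u i ^ 2 := mul_le_of_le_one_left (by positivity) p1
        rw [if_pos hb]
        linarith only [q1, q3, h1, h2]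
      · have h1 : (3 * √(M : ℝ) * u i) ^ 2 ≤ a ^ 2 :=
          pow_le_pow_left₀ (by have := u0 i; positivity) (hc i hi hb).le 2
        rw [mul_pow, mul_pow, Real.sq_sqrt M0.le] at h1
        have h2 : u i ^ 2 ≤ a ^ 2 / (9 * M) := by
          rw [le_div_iff₀ (by positivity)]
          linarith only [h1]
        have h3 := mul_le_mul_of_nonneg_left h2 p0
        linarith only [q2, q3, h3]
    · have h1 : u i ^ 2 ≤ (Real.exp (3 * (M : ℝ) ^ 5) * (1 + x / 4) ^ i * B) ^ 2 :=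
        pow_le_pow_left₀ (u0 i) (hall i) 2
      have h2 : (1 - x) ^ i * ((1 + x / 4) ^ i) ^ 2 ≤ t ^ i * t ^ i := by
        rw [← pow_mul, mul_comm i 2, pow_mul, ← mul_pow, ← mul_pow]
        refine pow_le_pow_left₀ (mul_nonneg (by linarith only [x1]) (by positivity)) ?_ i
        rw [ht]
        linarith only [x0, ht, t1, mul_pos x0 x0, mul_pos (mul_pos x0 x0) x0]
      have h3 : t ^ i ≤ Real.exp (-(M : ℝ) ^ 7 / 8) :=
        (pow_le_pow_of_le_one t0 t1.le (by omega)).trans tN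
      have h4 : Real.exp (3 * (M : ℝ) ^ 5) ^ 2 = Real.exp (6 * (M : ℝ) ^ 5) := by
        rw [← Real.exp_nat_mul]
        congr 1
        push_cast
        ring
      have h5 : (1 - x) ^ i * u i ^ 2 ≤ E * t ^ i := by
        clear * - x i u M B t E h1 x1 h4 h2 h3 t0 hB hE
        calc _ ≤ (1 - x) ^ i * (Real.exp (3 * (M : ℝ) ^ 5) * (1 + x / 4) ^ i * B) ^ 2 := by
              gcongr
          _ = Real.exp (6 * (M : ℝ) ^ 5) * B ^ 2 * ((1 - x) ^ i * ((1 + x / 4) ^ i) ^ 2) := by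
              rw [← h4]; ring
          _ ≤ Real.exp (6 * (M : ℝ) ^ 5) * B ^ 2 * (Real.exp (-(M : ℝ) ^ 7 / 8) * t ^ i) := by
              refine mul_le_mul_of_nonneg_left (h2.trans ?_) (by positivity)
              gcongr
          _ = _ := by rw [hE]; ring
      linarith only [q1, q2, h5]
  have g1 := (hasSum_geometric_of_lt_one (r := 1 - x) (by linarith only [x1]) (by linarith only [ht, t1])).mul_left
    (a ^ 2 / (9 * M))
  have g2 : HasSum (fun i => if i ∈ bad then B ^ 2 else 0) (bad.card * B ^ 2) := by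
    have := hasSum_sum_of_ne_finset_zero (f := fun i => if i ∈ bad then B ^ 2 else 0)
      (s := bad) (L := SummationFilter.unconditional ℕ) (fun i hi => if_neg hi)
    rwa [sum_congr rfl (g := fun _ => B ^ 2) fun i hi => if_pos hi, sum_const,
      nsmul_eq_mul] at this
  have g3 := (hasSum_geometric_of_lt_one t0 t1).mul_left E
  have g := hasSum_le term S.hasSum ((g1.add g2).add g3)
  have K2 : a ^ 2 ≤ M * (2 * x) *
      (a ^ 2 / (9 * M) * (1 - (1 - x))⁻¹ + bad.card * B ^ 2 + E * (1 - t)⁻¹) :=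
    K.trans (mul_le_mul hA g (tsum_nonneg fun i =>
      mul_nonneg (pow_nonneg (by linarith only [x1]) i) (by positivity)) (by positivity))
  have k1 : M * (2 * x) * (a ^ 2 / (9 * M) * (1 - (1 - x))⁻¹) = 2 / 9 * a ^ 2 := by
    rw [sub_sub_cancel]
    field_simp
  have k2 : M * (2 * x) * (bad.card * B ^ 2) ≤ 1 / 9 * a ^ 2 := by
    clear * - x bad M Q hbad x0 xQ hM' hM B a hBa a0 ht t1 x1
    have h1 : x * (bad.card * (M : ℝ) ^ 34) ≤ 1 := by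
      calc _ ≤ x * Q := by gcongr
        _ = 1 := xQ
    have h2 : M * (x * bad.card * (M : ℝ) ^ 33) ≤ 1 := by
      calc _ = x * (bad.card * (M : ℝ) ^ 34) := by ring
        _ ≤ 1 := h1
    have h3 : 18 * (x * bad.card * (M : ℝ) ^ 33) ≤ 1 :=
      le_trans (mul_le_mul_of_nonneg_right (by linarith only [hM', x1, ht, t1]) (by positivity)) h2
    calc _ ≤ M * (2 * x) * (bad.card * ((M : ℝ) ^ 32 * a ^ 2)) := by gcongr
      _ = 18 * (x * bad.card * (M : ℝ) ^ 33) * (1 / 9 * a ^ 2) := by ring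
      _ ≤ _ := mul_le_of_le_one_left (by positivity) h3
  have k3 : M * (2 * x) * (E * (1 - t)⁻¹) ≤ 1 / 2 * a ^ 2 := by
    clear * - M x E t a B ht hE x0 hB hM hBa a0 hM'
    calc _ = 16 * M * Real.exp (6 * (M : ℝ) ^ 5) * Real.exp (-(M : ℝ) ^ 7 / 8) * B ^ 2 := by
          rw [ht, sub_sub_cancel, hE]
          field_simp
          ring
      _ ≤ 16 * M * Real.exp (6 * (M : ℝ) ^ 5) * Real.exp (-(M : ℝ) ^ 7 / 8) *
          ((M : ℝ) ^ 32 * a ^ 2) := by gcongr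
      _ = 32 * (M : ℝ) ^ 33 * Real.exp (6 * (M : ℝ) ^ 5) * Real.exp (-(M : ℝ) ^ 7 / 8) *
          (1 / 2 * a ^ 2) := by ring
      _ ≤ _ := mul_le_of_le_one_left (by positivity) (Kos_num hM')
  have : 0 < a ^ 2 := by positivity
  rw [mul_add, mul_add] at K2
  clear * - a M x bad B E t K2 k1 k2 k3 this; linarith only [K2, k1, k2, k3, this]

end Pool.Agent.Work.MP_97f157_lc.Tau
end
end

-- merged part: Pool.Agent.Work.MP_97f157_lc.TauH1
section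
/-! The harmonic tool: preparation. -/

noncomputable section
open Complex Finset Metric

namespace Pool.Agent.Work.MP_97f157_lc.Tau

variable {ι : Type*} {m M : ℕ}

theorem H1_t {i : ℕ} (hi : i ∈ range (2 * M ^ 3452 + 1)) :
    |((i : ℝ) - (M : ℝ) ^ 3452) * (M : ℝ) ^ 3994| ≤ (M : ℝ) ^ 7446 := by
  have h1 : (i : ℝ) ≤ 2 * (M : ℝ) ^ 3452 := by exact_mod_cast Nat.lt_succ_iff.1 (mem_range.1 hi)
  have h0 : (0 : ℝ) ≤ i := Nat.cast_nonneg i
  have h2 : (0 : ℝ) ≤ (M : ℝ) ^ 3994 := by positivity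
  rw [abs_mul, abs_of_nonneg h2, show (M : ℝ) ^ 7446 = (M : ℝ) ^ 3452 * (M : ℝ) ^ 3994 by ring]
  exact mul_le_mul_of_nonneg_right (abs_le.2 ⟨by linarith only [], by linarith⟩) h2

theorem H1_term (r i : ℕ) (θ : ℝ) (z : ℂ) :
    ‖(bw r i : ℂ) * exp (I * (θ : ℂ)) * z‖ = bw r i * ‖z‖ := by
  rw [norm_mul, norm_mul, norm_exp_I_mul_ofReal, mul_one, norm_real, Real.norm_eq_abs,
    abs_of_nonneg (bw_nonneg r i)]

theorem H1_avg (G : ℝ → ℂ) (θ : ℕ → ℝ) (B : ℝ)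
    (h : ∀ t : ℝ, |t| ≤ (M : ℝ) ^ 7446 → ‖G t‖ ≤ B) :
    ‖∑ i ∈ range (2 * M ^ 3452 + 1), (bw (M ^ 3452) i : ℂ) * exp (I * (θ i : ℂ)) *
      G (((i : ℝ) - (M : ℝ) ^ 3452) * (M : ℝ) ^ 3994)‖ ≤ B := by
  refine (norm_sum_le_of_le _ (n := fun i => bw (M ^ 3452) i * B) fun i hi => ?_).trans ?_
  · rw [H1_term]
    exact mul_le_mul_of_nonneg_left (h _ (H1_t hi)) (bw_nonneg _ _)
  · rw [← sum_mul, bw_sum, one_mul]

theorem H1_exp (hp : Par m M) {k i l : ℕ} (hk : k ≤ 100000) (hi : 1 ≤ i) (hl : i < l) :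
    (M : ℝ) ^ k * Real.exp ((M : ℝ) ^ i) ≤ Real.exp ((M : ℝ) ^ l) := by
  refine (mul_le_mul_of_nonneg_right (hp.pow_le_exp hk) (Real.exp_pos _).le).trans ?_
  rw [← Real.exp_add, Real.exp_le_exp]
  have h1 := hp.mul_pow_le (c := 2) (by norm_num) hl
  have h2 := hp.pow_mono hi
  rw [pow_one] at h2
  linarith only [h1, h2]

theorem H1_alpha (hp : Par m M) {α' : ℝ} (hα' : |α' - 1| ≤ Real.pi / (M : ℝ) ^ 3994) :
    |α' - 1| ≤ ((M : ℝ) ^ 3993)⁻¹ ∧ 0 < α' := by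
  have h1 := hp.inv_pow_le (c := Real.pi) (by linarith only [Real.pi_le_four])
    (show 3993 < 3994 by norm_num)
  have h2 := hp.inv_pow_le (c := 2) (by norm_num) (show 0 < 3993 by norm_num)
  rw [div_eq_mul_inv] at hα'
  rw [pow_zero, inv_one] at h2
  exact ⟨hα'.trans h1, by linarith only [h1, h2, hα', (abs_le.1 hα').1]⟩

namespace CDat
variable (C : CDat ι m M)

theorem H1_hA_le {S : Finset ι} {h : ℝ} {j : ℕ} {ω : ℂ} {y B : ℝ} (α' : ℝ)
    (hB : ∀ t : ℝ, |t| ≤ (M : ℝ) ^ 7446 → ‖C.gA S h j ω (y + t)‖ ≤ B) :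
    ‖C.hA S h j ω y α'‖ ≤ B :=
  H1_avg (fun t => C.gA S h j ω (y + t)) _ B hB

theorem H1_card {S : Finset ι} (hS : S ⊆ C.D.s) (p : ι → Prop) [DecidablePred p] :
    2 * ((S.filter p).card : ℝ) ≤ M := by
  have h1 : (S.filter p).card ≤ m := ((card_filter_le _ _).trans (card_le_card hS)).trans C.card
  have h2 : ((S.filter p).card : ℝ) ≤ m := by exact_mod_cast h1
  linarith only [h2, C.par.mle]

theorem H1_negl {S : Finset ι} (hS : C.Sat S) {h : ℝ} (hh : 0 < h) {j : ℕ} {ω : ℂ} {y α' : ℝ}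
    (hA : C.Arg j ω y) (hy : 2 * |y| ≤ (M : ℝ) ^ 8000) (hα' : |α' - 1| ≤ Real.pi / (M : ℝ) ^ 3994)
    (hfar : ∀ r ∈ S, C.cl r = r → ((M : ℝ) ^ 5715)⁻¹ / 4 ≤ |C.D.a r / h - α'|)
    [DecidablePred fun r => C.cl r = r] :
    ‖C.hA S h j ω y α'‖ ≤ ∑ r ∈ S.filter (fun r => C.cl r = r),
      Real.exp (-(M : ℝ) ^ 9) * C.N0 * (C.D.a r * Real.exp (-(C.D.a r / h))) := by
  have e : C.hA S h j ω y α' =
      ∑ r ∈ S.filter (fun r => C.cl r = r), C.hA (cls C.D.s C.cl r) h j ω y α' := by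
    unfold CDat.hA
    simp only [C.gA_split hS, mul_sum]
    exact sum_comm
  rw [e]
  refine norm_sum_le_of_le _ fun r hr => ?_
  obtain ⟨h1, h2⟩ := mem_filter.1 hr
  rw [← mul_assoc]
  exact C.hA_negl r (hS.1 h1) h2 h hh j ω y α' hA hy hα' (hfar r h1 h2)

theorem H1_num {n x : ℝ} (hn : 2 * n ≤ M) (hn0 : 0 ≤ n) (hx : x ≤ 4 * (M : ℝ) ^ 8000 / C.d) :
    n * (Real.exp (-(M : ℝ) ^ 9) * C.N0 * x) ≤ Real.exp (-(M : ℝ) ^ 8) * C.N0 / C.d := by
  have hp := C.par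
  have h1 := H1_exp hp (k := 8002) (i := 8) (l := 9) (by norm_num) (by norm_num) (by norm_num)
  have h2 := hp.mul_pow_le (c := 2) (by norm_num) (show 8001 < 8002 by norm_num)
  have h3 : n * (4 * (M : ℝ) ^ 8000) ≤ (M : ℝ) ^ 8002 := by
    have := mul_le_mul_of_nonneg_right hn (hp.pow_pos 8000).le
    rw [pow_succ'] at h2
    linarith only [h2, this]
  have hd := C.dpos
  have hN := C.N0pos
  have h4 : (M : ℝ) ^ 8002 * Real.exp (-(M : ℝ) ^ 9) ≤ Real.exp (-(M : ℝ) ^ 8) := by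
    rw [Real.exp_neg, Real.exp_neg, ← div_eq_mul_inv, div_le_iff₀ (Real.exp_pos _),
      inv_mul_eq_div, le_div_iff₀ (Real.exp_pos _)]
    exact h1
  calc _ ≤ n * (Real.exp (-(M : ℝ) ^ 9) * C.N0 * (4 * (M : ℝ) ^ 8000 / C.d)) := by gcongr
    _ = n * (4 * (M : ℝ) ^ 8000) * Real.exp (-(M : ℝ) ^ 9) * C.N0 / C.d := by ring
    _ ≤ (M : ℝ) ^ 8002 * Real.exp (-(M : ℝ) ^ 9) * C.N0 / C.d := by gcongr
    _ ≤ _ := by gcongr

theorem H1_negl2 {S : Finset ι} (hS : C.Sat S) {h : ℝ} (hh : 0 < h) {j : ℕ} {ω : ℂ} {y α' : ℝ}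
    (hA : C.Arg j ω y) (hy : 2 * |y| ≤ (M : ℝ) ^ 8000) (hα' : |α' - 1| ≤ Real.pi / (M : ℝ) ^ 3994)
    (hfar : ∀ r ∈ S, C.cl r = r → ((M : ℝ) ^ 5715)⁻¹ / 4 ≤ |C.D.a r / h - α'|) :
    ‖C.hA S h j ω y α'‖ ≤ Real.exp (-(M : ℝ) ^ 8) * C.N0 / C.d := by
  classical
  refine (C.H1_negl hS hh hA hy hα' hfar).trans ((sum_le_card_nsmul _ _
    (Real.exp (-(M : ℝ) ^ 9) * C.N0 * (4 * (M : ℝ) ^ 8000 / C.d)) fun r hr => ?_).trans ?_)
  · have hr' := hS.1 (mem_filter.1 hr).1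
    have h1 := C.apos r hr'
    have h2 := C.ahi r hr'
    have h3 := C.par.pow_mono (show 7738 ≤ 8000 by norm_num)
    have h4 : Real.exp (-(C.D.a r / h)) ≤ 1 := Real.exp_le_one_iff.2 (neg_nonpos.2 (by positivity))
    have hN := C.N0pos
    refine mul_le_mul_of_nonneg_left ((mul_le_of_le_one_right h1.le h4).trans ?_) (by positivity)
    rw [le_div_iff₀ C.dpos]
    linarith only [h2, h3]
  · rw [nsmul_eq_mul]
    exact C.H1_num (C.H1_card hS.1 _) (Nat.cast_nonneg _) le_rfl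

end CDat

namespace CDat.Sel
variable {C : CDat ι m M} (σ : C.Sel)

theorem H1_ω : 0 < σ.ω ∧ σ.ω ≤ 2 * C.ω0 ∧ (M : ℝ) ^ 7995 ≤ C.y0 := by
  have hp := C.par
  have hd := C.dpos
  have h1 := hp.inv_pow_le (c := 4) (by norm_num) (show 0 < 5 by norm_num)
  have h2 := hp.inv_pow_le (c := 4) (by norm_num) (show 0 < 7 by norm_num)
  rw [pow_zero, inv_one] at h1 h2
  have h3 : 0 < ((M : ℝ) ^ 5)⁻¹ := inv_pos.2 (hp.pow_pos 5)
  have h4 : (M : ℝ) ^ 8000 ≤ C.jc := by exact_mod_cast C.jlo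
  have h5 := hp.pow_pos 8000
  have h6 : (C.jc : ℝ) ≤ C.ω0 * C.d := by
    unfold CDat.ω0
    rw [div_mul_eq_mul_div, le_div_iff₀ (mul_pos hd (by linarith only [h1, h3]))]
    have : 0 < (C.jc : ℝ) * C.d * ((M : ℝ) ^ 5)⁻¹ := mul_pos (mul_pos (by linarith only [h4, h5]) hd) h3
    linarith only [this]
  have h7 : 0 < C.ω0 := (pos_iff_pos_of_mul_pos (by linarith only [h4, h5, h6] : 0 < C.ω0 * C.d)).2 hd
  have h8 := abs_le.1 σ.hω
  have h9 := mul_le_mul_of_nonneg_right h2 h7.le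
  refine ⟨by linarith only [h7, h8, h9, h8.1], by linarith only [h7, h8, h9, h8.2], ?_⟩
  unfold CDat.y0
  rw [← mul_assoc, ← div_eq_mul_inv, le_div_iff₀ (hp.pow_pos 5), ← pow_add]
  exact h4.trans h6

theorem H1_near {y ω : ℝ} (hy : |y - σ.y| ≤ (M : ℝ) ^ 5907)
    (hω : |ω - σ.ω| ≤ ((M : ℝ) ^ 12)⁻¹ / 2 * σ.ω) (t : ℝ) (ht : |t| ≤ (M : ℝ) ^ 7446) :
    σ.Near σ.j ω (y + t) := by
  have hp := C.par
  obtain ⟨-, h2, h3⟩ := σ.H1_ω
  have h4 : 0 < ((M : ℝ) ^ 12)⁻¹ := inv_pos.2 (hp.pow_pos 12)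
  refine ⟨by rw [sub_self, abs_zero]; exact (hp.pow_pos _).le, hω.trans ?_, ?_⟩
  · have := mul_le_mul_of_nonneg_left h2 h4.le
    linarith only [this]
  · rw [add_sub_right_comm, inv_mul_eq_div, le_div_iff₀ (hp.pow_pos 12)]
    have a1 := abs_add_le (y - σ.y) t
    have a2 := hp.pow_mono (show 5907 ≤ 7446 by norm_num)
    have a3 := hp.mul_pow_le (c := 2) (by norm_num) (show 7446 + 12 < 7995 by norm_num)
    have a4 := mul_le_mul_of_nonneg_right (show |y - σ.y + t| ≤ 2 * (M : ℝ) ^ 7446 by linarith only [hy, ht, a1, a2])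
      (hp.pow_pos 12).le
    rw [pow_add] at a3
    linarith only [h3, a3, a4]

theorem H1_div {α' P c : ℝ} (hα' : 0 < α') (hP : |P - σ.ω * α'| ≤ c * (σ.ω * α')) :
    |P / α' - σ.ω| ≤ c * σ.ω := by
  rw [show P / α' - σ.ω = (P - σ.ω * α') / α' by field_simp, abs_div, abs_of_pos hα',
    div_le_iff₀ hα', mul_assoc]
  exact hP

theorem H1_E {k : ℕ} (hk : k ≤ 100000) :
    (M : ℝ) ^ k * (Real.exp (-(M : ℝ) ^ 8) * C.N0 / C.d) ≤ σ.S * √σ.h := by
  refine le_trans ?_ σ.Sbig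
  have h1 := H1_exp C.par (i := 4) (l := 8) hk (by norm_num) (by norm_num)
  have h4 : (M : ℝ) ^ k * Real.exp (-(M : ℝ) ^ 8) ≤ Real.exp (-(M : ℝ) ^ 4) := by
    rw [Real.exp_neg, Real.exp_neg, ← div_eq_mul_inv, div_le_iff₀ (Real.exp_pos _),
      inv_mul_eq_div, le_div_iff₀ (Real.exp_pos _)]
    exact h1
  have hd := C.dpos
  have hN := C.N0pos
  rw [← mul_div_assoc, ← mul_assoc]
  gcongr

theorem H1_sat : C.Sat (cls C.D.s σ.gr σ.G) :=
  (C.gsat_cls σ.hgr σ.G σ.Gmem σ.Grep).sat C σ.hgr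

theorem H1_mem {k : ι} : k ∈ cls C.D.s σ.gr σ.G ↔ k ∈ C.D.s ∧ σ.gr k = σ.G := by
  unfold cls
  convert mem_filter

theorem H1_y : |σ.y - σ.y| ≤ (M : ℝ) ^ 5907 := by rw [sub_self, abs_zero]; positivity

theorem H1_w : |σ.ω - σ.ω| ≤ ((M : ℝ) ^ 12)⁻¹ / 2 * σ.ω := by
  have := σ.H1_ω.1
  rw [sub_self, abs_zero]; positivity

theorem H1_root (G : ℝ → ℂ) (hM : 1 ≤ M) :
    ‖∑ q ∈ range (2 * M ^ 3452), ∑ i ∈ range (2 * M ^ 3452 + 1), (bw (M ^ 3452) i : ℂ) *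
      exp (I * ((((i : ℝ) - (M : ℝ) ^ 3452) * (M : ℝ) ^ 3994 * (1 + 2 * Real.pi *
        (q - (M : ℝ) ^ 3452) / (2 * (M : ℝ) ^ 3452 * (M : ℝ) ^ 3994)) : ℝ) : ℂ)) *
        G (((i : ℝ) - (M : ℝ) ^ 3452) * (M : ℝ) ^ 3994)‖ =
      2 * (M : ℝ) ^ 3452 * bw (M ^ 3452) (M ^ 3452) * ‖G 0‖ := by
  have hs : (M : ℝ) ^ 3994 ≠ 0 := by positivity
  have hr : 1 ≤ M ^ 3452 := Nat.one_le_pow _ _ hM
  rw [← Nat.cast_pow M 3452]
  generalize (M : ℝ) ^ 3994 = s at hs ⊢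
  generalize M ^ 3452 = r at hr ⊢
  have hs' : (s : ℂ) ≠ 0 := by exact_mod_cast hs
  have hr' : (r : ℂ) ≠ 0 := by exact_mod_cast (by omega : r ≠ 0)
  have e : ∀ i : ℕ, ∑ q ∈ range (2 * r), (bw r i : ℂ) * exp (I * ((((i : ℝ) - r) * s *
      (1 + 2 * Real.pi * (q - r) / (2 * r * s)) : ℝ) : ℂ)) * G (((i : ℝ) - r) * s) =
      (bw r i : ℂ) * exp (I * ((((i : ℝ) - r) * (s - Real.pi) : ℝ) : ℂ)) * G (((i : ℝ) - r) * s) *
        (if ((2 * r : ℕ) : ℤ) ∣ (i : ℤ) - r then ((2 * r : ℕ) : ℂ) else 0) := fun i => by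
    rw [← sum_exp_root _ (by omega), mul_sum]
    refine sum_congr rfl fun q _ => ?_
    rw [mul_right_comm _ (G _), mul_assoc _ (exp _) (exp _), ← exp_add]
    congr 3
    push_cast
    field_simp
    ring
  rw [sum_comm, sum_congr rfl fun i _ => e i, sum_eq_single_of_mem r (mem_range.2 (by omega))]
  · rw [if_pos (by simp), norm_mul, H1_term, sub_self, zero_mul, norm_natCast]
    push_cast
    ring
  · intro i hi h
    rw [if_neg, mul_zero]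
    intro k
    have := Int.eq_zero_of_abs_lt_dvd k (by
      have := mem_range.1 hi
      rw [abs_lt]; constructor <;> omega)
    omega

/-- `r = M^3452`, `Q = 2r`, `α'_q = 1 + 2π (q - r) / (Q M^3994)`: `∑_q hA α'_q = Q bw r r gA`
(`sum_exp_root`, `bw_mid`); `hA α'_q` is negligible (`hA_negl`) unless a cluster of `G` is within
`M^{-5715}/4` of `α'_q` (at most `m M^5 Q / (5 √r)` values of `q`, `count_interval`). -/
theorem exists_alpha : ∃ α' : ℝ, |α' - 1| ≤ Real.pi / (M : ℝ) ^ 3994 ∧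
    σ.S * √σ.h / (M : ℝ) ^ 6 ≤ ‖C.hA (cls C.D.s σ.gr σ.G) σ.h σ.j σ.ω σ.y α'‖ := by
  classical
  have hp := C.par
  by_contra hc
  push Not at hc
  obtain ⟨al, hal⟩ : ∃ al : ℕ → ℝ, al = fun q : ℕ => 1 + 2 * Real.pi *
    (q - (M : ℝ) ^ 3452) / (2 * (M : ℝ) ^ 3452 * (M : ℝ) ^ 3994) := ⟨_, rfl⟩
  have hr := hp.pow_pos 3452
  have hs := hp.pow_pos 3994
  have hπ := Real.pi_pos
  have h1 : ∀ q ∈ range (2 * M ^ 3452), |al q - 1| ≤ Real.pi / (M : ℝ) ^ 3994 := fun q hq => by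
    have a1 : (q : ℝ) ≤ 2 * (M : ℝ) ^ 3452 := by exact_mod_cast (mem_range.1 hq).le
    have a0 : (0 : ℝ) ≤ q := Nat.cast_nonneg q
    have a2 : |(q : ℝ) - (M : ℝ) ^ 3452| ≤ (M : ℝ) ^ 3452 := abs_le.2 ⟨by linarith only [], by linarith only [a1]⟩
    rw [hal]
    beta_reduce
    generalize (M : ℝ) ^ 3452 = r at hr a2 ⊢
    generalize (M : ℝ) ^ 3994 = s at hs ⊢
    rw [add_sub_cancel_left, abs_div, abs_mul, abs_of_pos (by positivity : 0 < 2 * Real.pi),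
      abs_of_pos (by positivity : 0 < 2 * r * s)]
    calc _ ≤ 2 * Real.pi * r / (2 * r * s) := by gcongr
      _ = _ := by field_simp
  have h2 := H1_root (fun t => C.gA (cls C.D.s σ.gr σ.G) σ.h σ.j σ.ω (σ.y + t)) hp.one_leN
  have h3 : 2 * (M : ℝ) ^ 3452 * bw (M ^ 3452) (M ^ 3452) *
      ‖C.gA (cls C.D.s σ.gr σ.G) σ.h σ.j σ.ω σ.y‖ =
      ‖∑ q ∈ range (2 * M ^ 3452), C.hA (cls C.D.s σ.gr σ.G) σ.h σ.j σ.ω σ.y (al q)‖ := by
    rw [add_zero] at h2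
    rw [← h2, hal]
    rfl
  obtain ⟨X, hX⟩ : ∃ X, X = σ.S * √σ.h := ⟨_, rfl⟩
  obtain ⟨E, hE⟩ : ∃ E, E = Real.exp (-(M : ℝ) ^ 8) * C.N0 / C.d := ⟨_, rfl⟩
  have X0 : 0 < X := hX ▸ mul_pos σ.Spos (Real.sqrt_pos.2 σ.hpos)
  have E0 : 0 ≤ E := by
    have := C.dpos
    have := C.N0pos
    rw [hE]; positivity
  have hN := σ.near_self.facts
  obtain ⟨R, hR⟩ : ∃ R, R = (cls C.D.s σ.gr σ.G).filter (fun r => C.cl r = r) := ⟨_, rfl⟩
  obtain ⟨b, hb⟩ : ∃ b : ι → Finset ℕ, b = fun r => (range (2 * M ^ 3452)).filter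
    fun q => |C.D.a r / σ.h - al q| < ((M : ℝ) ^ 5715)⁻¹ / 4 := ⟨_, rfl⟩
  have h4 : ∀ r, 5 * ((b r).card : ℝ) ≤ (M : ℝ) ^ 1731 := fun r => by
    clear * - b r M ι m C σ hp al hb hs hr hal
    have := count_interval ((M : ℝ) ^ 3452 + (C.D.a r / σ.h - 1) *
      ((M : ℝ) ^ 3452 * (M : ℝ) ^ 3994) / Real.pi) ((M : ℝ) ^ 1731 / 12)
      (div_pos (hp.pow_pos _) (by norm_num)).le (b r)
      fun q hq => by
        rw [hb] at hq
        have a1 := (mem_filter.1 hq).2.le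
        have a2 : (M : ℝ) ^ 3452 * (M : ℝ) ^ 3994 = (M : ℝ) ^ 5715 * (M : ℝ) ^ 1731 := by ring
        have a3 := hp.pow_pos 5715
        have a4 := hp.pow_pos 1731
        rw [hal] at a1
        beta_reduce at a1
        generalize (M : ℝ) ^ 3452 = r at hr a1 a2 ⊢
        generalize (M : ℝ) ^ 3994 = s at hs a1 a2 ⊢
        generalize (M : ℝ) ^ 5715 = u at a1 a2 a3 ⊢
        generalize (M : ℝ) ^ 1731 = v at a2 a4 ⊢
        generalize C.D.a _ / σ.h = x at a1 ⊢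
        rw [show q - (r + (x - 1) * (r * s) / Real.pi) = -((x - (1 + 2 * Real.pi * (q - r) /
          (2 * r * s))) * (r * s / Real.pi)) by field_simp; ring, abs_neg,
          abs_mul, abs_of_pos (by positivity : 0 < r * s / Real.pi), a2]
        calc _ ≤ u⁻¹ / 4 * (u * v / 3) := by clear * - x q r s u v a1 a3 a4; gcongr; exact Real.pi_gt_three.le
          _ = _ := by clear * - u v a3 a4; field_simp; norm_num
    have a2 := hp.mul_pow_le (c := 30) (by norm_num) (show 0 < 1731 by norm_num)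
    rw [pow_zero] at a2
    linarith only [this, a2]
  have h5 : 10 * ((R.biUnion b).card : ℝ) ≤ (M : ℝ) ^ 1732 := by
    clear * - ι R b M h4 m C σ hR hp
    have a1 : ((R.biUnion b).card : ℝ) ≤ ∑ r ∈ R, ((b r).card : ℝ) := by
      exact_mod_cast card_biUnion_le
    have a2 := sum_le_card_nsmul R (fun r => ((b r).card : ℝ)) ((M : ℝ) ^ 1731 / 5)
      fun r _ => by linarith only [h4, h4 r]
    have a3 := mul_le_mul_of_nonneg_right (hR ▸ C.H1_card σ.H1_sat.1 fun r => C.cl r = r)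
      (hp.pow_pos 1731).le
    rw [nsmul_eq_mul] at a2
    rw [pow_succ']
    linarith only [a1, a2, a3]
  have h6 : ∀ q ∈ range (2 * M ^ 3452), ‖C.hA (cls C.D.s σ.gr σ.G) σ.h σ.j σ.ω σ.y (al q)‖ ≤
      (if q ∈ R.biUnion b then X / (M : ℝ) ^ 6 else 0) + E := fun q hq => by
    split_ifs with h
    · linarith only [hX, E0, hX ▸ hc _ (h1 q hq)]
    · rw [zero_add, hE]
      refine C.H1_negl2 σ.H1_sat σ.hpos hN.1 hN.2.1 (h1 q hq) fun r r1 r2 => not_lt.1 fun k => h ?_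
      rw [hR, hb]
      exact mem_biUnion.2 ⟨r, mem_filter.2 ⟨r1, r2⟩, mem_filter.2 ⟨hq, k⟩⟩
  have h7 := norm_sum_le_of_le _ h6
  rw [← h3, sum_add_distrib, sum_ite_mem, sum_const, sum_const, card_range, nsmul_eq_mul,
    nsmul_eq_mul] at h7
  have h8 : ((range (2 * M ^ 3452) ∩ R.biUnion b).card : ℝ) ≤ (R.biUnion b).card := by
    exact_mod_cast card_le_card inter_subset_right
  have h9 := σ.H1_E (k := 3452) (by norm_num)
  have a1 := bw_mid (Nat.one_le_pow 3452 _ hp.one_leN)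
  have a2 := σ.big
  rw [Nat.cast_pow, show (M : ℝ) ^ 3452 = ((M : ℝ) ^ 1726) ^ 2 by ring,
    Real.sqrt_sq (hp.pow_pos _).le] at a1
  rw [← hX] at a2 h9
  rw [← hE] at h9
  push_cast at h7
  have a3 : 2 * (M : ℝ) ^ 3452 * (1 / (2 * (M : ℝ) ^ 1726)) * (X / 4) ≤
      (M : ℝ) ^ 1732 / 10 * (X / (M : ℝ) ^ 6) + 2 * X := by
    clear * - M X ι m C σ a1 hr a2 X0 R b E h7 h5 h8 h9
    refine le_trans ?_ (h7.trans (add_le_add ?_ (by linarith only [h9])))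
    · gcongr
      exact bw_nonneg _ _ |> fun h => by positivity
    · gcongr
      linarith only [h5, h8]
  have a4 := mul_le_mul_of_nonneg_right
    (hp.mul_pow_le (c := 20) (by norm_num) (show 0 < 1726 by norm_num)) X0.le
  have a5 := hp.pos
  rw [show 2 * (M : ℝ) ^ 3452 * (1 / (2 * (M : ℝ) ^ 1726)) * (X / 4) = (M : ℝ) ^ 1726 * X / 4 by
    field_simp, show (M : ℝ) ^ 1732 / 10 * (X / (M : ℝ) ^ 6) = (M : ℝ) ^ 1726 * X / 10 by
    field_simp] at a3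
  rw [pow_zero] at a4
  linarith only [X0, a3, a4]

theorem H1_all (r : ι) (hr : r ∈ cls C.D.s σ.gr σ.G) (hrr : C.cl r = r) {y : ℝ}
    (hA : C.Arg σ.j σ.ω y) (i : ℕ) : ‖C.gA (cls C.D.s C.cl r) σ.h σ.j σ.ω (y + i)‖ ≤
      (1 + 1 / (4 * (M : ℝ) ^ 5900)) ^ i * (30 * C.N0 * σ.h) := by
  have hp := C.par
  obtain ⟨r1, r2⟩ := σ.H1_mem.1 hr
  have hh := σ.hpos
  have ha := C.apos r r1
  have hN := C.N0pos
  have h1 := σ.h_range.2.2 r r1 r2
  have h2 := hp.inv_pow_le (c := 21) (by norm_num) (show 0 < 2 by norm_num)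
  have h3 := hp.inv_pow_le (c := 3) (by norm_num) (show 0 < 13 by norm_num)
  have h4 := hp.inv_pow_le (c := 16) (by norm_num) (show 5900 < 16000 by norm_num)
  have h5 := hp.inv_pow_le (c := 1) (by norm_num) (show 0 < 5900 by norm_num)
  rw [pow_zero, inv_one] at h2 h3 h5
  have hα : C.D.a r / σ.h ≤ 2 := by linarith only [h3, h1, (abs_le.1 h1).2]
  have hα0 : 0 < C.D.a r / σ.h := div_pos ha hh
  have hε : 0 < eC1 M := inv_pos.2 (hp.pow_pos _)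
  have k1 : gw σ.j (C.D.a r / σ.h) ≤ 1 :=
    (gw_le _ hα0).trans (Real.exp_le_one_iff.2 (neg_nonpos.2 (by positivity)))
  have k2 : Real.exp (7 * (M : ℝ) ^ 11 * |C.D.a r / σ.h - 1|) ≤ 3 := by
    refine le_trans (Real.exp_le_exp.2 ?_) (Real.exp_one_lt_d9.le.trans (by norm_num))
    have := hp.pos
    calc _ ≤ 7 * (M : ℝ) ^ 11 * (3 * ((M : ℝ) ^ 13)⁻¹) := by gcongr
      _ = 21 * ((M : ℝ) ^ 2)⁻¹ := by field_simp; norm_num
      _ ≤ 1 := h2
  have k3 : C.D.a r ≤ 2 * σ.h := (div_le_iff₀ hh).1 hα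
  have k4 : Real.exp (2 * eC1 M) ≤ 1 + 1 / (4 * (M : ℝ) ^ 5900) := by
    have e : 1 / (4 * (M : ℝ) ^ 5900) = ((M : ℝ) ^ 5900)⁻¹ / 4 := by rw [one_div, mul_inv]; ring
    have := Real.abs_exp_sub_one_le (x := 2 * eC1 M) (by
      rw [abs_of_pos (by linarith only [hε])]; unfold eC1; linarith only [h4, h5])
    rw [abs_of_pos (show 0 < 2 * eC1 M by linarith only [hε])] at this
    have := (abs_le.1 this).2
    rw [e]
    unfold eC1 at this ⊢
    linarith only [h4, this]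
  have nb := C.gbase_nb r r1 hrr σ.h hh σ.j σ.ω y hA
  have mu := (((Mu.fst (s := cls C.D.s C.cl r) (u := rv (fun k => (C.D.a k : ℂ)) C.cl (eC1 M))
    (v := rv (fun k => (C.D.x k : ℂ)) C.cl (eC1 M))).smul
      (-(I * ((C.D.a r / σ.h * eC1 M : ℝ) : ℂ)))).exp (by positivity)).smul
        (exp (-(I * ((C.D.a r / σ.h : ℝ) : ℂ))))
  have := (mu.pow i).apply nb
  rw [← mul_neg, ← ofReal_neg, norm_exp_I_mul_ofReal, one_mul, norm_neg, norm_mul, norm_I, one_mul,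
    mul_one, norm_real, Real.norm_eq_abs, abs_of_pos (mul_pos hα0 hε)] at this
  refine le_trans (le_of_eq ?_) (this.trans ?_)
  · unfold CDat.gA
    refine congrArg _ (sum_congr rfl fun k hk => ?_)
    have e : C.cl k = r := by
      unfold cls at hk
      convert (mem_filter.1 hk).2
    rw [← exp_add, ← exp_nat_mul, mul_left_comm (exp _), ← exp_add]
    congr 2
    have b1 : (C.D.a r : ℂ) ≠ 0 := by exact_mod_cast ha.ne'
    have b2 : (eC1 M : ℂ) ≠ 0 := by exact_mod_cast hε.ne'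
    have b3 : (σ.h : ℂ) ≠ 0 := by exact_mod_cast hh.ne'
    unfold rv
    rw [e]
    push_cast
    field_simp
    ring
  · have := gw_nonneg σ.j hα0.le
    refine mul_le_mul (pow_le_pow_left₀ (Real.exp_pos _).le ((Real.exp_le_exp.2
      (mul_le_mul_of_nonneg_right hα hε.le)).trans k4) i) ?_ (by positivity)
      (pow_nonneg ((Real.exp_pos _).le.trans k4) i)
    calc _ ≤ 5 * C.N0 * (2 * σ.h) * 1 * 3 := by gcongr
      _ = _ := by ring

/-- `kos_select` with `w k = exp (-I a k / h)`, `Q = M^5900`, `B = S √h` (`up`, `bw_sum`);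
the bound for all `i` comes from `gbase_nb` and the multiplier `exp (-I t α (1 + ε u))`. -/
theorem kosH (α' : ℝ) (hα' : σ.S * √σ.h / (M : ℝ) ^ 6 ≤
      ‖C.hA (cls C.D.s σ.gr σ.G) σ.h σ.j σ.ω σ.y α'‖)
    (bad : Finset ℕ) (hbad : (bad.card : ℝ) * (M : ℝ) ^ 34 ≤ (M : ℝ) ^ 5900) :
    ∃ i ≤ M ^ 5907, i ∉ bad ∧
      σ.S * √σ.h / (M : ℝ) ^ 8 ≤ ‖C.hA (cls C.D.s σ.gr σ.G) σ.h σ.j σ.ω (σ.y + i) α'‖ := by
  classical
  have hp := C.par
  have hh := σ.hpos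
  have X0 : 0 < σ.S * √σ.h := mul_pos σ.Spos (Real.sqrt_pos.2 hh)
  obtain ⟨w, hw⟩ : ∃ w : ι → ℂ, w = fun k => exp (I * ((-(C.D.a k / σ.h) : ℝ) : ℂ)) := ⟨_, rfl⟩
  have w1 : ∀ k, ‖w k‖ = 1 := fun k => by rw [hw]; exact norm_exp_I_mul_ofReal _
  obtain ⟨c, hc⟩ : ∃ c : ι → ℂ, ∀ i : ℕ, ∑ k ∈ cls C.D.s σ.gr σ.G, c k * w k ^ i =
      C.hA (cls C.D.s σ.gr σ.G) σ.h σ.j σ.ω (σ.y + i) α' := by
    refine ⟨fun k => C.hA {k} σ.h σ.j σ.ω σ.y α', fun i => ?_⟩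
    unfold CDat.hA CDat.gA
    simp only [sum_singleton, mul_sum, sum_mul]
    rw [sum_comm]
    refine sum_congr rfl fun n _ => sum_congr rfl fun k _ => ?_
    rw [hw, ← exp_nat_mul, mul_assoc, mul_assoc _ (exp _) (exp _), ← exp_add]
    generalize ((n : ℝ) - (M : ℝ) ^ 3452) * (M : ℝ) ^ 3994 = t
    congr 3
    push_cast
    ring
  have h0 := hc 0
  simp only [pow_zero, mul_one, Nat.cast_zero, add_zero] at h0
  have hQ : (0 : ℝ) < (M ^ 5900 : ℕ) := by rw [Nat.cast_pow]; exact hp.pow_pos _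
  obtain ⟨i, i1, i2, i3⟩ := kos_select hp.big _
    ((card_le_card σ.H1_sat.1).trans (C.card.trans (by have := hp.two; omega))) c w (M ^ 5900)
    (le_self_pow₀ hp.one_leN (by norm_num)) (fun k _ => (w1 k).le)
    (fun k _ => by rw [w1, one_pow]; exact sub_le_self _ (one_div_pos.2 hQ).le) _ X0
    (fun i hi => by
      rw [hc]
      refine C.H1_hA_le _ fun t ht => ?_
      have := σ.H1_near (y := σ.y + i) (by
        rw [add_sub_cancel_left, Nat.abs_cast]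
        rw [← pow_add] at hi
        exact_mod_cast hi) σ.H1_w t ht
      exact σ.up _ σ.Gmem σ.Grep _ hh _ _ _ this.1 this.2 this.3)
    (fun i => by
      rw [hc, Nat.cast_pow]
      refine C.H1_hA_le _ fun t ht => ?_
      rw [add_right_comm, C.gA_split σ.H1_sat]
      refine (norm_sum_le_of_le _ fun r hr => σ.H1_all r (mem_filter.1 hr).1 (mem_filter.1 hr).2
        (σ.H1_near σ.H1_y σ.H1_w t ht).facts.1 i).trans ?_
      rw [sum_const, nsmul_eq_mul, mul_left_comm, mul_assoc (Real.exp _), mul_left_comm (Real.exp _)]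
      refine mul_le_mul_of_nonneg_left ?_
        (pow_nonneg (add_nonneg zero_le_one (one_div_pos.2 (by linarith only [hp, hp.pow_pos 5900])).le) i)
      have a1 := C.H1_card σ.H1_sat.1 fun r => C.cl r = r
      have a2 := σ.h_range.2.1
      have a3 := σ.Sbig
      have a4 := H1_exp hp (k := 7740) (i := 4) (l := 5) (by norm_num) (by norm_num) (by norm_num)
      have a5 := hp.mul_pow_le (c := 123) (by norm_num) (show 7739 < 7740 by norm_num)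
      have a6 : Real.exp ((M : ℝ) ^ 5) ≤ Real.exp (3 * (M : ℝ) ^ 5) :=
        Real.exp_le_exp.2 (by linarith only [hp, hp.pow_pos 5])
      have hd := C.dpos
      have hN := C.N0pos
      have a7 := hp.pow_pos 7738
      have a8 := hp.pos
      rw [pow_succ'] at a5
      rw [Real.exp_neg, mul_div_assoc, inv_mul_le_iff₀ (Real.exp_pos _)] at a3
      generalize (M : ℝ) ^ 7738 = u at a2 a5 a7
      generalize (M : ℝ) ^ 7740 = v at a4 a5
      calc _ ≤ (M : ℝ) * (30 * C.N0 * σ.h) :=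
            mul_le_mul_of_nonneg_right (by linarith only [a1, a8]) (by positivity)
        _ = M * (30 * (σ.h * C.d)) * (C.N0 / C.d) := by field_simp
        _ ≤ M * (30 * (41 / 10 * u)) * (Real.exp ((M : ℝ) ^ 4) * (σ.S * √σ.h)) := by gcongr
        _ = 123 * (M * u) * Real.exp ((M : ℝ) ^ 4) * (σ.S * √σ.h) := by ring
        _ ≤ v * Real.exp ((M : ℝ) ^ 4) * (σ.S * √σ.h) := by gcongr
        _ ≤ _ := mul_le_mul_of_nonneg_right (a4.trans a6) X0.le)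
    (h0 ▸ le_trans (div_le_div_of_nonneg_left X0.le (hp.pow_pos 6) (hp.pow_mono (by norm_num))) hα')
    bad (by rwa [Nat.cast_pow])
  refine ⟨i, by rwa [← pow_add] at i1, i2, ?_⟩
  rw [h0, hc] at i3
  have a1 : 3 * √(M : ℝ) ≤ (M : ℝ) ^ 2 := by
    have b1 := hp.mul_pow_le (c := 3) (by norm_num) (show 1 < 2 by norm_num)
    have b2 : √(M : ℝ) ≤ M := Real.sqrt_le_self_iff.2 (Or.inr hp.one_le)
    rw [pow_one] at b1
    linarith only [b1, b2]
  have a2 := (hα'.trans i3).trans (mul_le_mul_of_nonneg_right a1 (norm_nonneg _))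
  rw [div_le_iff₀ (hp.pow_pos _)] at a2 ⊢
  linarith only [a2]

/-- the amplitude used in `latt` -/
def ampH (S : Finset ι) (y α' : ℝ) (η P : ℝ) : ℂ := C.hA S (η / α') σ.j ((P / α' : ℝ) : ℂ) y α'

theorem ampH_A1 {S : Finset ι} (hS : C.GSat σ.gr S) (y α' : ℝ) (hy : |y - σ.y| ≤ (M : ℝ) ^ 5907)
    (hα' : |α' - 1| ≤ Real.pi / (M : ℝ) ^ 3994) (P : ℝ)
    (hP : |P - σ.ω * α'| ≤ ((M : ℝ) ^ 12)⁻¹ / 2 * (σ.ω * α')) (η : ℝ) (hη : 0 < η) :
    ‖σ.ampH S y α' η P‖ ≤ 2 * σ.S * √σ.h * √(η / (σ.h * α')) +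
      Real.exp (-(M : ℝ) ^ 8) * C.N0 / C.d := by
  have h1 := (H1_alpha C.par hα').2
  have hh := σ.hpos
  refine (σ.hA_up hS _ (div_pos hη h1) α' (σ.H1_near hy (σ.H1_div h1 hP))).trans
    (add_le_add_left ?_ _)
  rw [mul_assoc, ← Real.sqrt_mul hh.le, show σ.h * (η / (σ.h * α')) = η / α' by field_simp]
  have := mul_nonneg σ.Spos.le (Real.sqrt_nonneg (η / α'))
  linarith only [this]

theorem H1_cx {S : Finset ι} (hS : C.Sat S) {y h : ℝ} (hy : |y - σ.y| ≤ (M : ℝ) ^ 5907) (hh : 0 < h)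
    (α' : ℝ) {w : ℂ} (hw : ‖w - σ.ω‖ ≤ ((M : ℝ) ^ 12)⁻¹ / 2 * σ.ω) :
    ‖C.hA S h σ.j w y α'‖ ≤ Real.exp ((M : ℝ) ^ 5) * (σ.S * √h) := by
  have hp := C.par
  have hd := C.dpos
  have hω := σ.H1_ω.1
  refine C.H1_hA_le _ fun t ht => ?_
  have h1 : |w.re - σ.ω| ≤ ((M : ℝ) ^ 12)⁻¹ / 2 * σ.ω := by
    simpa using (abs_re_le_norm _).trans hw
  have h2 := (σ.H1_near hy h1 t ht).facts.1
  have h3 := (abs_le.1 σ.near_self.facts.1.hω).2
  have h4 : (C.jc : ℝ) ≤ 2 * (M : ℝ) ^ 8000 := by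
    have := Nat.cast_le (α := ℝ).2 C.jhi
    rwa [Nat.cast_mul, Nat.cast_pow, Nat.cast_ofNat] at this
  have h5 := hp.mul_pow_le (c := 10) (by norm_num) (show 7998 < 8000 by norm_num)
  have h6 := hp.inv_pow_le (c := 10) (by norm_num) (show 0 < 12 by norm_num)
  rw [pow_zero, inv_one] at h6
  rw [ofReal_re] at h3
  have h7 : ‖w‖ ≤ 21 / 20 * σ.ω := by
    have a1 := norm_le_norm_sub_add w σ.ω
    have a2 := mul_le_mul_of_nonneg_right h6 hω.le
    rw [norm_real, Real.norm_eq_abs, abs_of_pos hω] at a1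
    linarith only [hw, a1, a2]
  have h8 := mul_le_mul_of_nonneg_right h7 hd.le
  refine (C.gA_le hS h hh _ _ _ ⟨h2.1, by simpa using h2.2, by linarith only [h3, h4, h5, h8, hp.pow_pos 7998], h2.4⟩).trans ?_
  have a1 := H1_exp hp (k := 4000) (i := 4) (l := 5) (by norm_num) (by norm_num) (by norm_num)
  have a2 := σ.Slo
  rw [Real.exp_neg, mul_div_assoc, inv_mul_le_iff₀ (Real.exp_pos _)] at a2
  rw [← mul_assoc, mul_div_assoc]
  refine mul_le_mul_of_nonneg_right ((mul_le_mul_of_nonneg_left a2 (hp.pow_pos _).le).trans ?_)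
    (Real.sqrt_nonneg _)
  rw [← mul_assoc]
  exact mul_le_mul_of_nonneg_right a1 σ.Spos.le

/-- `bern` for `P ↦ hA S (h/N) j (P/α') y α'` (entire), `r = M^{-12} ω α' / 2`, `X = 2 M^5`,
`B = 2 * 2 S √h / √N`; the complex bound is `gA_le` -/
theorem ampH_A2 {S : Finset ι} (hS : C.GSat σ.gr S) (y α' : ℝ) (hy : |y - σ.y| ≤ (M : ℝ) ^ 5907)
    (hα' : |α' - 1| ≤ Real.pi / (M : ℝ) ^ 3994) (P : ℝ)
    (hP : |P - σ.ω * α'| ≤ ((M : ℝ) ^ 146)⁻¹ * (σ.ω * α')) (N : ℕ) (hN1 : 1 ≤ N) (hN : N ≤ M ^ 108) :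
    ‖σ.ampH S y α' (σ.h * α' / N) P - σ.ampH S y α' (σ.h * α' / N) (σ.ω * α')‖ ≤
      ((M : ℝ) ^ 126)⁻¹ * (2 * σ.S * √σ.h) / √N := by
  have hp := C.par
  have h1 := (H1_alpha hp hα').2
  have hh := σ.hpos
  have hM := hp.pos
  have hS0 := σ.Spos
  have N0 : (0 : ℝ) < N := by exact_mod_cast hN1
  have hω := σ.H1_ω.1
  have c0 : 0 < σ.ω * α' := mul_pos hω h1
  have hN' : √(N : ℝ) ≤ (M : ℝ) ^ 54 := Real.sqrt_le_iff.2 ⟨by positivity, by
    rw [← pow_mul]; exact_mod_cast hN⟩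
  have e1 : √(σ.h / N) = √σ.h / √N := Real.sqrt_div hh.le _
  have B0 : 0 ≤ σ.S * √(σ.h / N) := by positivity
  have hE : Real.exp (-(M : ℝ) ^ 8) * C.N0 / C.d ≤ σ.S * √(σ.h / N) := by
    have := C.dpos
    have := C.N0pos
    rw [e1, ← mul_div_assoc, le_div_iff₀ (Real.sqrt_pos.2 N0), mul_comm]
    exact (mul_le_mul_of_nonneg_right hN' (by positivity)).trans (σ.H1_E (by norm_num))
  have := bern (fun z => C.hA S (σ.h / N) σ.j (z / α') y α') (σ.ω * α')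
    (((M : ℝ) ^ 12)⁻¹ / 4 * (σ.ω * α')) (2 * (σ.S * √(σ.h / N))) ((M : ℝ) ^ 5) (by positivity)
    (one_le_pow₀ hp.one_le) (by positivity)
    (by
      unfold CDat.hA CDat.gA
      fun_prop)
    (fun x hx => by
      rw [← ofReal_div]
      refine (σ.hA_up hS _ (div_pos hh N0) α' (σ.H1_near hy (σ.H1_div h1 (hx.trans ?_)))).trans ?_
      · clear * - ι m M C σ α' hM hω h1; gcongr; norm_num
      · linarith only [hE])
    (fun z hz => by
      clear * - ι m M C S σ N z α' y hS hy hh N0 h1 hz B0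
      refine (σ.H1_cx (hS.sat C σ.hgr) hy (div_pos hh N0) α' ?_).trans
        (mul_le_mul_of_nonneg_left (by linarith only [B0]) (Real.exp_pos _).le)
      have a1 : (α' : ℂ) ≠ 0 := by exact_mod_cast h1.ne'
      rw [show z / α' - σ.ω = (z - (σ.ω * α' : ℝ)) / α' by push_cast; field_simp, norm_div,
        norm_real, Real.norm_eq_abs, abs_of_pos h1, div_le_iff₀ h1]
      exact (mem_closedBall_iff_norm.1 hz).trans (le_of_eq (by ring)))
    P (hP.trans (by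
      clear * - M m hp ι C σ α' hω h1 hM
      have := hp.inv_pow_le (c := 16) (by norm_num) (show 17 < 146 by norm_num)
      calc _ ≤ ((M : ℝ) ^ 17)⁻¹ / 16 * (σ.ω * α') := by gcongr; linarith only [this]
        _ = _ := by field_simp; norm_num))
  unfold ampH
  rw [show σ.h * α' / N / α' = σ.h / N by field_simp, ofReal_div, ofReal_div]
  refine this.trans ?_
  have a1 := hp.inv_pow_le (c := 80) (by norm_num) (show 126 < 129 by norm_num)
  calc _ ≤ 20 * (M : ℝ) ^ 5 * (((M : ℝ) ^ 146)⁻¹ * (σ.ω * α') /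
        (((M : ℝ) ^ 12)⁻¹ / 4 * (σ.ω * α'))) * (2 * (σ.S * √(σ.h / N))) := by clear * - ι m M C σ N P α' hP hM hω h1 hS0 hh hN1; gcongr
    _ = 80 * ((M : ℝ) ^ 129)⁻¹ * (2 * (σ.S * √(σ.h / N))) := by field_simp; norm_num
    _ ≤ ((M : ℝ) ^ 126)⁻¹ * (2 * (σ.S * √(σ.h / N))) := by gcongr
    _ = _ := by rw [e1]; ring

/-- `hA_negl` and `sum_exp_harm` -/
theorem ampH_A3 {S : Finset ι} (hS : C.Sat S) (y α' : ℝ) (hy : |y - σ.y| ≤ (M : ℝ) ^ 5907)
    (hα' : |α' - 1| ≤ Real.pi / (M : ℝ) ^ 3994) (P : ℝ)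
    (hP : |P - σ.ω * α'| ≤ ((M : ℝ) ^ 146)⁻¹ * (σ.ω * α')) (F : Finset ℕ)
    (hF : ∀ k ∈ F, 1 ≤ k ∧ ∀ r ∈ S, C.cl r = r → σ.ω / (M : ℝ) ^ 5715 < |k * C.D.a r - P|) :
    ∑ k ∈ F, ‖σ.ampH S y α' (P / k) P‖ ≤ Real.exp (-(M : ℝ) ^ 8) * C.N0 / C.d := by
  classical
  have hp := C.par
  have h1 := (H1_alpha hp hα').2
  have hω := σ.H1_ω.1
  have h2 := hp.inv_pow_le (c := 2) (by norm_num) (show 12 < 146 by norm_num)
  have h3 := hp.inv_pow_le (c := 1) (by norm_num) (show 0 < 12 by norm_num)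
  rw [pow_zero, inv_one, one_mul] at h3
  have h4 : |P / α' - σ.ω| ≤ ((M : ℝ) ^ 12)⁻¹ / 2 * σ.ω :=
    (σ.H1_div h1 hP).trans (mul_le_mul_of_nonneg_right (by linarith only [h2]) hω.le)
  have h5 := (σ.H1_near hy h4 0 (by rw [abs_zero]; exact (hp.pow_pos _).le)).facts
  rw [add_zero] at h5
  have h6 := mul_le_mul_of_nonneg_right h3 hω.le
  have h7 := abs_le.1 h4
  have w0 : 0 < P / α' := by linarith only [hω, h6, h7, h7.1]
  have w1 : P / α' ≤ 2 * σ.ω := by linarith only [hω, h6, h7, h7.2]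
  have hN := C.N0pos
  unfold ampH
  refine (sum_le_sum fun k hk => ?_).trans ((sum_comm.trans_le (sum_le_card_nsmul
    (S.filter fun r => C.cl r = r) (fun r => ∑ k ∈ F, Real.exp (-(M : ℝ) ^ 9) * C.N0 *
      (C.D.a r * Real.exp (-(C.D.a r / (P / α' / k))))) (Real.exp (-(M : ℝ) ^ 9) * C.N0 *
        (4 * (M : ℝ) ^ 8000 / C.d)) fun r hr => ?_)).trans ?_)
  · have k0 : (0 : ℝ) < k := by exact_mod_cast (hF k hk).1
    rw [div_right_comm]
    refine C.H1_negl hS (div_pos w0 k0) h5.1 h5.2.1 hα' fun r r1 r2 => ?_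
    have a1 := ((hF k hk).2 r r1 r2).le
    have a2 : P = P / α' * α' := by field_simp
    have a3 := inv_pos.2 (hp.pow_pos 5715)
    rw [div_eq_inv_mul] at a1
    generalize ((M : ℝ) ^ 5715)⁻¹ = u at a1 a3 ⊢
    generalize P / α' = w at w0 w1 a2 ⊢
    rw [show C.D.a r / (w / k) - α' = (k * C.D.a r - P) / w by rw [a2]; field_simp, abs_div,
      abs_of_pos w0, le_div_iff₀ w0]
    have := mul_le_mul_of_nonneg_left w1 a3.le
    have := mul_pos a3 hω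
    linarith
  · rw [← mul_sum]
    refine mul_le_mul_of_nonneg_left ((C.sum_exp_harm r (hS.1 (mem_filter.1 hr).1) _ w0 h5.2.2.2.2.1
      F fun k hk => (hF k hk).1).trans ?_) (by positivity)
    exact div_le_div_of_nonneg_right (by linarith only [hp.pow_pos 8000]) C.dpos.le
  · rw [nsmul_eq_mul]
    exact C.H1_num (C.H1_card hS.1 _) (Nat.cast_nonneg _) le_rfl

/-- the target group carries the amplitude at the target -/
theorem ampH_target {S : Finset ι} (hS : C.GSat σ.gr S) (hG : σ.G ∈ S) (y α' : ℝ)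
    (hy : |y - σ.y| ≤ (M : ℝ) ^ 5907) (hα' : |α' - 1| ≤ Real.pi / (M : ℝ) ^ 3994)
    (h : σ.S * √σ.h / (M : ℝ) ^ 8 ≤ ‖C.hA (cls C.D.s σ.gr σ.G) σ.h σ.j σ.ω y α'‖) :
    2 * σ.S * √σ.h / (M : ℝ) ^ 16 ≤ ‖σ.ampH S y α' (σ.h * α') (σ.ω * α')‖ := by
  classical
  have hp := C.par
  obtain ⟨h0, h1⟩ := H1_alpha hp hα'
  have hh := σ.hpos
  have hM := hp.pos
  have sub : cls C.D.s σ.gr σ.G ⊆ S := fun k hk =>
    (hS.2 k (σ.H1_mem.1 hk).1).2 ((σ.H1_mem.1 hk).2.symm ▸ hG)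
  have sat : C.Sat (S \ cls C.D.s σ.gr σ.G) := ⟨sdiff_subset.trans hS.1, fun k hk => by
    rw [mem_sdiff, mem_sdiff, ← (hS.sat C σ.hgr).2 k hk, ← σ.H1_sat.2 k hk]⟩
  have h5 := (σ.H1_near hy σ.H1_w 0 (by rw [abs_zero]; exact (hp.pow_pos _).le)).facts
  rw [add_zero] at h5
  obtain ⟨r0, q1, -, q3, q4⟩ := σ.near_h
  have h6 := C.H1_negl2 sat hh h5.1 h5.2.1 hα' fun r r1 _ => by
    obtain ⟨r2, r3⟩ := mem_sdiff.1 r1
    have r4 := hS.1 r2
    have a1 := σ.hgr.sep r r4 r0 q1 fun k => r3 (σ.H1_mem.2 ⟨r4, k.trans q3⟩)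
    rw [← ofReal_sub, norm_real, norm_real, norm_real, Real.norm_eq_abs, Real.norm_eq_abs,
      Real.norm_eq_abs, abs_of_pos (C.apos r r4), abs_of_pos (C.apos r0 q1)] at a1
    replace a1 := div_lt_div_of_pos_right a1 hh
    rw [mul_div_assoc, ← min_div_div_right hh.le, ← abs_of_pos hh, ← abs_div, abs_of_pos hh,
      sub_div] at a1
    have a2 : (M : ℝ) ^ 5 / (2 * (M : ℝ) ^ 4000) = ((M : ℝ) ^ 3995)⁻¹ / 2 := by
      rw [show (M : ℝ) ^ 4000 = (M : ℝ) ^ 5 * (M : ℝ) ^ 3995 by ring]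
      have := hp.pow_pos 3995
      generalize (M : ℝ) ^ 3995 = u at this ⊢
      field_simp
    have b1 := hp.inv_pow_le (c := 10) (by norm_num) (show 14 < 3993 by norm_num)
    have b2 := hp.inv_pow_le (c := 10) (by norm_num) (show 14 < 3995 by norm_num)
    have b3 := hp.inv_pow_le (c := 10) (by norm_num) (show 14 < 5715 by norm_num)
    have b4 := hp.inv_pow_le (c := 1) (by norm_num) (show 0 < 14 by norm_num)
    have b5 := inv_pos.2 (hp.pow_pos 14)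
    rw [pow_zero, inv_one] at b4
    rw [a2] at q4
    by_contra k
    obtain ⟨c1, c2⟩ := abs_lt.1 (not_le.1 k)
    obtain ⟨c3, c4⟩ := abs_le.1 q4
    obtain ⟨c5, c6⟩ := abs_le.1 h0
    have c7 := mul_le_mul_of_nonneg_left (le_min (show 1 / 2 ≤ C.D.a r / σ.h by linarith only [b1, b3, b4, c1, c2, c5])
      (show 1 / 2 ≤ C.D.a r0 / σ.h by linarith only [b2, b3, b4, c1, c2, c3])) b5.le
    rcases lt_abs.1 a1 with c | c <;> linarith only [b1, b2, b3, c1, c2, c3, c6, c7, c, c4, c5]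
  have e : C.hA (cls C.D.s σ.gr σ.G) σ.h σ.j σ.ω y α' =
      C.hA S σ.h σ.j σ.ω y α' - C.hA (S \ cls C.D.s σ.gr σ.G) σ.h σ.j σ.ω y α' := by
    unfold CDat.hA CDat.gA
    rw [← sum_sub_distrib]
    refine sum_congr rfl fun i _ => ?_
    rw [← mul_sub, ← sum_sdiff sub, add_sub_cancel_left]
  unfold ampH
  rw [mul_div_cancel_right₀ _ h1.ne', mul_div_cancel_right₀ _ h1.ne']
  have h7 := (h.trans_eq (congrArg _ e)).trans ((norm_sub_le _ _).trans (add_le_add_right h6 _))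
  have h8 := σ.H1_E (k := 16) (by norm_num)
  have X0 : 0 < σ.S * √σ.h := mul_pos σ.Spos (Real.sqrt_pos.2 hh)
  have h9 := mul_le_mul_of_nonneg_right
    (hp.mul_pow_le (c := 3) (by norm_num) (show 0 < 8 by norm_num)) X0.le
  rw [div_le_iff₀ (hp.pow_pos _)] at h7 ⊢
  have := mul_le_mul_of_nonneg_right h7 (hp.pow_pos 8).le
  linarith only [h8, h9, this]

/-- `hasSum_gA` averaged -/
theorem ampH_sum (S : Finset ι) (hS : S ⊆ C.D.s) (y α' P : ℝ) (hα' : 0 < α') (hP : 0 < P)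
    (hD : C.d / 2 ≤ σ.j / (P / α')) :
    ∑' k : ℕ, σ.ampH S y α' (P / ((k : ℝ) + 1)) P =
      ((σ.j.factorial : ℝ) * Real.exp σ.j / (P / α') ^ σ.j : ℝ) *
        avg M (C.D.lat S) C.d σ.j (P / α') y α' := by
  refine HasSum.tsum_eq ?_
  unfold ampH CDat.hA avg
  rw [mul_sum]
  refine hasSum_sum fun i _ => ?_
  simp only [div_right_comm P _ α']
  rw [mul_left_comm]
  exact (C.hasSum_gA S hS σ.j _ _ (div_pos hP hα') hD).mul_left _

end CDat.Sel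

/-- An average is small if the chain is small at the central points and bounded at all points
(`bw_tail`, `bw_sum`). -/
theorem avg_le (hp : Par m M) (F : ℕ → ℂ → ℂ) (d : ℝ) (j : ℕ) (ω y α' B ε : ℝ) (hB : 0 ≤ B)
    (hε : 0 ≤ ε)
    (h1 : ∀ t : ℝ, |t| ≤ (M : ℝ) ^ 7446 → ‖F j (zp d (j / ω) ((y + t) / ω))‖ ≤ B)
    (h2 : ∀ t : ℝ, |t| ≤ (M : ℝ) ^ 5725 → ‖F j (zp d (j / ω) ((y + t) / ω))‖ ≤ ε) :
    ‖avg M F d j ω y α'‖ ≤ ε + Real.exp (-((M : ℝ) ^ 10 / 4)) * B := by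
  refine (norm_sum_le_of_le _ (n := fun i => bw (M ^ 3452) i * ε +
    Real.exp (-((M : ℝ) ^ 10 / 2)) * B) fun i hi => ?_).trans ?_
  · rw [H1_term]
    have b0 := bw_nonneg (M ^ 3452) i
    by_cases h : |((i : ℝ) - (M : ℝ) ^ 3452) * (M : ℝ) ^ 3994| ≤ (M : ℝ) ^ 5725
    · exact (mul_le_mul_of_nonneg_left (h2 _ h) b0).trans
        (le_add_of_nonneg_right (mul_nonneg (Real.exp_pos _).le hB))
    · refine le_add_of_nonneg_of_le (mul_nonneg b0 hε) (mul_le_mul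
        ((bw_tail (Nat.one_le_pow _ _ hp.one_leN) i).trans (Real.exp_le_exp.2 (neg_le_neg ?_)))
        (h1 _ (H1_t hi)) (norm_nonneg _) (Real.exp_pos _).le)
      rw [abs_mul, abs_of_pos (hp.pow_pos 3994), not_le,
        show (M : ℝ) ^ 5725 = (M : ℝ) ^ 1731 * (M : ℝ) ^ 3994 by ring] at h
      have a1 := pow_le_pow_left₀ (hp.pow_pos _).le (lt_of_mul_lt_mul_right h (hp.pow_pos _).le).le 2
      rw [Nat.cast_pow, le_div_iff₀ (by linarith only [hp, hp.pow_pos 3452]), ← sq_abs]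
      exact le_of_eq_of_le (by ring) a1
  · rw [sum_add_distrib, ← sum_mul, bw_sum, one_mul, sum_const, card_range, nsmul_eq_mul,
      ← mul_assoc]
    refine add_le_add_right (mul_le_mul_of_nonneg_right ?_ hB) _
    have a1 := hp.mul_pow_le (c := 3) (by norm_num) (show 3452 < 3453 by norm_num)
    have a2 := hp.pow_le_exp (k := 3453) (by norm_num)
    have a3 := hp.mul_pow_le (c := 4) (by norm_num) (show 1 < 10 by norm_num)
    have a4 : (1 : ℝ) ≤ (M : ℝ) ^ 3452 := one_le_pow₀ hp.one_le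
    rw [pow_one] at a3
    rw [Nat.cast_succ, Nat.cast_mul, Nat.cast_pow, Nat.cast_ofNat]
    refine (mul_le_mul_of_nonneg_right (c := Real.exp M) (by linarith) (Real.exp_pos _).le).trans ?_
    rw [← Real.exp_add, Real.exp_le_exp]
    linarith only [a3]

theorem avg_le_sup (F : ℕ → ℂ → ℂ) (d : ℝ) (j : ℕ) (ω y α' B : ℝ)
    (h1 : ∀ t : ℝ, |t| ≤ (M : ℝ) ^ 7446 → ‖F j (zp d (j / ω) ((y + t) / ω))‖ ≤ B) :
    ‖avg M F d j ω y α'‖ ≤ B :=
  H1_avg (fun t => F j (zp d (j / ω) ((y + t) / ω))) _ B h1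

theorem avg_add (F G : ℕ → ℂ → ℂ) (d : ℝ) (j : ℕ) (ω y α' : ℝ) :
    avg M (fun j z => F j z + G j z) d j ω y α' = avg M F d j ω y α' + avg M G d j ω y α' := by
  unfold avg
  simp only [mul_add, sum_add_distrib]

end Pool.Agent.Work.MP_97f157_lc.Tau
end
end
end
end
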