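import Mathlib

-- merged part: Pool.Agent.Work.MP_97f157_lc.TauMisc
section
-- merged part: Pool.Agent.Work.MP_97f157_lc.TauDefs
section
/-! Definitions for the polynomial bound for two products of powers of binomials. -/

noncomputable section
open Complex Finset

namespace Pool.Agent.Work.MP_97f157_lc.Tau

variable {κ ι : Type*}

/-! ### moment norms -/

def mom (s : Finset κ) (u v g : κ → ℂ) (i l : ℕ) : ℂ := ∑ k ∈ s, g k * u k ^ i * v k ^ l

/-- all mixed moments of `g` are bounded by `B` -/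
def NB (s : Finset κ) (u v g : κ → ℂ) (B : ℝ) : Prop := ∀ i l, ‖mom s u v g i l‖ ≤ B

/-- multiplication by `f` has norm at most `K` for the moment norm -/
def Mu (s : Finset κ) (u v f : κ → ℂ) (K : ℝ) : Prop :=
  ∀ g B, NB s u v g B → NB s u v (fun k => f k * g k) (K * B)

def Nm (s : Finset κ) (u v g : κ → ℂ) : ℝ := ⨆ p : ℕ × ℕ, ‖mom s u v g p.1 p.2‖

/-! ### clusters -/

/-- the class of `r` -/
def cls (s : Finset κ) (rep : κ → κ) (r : κ) : Finset κ := by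
  classical exact s.filter (fun k => rep k = r)

/-- relative coordinate inside a cluster -/
def rv (f : κ → ℂ) (rep : κ → κ) (e1 : ℝ) (k : κ) : ℂ := (f k / f (rep k) - 1) / (e1 : ℂ)

/-- relative clustering of the values of `f` -/
structure RClus (s : Finset κ) (f : κ → ℂ) (rep : κ → κ) (e1 e0 : ℝ) : Prop where
  mem : ∀ k ∈ s, rep k ∈ s
  idem : ∀ k ∈ s, rep (rep k) = rep k
  near : ∀ k ∈ s, ‖f k - f (rep k)‖ ≤ e1 / 4 * ‖f (rep k)‖
  sep : ∀ k ∈ s, ∀ k' ∈ s, rep k ≠ rep k' → e0 * min ‖f k‖ ‖f k'‖ < ‖f k - f k'‖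

/-- absolute clustering of the values of a real function -/
structure AClus (s : Finset κ) (f : κ → ℝ) (rep : κ → κ) (e1 e0 : ℝ) : Prop where
  mem : ∀ k ∈ s, rep k ∈ s
  idem : ∀ k ∈ s, rep (rep k) = rep k
  near : ∀ k ∈ s, |f k - f (rep k)| ≤ e1
  sep : ∀ k ∈ s, ∀ k' ∈ s, rep k ≠ rep k' → e0 < |f k - f k'|

/-- simultaneous relative clustering of two real functions -/
structure CClus (s : Finset κ) (a x : κ → ℝ) (rep : κ → κ) (e1 e0 : ℝ) : Prop where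
  mem : ∀ k ∈ s, rep k ∈ s
  idem : ∀ k ∈ s, rep (rep k) = rep k
  neara : ∀ k ∈ s, |a k - a (rep k)| ≤ e1 / 4 * |a (rep k)|
  nearx : ∀ k ∈ s, |x k - x (rep k)| ≤ e1 / 4 * |x (rep k)|
  sep : ∀ k ∈ s, ∀ k' ∈ s, rep k ≠ rep k' →
    e0 * min |a k| |a k'| < |a k - a k'| ∨ e0 * min |x k| |x k'| < |x k - x k'|

/-! ### parameters -/

def JacH (n M : ℕ) : Prop :=
  ∀ P : Finset ℕ, (∀ p ∈ P, p.Prime) → P.card ≤ n → ∀ x : ℕ,
    ∃ y, x ≤ y ∧ y < x + M ∧ ∀ p ∈ P, ¬ p ∣ y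

structure Par (m M : ℕ) : Prop where
  big : 10 ^ 12 ≤ M
  two : 2 * m ≤ M
  jac : JacH (2 * m) M

def eC1 (M : ℕ) : ℝ := ((M : ℝ) ^ 16000)⁻¹
def eC0 (M : ℕ) : ℝ := ((M : ℝ) ^ 16002)⁻¹
def eG1 (M : ℕ) : ℝ := ((M : ℝ) ^ 24000)⁻¹
def eG0 (M : ℕ) : ℝ := ((M : ℝ) ^ 24002)⁻¹
def eA1 (M : ℕ) : ℝ := ((M : ℝ) ^ 32000)⁻¹
def eA0 (M : ℕ) : ℝ := ((M : ℝ) ^ 32300)⁻¹

/-! ### chains `F j = (-D)^j F 0 / j!` -/

def pc (p : ℂ) (j : ℕ) (z : ℂ) : ℂ := (z - p)⁻¹ ^ (j + 1)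

def ec (μ : ℝ) (j : ℕ) (z : ℂ) : ℂ := (-(μ : ℂ)) ^ j * exp ((μ : ℂ) * z) / (j.factorial : ℂ)

def cc (c : ℂ) (j : ℕ) (_z : ℂ) : ℂ := if j = 0 then c else 0

/-- spacing of the poles -/
def sp (a : ℝ) : ℝ := 2 * Real.pi / a

def tw0 (a : ℝ) (j : ℕ) (w : ℂ) : ℂ :=
  (∑' l : ℕ, (pc (I * (((l : ℝ) + 1) * sp a : ℝ)) j w + pc (-(I * (((l : ℝ) + 1) * sp a : ℝ))) j w))
    - (if j = 0 then ((a / 2 : ℝ) : ℂ) else 0)

/-- the chain of `a / (exp (a w) - 1)`; if flagged the pole at `0` is removed -/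
def tw (fl : Bool) (a : ℝ) (j : ℕ) (w : ℂ) : ℂ := tw0 a j w + (if fl then 0 else pc 0 j w)

def Chain (F : ℕ → ℂ → ℂ) (U : Set ℂ) : Prop :=
  ∀ j : ℕ, ∀ z ∈ U, HasDerivAt (F j) (-((j : ℂ) + 1) * F (j + 1) z) z

/-- the operator `1 - D/μ` on the level of chains -/
def LS (μ : ℝ) (x : ℕ → ℂ) (j : ℕ) : ℂ := x j + ((j : ℂ) + 1) / (μ : ℂ) * x (j + 1)

def LL (l : List ℝ) (x : ℕ → ℂ) : ℕ → ℂ := l.foldr LS x

def Lop (l : List ℝ) (F : ℕ → ℂ → ℂ) (j : ℕ) (z : ℂ) : ℂ := LL l (fun i => F i z) j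

/-- the multiplier of `LL l` on `ec ν` -/
def Lm (l : List ℝ) (ν : ℝ) : ℂ := (l.map (fun μ : ℝ => (1 - (ν : ℂ) / (μ : ℂ)))).prod

/-- `f` vanishes on the real interval or has at most `N` zeros there -/
def ZB (f : ℂ → ℂ) (x y : ℝ) (N : ℝ) : Prop :=
  (∀ t ∈ Set.Ioo x y, f t = 0) ∨
    ∀ Z : Finset ℝ, (∀ t ∈ Z, t ∈ Set.Ioo x y ∧ f t = 0) → (Z.card : ℝ) ≤ N

/-! ### data -/

structure Dat (ι : Type*) where
  s : Finset ι
  W : ι → ℝ
  a : ι → ℝ
  x : ι → ℝ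
  fl : ι → Bool

namespace Dat
variable (D : Dat ι)

def lat (S : Finset ι) (j : ℕ) (z : ℂ) : ℂ :=
  ∑ k ∈ S, (D.W k : ℂ) * tw (D.fl k) (D.a k) j (z - D.x k)

def T (k : ι) : ℝ := D.a k * |D.x k|

def sg (k : ι) : ℝ := if D.x k < 0 then -1 else 1

def freq (ν : ι × ℕ) : ℝ := D.sg ν.1 * (ν.2 * D.a ν.1)

def coef (ν : ι × ℕ) : ℝ := -D.sg ν.1 * D.W ν.1 * D.a ν.1 * Real.exp (-(ν.2 * D.T ν.1))

def node (ν : ι × ℤ) : ℂ := D.x ν.1 + I * ((ν.2 : ℝ) * sp (D.a ν.1) : ℝ)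

/-- pairs (lattice, harmonic) -/
def pA (S : Finset ι) (L : ℕ) : Finset (ι × ℕ) := S ×ˢ Finset.Icc 1 L

/-- pairs (lattice, pole) -/
def pB (S : Finset ι) (L : ℕ) : Finset (ι × ℤ) :=
  (S ×ˢ Finset.Icc (-(L : ℤ)) L).filter (fun ν => ¬ (D.fl ν.1 = true ∧ ν.2 = 0))

def exps (P : Finset (ι × ℕ)) (g : ι × ℕ → ℂ) (j : ℕ) (z : ℂ) : ℂ :=
  ∑ ν ∈ P, g ν * ec (D.freq ν) j z

def poles (P : Finset (ι × ℤ)) (j : ℕ) (z : ℂ) : ℂ :=
  ∑ ν ∈ P, (D.W ν.1 : ℂ) * pc (D.node ν) j z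

/-- harmonics beyond `L` -/
def tailA (S : Finset ι) (L : ℕ) (j : ℕ) (z : ℂ) : ℂ :=
  ∑ k ∈ S, ∑' n : ℕ, (D.coef (k, n + L + 1) : ℂ) * ec (D.freq (k, n + L + 1)) j z

/-- norm of a frequency atom with coefficients `g` -/
def NA (M : ℕ) (P : Finset (ι × ℕ)) (at' : ι × ℕ → ι × ℕ) (g : ι × ℕ → ℂ) (α : ι × ℕ) : ℝ :=
  Nm (cls P at' α) (rv (fun ν => (D.freq ν : ℂ)) at' (eA1 M)) (fun _ => 0) g

/-- norm of a pole atom -/
def NP (M : ℕ) (P : Finset (ι × ℤ)) (bt : ι × ℤ → ι × ℤ) (α : ι × ℤ) : ℝ :=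
  Nm (cls P bt α) (rv D.node bt (eA1 M)) (fun _ => 0) (fun ν => (D.W ν.1 : ℂ))

/-- norm of a lattice cluster -/
def NC (M : ℕ) (S : Finset ι) (cl : ι → ι) (r : ι) : ℝ :=
  Nm (cls S cl r) (rv (fun k => (D.a k : ℂ)) cl (eC1 M)) (rv (fun k => (D.x k : ℂ)) cl (eC1 M))
    (fun k => (D.W k : ℂ))

def cf (ν : ι × ℕ) : ℂ := (D.coef ν : ℂ)

/-- modified coefficients -/
def cfL (l : List ℝ) (ν : ι × ℕ) : ℂ := Lm l (D.freq ν) * (D.coef ν : ℂ)

def refl : Dat ι := { D with x := fun k => -D.x k }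

end Dat

/-- data seen from the base point `0`, with thresholds and lattice clusters -/
structure Pre (ι : Type*) (m M : ℕ) where
  D : Dat ι
  ρ : ℝ
  TB : ℝ
  TA : ℝ
  cl : ι → ι
  par : Par m M
  card : D.s.card ≤ m
  apos : ∀ k ∈ D.s, 0 < D.a k
  ρpos : 0 < ρ
  flT : ∀ k ∈ D.s, D.fl k = true → D.T k ≤ 1
  far : ∀ k ∈ D.s, ∀ l : ℤ, ¬ (D.fl k = true ∧ l = 0) → 32 * ρ ≤ ‖D.node (k, l)‖
  TB1 : (M : ℝ) ^ 267 ≤ TB
  TB2 : TB ≤ 2 * (M : ℝ) ^ 267
  gapB : ∀ k ∈ D.s, D.T k ≤ TB ∨ TB * (1 + 1 / (2 * M)) ≤ D.T k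
  TA1 : (M : ℝ) ^ 7738 ≤ TA
  TA2 : TA ≤ 2 * (M : ℝ) ^ 7738
  gapA : ∀ k ∈ D.s, D.T k ≤ TA ∨ TA * (1 + 1 / (2 * M)) ≤ D.T k
  clus : CClus (D.s.filter (fun k => TB < D.T k ∧ D.T k ≤ TA)) D.a D.x cl (eC1 M) (eC0 M)

namespace Pre
variable {m M : ℕ} (P : Pre ι m M)

def B : Finset ι := P.D.s.filter (fun k => P.D.T k ≤ P.TB)
def C : Finset ι := P.D.s.filter (fun k => P.TB < P.D.T k ∧ P.D.T k ≤ P.TA)
def A : Finset ι := P.D.s.filter (fun k => P.TA < P.D.T k)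
def PA : Finset (ι × ℕ) := Dat.pA P.A (M ^ 263)
def PB : Finset (ι × ℤ) := P.D.pB P.B (M ^ 269)
def NC (r : ι) : ℝ := P.D.NC M P.C P.cl r

/-- the line `N0 / d^(j+1)` is on top of the clusters of class `C` on a long piece -/
structure Top (ja : ℕ) (d N0 : ℝ) : Prop where
  lo : M ^ 8000 ≤ ja
  hi : ja + 64 * M ^ 7998 ≤ 2 * M ^ 8000
  dge : 32 * P.ρ ≤ d
  N0nn : 0 ≤ N0
  top : ∀ r ∈ P.C, P.cl r = r → ∀ j, ja ≤ j → j ≤ ja + 64 * M ^ 7998 →
    P.NC r / |P.D.x r| ^ (j + 1) ≤ N0 / d ^ (j + 1)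
  att : N0 = 0 ∨ ∃ r ∈ P.C, P.cl r = r ∧ P.D.x r = -d ∧ P.NC r = N0

end Pre

/-- `Pre` together with atoms -/
structure Setup (ι : Type*) (m M : ℕ) extends Pre ι m M where
  Tc : ℝ
  at' : ι × ℕ → ι × ℕ
  bt : ι × ℤ → ι × ℤ
  Tc1 : (M : ℝ) ^ 8540 ≤ Tc
  Tc2 : Tc ≤ 2 * (M : ℝ) ^ 8540
  gapc : ∀ ν ∈ toPre.PA, |D.freq ν| * ρ ≤ Tc ∨ Tc * (1 + ((M : ℝ) ^ 265)⁻¹) ≤ |D.freq ν| * ρ
  hat : RClus toPre.PA (fun ν => (D.freq ν : ℂ)) at' (eA1 M) (eA0 M)
  hbt : RClus toPre.PB D.node bt (eA1 M) (eA0 M)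

namespace Setup
variable {m M : ℕ} (S : Setup ι m M)

def Lo : Finset (ι × ℕ) := S.PA.filter (fun ν => |S.D.freq ν| * S.ρ ≤ S.Tc)
def Hi : Finset (ι × ℕ) := S.PA.filter (fun ν => ¬ |S.D.freq ν| * S.ρ ≤ S.Tc)
def NA (g : ι × ℕ → ℂ) (α : ι × ℕ) : ℝ := S.D.NA M S.PA S.at' g α
def NP (α : ι × ℤ) : ℝ := S.D.NP M S.PB S.bt α

def bc (j : ℕ) (z : ℂ) : ℂ := S.D.lat S.B j z + S.D.lat S.C j z
def lo (j : ℕ) (z : ℂ) : ℂ := S.bc j z + S.D.exps S.Lo S.D.cf j z

def EC (j : ℕ) (E : ℝ) : Prop := ∀ r ∈ S.C, S.cl r = r → S.NC r / |S.D.x r| ^ (j + 1) ≤ E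
def EB (j : ℕ) (E : ℝ) : Prop := ∀ α ∈ S.PB, S.bt α = α → S.NP α / ‖S.D.node α‖ ^ (j + 1) ≤ E
def EA (g : ι × ℕ → ℂ) (j : ℕ) (E : ℝ) : Prop :=
  ∀ α ∈ S.Lo, S.at' α = α → S.NA g α * |S.D.freq α| ^ j / (j.factorial : ℝ) ≤ E
def Env (j : ℕ) (E : ℝ) : Prop := 0 ≤ E ∧ S.EC j E ∧ S.EB j E ∧ S.EA S.D.cf j E

/-- admissible lists of killed frequencies -/
def Adm (l : List ℝ) : Prop :=
  l.length ≤ M ^ 265 ∧ ∀ μ ∈ l, S.Tc * (1 + ((M : ℝ) ^ 265)⁻¹) ≤ |μ| * S.ρ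

/-- the conclusion of the case tree -/
def Good (l : List ℝ) : Prop :=
  ∃ j, M ^ 8000 ≤ j ∧ j ≤ 2 * M ^ 8000 ∧ ∃ E, S.Env j E ∧
    Real.exp (-(M : ℝ) ^ 8000) * E ≤ ‖Lop l S.lo j 0‖

end Setup

/-- the conclusion of the core theorem -/
def CoreOut (M : ℕ) (D : Dat ι) (ρ : ℝ) : Prop :=
  ∃ j, M ^ 8000 ≤ j ∧ j ≤ 2 * M ^ 8000 ∧ ∃ (l : List ℝ) (ν : ℝ), l.length ≤ M ^ 265 ∧
    (∀ μ ∈ l, μ ≠ 0) ∧
    (∀ z : ℂ, ‖z‖ ≤ 2 * ρ → ‖exp (-((ν : ℂ) * z)) * Lop l (D.lat D.s) j z‖ ≤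
      Real.exp ((M : ℝ) ^ 16000) * ‖Lop l (D.lat D.s) j 0‖) ∧
    ((∀ k ∈ D.s, D.a k * ρ ≤ 1) → l = [] ∧ ν = 0)

end Pool.Agent.Work.MP_97f157_lc.Tau
end
end

-- merged part: Pool.Agent.Work.MP_97f157_lc.TauDefsC
section
/-! Definitions for the middle class of lattices. -/

noncomputable section
open Complex Finset

namespace Pool.Agent.Work.MP_97f157_lc.Tau

variable {ι : Type*}

/-- natural window `α^j e^{-j(α-1)}` -/
def gw (j : ℕ) (α : ℝ) : ℝ := α ^ j * Real.exp (-(j * (α - 1)))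

/-- binomial weight -/
def bw (r i : ℕ) : ℝ := ((2 * r).choose i : ℝ) / 4 ^ r

/-- probe point -/
def zp (d Dd τ : ℝ) : ℂ := ((-d + Dd : ℝ) : ℂ) + I * (τ : ℂ)

/-- region of probes; `c = 1` inner region, `c = 2` outer region -/
structure Reg (M : ℕ) (c : ℝ) (jc : ℕ) (d : ℝ) (j : ℕ) (Dd τ : ℝ) : Prop where
  hj : |(j : ℝ) - jc| ≤ c * (M : ℝ) ^ 7994
  hD1 : d * (1 - ((M : ℝ) ^ 5)⁻¹) ≤ Dd
  hD2 : Dd ≤ d * (1 - ((M : ℝ) ^ 5)⁻¹ / 2)
  hτ1 : d * ((M : ℝ) ^ 5)⁻¹ / (2 * c) ≤ τ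
  hτ2 : τ ≤ (c + 1) * d * ((M : ℝ) ^ 5)⁻¹

/-- a band of lattices whose walls are close to `-d` -/
structure CDat (ι : Type*) (m M : ℕ) where
  D : Dat ι
  cl : ι → ι
  d : ℝ
  N0 : ℝ
  jc : ℕ
  g0 : ι
  par : Par m M
  card : D.s.card ≤ m
  nfl : ∀ k ∈ D.s, D.fl k = false
  dpos : 0 < d
  N0pos : 0 < N0
  clus : CClus D.s D.a D.x cl (eC1 M) (eC0 M)
  jlo : M ^ 8000 ≤ jc
  jhi : jc ≤ 2 * M ^ 8000
  band : ∀ k ∈ D.s, |D.x k + d| ≤ 2 * ((M : ℝ) ^ 7989)⁻¹ * d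
  alo : ∀ k ∈ D.s, (M : ℝ) ^ 267 / 2 ≤ D.a k * d
  ahi : ∀ k ∈ D.s, D.a k * d ≤ 4 * (M : ℝ) ^ 7738
  g0mem : g0 ∈ D.s
  g0rep : cl g0 = g0
  g0x : D.x g0 = -d
  g0N : D.NC M D.s cl g0 = N0
  lev : ∀ r ∈ D.s, cl r = r → ∀ ω : ℝ, |ω * d - jc| ≤ (M : ℝ) ^ 7998 →
    D.NC M D.s cl r * Real.exp (ω * (D.x r + d)) ≤ 2 * N0

namespace CDat
variable {m M : ℕ} (C : CDat ι m M)

/-- harmonic amplitude -/
def gA (S : Finset ι) (h : ℝ) (j : ℕ) (ω : ℂ) (y : ℝ) : ℂ :=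
  ∑ k ∈ S, (C.D.W k : ℂ) * (C.D.a k : ℂ) * (gw j (C.D.a k / h) : ℂ) *
    exp (ω * ((C.D.a k / h * (C.D.x k + C.d) : ℝ) : ℂ)) * exp (-(I * ((y * (C.D.a k / h) : ℝ) : ℂ)))

/-- fine harmonic amplitude (binomial average in `y`) -/
def hA (S : Finset ι) (h : ℝ) (j : ℕ) (ω : ℂ) (y α' : ℝ) : ℂ :=
  ∑ i ∈ range (2 * M ^ 3452 + 1), (bw (M ^ 3452) i : ℂ) *
    exp (I * ((((i : ℝ) - (M : ℝ) ^ 3452) * (M : ℝ) ^ 3994 * α' : ℝ) : ℂ)) *
      C.gA S h j ω (y + ((i : ℝ) - (M : ℝ) ^ 3452) * (M : ℝ) ^ 3994)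

/-- pole amplitude -/
def pB (S : Finset ι) (η : ℝ) (j : ℕ) (κ : ℝ) (lam : ℂ) : ℂ :=
  ∑ k ∈ S, (C.D.W k : ℂ) *
    (1 - ((C.D.x k + C.d : ℝ) : ℂ) * lam + I * ((κ * (1 - sp (C.D.a k) / η) : ℝ) : ℂ))⁻¹ ^ (j + 1)

def ω0 : ℝ := C.jc / (C.d * (1 - 3 / 4 * ((M : ℝ) ^ 5)⁻¹))
def y0 : ℝ := C.ω0 * (C.d * ((M : ℝ) ^ 5)⁻¹)

/-- a set of lattices that is a union of clusters -/
def Sat (S : Finset ι) : Prop := S ⊆ C.D.s ∧ ∀ k ∈ C.D.s, k ∈ S ↔ C.cl k ∈ S

/-- admissible arguments of the harmonic amplitude -/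
structure Arg (j : ℕ) (ω : ℂ) (y : ℝ) : Prop where
  hj : |(j : ℝ) - C.jc| ≤ (M : ℝ) ^ 7998
  hω : |ω.re * C.d - C.jc| ≤ (M : ℝ) ^ 7998
  hω' : ‖ω‖ * C.d ≤ 3 * (M : ℝ) ^ 8000
  hy : |y| ≤ (M : ℝ) ^ 8000

/-- the selected coarse groups, level `S` and near-maximiser -/
structure Sel where
  gr : ι → ι
  S : ℝ
  j : ℕ
  ω : ℝ
  y : ℝ
  G : ι
  h : ℝ
  hgr : RClus C.D.s (fun k => (C.D.a k : ℂ)) gr (4 * ((M : ℝ) ^ 13)⁻¹) ((M : ℝ) ^ 14)⁻¹
  hj : |(j : ℝ) - C.jc| ≤ 3 * (M : ℝ) ^ 7993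
  hω : |ω - C.ω0| ≤ 3 * ((M : ℝ) ^ 7)⁻¹ * C.ω0
  hy : |y - C.y0| ≤ 3 * ((M : ℝ) ^ 7)⁻¹ * C.y0
  Gmem : G ∈ C.D.s
  Grep : gr G = G
  hpos : 0 < h
  Slo : Real.exp (-(M : ℝ) ^ 4) * C.N0 / √C.d ≤ S
  up : ∀ G' ∈ C.D.s, gr G' = G' → ∀ h' : ℝ, 0 < h' → ∀ (j' : ℕ) (ω' y' : ℝ),
    |(j' : ℝ) - j| ≤ (M : ℝ) ^ 7988 → |ω' - ω| ≤ ((M : ℝ) ^ 12)⁻¹ * C.ω0 →
    |y' - y| ≤ ((M : ℝ) ^ 12)⁻¹ * C.y0 → ‖C.gA (cls C.D.s gr G') h' j' ω' y'‖ ≤ S * √h'
  big : S * √h / 4 ≤ ‖C.gA (cls C.D.s gr G) h j ω y‖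

/-- sets to be dodged -/
structure Dodge (HH AA LL : Finset ℝ) : Prop where
  cH : HH.card ≤ m
  cA : AA.card ≤ m
  cL : LL.card ≤ M ^ 264
  hH : ∀ b ∈ HH, C.d / (M : ℝ) ^ 268 ≤ b ∧ ∀ k ∈ C.D.s, (1 + ((M : ℝ) ^ 2)⁻¹) * sp (C.D.a k) ≤ b
  hA : ∀ a' ∈ AA, ∀ k ∈ C.D.s, (1 + ((M : ℝ) ^ 2)⁻¹) * C.D.a k ≤ a'

/-- outcome of the pole tool -/
def OutP (HH LL : Finset ℝ) : Prop :=
  ∃ (j : ℕ) (Dd τ : ℝ), Reg M 1 C.jc C.d j Dd τ ∧
    (∀ b ∈ HH, ∀ l : ℤ, (M : ℝ) ^ 5 * C.d / (M : ℝ) ^ 4000 ≤ |τ - l * b|) ∧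
    (∀ lam ∈ LL, (M : ℝ) ^ 4005 ≤ |(j : ℝ) - lam * Dd|) ∧
    Real.exp (-(M : ℝ) ^ 5) * C.N0 ≤ ‖C.D.lat C.D.s j (zp C.d Dd τ)‖ * Dd ^ (j + 1)

end CDat

/-- binomial average of a chain along a vertical segment -/
def avg (M : ℕ) (F : ℕ → ℂ → ℂ) (d : ℝ) (j : ℕ) (ω y α' : ℝ) : ℂ :=
  ∑ i ∈ range (2 * M ^ 3452 + 1), (bw (M ^ 3452) i : ℂ) *
    exp (I * ((((i : ℝ) - (M : ℝ) ^ 3452) * (M : ℝ) ^ 3994 * α' : ℝ) : ℂ)) *
      F j (zp d (j / ω) ((y + ((i : ℝ) - (M : ℝ) ^ 3452) * (M : ℝ) ^ 3994) / ω))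

namespace CDat
variable {m M : ℕ} (C : CDat ι m M)

/-- outcome of the harmonic tool -/
def OutH (HH AA : Finset ℝ) : Prop :=
  ∃ (j : ℕ) (ω y α' : ℝ), 0 < ω ∧
    (∀ t : ℝ, |t| ≤ (M : ℝ) ^ 7446 → Reg M 1 C.jc C.d j (j / ω) ((y + t) / ω)) ∧
    (∀ b ∈ HH, ∀ l : ℤ, 2 * (M : ℝ) ^ 5725 / ω ≤ |y / ω - l * b|) ∧
    (∀ a' ∈ AA, ∀ n : ℕ, 1 ≤ n → ω / (2 * (M : ℝ) ^ 5715) ≤ |n * a' - ω * α'|) ∧
    |α' - 1| ≤ Real.pi / (M : ℝ) ^ 3994 ∧
    Real.exp (-(M : ℝ) ^ 5) * C.N0 ≤ ‖avg M (C.D.lat C.D.s) C.d j ω y α'‖ * (j / ω) ^ (j + 1)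

end CDat

namespace Setup
variable {m M : ℕ} (S : Setup ι m M)

def C1 (d : ℝ) : Finset ι := S.C.filter (fun k => (1 - ((M : ℝ) ^ 2)⁻¹) * d ≤ |S.D.x (S.cl k)|)
def Wb (d : ℝ) : Finset ι := S.C.filter (fun k => |S.D.x (S.cl k) + d| ≤ ((M : ℝ) ^ 7989)⁻¹ * d)
def PB1 (d : ℝ) : Finset (ι × ℤ) :=
  S.PB.filter (fun ν => (1 - ((M : ℝ) ^ 2)⁻¹) * d ≤ ‖S.D.node (S.bt ν)‖)
def PA1 (d : ℝ) : Finset (ι × ℕ) :=
  S.PA.filter (fun ν => |S.D.freq (S.at' ν)| * d ≤ 8 * (M : ℝ) ^ 8000)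

/-- the part of `lo` that can be translated -/
def F1 (d : ℝ) (j : ℕ) (z : ℂ) : ℂ :=
  S.D.lat (S.C1 d) j z + S.D.poles (S.PB1 d) j z + S.D.exps (S.PA1 d) S.D.cf j z

/-- the hypotheses of the middle case -/
structure CHyp (ja : ℕ) (d N0 : ℝ) : Prop where
  top : S.Top ja d N0
  pos : 0 < N0
  hB : ∀ j, ja + 24 * M ^ 7998 ≤ j → j ≤ ja + 40 * M ^ 7998 →
    S.EB j (Real.exp ((M : ℝ) ^ 5) * N0 / d ^ (j + 1))
  hA : ∀ j, ja + 24 * M ^ 7998 ≤ j → j ≤ ja + 40 * M ^ 7998 →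
    S.EA S.D.cf j (Real.exp (2 * (M : ℝ) ^ 6) * N0 / d ^ (j + 1))

/-- `F1` is large at a probe point -/
def Hit (ja : ℕ) (d N0 : ℝ) : Prop :=
  ∃ (j : ℕ) (z : ℂ), ja + 30 * M ^ 7998 ≤ j ∧ j ≤ ja + 34 * M ^ 7998 ∧
    ‖z‖ ≤ 4 * ((M : ℝ) ^ 5)⁻¹ * d ∧ Real.exp (-(M : ℝ) ^ 6) * N0 / d ^ (j + 1) ≤ ‖S.F1 d j z‖

/-- no pole atom is large at a probe point of the outer region -/
def NoZ (ja : ℕ) (d N0 : ℝ) : Prop :=
  ∀ (j : ℕ) (Dd τ : ℝ), Reg M 2 (ja + 32 * M ^ 7998) d j Dd τ → ∀ α ∈ S.PB1 d, S.bt α = α →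
    S.NP α / ‖zp d Dd τ - S.D.node α‖ ^ (j + 1) ≤ Real.exp ((M : ℝ) ^ 7) * N0 / Dd ^ (j + 1)

end Setup

end Pool.Agent.Work.MP_97f157_lc.Tau
end
end

-- merged part: Pool.Agent.Work.MP_97f157_lc.TauNum
section
/-! Numerical facts about the large parameter `M`. -/

noncomputable section
open Finset

namespace Pool.Agent.Work.MP_97f157_lc.Tau

variable {m M : ℕ}

theorem Par.bigR (h : Par m M) : (10 : ℝ) ^ 12 ≤ M := by exact_mod_cast h.big

theorem Par.one_le (h : Par m M) : (1 : ℝ) ≤ M := le_trans (by norm_num) h.bigR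

theorem Par.pos (h : Par m M) : (0 : ℝ) < M := lt_of_lt_of_le one_pos h.one_le

theorem Par.one_leN (h : Par m M) : 1 ≤ M := by exact_mod_cast h.one_le

theorem Par.mle (h : Par m M) : 2 * (m : ℝ) ≤ M := by exact_mod_cast h.two

theorem Par.pow_mono (h : Par m M) {i k : ℕ} (hik : i ≤ k) : (M : ℝ) ^ i ≤ (M : ℝ) ^ k :=
  pow_le_pow_right₀ h.one_le hik

theorem Par.pow_monoN (h : Par m M) {i k : ℕ} (hik : i ≤ k) : M ^ i ≤ M ^ k :=
  Nat.pow_le_pow_right h.one_leN hik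

theorem Par.pow_pos (h : Par m M) (i : ℕ) : (0 : ℝ) < (M : ℝ) ^ i := _root_.pow_pos h.pos i

/-- a constant up to `10^12` costs one power of `M` -/
theorem Par.mul_pow_le (h : Par m M) {c : ℝ} (hc : c ≤ 10 ^ 12) {i k : ℕ} (hik : i < k) :
    c * (M : ℝ) ^ i ≤ (M : ℝ) ^ k := by
  calc c * (M : ℝ) ^ i ≤ M * (M : ℝ) ^ i :=
        mul_le_mul_of_nonneg_right (hc.trans h.bigR) (h.pow_pos i).le
    _ = (M : ℝ) ^ (i + 1) := by ring
    _ ≤ (M : ℝ) ^ k := h.pow_mono hik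

theorem Par.mul_pow_leN (h : Par m M) {c : ℕ} (hc : c ≤ 10 ^ 12) {i k : ℕ} (hik : i < k) :
    c * M ^ i ≤ M ^ k := by
  have := h.mul_pow_le (c := (c : ℝ)) (by exact_mod_cast hc) hik
  exact_mod_cast this

theorem Par.inv_pow_le (h : Par m M) {c : ℝ} (hc : c ≤ 10 ^ 12) {i k : ℕ} (hik : i < k) :
    c * ((M : ℝ) ^ k)⁻¹ ≤ ((M : ℝ) ^ i)⁻¹ := by
  have h1 := h.mul_pow_le hc hik
  have hi := h.pow_pos i
  have hk := h.pow_pos k
  rw [← div_eq_mul_inv, div_le_iff₀ hk, inv_mul_eq_div, le_div_iff₀ hi]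
  exact h1

theorem Par.log_le (h : Par m M) : 100000 * Real.log M ≤ M := by
  have hp := h.pos
  have hs : Real.log (√(M : ℝ)) ≤ √(M : ℝ) - 1 :=
    Real.log_le_sub_one_of_pos (Real.sqrt_pos.2 hp)
  rw [Real.log_sqrt hp.le] at hs
  have h6 : (10 : ℝ) ^ 6 ≤ √(M : ℝ) := by
    apply Real.le_sqrt_of_sq_le
    have := h.bigR
    norm_num at this ⊢
    exact this
  have hsq : √(M : ℝ) * √(M : ℝ) = M := Real.mul_self_sqrt hp.le
  linarith only [hs, h6, hsq, mul_nonneg_of_nonpos_of_nonpos (Mathlib.Tactic.Linarith.sub_nonpos_of_le h6) (Mathlib.Tactic.Linarith.sub_nonpos_of_le h6)]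

/-- all fixed powers of `M` used in the proof are below `exp M` -/
theorem Par.pow_le_exp (h : Par m M) {k : ℕ} (hk : k ≤ 100000) : (M : ℝ) ^ k ≤ Real.exp M := by
  have hp := h.pos
  have hl : 0 ≤ Real.log M := Real.log_nonneg h.one_le
  have : (M : ℝ) ^ k = Real.exp (k * Real.log M) := by
    rw [Real.exp_nat_mul, Real.exp_log hp]
  rw [this]
  apply Real.exp_le_exp.2
  have hk' : (k : ℝ) ≤ 100000 := by exact_mod_cast hk
  have := h.log_le
  linarith only [this, hk', mul_nonneg_of_nonpos_of_nonpos (Mathlib.Tactic.Linarith.sub_nonpos_of_le (Mathlib.Tactic.Linarith.natCast_nonneg ℝ k)) (Mathlib.Tactic.Linarith.sub_nonpos_of_le this), mul_nonneg_of_nonpos_of_nonpos (Mathlib.Tactic.Linarith.sub_nonpos_of_le (Mathlib.Tactic.Linarith.natCast_nonneg ℝ M)) (Mathlib.Tactic.Linarith.sub_nonpos_of_le hk')]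

theorem Par.mono (h : Par m M) {m' : ℕ} (hm : m' ≤ m) : Par m' M :=
  ⟨h.big, by have := h.two; omega, fun P hP hc x => h.jac P hP (by omega) x⟩

end Pool.Agent.Work.MP_97f157_lc.Tau
end
end

-- merged part: Pool.Agent.Work.MP_97f157_lc.TauAna
section
/-! Complex-analytic tools: Bernstein-type bound, zero counting, Rolle. -/

noncomputable section
open Complex Finset Metric

namespace Pool.Agent.Work.MP_97f157_lc.Tau

theorem ana_cosh {w : ℂ} (h0 : 0 ≤ w.re) (h1 : w.re ≤ 1) : ‖Complex.cosh w‖ ≤ 2 := by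
  have e : Complex.cosh w = (Complex.exp w + Complex.exp (-w)) / 2 := rfl
  have a1 : Real.exp w.re ≤ 3 :=
    (Real.exp_le_exp.2 h1).trans (Real.exp_one_lt_d9.le.trans (by norm_num))
  have a2 : Real.exp (-w.re) ≤ 1 := Real.exp_le_one_iff.2 (by linarith only [h0])
  have a3 := norm_add_le (Complex.exp w) (Complex.exp (-w))
  rw [Complex.norm_exp, Complex.norm_exp, Complex.neg_re] at a3
  rw [e, norm_div, Complex.norm_ofNat]
  linarith only [a1, a2, a3]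

theorem ana_strip (f : ℂ → ℂ) (c r B X : ℝ) (hr : 0 < r) (hB : 0 ≤ B)
    (hf : DifferentiableOn ℂ f (ball (c : ℂ) (3 * r)))
    (h1 : ∀ x : ℝ, |x - c| ≤ r → ‖f x‖ ≤ B)
    (h2 : ∀ z ∈ closedBall (c : ℂ) (2 * r), ‖f z‖ ≤ Real.exp X * B) (w : ℂ) (hw : |w.re| ≤ 1) :
    DifferentiableAt ℂ (fun w => f (c + r * Complex.cosh w)) w ∧
      ‖f (c + r * Complex.cosh w)‖ ≤ Real.exp (X * |w.re|) * B := by
  have hm : ∀ w : ℂ, |w.re| ≤ 1 → c + r * Complex.cosh w ∈ closedBall (c : ℂ) (2 * r) := by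
    intro w hw
    have : ‖Complex.cosh w‖ ≤ 2 := by
      rcases le_total 0 w.re with h | h
      · exact ana_cosh h (abs_le.1 hw).2
      · rw [← Complex.cosh_neg]
        exact ana_cosh (by simpa using h) (by simp; linarith only [hw, (abs_le.1 hw).1])
    rw [mem_closedBall, dist_eq_norm, add_sub_cancel_left, norm_mul, Complex.norm_real,
      Real.norm_of_nonneg hr.le]
    linarith only [hr, this, mul_nonneg_of_nonpos_of_nonpos (le_of_lt (Mathlib.Tactic.Linarith.sub_neg_of_lt hr)) (Mathlib.Tactic.Linarith.sub_nonpos_of_le this)]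
  have hd : ∀ w : ℂ, |w.re| ≤ 1 →
      DifferentiableAt ℂ (fun w => f (c + r * Complex.cosh w)) w := fun w hw =>
    (hf.differentiableAt (isOpen_ball.mem_nhds (closedBall_subset_ball (by linarith)
      (hm w hw)))).comp w (by fun_prop)
  have ha : ∀ w : ℂ, w ∈ HadamardThreeLines.verticalClosedStrip 0 1 → |w.re| ≤ 1 := fun w h =>
    abs_le.2 ⟨by linarith only [h, h.1], h.2⟩
  have key : ∀ w : ℂ, 0 ≤ w.re → w.re ≤ 1 →
      ‖f (c + r * Complex.cosh w)‖ ≤ Real.exp (X * w.re) * B := by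
    intro w a b
    have := HadamardThreeLines.norm_le_interp_of_mem_verticalClosedStrip₀₁'
      (fun w => f (c + r * Complex.cosh w)) (z := w) (a := B) (b := Real.exp X * B) ⟨a, b⟩
      (DifferentiableOn.diffContOnCl fun z hz => (hd z (ha z (by
        rwa [HadamardThreeLines.verticalStrip, Complex.closure_preimage_re,
          closure_Ioo zero_ne_one] at hz))).differentiableWithinAt)
      ⟨Real.exp X * B, by
        rintro _ ⟨z, hz, rfl⟩
        exact h2 _ (hm z (ha z hz))⟩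
      (fun z hz => by
        have hz' : z.re = 0 := hz
        have e : z = (z.im : ℂ) * I := by
          apply Complex.ext <;> simp [hz']
        have e' : (c : ℂ) + r * Complex.cosh z = ((c + r * Real.cos z.im : ℝ) : ℂ) := by
          rw [e, Complex.cosh_mul_I]
          simp
        show ‖f (c + r * Complex.cosh z)‖ ≤ B
        rw [e']
        refine h1 _ ?_
        rw [add_sub_cancel_left, abs_mul, abs_of_pos hr]
        exact mul_le_of_le_one_right hr.le (Real.abs_cos_le_one _))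
      (fun z hz => h2 _ (hm z (by rw [show z.re = 1 from hz]; simp)))
    refine this.trans (le_of_eq ?_)
    rw [Real.mul_rpow (Real.exp_pos _).le hB, ← Real.exp_mul, mul_left_comm,
      ← Real.rpow_add' hB (by simp)]
    simp
  refine ⟨hd w hw, ?_⟩
  rcases le_total 0 w.re with h | h
  · rw [abs_of_nonneg h]
    exact key w h (abs_le.1 hw).2
  · have := key (-w) (by simpa using h) (by simp; linarith only [hw, (abs_le.1 hw).1])
    rwa [Complex.cosh_neg, Complex.neg_re, ← abs_of_nonpos h] at this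

/-- Three lines for `θ ↦ f (c + r cos θ)` on `0 ≤ ± Im θ ≤ 1` (`‖cos θ‖ ≤ cosh 1 < 2`) gives
`‖f (c + r cos θ)‖ ≤ B exp (X |Im θ|)`; then the Schwarz lemma on the disc of radius `1/X`
around `θ = π/2`, with `θ = arccos ((x-c)/r)`, `|θ - π/2| ≤ (π/2) |x - c| / r`. -/
theorem bern (f : ℂ → ℂ) (c r B X : ℝ) (hr : 0 < r) (hX : 1 ≤ X) (hB : 0 ≤ B)
    (hf : DifferentiableOn ℂ f (ball (c : ℂ) (3 * r)))
    (h1 : ∀ x : ℝ, |x - c| ≤ r → ‖f x‖ ≤ B)
    (h2 : ∀ z ∈ closedBall (c : ℂ) (2 * r), ‖f z‖ ≤ Real.exp X * B)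
    (x : ℝ) (hx : |x - c| ≤ r / (4 * X)) : ‖f x - f c‖ ≤ 20 * X * (|x - c| / r) * B := by
  have hX0 : 0 < X := by linarith only [hX]
  set u := (x - c) / r with hu
  have u1 : |u| = |x - c| / r := by rw [hu, abs_div, abs_of_pos hr]
  have u2 : |u| ≤ 1 / (4 * X) := by
    rw [u1, div_le_iff₀ hr]
    exact hx.trans (le_of_eq (by ring))
  have u3 : 1 / (4 * X) ≤ 1 / 4 := one_div_le_one_div_of_le (by norm_num) (by linarith only [hX])
  have u4 : -1 ≤ u ∧ u ≤ 1 := abs_le.1 (by linarith only [u2, u3])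
  have a1 : |Real.arcsin u| ≤ 2 * |u| := by
    have := Real.mul_abs_le_abs_sin (x := Real.arcsin u)
      (abs_le.2 ⟨Real.neg_pi_div_two_le_arcsin u, Real.arcsin_le_pi_div_two u⟩)
    rw [Real.sin_arcsin u4.1 u4.2, div_mul_eq_mul_div, div_le_iff₀ Real.pi_pos] at this
    linarith only [this, Real.pi_le_four, abs_nonneg u, mul_nonneg_of_nonpos_of_nonpos (Mathlib.Tactic.Linarith.sub_nonpos_of_le Real.pi_le_four) (Mathlib.Tactic.Linarith.sub_nonpos_of_le (abs_nonneg u))]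
  let w0 : ℂ := ((Real.pi / 2 : ℝ) : ℂ) * I
  let w : ℂ := (Real.arccos u : ℂ) * I
  have e0 : (c : ℂ) + r * Complex.cosh w0 = c := by
    simp only [w0]
    rw [Complex.cosh_mul_I, ← Complex.ofReal_cos, Real.cos_pi_div_two]
    simp
  have e1 : (c : ℂ) + r * Complex.cosh w = x := by
    simp only [w]
    rw [Complex.cosh_mul_I, ← Complex.ofReal_cos, Real.cos_arccos u4.1 u4.2]
    have : c + r * u = x := by rw [hu]; field_simp; ring
    exact_mod_cast this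
  have d1 : dist w w0 = |Real.arcsin u| := by
    rw [dist_eq_norm, ← sub_mul, norm_mul, Complex.norm_I, mul_one, ← Complex.ofReal_sub,
      Complex.norm_real, Real.arccos, Real.norm_eq_abs, sub_sub_cancel_left, abs_neg]
  have b1 : ∀ z ∈ ball w0 (1 / X), |z.re| ≤ 1 / X := fun z hz => by
    have := (Complex.abs_re_le_norm (z - w0)).trans (mem_ball_iff_norm.1 hz).le
    simpa [w0] using this
  have b2 : 1 / X ≤ 1 := (div_le_one hX0).2 hX
  have hs := Complex.dist_le_div_mul_dist_of_mapsTo_ball (c := w0) (R₁ := 1 / X) (R₂ := 4 * B)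
    (z := w) (f := fun w => f (c + r * Complex.cosh w))
    (fun z hz => (ana_strip f c r B X hr hB hf h1 h2 z
      ((b1 z hz).trans b2)).1.differentiableWithinAt)
    (fun z hz => by
      have c1 := (ana_strip f c r B X hr hB hf h1 h2 z ((b1 z hz).trans b2)).2
      have c2 : Real.exp (X * |z.re|) ≤ 3 := by
        refine (Real.exp_le_exp.2 ?_).trans (Real.exp_one_lt_d9.le.trans (by norm_num))
        have := b1 z hz
        rwa [le_div_iff₀ hX0, mul_comm] at this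
      have c3 := h1 c (by simp [hr.le])
      rw [mem_closedBall, dist_eq_norm]
      simp only [e0]
      refine (norm_sub_le _ _).trans ?_
      linarith only [c1, c3, hB, c2, mul_nonneg_of_nonpos_of_nonpos (Mathlib.Tactic.Linarith.sub_nonpos_of_le hB) (Mathlib.Tactic.Linarith.sub_nonpos_of_le c2)])
    (by
      rw [mem_ball, d1]
      have : 1 / (4 * X) = 1 / X / 4 := by field_simp
      have : 0 < 1 / X := by positivity
      linarith)
  simp only [e0, e1] at hs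
  rw [d1, dist_eq_norm, div_div_eq_mul_div, div_one] at hs
  rw [← u1]
  have := mul_le_mul_of_nonneg_left a1 (by positivity : 0 ≤ 4 * B * X)
  have : 0 ≤ X * |u| * B := by positivity
  nlinarith

theorem ana_zeros (ρ : ℝ) (hρ : 0 < ρ) (Z : Finset ℝ) : ∀ (f : ℂ → ℂ) (K : ℝ),
    DifferentiableOn ℂ f (ball 0 (3 * ρ)) → (∀ z : ℂ, ‖z‖ = 2 * ρ → ‖f z‖ ≤ K) →
    (∀ t ∈ Z, |t| ≤ ρ / 2 ∧ f t = 0) → 3 ^ Z.card * ‖f 0‖ ≤ K := by
  induction Z using Finset.induction_on with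
  | empty =>
    intro f K hf hK _
    rw [card_empty, pow_zero, one_mul]
    refine Complex.norm_le_of_forall_mem_frontier_norm_le (U := ball 0 (2 * ρ)) isBounded_ball
      (DifferentiableOn.diffContOnCl (hf.mono ?_)) (fun z hz => hK z ?_)
      (subset_closure (mem_ball_self (by linarith)))
    · exact closure_ball_subset_closedBall.trans (closedBall_subset_ball (by linarith))
    · simpa using frontier_ball_subset_sphere hz
  | insert a Z ha ih =>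
    intro f K hf hK hZ
    obtain ⟨a1, a2⟩ := hZ a (mem_insert_self _ _)
    have e : ∀ z : ℂ, f z = (z - a) * dslope f a z := fun z => by
      have := sub_smul_dslope f (a : ℂ) z
      rw [a2, sub_zero, smul_eq_mul] at this
      exact this.symm
    have hn : ‖(a : ℂ)‖ ≤ ρ / 2 := by rwa [Complex.norm_real]
    have := ih (dslope f a) (K / (3 * ρ / 2))
      ((Complex.differentiableOn_dslope (isOpen_ball.mem_nhds (by
        rw [mem_ball_zero_iff]; linarith only [hρ, hn]))).2 hf)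
      (fun z hz => by
        have h1 := hK z hz
        rw [e z, norm_mul] at h1
        have h2 := norm_sub_norm_le z a
        rw [le_div_iff₀ (by linarith only [hρ])]
        linarith only [h1, hn, hz, h2, norm_nonneg (dslope f a z), mul_nonneg_of_nonpos_of_nonpos (Mathlib.Tactic.Linarith.sub_nonpos_of_le hn) (Mathlib.Tactic.Linarith.sub_nonpos_of_le (norm_nonneg (dslope f (↑a) z))), Mathlib.Tactic.Linarith.zero_mul_eq (sub_eq_zero_of_eq hz) (Mathlib.Tactic.Linarith.sub_nonpos_of_le (norm_nonneg (dslope f (↑a) z))), mul_nonneg_of_nonpos_of_nonpos (Mathlib.Tactic.Linarith.sub_nonpos_of_le h2) (Mathlib.Tactic.Linarith.sub_nonpos_of_le (norm_nonneg (dslope f (↑a) z)))])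
      (fun t ht => by
        obtain ⟨b1, b2⟩ := hZ t (mem_insert_of_mem ht)
        refine ⟨b1, ?_⟩
        rw [e t, mul_eq_zero, sub_eq_zero] at b2
        refine b2.resolve_left fun h => ha ?_
        rwa [← Complex.ofReal_injective h])
    rw [le_div_iff₀ (by linarith only [hρ])] at this
    rw [card_insert_of_notMem ha, e 0, norm_mul, zero_sub, norm_neg, pow_succ]
    have h3 : (0 : ℝ) ≤ 3 ^ Z.card * ‖dslope f a 0‖ := by positivity
    linarith only [this, hn, h3, mul_nonneg_of_nonpos_of_nonpos (Mathlib.Tactic.Linarith.sub_nonpos_of_le hn) (Mathlib.Tactic.Linarith.sub_nonpos_of_le h3)]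

/-- Divide out the zeros (or use Jensen's formula): `n` zeros in `‖z‖ ≤ ρ/2` give
`3^n ‖f 0‖ ≤ sup_{‖z‖ = 2ρ} ‖f‖`. -/
theorem zeros_le (f : ℂ → ℂ) (ρ X : ℝ) (hρ : 0 < ρ) (hX : 0 ≤ X)
    (hf : DifferentiableOn ℂ f (ball 0 (3 * ρ)))
    (h : ∀ z : ℂ, ‖z‖ ≤ 2 * ρ → ‖f z‖ ≤ Real.exp X * ‖f 0‖) : ZB f (-(ρ / 2)) (ρ / 2) X := by
  by_cases h0 : f 0 = 0
  · refine Or.inl fun t ht => norm_le_zero_iff.1 ?_
    have := h t (by
      rw [Complex.norm_real, Real.norm_eq_abs, abs_le]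
      constructor <;> linarith only [hρ, ht, ht.1, ht.2])
    simpa [h0] using this
  · refine Or.inr fun Z hZ => ?_
    have h1 := ana_zeros ρ hρ Z f _ hf (fun z hz => h z hz.le) fun t ht =>
      ⟨abs_le.2 ⟨(hZ t ht).1.1.le, (hZ t ht).1.2.le⟩, (hZ t ht).2⟩
    have h2 := le_of_mul_le_mul_right h1 (norm_pos_iff.2 h0)
    have h3 : Real.exp Z.card ≤ 3 ^ Z.card := by
      rw [← mul_one (Z.card : ℝ), Real.exp_nat_mul]
      exact pow_le_pow_left₀ (Real.exp_pos _).le (Real.exp_one_lt_d9.le.trans (by norm_num)) _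
    exact Real.exp_le_exp.1 (h3.trans h2)

theorem ana_im (f f' : ℂ → ℂ) (x y : ℝ)
    (hd : ∀ t ∈ Set.Ioo x y, HasDerivAt f (f' t) t) (hre : ∀ t ∈ Set.Ioo x y, (f t).im = 0) :
    ∀ t ∈ Set.Ioo x y, (f' t).im = 0 := by
  intro t ht
  have h1 := ((hd t ht).const_mul I).real_of_complex
  have h2 : HasDerivAt (fun s : ℝ => (I * f s).re) 0 t :=
    (hasDerivAt_const t (0 : ℝ)).congr_of_eventuallyEq
      (Filter.eventually_of_mem (isOpen_Ioo.mem_nhds ht) fun s hs => by simp [hre s hs])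
  simpa using h1.unique h2

/-- Generalised Rolle step: `g = f' - μ f`.  If `g ≡ 0` then `exp (-μ t) f t` is constant. -/
theorem zb_step (f f' : ℂ → ℂ) (μ x y N : ℝ) (hN : 0 ≤ N)
    (hd : ∀ t ∈ Set.Ioo x y, HasDerivAt f (f' t) t) (hre : ∀ t ∈ Set.Ioo x y, (f t).im = 0)
    (h : ZB (fun z => f' z - μ * f z) x y N) : ZB f x y (N + 1) := by
  let φ : ℝ → ℝ := fun t => Real.exp (-μ * t) * (f t).re
  have hφ : ∀ t ∈ Set.Ioo x y,
      HasDerivAt φ (Real.exp (-μ * t) * (f' t - μ * f t).re) t := by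
    intro t ht
    have h1 : HasDerivAt (fun t : ℝ => Real.exp (-μ * t)) (Real.exp (-μ * t) * (-μ * 1)) t :=
      ((hasDerivAt_id t).const_mul (-μ)).exp
    refine (h1.mul (hd t ht).real_of_complex).congr_deriv ?_
    rw [Complex.sub_re, Complex.re_ofReal_mul]
    ring
  have hz : ∀ t ∈ Set.Ioo x y, f t = 0 ↔ φ t = 0 := fun t ht => by
    simp [φ, Complex.ext_iff, hre t ht]
  rcases h with h | h
  · by_cases h0 : ∃ s ∈ Set.Ioo x y, f s = 0
    · obtain ⟨s, hs, h0⟩ := h0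
      refine Or.inl fun t ht => (hz t ht).2 (Eq.trans ?_ ((hz s hs).1 h0))
      refine isOpen_Ioo.is_const_of_deriv_eq_zero isPreconnected_Ioo
        (fun t ht => (hφ t ht).differentiableAt.differentiableWithinAt) (fun t ht => ?_) ht hs
      have : f' t - μ * f t = 0 := h t ht
      rw [(hφ t ht).deriv, this]
      simp
    · refine Or.inr fun Z hZ => ?_
      rw [eq_empty_of_forall_notMem fun t ht => h0 ⟨t, hZ t ht⟩]
      simp
      linarith
  · refine Or.inr fun Z hZ => ?_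
    have key : ∀ a : ℝ × ℝ, ∃ s, a.1 ∈ Z → a.2 ∈ Z → a.1 < a.2 →
        s ∈ Set.Ioo a.1 a.2 ∧ s ∈ Set.Ioo x y ∧ f' s - μ * f s = 0 := by
      rintro ⟨a, b⟩
      by_cases hc : a ∈ Z ∧ b ∈ Z ∧ a < b
      · obtain ⟨ha, hb, hab⟩ := hc
        have hs : Set.Icc a b ⊆ Set.Ioo x y := fun t ht =>
          ⟨(hZ a ha).1.1.trans_le ht.1, ht.2.trans_lt (hZ b hb).1.2⟩
        obtain ⟨s, h1, h2⟩ := exists_hasDerivAt_eq_zero hab
          (fun t ht => (hφ t (hs ht)).continuousAt.continuousWithinAt)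
          (((hz a (hZ a ha).1).1 (hZ a ha).2).trans ((hz b (hZ b hb).1).1 (hZ b hb).2).symm)
          fun t ht => hφ t (hs (Set.Ioo_subset_Icc_self ht))
        have h3 := hs (Set.Ioo_subset_Icc_self h1)
        refine ⟨s, fun _ _ _ => ⟨h1, h3, Complex.ext ?_ ?_⟩⟩
        · exact (mul_eq_zero.1 h2).resolve_left (Real.exp_pos _).ne'
        · simp [hre s h3, ana_im f f' x y hd hre s h3]
      · exact ⟨0, fun a b c => absurd ⟨a, b, c⟩ hc⟩
    choose g hg using key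
    have h1 := h (((Z ×ˢ Z).filter fun a => a.1 < a.2).image g) fun t ht => by
      obtain ⟨a, ha, rfl⟩ := mem_image.1 ht
      obtain ⟨h1, h2⟩ := mem_filter.1 ha
      exact (hg a (mem_product.1 h1).1 (mem_product.1 h1).2 h2).2
    have h2 := Finset.card_le_of_interleaved (s := Z)
      (t := ((Z ×ˢ Z).filter fun a => a.1 < a.2).image g) fun a ha b hb hab _ =>
        ⟨g (a, b), mem_image_of_mem _ (mem_filter.2 ⟨mem_product.2 ⟨ha, hb⟩, hab⟩),
          (hg (a, b) ha hb hab).1⟩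
    have h3 : (Z.card : ℝ) ≤ (((Z ×ˢ Z).filter fun a => a.1 < a.2).image g).card + 1 := by
      exact_mod_cast h2
    linarith only [h1, h3]

theorem im_deriv_eq_zero (f f' : ℂ → ℂ) (x y : ℝ)
    (hd : ∀ t ∈ Set.Ioo x y, HasDerivAt f (f' t) t) (hre : ∀ t ∈ Set.Ioo x y, (f t).im = 0) :
    ∀ t ∈ Set.Ioo x y, (f' t).im = 0 := ana_im f f' x y hd hre

theorem ZB.congr {f g : ℂ → ℂ} {x y N : ℝ} (h : ZB f x y N)
    (hfg : ∀ t ∈ Set.Ioo x y, f t = 0 ↔ g t = 0) : ZB g x y N :=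
  h.imp (fun h t ht => (hfg t ht).1 (h t ht)) fun h Z hZ => h Z fun t ht =>
    ⟨(hZ t ht).1, (hfg t (hZ t ht).1).2 (hZ t ht).2⟩

theorem ZB.mono {f : ℂ → ℂ} {x y N N' : ℝ} (h : ZB f x y N) (hN : N ≤ N') : ZB f x y N' :=
  h.imp_right fun h Z hZ => (h Z hZ).trans hN

end Pool.Agent.Work.MP_97f157_lc.Tau
end
end

-- merged part: Pool.Agent.Work.MP_97f157_lc.TauChain
section
/-! Chains and the operators `LL`. -/

noncomputable section
open Complex Finset Metric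

namespace Pool.Agent.Work.MP_97f157_lc.Tau

variable {F G : ℕ → ℂ → ℂ} {U V : Set ℂ}

theorem Chain.mono (h : Chain F U) (hV : V ⊆ U) : Chain F V := fun j z hz => h j z (hV hz)

theorem Chain.add (h : Chain F U) (h' : Chain G U) : Chain (fun j z => F j z + G j z) U := by
  intro j z hz
  exact ((h j z hz).fun_add (h' j z hz)).congr_deriv (by ring)

theorem Chain.sub (h : Chain F U) (h' : Chain G U) : Chain (fun j z => F j z - G j z) U := by
  intro j z hz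
  exact ((h j z hz).fun_sub (h' j z hz)).congr_deriv (by ring)

theorem Chain.smul (h : Chain F U) (c : ℂ) : Chain (fun j z => c * F j z) U := by
  intro j z hz
  exact ((h j z hz).const_mul c).congr_deriv (by ring)

theorem Chain.finsum {β : Type*} (t : Finset β) (H : β → ℕ → ℂ → ℂ) (h : ∀ i ∈ t, Chain (H i) U) :
    Chain (fun j z => ∑ i ∈ t, H i j z) U := by
  intro j z hz
  exact (HasDerivAt.fun_sum (u := t) (fun i hi => h i hi j z hz)).congr_deriv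
    (by rw [Finset.mul_sum])

theorem Chain.shift (h : Chain F U) (c : ℂ) :
    Chain (fun j z => F j (z - c)) {z | z - c ∈ U} := by
  intro j z hz
  exact (h j (z - c) hz).comp_sub_const z c

theorem chain_pc (p : ℂ) : Chain (pc p) {z | z ≠ p} := by
  intro j z hz
  have hz' : z - p ≠ 0 := sub_ne_zero.2 hz
  have h1 : HasDerivAt (fun z : ℂ => z - p) 1 z := (hasDerivAt_id z).sub_const p
  have h2 := (h1.fun_inv hz').fun_pow (j + 1)
  refine h2.congr_deriv ?_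
  unfold pc
  simp only [Nat.add_sub_cancel]
  push_cast
  rw [pow_succ _ (j + 1), pow_succ _ j, neg_div, one_div, ← inv_pow]
  ring

theorem chain_ec (μ : ℝ) : Chain (ec μ) Set.univ := by
  intro j z _
  have h1 : HasDerivAt (fun z : ℂ => (μ : ℂ) * z) (μ : ℂ) z := by
    simpa using (hasDerivAt_id z).const_mul (μ : ℂ)
  have h2 := (h1.cexp.const_mul ((-(μ : ℂ)) ^ j)).div_const (j.factorial : ℂ)
  refine h2.congr_deriv ?_
  unfold ec
  have hj : (j.factorial : ℂ) ≠ 0 := by exact_mod_cast j.factorial_ne_zero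
  have hj1 : ((j : ℂ) + 1) ≠ 0 := by exact_mod_cast j.succ_ne_zero
  rw [Nat.factorial_succ]
  push_cast
  field_simp
  ring

theorem chain_cc (c : ℂ) : Chain (cc c) Set.univ := by
  intro j z _
  have : HasDerivAt (cc c j) 0 z := hasDerivAt_const z _
  exact this.congr_deriv (by simp [cc])

theorem chain_Lop_cons (μ : ℝ) (l : List ℝ) (F : ℕ → ℂ → ℂ) (j : ℕ) (z : ℂ) :
    Lop (μ :: l) F j z = Lop l F j z + ((j : ℂ) + 1) / (μ : ℂ) * Lop l F (j + 1) z := rfl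

theorem chain_LL_cons (μ : ℝ) (l : List ℝ) (x : ℕ → ℂ) (j : ℕ) :
    LL (μ :: l) x j = LL l x j + ((j : ℂ) + 1) / (μ : ℂ) * LL l x (j + 1) := rfl

theorem chain_LL_nil (x : ℕ → ℂ) (j : ℕ) : LL [] x j = x j := rfl

theorem Chain.lop (h : Chain F U) (l : List ℝ) : Chain (Lop l F) U := by
  induction l with
  | nil => exact h
  | cons μ l ih =>
    intro j z hz
    have := (ih j z hz).fun_add ((ih (j + 1) z hz).const_mul (((j : ℂ) + 1) / (μ : ℂ)))
    refine this.congr_deriv ?_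
    rw [chain_Lop_cons]
    push_cast
    ring

theorem Chain.differentiableOn (h : Chain F U) (j : ℕ) : DifferentiableOn ℂ (F j) U :=
  fun z hz => (h j z hz).differentiableAt.differentiableWithinAt

theorem LL_add (l : List ℝ) (x y : ℕ → ℂ) (j : ℕ) :
    LL l (fun i => x i + y i) j = LL l x j + LL l y j := by
  induction l generalizing j with
  | nil => rfl
  | cons μ l ih => simp only [chain_LL_cons, ih]; ring

theorem LL_sub (l : List ℝ) (x y : ℕ → ℂ) (j : ℕ) :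
    LL l (fun i => x i - y i) j = LL l x j - LL l y j := by
  induction l generalizing j with
  | nil => rfl
  | cons μ l ih => simp only [chain_LL_cons, ih]; ring

theorem LL_smul (l : List ℝ) (c : ℂ) (x : ℕ → ℂ) (j : ℕ) :
    LL l (fun i => c * x i) j = c * LL l x j := by
  induction l generalizing j with
  | nil => rfl
  | cons μ l ih => simp only [chain_LL_cons, ih]; ring

theorem LL_finsum {β : Type*} (l : List ℝ) (t : Finset β) (x : β → ℕ → ℂ) (j : ℕ) :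
    LL l (fun i => ∑ b ∈ t, x b i) j = ∑ b ∈ t, LL l (x b) j := by
  induction l generalizing j with
  | nil => rfl
  | cons μ l ih => simp only [chain_LL_cons, ih, Finset.sum_add_distrib, Finset.mul_sum]

theorem LL_congr (l : List ℝ) {x y : ℕ → ℂ} {j : ℕ} (h : ∀ i, j ≤ i → x i = y i) :
    LL l x j = LL l y j := by
  induction l generalizing j with
  | nil => exact h j le_rfl
  | cons μ l ih =>
    rw [chain_LL_cons, chain_LL_cons, ih h, ih (j := j + 1) (fun i hi => h i (by omega))]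

theorem LL_hasSum {β : Type*} (l : List ℝ) (x : β → ℕ → ℂ) (y : ℕ → ℂ) (j : ℕ)
    (h : ∀ i, j ≤ i → HasSum (fun b => x b i) (y i)) :
    HasSum (fun b => LL l (x b) j) (LL l y j) := by
  induction l generalizing j with
  | nil => exact h j le_rfl
  | cons μ l ih =>
    simp only [chain_LL_cons]
    exact (ih j h).add ((ih (j + 1) (fun i hi => h i (by omega))).mul_left _)

theorem LL_ec (l : List ℝ) (ν : ℝ) (z : ℂ) (j : ℕ) :
    LL l (fun i => ec ν i z) j = Lm l ν * ec ν j z := by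
  induction l generalizing j with
  | nil => simp [chain_LL_nil, Lm]
  | cons μ l ih =>
    have hj : (j.factorial : ℂ) ≠ 0 := by exact_mod_cast j.factorial_ne_zero
    have hj1 : ((j : ℂ) + 1) ≠ 0 := by exact_mod_cast j.succ_ne_zero
    have e : ((j : ℂ) + 1) * ec ν (j + 1) z = -(ν : ℂ) * ec ν j z := by
      unfold ec
      rw [Nat.factorial_succ]
      push_cast
      field_simp
      ring
    have e2 : Lm (μ :: l) ν = (1 - (ν : ℂ) / (μ : ℂ)) * Lm l ν := by simp [Lm]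
    rw [chain_LL_cons, ih, ih, e2]
    calc Lm l ν * ec ν j z + ((j : ℂ) + 1) / μ * (Lm l ν * ec ν (j + 1) z)
        = Lm l ν * ec ν j z + (μ : ℂ)⁻¹ * Lm l ν * (((j : ℂ) + 1) * ec ν (j + 1) z) := by ring
      _ = _ := by rw [e]; ring

theorem LL_neg (l : List ℝ) (x : ℕ → ℂ) (j : ℕ) :
    LL l (fun i => (-1) ^ (i + 1) * x i) j = (-1) ^ (j + 1) * LL (l.map (fun μ => -μ)) x j := by
  induction l generalizing j with
  | nil => rfl
  | cons μ l ih =>
    rw [List.map_cons, chain_LL_cons, chain_LL_cons, ih, ih]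
    push_cast
    rw [div_neg]
    ring

theorem Lm_append (l l' : List ℝ) (ν : ℝ) : Lm (l ++ l') ν = Lm l ν * Lm l' ν := by
  simp [Lm]

theorem Lm_eq_zero {l : List ℝ} {ν : ℝ} (hν : ν ∈ l) (h0 : ν ≠ 0) : Lm l ν = 0 := by
  unfold Lm
  apply List.prod_eq_zero
  refine List.mem_map.2 ⟨ν, hν, ?_⟩
  have : (ν : ℂ) ≠ 0 := by exact_mod_cast h0
  rw [div_self this, sub_self]

theorem chain_norm_coef (j : ℕ) {μ μ0 : ℝ} (hμ0 : 0 < μ0) (h : μ0 ≤ |μ|) :
    ‖((j : ℂ) + 1) / (μ : ℂ)‖ ≤ ((j : ℝ) + 1) / μ0 := by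
  have e : ‖((j : ℂ) + 1)‖ = (j : ℝ) + 1 := by exact_mod_cast Complex.norm_natCast (j + 1)
  rw [norm_div, e, Complex.norm_real, Real.norm_eq_abs]
  exact div_le_div_of_nonneg_left (by positivity) hμ0 h

theorem chain_near_aux (l : List ℝ) (x : ℕ → ℂ) (j : ℕ) (w B μ0 q : ℝ) (hw : 0 < w)
    (hμ0 : 0 < μ0) (hq0 : 0 ≤ q) (hl : ∀ μ ∈ l, μ0 ≤ |μ|) (K : ℕ)
    (hq : (j : ℝ) + l.length + K ≤ q * (μ0 * w))
    (hx : ∀ i ≤ l.length + K, ‖x (j + i)‖ * w ^ i ≤ B) :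
    ∀ i ≤ K, ‖LL l x (j + i) - x (j + i)‖ * w ^ i ≤ ((1 + q) ^ l.length - 1) * B := by
  induction l generalizing K with
  | nil => intro i _; simp [chain_LL_nil]
  | cons μ l ih =>
    intro i hi
    have hB : 0 ≤ B := le_trans (by positivity) (hx 0 (Nat.zero_le _))
    simp only [List.length_cons] at hq hx ⊢
    have ih' := ih (fun μ' h' => hl μ' (List.mem_cons_of_mem _ h')) (K + 1)
      (by push_cast at hq ⊢; linarith only [hq]) (fun i hi => hx i (by omega))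
    have h1 := ih' i (by omega)
    have h2 := ih' (i + 1) (by omega)
    have h3 := hx (i + 1) (by omega)
    have hwi : 0 < w ^ i := pow_pos hw i
    have h4 : ‖LL l x (j + (i + 1))‖ * w ^ (i + 1) ≤ (1 + q) ^ l.length * B := by
      have : ‖LL l x (j + (i + 1))‖ ≤ ‖LL l x (j + (i + 1)) - x (j + (i + 1))‖ + ‖x (j + (i + 1))‖ :=
        norm_le_norm_sub_add _ _
      have h5 := mul_le_mul_of_nonneg_right this (pow_pos hw (i + 1)).le
      linarith only [h2, h3, h5]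
    have h6 := chain_norm_coef (j + i) hμ0 (hl μ List.mem_cons_self)
    have h7 : (((j + i : ℕ) : ℝ) + 1) / μ0 ≤ q * w := by
      rw [div_le_iff₀ hμ0]
      have : (i : ℝ) ≤ K := by exact_mod_cast hi
      have : (0 : ℝ) ≤ l.length := by positivity
      push_cast at hq ⊢
      linarith
    have e : LL (μ :: l) x (j + i) - x (j + i) = (LL l x (j + i) - x (j + i)) +
        (((j + i : ℕ) : ℂ) + 1) / (μ : ℂ) * LL l x (j + (i + 1)) := by
      rw [chain_LL_cons, add_assoc j i 1]; ring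
    rw [e]
    have h8 : ‖(((j + i : ℕ) : ℂ) + 1) / (μ : ℂ) * LL l x (j + (i + 1))‖ ≤
        q * w * ‖LL l x (j + (i + 1))‖ := by
      rw [norm_mul]
      exact mul_le_mul_of_nonneg_right (h6.trans h7) (norm_nonneg _)
    calc _ ≤ (‖LL l x (j + i) - x (j + i)‖ + q * w * ‖LL l x (j + (i + 1))‖) * w ^ i :=
          mul_le_mul_of_nonneg_right ((norm_add_le _ _).trans (by linarith only [h8])) hwi.le
      _ = ‖LL l x (j + i) - x (j + i)‖ * w ^ i +
          q * (‖LL l x (j + (i + 1))‖ * w ^ (i + 1)) := by ring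
      _ ≤ ((1 + q) ^ l.length - 1) * B + q * ((1 + q) ^ l.length * B) :=
          add_le_add h1 (mul_le_mul_of_nonneg_left h4 hq0)
      _ = _ := by ring

theorem chain_pow_le_exp (n : ℕ) {q : ℝ} (hq : 0 ≤ q) : (1 + q) ^ n ≤ Real.exp (n * q) := by
  rw [Real.exp_nat_mul]
  exact pow_le_pow_left₀ (by positivity) (by linarith [Real.add_one_le_exp q]) n

/-- Neumann estimate: each factor changes the weighted sup norm by a factor `1 + q/|l|`. -/
theorem LL_near (l : List ℝ) (x : ℕ → ℂ) (j : ℕ) (w B μ0 : ℝ) (hw : 0 < w) (hμ0 : 0 < μ0)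
    (hl : ∀ μ ∈ l, μ0 ≤ |μ|) (hq : 4 * l.length * ((j : ℝ) + l.length) ≤ μ0 * w)
    (hx : ∀ i ≤ l.length, ‖x (j + i)‖ * w ^ i ≤ B) : ‖LL l x j - x j‖ ≤ B / 2 := by
  have hB : 0 ≤ B := le_trans (by positivity) (hx 0 (Nat.zero_le _))
  rcases Nat.eq_zero_or_pos l.length with h0 | h0
  · rw [List.length_eq_zero_iff.1 h0, chain_LL_nil, sub_self, norm_zero]
    positivity
  have hn : (0 : ℝ) < l.length := by exact_mod_cast h0
  have h := chain_near_aux l x j w B μ0 (1 / (4 * l.length)) hw hμ0 (by positivity) hl 0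
    (by
      rw [one_div, inv_mul_eq_div, le_div_iff₀ (by positivity)]
      push_cast
      linarith only [hq]) (by simpa using hx) 0 le_rfl
  have h1 := chain_pow_le_exp l.length (q := 1 / (4 * l.length)) (by positivity)
  have e : (l.length : ℝ) * (1 / (4 * l.length)) = 1 / 4 := by field_simp
  rw [e] at h1
  have h2 := Real.exp_bound_div_one_sub_of_interval (x := 1 / 4) (by norm_num) (by norm_num)
  simp only [add_zero, pow_zero, mul_one] at h
  have h3 : (1 + 1 / (4 * (l.length : ℝ))) ^ l.length - 1 ≤ 1 / 2 := by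
    norm_num at h2
    linarith only [h1, h2]
  have := mul_le_mul_of_nonneg_right h3 hB
  linarith only [h, this]

theorem chain_exp_half : Real.exp (1 / 2) ≤ 2 := by
  have h2 := Real.exp_bound_div_one_sub_of_interval (x := 1 / 2) (by norm_num) (by norm_num)
  norm_num at h2 ⊢
  exact h2

/-- maximise `‖x j‖ (d/2)^j` over `[j0, j0 + i1]` and use `LL_near` with `w = d/2` -/
theorem LL_select (l : List ℝ) (x : ℕ → ℂ) (j0 i1 : ℕ) (d β X μ0 : ℝ) (hd : 0 < d) (hμ0 : 0 < μ0)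
    (hl : ∀ μ ∈ l, μ0 ≤ |μ|) (hq : 8 * l.length * ((j0 : ℝ) + i1 + l.length) ≤ μ0 * d)
    (hX : 2 * X ≤ i1) (hβ : β ≤ ‖x j0‖ * d ^ j0)
    (hx : ∀ j, j0 ≤ j → j ≤ j0 + i1 + l.length → ‖x j‖ * d ^ j ≤ Real.exp X * β) :
    ∃ j, j0 ≤ j ∧ j ≤ j0 + i1 ∧ β / 2 ≤ ‖LL l x j‖ * d ^ j := by
  rcases le_or_gt β 0 with hβ0 | hβ0
  · exact ⟨j0, le_rfl, by omega, le_trans (by linarith only [hβ0]) (by positivity : 0 ≤ ‖LL l x j0‖ * d ^ j0)⟩
  obtain ⟨j, hj, hmax⟩ := Finset.exists_max_image (Finset.Icc j0 (j0 + i1))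
    (fun j => ‖x j‖ * (d / 2) ^ j) ⟨j0, by simp⟩
  rw [Finset.mem_Icc] at hj
  have hg : ∀ k, ‖x k‖ * (d / 2) ^ k = ‖x k‖ * d ^ k / 2 ^ k := fun k => by
    rw [div_pow]; ring
  have h0 : β / 2 ^ j0 ≤ ‖x j‖ * (d / 2) ^ j := by
    refine le_trans ?_ (hmax j0 (by simp))
    rw [hg]
    exact div_le_div_of_nonneg_right hβ (by positivity)
  have hE : Real.exp X ≤ 2 ^ i1 := by
    calc Real.exp X ≤ Real.exp (i1 * (1 / 2)) := Real.exp_le_exp.2 (by linarith only [hX])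
      _ = Real.exp (1 / 2) ^ i1 := Real.exp_nat_mul _ _
      _ ≤ 2 ^ i1 := pow_le_pow_left₀ (Real.exp_pos _).le chain_exp_half _
  have hall : ∀ k, j ≤ k → k ≤ j + l.length → ‖x k‖ * (d / 2) ^ k ≤ ‖x j‖ * (d / 2) ^ j := by
    intro k hk hk'
    rcases le_or_gt k (j0 + i1) with h | h
    · exact hmax k (Finset.mem_Icc.2 ⟨by omega, h⟩)
    · refine le_trans ?_ h0
      rw [hg, div_le_div_iff₀ (by positivity) (by positivity)]
      have h1 := hx k (by omega) (by omega)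
      have h2 : (2 : ℝ) ^ i1 * 2 ^ j0 ≤ 2 ^ k := by
        rw [← pow_add]
        exact pow_le_pow_right₀ (by norm_num) (by omega)
      calc ‖x k‖ * d ^ k * 2 ^ j0 ≤ (2 ^ i1 * β) * 2 ^ j0 :=
            mul_le_mul_of_nonneg_right (h1.trans (mul_le_mul_of_nonneg_right hE hβ0.le))
              (by positivity)
        _ = β * (2 ^ i1 * 2 ^ j0) := by ring
        _ ≤ β * 2 ^ k := mul_le_mul_of_nonneg_left h2 hβ0.le
  have hn := LL_near l x j (d / 2) ‖x j‖ μ0 (by positivity) hμ0 hl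
    (by
      have h1 : (j : ℝ) ≤ j0 + i1 := by exact_mod_cast hj.2
      have h2 : (0 : ℝ) ≤ l.length := by positivity
      linarith only [hq, h1, mul_nonneg_of_nonpos_of_nonpos (Mathlib.Tactic.Linarith.sub_nonpos_of_le (Mathlib.Tactic.Linarith.natCast_nonneg ℝ l.length)) (Mathlib.Tactic.Linarith.sub_nonpos_of_le h1)])
    (fun i hi => by
      have h1 := hall (j + i) (by omega) (by omega)
      have h2 : 0 < (d / 2) ^ j := by positivity
      rw [pow_add] at h1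
      refine le_of_mul_le_mul_right ?_ h2
      linarith only [h1])
  refine ⟨j, hj.1, hj.2, ?_⟩
  have h1 : ‖x j‖ / 2 ≤ ‖LL l x j‖ := by
    have : ‖x j‖ ≤ ‖LL l x j‖ + ‖LL l x j - x j‖ := by
      have := norm_sub_le (LL l x j) (LL l x j - x j)
      simpa using this
    linarith only [hn, this]
  have h2 : β ≤ ‖x j‖ * d ^ j := by
    rw [hg, div_le_div_iff₀ (by positivity) (by positivity)] at h0
    have h3 : (2 : ℝ) ^ j0 ≤ 2 ^ j := pow_le_pow_right₀ (by norm_num) hj.1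
    have h4 : β * 2 ^ j0 ≤ β * 2 ^ j := mul_le_mul_of_nonneg_left h3 hβ0.le
    exact le_of_mul_le_mul_right (h4.trans h0) (by positivity)
  have h5 := mul_le_mul_of_nonneg_right h1 (pow_pos hd j).le
  linarith only [h2, h5]

theorem chain_dcc {R r : ℝ} {c : ℂ} (h : Chain F (ball 0 R)) (j : ℕ) (hr : ‖c‖ + r < R) :
    DiffContOnCl ℂ (F j) (ball c r) := by
  apply DifferentiableOn.diffContOnCl
  refine (h.differentiableOn j).mono (closure_ball_subset_closedBall.trans ?_)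
  intro z hz
  rw [mem_closedBall, dist_eq_norm] at hz
  rw [mem_ball_zero_iff]
  have := norm_le_norm_add_norm_sub' z c
  linarith

theorem chain_sup_aux {R' : ℝ} (h : Chain F (ball 0 R')) (l : List ℝ) (j : ℕ) (δ B μ0 : ℝ)
    (hδ : 0 < δ) (hμ0 : 0 < μ0) (hl : ∀ μ ∈ l, μ0 ≤ |μ|) (R : ℝ) (hR' : R + l.length * δ < R')
    (hB : ∀ z : ℂ, ‖z‖ ≤ R + l.length * δ → ‖F j z‖ ≤ B) (z : ℂ) (hz : ‖z‖ ≤ R) :
    ‖Lop l F j z‖ ≤ (1 + 1 / (μ0 * δ)) ^ l.length * B := by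
  induction l generalizing R z with
  | nil =>
    have : ‖F j z‖ ≤ B := hB z (by simpa using hz)
    change ‖F j z‖ ≤ _
    simpa using this
  | cons μ l ih =>
    simp only [List.length_cons] at hR' hB ⊢
    push_cast at hR' hB
    have hn : (0 : ℝ) ≤ l.length * δ := by positivity
    have ih' := ih (fun μ' h' => hl μ' (List.mem_cons_of_mem _ h')) (R + δ) (by linarith)
      (fun z hz => hB z (by linarith))
    have hc := h.lop l
    have h1 := ih' z (by linarith)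
    have h2 := Complex.norm_deriv_le_of_forall_mem_sphere_norm_le hδ
      (chain_dcc (c := z) (r := δ) hc j (by linarith only [hz, hR', hn])) (fun y hy => ih' y (by
        rw [mem_sphere, dist_eq_norm] at hy
        have := norm_le_norm_add_norm_sub' y z
        linarith only [hz, hy, this]))
    rw [(hc j z (by rw [mem_ball_zero_iff]; linarith only [hδ, hz, hR', hn])).deriv] at h2
    have hμ := hl μ List.mem_cons_self
    have e : ((j : ℂ) + 1) / (μ : ℂ) * Lop l F (j + 1) z =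
        -(μ : ℂ)⁻¹ * (-((j : ℂ) + 1) * Lop l F (j + 1) z) := by ring
    have h3 : ‖-(μ : ℂ)⁻¹‖ ≤ μ0⁻¹ := by
      rw [norm_neg, norm_inv, Complex.norm_real, Real.norm_eq_abs]
      exact inv_anti₀ hμ0 hμ
    rw [chain_Lop_cons, e]
    calc _ ≤ ‖Lop l F j z‖ + ‖-(μ : ℂ)⁻¹‖ * ‖-((j : ℂ) + 1) * Lop l F (j + 1) z‖ := by
          rw [← norm_mul]; exact norm_add_le _ _
      _ ≤ (1 + 1 / (μ0 * δ)) ^ l.length * B + μ0⁻¹ * ((1 + 1 / (μ0 * δ)) ^ l.length * B / δ) :=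
          add_le_add h1 (mul_le_mul h3 h2 (norm_nonneg _) (by positivity))
      _ = _ := by
          rw [pow_succ]
          generalize (1 + 1 / (μ0 * δ)) ^ l.length = A
          field_simp

/-- Cauchy estimates on shrinking discs: `Lop (μ :: l) F j = G - G'/μ` with `G = Lop l F j`;
each factor costs `1 + |l| / (μ0 r)`. -/
theorem Lop_sup {R' : ℝ} (h : Chain F (ball 0 R')) (l : List ℝ) (j : ℕ) (R r B μ0 : ℝ) (hR : 0 ≤ R)
    (hr : 0 < r) (hR' : R + r < R') (hμ0 : 0 < μ0) (hl : ∀ μ ∈ l, μ0 ≤ |μ|)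
    (hq : 2 * (l.length : ℝ) ^ 2 ≤ μ0 * r) (hB : ∀ z : ℂ, ‖z‖ ≤ R + r → ‖F j z‖ ≤ B)
    (z : ℂ) (hz : ‖z‖ ≤ R) : ‖Lop l F j z‖ ≤ 2 * B := by
  have hB0 : 0 ≤ B := (norm_nonneg _).trans (hB z (by linarith))
  rcases Nat.eq_zero_or_pos l.length with h0 | h0
  · rw [List.length_eq_zero_iff.1 h0]
    have : ‖F j z‖ ≤ B := hB z (by linarith only [hr, hz])
    change ‖F j z‖ ≤ 2 * B
    linarith only [hB0, this]
  have hn : (0 : ℝ) < l.length := by exact_mod_cast h0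
  have e : (l.length : ℝ) * (r / l.length) = r := by field_simp
  have h1 := chain_sup_aux h l j (r / l.length) B μ0 (by positivity) hμ0 hl R (by rwa [e])
    (by rwa [e]) z hz
  have h2 := chain_pow_le_exp l.length (q := 1 / (μ0 * (r / l.length))) (by positivity)
  have h3 : (l.length : ℝ) * (1 / (μ0 * (r / l.length))) ≤ 1 / 2 := by
    have : (l.length : ℝ) * (1 / (μ0 * (r / l.length))) = (l.length : ℝ) ^ 2 / (μ0 * r) := by
      field_simp
    rw [this, div_le_iff₀ (by positivity)]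
    linarith only [hq]
  have h4 := (h2.trans (Real.exp_le_exp.2 h3)).trans chain_exp_half
  exact h1.trans (mul_le_mul_of_nonneg_right h4 hB0)

theorem chain_iter (h : Chain F U) (hU : IsOpen U) (j i : ℕ) (z : ℂ) (hz : z ∈ U) :
    iteratedDeriv i (F j) z =
      (-1) ^ i * (i.factorial : ℂ) * ((j + i).choose i : ℂ) * F (j + i) z := by
  induction i generalizing z with
  | zero => simp
  | succ i ih =>
    rw [iteratedDeriv_succ]
    have e : iteratedDeriv i (F j) =ᶠ[nhds z] fun y =>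
        (-1) ^ i * (i.factorial : ℂ) * ((j + i).choose i : ℂ) * F (j + i) y := by
      filter_upwards [hU.mem_nhds hz] with y hy using ih y hy
    rw [e.deriv_eq, ((h (j + i) z hz).const_mul _).deriv]
    have e2 : (((j + i : ℕ) : ℂ) + 1) * ((j + i).choose i : ℂ) =
        ((j + (i + 1)).choose (i + 1) : ℂ) * ((i : ℂ) + 1) := by
      exact_mod_cast Nat.add_one_mul_choose_eq (j + i) i
    rw [Nat.factorial_succ, ← add_assoc j i 1] at *
    push_cast at e2 ⊢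
    linear_combination (-(-1) ^ i * (i.factorial : ℂ) * F (j + i + 1) z) * e2

theorem Chain.taylor {R : ℝ} (h : Chain F (ball 0 R)) (j : ℕ) (z : ℂ) (hz : ‖z‖ < R) :
    HasSum (fun i : ℕ => ((j + i).choose i : ℂ) * (-z) ^ i * F (j + i) 0) (F j z) := by
  have h0 : (0 : ℂ) ∈ ball (0 : ℂ) R := mem_ball_self ((norm_nonneg z).trans_lt hz)
  have := Complex.hasSum_taylorSeries_on_ball (h.differentiableOn j) (mem_ball_zero_iff.2 hz)
  suffices e : (fun i : ℕ => ((j + i).choose i : ℂ) * (-z) ^ i * F (j + i) 0) =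
      fun n : ℕ => (n.factorial : ℂ)⁻¹ • (z - 0) ^ n • iteratedDeriv n (F j) 0 by
    rw [e]; exact this
  funext i
  have hi : (i.factorial : ℂ) ≠ 0 := by exact_mod_cast i.factorial_ne_zero
  rw [chain_iter h isOpen_ball j i 0 h0, smul_eq_mul, smul_eq_mul, sub_zero, neg_pow z]
  field_simp

theorem Chain.cauchy {R r B : ℝ} (h : Chain F (ball 0 R)) (hr : 0 < r) (hrR : r < R) (j : ℕ)
    (hB : ∀ z : ℂ, ‖z‖ ≤ r → ‖F j z‖ ≤ B) (i : ℕ) :
    ((j + i).choose i : ℝ) * r ^ i * ‖F (j + i) 0‖ ≤ B := by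
  have h0 : (0 : ℂ) ∈ ball (0 : ℂ) R := mem_ball_self (hr.trans hrR)
  have h1 := Complex.norm_iteratedDeriv_le_of_forall_mem_sphere_norm_le i hr
    (chain_dcc (c := 0) (r := r) h j (by simpa using hrR))
    (fun y hy => hB y (le_of_eq (by simpa using hy)))
  rw [chain_iter h isOpen_ball j i 0 h0, le_div_iff₀ (by positivity)] at h1
  simp only [norm_mul, norm_pow, norm_neg, norm_one, one_pow, one_mul, Complex.norm_natCast] at h1
  have hi : (0 : ℝ) < i.factorial := by exact_mod_cast i.factorial_pos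
  refine le_of_mul_le_mul_left ?_ hi
  linarith only [h1]

theorem choose_mul_pow_le (j i : ℕ) {t : ℝ} (ht0 : 0 ≤ t) (ht : t < 1) :
    ((j + i).choose i : ℝ) * t ^ i ≤ (1 - t)⁻¹ ^ (j + 1) := by
  have h := hasSum_choose_mul_geometric_of_norm_lt_one (𝕜 := ℝ) j (r := t)
    (by rwa [Real.norm_eq_abs, abs_of_nonneg ht0])
  have h1 := le_hasSum h i (fun k _ => by positivity)
  rw [inv_pow, ← one_div, add_comm j i, Nat.choose_symm_add]
  exact h1

/-- translation lemma: the terms `i > i0` of the Taylor series contribute `≤ β/2` -/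
theorem Chain.translate {R r β X : ℝ} (h : Chain F (ball 0 R)) (hr : 0 < r) (hrR : 4 * r < R)
    (j i0 : ℕ) (z : ℂ) (hz : ‖z‖ ≤ r) (hβ : β ≤ ‖F j z‖) (hi0 : X + 1 ≤ i0)
    (hB : ∀ z' : ℂ, ‖z'‖ ≤ 4 * r → ‖F j z'‖ ≤ Real.exp X * β) :
    ∃ i ≤ i0, β ≤ 4 * (((j + i).choose i : ℝ) * (2 * r) ^ i * ‖F (j + i) 0‖) := by
  rcases le_or_gt β 0 with hβ0 | hβ0
  · exact ⟨0, Nat.zero_le _, hβ0.trans (by positivity)⟩
  by_contra hcon
  push Not at hcon
  have hT := h.taylor j z (by linarith only [hr, hrR, hz])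
  have hC := h.cauchy (by positivity) hrR j hB
  have g1 := (hasSum_geometric_of_lt_one (r := 1 / 2) (by norm_num) (by norm_num)).mul_left (β / 4)
  have g2 := (hasSum_geometric_of_lt_one (r := 17 / 25) (by norm_num) (by norm_num)).mul_left
    (β / 7)
  have he : Real.exp 1 ≤ 68 / 25 := le_trans Real.exp_one_lt_d9.le (by norm_num)
  have he' : (27 / 10 : ℝ) ≤ Real.exp 1 := le_trans (by norm_num) Real.exp_one_gt_d9.le
  have key := hT.norm_le_of_bounded (g1.add g2) (fun i => by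
    have hzi : ‖z‖ ^ i ≤ r ^ i := pow_le_pow_left₀ (norm_nonneg _) hz i
    have h1 : ‖((j + i).choose i : ℂ) * (-z) ^ i * F (j + i) 0‖ ≤
        ((j + i).choose i : ℝ) * r ^ i * ‖F (j + i) 0‖ := by
      simp only [norm_mul, norm_pow, norm_neg, Complex.norm_natCast]
      gcongr
    refine h1.trans ?_
    have p1 : 0 ≤ β / 4 * (1 / 2 : ℝ) ^ i := by positivity
    have p2 : 0 ≤ β / 7 * (17 / 25 : ℝ) ^ i := by positivity
    rcases le_or_gt i i0 with hi | hi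
    · have h2 := (hcon i hi).le
      have e : ((j + i).choose i : ℝ) * r ^ i * ‖F (j + i) 0‖ =
          (((j + i).choose i : ℝ) * (2 * r) ^ i * ‖F (j + i) 0‖) * (1 / 2) ^ i := by
        rw [mul_pow, one_div, inv_pow]
        field_simp
      have h3 := mul_le_mul_of_nonneg_right h2 (by positivity : (0 : ℝ) ≤ (1 / 2) ^ i)
      rw [e]
      linarith only [p2, h3]
    · have h2 := hC i
      have e : ((j + i).choose i : ℝ) * r ^ i * ‖F (j + i) 0‖ =
          (((j + i).choose i : ℝ) * (4 * r) ^ i * ‖F (j + i) 0‖) * (1 / 4) ^ i := by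
        rw [mul_pow, one_div, inv_pow]
        field_simp
      have hi' : (i0 : ℝ) + 1 ≤ i := by exact_mod_cast hi
      have h4 : 7 * Real.exp X ≤ (68 / 25) ^ i := by
        have h5 : Real.exp X * (Real.exp 1 * Real.exp 1) ≤ Real.exp (i * 1) := by
          rw [← Real.exp_add, ← Real.exp_add]
          exact Real.exp_le_exp.2 (by linarith only [hi0, hi'])
        rw [Real.exp_nat_mul] at h5
        have h6 : Real.exp 1 ^ i ≤ (68 / 25) ^ i := pow_le_pow_left₀ (Real.exp_pos _).le he i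
        have h7 : 7 ≤ Real.exp 1 * Real.exp 1 := by linarith only [he', he, mul_nonneg_of_nonpos_of_nonpos (Mathlib.Tactic.Linarith.sub_nonpos_of_le he) (Mathlib.Tactic.Linarith.sub_nonpos_of_le he)]
        have h8 := mul_le_mul_of_nonneg_left h7 (Real.exp_pos X).le
        linarith only [h5, h6, h8]
      have e2 : (17 / 25 : ℝ) ^ i = (68 / 25) ^ i * (1 / 4) ^ i := by
        rw [← mul_pow]; norm_num
      have h3 := mul_le_mul_of_nonneg_right h2 (by positivity : (0 : ℝ) ≤ (1 / 4) ^ i)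
      have h9 := mul_le_mul_of_nonneg_right h4 (by positivity : (0 : ℝ) ≤ β / 7 * (1 / 4) ^ i)
      rw [e, e2]
      rw [e2] at p2
      linarith only [p1, h3, h9])
  norm_num at key
  linarith only [hβ, hβ0, key]

theorem chain_im {x y : ℝ} (h : Chain F U) (hU : ∀ t ∈ Set.Ioo x y, (t : ℂ) ∈ U)
    (hre : ∀ t ∈ Set.Ioo x y, (F 0 t).im = 0) (j : ℕ) : ∀ t ∈ Set.Ioo x y, (F j t).im = 0 := by
  induction j with
  | zero => exact hre
  | succ j ih =>
    intro t ht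
    have h1 := im_deriv_eq_zero (F j) (fun z => -((j : ℂ) + 1) * F (j + 1) z) x y
      (fun t ht => h j t (hU t ht)) ih t ht
    have hj : (0 : ℝ) < (j : ℝ) + 1 := by positivity
    simp only [neg_mul, neg_im, mul_im, add_re, natCast_re, one_re, add_im, natCast_im, one_im,
      add_zero, zero_mul, neg_eq_zero, mul_eq_zero] at h1
    exact h1.resolve_left hj.ne'

theorem chain_im_lop (l : List ℝ) (F : ℕ → ℂ → ℂ) (z : ℂ) (h : ∀ j, (F j z).im = 0) (j : ℕ) :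
    (Lop l F j z).im = 0 := by
  induction l generalizing j with
  | nil => exact h j
  | cons μ l ih =>
    have e : ((j : ℂ) + 1) / (μ : ℂ) = ((((j : ℝ) + 1) / μ : ℝ) : ℂ) := by push_cast; rfl
    rw [chain_Lop_cons, e, add_im, ih, im_ofReal_mul, ih]
    simp

/-- Rolle along a chain: `j + |l|` steps of `zb_step` -/
theorem Chain.zb {x y N : ℝ} (h : Chain F U) (hU : ∀ t ∈ Set.Ioo x y, (t : ℂ) ∈ U)
    (hre : ∀ t ∈ Set.Ioo x y, (F 0 t).im = 0) (hN : 0 ≤ N) (l : List ℝ) (hl : ∀ μ ∈ l, μ ≠ 0)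
    (j : ℕ) (hz : ZB (Lop l F j) x y N) : ZB (F 0) x y (N + j + l.length) := by
  have him := chain_im h hU hre
  have s1 : ZB (F j) x y (N + l.length) := by
    induction l generalizing N with
    | nil =>
      have : ZB (F j) x y N := hz
      simpa using this
    | cons μ l ih =>
      have hμ : (μ : ℂ) ≠ 0 := by exact_mod_cast hl μ List.mem_cons_self
      have h1 := zb_step (Lop l F j) (fun z => -((j : ℂ) + 1) * Lop l F (j + 1) z) μ x y N hN
        (fun t ht => h.lop l j t (hU t ht))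
        (fun t ht => chain_im_lop l F t (fun i => him i t ht) j)
        (hz.congr (fun t ht => by
          have e : -((j : ℂ) + 1) * Lop l F (j + 1) t - μ * Lop l F j t =
              -(μ : ℂ) * Lop (μ :: l) F j t := by
            rw [chain_Lop_cons]; field_simp; ring
          rw [e]
          simp [hμ]))
      have h2 := ih (by linarith) (fun μ' h' => hl μ' (List.mem_cons_of_mem _ h')) h1
      refine h2.mono (le_of_eq ?_)
      simp only [List.length_cons]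
      push_cast
      ring
  have s2 : ∀ (j : ℕ) (N : ℝ), 0 ≤ N → ZB (F j) x y N → ZB (F 0) x y (N + j) := by
    intro j
    induction j with
    | zero => intro N _ h0; simpa using h0
    | succ j ih =>
      intro N hN h0
      have hj1 : ((j : ℂ) + 1) ≠ 0 := by exact_mod_cast j.succ_ne_zero
      have h1 := zb_step (F j) (fun z => -((j : ℂ) + 1) * F (j + 1) z) 0 x y N hN
        (fun t ht => h j t (hU t ht)) (him j)
        (h0.congr (fun t ht => by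
          rw [ofReal_zero, zero_mul, sub_zero, mul_eq_zero, neg_eq_zero]
          simp [hj1]))
      refine (ih (N + 1) (by linarith) h1).mono (le_of_eq ?_)
      push_cast
      ring
  refine (s2 j _ (by positivity) s1).mono (le_of_eq ?_)
  ring

end Pool.Agent.Work.MP_97f157_lc.Tau
end
end

-- merged part: Pool.Agent.Work.MP_97f157_lc.TauMisc
section
/-! Elementary estimates: Stirling, roots of unity, lattice sums, binomial weights. -/

noncomputable section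
open Complex Finset

namespace Pool.Agent.Work.MP_97f157_lc.Tau

/-- Stirling, both directions (`Stirling.le_factorial_stirling` and `j! ≤ e √j (j/e)^j`) -/
theorem stirling_two {j : ℕ} (hj : 1 ≤ j) :
    1 / (3 * √j) ≤ (j : ℝ) ^ j * Real.exp (-j) / j.factorial ∧
      (j : ℝ) ^ j * Real.exp (-j) / j.factorial ≤ 1 / √j := by
  have hj0 : (0 : ℝ) < j := by exact_mod_cast hj
  have hs : 0 < √(j : ℝ) := Real.sqrt_pos.2 hj0
  have hf : (0 : ℝ) < j.factorial := by exact_mod_cast j.factorial_pos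
  have e : (j : ℝ) ^ j * Real.exp (-j) = (j / Real.exp 1) ^ j := by
    rw [div_pow, Real.exp_one_pow, Real.exp_neg, div_eq_mul_inv]
  have hp : 0 < ((j : ℝ) / Real.exp 1) ^ j := by positivity
  rw [e, div_le_div_iff₀ (by positivity) hf, div_le_div_iff₀ hf hs, one_mul]
  constructor
  · obtain ⟨n, rfl⟩ : ∃ n, j = n + 1 := ⟨j - 1, by omega⟩
    have h1 := Stirling.stirlingSeq'_antitone (Nat.zero_le n)
    simp only [Function.comp, Nat.succ_eq_add_one, zero_add] at h1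
    rw [Stirling.stirlingSeq_one, Stirling.stirlingSeq, Real.sqrt_mul (by norm_num),
      div_le_div_iff₀ (by positivity) (by positivity)] at h1
    have h2 : (0 : ℝ) < √2 := by positivity
    have h3 : Real.exp 1 ≤ 3 := Real.exp_one_lt_d9.le.trans (by norm_num)
    refine le_of_mul_le_mul_right (h1.trans ?_) h2
    have := mul_le_mul_of_nonneg_right h3 (mul_pos (mul_pos h2 hs) hp).le
    linarith only [this]
  · refine le_trans ?_ (Stirling.le_factorial_stirling j)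
    rw [mul_comm]
    refine mul_le_mul_of_nonneg_right (Real.sqrt_le_sqrt ?_) hp.le
    linarith only [hj0, Real.pi_gt_three, mul_nonneg_of_nonpos_of_nonpos (Mathlib.Tactic.Linarith.sub_nonpos_of_le (Mathlib.Tactic.Linarith.natCast_nonneg ℝ j)) (le_of_lt (Mathlib.Tactic.Linarith.sub_neg_of_lt Real.pi_gt_three))]

/-- orthogonality of characters of `ℤ/Q` -/
theorem sum_exp_root (Q : ℕ) (hQ : 0 < Q) (k : ℤ) :
    ∑ q ∈ range Q, exp (2 * Real.pi * I * k * q / Q) = if (Q : ℤ) ∣ k then (Q : ℂ) else 0 := by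
  have hQ' : (Q : ℂ) ≠ 0 := by exact_mod_cast hQ.ne'
  have e : ∀ q : ℕ, exp (2 * Real.pi * I * k * q / Q) = exp (2 * Real.pi * I * k / Q) ^ q := by
    intro q
    rw [← exp_nat_mul]; congr 1; ring
  simp only [e]
  split_ifs with h
  · obtain ⟨c, rfl⟩ := h
    have : exp (2 * Real.pi * I * ((Q * c : ℤ) : ℂ) / Q) = 1 := by
      rw [← exp_int_mul_two_pi_mul_I c]; congr 1; push_cast; field_simp
    rw [this]
    simp
  · have h1 : exp (2 * Real.pi * I * k / Q) ≠ 1 := by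
      intro c
      obtain ⟨n, hn⟩ := exp_eq_one_iff.1 c
      refine h ⟨n, ?_⟩
      have h2 : (Real.pi : ℂ) ≠ 0 := ofReal_ne_zero.2 Real.pi_ne_zero
      have h3 := I_ne_zero
      field_simp at hn
      exact_mod_cast hn
    have h2 : exp (2 * Real.pi * I * k / Q) ^ Q = 1 := by
      rw [← e, ← exp_int_mul_two_pi_mul_I k]; congr 1; field_simp
    rw [geom_sum_eq h1, h2, sub_self, zero_div]

theorem misc_range {h : ℝ} (hh : 0 < h) (N : ℕ) :
    ∑ m ∈ range (N + 1), (1 + (m * h) ^ 2)⁻¹ ≤ 1 + 2 / h - 2 / (h * (1 + N * h)) := by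
  induction N with
  | zero => simp
  | succ N ih =>
    rw [sum_range_succ]
    have h0 : (0 : ℝ) ≤ N * h := by positivity
    have e : ((N + 1 : ℕ) : ℝ) * h = N * h + h := by push_cast; ring
    rw [e]
    generalize (N : ℝ) * h = u at *
    have e2 : 2 / (h * (1 + u)) - 2 / (h * (1 + (u + h))) = 2 / ((1 + u) * (1 + (u + h))) := by
      field_simp
      ring
    have : (1 + (u + h) ^ 2)⁻¹ ≤ 2 / ((1 + u) * (1 + (u + h))) := by
      rw [inv_eq_one_div, div_le_div_iff₀ (by positivity) (by positivity)]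
      (refine le_of_not_gt fun h_nl => ?_; linarith only [h_nl, hh, h0, e, sq_nonneg (u + h - 1), sq_nonneg (u + h), mul_nonneg_of_nonpos_of_nonpos (Mathlib.Tactic.Linarith.sub_nonpos_of_le (sq_nonneg (u + h - (1 : ℝ)))) (Mathlib.Tactic.Linarith.sub_nonpos_of_le (Mathlib.Tactic.Linarith.natCast_nonneg ℝ (N + (1 : ℕ)))), Mathlib.Tactic.Linarith.mul_zero_eq (Mathlib.Tactic.Linarith.sub_nonpos_of_le (sq_nonneg (u + h - (1 : ℝ)))) (sub_eq_zero_of_eq e), Mathlib.Tactic.Linarith.mul_zero_eq (Mathlib.Tactic.Linarith.sub_nonpos_of_le (sq_nonneg (u + h))) (sub_eq_zero_of_eq e), mul_nonneg_of_nonpos_of_nonpos (Mathlib.Tactic.Linarith.sub_nonpos_of_le (Mathlib.Tactic.Linarith.natCast_nonneg ℝ (N + (1 : ℕ)))) (le_of_lt (Mathlib.Tactic.Linarith.sub_neg_of_lt h_nl))])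
    linarith only [ih, e2, this]

theorem misc_half {h : ℝ} (hh : 0 < h) (G : Finset ℤ) (f : ℤ → ℝ) (ψ : ℤ → ℕ)
    (hψ : Set.InjOn ψ G) (hf : ∀ l ∈ G, f l ≤ (1 + (ψ l * h) ^ 2)⁻¹) :
    ∑ l ∈ G, f l ≤ 1 + 2 / h := by
  refine (sum_le_sum hf).trans ?_
  rw [← sum_image (f := fun m : ℕ => (1 + (m * h) ^ 2)⁻¹) hψ]
  refine (sum_le_sum_of_subset_of_nonneg (t := range ((G.image ψ).sup id + 1))
    (fun m hm => mem_range.2 (Nat.lt_succ_of_le (le_sup (f := id) hm)))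
    fun _ _ _ => by positivity).trans ((misc_range hh _).trans (sub_le_self _ (by positivity)))

/-- `∑ 1/(1 + (τ - l b)²/X²)` over any finite set of integers -/
theorem lat_sum (F : Finset ℤ) (τ b X : ℝ) (hb : 0 < b) (hX : 0 < X) :
    ∑ l ∈ F, (1 + (τ - l * b) ^ 2 / X ^ 2)⁻¹ ≤ 4 + 4 * X / b := by
  have hh : 0 < b / X := by positivity
  have key : ∀ (l : ℤ) (m : ℕ), m * b ≤ |τ - l * b| →
      (1 + (τ - l * b) ^ 2 / X ^ 2)⁻¹ ≤ (1 + (m * (b / X)) ^ 2)⁻¹ := by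
    intro l m h
    refine inv_anti₀ (by positivity) (add_le_add_right ?_ 1)
    rw [← mul_div_assoc, div_pow, ← sq_abs (τ - l * b)]
    gcongr
  have f1 := Int.floor_le (τ / b)
  have f2 := Int.lt_floor_add_one (τ / b)
  rw [le_div_iff₀ hb] at f1
  rw [div_lt_iff₀ hb] at f2
  generalize ⌊τ / b⌋ = c at f1 f2
  have h1 := misc_half hh (F.filter fun l => l ≤ c) (fun l => (1 + (τ - l * b) ^ 2 / X ^ 2)⁻¹)
    (fun l => (c - l).toNat) (fun x hx y hy e => by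
      have := (mem_filter.1 hx).2
      have := (mem_filter.1 hy).2
      simp only at e
      omega) fun l hl => key l _ (by
      obtain ⟨m, hm⟩ := Int.eq_ofNat_of_zero_le (sub_nonneg.2 (mem_filter.1 hl).2)
      have e : (c : ℝ) - l = m := by exact_mod_cast hm
      rw [hm, Int.toNat_natCast, ← e]
      exact le_abs.2 (Or.inl (by linarith only [f1])))
  have h2 := misc_half hh (F.filter fun l => ¬ l ≤ c) (fun l => (1 + (τ - l * b) ^ 2 / X ^ 2)⁻¹)
    (fun l => (l - c - 1).toNat) (fun x hx y hy e => by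
      have := (mem_filter.1 hx).2
      have := (mem_filter.1 hy).2
      simp only at e
      omega) fun l hl => key l _ (by
      obtain ⟨m, hm⟩ := Int.eq_ofNat_of_zero_le
        (show 0 ≤ l - c - 1 by have := (mem_filter.1 hl).2; omega)
      have e : (l : ℝ) - c - 1 = m := by exact_mod_cast hm
      rw [hm, Int.toNat_natCast, ← e]
      exact le_abs.2 (Or.inr (by linarith only [f2])))
  rw [← sum_filter_add_sum_filter_not F fun l => l ≤ c]
  have e : 2 / (b / X) = 4 * X / b / 2 := by field_simp; norm_num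
  linarith only [h1, h2, e]

theorem decay_pow {t Δ : ℝ} (hΔ : Δ ^ 2 ≤ 1) (ht : Δ ^ 2 ≤ t ^ 2) {j : ℕ} (hj : 1 ≤ j) :
    (√(1 + t ^ 2 / 2))⁻¹ ^ (j + 1) ≤ Real.exp (-(((j : ℝ) - 1) * Δ ^ 2 / 8)) * (1 + t ^ 2 / 2)⁻¹ := by
  obtain ⟨n, rfl⟩ : ∃ n, j = n + 1 := ⟨j - 1, by omega⟩
  have h0 : 0 < 1 + t ^ 2 / 2 := by positivity
  have h1 : (√(1 + t ^ 2 / 2))⁻¹ ≤ Real.exp (-(Δ ^ 2 / 8)) := by
    rw [Real.exp_neg]
    refine inv_anti₀ (Real.exp_pos _) (Real.le_sqrt_of_sq_le ?_)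
    have a1 := Real.add_one_le_exp (-(Δ ^ 2 / 4))
    have a2 : Real.exp (Δ ^ 2 / 8) ^ 2 * Real.exp (-(Δ ^ 2 / 4)) = 1 := by
      rw [← Real.exp_nat_mul, ← Real.exp_add, Real.exp_eq_one_iff]; push_cast; ring
    have a3 := sq_nonneg Δ
    have a4 : 0 < Real.exp (Δ ^ 2 / 8) ^ 2 := by positivity
    have a5 : Real.exp (Δ ^ 2 / 8) ^ 2 * (1 - Δ ^ 2 / 4) ≤ 1 := by linarith only [a2, a1, mul_nonneg_of_nonpos_of_nonpos (Mathlib.Tactic.Linarith.sub_nonpos_of_le (sq_nonneg ((1 : ℝ) * Real.exp (Δ ^ (2 : ℕ) / (8 : ℝ))))) (Mathlib.Tactic.Linarith.sub_nonpos_of_le a1)]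
    refine le_of_mul_le_mul_right (a := 1 - Δ ^ 2 / 4) (a5.trans ?_) (by linarith only [hΔ])
    linarith only [ht, hΔ, sq_nonneg t, mul_nonneg_of_nonpos_of_nonpos (Mathlib.Tactic.Linarith.sub_nonpos_of_le (sq_nonneg t)) (Mathlib.Tactic.Linarith.sub_nonpos_of_le hΔ)]
  have e : -((((n + 1 : ℕ) : ℝ) - 1) * Δ ^ 2 / 8) = n * -(Δ ^ 2 / 8) := by push_cast; ring
  rw [e, Real.exp_nat_mul, add_assoc, pow_add, inv_pow _ (1 + 1), Real.sq_sqrt h0.le]
  gcongr

theorem bw_sum (r : ℕ) : ∑ i ∈ range (2 * r + 1), bw r i = 1 := by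
  simp only [bw]
  rw [← sum_div, ← Nat.cast_sum, Nat.sum_range_choose, div_eq_one_iff_eq (by positivity), pow_mul]
  norm_num

theorem bw_nonneg (r i : ℕ) : 0 ≤ bw r i := by unfold bw; positivity

theorem misc_central (n : ℕ) :
    (16 : ℝ) ^ (n + 1) ≤ 4 * (n + 1) * (Nat.centralBinom (n + 1) : ℝ) ^ 2 := by
  induction n with
  | zero => norm_num [Nat.centralBinom]
  | succ n ih =>
    have h : ((n : ℝ) + 1 + 1) * Nat.centralBinom (n + 1 + 1) =
        2 * (2 * (n + 1) + 1) * Nat.centralBinom (n + 1) := by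
      exact_mod_cast Nat.succ_mul_centralBinom_succ (n + 1)
    have h0 : (0 : ℝ) < n + 1 + 1 := by positivity
    push_cast
    refine le_of_mul_le_mul_left ?_ h0
    calc _ = (n + 1 + 1) * 16 * (16 : ℝ) ^ (n + 1) := by ring
      _ ≤ (n + 1 + 1) * 16 * (4 * (n + 1) * (Nat.centralBinom (n + 1) : ℝ) ^ 2) := by gcongr
      _ ≤ 4 * (2 * (2 * (n + 1) + 1) * (Nat.centralBinom (n + 1) : ℝ)) ^ 2 := by
        linarith only [sq_nonneg (Nat.centralBinom (n + 1) : ℝ), sq_nonneg ↑(n + (1 : ℕ)).centralBinom]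
      _ = _ := by rw [← h]; ring

theorem bw_mid {r : ℕ} (hr : 1 ≤ r) : 1 / (2 * √r) ≤ bw r r := by
  obtain ⟨n, rfl⟩ : ∃ n, r = n + 1 := ⟨r - 1, by omega⟩
  have h := misc_central n
  rw [bw, div_le_div_iff₀ (by positivity) (by positivity), one_mul]
  refine (pow_le_pow_iff_left₀ (by positivity) (by positivity) two_ne_zero).1 ?_
  rw [mul_pow, mul_pow, Real.sq_sqrt (by positivity), ← pow_mul, mul_comm (n + 1) 2, pow_mul,
    ← Nat.centralBinom]
  push_cast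
  norm_num
  linarith only [h]

theorem bw_tail {r : ℕ} (hr : 1 ≤ r) (i : ℕ) :
    bw r i ≤ Real.exp (-(((i : ℝ) - r) ^ 2 / (2 * r))) := by
  rcases lt_or_ge (2 * r) i with c | c
  · rw [bw, Nat.choose_eq_zero_of_lt c, Nat.cast_zero, zero_div]
    exact (Real.exp_pos _).le
  have hr0 : (0 : ℝ) < r := by exact_mod_cast hr
  set μ : ℝ := (i - r) / r with hμ
  have h1 : Real.exp μ ^ i * Real.exp (-μ) ^ (2 * r - i) * ((2 * r).choose i : ℝ) ≤
      (Real.exp μ + Real.exp (-μ)) ^ (2 * r) := by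
    rw [add_pow]
    exact single_le_sum (f := fun m => Real.exp μ ^ m * Real.exp (-μ) ^ (2 * r - m) *
      ((2 * r).choose m : ℝ)) (fun _ _ => by positivity) (mem_range.2 (Nat.lt_succ_of_le c))
  have h2 : Real.exp μ + Real.exp (-μ) ≤ 2 * Real.exp (μ ^ 2 / 2) := by
    have := Real.cosh_le_exp_half_sq μ
    rw [Real.cosh_eq] at this
    linarith only [this]
  have h3 := h1.trans (pow_le_pow_left₀ (by positivity) h2 _)
  rw [mul_pow, pow_mul, ← Real.exp_nat_mul, ← Real.exp_nat_mul, ← Real.exp_nat_mul, ← Real.exp_add,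
    Nat.cast_sub c, ← le_div_iff₀' (Real.exp_pos _), mul_div_assoc, ← Real.exp_sub] at h3
  rw [bw, div_le_iff₀' (by positivity)]
  refine h3.trans (mul_le_mul (by norm_num) (Real.exp_le_exp.2 ?_) (Real.exp_pos _).le
    (by positivity))
  have e : ((i : ℝ) - r) = μ * r := by rw [hμ]; field_simp
  have e' : (i : ℝ) = μ * r + r := by linarith only [e]
  have e2 : (μ * r) ^ 2 / (2 * r) = μ ^ 2 * r / 2 := by field_simp
  rw [e, e2]
  push_cast
  rw [e']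
  linarith only [hr0, mul_nonneg (sq_nonneg μ) hr0.le, sq_nonneg μ]

/-- binomial theorem -/
theorem bw_fourier (r : ℕ) (θ : ℂ) :
    ∑ i ∈ range (2 * r + 1), (bw r i : ℂ) * exp (-(I * (((i : ℂ) - r) * θ))) =
      exp (I * (r * θ)) * ((1 + exp (-(I * θ))) / 2) ^ (2 * r) := by
  rw [div_pow, add_comm 1, add_pow, sum_div, mul_sum]
  refine sum_congr rfl fun i _ => ?_
  have e : -(I * (((i : ℂ) - r) * θ)) = I * (r * θ) + i * -(I * θ) := by ring
  rw [e, exp_add, exp_nat_mul, bw, pow_mul]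
  push_cast
  ring

end Pool.Agent.Work.MP_97f157_lc.Tau
end
end
end

-- merged part: Pool.Agent.Work.MP_97f157_lc.TauIsoBAux
section
-- merged part: Pool.Agent.Work.MP_97f157_lc.TauNrm
section
/-! Algebra of moment norms (part 1: multipliers). -/

noncomputable section
open Complex Finset

namespace Pool.Agent.Work.MP_97f157_lc.Tau

variable {κ κ' : Type*} {s : Finset κ} {u v f f' g g' : κ → ℂ} {B B' K K' q : ℝ}

theorem NB.nonneg (h : NB s u v g B) : 0 ≤ B := (norm_nonneg _).trans (h 0 0)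
theorem NB.sum_le (h : NB s u v g B) : ‖∑ k ∈ s, g k‖ ≤ B := by simpa [mom] using h 0 0
theorem NB.mono (h : NB s u v g B) (hB : B ≤ B') : NB s u v g B' := fun i l => (h i l).trans hB
theorem NB.congr {u' v' : κ → ℂ} (h : NB s u v g B) (hu : ∀ k ∈ s, u k = u' k)
    (hv : ∀ k ∈ s, v k = v' k) (hg : ∀ k ∈ s, g k = g' k) : NB s u' v' g' B := fun i l => by
  have : mom s u' v' g' i l = mom s u v g i l :=
    Finset.sum_congr rfl fun k hk => by rw [hu k hk, hv k hk, hg k hk]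
  rw [this]; exact h i l
theorem NB.add (h : NB s u v g B) (h' : NB s u v g' B') :
    NB s u v (fun k => g k + g' k) (B + B') := fun i l => by
  have : mom s u v (fun k => g k + g' k) i l = mom s u v g i l + mom s u v g' i l := by
    simp only [mom, add_mul, Finset.sum_add_distrib]
  rw [this]; exact (norm_add_le _ _).trans (add_le_add (h i l) (h' i l))
theorem NB.sub (h : NB s u v g B) (h' : NB s u v g' B') :
    NB s u v (fun k => g k - g' k) (B + B') := fun i l => by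
  have : mom s u v (fun k => g k - g' k) i l = mom s u v g i l - mom s u v g' i l := by
    simp only [mom, sub_mul, Finset.sum_sub_distrib]
  rw [this]; exact (norm_sub_le _ _).trans (add_le_add (h i l) (h' i l))
theorem NB.smul (h : NB s u v g B) (c : ℂ) : NB s u v (fun k => c * g k) (‖c‖ * B) := fun i l => by
  have : mom s u v (fun k => c * g k) i l = c * mom s u v g i l := by
    simp only [mom, Finset.mul_sum, mul_assoc]
  rw [this, norm_mul]; exact mul_le_mul_of_nonneg_left (h i l) (norm_nonneg _)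
theorem NB.finsum {β : Type*} (t : Finset β) (G : β → κ → ℂ) (b : β → ℝ)
    (h : ∀ i ∈ t, NB s u v (G i) (b i)) : NB s u v (fun k => ∑ i ∈ t, G i k) (∑ i ∈ t, b i) := fun i l => by
  have : mom s u v (fun k => ∑ j ∈ t, G j k) i l = ∑ j ∈ t, mom s u v (G j) i l := by
    simp only [mom, Finset.sum_mul]; exact Finset.sum_comm
  rw [this]; exact norm_sum_le_of_le _ fun j hj => h j hj i l
theorem NB.zero (hB : 0 ≤ B) (hg : ∀ k ∈ s, g k = 0) : NB s u v g B := fun i l => by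
  have : mom s u v g i l = 0 := Finset.sum_eq_zero fun k hk => by simp [hg k hk]
  rw [this, norm_zero]; exact hB
/-- restriction to a subset is multiplication by an indicator -/
theorem NB.ite_iff {t : Finset κ} [DecidablePred (· ∈ t)] (ht : t ⊆ s) :
    NB s u v (fun k => if k ∈ t then g k else 0) B ↔ NB t u v g B := by
  have : ∀ i l, mom s u v (fun k => if k ∈ t then g k else 0) i l = mom t u v g i l := fun i l => by
    unfold mom
    rw [← Finset.sum_subset ht fun k _ hk => by simp [hk]]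
    exact Finset.sum_congr rfl fun k hk => by simp [hk]
  simp only [NB, this]
/-- reindexing along a bijection between finsets -/
theorem NB.reindex {t : Finset κ'} (e : κ → κ') {U V G : κ' → ℂ} (hmem : ∀ k ∈ s, e k ∈ t)
    (hinj : Set.InjOn e s) (hsurj : ∀ k' ∈ t, ∃ k ∈ s, e k = k') :
    NB t U V G B ↔ NB s (fun k => U (e k)) (fun k => V (e k)) (fun k => G (e k)) B := by
  have : ∀ i l, mom s (fun k => U (e k)) (fun k => V (e k)) (fun k => G (e k)) i l =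
      mom t U V G i l := fun i l =>
    Finset.sum_bij (fun k _ => e k) hmem (fun a ha b hb h => hinj ha hb h)
      (fun b hb => by obtain ⟨k, h1, h2⟩ := hsurj b hb; exact ⟨k, h1, h2⟩) fun _ _ => rfl
  simp only [NB, this]
theorem NB.conj (h : NB s u v g B) :
    NB s (fun k => (starRingEnd ℂ) (u k)) (fun k => (starRingEnd ℂ) (v k))
      (fun k => (starRingEnd ℂ) (g k)) B := fun i l => by
  have : mom s (fun k => (starRingEnd ℂ) (u k)) (fun k => (starRingEnd ℂ) (v k))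
      (fun k => (starRingEnd ℂ) (g k)) i l = (starRingEnd ℂ) (mom s u v g i l) := by
    simp [mom]
  rw [this, Complex.norm_conj]; exact h i l
/-- one variable: only the moments in `u` matter -/
theorem NB.of_one (h : ∀ i, ‖∑ k ∈ s, g k * u k ^ i‖ ≤ B) : NB s u (fun _ => 0) g B := fun i l => by
  rcases l with _ | l
  · simpa [mom] using h i
  · simpa [mom] using (norm_nonneg _).trans (h 0)
theorem NB.one (h : NB s u v g B) (i : ℕ) : ‖∑ k ∈ s, g k * u k ^ i‖ ≤ B := by simpa [mom] using h i 0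

theorem nb_Nm (hu : ∀ k ∈ s, ‖u k‖ ≤ 1) (hv : ∀ k ∈ s, ‖v k‖ ≤ 1) : NB s u v g (Nm s u v g) := fun i l => by
  refine le_ciSup (f := fun p : ℕ × ℕ => ‖mom s u v g p.1 p.2‖) ⟨∑ k ∈ s, ‖g k‖, ?_⟩ (i, l)
  rintro _ ⟨p, rfl⟩
  refine norm_sum_le_of_le _ fun k hk => ?_
  rw [norm_mul, norm_mul, norm_pow, norm_pow, mul_assoc]
  exact mul_le_of_le_one_right (norm_nonneg _) (mul_le_one₀
    (pow_le_one₀ (norm_nonneg _) (hu k hk)) (by positivity) (pow_le_one₀ (norm_nonneg _) (hv k hk)))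
theorem NB.Nm_le (h : NB s u v g B) : Nm s u v g ≤ B := ciSup_le fun p => h p.1 p.2
theorem Nm_nonneg : 0 ≤ Nm s u v g := Real.iSup_nonneg fun _ => norm_nonneg _

theorem Mu.apply (h : Mu s u v f K) (hg : NB s u v g B) : ‖∑ k ∈ s, f k * g k‖ ≤ K * B :=   (h g B hg).sum_le
theorem Mu.const (c : ℂ) : Mu s u v (fun _ => c) ‖c‖ := fun _ _ h => h.smul c
theorem Mu.one : Mu s u v (fun _ => 1) 1 := by simpa using Mu.const (s := s) (u := u) (v := v) 1
theorem Mu.fst : Mu s u v u 1 := fun g B h i l => by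
  have : mom s u v (fun k => u k * g k) i l = mom s u v g (i + 1) l :=
    Finset.sum_congr rfl fun k _ => by ring
  rw [this, one_mul]; exact h _ _
theorem Mu.snd : Mu s u v v 1 := fun g B h i l => by
  have : mom s u v (fun k => v k * g k) i l = mom s u v g i (l + 1) :=
    Finset.sum_congr rfl fun k _ => by ring
  rw [this, one_mul]; exact h _ _
theorem Mu.mono (h : Mu s u v f K) (hK : K ≤ K') : Mu s u v f K' := fun g B hg =>
  (h g B hg).mono (mul_le_mul_of_nonneg_right hK hg.nonneg)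
theorem Mu.congr (h : Mu s u v f K) (hf : ∀ k ∈ s, f k = f' k) : Mu s u v f' K := fun g B hg =>
  (h g B hg).congr (fun _ _ => rfl) (fun _ _ => rfl) fun k hk => by rw [hf k hk]
theorem Mu.add (h : Mu s u v f K) (h' : Mu s u v f' K') :
    Mu s u v (fun k => f k + f' k) (K + K') := fun g B hg => by
  simpa only [add_mul] using (h g B hg).add (h' g B hg)
theorem Mu.sub (h : Mu s u v f K) (h' : Mu s u v f' K') :
    Mu s u v (fun k => f k - f' k) (K + K') := fun g B hg => by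
  simpa only [add_mul, sub_mul] using (h g B hg).sub (h' g B hg)
theorem Mu.neg (h : Mu s u v f K) : Mu s u v (fun k => -f k) K := fun g B hg => by
  simpa using (h g B hg).smul (-1)
theorem Mu.mul (h : Mu s u v f K) (h' : Mu s u v f' K') :
    Mu s u v (fun k => f k * f' k) (K * K') := fun g B hg => by
  simpa only [mul_assoc] using h _ _ (h' g B hg)
theorem Mu.smul (h : Mu s u v f K) (c : ℂ) : Mu s u v (fun k => c * f k) (‖c‖ * K) :=   (Mu.const c).mul h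
theorem Mu.pow (h : Mu s u v f K) (n : ℕ) : Mu s u v (fun k => f k ^ n) (K ^ n) := by
  induction n with
  | zero => simpa using Mu.one
  | succ n ih => simpa only [pow_succ] using ih.mul h
theorem Mu.finsum {β : Type*} (t : Finset β) (F : β → κ → ℂ) (b : β → ℝ)
    (h : ∀ i ∈ t, Mu s u v (F i) (b i)) : Mu s u v (fun k => ∑ i ∈ t, F i k) (∑ i ∈ t, b i) := fun g B hg => by
  simpa only [Finset.sum_mul] using
    NB.finsum t (fun i k => F i k * g k) (fun i => b i * B) fun i hi => h i hi g B hg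
theorem Mu.finprod {β : Type*} (t : Finset β) (F : β → κ → ℂ) (b : β → ℝ)
    (h : ∀ i ∈ t, Mu s u v (F i) (b i)) : Mu s u v (fun k => ∏ i ∈ t, F i k) (∏ i ∈ t, b i) := by
  classical
  induction t using Finset.induction_on with
  | empty => simpa using Mu.one
  | insert a t ha ih =>
    simpa only [Finset.prod_insert ha] using (h a (Finset.mem_insert_self _ _)).mul
      (ih fun i hi => h i (Finset.mem_insert_of_mem hi))
theorem Mu.listprod {β : Type*} (l : List β) (F : β → κ → ℂ) (b : β → ℝ)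
    (h : ∀ i ∈ l, Mu s u v (F i) (b i)) :
    Mu s u v (fun k => (l.map (fun i => F i k)).prod) (l.map b).prod := by
  induction l with
  | nil => simpa using Mu.one
  | cons a l ih =>
    simpa only [List.map_cons, List.prod_cons] using (h a List.mem_cons_self).mul
      (ih fun i hi => h i (List.mem_cons_of_mem _ hi))
theorem Mu.tsum (F : ℕ → κ → ℂ) (b : ℕ → ℝ) {β : ℝ} (h : ∀ n, Mu s u v (F n) (b n))
    (hb : HasSum b β) (hF : ∀ k ∈ s, HasSum (fun n => F n k) (f k)) : Mu s u v f β := fun g B hg i l => by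
  have h1 : HasSum (fun n => mom s u v (fun k => F n k * g k) i l)
      (mom s u v (fun k => f k * g k) i l) :=
    hasSum_sum fun k hk => (((hF k hk).mul_right _).mul_right _).mul_right _
  exact h1.norm_le_of_bounded (hb.mul_right B) fun n => h n g B hg i l
/-- a multiplier on `s` is a multiplier on every subset -/
theorem Mu.subset {t : Finset κ} (h : Mu s u v f K) (ht : t ⊆ s) : Mu t u v f K := fun g B hg => by
  classical
  refine (NB.ite_iff ht).1 ((h _ B ((NB.ite_iff ht).2 hg)).congr (fun _ _ => rfl) (fun _ _ => rfl)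
    fun k _ => ?_)
  split_ifs <;> simp
/-- test with the indicator of one point -/
theorem Mu.pt (h : Mu s u v f K) (hu : ∀ k ∈ s, ‖u k‖ ≤ 1) (hv : ∀ k ∈ s, ‖v k‖ ≤ 1) :
    ∀ k ∈ s, ‖f k‖ ≤ K := fun k hk => by
  have h1 : NB {k} u v (fun _ => 1) 1 := fun i l => by
    simp only [mom, Finset.sum_singleton, one_mul, norm_mul, norm_pow]
    exact mul_le_one₀ (pow_le_one₀ (norm_nonneg _) (hu k hk)) (by positivity)
      (pow_le_one₀ (norm_nonneg _) (hv k hk))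
  simpa using (h.subset (Finset.singleton_subset_iff.2 hk)).apply h1
theorem Nrm_term (h : Mu s u v f q) (n : ℕ) :
    Mu s u v (fun k => f k ^ n / (n.factorial : ℂ)) (q ^ n / (n.factorial : ℝ)) := by
  simpa [div_eq_inv_mul] using (h.pow n).smul ((n.factorial : ℂ))⁻¹
theorem Nrm_hasSum_C (z : ℂ) : HasSum (fun n : ℕ => z ^ n / (n.factorial : ℂ)) (exp z) := by
  rw [Complex.exp_eq_exp_ℂ]; exact NormedSpace.expSeries_div_hasSum_exp z
theorem Nrm_hasSum_R (z : ℝ) : HasSum (fun n : ℕ => z ^ n / (n.factorial : ℝ)) (Real.exp z) := by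
  rw [Real.exp_eq_exp_ℝ]; exact NormedSpace.expSeries_div_hasSum_exp z
theorem Mu.exp (h : Mu s u v f q) (hq : 0 ≤ q) : Mu s u v (fun k => exp (f k)) (Real.exp q) :=   have _ := hq
  Mu.tsum _ _ (Nrm_term h) (Nrm_hasSum_R q) fun k _ => Nrm_hasSum_C (f k)
theorem Mu.exp_sub_one (h : Mu s u v f q) (hq : 0 ≤ q) :
    Mu s u v (fun k => Complex.exp (f k) - 1) (Real.exp q - 1) := by
  have _ := hq
  refine Mu.tsum _ _ (fun n => Nrm_term h (n + 1)) ?_ fun k _ => ?_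
  · simpa using (hasSum_nat_add_iff' 1).2 (Nrm_hasSum_R q)
  · simpa using (hasSum_nat_add_iff' 1).2 (Nrm_hasSum_C (f k))
theorem Mu.inv_sub (h : Mu s u v f q) (hu : ∀ k ∈ s, ‖u k‖ ≤ 1) (hv : ∀ k ∈ s, ‖v k‖ ≤ 1)
    (hq : 0 ≤ q) {c : ℂ} (hc : q < ‖c‖) : Mu s u v (fun k => (c - f k)⁻¹) (‖c‖ - q)⁻¹ := by
  have h0 : 0 < ‖c‖ := hq.trans_lt hc
  have h1 : c ≠ 0 := norm_pos_iff.1 h0
  refine Mu.tsum _ _ (fun n => ((h.smul c⁻¹).pow n).smul c⁻¹) ?_ fun k hk => ?_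
  · have h2 : ‖c⁻¹‖ * q < 1 := by rw [norm_inv, inv_mul_lt_iff₀ h0]; linarith only [hc]
    have e : (‖c‖ - q)⁻¹ = ‖c⁻¹‖ * (1 - ‖c⁻¹‖ * q)⁻¹ := by
      rw [norm_inv, ← mul_inv, mul_sub, mul_one, mul_inv_cancel_left₀ h0.ne']
    rw [e]
    exact (hasSum_geometric_of_lt_one (by positivity) h2).mul_left ‖c⁻¹‖
  · have h2 : ‖c⁻¹ * f k‖ < 1 := by
      rw [norm_mul, norm_inv, inv_mul_lt_iff₀ h0]; linarith [h.pt hu hv k hk]
    have e : (c - f k)⁻¹ = c⁻¹ * (1 - c⁻¹ * f k)⁻¹ := by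
      rw [← mul_inv, mul_sub, mul_one, mul_inv_cancel_left₀ h1]
    rw [e]
    exact (hasSum_geometric_of_norm_lt_one h2).mul_left c⁻¹
theorem Mu.inv_add (h : Mu s u v f q) (hu : ∀ k ∈ s, ‖u k‖ ≤ 1) (hv : ∀ k ∈ s, ‖v k‖ ≤ 1)
    (hq : 0 ≤ q) {c : ℂ} (hc : q < ‖c‖) : Mu s u v (fun k => (c + f k)⁻¹) (‖c‖ - q)⁻¹ := by
  simpa only [sub_neg_eq_add] using h.neg.inv_sub hu hv hq hc
/-- `(1+f)⁻¹ - 1 = -f (1+f)⁻¹` -/
theorem Mu.inv_one_add_sub (h : Mu s u v f q) (hu : ∀ k ∈ s, ‖u k‖ ≤ 1) (hv : ∀ k ∈ s, ‖v k‖ ≤ 1)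
    (hq : 0 ≤ q) (hq1 : q < 1) : Mu s u v (fun k => (1 + f k)⁻¹ - 1) (q / (1 - q)) := by
  have h1 := h.neg.mul (h.inv_add hu hv hq (c := 1) (by simpa using hq1))
  rw [norm_one, ← div_eq_mul_inv] at h1
  refine h1.congr fun k hk => ?_
  have h2 : 1 + f k ≠ 0 := fun e => by
    have h3 := h.pt hu hv k hk
    rw [eq_neg_of_add_eq_zero_right e, norm_neg, norm_one] at h3
    linarith
  field_simp
  ring
theorem Mu.log_one_add (h : Mu s u v f q) (hu : ∀ k ∈ s, ‖u k‖ ≤ 1) (hv : ∀ k ∈ s, ‖v k‖ ≤ 1)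
    (hq : 0 ≤ q) (hq1 : q < 1) : Mu s u v (fun k => log (1 + f k)) (q / (1 - q)) := by
  refine Mu.tsum (fun n k => (-1) ^ (n + 1 + 1) * f k ^ (n + 1) / ((n + 1 : ℕ) : ℂ))
    (fun n => q * q ^ n) (fun n => ?_) ?_ fun k hk => ?_
  · refine (((h.pow (n + 1)).smul ((-1) ^ (n + 1 + 1) / ((n + 1 : ℕ) : ℂ))).congr
      fun k _ => by ring).mono ?_
    rw [← pow_succ']
    refine mul_le_of_le_one_left (by positivity) ?_
    rw [norm_div, norm_pow, norm_neg, norm_one, one_pow, Complex.norm_natCast]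
    exact div_le_one_of_le₀ (by exact_mod_cast Nat.succ_le_succ (Nat.zero_le n)) (by positivity)
  · exact (hasSum_geometric_of_lt_one hq hq1).mul_left q
  · simpa using (hasSum_nat_add_iff' 1).2
      (Complex.hasSum_taylorSeries_log ((h.pt hu hv k hk).trans_lt hq1))

end Pool.Agent.Work.MP_97f157_lc.Tau
end
end

-- merged part: Pool.Agent.Work.MP_97f157_lc.TauKill
section
/-! Algebra of moment norms (part 2: reduction, recentering, indicators). -/

noncomputable section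
open Complex Finset

namespace Pool.Agent.Work.MP_97f157_lc.Tau

variable {κ : Type*} {s : Finset κ} {u v g : κ → ℂ} {B : ℝ}

/-- One variable. Induct on `s`: `z_i = y_{i+1} - u k0 * y_i` are the moments of `g * (u - u k0)`,
supported on `s.erase k0`; `|z_i| ≤ 3^(n-1) (3/2) B`, `|y_{i+1}| ≤ |z_i| + |y_i|/2`. -/
theorem reduce_one {n : ℕ} (hn : s.card ≤ n) (hu : ∀ k ∈ s, ‖u k‖ ≤ 1 / 2) (hB : 0 ≤ B)
    (h : ∀ i < n, ‖∑ k ∈ s, g k * u k ^ i‖ ≤ B) (i : ℕ) :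
    ‖∑ k ∈ s, g k * u k ^ i‖ ≤ 3 ^ n * B := by
  classical
  induction s using Finset.induction_on generalizing n g B i with
  | empty => simp only [sum_empty, norm_zero]; positivity
  | insert k0 s hk ih =>
    rw [card_insert_of_notMem hk] at hn
    obtain ⟨n, rfl⟩ : ∃ n', n = n' + 1 := ⟨n - 1, by omega⟩
    have h0 : ‖u k0‖ ≤ 1 / 2 := hu k0 (mem_insert_self _ _)
    have e : ∀ j, ∑ k ∈ s, g k * (u k - u k0) * u k ^ j =
        ∑ k ∈ insert k0 s, g k * u k ^ (j + 1) - u k0 * ∑ k ∈ insert k0 s, g k * u k ^ j := by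
      intro j
      rw [mul_sum, ← sum_sub_distrib, sum_insert hk,
        show g k0 * u k0 ^ (j + 1) - u k0 * (g k0 * u k0 ^ j) = 0 by ring, zero_add]
      exact sum_congr rfl fun k _ => by ring
    have hz := ih (n := n) (g := fun k => g k * (u k - u k0)) (B := 3 / 2 * B) (by omega)
      (fun k hk' => hu k (mem_insert_of_mem hk')) (by positivity) fun j hj => by
        rw [e]
        refine (norm_sub_le _ _).trans ?_
        rw [norm_mul]
        have h1 := h (j + 1) (by omega)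
        have h2 := mul_le_mul h0 (h j (by omega)) (norm_nonneg _) (by norm_num)
        linarith only [h1, h2]
    induction i with
    | zero =>
      refine (h 0 (by omega)).trans (le_mul_of_one_le_left hB (one_le_pow₀ (by norm_num)))
    | succ i ihi =>
      have h1 := hz i
      rw [e] at h1
      have h2 := norm_add_le (∑ k ∈ insert k0 s, g k * u k ^ (i + 1) -
        u k0 * ∑ k ∈ insert k0 s, g k * u k ^ i) (u k0 * ∑ k ∈ insert k0 s, g k * u k ^ i)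
      rw [sub_add_cancel, norm_mul] at h2
      have h3 := mul_le_mul h0 ihi (norm_nonneg _) (by norm_num)
      rw [pow_succ] at h3 ⊢
      linarith only [h1, h2, h3]

theorem reduce {n : ℕ} (hn : s.card ≤ n) (hu : ∀ k ∈ s, ‖u k‖ ≤ 1 / 2)
    (hv : ∀ k ∈ s, ‖v k‖ ≤ 1 / 2) (hB : 0 ≤ B)
    (h : ∀ i < n, ∀ l < n, ‖mom s u v g i l‖ ≤ B) : NB s u v g (9 ^ n * B) := by
  have e : ∀ i l, mom s u v g i l = ∑ k ∈ s, g k * v k ^ l * u k ^ i := fun i l =>
    sum_congr rfl fun k _ => by ring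
  have h1 : ∀ i, ∀ l < n, ‖mom s u v g i l‖ ≤ 3 ^ n * B := fun i l hl => by
    rw [e]
    exact reduce_one hn hu hB (fun j hj => e j l ▸ h j hj l hl) i
  intro i l
  have h2 := reduce_one (g := fun k => g k * u k ^ i) hn hv (by positivity) (h1 i) l
  rw [← mul_assoc, ← mul_pow] at h2
  norm_num at h2
  exact h2

/-- some low moment is large -/
theorem exists_low_moment {n : ℕ} (hn : s.card ≤ n) (hn0 : 0 < n) (hu : ∀ k ∈ s, ‖u k‖ ≤ 1 / 2) :
    ∃ i < n, Nm s u (fun _ => 0) g ≤ 3 ^ n * ‖∑ k ∈ s, g k * u k ^ i‖ := by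
  obtain ⟨i, hi, h⟩ := exists_max_image (range n) (fun i => ‖∑ k ∈ s, g k * u k ^ i‖)
    ⟨0, mem_range.2 hn0⟩
  exact ⟨i, mem_range.1 hi, (NB.of_one (reduce_one hn hu (norm_nonneg _)
    fun j hj => h j (mem_range.2 hj))).Nm_le⟩

theorem Kill_mom {u' v' : κ → ℂ} {K K' : ℝ} (h : NB s u v g B) (hu : Mu s u v u' K)
    (hv : Mu s u v v' K') (i l : ℕ) : ‖mom s u' v' g i l‖ ≤ K ^ i * K' ^ l * B := by
  have h1 := ((hu.pow i).mul (hv.pow l)).apply h
  rwa [show ∑ k ∈ s, u' k ^ i * v' k ^ l * g k = mom s u' v' g i l from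
    sum_congr rfl fun k _ => by ring] at h1

/-- lossless change of coordinates -/
theorem NB.recenter_le {u' v' : κ → ℂ} (h : NB s u v g B) (hu : Mu s u v u' 1) (hv : Mu s u v v' 1) :
    NB s u' v' g B := fun i l => by
  simpa using Kill_mom h hu hv i l

/-- change of coordinates with loss -/
theorem NB.recenter {u' v' : κ → ℂ} {n : ℕ} {K : ℝ} (h : NB s u v g B) (hn : s.card ≤ n)
    (hK : 1 ≤ K) (hu : Mu s u v u' K) (hv : Mu s u v v' K) (hu' : ∀ k ∈ s, ‖u' k‖ ≤ 1 / 2)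
    (hv' : ∀ k ∈ s, ‖v' k‖ ≤ 1 / 2) : NB s u' v' g (9 ^ n * K ^ (2 * n) * B) := by
  have hB := h.nonneg
  have hK0 : 0 ≤ K := by linarith only [hK]
  rw [mul_assoc]
  refine reduce hn hu' hv' (by positivity) fun i hi l hl => (Kill_mom h hu hv i l).trans ?_
  rw [← pow_add]
  exact mul_le_mul_of_nonneg_right (pow_le_pow_right₀ hK (by omega)) hB

/-- The indicator of `t` is `∏_{w ∈ s \ t} (1 - P_w / P_w w)`, `P_w = ∏_{k ∈ t} f_{k,w}`. -/
theorem Mu.indicator {t : Finset κ} [DecidablePred (· ∈ t)] {n : ℕ} {δ : ℝ} (ht : t ⊆ s)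
    (hn : s.card ≤ n) (hδ : 0 < δ) (hδ1 : δ ≤ 1)
    (h : ∀ k ∈ t, ∀ w ∈ s, w ∉ t → ∃ f : κ → ℂ, Mu s u v f 1 ∧ f k = 0 ∧ δ ≤ ‖f w‖) :
    Mu s u v (fun k => if k ∈ t then 1 else 0) ((2 / δ) ^ (n * n)) := by
  classical
  choose! f h1 h2 h3 using h
  have hd : 1 ≤ δ⁻¹ := one_le_inv₀ hδ |>.2 hδ1
  have hd2 : 1 ≤ 2 / δ := by rw [div_eq_mul_inv]; linarith only [hd]
  have htn : t.card ≤ n := (card_le_card ht).trans hn
  have hl : ∀ w ∈ s \ t, δ ^ n ≤ ‖∏ k ∈ t, f k w w‖ := fun w hw => by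
    obtain ⟨hw1, hw2⟩ := mem_sdiff.1 hw
    rw [norm_prod]
    refine (pow_le_pow_of_le_one hδ.le hδ1 htn).trans ?_
    rw [← prod_const]
    exact prod_le_prod (fun _ _ => hδ.le) fun k hk => h3 k hk w hw1 hw2
  have hP : ∀ w ∈ s \ t, Mu s u v
      (fun x => 1 - (∏ k ∈ t, f k w w)⁻¹ * ∏ k ∈ t, f k w x) ((2 / δ) ^ n) := fun w hw => by
    obtain ⟨hw1, hw2⟩ := mem_sdiff.1 hw
    refine (Mu.one.sub ((Mu.finprod t (fun k => f k w) (fun _ => 1)
      fun k hk => h1 k hk w hw1 hw2).smul _)).mono ?_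
    have h4 : 0 < n := (card_pos.2 ⟨w, hw1⟩).trans_le hn
    have h5 : ‖(∏ k ∈ t, f k w w)⁻¹‖ ≤ δ⁻¹ ^ n := by
      rw [norm_inv, inv_pow]
      exact inv_anti₀ (pow_pos hδ n) (hl w hw)
    have h6 : 1 ≤ δ⁻¹ ^ n := one_le_pow₀ hd
    have h7 : (2 : ℝ) ^ 1 ≤ 2 ^ n := pow_le_pow_right₀ (by norm_num) h4
    rw [prod_const_one, mul_one, div_eq_mul_inv, mul_pow]
    nlinarith only [h5, h6, h7]
  refine ((Mu.finprod (s \ t) _ _ hP).congr fun x hx => ?_).mono ?_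
  · split_ifs with hxt
    · refine prod_eq_one fun w hw => ?_
      rw [prod_eq_zero (f := fun k => f k w x) hxt
        (h2 x hxt w (mem_sdiff.1 hw).1 (mem_sdiff.1 hw).2), mul_zero, sub_zero]
    · have hx' := mem_sdiff.2 ⟨hx, hxt⟩
      refine prod_eq_zero hx' ?_
      rw [inv_mul_cancel₀ (norm_pos_iff.1 ((pow_pos hδ n).trans_le (hl x hx'))), sub_self]
  · rw [prod_const, ← pow_mul]
    exact pow_le_pow_right₀ hd2 (Nat.mul_le_mul_left n ((card_le_card sdiff_subset).trans hn))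

/-- restriction to a subset separated in the coordinate `u` (use `f = (u - u k)/2`) -/
theorem NB.restrict {t : Finset κ} {n : ℕ} {δ : ℝ} (h : NB s u v g B) (ht : t ⊆ s)
    (hn : s.card ≤ n) (hδ : 0 < δ) (hδ1 : δ ≤ 1) (hu : ∀ k ∈ s, ‖u k‖ ≤ 1)
    (hsep : ∀ k ∈ t, ∀ w ∈ s, w ∉ t → δ ≤ ‖u k - u w‖) :
    NB t u v g ((4 / δ) ^ (n * n) * B) := by
  classical
  have h1 := Mu.indicator (u := u) (v := v) (δ := δ / 2) ht hn (by positivity) (by linarith only [hδ1])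
    fun k hk w hw hw' => ⟨fun x => (1 / 2 : ℂ) * (u x - u k),
      ((Mu.fst.sub (Mu.const (u k))).smul _).mono (by
        have := hu k (ht hk)
        norm_num
        linarith only [this]), by simp, by
        have := hsep k hk w hw hw'
        rw [norm_mul, norm_sub_rev]
        norm_num
        linarith only [this]⟩
  rw [show 2 / (δ / 2) = 4 / δ by field_simp; norm_num] at h1
  exact (NB.ite_iff ht).1 ((h1 g B h).congr (fun _ _ => rfl) (fun _ _ => rfl)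
    fun k _ => by by_cases hk : k ∈ t <;> simp [hk])

theorem Kill_insert [DecidableEq κ] {k0 : κ} (hk : k0 ∉ s) (hg : g k0 = 0) :
    NB (insert k0 s) u v g B ↔ NB s u v g B := by
  simp only [NB, mom, sum_insert hk, hg, zero_mul, zero_add]

/-- On the nodes, `1/(w - x) = ∑_{i<n} ∏_{l<i} (x - x_l) / ∏_{l ≤ i} (w - x_l)` (Newton series;
induct on `s`: `1/(w-x) = 1/(w-x0) + (x-x0)/(w-x0) * 1/(w-x)`, and after the factor `x - x0`
the node `k0` has disappeared). -/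
theorem Mu.inv_lin {x : κ → ℂ} {w : ℂ} {n : ℕ} {δ K : ℝ} (hn : s.card ≤ n) (hδ : 0 < δ)
    (hK : δ ≤ K) (hx : ∀ k' ∈ s, Mu s u v (fun k => x k - x k') K)
    (hw : ∀ k ∈ s, δ ≤ ‖w - x k‖) :
    Mu s u v (fun k => (w - x k)⁻¹) (n * δ⁻¹ * (K / δ) ^ n) := by
  classical
  have hK0 : 0 < K := hδ.trans_le hK
  induction s using Finset.induction_on generalizing n with
  | empty =>
    intro g B h
    have := h.nonneg
    exact NB.zero (by positivity) (by simp)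
  | insert k0 s hk ih =>
    rw [card_insert_of_notMem hk] at hn
    obtain ⟨n, rfl⟩ : ∃ n', n = n' + 1 := ⟨n - 1, by omega⟩
    intro g B h
    have hB := h.nonneg
    have h0 := hw k0 (mem_insert_self _ _)
    have h1 : ‖(w - x k0)⁻¹‖ ≤ δ⁻¹ := by
      rw [norm_inv]
      exact inv_anti₀ hδ h0
    have h2 := (h.smul (w - x k0)⁻¹).mono (mul_le_mul_of_nonneg_right h1 hB)
    have h3 := (Kill_insert hk (by simp)).1 (hx k0 (mem_insert_self _ _) _ _ h2)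
    have h4 := (Kill_insert hk (by simp)).2 (ih (n := n) (by omega)
      (fun k' hk' => (hx k' (mem_insert_of_mem hk')).subset (subset_insert _ _))
      (fun k hk' => hw k (mem_insert_of_mem hk')) _ _ h3)
    refine ((h2.add h4).congr (fun _ _ => rfl) (fun _ _ => rfl) fun k hk' => ?_).mono ?_
    · have h5 : w - x k0 ≠ 0 := norm_pos_iff.1 (hδ.trans_le h0)
      have h6 : w - x k ≠ 0 := norm_pos_iff.1 (hδ.trans_le (hw k hk'))
      field_simp
      ring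
    · have h5 : 1 ≤ (K / δ) ^ (n + 1) := one_le_pow₀ ((one_le_div hδ).2 hK)
      have h6 : δ⁻¹ * B ≤ (K / δ) ^ (n + 1) * (δ⁻¹ * B) :=
        le_mul_of_one_le_left (by positivity) h5
      refine (add_le_add_left h6 _).trans (le_of_eq ?_)
      push_cast
      rw [pow_succ, div_eq_mul_inv]
      ring

/-- coordinates of a relative cluster -/
theorem RClus.rv_le {f : κ → ℂ} {rep : κ → κ} {e1 e0 : ℝ} (h : RClus s f rep e1 e0) (he : 0 < e1)
    (hf : ∀ k ∈ s, f k ≠ 0) : ∀ k ∈ s, ‖rv f rep e1 k‖ ≤ 1 / 4 := by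
  intro k hk
  have h1 := hf _ (h.mem k hk)
  have h2 := norm_pos_iff.2 h1
  have h3 := h.near k hk
  rw [rv, div_sub_one h1, norm_div, norm_div, Complex.norm_real, Real.norm_of_nonneg he.le,
    div_le_iff₀ he, div_le_iff₀ h2]
  linarith only [h3]

theorem rv_eq {f : κ → ℂ} {rep : κ → κ} {e1 : ℝ} (he : e1 ≠ 0) {k : κ} (hf : f (rep k) ≠ 0) :
    f k = f (rep k) * (1 + (e1 : ℂ) * rv f rep e1 k) := by
  have h : (e1 : ℂ) ≠ 0 := by exact_mod_cast he
  rw [rv]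
  field_simp
  ring

theorem mem_cls {rep : κ → κ} {r k : κ} : k ∈ cls s rep r ↔ k ∈ s ∧ rep k = r := by
  unfold cls
  simp only [mem_filter]

/-- a sum over a saturated subset splits into classes -/
theorem sum_cls {E : Type*} [AddCommMonoid E] {rep : κ → κ} (hmem : ∀ k ∈ s, rep k ∈ s)
    (hidem : ∀ k ∈ s, rep (rep k) = rep k) {t : Finset κ} (ht : t ⊆ s)
    (hsat : ∀ k ∈ s, k ∈ t ↔ rep k ∈ t) (F : κ → E) [DecidablePred fun r => rep r = r] :
    ∑ k ∈ t, F k = ∑ r ∈ t.filter (fun r => rep r = r), ∑ k ∈ cls s rep r, F k := by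
  classical
  rw [← sum_fiberwise_of_maps_to (g := rep) (t := t.filter fun r => rep r = r)
    fun k hk => mem_filter.2 ⟨(hsat k (ht hk)).1 hk, hidem k (ht hk)⟩]
  refine sum_congr rfl fun r hr => sum_congr ?_ fun _ _ => rfl
  ext k
  rw [mem_filter, mem_cls]
  exact ⟨fun h => ⟨ht h.1, h.2⟩, fun h => ⟨(hsat k h.1).2 (h.2 ▸ (mem_filter.1 hr).1), h.2⟩⟩

theorem Kill_fib {γ : Type*} [DecidableEq γ] (φ : κ → γ) (hB : 0 ≤ B)
    (h : ∀ k ∈ s, NB (s.filter fun k' => φ k' = φ k) u v g B) : NB s u v g (s.card * B) := by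
  intro i l
  rw [mom, ← sum_fiberwise_of_maps_to (g := φ) (t := s.image φ) fun k hk => mem_image_of_mem φ hk]
  refine (norm_sum_le_of_le _ (n := fun _ => B) fun y hy => ?_).trans ?_
  · obtain ⟨k, hk, rfl⟩ := mem_image.1 hy
    exact h k hk i l
  · rw [sum_const, nsmul_eq_mul]
    exact mul_le_mul_of_nonneg_right (by exact_mod_cast card_image_le) hB

theorem Kill_aff (x : κ → ℂ) (z x0 : ℂ) {l lam K : ℝ} (hl : 0 < l) (hlam : 0 < lam)
    (h : l + ‖z - x0‖ ≤ K * lam) :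
    Mu s (fun k => (x k - z) / (l : ℂ)) v (fun k => (x k - x0) / (lam : ℂ)) K := by
  have h1 : (l : ℂ) ≠ 0 := by exact_mod_cast hl.ne'
  have h2 : (lam : ℂ) ≠ 0 := by exact_mod_cast hlam.ne'
  refine (((Mu.fst.smul ((l : ℂ) / lam)).add (Mu.const ((z - x0) / lam))).congr
    fun k _ => ?_).mono ?_
  · field_simp
    ring
  · rw [norm_div, norm_div, Complex.norm_real, Complex.norm_real, Real.norm_of_nonneg hl.le,
      Real.norm_of_nonneg hlam.le, mul_one, ← add_div, div_le_iff₀ hlam]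
    exact h

/-- Generic unblocking step.  `P` carries nodes `x`, atoms `at'` and labels `lab`; `Y` is the
class of the label `y0`, `X` the union of the atoms meeting `Y`.  Write
`1_Y = ∑_{atoms meeting Y} 1_α - ∑_{y ≠ y0} 1_{X ∩ class y}`; atoms are recentered losslessly,
the pieces `X ∩ class y` cost `NB.restrict` and `NB.recenter` (with `K = 8`). -/
theorem ustep {γ : Type*} (P : Finset κ) (x c : κ → ℂ) (at' : κ → κ) (lab : κ → γ) (y0 : γ)
    [DecidableEq γ] (x0 : ℂ) (lam : ℝ) (hlam : 0 < lam) (n : ℕ) (δ B1 B2 : ℝ) (hδ : 0 < δ)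
    (hδ1 : δ ≤ 1) (hB1 : 0 ≤ B1) (hB2 : 0 ≤ B2)
    (hcard : ∀ y, (P.filter (fun ν => lab ν = y)).card ≤ n)
    (hX : ∀ ν ∈ P, ∀ ν1 ∈ P, lab ν1 = y0 → at' ν = at' ν1 → ‖x ν - x0‖ ≤ lam / 2)
    (hat : ∀ ν1 ∈ P, lab ν1 = y0 → ∃ (z : ℂ) (l : ℝ), 0 < l ∧ l + ‖z - x0‖ ≤ lam ∧
      NB (cls P at' (at' ν1)) (fun ν => (x ν - z) / (l : ℂ)) (fun _ => 0) c B1)
    (hlab : ∀ ν ∈ P, ∀ ν1 ∈ P, lab ν1 = y0 → at' ν = at' ν1 → lab ν ≠ y0 →
      ∃ (z : ℂ) (l : ℝ), 0 < l ∧ l + ‖z - x0‖ ≤ 8 * lam ∧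
        (∀ ν' ∈ P, lab ν' = lab ν → ‖x ν' - z‖ ≤ l) ∧
        (∀ ν' ∈ P, ∀ ν'' ∈ P, lab ν' = lab ν → lab ν'' = lab ν → at' ν' ≠ at' ν'' →
          δ * l ≤ ‖x ν' - x ν''‖) ∧
        NB (P.filter (fun ν' => lab ν' = lab ν)) (fun ν' => (x ν' - z) / (l : ℂ)) (fun _ => 0) c B2) :
    NB (P.filter (fun ν => lab ν = y0)) (fun ν => (x ν - x0) / (lam : ℂ)) (fun _ => 0) c
      (P.card * (B1 + 576 ^ n * (4 / δ) ^ (n * n) * B2)) := by
  classical
  set X := P.filter fun ν => ∃ ν1 ∈ P, lab ν1 = y0 ∧ at' ν = at' ν1 with hXd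
  have hmX : ∀ ν, ν ∈ X ↔ ν ∈ P ∧ ∃ ν1 ∈ P, lab ν1 = y0 ∧ at' ν = at' ν1 := fun ν => mem_filter
  have hYX : P.filter (fun ν => lab ν = y0) ⊆ X := fun ν hν =>
    (hmX ν).2 ⟨(mem_filter.1 hν).1, ν, (mem_filter.1 hν).1, (mem_filter.1 hν).2, rfl⟩
  have h1 : NB X (fun ν => (x ν - x0) / (lam : ℂ)) (fun _ => 0) c (X.card * B1) := by
    refine Kill_fib at' hB1 fun ν hν => ?_
    obtain ⟨-, ν1, k1, k2, k3⟩ := (hmX ν).1 hν
    obtain ⟨z, l, hl, hz, hN⟩ := hat ν1 k1 k2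
    have e : X.filter (fun k' => at' k' = at' ν) = cls P at' (at' ν1) := by
      ext k
      rw [mem_filter, mem_cls, hmX, k3]
      exact ⟨fun h => ⟨h.1.1, h.2⟩, fun h => ⟨⟨h.1, ν1, k1, k2, h.2⟩, h.2⟩⟩
    rw [e]
    exact hN.recenter_le (Kill_aff x z x0 hl hlam (by rwa [one_mul])) Mu.snd
  have hC : 0 ≤ 576 ^ n * (4 / δ) ^ (n * n) * B2 := by positivity
  have h2 : NB (X \ P.filter (fun ν => lab ν = y0)) (fun ν => (x ν - x0) / (lam : ℂ)) (fun _ => 0) c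
      ((X \ P.filter (fun ν => lab ν = y0)).card * (576 ^ n * (4 / δ) ^ (n * n) * B2)) := by
    refine Kill_fib lab hC fun ν hν => ?_
    obtain ⟨k0, k4⟩ := mem_sdiff.1 hν
    obtain ⟨k5, ν1, k1, k2, k3⟩ := (hmX ν).1 k0
    have k6 : lab ν ≠ y0 := fun k => k4 (mem_filter.2 ⟨k5, k⟩)
    obtain ⟨z, l, hl, hz, a1, a2, hN⟩ := hlab ν k5 ν1 k1 k2 k3 k6
    set t := (X \ P.filter (fun ν => lab ν = y0)).filter fun k' => lab k' = lab ν with htd
    have hmt : ∀ k, k ∈ t ↔ k ∈ X ∧ lab k = lab ν := fun k => by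
      simp only [htd, mem_filter (s := X \ _), mem_sdiff, mem_filter (s := P) (p := fun ν => lab ν = y0)]
      exact ⟨fun h => ⟨h.1.1, h.2⟩, fun h => ⟨⟨h.1, fun k' => k6 (h.2 ▸ k'.2)⟩, h.2⟩⟩
    have hts : t ⊆ P.filter (fun ν' => lab ν' = lab ν) := fun k hk =>
      mem_filter.2 ⟨((hmX k).1 ((hmt k).1 hk).1).1, ((hmt k).1 hk).2⟩
    have hnl : ‖(l : ℂ)‖ = l := by rw [Complex.norm_real, Real.norm_of_nonneg hl.le]
    have h3 := hN.restrict hts (hcard _) hδ hδ1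
      (fun k hk => by
        rw [norm_div, hnl, div_le_one hl]
        exact a1 k (mem_filter.1 hk).1 (mem_filter.1 hk).2)
      (fun k hk w hw hw' => by
        obtain ⟨b1, b2⟩ := (hmt k).1 hk
        obtain ⟨b3, ν2, b4, b5, b6⟩ := (hmX k).1 b1
        obtain ⟨b7, b8⟩ := mem_filter.1 hw
        rw [← sub_div, sub_sub_sub_cancel_right, norm_div, hnl, le_div_iff₀ hl]
        exact a2 k b3 w b7 b2 b8 fun e =>
          hw' ((hmt w).2 ⟨(hmX w).2 ⟨b7, ν2, b4, b5, e.symm.trans b6⟩, b8⟩))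
    have h4 := h3.recenter ((card_le_card hts).trans (hcard _)) (by norm_num : (1 : ℝ) ≤ 8)
      (Kill_aff x z x0 hl hlam hz) (Mu.snd.mono (by norm_num))
      (fun k hk => by
        obtain ⟨b3, ν2, b4, b5, b6⟩ := (hmX k).1 ((hmt k).1 hk).1
        have := hX k b3 ν2 b4 b5 b6
        rw [norm_div, Complex.norm_real, Real.norm_of_nonneg hlam.le, div_le_iff₀ hlam]
        linarith only [this])
      (fun k _ => by norm_num)
    refine h4.mono (le_of_eq ?_)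
    rw [pow_mul, ← mul_pow, mul_assoc]
    norm_num
  intro i l
  have e := sum_sdiff (f := fun k => c k * ((x k - x0) / (lam : ℂ)) ^ i * (0 : ℂ) ^ l) hYX
  have h3 := h1 i l
  have h4 := h2 i l
  have c1 : (X.card : ℝ) ≤ P.card := by exact_mod_cast card_filter_le _ _
  have c2 : ((X \ P.filter (fun ν => lab ν = y0)).card : ℝ) ≤ P.card :=
    le_trans (by exact_mod_cast card_le_card sdiff_subset) c1
  unfold mom at h3 h4 ⊢
  rw [eq_sub_of_add_eq' e]
  refine (norm_sub_le _ _).trans ?_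
  have c3 := mul_le_mul_of_nonneg_right c1 hB1
  have c4 := mul_le_mul_of_nonneg_right c2 hC
  linarith only [h3, h4, c3, c4]

end Pool.Agent.Work.MP_97f157_lc.Tau
end
end

-- merged part: Pool.Agent.Work.MP_97f157_lc.TauLip
section
/-! The lattice chains `tw`: pole expansion, chain property, Lipschitz formula. -/

noncomputable section
open Complex Finset Metric

namespace Pool.Agent.Work.MP_97f157_lc.Tau

variable {ι : Type*}

theorem sp_pos {a : ℝ} (ha : 0 < a) : 0 < sp a := div_pos Real.two_pi_pos ha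

theorem lip_hs {β : Type*} {f g : β → ℂ} {x y : ℂ} (h : HasSum f x) (h1 : ∀ n, g n = f n)
    (h2 : y = x) : HasSum g y := by
  rw [funext h1, h2]
  exact h

/-- the poles above the real axis -/
def lipP (a : ℝ) (l : ℕ) : ℂ := I * ((((l : ℝ) + 1) * sp a : ℝ) : ℂ)

/-- the symmetric terms -/
def lipT (a : ℝ) (j l : ℕ) (w : ℂ) : ℂ := pc (lipP a l) j w + pc (-lipP a l) j w

theorem lip_tw0 (a : ℝ) (j : ℕ) (w : ℂ) :
    tw0 a j w = (∑' l : ℕ, lipT a j l w) - (if j = 0 then ((a / 2 : ℝ) : ℂ) else 0) := rfl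

theorem lip_norm_P {a : ℝ} (ha : 0 < a) (l : ℕ) : ‖lipP a l‖ = ((l : ℝ) + 1) * sp a := by
  have := sp_pos ha
  rw [lipP, norm_mul, norm_I, one_mul, Complex.norm_real, Real.norm_of_nonneg (by positivity)]

theorem lip_inv_le {p w : ℂ} {r : ℝ} (hr : 0 < r) (hp : ‖p‖ = r) (hw : 2 * ‖w‖ ≤ r) :
    w - p ≠ 0 ∧ ‖(w - p)⁻¹‖ ≤ 2 / r := by
  have h1 : r / 2 ≤ ‖w - p‖ := by
    have := norm_sub_norm_le p w
    rw [norm_sub_rev] at this
    linarith only [hp, hw, this]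
  have h2 : 0 < ‖w - p‖ := lt_of_lt_of_le (half_pos hr) h1
  refine ⟨norm_pos_iff.1 h2, ?_⟩
  rw [norm_inv, inv_eq_one_div, div_le_div_iff₀ h2 hr]
  linarith

theorem lip_pc_le {p w : ℂ} {r : ℝ} (hr : 0 < r) (hp : ‖p‖ = r) (hw : 2 * ‖w‖ ≤ r) (j : ℕ) :
    ‖pc p j w‖ ≤ (2 / r) ^ (j + 1) := by
  rw [pc, norm_pow]
  exact pow_le_pow_left₀ (norm_nonneg _) (lip_inv_le hr hp hw).2 _

theorem lip_summ_bound (s : ℝ) {k : ℕ} (hk : 1 < k) (N : ℕ) :
    Summable fun l : ℕ => (2 / ((((l + N : ℕ) : ℝ) + 1) * s)) ^ k := by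
  have h1 : Summable fun l : ℕ => 1 / ((l + (N + 1) : ℕ) : ℝ) ^ k :=
    (summable_nat_add_iff (f := fun n : ℕ => 1 / (n : ℝ) ^ k) (N + 1)).2
      (Real.summable_one_div_nat_pow.2 hk)
  refine (h1.mul_left ((2 / s) ^ k)).congr fun l => ?_
  push_cast
  rw [← add_assoc, one_div, ← inv_pow, ← mul_pow]
  congr 1
  rw [div_eq_mul_inv, div_eq_mul_inv, mul_inv]
  ring

theorem lip_exists_N {s : ℝ} (hs : 0 < s) (R : ℝ) :
    ∃ N : ℕ, ∀ l : ℕ, N ≤ l → 2 * R ≤ ((l : ℝ) + 1) * s := by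
  obtain ⟨N, hN⟩ := exists_nat_ge (2 * R / s)
  refine ⟨N, fun l hl => ?_⟩
  rw [div_le_iff₀ hs] at hN
  have : (N : ℝ) ≤ l := by exact_mod_cast hl
  linarith only [hs, hN, this, mul_nonneg_of_nonpos_of_nonpos (le_of_lt (Mathlib.Tactic.Linarith.sub_neg_of_lt hs)) (Mathlib.Tactic.Linarith.sub_nonpos_of_le this)]

theorem lip_summ_pc {a : ℝ} (ha : 0 < a) {p : ℕ → ℂ} (hp : ∀ l, ‖p l‖ = ((l : ℝ) + 1) * sp a)
    {j : ℕ} (hj : 1 ≤ j) (w : ℂ) : Summable fun l => pc (p l) j w := by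
  have hs := sp_pos ha
  obtain ⟨N, hN⟩ := lip_exists_N hs ‖w‖
  refine Summable.of_norm_bounded_eventually_nat
    (lip_summ_bound (sp a) (k := j + 1) (by omega) 0) ?_
  filter_upwards [Filter.eventually_ge_atTop N] with l hl
  exact lip_pc_le (by positivity) (hp l) (hN l hl) j

theorem lip_summ_T {a : ℝ} (ha : 0 < a) (j : ℕ) (w : ℂ) : Summable fun l => lipT a j l w := by
  rcases Nat.eq_zero_or_pos j with rfl | hj
  · have hs := sp_pos ha
    obtain ⟨N, hN⟩ := lip_exists_N hs ‖w‖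
    refine Summable.of_norm_bounded_eventually_nat
      ((lip_summ_bound (sp a) (k := 2) (by omega) 0).mul_left (2 * ‖w‖)) ?_
    filter_upwards [Filter.eventually_ge_atTop N] with l hl
    have hr : 0 < ((l : ℝ) + 1) * sp a := by positivity
    obtain ⟨a1, a2⟩ := lip_inv_le hr (lip_norm_P ha l) (hN l hl)
    obtain ⟨b1, b2⟩ := lip_inv_le hr ((norm_neg _).trans (lip_norm_P ha l)) (hN l hl)
    have e : lipT a 0 l w = 2 * w * ((w - lipP a l)⁻¹ * (w - -lipP a l)⁻¹) := by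
      simp only [lipT, pc, zero_add, pow_one]
      field_simp
      ring
    rw [e, norm_mul, norm_mul, norm_mul, Complex.norm_ofNat, add_zero, sq]
    exact mul_le_mul_of_nonneg_left (mul_le_mul a2 b2 (norm_nonneg _) (by positivity))
      (by positivity)
  · exact (lip_summ_pc ha (lip_norm_P ha) hj w).add
      (lip_summ_pc ha (fun l => (norm_neg _).trans (lip_norm_P ha l)) hj w)

theorem lip_deriv_T {a : ℝ} {j l : ℕ} {w : ℂ} (h1 : w ≠ lipP a l) (h2 : w ≠ -lipP a l) :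
    HasDerivAt (lipT a j l) (-((j : ℂ) + 1) * lipT a (j + 1) l w) w := by
  have := (chain_pc _ j w h1).fun_add (chain_pc _ j w h2)
  rw [← mul_add] at this
  exact this

theorem lip_chain_sum {a : ℝ} (ha : 0 < a) :
    Chain (fun j w => ∑' l, lipT a j l w) {w | ∀ l : ℕ, w ≠ lipP a l ∧ w ≠ -lipP a l} := by
  intro j z hz
  have hs := sp_pos ha
  obtain ⟨N, hN⟩ := lip_exists_N hs (‖z‖ + 1)
  have e : ∀ j, (fun w => ∑' l, lipT a j l w) =
      fun w => ∑ l ∈ range N, lipT a j l w + ∑' l, lipT a j (l + N) w := fun j =>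
    funext fun w => ((lip_summ_T ha j w).sum_add_tsum_nat_add N).symm
  have hb : ∀ l : ℕ, ∀ y ∈ ball (0 : ℂ) (‖z‖ + 1), 2 * ‖y‖ ≤ (((l + N : ℕ) : ℝ) + 1) * sp a := by
    intro l y hy
    have := hN (l + N) (by omega)
    rw [mem_ball_zero_iff] at hy
    linarith only [hy, this]
  have h1 : HasDerivAt (fun w => ∑ l ∈ range N, lipT a j l w)
      (∑ l ∈ range N, -((j : ℂ) + 1) * lipT a (j + 1) l z) z :=
    HasDerivAt.fun_sum fun l _ => lip_deriv_T (hz l).1 (hz l).2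
  have hz' : z ∈ ball (0 : ℂ) (‖z‖ + 1) := by simp
  have h2 : HasDerivAt (fun w => ∑' l, lipT a j (l + N) w)
      (∑' l, -((j : ℂ) + 1) * lipT a (j + 1) (l + N) z) z := by
    refine hasDerivAt_tsum_of_isPreconnected
      (g := fun l w => lipT a j (l + N) w)
      (g' := fun l w => -((j : ℂ) + 1) * lipT a (j + 1) (l + N) w)
      ((lip_summ_bound (sp a) (k := j + 1 + 1) (by omega) N).mul_left (‖-((j : ℂ) + 1)‖ * 2))
      isOpen_ball (convex_ball _ _).isPreconnected (fun l y hy => ?_) (fun l y hy => ?_) hz'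
      ((summable_nat_add_iff (f := fun l => lipT a j l z) N).2 (lip_summ_T ha j z)) hz'
    · have hr : 0 < (((l + N : ℕ) : ℝ) + 1) * sp a := by positivity
      exact lip_deriv_T (sub_ne_zero.1 (lip_inv_le hr (lip_norm_P ha _) (hb l y hy)).1)
        (sub_ne_zero.1 (lip_inv_le hr ((norm_neg _).trans (lip_norm_P ha _)) (hb l y hy)).1)
    · have hr : 0 < (((l + N : ℕ) : ℝ) + 1) * sp a := by positivity
      have a1 := lip_pc_le hr (lip_norm_P ha _) (hb l y hy) (j + 1)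
      have a2 := lip_pc_le hr ((norm_neg _).trans (lip_norm_P ha _)) (hb l y hy) (j + 1)
      rw [norm_mul, mul_assoc]
      refine mul_le_mul_of_nonneg_left ((norm_add_le _ _).trans ?_) (norm_nonneg _)
      linarith only [a1, a2]
  have h3 := h1.fun_add h2
  rw [← Finset.mul_sum, tsum_mul_left, ← mul_add,
    (lip_summ_T ha (j + 1) z).sum_add_tsum_nat_add N, ← e j] at h3
  exact h3

theorem lip_P_pos (a : ℝ) (l : ℕ) :
    I * (((((l : ℤ) + 1 : ℤ) : ℝ) * sp a : ℝ) : ℂ) = lipP a l := by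
  rw [lipP]
  push_cast
  ring

theorem lip_P_neg (a : ℝ) (l : ℕ) :
    I * ((((-((l : ℤ) + 1) : ℤ) : ℝ) * sp a : ℝ) : ℂ) = -lipP a l := by
  rw [lipP]
  push_cast
  ring

/-- termwise differentiation (locally uniform convergence, terms `O(1/l²)`) -/
theorem chain_tw (fl : Bool) {a : ℝ} (ha : 0 < a) :
    Chain (tw fl a) {w | ∀ l : ℤ, ¬ (fl = true ∧ l = 0) → w ≠ I * (((l : ℝ) * sp a : ℝ) : ℂ)} := by
  intro j z hz
  have h1 := lip_chain_sum ha j z fun l =>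
    ⟨lip_P_pos a l ▸ hz ((l : ℤ) + 1) (fun h => by omega),
      lip_P_neg a l ▸ hz (-((l : ℤ) + 1)) (fun h => by omega)⟩
  have h2 : HasDerivAt (tw0 a j) (-((j : ℂ) + 1) * tw0 a (j + 1) z) z := by
    have := h1.sub_const (if j = 0 then ((a / 2 : ℝ) : ℂ) else 0)
    rw [lip_tw0, if_neg (Nat.succ_ne_zero j), sub_zero]
    exact this
  cases fl with
  | true =>
    have e : ∀ j, tw true a j = tw0 a j := fun j => funext fun w => by simp [tw]
    rw [e, e]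
    exact h2
  | false =>
    have h0 : z ≠ 0 := by simpa using hz 0 (by simp)
    have := h2.fun_add (chain_pc 0 j z h0)
    rw [← mul_add] at this
    exact this

theorem hasSum_tw (fl : Bool) {a : ℝ} (ha : 0 < a) {j : ℕ} (hj : 1 ≤ j) (w : ℂ) :
    HasSum (fun l : ℤ => if fl = true ∧ l = 0 then 0 else pc (I * (((l : ℝ) * sp a : ℝ) : ℂ)) j w)
      (tw fl a j w) := by
  have s1 := (lip_summ_pc ha (lip_norm_P ha) hj w)
  have s2 := lip_summ_pc ha (fun l => (norm_neg _).trans (lip_norm_P ha l)) hj w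
  have := HasSum.of_add_one_of_neg_add_one
    (f := fun l : ℤ => if fl = true ∧ l = 0 then 0 else pc (I * (((l : ℝ) * sp a : ℝ) : ℂ)) j w)
    (m := ∑' l, pc (lipP a l) j w) (m' := ∑' l, pc (-lipP a l) j w) ?_ ?_
  · refine lip_hs this (fun _ => rfl) ?_
    rw [tw, lip_tw0, if_neg (by omega), sub_zero]
    simp only [lipT]
    rw [s1.tsum_add s2]
    cases fl <;> simp
    ring
  · refine lip_hs s1.hasSum (fun l => ?_) rfl
    rw [if_neg (fun h => by omega), lip_P_pos]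
  · refine lip_hs s2.hasSum (fun l => ?_) rfl
    rw [if_neg (fun h => by omega), lip_P_neg]

theorem lip_exp_ne {a : ℝ} (ha : 0 < a) {w : ℂ}
    (hw : ∀ l : ℤ, w ≠ I * (((l : ℝ) * sp a : ℝ) : ℂ)) : exp (a * w) - 1 ≠ 0 := by
  intro h
  obtain ⟨n, hn⟩ := Complex.exp_eq_one_iff.1 (sub_eq_zero.1 h)
  have ha' : (a : ℂ) ≠ 0 := by exact_mod_cast ha.ne'
  refine hw n (mul_left_cancel₀ ha' ?_)
  rw [hn, sp]
  push_cast
  field_simp

/-- from `Complex.cot_series_rep` -/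
theorem tw_zero {a : ℝ} (ha : 0 < a) {w : ℂ} (hw : ∀ l : ℤ, w ≠ I * (((l : ℝ) * sp a : ℝ) : ℂ)) :
    tw false a 0 w = (a : ℂ) / (exp (a * w) - 1) := by
  have ha' : (a : ℂ) ≠ 0 := by exact_mod_cast ha.ne'
  have hs : ((sp a : ℝ) : ℂ) ≠ 0 := by exact_mod_cast (sp_pos ha).ne'
  have hpi : (Real.pi : ℂ) ≠ 0 := by exact_mod_cast Real.pi_ne_zero
  have hc : I * ((sp a : ℝ) : ℂ) ≠ 0 := mul_ne_zero I_ne_zero hs
  set c : ℂ := I * ((sp a : ℝ) : ℂ) with hcdef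
  obtain ⟨x, rfl⟩ : ∃ x, w = c * x := ⟨w / c, by field_simp⟩
  have hx : x ∈ Complex.integerComplement := by
    rintro ⟨n, rfl⟩
    refine hw n ?_
    rw [hcdef]
    push_cast
    ring
  have h1 := cot_series_rep' hx
  have h2 : ∀ l : ℕ, lipT a 0 l (c * x) = c⁻¹ * (1 / (x - (l + 1)) + 1 / (x + (l + 1))) := by
    intro l
    have : lipP a l = c * (l + 1) := by
      rw [lipP, hcdef]
      push_cast
      ring
    simp only [lipT, pc, zero_add, pow_one, this, sub_neg_eq_add, ← mul_sub, ← mul_add, mul_inv,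
      one_div]
  have h3 := lip_exp_ne ha hw
  have h4 : 2 * I * (Real.pi * x) = a * (c * x) := by
    rw [hcdef, sp]
    push_cast
    field_simp
  have h5 : c⁻¹ * Real.pi = -I * a / 2 := by
    rw [hcdef, sp, mul_inv, inv_I]
    push_cast
    field_simp
  rw [tw, lip_tw0, if_pos rfl, tsum_congr h2, tsum_mul_left, ← h1, cot_eq_exp_ratio, h4]
  simp only [Bool.false_eq_true, if_false, pc, zero_add, pow_one, sub_zero, mul_inv]
  rw [mul_sub, ← mul_assoc, h5, one_div]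
  set e := exp (a * (c * x))
  have h6 : 1 - e ≠ 0 := fun h => h3 (by linear_combination -h)
  push_cast
  field_simp
  ring

theorem tw_true (a : ℝ) (j : ℕ) (w : ℂ) : tw false a j w = tw true a j w + pc 0 j w := by
  simp [tw]

theorem lip_pc_neg (p : ℂ) (j : ℕ) (w : ℂ) : pc p j (-w) = (-1) ^ (j + 1) * pc (-p) j w := by
  rw [pc, pc, ← mul_pow, show -w - p = -(w - -p) by ring, inv_neg, neg_one_mul]

theorem lip_tw_neg (fl : Bool) (a : ℝ) (j : ℕ) (w : ℂ) :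
    tw fl a j (-w) = (-1) ^ (j + 1) * (tw fl a j w + (if j = 0 then (a : ℂ) else 0)) := by
  have h1 : ∀ l, lipT a j l (-w) = (-1) ^ (j + 1) * lipT a j l w := fun l => by
    rw [lipT, lipT, lip_pc_neg, lip_pc_neg, neg_neg]
    ring
  rw [tw, tw, lip_tw0, lip_tw0, tsum_congr h1, tsum_mul_left, lip_pc_neg, neg_zero]
  rcases Nat.eq_zero_or_pos j with rfl | hj
  · cases fl <;> simp <;> ring
  · rw [if_neg hj.ne', if_neg hj.ne']
    cases fl <;> simp
    ring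

theorem tw_neg (fl : Bool) (a : ℝ) {j : ℕ} (hj : 1 ≤ j) (w : ℂ) :
    tw fl a j (-w) = (-1) ^ (j + 1) * tw fl a j w := by
  rw [lip_tw_neg, if_neg (by omega), add_zero]

theorem lip_pc_conj (p : ℂ) (j : ℕ) (w : ℂ) :
    (starRingEnd ℂ) (pc p j w) = pc ((starRingEnd ℂ) p) j ((starRingEnd ℂ) w) := by
  simp [pc]

theorem tw_conj (fl : Bool) (a : ℝ) (j : ℕ) (w : ℂ) :
    tw fl a j ((starRingEnd ℂ) w) = (starRingEnd ℂ) (tw fl a j w) := by
  have h0 : ∀ l, (starRingEnd ℂ) (lipP a l) = -lipP a l := fun l => by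
    rw [lipP, map_mul, conj_I, conj_ofReal, neg_mul]
  have h1 : ∀ l, (starRingEnd ℂ) (lipT a j l w) = lipT a j l ((starRingEnd ℂ) w) := fun l => by
    rw [lipT, lipT, map_add, lip_pc_conj, lip_pc_conj, map_neg, h0, neg_neg, add_comm]
  rw [tw, tw, lip_tw0, lip_tw0, map_add, map_sub, conj_tsum, tsum_congr h1]
  congr 1
  · congr 1
    split_ifs
    · rw [conj_ofReal]
    · rw [map_zero]
  · split_ifs
    · rw [map_zero]
    · rw [lip_pc_conj, map_zero]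

theorem lip_chain_unique {F G : ℕ → ℂ → ℂ} {U : Set ℂ} (hU : IsOpen U) (hF : Chain F U)
    (hG : Chain G U) (h0 : ∀ z ∈ U, F 0 z = G 0 z) (j : ℕ) : ∀ z ∈ U, F j z = G j z := by
  induction j with
  | zero => exact h0
  | succ j ih =>
    intro z hz
    have h1 : G j =ᶠ[nhds z] F j := by
      filter_upwards [hU.mem_nhds hz] with y hy using (ih y hy).symm
    have h2 := ((hF j z hz).congr_of_eventuallyEq h1).unique (hG j z hz)
    have h3 : -((j : ℂ) + 1) ≠ 0 := neg_ne_zero.2 (by exact_mod_cast Nat.succ_ne_zero j)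
    exact mul_left_cancel₀ h3 h2

theorem lip_summ_geo {a δ : ℝ} (ha : 0 < a) (hδ : 0 < δ) (j : ℕ) :
    Summable fun n : ℕ => (((n : ℝ) + 1) * a) ^ j * Real.exp (-(((n : ℝ) + 1) * a) * δ) := by
  have h1 : ‖Real.exp (-(a * δ))‖ < 1 := by
    rw [Real.norm_of_nonneg (Real.exp_pos _).le, Real.exp_lt_one_iff]
    have := mul_pos ha hδ
    linarith
  have h3 : Summable fun n : ℕ => (n : ℝ) ^ j * Real.exp (-(a * δ)) ^ n :=
    summable_pow_mul_geometric_of_norm_lt_one j h1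
  have h2 : Summable fun n : ℕ => ((n + 1 : ℕ) : ℝ) ^ j * Real.exp (-(a * δ)) ^ (n + 1) :=
    (summable_nat_add_iff (f := fun n : ℕ => (n : ℝ) ^ j * Real.exp (-(a * δ)) ^ n) 1).2 h3
  have h4 : Summable fun n : ℕ =>
      a ^ j * (((n + 1 : ℕ) : ℝ) ^ j * Real.exp (-(a * δ)) ^ (n + 1)) := h2.mul_left _
  refine h4.congr fun n => ?_
  rw [← Real.exp_nat_mul, mul_pow]
  push_cast
  rw [show ((n : ℝ) + 1) * -(a * δ) = -((n + 1) * a) * δ by ring]
  ring

theorem lip_norm_ec {μ δ : ℝ} (hμ : 0 ≤ μ) (j : ℕ) {w : ℂ} (hw : δ ≤ w.re) :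
    ‖ec (-μ) j w‖ ≤ μ ^ j * Real.exp (-μ * δ) := by
  rw [ec, norm_div, norm_mul, norm_pow, norm_neg, Complex.norm_real, norm_neg,
    Real.norm_of_nonneg hμ, Complex.norm_exp, re_ofReal_mul, Complex.norm_natCast]
  have h1 : (1 : ℝ) ≤ j.factorial := by exact_mod_cast j.factorial_pos
  refine (div_le_self (by positivity) h1).trans ?_
  refine mul_le_mul_of_nonneg_left (Real.exp_le_exp.2 ?_) (by positivity)
  linarith only [hμ, hw, mul_nonneg_of_nonpos_of_nonpos (Mathlib.Tactic.Linarith.sub_nonpos_of_le hμ) (Mathlib.Tactic.Linarith.sub_nonpos_of_le hw)]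

theorem lip_summ_ec {a : ℝ} (ha : 0 < a) (j : ℕ) {w : ℂ} (hw : 0 < w.re) :
    Summable fun n : ℕ => ec (-(((n : ℝ) + 1) * a)) j w :=
  Summable.of_norm_bounded (lip_summ_geo ha hw j) fun n =>
    lip_norm_ec (by positivity) j le_rfl

theorem lip_chain_ec {a : ℝ} (ha : 0 < a) :
    Chain (fun j w => ∑' n : ℕ, ec (-(((n : ℝ) + 1) * a)) j w) {w | 0 < w.re} := by
  intro j z hz
  have hz0 : 0 < z.re := hz
  have hz' : z ∈ {w : ℂ | z.re / 2 < w.re} := half_lt_self hz0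
  have := hasDerivAt_tsum_of_isPreconnected
    (g := fun (n : ℕ) w => ec (-(((n : ℝ) + 1) * a)) j w)
    (g' := fun (n : ℕ) w => -((j : ℂ) + 1) * ec (-(((n : ℝ) + 1) * a)) (j + 1) w)
    ((lip_summ_geo ha (half_pos hz0) (j + 1)).mul_left ‖-((j : ℂ) + 1)‖)
    (isOpen_lt continuous_const continuous_re) (convex_halfSpace_re_gt _).isPreconnected
    (fun n y _ => chain_ec _ j y (Set.mem_univ _))
    (fun n y hy => by
      rw [norm_mul]
      exact mul_le_mul_of_nonneg_left (lip_norm_ec (by positivity) _ (le_of_lt hy))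
        (norm_nonneg _)) hz' (lip_summ_ec ha j hz0) hz'
  rw [tsum_mul_left] at this
  exact this

theorem lip_ne_of_re {a : ℝ} {w : ℂ} (hw : w.re ≠ 0) (l : ℤ) :
    w ≠ I * (((l : ℝ) * sp a : ℝ) : ℂ) := by
  rintro rfl
  exact hw (by rw [mul_comm, re_ofReal_mul, I_re, mul_zero])

/-- Lipschitz formula to the right of the wall: geometric series for `j = 0`, then induction on
`j` (both sides are chains on the open half plane). -/
theorem hasSum_tw_right {a : ℝ} (ha : 0 < a) (j : ℕ) {w : ℂ} (hw : 0 < w.re) :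
    HasSum (fun n : ℕ => (a : ℂ) * ec (-(((n : ℝ) + 1) * a)) j w) (tw false a j w) := by
  have h1 := lip_chain_unique (isOpen_lt continuous_const continuous_re)
    ((lip_chain_ec ha).smul a)
    ((chain_tw false ha).mono fun z hz l _ => lip_ne_of_re (ne_of_gt hz) l) ?_ j w hw
  · rw [← h1]
    exact (lip_summ_ec ha j hw).hasSum.mul_left _
  · intro z hz
    have hz0 : 0 < z.re := hz
    have h2 : ‖exp (-(a * z))‖ < 1 := by
      rw [Complex.norm_exp, Real.exp_lt_one_iff, neg_re, re_ofReal_mul]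
      have := mul_pos ha hz0
      linarith
    have h3 : ∀ n : ℕ, ec (-(((n : ℝ) + 1) * a)) 0 z = exp (-(a * z)) * exp (-(a * z)) ^ n := by
      intro n
      rw [← pow_succ', ← Complex.exp_nat_mul, ec]
      push_cast
      simp only [pow_zero, Nat.factorial_zero, Nat.cast_one, div_one, one_mul]
      congr 1
      ring
    have h4 := lip_exp_ne ha (lip_ne_of_re (a := a) hz0.ne')
    rw [tw_zero ha (lip_ne_of_re hz0.ne'), tsum_congr h3, tsum_mul_left,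
      tsum_geometric_of_norm_lt_one h2, Complex.exp_neg]
    have h5 := Complex.exp_ne_zero (a * z)
    field_simp

theorem lip_ec_neg (μ : ℝ) (j : ℕ) (w : ℂ) : ec (-μ) j (-w) = (-1) ^ j * ec μ j w := by
  simp only [ec, ofReal_neg, neg_neg, neg_mul_neg]
  rw [neg_pow (μ : ℂ), ← mul_div_assoc, ← mul_assoc, ← mul_assoc, ← mul_pow]
  simp

theorem lip_ec_sub (μ x : ℝ) (j : ℕ) (z : ℂ) :
    ec μ j (z - x) = (Real.exp (-(μ * x)) : ℂ) * ec μ j z := by
  rw [ec, ec, mul_sub, sub_eq_add_neg, Complex.exp_add]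
  push_cast
  ring

theorem hasSum_tw_left {a : ℝ} (ha : 0 < a) (j : ℕ) {w : ℂ} (hw : w.re < 0) :
    HasSum (fun n : ℕ => -(a : ℂ) * ec (((n : ℝ) + 1) * a) j w)
      (tw false a j w + (if j = 0 then (a : ℂ) else 0)) := by
  have h1 := (hasSum_tw_right ha j (w := -w) (by simpa using hw)).mul_left ((-1) ^ (j + 1))
  have h2 : ((-1 : ℂ)) ^ j * (-1) ^ j = 1 := by rw [← mul_pow]; simp
  rw [lip_tw_neg, ← mul_assoc, ← mul_pow, neg_mul_neg, one_mul, one_pow, one_mul] at h1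
  refine lip_hs h1 (fun n => ?_) rfl
  rw [lip_ec_neg]
  linear_combination ((a : ℂ) * ec (((n : ℝ) + 1) * a) j w) * h2

namespace Dat
variable (D : Dat ι)

theorem chain_lat (S : Finset ι) (ha : ∀ k ∈ S, 0 < D.a k) {R : ℝ}
    (hR : ∀ k ∈ S, ∀ l : ℤ, ¬ (D.fl k = true ∧ l = 0) → R ≤ ‖D.node (k, l)‖) :
    Chain (D.lat S) (ball 0 R) := by
  refine Chain.finsum S (fun k j z => (D.W k : ℂ) * tw (D.fl k) (D.a k) j (z - D.x k))
    fun k hk => ?_
  refine (((chain_tw (D.fl k) (ha k hk)).shift (D.x k)).mono ?_).smul _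
  intro z hz l hl h
  have h1 := hR k hk l hl
  have h2 : D.node (k, l) = z := by
    rw [node]
    linear_combination -h
  rw [mem_ball_zero_iff] at hz
  rw [h2] at h1
  linarith

theorem chain_poles (P : Finset (ι × ℤ)) {R : ℝ} (hR : ∀ ν ∈ P, R ≤ ‖D.node ν‖) :
    Chain (D.poles P) (ball 0 R) := by
  refine Chain.finsum P (fun ν j z => (D.W ν.1 : ℂ) * pc (D.node ν) j z) fun ν hν => ?_
  refine ((chain_pc (D.node ν)).mono ?_).smul _
  intro z hz h
  have h1 := hR ν hν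
  rw [mem_ball_zero_iff] at hz
  rw [← h] at h1
  linarith

theorem chain_exps (P : Finset (ι × ℕ)) (g : ι × ℕ → ℂ) : Chain (D.exps P g) Set.univ :=
  Chain.finsum P (fun ν j z => g ν * ec (D.freq ν) j z) fun _ _ => (chain_ec _).smul _

theorem hasSum_poles {k : ι} (ha : 0 < D.a k) {j : ℕ} (hj : 1 ≤ j) (z : ℂ) :
    HasSum (fun l : ℤ => if D.fl k = true ∧ l = 0 then 0 else (D.W k : ℂ) * pc (D.node (k, l)) j z)
      ((D.W k : ℂ) * tw (D.fl k) (D.a k) j (z - D.x k)) := by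
  refine lip_hs ((hasSum_tw (D.fl k) ha hj (z - D.x k)).mul_left (D.W k : ℂ)) (fun l => ?_) rfl
  split_ifs
  · rw [mul_zero]
  · rw [pc, pc, node, sub_sub]

theorem hasSum_harm {k : ι} (ha : 0 < D.a k) (hfl : D.fl k = false) (j : ℕ) {z : ℂ}
    (hz : |z.re| < |D.x k|) :
    HasSum (fun n : ℕ => (D.coef (k, n + 1) : ℂ) * ec (D.freq (k, n + 1)) j z)
      ((D.W k : ℂ) * tw (D.fl k) (D.a k) j (z - D.x k) +
        (if j = 0 ∧ 0 < D.x k then ((D.W k * D.a k : ℝ) : ℂ) else 0)) := by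
  rw [hfl]
  by_cases hx : D.x k < 0
  · have h1 : 0 < (z - D.x k).re := by
      rw [abs_of_neg hx, abs_lt] at hz
      rw [sub_re, ofReal_re]
      linarith [hz.1]
    rw [if_neg (fun h => by linarith only [hx, h, h.2]), add_zero]
    refine lip_hs ((hasSum_tw_right ha j h1).mul_left (D.W k : ℂ)) (fun n => ?_) rfl
    have e1 : D.freq (k, n + 1) = -(((n : ℝ) + 1) * D.a k) := by
      simp [freq, sg, hx]
    have e2 : D.coef (k, n + 1) =
        D.W k * D.a k * Real.exp (-(-(((n : ℝ) + 1) * D.a k) * D.x k)) := by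
      simp only [coef, sg, T, if_pos hx, abs_of_neg hx]
      push_cast
      rw [show -(((n : ℝ) + 1) * (D.a k * -D.x k)) = -(-(((n : ℝ) + 1) * D.a k) * D.x k) by ring]
      ring
    rw [e1, e2, lip_ec_sub]
    push_cast
    ring
  · have hx' : 0 < D.x k := by
      rcases (not_lt.1 hx).eq_or_lt with h | h
      · rw [← h, abs_zero] at hz
        exact absurd hz (not_lt.2 (abs_nonneg _))
      · exact h
    have h1 : (z - D.x k).re < 0 := by
      rw [abs_of_pos hx', abs_lt] at hz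
      rw [sub_re, ofReal_re]
      linarith [hz.2]
    refine lip_hs ((hasSum_tw_left ha j h1).mul_left (D.W k : ℂ)) (fun n => ?_) ?_
    · have e1 : D.freq (k, n + 1) = ((n : ℝ) + 1) * D.a k := by
        simp [freq, sg, hx]
      have e2 : D.coef (k, n + 1) =
          -(D.W k * D.a k * Real.exp (-(((n : ℝ) + 1) * D.a k * D.x k))) := by
        simp only [coef, sg, T, if_neg hx, abs_of_pos hx']
        push_cast
        rw [mul_assoc ((n : ℝ) + 1)]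
        ring
      rw [e1, e2, lip_ec_sub]
      push_cast
      ring
    · rw [mul_add]
      by_cases hj : j = 0 <;> simp [hj, hx']

theorem lip_sum_Icc (f : ℕ → ℂ) (L : ℕ) : ∑ n ∈ Icc 1 L, f n = ∑ n ∈ range L, f (n + 1) := by
  induction L with
  | zero => simp
  | succ L ih => rw [Finset.sum_Icc_succ_top (by omega), ih, Finset.sum_range_succ]

theorem lat_eq_exps_add_tail (S : Finset ι) (ha : ∀ k ∈ S, 0 < D.a k)
    (hfl : ∀ k ∈ S, D.fl k = false) (L j : ℕ) {z : ℂ} (hz : ∀ k ∈ S, |z.re| < |D.x k|) :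
    D.lat S j z + (if j = 0 then ∑ k ∈ S.filter (fun k => 0 < D.x k), ((D.W k * D.a k : ℝ) : ℂ)
      else 0) = D.exps (pA S L) D.cf j z + D.tailA S L j z := by
  have h1 : (if j = 0 then ∑ k ∈ S.filter (fun k => 0 < D.x k), ((D.W k * D.a k : ℝ) : ℂ) else 0) =
      ∑ k ∈ S, (if j = 0 ∧ 0 < D.x k then ((D.W k * D.a k : ℝ) : ℂ) else 0) := by
    by_cases hj : j = 0
    · simp only [hj, true_and, if_true, Finset.sum_filter]
    · simp [hj]
  rw [h1, lat, exps, tailA, pA, Finset.sum_product, ← Finset.sum_add_distrib,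
    ← Finset.sum_add_distrib]
  refine Finset.sum_congr rfl fun k hk => ?_
  have h2 := D.hasSum_harm (ha k hk) (hfl k hk) j (hz k hk)
  rw [← h2.tsum_eq, ← h2.summable.sum_add_tsum_nat_add L, lip_sum_Icc]
  rfl

theorem hasSum_tailA {k : ι} (ha : 0 < D.a k) (L j : ℕ) {z : ℂ} (hz : |z.re| < |D.x k|) :
    Summable (fun n : ℕ => (D.coef (k, n + L + 1) : ℂ) * ec (D.freq (k, n + L + 1)) j z) :=
  (summable_nat_add_iff
    (f := fun n : ℕ => (D.coef (k, n + 1) : ℂ) * ec (D.freq (k, n + 1)) j z) L).2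
    (hasSum_harm { D with fl := fun _ => false } (k := k) ha rfl j hz).summable

theorem lat_refl (S : Finset ι) {j : ℕ} (hj : 1 ≤ j) (z : ℂ) :
    D.refl.lat S j z = (-1) ^ (j + 1) * D.lat S j (-z) := by
  rw [lat, lat, Finset.mul_sum]
  refine Finset.sum_congr rfl fun k _ => ?_
  have := tw_neg (D.fl k) (D.a k) hj (-z - D.x k)
  simp only [refl]
  rw [show z - ((-D.x k : ℝ) : ℂ) = -(-z - D.x k) by push_cast; ring, this]
  ring

theorem lat_im (S : Finset ι) (j : ℕ) (t : ℝ) : (D.lat S j t).im = 0 := by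
  rw [← conj_eq_iff_im, lat, map_sum]
  refine Finset.sum_congr rfl fun k _ => ?_
  rw [map_mul, conj_ofReal, ← tw_conj, map_sub, conj_ofReal, conj_ofReal]

theorem Lop_exps (l : List ℝ) (P : Finset (ι × ℕ)) (j : ℕ) (z : ℂ) :
    Lop l (D.exps P D.cf) j z = D.exps P (D.cfL l) j z := by
  simp only [Lop, exps]
  rw [LL_finsum l P (fun ν i => D.cf ν * ec (D.freq ν) i z)]
  refine Finset.sum_congr rfl fun ν _ => ?_
  rw [LL_smul l (D.cf ν) (fun i => ec (D.freq ν) i z), LL_ec, cf, cfL]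
  ring

end Dat

end Pool.Agent.Work.MP_97f157_lc.Tau
end
end

-- merged part: Pool.Agent.Work.MP_97f157_lc.TauObj
section
/-! Upper bounds for clusters and atoms. -/

noncomputable section
open Complex Finset

namespace Pool.Agent.Work.MP_97f157_lc.Tau

variable {ι : Type*} {m M : ℕ}

theorem obj_rv {s : Finset ι} {f : ι → ℝ} {cl : ι → ι} {e1 : ℝ} (he : 0 < e1) {k : ι}
    (h0 : f (cl k) ≠ 0) (h : |f k - f (cl k)| ≤ e1 / 4 * |f (cl k)|) (_hk : k ∈ s) :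
    ‖rv (fun k => (f k : ℂ)) cl e1 k‖ ≤ 1 / 4 := by
  have h1 := abs_pos.2 h0
  have h2 : (f (cl k) : ℂ) ≠ 0 := by exact_mod_cast h0
  rw [rv, div_sub_one h2, norm_div, norm_div, ← ofReal_sub, norm_real, norm_real, norm_real,
    Real.norm_eq_abs, Real.norm_eq_abs, Real.norm_of_nonneg he.le, div_div,
    div_le_iff₀ (by positivity)]
  linarith only [h]

theorem CClus.rv_le {s : Finset ι} {a x : ι → ℝ} {cl : ι → ι} {e1 e0 : ℝ}
    (h : CClus s a x cl e1 e0) (he : 0 < e1) (ha : ∀ k ∈ s, a k ≠ 0) (hx : ∀ k ∈ s, x k ≠ 0) :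
    ∀ k ∈ s, ‖rv (fun k => (a k : ℂ)) cl e1 k‖ ≤ 1 / 4 ∧ ‖rv (fun k => (x k : ℂ)) cl e1 k‖ ≤ 1 / 4 :=
  fun k hk => ⟨obj_rv he (ha _ (h.mem k hk)) (h.neara k hk) hk,
    obj_rv he (hx _ (h.mem k hk)) (h.nearx k hk) hk⟩

theorem obj_eC (hp : Par m M) : 0 < eC1 M := inv_pos.2 (hp.pow_pos _)

theorem obj_eA (hp : Par m M) : 0 < eA1 M := inv_pos.2 (hp.pow_pos _)

theorem obj_eAC (hp : Par m M) : eA1 M ≤ eC1 M :=
  inv_anti₀ (hp.pow_pos _) (hp.pow_mono (by norm_num))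

theorem obj_mul (hp : Par m M) {ε c : ℝ} (hε : ε ≤ eC1 M) (hc0 : 0 ≤ c) (hc : c ≤ 10 ^ 12) {i : ℕ}
    (hi : i < 16000) : c * (M : ℝ) ^ i * ε ≤ 1 := by
  have h1 := hp.mul_pow_le hc hi
  have h2 := hp.pow_pos i
  calc _ ≤ c * (M : ℝ) ^ i * eC1 M := by gcongr
    _ ≤ (M : ℝ) ^ 16000 * eC1 M := mul_le_mul_of_nonneg_right h1 (obj_eC hp).le
    _ = 1 := mul_inv_cancel₀ (hp.pow_pos _).ne'

theorem obj_j (hp : Par m M) {j : ℕ} (hj : j ≤ 4 * M ^ 8000) : (j : ℝ) + 1 ≤ 5 * (M : ℝ) ^ 8000 := by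
  have h1 : (j : ℝ) ≤ ((4 * M ^ 8000 : ℕ) : ℝ) := Nat.cast_le.2 hj
  have h2 := hp.pow_mono (Nat.zero_le 8000)
  rw [Nat.cast_mul, Nat.cast_pow, Nat.cast_ofNat] at h1
  rw [pow_zero] at h2
  linarith only [h1, h2]

theorem obj_pole {κ : Type*} (hp : Par m M) {s : Finset κ} {u v f : κ → ℂ} {q ε : ℝ}
    (h : Mu s u v f q) (hu : ∀ k ∈ s, ‖u k‖ ≤ 1) (hv : ∀ k ∈ s, ‖v k‖ ≤ 1) (hq : 0 ≤ q) {c : ℂ}
    (hc : c ≠ 0) (hε0 : 0 ≤ ε) (hε : ε ≤ eC1 M) (hqc : q ≤ 6 * ε * ‖c‖) {j : ℕ}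
    (hj : j ≤ 4 * M ^ 8000) : Mu s u v (fun k => (c - f k)⁻¹ ^ (j + 1)) (2 / ‖c‖ ^ (j + 1)) := by
  have h0 := norm_pos_iff.2 hc
  have h1 := obj_mul hp hε (c := 60) (by norm_num) (by norm_num) (i := 8000) (by norm_num)
  have h2 := mul_le_mul_of_nonneg_right (obj_j hp hj) hε0
  have h3 : ((j : ℝ) + 1) * (6 * ε) ≤ 1 / 2 := by linarith only [h1, h2]
  have h4 : 6 * ε ≤ 1 / 2 := by nlinarith only [hε0, h1, h2, Nat.cast_nonneg (α := ℝ) j]
  refine ((h.inv_sub hu hv hq (by nlinarith only [hq, hε0, hqc, h0, h4])).pow (j + 1)).mono ?_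
  have h5 := one_add_mul_le_pow (a := -(6 * ε)) (by linarith only [h4]) (j + 1)
  have h6 : (‖c‖ * (1 + -(6 * ε))) ^ (j + 1) ≤ (‖c‖ - q) ^ (j + 1) :=
    pow_le_pow_left₀ (by nlinarith only [hq, hε0, hqc, h0, h4]) (by linarith only [hqc]) _
  have h7 : 0 < ‖c‖ ^ (j + 1) := by positivity
  rw [mul_pow] at h6
  push_cast at h5
  rw [inv_pow, inv_eq_one_div, div_le_div_iff₀ (pow_pos (by nlinarith only [hq, hε0, hqc, h0, h4]) _) h7]
  nlinarith only [h1, h2, h6, h7, h5]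

/-- `p_k - p_r = x_r ε v + I t b_r ((1 + ε u)⁻¹ - 1)` has norm `≤ 3 ε ‖p_r‖ ≤ 6 ε ‖z - p_r‖`;
`Mu.inv_sub`, `Mu.pow`, `(1 - 6ε)^{-(j+1)} ≤ 2`. -/
theorem pole_mu (hp : Par m M) (D : Dat ι) (S : Finset ι) (cl : ι → ι)
    (hcl : CClus S D.a D.x cl (eC1 M) (eC0 M)) (ha : ∀ k ∈ S, 0 < D.a k) (hx : ∀ k ∈ S, D.x k ≠ 0)
    (r : ι) (hr : r ∈ S) (hrr : cl r = r) (t : ℝ) (j : ℕ) (hj : j ≤ 4 * M ^ 8000) (z : ℂ)
    (hz : 2 * ‖z‖ ≤ |D.x r|) :
    Mu (cls S cl r) (rv (fun k => (D.a k : ℂ)) cl (eC1 M)) (rv (fun k => (D.x k : ℂ)) cl (eC1 M))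
      (fun k => pc (D.x k + I * ((t * sp (D.a k) : ℝ) : ℂ)) j z)
      (2 / ‖z - (D.x r + I * ((t * sp (D.a r) : ℝ) : ℂ))‖ ^ (j + 1)) := by
  have _ := hrr
  have he := obj_eC hp
  have hb := hcl.rv_le he (fun k hk => (ha k hk).ne') hx
  have hu : ∀ k ∈ cls S cl r, ‖rv (fun k => (D.a k : ℂ)) cl (eC1 M) k‖ ≤ 1 := fun k hk =>
    (hb k (mem_cls.1 hk).1).1.trans (by norm_num)
  have hv : ∀ k ∈ cls S cl r, ‖rv (fun k => (D.x k : ℂ)) cl (eC1 M) k‖ ≤ 1 := fun k hk =>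
    (hb k (mem_cls.1 hk).1).2.trans (by norm_num)
  have e2 : 2 * eC1 M ≤ 1 := by
    simpa using obj_mul hp le_rfl (c := 2) (by norm_num) (by norm_num) (i := 0) (by norm_num)
  have eq1 : ∀ k ∈ cls S cl r, (D.a k : ℂ) =
      D.a r * (1 + (eC1 M : ℂ) * rv (fun k => (D.a k : ℂ)) cl (eC1 M) k) := fun k hk => by
    obtain ⟨h1, rfl⟩ := mem_cls.1 hk
    exact rv_eq (f := fun k => (D.a k : ℂ)) he.ne' (by exact_mod_cast (ha _ hr).ne')
  have eq2 : ∀ k ∈ cls S cl r, (D.x k : ℂ) =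
      D.x r * (1 + (eC1 M : ℂ) * rv (fun k => (D.x k : ℂ)) cl (eC1 M) k) := fun k hk => by
    obtain ⟨h1, rfl⟩ := mem_cls.1 hk
    exact rv_eq (f := fun k => (D.x k : ℂ)) he.ne' (by exact_mod_cast hx _ hr)
  generalize rv (fun k => (D.a k : ℂ)) cl (eC1 M) = u at *
  generalize rv (fun k => (D.x k : ℂ)) cl (eC1 M) = v at *
  set ε := eC1 M with hε
  have n1 : ‖(ε : ℂ)‖ * 1 = ε := by rw [norm_real, Real.norm_of_nonneg he.le, mul_one]
  have m1 : Mu (cls S cl r) u v (fun k => (ε : ℂ) * u k) ε := (Mu.fst.smul _).mono n1.le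
  have m2 : Mu (cls S cl r) u v (fun k => (ε : ℂ) * v k) ε := (Mu.snd.smul _).mono n1.le
  have m3 := (m2.smul (D.x r)).add ((m1.inv_one_add_sub hu hv he.le (by linarith only [he, e2])).smul
    (I * ((t * sp (D.a r) : ℝ) : ℂ)))
  set p : ℂ := D.x r + I * ((t * sp (D.a r) : ℝ) : ℂ) with hpd
  have p1 : |D.x r| ≤ ‖p‖ := by simpa [hpd] using abs_re_le_norm p
  have p2 : ‖I * ((t * sp (D.a r) : ℝ) : ℂ)‖ ≤ ‖p‖ := by
    rw [norm_mul, norm_I, one_mul, norm_real, Real.norm_eq_abs]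
    have := abs_im_le_norm p
    rwa [hpd, add_im, ofReal_im, zero_add, I_mul_im, ofReal_re] at this
  have p3 : ‖p‖ ≤ 2 * ‖z - p‖ := by
    have := norm_sub_norm_le p z
    rw [norm_sub_rev] at this
    linarith only [hz, p1, this]
  have p4 : 0 < ‖z - p‖ := by linarith only [p1, p3, hx, hr, abs_pos.2 (hx r hr)]
  have p5 : ε / (1 - ε) ≤ 2 * ε := by rw [div_le_iff₀ (by linarith only [he, e2])]; nlinarith only [he, e2]
  have p6 : 0 ≤ ε / (1 - ε) := div_nonneg he.le (by linarith only [he, e2])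
  refine (obj_pole hp m3 hu hv (by positivity) (norm_pos_iff.1 p4) he.le le_rfl ?_ hj).congr
    fun k hk => ?_
  · rw [norm_real, Real.norm_eq_abs]
    have a1 := mul_le_mul_of_nonneg_right p1 he.le
    have a2 := mul_le_mul p2 p5 p6 (norm_nonneg _)
    nlinarith only [he, p3, a1, a2]
  · rw [pc, eq2 k hk, hpd, sp, sp]
    push_cast
    rw [eq1 k hk, div_mul_eq_div_div, div_eq_mul_inv (_ / _)]
    congr 2
    ring

/-- poles of a cluster with real indices `t0 + l t1`, all at height distance `≥ Δ` from `z`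
(`pole_mu`, `decay_pow`, `lat_sum`) -/
theorem cluster_part (hp : Par m M) (D : Dat ι) (S : Finset ι) (cl : ι → ι)
    (hcl : CClus S D.a D.x cl (eC1 M) (eC0 M)) (ha : ∀ k ∈ S, 0 < D.a k) (hx : ∀ k ∈ S, D.x k ≠ 0)
    (r : ι) (hr : r ∈ S) (hrr : cl r = r) (t0 t1 : ℝ) (ht1 : 0 < t1)
    (hT : D.T r ≤ (M : ℝ) ^ 7990 * t1) (j : ℕ) (hj1 : 1 ≤ j) (hj : j ≤ 4 * M ^ 8000) (z : ℂ)
    (hz : 2 * ‖z‖ ≤ |D.x r|) (Δ : ℝ) (hΔ0 : 0 ≤ Δ) (hΔ : Δ ≤ |D.x r|) (F : Finset ℤ)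
    (hF : ∀ l ∈ F, Δ ≤ |z.im - (t0 + l * t1) * sp (D.a r)|) :
    ∑ l ∈ F, ‖∑ k ∈ cls S cl r, (D.W k : ℂ) * pc (D.x k + I * (((t0 + l * t1) * sp (D.a k) : ℝ) : ℂ)) j z‖
      ≤ (M : ℝ) ^ 8000 * D.NC M S cl r / |z.re - D.x r| ^ (j + 1) *
        Real.exp (-(((j : ℝ) - 1) * Δ ^ 2 / (32 * D.x r ^ 2))) := by
  have hb := hcl.rv_le (obj_eC hp) (fun k hk => (ha k hk).ne') hx
  have hN := nb_Nm (s := cls S cl r) (g := fun k => (D.W k : ℂ))
    (fun k hk => (hb k (mem_cls.1 hk).1).1.trans (by norm_num))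
    (fun k hk => (hb k (mem_cls.1 hk).1).2.trans (by norm_num))
  have hN0 : 0 ≤ D.NC M S cl r := Nm_nonneg
  have x0 := abs_pos.2 (hx r hr)
  have z1 := abs_re_le_norm z
  have X1 : |z.re - D.x r| ≤ 2 * |D.x r| := (abs_sub _ _).trans (by linarith only [hz, x0, z1])
  have X0 : 0 < |z.re - D.x r| := by
    have := abs_sub_abs_le_abs_sub (D.x r) z.re
    rw [abs_sub_comm] at this
    linarith only [hz, x0, z1, this]
  set X := |z.re - D.x r| with hX
  set E := Real.exp (-(((j : ℝ) - 1) * Δ ^ 2 / (32 * D.x r ^ 2))) with hE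
  have hs := sp_pos (ha r hr)
  have h1 : ∀ l ∈ F, ‖∑ k ∈ cls S cl r, (D.W k : ℂ) *
      pc (D.x k + I * (((t0 + l * t1) * sp (D.a k) : ℝ) : ℂ)) j z‖ ≤
      2 * D.NC M S cl r / X ^ (j + 1) * E *
        (1 + (z.im - t0 * sp (D.a r) - l * (t1 * sp (D.a r))) ^ 2 / (2 * X) ^ 2)⁻¹ := by
    intro l hl
    have a1 := (pole_mu hp D S cl hcl ha hx r hr hrr (t0 + l * t1) j hj z hz).apply hN
    simp only [mul_comm (pc _ _ _)] at a1
    refine a1.trans ?_
    have a2 := hF l hl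
    have e : z.im - t0 * sp (D.a r) - l * (t1 * sp (D.a r)) =
      z.im - (t0 + l * t1) * sp (D.a r) := by ring
    rw [e]
    have a3 : ‖z - (D.x r + I * (((t0 + l * t1) * sp (D.a r) : ℝ) : ℂ))‖ ^ 2 =
        X ^ 2 + (z.im - (t0 + l * t1) * sp (D.a r)) ^ 2 := by
      rw [Complex.sq_norm, normSq_apply, hX, sq_abs, sub_re, sub_im, add_re, add_im, I_mul_re,
        I_mul_im, ofReal_re, ofReal_im, ofReal_re, ofReal_im]
      ring
    generalize z.im - (t0 + l * t1) * sp (D.a r) = τ at a2 a3 ⊢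
    have a4 := decay_pow (t := τ / X) (Δ := Δ / (2 * |D.x r|)) (by
      refine pow_le_one₀ (by positivity) ?_
      rw [div_le_one (by positivity)]; linarith only [hΔ, x0]) (by
      rw [← sq_abs (τ / X), abs_div, abs_of_pos X0]
      gcongr) hj1
    have a5 : -(((j : ℝ) - 1) * (Δ / (2 * |D.x r|)) ^ 2 / 8) =
        -(((j : ℝ) - 1) * Δ ^ 2 / (32 * D.x r ^ 2)) := by
      rw [div_pow, mul_pow, sq_abs]; ring
    rw [a5, ← hE] at a4
    have a6 : X * √(1 + (τ / X) ^ 2 / 2) ≤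
        ‖z - (D.x r + I * (((t0 + l * t1) * sp (D.a r) : ℝ) : ℂ))‖ := by
      refine (pow_le_pow_iff_left₀ (by positivity) (norm_nonneg _) two_ne_zero).1 ?_
      rw [a3, mul_pow, Real.sq_sqrt (by positivity), div_pow, mul_add, ← mul_div_assoc,
        mul_div_cancel₀ _ (by positivity)]
      linarith only [sq_nonneg τ]
    have a7 : (1 + (τ / X) ^ 2 / 2)⁻¹ ≤ (1 + τ ^ 2 / (2 * X) ^ 2)⁻¹ := by
      refine inv_anti₀ (by positivity) (add_le_add_right ?_ 1)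
      rw [div_pow, div_div]
      exact div_le_div_of_nonneg_left (sq_nonneg _) (by positivity) (by nlinarith only [])
    calc _ ≤ 2 / (X * √(1 + (τ / X) ^ 2 / 2)) ^ (j + 1) * D.NC M S cl r := by
          refine mul_le_mul_of_nonneg_right ?_ hN0
          gcongr
      _ = 2 * D.NC M S cl r / X ^ (j + 1) * (√(1 + (τ / X) ^ 2 / 2))⁻¹ ^ (j + 1) := by
          rw [mul_pow, inv_pow]; ring
      _ ≤ 2 * D.NC M S cl r / X ^ (j + 1) * (E * (1 + τ ^ 2 / (2 * X) ^ 2)⁻¹) := by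
          refine mul_le_mul_of_nonneg_left (a4.trans ?_) (by positivity)
          gcongr
      _ = _ := by ring
  refine (sum_le_sum h1).trans ?_
  rw [← mul_sum]
  have h2 := lat_sum F (z.im - t0 * sp (D.a r)) (t1 * sp (D.a r)) (2 * X) (by positivity)
    (by positivity)
  have h3 : 4 * (2 * X) / (t1 * sp (D.a r)) ≤ 3 * (M : ℝ) ^ 7990 := by
    have a0 := ha r hr
    have hY := hp.pow_pos 7990
    rw [Dat.T] at hT
    generalize (M : ℝ) ^ 7990 = Y at hT hY ⊢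
    rw [sp, ← mul_div_assoc, div_div_eq_mul_div, div_le_iff₀ (by positivity)]
    have a1 := mul_le_mul_of_nonneg_left X1 a0.le
    have a2 : 0 ≤ Y * t1 := by positivity
    nlinarith only [ht1, hT, hY, a1, a2, Real.pi_gt_three]
  have h4 := hp.mul_pow_le (c := 14) (by norm_num) (show 7990 < 8000 by norm_num)
  have h5 := hp.pow_mono (Nat.zero_le 7990)
  rw [pow_zero] at h5
  calc _ ≤ 2 * D.NC M S cl r / X ^ (j + 1) * E * ((M : ℝ) ^ 8000 / 2) :=
        mul_le_mul_of_nonneg_left (by linarith only [h2, h3, h4, h5]) (by positivity)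
    _ = _ := by generalize (M : ℝ) ^ 8000 = Y; ring

/-- the whole cluster; `Δ = 0` is allowed -/
theorem cluster_bound (hp : Par m M) (D : Dat ι) (S : Finset ι) (cl : ι → ι)
    (hcl : CClus S D.a D.x cl (eC1 M) (eC0 M)) (ha : ∀ k ∈ S, 0 < D.a k) (hx : ∀ k ∈ S, D.x k ≠ 0)
    (hfl : ∀ k ∈ S, D.fl k = false) (r : ι) (hr : r ∈ S) (hrr : cl r = r)
    (hT : D.T r ≤ (M : ℝ) ^ 7990) (j : ℕ) (hj1 : 1 ≤ j) (hj : j ≤ 4 * M ^ 8000) (z : ℂ)
    (hz : 2 * ‖z‖ ≤ |D.x r|) (Δ : ℝ) (hΔ0 : 0 ≤ Δ) (hΔ : Δ ≤ |D.x r|)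
    (hF : ∀ l : ℤ, Δ ≤ |z.im - l * sp (D.a r)|) :
    ‖D.lat (cls S cl r) j z‖ ≤ (M : ℝ) ^ 8000 * D.NC M S cl r / |z.re - D.x r| ^ (j + 1) *
        Real.exp (-(((j : ℝ) - 1) * Δ ^ 2 / (32 * D.x r ^ 2))) := by
  have h1 : HasSum (fun l : ℤ => ∑ k ∈ cls S cl r,
      (D.W k : ℂ) * pc (D.x k + I * (((0 + l * 1) * sp (D.a k) : ℝ) : ℂ)) j z)
      (D.lat (cls S cl r) j z) := hasSum_sum fun k hk => by
    have hk' := (mem_cls.1 hk).1
    refine lip_hs (D.hasSum_poles (ha k hk') hj1 z) (fun l => ?_) rfl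
    rw [if_neg (by simp [hfl k hk']), zero_add, mul_one, Dat.node]
  exact le_of_tendsto' h1.norm fun F => (norm_sum_le _ _).trans
    (cluster_part hp D S cl hcl ha hx r hr hrr 0 1 one_pos (by rwa [mul_one]) j hj1 hj z hz Δ hΔ0
      hΔ F fun l _ => by rw [zero_add, mul_one]; exact hF l)

theorem pole_atom_bound (hp : Par m M) (D : Dat ι) (P : Finset (ι × ℤ)) (bt : ι × ℤ → ι × ℤ)
    (hbt : RClus P D.node bt (eA1 M) (eA0 M)) (hne : ∀ ν ∈ P, D.node ν ≠ 0)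
    (α : ι × ℤ) (hα : α ∈ P) (hαα : bt α = α) (j : ℕ) (hj : j ≤ 4 * M ^ 8000) (z : ℂ)
    (hz : 2 * ‖z‖ ≤ ‖D.node α‖) :
    ‖D.poles (cls P bt α) j z‖ ≤ 2 * D.NP M P bt α / ‖z - D.node α‖ ^ (j + 1) := by
  have _ := hαα
  have he := obj_eA hp
  have hu : ∀ k ∈ cls P bt α, ‖rv D.node bt (eA1 M) k‖ ≤ 1 := fun k hk =>
    (hbt.rv_le he hne k (mem_cls.1 hk).1).trans (by norm_num)
  have hv : ∀ k ∈ cls P bt α, ‖(fun _ => 0 : ι × ℤ → ℂ) k‖ ≤ 1 := fun k _ => by simp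
  have p3 : ‖D.node α‖ ≤ 2 * ‖z - D.node α‖ := by
    have := norm_sub_norm_le (D.node α) z
    rw [norm_sub_rev] at this
    linarith only [hz, this]
  have p4 : 0 < ‖z - D.node α‖ := by linarith only [p3, hne, hα, norm_pos_iff.2 (hne α hα)]
  have m1 := (obj_pole hp ((Mu.fst.smul (eA1 M : ℂ)).smul (D.node α)) hu hv (by positivity)
    (norm_pos_iff.1 p4) he.le (obj_eAC hp) (by
      rw [norm_real, Real.norm_of_nonneg he.le]
      linarith only [he, p3, p4, mul_nonneg_of_nonpos_of_nonpos (le_of_lt (Mathlib.Tactic.Linarith.sub_neg_of_lt he)) (Mathlib.Tactic.Linarith.sub_nonpos_of_le p3), mul_pos_of_neg_of_neg (Mathlib.Tactic.Linarith.sub_neg_of_lt he) (Mathlib.Tactic.Linarith.sub_neg_of_lt p4)]) hj).apply (nb_Nm (g := fun ν => (D.W ν.1 : ℂ)) hu hv)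
  rw [div_mul_eq_mul_div] at m1
  refine le_trans (le_of_eq (congrArg _ (sum_congr rfl fun k hk => ?_))) m1
  obtain ⟨-, rfl⟩ := mem_cls.1 hk
  rw [pc, mul_comm]
  congr 3
  conv_lhs => rw [rv_eq (f := D.node) (rep := bt) (k := k) he.ne' (hne _ hα)]
  ring

theorem exp_atom_mu (hp : Par m M) (D : Dat ι) (P : Finset (ι × ℕ)) (at' : ι × ℕ → ι × ℕ)
    (hat : RClus P (fun ν => (D.freq ν : ℂ)) at' (eA1 M) (eA0 M)) (hne : ∀ ν ∈ P, D.freq ν ≠ 0)
    (α : ι × ℕ) (hα : α ∈ P) (hαα : at' α = α) (j : ℕ) (hj : j ≤ 4 * M ^ 8000) (z : ℂ)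
    (hz : |D.freq α| * ‖z‖ ≤ (M : ℝ) ^ 9000) :
    Mu (cls P at' α) (rv (fun ν => (D.freq ν : ℂ)) at' (eA1 M)) (fun _ => 0)
      (fun ν => ec (D.freq ν) j z)
      (2 * |D.freq α| ^ j * Real.exp (D.freq α * z.re) / (j.factorial : ℝ)) := by
  have _ := hαα
  have _ := hat
  have he := obj_eA hp
  have eq1 : ∀ k ∈ cls P at' α, (D.freq k : ℂ) =
      D.freq α * (1 + (eA1 M : ℂ) * rv (fun ν => (D.freq ν : ℂ)) at' (eA1 M) k) := fun k hk => by
    obtain ⟨h1, rfl⟩ := mem_cls.1 hk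
    exact rv_eq (f := fun ν => (D.freq ν : ℂ)) he.ne' (by exact_mod_cast hne _ hα)
  generalize rv (fun ν => (D.freq ν : ℂ)) at' (eA1 M) = u at *
  have h1 := obj_mul hp (obj_eAC hp) (c := 20) (by norm_num) (by norm_num) (i := 8000) (by norm_num)
  have h2 := obj_mul hp (obj_eAC hp) (c := 4) (by norm_num) (by norm_num) (i := 9000) (by norm_num)
  have h3 := mul_le_mul_of_nonneg_right (obj_j hp hj) he.le
  have h4 := mul_le_mul_of_nonneg_right hz he.le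
  generalize eA1 M = ε at *
  have n1 : ‖(ε : ℂ)‖ * 1 = ε := by rw [norm_real, Real.norm_of_nonneg he.le, mul_one]
  have m1 : Mu (cls P at' α) u (fun _ => 0) (fun k => (ε : ℂ) * u k) ε := (Mu.fst.smul _).mono n1.le
  refine (((((Mu.one.add m1).pow j).mul ((m1.smul (D.freq α * z)).exp (by positivity))).smul
    ((-(D.freq α : ℂ)) ^ j * exp (D.freq α * z) / j.factorial)).congr fun k hk => ?_).mono ?_
  · rw [ec, eq1 k hk, ← neg_mul, mul_pow, mul_add, add_mul, exp_add, mul_one,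
      mul_right_comm (D.freq α : ℂ) (_ * _) z]
    ring
  · rw [norm_div, norm_mul, norm_mul, norm_pow, norm_neg, norm_real, Real.norm_eq_abs,
      Complex.norm_exp, re_ofReal_mul, Complex.norm_natCast]
    have a1 : (1 + ε) ^ j ≤ Real.exp ε ^ j :=
      pow_le_pow_left₀ (by positivity) (by linarith only [Real.add_one_le_exp ε]) j
    have a2 : (1 + ε) ^ j * Real.exp (|D.freq α| * ‖z‖ * ε) ≤ 2 := by
      refine (mul_le_mul_of_nonneg_right a1 (Real.exp_pos _).le).trans (le_trans ?_ chain_exp_half)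
      rw [← Real.exp_nat_mul, ← Real.exp_add, Real.exp_le_exp]
      linarith only [he, h1, h2, h3, h4]
    refine (mul_le_mul_of_nonneg_left a2 (by positivity)).trans (le_of_eq (by ring))

theorem exp_atom_bound (hp : Par m M) (D : Dat ι) (P : Finset (ι × ℕ)) (at' : ι × ℕ → ι × ℕ)
    (hat : RClus P (fun ν => (D.freq ν : ℂ)) at' (eA1 M) (eA0 M)) (hne : ∀ ν ∈ P, D.freq ν ≠ 0)
    (g : ι × ℕ → ℂ) (α : ι × ℕ) (hα : α ∈ P) (hαα : at' α = α) (j : ℕ) (hj : j ≤ 4 * M ^ 8000)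
    (z : ℂ) (hz : |D.freq α| * ‖z‖ ≤ (M : ℝ) ^ 9000) :
    ‖D.exps (cls P at' α) g j z‖ ≤
      2 * (D.NA M P at' g α * |D.freq α| ^ j / (j.factorial : ℝ)) * Real.exp (D.freq α * z.re) := by
  have h := (exp_atom_mu hp D P at' hat hne α hα hαα j hj z hz).apply (nb_Nm (g := g)
    (fun k hk => (hat.rv_le (obj_eA hp) (fun ν hν => by exact_mod_cast hne ν hν) k
      (mem_cls.1 hk).1).trans (by norm_num)) fun k _ => by simp)
  simp only [mul_comm (ec _ _ _)] at h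
  exact h.trans (le_of_eq (by rw [Dat.NA]; ring))

theorem obj_cos {θ w : ℝ} (hw0 : 0 ≤ w) (hw1 : w ≤ 1) (h1 : w ≤ |θ|) (h2 : |θ| ≤ 3 / 2 * Real.pi) :
    ‖(1 + exp (-(I * θ))) / 2‖ ≤ 1 - w ^ 2 / 20 := by
  have p1 := Real.pi_gt_three
  have p2 := Real.pi_lt_d2
  have a1 : Real.cos θ ≤ 1 - w ^ 2 / 5 := by
    rcases le_total |θ| Real.pi with c | c
    · refine (Real.cos_le_one_sub_mul_cos_sq c).trans (sub_le_sub_left ?_ 1)
      have b1 : w ^ 2 ≤ θ ^ 2 := by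
        rw [← sq_abs θ]
        exact pow_le_pow_left₀ hw0 h1 2
      have b2 : 1 / 5 ≤ 2 / Real.pi ^ 2 := by
        rw [div_le_div_iff₀ (by norm_num) (by positivity)]
        nlinarith only [hw0, h1, h2, p1, p2]
      nlinarith only [b1, b2, sq_nonneg θ]
    · rw [← Real.cos_abs]
      refine (Real.cos_nonpos_of_pi_div_two_le_of_le (by linarith only [p1, p2, c]) (by linarith only [h2])).trans ?_
      linarith only [hw1, p1, p2, hw0, mul_nonneg_of_nonpos_of_nonpos (Mathlib.Tactic.Linarith.sub_nonpos_of_le hw0) (Mathlib.Tactic.Linarith.sub_nonpos_of_le hw1)]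
  refine (pow_le_pow_iff_left₀ (norm_nonneg _) (by linarith only [hw1, p1, p2, hw0, mul_nonneg_of_nonpos_of_nonpos (Mathlib.Tactic.Linarith.sub_nonpos_of_le hw0) (Mathlib.Tactic.Linarith.sub_nonpos_of_le hw1)]) two_ne_zero).1 ?_
  have e : -(I * θ) = ((-θ : ℝ) : ℂ) * I := by push_cast; ring
  rw [norm_div, div_pow, Complex.sq_norm, normSq_apply, e, add_re, add_im, exp_ofReal_mul_I_re,
    exp_ofReal_mul_I_im, Real.cos_neg, Real.sin_neg, one_re, one_im, Complex.norm_ofNat]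
  linarith only [a1, Real.sin_sq_add_cos_sq θ, sq_nonneg (w ^ 2)]

theorem obj_avg {κ : Type*} (s : Finset κ) (u v : κ → ℂ) (r : ℕ) {θ η c : ℝ} (hη : 0 ≤ η)
    (hη1 : η ≤ 1) (hc : ‖(1 + exp (-(I * θ))) / 2‖ ≤ 1 - c) :
    Mu s u v (fun k => ∑ i ∈ range (2 * r + 1), (bw r i : ℂ) *
      exp (-(I * (((i : ℂ) - r) * (θ + η * u k))))) (Real.exp (r * (3 * η - 2 * c))) := by
  have n1 : ‖(η : ℂ)‖ * 1 = η := by rw [norm_real, Real.norm_of_nonneg hη, mul_one]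
  have m1 : Mu s u v (fun k => (η : ℂ) * u k) η := (Mu.fst.smul _).mono n1.le
  have m2 := ((m1.smul (I * r)).exp (by positivity)).smul (exp (I * (r * θ)))
  have m3 := (Mu.const ((1 + exp (-(I * θ))) / 2)).add
    (((m1.smul (-I)).exp_sub_one (by positivity)).smul (exp (-(I * θ)) / 2))
  refine ((m2.mul (m3.pow (2 * r))).congr fun k _ => ?_).mono ?_
  · rw [bw_fourier, ← exp_add]
    congr 2
    · ring
    · rw [mul_add I, neg_add, exp_add, neg_mul]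
      ring
  · have a1 : ‖exp (I * (r * θ))‖ = 1 := by
      rw [Complex.norm_exp]; simp
    have a2 : ‖exp (-(I * θ))‖ = 1 := by
      rw [Complex.norm_exp]; simp
    have a3 := (abs_le.1 (Real.abs_exp_sub_one_le (x := η) (by rwa [abs_of_nonneg hη]))).2
    have a4 := Real.add_one_le_exp η
    rw [abs_of_nonneg hη] at a3
    rw [a1, one_mul, norm_mul, norm_I, one_mul, Complex.norm_natCast, norm_neg, norm_I, one_mul,
      norm_div (exp _), a2, Complex.norm_ofNat]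
    have a5 : (‖(1 + exp (-(I * θ))) / 2‖ + 1 / 2 * (Real.exp η - 1)) ^ (2 * r) ≤
        Real.exp (η - c) ^ (2 * r) :=
      pow_le_pow_left₀ (by linarith only [hη, a4, norm_nonneg ((1 + exp (-(I * θ))) / 2)])
        (by linarith only [hc, a3, Real.add_one_le_exp (η - c)]) _
    refine (mul_le_mul_of_nonneg_left a5 (Real.exp_pos _).le).trans (le_of_eq ?_)
    rw [← Real.exp_nat_mul, ← Real.exp_add]
    congr 1
    push_cast
    ring

/-- the multiplier of the binomial average on `exp (-I t a)`, `a = lam (1 + ε u) / ω`: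
`bw_fourier` with `θ = M^3994 (a - α')`, and
`‖(1 + exp (-Iθ))/2‖² = (1 + cos θ)/2 ≤ 1 - θ²/π²` for `|θ| ≤ π`, `≤ 1/2` for `π ≤ |θ| ≤ 3π/2` -/
theorem avg_mu {κ : Type*} (hp : Par m M) (s : Finset κ) (u v : κ → ℂ) (hu : ∀ k ∈ s, ‖u k‖ ≤ 1)
    (hv : ∀ k ∈ s, ‖v k‖ ≤ 1) (ε β α' : ℝ) (hε0 : 0 ≤ ε) (hε : ε ≤ eC1 M) (hβ0 : 0 ≤ β) (hβ : β ≤ 2)
    (h1 : ((M : ℝ) ^ 5715)⁻¹ / 4 ≤ |β - α'|) (h2 : |β - α'| ≤ 3 / 2 * Real.pi / (M : ℝ) ^ 3994) :
    Mu s u v (fun k => ∑ i ∈ range (2 * M ^ 3452 + 1), (bw (M ^ 3452) i : ℂ) *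
        exp (I * ((((i : ℝ) - (M : ℝ) ^ 3452) * (M : ℝ) ^ 3994 * α' : ℝ) : ℂ)) *
        exp (-(I * ((((i : ℝ) - (M : ℝ) ^ 3452) * (M : ℝ) ^ 3994 : ℝ) : ℂ) * (β * (1 + ε * u k)))))
      (Real.exp (-((M : ℝ) ^ 10 / 1000))) := by
  have _ := hu
  have _ := hv
  have M0 := hp.pos
  have a1 := obj_mul hp hε (c := 2) (by norm_num) (by norm_num) (i := 3994) (by norm_num)
  have a2 := obj_mul hp hε (c := 6) (by norm_num) (by norm_num) (i := 3452 + 3994) (by norm_num)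
  have a3 : (M : ℝ) ^ 3452 * (((M : ℝ) ^ 1721)⁻¹) ^ 2 = (M : ℝ) ^ 10 := by
    rw [show 3452 = 10 + 1721 * 2 by norm_num, pow_add, pow_mul, mul_assoc, ← mul_pow,
      mul_inv_cancel₀ (hp.pow_pos _).ne', one_pow, mul_one]
  have a4 : ((M : ℝ) ^ 1721)⁻¹ = (M : ℝ) ^ 3994 * ((M : ℝ) ^ 5715)⁻¹ := by
    rw [show 5715 = 3994 + 1721 by norm_num, pow_add, mul_inv, mul_inv_cancel_left₀ (hp.pow_pos _).ne']
  have a5 : ((M : ℝ) ^ 1721)⁻¹ ≤ 1 := inv_le_one_of_one_le₀ (one_le_pow₀ hp.one_le)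
  have a6 : 0 < ((M : ℝ) ^ 1721)⁻¹ := inv_pos.2 (hp.pow_pos _)
  have a7 := hp.mul_pow_le (c := 1000) (by norm_num) (show 0 < 10 by norm_num)
  have s0 := hp.pow_pos 3994
  rw [pow_add] at a2
  rw [le_div_iff₀ s0] at h2
  rw [← Nat.cast_pow M 3452] at a2 a3 ⊢
  generalize M ^ 3452 = r at *
  generalize (M : ℝ) ^ 3994 = σ at *
  generalize ((M : ℝ) ^ 1721)⁻¹ = w at *
  generalize ((M : ℝ) ^ 5715)⁻¹ = y at *
  have b1 : σ * β * ε ≤ σ * 2 * ε := by gcongr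
  refine ((obj_avg s u v r (θ := σ * (β - α')) (η := σ * β * ε) (by positivity) (by linarith only [a1, b1])
    (obj_cos (w := w / 4) (by positivity) (by linarith only [a5]) ?_ ?_)).congr fun k _ => ?_).mono ?_
  · rw [abs_mul, abs_of_pos s0, a4, mul_div_assoc]
    gcongr
  · rw [abs_mul, abs_of_pos s0]
    linarith only [h2]
  · refine sum_congr rfl fun i _ => ?_
    rw [mul_assoc _ (exp _) (exp _), ← exp_add]
    congr 2
    push_cast
    ring
  · rw [Real.exp_le_exp]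
    have := mul_le_mul_of_nonneg_left b1 (Nat.cast_nonneg (α := ℝ) r)
    linarith only [a7, a2, a3, this]

end Pool.Agent.Work.MP_97f157_lc.Tau
end
end

-- merged part: Pool.Agent.Work.MP_97f157_lc.TauCB
section
/-! Bounds for the amplitudes of one cluster of the band. -/

noncomputable section
open Complex Finset Metric

namespace Pool.Agent.Work.MP_97f157_lc.Tau

variable {ι : Type*} {m M : ℕ}

theorem gw_nonneg (j : ℕ) {α : ℝ} (hα : 0 ≤ α) : 0 ≤ gw j α := by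
  unfold gw
  positivity

theorem cb_log {α : ℝ} (hα : 0 < α) :
    Real.log α ≤ α - 1 - (α - 1) ^ 2 / (2 * (1 + |α - 1|)) := by
  rcases le_total 1 α with h | h
  · have h1 := Real.self_le_sinh_iff.2 (Real.log_nonneg h)
    rw [Real.sinh_log hα] at h1
    rw [abs_of_nonneg (sub_nonneg.2 h)]
    refine h1.trans (le_of_eq ?_)
    field_simp
    ring
  · have h0 : 0 ≤ α⁻¹ - 1 := sub_nonneg.2 ((one_le_inv₀ hα).2 h)
    have h1 := Real.le_log_one_add_of_nonneg h0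
    rw [add_sub_cancel, Real.log_inv] at h1
    rw [abs_of_nonpos (sub_nonpos.2 h)]
    have h2 : 2 * (α⁻¹ - 1) / (α⁻¹ - 1 + 2) = (1 - α) + (α - 1) ^ 2 / (1 + α) := by
      field_simp
      ring
    have h3 : (α - 1) ^ 2 / (2 * (1 + -(α - 1))) ≤ (α - 1) ^ 2 / (1 + α) :=
      div_le_div_of_nonneg_left (sq_nonneg _) (by positivity) (by linarith only [h])
    linarith only [h1, h2, h3]

/-- from `α - 1 - log α ≥ (α-1)² / (2 (1 + |α-1|))` -/
theorem gw_le (j : ℕ) {α : ℝ} (hα : 0 < α) :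
    gw j α ≤ Real.exp (-(j * ((α - 1) ^ 2 / (2 * (1 + |α - 1|))))) := by
  have h1 : α ^ j = Real.exp (j * Real.log α) := by rw [Real.exp_nat_mul, Real.exp_log hα]
  rw [gw, h1, ← Real.exp_add, Real.exp_le_exp]
  have h2 := mul_le_mul_of_nonneg_left (cb_log hα) (Nat.cast_nonneg (α := ℝ) j)
  linarith only [h2]

theorem cb_gw_one (j : ℕ) {α : ℝ} (hα : 0 < α) : gw j α ≤ 1 :=
  (gw_le j hα).trans (Real.exp_le_one_iff.2 (neg_nonpos.2 (by positivity)))

theorem cb_quad {j J s t : ℝ} (hJ : 0 ≤ J) (hj : J / 2 ≤ j) (hs0 : 0 ≤ s) (hs : s ≤ 1)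
    (hst : s ≤ t) : J * s * t / 8 ≤ j * (t ^ 2 / (2 * (1 + t))) := by
  have ht : 0 ≤ t := hs0.trans hst
  have h1 : s * t / 4 ≤ t ^ 2 / (2 * (1 + t)) := by
    rw [div_le_div_iff₀ (by norm_num) (by positivity)]
    have : s * (1 + t) ≤ 2 * t := by linarith only [hst, hs0, hs, mul_nonneg_of_nonpos_of_nonpos (Mathlib.Tactic.Linarith.sub_nonpos_of_le hs0) (Mathlib.Tactic.Linarith.sub_nonpos_of_le hs), mul_nonneg_of_nonpos_of_nonpos (Mathlib.Tactic.Linarith.sub_nonpos_of_le hs) (Mathlib.Tactic.Linarith.sub_nonpos_of_le hst)]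
    linarith only [hs, hs0, hst, mul_nonneg_of_nonpos_of_nonpos (Mathlib.Tactic.Linarith.sub_nonpos_of_le (sq_nonneg t)) (Mathlib.Tactic.Linarith.sub_nonpos_of_le hs), mul_nonneg_of_nonpos_of_nonpos (Mathlib.Tactic.Linarith.sub_nonpos_of_le hs0) (Mathlib.Tactic.Linarith.sub_nonpos_of_le hst), mul_nonneg_of_nonpos_of_nonpos (Mathlib.Tactic.Linarith.sub_nonpos_of_le hst) (Mathlib.Tactic.Linarith.sub_nonpos_of_le hst)]
  calc J * s * t / 8 = J / 2 * (s * t / 4) := by ring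
    _ ≤ _ := mul_le_mul hj h1 (by positivity) (by linarith only [hJ, hj])

theorem cb_gw_far {j : ℕ} {α J s : ℝ} (hα : 0 < α) (hJ : 0 ≤ J) (hj : J / 2 ≤ j) (hs0 : 0 ≤ s)
    (hs : s ≤ 1) (hst : s ≤ |α - 1|) : gw j α ≤ Real.exp (-(J * s * |α - 1| / 8)) := by
  refine (gw_le j hα).trans (Real.exp_le_exp.2 (neg_le_neg ?_))
  have := cb_quad hJ hj hs0 hs hst
  rwa [sq_abs] at this

theorem cb_pow_mul_inv (hp : Par m M) (i k : ℕ) :
    (M : ℝ) ^ (i + k) * ((M : ℝ) ^ i)⁻¹ = (M : ℝ) ^ k := by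
  rw [pow_add, mul_comm, inv_mul_cancel_left₀ (hp.pow_pos i).ne']

theorem cb_five {x y : ℝ} (h : x + 4 ≤ y) : 5 * Real.exp x ≤ Real.exp y := by
  have h1 : (5 : ℝ) ≤ Real.exp 4 := by linarith [Real.add_one_le_exp 4]
  calc 5 * Real.exp x ≤ Real.exp 4 * Real.exp x := by gcongr
    _ = Real.exp (x + 4) := by rw [← Real.exp_add, add_comm]
    _ ≤ Real.exp y := Real.exp_le_exp.2 h

namespace CDat
variable (C : CDat ι m M)

theorem apos : ∀ k ∈ C.D.s, 0 < C.D.a k := fun k hk =>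
  pos_of_mul_pos_left (lt_of_lt_of_le (half_pos (C.par.pow_pos 267)) (C.alo k hk)) C.dpos.le

theorem cb_band : ∀ k ∈ C.D.s, |C.D.x k + C.d| ≤ C.d / 100 := by
  intro k hk
  have h1 := C.par.inv_pow_le (c := 200) (by norm_num) (i := 0) (k := 7989) (by norm_num)
  rw [pow_zero, inv_one] at h1
  have h2 := mul_le_mul_of_nonneg_right h1 C.dpos.le
  have h3 := C.band k hk
  linarith only [h2, h3]

theorem xne : ∀ k ∈ C.D.s, C.D.x k ≠ 0 := by
  intro k hk h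
  have h1 := C.cb_band k hk
  have h2 := C.dpos
  rw [h, zero_add, abs_of_pos h2] at h1
  linarith only [h1, h2]

theorem x_abs : ∀ k ∈ C.D.s, 99 / 100 * C.d ≤ |C.D.x k| ∧ |C.D.x k| ≤ 101 / 100 * C.d := by
  intro k hk
  have h1 := abs_le.1 (C.cb_band k hk)
  have h2 := C.dpos
  rw [abs_of_neg (by linarith only [h1, h2, h1.2])]
  constructor <;> linarith only [h1, h1.1, h1.2]

theorem cb_mul_band {k : ι} (hk : k ∈ C.D.s) {w c : ℝ} (hw : 0 ≤ w)
    (h : w * C.d ≤ c * (M : ℝ) ^ 8000) : w * |C.D.x k + C.d| ≤ 2 * c * (M : ℝ) ^ 11 := by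
  have h1 := cb_pow_mul_inv C.par 7989 11
  have h2 := mul_le_mul_of_nonneg_left (C.band k hk) hw
  have h3 := mul_le_mul_of_nonneg_right h (inv_nonneg.2 (C.par.pow_pos 7989).le)
  rw [mul_assoc c, show (8000 : ℕ) = 7989 + 11 from rfl, h1] at h3
  linarith only [h2, h3]

/-- `lev` at `ω = jc / d` together with `band` -/
theorem NC_le (r : ι) (hr : r ∈ C.D.s) (hrr : C.cl r = r) :
    C.D.NC M C.D.s C.cl r ≤ Real.exp (5 * (M : ℝ) ^ 11) * C.N0 := by
  have hd := C.dpos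
  have e : (C.jc : ℝ) / C.d * C.d = C.jc := div_mul_cancel₀ _ hd.ne'
  have h1 := C.lev r hr hrr (C.jc / C.d) (by
    rw [e, sub_self, abs_zero]
    exact (C.par.pow_pos _).le)
  have h2 : (C.jc : ℝ) ≤ 2 * (M : ℝ) ^ 8000 := by exact_mod_cast C.jhi
  have h3 := C.cb_mul_band hr (w := C.jc / C.d) (c := 2) (by positivity) (by rw [e]; exact h2)
  have h4 : -(4 * (M : ℝ) ^ 11) ≤ C.jc / C.d * (C.D.x r + C.d) := by
    have := mul_le_mul_of_nonneg_left (neg_abs_le (C.D.x r + C.d))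
      (show (0 : ℝ) ≤ C.jc / C.d by positivity)
    linarith only [h3, this]
  have h5 : C.D.NC M C.D.s C.cl r * Real.exp (-(4 * (M : ℝ) ^ 11)) ≤ 2 * C.N0 :=
    (mul_le_mul_of_nonneg_left (Real.exp_le_exp.2 h4) Nm_nonneg).trans h1
  rw [Real.exp_neg, ← div_eq_mul_inv, div_le_iff₀ (Real.exp_pos _)] at h5
  have h6 : (1 : ℝ) ≤ (M : ℝ) ^ 11 := one_le_pow₀ C.par.one_le
  have h7 : 2 * Real.exp (4 * (M : ℝ) ^ 11) ≤ Real.exp (5 * (M : ℝ) ^ 11) := by
    rw [show 5 * (M : ℝ) ^ 11 = (M : ℝ) ^ 11 + 4 * (M : ℝ) ^ 11 by ring, Real.exp_add]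
    have := Real.add_one_le_exp ((M : ℝ) ^ 11)
    gcongr
    linarith only [h6, this]
  have h8 := mul_le_mul_of_nonneg_right h7 C.N0pos.le
  linarith only [h5, h8]

theorem sat_univ : C.Sat C.D.s :=
  ⟨Subset.refl _, fun k hk => ⟨fun _ => C.clus.mem k hk, fun _ => hk⟩⟩
theorem sat_cls (r : ι) (hr : r ∈ C.D.s) (hrr : C.cl r = r) : C.Sat (cls C.D.s C.cl r) := by
  have _ := hr
  have _ := hrr
  refine ⟨fun k hk => (mem_cls.1 hk).1, fun k hk => ?_⟩
  rw [mem_cls, mem_cls, C.clus.idem k hk]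
  exact ⟨fun h => ⟨C.clus.mem k hk, h.2⟩, fun h => ⟨hk, h.2⟩⟩
theorem gA_split {S : Finset ι} (hS : C.Sat S) (h : ℝ) (j : ℕ) (ω : ℂ) (y : ℝ)
    [DecidablePred fun r => C.cl r = r] :
    C.gA S h j ω y = ∑ r ∈ S.filter (fun r => C.cl r = r), C.gA (cls C.D.s C.cl r) h j ω y :=
  sum_cls C.clus.mem C.clus.idem hS.1 hS.2 _

theorem cb_eps (hp : Par m M) : 0 < eC1 M := inv_pos.2 (hp.pow_pos _)

theorem cb_eps_le (hp : Par m M) : 40 * (eC1 M * (M : ℝ) ^ 8000) ≤ 1 := by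
  have h1 := hp.mul_pow_le (c := 40) (by norm_num) (i := 8000) (k := 16000) (by norm_num)
  have h2 := hp.pow_pos 16000
  rw [eC1, inv_mul_eq_div, ← mul_div_assoc, div_le_one h2]
  exact h1

theorem cb_uv (r : ι) : (∀ k ∈ cls C.D.s C.cl r, ‖rv (fun k => (C.D.a k : ℂ)) C.cl (eC1 M) k‖ ≤ 1) ∧
    ∀ k ∈ cls C.D.s C.cl r, ‖rv (fun k => (C.D.x k : ℂ)) C.cl (eC1 M) k‖ ≤ 1 := by
  have h := C.clus.rv_le (cb_eps C.par) (fun k hk => (C.apos k hk).ne') C.xne
  exact ⟨fun k hk => (h k (mem_cls.1 hk).1).1.trans (by norm_num),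
    fun k hk => (h k (mem_cls.1 hk).1).2.trans (by norm_num)⟩

theorem cb_a_eq {r k : ι} (hr : r ∈ C.D.s) (hk : k ∈ cls C.D.s C.cl r) :
    (C.D.a k : ℂ) = C.D.a r * (1 + (eC1 M : ℂ) * rv (fun k => (C.D.a k : ℂ)) C.cl (eC1 M) k) := by
  have h := (mem_cls.1 hk).2
  have := rv_eq (f := fun k => (C.D.a k : ℂ)) (rep := C.cl) (cb_eps C.par).ne' (k := k)
    (by rw [h]; exact_mod_cast (C.apos r hr).ne')
  rwa [h] at this

theorem cb_x_eq {r k : ι} (hr : r ∈ C.D.s) (hk : k ∈ cls C.D.s C.cl r) :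
    (C.D.x k : ℂ) = C.D.x r * (1 + (eC1 M : ℂ) * rv (fun k => (C.D.x k : ℂ)) C.cl (eC1 M) k) := by
  have h := (mem_cls.1 hk).2
  have := rv_eq (f := fun k => (C.D.x k : ℂ)) (rep := C.cl) (cb_eps C.par).ne' (k := k)
    (by rw [h]; exact_mod_cast C.xne r hr)
  rwa [h] at this

theorem cb_j {j : ℕ} {ω : ℂ} {y : ℝ} (hA : C.Arg j ω y) :
    (M : ℝ) ^ 8000 / 2 ≤ j ∧ (j : ℝ) ≤ 3 * (M : ℝ) ^ 8000 := by
  have h1 : (M : ℝ) ^ 8000 ≤ C.jc := by exact_mod_cast C.jlo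
  have h2 : (C.jc : ℝ) ≤ 2 * (M : ℝ) ^ 8000 := by exact_mod_cast C.jhi
  have h3 := C.par.mul_pow_le (c := 2) (by norm_num) (i := 7998) (k := 8000) (by norm_num)
  have h4 := abs_le.1 hA.hj
  have h5 := C.par.pow_pos 7998
  constructor <;> linarith only [h1, h3, h4, h2, h5, h4.1, h4.2]

theorem cb_term (W a x ak xk d h y ε : ℝ) (u v ω : ℂ) (j : ℕ) (ha : (ak : ℂ) = a * (1 + ε * u))
    (hx : (xk : ℂ) = x * (1 + ε * v)) :
    ((a : ℂ) * (gw j (a / h) : ℂ) * exp (ω * ((a / h * (x + d) : ℝ) : ℂ)) *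
        exp (-(I * ((y * (a / h) : ℝ) : ℂ)))) *
      ((1 + ε * u) ^ (j + 1) * exp (((a / h * ε : ℝ) : ℂ) *
        ((-(j : ℂ) + ω * ((x + d : ℝ) : ℂ) - I * y) * u + ω * x * (v * (1 + ε * u))))) * W =
    (W : ℂ) * (ak : ℂ) * (gw j (ak / h) : ℂ) * exp (ω * ((ak / h * (xk + d) : ℝ) : ℂ)) *
      exp (-(I * ((y * (ak / h) : ℝ) : ℂ))) := by
  simp only [gw]
  push_cast
  rw [ha, hx]
  have e : ∀ A B E F G H K : ℂ, A + B + E + F = G + H + K →
      exp A * exp B * exp E * exp F = exp G * exp H * exp K := by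
    intro A B E F G H K hh
    simp only [← exp_add, hh]
  have := e (-(j * (a / h - 1))) (ω * (a / h * (x + d))) (-(I * (y * (a / h))))
    (a / h * ε * ((-(j : ℂ) + ω * (x + d) - I * y) * u + ω * x * (v * (1 + ε * u))))
    (-(j * (a * (1 + ε * u) / h - 1))) (ω * (a * (1 + ε * u) / h * (x * (1 + ε * v) + d)))
    (-(I * (y * (a * (1 + ε * u) / h)))) (by ring)
  rw [mul_div_right_comm (a : ℂ) (1 + ε * u) h, mul_pow] at *
  linear_combination (W * a * (a / h) ^ j * (1 + ε * u) ^ (j + 1)) * this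

/-- With `α = a r / h`, `a k = a r (1 + ε u)`, `x k = x r (1 + ε v)` the term is the value at `r`
times `(1 + ε u)^(j+1) exp (α ε ξ)`, `ξ` a multiplier of norm `≤ 16 M^8000`; then `lev` at
`Re ω` and `|Re ω (α - 1) (x r + d)| ≤ 6.1 M^11 |α - 1|`. -/
theorem gbase_nb (r : ι) (hr : r ∈ C.D.s) (hrr : C.cl r = r) (h : ℝ) (hh : 0 < h) (j : ℕ) (ω : ℂ)
    (y : ℝ) (hA : C.Arg j ω y) :
    NB (cls C.D.s C.cl r) (rv (fun k => (C.D.a k : ℂ)) C.cl (eC1 M))
      (rv (fun k => (C.D.x k : ℂ)) C.cl (eC1 M))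
      (fun k => (C.D.W k : ℂ) * (C.D.a k : ℂ) * (gw j (C.D.a k / h) : ℂ) *
        exp (ω * ((C.D.a k / h * (C.D.x k + C.d) : ℝ) : ℂ)) *
          exp (-(I * ((y * (C.D.a k / h) : ℝ) : ℂ))))
      (5 * C.N0 * C.D.a r * gw j (C.D.a r / h) * Real.exp (7 * (M : ℝ) ^ 11 * |C.D.a r / h - 1|)) := by
  obtain ⟨hu, hv⟩ := C.cb_uv r
  have hW : NB (cls C.D.s C.cl r) _ _ (fun k => (C.D.W k : ℂ)) (C.D.NC M C.D.s C.cl r) :=
    nb_Nm hu hv
  have hε := (cb_eps C.par)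
  have hε' := (cb_eps_le C.par)
  have ha := C.apos r hr
  have hd := C.dpos
  have hα : 0 < C.D.a r / h := div_pos ha hh
  have hP : (1 : ℝ) ≤ (M : ℝ) ^ 8000 := one_le_pow₀ C.par.one_le
  have hQ : (1 : ℝ) ≤ (M : ℝ) ^ 11 := one_le_pow₀ C.par.one_le
  have hε1 : eC1 M ≤ 1 := by nlinarith only [hε, hε', hP]
  have hj := (C.cb_j hA).2
  have hb := C.cb_mul_band hr (norm_nonneg ω) hA.hω'
  have hb' := C.par.mul_pow_le (c := 6) (by norm_num) (i := 11) (k := 8000) (by norm_num)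
  set u := rv (fun k => (C.D.a k : ℂ)) C.cl (eC1 M)
  set v := rv (fun k => (C.D.x k : ℂ)) C.cl (eC1 M)
  set s := cls C.D.s C.cl r
  have m1 : Mu s u v (fun k => 1 + (eC1 M : ℂ) * u k) (1 + eC1 M) := by
    have := (Mu.one (s := s) (u := u) (v := v)).add (Mu.fst.smul (eC1 M : ℂ))
    rwa [Complex.norm_real, Real.norm_of_nonneg hε.le, mul_one] at this
  have m2 : Mu s u v (fun k => (-(j : ℂ) + ω * ((C.D.x r + C.d : ℝ) : ℂ) - I * y) * u k +
      ω * C.D.x r * (v k * (1 + (eC1 M : ℂ) * u k))) (16 * (M : ℝ) ^ 8000) := by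
    refine ((Mu.fst.smul _).add ((Mu.snd.mul m1).smul _)).mono ?_
    have n1 : ‖-(j : ℂ) + ω * ((C.D.x r + C.d : ℝ) : ℂ) - I * y‖ ≤
        j + ‖ω‖ * |C.D.x r + C.d| + |y| := by
      refine (norm_sub_le _ _).trans (add_le_add ((norm_add_le _ _).trans (le_of_eq ?_))
        (le_of_eq ?_))
      · rw [norm_neg, Complex.norm_natCast, norm_mul, Complex.norm_real, Real.norm_eq_abs]
      · rw [norm_mul, norm_I, one_mul, Complex.norm_real, Real.norm_eq_abs]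
    have n2 : ‖ω * C.D.x r‖ ≤ 4 * (M : ℝ) ^ 8000 := by
      rw [norm_mul, Complex.norm_real, Real.norm_eq_abs]
      have := mul_le_mul_of_nonneg_left (C.x_abs r hr).2 (norm_nonneg ω)
      have := hA.hω'
      linarith
    have n3 := mul_le_mul n2 (show 1 * (1 + eC1 M) ≤ 2 by linarith only [hε1]) (by positivity)
      (by positivity)
    have := hA.hy
    linarith only [hQ, hj, hb, hb', n1, n3, this]
  have m3 := (m2.smul (((C.D.a r / h * eC1 M : ℝ) : ℂ))).exp (by positivity)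
  have m4 := ((m1.pow (j + 1)).mul m3).smul ((C.D.a r : ℂ) * (gw j (C.D.a r / h) : ℂ) *
    exp (ω * ((C.D.a r / h * (C.D.x r + C.d) : ℝ) : ℂ)) *
      exp (-(I * ((y * (C.D.a r / h) : ℝ) : ℂ))))
  refine ((m4 _ _ hW).congr (fun _ _ => rfl) (fun _ _ => rfl) fun k hk =>
    cb_term _ _ _ _ _ _ _ _ _ _ _ _ _ (C.cb_a_eq hr hk) (C.cb_x_eq hr hk)).mono ?_
  have hg := gw_nonneg j hα.le
  have hl := C.lev r hr hrr ω.re hA.hω
  have hN : 0 ≤ C.D.NC M C.D.s C.cl r := Nm_nonneg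
  rw [norm_mul, norm_mul, norm_mul, Complex.norm_real, Complex.norm_real, Complex.norm_real,
    Real.norm_of_nonneg ha.le, Real.norm_of_nonneg hg, Real.norm_of_nonneg (by positivity),
    Complex.norm_exp, Complex.norm_exp, re_mul_ofReal, neg_re, mul_comm I, re_ofReal_mul, I_re,
    mul_zero, neg_zero, Real.exp_zero, mul_one]
  set α := C.D.a r / h
  set t := |α - 1|
  have ht : 0 ≤ t := abs_nonneg _
  have hαt : α ≤ 1 + t := by linarith only [le_abs_self (α - 1)]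
  have k1 : (1 + eC1 M) ^ (j + 1) ≤ Real.exp (4 * (eC1 M * (M : ℝ) ^ 8000)) := by
    calc (1 + eC1 M) ^ (j + 1) ≤ Real.exp (eC1 M) ^ (j + 1) :=
          pow_le_pow_left₀ (by positivity) (by linarith [Real.add_one_le_exp (eC1 M)]) _
      _ = Real.exp (((j + 1 : ℕ) : ℝ) * eC1 M) := (Real.exp_nat_mul _ _).symm
      _ ≤ _ := by
        refine Real.exp_le_exp.2 ?_
        push_cast
        nlinarith only [hε, hP, hj]
  have k2 : ω.re * (α * (C.D.x r + C.d)) ≤ ω.re * (C.D.x r + C.d) + 6 * (M : ℝ) ^ 11 * t := by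
    have q1 : |ω.re * (C.D.x r + C.d)| ≤ 6 * (M : ℝ) ^ 11 := by
      rw [abs_mul]
      have := mul_le_mul_of_nonneg_right (abs_re_le_norm ω) (abs_nonneg (C.D.x r + C.d))
      linarith only [hb, this]
    have q2 := le_abs_self (ω.re * (C.D.x r + C.d) * (α - 1))
    rw [abs_mul] at q2
    have q3 := mul_le_mul_of_nonneg_right q1 ht
    linarith only [q2, q3]
  have k3 : α * eC1 M * (16 * (M : ℝ) ^ 8000) ≤
      16 * (eC1 M * (M : ℝ) ^ 8000) + (M : ℝ) ^ 11 * t := by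
    have q0 : 0 ≤ eC1 M * (M : ℝ) ^ 8000 := by positivity
    have q1 := mul_le_mul_of_nonneg_right hαt q0
    have q2 : 16 * (eC1 M * (M : ℝ) ^ 8000) * t ≤ (M : ℝ) ^ 11 * t :=
      mul_le_mul_of_nonneg_right (by linarith only [hε', hQ]) ht
    linarith only [q1, q2]
  have k4 : Real.exp (20 * (eC1 M * (M : ℝ) ^ 8000)) ≤ 2 := by
    refine (Real.exp_le_exp.2 (show _ ≤ 1 / 2 by linarith only [hε'])).trans ?_
    have := Real.exp_bound_div_one_sub_of_interval (x := 1 / 2) (by norm_num) (by norm_num)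
    linarith only [this]
  calc C.D.a r * gw j α * Real.exp (ω.re * (α * (C.D.x r + C.d))) *
        ((1 + eC1 M) ^ (j + 1) * Real.exp (α * eC1 M * (16 * (M : ℝ) ^ 8000))) *
        C.D.NC M C.D.s C.cl r
      ≤ C.D.a r * gw j α * Real.exp (ω.re * (C.D.x r + C.d) + 6 * (M : ℝ) ^ 11 * t) *
        (Real.exp (4 * (eC1 M * (M : ℝ) ^ 8000)) *
          Real.exp (16 * (eC1 M * (M : ℝ) ^ 8000) + (M : ℝ) ^ 11 * t)) *
        C.D.NC M C.D.s C.cl r := by gcongr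
    _ = C.D.a r * gw j α * Real.exp (7 * (M : ℝ) ^ 11 * t) *
        (Real.exp (20 * (eC1 M * (M : ℝ) ^ 8000)) *
          (C.D.NC M C.D.s C.cl r * Real.exp (ω.re * (C.D.x r + C.d)))) := by
      have e : ∀ A B E F G H : ℝ, A + B + E = F + G + H →
          Real.exp A * Real.exp B * Real.exp E = Real.exp F * Real.exp G * Real.exp H := by
        intro A B E F G H hh
        simp only [← Real.exp_add, hh]
      have := e (ω.re * (C.D.x r + C.d) + 6 * (M : ℝ) ^ 11 * t) (4 * (eC1 M * (M : ℝ) ^ 8000))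
        (16 * (eC1 M * (M : ℝ) ^ 8000) + (M : ℝ) ^ 11 * t) (7 * (M : ℝ) ^ 11 * t)
        (20 * (eC1 M * (M : ℝ) ^ 8000)) (ω.re * (C.D.x r + C.d)) (by ring)
      linear_combination (C.D.a r * gw j α * C.D.NC M C.D.s C.cl r) * this
    _ ≤ C.D.a r * gw j α * Real.exp (7 * (M : ℝ) ^ 11 * t) * (2 * (2 * C.N0)) := by gcongr
    _ ≤ _ := by
      have := C.N0pos
      have q : 0 ≤ C.N0 * (C.D.a r * gw j α * Real.exp (7 * (M : ℝ) ^ 11 * t)) := by positivity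
      linarith only [q]

theorem gbase (r : ι) (hr : r ∈ C.D.s) (hrr : C.cl r = r) (h : ℝ) (hh : 0 < h) (j : ℕ) (ω : ℂ)
    (y : ℝ) (hA : C.Arg j ω y) :
    ‖C.gA (cls C.D.s C.cl r) h j ω y‖ ≤ 5 * C.N0 * C.D.a r * gw j (C.D.a r / h) *
      Real.exp (7 * (M : ℝ) ^ 11 * |C.D.a r / h - 1|) :=
  (C.gbase_nb r hr hrr h hh j ω y hA).sum_le

theorem cb_bracket {j : ℕ} {α : ℝ} (hp : Par m M) (hα : 0 < α) (hj : (M : ℝ) ^ 8000 / 2 ≤ j) :
    √α * (gw j α * Real.exp (7 * (M : ℝ) ^ 11 * |α - 1|)) ≤ 3 := by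
  have hQ : (1 : ℝ) ≤ (M : ℝ) ^ 11 := one_le_pow₀ hp.one_le
  have hR := hp.pow_pos 12
  have hg := gw_nonneg j hα.le
  set t := |α - 1| with htdef
  have ht : 0 ≤ t := abs_nonneg _
  have h1 : √α ≤ Real.exp t := by
    rw [Real.sqrt_le_iff]
    refine ⟨(Real.exp_pos _).le, ?_⟩
    have q1 := Real.add_one_le_exp t
    have q2 : α ≤ 1 + t := by linarith only [le_abs_self (α - 1)]
    nlinarith only [ht, q1, q2]
  have h2 : √α * (gw j α * Real.exp (7 * (M : ℝ) ^ 11 * t)) ≤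
      gw j α * Real.exp (8 * (M : ℝ) ^ 11 * t) := by
    have q : Real.exp t * Real.exp (7 * (M : ℝ) ^ 11 * t) ≤ Real.exp (8 * (M : ℝ) ^ 11 * t) := by
      rw [← Real.exp_add, Real.exp_le_exp]
      linarith only [hQ, ht, mul_nonneg_of_nonpos_of_nonpos (Mathlib.Tactic.Linarith.sub_nonpos_of_le hQ) (Mathlib.Tactic.Linarith.sub_nonpos_of_le ht)]
    calc _ ≤ Real.exp t * (gw j α * Real.exp (7 * (M : ℝ) ^ 11 * t)) := by gcongr
      _ = gw j α * (Real.exp t * Real.exp (7 * (M : ℝ) ^ 11 * t)) := by ring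
      _ ≤ _ := by gcongr
  have h3 : Real.exp 1 ≤ 3 := by linarith only [Real.exp_one_lt_d9]
  refine h2.trans (le_trans ?_ h3)
  rcases le_total t ((M : ℝ) ^ 12)⁻¹ with h | h
  · have q1 := hp.mul_pow_le (c := 8) (by norm_num) (i := 11) (k := 12) (by norm_num)
    have q2 : 8 * (M : ℝ) ^ 11 * t ≤ 1 := by
      refine (mul_le_mul q1 h ht hR.le).trans (le_of_eq (mul_inv_cancel₀ hR.ne'))
    calc _ ≤ 1 * Real.exp 1 := by
          gcongr
          exact cb_gw_one j hα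
      _ = _ := one_mul _
  · have q0 := cb_gw_far hα (hp.pow_pos 8000).le hj (inv_nonneg.2 hR.le)
      (inv_le_one_of_one_le₀ (one_le_pow₀ hp.one_le)) h
    rw [show (8000 : ℕ) = 12 + 7988 from rfl, cb_pow_mul_inv hp] at q0
    have q1 := hp.mul_pow_le (c := 64) (by norm_num) (i := 11) (k := 7988) (by norm_num)
    have q2 := mul_le_mul_of_nonneg_right q1 ht
    refine (mul_le_mul_of_nonneg_right q0 (Real.exp_pos _).le).trans ?_
    rw [← Real.exp_add, Real.exp_le_exp]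
    linarith only [q2]

theorem gA_le {S : Finset ι} (hS : C.Sat S) (h : ℝ) (hh : 0 < h) (j : ℕ) (ω : ℂ) (y : ℝ)
    (hA : C.Arg j ω y) : ‖C.gA S h j ω y‖ ≤ (M : ℝ) ^ 4000 * C.N0 / √C.d * √h := by
  classical
  have hd := C.dpos
  have hN := C.N0pos
  have hsd : 0 < √C.d := Real.sqrt_pos.2 hd
  have hP := C.par.pow_pos 3869
  have h1 : ∀ r ∈ S.filter (fun r => C.cl r = r), ‖C.gA (cls C.D.s C.cl r) h j ω y‖ ≤
      30 * (M : ℝ) ^ 3869 * (C.N0 / √C.d * √h) := by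
    intro r hr
    obtain ⟨hr1, hrr⟩ := mem_filter.1 hr
    have hr' := hS.1 hr1
    have ha := C.apos r hr'
    have hα := div_pos ha hh
    have k1 := cb_bracket C.par hα (C.cb_j hA).1
    have k2 : √(C.D.a r) ≤ 2 * (M : ℝ) ^ 3869 / √C.d := by
      rw [le_div_iff₀ hsd, ← Real.sqrt_mul ha.le, Real.sqrt_le_iff]
      refine ⟨by positivity, (C.ahi r hr').trans (le_of_eq ?_)⟩
      rw [mul_pow, ← pow_mul]
      norm_num
    have k3 : C.D.a r = √(C.D.a r) * √h * √(C.D.a r / h) := by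
      rw [mul_assoc, ← Real.sqrt_mul hh.le, mul_div_cancel₀ _ hh.ne', Real.mul_self_sqrt ha.le]
    have hg := gw_nonneg j hα.le
    refine (C.gbase r hr' hrr h hh j ω y hA).trans ?_
    calc 5 * C.N0 * C.D.a r * gw j (C.D.a r / h) *
          Real.exp (7 * (M : ℝ) ^ 11 * |C.D.a r / h - 1|)
        = 5 * C.N0 * (√(C.D.a r) * √h * √(C.D.a r / h)) * gw j (C.D.a r / h) *
          Real.exp (7 * (M : ℝ) ^ 11 * |C.D.a r / h - 1|) := by rw [← k3]
      _ = 5 * C.N0 * √h * (√(C.D.a r) * (√(C.D.a r / h) * (gw j (C.D.a r / h) *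
          Real.exp (7 * (M : ℝ) ^ 11 * |C.D.a r / h - 1|)))) := by ring
      _ ≤ 5 * C.N0 * √h * (2 * (M : ℝ) ^ 3869 / √C.d * 3) := by gcongr
      _ = _ := by ring
  rw [C.gA_split hS]
  refine (norm_sum_le_of_le _ h1).trans ?_
  rw [sum_const, nsmul_eq_mul]
  have h2 : ((S.filter (fun r => C.cl r = r)).card : ℝ) ≤ M := by
    have q1 : (S.filter (fun r => C.cl r = r)).card ≤ m :=
      (card_le_card ((filter_subset _ _).trans hS.1)).trans C.card
    have q2 := C.par.two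
    exact_mod_cast (by omega : (S.filter (fun r => C.cl r = r)).card ≤ M)
  have h3 := C.par.mul_pow_le (c := 30) (by norm_num) (i := 3869 + 1) (k := 4000) (by norm_num)
  rw [pow_succ] at h3
  calc _ ≤ M * (30 * (M : ℝ) ^ 3869 * (C.N0 / √C.d * √h)) := by gcongr
    _ = 30 * ((M : ℝ) ^ 3869 * M) * (C.N0 / √C.d * √h) := by ring
    _ ≤ (M : ℝ) ^ 4000 * (C.N0 / √C.d * √h) := by gcongr
    _ = _ := by rw [mul_div_assoc, mul_assoc]

theorem cb_thr (hp : Par m M) : (M : ℝ) ^ 5 / (2 * (M : ℝ) ^ 4000) = ((M : ℝ) ^ 3995)⁻¹ / 2 := by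
  have h1 := hp.pow_pos 5
  have h2 := hp.pow_pos 3995
  rw [show (4000 : ℕ) = 5 + 3995 from rfl, pow_add]
  generalize (M : ℝ) ^ 5 = A at *
  generalize (M : ℝ) ^ 3995 = B at *
  field_simp

theorem gA_negl (r : ι) (hr : r ∈ C.D.s) (hrr : C.cl r = r) (h : ℝ) (hh : 0 < h) (j : ℕ) (ω : ℂ)
    (y : ℝ) (hA : C.Arg j ω y) (hfar : (M : ℝ) ^ 5 / (2 * (M : ℝ) ^ 4000) ≤ |C.D.a r / h - 1|) :
    ‖C.gA (cls C.D.s C.cl r) h j ω y‖ ≤
      Real.exp (-(M : ℝ) ^ 9) * C.N0 * C.D.a r * Real.exp (-(C.D.a r / h)) := by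
  have hp := C.par
  have ha := C.apos r hr
  have hN := C.N0pos
  have hα := div_pos ha hh
  rw [cb_thr hp] at hfar
  have hR := hp.pow_pos 3995
  have hR1 : ((M : ℝ) ^ 3995)⁻¹ ≤ 1 := inv_le_one_of_one_le₀ (one_le_pow₀ hp.one_le)
  have q0 := cb_gw_far hα (hp.pow_pos 8000).le (C.cb_j hA).1 (by positivity) (by linarith only [hR1]) hfar
  rw [show (8000 : ℕ) = 3995 + 4005 from rfl, ← mul_div_assoc, cb_pow_mul_inv hp] at q0
  refine (C.gbase r hr hrr h hh j ω y hA).trans ?_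
  set α := C.D.a r / h
  set t := |α - 1|
  have ht : 0 ≤ t := abs_nonneg _
  have hαt : α ≤ 1 + t := by linarith only [le_abs_self (α - 1)]
  have q1 := mul_le_mul_of_nonneg_right
    (hp.mul_pow_le (c := 256) (by norm_num) (i := 11) (k := 4005) (by norm_num)) ht
  have q2 := mul_le_mul_of_nonneg_left hfar (hp.pow_pos 4005).le
  rw [show (4005 : ℕ) = 3995 + 10 from rfl, ← mul_div_assoc, cb_pow_mul_inv hp] at q2
  have q3 := hp.mul_pow_le (c := 1000) (by norm_num) (i := 9) (k := 10) (by norm_num)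
  have q4 : (1 : ℝ) ≤ (M : ℝ) ^ 9 := one_le_pow₀ hp.one_le
  have q5 : t ≤ (M : ℝ) ^ 11 * t := le_mul_of_one_le_left ht (one_le_pow₀ hp.one_le)
  have q6 := cb_five (x := -((M : ℝ) ^ 4005 / 2 * t / 8) + 7 * (M : ℝ) ^ 11 * t)
    (y := -(M : ℝ) ^ 9 + -α) (by
      have : (M : ℝ) ^ (3995 + 10) = (M : ℝ) ^ 4005 := rfl
      rw [this] at q2
      linarith only [hαt, q1, q2, q3, q4, q5])
  rw [Real.exp_add, Real.exp_add] at q6
  calc 5 * C.N0 * C.D.a r * gw j α * Real.exp (7 * (M : ℝ) ^ 11 * t)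
      ≤ 5 * C.N0 * C.D.a r * Real.exp (-((M : ℝ) ^ 4005 / 2 * t / 8)) *
        Real.exp (7 * (M : ℝ) ^ 11 * t) := by gcongr
    _ = C.N0 * C.D.a r * (5 * (Real.exp (-((M : ℝ) ^ 4005 / 2 * t / 8)) *
        Real.exp (7 * (M : ℝ) ^ 11 * t))) := by
      generalize Real.exp _ = A
      generalize Real.exp _ = B
      ring
    _ ≤ C.N0 * C.D.a r * (Real.exp (-(M : ℝ) ^ 9) * Real.exp (-α)) := by gcongr
    _ = _ := by ring

theorem cb_shift (hp : Par m M) {i : ℕ} (hi : i ∈ range (2 * M ^ 3452 + 1)) :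
    2 * |((i : ℝ) - (M : ℝ) ^ 3452) * (M : ℝ) ^ 3994| ≤ (M : ℝ) ^ 8000 := by
  have h1 : (i : ℝ) ≤ 2 * (M : ℝ) ^ 3452 := by
    exact_mod_cast Nat.lt_succ_iff.1 (mem_range.1 hi)
  have h2 : |(i : ℝ) - (M : ℝ) ^ 3452| ≤ (M : ℝ) ^ 3452 := by
    have := Nat.cast_nonneg (α := ℝ) i
    rw [abs_le]
    constructor <;> linarith only [h1]
  have h3 := hp.mul_pow_le (c := 2) (by norm_num) (i := 3452 + 3994) (k := 8000) (by norm_num)
  have h4 := hp.pow_pos 3994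
  rw [pow_add] at h3
  rw [abs_mul, abs_of_pos h4]
  have := mul_le_mul_of_nonneg_right h2 h4.le
  linarith only [h3, this]

theorem cb_swap (c A : ℂ) (φ y ak h β : ℝ) (w : ℂ) (hw : ((ak / h : ℝ) : ℂ) = β * w) :
    c * (A * exp (-(I * (((y + φ) * (ak / h) : ℝ) : ℂ)))) =
      c * exp (-(I * (φ : ℂ) * (β * w))) * (A * exp (-(I * ((y * (ak / h) : ℝ) : ℂ)))) := by
  rw [ofReal_mul, ofReal_mul, hw, ofReal_add,
    show -(I * (((y : ℂ) + φ) * (β * w))) = -(I * φ * (β * w)) + -(I * (y * (β * w))) by ring,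
    exp_add]
  ring

/-- if `|α - 1| ≥ π / (2 M^3994)` average `gA_negl`; otherwise use `avg_mu` -/
theorem hA_negl (r : ι) (hr : r ∈ C.D.s) (hrr : C.cl r = r) (h : ℝ) (hh : 0 < h) (j : ℕ) (ω : ℂ)
    (y α' : ℝ) (hA : C.Arg j ω y) (hy : 2 * |y| ≤ (M : ℝ) ^ 8000)
    (hα' : |α' - 1| ≤ Real.pi / (M : ℝ) ^ 3994)
    (hfar : ((M : ℝ) ^ 5715)⁻¹ / 4 ≤ |C.D.a r / h - α'|) :
    ‖C.hA (cls C.D.s C.cl r) h j ω y α'‖ ≤
      Real.exp (-(M : ℝ) ^ 9) * C.N0 * C.D.a r * Real.exp (-(C.D.a r / h)) := by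
  have hp := C.par
  have ha := C.apos r hr
  have hN := C.N0pos
  have hα := div_pos ha hh
  rcases le_total ((M : ℝ) ^ 5 / (2 * (M : ℝ) ^ 4000)) |C.D.a r / h - 1| with hc | hc
  · refine (norm_sum_le_of_le _ (n := fun i => bw (M ^ 3452) i * (Real.exp (-(M : ℝ) ^ 9) *
      C.N0 * C.D.a r * Real.exp (-(C.D.a r / h)))) fun i hi => ?_).trans ?_
    · rw [norm_mul, norm_mul, Complex.norm_real, Real.norm_of_nonneg (bw_nonneg _ _),
        norm_exp_I_mul_ofReal, mul_one]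
      refine mul_le_mul_of_nonneg_left (C.gA_negl r hr hrr h hh j ω _
        ⟨hA.hj, hA.hω, hA.hω', (abs_add_le _ _).trans ?_⟩ hc) (bw_nonneg _ _)
      linarith only [hy, hp, hi, cb_shift hp hi]
    · rw [← sum_mul, bw_sum, one_mul]
  · rw [cb_thr hp] at hc
    have hR := hp.pow_pos 3995
    have hR1 : ((M : ℝ) ^ 3995)⁻¹ ≤ 1 := inv_le_one_of_one_le₀ (one_le_pow₀ hp.one_le)
    have hα2 : C.D.a r / h ≤ 2 := by linarith only [hc, hR1, le_abs_self (C.D.a r / h - 1)]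
    have h2 : |C.D.a r / h - α'| ≤ 3 / 2 * Real.pi / (M : ℝ) ^ 3994 := by
      have q1 := abs_sub_le (C.D.a r / h) 1 α'
      have q2 := hp.inv_pow_le (c := 1) (by norm_num) (i := 3994) (k := 3995) (by norm_num)
      have q3 := mul_le_mul_of_nonneg_right (show 1 ≤ Real.pi by linarith only [Real.pi_gt_three])
        (inv_nonneg.2 (hp.pow_pos 3994).le)
      rw [abs_sub_comm 1 α'] at q1
      rw [div_eq_mul_inv] at hα'
      rw [div_eq_mul_inv (3 / 2 * Real.pi)]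
      linarith only [hα', hc, q1, q2, q3]
    obtain ⟨hu, hv⟩ := C.cb_uv r
    have m1 := (avg_mu hp _ _ _ hu hv (eC1 M) (C.D.a r / h) α' (cb_eps C.par).le le_rfl hα.le hα2 hfar
      h2).apply (C.gbase_nb r hr hrr h hh j ω y hA)
    unfold CDat.hA gA
    simp only [Finset.mul_sum]
    rw [Finset.sum_comm]
    simp only [Finset.sum_mul] at m1
    refine le_trans (le_of_eq (congrArg norm (sum_congr rfl fun k hk => sum_congr rfl fun i _ =>
      cb_swap _ _ _ _ _ _ _ _ ?_))) (m1.trans ?_)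
    · rw [ofReal_div, ofReal_div, C.cb_a_eq hr hk, mul_div_right_comm]
    · have hg := cb_gw_one j hα
      have q1 : 7 * (M : ℝ) ^ 11 * |C.D.a r / h - 1| ≤ 1 := by
        have k1 := hp.mul_pow_le (c := 7) (by norm_num) (i := 11) (k := 3995) (by norm_num)
        have k2 := mul_le_mul k1 (show |C.D.a r / h - 1| ≤ ((M : ℝ) ^ 3995)⁻¹ by
          linarith only [hc, hR, inv_pos.2 hR]) (abs_nonneg _) hR.le
        rwa [mul_inv_cancel₀ hR.ne'] at k2
      have q2 := hp.mul_pow_le (c := 8000) (by norm_num) (i := 9) (k := 10) (by norm_num)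
      have q4 : (1 : ℝ) ≤ (M : ℝ) ^ 9 := one_le_pow₀ hp.one_le
      have q6 := cb_five (x := -((M : ℝ) ^ 10 / 1000) + 1) (y := -(M : ℝ) ^ 9 + -(C.D.a r / h))
        (by linarith only [hα2, q2, q4])
      rw [Real.exp_add, Real.exp_add] at q6
      calc _ ≤ Real.exp (-((M : ℝ) ^ 10 / 1000)) * (5 * C.N0 * C.D.a r * 1 * Real.exp 1) := by
            gcongr
        _ = C.N0 * C.D.a r * (5 * (Real.exp (-((M : ℝ) ^ 10 / 1000)) * Real.exp 1)) := by ring
        _ ≤ C.N0 * C.D.a r * (Real.exp (-(M : ℝ) ^ 9) * Real.exp (-(C.D.a r / h))) := by gcongr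
        _ = _ := by ring

/-- summation of negligible terms over harmonics -/
theorem sum_exp_harm (r : ι) (hr : r ∈ C.D.s) (ω : ℝ) (hω : 0 < ω) (hω' : ω * C.d ≤ 3 * (M : ℝ) ^ 8000)
    (F : Finset ℕ) (hF : ∀ k ∈ F, 1 ≤ k) :
    ∑ k ∈ F, C.D.a r * Real.exp (-(C.D.a r / (ω / k))) ≤ 3 * (M : ℝ) ^ 8000 / C.d := by
  have ha := C.apos r hr
  set a := C.D.a r
  have h1 : ∀ N : ℕ, ∑ k ∈ Icc 1 N, a * Real.exp (-(a / (ω / k))) ≤
      ω * (1 - Real.exp (-(a / (ω / N)))) := by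
    intro N
    induction N with
    | zero => simp
    | succ N ih =>
      rw [Finset.sum_Icc_succ_top (by omega)]
      have e : -(a / (ω / (N : ℝ))) = a / ω + -(a / (ω / ((N + 1 : ℕ) : ℝ))) := by
        rw [div_div_eq_mul_div, div_div_eq_mul_div]
        push_cast
        ring
      rw [e, Real.exp_add] at ih
      have q1 := mul_le_mul_of_nonneg_left (Real.add_one_le_exp (a / ω)) hω.le
      rw [mul_add, mul_div_cancel₀ _ hω.ne'] at q1
      have q2 := mul_le_mul_of_nonneg_right q1 (Real.exp_pos (-(a / (ω / ((N + 1 : ℕ) : ℝ))))).le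
      linarith only [ih, q2]
  have h2 : F ⊆ Icc 1 (F.sup id) := fun k hk => mem_Icc.2 ⟨hF k hk, le_sup (f := id) hk⟩
  refine (sum_le_sum_of_subset_of_nonneg h2 fun k _ _ => by positivity).trans ((h1 _).trans ?_)
  rw [le_div_iff₀ C.dpos]
  have q := mul_pos (mul_pos hω (Real.exp_pos (-(a / (ω / ((F.sup id : ℕ) : ℝ)))))) C.dpos
  linarith only [hω', q]

end CDat

end Pool.Agent.Work.MP_97f157_lc.Tau
end
end

-- merged part: Pool.Agent.Work.MP_97f157_lc.TauIsoBAux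
section
/-! Far poles of the lattices of class `B`: the unblocking step. -/

noncomputable section
open Complex Finset

namespace Pool.Agent.Work.MP_97f157_lc.Tau

variable {ι : Type*}

/-- coordinate on the row `l` of the group `G` -/
def isoB_u (D : Dat ι) (Q e1 : ℝ) (G : ι) (l : ℕ) (k : ι) : ℂ :=
  (D.node (k, (l : ℤ)) - I * ((l * sp (D.a G) : ℝ) : ℂ)) /
    (((2 * Q + e1 * l) * sp (D.a G) : ℝ) : ℂ)

theorem isoB_x (D : Dat ι) {k : ι} (ha : 0 < D.a k) {Q : ℝ} (hT : D.T k ≤ 2 * Q) :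
    |D.x k| ≤ Q * sp (D.a k) / 3 := by
  unfold Dat.T at hT
  unfold sp
  have hQ : 0 ≤ Q := by linarith only [hT, ha, mul_nonneg ha.le (abs_nonneg (D.x k))]
  rw [le_div_iff₀ (by norm_num : (0 : ℝ) < 3), ← mul_div_assoc, le_div_iff₀ ha]
  linarith only [hT, hQ, Real.pi_gt_three, mul_nonneg_of_nonpos_of_nonpos (Mathlib.Tactic.Linarith.sub_nonpos_of_le hQ) (le_of_lt (Mathlib.Tactic.Linarith.sub_neg_of_lt Real.pi_gt_three))]

theorem isoB_near (D : Dat ι) {B : Finset ι} (ha : ∀ k ∈ B, 0 < D.a k) {gr : ι → ι} {e1 e0 : ℝ}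
    (hgr : RClus B (fun k => (sp (D.a k) : ℂ)) gr e1 e0) {k : ι} (hk : k ∈ B) :
    |sp (D.a k) - sp (D.a (gr k))| ≤ e1 / 4 * sp (D.a (gr k)) := by
  have h := hgr.near k hk
  rwa [← Complex.ofReal_sub, Complex.norm_real, Complex.norm_real, Real.norm_eq_abs,
    Real.norm_of_nonneg (sp_pos (ha _ (hgr.mem k hk))).le] at h

theorem isoB_sub (D : Dat ι) (k : ι) (l : ℕ) (b : ℝ) :
    D.node (k, (l : ℤ)) - I * ((l * b : ℝ) : ℂ) =
      (D.x k : ℂ) + I * (sp (D.a k) - b : ℝ) * (l : ℂ) := by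
  unfold Dat.node
  push_cast
  ring

theorem isoB_dist (D : Dat ι) {B : Finset ι} (ha : ∀ k ∈ B, 0 < D.a k) {gr : ι → ι}
    {Q e1 e0 : ℝ} (hT : ∀ k ∈ B, D.T k ≤ 2 * Q) (hQ : 0 ≤ Q) (he1 : e1 ≤ 1)
    (hgr : RClus B (fun k => (sp (D.a k) : ℂ)) gr e1 e0) {k : ι} (hk : k ∈ B) (l : ℕ) :
    ‖D.node (k, (l : ℤ)) - I * ((l * sp (D.a (gr k)) : ℝ) : ℂ)‖ ≤
      (2 * Q + e1 * l) * sp (D.a (gr k)) / 4 := by
  have h1 := isoB_x D (ha k hk) (hT k hk)
  have h2 := isoB_near D ha hgr hk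
  have h3 := sp_pos (ha _ (hgr.mem k hk))
  have h4 := (abs_le.1 h2).2
  have hl : (0 : ℝ) ≤ l := Nat.cast_nonneg l
  rw [isoB_sub]
  refine (norm_add_le _ _).trans ?_
  rw [norm_mul, norm_mul, Complex.norm_I, one_mul, Complex.norm_real, Complex.norm_real,
    Real.norm_eq_abs, Real.norm_eq_abs, Complex.norm_natCast]
  have h5 := mul_le_mul_of_nonneg_right h2 hl
  have h6 : sp (D.a k) ≤ 3 / 2 * sp (D.a (gr k)) := by nlinarith only [he1, h3, h4]
  have h7 := mul_le_mul_of_nonneg_left h6 hQ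
  linarith only [h1, h5, h7]

theorem isoB_im (D : Dat ι) (ν : ι × ℤ) : (D.node ν).im = ν.2 * sp (D.a ν.1) := by
  simp [Dat.node]

theorem isoB_mem (D : Dat ι) (B : Finset ι) (L : ℕ) (ν : ι × ℤ) :
    ν ∈ D.pB B L ↔ ν.1 ∈ B ∧ -(L : ℤ) ≤ ν.2 ∧ ν.2 ≤ L ∧ ¬ (D.fl ν.1 = true ∧ ν.2 = 0) := by
  simp only [Dat.pB, mem_filter, mem_product, mem_Icc, and_assoc]

theorem isoB_reindex (D : Dat ι) (B : Finset ι) (gr : ι → ι) (G : ι) {L l : ℕ} (hl : 1 ≤ l)
    (hL : l ≤ L) [DecidableEq (ι × ℤ)] (U : ι × ℤ → ℂ) (C : ℝ) :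
    NB ((D.pB B L).filter (fun ν => (gr ν.1, ν.2) = (G, (l : ℤ)))) U (fun _ => 0)
        (fun ν => (D.W ν.1 : ℂ)) C ↔
      NB (cls B gr G) (fun k => U (k, (l : ℤ))) (fun _ => 0) (fun k => (D.W k : ℂ)) C := by
  refine NB.reindex (fun k => (k, (l : ℤ))) (fun k hk => ?_) (fun a _ b _ h => (Prod.mk.inj h).1)
    fun ν hν => ?_
  · obtain ⟨h1, h2⟩ := mem_cls.1 hk
    refine mem_filter.2 ⟨(isoB_mem D B L _).2 ⟨h1, ?_, ?_, ?_⟩, by rw [h2]⟩
    · show -(L : ℤ) ≤ (l : ℤ)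
      omega
    · show (l : ℤ) ≤ (L : ℤ)
      omega
    · rintro ⟨-, h⟩
      have : (l : ℤ) = 0 := h
      omega
  · obtain ⟨h1, h2⟩ := mem_filter.1 hν
    obtain ⟨h3, h4⟩ := Prod.mk.inj h2
    exact ⟨ν.1, mem_cls.2 ⟨((isoB_mem D B L ν).1 h1).1, h3⟩, Prod.ext rfl h4.symm⟩

/-- two nodes of the same atom are close -/
theorem isoB_atom {κ : Type*} {P : Finset κ} {x : κ → ℂ} {bt : κ → κ} {a1 a0 r : ℝ}
    (h : RClus P x bt a1 a0) (h0 : 0 < a1) (h1 : a1 ≤ 1 / 2) {ν ν1 : κ} (hν : ν ∈ P)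
    (hν1 : ν1 ∈ P) (e : bt ν = bt ν1) (hr : ‖x ν1‖ ≤ 3 / 4 * r) :
    ‖x (bt ν1)‖ ≤ r ∧ ‖x ν - x ν1‖ ≤ a1 / 2 * r := by
  have h2 := h.near ν hν
  have h3 := h.near ν1 hν1
  rw [e] at h2
  have h4 := norm_sub_norm_le (x (bt ν1)) (x ν1)
  rw [norm_sub_rev] at h4
  have h5 := norm_nonneg (x (bt ν1))
  have h6 : ‖x (bt ν1)‖ ≤ r := by nlinarith only [h1, hr, h3, h4, h5]
  refine ⟨h6, ?_⟩
  have h7 := norm_sub_le (x ν - x (bt ν1)) (x ν1 - x (bt ν1))
  rw [sub_sub_sub_cancel_right] at h7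
  nlinarith only [h0, h2, h3, h6, h7]

theorem isoB_good (D : Dat ι) (B : Finset ι) {n L : ℕ} (hB : B.card ≤ n)
    (ha : ∀ k ∈ B, 0 < D.a k) {Q e1 e0 a1 a0 : ℝ} (hT : ∀ k ∈ B, D.T k ≤ 2 * Q)
    (bt : ι × ℤ → ι × ℤ) (hbt : RClus (D.pB B L) D.node bt a1 a0)
    (hne : ∀ ν ∈ D.pB B L, D.node ν ≠ 0)
    (gr : ι → ι) (hgr : RClus B (fun k => (sp (D.a k) : ℂ)) gr e1 e0)
    (j : ℕ) (E : ℝ) (hE0 : 0 ≤ E)
    (hE : ∀ α ∈ D.pB B L, bt α = α → Nm (cls (D.pB B L) bt α) (rv D.node bt a1) (fun _ => 0)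
      (fun ν => (D.W ν.1 : ℂ)) / ‖D.node α‖ ^ (j + 1) ≤ E)
    (G : ι) (hG : G ∈ B) (l : ℕ) (hl : 1 ≤ l) (hlL : l ≤ L) (hlQ : (l : ℝ) ≤ Q)
    (he1 : 0 < e1) (he1' : e1 ≤ 1) (ha1 : 0 < a1) (ha1' : a1 ≤ 1 / 2) (ha0 : 0 < a0)
    (ha0' : a0 ≤ 1) (heL : e1 * L ≤ Q) (hae : 12 * Q * a1 ≤ e0) (he0 : e0 ≤ 1)
    (hun : ∀ k1 ∈ B, gr k1 = G → ∀ k' ∈ B, ∀ n' : ℕ, 1 ≤ n' →
      |n' * sp (D.a k') - l * sp (D.a k1)| ≤ e0 / 4 * (l * sp (D.a k1)) →
        (gr k' = G ∧ n' = l) ∨ sp (D.a (gr k')) < sp (D.a G))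
    (B2 : ℝ) (hB2 : 0 ≤ B2)
    (hIH : ∀ G' ∈ B, gr G' = G' → sp (D.a G') < sp (D.a G) → ∀ l' : ℕ, 1 ≤ l' → l' ≤ L →
      NB (cls B gr G') (isoB_u D Q e1 G' l') (fun _ => 0) (fun k => (D.W k : ℂ)) B2) :
    NB (cls B gr G) (isoB_u D Q e1 G l) (fun _ => 0) (fun k => (D.W k : ℂ))
      ((D.pB B L).card * (E * (3 * Q * sp (D.a G)) ^ (j + 1) +
        576 ^ n * (4 / (a0 / (8 * Q))) ^ (n * n) * B2)) := by
  classical
  have hl1 : (1 : ℝ) ≤ l := by exact_mod_cast hl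
  have hQ : 1 ≤ Q := hl1.trans hlQ
  have hb := sp_pos (ha G hG)
  have hsc : ∀ l' : ℕ, l' ≤ L → 0 ≤ e1 * l' ∧ e1 * l' ≤ Q := fun l' h =>
    ⟨by positivity, (mul_le_mul_of_nonneg_left (by exact_mod_cast h) he1.le).trans heL⟩
  obtain ⟨s1, s2⟩ := hsc l hlL
  set lam := (2 * Q + e1 * l) * sp (D.a G) with hlam
  have hlam1 : 2 * Q * sp (D.a G) ≤ lam := mul_le_mul_of_nonneg_right (by linarith only [s1]) hb.le
  have hlam2 : lam ≤ 3 * Q * sp (D.a G) := mul_le_mul_of_nonneg_right (by linarith only [s2]) hb.le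
  have hlam0 : 0 < lam := lt_of_lt_of_le (by positivity) hlam1
  have hY : ∀ ν1 ∈ D.pB B L, (gr ν1.1, ν1.2) = (G, (l : ℤ)) →
      ‖D.node ν1 - I * ((l * sp (D.a G) : ℝ) : ℂ)‖ ≤ lam / 4 ∧ ‖D.node ν1‖ ≤ 3 / 4 * lam := by
    rintro ⟨k1, l1⟩ h1 h2
    obtain ⟨h3, h4⟩ := Prod.mk.inj h2
    dsimp only at h3 h4
    subst h4
    have h5 := isoB_dist D ha hT (by linarith only [hlQ, ha1, ha1', hl1]) he1' hgr ((isoB_mem D B L _).1 h1).1 l
    dsimp only at h5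
    rw [h3] at h5
    refine ⟨h5, ?_⟩
    have h6 := norm_add_le (D.node (k1, (l : ℤ)) - I * ((l * sp (D.a G) : ℝ) : ℂ))
      (I * ((l * sp (D.a G) : ℝ) : ℂ))
    rw [sub_add_cancel, norm_mul, Complex.norm_I, one_mul, Complex.norm_real,
      Real.norm_of_nonneg (by positivity)] at h6
    have h7 := mul_le_mul_of_nonneg_right hlQ hb.le
    linarith only [hlam1, h5, h6, h7]
  have hX : ∀ ν ∈ D.pB B L, ∀ ν1 ∈ D.pB B L, (gr ν1.1, ν1.2) = (G, (l : ℤ)) → bt ν = bt ν1 →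
      ‖D.node ν - I * ((l * sp (D.a G) : ℝ) : ℂ)‖ ≤ lam / 2 := fun ν h0 ν1 h1 h2 h3 => by
    obtain ⟨h4, h5⟩ := hY ν1 h1 h2
    have h6 := (isoB_atom hbt ha1 ha1' h0 h1 h3 h5).2
    have h7 := norm_add_le (D.node ν - D.node ν1) (D.node ν1 - I * ((l * sp (D.a G) : ℝ) : ℂ))
    rw [sub_add_sub_cancel] at h7
    nlinarith only [ha1', hlam1, hlam2, h4, h6, h7]
  refine (isoB_reindex D B gr G hl hlL
    (fun ν => (D.node ν - I * ((l * sp (D.a G) : ℝ) : ℂ)) / (lam : ℂ)) _).1 ?_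
  refine ustep (D.pB B L) D.node (fun ν => (D.W ν.1 : ℂ)) bt (fun ν => (gr ν.1, ν.2)) (G, (l : ℤ))
    _ lam hlam0 n (a0 / (8 * Q)) _ B2 (by positivity) ?_ (by positivity) hB2 (fun y => ?_) hX
    (fun ν1 h1 h2 => ?_) fun ν h0 ν1 h1 h2 h3 h4 => ?_
  · rw [div_le_one (by positivity)]
    linarith only [hlQ, ha1, ha1', ha0', hl1]
  · refine le_trans (card_le_card_of_injOn Prod.fst (fun ν hν => ?_) fun ν hν ν' hν' e => ?_) hB
    · exact ((isoB_mem D B L ν).1 (mem_filter.1 hν).1).1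
    · have e1 := (mem_filter.1 hν).2
      have e2 := (mem_filter.1 hν').2
      exact Prod.ext e (Prod.mk.inj (e1.trans e2.symm)).2
  · obtain ⟨h4, h5⟩ := hY ν1 h1 h2
    have h6 := (isoB_atom hbt ha1 ha1' h1 h1 rfl h5).1
    have hα := hbt.mem ν1 h1
    have hαα := hbt.idem ν1 h1
    have h7 := hX _ hα ν1 h1 h2 hαα
    have h8 := norm_pos_iff.2 (hne _ hα)
    refine ⟨D.node (bt ν1), a1 * ‖D.node (bt ν1)‖, by positivity, by nlinarith only [ha1, ha1', hlam1, hlam2, h6, h7], ?_⟩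
    have h9 := hE _ hα hαα
    rw [div_le_iff₀ (by positivity)] at h9
    have h10 : NB (cls (D.pB B L) bt (bt ν1)) (rv D.node bt a1) (fun _ => 0)
        (fun ν => (D.W ν.1 : ℂ)) (E * (3 * Q * sp (D.a G)) ^ (j + 1)) := by
      refine (nb_Nm (fun ν hν => ?_) (by simp)).mono (h9.trans ?_)
      · exact (hbt.rv_le ha1 hne ν (mem_cls.1 hν).1).trans (by norm_num)
      · exact mul_le_mul_of_nonneg_left (pow_le_pow_left₀ h8.le (h6.trans hlam2) _) hE0
    refine h10.recenter_le (((Mu.fst.smul (D.node (bt ν1) / (‖D.node (bt ν1)‖ : ℂ))).congr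
      fun ν hν => ?_).mono (le_of_eq ?_)) Mu.snd
    · have c1 : (a1 : ℂ) ≠ 0 := by exact_mod_cast ha1.ne'
      have c2 : (‖D.node (bt ν1)‖ : ℂ) ≠ 0 := by exact_mod_cast h8.ne'
      have c3 := hne _ hα
      rw [rv, (mem_cls.1 hν).2]
      push_cast
      field_simp
    · rw [norm_div, Complex.norm_real, norm_norm, div_self h8.ne', mul_one]
  · obtain ⟨h5, h6⟩ := hY ν1 h1 h2
    have h7 := (isoB_atom hbt ha1 ha1' h0 h1 h3 h6).2
    have h8 := hX ν h0 ν1 h1 h2 h3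
    obtain ⟨k1, l1⟩ := ν1
    obtain ⟨k', l'⟩ := ν
    obtain ⟨g1, g2⟩ := Prod.mk.inj h2
    dsimp only at g1 g2 h4
    subst g2
    have k1B : k1 ∈ B := ((isoB_mem D B L _).1 h1).1
    obtain ⟨k'B, -, hl'L, -⟩ := (isoB_mem D B L _).1 h0
    dsimp only at k'B hl'L
    have n1 := abs_le.1 (isoB_near D ha hgr k1B)
    rw [g1] at n1
    have n2 : sp (D.a G) ≤ 2 * sp (D.a k1) := by nlinarith only [he1', hb, n1, n1.1]
    have n3 := (Complex.abs_im_le_norm _).trans h7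
    rw [Complex.sub_im, isoB_im, isoB_im] at n3
    dsimp only at n3
    push_cast at n3
    have b1 := sp_pos (ha k1 k1B)
    have b2 := sp_pos (ha k' k'B)
    have n4 : |(l' : ℝ) * sp (D.a k') - l * sp (D.a k1)| ≤ e0 / 4 * (l * sp (D.a k1)) := by
      refine n3.trans ?_
      have t1 : a1 / 2 * lam ≤ a1 / 2 * (3 * Q * (2 * sp (D.a k1))) :=
        mul_le_mul_of_nonneg_left (hlam2.trans
          (mul_le_mul_of_nonneg_left n2 (by positivity))) (by positivity)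
      have t2 := mul_le_mul_of_nonneg_right hae b1.le
      have t3 : 0 ≤ e0 := le_trans (by positivity) hae
      have t4 : e0 / 4 * sp (D.a k1) ≤ e0 / 4 * (l * sp (D.a k1)) :=
        mul_le_mul_of_nonneg_left (le_mul_of_one_le_left b1.le hl1) (by positivity)
      linarith only [t1, t2, t4]
    have n5 : (0 : ℝ) < l' := by
      have t1 := (abs_le.1 n4).1
      have t2 : 0 < (l : ℝ) * sp (D.a k1) := by positivity
      have t3 : 0 < (l' : ℝ) * sp (D.a k') := by nlinarith only [ha1, ha1', he0, t1, t2]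
      exact (mul_pos_iff_of_pos_right b2).1 t3
    have n6 : 0 < l' := by exact_mod_cast n5
    obtain ⟨n', rfl⟩ := Int.eq_ofNat_of_zero_le n6.le
    have n7 : 1 ≤ n' := by omega
    have n8 : n' ≤ L := by omega
    have n9 : sp (D.a (gr k')) < sp (D.a G) := by
      refine (hun k1 k1B g1 k' k'B n' n7 (by exact_mod_cast n4)).resolve_left ?_
      rintro ⟨t1, t2⟩
      exact h4 (by rw [t1, t2])
    have gB := hgr.mem k' k'B
    have b3 := sp_pos (ha _ gB)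
    obtain ⟨s3, s4⟩ := hsc n' n8
    have q1 : (2 * Q + e1 * n') * sp (D.a (gr k')) ≤ 3 * Q * sp (D.a (gr k')) :=
      mul_le_mul_of_nonneg_right (by linarith only [s4]) b3.le
    have q2 : 3 * Q * sp (D.a (gr k')) ≤ 3 * Q * sp (D.a G) :=
      mul_le_mul_of_nonneg_left n9.le (by positivity)
    have q0 : 0 < (2 * Q + e1 * n') * sp (D.a (gr k')) := by positivity
    have q3 : ∀ ν' ∈ D.pB B L, (gr ν'.1, ν'.2) = (gr k', (n' : ℤ)) →
        ‖D.node ν' - I * ((n' * sp (D.a (gr k')) : ℝ) : ℂ)‖ ≤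
          (2 * Q + e1 * n') * sp (D.a (gr k')) / 4 ∧ sp (D.a (gr k')) / 2 ≤ ‖D.node ν'‖ := by
      rintro ⟨k2, l2⟩ t1 t2
      obtain ⟨t3, t4⟩ := Prod.mk.inj t2
      dsimp only at t3 t4
      subst t4
      have k2B : k2 ∈ B := ((isoB_mem D B L _).1 t1).1
      have t5 := isoB_dist D ha hT (by linarith only [hlQ, ha1, ha1', hl1]) he1' hgr k2B n'
      have t6 := abs_le.1 (isoB_near D ha hgr k2B)
      rw [t3] at t5 t6
      refine ⟨t5, le_trans ?_ ((le_abs_self _).trans (Complex.abs_im_le_norm _))⟩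
      rw [isoB_im]
      dsimp only
      push_cast
      have t7 : (1 : ℝ) ≤ n' := by exact_mod_cast n7
      have t8 := le_mul_of_one_le_left (sp_pos (ha k2 k2B)).le t7
      nlinarith only [he1', b3, t6, t8, t6.1]
    refine ⟨I * ((n' * sp (D.a (gr k')) : ℝ) : ℂ), (2 * Q + e1 * n') * sp (D.a (gr k')), q0, ?_,
      fun ν' t1 t2 => (q3 ν' t1 t2).1.trans (by linarith only [q0]), fun ν' t1 ν'' t2 t3 t4 t5 => ?_, ?_⟩
    · have t1 := (q3 _ h0 rfl).1
      have t2 := norm_sub_le (D.node (k', (n' : ℤ)) - I * ((l * sp (D.a G) : ℝ) : ℂ))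
        (D.node (k', (n' : ℤ)) - I * ((n' * sp (D.a (gr k')) : ℝ) : ℂ))
      rw [sub_sub_sub_cancel_left] at t2
      linarith only [hlam1, hlam0, h8, q1, q2, t1, t2]
    · refine le_trans ?_ (hbt.sep ν' t1 ν'' t2 t5).le
      have t6 := le_min (q3 ν' t1 t3).2 (q3 ν'' t2 t4).2
      refine le_trans ?_ (mul_le_mul_of_nonneg_left t6 ha0.le)
      refine (mul_le_mul_of_nonneg_left q1 (by positivity)).trans ?_
      rw [show a0 / (8 * Q) * (3 * Q * sp (D.a (gr k'))) = 3 / 8 * (a0 * sp (D.a (gr k'))) by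
        field_simp]
      have t7 : 0 < a0 * sp (D.a (gr k')) := by positivity
      linarith only [t7]
    · exact (isoB_reindex D B gr (gr k') n7 n8 _ _).2
        (hIH _ gB (hgr.idem k' k'B) n9 n' n7 n8)

end Pool.Agent.Work.MP_97f157_lc.Tau
end
end
end
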