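import Pool.Agent.Work.MP_97f157_lc.TauApxHAux
import Pool.Agent.Work.MP_97f157_lc.TauH1

-- merged part: Pool.Agent.Work.MP_97f157_lc.TauLoc
section
/-! Choice of probe positions. -/

noncomputable section
open Finset

namespace Pool.Agent.Work.MP_97f157_lc.Tau

theorem loc_reduce {x d : ℝ} {q : ℕ} {p : ℤ} (hq : 1 ≤ q) (h : |q * x - p| ≤ d) :
    ∃ (q' : ℕ) (p' : ℤ), 1 ≤ q' ∧ q' ≤ q ∧ IsCoprime (q' : ℤ) p' ∧ |q' * x - p'| ≤ d := by
  obtain ⟨g, q', p', hg, hc, e1, e2⟩ := Int.exists_gcd_one' (m := (q : ℤ)) (n := p)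
    (Int.gcd_pos_of_ne_zero_left _ (by omega))
  have hq' : 0 < q' := by
    by_contra hn
    have : q' * g ≤ 0 := mul_nonpos_of_nonpos_of_nonneg (not_lt.1 hn) (by positivity)
    omega
  lift q' to ℕ using hq'.le
  have e3 : q = q' * g := by exact_mod_cast e1
  refine ⟨q', p', by omega, e3 ▸ Nat.le_mul_of_pos_right _ hg, Int.isCoprime_iff_gcd_eq_one.2 hc,
    le_trans ?_ h⟩
  have e4 : (q : ℝ) * x - p = (q' * x - p') * g := by
    rw [e3, e2]; push_cast; ring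
  have : (1 : ℝ) ≤ g := by exact_mod_cast hg
  rw [e4, abs_mul, Nat.abs_cast]
  exact le_mul_of_one_le_right (abs_nonneg _) this

theorem loc_free {α : Type*} (X : Finset α) (Q : ℕ) (S : α → Finset ℕ) (B : ℝ)
    (hS : ∀ x ∈ X, ((S x).card : ℝ) ≤ B) (h : X.card * B < Q) :
    ∃ i < Q, ∀ x ∈ X, i ∉ S x := by
  by_contra hn
  push Not at hn
  have h1 : range Q ⊆ X.biUnion S := fun i hi => mem_biUnion.2 (hn i (mem_range.1 hi))
  have h2 : Q ≤ ∑ x ∈ X, (S x).card := by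
    simpa using (card_le_card h1).trans card_biUnion_le
  have h3 : (Q : ℝ) ≤ ∑ x ∈ X, ((S x).card : ℝ) := by exact_mod_cast h2
  have h4 := sum_le_card_nsmul X _ B hS
  rw [nsmul_eq_mul] at h4
  linarith

theorem loc_abs {t M n0 Q : ℕ} (hJ : JacH t M) (X : Finset ℝ) (hX : X.card ≤ t) {δ N B : ℝ}
    (hδ : 0 < δ) (hℓ : ((t + 1) * M : ℕ) * δ ≤ 1 / 2)
    (hN : (n0 + Q + (t + 1) * M : ℕ) ≤ 2 * N) (hB0 : 0 ≤ B)
    (hB : ∀ θ : ℝ, 1 / (4 * N) ≤ θ → θ ≤ 2 * δ → 0 < θ →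
      (Q * θ + 2 * (3 * ((t + 1) * M : ℕ) * δ) + 2) * (2 * (3 * ((t + 1) * M : ℕ) * δ) / θ + 1) ≤ B)
    (hQ : t * B < Q) :
    ∃ n : ℕ, n0 ≤ n ∧ n ≤ n0 + Q + (t + 1) * M ∧
      ∀ x ∈ X, ∀ k : ℤ, |k - n * x| ≤ δ → (n : ℤ) ∣ k := by
  classical
  set ℓ := (t + 1) * M with hℓdef
  have hdich : ∀ x : ℝ, ∃ (q : ℕ) (p : ℤ),
      (∀ (q' : ℕ) (p' : ℤ), 1 ≤ q' → q' ≤ ℓ → 2 * δ < |q' * x - p'|) ∨
        (1 ≤ q ∧ q ≤ ℓ ∧ IsCoprime (q : ℤ) p ∧ |q * x - p| ≤ 2 * δ) := fun x => by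
    by_cases h : ∀ (q' : ℕ) (p' : ℤ), 1 ≤ q' → q' ≤ ℓ → 2 * δ < |q' * x - p'|
    · exact ⟨0, 0, Or.inl h⟩
    · push Not at h
      obtain ⟨q, p, h1, h2, h3⟩ := h
      obtain ⟨q', p', a1, a2, a3, a4⟩ := loc_reduce h1 h3
      exact ⟨q', p', Or.inr ⟨a1, a2.trans h2, a3, a4⟩⟩
  choose q p hqp using hdich
  let θ : ℝ → ℝ := fun x => |q x * x - p x|
  obtain ⟨i, hi, hfree⟩ := loc_free X Q (fun x => (range Q).filter fun i =>
    (1 / (4 * N) ≤ θ x ∧ θ x ≤ 2 * δ ∧ 0 < θ x) ∧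
      ∃ r : ℤ, |n0 * θ x + i * θ x - r| ≤ 3 * ℓ * δ) B (fun x _ => by
      by_cases h : 1 / (4 * N) ≤ θ x ∧ θ x ≤ 2 * δ ∧ 0 < θ x
      · refine (count_near_int (n0 * θ x) (θ x) (3 * ℓ * δ) h.2.2 (by positivity) Q _
          fun i hi => ?_).trans (hB _ h.1 h.2.1 h.2.2)
        exact ⟨mem_range.1 (mem_filter.1 hi).1, (mem_filter.1 hi).2.2⟩
      · rw [filter_eq_empty_iff.2 fun i _ hh => h hh.1, card_empty, Nat.cast_zero]
        exact hB0)
    (lt_of_le_of_lt (mul_le_mul_of_nonneg_right (by exact_mod_cast hX) hB0) hQ)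
  let P : Finset ℕ := (X.filter fun x => 1 < q x).image fun x => (q x).minFac
  have hP : ∀ r ∈ P, r.Prime := fun r hr => by
    obtain ⟨x, hx, rfl⟩ := mem_image.1 hr
    exact Nat.minFac_prime (mem_filter.1 hx).2.ne'
  choose y y1 y2 y3 using fun j : ℕ =>
    hJ P hP (card_image_le.trans ((card_filter_le _ _).trans hX)) (n0 + i + j * M)
  have y4 : ∀ j < t + 1, y j < n0 + i + ℓ := fun j hj => by
    have := y2 j
    have : (j + 1) * M ≤ ℓ := Nat.mul_le_mul_right M hj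
    linarith
  have y5 : ∀ j, n0 + i ≤ y j := fun j => le_trans (Nat.le_add_right _ _) (y1 j)
  have y6 : ∀ j j', j < j' → y j < y j' := fun j j' h => by
    have := y2 j
    have := y1 j'
    have : (j + 1) * M ≤ j' * M := Nat.mul_le_mul_right M h
    linarith
  obtain ⟨j, hj, hfree2⟩ := loc_free X (t + 1) (fun x => (range (t + 1)).filter fun j =>
    (∀ (q' : ℕ) (p' : ℤ), 1 ≤ q' → q' ≤ ℓ → 2 * δ < |q' * x - p'|) ∧
      ∃ k : ℤ, |k - y j * x| ≤ δ) 1 (fun x _ => by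
      have key : ∀ j j', j < j' → j' < t + 1 → (∀ (q' : ℕ) (p' : ℤ), 1 ≤ q' → q' ≤ ℓ →
          2 * δ < |q' * x - p'|) → (∃ k : ℤ, |k - y j * x| ≤ δ) →
          (∃ k : ℤ, |k - y j' * x| ≤ δ) → False := by
        rintro j j' h h' hI ⟨k, hk⟩ ⟨k', hk'⟩
        have a1 := y6 j j' h
        have a2 := y4 j' h'
        have a3 := y5 j
        have a4 := hI (y j' - y j) (k' - k) (by omega) (by omega)
        rw [Nat.cast_sub a1.le] at a4
        push_cast at a4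
        have b1 := abs_le.1 hk
        have b2 := abs_le.1 hk'
        refine absurd a4 (not_lt.2 (abs_le.2 ⟨?_, ?_⟩)) <;> linarith only [b1, b2, b1.1, b1.2, b2.1, b2.2]
      norm_cast
      refine card_le_one.2 fun a ha b hb => ?_
      obtain ⟨a1, a2, a3⟩ := mem_filter.1 ha
      obtain ⟨b1, -, b3⟩ := mem_filter.1 hb
      rcases lt_trichotomy a b with h | h | h
      · exact (key a b h (mem_range.1 b1) a2 a3 b3).elim
      · exact h
      · exact (key b a h (mem_range.1 a1) a2 b3 a3).elim)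
    (by
      have : (X.card : ℝ) ≤ t := by exact_mod_cast hX
      push_cast
      linarith)
  have z1 := y4 j hj
  have z2 := y5 j
  refine ⟨y j, by omega, by omega, fun x hx k hk => ?_⟩
  rcases hqp x with hI | ⟨a1, a2, a3, a4⟩
  · exact absurd (mem_filter.2 ⟨mem_range.2 hj, hI, k, hk⟩) (hfree2 x hx)
  have a2' : (q x : ℝ) ≤ ℓ := by exact_mod_cast a2
  have hr : |y j * (q x * x - p x) - (k * q x - y j * p x : ℤ)| ≤ ℓ * δ := by
    have e : y j * (q x * x - p x) - (k * q x - y j * p x : ℤ) = -(q x * (k - y j * x) : ℝ) := by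
      push_cast; ring
    rw [e, abs_neg, abs_mul, Nat.abs_cast]
    exact mul_le_mul a2' hk (abs_nonneg _) (by positivity)
  by_cases h0 : k * q x - y j * p x = 0
  · have h1 : (q x : ℤ) ∣ y j := a3.dvd_of_dvd_mul_right ⟨k, by linarith only [h0]⟩
    rcases a1.eq_or_lt with h2 | h2
    · exact ⟨p x, by rw [← h2] at h0; push_cast at h0; linarith only [h0]⟩
    · exact absurd ((Nat.minFac_dvd _).trans (Int.natCast_dvd_natCast.1 h1))
        (y3 j _ (mem_image_of_mem _ (mem_filter.2 ⟨hx, h2⟩)))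
  exfalso
  generalize k * q x - y j * p x = r at hr h0
  have r1 : (1 : ℝ) ≤ |(r : ℝ)| := by exact_mod_cast Int.one_le_abs h0
  have hr' : |y j * θ x - (|r| : ℤ)| ≤ ℓ * δ := by
    refine le_trans ?_ hr
    have := abs_abs_sub_abs_le_abs_sub (y j * (q x * x - p x) : ℝ) r
    rwa [abs_mul, Nat.abs_cast, ← Int.cast_abs] at this
  have b1 := abs_le.1 hr'
  rw [Int.cast_abs] at b1
  have θ0 : 0 ≤ θ x := abs_nonneg _
  have yN : (y j : ℝ) ≤ 2 * N := le_trans (by exact_mod_cast (by omega)) hN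
  have b2 : 1 / 2 ≤ 2 * N * θ x := by nlinarith only [hℓ, r1, b1, θ0, yN, b1.1]
  have θ1 : 0 < θ x := θ0.lt_of_ne fun e => by rw [← e] at b2; linarith only [b2]
  have N0 : 0 < N := by
    by_contra hn
    nlinarith only [hδ, hℓ, a4, r1, b1, yN, hn, not_lt.1 hn]
  refine hfree x hx (mem_filter.2 ⟨mem_range.2 hi, ⟨?_, a4, θ1⟩, |r|, ?_⟩)
  · rw [div_le_iff₀ (by positivity)]
    linarith only [b2]
  · have c1 : (n0 + i : ℝ) ≤ y j := by exact_mod_cast z2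
    have c2 : (y j : ℝ) ≤ n0 + i + ℓ := by exact_mod_cast z1.le
    have c3 : (y j - (n0 + i)) * θ x ≤ ℓ * (2 * δ) :=
      mul_le_mul (by linarith only [c2]) a4 θ0 (by positivity)
    have c4 : 0 ≤ (y j - (n0 + i)) * θ x := mul_nonneg (by linarith only [c1]) θ0
    have c5 : (0 : ℝ) ≤ ℓ * δ := by positivity
    rw [Int.cast_abs, abs_le]
    constructor <;> linarith only [b1, c3, c4, b1.1, b1.2]

theorem loc_core {m M : ℕ} (hp : Par m M) {N : ℝ} (hN : (M : ℝ) ^ 260 ≤ N) (X : Finset ℝ)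
    (hX : X.card ≤ 2 * m) :
    ∃ n : ℕ, N ≤ n ∧ n ≤ N + ((M : ℝ) ^ 146)⁻¹ * N ∧
      ∀ x ∈ X, ∀ k : ℤ, |k - n * x| ≤ ((M : ℝ) ^ 260)⁻¹ → (n : ℤ) ∣ k := by
  have u1 := hp.one_le
  have um := hp.mle
  have ub := hp.bigR
  have N0 : 0 < N := (hp.pow_pos _).trans_le hN
  set Y := ((M : ℝ) ^ 146)⁻¹ * N with hY
  have e1 : N = (M : ℝ) ^ 146 * Y := by
    rw [hY, ← mul_assoc, mul_inv_cancel₀ (hp.pow_pos _).ne', one_mul]
  have Y1 : (M : ℝ) ^ 114 ≤ Y := by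
    rw [hY, le_inv_mul_iff₀ (hp.pow_pos _), ← pow_add]
    exact hN
  have Y2 : 100 * (M : ℝ) ^ 2 ≤ Y := (hp.mul_pow_le (by norm_num) (by norm_num)).trans Y1
  have Y3 : Y ≤ N / 2 := by
    have : 2 * (M : ℝ) ^ 0 ≤ (M : ℝ) ^ 146 := hp.mul_pow_le (by norm_num) (by norm_num)
    rw [pow_zero] at this
    nlinarith only [e1, Y2, this]
  have l1 : (((2 * m + 1) * M : ℕ) : ℝ) ≤ 2 * (M : ℝ) ^ 2 := by
    push_cast
    nlinarith only [u1, um]
  have l0 : (0 : ℝ) ≤ ((2 * m + 1) * M : ℕ) := by positivity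
  have d0 : 0 < ((M : ℝ) ^ 260)⁻¹ := inv_pos.2 (hp.pow_pos _)
  have d1 : (M : ℝ) ^ 150 * ((M : ℝ) ^ 260)⁻¹ ≤ 1 := by
    rw [mul_inv_le_iff₀ (hp.pow_pos _), one_mul]
    exact hp.pow_mono (by norm_num)
  have M2 : 1 ≤ (M : ℝ) ^ 2 := one_le_pow₀ u1
  have d2 : 1000 * (M : ℝ) ^ 149 * ((M : ℝ) ^ 260)⁻¹ ≤ 1 :=
    (mul_le_mul_of_nonneg_right (hp.mul_pow_le (by norm_num) (by norm_num)) d0.le).trans d1
  have d3 : 1000 * (M : ℝ) ^ 3 * ((M : ℝ) ^ 260)⁻¹ ≤ 1 :=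
    (mul_le_mul_of_nonneg_right (hp.mul_pow_le (by norm_num) (by norm_num)) d0.le).trans d1
  have e2 : (M : ℝ) ^ 149 = (M : ℝ) ^ 146 * ((M : ℝ) ^ 2 * M) := by ring
  have e3 : (M : ℝ) ^ 3 = (M : ℝ) ^ 2 * M := by ring
  have c1 := Nat.le_ceil N
  have c2 := (Nat.ceil_lt_add_one N0.le).le
  have f1 : (⌊Y / 2⌋₊ : ℝ) ≤ Y / 2 := Nat.floor_le (by linarith only [Y2, M2])
  have f2 := Nat.lt_floor_add_one (Y / 2)
  have g4 : (M : ℝ) ≤ (M : ℝ) ^ 2 := by nlinarith only [u1]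
  rw [e2] at d2
  rw [e3] at d3
  generalize ((M : ℝ) ^ 260)⁻¹ = δ at *
  generalize (M : ℝ) ^ 146 = Z at *
  generalize (M : ℝ) ^ 2 = W at *
  have W1 : W * δ ≤ 1 / 1000 := by nlinarith only [ub, d3, mul_pos (lt_of_lt_of_le one_pos M2) d0]
  have top : ((⌈N⌉₊ + ⌊Y / 2⌋₊ + (2 * m + 1) * M : ℕ) : ℝ) ≤ N + Y := by
    rw [Nat.cast_add, Nat.cast_add]
    linarith only [ub, c2, f1, Y2, l1, g4]
  have Y0 : 0 < Y := by linarith only [ub, Y2, g4]
  obtain ⟨n, n1, n2, n3⟩ := loc_abs (n0 := ⌈N⌉₊) (Q := ⌊Y / 2⌋₊) (N := N)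
    (B := Y * (7 * W * δ) + 3 * (48 * W * δ * N + 1)) hp.jac X hX d0 (by nlinarith only [d0, l1, W1]) (by linarith only [ub, Y3, Y2, g4, top])
    (by positivity) (fun θ t1 t2 t3 => by
      generalize (((2 * m + 1) * M : ℕ) : ℝ) = l at *
      generalize (⌊Y / 2⌋₊ : ℝ) = Q at *
      have g1 : l * δ ≤ 2 * W * δ := mul_le_mul_of_nonneg_right l1 d0.le
      have g0 : 0 ≤ l * δ := by positivity
      have g2 : 2 * (3 * l * δ) / θ ≤ 48 * W * δ * N := by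
        rw [div_le_iff₀ (by positivity)] at t1
        rw [div_le_iff₀ t3]
        have : 12 * W * δ * 1 ≤ 12 * W * δ * (θ * (4 * N)) :=
          mul_le_mul_of_nonneg_left t1 (by positivity)
        linarith only [g1, this]
      have g3 : Q * θ * (2 * (3 * l * δ) / θ + 1) = Q * (6 * (l * δ) + θ) := by
        field_simp
        ring
      have g4 : Q * (6 * (l * δ) + θ) ≤ Y / 2 * (14 * W * δ) :=
        mul_le_mul f1 (by nlinarith only [d0, M2, t2, g1]) (by positivity) (by positivity)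
      have g5 : (2 * (3 * l * δ) + 2) * (2 * (3 * l * δ) / θ + 1) ≤ 3 * (48 * W * δ * N + 1) :=
        mul_le_mul (by linarith only [W1, g1]) (by linarith only [g2]) (by positivity) (by norm_num)
      linarith only [g3, g4, g5, add_mul (Q * θ) (2 * (3 * l * δ) + 2) (2 * (3 * l * δ) / θ + 1)])
    (by
      have g1 : ((2 * m : ℕ) : ℝ) ≤ M := by push_cast; exact um
      refine lt_of_le_of_lt (mul_le_mul_of_nonneg_right g1 (by positivity)) ?_
      have g2 : Y * (1000 * (W * M) * δ) ≤ Y * 1 := mul_le_mul_of_nonneg_left d3 Y0.le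
      have g3 : Y * (1000 * (Z * (W * M)) * δ) ≤ Y * 1 := mul_le_mul_of_nonneg_left d2 Y0.le
      rw [e1]
      linarith only [ub, f2, Y2, g4, g2, g3])
  refine ⟨n, c1.trans (by exact_mod_cast n1), le_trans (by exact_mod_cast n2) top, n3⟩

/-- Location lemma. -/
theorem location {m M : ℕ} (hp : Par m M) (h Ps σ : ℝ) (hh : 0 < h) (hσ : 0 < σ)
    (hP : (M : ℝ) ^ 260 * h ≤ Ps) (H : Finset ℝ) (hH : H.card ≤ 2 * m)
    (hη : ∀ η ∈ H, (M : ℝ) ^ 260 * σ ≤ η) :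
    ∃ n : ℕ → ℕ, ∀ c : ℕ, 1 ≤ c → c ≤ M ^ 108 → 1 ≤ n c ∧
      |n c * h / c - Ps| ≤ ((M : ℝ) ^ 146)⁻¹ * Ps ∧
      ∀ η ∈ H, ∀ k : ℕ, 1 ≤ k → |k * η - n c * h / c| ≤ σ → n c ∣ k := by
  classical
  have key : ∀ c : ℕ, ∃ n : ℕ, 1 ≤ c → 1 ≤ n ∧ |n * h / c - Ps| ≤ ((M : ℝ) ^ 146)⁻¹ * Ps ∧
      ∀ η ∈ H, ∀ k : ℕ, |k * η - n * h / c| ≤ σ → n ∣ k := fun c => by
    by_cases hc : 1 ≤ c
    swap
    · exact ⟨0, fun k => absurd k hc⟩
    have c1 : (1 : ℝ) ≤ c := by exact_mod_cast hc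
    have p0 := hp.pow_pos 260
    have hN : (M : ℝ) ^ 260 ≤ c * Ps / h := by
      rw [le_div_iff₀ hh]
      nlinarith only [hh, hP, c1, p0, mul_pos p0 hh]
    obtain ⟨n, n1, n2, n3⟩ := loc_core hp hN (H.image fun η => h / (c * η))
      (card_image_le.trans hH)
    refine ⟨n, fun _ => ⟨?_, ?_, fun η hη' k hk => ?_⟩⟩
    · have : (0 : ℝ) < n := (p0.trans_le hN).trans_le n1
      exact_mod_cast this
    · have e : n * h / c - Ps = (n - c * Ps / h) * (h / c) := by field_simp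
      have e2 : ((M : ℝ) ^ 146)⁻¹ * Ps = ((M : ℝ) ^ 146)⁻¹ * (c * Ps / h) * (h / c) := by
        generalize ((M : ℝ) ^ 146)⁻¹ = a
        field_simp
      rw [e, e2, abs_of_nonneg (mul_nonneg (by linarith only [n1]) (by positivity))]
      exact mul_le_mul_of_nonneg_right (by linarith) (by positivity)
    · have η1 := hη η hη'
      have η0 : 0 < η := (mul_pos p0 hσ).trans_le η1
      refine Int.natCast_dvd_natCast.1 (n3 _ (mem_image_of_mem _ hη') k ?_)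
      have e : ((k : ℤ) : ℝ) - n * (h / (c * η)) = (k * η - n * h / c) / η := by
        push_cast
        field_simp
      rw [e, abs_div, abs_of_pos η0, div_le_iff₀ η0, le_inv_mul_iff₀ p0]
      exact (mul_le_mul_of_nonneg_left hk p0.le).trans η1
  choose n hn using key
  exact ⟨n, fun c h1 _ => ⟨(hn c h1).1, (hn c h1).2.1, fun η a k _ b => (hn c h1).2.2 η a k b⟩⟩

end Pool.Agent.Work.MP_97f157_lc.Tau
end
end

-- merged part: Pool.Agent.Work.MP_97f157_lc.TauH2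
section
/-! The harmonic tool. -/

noncomputable section
open Complex Finset Metric

namespace Pool.Agent.Work.MP_97f157_lc.Tau

variable {ι : Type*} {m M : ℕ}

/-- indices `i ≤ I` for which `(y + i)/ω` is close to a multiple of `b` (`count_near_int`) -/
theorem count_bad_height (y ω b Δ : ℝ) (hω : 0 < ω) (hb : 0 < b) (hΔ : 0 ≤ Δ) (I : ℕ)
    (S : Finset ℕ) (hS : ∀ i ∈ S, i ≤ I ∧ ∃ l : ℤ, |(y + i) / ω - l * b| ≤ Δ) :
    (S.card : ℝ) ≤ ((I + 1) / (ω * b) + 2 * Δ / b + 2) * (2 * Δ * ω + 1) := by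
  have h := count_near_int (y / (ω * b)) (1 / (ω * b)) (Δ / b) (by positivity) (by positivity)
    (I + 1) S fun i hi => by
      obtain ⟨h1, l, h2⟩ := hS i hi
      refine ⟨by omega, l, ?_⟩
      rw [show y / (ω * b) + i * (1 / (ω * b)) - l = ((y + i) / ω - l * b) / b by field_simp,
        abs_div, abs_of_pos hb]
      exact div_le_div_of_nonneg_right h2 hb.le
  convert h using 2
  · push_cast; ring
  · field_simp

theorem H2_reg {jc j : ℕ} {d Dd τ : ℝ} (hd : 0 ≤ d) (h : Reg M 1 jc d j Dd τ) :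
    Reg M 2 jc d j Dd τ := by
  have h1 : (0 : ℝ) ≤ (M : ℝ) ^ 7994 := by positivity
  have h2 : (0 : ℝ) ≤ d * ((M : ℝ) ^ 5)⁻¹ := by positivity
  refine ⟨by linarith [h.hj], h.hD1, h.hD2, by linarith [h.hτ1], ?_⟩
  have := h.hτ2
  rw [mul_assoc] at this ⊢
  linarith

theorem H2_bad (hp : Par m M) (y : ℝ) (I : ℕ) (hI : (I : ℝ) = (M : ℝ) ^ 5907) (Cs : Finset ℕ)
    (hCs : (Cs.card : ℝ) ≤ (M : ℝ) ^ 108) (BB : Finset ℝ) (hBB : (BB.card : ℝ) ≤ M) (w : ℕ → ℝ)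
    (hw : ∀ c ∈ Cs, 0 < w c ∧ ∀ b ∈ BB, (M : ℝ) ^ 5880 / 2 ≤ w c * b) :
    ∃ bad : Finset ℕ, (bad.card : ℝ) * (M : ℝ) ^ 34 ≤ (M : ℝ) ^ 5900 ∧ ∀ i ≤ I, i ∉ bad →
      ∀ c ∈ Cs, ∀ b ∈ BB, ∀ l : ℤ, 2 * (M : ℝ) ^ 5725 / w c ≤ |(y + i) / w c - l * b| := by
  classical
  let T : ℕ × ℝ → Finset ℕ := fun p => (range (I + 1)).filter fun i =>
    ∃ l : ℤ, |(y + i) / w p.1 - l * p.2| ≤ 2 * (M : ℝ) ^ 5725 / w p.1
  have hM := hp.pos
  have hT : ∀ p ∈ Cs ×ˢ BB, ((T p).card : ℝ) ≤ 40 * (M : ℝ) ^ 5752 := by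
    rintro ⟨c, b⟩ hcb
    obtain ⟨hc, hb⟩ := mem_product.1 hcb
    obtain ⟨w0, hwb⟩ := hw c hc
    have hwb := hwb b hb
    have p1 := hp.pow_pos 5880
    have wb0 : 0 < w c * b := by linarith
    have b0 : 0 < b := (mul_pos_iff_of_pos_left w0).1 wb0
    have h := count_bad_height y (w c) b (2 * (M : ℝ) ^ 5725 / w c) w0 b0 (by positivity) I
      (T (c, b)) fun i hi => by
        obtain ⟨h1, h2⟩ := mem_filter.1 hi
        exact ⟨by have := mem_range.1 h1; omega, h2⟩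
    have a0 : (1 : ℝ) ≤ (M : ℝ) ^ 27 := one_le_pow₀ hp.one_le
    have a1 : (1 : ℝ) ≤ (M : ℝ) ^ 5725 := one_le_pow₀ hp.one_le
    have a2 : 5 * (M : ℝ) ^ 5725 ≤ (M : ℝ) ^ 5907 := hp.mul_pow_le (by norm_num) (by norm_num)
    have e1 : 2 * (2 * (M : ℝ) ^ 5725 / w c) * w c + 1 ≤ 5 * (M : ℝ) ^ 5725 := by
      rw [mul_assoc, div_mul_cancel₀ _ w0.ne']; linarith
    have e2 : ((I : ℝ) + 1) / (w c * b) + 2 * (2 * (M : ℝ) ^ 5725 / w c) / b + 2
        ≤ 8 * (M : ℝ) ^ 27 := by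
      have e3 : ((I : ℝ) + 1) / (w c * b) + 2 * (2 * (M : ℝ) ^ 5725 / w c) / b =
          (I + 1 + 4 * (M : ℝ) ^ 5725) / (w c * b) := by field_simp; ring
      have e4 : ((I : ℝ) + 1 + 4 * (M : ℝ) ^ 5725) / (w c * b) ≤ 6 * (M : ℝ) ^ 27 := by
        rw [div_le_iff₀ wb0]
        have e5 : (M : ℝ) ^ 5907 = (M : ℝ) ^ 27 * (M : ℝ) ^ 5880 := by rw [← pow_add]
        have e6 := mul_le_mul_of_nonneg_left hwb (show 0 ≤ 6 * (M : ℝ) ^ 27 by positivity)
        linarith only [hI, a1, a2, e6]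
      linarith only [a0, e3, e4]
    refine h.trans ((mul_le_mul e2 e1 (by positivity) (by positivity)).trans (le_of_eq ?_))
    rw [show 5752 = 27 + 5725 from rfl, pow_add]; ring
  refine ⟨(Cs ×ˢ BB).biUnion T, ?_, fun i hi hn c hc b hb l => ?_⟩
  · have h1 : (((Cs ×ˢ BB).biUnion T).card : ℝ) ≤ ∑ p ∈ Cs ×ˢ BB, ((T p).card : ℝ) := by
      exact_mod_cast card_biUnion_le
    have h2 := h1.trans (sum_le_card_nsmul _ _ _ hT)
    rw [card_product, nsmul_eq_mul, Nat.cast_mul] at h2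
    have h3 : (Cs.card : ℝ) * BB.card ≤ (M : ℝ) ^ 108 * M :=
      mul_le_mul hCs hBB (by positivity) (by positivity)
    have h4 := h2.trans (mul_le_mul_of_nonneg_right h3 (by positivity))
    refine (mul_le_mul_of_nonneg_right h4 (by positivity)).trans (le_trans (le_of_eq ?_)
      (hp.mul_pow_le (c := 40) (i := 5895) (by norm_num) (by norm_num)))
    rw [show 5895 = 108 + 1 + 5752 + 34 from rfl, pow_add, pow_add, pow_add, pow_one]; ring
  · by_contra hlt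
    exact hn (mem_biUnion.2 ⟨(c, b), mem_product.2 ⟨hc, hb⟩,
      mem_filter.2 ⟨mem_range.2 (by omega), l, (not_le.1 hlt).le⟩⟩)

theorem H2_num (hp : Par m M) :
    Real.exp (-(M : ℝ) ^ 5) + (M * Real.exp (-(M : ℝ) ^ 9) +
      Real.exp (-((M : ℝ) ^ 10 / 4)) * Real.exp M) ≤
      Real.exp (-(M : ℝ) ^ 4) / (6 * (M : ℝ) ^ 4125) := by
  have hM := hp.pos
  have h1 := hp.one_le
  have a1 : (M : ℝ) ≤ (M : ℝ) ^ 4 := by simpa using hp.pow_mono (i := 1) (k := 4) (by norm_num)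
  have a2 : 20 * (M : ℝ) ^ 4 ≤ (M : ℝ) ^ 5 := hp.mul_pow_le (by norm_num) (by norm_num)
  have a3 : (M : ℝ) ^ 5 ≤ (M : ℝ) ^ 9 := hp.pow_mono (by norm_num)
  have a4 : (M : ℝ) ^ 5 ≤ (M : ℝ) ^ 10 := hp.pow_mono (by norm_num)
  have b1 : 18 * (M : ℝ) ^ 4125 ≤ Real.exp M :=
    (hp.mul_pow_le (k := 4126) (by norm_num) (by norm_num)).trans (hp.pow_le_exp (by norm_num))
  have b2 : (M : ℝ) ≤ Real.exp M := by linarith [Real.add_one_le_exp (M : ℝ)]
  have c1 : Real.exp (-(M : ℝ) ^ 5) ≤ Real.exp (-(M : ℝ) ^ 4 - M) :=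
    Real.exp_le_exp.2 (by linarith)
  have c2 : M * Real.exp (-(M : ℝ) ^ 9) ≤ Real.exp (-(M : ℝ) ^ 4 - M) := by
    refine (mul_le_mul_of_nonneg_right b2 (Real.exp_pos _).le).trans ?_
    rw [← Real.exp_add]
    exact Real.exp_le_exp.2 (by linarith)
  have c3 : Real.exp (-((M : ℝ) ^ 10 / 4)) * Real.exp M ≤ Real.exp (-(M : ℝ) ^ 4 - M) := by
    rw [← Real.exp_add]
    exact Real.exp_le_exp.2 (by linarith)
  have c4 : 3 * Real.exp (-(M : ℝ) ^ 4 - M) ≤ Real.exp (-(M : ℝ) ^ 4) / (6 * (M : ℝ) ^ 4125) := by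
    rw [le_div_iff₀ (by positivity), Real.exp_sub, div_eq_mul_inv]
    have c5 : (Real.exp M)⁻¹ * (18 * (M : ℝ) ^ 4125) ≤ 1 := by
      rw [inv_mul_le_iff₀ (Real.exp_pos _), mul_one]; exact b1
    have c6 := mul_le_mul_of_nonneg_left c5 (Real.exp_pos (-(M : ℝ) ^ 4)).le
    linarith
  linarith

theorem H2_small (hp : Par m M) {k : ℕ} (hk : 0 < k) : ((M : ℝ) ^ k)⁻¹ ≤ 1 / 100 := by
  have := hp.inv_pow_le (c := 100) (i := 0) (k := k) (by norm_num) hk
  rw [pow_zero, inv_one] at this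
  linarith

namespace CDat.Sel
variable {C : CDat ι m M} (σ : C.Sel)

theorem H2_near {ω t : ℝ} (hω : |ω - σ.ω| ≤ ((M : ℝ) ^ 146)⁻¹ * σ.ω)
    (ht : |t| ≤ 2 * (M : ℝ) ^ 7446) : σ.Near σ.j ω (σ.y + t) := by
  have hp := C.par
  obtain ⟨-, -, -, -, -, hy, -⟩ := σ.near_self.facts
  have s7 := H2_small hp (k := 7) (by norm_num)
  have p7 : 0 < ((M : ℝ) ^ 7)⁻¹ := inv_pos.2 (hp.pow_pos 7)
  have p146 : 0 < ((M : ℝ) ^ 146)⁻¹ := inv_pos.2 (hp.pow_pos 146)
  have w0 : 0 ≤ C.ω0 := by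
    by_contra h
    have := (abs_nonneg _).trans σ.hω
    nlinarith only [p7, h, this]
  have y0 : 0 ≤ C.y0 := by
    by_contra h
    have := (abs_nonneg _).trans σ.hy
    nlinarith
  have w1 : σ.ω ≤ 2 * C.ω0 := by nlinarith only [s7, w0, (abs_le.1 σ.hω).2]
  have y1 : σ.y ≤ 2 * C.y0 := by nlinarith only [s7, y0, (abs_le.1 σ.hy).2]
  refine ⟨by rw [sub_self, abs_zero]; positivity, hω.trans ?_, ?_⟩
  · have := hp.inv_pow_le (c := 2) (i := 12) (k := 146) (by norm_num) (by norm_num)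
    nlinarith only [s7, p7, p146, w0, w1, this]
  · rw [add_sub_cancel_left, le_inv_mul_iff₀ (hp.pow_pos 12)]
    have a1 : 8 * (M : ℝ) ^ 7458 ≤ (M : ℝ) ^ 7995 := hp.mul_pow_le (by norm_num) (by norm_num)
    have a2 : (M : ℝ) ^ 7458 = (M : ℝ) ^ 12 * (M : ℝ) ^ 7446 := by rw [← pow_add]
    have a3 := mul_le_mul_of_nonneg_left ht (hp.pow_pos 12).le
    linarith

theorem H2_gr (k : ι) (hk : k ∈ C.D.s) :
    C.D.a (σ.gr k) ≤ 2 * C.D.a k ∧ C.D.a k ≤ 2 * C.D.a (σ.gr k) := by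
  have h := σ.hgr.near k hk
  have g0 := C.apos _ (σ.hgr.mem k hk)
  rw [← Complex.ofReal_sub, Complex.norm_real, Complex.norm_real, Real.norm_eq_abs,
    Real.norm_eq_abs, abs_of_pos g0, abs_le] at h
  have s13 := H2_small C.par (k := 13) (by norm_num)
  constructor <;> nlinarith only [h, g0, s13, h.1, h.2]

/-- the clusters outside the kept set do not matter -/
theorem H2_rest {S : Finset ι} (hS : C.Sat S) {ω y α' : ℝ} (hω : 0 < ω)
    (hωd : ω * C.d ≤ 3 * (M : ℝ) ^ 8000) {j : ℕ}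
    (hR : ∀ t : ℝ, |t| ≤ (M : ℝ) ^ 7446 → Reg M 1 C.jc C.d j (j / ω) ((y + t) / ω))
    (hb : ∀ r ∈ S, C.cl r = r → ∀ l : ℤ, 2 * (M : ℝ) ^ 5725 / ω ≤ |y / ω - l * sp (C.D.a r)|) :
    ‖avg M (C.D.lat S) C.d j ω y α'‖ * (j / ω) ^ (j + 1) ≤
      (M * Real.exp (-(M : ℝ) ^ 9) + Real.exp (-((M : ℝ) ^ 10 / 4)) * Real.exp M) * C.N0 := by
  classical
  have hp := C.par
  have hd := C.dpos
  have hN := C.N0pos
  have hD : 0 < (j : ℝ) / ω := by
    have h1 := (hR 0 (by rw [abs_zero]; positivity)).hD1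
    have s5 := H2_small hp (k := 5) (by norm_num)
    nlinarith only [hd, h1, s5]
  have hD' := pow_pos hD (j + 1)
  have h := avg_le hp (C.D.lat S) C.d j ω y α' (Real.exp M * C.N0 / (j / ω) ^ (j + 1))
    (M * Real.exp (-(M : ℝ) ^ 9) * C.N0 / (j / ω) ^ (j + 1)) (by positivity) (by positivity)
    (fun t ht => by
      rw [le_div_iff₀' hD']
      exact C.lat_le hS j _ _ (H2_reg hd.le (hR t ht)))
    (fun t ht => by
      have ht' : |t| ≤ (M : ℝ) ^ 7446 := ht.trans (hp.pow_mono (by norm_num))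
      rw [le_div_iff₀' hD', Dat.lat, sum_cls C.clus.mem C.clus.idem hS.1 hS.2]
      refine (mul_le_mul_of_nonneg_left (norm_sum_le _ _) hD'.le).trans ?_
      rw [mul_sum]
      refine (sum_le_card_nsmul _ _ (Real.exp (-(M : ℝ) ^ 9) * C.N0) fun r hr => ?_).trans ?_
      · obtain ⟨h1, h2⟩ := mem_filter.1 hr
        refine C.lat_negl r (hS.1 h1) h2 j _ _ (H2_reg hd.le (hR t ht')) fun l => ?_
        have h3 := hb r h1 h2 l
        have h4 : |t / ω| ≤ (M : ℝ) ^ 5725 / ω := by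
          rw [abs_div, abs_of_pos hω]; gcongr
        have h5 := abs_sub_abs_le_abs_sub (y / ω - l * sp (C.D.a r)) (-(t / ω))
        rw [abs_neg, show y / ω - l * sp (C.D.a r) - -(t / ω) = (y + t) / ω - l * sp (C.D.a r) by
          ring] at h5
        have h6 : (M : ℝ) ^ 5 * C.d / (M : ℝ) ^ 4000 ≤ (M : ℝ) ^ 5725 / ω := by
          rw [div_le_div_iff₀ (hp.pow_pos _) hω, mul_assoc, mul_comm C.d, ← pow_add]
          have a1 : 3 * (M : ℝ) ^ 8005 ≤ (M : ℝ) ^ (5725 + 4000) :=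
            hp.mul_pow_le (by norm_num) (by norm_num)
          have a2 : (M : ℝ) ^ 8005 = (M : ℝ) ^ 5 * (M : ℝ) ^ 8000 := by rw [← pow_add]
          have a3 := mul_le_mul_of_nonneg_left hωd (hp.pow_pos 5).le
          linarith
        rw [mul_div_assoc 2] at h3
        linarith
      · rw [nsmul_eq_mul, mul_assoc]
        refine mul_le_mul_of_nonneg_right ?_ (by positivity)
        have h1 : (S.filter fun r => C.cl r = r).card ≤ M :=
          (card_filter_le _ _).trans ((card_le_card hS.1).trans (C.card.trans (by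
            have := hp.two; omega)))
        exact_mod_cast h1)
  rw [← le_div_iff₀ hD']
  refine h.trans (le_of_eq ?_)
  ring

/-- conversion of the lower bound for the harmonic sum -/
theorem H2_main {S : Finset ι} (hS : S ⊆ C.D.s) {y α' P : ℝ} (hα' : 0 < α') (hP : 0 < P)
    (hR : Reg M 1 C.jc C.d σ.j (σ.j / (P / α')) (y / (P / α')))
    (h : 2 * σ.S * √σ.h / (M : ℝ) ^ 125 ≤ ‖∑' k : ℕ, σ.ampH S y α' (P / ((k : ℝ) + 1)) P‖) :
    Real.exp (-(M : ℝ) ^ 4) / (6 * (M : ℝ) ^ 4125) * C.N0 ≤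
      ‖avg M (C.D.lat S) C.d σ.j (P / α') y α'‖ * (σ.j / (P / α')) ^ (σ.j + 1) := by
  have hp := C.par
  have hd := C.dpos
  have hN := C.N0pos
  have hM := hp.pos
  have hω : 0 < P / α' := by positivity
  have hD : C.d / 2 ≤ σ.j / (P / α') := by
    have s5 := H2_small hp (k := 5) (by norm_num)
    nlinarith only [hd, s5, hR.hD1]
  rw [σ.ampH_sum S hS y α' P hα' hP hD, norm_mul, Complex.norm_real,
    Real.norm_of_nonneg (by positivity)] at h
  generalize P / α' = ω at *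
  generalize ‖avg M (C.D.lat S) C.d σ.j ω y α'‖ = A at *
  have j0 : (0 : ℝ) < σ.j := by
    have : 0 < σ.j / ω := by linarith
    exact (div_pos_iff_of_pos_right hω).1 this
  have j1 : 1 ≤ σ.j := by exact_mod_cast j0
  have j2 : √(σ.j : ℝ) ≤ 2 * (M : ℝ) ^ 4000 := by
    refine Real.sqrt_le_iff.2 ⟨by positivity, ?_⟩
    have a1 : (C.jc : ℝ) ≤ 2 * (M : ℝ) ^ 8000 := by exact_mod_cast C.jhi
    have a2 : (M : ℝ) ^ 7994 ≤ (M : ℝ) ^ 8000 := hp.pow_mono (by norm_num)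
    have a3 : (2 * (M : ℝ) ^ 4000) ^ 2 = 4 * (M : ℝ) ^ 8000 := by
      rw [mul_pow, ← pow_mul]; norm_num
    have a4 := hp.pow_pos 8000
    linarith [(abs_le.1 hR.hj).2]
  have st := (stirling_two j1).1
  have f0 : (0 : ℝ) < σ.j.factorial := by exact_mod_cast σ.j.factorial_pos
  have e1 : A * (σ.j / ω) ^ (σ.j + 1) = (σ.j.factorial * Real.exp σ.j / ω ^ σ.j * A) *
      ((σ.j : ℝ) ^ σ.j * Real.exp (-σ.j) / σ.j.factorial) * (σ.j / ω) := by
    rw [Real.exp_neg, pow_succ, div_pow]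
    field_simp
  have st2 : 1 / (6 * (M : ℝ) ^ 4000) ≤ (σ.j : ℝ) ^ σ.j * Real.exp (-σ.j) / σ.j.factorial := by
    refine le_trans ?_ st
    exact one_div_le_one_div_of_le (by positivity) (by linarith)
  have b1 : 2 * (Real.exp (-(M : ℝ) ^ 4) * C.N0 / C.d) / (M : ℝ) ^ 125 ≤
      σ.j.factorial * Real.exp σ.j / ω ^ σ.j * A := by
    refine le_trans ?_ h
    rw [mul_assoc 2]
    exact div_le_div_of_nonneg_right (by linarith [σ.Sbig]) (by positivity)
  have b0 : 0 ≤ 2 * (Real.exp (-(M : ℝ) ^ 4) * C.N0 / C.d) / (M : ℝ) ^ 125 := by positivity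
  rw [e1]
  refine le_trans (le_of_eq ?_) (mul_le_mul (mul_le_mul b1 st2 (by positivity) (b0.trans b1)) hD
    (by positivity) (mul_nonneg (b0.trans b1) (by positivity)))
  rw [show 4125 = 125 + 4000 from rfl, pow_add]
  field_simp

/-- Put `σH = ω / M^5715`, `α'` from `exists_alpha`, `hL = h α'`, `Ps = ω α'`,
`kept = {k | 2 M^{-165} σH ≤ a (gr k)}` (contains `G`), `H = {a r | r cluster representative in kept}`.
`location` for the spacings `η ≥ M^260 σH` of `H ∪ AA` gives `n c`, `P c = n c hL / c`,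
`ω c = P c / α'`.  Bad `i`: for some `c ≤ M^108` and some `b ∈ HH` or `b = sp (a r)` with `r` a
representative not in `kept`, `(y + i) / ω c` is within `2 M^5725 / ω c` of `b ℤ`
(`count_bad_height`; these `b` are `≥ M^165 / σH` or `≥ d / M^268`).  `kosH`, then `latt` with
`B = 2 S √h`, `ε = exp (-M^8) N0 / d`; `ampH_sum`, `stirling_two`, `Sbig`; the clusters not in
`kept` contribute `avg_le` with `lat_le`, `lat_negl`.  A spacing `a' ∈ AA` is `≥ (1 + M^{-3}) hL`, so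
`n c ∣ n` and `|n a' - P c| ≤ σH` are incompatible. -/
theorem toolH (HH AA LL : Finset ℝ) (hD : C.Dodge HH AA LL)
    (hh : (M : ℝ) ^ 3140 < σ.h * C.d) : C.OutH HH AA := by
  classical
  have hp := C.par
  have hd := C.dpos
  have hN := C.N0pos
  have hM := hp.pos
  have h0 := σ.hpos
  have hmM : 2 * m ≤ M := hp.two
  obtain ⟨-, -, -, w1, w2, -, -⟩ := σ.near_self.facts
  rw [div_le_iff₀ hd] at w1
  have w0 : 0 < σ.ω := by
    have := hp.pow_pos 8000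
    exact (mul_pos_iff_of_pos_right hd).1 (by linarith)
  obtain ⟨-, hh2, hh3⟩ := σ.h_range
  obtain ⟨α', hα, hα'⟩ := σ.exists_alpha
  have hα1 : |α' - 1| ≤ ((M : ℝ) ^ 13)⁻¹ := by
    refine hα.trans ?_
    rw [div_eq_mul_inv]
    exact hp.inv_pow_le (by linarith [Real.pi_le_four]) (by norm_num)
  have s13 := H2_small hp (k := 13) (by norm_num)
  have s146 := H2_small hp (k := 146) (by norm_num)
  obtain ⟨hα2, hα3⟩ := abs_le.1 hα1
  have α0 : 0 < α' := by linarith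
  set sH := σ.ω / (M : ℝ) ^ 5715 with hsH
  have sH0 : 0 < sH := by positivity
  have sH1 : sH * C.d ≤ 3 * (M : ℝ) ^ 2285 := by
    rw [hsH, div_mul_eq_mul_div, div_le_iff₀ (hp.pow_pos _), mul_assoc, ← pow_add]
    exact w2
  have sH2 : sH * (M : ℝ) ^ 850 ≤ σ.h / 2 := by
    refine le_of_mul_le_mul_right ?_ hd
    have a1 : 6 * (M : ℝ) ^ 3135 ≤ (M : ℝ) ^ 3140 := hp.mul_pow_le (by norm_num) (by norm_num)
    have a2 : (M : ℝ) ^ 3135 = (M : ℝ) ^ 2285 * (M : ℝ) ^ 850 := by rw [← pow_add]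
    have a3 := mul_le_mul_of_nonneg_right sH1 (hp.pow_pos 850).le
    linarith only [hh, a1, a3]
  have sH3 : sH * (M : ℝ) ^ 850 ≤ σ.h * α' := by nlinarith only [h0, s13, hα2, sH2]
  have hP : (M : ℝ) ^ 260 * (σ.h * α') ≤ σ.ω * α' := by
    rw [← mul_assoc]
    refine mul_le_mul_of_nonneg_right (le_of_mul_le_mul_right ?_ hd) α0.le
    have a1 : 9 * (M : ℝ) ^ 7998 ≤ (M : ℝ) ^ 8000 := hp.mul_pow_le (by norm_num) (by norm_num)
    have a2 : (M : ℝ) ^ 7998 = (M : ℝ) ^ 260 * (M : ℝ) ^ 7738 := by rw [← pow_add]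
    have a3 := mul_le_mul_of_nonneg_left hh2 (hp.pow_pos 260).le
    have a4 := hp.pow_pos 7998
    linarith only [w1, a1, a3, a4]
  have aG : σ.h * (1 - 3 * ((M : ℝ) ^ 13)⁻¹) ≤ C.D.a σ.G := by
    have := (abs_le.1 (hh3 σ.G σ.Gmem σ.Grep)).1
    rw [← le_div_iff₀' h0]
    linarith only [this]
  set kept := C.D.s.filter fun k => 2 * (((M : ℝ) ^ 165)⁻¹ * sH) ≤ C.D.a (σ.gr k) with hkept
  have kG : C.GSat σ.gr kept := ⟨filter_subset _ _, fun k hk => by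
    simp only [hkept, mem_filter, hk, σ.hgr.mem k hk, σ.hgr.idem k hk, true_and]⟩
  have kS : C.Sat kept := CDat.GSat.sat C σ.hgr kG
  have rS : C.Sat (C.D.s \ kept) := ⟨sdiff_subset, fun k hk => by
    simp only [mem_sdiff, hk, C.clus.mem k hk, true_and, ← kS.2 k hk]⟩
  have Gk : σ.G ∈ kept := by
    refine mem_filter.2 ⟨σ.Gmem, ?_⟩
    rw [σ.Grep]
    have a1 := H2_small hp (k := 165) (by norm_num)
    have a2 : (1 : ℝ) ≤ (M : ℝ) ^ 850 := one_le_pow₀ hp.one_le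
    nlinarith only [h0, s13, sH0, sH2, aG, a1, a2]
  set H := (kept.filter fun r => C.cl r = r).image C.D.a with hH
  have Hc : H.card ≤ m :=
    card_image_le.trans ((card_filter_le _ _).trans ((card_filter_le _ _).trans C.card))
  obtain ⟨n, hn⟩ := location hp (σ.h * α') (σ.ω * α') sH (by positivity) sH0 hP
    ((H ∪ AA).filter fun η => (M : ℝ) ^ 260 * sH ≤ η)
    ((card_filter_le _ _).trans ((card_union_le _ _).trans (by have := hD.cA; omega)))
    fun η hη => (mem_filter.1 hη).2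
  have hωc : ∀ c, 1 ≤ c → c ≤ M ^ 108 →
      |n c * (σ.h * α') / c / α' - σ.ω| ≤ ((M : ℝ) ^ 146)⁻¹ * σ.ω := fun c h1 h2 => by
    have := (hn c h1 h2).2.1
    generalize n c * (σ.h * α') / c = P at this ⊢
    rw [show P / α' - σ.ω = (P - σ.ω * α') / α' by field_simp, abs_div, abs_of_pos α0,
      div_le_iff₀ α0, mul_assoc]
    exact this
  have hωc' : ∀ c, 1 ≤ c → c ≤ M ^ 108 → σ.ω / 2 ≤ n c * (σ.h * α') / c / α' ∧
      n c * (σ.h * α') / c / α' ≤ 2 * σ.ω := fun c h1 h2 => by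
    obtain ⟨a1, a2⟩ := abs_le.1 (hωc c h1 h2)
    constructor <;> nlinarith only [hd, w1, w2, w0, s146, a1, a2]
  obtain ⟨I, hI⟩ : ∃ I : ℕ, I = M ^ 5907 := ⟨_, rfl⟩
  have hI' : (I : ℝ) = (M : ℝ) ^ 5907 := by rw [hI, Nat.cast_pow]
  obtain ⟨bad, hb1, hb2⟩ := H2_bad hp σ.y I hI' (Icc 1 (M ^ 108))
    (by rw [Nat.card_Icc, Nat.add_sub_cancel, Nat.cast_pow])
    (HH ∪ (C.D.s \ kept).image fun r => sp (C.D.a r))
    (by
      have a1 := card_union_le HH ((C.D.s \ kept).image fun r => sp (C.D.a r))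
      have a2 : ((C.D.s \ kept).image fun r => sp (C.D.a r)).card ≤ m :=
        card_image_le.trans ((card_le_card sdiff_subset).trans C.card)
      have a3 := hD.cH
      exact_mod_cast (by omega : (HH ∪ (C.D.s \ kept).image fun r => sp (C.D.a r)).card ≤ M))
    (fun c => n c * (σ.h * α') / c / α') (fun c hc => by
      obtain ⟨c1, c2⟩ := mem_Icc.1 hc
      have a1 := (hωc' c c1 c2).1
      generalize n c * (σ.h * α') / c / α' = ω at a1 ⊢
      refine ⟨by linarith only [w0, a1], fun b hb => ?_⟩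
      suffices h : (M : ℝ) ^ 5880 ≤ σ.ω * b by
        have b0 : 0 < b := (mul_pos_iff_of_pos_left w0).1 ((hp.pow_pos _).trans_le h)
        nlinarith only [a1, h, b0]
      rcases mem_union.1 hb with hb | hb
      · have a2 := (hD.hH b hb).1
        rw [div_le_iff₀ (hp.pow_pos _)] at a2
        refine le_of_mul_le_mul_right ?_ (hp.pow_pos 268)
        have a3 : 2 * (M : ℝ) ^ (5880 + 268) ≤ (M : ℝ) ^ 8000 :=
          hp.mul_pow_le (by norm_num) (by norm_num)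
        have a4 := mul_le_mul_of_nonneg_left a2 w0.le
        rw [← pow_add]
        linarith only [w1, a3, a4]
      · obtain ⟨r, hr, rfl⟩ := mem_image.1 hb
        obtain ⟨r1, r2⟩ := mem_sdiff.1 hr
        have a2 : C.D.a (σ.gr r) < 2 * (((M : ℝ) ^ 165)⁻¹ * sH) :=
          not_le.1 fun h => r2 (mem_filter.2 ⟨r1, h⟩)
        have a3 := (σ.H2_gr r r1).2
        have a4 : ((M : ℝ) ^ 165)⁻¹ * sH * (M : ℝ) ^ 5880 = σ.ω := by
          rw [hsH, show 5880 = 165 + 5715 from rfl, pow_add]; field_simp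
        have a5 := mul_le_mul_of_nonneg_right (show C.D.a r ≤ 4 * (((M : ℝ) ^ 165)⁻¹ * sH) by
          linarith only [a2, a3]) (hp.pow_pos 5880).le
        rw [sp, ← mul_div_assoc, le_div_iff₀ (C.apos r r1)]
        nlinarith only [hd, w1, w2, w0, a4, a5, Real.pi_gt_three])
  obtain ⟨i, hi1, hi2, hi3⟩ := σ.kosH α' hα' bad hb1
  rw [← hI] at hi1
  have hi4 : (i : ℝ) ≤ (M : ℝ) ^ 5907 := by rw [← hI']; exact_mod_cast hi1
  have hy : |σ.y + i - σ.y| ≤ (M : ℝ) ^ 5907 := by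
    rwa [add_sub_cancel_left, Nat.abs_cast]
  obtain ⟨c, c1, c2, hc⟩ := latt hp (σ.h * α') (σ.ω * α') sH (2 * σ.S * √σ.h)
    (Real.exp (-(M : ℝ) ^ 8) * C.N0 / C.d) (by positivity) sH0 sH3 hP (by positivity)
    (by
      have a1 : Real.exp (-(M : ℝ) ^ 8) * (M : ℝ) ^ 400 ≤ Real.exp (-(M : ℝ) ^ 4) := by
        refine (mul_le_mul_of_nonneg_left (hp.pow_le_exp (by norm_num)) (Real.exp_pos _).le).trans ?_
        rw [← Real.exp_add]
        have a1 : (M : ℝ) ≤ (M : ℝ) ^ 4 := by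
          simpa using hp.pow_mono (i := 1) (k := 4) (by norm_num)
        have a2 : 2 * (M : ℝ) ^ 4 ≤ (M : ℝ) ^ 8 := hp.mul_pow_le (by norm_num) (by norm_num)
        exact Real.exp_le_exp.2 (by linarith only [a1, a2])
      have a2 := mul_le_mul_of_nonneg_right a1 (show 0 ≤ C.N0 / C.d by positivity)
      have a3 := σ.Sbig
      have a4 : 0 ≤ σ.S * √σ.h := mul_nonneg σ.Spos.le (Real.sqrt_nonneg _)
      rw [mul_div_assoc] at a3 ⊢
      linarith only [a2, a3, a4])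
    H (by omega)
    (fun η hη => by
      obtain ⟨r, hr, rfl⟩ := mem_image.1 hη
      obtain ⟨r1, r2⟩ := mem_filter.1 (mem_filter.1 hr).1
      linarith only [r2, (σ.H2_gr r r1).1])
    n (fun c h1 h2 => ⟨(hn c h1 h2).1, (hn c h1 h2).2.1, fun η hη h =>
      (hn c h1 h2).2.2 η (mem_filter.2 ⟨mem_union_left _ hη, h⟩)⟩)
    (σ.ampH kept (σ.y + i) α')
    (fun P hP η hη => σ.ampH_A1 kG _ _ hy hα P (hP.trans (mul_le_mul_of_nonneg_right (by
      linarith only [hp.inv_pow_le (c := 2) (i := 12) (k := 146) (by norm_num) (by norm_num)])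
      (by positivity))) η hη)
    (fun P hP N h1 h2 => σ.ampH_A2 kG _ _ hy hα P hP N h1 h2)
    (fun P hP F hF => σ.ampH_A3 kS _ _ hy hα P hP F fun k hk => ⟨(hF k hk).1, fun r hr hrr =>
      (hF k hk).2 _ (mem_image_of_mem _ (mem_filter.2 ⟨hr, hrr⟩))⟩)
    (σ.ampH_target kG Gk _ _ hy hα hi3)
  obtain ⟨n1, -, n3⟩ := hn c c1 c2
  have b1 := hωc c c1 c2
  obtain ⟨b2, b3⟩ := hωc' c c1 c2
  have b4 := hb2 i hi1 hi2 c (mem_Icc.2 ⟨c1, c2⟩)
  have n1' : (1 : ℝ) ≤ n c := by exact_mod_cast n1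
  have c1' : (1 : ℝ) ≤ c := by exact_mod_cast c1
  have P1 : n c * (σ.h * α') / c ≤ n c * (σ.h * α') := div_le_self (by positivity) c1'
  have P0 : 0 < n c * (σ.h * α') / c := by positivity
  generalize n c * (σ.h * α') / c = P at *
  have near : ∀ t : ℝ, |t| ≤ (M : ℝ) ^ 7446 → σ.Near σ.j (P / α') (σ.y + i + t) := fun t ht => by
    rw [add_assoc]
    refine σ.H2_near b1 ((abs_add_le _ _).trans ?_)
    rw [Nat.abs_cast]
    linarith only [hi4, ht, hp.pow_mono (i := 5907) (k := 7446) (by norm_num)]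
  have near0 := near 0 (by rw [abs_zero]; positivity)
  rw [add_zero] at near0
  have ω0 : 0 < P / α' := by positivity
  refine ⟨σ.j, P / α', σ.y + i, α', ω0, fun t ht => (near t ht).facts.2.2.1,
    fun b hb => b4 b (mem_union_left _ hb), fun a' ha' k hk => ?_, hα, ?_⟩
  · rw [div_mul_cancel₀ _ α0.ne']
    have a1 : P / α' / (2 * (M : ℝ) ^ 5715) ≤ sH := by
      rw [hsH, ← div_div]
      exact div_le_div_of_nonneg_right (by linarith only [b3]) (hp.pow_pos _).le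
    by_contra hlt
    have a2 := (not_le.1 hlt).le.trans a1
    have a3 := hD.hA a' ha' σ.G σ.Gmem
    have s2 := H2_small hp (k := 2) (by norm_num)
    have p2 : 0 < ((M : ℝ) ^ 2)⁻¹ := inv_pos.2 (hp.pow_pos _)
    have p13 : 0 < ((M : ℝ) ^ 13)⁻¹ := inv_pos.2 (hp.pow_pos _)
    have a4 : 100 * ((M : ℝ) ^ 13)⁻¹ ≤ ((M : ℝ) ^ 2)⁻¹ := hp.inv_pow_le (by norm_num) (by norm_num)
    have a5 : σ.h * α' + σ.h * ((M : ℝ) ^ 13)⁻¹ ≤ a' := by
      refine le_trans ?_ ((mul_le_mul_of_nonneg_left aG (by positivity)).trans a3)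
      rw [← mul_add, mul_left_comm]
      refine mul_le_mul_of_nonneg_left ?_ h0.le
      nlinarith only [s13, hα3, p2, p13, a4]
    have a6 : 2 * sH ≤ σ.h * ((M : ℝ) ^ 13)⁻¹ := by
      rw [← div_eq_mul_inv, le_div_iff₀ (hp.pow_pos _)]
      have := mul_le_mul_of_nonneg_left (hp.pow_mono (i := 13) (k := 850) (by norm_num)) sH0.le
      linarith only [sH2, this]
    have a7 : (M : ℝ) ^ 260 * sH ≤ a' := by
      have := mul_le_mul_of_nonneg_left (hp.pow_mono (i := 260) (k := 850) (by norm_num)) sH0.le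
      linarith only [sH0, sH3, a5, a6, this]
    have a8 : (n c : ℝ) ≤ k := by
      exact_mod_cast Nat.le_of_dvd hk (n3 a' (mem_filter.2 ⟨mem_union_right _ ha', a7⟩) k hk a2)
    have a9 : 0 < a' := lt_of_lt_of_le (by positivity) a7
    have a10 := mul_le_mul_of_nonneg_right a8 a9.le
    have a11 := mul_le_mul_of_nonneg_left a5 (show (0 : ℝ) ≤ n c by positivity)
    have a12 := mul_le_mul_of_nonneg_right n1' (show 0 ≤ σ.h * ((M : ℝ) ^ 13)⁻¹ by positivity)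
    rw [mul_add] at a11
    linarith only [sH0, P1, a2, a6, a10, a11, a12, (abs_le.1 a2).2]
  · have m1 := σ.H2_main kG.1 α0 P0 near0.facts.2.2.1 hc
    have m2 := H2_rest (α' := α') rS ω0 near0.facts.2.2.2.2.1 (fun t ht => (near t ht).facts.2.2.1)
      fun r hr _ => b4 _ (mem_union_right _ (mem_image_of_mem _ hr))
    have e : C.D.lat C.D.s = fun j z => C.D.lat kept j z + C.D.lat (C.D.s \ kept) j z := by
      funext j z
      rw [Dat.lat, Dat.lat, Dat.lat, add_comm, sum_sdiff kG.1]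
    have m3 := mul_le_mul_of_nonneg_right (H2_num hp) hN.le
    have m4 : ‖avg M (C.D.lat kept) C.d σ.j (P / α') (σ.y + i) α'‖ ≤
        ‖avg M (C.D.lat C.D.s) C.d σ.j (P / α') (σ.y + i) α'‖ +
          ‖avg M (C.D.lat (C.D.s \ kept)) C.d σ.j (P / α') (σ.y + i) α'‖ := by
      rw [e, avg_add]
      exact norm_le_add_norm_add _ _
    have m5 := mul_le_mul_of_nonneg_right m4
      (show 0 ≤ ((σ.j : ℝ) / (P / α')) ^ (σ.j + 1) by positivity)
    rw [add_mul] at m3 m5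
    linarith only [m1, m2, m3, m5]

end CDat.Sel

end Pool.Agent.Work.MP_97f157_lc.Tau
end
end
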