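import Pool.Agent.Work.MP_97f157_lc.TauH1
import Pool.Agent.Work.MP_97f157_lc.TauIsoBAux
import Pool.Agent.Work.MP_97f157_lc.TauH2

-- merged part: Pool.Agent.Work.MP_97f157_lc.TauConv
section
/-! Conversions between harmonic and pole amplitudes through the Lipschitz formula. -/

noncomputable section
open Complex Finset Metric

namespace Pool.Agent.Work.MP_97f157_lc.Tau

variable {ι : Type*} {m M : ℕ}

theorem conv_tail {β : Type*} {f : β → ℂ} {V : ℂ} (hf : HasSum f V) (S : Finset β) {ε : ℝ}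
    (h : ∀ F : Finset β, Disjoint F S → ∑ l ∈ F, ‖f l‖ ≤ ε) : ‖V - ∑ l ∈ S, f l‖ ≤ ε := by
  classical
  have h1 : Filter.Tendsto (fun F : Finset β => ‖∑ l ∈ F, f l - ∑ l ∈ S, f l‖) Filter.atTop
      (nhds ‖V - ∑ l ∈ S, f l‖) := (Filter.Tendsto.sub_const hf _).norm
  refine le_of_tendsto h1 ((Filter.eventually_ge_atTop S).mono fun F hF => ?_)
  rw [← sum_sdiff hF, add_sub_cancel_right]
  exact (norm_sum_le _ _).trans (h _ sdiff_disjoint)

theorem conv_geo {a w : ℝ} (ha : 0 < a) (hw : 0 < w) (F : Finset ℕ) :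
    ∑ n ∈ F, a * Real.exp (-(a / (w / ((n : ℝ) + 1)))) ≤ w := by
  have hx : 0 < a / w := div_pos ha hw
  have hq : Real.exp (-(a / w)) < 1 := by
    rw [← Real.exp_zero]
    exact Real.exp_lt_exp.2 (by linarith)
  have hq0 := Real.exp_pos (-(a / w))
  have hs := (hasSum_geometric_of_lt_one hq0.le hq).mul_left (a * Real.exp (-(a / w)))
  have e : ∀ n : ℕ, a * Real.exp (-(a / (w / ((n : ℝ) + 1)))) =
      a * Real.exp (-(a / w)) * Real.exp (-(a / w)) ^ n := fun n => by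
    rw [mul_assoc, ← pow_succ', ← Real.exp_nat_mul]
    congr 2
    push_cast
    field_simp
  simp only [e]
  refine (sum_le_hasSum F (fun n _ => by positivity) hs).trans ?_
  rw [← div_eq_mul_inv, div_le_iff₀ (by linarith)]
  have h1 := Real.add_one_le_exp (a / w)
  have h2 : Real.exp (a / w) * Real.exp (-(a / w)) = 1 := by rw [← Real.exp_add]; simp
  have h3 : a = w * (a / w) := by field_simp
  have h4 : (a / w + 1) * Real.exp (-(a / w)) ≤ 1 := by nlinarith only [hq0, h1, h2]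
  calc a * Real.exp (-(a / w)) = w * (a / w * Real.exp (-(a / w))) := by rw [← mul_assoc, ← h3]
    _ ≤ _ := mul_le_mul_of_nonneg_left (by linarith) hw.le

theorem conv_exp (hp : Par m M) {k : ℕ} (hk : k ≤ 100000) :
    (M : ℝ) ^ k * Real.exp (-(M : ℝ) ^ 9) ≤ Real.exp (-(M : ℝ) ^ 8) := by
  refine (mul_le_mul_of_nonneg_right (hp.pow_le_exp hk) (Real.exp_pos _).le).trans ?_
  rw [← Real.exp_add]
  refine Real.exp_le_exp.2 ?_
  have h1 := hp.mul_pow_le (c := 2) (by norm_num) (show 8 < 9 by norm_num)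
  have h2 := hp.pow_mono (show 1 ≤ 8 by norm_num)
  rw [pow_one] at h2
  linarith

theorem Reg.conv_two {jc j : ℕ} {d Dd τ : ℝ} (hd : 0 < d) (h : Reg M 1 jc d j Dd τ) :
    Reg M 2 jc d j Dd τ := by
  have h1 : (0 : ℝ) ≤ (M : ℝ) ^ 7994 := by positivity
  have h2 : (0 : ℝ) ≤ d * ((M : ℝ) ^ 5)⁻¹ := by positivity
  refine ⟨h.hj.trans (by linarith), h.hD1, h.hD2, le_trans (by linarith) h.hτ1, h.hτ2.trans ?_⟩
  rw [mul_assoc, mul_assoc]
  linarith

theorem conv_close {a b β γ ε : ℝ} (ha : 0 < a) (hb : 0 < b) (h : β * a = γ * b)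
    (h1 : |β - 1| ≤ ε / 4) (h2 : |γ - 1| ≤ ε / 4) (hε : ε ≤ 1) : |a - b| ≤ ε * min a b := by
  obtain ⟨h3, h4⟩ := abs_le.1 h1
  obtain ⟨h5, h6⟩ := abs_le.1 h2
  have h7 : |γ - β| ≤ ε / 2 := abs_le.2 ⟨by linarith, by linarith⟩
  have h0 := abs_nonneg (a - b)
  have e1 : |a - b| * γ = a * |γ - β| := by
    rw [← abs_of_pos (show 0 < γ by linarith), ← abs_mul, abs_of_pos (show 0 < γ by linarith),
      show (a - b) * γ = a * (γ - β) by linarith only [h], abs_mul, abs_of_pos ha]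
  have e2 : |a - b| * β = b * |γ - β| := by
    rw [← abs_of_pos (show 0 < β by linarith), ← abs_mul, abs_of_pos (show 0 < β by linarith),
      show (a - b) * β = b * (γ - β) by linarith only [h], abs_mul, abs_of_pos hb]
  have e3 := mul_le_mul_of_nonneg_left h7 ha.le
  have e4 := mul_le_mul_of_nonneg_left h7 hb.le
  rcases le_total a b with e | e
  · rw [min_eq_left e]
    nlinarith only [ha, hb, h, hε, h3, h4, h5, h0, e1, e2, e3, e4, e]
  · rw [min_eq_right e]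
    nlinarith only [hb, hε, h3, h4, h0, e2, e4]

theorem conv_ratio {g a b β γ : ℝ} (hg : 0 < g) (h : β * a = γ * b) (h1 : |a - g| ≤ g / 100)
    (h2 : |b - g| ≤ g / 100) (h3 : |γ - 1| ≤ 1 / 100) : |β - 1| ≤ 1 / 10 := by
  obtain ⟨h4, h5⟩ := abs_le.1 h1
  obtain ⟨h6, h7⟩ := abs_le.1 h2
  obtain ⟨h8, h9⟩ := abs_le.1 h3
  refine abs_le.2 ⟨?_, ?_⟩ <;> by_contra hn <;> nlinarith only [hg, h, h4, h5, h6, h8, hn, h7, h9]

theorem conv_avg {N : ℕ} (hN : 0 < N) {ω : ℝ} (hω : 0 < ω) (t0 c : ℝ) (hc : 0 ≤ c) (g : ℂ) (n : ℕ) :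
    ‖∑ q ∈ range N, exp (-(I * ((ω * (t0 + q * (2 * Real.pi / ω)) : ℝ) : ℂ))) * ((c : ℂ) *
      exp (I * ((2 * Real.pi * ((n : ℝ) + 1) / (2 * Real.pi * N / ω) *
        (t0 + q * (2 * Real.pi / ω)) : ℝ) : ℂ)) * g)‖ = if N ∣ n + 1 then c * N * ‖g‖ else 0 := by
  have hpi := Real.pi_pos
  have hN' : (N : ℝ) ≠ 0 := by exact_mod_cast hN.ne'
  have e : ∀ q : ℕ, exp (-(I * ((ω * (t0 + q * (2 * Real.pi / ω)) : ℝ) : ℂ))) * ((c : ℂ) *
      exp (I * ((2 * Real.pi * ((n : ℝ) + 1) / (2 * Real.pi * N / ω) *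
        (t0 + q * (2 * Real.pi / ω)) : ℝ) : ℂ)) * g) =
      (c : ℂ) * g * exp (I * ((ω * (((n : ℝ) + 1) / N - 1) * t0 : ℝ) : ℂ)) *
        exp (2 * Real.pi * I * (((n : ℤ) + 1 - N : ℤ) : ℂ) * q / N) := fun q => by
    have e1 : -(ω * (t0 + q * (2 * Real.pi / ω))) + 2 * Real.pi * ((n : ℝ) + 1) /
        (2 * Real.pi * N / ω) * (t0 + q * (2 * Real.pi / ω)) =
        ω * (((n : ℝ) + 1) / N - 1) * t0 + 2 * Real.pi * ((n : ℝ) + 1 - N) * q / N := by
      field_simp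
      ring
    have e2 := congrArg (fun x : ℝ => exp (I * (x : ℂ))) e1
    simp only [ofReal_add, mul_add, Complex.exp_add, ofReal_neg, mul_neg] at e2
    have e3 : I * ((2 * Real.pi * ((n : ℝ) + 1 - N) * q / N : ℝ) : ℂ) =
        2 * Real.pi * I * (((n : ℤ) + 1 - N : ℤ) : ℂ) * q / N := by
      push_cast
      ring
    rw [e3] at e2
    rw [mul_assoc ((c : ℂ) * g), ← e2]
    simp only [ofReal_add, mul_add, Complex.exp_add]
    ring
  simp only [e]
  rw [← mul_sum, sum_exp_root N hN, norm_mul, norm_mul, norm_mul, norm_exp_I_mul_ofReal,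
    Complex.norm_real, Real.norm_of_nonneg hc]
  have : (N : ℤ) ∣ (n : ℤ) + 1 - N ↔ N ∣ n + 1 := by
    rw [dvd_sub_self_right]
    exact_mod_cast Iff.rfl
  by_cases h : N ∣ n + 1
  · rw [if_pos (this.2 h), if_pos h, Complex.norm_natCast]
    ring
  · rw [if_neg fun e => h (this.1 e), if_neg h, norm_zero, mul_zero]

namespace CDat
variable (C : CDat ι m M)

/-- Key identity.  For `k ∈ S` apply `hasSum_tw` and `hasSum_tw_right` to the lattice with
parameter `a' = 2π α / Λ` (`α = a k / h`, spacing `Λ / α`) at the point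
`w = Dd - e + I τ - I t / α`, where `Dd = j / ω`, `τ = y / ω`.  With `μ_n = 2π (n+1) / Λ` and
`h_n = h ω / μ_n` one has `μ_n α = ω a k / h_n`. -/
theorem conv_identity (S : Finset ι) (hS : S ⊆ C.D.s) (h Λ t ω y : ℝ) (hh : 0 < h) (hΛ : 0 < Λ)
    (hω : 0 < ω) (j : ℕ) (hj : 1 ≤ j) (hD : C.d / 2 ≤ j / ω) :
    ∃ V : ℂ,
      HasSum (fun l : ℤ => ((j / ω : ℝ) : ℂ) ^ (j + 1) * ∑ k ∈ S, (C.D.W k : ℂ) *
        pc (C.D.x k + I * (((t * h / (2 * Real.pi) + l * (Λ * h / (2 * Real.pi))) * sp (C.D.a k) : ℝ) : ℂ))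
          j (zp C.d (j / ω) (y / ω))) V ∧
      HasSum (fun n : ℕ => ((j / ω * ((j : ℝ) ^ j * Real.exp (-j) / j.factorial) *
          (2 * Real.pi / (Λ * h)) : ℝ) : ℂ) * exp (I * ((2 * Real.pi * ((n : ℝ) + 1) / Λ * t : ℝ) : ℂ)) *
          C.gA S (h * ω / (2 * Real.pi * ((n : ℝ) + 1) / Λ)) j ω y) V := by
  have hpi := Real.pi_pos
  have ha : ∀ k ∈ S, 0 < C.D.a k := fun k hk => C.apos k (hS hk)
  have ha' : ∀ k ∈ S, 0 < 2 * Real.pi * (C.D.a k / h) / Λ := fun k hk => by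
    have := ha k hk
    positivity
  refine ⟨((j / ω : ℝ) : ℂ) ^ (j + 1) * ∑ k ∈ S, (C.D.W k : ℂ) *
    tw false (2 * Real.pi * (C.D.a k / h) / Λ) j
      (zp C.d (j / ω) (y / ω) - (C.D.x k + I * ((t * h / C.D.a k : ℝ) : ℂ))), ?_, ?_⟩
  · refine HasSum.mul_left _ (hasSum_sum fun k hk => HasSum.mul_left _ ?_)
    refine lip_hs (hasSum_tw false (ha' k hk) hj _) (fun l => ?_) rfl
    have := ha k hk
    have e : (t * h / (2 * Real.pi) + l * (Λ * h / (2 * Real.pi))) * sp (C.D.a k) =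
        t * h / C.D.a k + l * sp (2 * Real.pi * (C.D.a k / h) / Λ) := by
      unfold sp
      field_simp
    rw [if_neg (by simp), pc, pc, e]
    congr 2
    push_cast
    ring
  · simp only [gA, Finset.mul_sum]
    refine hasSum_sum fun k hk => ?_
    have hak := ha k hk
    have hw : 0 < (zp C.d (j / ω) (y / ω) - (C.D.x k + I * ((t * h / C.D.a k : ℝ) : ℂ))).re := by
      have h1 := (abs_le.1 (C.band k (hS hk))).2
      have h2 := C.par.inv_pow_le (c := 8) (by norm_num) (show 0 < 7989 by norm_num)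
      rw [pow_zero, inv_one] at h2
      have h3 := mul_le_mul_of_nonneg_right h2 C.dpos.le
      have := C.dpos
      simp only [zp, sub_re, add_re, ofReal_re, mul_re, I_re, I_im, ofReal_im]
      linarith only [hD, h1, h3, this]
    refine lip_hs (((hasSum_tw_right (ha' k hk) j hw).mul_left (C.D.W k : ℂ)).mul_left
      (((j / ω : ℝ) : ℂ) ^ (j + 1))) (fun n => ?_) rfl
    have hn : (0 : ℝ) < (n : ℝ) + 1 := by positivity
    obtain ⟨β, hβ⟩ : ∃ β, β = C.D.a k / (h * ω / (2 * Real.pi * ((n : ℝ) + 1) / Λ)) := ⟨_, rfl⟩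
    have e1 : ((n : ℝ) + 1) * (2 * Real.pi * (C.D.a k / h) / Λ) = ω * β := by
      rw [hβ]; field_simp
    have e2 : 2 * Real.pi * ((n : ℝ) + 1) / Λ * t = ω * β * (t * h / C.D.a k) := by
      rw [hβ]; field_simp
    have e3 : 2 * Real.pi * (C.D.a k / h) / Λ = 2 * Real.pi / (Λ * h) * C.D.a k := by
      field_simp
    have hωc : (ω : ℂ) ≠ 0 := by exact_mod_cast hω.ne'
    have e4 : exp (((-(ω * β) : ℝ) : ℂ) *
        (zp C.d (j / ω) (y / ω) - (C.D.x k + I * ((t * h / C.D.a k : ℝ) : ℂ)))) =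
        exp (-(j : ℂ)) * exp (-(j * ((β : ℂ) - 1))) *
          exp (I * ((ω * β * (t * h / C.D.a k) : ℝ) : ℂ)) *
          exp (ω * ((β * (C.D.x k + C.d) : ℝ) : ℂ)) * exp (-(I * ((y * β : ℝ) : ℂ))) := by
      simp only [← Complex.exp_add]
      congr 1
      generalize t * h / C.D.a k = u
      simp only [zp]
      push_cast
      field_simp
      ring
    have e5 : ((j : ℂ) / ω) ^ j * (ω : ℂ) ^ j = (j : ℂ) ^ j := by
      rw [← mul_pow, div_mul_cancel₀ _ hωc]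
    rw [← hβ, e1, e2, ec, e4, e3, gw]
    generalize ω * β * (t * h / C.D.a k) = u
    generalize 2 * Real.pi / (Λ * h) = v
    generalize β * (C.D.x k + C.d) = v1
    generalize y * β = v2
    push_cast
    rw [neg_neg, mul_pow, pow_succ, ← e5]
    ring

theorem conv_card {T : Finset ι} (hT : T ⊆ C.D.s) : 2 * (T.card : ℝ) ≤ M := by
  have h1 : (T.card : ℝ) ≤ m := by exact_mod_cast (card_le_card hT).trans C.card
  have := C.par.mle
  linarith

theorem conv_split {T : Finset ι} (hT : C.Sat T) (f : ι → ℂ) [DecidablePred fun r => C.cl r = r] :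
    ∑ k ∈ T, f k = ∑ r ∈ T.filter (fun r => C.cl r = r), ∑ k ∈ cls C.D.s C.cl r, f k := by
  classical
  rw [← sum_fiberwise_of_maps_to (s := T) (t := T.filter fun r => C.cl r = r) (g := C.cl)
    fun k hk => mem_filter.2 ⟨(hT.2 k (hT.1 hk)).1 hk, C.clus.idem k (hT.1 hk)⟩]
  refine sum_congr rfl fun r hr => sum_congr ?_ fun _ _ => rfl
  ext k
  simp only [cls, mem_filter]
  exact ⟨fun h => ⟨hT.1 h.1, h.2⟩, fun h => ⟨(hT.2 k h.1).2 (h.2 ▸ (mem_filter.1 hr).1), h.2⟩⟩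

theorem conv_part {T : Finset ι} (hT : C.Sat T) {j : ℕ} {Dd τ : ℝ} (hR : Reg M 1 C.jc C.d j Dd τ)
    (hD : 0 < Dd) (t0 t1 : ℝ) (ht1 : 1 ≤ t1) (F : Finset ℤ)
    (hF : ∀ r ∈ T, C.cl r = r → ∀ l ∈ F,
      (M : ℝ) ^ 5 * C.d / (M : ℝ) ^ 4000 ≤ |τ - (t0 + l * t1) * sp (C.D.a r)|) :
    ∑ l ∈ F, ‖(Dd : ℂ) ^ (j + 1) * ∑ k ∈ T, (C.D.W k : ℂ) *
        pc (C.D.x k + I * (((t0 + l * t1) * sp (C.D.a k) : ℝ) : ℂ)) j (zp C.d Dd τ)‖ ≤
      M * (Real.exp (-(M : ℝ) ^ 9) * C.N0) := by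
  classical
  have hE : 0 ≤ Real.exp (-(M : ℝ) ^ 9) * C.N0 := mul_nonneg (Real.exp_pos _).le C.N0pos.le
  calc _ ≤ ∑ l ∈ F, ∑ r ∈ T.filter (fun r => C.cl r = r), Dd ^ (j + 1) *
        ‖∑ k ∈ cls C.D.s C.cl r, (C.D.W k : ℂ) *
          pc (C.D.x k + I * (((t0 + l * t1) * sp (C.D.a k) : ℝ) : ℂ)) j (zp C.d Dd τ)‖ := by
        refine sum_le_sum fun l _ => ?_
        rw [norm_mul, norm_pow, Complex.norm_real, Real.norm_of_nonneg hD.le, C.conv_split hT,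
          ← mul_sum]
        exact mul_le_mul_of_nonneg_left (norm_sum_le _ _) (by positivity)
    _ ≤ ∑ r ∈ T.filter (fun r => C.cl r = r), Real.exp (-(M : ℝ) ^ 9) * C.N0 := by
        rw [sum_comm]
        refine sum_le_sum fun r hr => ?_
        obtain ⟨h1, h2⟩ := mem_filter.1 hr
        rw [← mul_sum]
        exact C.part_negl r (hT.1 h1) h2 j Dd τ (hR.conv_two C.dpos) t0 t1 ht1 F (hF r h1 h2)
    _ ≤ _ := by
        rw [sum_const, nsmul_eq_mul]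
        refine mul_le_mul_of_nonneg_right ?_ hE
        have := C.conv_card ((filter_subset (fun r => C.cl r = r) T).trans hT.1)
        have := Nat.cast_nonneg (α := ℝ) (T.filter fun r => C.cl r = r).card
        linarith

theorem conv_harm {T : Finset ι} (hT : C.Sat T) {j : ℕ} {ω : ℂ} {y : ℝ} (hA : C.Arg j ω y)
    {w : ℝ} (hw : 0 < w) (F : Finset ℕ) (hF : ∀ r ∈ T, C.cl r = r → ∀ n ∈ F,
      (M : ℝ) ^ 5 / (2 * (M : ℝ) ^ 4000) ≤ |C.D.a r / (w / ((n : ℝ) + 1)) - 1|) :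
    ∑ n ∈ F, ‖C.gA T (w / ((n : ℝ) + 1)) j ω y‖ ≤ M * (Real.exp (-(M : ℝ) ^ 9) * C.N0) * w := by
  classical
  have hE : 0 ≤ Real.exp (-(M : ℝ) ^ 9) * C.N0 := mul_nonneg (Real.exp_pos _).le C.N0pos.le
  calc _ ≤ ∑ n ∈ F, ∑ r ∈ T.filter (fun r => C.cl r = r), Real.exp (-(M : ℝ) ^ 9) * C.N0 *
        (C.D.a r * Real.exp (-(C.D.a r / (w / ((n : ℝ) + 1))))) := by
        refine sum_le_sum fun n hn => ?_
        rw [C.gA_split hT]
        refine (norm_sum_le _ _).trans (sum_le_sum fun r hr => ?_)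
        obtain ⟨h1, h2⟩ := mem_filter.1 hr
        rw [← mul_assoc]
        exact C.gA_negl r (hT.1 h1) h2 _ (by positivity) j ω y hA (hF r h1 h2 n hn)
    _ ≤ ∑ r ∈ T.filter (fun r => C.cl r = r), Real.exp (-(M : ℝ) ^ 9) * C.N0 * w := by
        rw [sum_comm]
        refine sum_le_sum fun r hr => ?_
        rw [← mul_sum]
        exact mul_le_mul_of_nonneg_left (conv_geo (C.apos r (hT.1 (mem_filter.1 hr).1)) hw F) hE
    _ ≤ _ := by
        rw [sum_const, nsmul_eq_mul, mul_assoc (M : ℝ)]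
        refine mul_le_mul_of_nonneg_right ?_ (mul_nonneg hE hw.le)
        have := C.conv_card ((filter_subset (fun r => C.cl r = r) T).trans hT.1)
        have := Nat.cast_nonneg (α := ℝ) (T.filter fun r => C.cl r = r).card
        linarith

theorem conv_count (x : ι → ℝ) {R : ℝ} (hR : 0 ≤ R) (F : Finset ℕ)
    (hF : ∀ n ∈ F, ∃ r ∈ C.D.s, |(n : ℝ) - x r| ≤ R) : (F.card : ℝ) ≤ M / 2 * (2 * R + 1) := by
  classical
  have h1 : F ⊆ C.D.s.biUnion fun r => F.filter fun n : ℕ => |(n : ℝ) - x r| ≤ R := fun n hn => by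
    obtain ⟨r, hr, h⟩ := hF n hn
    exact mem_biUnion.2 ⟨r, hr, mem_filter.2 ⟨hn, h⟩⟩
  have h2 : (F.card : ℝ) ≤ ∑ r ∈ C.D.s, ((F.filter fun n : ℕ => |(n : ℝ) - x r| ≤ R).card : ℝ) := by
    exact_mod_cast (card_le_card h1).trans card_biUnion_le
  refine h2.trans ((sum_le_sum fun r _ =>
    count_interval (x r) R hR _ fun i hi => (mem_filter.1 hi).2).trans ?_)
  rw [sum_const, nsmul_eq_mul]
  have := C.conv_card (subset_refl _)
  exact mul_le_mul_of_nonneg_right (by linarith) (by linarith)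

theorem conv_j {j : ℕ} {ω : ℂ} {y : ℝ} (hA : C.Arg j ω y) :
    1 ≤ j ∧ √(j : ℝ) ≤ 3 / 2 * (M : ℝ) ^ 4000 := by
  have h1 : (M : ℝ) ^ 8000 ≤ C.jc := by exact_mod_cast C.jlo
  have h2 : (C.jc : ℝ) ≤ 2 * (M : ℝ) ^ 8000 := by exact_mod_cast C.jhi
  have h3 := C.par.mul_pow_le (c := 4) (by norm_num) (show 7998 < 8000 by norm_num)
  have h4 := abs_le.1 hA.hj
  have h5 := one_le_pow₀ (n := 7998) C.par.one_le
  have h6 := C.par.pow_pos 4000
  refine ⟨by exact_mod_cast (show (1 : ℝ) ≤ j by linarith), Real.sqrt_le_iff.2 ⟨by linarith, ?_⟩⟩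
  rw [mul_pow, ← pow_mul]
  linarith

theorem conv_reg {j : ℕ} {Dd τ : ℝ} (hR : Reg M 1 C.jc C.d j Dd τ) :
    C.d / 2 ≤ Dd ∧ Dd ≤ C.d ∧ 0 < τ ∧ C.d ≤ 2 * (M : ℝ) ^ 5 * τ ∧ (M : ℝ) ^ 5 * τ ≤ 2 * C.d ∧
      4 * ((M : ℝ) ^ 5 * C.d / (M : ℝ) ^ 4000) ≤ ((M : ℝ) ^ 1000)⁻¹ * τ := by
  have hd := C.dpos
  have hM := C.par.pos
  have h5 := C.par.pow_pos 5
  have h1 := C.par.inv_pow_le (c := 2) (by norm_num) (show 0 < 5 by norm_num)
  rw [pow_zero, inv_one] at h1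
  have h2 := hR.hD1
  have h3 := hR.hD2
  have h4 : C.d ≤ 2 * (M : ℝ) ^ 5 * τ := by
    have := mul_le_mul_of_nonneg_left hR.hτ1 (show 0 ≤ 2 * (M : ℝ) ^ 5 by positivity)
    refine le_trans (le_of_eq ?_) this
    field_simp
  have h6 : (M : ℝ) ^ 5 * τ ≤ 2 * C.d := by
    have := mul_le_mul_of_nonneg_left hR.hτ2 h5.le
    refine this.trans (le_of_eq ?_)
    field_simp
    norm_num
  have h7 : 0 < ((M : ℝ) ^ 5)⁻¹ := inv_pos.2 h5
  have hτ : 0 < τ := by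
    by_contra hn
    nlinarith only [hd, h5, h1, h4, h7, hn]
  refine ⟨by nlinarith only [hd, h1, h2], by linarith, hτ, h4, h6, ?_⟩
  have h8 := C.par.mul_pow_le (c := 8) (by norm_num) (show 1010 < 4000 by norm_num)
  have h9 := C.par.pow_pos 4000
  have h10 := C.par.pow_pos 1000
  rw [← mul_div_assoc, div_le_iff₀ h9, inv_mul_eq_div, div_mul_eq_mul_div, le_div_iff₀ h10]
  calc 4 * ((M : ℝ) ^ 5 * C.d) * (M : ℝ) ^ 1000
      ≤ 4 * ((M : ℝ) ^ 5 * (2 * (M : ℝ) ^ 5 * τ)) * (M : ℝ) ^ 1000 :=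
        mul_le_mul_of_nonneg_right (by gcongr) h10.le
    _ = τ * (8 * (M : ℝ) ^ 1010) := by ring
    _ ≤ _ := mul_le_mul_of_nonneg_left h8 hτ.le

theorem conv_j' {j : ℕ} {ω : ℂ} {y : ℝ} (hA : C.Arg j ω y) : (M : ℝ) ^ 4000 / 2 ≤ √(j : ℝ) := by
  have h1 : (M : ℝ) ^ 8000 ≤ C.jc := by exact_mod_cast C.jlo
  have h3 := C.par.mul_pow_le (c := 4) (by norm_num) (show 7998 < 8000 by norm_num)
  have h4 := abs_le.1 hA.hj
  have h5 := C.par.pow_pos 7998
  refine Real.le_sqrt_of_sq_le ?_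
  rw [div_pow, ← pow_mul]
  linarith

/-- the pole side of `convB` -/
theorem conv_pole {T : Finset ι} (hT : C.Sat T) {j : ℕ} {ω y h Λ t B : ℝ} (hj : 0 < j) (hω : 0 < ω)
    (hR : Reg M 1 C.jc C.d j (j / ω) (y / ω)) (hh : 0 < h) (hh1 : (M : ℝ) ^ 267 / 3 ≤ h * C.d)
    (hh3 : ∀ k ∈ T, |C.D.a k / h - 1| ≤ 1 / 10) (hΛ : 4 * (y / ω) ≤ Λ)
    (ht : |t - y / ω| ≤ Λ / 2) {V : ℂ}
    (hV : HasSum (fun l : ℤ => ((j / ω : ℝ) : ℂ) ^ (j + 1) * ∑ k ∈ T, (C.D.W k : ℂ) *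
      pc (C.D.x k + I * (((t * h / (2 * Real.pi) + l * (Λ * h / (2 * Real.pi))) *
        sp (C.D.a k) : ℝ) : ℂ)) j (zp C.d (j / ω) (y / ω))) V)
    (hB : ∀ η, 0 < η → ∀ r ∈ T, C.cl r = r → |sp (C.D.a r) / η - 1| ≤ ((M : ℝ) ^ 1000)⁻¹ →
      ‖C.pB T η j (y / j) ((ω / j : ℝ) : ℂ)‖ ≤ B) (p : Prop) [Decidable p]
    (hp : ∀ r ∈ T, |t - C.D.a r / h * (y / ω)| ≤ 11 / 10 * ((M : ℝ) ^ 5 * C.d / (M : ℝ) ^ 4000) → p)
    (hB0 : 0 ≤ B) :
    ‖V‖ ≤ 2 * (M * (Real.exp (-(M : ℝ) ^ 9) * C.N0)) + if p then B else 0 := by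
  obtain ⟨-, -, hτ, r4, -, r6⟩ := C.conv_reg hR
  have hpi := Real.pi_pos
  have hpi' := Real.pi_lt_four
  have hj0 : (0 : ℝ) < j := by exact_mod_cast hj
  have hD : 0 < j / ω := div_pos hj0 hω
  have hE : 0 ≤ M * (Real.exp (-(M : ℝ) ^ 9) * C.N0) :=
    mul_nonneg C.par.pos.le (mul_nonneg (Real.exp_pos _).le C.N0pos.le)
  have hε : ((M : ℝ) ^ 1000)⁻¹ ≤ 1 := inv_le_one_of_one_le₀ (one_le_pow₀ C.par.one_le)
  have hε0 : 0 < ((M : ℝ) ^ 1000)⁻¹ := inv_pos.2 (C.par.pow_pos _)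
  have ht1 : 1 ≤ Λ * h / (2 * Real.pi) := by
    clear * - M m ι C h y ω r4 hh hh1 Λ hΛ hpi'
    have h3 := C.par.mul_pow_le (c := 12) (by norm_num) (show 5 < 267 by norm_num)
    have h5 := C.par.pow_pos 5
    have h6 : h * C.d ≤ h * (2 * (M : ℝ) ^ 5 * (y / ω)) := mul_le_mul_of_nonneg_left r4 hh.le
    have h7 : (M : ℝ) ^ 5 * 2 ≤ (M : ℝ) ^ 5 * (y / ω * h) := by linarith only [h3, h6, hh1]
    have h8 := le_of_mul_le_mul_left h7 h5
    have h9 := mul_le_mul_of_nonneg_right hΛ hh.le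
    rw [le_div_iff₀ (by positivity)]
    linarith only [h8, h9, hpi']
  obtain ⟨Δ, hΔ⟩ : ∃ Δ, Δ = (M : ℝ) ^ 5 * C.d / (M : ℝ) ^ 4000 := ⟨_, rfl⟩
  rw [← hΔ] at hp r6
  have hΔτ : 4 * Δ ≤ y / ω := r6.trans (mul_le_of_le_one_left hτ.le hε)
  have e : ∀ r ∈ T, ∀ l : ℤ, (t * h / (2 * Real.pi) + l * (Λ * h / (2 * Real.pi))) * sp (C.D.a r) =
      (t + l * Λ) / (C.D.a r / h) := fun r hr l => by
    clear * - ι m M C r T hT hr t h l Λ hh
    have := C.apos r (hT.1 hr)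
    unfold sp
    field_simp
  obtain ⟨t1, t2⟩ := abs_le.1 ht
  have hP := conv_tail hV {0} fun F hF => C.conv_part hT hR hD _ _ ht1 F fun r hr _ l hl => by
    clear * - ι m M C r h y ω t l Λ hh3 hr F hF hl e Δ hΔ j hΛ hτ t2 hΔτ t1
    obtain ⟨h1, h3⟩ := abs_le.1 (hh3 r hr)
    have h2 : l ≠ 0 := fun e => disjoint_singleton_right.1 hF (e ▸ hl)
    have hα : 0 < C.D.a r / h := by linarith only [h1]
    rw [e r hr, ← hΔ]
    rcases lt_or_gt_of_ne h2 with h' | h'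
    · have h4 : (l : ℝ) ≤ -1 := by exact_mod_cast (show l ≤ -1 by omega)
      have h5 : l * Λ ≤ -1 * Λ := mul_le_mul_of_nonneg_right h4 (by linarith only [hΛ, hτ])
      have h6 : (t + l * Λ) / (C.D.a r / h) ≤ 0 :=
        div_nonpos_of_nonpos_of_nonneg (by linarith only [h5, t2, hΛ, hτ]) hα.le
      exact le_abs.2 (Or.inl (by linarith only [h6, hΔτ, hτ]))
    · have h4 : (1 : ℝ) ≤ l := by exact_mod_cast (show 1 ≤ l by omega)
      have h5 : 1 * Λ ≤ l * Λ := mul_le_mul_of_nonneg_right h4 (by linarith only [hΛ, hτ])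
      have h7 : y / ω * (C.D.a r / h) ≤ y / ω * (11 / 10) :=
        mul_le_mul_of_nonneg_left (by linarith only [h3]) hτ.le
      have h6 : 2 * (y / ω) ≤ (t + l * Λ) / (C.D.a r / h) :=
        (le_div_iff₀ hα).2 (by linarith only [h5, h7, t1, hΛ, hτ])
      exact le_abs.2 (Or.inr (by linarith only [h6, hΔτ, hτ]))
  rw [sum_singleton] at hP
  have hN := (norm_sub_norm_le _ _).trans hP
  by_cases hf : ∀ r ∈ T, C.cl r = r → Δ ≤ |y / ω - t / (C.D.a r / h)|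
  · have h1 := C.conv_part hT hR hD (t * h / (2 * Real.pi)) _ ht1 {0} fun r hr hrr l hl => by
      rw [e r hr, ← hΔ, mem_singleton.1 hl, Int.cast_zero, zero_mul, add_zero]
      exact hf r hr hrr
    rw [sum_singleton] at h1
    split_ifs <;> linarith only [h1, hN, hB0]
  · obtain ⟨r, hf⟩ := not_forall.1 hf
    obtain ⟨hr, hf⟩ := Classical.not_imp.1 hf
    obtain ⟨hrr, hf⟩ := Classical.not_imp.1 hf
    rw [not_le] at hf
    obtain ⟨h1, h3⟩ := abs_le.1 (hh3 r hr)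
    have hα : 0 < C.D.a r / h := by linarith only [h1]
    have ha := C.apos r (hT.1 hr)
    have ht0 : 0 < t := by
      have := (lt_div_iff₀ hα).1
        (show 0 < t / (C.D.a r / h) by linarith only [(abs_lt.1 hf).2, hΔτ, hτ])
      linarith only [this]
    have hη : 0 < 2 * Real.pi * (y / ω) / (t * h) := by positivity
    have h4 := hB _ hη r hr hrr (by
      clear * - ι m M C r y ω t h hτ ha Δ hf r6
      have e1 : sp (C.D.a r) / (2 * Real.pi * (y / ω) / (t * h)) - 1 =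
          (t / (C.D.a r / h) - y / ω) / (y / ω) := by
        unfold sp
        generalize y / ω = τ at hτ
        field_simp
      rw [e1, abs_div, abs_of_pos hτ, div_le_iff₀ hτ, abs_sub_comm]
      have := abs_nonneg (y / ω - t / (C.D.a r / h))
      linarith only [this, hf, r6])
    have e2 := C.pB_eq T _ hη.ne' j (j / ω) (y / ω) hD.ne'
    rw [show y / ω / (j / ω) = y / j by field_simp, show ((j : ℝ) / ω)⁻¹ = ω / j by field_simp,
      show y / ω / (2 * Real.pi * (y / ω) / (t * h)) = t * h / (2 * Real.pi) by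
        generalize y / ω = τ at hτ
        field_simp] at e2
    rw [Int.cast_zero, zero_mul, add_zero, ← e2] at hN
    rw [if_pos (hp r hr (by
      clear * - t ι m M C r h y ω Δ hω hh ha hα h3 hf
      rw [show t - C.D.a r / h * (y / ω) = C.D.a r / h * (t / (C.D.a r / h) - y / ω) by
        field_simp, abs_mul, abs_of_pos hα, abs_sub_comm]
      exact mul_le_mul (by linarith only [h3]) hf.le (abs_nonneg _) (by norm_num)))]
    linarith only [hN, h4, hE]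

theorem conv_core {T : Finset ι} (hT : C.Sat T) {j : ℕ} {ω y h X : ℝ} (hA : C.Arg j ω y)
    (hR : Reg M 1 C.jc C.d j (j / ω) (y / ω)) (hω1 : (M : ℝ) ^ 8000 / C.d ≤ 2 * ω)
    (hω2 : ω * C.d ≤ 3 * (M : ℝ) ^ 8000) (hy1 : (M : ℝ) ^ 7995 ≤ 2 * y)
    (hy2 : y ≤ 3 * (M : ℝ) ^ 7995) (hh : 0 < h) (hh1 : (M : ℝ) ^ 267 / 3 ≤ h * C.d)
    (hh2 : h * C.d ≤ 41 / 10 * (M : ℝ) ^ 7738) (hh3 : ∀ k ∈ T, |C.D.a k / h - 1| ≤ 1 / 10)
    (hX : 0 < X) (hSb : Real.exp (-(M : ℝ) ^ 4) * C.N0 / C.d ≤ X * h)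
    (hbig : X * h / 4 ≤ ‖C.gA T h j ω y‖)
    (hB : ∀ η, 0 < η → ∀ r ∈ T, C.cl r = r → |sp (C.D.a r) / η - 1| ≤ ((M : ℝ) ^ 1000)⁻¹ →
      ‖C.pB T η j (y / j) ((ω / j : ℝ) : ℂ)‖ ≤ X / (M : ℝ) ^ 7) : False := by
  classical
  obtain ⟨hj1, -⟩ := C.conv_j hA
  have hj2 := C.conv_j' hA
  obtain ⟨r1, -, hτ, -, -, -⟩ := C.conv_reg hR
  have hp := C.par
  have hM := hp.pos
  have hd := C.dpos
  have hpi := Real.pi_gt_three
  have hpi' := Real.pi_lt_four
  have hω : 0 < ω := by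
    have := div_pos (hp.pow_pos 8000) hd
    linarith only [hω1, this]
  have hy : 8 ≤ y := by
    have := hp.mul_pow_le (c := 16) (by norm_num) (show 0 < 7995 by norm_num)
    rw [pow_zero] at this
    linarith only [hy1, this]
  have hj0 : (0 : ℝ) < j := by exact_mod_cast hj1
  obtain ⟨N, hN1, hN2⟩ : ∃ N : ℕ, 4 * y ≤ 2 * Real.pi * N ∧ 2 * Real.pi * N ≤ 5 * y := by
    clear * - y hy hpi'
    have h1 := Nat.le_ceil (4 * y / (2 * Real.pi))
    have h2 := Nat.ceil_lt_add_one (show 0 ≤ 4 * y / (2 * Real.pi) by positivity)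
    rw [div_le_iff₀ (by positivity)] at h1
    rw [← sub_lt_iff_lt_add, lt_div_iff₀ (by positivity)] at h2
    exact ⟨_, by linarith only [h1], by linarith only [h2, hpi', hy]⟩
  have hN0 : (0 : ℝ) < N :=
    (mul_pos_iff_of_pos_left Real.two_pi_pos).1 (by linarith only [hN1, hy])
  have hN : 0 < N := by exact_mod_cast hN0
  have hNy : (N : ℝ) ≤ y := by
    have := mul_le_mul_of_nonneg_right hpi.le hN0.le
    linarith only [this, hN2, hy]
  obtain ⟨Λ, hΛ⟩ : ∃ Λ, Λ = 2 * Real.pi * N / ω := ⟨_, rfl⟩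
  have hΛ0 : 0 < Λ := by rw [hΛ]; positivity
  have hΛ1 : 4 * (y / ω) ≤ Λ := by
    rw [hΛ, ← mul_div_assoc]
    exact div_le_div_of_nonneg_right hN1 hω.le
  choose V hV1 hV2 using fun t => C.conv_identity T hT.1 h Λ t ω y hh hΛ0 hω j hj1 r1
  obtain ⟨c, hc⟩ : ∃ c, c = j / ω * ((j : ℝ) ^ j * Real.exp (-j) / j.factorial) *
    (2 * Real.pi / (Λ * h)) := ⟨_, rfl⟩
  have hc0 : 0 ≤ c := by rw [hc]; positivity
  have hcN : (M : ℝ) ^ 4000 / 6 ≤ c * N * h := by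
    clear * - c N h j ω Λ hc hΛ hω hN hh hj1 hj0 M hj2
    have e : c * N * h = j * ((j : ℝ) ^ j * Real.exp (-j) / j.factorial) := by
      rw [hc, hΛ]; field_simp
    have hs := Real.sqrt_pos.2 hj0
    rw [e]
    refine le_trans ?_ (mul_le_mul_of_nonneg_left (stirling_two hj1).1 hj0.le)
    rw [mul_one_div, mul_comm 3, ← div_div, Real.div_sqrt]
    linarith only [hj2]
  have e3 : ∀ n : ℕ, h * ω / (2 * Real.pi * ((n : ℝ) + 1) / Λ) = h * N / ((n : ℝ) + 1) :=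
    fun n => by rw [hΛ]; field_simp
  simp only [← hc, e3] at hV2
  obtain ⟨E, hE⟩ : ∃ E, E = M * (Real.exp (-(M : ℝ) ^ 9) * C.N0) := ⟨_, rfl⟩
  have hE0 : 0 ≤ E := hE ▸ mul_nonneg hM.le (mul_nonneg (Real.exp_pos _).le C.N0pos.le)
  have hEX : 8 * N * E ≤ X := by
    clear * - M m hp h ι C N hh2 y hNy hy2 hN0 hM E X hE hd hSb hh c
    have h1 := hp.mul_pow_le (c := 8 * 3 * (41 / 10)) (by norm_num)
      (show 1 + 7995 + 7738 < 20000 by norm_num)
    have h2 := mul_le_mul hh2 (hNy.trans hy2) hN0.le (by linarith only [hp.pow_pos 7738])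
    have h3 : 8 * M * (h * C.d * N) ≤ (M : ℝ) ^ 20000 := by
      refine le_trans ?_ h1
      rw [pow_add, pow_add, pow_one]
      generalize (M : ℝ) ^ 7995 = A at h2
      generalize (M : ℝ) ^ 7738 = B at h2
      have := mul_le_mul_of_nonneg_left h2 hM.le
      linarith only [this]
    have h4 : (M : ℝ) ^ 20000 * Real.exp (-(M : ℝ) ^ 9) ≤ Real.exp (-(M : ℝ) ^ 4) :=
      (conv_exp hp (by norm_num)).trans (Real.exp_le_exp.2 (neg_le_neg (hp.pow_mono (by norm_num))))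
    have h5 := mul_le_mul_of_nonneg_right
      ((mul_le_mul_of_nonneg_right h3 (Real.exp_pos _).le).trans h4) C.N0pos.le
    rw [div_le_iff₀ hd] at hSb
    refine le_of_mul_le_mul_left ?_ (mul_pos hh hd)
    rw [hE]
    linarith only [h5, hSb]
  -- harmonic side
  have hs := hasSum_sum (s := range N) fun q _ =>
    (hV2 (y / ω - Λ / 2 + q * (2 * Real.pi / ω))).mul_left
      (exp (-(I * ((ω * (y / ω - Λ / 2 + q * (2 * Real.pi / ω)) : ℝ) : ℂ))))
  have hH := conv_tail hs {N - 1} (ε := c * N * (E * (h * N))) fun F hF => by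
    clear * - F N ω y Λ c ι m M C T h j E hΛ hN hω hc0 hE hT hA hh hF hh3 hp
    simp only [hΛ, conv_avg hN hω _ c hc0]
    rw [← sum_filter, ← mul_sum, hE]
    refine mul_le_mul_of_nonneg_left (C.conv_harm hT hA (by positivity) _ fun r hr _ n hn => ?_)
      (by positivity)
    obtain ⟨h1, k, h2⟩ := mem_filter.1 hn
    have h3 : n ≠ N - 1 := fun e => disjoint_singleton_right.1 hF (e ▸ h1)
    have h4 : 2 ≤ k := by
      rcases k with _ | _ | k <;> omega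
    have h5 : (n : ℝ) + 1 = N * k := by exact_mod_cast h2
    have h6 : (2 : ℝ) ≤ k := by exact_mod_cast h4
    have h7 := (abs_le.1 (hh3 r hr)).1
    have h8 := hp.pow_pos 4000
    have h9 := hp.pow_mono (show 5 ≤ 4000 by norm_num)
    rw [h5, show C.D.a r / (h * N / (N * k)) = C.D.a r / h * k by field_simp]
    have h10 := mul_le_mul (show 9 / 10 ≤ C.D.a r / h by linarith only [h7]) h6 (by norm_num)
      (by linarith only [h7])
    refine le_abs.2 (Or.inl (le_trans (b := 1 / 2) ?_ (by linarith only [h10])))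
    rw [div_le_iff₀ (by linarith only [h8])]
    linarith only [h9]
  rw [sum_singleton] at hH
  have hH2 := (norm_sub_norm_le _ _).trans ((norm_sub_rev _ _).le.trans hH)
  have e4 : ((N - 1 : ℕ) : ℝ) + 1 = N := by exact_mod_cast Nat.sub_add_cancel hN
  rw [hΛ, conv_avg hN hω _ c hc0, if_pos (by rw [Nat.sub_add_cancel hN]), e4,
    mul_div_cancel_right₀ _ hN0.ne', ← hΛ] at hH2
  -- pole side
  obtain ⟨Δ, hΔ⟩ : ∃ Δ, Δ = (M : ℝ) ^ 5 * C.d / (M : ℝ) ^ 4000 := ⟨_, rfl⟩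
  have hB0 : 0 ≤ X / (M : ℝ) ^ 7 := by positivity
  have hP : ∀ q ∈ range N, ‖exp (-(I * ((ω * (y / ω - Λ / 2 + q * (2 * Real.pi / ω)) : ℝ) : ℂ))) *
      V (y / ω - Λ / 2 + q * (2 * Real.pi / ω))‖ ≤ 2 * E + if ∃ r ∈ C.D.s,
        |(q : ℝ) - (C.D.a r / h * (y / ω) - (y / ω - Λ / 2)) * ω / (2 * Real.pi)| ≤ Δ * ω / 5
        then X / (M : ℝ) ^ 7 else 0 := fun q hq => by
    clear * - ω y Λ q V E ι m M C h Δ X hE T hT j hj1 hω hR hh hh1 hh3 hΛ1 N hq hΛ hV1 hB hΔ hpi hB0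
    rw [norm_mul, ← mul_neg, ← ofReal_neg, norm_exp_I_mul_ofReal, one_mul, hE]
    refine C.conv_pole hT hj1 hω hR hh hh1 hh3 hΛ1 ?_ (hV1 _) hB _ (fun r hr h1 => ?_) hB0
    · have h1 : (q : ℝ) ≤ N := by exact_mod_cast (mem_range.1 hq).le
      have h2 : q * (2 * Real.pi / ω) ≤ Λ := by
        rw [hΛ, mul_comm (2 * Real.pi) (N : ℝ), mul_div_assoc (N : ℝ)]
        exact mul_le_mul_of_nonneg_right h1 (by positivity)
      have h3 : 0 ≤ q * (2 * Real.pi / ω) := by positivity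
      exact abs_le.2 ⟨by linarith only [h3], by linarith only [h2]⟩
    · refine ⟨r, hT.1 hr, ?_⟩
      rw [← hΔ] at h1
      have h0 := (abs_nonneg _).trans h1
      rw [show (q : ℝ) - (C.D.a r / h * (y / ω) - (y / ω - Λ / 2)) * ω / (2 * Real.pi) =
        (y / ω - Λ / 2 + q * (2 * Real.pi / ω) - C.D.a r / h * (y / ω)) * ω / (2 * Real.pi) by
          field_simp; ring, abs_div, abs_mul, abs_of_pos hω, abs_of_pos Real.two_pi_pos,
        div_le_iff₀ Real.two_pi_pos]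
      have h2 := mul_le_mul_of_nonneg_right h1 hω.le
      have h3 : 0 ≤ Δ * ω := mul_nonneg (by linarith only [h0]) hω.le
      have h4 := mul_le_mul_of_nonneg_left hpi.le h3
      linarith only [h2, h3, h4]
  have hP2 := (norm_sum_le _ _).trans (sum_le_sum hP)
  rw [sum_add_distrib, sum_const, card_range, ← sum_filter, sum_const, nsmul_eq_mul,
    nsmul_eq_mul] at hP2
  have h8 := hp.pow_pos 4000
  have h5 := one_le_pow₀ (n := 5) hp.one_le
  have hρ : Δ * ω * (M : ℝ) ^ 4000 = (M : ℝ) ^ 5 * (ω * C.d) := by rw [hΔ]; field_simp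
  have h80 : (M : ℝ) ^ 8000 = (M : ℝ) ^ 4000 * (M : ℝ) ^ 4000 := by rw [← pow_add]
  have hbigP := hp.mul_pow_le (c := 100) (by norm_num) (show 0 < 4000 by norm_num)
  rw [div_le_iff₀ hd, h80] at hω1
  rw [h80] at hω2
  rw [pow_zero] at hbigP
  generalize (M : ℝ) ^ 4000 = P at *
  have hρ1 : 10 ≤ Δ * ω := by
    refine le_of_mul_le_mul_right ?_ h8
    rw [hρ]
    have a1 := mul_le_mul_of_nonneg_right h5 (mul_pos hω hd).le
    have a2 := mul_le_mul_of_nonneg_right hbigP h8.le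
    linarith only [a1, a2, hω1, h8]
  have hρ2 : Δ * ω ≤ 3 * (M : ℝ) ^ 5 * P := by
    refine le_of_mul_le_mul_right ?_ h8
    rw [hρ]
    have a1 := mul_le_mul_of_nonneg_left hω2 (zero_le_one.trans h5)
    linarith only [a1]
  have hcount := C.conv_count
    (fun r => (C.D.a r / h * (y / ω) - (y / ω - Λ / 2)) * ω / (2 * Real.pi)) (R := Δ * ω / 5)
    (by linarith only [hρ1]) ((range N).filter _) fun n hn => (mem_filter.1 hn).2
  have hc2 := mul_le_mul_of_nonneg_right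
    (hcount.trans (mul_le_mul_of_nonneg_left (show 2 * (Δ * ω / 5) + 1 ≤ 3 / 2 * (M : ℝ) ^ 5 * P by
      linarith only [hρ1, hρ2]) (by positivity))) hB0
  have hc3 : (M : ℝ) / 2 * (3 / 2 * (M : ℝ) ^ 5 * P) * (X / (M : ℝ) ^ 7) ≤ P * X / 100 := by
    clear * - M m hp P X hX h8 hM
    have := hp.bigR
    rw [show (M : ℝ) / 2 * (3 / 2 * (M : ℝ) ^ 5 * P) * (X / (M : ℝ) ^ 7) = P * X / (4 / 3 * M) by
      field_simp; ring]
    exact div_le_div_of_nonneg_left (by positivity) (by norm_num) (by linarith only [this])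
  have f1 := mul_le_mul_of_nonneg_left hbig (mul_nonneg hc0 hN0.le)
  have f2 := mul_le_mul_of_nonneg_left hEX (mul_nonneg (mul_nonneg hc0 hN0.le) hh.le)
  have f3 := mul_le_mul_of_nonneg_right hcN hX.le
  have f4 := mul_le_mul_of_nonneg_right hbigP hX.le
  clear * - c N X h ι m M C T j ω y E P Λ V Δ f1 f2 f3 f4 hH2 hP2 hc2 hc3 hEX hX; linarith only [f1, f2, f3, f4, hH2, hP2, hc2, hc3, hEX, hX]

namespace Sel
variable {C} (σ : C.Sel)

/-- `conv_identity` with `h = 2π/η`, `t = τ = y/ω`, `Λ = 4τ`: the term `l = 0` is `pB` (`pB_eq`), the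
terms `l ≠ 0` are negligible (`part_negl`); on the other side the `n` with some cluster within
`M^5/(2 M^4000)` of `h_n` number at most `m (M^5 Λ ω / (5.7 M^4000) + 1)` and are bounded by `up`,
the others by `gA_negl`; `stirling_two`. -/
theorem convC (G' : ι) (hG' : G' ∈ C.D.s) (hGG : σ.gr G' = G') (η : ℝ) (hη : 0 < η)
    (hnear : ∀ k ∈ C.D.s, σ.gr k = G' → |sp (C.D.a k) / η - 1| ≤ 1 / 10) {j : ℕ} {ω y : ℝ}
    (hn : σ.Near j ω y) :
    ‖C.pB (cls C.D.s σ.gr G') η j (y / j) ((ω / j : ℝ) : ℂ)‖ ≤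
      5 * (M : ℝ) ^ 6 * σ.S * √η + Real.exp (-(M : ℝ) ^ 8) * C.N0 := by
  classical
  obtain ⟨hA, -, hR, hω1, hω2, hy1, hy2⟩ := hn.facts
  obtain ⟨hj1, hj2⟩ := C.conv_j hA
  obtain ⟨r1, r2, hτ, r4, r5, r6⟩ := C.conv_reg hR
  have hp := C.par
  have hd := C.dpos
  have hpi := Real.pi_gt_d2
  have hpi' := Real.pi_lt_d2
  have hω : 0 < ω := by
    have := div_pos (hp.pow_pos 8000) hd
    linarith only [hω1, this]
  have hy : 0 < y := by
    have := hp.pow_pos 7995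
    linarith only [hy1, this]
  have hj0 : (0 : ℝ) < j := by exact_mod_cast hj1
  have hD : 0 < j / ω := div_pos hj0 hω
  have hT : C.Sat (cls C.D.s σ.gr G') := (C.gsat_cls σ.hgr G' hG' hGG).sat C σ.hgr
  have hmem : ∀ r ∈ cls C.D.s σ.gr G', r ∈ C.D.s ∧ σ.gr r = G' := fun r hr => by
    simpa [cls] using hr
  have haη : ∀ r ∈ C.D.s, σ.gr r = G' → 5 ≤ C.D.a r * η ∧ C.D.a r * η ≤ 7 := fun r hr hr' => by
    clear * - ι m M C r η hnear hr hr' hη hpi hpi'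
    have h1 := abs_le.1 (hnear r hr hr')
    have ha := C.apos r hr
    have e : sp (C.D.a r) / η = 2 * Real.pi / (C.D.a r * η) := by unfold sp; field_simp
    rw [e] at h1
    have h2 : 0 < C.D.a r * η := mul_pos ha hη
    have h3 := (div_le_iff₀ h2).1 (show 2 * Real.pi / (C.D.a r * η) ≤ 11 / 10 by linarith only [h1.2])
    have h4 := (le_div_iff₀ h2).1 (show 9 / 10 ≤ 2 * Real.pi / (C.D.a r * η) by linarith only [h1.1])
    exact ⟨by linarith only [h3, hpi], by linarith only [h4, hpi']⟩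
  obtain ⟨V, hV1, hV2⟩ := C.conv_identity _ hT.1 (2 * Real.pi / η) (4 * (y / ω)) (y / ω) ω y
    (by positivity) (by positivity) hω j hj1 r1
  have hE : 0 ≤ Real.exp (-(M : ℝ) ^ 9) * C.N0 := mul_nonneg (Real.exp_pos _).le C.N0pos.le
  -- pole side
  have e0 : y / ω * (2 * Real.pi / η) / (2 * Real.pi) = y / ω / η := by field_simp
  have e1 : 4 * (y / ω) * (2 * Real.pi / η) / (2 * Real.pi) = 4 * (y / ω / η) := by field_simp
  rw [e0, e1] at hV1
  have ht1 : 1 ≤ 4 * (y / ω / η) := by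
    clear * - y ω η hη ι m M C G' haη hG' hGG hp r4 hd
    rw [← mul_div_assoc, le_div_iff₀ hη]
    have h1 := (haη G' hG' hGG).2
    have h2 := C.alo G' hG'
    have h3 := hp.mul_pow_le (c := 7) (by norm_num) (show 5 < 267 by norm_num)
    have h4 := C.apos G' hG'
    have h5 := hp.pow_pos 5
    have h6 : 7 * (M : ℝ) ^ 5 / 2 * η ≤ 7 * (2 * (M : ℝ) ^ 5 * (y / ω)) :=
      calc _ ≤ C.D.a G' * C.d * η := mul_le_mul_of_nonneg_right (by linarith only [h2, h3]) hη.le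
        _ = C.D.a G' * η * C.d := by ring
        _ ≤ _ := mul_le_mul h1 r4 hd.le (by norm_num)
    refine le_of_mul_le_mul_left ?_ h5
    linarith only [h6]
  have hΔ : (M : ℝ) ^ 5 * C.d / (M : ℝ) ^ 4000 ≤ y / ω := by
    have h1 : ((M : ℝ) ^ 1000)⁻¹ ≤ 1 := inv_le_one_of_one_le₀ (one_le_pow₀ hp.one_le)
    have h2 := r6.trans (mul_le_of_le_one_left hτ.le h1)
    linarith only [h2, hτ]
  have hP := conv_tail hV1 {0} fun F hF => C.conv_part hT hR hD _ _ ht1 F fun r hr _ l hl => by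
    clear * - ι m M C r η hnear σ G' hmem hr l F hF hl y ω hτ hΔ j
    have h1 := abs_le.1 (hnear r (hmem r hr).1 (hmem r hr).2)
    have h2 : l ≠ 0 := fun e => disjoint_singleton_right.1 hF (e ▸ hl)
    have e : y / ω - (y / ω / η + l * (4 * (y / ω / η))) * sp (C.D.a r) =
        y / ω * (1 - (1 + 4 * l) * (sp (C.D.a r) / η)) := by ring
    rw [e, abs_mul, abs_of_pos hτ]
    refine hΔ.trans (le_mul_of_one_le_right hτ.le ?_)
    rcases lt_or_gt_of_ne h2 with h | h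
    · have : (l : ℝ) ≤ -1 := by exact_mod_cast (show l ≤ -1 by omega)
      have h3 := mul_nonneg (show 0 ≤ -(1 + 4 * (l : ℝ)) by linarith only [this])
        (show 0 ≤ sp (C.D.a r) / η by linarith only [h1.1])
      exact le_abs.2 (Or.inl (by linarith only [h3]))
    · have : (1 : ℝ) ≤ l := by exact_mod_cast (show 1 ≤ l by omega)
      have h3 := mul_le_mul (show 5 ≤ 1 + 4 * (l : ℝ) by linarith only [this])
        (show 9 / 10 ≤ sp (C.D.a r) / η by linarith only [h1.1]) (by norm_num)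
        (by linarith only [this])
      exact le_abs.2 (Or.inr (by linarith only [h3]))
  have e2 := C.pB_eq (cls C.D.s σ.gr G') η hη.ne' j (j / ω) (y / ω) hD.ne'
  rw [show y / ω / (j / ω) = y / j by field_simp, show ((j : ℝ) / ω)⁻¹ = ω / j by field_simp] at e2
  rw [sum_singleton, Int.cast_zero, zero_mul, add_zero, ← e2] at hP
  -- harmonic side
  obtain ⟨w, hw⟩ : ∃ w, w = 4 * y / η := ⟨_, rfl⟩
  have hw0 : 0 < w := by rw [hw]; positivity
  obtain ⟨c, hc⟩ : ∃ c, c = j / ω * ((j : ℝ) ^ j * Real.exp (-j) / j.factorial) *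
    (2 * Real.pi / (4 * (y / ω) * (2 * Real.pi / η))) := ⟨_, rfl⟩
  have hc0 : 0 ≤ c := by rw [hc]; positivity
  have hcw : c * w ≤ 3 / 2 * (M : ℝ) ^ 4000 := by
    have e : c * w = j * ((j : ℝ) ^ j * Real.exp (-j) / j.factorial) := by
      rw [hc, hw]; field_simp
    have hs := Real.sqrt_pos.2 hj0
    rw [e]
    refine (mul_le_mul_of_nonneg_left (stirling_two hj1).2 hj0.le).trans (le_trans ?_ hj2)
    rw [mul_one_div, Real.div_sqrt]
  have e3 : ∀ n : ℕ, 2 * Real.pi / η * ω / (2 * Real.pi * ((n : ℝ) + 1) / (4 * (y / ω))) =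
      w / ((n : ℝ) + 1) := fun n => by rw [hw]; field_simp
  simp only [← hc, e3] at hV2
  obtain ⟨δ, hδ⟩ : ∃ δ, δ = (M : ℝ) ^ 5 / (2 * (M : ℝ) ^ 4000) := ⟨_, rfl⟩
  have hδ0 : 0 ≤ δ := by clear * - δ M hδ; rw [hδ]; positivity
  have hδ1 : δ ≤ 1 / 8 := by
    clear * - M m hp δ hδ c
    have h1 := hp.mul_pow_le (c := 4) (by norm_num) (show 5 < 4000 by norm_num)
    have := hp.pow_pos 4000
    rw [hδ, div_le_iff₀ (by positivity)]
    linarith only [h1]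
  have hS := σ.Spos
  have hsq := Real.sqrt_pos.2 hη
  have hH := conv_tail hV2 ∅ (ε := c * ((M : ℝ) / 2 * (2 * (δ * y) + 1) * (σ.S * (3 / √η)) +
      M * (Real.exp (-(M : ℝ) ^ 9) * C.N0) * w)) fun F _ => by
    clear * - F c y ω ι m M C σ G' w j δ η hc0 haη hmem hw0 hw hη hy hδ0 hδ1 hG' hGG hn hS hT hA hδ
      hω
    simp only [norm_mul, Complex.norm_real, Real.norm_of_nonneg hc0, norm_exp_I_mul_ofReal, mul_one]
    rw [← mul_sum, ← sum_filter_add_sum_filter_not F fun n : ℕ => ∃ r ∈ cls C.D.s σ.gr G',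
      |C.D.a r / (w / ((n : ℝ) + 1)) - 1| < δ]
    refine mul_le_mul_of_nonneg_left (add_le_add ?_ (C.conv_harm hT hA hw0 _ fun r hr _ n hn' => ?_))
      hc0
    · have key : ∀ n ∈ F.filter fun n : ℕ => ∃ r ∈ cls C.D.s σ.gr G',
          |C.D.a r / (w / ((n : ℝ) + 1)) - 1| < δ, (∃ r ∈ C.D.s, |(n : ℝ) - (w / C.D.a r - 1)| ≤ δ * y) ∧
            w / ((n : ℝ) + 1) ≤ 9 / η := fun n hn' => by
        obtain ⟨r, hr, h⟩ := (mem_filter.1 hn').2
        obtain ⟨h1, h2⟩ := haη r (hmem r hr).1 (hmem r hr).2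
        have ha := C.apos r (hmem r hr).1
        have hn0 : (0 : ℝ) < (n : ℝ) + 1 := by positivity
        refine ⟨⟨r, (hmem r hr).1, ?_⟩, ?_⟩
        · have e : (n : ℝ) - (w / C.D.a r - 1) =
              (C.D.a r / (w / ((n : ℝ) + 1)) - 1) * (w / C.D.a r) := by clear * - n w ι m M C r ha hw0; field_simp; ring
          rw [e, abs_mul, abs_of_pos (div_pos hw0 ha)]
          refine mul_le_mul h.le ?_ (div_pos hw0 ha).le hδ0
          rw [hw, div_div, div_le_iff₀ (by positivity)]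
          have := mul_le_mul_of_nonneg_left h1 hy.le
          linarith only [this, hy]
        · have h3 := (le_div_iff₀ (div_pos hw0 hn0)).1
            (show 7 / 8 ≤ C.D.a r / (w / ((n : ℝ) + 1)) by linarith only [(abs_lt.1 h).1, hδ1])
          rw [le_div_iff₀ hη]
          have := mul_le_mul_of_nonneg_right h3 hη.le
          linarith only [this, h2]
      refine (sum_le_card_nsmul _ _ (σ.S * (3 / √η)) fun n hn' => ?_).trans ?_
      · refine (σ.up G' hG' hGG _ (by positivity) j ω y hn.hj hn.hω hn.hy).trans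
          (mul_le_mul_of_nonneg_left ?_ hS.le)
        refine Real.sqrt_le_iff.2 ⟨by positivity, ?_⟩
        rw [div_pow, Real.sq_sqrt hη.le]
        exact (key n hn').2.trans (by norm_num)
      · rw [nsmul_eq_mul]
        exact mul_le_mul_of_nonneg_right (C.conv_count _ (by positivity) _ fun n hn' => (key n hn').1)
          (by positivity)
    · rw [← hδ]
      exact not_lt.1 fun h => (mem_filter.1 hn').2 ⟨r, hr, h⟩
  rw [sum_empty, sub_zero, mul_add] at hH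
  have n1 : c * ((M : ℝ) / 2 * (2 * (δ * y) + 1) * (σ.S * (3 / √η))) ≤
      5 * (M : ℝ) ^ 6 * σ.S * √η := by
    clear * - c w η y hη hw hy M m hp hy1 δ hδ hcw hδ0 ι C σ hS hw0
    have e : c = c * w * (√η * √η) / (4 * y) := by
      rw [Real.mul_self_sqrt hη.le, hw]; field_simp
    have h1 : (M : ℝ) ^ 4000 ≤ 2 * y := (hp.pow_mono (by norm_num)).trans hy1
    have h2 : (M : ℝ) ^ 4000 * δ = (M : ℝ) ^ 5 / 2 := by
      have := hp.pow_pos 4000
      rw [hδ]; field_simp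
    have h3 := one_le_pow₀ (n := 5) hp.one_le
    have h4 := hp.pos
    have h5 : c * w * (2 * (δ * y) + 1) ≤ 5 * (M : ℝ) ^ 5 * y :=
      calc _ ≤ 3 / 2 * (M : ℝ) ^ 4000 * (2 * (δ * y) + 1) := by clear * - δ y c w M hcw hδ0 hy h1 h2 h3; gcongr
        _ = 3 * ((M : ℝ) ^ 4000 * δ) * y + 3 / 2 * (M : ℝ) ^ 4000 := by ring
        _ ≤ _ := by
          have := mul_le_mul_of_nonneg_right h3 hy.le
          rw [h2]
          linarith only [this, h1, hy]
    calc _ = c * w * (√η * √η) / (4 * y) *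
          ((M : ℝ) / 2 * (2 * (δ * y) + 1) * (σ.S * (3 / √η))) := by rw [← e]
      _ = c * w * (2 * (δ * y) + 1) * (3 / 8 * M * σ.S * √η / y) := by clear * - c w η y M δ ι m C σ hS hy hδ0 h4 hη hw0; field_simp; ring
      _ ≤ 5 * (M : ℝ) ^ 5 * y * (1 * M * σ.S * √η / y) := by clear * - c w δ y M ι m C σ η h5 h4 hS hη hy; gcongr; norm_num
      _ = _ := by field_simp
  have n2 : c * (M * (Real.exp (-(M : ℝ) ^ 9) * C.N0) * w) + M * (Real.exp (-(M : ℝ) ^ 9) * C.N0) ≤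
      Real.exp (-(M : ℝ) ^ 8) * C.N0 := by
    clear * - M m hp c ι C w hcw hE
    have h1 := hp.mul_pow_le (c := 3) (by norm_num) (show 4001 < 4002 by norm_num)
    have h2 := one_le_pow₀ (n := 4000) hp.one_le
    have h4 := hp.pos
    calc _ = (c * w + 1) * M * (Real.exp (-(M : ℝ) ^ 9) * C.N0) := by ring
      _ ≤ 3 * (M : ℝ) ^ 4000 * M * (Real.exp (-(M : ℝ) ^ 9) * C.N0) :=
          mul_le_mul_of_nonneg_right
            (mul_le_mul_of_nonneg_right (by linarith only [hcw, h2]) h4.le) hE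
      _ ≤ (M : ℝ) ^ 4002 * (Real.exp (-(M : ℝ) ^ 9) * C.N0) := by
          gcongr
          rwa [mul_assoc, ← pow_succ]
      _ ≤ _ := by
          rw [← mul_assoc]
          exact mul_le_mul_of_nonneg_right (conv_exp hp (by norm_num)) C.N0pos.le
  have := norm_sub_norm_le (C.pB (cls C.D.s σ.gr G') η j (y / j) ((ω / j : ℝ) : ℂ)) V
  rw [norm_sub_rev] at this
  clear * - ι m M C σ G' η j y ω V c δ w this hP hH n1 n2; linarith only [this, hP, hH, n1, n2]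

/-- clusters with `M^5 d / M^4000 ≤ τ |sp (a r) / η - 1|` are negligible (`pB_eq`, `part_negl` with
`F = {0}`); at most one coarse group contains another cluster -/
theorem pB_up {S : Finset ι} (hS : C.GSat σ.gr S) (η : ℝ) (hη : 0 < η) {j : ℕ} {ω y : ℝ}
    (hn : σ.Near j ω y) :
    ‖C.pB S η j (y / j) ((ω / j : ℝ) : ℂ)‖ ≤
      5 * (M : ℝ) ^ 6 * σ.S * √η + 2 * Real.exp (-(M : ℝ) ^ 8) * C.N0 := by
  classical
  obtain ⟨hA, -, hR, hω1, -, -, -⟩ := hn.facts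
  obtain ⟨hj1, -⟩ := C.conv_j hA
  obtain ⟨-, -, hτ, -, -, r6⟩ := C.conv_reg hR
  have hp := C.par
  have hω : 0 < ω := by
    have := div_pos (hp.pow_pos 8000) C.dpos
    linarith
  have hj0 : (0 : ℝ) < j := by exact_mod_cast hj1
  have hD : 0 < j / ω := div_pos hj0 hω
  have far : ∀ T, C.Sat T → (∀ r ∈ T, C.cl r = r → (M : ℝ) ^ 5 * C.d / (M : ℝ) ^ 4000 ≤
      |y / ω - y / ω / η * sp (C.D.a r)|) →
      ‖C.pB T η j (y / j) ((ω / j : ℝ) : ℂ)‖ ≤ Real.exp (-(M : ℝ) ^ 8) * C.N0 := fun T hT h => by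
    have h1 := C.conv_part hT hR hD (y / ω / η) 1 le_rfl {0} fun r hr hrr l hl => by
      rw [mem_singleton.1 hl, Int.cast_zero, zero_mul, add_zero]
      exact h r hr hrr
    have e2 := C.pB_eq T η hη.ne' j (j / ω) (y / ω) hD.ne'
    rw [show y / ω / (j / ω) = y / j by field_simp,
      show ((j : ℝ) / ω)⁻¹ = ω / j by field_simp] at e2
    rw [sum_singleton, Int.cast_zero, zero_mul, add_zero, ← e2, ← mul_assoc] at h1
    refine h1.trans (mul_le_mul_of_nonneg_right ?_ C.N0pos.le)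
    simpa using conv_exp hp (k := 1) (by norm_num)
  have hE : 0 ≤ Real.exp (-(M : ℝ) ^ 8) * C.N0 := mul_nonneg (Real.exp_pos _).le C.N0pos.le
  have near : ∀ r, ¬ (M : ℝ) ^ 5 * C.d / (M : ℝ) ^ 4000 ≤ |y / ω - y / ω / η * sp (C.D.a r)| →
      |sp (C.D.a r) / η - 1| ≤ ((M : ℝ) ^ 1000)⁻¹ / 4 := fun r h => by
    clear * - y ω ι m M C r η r6 hτ h
    rw [show y / ω - y / ω / η * sp (C.D.a r) = y / ω * (1 - sp (C.D.a r) / η) by ring, abs_mul,
      abs_of_pos hτ, abs_sub_comm, not_le] at h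
    refine le_of_mul_le_mul_left ?_ hτ
    linarith
  have eq : ∀ r ∈ C.D.s, ∀ r' ∈ C.D.s,
      sp (C.D.a r) / η * C.D.a r = sp (C.D.a r') / η * C.D.a r' := fun r hr r' hr' => by
    have := C.apos r hr
    have := C.apos r' hr'
    unfold sp
    field_simp
  by_cases h : ∀ r ∈ S, C.cl r = r → (M : ℝ) ^ 5 * C.d / (M : ℝ) ^ 4000 ≤
      |y / ω - y / ω / η * sp (C.D.a r)|
  · have h1 := far S (hS.sat C σ.hgr) h
    have h2 : 0 ≤ 5 * (M : ℝ) ^ 6 * σ.S * √η := by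
      have := σ.Spos
      positivity
    linarith only [hE, h1, h2]
  obtain ⟨r0, h⟩ := not_forall.1 h
  obtain ⟨hr0, h⟩ := Classical.not_imp.1 h
  have h0 := near r0 (Classical.not_imp.1 h).2
  have hs0 := hS.1 hr0
  have hmem : ∀ r, r ∈ cls C.D.s σ.gr (σ.gr r0) ↔ r ∈ C.D.s ∧ σ.gr r = σ.gr r0 := fun r => by
    simp [cls]
  have hsub : cls C.D.s σ.gr (σ.gr r0) ⊆ S := fun k hk => by
    obtain ⟨h1, h2⟩ := (hmem k).1 hk
    exact (hS.2 k h1).2 (h2 ▸ (hS.2 r0 hs0).1 hr0)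
  have hsat : C.GSat σ.gr (S \ cls C.D.s σ.gr (σ.gr r0)) := ⟨sdiff_subset.trans hS.1, fun k hk => by
    rw [mem_sdiff, mem_sdiff, hmem, hmem, σ.hgr.idem k hk, ← hS.2 k hk]
    simp [hk, σ.hgr.mem k hk]⟩
  have h1 := far _ (hsat.sat C σ.hgr) fun r hr _ => by
    clear * - M ι m C y ω η r S σ r0 hr hS hs0 hmem eq near h0 hp
    by_contra hc
    obtain ⟨h2, h3⟩ := mem_sdiff.1 hr
    have hs := hS.1 h2
    have h4 := σ.hgr.sep r hs r0 hs0 fun e => h3 ((hmem r).2 ⟨hs, e⟩)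
    have ha := C.apos r hs
    have ha0 := C.apos r0 hs0
    have h5 := conv_close ha ha0 (eq r hs r0 hs0) (near r hc) h0
      (inv_le_one_of_one_le₀ (one_le_pow₀ hp.one_le))
    have h6 := hp.inv_pow_le (c := 1) (by norm_num) (show 14 < 1000 by norm_num)
    have h7 := mul_le_mul_of_nonneg_right h6 (lt_min ha ha0).le
    simp only [← ofReal_sub, Complex.norm_real, Real.norm_eq_abs, abs_of_pos ha,
      abs_of_pos ha0] at h4
    linarith only [h5, h7, h4]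
  have h2 := σ.convC (σ.gr r0) (σ.hgr.mem r0 hs0) (σ.hgr.idem r0 hs0) η hη (fun k hk hk' => by
    clear * - ι m M C σ r0 hs0 hp k η eq hk hk' h0 hn near
    have hg := C.apos _ (σ.hgr.mem r0 hs0)
    have h6 := hp.inv_pow_le (c := 100) (by norm_num) (show 0 < 13 by norm_num)
    have h7 := hp.inv_pow_le (c := 100) (by norm_num) (show 0 < 1000 by norm_num)
    rw [pow_zero, inv_one] at h6 h7
    have h8 : ∀ r ∈ C.D.s, σ.gr r = σ.gr r0 →
        |C.D.a r - C.D.a (σ.gr r0)| ≤ C.D.a (σ.gr r0) / 100 := fun r hr hr' => by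
      have := σ.hgr.near r hr
      simp only [hr', ← ofReal_sub, Complex.norm_real, Real.norm_eq_abs, abs_of_pos hg] at this
      have h9 := mul_le_mul_of_nonneg_right h6 hg.le
      linarith only [this, h9]
    exact conv_ratio hg (eq k hk r0 hs0) (h8 k hk hk') (h8 r0 hs0 rfl) (by linarith only [h0, h7])) hn
  have e : C.pB S η j (y / j) ((ω / j : ℝ) : ℂ) =
      C.pB (S \ cls C.D.s σ.gr (σ.gr r0)) η j (y / j) ((ω / j : ℝ) : ℂ) +
        C.pB (cls C.D.s σ.gr (σ.gr r0)) η j (y / j) ((ω / j : ℝ) : ℂ) := (sum_sdiff hsub).symm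
  rw [e]
  refine (norm_add_le _ _).trans ?_
  linarith only [h1, h2]

/-- `conv_identity` with `h = σ.h`, `Λ = 2π n* / ω ∈ [4τ, 5τ]`, `t_q = τ - Λ/2 + q Λ / n*`,
`q < n*`.  Averaging `exp (-I ω t_q) V(t_q)` over `q` (`sum_exp_root`) isolates the indices
`n + 1 ≡ 0 mod n*`: the index `n + 1 = n*` gives `gA G h j ω y`, the others are negligible
(`gA_negl`).  `V(t_q)` is `pB G η_q` with `η_q = 2π τ / (t_q h)` up to `part_negl`, and negligible
unless `|t_q / α_r - τ| ≤ M^5 d / M^4000` for a cluster `r` of `G` (at most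
`3 m (M^5 d / M^4000) n* / Λ` values of `q`). -/
theorem convB : ∃ η : ℝ, 0 < η ∧
    (∃ r ∈ C.D.s, C.cl r = r ∧ σ.gr r = σ.G ∧ |sp (C.D.a r) / η - 1| ≤ ((M : ℝ) ^ 1000)⁻¹) ∧
    σ.S / ((M : ℝ) ^ 7 * √σ.h) ≤
      ‖C.pB (cls C.D.s σ.gr σ.G) η σ.j (σ.y / σ.j) ((σ.ω / σ.j : ℝ) : ℂ)‖ := by
  by_contra hcon
  obtain ⟨hA, -, hR, hω1, hω2, hy1, hy2⟩ := σ.near_self.facts
  obtain ⟨hh1, hh2, hh3⟩ := σ.h_range
  have hs := Real.sqrt_pos.2 σ.hpos
  have e : σ.S / √σ.h * σ.h = σ.S * √σ.h := by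
    rw [div_mul_eq_mul_div, mul_div_assoc, Real.div_sqrt]
  have hmem : ∀ r ∈ cls C.D.s σ.gr σ.G, r ∈ C.D.s ∧ σ.gr r = σ.G := fun r hr => by
    simpa [cls] using hr
  have h6 := C.par.inv_pow_le (c := 30) (by norm_num) (show 0 < 13 by norm_num)
  rw [pow_zero, inv_one] at h6
  refine C.conv_core ((C.gsat_cls σ.hgr σ.G σ.Gmem σ.Grep).sat C σ.hgr) hA hR hω1 hω2 hy1 hy2
    σ.hpos hh1 hh2 (fun k hk => (hh3 k (hmem k hk).1 (hmem k hk).2).trans (by linarith only [h6]))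
    (div_pos σ.Spos hs) (e ▸ σ.Sbig) (e ▸ σ.big) fun η hη r hr hrr h => ?_
  rw [div_div, mul_comm]
  exact (not_le.1 fun h' => hcon ⟨η, hη, ⟨r, (hmem r hr).1, hrr, (hmem r hr).2, h⟩, h'⟩).le

end Sel

end CDat

end Pool.Agent.Work.MP_97f157_lc.Tau
end
end

-- merged part: Pool.Agent.Work.MP_97f157_lc.TauP2
section
-- merged part: Pool.Agent.Work.MP_97f157_lc.TauP1
section
/-! The pole tool: preparation. -/

noncomputable section
open Complex Finset Metric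

namespace Pool.Agent.Work.MP_97f157_lc.Tau

variable {ι : Type*} {m M : ℕ}

theorem Reg.to_two {jc j : ℕ} {d Dd τ : ℝ} (hp : Par m M) (hd : 0 < d) (h : Reg M 1 jc d j Dd τ) :
    Reg M 2 jc d j Dd τ := by
  have h1 := hp.pow_pos 7994
  have h2 : 0 < d * ((M : ℝ) ^ 5)⁻¹ := mul_pos hd (inv_pos.2 (hp.pow_pos 5))
  have h3 := h.hτ1
  have h4 := h.hτ2
  rw [mul_assoc] at h4
  exact ⟨by linarith only [h1, h, h.hj], h.hD1, h.hD2, by linarith only [h2, h3], by rw [mul_assoc]; linarith only [h2, h4]⟩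

theorem P1_exp (hp : Par m M) {k : ℕ} (hk : k ≤ 100000) :
    (M : ℝ) ^ k * Real.exp (-(M : ℝ) ^ 9) ≤ Real.exp (-((M : ℝ) ^ 9 / 2)) := by
  refine (mul_le_mul_of_nonneg_right (hp.pow_le_exp hk) (Real.exp_pos _).le).trans ?_
  rw [← Real.exp_add, Real.exp_le_exp]
  have := hp.mul_pow_le (c := 2) (by norm_num) (show 1 < 9 by norm_num)
  rw [pow_one] at this
  linarith only [this]

/-- negligible pole terms, summed over all clusters -/
theorem CDat.P1_sum (C : CDat ι m M) {S : Finset ι} (hS : C.Sat S) {j : ℕ} {Dd τ : ℝ}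
    (hR : Reg M 2 C.jc C.d j Dd τ) (t0 : ℝ) (F : Finset ℤ)
    (hF : ∀ r ∈ S, C.cl r = r → ∀ l ∈ F,
      (M : ℝ) ^ 5 * C.d / (M : ℝ) ^ 4000 ≤ |τ - (t0 + l * 1) * sp (C.D.a r)|) :
    ∑ l ∈ F, ‖(Dd : ℂ) ^ (j + 1) * ∑ k ∈ S, (C.D.W k : ℂ) *
        pc (C.D.x k + I * (((t0 + l * 1) * sp (C.D.a k) : ℝ) : ℂ)) j (zp C.d Dd τ)‖ ≤
      Real.exp (-(M : ℝ) ^ 8) * C.N0 := by
  classical
  have hp := C.par
  have hD : 0 < Dd := by linarith only [hR, C.cp_Dpos hR, C.dpos]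
  have hN := C.N0pos
  simp only [norm_mul, norm_pow, norm_real, Real.norm_of_nonneg hD.le]
  rw [← mul_sum]
  refine (mul_le_mul_of_nonneg_left (sum_le_sum fun l _ => (le_of_eq (congrArg _
    (sum_cls C.clus.mem C.clus.idem hS.1 hS.2 _))).trans (norm_sum_le _ _)) (by positivity)).trans ?_
  rw [sum_comm, mul_sum]
  refine (sum_le_card_nsmul _ _ (Real.exp (-(M : ℝ) ^ 9) * C.N0) fun r hr => ?_).trans ?_
  · obtain ⟨h1, h2⟩ := mem_filter.1 hr
    exact C.part_negl r (hS.1 h1) h2 j Dd τ hR t0 1 le_rfl F (hF r h1 h2)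
  · rw [nsmul_eq_mul, ← mul_assoc]
    refine mul_le_mul_of_nonneg_right ?_ hN.le
    have h1 := C.H1_card hS.1 fun r => C.cl r = r
    have h2 := P1_exp hp (k := 1) (by norm_num)
    have h3 := hp.mul_pow_le (c := 2) (by norm_num) (show 8 < 9 by norm_num)
    rw [pow_one] at h2
    refine (mul_le_mul_of_nonneg_right (by linarith only [h1, hp.pos]) (Real.exp_pos _).le).trans
      (h2.trans (Real.exp_le_exp.2 (by linarith only [h3])))

/-- `hasSum_gA`, `gA_negl`, `sum_exp_harm`, `stirling_two`: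
`(j/ω)^(j+1) lat = (j/ω) (j^j e^{-j} / j!) ∑ gA` -/
theorem CDat.lat_negl_harm (C : CDat ι m M) (r : ι) (hr : r ∈ C.D.s) (hrr : C.cl r = r) (j : ℕ)
    (ω y : ℝ) (hω : 0 < ω) (hA : C.Arg j ω y) (hR : Reg M 2 C.jc C.d j (j / ω) (y / ω))
    (hfar : ∀ n : ℕ, 1 ≤ n → 2 * (M : ℝ) ^ 4005 ≤ |n * (C.D.a r * (j / ω)) - j|) :
    (j / ω) ^ (j + 1) * ‖C.D.lat (cls C.D.s C.cl r) j (zp C.d (j / ω) (y / ω))‖ ≤
      Real.exp (-((M : ℝ) ^ 9 / 2)) * C.N0 := by
  have hp := C.par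
  have hd := C.dpos
  have hN := C.N0pos
  obtain ⟨j1, j2⟩ := C.cb_j hA
  have j0 : (0 : ℝ) < j := by linarith only [j1, hp, hp.pow_pos 8000]
  have hω' := hA.hω'
  rw [norm_real, Real.norm_of_nonneg hω.le] at hω'
  have h1 := C.hasSum_gA _ (C.sat_cls r hr hrr).1 j ω y hω (C.cp_Dpos hR)
  have h2 : ∀ n : ℕ, ‖C.gA (cls C.D.s C.cl r) (ω / ((n : ℝ) + 1)) j ω y‖ ≤
      Real.exp (-(M : ℝ) ^ 9) * C.N0 *
        (C.D.a r * Real.exp (-(C.D.a r / (ω / ((n + 1 : ℕ) : ℝ))))) := fun n => by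
    rw [← mul_assoc, Nat.cast_succ]
    refine C.gA_negl r hr hrr _ (by positivity) j ω y hA ?_
    have a1 := hfar (n + 1) (by omega)
    rw [Nat.cast_succ] at a1
    rw [show C.D.a r / (ω / ((n : ℝ) + 1)) - 1 = (((n : ℝ) + 1) * (C.D.a r * (j / ω)) - j) / j by
      field_simp, abs_div, abs_of_pos j0, le_div_iff₀ j0, div_mul_eq_mul_div,
      div_le_iff₀ (by linarith only [hp, hp.pow_pos 4000])]
    have a2 := mul_le_mul_of_nonneg_left j2 (hp.pow_pos 5).le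
    have a3 := mul_le_mul_of_nonneg_right a1 (hp.pow_pos 4000).le
    have a4 : (M : ℝ) ^ 5 * (M : ℝ) ^ 8000 = (M : ℝ) ^ 4005 * (M : ℝ) ^ 4000 := by
      rw [← pow_add, ← pow_add]
    have a5 := mul_pos (hp.pow_pos 5) (hp.pow_pos 8000)
    linarith only [a2, a3, a5]
  have h3 := le_of_tendsto' h1.norm fun F => (norm_sum_le_of_le _ fun n _ => h2 n).trans
    (show _ ≤ Real.exp (-(M : ℝ) ^ 9) * C.N0 * (3 * (M : ℝ) ^ 8000 / C.d) by
      rw [← mul_sum]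
      refine mul_le_mul_of_nonneg_left (le_trans (le_of_eq ?_) (C.sum_exp_harm r hr ω hω hω'
        (F.map (addRightEmbedding 1)) fun k hk => ?_)) (by positivity)
      · rw [sum_map]; rfl
      · obtain ⟨n, -, rfl⟩ := mem_map.1 hk
        exact Nat.le_add_left 1 n)
  have jN : 1 ≤ j := by exact_mod_cast j0
  have h4 := (stirling_two jN).2.trans (div_le_one_of_le₀ (Real.one_le_sqrt.2
    (by exact_mod_cast jN)) (Real.sqrt_nonneg _))
  have h5 : j / ω ≤ C.d := hR.hD2.trans (mul_le_of_le_one_right hd.le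
    (by linarith only [inv_pos.2 (hp.pow_pos 5)]))
  have f0 : (0 : ℝ) < j.factorial := by exact_mod_cast j.factorial_pos
  rw [norm_mul, norm_real, Real.norm_of_nonneg (by positivity)] at h3
  have h6 := hp.mul_pow_le (c := 3) (by norm_num) (show 8000 < 8001 by norm_num)
  have h7 := P1_exp hp (k := 8001) (by norm_num)
  have h8 := hp.pow_pos 8000
  generalize (M : ℝ) ^ 8000 = Y at h3 h6 h8
  generalize ‖C.D.lat (cls C.D.s C.cl r) j (zp C.d (j / ω) (y / ω))‖ = L at h3 ⊢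
  calc _ = j / ω * ((j : ℝ) ^ j * Real.exp (-j) / j.factorial *
        ((j.factorial : ℝ) * Real.exp j / ω ^ j * L)) := by
        rw [Real.exp_neg, pow_succ, div_pow]
        field_simp
    _ ≤ j / ω * ((j : ℝ) ^ j * Real.exp (-j) / j.factorial *
        (Real.exp (-(M : ℝ) ^ 9) * C.N0 * (3 * Y / C.d))) := by gcongr
    _ ≤ C.d * (1 * (Real.exp (-(M : ℝ) ^ 9) * C.N0 * (3 * Y / C.d))) := by gcongr
    _ = 3 * Y * Real.exp (-(M : ℝ) ^ 9) * C.N0 := by field_simp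
    _ ≤ _ := mul_le_mul_of_nonneg_right
        ((mul_le_mul_of_nonneg_right h6 (Real.exp_pos _).le).trans h7) hN.le

namespace CDat.Sel
variable {C : CDat ι m M} (σ : C.Sel)

def kap : ℝ := σ.y / σ.j
def tau : ℝ := σ.y / σ.ω

/-- the amplitude used in `latt`; `P` is the height and `P / kap` the distance of the probe -/
def ampP (S : Finset ι) (j : ℕ) (η P : ℝ) : ℂ := C.pB S η j σ.kap ((σ.kap / P : ℝ) : ℂ)

/-- target spacings -/
def Tgt (η : ℝ) : Prop := 0 < η ∧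
  ∃ r ∈ C.D.s, C.cl r = r ∧ σ.gr r = σ.G ∧ |sp (C.D.a r) / η - 1| ≤ ((M : ℝ) ^ 1000)⁻¹

theorem P1_y : 0 < σ.y := by linarith only [σ.near_self.facts.2.2.2.2.2.1, C.par.pow_pos 7995]

theorem P1_j : (0 : ℝ) < σ.j := by
  linarith only [(C.cb_j σ.near_self.facts.1).1, C.par.pow_pos 8000]

theorem kap_pos : 0 < σ.kap := div_pos σ.P1_y σ.P1_j
theorem tau_pos : 0 < σ.tau := div_pos σ.P1_y σ.H1_ω.1
theorem tau_range : C.d * ((M : ℝ) ^ 5)⁻¹ / 2 ≤ σ.tau ∧ σ.tau ≤ 2 * C.d * ((M : ℝ) ^ 5)⁻¹ := by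
  have h := σ.near_self.facts.2.2.1
  have h1 := h.hτ1
  have h2 := h.hτ2
  unfold tau
  constructor <;> linarith only [h1, h2]

/-- `h_range` -/
theorem Tgt.range {η : ℝ} (h : σ.Tgt η) : 6 ≤ η * σ.h ∧ η * σ.h ≤ 7 := by
  obtain ⟨h0, r, r1, -, r3, r4⟩ := h
  have hp := C.par
  have h1 := σ.h_range.2.2 r r1 r3
  have h2 := cp_inv_small hp (k := 13) (by norm_num)
  have h3 := cp_inv_small hp (k := 1000) (by norm_num)
  have ha := C.apos r r1
  have hh := σ.hpos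
  have e : η * σ.h * (C.D.a r / σ.h * (sp (C.D.a r) / η)) = 2 * Real.pi := by
    unfold sp; field_simp
  have x0 := mul_pos h0 hh
  obtain ⟨a1, a2⟩ := abs_le.1 h1
  obtain ⟨a3, a4⟩ := abs_le.1 r4
  generalize C.D.a r / σ.h = α at *
  generalize sp (C.D.a r) / η = β at *
  have b1 : α * β ≤ 101 / 100 := by nlinarith only [h2, h3, a1, a2, a4]
  have b2 : 99 / 100 ≤ α * β := by nlinarith only [h2, h3, a1, a3]
  have p1 := Real.pi_gt_d2
  have p2 := Real.pi_lt_d2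
  constructor <;> nlinarith only [x0, e, b1, p1, p2, b2]

theorem P1_kap : σ.kap ≤ 1 := by
  have h1 := σ.near_self.facts
  rw [kap, div_le_one σ.P1_j]
  linarith only [h1, (C.cb_j h1.1).1, h1.2.1, le_abs_self σ.y]

theorem P1_hP {P : ℝ} (hP : |P - σ.tau| ≤ ((M : ℝ) ^ 146)⁻¹ * σ.tau) :
    |P - σ.tau| ≤ ((M : ℝ) ^ 12)⁻¹ / 2 * σ.tau :=
  hP.trans (mul_le_mul_of_nonneg_right (by
    linarith only [C.par.inv_pow_le (c := 2) (by norm_num) (show 12 < 146 by norm_num)]) σ.tau_pos.le)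

theorem P1_self : |σ.tau - σ.tau| ≤ ((M : ℝ) ^ 12)⁻¹ / 2 * σ.tau := by
  have := σ.tau_pos
  rw [sub_self, abs_zero]; positivity

/-- the probe `(j + i, P / kap, P)` corresponds to `ω' = kap (j+i) / P`, `y' = kap (j+i)` -/
theorem near_P {i : ℕ} (hi : i ≤ M ^ 4507) {P : ℝ}
    (hP : |P - σ.tau| ≤ ((M : ℝ) ^ 12)⁻¹ / 2 * σ.tau) :
    0 < P ∧ σ.Near (σ.j + i) (σ.kap * (σ.j + i : ℕ) / P) (σ.kap * (σ.j + i : ℕ)) ∧
      Reg M 1 C.jc C.d (σ.j + i) (P / σ.kap) P := by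
  have hp := C.par
  have hκ := σ.kap_pos
  have hτ := σ.tau_pos
  have hj := σ.P1_j
  have hy := σ.P1_y
  obtain ⟨w0, w1, w2⟩ := σ.H1_ω
  have e1 := cp_inv_small hp (k := 12) (by norm_num)
  have e2 := cp_inv_small hp (k := 7) (by norm_num)
  have e0 := inv_pos.2 (hp.pow_pos 12)
  have i0 : (0 : ℝ) ≤ i := Nat.cast_nonneg i
  have i1 : (i : ℝ) ≤ (M : ℝ) ^ 4507 := by exact_mod_cast hi
  have i2 : 10 * (i : ℝ) ≤ ((M : ℝ) ^ 12)⁻¹ * σ.j := by
    rw [inv_mul_eq_div, le_div_iff₀ (hp.pow_pos _)]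
    have a1 := mul_le_mul_of_nonneg_right i1 (hp.pow_pos 12).le
    have a2 := hp.mul_pow_le (c := 20) (by norm_num) (show 4507 + 12 < 8000 by norm_num)
    rw [pow_add] at a2
    linarith only [a1, a2, (C.cb_j σ.near_self.facts.1).1]
  have i3 : (i : ℝ) ≤ ((M : ℝ) ^ 12)⁻¹ * C.y0 := by
    rw [inv_mul_eq_div, le_div_iff₀ (hp.pow_pos _)]
    have a1 := mul_le_mul_of_nonneg_right i1 (hp.pow_pos 12).le
    have a2 := hp.pow_mono (show 4507 + 12 ≤ 7995 by norm_num)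
    rw [pow_add] at a2
    linarith only [w2, a1, a2]
  have w3 : σ.ω ≤ 11 / 10 * C.ω0 := by nlinarith only [w0, w1, e1, e2, e0, (abs_le.1 σ.hω).2]
  have P0 : 9 / 10 * σ.tau ≤ P := by nlinarith only [hP, hτ, e1, (abs_le.1 hP).1]
  have P1 : 0 < P := by linarith only [hτ, P0]
  have ey : σ.kap * σ.j = σ.y := div_mul_cancel₀ _ hj.ne'
  have eω : σ.tau * σ.ω = σ.y := div_mul_cancel₀ _ w0.ne'
  have hN : σ.Near (σ.j + i) (σ.kap * (σ.j + i : ℕ) / P) (σ.kap * (σ.j + i : ℕ)) := by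
    rw [Nat.cast_add]
    refine ⟨?_, ?_, ?_⟩
    · rw [Nat.cast_add, add_sub_cancel_left, abs_of_nonneg i0]
      exact i1.trans (hp.pow_mono (by norm_num))
    · rw [div_sub' P1.ne', abs_div, abs_of_pos P1, div_le_iff₀ P1, mul_add, ey, ← eω,
        show σ.tau * σ.ω + σ.kap * i - P * σ.ω = σ.kap * i - (P - σ.tau) * σ.ω by ring]
      refine (abs_sub _ _).trans ?_
      rw [abs_mul, abs_mul, abs_of_pos hκ, abs_of_nonneg i0, abs_of_pos w0]
      have a1 := mul_le_mul_of_nonneg_right hP w0.le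
      have a2 := mul_le_mul_of_nonneg_left i2 hκ.le
      rw [mul_left_comm σ.kap _ σ.j, ey, ← eω] at a2
      have a3 := mul_le_mul_of_nonneg_left (mul_le_mul_of_nonneg_left w3 hτ.le) e0.le
      have a4 := mul_le_mul_of_nonneg_left P0 (mul_nonneg e0.le (by linarith only [w0, w3] : 0 ≤ C.ω0))
      have a5 := mul_nonneg (mul_nonneg e0.le (by linarith only [w0, w3] : 0 ≤ C.ω0)) hτ.le
      linarith only [a1, a2, a3, a4, a5]
    · rw [mul_add, ey, add_sub_cancel_left, abs_of_nonneg (by positivity)]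
      exact (mul_le_of_le_one_left i0 σ.P1_kap).trans i3
  refine ⟨P1, hN, ?_⟩
  have := hN.facts.2.2.1
  have j' : (0 : ℝ) < (σ.j + i : ℕ) := by rw [Nat.cast_add]; positivity
  rwa [show ((σ.j + i : ℕ) : ℝ) / (σ.kap * (σ.j + i : ℕ) / P) = P / σ.kap by field_simp,
    show σ.kap * (σ.j + i : ℕ) / (σ.kap * (σ.j + i : ℕ) / P) = P by field_simp] at this

/-- `pB_up` -/
theorem ampP_A1 {S : Finset ι} (hS : C.GSat σ.gr S) {i : ℕ} (hi : i ≤ M ^ 4507) {η0 : ℝ}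
    (hη0 : 0 < η0) (P : ℝ) (hP : |P - σ.tau| ≤ ((M : ℝ) ^ 12)⁻¹ / 2 * σ.tau) (η : ℝ) (hη : 0 < η) :
    ‖σ.ampP S (σ.j + i) η P‖ ≤ 5 * (M : ℝ) ^ 6 * σ.S * √η0 * √(η / η0) +
      2 * Real.exp (-(M : ℝ) ^ 8) * C.N0 := by
  obtain ⟨P0, h1, -⟩ := σ.near_P hi hP
  have j' : (0 : ℝ) < (σ.j + i : ℕ) := by
    have := σ.P1_j
    rw [Nat.cast_add]; positivity
  have h2 := σ.pB_up hS η hη h1
  rw [mul_div_cancel_right₀ _ j'.ne', div_right_comm, mul_div_cancel_right₀ _ j'.ne'] at h2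
  rwa [mul_assoc _ (√η0), ← Real.sqrt_mul hη0.le, mul_div_cancel₀ _ hη0.ne']

theorem P1_eq (S : Finset ι) (j : ℕ) {η P : ℝ} (hη : η ≠ 0) (hP : P ≠ 0) :
    σ.ampP S j η P = ((P / σ.kap : ℝ) : ℂ) ^ (j + 1) * ∑ k ∈ S, (C.D.W k : ℂ) *
      pc (C.D.x k + I * ((P / η * sp (C.D.a k) : ℝ) : ℂ)) j (zp C.d (P / σ.kap) P) := by
  have hκ := σ.kap_pos.ne'
  rw [← C.pB_eq S η hη j _ P (div_ne_zero hP hκ), inv_div, div_div_cancel₀ hP, ampP]

theorem P1_reg {i : ℕ} (hi : i ≤ M ^ 4507) {P : ℝ}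
    (hP : |P - σ.tau| ≤ ((M : ℝ) ^ 12)⁻¹ / 2 * σ.tau) :
    Reg M 2 C.jc C.d (σ.j + i) (P / σ.kap) P :=
  (σ.near_P hi hP).2.2.to_two C.par C.dpos

theorem P1_thr {k : ℕ} (hk : k + 10 < 4000) :
    (M : ℝ) ^ 5 * C.d / (M : ℝ) ^ 4000 ≤ C.d * ((M : ℝ) ^ 5)⁻¹ / 4 * ((M : ℝ) ^ k)⁻¹ := by
  have hp := C.par
  have h1 := hp.mul_pow_le (c := 4) (by norm_num) (show 5 + (5 + k) < 4000 by omega)
  have h2 := hp.pow_pos 5
  have h3 := hp.pow_pos k
  have hd := C.dpos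
  rw [pow_add, pow_add] at h1
  calc _ ≤ (M : ℝ) ^ 5 * C.d / (4 * ((M : ℝ) ^ 5 * ((M : ℝ) ^ 5 * (M : ℝ) ^ k))) := by gcongr
    _ = _ := by field_simp

/-- clusters whose spacing is far from `η` are negligible -/
theorem P1_negl {S : Finset ι} (hS : C.Sat S) {i : ℕ} (hi : i ≤ M ^ 4507) {η : ℝ} (hη : 0 < η)
    (hF : ∀ r ∈ S, C.cl r = r → ((M : ℝ) ^ 3000)⁻¹ ≤ |1 - sp (C.D.a r) / η|) :
    ‖σ.ampP S (σ.j + i) η σ.tau‖ ≤ Real.exp (-(M : ℝ) ^ 8) * C.N0 := by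
  have hτ := σ.tau_pos
  have := C.P1_sum hS (σ.P1_reg hi σ.P1_self) (σ.tau / η) {0} fun r r1 r2 l hl => by
    rw [mem_singleton.1 hl, Int.cast_zero, zero_mul, add_zero,
      show σ.tau - σ.tau / η * sp (C.D.a r) = σ.tau * (1 - sp (C.D.a r) / η) by ring, abs_mul,
      abs_of_pos hτ]
    refine (P1_thr (k := 3000) (by norm_num)).trans (mul_le_mul ?_ (hF r r1 r2)
      (inv_pos.2 (C.par.pow_pos _)).le hτ.le)
    linarith only [hτ, σ.tau_range.1]
  rwa [sum_singleton, Int.cast_zero, zero_mul, add_zero, ← σ.P1_eq _ _ hη.ne' hτ.ne'] at this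

theorem P1_Y : 0 < σ.S / √σ.h := div_pos σ.Spos (Real.sqrt_pos.2 σ.hpos)

theorem P1_hd : σ.h * C.d ≤ (M : ℝ) ^ 7739 :=
  σ.h_range.2.1.trans (C.par.mul_pow_le (by norm_num) (by norm_num))

theorem P1_sq : σ.S * √σ.h = σ.S / √σ.h * σ.h := by
  rw [div_mul_eq_mul_div, mul_div_assoc, Real.div_sqrt]

theorem P1_E {k : ℕ} (hk : k ≤ 90000) :
    (M : ℝ) ^ k * (Real.exp (-(M : ℝ) ^ 8) * C.N0) ≤ σ.S / √σ.h := by
  have h1 := σ.H1_E (k := k + 7739) (by omega)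
  have h2 := σ.P1_hd
  have h3 := C.par.pow_pos k
  have hN := C.N0pos
  have hd := C.dpos
  have hh := σ.hpos
  rw [σ.P1_sq, pow_add, ← mul_div_assoc, div_le_iff₀ hd, mul_assoc (σ.S / √σ.h)] at h1
  refine le_of_mul_le_mul_right (le_trans ?_ h1) (mul_pos hh hd)
  rw [mul_right_comm]
  gcongr

theorem P1_N : 5 * M * C.N0 * (M : ℝ) ^ 54 ≤ Real.exp ((M : ℝ) ^ 5) * (σ.S / √σ.h) := by
  have hp := C.par
  have h1 := σ.Sbig
  have h2 := mul_le_mul_of_nonneg_left σ.P1_hd σ.P1_Y.le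
  have h3 := H1_exp hp (k := 7795) (i := 4) (l := 5) (by norm_num) (by norm_num) (by norm_num)
  have h4 := hp.mul_pow_le (c := 5) (by norm_num) (show 1 + 54 + 7739 < 7795 by norm_num)
  have hY := σ.P1_Y
  have hM := hp.pos
  have h5 := hp.pow_pos 7739
  rw [σ.P1_sq, div_le_iff₀ C.dpos, mul_assoc, Real.exp_neg, inv_mul_le_iff₀ (Real.exp_pos _)] at h1
  rw [pow_add, pow_add, pow_one] at h4
  generalize (M : ℝ) ^ 7739 = u at h2 h4 h5
  generalize (M : ℝ) ^ 7795 = v at h3 h4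
  generalize σ.S / √σ.h = Y at *
  calc _ ≤ 5 * M * (Real.exp ((M : ℝ) ^ 4) * (Y * u)) * (M : ℝ) ^ 54 := by
        gcongr
        exact h1.trans (by gcongr)
    _ = 5 * (M * (M : ℝ) ^ 54 * u) * Real.exp ((M : ℝ) ^ 4) * Y := by ring
    _ ≤ v * Real.exp ((M : ℝ) ^ 4) * Y := by gcongr
    _ ≤ _ := by gcongr

theorem Tgt.P1_Y {η : ℝ} (h : σ.Tgt η) : σ.S / √σ.h ≤ σ.S * √η ∧ σ.S * √η ≤ 3 * (σ.S / √σ.h) := by
  obtain ⟨h1, h2⟩ := h.range
  have h3 := Real.sqrt_pos.2 σ.hpos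
  have hS := σ.Spos
  have a1 : 1 ≤ √η * √σ.h := by
    rw [← Real.sqrt_mul h.1.le]; exact Real.one_le_sqrt.2 (by linarith only [h1])
  have a2 : √η * √σ.h ≤ 3 := by
    rw [← Real.sqrt_mul h.1.le]; exact Real.sqrt_le_iff.2 ⟨by norm_num, by linarith⟩
  rw [← mul_div_assoc, div_le_iff₀ h3, le_div_iff₀ h3]
  constructor <;> linarith only [hS, a1, a2, mul_nonneg_of_nonpos_of_nonpos (le_of_lt (Mathlib.Tactic.Linarith.sub_neg_of_lt hS)) (Mathlib.Tactic.Linarith.sub_nonpos_of_le a1), mul_nonneg_of_nonpos_of_nonpos (le_of_lt (Mathlib.Tactic.Linarith.sub_neg_of_lt hS)) (Mathlib.Tactic.Linarith.sub_nonpos_of_le a2)]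

theorem P1_D : σ.kap / σ.tau = σ.ω / σ.j := by
  have := σ.P1_y.ne'
  unfold kap tau
  field_simp

theorem P1_jN {i : ℕ} (hi : i ≤ M ^ 4507) : σ.j + i ≤ 3 * M ^ 8000 := by
  have h1 := (C.cp_reg _ σ.Gmem (σ.P1_reg hi σ.P1_self)).2.2.2.2.2
  have h2 : ((σ.j + i : ℕ) : ℝ) ≤ ((3 * M ^ 8000 : ℕ) : ℝ) := by
    rw [Nat.cast_mul, Nat.cast_pow, Nat.cast_ofNat]; linarith only [h1]
  exact Nat.cast_le.1 h2

/-- the hypotheses of `pbase` for `lam = kap / z` -/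
theorem P1_lam {z : ℂ} (hz : ‖z - σ.tau‖ ≤ 2 * ((M : ℝ) ^ 12)⁻¹ * σ.tau) {i : ℕ}
    (hi : i ≤ M ^ 4507) : z ≠ 0 ∧ ‖σ.kap / z‖ * C.d ≤ 2 ∧
      |(((σ.j + i : ℕ) : ℝ) + 1) * (σ.kap / z).re * C.d - C.jc| ≤ (M : ℝ) ^ 7998 := by
  have hp := C.par
  have hκ := σ.kap_pos
  have hτ := σ.tau_pos
  have hd := C.dpos
  have e1 := cp_inv_small hp (k := 5) (by norm_num)
  have e2 := hp.inv_pow_le (c := 10) (by norm_num) (show 5 < 12 by norm_num)
  have e0 := inv_pos.2 (hp.pow_pos 12)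
  obtain ⟨-, -, hR⟩ := σ.near_P hi σ.P1_self
  have h1 := (C.cp_reg _ σ.Gmem (σ.P1_reg hi σ.P1_self)).2.2.2.2.2
  have h2 := hR.hD1
  have h3 := hR.hD2
  have h4 := hR.hj
  have z1 : σ.tau / 2 ≤ ‖z‖ := by
    have := norm_sub_norm_le (σ.tau : ℂ) z
    rw [norm_sub_rev, norm_real, Real.norm_of_nonneg hτ.le] at this
    nlinarith only [hz, hτ, e1, e2, this]
  have z0 : z ≠ 0 := norm_pos_iff.1 (by linarith only [hτ, z1])
  obtain ⟨l, hl⟩ : ∃ l, l = σ.kap / σ.tau * C.d := ⟨_, rfl⟩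
  have l0 : l * (σ.tau / σ.kap) = C.d := by rw [hl]; field_simp
  have l1 : 0 < l := by rw [hl]; positivity
  have l2 : 1 ≤ l := by
    by_contra k
    have : 0 < σ.tau / σ.kap := by positivity
    linarith only [l0, hd, k, h2, l1, h3, hd, h2, h3, l0, l1, k, mul_pos hd (inv_pos.2 (hp.pow_pos 5)), mul_pos_of_neg_of_neg (Mathlib.Tactic.Linarith.sub_neg_of_lt hd) (Mathlib.Tactic.Linarith.sub_neg_of_lt (lt_of_not_ge k)), mul_nonneg_of_nonpos_of_nonpos (Mathlib.Tactic.Linarith.sub_nonpos_of_le h2) (le_of_lt (Mathlib.Tactic.Linarith.sub_neg_of_lt l1)), mul_nonneg_of_nonpos_of_nonpos (Mathlib.Tactic.Linarith.sub_nonpos_of_le h3) (le_of_lt (Mathlib.Tactic.Linarith.sub_neg_of_lt l1))]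
  have l3 : l ≤ 1 + 2 * ((M : ℝ) ^ 5)⁻¹ := by
    have a1 : l * (1 - ((M : ℝ) ^ 5)⁻¹) ≤ 1 := le_of_mul_le_mul_left (by nlinarith only [e1, e2, e0, h2, l0, l1]) hd
    nlinarith only [e1, e2, e0, l2, a1]
  have a1 : ‖σ.kap / z * C.d - l‖ ≤ ((M : ℝ) ^ 5)⁻¹ := by
    have τ0 : (σ.tau : ℂ) ≠ 0 := by exact_mod_cast hτ.ne'
    rw [show σ.kap / z * C.d - l = -(l * (z - σ.tau) / z) by rw [hl]; push_cast; field_simp; ring,
      norm_neg, norm_div, norm_mul, norm_real, Real.norm_of_nonneg l1.le,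
      div_le_iff₀ (by linarith only [hτ, z1])]
    have b1 := mul_le_mul (show l ≤ 5 / 4 by linarith only [e1, e2, e0, l3]) hz (norm_nonneg _) (by norm_num)
    have b2 := mul_le_mul_of_nonneg_right e2 hτ.le
    have b3 := mul_le_mul_of_nonneg_left z1 (inv_pos.2 (hp.pow_pos 5)).le
    linarith only [hτ, e0, b1, b2, b3, mul_pos e0 hτ]
  refine ⟨z0, ?_, ?_⟩
  · have := norm_le_norm_sub_add (σ.kap / z * C.d) l
    rw [norm_mul, norm_real, norm_real, Real.norm_of_nonneg l1.le, Real.norm_of_nonneg hd.le] at this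
    linarith only [e1, e2, e0, l3, a1, this]
  · have a2 := (abs_re_le_norm _).trans a1
    rw [sub_re, re_mul_ofReal, ofReal_re] at a2
    have a3 : |(σ.kap / z).re * C.d - 1| ≤ 3 * ((M : ℝ) ^ 5)⁻¹ :=
      abs_le.2 ⟨by linarith only [e2, e0, l2, a2, (abs_le.1 a2).1], by linarith only [l3, a2, (abs_le.1 a2).2]⟩
    rw [mul_assoc]
    generalize (σ.kap / z).re * C.d = t at a3 ⊢
    have j0 : (0 : ℝ) ≤ (σ.j + i : ℕ) := Nat.cast_nonneg _
    generalize ((σ.j + i : ℕ) : ℝ) = J at *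
    rw [show (J + 1) * t - C.jc = (J + 1) * (t - 1) + (J - C.jc) + 1 by ring]
    refine (abs_add_three _ _ _).trans ?_
    rw [abs_mul, abs_of_nonneg (by linarith only [e1, e2, e0, j0]), abs_one]
    have b1 := mul_le_mul h1 a3 (abs_nonneg _) (by linarith only [e1, e2, e0, h1, j0])
    have b2 := cb_pow_mul_inv hp 5 7995
    have b3 := hp.mul_pow_le (c := 11) (by norm_num) (show 7995 < 7998 by norm_num)
    have b4 := hp.pow_mono (show 7994 ≤ 7995 by norm_num)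
    have b5 := hp.pow_mono (show 0 ≤ 7995 by norm_num)
    rw [pow_zero] at b5
    rw [show 5 + 7995 = 8000 from rfl] at b2
    linarith only [h4, b1, b2, b3, b4, b5]

theorem P1_one (t : ℝ) (n : ℕ) : (√(1 + t ^ 2 / 2))⁻¹ ^ n ≤ 1 :=
  pow_le_one₀ (by positivity) (inv_le_one_of_one_le₀ (Real.one_le_sqrt.2 (by
    linarith only [sq_nonneg t])))

theorem P1_split {S T : Finset ι} [DecidableEq ι] (h : T ⊆ S) (j : ℕ) (η P : ℝ) :
    σ.ampP S j η P = σ.ampP (S \ T) j η P + σ.ampP T j η P := (sum_sdiff h).symm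

/-- the denominators of the pole amplitude -/
def xi (η : ℝ) (k : ι) : ℂ := 1 - ((C.D.x k + C.d : ℝ) : ℂ) * ((σ.kap / σ.tau : ℝ) : ℂ) +
  I * ((σ.kap * (1 - sp (C.D.a k) / η) : ℝ) : ℂ)

theorem P1_xi {η : ℝ} (hη : 0 < η) {r : ι} (hr : r ∈ C.D.s)
    (h : |1 - sp (C.D.a r) / η| ≤ ((M : ℝ) ^ 3000)⁻¹) :
    Mu (cls C.D.s C.cl r) (rv (fun k => (C.D.a k : ℂ)) C.cl (eC1 M))
      (rv (fun k => (C.D.x k : ℂ)) C.cl (eC1 M))
      (fun k => ((1 + ((M : ℝ) ^ 5000)⁻¹)⁻¹ : ℝ) * (σ.xi η k)⁻¹) 1 ∧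
    ∀ k ∈ cls C.D.s C.cl r, ‖σ.xi η k‖ ≤ 1 + ((M : ℝ) ^ 5000)⁻¹ := by
  have hp := C.par
  have hκ := σ.kap_pos
  have hκ1 := σ.P1_kap
  have hτ := σ.tau_pos
  have hd := C.dpos
  have hl := (σ.P1_lam (z := σ.tau) (by rw [sub_self, norm_zero]; positivity) (Nat.zero_le _)).2.1
  rw [← ofReal_div] at hl
  obtain ⟨hu, hv⟩ := C.cp_rv r
  have e1 := cp_inv_small hp (k := 3000) (by norm_num)
  have e2 := hp.inv_pow_le (c := 100) (by norm_num) (show 5000 < 16000 by norm_num)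
  have e3 := hp.inv_pow_le (c := 100) (by norm_num) (show 5000 < 7989 by norm_num)
  have e4 := hp.inv_pow_le (c := 100) (by norm_num) (show 5000 < 3000 * 2 by norm_num)
  have e5 := cp_inv_small hp (k := 5000) (by norm_num)
  have e0 := inv_pos.2 (hp.pow_pos 5000)
  rw [pow_mul, ← inv_pow] at e4
  have m1 := (C.cp_pert r hr η hη _ hκ.le _ hl).mono (K' := ((M : ℝ) ^ 5000)⁻¹ / 10) (by
    have a1 := mul_le_mul hκ1 (show sp (C.D.a r) / η ≤ 2 by linarith only [e1, e5, e0, h, (abs_le.1 h).1])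
      (div_pos (sp_pos (C.apos r hr)) hη).le zero_le_one
    have a2 := mul_le_mul_of_nonneg_left a1 (cp_eps hp).1.le
    unfold eC1 at a2 ⊢
    linarith only [e2, e0, a2])
  have a1 : |(σ.xi η r).re - 1| ≤ ((M : ℝ) ^ 5000)⁻¹ / 10 := by
    rw [xi, add_re, I_mul_re, ofReal_im, neg_zero, add_zero, sub_re, one_re, sub_sub_cancel_left,
      abs_neg, ← ofReal_mul, ofReal_re, abs_mul]
    rw [norm_real, Real.norm_eq_abs] at hl
    have b1 := mul_le_mul_of_nonneg_right (C.band r hr) (abs_nonneg (σ.kap / σ.tau))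
    have b2 := mul_le_mul_of_nonneg_left hl (inv_pos.2 (hp.pow_pos 7989)).le
    linarith only [e3, e0, b1, b2]
  have a2 : (σ.xi η r).im ^ 2 ≤ ((M : ℝ) ^ 5000)⁻¹ / 10 := by
    rw [xi, add_im, I_mul_im, ofReal_re, sub_im, one_im, ← ofReal_mul, ofReal_im, sub_zero, zero_add,
      ← sq_abs, abs_mul, abs_of_pos hκ]
    have := pow_le_pow_left₀ (by positivity) ((mul_le_of_le_one_left (abs_nonneg _) hκ1).trans h) 2
    linarith only [e4, e0, this]
  have a3 := (le_abs_self _).trans (abs_re_le_norm (σ.xi η r))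
  obtain ⟨a4, a5⟩ := abs_le.1 a1
  generalize ((M : ℝ) ^ 5000)⁻¹ = t at *
  have a6 : ‖σ.xi η r‖ ≤ 1 + t / 2 := by
    refine (pow_le_pow_iff_left₀ (norm_nonneg _) (by linarith only [e5, e0]) two_ne_zero).1 ?_
    rw [Complex.sq_norm, normSq_apply]
    nlinarith only [e5, e0, a2, a4, a5]
  refine ⟨(((m1.inv_add hu hv (by linarith only [e0]) (c := σ.xi η r) (by linarith only [a3, e5, e0, a4])).smul
    ((1 + t)⁻¹ : ℝ)).congr fun k _ => ?_).mono ?_, fun k hk => ?_⟩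
  · rw [xi, xi, add_sub_cancel]
  · rw [norm_real, Real.norm_of_nonneg (by positivity), ← mul_inv]
    exact inv_le_one_of_one_le₀ (by nlinarith only [a3, e4, e5, e0, a4])
  · have b1 := m1.pt hu hv k hk
    have b2 := norm_le_norm_sub_add (σ.xi η k) (σ.xi η r)
    unfold xi at b2 a6 ⊢
    linarith only [e0, a6, b1, b2]

/-- Let `nr` be the union of the clusters `r` of `G` with `kap |1 - sp (a r)/η| ≤ M^{-3000}`; the
other clusters of `G` are negligible at every `j + i`, `i ≤ M^4507` (`pB_eq`, `part_negl` with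
`t0 = tau / η`, `t1 = 1`, `F = {0}`).  `kos_select` on `nr` with `Q = M^4500`,
`c k = W k ξ_k^{-(j+1)}`, `w k = ξ_k⁻¹ / (1 + 4 M^{-7989})`, `ξ_k = 1 - e_k lam + I kap (1 - b_k/η)`,
`B = 6 M^6 S √η` (`pB_up` for the group `G`); the bound for all `i` comes from `pbase_nb` and the
multiplier `w` (norm `≤ 1` on each cluster). -/
theorem kosP {η : ℝ} (hη : σ.Tgt η) (hbig : σ.S / ((M : ℝ) ^ 7 * √σ.h) ≤
      ‖C.pB (cls C.D.s σ.gr σ.G) η σ.j (σ.y / σ.j) ((σ.ω / σ.j : ℝ) : ℂ)‖)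
    (bad : Finset ℕ) (hbad : (bad.card : ℝ) * (M : ℝ) ^ 34 ≤ (M : ℝ) ^ 4500) :
    ∃ i ≤ M ^ 4507, i ∉ bad ∧
      σ.S / ((M : ℝ) ^ 8 * √σ.h) ≤ ‖σ.ampP (cls C.D.s σ.gr σ.G) (σ.j + i) η σ.tau‖ := by
  classical
  have hp := C.par
  have hN := C.N0pos
  have hM := hp.pos
  have hτ := σ.tau_pos
  have η0 := hη.1
  obtain ⟨nr, hnr⟩ : ∃ nr, nr = (cls C.D.s σ.gr σ.G).filter
    fun k => |1 - sp (C.D.a (C.cl k)) / η| ≤ ((M : ℝ) ^ 3000)⁻¹ := ⟨_, rfl⟩
  have sub : nr ⊆ cls C.D.s σ.gr σ.G := hnr ▸ filter_subset _ _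
  have sat : C.Sat nr := ⟨sub.trans σ.H1_sat.1, fun k hk => by
    rw [hnr, mem_filter, mem_filter, ← σ.H1_sat.2 k hk, C.clus.idem k hk]⟩
  have sat' : C.Sat (cls C.D.s σ.gr σ.G \ nr) := ⟨sdiff_subset.trans σ.H1_sat.1, fun k hk => by
    rw [mem_sdiff, mem_sdiff, ← sat.2 k hk, ← σ.H1_sat.2 k hk]⟩
  obtain ⟨E, hE⟩ : ∃ E, E = Real.exp (-(M : ℝ) ^ 8) * C.N0 := ⟨_, rfl⟩
  have h1 : ∀ i ≤ M ^ 4507, |‖σ.ampP (cls C.D.s σ.gr σ.G) (σ.j + i) η σ.tau‖ -
      ‖σ.ampP nr (σ.j + i) η σ.tau‖| ≤ E := fun i hi => by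
    refine (abs_norm_sub_norm_le _ _).trans ?_
    rw [σ.P1_split sub, add_sub_cancel_right, hE]
    refine σ.P1_negl sat' hi η0 fun r r1 r2 => (not_le.1 fun k => (mem_sdiff.1 r1).2 ?_).le
    rw [hnr, mem_filter, r2]
    exact ⟨(mem_sdiff.1 r1).1, k⟩
  have h2 : ∀ k ∈ nr, C.cl k ∈ C.D.s ∧ |1 - sp (C.D.a (C.cl k)) / η| ≤ ((M : ℝ) ^ 3000)⁻¹ ∧
      k ∈ cls C.D.s C.cl (C.cl k) := fun k hk =>
    ⟨C.clus.mem k (sat.1 hk), by rw [hnr] at hk; exact (mem_filter.1 hk).2,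
      mem_cls.2 ⟨sat.1 hk, rfl⟩⟩
  have t0 := inv_pos.2 (hp.pow_pos 5000)
  have t1 := hp.inv_pow_le (c := 100) (by norm_num) (show 4500 < 5000 by norm_num)
  have t2 := cp_inv_small hp (k := 4500) (by norm_num)
  have hx := fun r hr h => σ.P1_xi η0 (r := r) hr h
  generalize ((M : ℝ) ^ 5000)⁻¹ = t at t0 t1 hx
  have w1 : ∀ k ∈ nr, ‖(((1 + t)⁻¹ : ℝ) : ℂ) * (σ.xi η k)⁻¹‖ ≤ 1 := fun k hk =>
    (hx _ (h2 k hk).1 (h2 k hk).2.1).1.pt (C.cp_rv _).1 (C.cp_rv _).2 k (h2 k hk).2.2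
  have h3 : ∀ i : ℕ, ‖∑ k ∈ nr, (C.D.W k : ℂ) * (σ.xi η k)⁻¹ ^ (σ.j + 1) *
      ((((1 + t)⁻¹ : ℝ) : ℂ) * (σ.xi η k)⁻¹) ^ i‖ ≤ ‖σ.ampP nr (σ.j + i) η σ.tau‖ := fun i => by
    have e : ∑ k ∈ nr, (C.D.W k : ℂ) * (σ.xi η k)⁻¹ ^ (σ.j + 1) *
        ((((1 + t)⁻¹ : ℝ) : ℂ) * (σ.xi η k)⁻¹) ^ i =
        (((1 + t)⁻¹ : ℝ) : ℂ) ^ i * σ.ampP nr (σ.j + i) η σ.tau := by
      rw [ampP, CDat.pB, mul_sum]
      refine sum_congr rfl fun k _ => ?_
      rw [← xi]
      ring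
    rw [e, norm_mul, norm_pow, norm_real, Real.norm_of_nonneg (by positivity)]
    exact mul_le_of_le_one_left (norm_nonneg _)
      (pow_le_one₀ (by positivity) (inv_le_one_of_one_le₀ (by linarith only [t0])))
  obtain ⟨y1, y2⟩ := hη.P1_Y
  have y0 := σ.P1_Y
  have y3 := hE ▸ σ.P1_E (k := 10) (by norm_num)
  have y4 := σ.P1_N
  have E0 : 0 ≤ E := by rw [hE]; positivity
  have m6 : (1 : ℝ) ≤ (M : ℝ) ^ 6 := one_le_pow₀ hp.one_le
  have m10 := hp.mul_pow_le (c := 3) (by norm_num) (show 0 < 10 by norm_num)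
  rw [pow_zero] at m10
  have y5 : σ.S / √σ.h ≤ (M : ℝ) ^ 6 * (σ.S * √η) :=
    y1.trans (le_mul_of_one_le_left (by linarith only [y1, y0]) m6)
  have h0 := h1 0 (Nat.zero_le _)
  rw [← σ.P1_D, ← kap, ← ampP, mul_comm, ← div_div, div_le_iff₀ (hp.pow_pos _)] at hbig
  rw [add_zero] at h0
  obtain ⟨i, i1, i2, i3⟩ := kos_select hp.big nr
    ((card_le_card sat.1).trans (C.card.trans (by have := hp.two; omega)))
    (fun k => (C.D.W k : ℂ) * (σ.xi η k)⁻¹ ^ (σ.j + 1))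
    (fun k => (((1 + t)⁻¹ : ℝ) : ℂ) * (σ.xi η k)⁻¹) (M ^ 4500)
    (le_self_pow₀ hp.one_leN (by norm_num)) w1
    (fun k hk => by
      have a1 := (hx _ (h2 k hk).1 (h2 k hk).2.1).2 k (h2 k hk).2.2
      have a2 : 0 < ‖σ.xi η k‖ := by
        have b1 : 0 < (σ.xi η k).re := by
          have b2 := (σ.P1_lam (z := σ.tau) (by rw [sub_self, norm_zero]; positivity)
            (Nat.zero_le _)).2.1
          rw [← ofReal_div, norm_real, Real.norm_eq_abs] at b2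
          rw [xi, add_re, I_mul_re, ofReal_im, neg_zero, add_zero, sub_re, one_re, ← ofReal_mul,
            ofReal_re]
          have b3 := mul_le_mul_of_nonneg_right (C.cb_band k (sat.1 hk))
            (abs_nonneg (σ.kap / σ.tau))
          rw [← abs_mul] at b3
          linarith only [t2, t0, t1, b2, b3, le_abs_self ((C.D.x k + C.d) * (σ.kap / σ.tau))]
        exact b1.trans_le ((le_abs_self _).trans (abs_re_le_norm _))
      rw [norm_mul, norm_real, Real.norm_of_nonneg (by positivity), norm_inv, ← mul_inv, inv_pow,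
        Nat.cast_pow, one_div, le_inv_comm₀ (by linarith only [t2, t0, t1]) (by positivity)]
      refine le_trans (pow_le_pow_left₀ (by positivity)
        (show (1 + t) * ‖σ.xi η k‖ ≤ 1 + 3 * t by nlinarith only [t2, t0, t1, a1]) 2) ?_
      rw [inv_eq_one_div (1 - _), le_div_iff₀ (by linarith only [t2, t0, t1])]
      generalize ((M : ℝ) ^ 4500)⁻¹ = q at t1 t2 ⊢
      have b1 : (1 + 3 * t) ^ 2 ≤ 1 + q := by nlinarith only [t0, t1, t2]
      linarith only [t0, t1, t2, b1, mul_le_mul_of_nonneg_right b1 (show 0 ≤ 1 - q by linarith only [t0, t1, t2]), sq_nonneg q])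
    (6 * (M : ℝ) ^ 6 * (σ.S * √η)) (by linarith only [y0, y5])
    (fun i hi => by
      rw [← pow_add] at hi
      have a1 := σ.ampP_A1 (C.gsat_cls σ.hgr σ.G σ.Gmem σ.Grep) hi η0 _ σ.P1_self η η0
      rw [div_self η0.ne', Real.sqrt_one, mul_assoc 2 (Real.exp _), ← hE] at a1
      have a2 := mul_le_mul_of_nonneg_right m10 E0
      linarith only [y3, y5, hi, a1, a2, h3 i, (abs_le.1 (h1 i hi)).1])
    (fun i => by
      rw [sum_cls C.clus.mem C.clus.idem sat.1 sat.2]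
      refine (norm_sum_le_of_le _ (n := fun _ => 5 * C.N0) fun r hr => ?_).trans ?_
      · obtain ⟨r1, r2⟩ := mem_filter.1 hr
        obtain ⟨-, l1, l2⟩ := σ.P1_lam (z := σ.tau) (by rw [sub_self, norm_zero]; positivity)
          (Nat.zero_le _)
        rw [← ofReal_div] at l1 l2
        have := ((hx r (sat.1 r1) (r2 ▸ (h2 r r1).2.1)).1.pow i).apply (C.pbase_nb r (sat.1 r1) r2
          η η0 σ.j (σ.P1_jN (Nat.zero_le _)) _ σ.kap_pos.le σ.P1_kap _ l1 l2)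
        rw [one_pow, one_mul] at this
        refine le_trans (le_of_eq (congrArg _ (sum_congr rfl fun k _ => mul_comm _ _)))
          (this.trans (mul_le_of_le_one_right (by linarith only [hN]) (P1_one _ _)))
      · rw [sum_const, nsmul_eq_mul]
        have a1 := mul_le_mul_of_nonneg_right (C.H1_card sat.1 fun r => C.cl r = r) hN.le
        have a2 : 5 * M * C.N0 ≤ 5 * M * C.N0 * (M : ℝ) ^ 54 :=
          le_mul_of_one_le_right (by positivity) (one_le_pow₀ hp.one_le)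
        have a3 : Real.exp ((M : ℝ) ^ 5) ≤ Real.exp (3 * (M : ℝ) ^ 5) *
            (1 + 1 / (4 * ((M ^ 4500 : ℕ) : ℝ))) ^ i :=
          (Real.exp_le_exp.2 (by linarith only [hp, hp.pow_pos 5])).trans (le_mul_of_one_le_right
            (Real.exp_pos _).le (one_le_pow₀ (le_add_of_nonneg_right (one_div_nonneg.2
              (mul_nonneg (by norm_num) (Nat.cast_nonneg _))))))
        have a4 := mul_pos hM hN
        refine le_trans (by linarith only [a1, a2, a4]) (y4.trans (mul_le_mul a3 (by linarith only [y0, y5]) y0.le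
          ((Real.exp_pos _).le.trans a3))))
    (by
      rw [div_le_iff₀ (hp.pow_pos _)]
      change _ ≤ ‖σ.ampP nr σ.j η σ.tau‖ * _
      have a1 := mul_le_mul_of_nonneg_right hbig (hp.pow_pos 9).le
      have a2 := mul_le_mul_of_nonneg_right (abs_le.1 h0).2 (hp.pow_pos 16).le
      have a3 := mul_le_mul_of_nonneg_right y3 (hp.pow_pos 6).le
      have a4 := mul_le_mul_of_nonneg_right y2 (hp.pow_pos 6).le
      have a5 := mul_le_mul_of_nonneg_left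
        (hp.mul_pow_le (c := 19) (by norm_num) (show 6 < 9 by norm_num)) y0.le
      linarith only [a1, a2, a3, a4, a5])
    bad (by rwa [Nat.cast_pow])
  rw [← pow_add] at i1
  refine ⟨i, i1, i2, ?_⟩
  change ‖σ.ampP nr σ.j η σ.tau‖ ≤ _ at i3
  have a1 : 12 * √(M : ℝ) ≤ M := by
    have b1 : 12 ≤ √(M : ℝ) := Real.le_sqrt_of_sq_le (by linarith only [t2, t0, t1, hp.bigR])
    nlinarith only [hM, b1, Real.mul_self_sqrt hM.le]
  have a2 : 4 * ‖σ.ampP nr σ.j η σ.tau‖ ≤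
      M * (‖σ.ampP (cls C.D.s σ.gr σ.G) (σ.j + i) η σ.tau‖ + E) := by
    have b1 := mul_le_mul a1 ((h3 i).trans (show _ ≤ ‖σ.ampP (cls C.D.s σ.gr σ.G) (σ.j + i) η σ.tau‖ +
      E by linarith only [h1, i1, (abs_le.1 (h1 i i1)).1])) (norm_nonneg _) hM.le
    linarith only [i3, b1]
  rw [mul_comm, ← div_div, div_le_iff₀ (hp.pow_pos _)]
  have a3 := mul_le_mul_of_nonneg_right a2 (hp.pow_pos 7).le
  have a4 := mul_le_mul_of_nonneg_right (abs_le.1 h0).2 (hp.pow_pos 7).le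
  have a5 := mul_le_mul_of_nonneg_right
    (hp.mul_pow_le (c := 4) (by norm_num) (show 7 < 10 by norm_num)) E0
  have a6 := mul_le_mul_of_nonneg_right (hp.pow_mono (show 8 ≤ 10 by norm_num)) E0
  linarith only [hbig, y0, y3, a3, a4, a5, a6]

/-- `bern` for `P ↦ pB S (η0/N) (j+i) kap (kap/P)`, `r = M^{-12} tau / 2`, `X = M^5`,
`B = 2 * 5 M^6 S √η0 / √N`; the complex bound `5 m N0` is `pbase` -/
theorem ampP_A2 {S : Finset ι} (hS : C.GSat σ.gr S) {i : ℕ} (hi : i ≤ M ^ 4507) {η0 : ℝ}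
    (hη0 : σ.Tgt η0) (P : ℝ) (hP : |P - σ.tau| ≤ ((M : ℝ) ^ 146)⁻¹ * σ.tau) (N : ℕ) (hN1 : 1 ≤ N)
    (hN : N ≤ M ^ 108) :
    ‖σ.ampP S (σ.j + i) (η0 / N) P - σ.ampP S (σ.j + i) (η0 / N) σ.tau‖ ≤
      ((M : ℝ) ^ 126)⁻¹ * (5 * (M : ℝ) ^ 6 * σ.S * √η0) / √N := by
  classical
  have hp := C.par
  have hM := hp.pos
  have hτ := σ.tau_pos
  have hS0 := σ.Spos
  have hN0 := C.N0pos
  have η0' := hη0.1
  have sat := hS.sat C σ.hgr
  have N0 : (0 : ℝ) < N := by exact_mod_cast hN1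
  have hN' : √(N : ℝ) ≤ (M : ℝ) ^ 54 := Real.sqrt_le_iff.2 ⟨by positivity, by
    rw [← pow_mul]; exact_mod_cast hN⟩
  have sN := Real.sqrt_pos.2 N0
  have y1 := hη0.P1_Y.1
  have y0 := σ.P1_Y
  have m6 : (1 : ℝ) ≤ (M : ℝ) ^ 6 := one_le_pow₀ hp.one_le
  obtain ⟨B, hB⟩ : ∃ B, B = 5 * (M : ℝ) ^ 6 * σ.S * √η0 / √N := ⟨_, rfl⟩
  have B1 : 5 * (σ.S / √σ.h) ≤ B * (M : ℝ) ^ 54 := by
    clear * - B N M ι m C σ η0 hB hN1 η0' hS0 hM y0 y1 m6 hN' S
    have a1 : B * √N = 5 * ((M : ℝ) ^ 6 * (σ.S * √η0)) := by rw [hB]; field_simp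
    have a2 := le_mul_of_one_le_left (y0.le.trans y1) m6
    have a3 := mul_le_mul_of_nonneg_left hN' (show 0 ≤ B by rw [hB]; positivity)
    linarith only [y1, a1, a2, a3]
  have B0 : 0 ≤ B := by rw [hB]; positivity
  have e0 := inv_pos.2 (hp.pow_pos 12)
  have := bern (fun z => C.pB S (η0 / N) (σ.j + i) σ.kap (σ.kap / z)) σ.tau
    (((M : ℝ) ^ 12)⁻¹ / 2 * σ.tau) (2 * B) ((M : ℝ) ^ 5) (by positivity)
    (one_le_pow₀ hp.one_le) (by positivity)
    (fun z hz => by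
      clear * - z ι m M C σ i S η0 N hz e0 hτ hi hS
      obtain ⟨z0, z1, -⟩ := σ.P1_lam (z := z) ((mem_ball_iff_norm.1 hz).le.trans
        (by linarith only [e0, hτ, mul_pos e0 hτ])) hi
      refine DifferentiableAt.differentiableWithinAt ?_
      unfold CDat.pB
      refine DifferentiableAt.fun_sum fun k hk => ?_
      have a1 : 1 - ((C.D.x k + C.d : ℝ) : ℂ) * (σ.kap / z) +
          I * ((σ.kap * (1 - sp (C.D.a k) / (η0 / N)) : ℝ) : ℂ) ≠ 0 := fun h => by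
        have b1 := congrArg re h
        rw [add_re, I_mul_re, ofReal_im, neg_zero, add_zero, sub_re, one_re, zero_re] at b1
        have b2 := (le_abs_self _).trans (abs_re_le_norm (((C.D.x k + C.d : ℝ) : ℂ) * (σ.kap / z)))
        rw [norm_mul, norm_real, Real.norm_eq_abs] at b2
        have b3 := mul_le_mul_of_nonneg_right (C.cb_band k (hS.1 hk)) (norm_nonneg (σ.kap / z))
        linarith only [z1, b1, b2, b3]
      fun_prop (disch := assumption))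
    (fun x hx => by
      clear * - ι m M C σ S i η0 N x hS hi η0' hx hN1 B hB B1 hp B0 N0
      have a1 := σ.ampP_A1 hS hi η0' x hx (η0 / N) (by positivity)
      rw [div_div_cancel_left' η0'.ne', Real.sqrt_inv, ← div_eq_mul_inv, ← hB, ampP,
        ofReal_div] at a1
      refine a1.trans ?_
      have a2 := σ.P1_E (k := 54) (by norm_num)
      have : Real.exp (-(M : ℝ) ^ 8) * C.N0 ≤ B / 5 :=
        le_of_mul_le_mul_left (by linarith only [B1, a2]) (hp.pow_pos 54)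
      linarith only [B0, this])
    (fun z hz => by
      obtain ⟨-, z1, z2⟩ := σ.P1_lam (z := z) ((mem_closedBall_iff_norm.1 hz).trans
        (by linarith only [e0, hτ, mul_pos e0 hτ])) hi
      rw [C.pB_split sat]
      refine (norm_sum_le_of_le _ (n := fun _ => 5 * C.N0) fun r hr => ?_).trans ?_
      · obtain ⟨r1, r2⟩ := mem_filter.1 hr
        exact (C.pbase r (sat.1 r1) r2 _ (by positivity) _ (σ.P1_jN hi) _ σ.kap_pos.le σ.P1_kap _
          z1 z2).trans (mul_le_of_le_one_right (by linarith only [hN0]) (P1_one _ _))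
      · rw [sum_const, nsmul_eq_mul]
        have a1 := mul_le_mul_of_nonneg_right (C.H1_card sat.1 fun r => C.cl r = r) hN0.le
        have a2 := σ.P1_N.trans (mul_le_mul_of_nonneg_left
          (show σ.S / √σ.h ≤ 2 * B * (M : ℝ) ^ 54 by linarith only [y0, B1]) (Real.exp_pos _).le)
        rw [← mul_assoc] at a2
        have a3 := le_of_mul_le_mul_right a2 (hp.pow_pos 54)
        have a4 := mul_pos hM hN0
        linarith only [a1, a3, a4])
    P (hP.trans (by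
      clear * - M m hp ι C σ hτ hM
      have := hp.inv_pow_le (c := 8) (by norm_num) (show 17 < 146 by norm_num)
      calc _ ≤ ((M : ℝ) ^ 17)⁻¹ / 8 * σ.tau := by gcongr; linarith only [this]
        _ = _ := by field_simp; norm_num))
  unfold ampP
  rw [ofReal_div, ofReal_div, mul_div_assoc, ← hB]
  refine this.trans ?_
  have a1 := hp.inv_pow_le (c := 80) (by norm_num) (show 126 < 129 by norm_num)
  calc _ ≤ 20 * (M : ℝ) ^ 5 * (((M : ℝ) ^ 146)⁻¹ * σ.tau /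
        (((M : ℝ) ^ 12)⁻¹ / 2 * σ.tau)) * (2 * B) := by clear * - B M P ι m C σ hP hM hτ B0; gcongr
    _ = 80 * ((M : ℝ) ^ 129)⁻¹ * B := by field_simp; ring
    _ ≤ _ := by gcongr

/-- `pB_eq`, `part_negl` with `t0 = 0`, `t1 = 1` -/
theorem ampP_A3 {S : Finset ι} (hS : C.Sat S) {i : ℕ} (hi : i ≤ M ^ 4507) (P : ℝ)
    (hP : |P - σ.tau| ≤ ((M : ℝ) ^ 146)⁻¹ * σ.tau) (F : Finset ℕ)
    (hF : ∀ k ∈ F, 1 ≤ k ∧ ∀ r ∈ S, C.cl r = r →
      (M : ℝ) ^ 6 * C.d / (M : ℝ) ^ 4000 < |k * sp (C.D.a r) - P|) :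
    ∑ k ∈ F, ‖σ.ampP S (σ.j + i) (P / k) P‖ ≤ 2 * Real.exp (-(M : ℝ) ^ 8) * C.N0 := by
  have hp := C.par
  have hP' := σ.P1_hP hP
  have P0 := (σ.near_P hi hP').1
  have hN := C.N0pos
  have := C.P1_sum hS (σ.P1_reg hi hP') 0 (F.map ⟨Nat.cast, Nat.cast_injective⟩)
    fun r r1 r2 l hl => by
      obtain ⟨k, hk, rfl⟩ := mem_map.1 hl
      rw [zero_add, mul_one, abs_sub_comm]
      refine le_trans ?_ ((hF k hk).2 r r1 r2).le
      exact div_le_div_of_nonneg_right (mul_le_mul_of_nonneg_right (hp.pow_mono (by norm_num))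
        C.dpos.le) (hp.pow_pos _).le
  rw [sum_map] at this
  refine le_trans (le_of_eq (sum_congr rfl fun k hk => ?_)) (this.trans ?_)
  · have k0 : (k : ℝ) ≠ 0 := by exact_mod_cast (by have := (hF k hk).1; omega : k ≠ 0)
    rw [σ.P1_eq _ _ (div_ne_zero P0.ne' k0) P0.ne', div_div_cancel₀ P0.ne', zero_add, mul_one]
    rfl
  · linarith only [hN, mul_pos (Real.exp_pos (-(M : ℝ) ^ 8)) hN]

/-- the clusters of the other coarse groups are negligible at the target -/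
theorem ampP_target {S : Finset ι} (hS : C.GSat σ.gr S) (hG : σ.G ∈ S) {i : ℕ} (hi : i ≤ M ^ 4507)
    {η0 : ℝ} (hη0 : σ.Tgt η0)
    (h : σ.S / ((M : ℝ) ^ 8 * √σ.h) ≤ ‖σ.ampP (cls C.D.s σ.gr σ.G) (σ.j + i) η0 σ.tau‖) :
    5 * (M : ℝ) ^ 6 * σ.S * √η0 / (M : ℝ) ^ 16 ≤ ‖σ.ampP S (σ.j + i) η0 σ.tau‖ := by
  classical
  have hp := C.par
  have η0' := hη0.1
  have sub : cls C.D.s σ.gr σ.G ⊆ S := fun k hk =>
    (hS.2 k (σ.H1_mem.1 hk).1).2 ((σ.H1_mem.1 hk).2.symm ▸ hG)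
  have sat : C.Sat (S \ cls C.D.s σ.gr σ.G) := ⟨sdiff_subset.trans hS.1, fun k hk => by
    rw [mem_sdiff, mem_sdiff, ← (hS.sat C σ.hgr).2 k hk, ← σ.H1_sat.2 k hk]⟩
  obtain ⟨r0, q1, -, q3, q4⟩ := hη0.2
  have h6 := σ.P1_negl sat hi η0' fun r r1 _ => by
    obtain ⟨r2, r3⟩ := mem_sdiff.1 r1
    have r4 := hS.1 r2
    have a0 := C.apos r r4
    have a0' := C.apos r0 q1
    have a1 := σ.hgr.sep r r4 r0 q1 fun k => r3 (σ.H1_mem.2 ⟨r4, k.trans q3⟩)
    rw [← ofReal_sub, norm_real, norm_real, norm_real, Real.norm_eq_abs, Real.norm_eq_abs,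
      Real.norm_eq_abs, abs_of_pos a0, abs_of_pos a0'] at a1
    have e : sp (C.D.a r) / η0 * C.D.a r = sp (C.D.a r0) / η0 * C.D.a r0 := by
      unfold sp; field_simp
    have b1 := hp.inv_pow_le (c := 10) (by norm_num) (show 14 < 1000 by norm_num)
    have b2 := hp.inv_pow_le (c := 10) (by norm_num) (show 14 < 3000 by norm_num)
    have b4 := cp_inv_small hp (k := 14) (by norm_num)
    have b5 := inv_pos.2 (hp.pow_pos 14)
    by_contra k
    obtain ⟨c1, c2⟩ := abs_lt.1 (not_le.1 k)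
    obtain ⟨c3, c4⟩ := abs_le.1 q4
    generalize sp (C.D.a r) / η0 = β at *
    generalize sp (C.D.a r0) / η0 = β0 at *
    generalize C.D.a r = a at *
    generalize C.D.a r0 = a' at *
    generalize ((M : ℝ) ^ 14)⁻¹ = u at *
    have d1 : β - β0 ≤ u / 5 := by linarith only [c1, c3, b1, b2]
    have d2 : β0 - β ≤ u / 5 := by linarith only [c2, c4, b1, b2]
    have d3 : 1 / 2 ≤ β := by linarith only [c1, c2, b2, b4]
    have d4 : 1 / 2 ≤ β0 := by linarith only [c1, c2, c3, b1, b2, b4]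
    rcases le_total a a' with c | c
    · rw [min_eq_left c, abs_of_nonpos (by linarith only [c])] at a1
      linarith only [c1, c2, c3, a0, e, b1, b2, b4, b5, a1, d1, d4, mul_le_mul_of_nonneg_right d1 a0.le, mul_lt_mul_of_pos_left a1 (show 0 < β0 by linarith only [c1, c2, c3, b1, b2, b4]),
        mul_le_mul_of_nonneg_right d4 (mul_pos b5 a0).le, mul_pos b5 a0]
    · rw [min_eq_right c, abs_of_nonneg (by linarith only [c])] at a1
      linarith only [c1, c2, a0', e, b2, b4, b5, a1, d2, d3, mul_le_mul_of_nonneg_right d2 a0'.le, mul_lt_mul_of_pos_left a1 (show 0 < β by linarith only [c1, c2, b2, b4]),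
        mul_le_mul_of_nonneg_right d3 (mul_pos b5 a0').le, mul_pos b5 a0']
  have h7 := norm_sub_le (σ.ampP S (σ.j + i) η0 σ.tau) (σ.ampP (S \ cls C.D.s σ.gr σ.G) (σ.j + i) η0 σ.tau)
  rw [σ.P1_split sub, add_sub_cancel_left, ← σ.P1_split sub] at h7
  have h8 := mul_le_mul_of_nonneg_right (σ.P1_E (k := 10) (by norm_num)) (hp.pow_pos 6).le
  have h9 := mul_le_mul_of_nonneg_right hη0.P1_Y.2 (hp.pow_pos 6).le
  have h10 := mul_le_mul_of_nonneg_left
    (hp.mul_pow_le (c := 16) (by norm_num) (show 6 < 8 by norm_num)) σ.P1_Y.le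
  rw [mul_comm, ← div_div, div_le_iff₀ (hp.pow_pos _)] at h
  rw [div_le_iff₀ (hp.pow_pos _)]
  have a1 := mul_le_mul_of_nonneg_right h (hp.pow_pos 8).le
  have a2 := mul_le_mul_of_nonneg_right (h7.trans (add_le_add_right h6 _)) (hp.pow_pos 16).le
  linarith only [h8, h9, h10, a1, a2]

/-- `Dat.hasSum_poles`: the indices `l ≥ 1` give the amplitudes (`pB_eq`), the indices `l ≤ 0`
are negligible (`part_negl`) -/
theorem ampP_sum {S : Finset ι} (hS : C.Sat S) {i : ℕ} (hi : i ≤ M ^ 4507) (P : ℝ)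
    (hP : |P - σ.tau| ≤ ((M : ℝ) ^ 146)⁻¹ * σ.tau) :
    ‖∑' k : ℕ, σ.ampP S (σ.j + i) (P / ((k : ℝ) + 1)) P -
        ((P / σ.kap : ℝ) : ℂ) ^ (σ.j + i + 1) * C.D.lat S (σ.j + i) (zp C.d (P / σ.kap) P)‖ ≤
      Real.exp (-(M : ℝ) ^ 8) * C.N0 := by
  have hp := C.par
  have hP' := σ.P1_hP hP
  have P0 := (σ.near_P hi hP').1
  have hR := σ.P1_reg hi hP'
  obtain ⟨f, hf⟩ : ∃ f : ℤ → ℂ, f = fun l : ℤ => ((P / σ.kap : ℝ) : ℂ) ^ (σ.j + i + 1) *
    ∑ k ∈ S, (C.D.W k : ℂ) * pc (C.D.x k + I * (((0 + l * 1) * sp (C.D.a k) : ℝ) : ℂ)) (σ.j + i)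
      (zp C.d (P / σ.kap) P) := ⟨_, rfl⟩
  have h1 : HasSum f (((P / σ.kap : ℝ) : ℂ) ^ (σ.j + i + 1) *
      C.D.lat S (σ.j + i) (zp C.d (P / σ.kap) P)) := by
    rw [hf]
    refine HasSum.mul_left _ (hasSum_sum fun k hk => lip_hs (C.D.hasSum_poles
      (C.apos k (hS.1 hk)) (C.cp_reg _ σ.Gmem hR).2.1 _) (fun l => ?_) rfl)
    rw [if_neg (by simp [C.nfl k (hS.1 hk)]), zero_add, mul_one, Dat.node]
  have s1 : Summable fun n : ℕ => f (-(n : ℤ)) :=
    h1.summable.comp_injective (neg_injective.comp Nat.cast_injective)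
  have s2 : Summable fun n : ℕ => f ((n : ℤ) + 1) :=
    h1.summable.comp_injective ((add_left_injective 1).comp Nat.cast_injective)
  have h2 := (HasSum.of_nat_of_neg_add_one (f := fun l => f (-l)) s1.hasSum
    (by simpa only [neg_neg] using s2.hasSum)).unique ((Equiv.neg ℤ).hasSum_iff.2 h1)
  have h3 : ∀ k : ℕ, σ.ampP S (σ.j + i) (P / ((k : ℝ) + 1)) P = f ((k : ℤ) + 1) := fun k => by
    rw [σ.P1_eq _ _ (by positivity) P0.ne', div_div_cancel₀ P0.ne', hf]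
    simp only [zero_add, mul_one, Int.cast_add, Int.cast_natCast, Int.cast_one]
  rw [← h2, tsum_congr h3, sub_add_cancel_right, norm_neg]
  refine le_of_tendsto' s1.hasSum.norm fun F => (norm_sum_le _ _).trans ?_
  have := C.P1_sum hS hR 0 (F.map ⟨fun n : ℕ => -(n : ℤ), neg_injective.comp Nat.cast_injective⟩)
    fun r r1 r2 l hl => by
      obtain ⟨k, -, rfl⟩ := mem_map.1 hl
      have a1 := P1_thr (C := C) (k := 0) (by norm_num)
      have a2 := hR.hτ1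
      have a3 := mul_nonneg (Nat.cast_nonneg (α := ℝ) k) (sp_pos (C.apos r (hS.1 r1))).le
      rw [pow_zero, inv_one] at a1
      refine le_trans ?_ (le_abs_self _)
      simp only [Function.Embedding.coeFn_mk, Int.cast_neg, Int.cast_natCast]
      linarith only [a1, a2, a3]
  rw [sum_map] at this
  rw [hf]
  exact this

end CDat.Sel

end Pool.Agent.Work.MP_97f157_lc.Tau
end
end

-- merged part: Pool.Agent.Work.MP_97f157_lc.TauP2
section
/-! The pole tool and the main statement on a band. -/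

noncomputable section
open Complex Finset Metric

namespace Pool.Agent.Work.MP_97f157_lc.Tau

variable {ι : Type*} {m M : ℕ}

theorem P2_bad (hp : Par m M) (y : ℝ) (I : ℕ) (hI : (I : ℝ) = (M : ℝ) ^ 4507) {κ κ' : Type*}
    (T : Finset κ) (b : κ → ℝ) (hT : (T.card : ℝ) ≤ (M : ℝ) ^ 109)
    (hb : ∀ p ∈ T, (M : ℝ) ^ 4159 ≤ b p) (T' : Finset κ') (x : κ' → ℝ)
    (hT' : (T'.card : ℝ) ≤ (M : ℝ) ^ 372) :
    ∃ bad : Finset ℕ, (bad.card : ℝ) * (M : ℝ) ^ 34 ≤ (M : ℝ) ^ 4500 ∧ ∀ i ≤ I, i ∉ bad →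
      (∀ p ∈ T, ∀ l : ℤ, 2 * (M : ℝ) ^ 4005 ≤ |y + i - l * b p|) ∧
        ∀ p ∈ T', (M : ℝ) ^ 4005 ≤ |y + i - x p| := by
  classical
  let U : κ → Finset ℕ := fun p => (range (I + 1)).filter fun i =>
    ∃ l : ℤ, |y + i - l * b p| ≤ 2 * (M : ℝ) ^ 4005
  let U' : κ' → Finset ℕ := fun p => (range (I + 1)).filter fun i =>
    |y + i - x p| ≤ (M : ℝ) ^ 4005
  have hM := hp.pos
  have a1 : (1 : ℝ) ≤ (M : ℝ) ^ 4005 := one_le_pow₀ hp.one_le
  have hU : ∀ p ∈ T, ((U p).card : ℝ) ≤ 25 * (M : ℝ) ^ 4353 := by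
    intro p hpT
    have hbp := hb p hpT
    have b0 : 0 < b p := (hp.pow_pos _).trans_le hbp
    have h := count_bad_height y 1 (b p) (2 * (M : ℝ) ^ 4005) one_pos b0 (by positivity) I
      (U p) fun i hi => by
        obtain ⟨h1, h2⟩ := mem_filter.1 hi
        rw [div_one]
        exact ⟨by have := mem_range.1 h1; omega, h2⟩
    have a0 : (1 : ℝ) ≤ (M : ℝ) ^ 348 := one_le_pow₀ hp.one_le
    have a2 : 5 * (M : ℝ) ^ 4005 ≤ (M : ℝ) ^ 4507 := hp.mul_pow_le (by norm_num) (by norm_num)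
    have e1 : 2 * (2 * (M : ℝ) ^ 4005) * 1 + 1 ≤ 5 * (M : ℝ) ^ 4005 := by linarith only [a1]
    have e2 : ((I : ℝ) + 1) / (1 * b p) + 2 * (2 * (M : ℝ) ^ 4005) / b p + 2
        ≤ 5 * (M : ℝ) ^ 348 := by
      have e4 : ((I : ℝ) + 1 + 2 * (2 * (M : ℝ) ^ 4005)) / b p ≤ 2 * (M : ℝ) ^ 348 := by
        rw [div_le_iff₀ b0]
        have e5 : (M : ℝ) ^ 4507 = (M : ℝ) ^ 348 * (M : ℝ) ^ 4159 := by rw [← pow_add]
        have e6 := mul_le_mul_of_nonneg_left hbp (show 0 ≤ 2 * (M : ℝ) ^ 348 by positivity)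
        linarith only [hI, a1, a2, e6]
      rw [one_mul, ← add_div]
      linarith only [a0, e4]
    refine h.trans ((mul_le_mul e2 e1 (by positivity) (by positivity)).trans (le_of_eq ?_))
    rw [show 4353 = 348 + 4005 from rfl, pow_add]; ring
  have hU' : ∀ p ∈ T', ((U' p).card : ℝ) ≤ 3 * (M : ℝ) ^ 4005 := by
    intro p _
    have h := count_interval (x p - y) ((M : ℝ) ^ 4005) (by positivity) (U' p) fun i hi => by
      have h2 := (mem_filter.1 hi).2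
      rwa [show y + i - x p = i - (x p - y) by ring] at h2
    linarith only [a1, h]
  refine ⟨T.biUnion U ∪ T'.biUnion U', ?_, fun i hi hn => ⟨fun p hpT l => ?_, fun p hpT => ?_⟩⟩
  · have h0 : ((T.biUnion U ∪ T'.biUnion U').card : ℝ) ≤
        (T.biUnion U).card + (T'.biUnion U').card := by exact_mod_cast card_union_le _ _
    have h1 : ((T.biUnion U).card : ℝ) ≤ ∑ p ∈ T, ((U p).card : ℝ) := by
      exact_mod_cast card_biUnion_le
    have h1' : ((T'.biUnion U').card : ℝ) ≤ ∑ p ∈ T', ((U' p).card : ℝ) := by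
      exact_mod_cast card_biUnion_le
    have h2 := h1.trans (sum_le_card_nsmul _ _ _ hU)
    have h2' := h1'.trans (sum_le_card_nsmul _ _ _ hU')
    rw [nsmul_eq_mul] at h2 h2'
    have h4 := mul_le_mul_of_nonneg_right (h2.trans (mul_le_mul_of_nonneg_right hT
      (by positivity))) (hp.pow_pos 34).le
    have h4' := mul_le_mul_of_nonneg_right (h2'.trans (mul_le_mul_of_nonneg_right hT'
      (by positivity))) (hp.pow_pos 34).le
    have e1 : (M : ℝ) ^ 109 * (25 * (M : ℝ) ^ 4353) * (M : ℝ) ^ 34 = 25 * (M : ℝ) ^ 4496 := by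
      rw [show 4496 = 109 + 4353 + 34 from rfl, pow_add, pow_add]; ring
    have e2 : (M : ℝ) ^ 372 * (3 * (M : ℝ) ^ 4005) * (M : ℝ) ^ 34 = 3 * (M : ℝ) ^ 4411 := by
      rw [show 4411 = 372 + 4005 + 34 from rfl, pow_add, pow_add]; ring
    have e3 : 50 * (M : ℝ) ^ 4496 ≤ (M : ℝ) ^ 4500 := hp.mul_pow_le (by norm_num) (by norm_num)
    have e4 : 6 * (M : ℝ) ^ 4411 ≤ (M : ℝ) ^ 4500 := hp.mul_pow_le (by norm_num) (by norm_num)
    have h5 := mul_le_mul_of_nonneg_right h0 (hp.pow_pos 34).le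
    rw [add_mul] at h5
    linarith only [h4, h4', e3, e4, h5]
  · by_contra hlt
    exact hn (mem_union_left _ (mem_biUnion.2 ⟨p, hpT,
      mem_filter.2 ⟨mem_range.2 (by omega), l, (not_le.1 hlt).le⟩⟩))
  · by_contra hlt
    exact hn (mem_union_right _ (mem_biUnion.2 ⟨p, hpT,
      mem_filter.2 ⟨mem_range.2 (by omega), (not_le.1 hlt).le⟩⟩))

theorem P2_num (hp : Par m M) :
    Real.exp (-(M : ℝ) ^ 5) ≤ Real.exp (-(M : ℝ) ^ 4 - M) ∧
      Real.exp (-(M : ℝ) ^ 8) * (M : ℝ) ^ 400 ≤ Real.exp (-(M : ℝ) ^ 4 - M) ∧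
      M * Real.exp (-((M : ℝ) ^ 9 / 2)) ≤ Real.exp (-(M : ℝ) ^ 4 - M) ∧
      Real.exp (-(M : ℝ) ^ 4 - M) * (M : ℝ) ^ 1695 ≤ Real.exp (-(M : ℝ) ^ 4) := by
  have hM := hp.pos
  have a1 : (M : ℝ) ≤ (M : ℝ) ^ 4 := by simpa using hp.pow_mono (i := 1) (k := 4) (by norm_num)
  have a2 : 20 * (M : ℝ) ^ 4 ≤ (M : ℝ) ^ 5 := hp.mul_pow_le (by norm_num) (by norm_num)
  have a3 : (M : ℝ) ^ 5 ≤ (M : ℝ) ^ 9 := hp.pow_mono (by norm_num)
  have a4 : (M : ℝ) ^ 5 ≤ (M : ℝ) ^ 8 := hp.pow_mono (by norm_num)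
  have b2 : (M : ℝ) ≤ Real.exp M := by linarith only [Real.add_one_le_exp (M : ℝ)]
  refine ⟨Real.exp_le_exp.2 (by linarith only [hM, a1, a2]), ?_, ?_, ?_⟩
  · refine (mul_le_mul_of_nonneg_left (hp.pow_le_exp (by norm_num)) (Real.exp_pos _).le).trans ?_
    rw [← Real.exp_add]
    exact Real.exp_le_exp.2 (by linarith only [hM, a1, a2, a4])
  · refine (mul_le_mul_of_nonneg_right b2 (Real.exp_pos _).le).trans ?_
    rw [← Real.exp_add]
    exact Real.exp_le_exp.2 (by linarith only [hM, a1, a2, a3])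
  · refine (mul_le_mul_of_nonneg_left (hp.pow_le_exp (by norm_num)) (Real.exp_pos _).le).trans ?_
    rw [← Real.exp_add]
    exact Real.exp_le_exp.2 (by linarith)

theorem P2_sp_le {a a' : ℝ} (ha : 0 < a) (h : a ≤ 2 * a') : sp a' ≤ 2 * sp a := by
  have ha' : 0 < a' := by linarith only [ha, h]
  rw [sp, sp, ← mul_div_assoc, div_le_div_iff₀ ha' ha]
  linarith only [h, Real.pi_pos, mul_nonneg_of_nonpos_of_nonpos (Mathlib.Tactic.Linarith.sub_nonpos_of_le h) (le_of_lt (Mathlib.Tactic.Linarith.sub_neg_of_lt Real.pi_pos))]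

theorem CDat.Sel.P2_level {C : CDat ι m M} (σ : C.Sel) {η : ℝ} (hη : C.d ≤ η * (M : ℝ) ^ 3140) :
    Real.exp (-(M : ℝ) ^ 4 - M) * C.N0 * (M : ℝ) ^ 125 ≤ σ.S * √η := by
  have hp := C.par
  have hd := C.dpos
  have h1 : √C.d ≤ √η * (M : ℝ) ^ 1570 := by
    refine (Real.sqrt_le_sqrt hη).trans (le_of_eq ?_)
    rw [Real.sqrt_mul' _ (hp.pow_pos _).le, show 3140 = 1570 * 2 from rfl, pow_mul,
      Real.sqrt_sq (hp.pow_pos _).le]
  have h2 := σ.Slo
  rw [div_le_iff₀ (Real.sqrt_pos.2 hd)] at h2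
  have h3 := mul_le_mul_of_nonneg_left h1 σ.Spos.le
  have h4 := mul_le_mul_of_nonneg_right (P2_num hp).2.2.2 C.N0pos.le
  refine le_of_mul_le_mul_right ?_ (hp.pow_pos 1570)
  rw [show 1695 = 125 + 1570 from rfl, pow_add] at h4
  linarith only [h2, h3, h4]

/-- the clusters outside the kept set do not matter -/
theorem CDat.P2_rest (C : CDat ι m M) {S : Finset ι} (hS : C.Sat S) {j : ℕ} {ω y : ℝ} (hω : 0 < ω)
    (hA : C.Arg j ω y) (hR : Reg M 1 C.jc C.d j (j / ω) (y / ω))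
    (hb : ∀ r ∈ S, ∀ l : ℤ, 2 * (M : ℝ) ^ 4005 ≤ |(j : ℝ) - l * (C.D.a r * (j / ω))|) :
    ‖C.D.lat S j (zp C.d (j / ω) (y / ω))‖ * (j / ω) ^ (j + 1) ≤
      M * Real.exp (-((M : ℝ) ^ 9 / 2)) * C.N0 := by
  classical
  have hp := C.par
  have hN := C.N0pos
  have hD' : 0 ≤ ((j : ℝ) / ω) ^ (j + 1) := by positivity
  rw [mul_comm, Dat.lat, sum_cls C.clus.mem C.clus.idem hS.1 hS.2]
  refine (mul_le_mul_of_nonneg_left (norm_sum_le _ _) hD').trans ?_
  rw [mul_sum]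
  refine (sum_le_card_nsmul _ _ (Real.exp (-((M : ℝ) ^ 9 / 2)) * C.N0) fun r hr => ?_).trans ?_
  · obtain ⟨h1, h2⟩ := mem_filter.1 hr
    refine C.lat_negl_harm r (hS.1 h1) h2 j ω y hω hA (H2_reg C.dpos.le hR) fun n _ => ?_
    have := hb r h1 n
    rwa [abs_sub_comm, Int.cast_natCast] at this
  · rw [nsmul_eq_mul, mul_assoc]
    refine mul_le_mul_of_nonneg_right ?_ (by positivity)
    have h1 : (S.filter fun r => C.cl r = r).card ≤ M :=
      (card_filter_le _ _).trans ((card_le_card hS.1).trans (C.card.trans (by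
        have := hp.two; omega)))
    exact_mod_cast h1

/-- Put `σP = M^6 d / M^4000`, `η0` from `convB` (`Tgt`), `Ps = tau`,
`kept = {k | 2 M^{-165} σP ≤ sp (a (gr k))}` (contains `G`), `H = {sp (a r) | r cluster
representative in kept}`.  `location` for the spacings `η ≥ M^260 σP` of `H` together with `HH`
gives `n c`, `P c = n c η0 / c`, `D c = P c / kap`.  Bad `i`: for some `c ≤ M^108`, `σ.j + i` is within
`2 M^4005` of a multiple of `a r * D c` (`r` a representative not in `kept`, then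
`a r * D c ≥ M^4159`; `count_bad_height` with `ω = 1`) or within `M^4005` of `lam * D c`, `lam ∈ LL`
(`count_interval`).  `kosP`, then `latt` with `B = 5 M^6 S √η0`, `ε = 2 exp (-M^8) N0`;
`ampP_sum`, `Slo`, `Tgt.range`; the clusters not in `kept` are handled by `lat_negl_harm`.
A spacing `b ∈ HH` is `≥ (1 + M^{-2}/2) η0`, so `n c ∣ k` and `|k b - P c| ≤ σP` are incompatible. -/
theorem CDat.Sel.toolP {C : CDat ι m M} (σ : C.Sel) (HH AA LL : Finset ℝ) (hD : C.Dodge HH AA LL)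
    (hh : σ.h * C.d ≤ (M : ℝ) ^ 3140) : C.OutP HH LL := by
  classical
  have hp := C.par
  have hd := C.dpos
  have hN := C.N0pos
  have hM := hp.pos
  have h0 := σ.hpos
  have hmM : 2 * m ≤ M := hp.two
  have k0 := σ.kap_pos
  have t0 := σ.tau_pos
  obtain ⟨t1, -⟩ := σ.tau_range
  obtain ⟨hh1, -, hh3⟩ := σ.h_range
  obtain ⟨η0, η00, hT0, hbig⟩ := σ.convB
  have hT : σ.Tgt η0 := ⟨η00, hT0⟩
  obtain ⟨e1, e2⟩ := hT.range
  obtain e3 : C.d ≤ η0 * (M : ℝ) ^ 3140 := by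
    have a1 := mul_le_mul_of_nonneg_left hh η00.le
    have a2 := mul_le_mul_of_nonneg_right e1 hd.le
    linarith only [hd, a1, a2]
  obtain ⟨sP, hsP⟩ : ∃ sP, sP = (M : ℝ) ^ 6 * C.d / (M : ℝ) ^ 4000 := ⟨_, rfl⟩
  have sP0 : 0 < sP := by rw [hsP]; positivity
  obtain sP1 : sP * (M : ℝ) ^ 3994 = C.d := by
    rw [hsP, show 4000 = 6 + 3994 from rfl, pow_add]; field_simp
  obtain sP3 : sP * (M : ℝ) ^ 850 ≤ η0 := by
    refine le_of_mul_le_mul_right (le_trans ?_ e3) (hp.pow_pos 3140)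
    rw [mul_assoc, ← pow_add, ← sP1]
    exact mul_le_mul_of_nonneg_left (hp.pow_mono (by norm_num)) sP0.le
  obtain hP : (M : ℝ) ^ 260 * η0 ≤ σ.tau := by
    refine le_trans ?_ t1
    rw [← div_eq_mul_inv, div_div, le_div_iff₀ (by positivity)]
    obtain a1 : η0 * (M : ℝ) ^ 267 ≤ 21 * C.d := by
      have a1 := mul_le_mul_of_nonneg_left hh1 η00.le
      have a2 := mul_le_mul_of_nonneg_right e2 hd.le
      linarith only [a1, a2]
    have a2 : 42 * (M : ℝ) ^ 265 ≤ (M : ℝ) ^ 267 := hp.mul_pow_le (by norm_num) (by norm_num)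
    have a3 : (M : ℝ) ^ 265 = (M : ℝ) ^ 260 * (M : ℝ) ^ 5 := by rw [← pow_add]
    have a4 := mul_le_mul_of_nonneg_left a2 η00.le
    rw [a3] at a4
    linarith only [a1, a4]
  have s13 := H2_small hp (k := 13) (by norm_num)
  have s146 := H2_small hp (k := 146) (by norm_num)
  set kept := C.D.s.filter fun k => 2 * (((M : ℝ) ^ 165)⁻¹ * sP) ≤ sp (C.D.a (σ.gr k)) with hkept
  have kG : C.GSat σ.gr kept := ⟨filter_subset _ _, fun k hk => by
    simp only [hkept, mem_filter, hk, σ.hgr.mem k hk, σ.hgr.idem k hk, true_and]⟩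
  have kS : C.Sat kept := CDat.GSat.sat C σ.hgr kG
  have rS : C.Sat (C.D.s \ kept) := ⟨sdiff_subset, fun k hk => by
    simp only [mem_sdiff, hk, C.clus.mem k hk, true_and, ← kS.2 k hk]⟩
  obtain Gk : σ.G ∈ kept := by
    clear * - ι M sP m C σ hh3 h0 s13 η0 e2 hp sP0 η00 sP3
    refine mem_filter.2 ⟨σ.Gmem, ?_⟩
    rw [σ.Grep]
    obtain aG : C.D.a σ.G ≤ 2 * σ.h := by
      have := (abs_le.1 (hh3 σ.G σ.Gmem σ.Grep)).2
      rw [← div_le_iff₀ h0]
      linarith only [s13, this]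
    have a0 := P2_sp_le (C.apos _ σ.Gmem) aG
    obtain a3 : η0 / 2 ≤ sp σ.h := by
      rw [sp, le_div_iff₀ h0]
      linarith only [e2, Real.pi_gt_three]
    have a1 := mul_le_mul_of_nonneg_right (H2_small hp (k := 165) (by norm_num)) sP0.le
    have a2 := mul_le_mul_of_nonneg_left (one_le_pow₀ (n := 850) hp.one_le) sP0.le
    linarith only [η00, sP3, a0, a3, a1, a2]
  set H := (kept.filter fun r => C.cl r = r).image fun r => sp (C.D.a r) with hH
  have Hc : H.card ≤ m :=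
    card_image_le.trans ((card_filter_le _ _).trans ((card_filter_le _ _).trans C.card))
  obtain ⟨n, hn⟩ := location hp η0 σ.tau sP η00 sP0 hP
    ((H ∪ HH).filter fun η => (M : ℝ) ^ 260 * sP ≤ η)
    ((card_filter_le _ _).trans ((card_union_le _ _).trans (by have := hD.cH; omega)))
    fun η hη => (mem_filter.1 hη).2
  have wide : ∀ P, |P - σ.tau| ≤ ((M : ℝ) ^ 146)⁻¹ * σ.tau →
      |P - σ.tau| ≤ ((M : ℝ) ^ 12)⁻¹ / 2 * σ.tau := fun P hP =>
    hP.trans (mul_le_mul_of_nonneg_right (by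
      linarith only [hp.inv_pow_le (c := 2) (i := 12) (k := 146) (by norm_num) (by norm_num)]) t0.le)
  obtain ⟨I, hI⟩ : ∃ I : ℕ, I = M ^ 4507 := ⟨_, rfl⟩
  have hI' : (I : ℝ) = (M : ℝ) ^ 4507 := by rw [hI, Nat.cast_pow]
  obtain cI : ((Icc 1 (M ^ 108)).card : ℝ) = (M : ℝ) ^ 108 := by
    rw [Nat.card_Icc, Nat.add_sub_cancel, Nat.cast_pow]
  obtain ⟨bad, hb1, hb2⟩ := P2_bad hp σ.j I hI' (Icc 1 (M ^ 108) ×ˢ (C.D.s \ kept))
    (fun p => C.D.a p.2 * (n p.1 * η0 / p.1 / σ.kap))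
    (by
      obtain a2 : ((C.D.s \ kept).card : ℝ) ≤ M := by
        exact_mod_cast (card_le_card sdiff_subset).trans (C.card.trans (by omega))
      rw [card_product, Nat.cast_mul, cI, pow_succ _ 108]
      exact mul_le_mul_of_nonneg_left a2 (hp.pow_pos _).le)
    (by
      clear * - ι M m C kept n η0 σ wide sP H HH hn sP1 sP0 hM hp hd
      rintro ⟨c, r⟩ hcr
      obtain ⟨hc, hr⟩ := mem_product.1 hcr
      obtain ⟨c1, c2⟩ := mem_Icc.1 hc
      obtain ⟨r1, r2⟩ := mem_sdiff.1 hr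
      have a1 := (σ.near_P (Nat.zero_le _) (wide _ (hn c c1 c2).2.1)).2.2.hD1
      dsimp only at a1 r1 r2 ⊢
      generalize n c * η0 / c / σ.kap = Dd at a1 ⊢
      have a2 : sp (C.D.a (σ.gr r)) < 2 * (((M : ℝ) ^ 165)⁻¹ * sP) :=
        not_le.1 fun h => r2 (mem_filter.2 ⟨r1, h⟩)
      have a3 := (σ.H2_gr r r1).1
      obtain a4 : ((M : ℝ) ^ 165)⁻¹ * sP * (M : ℝ) ^ 4159 = C.d := by
        rw [← sP1, show 4159 = 165 + 3994 from rfl, pow_add]; field_simp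
      have g0 := C.apos _ (σ.hgr.mem r r1)
      rw [sp, div_lt_iff₀ g0] at a2
      have a5 := mul_le_mul_of_nonneg_right a2.le (hp.pow_pos 4159).le
      have a6 : 2 * (((M : ℝ) ^ 165)⁻¹ * sP) * C.D.a (σ.gr r) * (M : ℝ) ^ 4159 =
          2 * (C.d * C.D.a (σ.gr r)) := by rw [← a4]; ring
      have a7 := mul_le_mul_of_nonneg_left a3 hd.le
      have s5 := mul_le_mul_of_nonneg_left (H2_small hp (k := 5) (by norm_num)) hd.le
      have a8 : 99 / 100 * C.d ≤ Dd := by linarith only [a1, s5]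
      have a9 := mul_le_mul_of_nonneg_left a8 (C.apos r r1).le
      have a10 := mul_le_mul_of_nonneg_right Real.pi_gt_three.le (hp.pow_pos 4159).le
      have a11 := hp.pow_pos 4159
      clear * - M ι m C r Dd sP σ a5 a6 a7 a9 a10 a11; linarith only [a5, a6, a7, a9, a10, a11])
    (Icc 1 (M ^ 108) ×ˢ LL) (fun p => p.2 * (n p.1 * η0 / p.1 / σ.kap))
    (by
      have a2 : (LL.card : ℝ) ≤ (M : ℝ) ^ 264 := by exact_mod_cast hD.cL
      rw [card_product, Nat.cast_mul, cI, show 372 = 108 + 264 from rfl, pow_add]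
      exact mul_le_mul_of_nonneg_left a2 (hp.pow_pos _).le)
  obtain ⟨i, hi1, hi2, hi3⟩ := σ.kosP hT hbig bad hb1
  obtain ⟨n1, n2, n3, -⟩ := P2_num hp
  have lev := σ.P2_level e3
  have lev0 : 0 ≤ σ.S * √η0 := mul_nonneg σ.Spos.le (Real.sqrt_nonneg _)
  obtain lev1 : 5 * (σ.S * √η0) ≤ 5 * (M : ℝ) ^ 6 * σ.S * √η0 := by
    have a2 := mul_le_mul_of_nonneg_right (one_le_pow₀ (n := 6) hp.one_le) lev0
    linarith only [a2]
  have E0 : 0 < Real.exp (-(M : ℝ) ^ 4 - M) * C.N0 := by positivity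
  obtain ⟨c, c1, c2, hc⟩ := latt hp η0 σ.tau sP (5 * (M : ℝ) ^ 6 * σ.S * √η0)
    (2 * Real.exp (-(M : ℝ) ^ 8) * C.N0) η00 sP0 sP3 hP (by positivity)
    (by
      have a1 := mul_le_mul_of_nonneg_right n2 hN.le
      have a2 := mul_le_mul_of_nonneg_left (one_le_pow₀ (n := 125) hp.one_le) E0.le
      linarith only [lev, lev1, E0, a1, a2])
    H (by omega)
    (fun η hη => by
      obtain ⟨r, hr, rfl⟩ := mem_image.1 hη
      obtain ⟨r1, r2⟩ := mem_filter.1 (mem_filter.1 hr).1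
      linarith only [r2, P2_sp_le (C.apos r r1) (σ.H2_gr r r1).2])
    n (fun c h1 h2 => ⟨(hn c h1 h2).1, (hn c h1 h2).2.1, fun η hη h =>
      (hn c h1 h2).2.2 η (mem_filter.2 ⟨mem_union_left _ hη, h⟩)⟩)
    (σ.ampP kept (σ.j + i))
    (fun P hP η hη => σ.ampP_A1 kG hi1 η00 P (wide P hP) η hη)
    (fun P hP N h1 h2 => σ.ampP_A2 kG hi1 hT P hP N h1 h2)
    (fun P hP F hF => σ.ampP_A3 kS hi1 P hP F fun k hk => ⟨(hF k hk).1, fun r hr hrr =>
      hsP ▸ (hF k hk).2 _ (mem_image_of_mem _ (mem_filter.2 ⟨hr, hrr⟩))⟩)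
    (σ.ampP_target kG Gk hi1 hT hi3)
  obtain ⟨m1, m2, m3⟩ := hn c c1 c2
  obtain ⟨b3, b4⟩ := hb2 i (hI ▸ hi1) hi2
  have b5 := fun r hr => b3 (c, r) (mem_product.2 ⟨mem_Icc.2 ⟨c1, c2⟩, hr⟩)
  have b6 := fun x hx => b4 (c, x) (mem_product.2 ⟨mem_Icc.2 ⟨c1, c2⟩, hx⟩)
  dsimp only at b5 b6
  have n1' : (1 : ℝ) ≤ n c := by exact_mod_cast m1
  have c1' : (1 : ℝ) ≤ c := by exact_mod_cast c1
  have P1 : n c * η0 / c ≤ n c * η0 := div_le_self (by positivity) c1'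
  generalize n c * η0 / c = P at *
  obtain ⟨P0, near, hR⟩ := σ.near_P hi1 (wide P m2)
  have D0 : 0 < P / σ.kap := by positivity
  refine ⟨σ.j + i, P / σ.kap, P, hR, fun b hb l => ?_, fun x hx => ?_, ?_⟩
  · by_contra hlt
    obtain a2 : |P - l * b| ≤ sP := by
      refine (not_le.1 hlt).le.trans ?_
      rw [hsP]
      exact div_le_div_of_nonneg_right (mul_le_mul_of_nonneg_right (hp.pow_mono (by norm_num))
        hd.le) (hp.pow_pos _).le
    obtain ⟨a3, a4⟩ := hD.hH b hb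
    obtain a7 : (M : ℝ) ^ 260 * sP ≤ b := by
      refine le_trans ?_ a3
      rw [le_div_iff₀ (hp.pow_pos _), ← sP1, mul_comm _ sP, mul_assoc, ← pow_add]
      exact mul_le_mul_of_nonneg_left (hp.pow_mono (by norm_num)) sP0.le
    have a9 : 0 < b := lt_of_lt_of_le (by positivity) a7
    obtain a6 : 4 * sP ≤ η0 * ((M : ℝ) ^ 2)⁻¹ := by
      rw [← div_eq_mul_inv, le_div_iff₀ (hp.pow_pos _)]
      have := mul_le_mul_of_nonneg_left
        (hp.mul_pow_le (c := 4) (i := 2) (k := 850) (by norm_num) (by norm_num)) sP0.le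
      linarith only [sP3, this]
    have s2 := H2_small hp (k := 2) (by norm_num)
    have p2 : 0 < ((M : ℝ) ^ 2)⁻¹ := inv_pos.2 (hp.pow_pos _)
    obtain l0 : 0 < l := by
      clear * - η0 M m hp η00 ι C σ s146 t0 s2 l b sP P sP0 hP a6 a2 m2 a9 n
      have a10 := mul_le_mul_of_nonneg_right (one_le_pow₀ (n := 260) hp.one_le) η00.le
      have a11 := mul_le_mul_of_nonneg_right s146 t0.le
      have a12 := mul_le_mul_of_nonneg_left s2 η00.le
      have : 0 < (l : ℝ) * b := by linarith only [sP0, hP, m2, a2, a6, a10, a11, a12, (abs_le.1 a2).2, (abs_le.1 m2).1]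
      exact_mod_cast (mul_pos_iff_of_pos_right a9).1 this
    obtain ⟨k, rfl⟩ := Int.eq_ofNat_of_zero_le l0.le
    rw [Int.cast_natCast, abs_sub_comm] at a2
    have hk : 1 ≤ k := by exact_mod_cast l0
    obtain a8 : (n c : ℝ) ≤ k := by
      exact_mod_cast Nat.le_of_dvd hk (m3 b (mem_filter.2 ⟨mem_union_right _ hb, a7⟩) k hk a2)
    obtain ⟨r, r1, -, -, r2⟩ := hT0
    obtain a5 : η0 + η0 * ((M : ℝ) ^ 2)⁻¹ / 2 ≤ b := by
      clear * - η0 M ι m C r b η00 r2 hp p2 hM a4 r1 k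
      refine le_trans ?_ (a4 r r1)
      obtain r3 : η0 * (1 - ((M : ℝ) ^ 1000)⁻¹) ≤ sp (C.D.a r) := by
        rw [← le_div_iff₀' η00]
        linarith only [r2, (abs_le.1 r2).1]
      have r4 : 100 * ((M : ℝ) ^ 1000)⁻¹ ≤ ((M : ℝ) ^ 2)⁻¹ :=
        hp.inv_pow_le (by norm_num) (by norm_num)
      refine le_trans ?_ (mul_le_mul_of_nonneg_left r3 (by positivity))
      rw [mul_div_assoc, ← mul_one_add, mul_left_comm]
      refine mul_le_mul_of_nonneg_left ?_ η00.le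
      have r5 := mul_le_mul_of_nonneg_left (H2_small hp (k := 1000) (by norm_num)) p2.le
      linarith only [p2, r4, r5]
    have a10 := mul_le_mul_of_nonneg_right a8 a9.le
    have a11 := mul_le_mul_of_nonneg_left a5 (show (0 : ℝ) ≤ n c by positivity)
    have a12 := mul_le_mul_of_nonneg_right n1' (show 0 ≤ η0 * ((M : ℝ) ^ 2)⁻¹ / 2 by positivity)
    rw [mul_add] at a11
    linarith only [sP0, P1, a6, a2, a10, a11, a12, (abs_le.1 a2).2]
  · rw [Nat.cast_add]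
    exact b6 x hx
  · have j0 : (0 : ℝ) < (σ.j + i : ℕ) := by
      have a1 := near.facts.2.2.2.2.2.1
      have a2 := hp.pow_pos 7995
      exact (mul_pos_iff_of_pos_left k0).1 (by linarith only [a1, a2])
    have q1 : ((σ.j + i : ℕ) : ℝ) / (σ.kap * (σ.j + i : ℕ) / P) = P / σ.kap := by clear * - ι m M C σ i P j0 P0 k0; field_simp
    have q2 : σ.kap * (σ.j + i : ℕ) / (σ.kap * (σ.j + i : ℕ) / P) = P := by clear * - ι m M C σ i P k0 j0 P0; field_simp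
    have r1 := C.P2_rest rS (by clear * - ι m M C σ i P k0 j0 P0 b5 near q1; positivity) near.facts.1 near.facts.2.2.1 fun r hr l => by
      rw [q1, Nat.cast_add]
      exact b5 r hr l
    rw [q1, q2] at r1
    have r2 := σ.ampP_sum kS hi1 P m2
    have r3 := norm_le_norm_add_norm_sub' (∑' k : ℕ, σ.ampP kept (σ.j + i) (P / ((k : ℝ) + 1)) P)
      (((P / σ.kap : ℝ) : ℂ) ^ (σ.j + i + 1) * C.D.lat kept (σ.j + i) (zp C.d (P / σ.kap) P))
    rw [norm_mul, norm_pow, Complex.norm_real, Real.norm_of_nonneg D0.le] at r3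
    obtain m4 : ‖C.D.lat kept (σ.j + i) (zp C.d (P / σ.kap) P)‖ ≤
        ‖C.D.lat C.D.s (σ.j + i) (zp C.d (P / σ.kap) P)‖ +
          ‖C.D.lat (C.D.s \ kept) (σ.j + i) (zp C.d (P / σ.kap) P)‖ := by
      rw [Dat.lat, Dat.lat, Dat.lat, ← sum_sdiff kG.1, add_comm (∑ _ ∈ C.D.s \ kept, _)]
      exact norm_le_add_norm_add _ _
    have m5 := mul_le_mul_of_nonneg_right m4 (pow_pos D0 (σ.j + i + 1)).le
    obtain u1 : 5 * (Real.exp (-(M : ℝ) ^ 4 - M) * C.N0) ≤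
        5 * (M : ℝ) ^ 6 * σ.S * √η0 / (M : ℝ) ^ 125 := by
      rw [le_div_iff₀ (hp.pow_pos _)]
      linarith only [lev, lev1]
    have u2 := mul_le_mul_of_nonneg_right n1 hN.le
    have u3 := mul_le_mul_of_nonneg_right n3 hN.le
    have u4 := mul_le_mul_of_nonneg_right ((le_mul_of_one_le_right (Real.exp_pos _).le
      (one_le_pow₀ (n := 400) hp.one_le)).trans n2) hN.le
    rw [add_mul] at m5
    rw [mul_comm] at r3
    clear * - M ι m C σ i P η0 kept E0 hc r1 r2 r3 m5 u1 u2 u3 u4; linarith only [E0, hc, r1, r2, r3, m5, u1, u2, u3, u4]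

theorem CDat.cmain (C : CDat ι m M) (HH AA LL : Finset ℝ) (hD : C.Dodge HH AA LL) :
    C.OutP HH LL ∨ C.OutH HH AA := by
  obtain ⟨σ⟩ := C.exists_sel
  rcases le_or_gt (σ.h * C.d) ((M : ℝ) ^ 3140) with h | h
  · exact Or.inl (σ.toolP HH AA LL hD h)
  · exact Or.inr (σ.toolH HH AA LL hD h)

end Pool.Agent.Work.MP_97f157_lc.Tau
end
end
end
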