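import Pool.Agent.Work.MP_97f157_lc.TauCaseA
import Pool.Agent.Work.MP_97f157_lc.TauApxHAux
import Pool.Agent.Work.MP_97f157_lc.TauH1
import Pool.Agent.Work.MP_97f157_lc.TauP2
import Pool.Agent.Work.MP_97f157_lc.TauIsoBAux

-- merged part: Pool.Agent.Work.MP_97f157_lc.TauCC4
section
/-! The middle case: slow lattices of class `A` do not contribute near the resonance. -/

noncomputable section
open Complex Finset Metric

namespace Pool.Agent.Work.MP_97f157_lc.Tau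

variable {ι : Type*} {m M : ℕ}

theorem cc4_gr (hp : Par m M) (s : Finset ι) (hs : s.card ≤ m) (a : ι → ℝ)
    (ha : ∀ k ∈ s, 0 < a k) : ∃ gr, RClus s (fun k => (a k : ℂ)) gr (eG1 M) (eG0 M) := by
  obtain ⟨e0, e1, e2⟩ := tailA_eps hp
  refine exists_rclus s (fun k => (a k : ℂ)) (fun k hk => by exact_mod_cast (ha k hk).ne')
    (e1 := eG1 M) (e0 := eG0 M) hs (inv_pos.2 (hp.pow_pos _)) ?_ (by linarith)
  have h1 := hp.inv_pow_le (c := 4) (by norm_num) (show 24001 < 24002 by norm_num)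
  have h2 : (M : ℝ) * ((M : ℝ) ^ 24001)⁻¹ = ((M : ℝ) ^ 24000)⁻¹ := by
    rw [pow_succ _ 24000, mul_inv, mul_comm, mul_assoc, inv_mul_cancel₀ hp.pos.ne', mul_one]
  have h3 := hp.mle
  have h4 := inv_pos.2 (hp.pow_pos 24002)
  unfold eG0 eG1
  rw [← h2]
  nlinarith only [e0, e1, h1, h3, h4, mul_le_mul_of_nonneg_left h1 hp.pos.le]

theorem cc4_eA (hp : Par m M) : 0 < eA1 M ∧ eA1 M ≤ eG1 M ∧ eA1 M ≤ ((M : ℝ) ^ 5715)⁻¹ / 2 := by
  have h1 := hp.inv_pow_le (c := 1) (by norm_num) (show 24000 < 32000 by norm_num)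
  have h2 := hp.inv_pow_le (c := 2) (by norm_num) (show 5715 < 32000 by norm_num)
  unfold eA1 eG1
  exact ⟨inv_pos.2 (hp.pow_pos _), by linarith, by linarith⟩

/-- the window start attached to a group -/
theorem cc4_ceil (hp : Par m M) {c x : ℝ} (hc : 0 < c) (hx : 0 < x) (hx' : x ≤ 4 * (M : ℝ) ^ 7738) :
    1 ≤ ⌈c / x⌉₊ ∧ c ≤ ⌈c / x⌉₊ * x ∧ ((⌈c / x⌉₊ + M ^ 17 : ℕ) : ℝ) * x ≤ c + (M : ℝ) ^ 7756 := by
  have h0 := div_pos hc hx
  refine ⟨Nat.ceil_pos.2 h0, (div_le_iff₀ hx).1 (Nat.le_ceil _), ?_⟩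
  have h1 := mul_le_mul_of_nonneg_right (Nat.ceil_lt_add_one h0.le).le hx.le
  rw [add_mul, div_mul_cancel₀ _ hx.ne', one_mul] at h1
  have h2 : (M : ℝ) ^ 17 * x ≤ 4 * (M : ℝ) ^ 7755 := by
    rw [show (M : ℝ) ^ 7755 = (M : ℝ) ^ 17 * (M : ℝ) ^ 7738 by rw [← pow_add], mul_left_comm]
    exact mul_le_mul_of_nonneg_left hx' (hp.pow_pos _).le
  have h3 := hp.pow_mono (show 7738 ≤ 7755 by norm_num)
  have h4 := hp.mul_pow_le (c := 8) (by norm_num) (show 7755 < 7756 by norm_num)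
  rw [Nat.cast_add, Nat.cast_pow, add_mul]
  linarith

theorem cc4_gain {n np x t τ U U' M : ℝ} (hM : 0 < M) (ht : 100 ≤ t) (hx : x ≤ t * M + t / 3)
    (hx' : x ≤ 2 * (t * M)) (hτ : τ = t * M + t / 2) (hU : U = M * U') (hn : np ≤ n)
    (h : 4 * U ≤ (n - np) * x) : n * x + U' / 4 ≤ np * x + (n - np) * (τ - 1) := by
  have h1 : 0 ≤ n - np := sub_nonneg.2 hn
  have h2 : (n - np) * x ≤ (n - np) * (2 * (t * M)) := mul_le_mul_of_nonneg_left hx' h1
  have h3 : 2 * U' ≤ (n - np) * t := by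
    refine le_of_mul_le_mul_left ?_ hM
    rw [hU] at h
    linarith
  have h4 : (n - np) * (t / 8) ≤ (n - np) * (τ - 1 - x) :=
    mul_le_mul_of_nonneg_left (by linarith) h1
  linarith

theorem cc4_avg_sum {β : Type*} (t : Finset β) (F : β → ℕ → ℂ → ℂ) (d : ℝ) (j : ℕ) (ω y α' : ℝ) :
    avg M (fun j z => ∑ b ∈ t, F b j z) d j ω y α' = ∑ b ∈ t, avg M (F b) d j ω y α' := by
  unfold avg
  simp only [mul_sum]
  exact sum_comm

theorem cc4_reg (hp : Par m M) {jc j : ℕ} {d Dd τ : ℝ} (hd : 0 < d) (h : Reg M 1 jc d j Dd τ) :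
    Reg M 2 jc d j Dd τ := by
  have h1 := hp.pow_pos 7994
  have h2 : 0 < d * ((M : ℝ) ^ 5)⁻¹ := mul_pos hd (inv_pos.2 (hp.pow_pos 5))
  have h3 := h.hj
  have h4 := h.hτ1
  have h5 := h.hτ2
  exact ⟨by linarith, h.hD1, h.hD2, by linarith, by linarith⟩

theorem cc4_shift {μ ω β : ℝ} (d Dd y t : ℝ) {w : ℂ} (j : ℕ) (hω : ω ≠ 0)
    (hw : (μ : ℂ) = -((β * ω : ℝ) : ℂ) * w) :
    ec μ j (zp d Dd ((y + t) / ω)) = exp (-(I * (t : ℂ) * (β * w))) * ec μ j (zp d Dd (y / ω)) := by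
  have hω' : (ω : ℂ) ≠ 0 := by exact_mod_cast hω
  have e : (μ : ℂ) * zp d Dd ((y + t) / ω) =
      -(I * (t : ℂ) * (β * w)) + (μ : ℂ) * zp d Dd (y / ω) := by
    rw [hw, zp, zp]
    push_cast
    field_simp
    ring
  rw [ec, ec, e, exp_add]
  ring

namespace Setup
variable {S : Setup ι m M} {ja : ℕ} {d N0 : ℝ}

theorem cc4_ja (h : S.CHyp ja d N0) :
    (M : ℝ) ^ 8000 ≤ ja ∧ (ja : ℝ) + 64 * (M : ℝ) ^ 7998 ≤ 2 * (M : ℝ) ^ 8000 :=
  ⟨by exact_mod_cast h.top.lo, by exact_mod_cast h.top.hi⟩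

theorem cc4_freq {ν : ι × ℕ} (hν : ν ∈ S.PA) : |S.D.freq ν| = ν.2 * S.D.a ν.1 := by
  have h1 := S.apos _ (S.env_A.1 (S.env_PA.1 hν).1).1
  have h2 : |S.D.sg ν.1| = 1 := by
    unfold Dat.sg
    split_ifs <;> simp
  rw [Dat.freq, abs_mul, h2, one_mul, abs_of_nonneg (by positivity)]

/-- members of an atom -/
theorem cc4_mem {α ν : ι × ℕ} (hν : ν ∈ cls S.PA S.at' α) :
    |ν.2 * S.D.a ν.1 - (|S.D.freq α|)| ≤ eA1 M / 4 * |S.D.freq α| := by
  obtain ⟨h1, h2⟩ := mem_cls.1 hν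
  have h3 := S.hat.near ν h1
  rw [h2, ← ofReal_sub, Complex.norm_real, Complex.norm_real, Real.norm_eq_abs,
    Real.norm_eq_abs] at h3
  rw [← cc4_freq h1]
  exact (abs_abs_sub_abs_le_abs_sub _ _).trans h3

/-- the yardstick -/
theorem cc4_yard (h : S.CHyp ja d N0) (α : ι × ℕ) (hα : α ∈ S.PA) (hαα : S.at' α = α) {x : ℝ}
    (hx1 : (ja : ℝ) + 25 * (M : ℝ) ^ 7998 ≤ x) (hx2 : x ≤ ja + 26 * (M : ℝ) ^ 7998)
    (hφ : |(|S.D.freq α| * d) - x| ≤ 1) :
    S.NA S.D.cf α ≤ Real.exp (3 * (M : ℝ) ^ 6) * N0 / d * Real.exp (-x) := by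
  have hp := S.par
  have hd := h.dpos
  have hN := h.pos
  obtain ⟨j1, j2⟩ := cc4_ja h
  have hU : (1 : ℝ) ≤ (M : ℝ) ^ 7998 := one_le_pow₀ hp.one_le
  have hj0 : (0 : ℝ) ≤ ja := Nat.cast_nonneg _
  obtain ⟨f1, f2⟩ := abs_le.1 hφ
  have hLo : α ∈ S.Lo := by
    refine S.env_Lo.2 ⟨hα, ?_⟩
    have h1 := h.top.dge
    have h2 : |S.D.freq α| * (32 * S.ρ) ≤ |S.D.freq α| * d :=
      mul_le_mul_of_nonneg_left h1 (abs_nonneg _)
    have h3 := hp.pow_mono (show 8000 ≤ 8540 by norm_num)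
    have h4 := S.Tc1
    have h5 := hp.pow_pos 8000
    linarith
  have hfr := abs_nonneg (S.D.freq α)
  have key := h.hA ⌊|S.D.freq α| * d⌋₊ (Nat.le_floor (by push_cast; linarith))
    (Nat.floor_le_of_le (by push_cast; linarith)) α hLo hαα
  have hy1 : 1 ≤ |S.D.freq α| * d := by linarith
  have hy2 : |S.D.freq α| * d ≤ 2 * (M : ℝ) ^ 8000 := by linarith
  have hm := pois_mode hy1
  have hNA : 0 ≤ S.NA S.D.cf α := Nm_nonneg
  have h1 : S.NA S.D.cf α * ((|S.D.freq α| * d) ^ ⌊|S.D.freq α| * d⌋₊ /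
      (⌊|S.D.freq α| * d⌋₊.factorial : ℝ)) ≤ Real.exp (2 * (M : ℝ) ^ 6) * N0 / d := by
    generalize ⌊|S.D.freq α| * d⌋₊ = i at key ⊢
    rw [le_div_iff₀ (pow_pos hd _)] at key
    rw [le_div_iff₀ hd, mul_pow]
    refine le_trans (le_of_eq ?_) key
    ring
  have h2 : 9 * √(|S.D.freq α| * d) * Real.exp 1 ≤ Real.exp ((M : ℝ) ^ 6) := by
    have h3 : √(|S.D.freq α| * d) ≤ |S.D.freq α| * d := by
      rw [Real.sqrt_le_left (by linarith)]
      nlinarith only [hx1, hx2, j1, j2, hU, f1, f2]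
    have h4 : Real.exp 1 ≤ 3 := by linarith [Real.exp_one_lt_d9]
    have h5 := hp.mul_pow_le (c := 54) (by norm_num) (show 8000 < 8001 by norm_num)
    have h6 := hp.pow_le_exp (k := 8001) (by norm_num)
    have h7 : Real.exp M ≤ Real.exp ((M : ℝ) ^ 6) :=
      Real.exp_le_exp.2 (by simpa using hp.pow_mono (show 1 ≤ 6 by norm_num))
    have h8 := mul_le_mul (h3.trans hy2) h4 (Real.exp_pos _).le (by linarith)
    linarith
  have h3 : Real.exp (-(|S.D.freq α| * d)) ≤ Real.exp 1 * Real.exp (-x) := by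
    rw [← Real.exp_add]
    exact Real.exp_le_exp.2 (by linarith)
  have hs := Real.sqrt_nonneg (|S.D.freq α| * d)
  generalize (|S.D.freq α| * d) ^ ⌊|S.D.freq α| * d⌋₊ /
    (⌊|S.D.freq α| * d⌋₊.factorial : ℝ) = q at hm h1
  generalize √(|S.D.freq α| * d) = r at hm h2 hs
  calc S.NA S.D.cf α = S.NA S.D.cf α * Real.exp (|S.D.freq α| * d) *
        Real.exp (-(|S.D.freq α| * d)) := by
        rw [mul_assoc, ← Real.exp_add, add_neg_cancel, Real.exp_zero, mul_one]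
    _ ≤ S.NA S.D.cf α * (9 * r * q) * (Real.exp 1 * Real.exp (-x)) := by
        have := (Real.exp_pos _).le.trans hm
        gcongr
    _ = 9 * r * Real.exp 1 * (S.NA S.D.cf α * q) * Real.exp (-x) := by ring
    _ ≤ Real.exp ((M : ℝ) ^ 6) * (Real.exp (2 * (M : ℝ) ^ 6) * N0 / d) * Real.exp (-x) := by
        refine mul_le_mul_of_nonneg_right ((mul_le_mul_of_nonneg_left h1 (by positivity)).trans
          (mul_le_mul_of_nonneg_right h2 (by positivity))) (Real.exp_pos _).le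
    _ = _ := by
        rw [show 3 * (M : ℝ) ^ 6 = (M : ℝ) ^ 6 + 2 * (M : ℝ) ^ 6 by ring, Real.exp_add]
        ring

/-- `U = M^7998`, `jc = ja + 32 U`.  Apply `isoA` on `s = A.filter (sg = -1)` (`side_atoms`) with
`w = -sg W a`, groups `gr` from `exists_rclus`, `slow = {k | a (gr k) d ≤ TA (1 + 1/(4M)) (1 + eG1)}`,
`j = 0`, `θ = d`, `B0 = exp (3 M^6) N0 / d`, `τ G = a G d (1 + 1/(6M))` (from `gapA`),
`nm G = ⌈(jc - 7U + 2 rank(G) M^7760) / (a G d)⌉₊` (`rank G` = number of representatives with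
smaller `a`).  The yardstick is `hA` at `⌊|μ| d⌋₊` (`pois_mode`).  Every member `(k, n)` of the atom
has `n a (gr k) d ≥ jc - 2U`, while `(nm G + M^17) a G d ≤ jc - 6U`; the gain is
`exp (-(n - n⁺) (a G d / (6M) - 1)) ≤ exp (-M^7997 / 2)`.  Finish with `atom_le_groups`. -/
theorem slow_atom (h : S.CHyp ja d N0) (α : ι × ℕ) (hα : α ∈ S.PA) (hαα : S.at' α = α)
    (hneg : S.D.freq α < 0)
    (hnear : |(|S.D.freq α| * d) - (ja + 32 * M ^ 7998 : ℕ)| ≤ (M : ℝ) ^ 7998)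
    (hslow : ∀ ν ∈ cls S.PA S.at' α, S.D.a ν.1 * d ≤ S.TA * (1 + 1 / (4 * M))) :
    S.NA S.D.cf α ≤ Real.exp (-(M : ℝ) ^ 9) * N0 * Real.exp (-(|S.D.freq α| * d)) / d := by
  classical
  have hp := S.par
  have hd := h.dpos
  have hN0 := h.pos
  have hM := hp.pos
  obtain ⟨j1, j2⟩ := cc4_ja h
  obtain ⟨e0, e1, e2⟩ := tailA_eps hp
  obtain ⟨a0, a1, -⟩ := cc4_eA hp
  have hU := hp.pow_pos 7998
  have hj0 : (0 : ℝ) ≤ ja := Nat.cast_nonneg _
  have haA : ∀ k ∈ S.A, 0 < S.D.a k := fun k hk => S.apos k (S.env_A.1 hk).1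
  obtain ⟨hat', hN⟩ := side_atoms hp S.D S.A haA S.at' S.hat (-1)
  set s := S.A.filter (fun k => S.D.sg k = -1) with hs
  have hsA : s ⊆ S.A := filter_subset _ _
  have hsm : s.card ≤ m := (card_le_card hsA).trans S.env_cardA
  have has : ∀ k ∈ s, 0 < S.D.a k := fun k hk => haA k (hsA hk)
  obtain ⟨gr, hgr⟩ := cc4_gr hp s hsm S.D.a has
  have hsub : Dat.pA s (M ^ 263) ⊆ S.PA := product_subset_product_left hsA
  have hαs : α ∈ Dat.pA s (M ^ 263) := by
    obtain ⟨h1, h2, h3⟩ := S.env_PA.1 hα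
    refine IsoA_mem.2 ⟨mem_filter.2 ⟨h1, ?_⟩, h2, h3⟩
    have h4 : (0 : ℝ) < α.2 * S.D.a α.1 := mul_pos (by exact_mod_cast h2) (haA _ h1)
    unfold Dat.freq Dat.sg at hneg
    unfold Dat.sg
    split_ifs at hneg ⊢
    · rfl
    · linarith only [h4, hneg]
  obtain ⟨t, ht⟩ : ∃ t, S.TA = t * M := ⟨S.TA / M, (div_mul_cancel₀ _ hM.ne').symm⟩
  have ht1 : 100 ≤ t := by
    have h1 := S.TA1
    have h2 := hp.mul_pow_le (c := 100) (by norm_num) (show 1 < 7738 by norm_num)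
    rw [pow_one] at h2
    rw [ht] at h1
    exact le_of_mul_le_mul_right (h2.trans h1) hM
  have htM : t ≤ t * M := le_mul_of_one_le_right (by linarith) hp.one_le
  have hTA2 : t * M ≤ 2 * (M : ℝ) ^ 7738 := ht ▸ S.TA2
  let slow := s.filter (fun k => S.D.a (gr k) * d ≤ t * M + t / 3)
  have hsl : ∀ {k}, k ∈ slow ↔ k ∈ s ∧ S.D.a (gr k) * d ≤ t * M + t / 3 := mem_filter
  let c : ι → ℝ := fun G =>
    ja + 25 * (M : ℝ) ^ 7998 + 2 * (tailA_rank s S.D.a gr G : ℝ) * (M : ℝ) ^ 7760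
  have hV := hp.pow_pos 7760
  have hc1 : ∀ G, ja + 25 * (M : ℝ) ^ 7998 ≤ c G := fun G => le_add_of_nonneg_right (by positivity)
  have hc0 : ∀ G, 0 < c G := fun G => lt_of_lt_of_le (by linarith) (hc1 G)
  have hc2 : ∀ G, c G + (M : ℝ) ^ 7756 ≤ ja + 26 * (M : ℝ) ^ 7998 := fun G => by
    have h1 : (tailA_rank s S.D.a gr G : ℝ) ≤ m := by
      exact_mod_cast (tailA_rank_le _ _ _ _).trans hsm
    have h2 : 2 * (tailA_rank s S.D.a gr G : ℝ) * (M : ℝ) ^ 7760 ≤ (M : ℝ) ^ 7761 := by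
      rw [pow_succ' _ 7760]
      exact mul_le_mul_of_nonneg_right (by linarith [hp.mle]) hV.le
    have h3 := hp.mul_pow_le (c := 2) (by norm_num) (show 7761 < 7998 by norm_num)
    have h4 := hp.pow_mono (show 7756 ≤ 7761 by norm_num)
    simp only [c]
    linarith
  let nm : ι → ℕ := fun G => ⌈c G / (S.D.a G * d)⌉₊
  have hnm : ∀ G ∈ slow, gr G = G → c G ≤ nm G * (S.D.a G * d) ∧
      ((nm G + M ^ 17 : ℕ) : ℝ) * (S.D.a G * d) ≤ c G + (M : ℝ) ^ 7756 := fun G hG hGG => by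
    obtain ⟨h1, h2⟩ := hsl.1 hG
    rw [hGG] at h2
    exact (cc4_ceil hp (hc0 G) (mul_pos (has G h1) hd) (by linarith)).2
  have key := isoA hp s hsm S.D.a S.D.T (fun k => ((-S.D.sg k * S.D.W k * S.D.a k : ℝ) : ℂ)) has
    S.at' hat' gr hgr slow (filter_subset _ _)
    (fun k hk => by rw [hsl, hsl, hgr.idem k hk]; simp only [hk, hgr.mem k hk])
    (fun k hk hk' k' hk'' => by
      have h1 := (hsl.1 hk'').2
      have h2 : ¬ S.D.a (gr k) * d ≤ t * M + t / 3 := fun h3 => hk' (hsl.2 ⟨hk, h3⟩)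
      exact lt_of_mul_lt_mul_right (h1.trans_lt (not_le.1 h2)) hd.le)
    nm (fun _ => t * M + t / 2) 0 (Nat.zero_le _) d (Real.exp (3 * (M : ℝ) ^ 6) * N0 / d)
    (by positivity)
    (fun G hG => Nat.ceil_pos.2 (div_pos (hc0 G) (mul_pos (has G (hsl.1 hG).1) hd)))
    (fun k hk => by
      obtain ⟨h1, h2⟩ := S.env_A.1 (hsA (hsl.1 hk).1)
      refine le_trans (le_of_eq ?_) ((S.gapA k h1).resolve_left (not_le.2 h2))
      rw [ht]
      field_simp)
    (fun G hG hGG _ => by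
      obtain ⟨h1, h2⟩ := hsl.1 hG
      rw [hGG] at h2
      have h3 : |d| * S.D.a G / (M : ℝ) ^ 2 ≤ t / 100 := by
        rw [abs_of_pos hd, div_le_iff₀ (hp.pow_pos 2)]
        have h4 := hp.mul_pow_le (c := 200) (by norm_num) (show 1 < 2 by norm_num)
        rw [pow_one] at h4
        linarith only [e0, e1, ht1, htM, h2, h4, mul_le_mul_of_nonneg_left h4 (show 0 ≤ t by linarith)]
      rw [Nat.cast_zero, zero_div]
      linarith only [e0, e1, ht1, h2, h3])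
    (fun G hG G' hG' hGG hGG' hlt => by
      have h1 := (hnm G hG hGG).1
      have h2 := (hnm G' hG' hGG').2
      have h3 := hc2 G'
      have h4 : (tailA_rank s S.D.a gr G' : ℝ) + 1 ≤ tailA_rank s S.D.a gr G := by
        exact_mod_cast tailA_rank_lt (hsl.1 hG').1 hGG' hlt
      have h5 : c G' + 2 * (M : ℝ) ^ 7760 ≤ c G := by
        simp only [c]
        linarith [mul_le_mul_of_nonneg_right h4 hV.le]
      have h6 : ((nm G' + M ^ 17 : ℕ) : ℝ) * (S.D.a G' * d) * ((M : ℝ) ^ 300)⁻¹ ≤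
          2 * (M : ℝ) ^ 7700 := by
        have h9 : (M : ℝ) ^ 8000 * ((M : ℝ) ^ 300)⁻¹ = (M : ℝ) ^ 7700 := cb_pow_mul_inv hp 300 7700
        rw [← h9, ← mul_assoc 2]
        exact mul_le_mul_of_nonneg_right (by linarith) (inv_nonneg.2 (hp.pow_pos _).le)
      have h7 := hp.mul_pow_le (c := 2) (by norm_num) (show 7700 < 7760 by norm_num)
      have h8 := hp.pow_mono (show 7756 ≤ 7760 by norm_num)
      refine le_of_mul_le_mul_right ?_ hd
      calc _ = ((nm G' + M ^ 17 : ℕ) : ℝ) * (S.D.a G' * d) +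
            ((nm G' + M ^ 17 : ℕ) : ℝ) * (S.D.a G' * d) * ((M : ℝ) ^ 300)⁻¹ := by ring
        _ ≤ nm G * (S.D.a G * d) := by linarith only [h1, h2, h5, h6, h7, h8]
        _ = _ := by ring)
    (fun G hG hGG _ n hn1 hn2 β hβ hββ hcl => by
      rw [(hN β hβ hββ).1, pow_zero, inv_one, mul_one]
      obtain ⟨h1, h2⟩ := hnm G hG hGG
      have h3 : 0 < S.D.a G * d := mul_pos (has G (hsl.1 hG).1) hd
      have h4 : (nm G : ℝ) * (S.D.a G * d) ≤ n * (S.D.a G * d) :=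
        mul_le_mul_of_nonneg_right (by exact_mod_cast hn1) h3.le
      have h5 : (n : ℝ) * (S.D.a G * d) ≤ ((nm G + M ^ 17 : ℕ) : ℝ) * (S.D.a G * d) :=
        mul_le_mul_of_nonneg_right (by exact_mod_cast hn2) h3.le
      have h6 := hc1 G
      have h7 := hc2 G
      have e : d * (n * S.D.a G) = n * (S.D.a G * d) := by ring
      refine cc4_yard h β (hsub hβ) hββ (by linarith only [h1, h4, h6]) (by linarith only [h2, h5, h7]) ?_
      rw [cc4_freq (hsub hβ), mul_comm d, ← sub_mul, abs_mul, abs_of_pos hd]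
      have h8 := mul_le_mul_of_nonneg_right hcl hd.le
      have h9 : eG1 M * (n * (S.D.a G * d)) ≤ eG1 M * (3 * (M : ℝ) ^ 8000) :=
        mul_le_mul_of_nonneg_left (by linarith only [j1, j2, hU, h2, h5, h7]) e0.le
      linarith only [e0, e1, e2, h8, h9])
  have hB1 : 0 ≤ Real.exp ((M : ℝ) ^ 6) * (Real.exp (3 * (M : ℝ) ^ 6) * N0 / d) *
      Real.exp (2 - (M : ℝ) ^ 7997 / 4 - |S.D.freq α| * d) := by positivity
  have fin := atom_le_groups hp s hsm S.D.a S.D.T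
    (fun k => ((-S.D.sg k * S.D.W k * S.D.a k : ℝ) : ℂ)) has S.at' hat' gr hgr α hαs hαα _ hB1
    (fun ν hν => by
      obtain ⟨hν1, hν2, hν3⟩ := IsoA_mem.1 (mem_cls.1 hν).1
      rw [(hN α hαs hαα).2] at hν
      have h1 := cc4_mem hν
      have h2 := hslow ν hν
      have h3 := IsoA_near hgr has hν1
      have hG := hgr.mem _ hν1
      have hGG := hgr.idem _ hν1
      have hx : 0 < S.D.a (gr ν.1) * d := mul_pos (has _ hG) hd
      have h4 : |S.D.a ν.1 * d - S.D.a (gr ν.1) * d| ≤ eG1 M / 4 * (S.D.a (gr ν.1) * d) := by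
        rw [← sub_mul, abs_mul, abs_of_pos hd, ← mul_assoc]
        exact mul_le_mul_of_nonneg_right h3 hd.le
      have h5 : S.TA * (1 + 1 / (4 * M)) = t * M + t / 4 := by
        rw [ht]
        field_simp
      have h6 : eG1 M * M ≤ 1 / 6 := by
        have := hp.pow_mono (show 1 ≤ 8000 by norm_num)
        rw [pow_one] at this
        nlinarith only [e0, e2, this]
      obtain ⟨h4a, h4b⟩ := abs_le.1 h4
      have h7 : S.D.a (gr ν.1) * d ≤ t * M + t / 3 := by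
        have h8 : S.D.a (gr ν.1) * d ≤ 2 * (t * M) := by nlinarith only [e0, e1, ht1, htM, h2, hx, h5, h4a]
        have h9 : eG1 M * (S.D.a (gr ν.1) * d) ≤ eG1 M * (2 * (t * M)) :=
          mul_le_mul_of_nonneg_left h8 e0.le
        have h10 : t * (eG1 M * M) ≤ t * (1 / 6) := mul_le_mul_of_nonneg_left h6 (by linarith only [e0, e1, ht1])
        linarith only [h2, h5, h4a, h9, h10]
      have hGs : gr ν.1 ∈ slow := hsl.2 ⟨hG, by rwa [hGG]⟩
      obtain ⟨-, h8⟩ := hnm _ hGs hGG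
      have h9 := hc2 (gr ν.1)
      rw [Nat.cast_add, Nat.cast_mul, Nat.cast_pow, Nat.cast_ofNat] at hnear
      obtain ⟨n1, n2⟩ := abs_le.1 hnear
      have hn0 : (0 : ℝ) < ν.2 := by exact_mod_cast hν2
      have h10 : |ν.2 * (S.D.a ν.1 * d) - |S.D.freq α| * d| ≤ 1 := by
        rw [← mul_assoc, ← sub_mul, abs_mul, abs_of_pos hd]
        refine (mul_le_mul_of_nonneg_right h1 hd.le).trans ?_
        have h11 : eA1 M * (|S.D.freq α| * d) ≤ eG1 M * (3 * (M : ℝ) ^ 8000) :=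
          mul_le_mul a1 (by linarith only [j1, j2, hU, n2]) (by positivity) e0.le
        linarith only [e0, e1, e2, h11]
      obtain ⟨h10a, h10b⟩ := abs_le.1 h10
      have h11 : |ν.2 * (S.D.a (gr ν.1) * d) - |S.D.freq α| * d| ≤ 2 := by
        have h12 := mul_le_mul_of_nonneg_left h4a hn0.le
        have h13 := mul_le_mul_of_nonneg_left h4b hn0.le
        have hU1 : (1 : ℝ) ≤ (M : ℝ) ^ 7998 := one_le_pow₀ hp.one_le
        have hy : 0 < ν.2 * (S.D.a (gr ν.1) * d) := mul_pos hn0 hx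
        have h14 : ν.2 * (S.D.a (gr ν.1) * d) ≤ 3 * (M : ℝ) ^ 8000 := by nlinarith only [j1, j2, e0, e1, e2, n2, h10b, h12, h13, hU1]
        have h15 := mul_le_mul_of_nonneg_left h14 e0.le
        rw [abs_le]
        constructor <;> linarith only [e0, e1, e2, h10a, h13, h15, h10b, h12]
      obtain ⟨h11a, h11b⟩ := abs_le.1 h11
      have hU2 := hp.mul_pow_le (c := 2) (by norm_num) (show 0 < 7998 by norm_num)
      rw [pow_zero] at hU2
      have h12 : 4 * (M : ℝ) ^ 7998 ≤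
          ((ν.2 : ℝ) - (nm (gr ν.1) + M ^ 17 : ℕ)) * (S.D.a (gr ν.1) * d) := by
        rw [sub_mul]
        linarith only [h8, h9, n1, h11a, hU2]
      have h13 : ((nm (gr ν.1) + M ^ 17 : ℕ) : ℝ) ≤ ν.2 := by
        refine le_of_mul_le_mul_right ?_ hx
        linarith only [e0, e1, h8, h9, n1, h11a, hU2]
      have h14 : nm (gr ν.1) + M ^ 17 ≤ ν.2 := by exact_mod_cast h13
      refine (key _ hGs hGG (h14.trans hν3) ν.2 h14).mono ?_
      rw [pow_zero, inv_one, mul_one, mul_assoc, ← Real.exp_add]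
      refine mul_le_mul_of_nonneg_left (Real.exp_le_exp.2 ?_) (by positivity)
      have h15 := cc4_gain hM ht1 h7 (by linarith only [e0, e1, ht1, htM, h7]) rfl (pow_succ' (M : ℝ) 7997) h13 h12
      have e : d * (((nm (gr ν.1) + M ^ 17 : ℕ) : ℝ) * S.D.a (gr ν.1)) =
          ((nm (gr ν.1) + M ^ 17 : ℕ) : ℝ) * (S.D.a (gr ν.1) * d) := by ring
      linarith only [h11a, h15])
  rw [(hN α hαs hαα).1] at fin
  refine fin.trans ?_
  have h1 : Real.exp ((M : ℝ) ^ 4) * Real.exp ((M : ℝ) ^ 6) * Real.exp (3 * (M : ℝ) ^ 6) *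
      Real.exp (2 - (M : ℝ) ^ 7997 / 4 - |S.D.freq α| * d) ≤
      Real.exp (-(M : ℝ) ^ 9) * Real.exp (-(|S.D.freq α| * d)) := by
    rw [← Real.exp_add, ← Real.exp_add, ← Real.exp_add, ← Real.exp_add]
    refine Real.exp_le_exp.2 ?_
    have h2 := hp.mul_pow_le (c := 100) (by norm_num) (show 9 < 7997 by norm_num)
    have h3 := hp.pow_mono (show 4 ≤ 9 by norm_num)
    have h4 := hp.pow_mono (show 6 ≤ 9 by norm_num)
    have h5 : (1 : ℝ) ≤ (M : ℝ) ^ 9 := one_le_pow₀ hp.one_le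
    linarith only [e0, e1, h2, h3, h4, h5]
  calc _ = Real.exp ((M : ℝ) ^ 4) * Real.exp ((M : ℝ) ^ 6) * Real.exp (3 * (M : ℝ) ^ 6) *
      Real.exp (2 - (M : ℝ) ^ 7997 / 4 - |S.D.freq α| * d) * (N0 / d) := by ring
    _ ≤ Real.exp (-(M : ℝ) ^ 9) * Real.exp (-(|S.D.freq α| * d)) * (N0 / d) := by gcongr
    _ = _ := by ring

/-- one atom -/
theorem cc4_atom (h : S.CHyp ja d N0) {j : ℕ} {ω y α' : ℝ} (hω : 0 < ω)
    (hR : ∀ t : ℝ, |t| ≤ (M : ℝ) ^ 7446 → Reg M 1 (ja + 32 * M ^ 7998) d j (j / ω) ((y + t) / ω))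
    (hA : ∀ k ∈ S.A, S.TA * (1 + 1 / (4 * M)) < S.D.a k * d → ∀ n : ℕ, 1 ≤ n →
      ω / (2 * (M : ℝ) ^ 5715) ≤ |n * S.D.a k - ω * α'|)
    (hα' : |α' - 1| ≤ Real.pi / (M : ℝ) ^ 3994) (α : ι × ℕ) (hα : α ∈ S.PA1 d)
    (hαα : S.at' α = α) :
    ‖avg M (S.D.exps (cls S.PA S.at' α) S.D.cf) d j ω y α'‖ ≤
      2 * (Real.exp (-(M : ℝ) ^ 9) * N0 / (j / ω) ^ (j + 1)) := by
  have hp := S.par
  have hd := h.dpos
  have hN0 := h.pos
  obtain ⟨j1, j2⟩ := cc4_ja h
  obtain ⟨a0, a1, a2⟩ := cc4_eA hp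
  obtain ⟨hαP, hα8⟩ := mem_filter.1 hα
  rw [hαα] at hα8
  have hP : ∀ t : ℝ, |t| ≤ (M : ℝ) ^ 7446 → PReg M ja d j (j / ω) ((y + t) / ω) := fun t ht =>
    (cc4_reg hp hd (hR t ht)).preg hp hd
  have h0 : |(0 : ℝ)| ≤ (M : ℝ) ^ 7446 := by
    rw [abs_zero]
    exact (hp.pow_pos _).le
  have hP0 := hP 0 h0
  have hR0 := hR 0 h0
  obtain ⟨-, hD0, hDd⟩ := hP0.norm_le hp hd
  have hj4 : j ≤ 4 * M ^ 8000 := by
    have h1 := hP0.hj2
    have h2 := h.top.hi
    omega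
  have hj1 : (M : ℝ) ^ 8000 ≤ j := by
    have h1 := hP0.hj1
    have h2 := h.top.lo
    exact_mod_cast (by omega : M ^ 8000 ≤ j)
  have hz : ∀ t : ℝ, |t| ≤ (M : ℝ) ^ 7446 →
      |S.D.freq α| * ‖zp d (j / ω) ((y + t) / ω)‖ ≤ (M : ℝ) ^ 9000 := fun t ht => by
    have h1 := ((hP t ht).norm_le hp hd).1
    have h2 := mul_le_mul_of_nonneg_right (env_inv_le hp 5) hd.le
    have h3 := mul_le_mul_of_nonneg_left (show ‖zp d (j / ω) ((y + t) / ω)‖ ≤ 4 * d by linarith)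
      (abs_nonneg (S.D.freq α))
    have h4 := hp.mul_pow_le (c := 32) (by norm_num) (show 8000 < 9000 by norm_num)
    linarith
  have hre : ∀ τ : ℝ, (zp d (j / ω) τ).re = -d + j / ω := fun τ => by
    rw [zp, add_re, ofReal_re, mul_re, I_re, I_im, ofReal_im, zero_mul, mul_zero, sub_zero,
      add_zero]
  obtain ⟨q1, q2⟩ := probe_size h hP0 α hα hαα
  have hNA : 0 ≤ S.NA S.D.cf α := Nm_nonneg
  have hE : 0 < N0 / (j / ω) ^ (j + 1) := div_pos hN0 (pow_pos hD0 _)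
  have sup : S.NA S.D.cf α * |S.D.freq α| ^ j / (j.factorial : ℝ) *
      Real.exp (S.D.freq α * (-d + j / ω)) ≤ Real.exp (-(M : ℝ) ^ 9) * N0 / (j / ω) ^ (j + 1) →
      ‖avg M (S.D.exps (cls S.PA S.at' α) S.D.cf) d j ω y α'‖ ≤
        2 * (Real.exp (-(M : ℝ) ^ 9) * N0 / (j / ω) ^ (j + 1)) := fun hq =>
    avg_le_sup _ d j ω y α' _ fun t ht => by
      refine (exp_atom_bound hp S.D S.PA S.at' S.hat S.freq_ne _ α hαP hαα j hj4 _
        (hz t ht)).trans ?_
      rw [hre, mul_assoc]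
      exact mul_le_mul_of_nonneg_left hq zero_le_two
  by_cases c1 : 0 < S.D.freq α ∨ (M : ℝ) ^ 4005 ≤ |(j : ℝ) - |S.D.freq α| * (j / ω)|
  · refine sup ((q2 c1).trans ?_)
    rw [mul_div_assoc, mul_div_assoc]
    exact mul_le_mul_of_nonneg_right (Real.exp_le_exp.2 (by linarith [hp.pow_pos 9])) hE.le
  rw [not_or, not_lt, not_le] at c1
  have hneg : S.D.freq α < 0 := lt_of_le_of_ne c1.1 (S.freq_ne α hαP)
  have hab : |S.D.freq α| = -S.D.freq α := abs_of_neg hneg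
  have hl0 : 0 < |S.D.freq α| := by linarith
  obtain ⟨c2, c3⟩ := abs_lt.1 c1.2
  by_cases c4 : ∀ ν ∈ cls S.PA S.at' α, S.D.a ν.1 * d ≤ S.TA * (1 + 1 / (4 * M))
  · refine sup ?_
    have h1 : |S.D.freq α| * (d * (1 - ((M : ℝ) ^ 5)⁻¹)) ≤ |S.D.freq α| * (j / ω) :=
      mul_le_mul_of_nonneg_left hP0.hD1 hl0.le
    have h2 : |S.D.freq α| * (j / ω) ≤ |S.D.freq α| * d := mul_le_mul_of_nonneg_left hDd hl0.le
    have h3 : |S.D.freq α| * d * ((M : ℝ) ^ 5)⁻¹ ≤ 8 * (M : ℝ) ^ 7995 := by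
      have h9 : (M : ℝ) ^ 8000 * ((M : ℝ) ^ 5)⁻¹ = (M : ℝ) ^ 7995 := cb_pow_mul_inv hp 5 7995
      rw [← h9, ← mul_assoc 8]
      exact mul_le_mul_of_nonneg_right hα8 (inv_nonneg.2 (hp.pow_pos _).le)
    obtain ⟨h4, h5⟩ := abs_le.1 hR0.hj
    have h6 := hp.pow_mono (show 4005 ≤ 7995 by norm_num)
    have h7 := hp.pow_mono (show 7994 ≤ 7995 by norm_num)
    have h8 := hp.mul_pow_le (c := 10) (by norm_num) (show 7995 < 7998 by norm_num)
    have h9 := slow_atom h α hαP hαα hneg (abs_le.2 ⟨by linarith only [c2, c3, h2, h4, h6, h7, h8], by linarith only [c2, h1, h3, h5, h6, h7, h8]⟩) c4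
    have h10 : (|S.D.freq α| * (j / ω)) ^ j / (j.factorial : ℝ) ≤
        Real.exp (|S.D.freq α| * (j / ω)) := Real.pow_div_factorial_le_exp _ (by positivity) j
    have h11 : Real.exp (S.D.freq α * (-d + j / ω)) * Real.exp (-(|S.D.freq α| * d)) *
        Real.exp (|S.D.freq α| * (j / ω)) = 1 := by
      rw [← Real.exp_add, ← Real.exp_add, hab, ← Real.exp_zero]
      congr 1
      ring
    have hf : (0 : ℝ) < j.factorial := by exact_mod_cast j.factorial_pos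
    have hE9 := Real.exp_pos (-(M : ℝ) ^ 9)
    have hx1 := Real.exp_pos (S.D.freq α * (-d + j / ω))
    have hx2 := Real.exp_pos (-(|S.D.freq α| * d))
    generalize Real.exp (-(M : ℝ) ^ 9) = E9 at h9 hE9 ⊢
    generalize Real.exp (S.D.freq α * (-d + j / ω)) = x1 at h11 hx1 ⊢
    generalize Real.exp (-(|S.D.freq α| * d)) = x2 at h11 hx2 h9
    generalize Real.exp (|S.D.freq α| * (j / ω)) = x3 at h11 h10
    generalize (j : ℝ) / ω = Dd at h10 hD0 hDd ⊢
    rw [le_div_iff₀ (pow_pos hD0 _)]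
    rw [le_div_iff₀ hd] at h9
    calc _ = S.NA S.D.cf α * Dd * x1 * ((|S.D.freq α| * Dd) ^ j / (j.factorial : ℝ)) := by
          rw [mul_pow]
          ring
      _ ≤ S.NA S.D.cf α * d * x1 * x3 := by gcongr
      _ ≤ E9 * N0 * x2 * x1 * x3 := by
          have : 0 ≤ x3 := le_trans (by positivity) h10
          gcongr
      _ = E9 * N0 * (x1 * x2 * x3) := by ring
      _ = _ := by rw [h11, mul_one]
  · simp only [not_forall, not_le] at c4
    obtain ⟨ν, hν, hfast⟩ := c4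
    obtain ⟨hν1, hν2, -⟩ := S.env_PA.1 (mem_cls.1 hν).1
    have h1 := hA ν.1 hν1 hfast ν.2 hν2
    have h2 := cc4_mem hν
    obtain ⟨β, hβ⟩ : ∃ β, |S.D.freq α| = β * ω :=
      ⟨|S.D.freq α| / ω, (div_mul_cancel₀ _ hω.ne').symm⟩
    have hβ0 : 0 < β := by
      rw [hβ] at hl0
      exact (pos_iff_pos_of_mul_pos hl0).2 hω
    have hR1 := inv_pos.2 (hp.pow_pos 3995)
    have h3 : |β - 1| ≤ ((M : ℝ) ^ 3995)⁻¹ := by
      have h4 := c1.2
      have h5 : (j : ℝ) - |S.D.freq α| * (j / ω) = -(β - 1) * j := by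
        rw [hβ]
        field_simp
        ring
      have h6 : (M : ℝ) ^ 8000 * ((M : ℝ) ^ 3995)⁻¹ = (M : ℝ) ^ 4005 :=
        cb_pow_mul_inv hp 3995 4005
      have h7 := hp.pow_pos 8000
      rw [h5, abs_mul, abs_neg, Nat.abs_cast, ← h6, mul_comm] at h4
      exact le_of_mul_le_mul_left ((mul_le_mul_of_nonneg_right hj1 (abs_nonneg _)).trans h4.le) h7
    have hβ2 : β ≤ 2 := by linarith only [h3, le_abs_self (β - 1), env_inv_le hp 3995]
    have h4 : ((M : ℝ) ^ 5715)⁻¹ / 4 ≤ |β - α'| := by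
      have h5 := abs_sub_le (ν.2 * S.D.a ν.1) (β * ω) (ω * α')
      have h6 : |β * ω - ω * α'| = |β - α'| * ω := by
        rw [mul_comm ω, ← sub_mul, abs_mul, abs_of_pos hω]
      have h7 : ω / (2 * (M : ℝ) ^ 5715) = ((M : ℝ) ^ 5715)⁻¹ / 2 * ω := by
        rw [div_eq_mul_inv, mul_inv]
        ring
      have h8 : eA1 M * β ≤ ((M : ℝ) ^ 5715)⁻¹ / 2 * 2 :=
        mul_le_mul a2 hβ2 hβ0.le (a0.le.trans a2)
      have h9 := mul_le_mul_of_nonneg_right h8 hω.le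
      rw [hβ] at h2
      refine le_of_mul_le_mul_right ?_ hω
      linarith only [h1, h2, h5, h6, h7, h9]
    have h5 : |β - α'| ≤ 3 / 2 * Real.pi / (M : ℝ) ^ 3994 := by
      have q1 := abs_sub_le β 1 α'
      have q2 := hp.inv_pow_le (c := 1) (by norm_num) (i := 3994) (k := 3995) (by norm_num)
      have q3 := mul_le_mul_of_nonneg_right (show 2 ≤ Real.pi by linarith only [Real.pi_gt_three])
        (inv_nonneg.2 (hp.pow_pos 3994).le)
      rw [abs_sub_comm 1 α'] at q1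
      rw [div_eq_mul_inv] at hα'
      rw [div_eq_mul_inv (3 / 2 * Real.pi)]
      linarith only [hα', h3, q1, q2, q3]
    have hu : ∀ k ∈ cls S.PA S.at' α, ‖rv (fun ν => (S.D.freq ν : ℂ)) S.at' (eA1 M) k‖ ≤ 1 :=
      fun k hk => (S.hat.rv_le a0 S.env_freq_ne k (mem_cls.1 hk).1).trans (by norm_num)
    have hz0 := hz 0 h0
    rw [add_zero] at hz0
    have m1 := ((avg_mu hp _ _ (fun _ => 0) hu (fun _ _ => by simp) (eA1 M) β α' a0.le
      (obj_eAC hp) hβ0.le hβ2 h4 h5).mul (exp_atom_mu hp S.D S.PA S.at' S.hat S.freq_ne α hαP hαα j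
        hj4 _ hz0)).apply (nb_Nm (g := S.D.cf) hu fun _ _ => by simp)
    refine le_trans (le_of_eq (congrArg norm ?_)) (m1.trans ?_)
    · unfold avg Dat.exps
      simp only [mul_sum, sum_mul]
      rw [sum_comm]
      refine sum_congr rfl fun k hk => sum_congr rfl fun i _ => ?_
      have h6 := rv_eq (f := fun ν => (S.D.freq ν : ℂ)) (rep := S.at') a0.ne' (k := k)
        (S.env_freq_ne _ (S.hat.mem k (mem_cls.1 hk).1))
      rw [(mem_cls.1 hk).2, show S.D.freq α = -(β * ω) by linarith only [hab, hβ], ofReal_neg] at h6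
      rw [cc4_shift d (j / ω) y _ j hω.ne' h6]
      ring
    · rw [hre]
      have h6 : Real.exp (-((M : ℝ) ^ 10 / 1000)) * Real.exp (2 * (M : ℝ) ^ 6 + M) ≤
          Real.exp (-(M : ℝ) ^ 9) := by
        rw [← Real.exp_add]
        refine Real.exp_le_exp.2 ?_
        have h7 := hp.mul_pow_le (c := 4000) (by norm_num) (show 9 < 10 by norm_num)
        have h8 := hp.pow_mono (show 6 ≤ 9 by norm_num)
        have h9 := hp.pow_mono (show 1 ≤ 9 by norm_num)
        rw [pow_one] at h9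
        linarith only [h7, h8, h9]
      rw [mul_div_assoc (Real.exp _)] at q1 ⊢
      calc _ = 2 * (Real.exp (-((M : ℝ) ^ 10 / 1000)) * (S.NA S.D.cf α * |S.D.freq α| ^ j /
            (j.factorial : ℝ) * Real.exp (S.D.freq α * (-d + j / ω)))) := by
            rw [Setup.NA, Dat.NA]
            ring
        _ ≤ 2 * (Real.exp (-((M : ℝ) ^ 10 / 1000)) * (Real.exp (2 * (M : ℝ) ^ 6 + M) *
            (N0 / (j / ω) ^ (j + 1)))) :=
            mul_le_mul_of_nonneg_left (mul_le_mul_of_nonneg_left q1 (Real.exp_pos _).le) zero_le_two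
        _ ≤ _ := by
            rw [← mul_assoc (Real.exp _)]
            exact mul_le_mul_of_nonneg_left (mul_le_mul_of_nonneg_right h6 hE.le) zero_le_two

/-- Per atom `α`, `λ = |freq α|`, `Dd = j / ω`.  If `freq α > 0` or `M^4005 ≤ |j - λ Dd|` use
`probe_size` at every point of the average (`exp_atom_bound`, `avg_le_sup`).  Otherwise `β = λ / ω`
satisfies `|β - 1| ≤ 2 M^{-3995}`; if the atom has a fast member then `M^{-5715}/4 ≤ |β - α'|` and
the average is `ec μ j (zp d Dd (y/ω))` times the multiplier of `avg_mu` (`μ = -λ (1 + eA1 u)`);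
if all members are slow use `slow_atom` and `(λ Dd)^j exp (-λ Dd) / j! ≤ 1`. -/
theorem avg_A (h : S.CHyp ja d N0) {j : ℕ} {ω y α' : ℝ} (hω : 0 < ω)
    (hR : ∀ t : ℝ, |t| ≤ (M : ℝ) ^ 7446 → Reg M 1 (ja + 32 * M ^ 7998) d j (j / ω) ((y + t) / ω))
    (hA : ∀ k ∈ S.A, S.TA * (1 + 1 / (4 * M)) < S.D.a k * d → ∀ n : ℕ, 1 ≤ n →
      ω / (2 * (M : ℝ) ^ 5715) ≤ |n * S.D.a k - ω * α'|)
    (hα' : |α' - 1| ≤ Real.pi / (M : ℝ) ^ 3994) :
    ‖avg M (S.D.exps (S.PA1 d) S.D.cf) d j ω y α'‖ ≤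
      Real.exp (-(M : ℝ) ^ 8) * N0 / (j / ω) ^ (j + 1) := by
  classical
  have hp := S.par
  have e1 : S.D.exps (S.PA1 d) S.D.cf = fun j z => ∑ r ∈ (S.PA1 d).filter (fun r => S.at' r = r),
      S.D.exps (cls S.PA S.at' r) S.D.cf j z := by
    funext j z
    exact sum_cls S.hat.mem S.hat.idem (filter_subset _ _) (PA1_sat d) _
  have hc : (((S.PA1 d).filter (fun r => S.at' r = r)).card : ℝ) ≤ (M : ℝ) ^ 264 := by
    have h1 := (card_filter_le (S.PA1 d) (fun r => S.at' r = r)).trans (card_filter_le _ _)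
    have h2 := S.card_PA
    exact_mod_cast h1.trans ((Nat.le_mul_of_pos_left _ two_pos).trans h2)
  have hE : 0 ≤ N0 / (j / ω) ^ (j + 1) := div_nonneg h.pos.le (by positivity)
  rw [e1, cc4_avg_sum]
  refine (env_sum _ _ ?_ (fun r hr => cc4_atom h hω hR hA hα' r (mem_filter.1 hr).1
    (mem_filter.1 hr).2) hc).trans ?_
  · rw [mul_div_assoc]
    exact mul_nonneg zero_le_two (mul_nonneg (Real.exp_pos _).le hE)
  · rw [mul_div_assoc, mul_div_assoc, ← mul_assoc, ← mul_assoc]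
    refine mul_le_mul_of_nonneg_right ?_ hE
    have h1 := (hp.mul_pow_le (c := 2) (k := 265) (i := 264) (by norm_num) (by norm_num)).trans
      (hp.pow_le_exp (by norm_num))
    rw [mul_comm] at h1
    refine (mul_le_mul_of_nonneg_right h1 (Real.exp_pos _).le).trans ?_
    rw [← Real.exp_add]
    refine Real.exp_le_exp.2 ?_
    have h2 := hp.mul_pow_le (c := 2) (by norm_num) (show 8 < 9 by norm_num)
    have h3 := hp.pow_mono (show 1 ≤ 8 by norm_num)
    rw [pow_one] at h3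
    linarith

end Setup

end Pool.Agent.Work.MP_97f157_lc.Tau
end
end

-- merged part: Pool.Agent.Work.MP_97f157_lc.TauFinal
section
-- merged part: Pool.Agent.Work.MP_97f157_lc.TauCC5
section
/-! The middle case. -/

noncomputable section
open Complex Finset Metric

namespace Pool.Agent.Work.MP_97f157_lc.Tau

variable {ι : Type*} {m M : ℕ}

theorem cc5_exp (hp : Par m M) {a b : ℝ} (h : a + M ≤ b) : 8 * Real.exp a ≤ Real.exp b := by
  have h1 := hp.bigR
  have h2 := Real.add_one_le_exp (M : ℝ)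
  have h3 : (8 : ℝ) ≤ 10 ^ 12 := by norm_num
  have h4 : Real.exp a * 8 ≤ Real.exp a * Real.exp M :=
    mul_le_mul_of_nonneg_left (by linarith only [h1, h2]) (Real.exp_pos _).le
  rw [← Real.exp_add] at h4
  have h5 := Real.exp_le_exp.2 h
  linarith only [h4, h5]

theorem cc5_inv (hp : Par m M) {k : ℕ} (hk : 2 ≤ k) :
    0 < ((M : ℝ) ^ k)⁻¹ ∧ ((M : ℝ) ^ k)⁻¹ ≤ ((M : ℝ) ^ 2)⁻¹ :=
  ⟨inv_pos.2 (hp.pow_pos _), inv_anti₀ (hp.pow_pos _) (hp.pow_mono hk)⟩

theorem cc5_eps (hp : Par m M) : ∃ e : ℝ, 0 < e ∧ e ≤ 1 / 1000 ∧ ((M : ℝ) ^ 2)⁻¹ = e ^ 2 ∧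
    1 / (2 * (M : ℝ)) = e / 2 ∧ 1 / (4 * (M : ℝ)) = e / 4 := by
  have h0 := hp.pos
  have h1 := hp.bigR
  refine ⟨(M : ℝ)⁻¹, inv_pos.2 h0, ?_, by rw [inv_pow], ?_, ?_⟩
  · rw [one_div]
    refine inv_anti₀ (by norm_num) (le_trans (by norm_num) h1)
  · field_simp
  · field_simp

theorem cc5_pows (hp : Par m M) : (M : ℝ) + (M : ℝ) ^ 5 ≤ (M : ℝ) ^ 6 ∧ (M : ℝ) ^ 6 ≤ (M : ℝ) ^ 8 ∧
    12 * (M : ℝ) ^ 8 ≤ (M : ℝ) ^ 10 ∧ (M : ℝ) ^ 7 ≤ (M : ℝ) ^ 8 := by
  have r1 : (M : ℝ) ≤ (M : ℝ) ^ 5 := by simpa using hp.pow_mono (i := 1) (k := 5) (by norm_num)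
  have r2 : 2 * (M : ℝ) ^ 5 ≤ (M : ℝ) ^ 6 := hp.mul_pow_le (by norm_num) (by norm_num)
  exact ⟨by linarith only [r1, r2], hp.pow_mono (by norm_num), hp.mul_pow_le (by norm_num) (by norm_num),
    hp.pow_mono (by norm_num)⟩

namespace Setup
variable {S : Setup ι m M} {ja : ℕ} {d N0 : ℝ}

theorem cc5_Wb {k : ι} : k ∈ S.Wb d ↔
    k ∈ S.C ∧ |S.D.x (S.cl k) + d| ≤ ((M : ℝ) ^ 7989)⁻¹ * d := mem_filter

theorem cc5_cls {r : ι} (hr : r ∈ S.Wb d) (hrr : S.cl r = r) :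
    cls (S.Wb d) S.cl r = cls S.C S.cl r := by
  classical
  ext k
  unfold cls
  simp only [mem_filter, cc5_Wb]
  refine ⟨fun h => ⟨h.1.1, h.2⟩, fun h => ⟨⟨h.1, ?_⟩, h.2⟩⟩
  have := (cc5_Wb.1 hr).2
  rw [hrr] at this
  rw [h.2]
  exact this

theorem cc5_NC {r : ι} (hr : r ∈ S.Wb d) (hrr : S.cl r = r) :
    Dat.NC { S.D with s := S.Wb d } M (S.Wb d) S.cl r = S.NC r := by
  unfold Pre.NC Dat.NC
  rw [cc5_cls hr hrr]

theorem cc5_band (hd : 0 < d) {k : ι} (hk : k ∈ S.Wb d) :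
    |S.D.x k + d| ≤ 2 * ((M : ℝ) ^ 7989)⁻¹ * d := by
  have hp := S.par
  obtain ⟨h1, h2⟩ := cc5_Wb.1 hk
  have h3 := S.hcl.nearx k h1
  have h4 : eC1 M ≤ ((M : ℝ) ^ 7989)⁻¹ := inv_anti₀ (hp.pow_pos _) (hp.pow_mono (by norm_num))
  have h5 : ((M : ℝ) ^ 7989)⁻¹ ≤ 1 := env_inv_le hp _
  have h6 : 0 < ((M : ℝ) ^ 7989)⁻¹ := inv_pos.2 (hp.pow_pos _)
  generalize ((M : ℝ) ^ 7989)⁻¹ = e at *
  have h7 : e * d ≤ d := mul_le_of_le_one_left hd.le h5
  have h8 : |S.D.x (S.cl k)| ≤ 2 * d := by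
    rw [abs_le] at h2 ⊢
    constructor <;> linarith only [h2, h7, hd, h2.1, h2.2]
  have h9 : eC1 M / 4 * |S.D.x (S.cl k)| ≤ e / 4 * (2 * d) :=
    mul_le_mul (by linarith only [h4]) h8 (abs_nonneg _) (by linarith only [h6])
  have h10 : 0 ≤ e * d := (mul_pos h6 hd).le
  rw [abs_le] at h2 h3 ⊢
  constructor <;> linarith only [h3, h2, h9, h2.1, h2.2, h3.1, h3.2]

theorem cc5_abs (hd : 0 < d) {k : ι} (hk : k ∈ S.Wb d) :
    (1 - 2 * ((M : ℝ) ^ 2)⁻¹) * d ≤ |S.D.x k| ∧ |S.D.x k| ≤ (1 + 2 * ((M : ℝ) ^ 2)⁻¹) * d := by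
  have h1 := cc5_band hd hk
  obtain ⟨-, h3⟩ := cc5_inv S.par (k := 7989) (by norm_num)
  have h4 := mul_le_mul_of_nonneg_right h3 hd.le
  have h5 := (cc5_inv S.par (k := 2) le_rfl).1
  have h6 := mul_pos h5 hd
  generalize ((M : ℝ) ^ 7989)⁻¹ = e at *
  rw [abs_le] at h1
  refine ⟨le_trans (by linarith only [h1, h4, h1.2]) (neg_le_abs _), abs_le.2 ⟨by linarith only [h1, h4, h1.1], ?_⟩⟩
  have h7 : ((M : ℝ) ^ 2)⁻¹ * d ≤ d := mul_le_of_le_one_left hd.le (env_inv_le S.par _)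
  linarith only [hd, h1, h4, h1.2]

theorem cc5_lev (h : S.CHyp ja d N0) {r : ι} (hr : r ∈ S.Wb d) (hrr : S.cl r = r) {ω : ℝ}
    (hω : |ω * d - ((ja + 32 * M ^ 7998 : ℕ) : ℝ)| ≤ (M : ℝ) ^ 7998) :
    S.NC r * Real.exp (ω * (S.D.x r + d)) ≤ N0 := by
  have hp := S.par
  have hd := h.dpos
  have hN := h.pos
  have hrC := (cc5_Wb.1 hr).1
  obtain ⟨e, e0, e1, e2, -⟩ := cc5_eps hp
  have h1 := cc5_band hd hr
  obtain ⟨-, h3⟩ := cc5_inv S.par (k := 7989) (by norm_num)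
  have h4 := mul_le_mul_of_nonneg_right h3 hd.le
  rw [e2] at h4
  have h5 : e ^ 2 * d ≤ 1 / 4 * d := mul_le_mul_of_nonneg_right (by nlinarith only [e0, e1]) hd.le
  have hx : S.D.x r < 0 := by
    rw [abs_le] at h1
    linarith only [hd, h1, h4, h5, h1.2]
  set t : ℝ := (S.D.x r + d) / d with ht
  have hxt : |S.D.x r| = d * (1 - t) := by
    rw [abs_of_neg hx, ht]
    field_simp
    ring
  have h1t : 0 < 1 - t := by
    have : 0 < d * (1 - t) := hxt ▸ abs_pos.2 hx.ne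
    exact (mul_pos_iff_of_pos_left hd).1 this
  have key : ∀ i : ℕ, ja ≤ i → i ≤ ja + 64 * M ^ 7998 → t * (ω * d - (i + 1)) ≤ 0 →
      S.NC r * Real.exp (ω * (S.D.x r + d)) ≤ N0 := by
    intro i hi1 hi2 hs
    have a1 := h.top.top r hrC hrr i hi1 hi2
    rw [hxt, mul_pow, div_le_div_iff₀ (mul_pos (pow_pos hd _) (pow_pos h1t _)) (pow_pos hd _),
      mul_left_comm, mul_comm] at a1
    have a2 := le_of_mul_le_mul_left a1 (pow_pos hd _)
    have a3 : (1 - t) ^ (i + 1) ≤ Real.exp (-t * (i + 1)) := by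
      have := pow_le_pow_left₀ h1t.le (Real.one_sub_le_exp_neg t) (i + 1)
      rw [← Real.exp_nat_mul] at this
      refine this.trans (le_of_eq ?_)
      congr 1
      push_cast
      ring
    have a4 : S.NC r ≤ N0 * Real.exp (-t * (i + 1)) :=
      a2.trans (mul_le_mul_of_nonneg_left a3 hN.le)
    refine (mul_le_mul_of_nonneg_right a4 (Real.exp_pos _).le).trans ?_
    rw [mul_assoc, ← Real.exp_add]
    refine mul_le_of_le_one_right hN.le (Real.exp_le_one_iff.2 ?_)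
    have a5 : S.D.x r + d = t * d := by
      rw [ht]
      field_simp
    rw [a5]
    linarith only [hs]
  have hU : (1 : ℝ) ≤ (M : ℝ) ^ 7998 := one_le_pow₀ hp.one_le
  rw [Nat.cast_add, Nat.cast_mul, Nat.cast_pow, Nat.cast_ofNat, abs_le] at hω
  rcases le_total 0 t with h0 | h0
  · refine key (ja + 64 * M ^ 7998) (Nat.le_add_right _ _) le_rfl
      (mul_nonpos_of_nonneg_of_nonpos h0 ?_)
    rw [Nat.cast_add, Nat.cast_mul, Nat.cast_pow, Nat.cast_ofNat]
    linarith only [hω, e0, e1, hU, hω.2]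
  · refine key ja le_rfl (Nat.le_add_right _ _) (mul_nonpos_of_nonpos_of_nonneg h0 ?_)
    linarith only [hω, e0, e1, hU, hω.1]

theorem cc5_F1 (hd : 0 < d) : S.F1 d = fun j z => (fun j z => (fun j z =>
    S.D.lat (S.Wb d) j z + S.D.lat (S.C2 d) j z) j z + S.D.poles (S.PB1 d) j z) j z +
      S.D.exps (S.PA1 d) S.D.cf j z := by
  funext j z
  unfold F1
  rw [lat_C1 hd]

theorem cc5_small (h : S.CHyp ja d N0) (hn : ¬ S.Hit ja d N0) {j : ℕ} {Dd τ : ℝ}
    (hR : PReg M ja d j Dd τ) :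
    ‖S.F1 d j (zp d Dd τ)‖ ≤ Real.exp (-(M : ℝ) ^ 6) * N0 / Dd ^ (j + 1) := by
  obtain ⟨h1, h2, h3⟩ := hR.norm_le S.par h.dpos
  by_contra hc
  refine hn ⟨j, zp d Dd τ, hR.hj1, hR.hj2, h1, le_trans ?_ (not_le.1 hc).le⟩
  exact div_le_div_of_nonneg_left (mul_pos (Real.exp_pos _) h.pos).le (pow_pos h2 _)
    (pow_le_pow_left₀ h2.le h3 _)

/-- the final contradiction -/
theorem cc5_contra (hp : Par m M) {N P : ℝ} (hN : 0 < N) (hP : 0 < P) {f w c b a : ℂ}
    (hf : f = w + c + b + a) (h1 : ‖f‖ ≤ Real.exp (-(M : ℝ) ^ 6) * N / P)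
    (h2 : ‖c‖ ≤ Real.exp (-(M : ℝ) ^ 8) * N / P) (h3 : ‖b‖ ≤ 2 * (Real.exp (-(M : ℝ) ^ 8) * N / P))
    (h4 : ‖a‖ ≤ Real.exp (-(M : ℝ) ^ 8) * N / P)
    (hbig : Real.exp (-(M : ℝ) ^ 5) * N ≤ ‖w‖ * P) : False := by
  obtain ⟨r1, r2, -, -⟩ := cc5_pows hp
  have e1 : w = f - c - b - a := by rw [hf]; ring
  have e2 : ‖w‖ ≤ ‖f‖ + ‖c‖ + ‖b‖ + ‖a‖ := by
    rw [e1]
    exact (norm_sub_le _ _).trans (add_le_add_left ((norm_sub_le _ _).trans
      (add_le_add_left (norm_sub_le _ _) _)) _)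
  have hL : 0 < N / P := div_pos hN hP
  rw [← div_le_iff₀ hP] at hbig
  simp only [mul_div_assoc] at h1 h2 h3 h4 hbig
  generalize N / P = L at *
  have u1 : Real.exp (-(M : ℝ) ^ 8) * L ≤ Real.exp (-(M : ℝ) ^ 6) * L :=
    mul_le_mul_of_nonneg_right (Real.exp_le_exp.2 (by linarith only [r2])) hL.le
  have u2 := mul_le_mul_of_nonneg_right (cc5_exp hp (a := -(M : ℝ) ^ 6) (b := -(M : ℝ) ^ 5)
    (by linarith only [r1])) hL.le
  have u3 : 0 < Real.exp (-(M : ℝ) ^ 6) * L := mul_pos (Real.exp_pos _) hL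
  linarith only [e2, h1, h2, h3, h4, hbig, u1, u2, u3]

/-- The band as a `CDat`: `D = {S.D with s := Wb d}`, `cl = S.cl`, `jc = ja + 32 M^7998`, `g0` from
`att`.  The band is a union of clusters, so `cls (Wb d) cl r = cls C cl r`.  `lev`: with
`t = (x r + d)/d`, `top` gives `NC r ≤ N0 (1-t)^(i+1) ≤ N0 exp (-t (i+1))` for `i = ja` and
`i = ja + 64 M^7998`. -/
theorem exists_cdat (h : S.CHyp ja d N0) : ∃ C : CDat ι m M, C.D = { S.D with s := S.Wb d } ∧
    C.d = d ∧ C.N0 = N0 ∧ C.jc = ja + 32 * M ^ 7998 := by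
  have hp := S.par
  have hd := h.dpos
  have hN := h.pos
  obtain ⟨r, hr1, hr2, hr3, hr4⟩ := h.top.att.resolve_left hN.ne'
  have hsub : ∀ k ∈ S.Wb d, k ∈ S.C := fun k hk => (cc5_Wb.1 hk).1
  have hrW : r ∈ S.Wb d := by
    refine cc5_Wb.2 ⟨hr1, ?_⟩
    rw [hr2, hr3, neg_add_cancel, abs_zero]
    exact (mul_pos (inv_pos.2 (hp.pow_pos _)) hd).le
  obtain ⟨e, e0, e1, e2, -⟩ := cc5_eps hp
  have e3 : e ^ 2 * d ≤ 1 / 4 * d := mul_le_mul_of_nonneg_right (by nlinarith only [e0, e1]) hd.le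
  refine ⟨
    { D := { S.D with s := S.Wb d }
      cl := S.cl
      d := d
      N0 := N0
      jc := ja + 32 * M ^ 7998
      g0 := r
      par := hp
      card := (card_filter_le _ _).trans S.env_cardC
      nfl := fun k hk => S.nfl_C k (hsub k hk)
      dpos := hd
      N0pos := hN
      clus := ⟨fun k hk => ?_, fun k hk => S.hcl.idem k (hsub k hk),
        fun k hk => S.hcl.neara k (hsub k hk), fun k hk => S.hcl.nearx k (hsub k hk),
        fun k hk k' hk' => S.hcl.sep k (hsub k hk) k' (hsub k' hk')⟩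
      jlo := h.top.lo.trans (Nat.le_add_right _ _)
      jhi := le_trans (Nat.add_le_add_left (Nat.mul_le_mul_right _ (by norm_num)) _) h.top.hi
      band := fun k hk => cc5_band hd hk
      alo := fun k hk => ?_
      ahi := fun k hk => ?_
      g0mem := hrW
      g0rep := hr2
      g0x := hr3
      g0N := (cc5_NC hrW hr2).trans hr4
      lev := fun k hk hkk ω hω => ?_ }, rfl, rfl, rfl, rfl⟩
  · refine cc5_Wb.2 ⟨S.hcl.mem k (hsub k hk), ?_⟩
    rw [S.hcl.idem k (hsub k hk)]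
    exact (cc5_Wb.1 hk).2
  · obtain ⟨a1, a2, -⟩ := S.env_C.1 (hsub k hk)
    have a3 := (cc5_abs hd hk).2
    rw [e2] at a3
    have a4 : S.D.a k * |S.D.x k| ≤ S.D.a k * (2 * d) :=
      mul_le_mul_of_nonneg_left (by linarith only [hd, e3, a3]) (S.apos k a1).le
    have a5 := S.TB1
    change _ ≤ S.D.a k * d
    unfold Dat.T at a2
    linarith only [a2, a4, a5]
  · obtain ⟨a1, -, a2⟩ := S.env_C.1 (hsub k hk)
    have a3 := (cc5_abs hd hk).1
    rw [e2] at a3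
    have a4 : S.D.a k * (d / 2) ≤ S.D.a k * |S.D.x k| :=
      mul_le_mul_of_nonneg_left (by linarith only [e3, a3]) (S.apos k a1).le
    have a5 := S.TA2
    change S.D.a k * d ≤ _
    unfold Dat.T at a2
    linarith only [a2, a4, a5]
  · have a1 := cc5_lev h hk hkk hω
    rw [cc5_NC hk hkk]
    change S.NC k * Real.exp (ω * (S.D.x k + d)) ≤ _
    linarith only [hN, a1]

/-- `HH = sp ∘ a` on `{k ∈ B | (1 - 2 M^{-2}) d ≤ |x k|}`, `AA = a` on
`{k ∈ A | TA (1 + 1/(4M)) < a k d}`, `LL = |freq|` on `PA` (`gapB`, `TB2`, `card_PA`) -/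
theorem exists_dodge (C : CDat ι m M) (hD : C.D = { S.D with s := S.Wb d })
    (hd : C.d = d) : ∃ HH AA LL : Finset ℝ, C.Dodge HH AA LL ∧
      (∀ k ∈ S.B, (1 - 2 * ((M : ℝ) ^ 2)⁻¹) * d ≤ |S.D.x k| → sp (S.D.a k) ∈ HH) ∧
      (∀ k ∈ S.A, S.TA * (1 + 1 / (4 * M)) < S.D.a k * d → S.D.a k ∈ AA) ∧
      (∀ α ∈ S.PA, |S.D.freq α| ∈ LL) := by
  classical
  have hp := S.par
  have hd0 : 0 < d := hd ▸ C.dpos
  obtain ⟨e, e0, e1, e2, e3, e4⟩ := cc5_eps hp
  have e5 : e ^ 2 ≤ e / 1000 := by nlinarith only [e0, e1]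
  have hpi := Real.pi_gt_three
  refine ⟨(S.B.filter fun k => (1 - 2 * ((M : ℝ) ^ 2)⁻¹) * d ≤ |S.D.x k|).image
      fun k => sp (S.D.a k),
    (S.A.filter fun k => S.TA * (1 + 1 / (4 * M)) < S.D.a k * d).image S.D.a,
    S.PA.image fun α => |S.D.freq α|,
    ⟨card_image_le.trans ((card_filter_le _ _).trans S.env_cardB),
      card_image_le.trans ((card_filter_le _ _).trans S.env_cardA),
      card_image_le.trans (le_trans (Nat.le_mul_of_pos_left _ two_pos) S.card_PA), ?_, ?_⟩,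
    fun k hk h => mem_image_of_mem _ (mem_filter.2 ⟨hk, h⟩),
    fun k hk h => mem_image_of_mem _ (mem_filter.2 ⟨hk, h⟩),
    fun α hα => mem_image_of_mem _ hα⟩
  · intro b hb
    obtain ⟨k0, hk0, rfl⟩ := mem_image.1 hb
    obtain ⟨a1, a2⟩ := mem_filter.1 hk0
    obtain ⟨a3, a4⟩ := S.env_B.1 a1
    have a5 := S.apos k0 a3
    unfold Dat.T at a4
    rw [e2] at a2
    have a6 : S.D.a k0 * ((1 - 2 * e ^ 2) * d) ≤ S.TB :=
      (mul_le_mul_of_nonneg_left a2 a5.le).trans a4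
    have a7 : 0 < S.D.a k0 * d := mul_pos a5 hd0
    refine ⟨?_, fun k hk => ?_⟩
    · rw [hd, sp, div_le_div_iff₀ (hp.pow_pos _) a5]
      have b1 := S.TB2
      have b2 : (M : ℝ) ^ 267 ≤ (M : ℝ) ^ 268 := hp.pow_mono (by norm_num)
      have b3 := hp.pow_pos 268
      have b4 : 1 / 2 * (S.D.a k0 * d) ≤ (1 - 2 * e ^ 2) * (S.D.a k0 * d) :=
        mul_le_mul_of_nonneg_right (by linarith only [e0, e1, e5]) a7.le
      generalize (M : ℝ) ^ 267 = X at *
      generalize (M : ℝ) ^ 268 = Y at *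
      nlinarith only [e0, e1, e5, hpi, a6, a7, b1, b3, b2]
    · rw [hD] at hk ⊢
      change k ∈ S.Wb d at hk
      change _ * sp (S.D.a k) ≤ _
      obtain ⟨b1, b2, -⟩ := S.env_C.1 (cc5_Wb.1 hk).1
      have b3 := (S.gapB k b1).resolve_left (not_le.2 b2)
      have b4 := (cc5_abs hd0 hk).2
      have b5 := S.apos k b1
      unfold Dat.T at b3
      rw [e2] at b4
      rw [e3] at b3
      have b6 : S.TB * (1 + e / 2) ≤ S.D.a k * ((1 + 2 * e ^ 2) * d) :=
        b3.trans (mul_le_mul_of_nonneg_left b4 b5.le)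
      have b7 : 0 < S.D.a k * d := mul_pos b5 hd0
      have b8 : (1 + e ^ 2) * (S.D.a k0 * d) ≤ S.D.a k * d := by
        have c1 := mul_le_mul_of_nonneg_right a6 (show 0 ≤ 1 + e / 2 by linarith only [e0, e1])
        have c2 : (1 + e ^ 2) * (1 + 2 * e ^ 2) ≤ (1 - 2 * e ^ 2) * (1 + e / 2) := by nlinarith only [e0, e1, e5]
        have c3 := mul_le_mul_of_nonneg_right c2 a7.le
        refine le_of_mul_le_mul_right ?_ (show 0 < 1 + 2 * e ^ 2 by positivity)
        linarith only [b6, c1, c3]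
      rw [← mul_assoc] at b8
      have b9 := le_of_mul_le_mul_right b8 hd0
      rw [e2, sp, sp, ← mul_div_assoc, div_le_div_iff₀ b5 a5]
      nlinarith only [hd0, hpi, b8]
  · intro a' ha' k hk
    obtain ⟨k0, hk0, rfl⟩ := mem_image.1 ha'
    obtain ⟨a1, a2⟩ := mem_filter.1 hk0
    rw [hD] at hk ⊢
    change k ∈ S.Wb d at hk
    change _ * S.D.a k ≤ _
    obtain ⟨b1, -, b2⟩ := S.env_C.1 (cc5_Wb.1 hk).1
    have b4 := (cc5_abs hd0 hk).1
    have b5 := S.apos k b1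
    unfold Dat.T at b2
    rw [e2] at b4
    rw [e4] at a2
    have b6 : S.D.a k * ((1 - 2 * e ^ 2) * d) ≤ S.TA :=
      (mul_le_mul_of_nonneg_left b4 b5.le).trans b2
    have b7 : 0 < S.D.a k * d := mul_pos b5 hd0
    have c1 := mul_le_mul_of_nonneg_right b6 (show 0 ≤ 1 + e / 4 by linarith only [e0, e1])
    have c2 : (1 + e ^ 2) ≤ (1 - 2 * e ^ 2) * (1 + e / 4) := by nlinarith only [e0, e1, e5]
    have c3 := mul_le_mul_of_nonneg_right c2 b7.le
    rw [e2]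
    refine le_of_mul_le_mul_right ?_ hd0
    linarith only [a2, c1, c3]

/-- `lat_C1`, `probe_C2`, `probe_B_negl`, `probe_A_negl` -/
theorem hit_of_outP (h : S.CHyp ja d N0) (hz : S.NoZ ja d N0) {j : ℕ} {Dd τ : ℝ}
    (hR : Reg M 1 (ja + 32 * M ^ 7998) d j Dd τ)
    (hH : ∀ k ∈ S.B, (1 - 2 * ((M : ℝ) ^ 2)⁻¹) * d ≤ |S.D.x k| → ∀ l : ℤ,
      (M : ℝ) ^ 5 * d / (M : ℝ) ^ 4000 ≤ |τ - l * sp (S.D.a k)|)
    (hL : ∀ α ∈ S.PA, (M : ℝ) ^ 4005 ≤ |(j : ℝ) - |S.D.freq α| * Dd|)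
    (hbig : Real.exp (-(M : ℝ) ^ 5) * N0 ≤ ‖S.D.lat (S.Wb d) j (zp d Dd τ)‖ * Dd ^ (j + 1)) :
    S.Hit ja d N0 := by
  have hp := S.par
  have hd := h.dpos
  have hP := (hR.to_two hp hd).preg hp hd
  have hD := (hP.norm_le hp hd).2.1
  by_contra hn
  have h3 := probe_B_negl h hz hR hH
  refine cc5_contra hp h.pos (pow_pos hD (j + 1)) ?_ (cc5_small h hn hP) (probe_C2 h hP)
    (b := S.D.poles (S.PB1 d) j (zp d Dd τ))
    (by linarith only [h3, norm_nonneg (S.D.poles (S.PB1 d) j (zp d Dd τ))])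
    (probe_A_negl h hP fun α hα _ => hL α hα) hbig
  rw [cc5_F1 hd]

/-- `avg_add`; `avg_le_sup` with `probe_C2`; `avg_le` with `probe_B`, `probe_B_negl`; `avg_A`;
if `F1` were small at all points of the average then `avg_le_sup` would give a contradiction -/
theorem hit_of_outH (h : S.CHyp ja d N0) (hz : S.NoZ ja d N0) {j : ℕ} {ω y α' : ℝ} (hω : 0 < ω)
    (hR : ∀ t : ℝ, |t| ≤ (M : ℝ) ^ 7446 → Reg M 1 (ja + 32 * M ^ 7998) d j (j / ω) ((y + t) / ω))
    (hH : ∀ k ∈ S.B, (1 - 2 * ((M : ℝ) ^ 2)⁻¹) * d ≤ |S.D.x k| → ∀ l : ℤ,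
      2 * (M : ℝ) ^ 5725 / ω ≤ |y / ω - l * sp (S.D.a k)|)
    (hA : ∀ k ∈ S.A, S.TA * (1 + 1 / (4 * M)) < S.D.a k * d → ∀ n : ℕ, 1 ≤ n →
      ω / (2 * (M : ℝ) ^ 5715) ≤ |n * S.D.a k - ω * α'|)
    (hα' : |α' - 1| ≤ Real.pi / (M : ℝ) ^ 3994)
    (hbig : Real.exp (-(M : ℝ) ^ 5) * N0 ≤
      ‖avg M (S.D.lat (S.Wb d)) d j ω y α'‖ * (j / ω) ^ (j + 1)) : S.Hit ja d N0 := by
  have hp := S.par
  have hd := h.dpos
  have hN := h.pos
  have hP : ∀ t : ℝ, |t| ≤ (M : ℝ) ^ 7446 → PReg M ja d j (j / ω) ((y + t) / ω) := fun t ht =>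
    ((hR t ht).to_two hp hd).preg hp hd
  have hP0 := hP 0 (by rw [abs_zero]; exact (hp.pow_pos _).le)
  have hD := (hP0.norm_le hp hd).2.1
  have hL : 0 < N0 / ((j : ℝ) / ω) ^ (j + 1) := div_pos hN (pow_pos hD _)
  obtain ⟨r1, r2, r3, r4⟩ := cc5_pows hp
  have hωd : (M : ℝ) ^ 5 * d / (M : ℝ) ^ 4000 ≤ (M : ℝ) ^ 5725 / ω := by
    have a1 := hP0.hD1
    have a2 : (j : ℝ) ≤ 2 * (M : ℝ) ^ 8000 := by
      exact_mod_cast hP0.hj2.trans (le_trans
        (Nat.add_le_add_left (Nat.mul_le_mul_right _ (by norm_num)) _) h.top.hi)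
    have a3 : 2 * ((M : ℝ) ^ 5)⁻¹ ≤ ((M : ℝ) ^ 0)⁻¹ := hp.inv_pow_le (by norm_num) (by norm_num)
    rw [pow_zero, inv_one] at a3
    have a4 : d * (1 / 2) ≤ d * (1 - ((M : ℝ) ^ 5)⁻¹) := mul_le_mul_of_nonneg_left (by linarith only [a3]) hd.le
    have a5 := a4.trans a1
    rw [le_div_iff₀ hω] at a5
    have a6 : 4 * (M : ℝ) ^ 8005 ≤ (M : ℝ) ^ 9725 := hp.mul_pow_le (by norm_num) (by norm_num)
    have a7 : (M : ℝ) ^ 5 * (d * ω) ≤ (M : ℝ) ^ 5 * (4 * (M : ℝ) ^ 8000) :=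
      mul_le_mul_of_nonneg_left (by linarith only [a2, a5]) (hp.pow_pos _).le
    rw [mul_left_comm _ (4 : ℝ), ← pow_add] at a7
    rw [div_le_div_iff₀ (hp.pow_pos _) hω, ← pow_add, mul_assoc]
    exact a7.trans a6
  have hB := avg_le hp (S.D.poles (S.PB1 d)) d j ω y α' _ _
    (div_pos (mul_pos (Real.exp_pos _) hN) (pow_pos hD (j + 1))).le
    (div_pos (mul_pos (Real.exp_pos _) hN) (pow_pos hD (j + 1))).le
    (fun t ht => probe_B h hz ((hR t ht).to_two hp hd))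
    (fun t ht => probe_B_negl h hz (hR t (ht.trans (hp.pow_mono (by norm_num)))) fun k hk hx l => by
      have a1 := hH k hk hx l
      have a2 : |t / ω| ≤ (M : ℝ) ^ 5725 / ω := by
        rw [abs_div, abs_of_pos hω]
        exact div_le_div_of_nonneg_right ht hω.le
      have a3 : |y / ω - l * sp (S.D.a k)| ≤ |(y + t) / ω - l * sp (S.D.a k)| + |t / ω| := by
        refine le_trans (le_of_eq ?_) (abs_sub _ _)
        congr 1
        ring
      rw [mul_div_assoc] at a1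
      generalize (M : ℝ) ^ 5725 / ω = X at *
      exact hωd.trans (by linarith only [a3, a1, a2]))
  by_contra hn
  refine cc5_contra hp hN (pow_pos hD (j + 1)) ?_
    (avg_le_sup (S.F1 d) d j ω y α' _ fun t ht => cc5_small h hn (hP t ht))
    (avg_le_sup (S.D.lat (S.C2 d)) d j ω y α' _ fun t ht => probe_C2 h (hP t ht))
    (b := avg M (S.D.poles (S.PB1 d)) d j ω y α') (hB.trans ?_) (avg_A h hω hR hA hα') hbig
  · rw [cc5_F1 hd, avg_add, avg_add, avg_add]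
  · rw [two_mul (Real.exp _ * N0 / _)]
    refine add_le_add_right ?_ _
    rw [mul_div_assoc, mul_div_assoc, ← mul_assoc, ← Real.exp_add]
    exact mul_le_mul_of_nonneg_right (Real.exp_le_exp.2 (by linarith only [r3, r4])) hL.le

/-- `hit_of_not_noZ`, `exists_cdat`, `exists_dodge`, `CDat.cmain` -/
theorem CHyp.hit (h : S.CHyp ja d N0) : S.Hit ja d N0 := by
  by_cases hz : S.NoZ ja d N0
  swap
  · exact hit_of_not_noZ h hz
  obtain ⟨C, hD, hd, hN, hj⟩ := exists_cdat h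
  obtain ⟨HH, AA, LL, hdo, h1, h2, h3⟩ := exists_dodge C hD hd
  have hlat : C.D.lat C.D.s = S.D.lat (S.Wb d) := by
    rw [hD]
    rfl
  rcases C.cmain HH AA LL hdo with ⟨j, Dd, τ, a1, a2, a3, a4⟩ | ⟨j, ω, y, α', a0, a1, a2, a3, a4, a5⟩
  · rw [hlat, hd, hN] at a4
    rw [hj, hd] at a1
    rw [hd] at a2
    exact hit_of_outP h hz a1 (fun k hk hx => a2 _ (h1 k hk hx)) (fun α hα => a3 _ (h3 α hα)) a4
  · rw [hlat, hd, hN] at a5
    rw [hj, hd] at a1
    exact hit_of_outH h hz a0 a1 (fun k hk hx => a2 _ (h1 k hk hx))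
      (fun k hk hx => a3 _ (h2 k hk hx)) a4 a5

/-- If `N0 = 0` use `good_of_lo` with `N = 0`.  Otherwise `unmod_window` gives `CHyp`; then
`CHyp.hit`, `lo_of_hit`, `good_of_lo` with `N = exp (2 M^6) N0`, `X = 2 M^7996`, `i1 = 5 M^7996`. -/
theorem caseC (S : Setup ι m M) (l : List ℝ) (hl : S.Adm l) (htop : S.Top ja d N0)
    (hB : ∀ j, ja + 16 * M ^ 7998 ≤ j → j ≤ ja + 48 * M ^ 7998 →
      S.EB j (Real.exp ((M : ℝ) ^ 5) * N0 / d ^ (j + 1)))
    (hA : ∀ j, ja + 20 * M ^ 7998 ≤ j → j ≤ ja + 44 * M ^ 7998 →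
      S.EA (S.D.cfL l) j (Real.exp ((M : ℝ) ^ 6) * (Real.exp ((M : ℝ) ^ 5) * N0) / d ^ (j + 1))) :
    S.Good l := by
  have hp := S.par
  have hρ := S.ρpos
  have hdge := htop.dge
  have hd : 0 < d := by linarith
  have hN := htop.N0nn
  have hlo := htop.lo
  have hhi := htop.hi
  obtain ⟨r1, -, -, -⟩ := cc5_pows hp
  have hM := hp.pos
  have r5 := hp.pow_pos 5
  have n1 : M ^ 267 ≤ M ^ 7996 := hp.pow_monoN (by norm_num)
  have n2 : M ^ 265 ≤ M ^ 7996 := hp.pow_monoN (by norm_num)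
  have n3 : 6 * M ^ 7996 ≤ M ^ 7998 := hp.mul_pow_leN (by norm_num) (by norm_num)
  have r6 : 4 * (M : ℝ) ^ 6 ≤ (M : ℝ) ^ 7996 := hp.mul_pow_le (by norm_num) (by norm_num)
  have hA' := S.unmod_window l hl d _ (by linarith only [hρ, hdge])
    (mul_nonneg (Real.exp_pos _).le (mul_nonneg (Real.exp_pos _).le hN))
    (ja + 24 * M ^ 7998) (ja + 40 * M ^ 7998) (by omega) fun j h1 h2 => hA j (by omega) (by omega)
  have hA2 : ∀ j, ja + 24 * M ^ 7998 ≤ j → j ≤ ja + 40 * M ^ 7998 →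
      S.EA S.D.cf j (Real.exp (2 * (M : ℝ) ^ 6) * N0 / d ^ (j + 1)) := by
    intro j h1 h2 α hα hα'
    refine (hA' j h1 h2 α hα hα').trans (div_le_div_of_nonneg_right ?_ (pow_pos hd _).le)
    rw [← mul_assoc (Real.exp _), ← Real.exp_add, ← mul_assoc]
    refine mul_le_mul_of_nonneg_right ?_ hN
    have a1 := cc5_exp hp (a := (M : ℝ) ^ 6 + (M : ℝ) ^ 5) (b := 2 * (M : ℝ) ^ 6) (by linarith only [r1])
    linarith only [a1, Real.exp_pos ((M : ℝ) ^ 6 + (M : ℝ) ^ 5)]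
  have hex : ∃ j, ja + 30 * M ^ 7998 ≤ j ∧ j ≤ ja + 35 * M ^ 7998 ∧
      Real.exp (-(M : ℝ) ^ 7996) * (N0 / d ^ (j + 1)) ≤ ‖S.lo j 0‖ := by
    rcases hN.eq_or_lt with h0 | h0
    · refine ⟨ja + 30 * M ^ 7998, le_rfl, by omega, ?_⟩
      rw [← h0, zero_div, mul_zero]
      exact norm_nonneg _
    · have h : S.CHyp ja d N0 := ⟨htop, h0, fun j h1 h2 => hB j (by omega) (by omega), hA2⟩
      exact lo_of_hit h h.hit
  obtain ⟨j, hj1, hj2, hj3⟩ := hex
  refine S.good_of_lo l hl d (Real.exp (2 * (M : ℝ) ^ 6) * N0) (2 * (M : ℝ) ^ 7996) (by linarith only [hρ, hdge])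
    (mul_nonneg (Real.exp_pos _).le hN) j (5 * M ^ 7996) (by omega) (by omega) (by linarith only [r1, hM, r5, r6]) ?_
    (fun i h1 h2 => ⟨div_nonneg (mul_nonneg (Real.exp_pos _).le hN) (pow_pos hd _).le, ?_, ?_,
      hA2 i (by omega) (by omega)⟩) (le_trans ?_ hj3)
  · rw [Nat.cast_mul, Nat.cast_pow, Nat.cast_ofNat]
    linarith only [r1, r5, r6]
  · intro r hr hrr
    refine (htop.top r hr hrr i (by omega) (by omega)).trans
      (div_le_div_of_nonneg_right (le_mul_of_one_le_left hN ?_) (pow_pos hd _).le)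
    exact Real.one_le_exp (by linarith only [r1, hM, r5])
  · intro α hα hα'
    refine (hB i (by omega) (by omega) α hα hα').trans
      (div_le_div_of_nonneg_right (mul_le_mul_of_nonneg_right ?_ hN) (pow_pos hd _).le)
    exact Real.exp_le_exp.2 (by linarith only [r1, hM, r5])
  · rw [mul_div_assoc, ← mul_assoc, ← Real.exp_add]
    exact mul_le_mul_of_nonneg_right (Real.exp_le_exp.2 (by linarith only [r1, hM, r5, r6]))
      (div_nonneg hN (pow_pos hd _).le)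

end Setup

end Pool.Agent.Work.MP_97f157_lc.Tau
end
end

-- merged part: Pool.Agent.Work.MP_97f157_lc.TauCore
section
/-! The core theorem. -/

noncomputable section
open Complex Finset Metric

namespace Pool.Agent.Work.MP_97f157_lc.Tau

variable {ι : Type*} {m M : ℕ}

theorem core_div {N x : ℝ} (j : ℕ) : N * x⁻¹ * x⁻¹ ^ j = N / x ^ (j + 1) := by
  rw [div_eq_mul_inv, ← inv_pow, pow_succ]; ring

theorem core_div' {N x : ℝ} (j : ℕ) : N * x⁻¹ ^ j = N / x ^ j := by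
  rw [div_eq_mul_inv, ← inv_pow]

theorem core_card (hp : Par m M) {a b c : ℕ} (h1 : a + b < c) :
    M ^ a * (64 * M ^ b + 1) ≤ M ^ c := by
  have h2 : M ^ a ≤ M ^ (a + b) := hp.pow_monoN (Nat.le_add_right _ _)
  have h3 := hp.mul_pow_leN (c := 65) (by norm_num) h1
  rw [mul_add, mul_one, mul_left_comm, ← pow_add]
  omega

/-- `U = M^7998`, `V = M^7700`.  If some pole atom exceeds `exp (M^5) N0 / d^(j+1)` at some
`j ∈ [ja+16U, ja+48U]`, it does so on `[j, j+16U]` or `[j-16U, j]` (`line_side`); `exists_top` among the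
pole atoms gives `α0` on top on `[j1, j1+8V]`; then `caseB`, or `caseA` with `N = NP α0`,
`d = ‖node α0‖`.  Otherwise `caseA` with `N = exp (M^5) N0`, or `caseC`. -/
theorem Setup.tree (S : Setup ι m M) {ja : ℕ} {d N0 : ℝ} (htop : S.Top ja d N0) (l : List ℝ)
    (hl : S.Adm l) : S.Good l := by
  classical
  have hp := S.par
  have hρ := S.ρpos
  have hd : 16 * S.ρ ≤ d := by linarith only [hρ, htop, htop.dge]
  have hd0 : 0 < d := by linarith
  have hN0 := htop.N0nn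
  have n1 : M ^ 4003 ≤ M ^ 7700 := hp.pow_monoN (by norm_num)
  have n2 : M ^ 7700 ≤ M ^ 7998 := hp.pow_monoN (by norm_num)
  have n3 := core_card hp (a := 271) (b := 7700) (c := 7998) (by norm_num)
  have n4 := htop.lo
  have n5 := htop.hi
  have e5 : 1 ≤ Real.exp ((M : ℝ) ^ 5) := Real.one_le_exp (hp.pow_pos 5).le
  have hC : ∀ j, ja ≤ j → j ≤ ja + 64 * M ^ 7998 → S.EC j (N0 / d ^ (j + 1)) :=
    fun j h1 h2 r hr hrr => htop.top r hr hrr j h1 h2
  by_cases hB : ∀ j, ja + 16 * M ^ 7998 ≤ j → j ≤ ja + 48 * M ^ 7998 →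
      S.EB j (Real.exp ((M : ℝ) ^ 5) * N0 / d ^ (j + 1))
  · by_cases hA : ∀ j, ja + 20 * M ^ 7998 ≤ j → j ≤ ja + 44 * M ^ 7998 → S.EA (S.D.cfL l) j
        (Real.exp ((M : ℝ) ^ 6) * (Real.exp ((M : ℝ) ^ 5) * N0) / d ^ (j + 1))
    · exact S.caseC l hl htop hB hA
    · simp only [not_forall] at hA
      obtain ⟨j1, h1, h2, h3⟩ := hA
      refine S.caseA l hl (Real.exp ((M : ℝ) ^ 5) * N0) d (by positivity) hd j1 (by omega)
        (by omega) (fun j h4 h5 => ⟨Setup.EC.mono S (hC j (by omega) (by omega)) ?_,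
          hB j (by omega) (by omega)⟩) h3
      exact div_le_div_of_nonneg_right (le_mul_of_one_le_left hN0 e5) (by positivity)
  · simp only [Setup.EB, not_forall, not_le] at hB
    obtain ⟨j, h1, h2, α, hα, hαα, h3⟩ := hB
    have pos : ∀ ν ∈ S.PB, 0 < ‖S.D.node ν‖ := fun ν hν => by linarith only [hρ, S.node_PB ν hν]
    rw [← core_div', ← core_div'] at h3
    obtain ⟨j0, k1, k2, k3⟩ : ∃ j0, ja ≤ j0 ∧ j0 + 16 * M ^ 7998 ≤ ja + 64 * M ^ 7998 ∧
        ∀ i, j0 ≤ i → i ≤ j0 + 16 * M ^ 7998 → Real.exp ((M : ℝ) ^ 5) * N0 / d ^ (i + 1) <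
          S.NP α / ‖S.D.node α‖ ^ (i + 1) := by
      rcases line_side (inv_pos.2 (pos α hα)) (inv_pos.2 hd0) (by positivity) h3 with h | h
      · refine ⟨j, by omega, by omega, fun i h4 _ => ?_⟩
        rw [← core_div', ← core_div']
        exact h _ (by omega)
      · refine ⟨j - 16 * M ^ 7998, by omega, by omega, fun i _ h4 => ?_⟩
        rw [← core_div', ← core_div']
        exact h _ (by omega)
    have hm : α ∈ S.PB.filter (fun ν => S.bt ν = ν) := mem_filter.2 ⟨hα, hαα⟩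
    obtain ⟨α0, h0, j1, k4, k5, k6⟩ := exists_top (S.PB.filter (fun ν => S.bt ν = ν)) ⟨α, hm⟩
      (fun ν => S.NP ν * ‖S.D.node ν‖⁻¹) (fun ν => ‖S.D.node ν‖⁻¹)
      (fun ν _ => mul_nonneg Nm_nonneg (by positivity))
      (fun ν hν => inv_pos.2 (pos ν (mem_filter.1 hν).1)) (n := M ^ 271) (H := 8 * M ^ 7700)
      (j0 := j0) (W := 16 * M ^ 7998) ((card_filter_le _ _).trans S.card_PB)
      (le_trans (Nat.mul_le_mul_left _ (by omega)) (n3.trans (by omega)))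
    obtain ⟨h0, h0'⟩ := mem_filter.1 h0
    simp only [core_div] at k6
    have hB' : ∀ j, j1 ≤ j → j ≤ j1 + 8 * M ^ 7700 →
        S.EB j (S.NP α0 / ‖S.D.node α0‖ ^ (j + 1)) :=
      fun j h4 h5 ν hν hνν => k6 ν (mem_filter.2 ⟨hν, hνν⟩) j h4 h5
    have hC' : ∀ j, j1 ≤ j → j ≤ j1 + 8 * M ^ 7700 →
        S.EC j (Real.exp (-(M : ℝ) ^ 5) * (S.NP α0 / ‖S.D.node α0‖ ^ (j + 1))) := by
      intro j h4 h5
      refine Setup.EC.mono S (hC j (by omega) (by omega)) ?_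
      have h6 := (k3 j (by omega) (by omega)).le.trans (k6 α hm j h4 h5)
      rw [Real.exp_neg, inv_mul_eq_div, le_div_iff₀ (Real.exp_pos _), mul_comm, ← mul_div_assoc]
      exact h6
    by_cases hA : ∀ j, j1 + 2 * M ^ 7700 ≤ j → j ≤ j1 + 6 * M ^ 7700 → S.EA (S.D.cfL l) j
        (Real.exp ((M : ℝ) ^ 6) * S.NP α0 / ‖S.D.node α0‖ ^ (j + 1))
    · exact S.caseB l hl α0 h0 h0' j1 (by omega) (by omega) hB' hC' hA
    · simp only [not_forall] at hA
      obtain ⟨j2, h4, h5, h6⟩ := hA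
      have hNP : 0 ≤ S.NP α0 := Nm_nonneg
      refine S.caseA l hl (S.NP α0) ‖S.D.node α0‖ hNP (by linarith only [hρ, S.node_PB α0 h0]) j2
        (by omega) (by omega) (fun j h7 h8 => ⟨Setup.EC.mono S (hC' j (by omega) (by omega)) ?_,
          hB' j (by omega) (by omega)⟩) h6
      exact mul_le_of_le_one_left (by positivity)
        (Real.exp_le_one_iff.2 (neg_nonpos.2 (hp.pow_pos 5).le))

theorem core_eps (hp : Par m M) {a b c : ℕ} (h : a + b < c) :
    8 * ((M ^ a : ℕ) : ℝ) * ((M : ℝ) ^ c)⁻¹ ≤ ((M : ℝ) ^ b)⁻¹ := by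
  have h1 := hp.mul_pow_le (c := 8) (by norm_num) h
  have h2 := hp.pow_pos b
  have h3 := hp.pow_pos c
  rw [Nat.cast_pow, ← div_eq_mul_inv, div_le_iff₀ h3, inv_mul_eq_div, le_div_iff₀ h2, mul_assoc,
    ← pow_add]
  exact h1

/-- `exists_gap` (with `n = M^264`), `exists_rclus` -/
theorem Pre.exists_setup (P : Pre ι m M) : ∃ S : Setup ι m M, S.toPre = P := by
  have hp := P.par
  have c1 : P.PA.card ≤ M ^ 264 := by have := P.card_PA; omega
  obtain ⟨T, h1, h2, h3⟩ := exists_gap P.PA (fun ν => |P.D.freq ν| * P.ρ) c1 (hp.pow_pos 8540)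
  obtain ⟨at', h4⟩ := exists_rclus P.PA (fun ν => (P.D.freq ν : ℂ))
    (fun ν hν => by exact_mod_cast P.freq_ne ν hν) (e1 := eA1 M) (e0 := eA0 M) c1
    (inv_pos.2 (hp.pow_pos _)) (core_eps hp (by norm_num)) (env_inv_le hp _)
  obtain ⟨bt, h5⟩ := exists_rclus P.PB P.D.node P.node_ne (e1 := eA1 M) (e0 := eA0 M) P.card_PB
    (inv_pos.2 (hp.pow_pos _)) (core_eps hp (by norm_num)) (env_inv_le hp _)
  refine ⟨⟨P, T, at', bt, h1, h2, fun ν hν => (h3 ν hν).imp_right fun h => le_trans ?_ h, h4, h5⟩,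
    rfl⟩
  have hT : 0 ≤ T := (hp.pow_pos _).le.trans h1
  have h6 := hp.mul_pow_le (c := 4) (by norm_num) (show 264 < 265 by norm_num)
  have h7 : (1 : ℝ) ≤ (M : ℝ) ^ 264 := one_le_pow₀ hp.one_le
  rw [Nat.cast_pow, one_div]
  generalize (M : ℝ) ^ 264 = X at *
  generalize (M : ℝ) ^ 265 = Y at *
  exact mul_le_mul_of_nonneg_left (add_le_add_right (inv_anti₀ (by positivity) (by linarith only [h7, h6])) _) hT

namespace Setup
variable (S : Setup ι m M)

theorem core_split (l : List ℝ) {j : ℕ} (hj : 1 ≤ j) {z : ℂ} (hz : ‖z‖ < 32 * S.ρ) :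
    Lop l (S.D.lat S.D.s) j z = Lop l S.lo j z + S.D.exps S.Hi (S.D.cfL l) j z +
      Lop l (S.D.tailA S.A (M ^ 263)) j z := by
  rw [← Dat.Lop_exps]
  unfold Lop
  rw [← LL_add, ← LL_add]
  exact LL_congr l fun i hi => S.lat_eq (hj.trans hi) hz

theorem core_lo {l : List ℝ} (hl : S.Adm l) {j : ℕ} (hj1 : M ^ 8000 ≤ j) (hj : j ≤ 3 * M ^ 8000)
    {E : ℝ} (h : S.Env j E) {c : ℝ} (hc0 : 0 ≤ c) (hc : c ≤ 2) {z : ℂ} (hz : ‖z‖ ≤ c * S.ρ) :
    ‖Lop l S.lo j z‖ ≤ 2 * (Real.exp (2 * (M : ℝ) ^ 8000 + (c + 1) * S.Tc) * E) := by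
  have hρ := S.ρpos
  have hp := S.par
  refine Lop_sup S.chain_lo l j (c * S.ρ) S.ρ _ (S.Tc / S.ρ) (by positivity) hρ (by nlinarith only [hc, hρ])
    (div_pos S.env_Tc hρ) (fun μ hμ => (div_le_iff₀ hρ).2 (S.env_adm hl μ hμ).2) ?_
    (fun w hw => ?_) z hz
  · rw [div_mul_cancel₀ _ hρ.ne']
    have h1 : (l.length : ℝ) ≤ (M : ℝ) ^ 265 := by exact_mod_cast hl.1
    have h2 := hp.mul_pow_le (c := 2) (by norm_num) (show 265 * 2 < 8540 by norm_num)
    rw [pow_mul] at h2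
    refine le_trans ?_ (h2.trans S.Tc1)
    gcongr
  · have := S.lo_sup hj1 hj h (R := c * S.ρ + S.ρ) (by positivity) (by nlinarith only [hc, hρ]) hw
    rwa [show S.Tc * (c * S.ρ + S.ρ) / S.ρ = (c + 1) * S.Tc by field_simp] at this

theorem core_tail {sb : ι × ℕ → ι × ℕ} (hsb : S.HiClus sb) {l : List ℝ} (hl : S.Adm l) {j : ℕ}
    (hj : j ≤ 3 * M ^ 8000) {E E' : ℝ} (h : S.Env j E) (hE : E ≤ E')
    (h' : ∀ β ∈ S.Hi, sb β = β →
      S.NS sb β * |S.D.freq β| ^ j / (j.factorial : ℝ) ≤ E' * Real.exp (3 * S.ρ * |S.D.freq β|))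
    {z : ℂ} (hz : ‖z‖ ≤ 2 * S.ρ) :
    ‖Lop l (S.D.tailA S.A (M ^ 263)) j z‖ ≤ Real.exp (-((M : ℝ) ^ 8001 / 4)) * E' := by
  have hρ := S.ρpos
  have hE' : 0 ≤ E' := h.1.trans hE
  refine tailA_le S.par S.D S.A S.env_cardA (fun k hk => S.apos k (S.env_A.1 hk).1) S.ρ hρ.le
    (fun k hk => S.TA1.trans (S.env_A.1 hk).2.le) S.x_A S.at' S.hat j hj l hl.1
    (fun μ hμ => S.Tc1.trans (S.env_adm hl μ hμ).2) E' hE' (fun α hα hαα => ?_) z (by linarith only [hz, hρ])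
  by_cases c : |S.D.freq α| * S.ρ ≤ S.Tc
  · exact (h.2.2.2 α (S.env_Lo.2 ⟨hα, c⟩) hαα).trans (hE.trans
      (le_mul_of_one_le_right hE' (Real.one_le_exp (by positivity))))
  · exact S.hi_atom_le hsb hj hE' h' α (mem_filter.2 ⟨hα, c⟩) hαα

theorem core_empty (h : ∀ k ∈ S.D.s, S.D.a k * S.ρ ≤ 1) : S.Hi = ∅ := by
  refine filter_eq_empty_iff.2 fun ν hν => not_not.2 ?_
  obtain ⟨h1, -, h2⟩ := S.env_PA.1 hν
  have h3 := (S.env_A.1 h1).1
  have h4 : (ν.2 : ℝ) ≤ (M : ℝ) ^ 263 := by exact_mod_cast h2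
  rw [atm_freq S.D ν (S.apos _ h3), mul_assoc]
  exact (mul_le_of_le_one_right (Nat.cast_nonneg _) (h _ h3)).trans
    (h4.trans ((S.par.pow_mono (by norm_num)).trans S.Tc1))

end Setup

theorem core_exp (hp : Par m M) {a b : ℝ} (h : a + M ≤ b) : 12 * Real.exp a ≤ Real.exp b :=
  caseA_exp_le hp h

/-- `l0` = list of the frequencies of `Hi`; `tree` gives `j, E`.  For admissible `l`,
`Lop l lat = Lop l lo + exps Hi (cfL l) + Lop l tailA` on the disc (`lat_eq`, `LL_congr`, `LL_add`,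
`Dat.Lop_exps`), and `‖Lop l lo j z‖ ≤ 2 exp (2 M^8000 + 3 Tc) E` on `‖z‖ ≤ 2ρ`, `≤ 2 exp (2 M^8000 + Tc) E`
at `0` (`Lop_sup` with `r = ρ`, `μ0 = Tc/ρ`, `lo_sup`).  If all absolute clusters satisfy
`NS β |μ|^j / j! ≤ E exp (3 ρ |μ|)` take `l = l0`, `ν = 0` (`hi_atom_le`, `tailA_le`).  Otherwise let
`β` maximise `E' = NS β |μ|^j exp (-3 ρ |μ|) / j! > E` and take `l` from `hi_main`, `ν = freq β`; the main
term at `0` is `≥ E' exp (5 ρ |μ| / 2)`, `ρ |μ| ≥ Tc`. -/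
theorem Setup.coreOut (S : Setup ι m M) {ja : ℕ} {d N0 : ℝ} (htop : S.Top ja d N0) :
    CoreOut M S.D S.ρ := by
  classical
  have hp := S.par
  have hρ := S.ρpos
  obtain ⟨sb, hsb⟩ := S.exists_hiClus
  have hl0 : S.Adm (S.Hi.toList.map S.D.freq) := by
    refine ⟨?_, fun μ hμ => ?_⟩
    · rw [List.length_map, length_toList]
      exact (card_filter_le _ _).trans (S.caseA_card_PA.trans (hp.pow_monoN (by norm_num)))
    · obtain ⟨ν, hν, rfl⟩ := List.mem_map.1 hμ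
      exact S.Hi_freq ν (mem_toList.1 hν)
  obtain ⟨j, hj1, hj2, E, hE, hbig⟩ := S.tree htop _ hl0
  have hj3 : j ≤ 3 * M ^ 8000 := by omega
  have hj0 : 1 ≤ j := (Nat.one_le_pow _ _ hp.one_leN).trans hj1
  have hE0 := hE.1
  have z0 : ‖(0 : ℂ)‖ ≤ 0 * S.ρ := by simp
  have z1 : ‖(0 : ℂ)‖ ≤ 2 * S.ρ := by rw [norm_zero]; positivity
  have m1 : (M : ℝ) ≤ (M : ℝ) ^ 266 := by simpa using hp.pow_mono (show 1 ≤ 266 by norm_num)
  have m2 : (M : ℝ) ^ 266 ≤ (M : ℝ) ^ 8000 := hp.pow_mono (by norm_num)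
  have m3 := hp.mul_pow_le (c := 8) (by norm_num) (show 8000 < 8001 by norm_num)
  have m4 := hp.mul_pow_le (c := 8) (by norm_num) (show 8000 < 8540 by norm_num)
  have m5 := hp.mul_pow_le (c := 16) (by norm_num) (show 8540 < 16000 by norm_num)
  have m6 := S.Tc1
  have m7 := S.Tc2
  have m8 := hp.pos
  by_cases hc : ∀ β ∈ S.Hi, sb β = β →
      S.NS sb β * |S.D.freq β| ^ j / (j.factorial : ℝ) ≤ E * Real.exp (3 * S.ρ * |S.D.freq β|)
  · refine ⟨j, hj1, hj2, _, 0, hl0.1, fun μ hμ => (S.env_adm hl0 μ hμ).1, fun z hz => ?_,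
      fun h => ⟨by rw [S.core_empty h]; simp, rfl⟩⟩
    have h0 : ∀ w, S.D.exps S.Hi (S.D.cfL (S.Hi.toList.map S.D.freq)) j w = 0 := fun w =>
      sum_eq_zero fun ν hν => by
        rw [Dat.cfL, Lm_eq_zero (List.mem_map.2 ⟨ν, mem_toList.2 hν, rfl⟩)
          (S.freq_ne ν (mem_filter.1 hν).1), zero_mul, zero_mul]
    rw [S.core_split _ hj0 (z := z) (by linarith only [hρ, hz]), S.core_split _ hj0 (z := 0) (by linarith only [hρ, z0]),
      h0, h0, add_zero, add_zero, ofReal_zero, zero_mul, neg_zero, Complex.exp_zero, one_mul]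
    have a1 := S.core_lo hl0 hj1 hj3 hE zero_le_two le_rfl hz
    have a2 := S.core_tail hsb hl0 hj3 hE le_rfl hc hz
    have a3 := S.core_tail hsb hl0 hj3 hE le_rfl hc z1
    have a4 := norm_add_le (Lop (S.Hi.toList.map S.D.freq) S.lo j z)
      (Lop (S.Hi.toList.map S.D.freq) (S.D.tailA S.A (M ^ 263)) j z)
    have a5 := norm_sub_le (Lop (S.Hi.toList.map S.D.freq) S.lo j 0 +
      Lop (S.Hi.toList.map S.D.freq) (S.D.tailA S.A (M ^ 263)) j 0)
      (Lop (S.Hi.toList.map S.D.freq) (S.D.tailA S.A (M ^ 263)) j 0)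
    rw [add_sub_cancel_right] at a5
    have b1 := mul_le_mul_of_nonneg_right (core_exp hp (a := -((M : ℝ) ^ 8001 / 4))
      (b := -(M : ℝ) ^ 8000) (by linarith only [m1, m2, m3])) hE0
    have b2 := mul_le_mul_of_nonneg_right (core_exp hp
      (a := 2 * (M : ℝ) ^ 8000 + (2 + 1) * S.Tc) (b := (M : ℝ) ^ 16000 + -(M : ℝ) ^ 8000)
      (by linarith only [m1, m2, m4, m5, m7, m8])) hE0
    have b3 := mul_le_mul_of_nonneg_right (Real.exp_le_exp.2 (show -((M : ℝ) ^ 8001 / 4) ≤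
      2 * (M : ℝ) ^ 8000 + (2 + 1) * S.Tc by linarith only [m1, m2, m3, m4, m6, m8])) hE0
    rw [Real.exp_add ((M : ℝ) ^ 16000), mul_assoc (Real.exp ((M : ℝ) ^ 16000))] at b2
    have b4 : Real.exp (-(M : ℝ) ^ 8000) * E ≤ 2 * ‖Lop (S.Hi.toList.map S.D.freq) S.lo j 0 +
        Lop (S.Hi.toList.map S.D.freq) (S.D.tailA S.A (M ^ 263)) j 0‖ := by
      have := mul_nonneg (Real.exp_pos (-((M : ℝ) ^ 8001 / 4))).le hE0
      linarith only [hbig, a3, a5, b1, this]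
    have b5 := mul_le_mul_of_nonneg_left b4 (Real.exp_pos ((M : ℝ) ^ 16000)).le
    have b6 := mul_nonneg (Real.exp_pos (2 * (M : ℝ) ^ 8000 + (2 + 1) * S.Tc)).le hE0
    rw [mul_left_comm] at b5
    rw [mul_assoc] at b2
    generalize Real.exp (2 * (M : ℝ) ^ 8000 + (2 + 1) * S.Tc) * E = K at a1 b2 b3 b6
    linarith only [a1, a2, a4, b2, b3, b5, b6]
  · simp only [not_forall, not_le] at hc
    obtain ⟨β1, hβ1, hβ1', hc⟩ := hc
    obtain ⟨β, hβ, hmax⟩ := exists_max_image (S.Hi.filter fun β => sb β = β)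
      (fun β => S.NS sb β * |S.D.freq β| ^ j / (j.factorial : ℝ) /
        Real.exp (3 * S.ρ * |S.D.freq β|)) ⟨β1, mem_filter.2 ⟨hβ1, hβ1'⟩⟩
    obtain ⟨hβ, hβ'⟩ := mem_filter.1 hβ
    obtain ⟨E', hE'⟩ : ∃ E', E' = S.NS sb β * |S.D.freq β| ^ j / (j.factorial : ℝ) /
      Real.exp (3 * S.ρ * |S.D.freq β|) := ⟨_, rfl⟩
    simp only [← hE'] at hmax
    have hEE : E ≤ E' := le_trans ((le_div_iff₀ (Real.exp_pos _)).2 hc.le)
      (hmax β1 (mem_filter.2 ⟨hβ1, hβ1'⟩))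
    have hE1 : 0 ≤ E' := hE0.trans hEE
    have hc' : ∀ γ ∈ S.Hi, sb γ = γ → S.NS sb γ * |S.D.freq γ| ^ j / (j.factorial : ℝ) ≤
        E' * Real.exp (3 * S.ρ * |S.D.freq γ|) := fun γ h1 h2 =>
      (div_le_iff₀ (Real.exp_pos _)).1 (hmax γ (mem_filter.2 ⟨h1, h2⟩))
    obtain ⟨l, hl, h1, h2⟩ := S.hi_main hsb hj3 β hβ hβ'
    refine ⟨j, hj1, hj2, l, S.D.freq β, hl.1, fun μ hμ => (S.env_adm hl μ hμ).1, fun z hz => ?_,
      fun h => absurd hβ (by rw [S.core_empty h]; simp)⟩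
    have hy : S.Tc ≤ S.ρ * |S.D.freq β| := by
      rw [mul_comm]; exact (not_le.1 (mem_filter.1 hβ).2).le
    rw [(eq_div_iff (Real.exp_pos _).ne').1 hE' |>.symm, mul_assoc, ← Real.exp_add, mul_assoc]
      at h1
    have h3 : ‖exp (-((S.D.freq β : ℂ) * z))‖ ≤ Real.exp (2 * (S.ρ * |S.D.freq β|)) := by
      refine (norm_exp_le_exp_norm _).trans (Real.exp_le_exp.2 ?_)
      rw [norm_neg, norm_mul, norm_real, Real.norm_eq_abs]
      nlinarith only [hρ, m1, m2, m4, m6, hz, hy, abs_nonneg (S.D.freq β)]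
    have h4 := h2 z hz
    generalize S.ρ * |S.D.freq β| = y at hy h1 h3
    rw [S.core_split _ hj0 (z := z) (by linarith only [hρ, hz]), S.core_split _ hj0 (z := 0) (by linarith only [hρ, z0]),
      mul_add, mul_add]
    have a0 := S.core_lo hl hj1 hj3 hE le_rfl zero_le_two z0
    have a1 := S.core_lo hl hj1 hj3 hE zero_le_two le_rfl hz
    have a2 := S.core_tail hsb hl hj3 hE hEE hc' hz
    have a3 := S.core_tail hsb hl hj3 hE hEE hc' z1
    have t1 : Real.exp (-((M : ℝ) ^ 8001 / 4)) * E' ≤ E' :=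
      mul_le_of_le_one_left hE1 (Real.exp_le_one_iff.2 (by linarith only [m1, m2, m3, m8]))
    generalize exp (-((S.D.freq β : ℂ) * z)) = w at h3 h4 ⊢
    generalize Lop l S.lo j z = x1 at a1 ⊢
    generalize Lop l S.lo j 0 = x0 at a0 ⊢
    generalize Lop l (S.D.tailA S.A (M ^ 263)) j z = t at a2 ⊢
    generalize Lop l (S.D.tailA S.A (M ^ 263)) j 0 = t0 at a3 ⊢
    generalize S.D.exps S.Hi (S.D.cfL l) j z = u at h4 ⊢
    generalize S.D.exps S.Hi (S.D.cfL l) j 0 = u0 at h1 h4 ⊢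
    have b0 : ‖u0‖ ≤ ‖x0 + u0 + t0‖ + ‖x0‖ + ‖t0‖ := by
      have := norm_sub_le (x0 + u0 + t0 - x0) t0
      have := norm_sub_le (x0 + u0 + t0) x0
      rw [show x0 + u0 + t0 - x0 - t0 = u0 by ring] at *
      linarith
    have b1 := mul_le_mul_of_nonneg_left (core_exp hp
      (a := 2 * (M : ℝ) ^ 8000 + (0 + 1) * S.Tc) (b := 3 * y + -(y / 2)) (by linarith only [m1, m2, m4, m6, m8, hy])) hE1
    have b2 := mul_le_mul_of_nonneg_left hEE
      (Real.exp_pos (2 * (M : ℝ) ^ 8000 + (0 + 1) * S.Tc)).le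
    have b3 : E' ≤ E' * Real.exp (2 * (M : ℝ) ^ 8000 + (0 + 1) * S.Tc) :=
      le_mul_of_one_le_right hE1 (Real.one_le_exp (by linarith only [m1, m2, m4, m6, m8]))
    have b4 : ‖u0‖ ≤ 2 * ‖x0 + u0 + t0‖ := by
      rw [mul_left_comm] at b1
      rw [mul_comm _ E'] at b2
      generalize E' * Real.exp (2 * (M : ℝ) ^ 8000 + (0 + 1) * S.Tc) = K at b1 b2 b3
      linarith only [b0, b1, b2, b3, h1, a0, a3, t1, hE1]
    have b5 : Real.exp (2 * y) * E' ≤ ‖u0‖ := by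
      refine le_trans ?_ h1
      rw [mul_comm]
      exact mul_le_mul_of_nonneg_left (Real.exp_le_exp.2 (by linarith only [m1, m2, m4, m6, m8, hy])) hE1
    obtain ⟨K, hK⟩ : ∃ K, K = Real.exp (2 * (M : ℝ) ^ 8000 + (2 + 1) * S.Tc) := ⟨_, rfl⟩
    have k0 : 1 ≤ K := hK ▸ Real.one_le_exp (by linarith only [m1, m2, m4, m6, m8])
    have k1 : Real.exp ((M : ℝ) ^ 266) ≤ K := hK ▸ Real.exp_le_exp.2 (by linarith only [m1, m2, m4, m6, m8])
    have k2 : 12 * K ≤ Real.exp ((M : ℝ) ^ 16000) := hK ▸ core_exp hp (by linarith only [m1, m2, m4, m5, m7, m8])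
    rw [← hK] at a1
    have c1 : ‖w * x1‖ ≤ 2 * K * ‖u0‖ := by
      rw [norm_mul]
      calc ‖w‖ * ‖x1‖ ≤ Real.exp (2 * y) * (2 * (K * E')) :=
            mul_le_mul h3 (a1.trans (by gcongr)) (norm_nonneg _) (Real.exp_pos _).le
        _ = 2 * K * (Real.exp (2 * y) * E') := by ring
        _ ≤ _ := by gcongr
    have c2 : ‖w * t‖ ≤ K * ‖u0‖ := by
      rw [norm_mul]
      exact ((mul_le_mul h3 (a2.trans t1) (norm_nonneg _) (Real.exp_pos _).le).trans b5).trans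
        (le_mul_of_one_le_left (norm_nonneg _) k0)
    have c3 : ‖w * u‖ ≤ K * ‖u0‖ := h4.trans (mul_le_mul_of_nonneg_right k1 (norm_nonneg _))
    have c4 := norm_add₃_le (a := w * x1) (b := w * u) (c := w * t)
    have c5 := mul_le_mul_of_nonneg_left b4 (zero_le_one.trans k0)
    have c6 := mul_le_mul_of_nonneg_right k2 (norm_nonneg (x0 + u0 + t0))
    have c7 := mul_nonneg (zero_le_one.trans k0) (norm_nonneg (x0 + u0 + t0))
    linarith only [c1, c2, c3, c4, c5, c6, c7]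

/-- `Dat.lat_refl`, `LL_congr`, `LL_neg` -/
theorem CoreOut.of_refl {D : Dat ι} {ρ : ℝ} (hp : Par m M) (h : CoreOut M D.refl ρ) :
    CoreOut M D ρ := by
  obtain ⟨j, h1, h2, l, ν, h3, h4, h5, h6⟩ := h
  have hj : 1 ≤ j := (Nat.one_le_pow _ _ hp.one_leN).trans h1
  have e : ∀ z, ‖Lop l (D.refl.lat D.refl.s) j (-z)‖ =
      ‖Lop (l.map fun μ => -μ) (D.lat D.s) j z‖ := fun z => by
    unfold Lop
    rw [LL_congr l (fun i hi => D.lat_refl D.refl.s (hj.trans hi) (-z)), LL_neg, norm_mul, norm_pow,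
      norm_neg, norm_one, one_pow, one_mul, neg_neg]
    rfl
  refine ⟨j, h1, h2, l.map fun μ => -μ, -ν, by rwa [List.length_map], fun μ hμ => ?_,
    fun z hz => ?_, fun h => ?_⟩
  · obtain ⟨μ', h7, rfl⟩ := List.mem_map.1 hμ
    exact neg_ne_zero.2 (h4 μ' h7)
  · have h7 := h5 (-z) (by rwa [norm_neg])
    have h8 := e 0
    rw [neg_zero] at h8
    rw [norm_mul, e, h8] at h7
    rw [norm_mul, ofReal_neg, neg_mul, ← mul_neg]
    exact h7
  · obtain ⟨rfl, rfl⟩ := h6 h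
    exact ⟨rfl, neg_zero⟩

theorem core_T (D : Dat ι) : D.refl.T = D.T := by
  funext k; simp [Dat.T, Dat.refl]

/-- the reflected data -/
def Pre.coreRefl (P : Pre ι m M) : Pre ι m M where
  D := P.D.refl
  ρ := P.ρ
  TB := P.TB
  TA := P.TA
  cl := P.cl
  par := P.par
  card := P.card
  apos := P.apos
  ρpos := P.ρpos
  flT := by rw [core_T]; exact P.flT
  far := fun k hk l hl => by
    refine (P.far k hk (-l) (by rwa [neg_eq_zero])).trans (le_of_eq ?_)
    rw [← norm_neg]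
    simp only [Dat.node, Dat.refl]
    push_cast
    congr 1
    ring
  TB1 := P.TB1
  TB2 := P.TB2
  gapB := by rw [core_T]; exact P.gapB
  TA1 := P.TA1
  TA2 := P.TA2
  gapA := by rw [core_T]; exact P.gapA
  clus := by
    rw [core_T]
    refine ⟨P.clus.mem, P.clus.idem, P.clus.neara, fun k hk => ?_, fun k hk k' hk' h => ?_⟩
    · simpa only [Dat.refl, neg_sub_neg, abs_neg, abs_sub_comm] using P.clus.nearx k hk
    · simpa only [Dat.refl, neg_sub_neg, abs_neg, abs_sub_comm] using P.clus.sep k hk k' hk' h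

theorem core_C (P : Pre ι m M) : P.coreRefl.C = P.C := by
  simp only [Pre.C, Pre.coreRefl, core_T]; rfl

theorem core_NC (P : Pre ι m M) (r : ι) : P.coreRefl.NC r = P.NC r := by
  simp only [Pre.NC, core_C, Dat.NC]
  congr 1
  funext k
  simp only [rv, Pre.coreRefl, Dat.refl, ofReal_neg, neg_div_neg_eq]

theorem core_top (P : Pre ι m M) {ja : ℕ} {d N0 : ℝ} (h : P.Top ja d N0) : CoreOut M P.D P.ρ := by
  obtain ⟨S, rfl⟩ := P.exists_setup
  exact S.coreOut h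

theorem core_pre (P : Pre ι m M) : CoreOut M P.D P.ρ := by
  classical
  have hp := P.par
  have hρ := P.ρpos
  rcases (P.C.filter fun r => P.cl r = r).eq_empty_or_nonempty with h | h
  · have h1 := hp.mul_pow_leN (c := 64) (by norm_num) (show 7998 < 8000 by norm_num)
    exact core_top P (ja := M ^ 8000) (d := 32 * P.ρ) (N0 := 0) ⟨le_rfl, by omega, le_rfl, le_rfl,
      fun r hr hrr => absurd hrr (filter_eq_empty_iff.1 h hr), Or.inl rfl⟩
  have pos : ∀ r ∈ P.C, 0 < |P.D.x r| := fun r hr => by linarith only [hρ, hr, P.x_C r hr]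
  have h1 := core_card hp (a := 1) (b := 7998) (c := 8000) (by norm_num)
  obtain ⟨r, hr, j1, k1, k2, k3⟩ := exists_top _ h (fun r => P.NC r * |P.D.x r|⁻¹)
    (fun r => |P.D.x r|⁻¹) (fun r _ => mul_nonneg (P.NC_nonneg r) (by positivity))
    (fun r hr => inv_pos.2 (pos r (mem_filter.1 hr).1)) (n := M ^ 1) (H := 64 * M ^ 7998)
    (j0 := M ^ 8000) (W := M ^ 8000) ((card_filter_le _ _).trans (P.env_cardC.trans
      (by have := hp.two; rw [pow_one]; omega))) (h1.trans (Nat.le_succ _))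
  obtain ⟨hr, hrr⟩ := mem_filter.1 hr
  simp only [core_div] at k3
  rcases le_total (P.D.x r) 0 with c | c
  · exact core_top P (ja := j1) (d := |P.D.x r|) (N0 := P.NC r) ⟨k1, by omega, P.x_C r hr,
      P.NC_nonneg r, fun r' h1 h2 => k3 r' (mem_filter.2 ⟨h1, h2⟩),
      Or.inr ⟨r, hr, hrr, by rw [abs_of_nonpos c, neg_neg], rfl⟩⟩
  · refine CoreOut.of_refl hp (core_top P.coreRefl (ja := j1) (d := |P.D.x r|) (N0 := P.NC r)
      ⟨k1, by omega, P.x_C r hr, P.NC_nonneg r, fun r' h1 h2 j h3 h4 => ?_,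
        Or.inr ⟨r, by rwa [core_C], hrr, ?_, core_NC P r⟩⟩)
    · rw [core_C] at h1
      rw [core_NC, show |P.coreRefl.D.x r'| = |P.D.x r'| from abs_neg _]
      exact k3 r' (mem_filter.2 ⟨h1, h2⟩) j h3 h4
    · rw [abs_of_nonneg c]; rfl

/-- hypotheses of the core theorem -/
structure CoreIn (m M : ℕ) (D : Dat ι) (ρ : ℝ) : Prop where
  par : Par m M
  card : D.s.card ≤ m
  apos : ∀ k ∈ D.s, 0 < D.a k
  ρpos : 0 < ρ
  flT : ∀ k ∈ D.s, D.fl k = true → D.T k ≤ 1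
  far : ∀ k ∈ D.s, ∀ l : ℤ, ¬ (D.fl k = true ∧ l = 0) → 32 * ρ ≤ ‖D.node (k, l)‖

/-- `exists_gap` twice (with `n = M - 1`), `exists_cclus`; `exists_top` among the cluster
representatives on `[M^8000, 2 M^8000]`; if the top cluster is on the right, pass to `D.refl`
(same thresholds, clusters and norms); if there is no cluster take `N0 = 0`, `d = 32 ρ`. -/
theorem CoreIn.out {D : Dat ι} {ρ : ℝ} (h : CoreIn m M D ρ) : CoreOut M D ρ := by
  have hp := h.par
  have c1 : D.s.card ≤ M - 1 := by have := h.card; have := hp.two; have := hp.big; omega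
  have e1 : (((M - 1 : ℕ) : ℝ) + 1) = M := by
    rw [Nat.cast_sub hp.one_leN]; simp
  obtain ⟨TB, h1, h2, h3⟩ := exists_gap D.s D.T c1 (hp.pow_pos 267)
  obtain ⟨TA, h4, h5, h6⟩ := exists_gap D.s D.T c1 (hp.pow_pos 7738)
  rw [e1] at h3 h6
  obtain ⟨cl, h7⟩ := exists_cclus (D.s.filter (fun k => TB < D.T k ∧ D.T k ≤ TA)) D.a D.x
    (fun k hk => (h.apos k (mem_filter.1 hk).1).ne') (fun k hk e => by
      have := ((hp.pow_pos _).trans_le h1).trans (mem_filter.1 hk).2.1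
      simp [Dat.T, e] at this) (e1 := eC1 M) (e0 := eC0 M) (n := M ^ 1)
    ((card_filter_le _ _).trans (c1.trans (by rw [pow_one]; omega))) (inv_pos.2 (hp.pow_pos _))
    (core_eps hp (by norm_num)) (env_inv_le hp _)
  exact core_pre ⟨D, ρ, TB, TA, cl, hp, h.card, h.apos, h.ρpos, h.flT, h.far, h1, h2, h3, h4, h5,
    h6, h7⟩

/-- `zeros_le` for `exp (-ν z) Lop l lat j z`, then `Chain.zb` for the chain `cc c + lat` -/
theorem CoreIn.zb {D : Dat ι} {ρ : ℝ} (h : CoreIn m M D ρ) (c : ℝ) :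
    ZB (fun z => (c : ℂ) + D.lat D.s 0 z) (-(ρ / 2)) (ρ / 2) (2 * (M : ℝ) ^ 16000) := by
  obtain ⟨j, h1, h2, l, ν, h3, h4, h5, -⟩ := h.out
  have hp := h.par
  have hρ := h.ρpos
  have hj : 1 ≤ j := (Nat.one_le_pow _ _ hp.one_leN).trans h1
  have hc := D.chain_lat D.s h.apos h.far
  have h6 := zeros_le (fun z => exp (-((ν : ℂ) * z)) * Lop l (D.lat D.s) j z) ρ _ hρ
    (hp.pow_pos 16000).le (DifferentiableOn.mul (by fun_prop)
      (((hc.lop l).differentiableOn j).mono (ball_subset_ball (by linarith only [hρ]))))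
    (fun z hz => by simpa using h5 z hz)
  have h7 := Chain.zb (((chain_cc c).mono (Set.subset_univ _)).add hc) (x := -(ρ / 2)) (y := ρ / 2)
    (fun t ht => by
      rw [mem_ball_zero_iff, norm_real, Real.norm_eq_abs, abs_lt]
      constructor <;> linarith only [hρ, ht.1, ht.2])
    (fun t _ => by simp [cc, D.lat_im]) (hp.pow_pos 16000).le l h4 j (h6.congr fun t _ => by
      have : Lop l (fun j z => cc c j z + D.lat D.s j z) j t = Lop l (D.lat D.s) j t :=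
        LL_congr l fun i hi => by simp only [cc, if_neg (show ¬ i = 0 by omega), zero_add]
      rw [this, mul_eq_zero, or_iff_right (exp_ne_zero _)])
  refine (h7.congr fun t _ => by simp [cc]).mono ?_
  have a1 : (j : ℝ) ≤ 2 * (M : ℝ) ^ 8000 := by exact_mod_cast h2
  have a2 : (l.length : ℝ) ≤ (M : ℝ) ^ 265 := by exact_mod_cast h3
  have a3 : (M : ℝ) ^ 265 ≤ (M : ℝ) ^ 8000 := hp.pow_mono (by norm_num)
  have a4 := hp.mul_pow_le (c := 3) (by norm_num) (show 8000 < 16000 by norm_num)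
  linarith only [a1, a2, a3, a4]

end Pool.Agent.Work.MP_97f157_lc.Tau
end
end

-- merged part: Pool.Agent.Work.MP_97f157_lc.TauApx
section
/-! Approximation by finitely many terms `c t^i exp (μ t)` on a clean range. -/

noncomputable section
open Complex Finset Metric

namespace Pool.Agent.Work.MP_97f157_lc.Tau

variable {ι : Type*} {m M : ℕ}

def term (c : ℂ) (p : ℤ × ℝ) (t : ℝ) : ℂ := c * (t : ℂ) ^ p.1 * exp ((p.2 : ℂ) * t)

/-- `f` is the sum of the terms up to `ε` times the largest term -/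
def Approx (f : ℝ → ℂ) (t1 t2 ε : ℝ) (s : Finset (ℤ × ℝ)) (c : ℤ × ℝ → ℂ) : Prop :=
  ∀ t ∈ Set.Icc t1 t2, ∀ B : ℝ, 0 ≤ B → (∀ p ∈ s, ‖term (c p) p t‖ ≤ B) →
    ‖f t - ∑ p ∈ s, term (c p) p t‖ ≤ ε * B

/-- the scale separation -/
def GG (M : ℕ) : ℝ := Real.exp ((M : ℝ) ^ 16001)

def Dat.shift (D : Dat ι) (x0 : ℝ) : Dat ι := { D with x := fun k => D.x k - x0 }

theorem Dat.lat_shift (D : Dat ι) (x0 : ℝ) (S : Finset ι) (j : ℕ) (z : ℂ) :
    (D.shift x0).lat S j z = D.lat S j (z + x0) := by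
  simp only [Dat.lat, Dat.shift]
  refine sum_congr rfl fun k _ => ?_
  congr 2
  push_cast
  ring

theorem Approx.add {f g : ℝ → ℂ} {t1 t2 ε ε' : ℝ} {s s' : Finset (ℤ × ℝ)} {c c' : ℤ × ℝ → ℂ}
    (h : Approx f t1 t2 ε s c) (h' : Approx g t1 t2 ε' s' c') (hd : Disjoint s s') :
    ∃ c'', Approx (fun t => f t + g t) t1 t2 (ε + ε') (s ∪ s') c'' := by
  classical
  refine ⟨fun p => if p ∈ s then c p else c' p, fun t ht B hB hb => ?_⟩
  beta_reduce at hb ⊢
  have e1 : ∀ p ∈ s, (if p ∈ s then c p else c' p) = c p := fun p hp => if_pos hp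
  have e2 : ∀ p ∈ s', (if p ∈ s then c p else c' p) = c' p := fun p hp =>
    if_neg fun hp' => disjoint_left.1 hd hp' hp
  have a1 := h t ht B hB fun p hp => by
    have := hb p (mem_union_left _ hp)
    rwa [e1 p hp] at this
  have a2 := h' t ht B hB fun p hp => by
    have := hb p (mem_union_right _ hp)
    rwa [e2 p hp] at this
  rw [sum_union hd, sum_congr rfl fun p hp => by rw [e1 p hp],
    sum_congr (s₁ := s') rfl fun p hp => by rw [e2 p hp]]
  calc _ = ‖(f t - ∑ p ∈ s, term (c p) p t) + (g t - ∑ p ∈ s', term (c' p) p t)‖ := by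
        congr 1; ring
    _ ≤ _ := norm_add_le _ _
    _ ≤ _ := by linarith

theorem apx_norm_term (c : ℂ) (p : ℤ × ℝ) {t : ℝ} (ht : 0 < t) :
    ‖term c p t‖ = ‖c‖ * Real.exp (p.1 * Real.log t + p.2 * t) := by
  rw [term, norm_mul, norm_mul, norm_zpow, Complex.norm_real, Real.norm_eq_abs, abs_of_pos ht,
    Complex.norm_exp, Real.exp_add, mul_comm (p.1 : ℝ), ← Real.rpow_def_of_pos ht,
    Real.rpow_intCast, mul_assoc]
  simp

/-- two different terms are comparable at `t` -/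
def ApxPair (c : ℤ × ℝ → ℂ) (P : ℕ) (p q : ℤ × ℝ) (t : ℝ) : Prop :=
  p ≠ q ∧ 1 ≤ P ∧ Real.log ‖c q‖ + (q.1 * Real.log t + q.2 * t) ≤
      Real.log ‖c p‖ + (p.1 * Real.log t + p.2 * t) ∧
    Real.log ‖c p‖ + (p.1 * Real.log t + p.2 * t) ≤
      Real.log (2 * P) + (Real.log ‖c q‖ + (q.1 * Real.log t + q.2 * t))

theorem apx_pair {f : ℝ → ℂ} {t1 t2 t : ℝ} {s : Finset (ℤ × ℝ)} {c : ℤ × ℝ → ℂ} {P : ℕ}
    (h : Approx f t1 t2 (1 / 4) s c) (ht1 : 0 < t1) (hs : s.card ≤ P)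
    (hnz : ∃ t ∈ Set.Icc t1 t2, f t ≠ 0) (ht : t ∈ Set.Icc t1 t2) (hf : f t = 0) :
    ∃ p ∈ s, ∃ q ∈ s, ApxPair c P p q t := by
  classical
  have t0 : 0 < t := ht1.trans_le ht.1
  obtain ⟨p0, hp0, c0⟩ : ∃ p ∈ s, c p ≠ 0 := by
    by_contra hc
    push Not at hc
    obtain ⟨t', ht', n⟩ := hnz
    have z : ∀ p ∈ s, term (c p) p t' = 0 := fun p hp => by simp [term, hc p hp]
    have := h t' ht' 0 le_rfl fun p hp => by rw [z p hp, norm_zero]
    rw [sum_eq_zero z, sub_zero, mul_zero] at this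
    exact n (norm_le_zero_iff.1 this)
  obtain ⟨p, hp, hmax⟩ := exists_max_image s (fun p => ‖term (c p) p t‖) ⟨p0, hp0⟩
  have B0 : 0 < ‖term (c p) p t‖ := lt_of_lt_of_le (by
    rw [apx_norm_term _ _ t0]; have := norm_pos_iff.2 c0; positivity) (hmax p0 hp0)
  have P1 : 1 ≤ P := le_trans (card_pos.2 ⟨p, hp⟩) hs
  have PR : (1 : ℝ) ≤ P := by exact_mod_cast P1
  have a := h t ht _ B0.le hmax
  rw [hf, zero_sub, norm_neg, ← add_sum_erase s _ hp] at a
  obtain ⟨q, hq, hq'⟩ : ∃ q ∈ s.erase p, ‖term (c p) p t‖ ≤ 2 * P * ‖term (c q) q t‖ := by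
    by_contra hc
    push Not at hc
    have b1 : ‖∑ q ∈ s.erase p, term (c q) q t‖ ≤ P * (‖term (c p) p t‖ / (2 * P)) := by
      refine (norm_sum_le _ _).trans ((sum_le_card_nsmul _ _ (‖term (c p) p t‖ / (2 * P))
        fun q hq => ?_).trans ?_)
      · rw [le_div_iff₀ (by positivity), mul_comm]; exact (hc q hq).le
      · rw [nsmul_eq_mul]
        have : ((s.erase p).card : ℝ) ≤ P := by exact_mod_cast (card_erase_le.trans hs)
        gcongr
    have b2 : (P : ℝ) * (‖term (c p) p t‖ / (2 * P)) = ‖term (c p) p t‖ / 2 := by field_simp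
    have b3 := norm_sub_le (term (c p) p t + ∑ q ∈ s.erase p, term (c q) q t)
      (∑ q ∈ s.erase p, term (c q) q t)
    rw [add_sub_cancel_right] at b3
    linarith only [B0, a, b1, b2, b3]
  have q0 : 0 < ‖term (c q) q t‖ := by
    by_contra hc
    have : 2 * P * ‖term (c q) q t‖ ≤ 0 :=
      mul_nonpos_of_nonneg_of_nonpos (by positivity) (not_lt.1 hc)
    linarith only [B0, hq', this]
  have lg : ∀ r : ℤ × ℝ, 0 < ‖term (c r) r t‖ → Real.log ‖term (c r) r t‖ =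
      Real.log ‖c r‖ + (r.1 * Real.log t + r.2 * t) := fun r hr => by
    rw [apx_norm_term _ _ t0] at hr ⊢
    rw [Real.log_mul (left_ne_zero_of_mul hr.ne') (Real.exp_pos _).ne', Real.log_exp]
  refine ⟨p, hp, q, mem_of_mem_erase hq, (ne_of_mem_erase hq).symm, P1, ?_, ?_⟩
  · rw [← lg p B0, ← lg q q0]
    exact Real.log_le_log q0 (hmax q (mem_of_mem_erase hq))
  · rw [← lg p B0, ← lg q q0, ← Real.log_mul (by positivity) q0.ne']
    exact Real.log_le_log B0 hq'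

theorem apx_ratio {c : ℤ × ℝ → ℂ} {P : ℕ} {p q : ℤ × ℝ} {t1 τ t G : ℝ} (ht1 : 0 < t1)
    (hτ : t1 ≤ τ) (le : τ ≤ t) (hp : |p.1| ≤ (P : ℤ)) (hq : |q.1| ≤ (P : ℤ))
    (hG : 2 * (P : ℝ) + 1 ≤ G) (hsep : p.2 = q.2 ∨ G ≤ |p.2 - q.2| * t1)
    (a : ApxPair c P p q τ) (b : ApxPair c P p q t) : t ≤ 2 * P * τ := by
  obtain ⟨ne, P1, a1, a2⟩ := a
  obtain ⟨-, -, b1, b2⟩ := b
  have PR : (1 : ℝ) ≤ P := by exact_mod_cast P1
  have τ0 : 0 < τ := ht1.trans_le hτ
  have t0 : 0 < t := τ0.trans_le le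
  have l0 : 0 ≤ Real.log t - Real.log τ := sub_nonneg.2 (Real.log_le_log τ0 le)
  have l1 : (Real.log t - Real.log τ) * τ ≤ t - τ := by
    have := Real.log_le_sub_one_of_pos (div_pos t0 τ0)
    rw [Real.log_div t0.ne' τ0.ne'] at this
    calc _ ≤ (t / τ - 1) * τ := by gcongr
      _ = _ := by field_simp
  have d : |((p.1 : ℝ) - q.1) * (Real.log t - Real.log τ) + (p.2 - q.2) * (t - τ)| ≤
      Real.log (2 * P) := abs_le.2 ⟨by linarith only [a2, b1], by linarith only [a1, b2]⟩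
  have key : Real.log t - Real.log τ ≤ Real.log (2 * P) := by
    refine le_trans ?_ d
    rcases hsep with e | e
    · have n1 : p.1 - q.1 ≠ 0 := fun e' => ne (Prod.ext (by omega) e)
      have n2 : (1 : ℝ) ≤ |(p.1 : ℝ) - q.1| := by exact_mod_cast Int.one_le_abs n1
      rw [e, sub_self, zero_mul, add_zero, abs_mul, abs_of_nonneg l0]
      exact le_mul_of_one_le_left l0 n2
    · have n1 : |(p.1 : ℝ) - q.1| ≤ 2 * P := by
        have : |p.1 - q.1| ≤ 2 * (P : ℤ) := by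
          rw [abs_le] at *
          omega
        exact_mod_cast this
      have n2 := abs_add_le (((p.1 : ℝ) - q.1) * (Real.log t - Real.log τ) + (p.2 - q.2) * (t - τ))
        (-(((p.1 : ℝ) - q.1) * (Real.log t - Real.log τ)))
      rw [add_neg_cancel_comm, abs_neg, abs_mul, abs_mul _ (Real.log t - Real.log τ),
        abs_of_nonneg l0, abs_of_nonneg (sub_nonneg.2 le)] at n2
      have n3 : G * (Real.log t - Real.log τ) ≤ |p.2 - q.2| * (t - τ) :=
        calc _ ≤ |p.2 - q.2| * τ * (Real.log t - Real.log τ) := by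
              gcongr; exact e.trans (by gcongr)
          _ = |p.2 - q.2| * ((Real.log t - Real.log τ) * τ) := by ring
          _ ≤ _ := by gcongr
      have n4 := mul_le_mul_of_nonneg_right n1 l0
      have n5 := mul_le_mul_of_nonneg_right hG l0
      linarith only [n2, n3, n4, n5]
  rw [sub_le_iff_le_add, ← Real.log_mul (by positivity) τ0.ne'] at key
  exact (Real.log_le_log_iff t0 (by positivity)).1 key

/-- At a zero `t` the largest term is nonzero (otherwise all coefficients vanish and `f ≡ 0`), so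
two different terms `p, q` have `‖term p‖ / (2P) ≤ ‖term q‖ ≤ ‖term p‖`.  For a fixed pair,
`L t = log ‖term p‖ - log ‖term q‖` satisfies `log (t'/t) ≤ |L t' - L t|` for `t ≤ t'`
(`t'/t - 1 ≥ log (t'/t)`).  Let `τ` be the least zero in `Z` attached to the pair. -/
theorem Approx.zeros {f : ℝ → ℂ} {t1 t2 G : ℝ} {s : Finset (ℤ × ℝ)} {c : ℤ × ℝ → ℂ} {P : ℕ}
    (h : Approx f t1 t2 (1 / 4) s c) (ht1 : 0 < t1) (hs : s.card ≤ P)
    (hi : ∀ p ∈ s, |p.1| ≤ (P : ℤ)) (hG : 2 * (P : ℝ) + 1 ≤ G)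
    (hsep : ∀ p ∈ s, ∀ q ∈ s, p.2 = q.2 ∨ G ≤ |p.2 - q.2| * t1)
    (hnz : ∃ t ∈ Set.Icc t1 t2, f t ≠ 0) (Z : Finset ℝ)
    (hZ : ∀ t ∈ Z, t ∈ Set.Icc t1 t2 ∧ f t = 0) :
    ∃ T ⊆ Z, T.card ≤ P ^ 2 ∧ ∀ t ∈ Z, ∃ τ ∈ T, τ ≤ t ∧ t ≤ 2 * P * τ := by
  classical
  have key : ∀ t ∈ Z, ∃ w : (ℤ × ℝ) × (ℤ × ℝ), w ∈ s ×ˢ s ∧ ApxPair c P w.1 w.2 t :=
    fun t ht => by
      obtain ⟨p, hp, q, hq, a⟩ := apx_pair h ht1 hs hnz (hZ t ht).1 (hZ t ht).2
      exact ⟨(p, q), mem_product.2 ⟨hp, hq⟩, a⟩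
  choose! pr hpr using key
  refine ⟨Z.filter fun τ => ∀ t ∈ Z, pr t = pr τ → τ ≤ t, filter_subset _ _, ?_, fun t ht => ?_⟩
  · calc _ ≤ (s ×ˢ s).card := by
          refine card_le_card_of_injOn pr (fun τ hτ => (hpr τ (mem_filter.1 hτ).1).1) ?_
          intro τ hτ τ' hτ' e
          have a := mem_filter.1 hτ
          have b := mem_filter.1 hτ'
          exact le_antisymm (a.2 τ' b.1 e.symm) (b.2 τ a.1 e)
      _ ≤ P ^ 2 := by rw [card_product, sq]; exact Nat.mul_le_mul hs hs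
  · obtain ⟨τ, hτ, hmin⟩ := exists_min_image (Z.filter fun τ => pr τ = pr t) id
      ⟨t, mem_filter.2 ⟨ht, rfl⟩⟩
    obtain ⟨hτZ, e⟩ := mem_filter.1 hτ
    have le : τ ≤ t := hmin t (mem_filter.2 ⟨ht, rfl⟩)
    refine ⟨τ, mem_filter.2 ⟨hτZ, fun t' ht' e' => hmin t' (mem_filter.2 ⟨ht', e'.trans e⟩)⟩, le, ?_⟩
    obtain ⟨m1, a1⟩ := hpr t ht
    obtain ⟨-, a2⟩ := hpr τ hτZ
    rw [e] at a2
    obtain ⟨mp, mq⟩ := mem_product.1 m1
    exact apx_ratio ht1 (hZ τ hτZ).1.1 le (hi _ mp) (hi _ mq) hG (hsep _ mp _ mq) a2 a1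

theorem apx_GG (hp : Par m M) : 512 * Real.exp ((M : ℝ) ^ 16000) ≤ GG M := by
  have a1 := hp.mul_pow_le (c := 10 ^ 12) le_rfl (show 16000 < 16001 by norm_num)
  have a2 : (1 : ℝ) ≤ (M : ℝ) ^ 16000 := one_le_pow₀ hp.one_le
  unfold GG
  generalize (M : ℝ) ^ 16000 = X at *
  generalize (M : ℝ) ^ 16001 = Y at *
  have a3 := Real.add_one_le_exp (Y - X)
  calc _ ≤ Real.exp (Y - X) * Real.exp X := by gcongr; linarith only [a2, a1, a3]
    _ = _ := by rw [← Real.exp_add, sub_add_cancel]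

theorem apx_term_nat (c : ℂ) (i : ℕ) (t : ℝ) : term c ((i : ℤ), 0) t = c * (t : ℂ) ^ i := by
  simp [term]

/-- `CoreIn.out` (here `l = []`, `ν = 0`), `Chain.taylor` with `j = 0`, `Chain.cauchy` with `r = 2ρ`;
the coefficients are `(-1)^i lat i 0` (plus `c` for `i = 0`), `i ≤ j` -/
theorem approx_far {D : Dat ι} {ρ t1 t2 : ℝ} (h : CoreIn m M D ρ) (ha : ∀ k ∈ D.s, D.a k * ρ ≤ 1)
    (ht1 : 0 < t1) (ht : t2 * GG M ≤ 32 * ρ) (c : ℂ) :
    ∃ (s : Finset (ℤ × ℝ)) (e : ℤ × ℝ → ℂ), s.card ≤ 2 * M ^ 8000 + 1 ∧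
      (∀ p ∈ s, 0 ≤ p.1 ∧ p.1 ≤ 2 * (M : ℤ) ^ 8000 ∧ p.2 = 0) ∧
      Approx (fun t => c + D.lat D.s 0 t) t1 t2 (1 / 16) s e := by
  classical
  have hp := h.par
  have hρ := h.ρpos
  obtain ⟨j, j1, j2, l, ν, -, -, hb, hl⟩ := h.out
  obtain ⟨rfl, rfl⟩ := hl ha
  have hb' : ∀ z : ℂ, ‖z‖ ≤ 2 * ρ → ‖D.lat D.s j z‖ ≤
      Real.exp ((M : ℝ) ^ 16000) * ‖D.lat D.s j 0‖ := fun z hz => by
    have := hb z hz
    rwa [Complex.ofReal_zero, zero_mul, neg_zero, Complex.exp_zero, one_mul] at this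
  have hch := D.chain_lat D.s h.apos h.far
  have j0 : 1 ≤ j := le_trans (Nat.one_le_pow _ _ hp.one_leN) j1
  have inj : Function.Injective fun i : ℕ => (((i : ℤ), 0) : ℤ × ℝ) := fun a b e => by
    simpa using e
  refine ⟨(range (j + 1)).image fun i : ℕ => (((i : ℤ), 0) : ℤ × ℝ),
    fun p => (-1) ^ p.1.toNat * D.lat D.s p.1.toNat 0 + if p.1 = 0 then c else 0, ?_, ?_, ?_⟩
  · exact card_image_le.trans (by rw [card_range]; omega)
  · intro p hp'
    obtain ⟨i, hi, rfl⟩ := mem_image.1 hp'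
    have : i ≤ 2 * M ^ 8000 := by have := mem_range.1 hi; omega
    exact ⟨Int.natCast_nonneg i, show (i : ℤ) ≤ _ by exact_mod_cast this, rfl⟩
  · intro t ht' B hB hterm
    beta_reduce at hterm ⊢
    have t0 : 0 < t := ht1.trans_le ht'.1
    have hG := apx_GG hp
    have e0 := Real.exp_pos ((M : ℝ) ^ 16000)
    have e1 : 1 ≤ Real.exp ((M : ℝ) ^ 16000) := Real.one_le_exp (hp.pow_pos _).le
    generalize Real.exp ((M : ℝ) ^ 16000) = X at *
    have tG : t * (512 * X) ≤ 32 * ρ :=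
      le_trans (mul_le_mul ht'.2 hG (by positivity) (t0.le.trans ht'.2)) ht
    have tr : t * X ≤ ρ / 16 := by linarith only [tG]
    have tρ : t ≤ ρ / 16 := le_trans (le_mul_of_one_le_right t0.le e1) tr
    have hT := hch.taylor 0 (t : ℂ) (by
      rw [Complex.norm_real, Real.norm_eq_abs, abs_of_pos t0]; linarith only [t0, tρ])
    simp only [zero_add, Nat.choose_self, Nat.cast_one, one_mul] at hT
    have hT2 := (hasSum_nat_add_iff' (j + 1)).2 hT
    have eq : ∑ p ∈ (range (j + 1)).image (fun i : ℕ => (((i : ℤ), 0) : ℤ × ℝ)),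
        term ((-1) ^ p.1.toNat * D.lat D.s p.1.toNat 0 + if p.1 = 0 then c else 0) p t =
        c + ∑ i ∈ range (j + 1), (-(t : ℂ)) ^ i * D.lat D.s i 0 := by
      rw [sum_image fun a _ b _ e => inj e, sum_range_succ', sum_range_succ' _ j, ← add_assoc,
        add_comm c, add_assoc]
      congr 1
      · refine sum_congr rfl fun i _ => ?_
        rw [apx_term_nat, if_neg (by omega), Int.toNat_natCast, neg_pow (t : ℂ)]
        ring
      · rw [apx_term_nat]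
        simp [add_comm]
    have hj := hterm _ (mem_image_of_mem _ (self_mem_range_succ j))
    rw [apx_term_nat, if_neg (by omega), Int.toNat_natCast, add_zero] at hj
    simp only [norm_mul, norm_pow, norm_neg, norm_one, one_pow, one_mul, Complex.norm_real,
      Real.norm_eq_abs, abs_of_pos t0] at hj
    rw [eq, add_sub_add_left_eq_sub]
    have g := (hasSum_geometric_of_lt_one (r := 1 / 2) (by norm_num) (by norm_num)).mul_left
      (B / 32)
    refine (hT2.norm_le_of_bounded g fun i => ?_).trans (le_of_eq (by ring))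
    have hC := hch.cauchy (r := 2 * ρ) (by positivity) (by linarith only [t0, tρ]) j hb' (i + 1)
    have c1 : (1 : ℝ) ≤ ((j + (i + 1)).choose (i + 1) : ℝ) := by
      exact_mod_cast Nat.choose_pos (by omega)
    have hC' : (2 * ρ) ^ (i + 1) * ‖D.lat D.s (j + (i + 1)) 0‖ ≤ X * ‖D.lat D.s j 0‖ := by
      refine le_trans ?_ hC
      rw [mul_assoc]
      exact le_mul_of_one_le_left (by positivity) c1
    rw [show i + (j + 1) = j + (i + 1) by ring]
    simp only [norm_mul, norm_pow, norm_neg, Complex.norm_real, Real.norm_eq_abs, abs_of_pos t0]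
    have q1 : t ^ i ≤ (2 * ρ) ^ i * (1 / 2) ^ i := by
      rw [← mul_pow]; exact pow_le_pow_left₀ t0.le (by linarith only [t0, tρ]) i
    refine le_of_mul_le_mul_left ?_ (show 0 < (2 * ρ) ^ (i + 1) by positivity)
    calc _ = t ^ j * t ^ (i + 1) * ((2 * ρ) ^ (i + 1) * ‖D.lat D.s (j + (i + 1)) 0‖) := by ring
      _ ≤ t ^ j * t ^ (i + 1) * (X * ‖D.lat D.s j 0‖) := by gcongr
      _ = (‖D.lat D.s j 0‖ * t ^ j) * (t * X) * t ^ i := by ring
      _ ≤ B * (ρ / 16) * ((2 * ρ) ^ i * (1 / 2) ^ i) := by gcongr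
      _ = _ := by ring

/-- multipole expansion `∑ W k / (t - x k) = ∑_i (∑ W k x k ^ i) / t^(i+1)`; keep `i < M`;
`reduce_one` with `u = x GG / (2 t)` -/
theorem approx_near (hp : Par m M) (S : Finset ι) (hS : S.card ≤ m) (W x : ι → ℝ) {t1 t2 : ℝ}
    (ht1 : 0 < t1) (hx : ∀ k ∈ S, |x k| * GG M ≤ t1) :
    ∃ (s : Finset (ℤ × ℝ)) (e : ℤ × ℝ → ℂ), s.card ≤ M ∧
      (∀ p ∈ s, -(M : ℤ) ≤ p.1 ∧ p.1 < 0 ∧ p.2 = 0) ∧
      Approx (fun t => ∑ k ∈ S, (W k : ℂ) * pc 0 0 (t - x k)) t1 t2 (1 / 16) s e := by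
  classical
  have inj : Function.Injective fun i : ℕ => ((-((i : ℤ) + 1), 0) : ℤ × ℝ) := fun a b e => by
    simpa using e
  refine ⟨(range M).image fun i : ℕ => ((-((i : ℤ) + 1), 0) : ℤ × ℝ),
    fun p => ∑ k ∈ S, (W k : ℂ) * (x k : ℂ) ^ (-p.1 - 1).toNat, ?_, ?_, ?_⟩
  · exact card_image_le.trans (card_range M).le
  · intro p hp'
    obtain ⟨i, hi, rfl⟩ := mem_image.1 hp'
    have := mem_range.1 hi
    exact ⟨by simp only; omega, by simp only; omega, rfl⟩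
  · intro t ht' B hB hterm
    beta_reduce at hterm ⊢
    have t0 : 0 < t := ht1.trans_le ht'.1
    have tc : (t : ℂ) ≠ 0 := by exact_mod_cast t0.ne'
    have hG : 512 ≤ GG M := le_trans (le_mul_of_one_le_right (by norm_num)
      (Real.one_le_exp (hp.pow_pos _).le)) (apx_GG hp)
    generalize GG M = Γ at *
    have G0 : 0 < Γ := by linarith only [hG]
    have Gc : (Γ : ℂ) ≠ 0 := by exact_mod_cast G0.ne'
    set y : ℕ → ℂ := fun i => ∑ k ∈ S, (W k : ℂ) / t * ((x k : ℂ) / t) ^ i with hy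
    have et : ∀ i : ℕ, term (∑ k ∈ S, (W k : ℂ) * (x k : ℂ) ^ (-(-((i : ℤ) + 1)) - 1).toNat)
        (-((i : ℤ) + 1), 0) t = y i := fun i => by
      rw [show (-(-((i : ℤ) + 1)) - 1).toNat = i by omega]
      simp only [term, hy, Complex.ofReal_zero, zero_mul, Complex.exp_zero, mul_one, sum_mul]
      refine sum_congr rfl fun k _ => ?_
      rw [zpow_neg, zpow_add_one₀ tc, zpow_natCast, div_pow]
      field_simp
    have hxt : ∀ k ∈ S, |x k| * Γ ≤ t := fun k hk => (hx k hk).trans ht'.1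
    have hS' : HasSum y (∑ k ∈ S, (W k : ℂ) * pc 0 0 (t - x k)) := by
      refine hasSum_sum fun k hk => ?_
      have a1 : |x k| < t := by
        have := hxt k hk
        have := abs_nonneg (x k)
        nlinarith
      have a2 : ‖(x k : ℂ) / t‖ < 1 := by
        rw [norm_div, Complex.norm_real, Complex.norm_real, Real.norm_eq_abs, Real.norm_eq_abs,
          abs_of_pos t0, div_lt_one t0]
        exact a1
      have a3 := (hasSum_geometric_of_norm_lt_one a2).mul_left ((W k : ℂ) / t)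
      have a4 : (t : ℂ) - x k ≠ 0 := by
        have : t - x k ≠ 0 := by have := le_abs_self (x k); linarith only [a1, this]
        exact_mod_cast this
      have a5 : (W k : ℂ) * pc 0 0 (t - x k) = (W k : ℂ) / t * (1 - (x k : ℂ) / t)⁻¹ := by
        simp only [pc, sub_zero, zero_add, pow_one]
        field_simp
      rw [a5]
      exact a3
    have hT2 := (hasSum_nat_add_iff' M).2 hS'
    rw [sum_image fun a _ b _ e => inj e, sum_congr rfl fun i _ => et i]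
    have hyB : ∀ i < M, ‖y i‖ ≤ B := fun i hi => by
      have := hterm _ (mem_image_of_mem _ (mem_range.2 hi))
      rwa [et] at this
    have ez : ∀ i : ℕ, ‖∑ k ∈ S, (W k : ℂ) / t * ((x k : ℂ) * Γ / (2 * t)) ^ i‖ =
        (Γ / 2) ^ i * ‖y i‖ := fun i => by
      have : ∑ k ∈ S, (W k : ℂ) / t * ((x k : ℂ) * Γ / (2 * t)) ^ i =
          (((Γ / 2 : ℝ) : ℂ)) ^ i * y i := by
        simp only [hy, mul_sum]
        refine sum_congr rfl fun k _ => ?_
        rw [show (x k : ℂ) * Γ / (2 * t) = ((Γ / 2 : ℝ) : ℂ) * ((x k : ℂ) / t) by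
          push_cast; ring, mul_pow]
        ring
      rw [this, norm_mul, norm_pow, Complex.norm_real, Real.norm_eq_abs, abs_of_pos (by positivity)]
    have G1 : 1 ≤ Γ / 2 := by linarith only [hG]
    have hm := hp.two
    have red := reduce_one (s := S) (u := fun k => (x k : ℂ) * Γ / (2 * t))
      (g := fun k => (W k : ℂ) / t) (B := (Γ / 2) ^ m * B) hS (fun k hk => by
        rw [norm_div, norm_mul, norm_mul, Complex.norm_real, Complex.norm_real, Complex.norm_real,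
          Real.norm_eq_abs, Real.norm_eq_abs, Real.norm_eq_abs, abs_of_pos t0, abs_of_pos G0,
          Complex.norm_two, div_le_iff₀ (by positivity)]
        have := hxt k hk
        linarith only [this]) (by positivity) (fun i hi => by
        rw [ez]
        exact mul_le_mul (pow_le_pow_right₀ G1 hi.le) (hyB i (by omega)) (norm_nonneg _)
          (by positivity))
    have g := (hasSum_geometric_of_lt_one (r := 1 / 2) (by norm_num) (by norm_num)).mul_left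
      (B / 32)
    refine (hT2.norm_le_of_bounded g fun i => ?_).trans (le_of_eq (by ring))
    have r1 := red (i + M)
    rw [ez] at r1
    obtain ⟨n, hn⟩ : ∃ n, M = m + (n + 1) := ⟨M - m - 1, by have := hp.one_leN; omega⟩
    have q1 : (3 : ℝ) ^ m ≤ 3 ^ (n + 1) := pow_le_pow_right₀ (by norm_num) (by omega)
    have q2 : (3 : ℝ) ^ n ≤ (Γ / 2) ^ n := pow_le_pow_left₀ (by norm_num) (by linarith only [hG]) n
    have q3 : (2 : ℝ) ^ i ≤ (Γ / 2) ^ i := pow_le_pow_left₀ (by norm_num) (by linarith only [hG]) i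
    have q4 : (2 : ℝ) ^ i * (1 / 2) ^ i = 1 := by rw [← mul_pow]; norm_num
    refine le_of_mul_le_mul_left (r1.trans ?_) (show 0 < (Γ / 2) ^ (i + M) by positivity)
    calc _ ≤ 3 ^ (n + 1) * ((Γ / 2) ^ m * B) := by gcongr
      _ = (2 ^ i * (1 / 2) ^ i) * 3 ^ n * 3 * ((Γ / 2) ^ m * B) := by rw [q4]; ring
      _ ≤ ((Γ / 2) ^ i * (1 / 2) ^ i) * (Γ / 2) ^ n * (Γ / 2 / 32) * ((Γ / 2) ^ m * B) := by
          gcongr; linarith only [hG]
      _ = _ := by rw [hn]; ring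

end Pool.Agent.Work.MP_97f157_lc.Tau
end
end

-- merged part: Pool.Agent.Work.MP_97f157_lc.TauApxH
section
/-! Lattices with large `a` on a clean range. -/

noncomputable section
open Complex Finset Metric

namespace Pool.Agent.Work.MP_97f157_lc.Tau

variable {ι : Type*} {m M : ℕ}

/-- One class of close frequencies: with `v = (μ - μ0) t`, `‖v‖ ≤ 1/GG`, the sum
`∑ g exp v` is `∑_{i<n} (∑ g v^i) / i!` up to `4 * 3^n / GG` times the largest of these terms
(`reduce_one` for `v GG / 2`), and all moments of `g` in `v` are at most `3^n n!` times it. -/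
theorem class_expand {κ : Type*} (hp : Par m M) (s : Finset κ) (hs : s.card ≤ M ^ 264)
    (g v : κ → ℂ) (hv : ∀ k ∈ s, ‖v k‖ * GG M ≤ 1) (B : ℝ) (hB0 : 0 ≤ B)
    (hB : ∀ i < M ^ 264, ‖(∑ k ∈ s, g k * v k ^ i) / (i.factorial : ℂ)‖ ≤ B) :
    ‖∑ k ∈ s, g k * exp (v k) - ∑ i ∈ range (M ^ 264), (∑ k ∈ s, g k * v k ^ i) / (i.factorial : ℂ)‖ ≤
        Real.exp (-(M : ℝ) ^ 16000) * B ∧
      NB s v (fun _ => 0) (fun k => g k * exp (v k)) (Real.exp ((M : ℝ) ^ 265) * B) := by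
  have hG : 4 ≤ GG M := by
    have := apxH_mul_le hp (c := 4) (by norm_num) (k := 0) (by norm_num)
    rwa [pow_zero, mul_one] at this
  refine ⟨?_, (apxH_nb s hs g v (fun k hk => ?_) hB0 hB).mono ?_⟩
  · have h1 := apxH_num1 hp
    have h2 : 1 ≤ M ^ 264 := Nat.one_le_pow _ _ hp.one_leN
    generalize M ^ 264 = n at *
    obtain ⟨n, rfl⟩ := Nat.exists_eq_add_of_le' h2
    exact (apxH_tail s hs g v hG hv hB0 hB).trans (mul_le_mul_of_nonneg_right h1 hB0)
  · have h1 := hv k hk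
    nlinarith only [hG, h1, norm_nonneg (v k)]
  · rw [← mul_assoc (3 ^ _ : ℝ), ← mul_assoc]
    exact mul_le_mul_of_nonneg_right (apxH_num2 hp) hB0

/-- index set of the expansion -/
def apxH_s {κ : Type*} (n : ℕ) (P : Finset κ) (φ : κ → ℝ) : Finset (ℤ × ℝ) :=
  (range n).map Nat.castEmbedding ×ˢ P.image φ

/-- coefficients of the expansion -/
def apxH_e {κ : Type*} (P : Finset κ) (μ φ : κ → ℝ) (c : κ → ℂ) (p : ℤ × ℝ) : ℂ :=
  (∑ ν ∈ P.filter (fun ν => φ ν = p.2), c ν * ((μ ν - p.2 : ℝ) : ℂ) ^ p.1.toNat) /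
    (p.1.toNat.factorial : ℂ)

theorem apxH_term {κ : Type*} (P : Finset κ) (μ φ : κ → ℝ) (c : κ → ℂ) (i : ℕ) (y t : ℝ) :
    term (apxH_e P μ φ c (i, y)) (i, y) t =
      (∑ ν ∈ P.filter (fun ν => φ ν = y), c ν * exp ((y : ℂ) * t) *
        (((μ ν - y) * t : ℝ) : ℂ) ^ i) / (i.factorial : ℂ) := by
  simp only [term, apxH_e, Int.toNat_natCast, zpow_natCast, div_mul_eq_mul_div, sum_mul]
  congr 1
  refine sum_congr rfl fun ν _ => ?_
  rw [ofReal_mul, mul_pow]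
  ring

theorem apxH_main {κ : Type*} (hp : Par m M) (P : Finset κ) (hP : P.card ≤ M ^ 264) (μ φ : κ → ℝ)
    (c : κ → ℂ) {t B : ℝ} (ht : 0 < t) (hφ : ∀ k ∈ P, |μ k - φ k| * t * GG M ≤ 1) (hB0 : 0 ≤ B)
    (hB : ∀ p ∈ apxH_s (M ^ 264) P φ, ‖term (apxH_e P μ φ c p) p t‖ ≤ B) :
    ‖∑ k ∈ P, c k * exp ((μ k : ℂ) * t) -
      ∑ p ∈ apxH_s (M ^ 264) P φ, term (apxH_e P μ φ c p) p t‖ ≤ 1 / 32 * B ∧
    ∀ k ∈ P, NB (P.filter fun k' => φ k' = φ k) (fun ν => (((μ ν - φ k) * t : ℝ) : ℂ))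
      (fun _ => 0) (fun ν => c ν * exp ((μ ν : ℂ) * t)) (Real.exp ((M : ℝ) ^ 265) * B) := by
  have key := fun y (hy : y ∈ P.image φ) => class_expand hp (P.filter fun ν => φ ν = y)
    ((card_filter_le _ _).trans hP) (fun ν => c ν * exp ((y : ℂ) * t))
    (fun ν => (((μ ν - y) * t : ℝ) : ℂ)) (fun k hk => by
      obtain ⟨h1, h2⟩ := mem_filter.1 hk
      rw [norm_real, Real.norm_eq_abs, abs_mul, abs_of_pos ht, ← h2]
      exact hφ k h1) B hB0 fun i hi => by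
      rw [← apxH_term]
      exact hB _ (mem_product.2 ⟨mem_map_of_mem _ (mem_range.2 hi), hy⟩)
  have e : ∀ (y : ℝ) (ν : κ), c ν * exp ((y : ℂ) * t) * exp ((((μ ν - y) * t : ℝ) : ℂ)) =
      c ν * exp ((μ ν : ℂ) * t) := fun y ν => by
    rw [mul_assoc, ← exp_add]
    congr 2
    push_cast
    ring
  simp only [e] at key
  refine ⟨?_, fun k hk => (key _ (mem_image_of_mem φ hk)).2⟩
  rw [← sum_fiberwise_of_maps_to (g := φ) (t := P.image φ) fun k hk => mem_image_of_mem φ hk,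
    apxH_s, sum_product_right, ← sum_sub_distrib]
  refine (norm_sum_le_of_le _ (n := fun _ => Real.exp (-(M : ℝ) ^ 16000) * B) fun y hy => ?_).trans ?_
  · rw [sum_map]
    simp only [Nat.castEmbedding_apply, apxH_term]
    exact (key y hy).1
  · rw [sum_const, nsmul_eq_mul, ← mul_assoc]
    refine mul_le_mul_of_nonneg_right ?_ hB0
    have h1 : ((P.image φ).card : ℝ) ≤ (M : ℝ) ^ 264 := by
      exact_mod_cast card_image_le.trans hP
    have h2 := hp.mul_pow_le (c := 32) (by norm_num) (show 264 < 16000 by norm_num)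
    have h3 := Real.add_one_le_exp ((M : ℝ) ^ 16000)
    rw [Real.exp_neg, ← div_eq_mul_inv, div_le_iff₀ (Real.exp_pos _)]
    linarith only [h1, h2, h3]

theorem apxH_side {x t t1 t2 G : ℝ} (hG : 2 ≤ G) (ht1 : 0 < t1) (h1 : t1 ≤ t) (h2 : t ≤ t2)
    (hx : |x| * G ≤ t1 ∨ t2 * G ≤ |x|) :
    (x - t < 0 ↔ ¬ t2 < x) ∧ (0 < x - t ↔ t2 < x) ∧ t1 / 2 ≤ |x - t| := by
  rcases hx with h | h
  · have h3 : x ≤ t1 / 2 := by nlinarith only [hG, ht1, h, le_abs_self x, abs_nonneg x]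
    rw [abs_of_neg (show x - t < 0 by linarith)]
    exact ⟨⟨fun _ => by linarith, fun _ => by linarith only [ht1, h1, h3]⟩,
      ⟨fun _ => by linarith, fun _ => by linarith⟩, by linarith only [h1, h3]⟩
  · have h3 : 2 * t2 ≤ |x| := by linarith only [h, hG, ht1, h1, h2, mul_nonneg_of_nonpos_of_nonpos (Mathlib.Tactic.Linarith.sub_nonpos_of_le hG) (le_of_lt (Mathlib.Tactic.Linarith.sub_neg_of_lt ht1)), mul_nonneg_of_nonpos_of_nonpos (Mathlib.Tactic.Linarith.sub_nonpos_of_le hG) (Mathlib.Tactic.Linarith.sub_nonpos_of_le h1), mul_nonneg_of_nonpos_of_nonpos (Mathlib.Tactic.Linarith.sub_nonpos_of_le hG) (Mathlib.Tactic.Linarith.sub_nonpos_of_le h2)]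
    rcases le_total 0 x with c | c
    · rw [abs_of_nonneg c] at h3
      rw [abs_of_pos (show 0 < x - t by linarith)]
      exact ⟨⟨fun _ => by linarith, fun h => absurd (by linarith) h⟩,
        ⟨fun _ => by linarith, fun _ => by linarith⟩, by linarith only [ht1, h1, h2, h3]⟩
    · rw [abs_of_neg (show x - t < 0 by linarith)]
      exact ⟨⟨fun _ => by linarith, fun _ => by linarith⟩,
        ⟨fun _ => by linarith, fun _ => by linarith⟩, by linarith only [ht1, h1, c]⟩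

theorem apxH_coef (D : Dat ι) (t : ℝ) (ν : ι × ℕ) :
    (D.shift t).cf ν = ((-(D.shift t).sg ν.1 * D.W ν.1 * D.a ν.1 *
      Real.exp (-((D.shift t).freq ν * D.x ν.1)) : ℝ) : ℂ) * exp (((D.shift t).freq ν : ℂ) * t) := by
  rw [Dat.cf, ← ofReal_mul, ← ofReal_exp, ← ofReal_mul, mul_assoc _ (Real.exp _), ← Real.exp_add,
    Dat.coef]
  congr 3
  simp only [Dat.T, Dat.freq, Dat.sg, Dat.shift]
  by_cases c : D.x ν.1 - t < 0
  · simp only [abs_of_neg c, c, if_true]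
    ring
  · simp only [abs_of_nonneg (not_lt.1 c), c, if_false]
    ring

/-- For `t ∈ [t1, t2]` put `Dt = D.shift t`; its signs `sg` and frequencies `μ ν` do not depend on `t`,
`Dt.coef ν = c ν exp (μ ν t)` with `c ν = - sg W a exp (- μ ν x)`, `Dt.T k ≥ GG / 2`.
`lat_eq_exps_add_tail` at `j = 0`, `z = 0`.  Classes of `pA s (M^263)` for the equivalence relation
`|μ ν - μ ν'| t2 GG ≤ 1` (`exists_rep`; frequencies of opposite signs are far apart); index set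
`{(i, μ β) | i < M^264, β representative}`, coefficient `∑_{ν ∈ β} c ν (μ ν - μ β)^i / i!`;
`class_expand`.  The tail is bounded by `tailA_le` with `ρ = 0`, `j = 0`, `l = []`, atoms from
`exists_rclus`: each class lies inside one atom (`eA0 GG² > 1`), and
`rv = v / (t μ α eA1) + (μ β / μ α - 1) / eA1` is a multiplier of norm `≤ 1` (`NB.recenter_le`), so that
`E = exp (M^266) B` works. -/
theorem approx_hi (hp : Par m M) (D : Dat ι) (hs : D.s.card ≤ m) (hfl : ∀ k ∈ D.s, D.fl k = false)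
    {t1 t2 : ℝ} (ht1 : 0 < t1) (ht : t1 ≤ t2) (ha : ∀ k ∈ D.s, GG M ≤ D.a k * t1)
    (hx : ∀ k ∈ D.s, |D.x k| * GG M ≤ t1 ∨ t2 * GG M ≤ |D.x k|)
    (hf : ∀ k ∈ D.s, ∀ k' ∈ D.s, ∀ n ∈ Icc 1 (M ^ 263), ∀ n' ∈ Icc 1 (M ^ 263),
      |(n : ℝ) * D.a k - n' * D.a k'| * t2 * GG M ≤ 1 ∨ GG M ≤ |(n : ℝ) * D.a k - n' * D.a k'| * t1) :
    ∃ (s : Finset (ℤ × ℝ)) (e : ℤ × ℝ → ℂ), s.card ≤ M ^ 528 ∧
      (∀ p ∈ s, 0 ≤ p.1 ∧ p.1 ≤ (M : ℤ) ^ 264 ∧ GG M ≤ |p.2| * t1) ∧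
      (∀ p ∈ s, ∀ q ∈ s, p.2 = q.2 ∨ GG M ≤ |p.2 - q.2| * t1) ∧
      Approx (fun t => D.lat D.s 0 t + ∑ k ∈ D.s.filter (fun k => t2 < D.x k), ((D.W k * D.a k : ℝ) : ℂ))
        t1 t2 (1 / 16) s e := by
  have hG : 4 ≤ GG M := by
    have := apxH_mul_le hp (c := 4) (by norm_num) (k := 0) (by norm_num)
    rwa [pow_zero, mul_one] at this
  have ha0 : ∀ k ∈ D.s, 0 < D.a k := fun k hk =>
    (pos_iff_pos_of_mul_pos (lt_of_lt_of_le (by linarith only [hG]) (ha k hk))).2 ht1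
  have hside := fun (t : ℝ) (h : t ∈ Set.Icc t1 t2) (k : ι) (hk : k ∈ D.s) =>
    apxH_side (G := GG M) (by linarith) ht1 h.1 h.2 (hx k hk)
  set P := Dat.pA D.s (M ^ 263) with hPdef
  have hmem : ∀ ν ∈ P, ν.1 ∈ D.s ∧ ν.2 ∈ Icc 1 (M ^ 263) := fun ν hν => mem_product.1 hν
  have hP : P.card ≤ M ^ 264 := by
    rw [hPdef, Dat.pA, card_product, Nat.card_Icc, Nat.add_sub_cancel, pow_succ' M 263]
    exact Nat.mul_le_mul_right _ (by have := hp.two; omega)
  have hsg : ∀ t ∈ Set.Icc t1 t2, ∀ k ∈ D.s, (D.shift t).sg k = (D.shift t2).sg k :=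
    fun t h k hk => by
      simp only [Dat.sg, Dat.shift, (hside t h k hk).1, (hside t2 ⟨ht, le_rfl⟩ k hk).1]
  set μ : ι × ℕ → ℝ := (D.shift t2).freq with hμ
  have hfr : ∀ t ∈ Set.Icc t1 t2, ∀ ν ∈ P, (D.shift t).freq ν = μ ν := fun t h ν hν => by
    simp only [hμ, Dat.freq, hsg t h _ (hmem ν hν).1]
    rfl
  have hna : ∀ ν ∈ P, GG M ≤ ν.2 * D.a ν.1 * t1 := fun ν hν => by
    have h1 : (1 : ℝ) ≤ ν.2 := by exact_mod_cast (mem_Icc.1 (hmem ν hν).2).1
    have h2 := ha _ (hmem ν hν).1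
    rw [mul_assoc]
    nlinarith only [hG, h1, h2]
  have habs : ∀ ν ∈ P, |μ ν| = ν.2 * D.a ν.1 := fun ν hν =>
    atm_freq (D.shift t2) ν (ha0 _ (hmem ν hν).1)
  have h0 : ∀ ν ∈ P, GG M ≤ |μ ν| * t1 := fun ν hν => by
    rw [habs ν hν]
    exact hna ν hν
  obtain ⟨φ, hφ1, hφ2, hφ3⟩ := apxH_phi P μ hP ht1 ht (G := GG M) (by linarith only [hG])
    (by rw [Nat.cast_pow]; exact apxH_pow_le hp (by norm_num)) h0 fun ν hν ν' hν' => by
      have h1 := hf _ (hmem ν hν).1 _ (hmem ν' hν').1 _ (hmem ν hν).2 _ (hmem ν' hν').2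
      have h2 := hna ν hν
      have h3 := hna ν' hν'
      have h4 : 0 ≤ (ν.2 : ℝ) * D.a ν.1 := by rw [← habs ν hν]; exact abs_nonneg _
      have h5 : 0 ≤ (ν'.2 : ℝ) * D.a ν'.1 := by rw [← habs ν' hν']; exact abs_nonneg _
      simp only [hμ, Dat.freq, Dat.sg, Dat.shift]
      split_ifs
      · rwa [neg_one_mul, neg_one_mul, neg_sub_neg, abs_sub_comm]
      · rw [abs_of_nonpos (by linarith only [h4, h5])]
        exact Or.inr (by linarith only [hG, h2, h3])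
      · rw [abs_of_nonneg (by linarith only [h4, h5])]
        exact Or.inr (by linarith only [hG, h2, h3])
      · rwa [one_mul, one_mul]
  refine ⟨apxH_s (M ^ 264) P φ, apxH_e P μ φ fun ν => ((-(D.shift t2).sg ν.1 * D.W ν.1 * D.a ν.1 *
    Real.exp (-(μ ν * D.x ν.1)) : ℝ) : ℂ), ?_, fun p hp' => ?_, fun p hp' q hq' => ?_,
    fun t htt B hB0 hB => ?_⟩
  · rw [apxH_s, card_product, card_map, card_range, show 528 = 264 + 264 by norm_num, pow_add]
    exact Nat.mul_le_mul_left _ (card_image_le.trans hP)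
  · obtain ⟨h1, h2⟩ := mem_product.1 hp'
    obtain ⟨i, hi, h3⟩ := mem_map.1 h1
    obtain ⟨ν, hν, h4⟩ := mem_image.1 h2
    rw [← h3, ← h4, Nat.castEmbedding_apply]
    exact ⟨Nat.cast_nonneg _, by exact_mod_cast (mem_range.1 hi).le, hφ2 ν hν⟩
  · obtain ⟨ν, hν, h1⟩ := mem_image.1 (mem_product.1 hp').2
    obtain ⟨ν', hν', h2⟩ := mem_image.1 (mem_product.1 hq').2
    rw [← h1, ← h2]
    exact hφ3 ν hν ν' hν'
  have t0 : 0 < t := ht1.trans_le htt.1
  have hφt : ∀ ν ∈ P, |μ ν - φ ν| * t * GG M ≤ 1 := fun ν hν =>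
    le_trans (by gcongr; exact htt.2) (hφ1 ν hν)
  obtain ⟨m1, m2⟩ := apxH_main hp P hP μ φ _ t0 hφt hB0 hB
  have hcf : ∀ ν ∈ P, ((-(D.shift t2).sg ν.1 * D.W ν.1 * D.a ν.1 *
      Real.exp (-(μ ν * D.x ν.1)) : ℝ) : ℂ) * exp ((μ ν : ℂ) * t) = (D.shift t).cf ν :=
    fun ν hν => by rw [apxH_coef, hfr t htt ν hν, hsg t htt _ (hmem ν hν).1]
  have hxt : ∀ k ∈ D.s, t1 / 2 ≤ |(D.shift t).x k| := fun k hk => (hside t htt k hk).2.2
  have h1 := (D.shift t).lat_eq_exps_add_tail D.s ha0 hfl (M ^ 263) 0 (z := 0) fun k hk => by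
    have := hxt k hk
    rw [zero_re, abs_zero]
    linarith only [ht1, this]
  rw [if_pos rfl, Dat.lat_shift, zero_add, filter_congr (p := fun k => 0 < (D.shift t).x k)
    (q := fun k => t2 < D.x k) fun k hk => (hside t htt k hk).2.1] at h1
  have h2 : (D.shift t).exps P (D.shift t).cf 0 0 = ∑ ν ∈ P, ((-(D.shift t2).sg ν.1 * D.W ν.1 *
      D.a ν.1 * Real.exp (-(μ ν * D.x ν.1)) : ℝ) : ℂ) * exp ((μ ν : ℂ) * t) :=
    sum_congr rfl fun ν hν => by
      rw [hcf ν hν, ec, pow_zero, mul_zero, exp_zero, Nat.factorial_zero, Nat.cast_one, one_mul,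
        div_one, mul_one]
  have hne : ∀ ν ∈ P, (((D.shift t).freq ν : ℝ) : ℂ) ≠ 0 := fun ν hν c => by
    have h3 := h0 ν hν
    rw [← hfr t htt ν hν, ofReal_eq_zero.1 c, abs_zero, zero_mul] at h3
    linarith only [hG, h3]
  have he0 : 0 < eA0 M := inv_pos.2 (hp.pow_pos _)
  obtain ⟨at', hat⟩ := exists_rclus P (fun ν => ((D.shift t).freq ν : ℂ)) hne (e1 := eA1 M)
    (e0 := eA0 M) hP he0 (core_eps hp (by norm_num)) (env_inv_le hp _)
  have h3 := tailA_le hp (D.shift t) D.s hs ha0 0 le_rfl (fun k hk => by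
      have h3 := hxt k hk
      have h4 := ha k hk
      have h5 := apxH_mul_le hp (c := 2) (by norm_num) (k := 7738) (by norm_num)
      have h6 := mul_le_mul_of_nonneg_left h3 (ha0 k hk).le
      change _ ≤ D.a k * |(D.shift t).x k|
      unfold GG at h4
      linarith only [h4, h5, h6]) (fun k _ => by rw [mul_zero]; exact abs_nonneg _) at' hat 0 (Nat.zero_le _) []
    (Nat.zero_le _) (fun _ h => absurd h List.not_mem_nil) (Real.exp ((M : ℝ) ^ 266) * B)
    (by positivity) (fun α hα _ => by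
      rw [pow_zero, mul_one, Nat.factorial_zero, Nat.cast_one, div_one, mul_zero, zero_mul,
        Real.exp_zero, mul_one]
      refine (apxH_atom P (D.shift t).freq φ (D.shift t).cf (G := GG M)
        (B := Real.exp ((M : ℝ) ^ 265) * B) t0 (obj_eA hp) he0 (by linarith only [hG]) ?_ ?_
        (fun ν hν => ?_) (fun ν hν => ?_) (by positivity) (fun ν hν => ?_) hat hα).Nm_le.trans ?_
      · rw [eA1, ← div_eq_mul_inv, le_div_iff₀ (hp.pow_pos _)]
        exact apxH_mul_le hp (by norm_num) (by norm_num)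
      · rw [eA0, ← div_eq_mul_inv, le_div_iff₀ (hp.pow_pos _)]
        exact apxH_mul_le hp (by norm_num) (by norm_num)
      · rw [hfr t htt ν hν]
        exact (h0 ν hν).trans (mul_le_mul_of_nonneg_left htt.1 (abs_nonneg _))
      · rw [hfr t htt ν hν]
        exact hφt ν hν
      · exact (m2 ν hν).congr (fun k hk => by rw [hfr t htt k (mem_filter.1 hk).1])
          (fun _ _ => rfl) fun k hk => hcf k (mem_filter.1 hk).1
      · rw [← mul_assoc]
        refine mul_le_mul_of_nonneg_right ?_ hB0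
        have h4 : (P.card : ℝ) ≤ (M : ℝ) ^ 264 := by exact_mod_cast hP
        have h5 := hp.pow_le_exp (show 264 ≤ 100000 by norm_num)
        refine (mul_le_mul_of_nonneg_right (h4.trans h5) (Real.exp_pos _).le).trans ?_
        rw [← Real.exp_add]
        refine Real.exp_le_exp.2 ?_
        have h6 := hp.mul_pow_le (c := 2) (by norm_num) (show 265 < 266 by norm_num)
        have h7 := hp.pow_mono (show 1 ≤ 265 by norm_num)
        rw [pow_one] at h7
        linarith only [h6, h7]) 0 (by rw [norm_zero, mul_zero])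
  have h4 : Real.exp (-((M : ℝ) ^ 8001 / 4)) * (Real.exp ((M : ℝ) ^ 266) * B) ≤ 1 / 32 * B := by
    rw [← mul_assoc, ← Real.exp_add]
    refine mul_le_mul_of_nonneg_right ?_ hB0
    have h5 := hp.mul_pow_le (c := 8) (by norm_num) (show 266 < 8001 by norm_num)
    have h6 := hp.mul_pow_le (c := 256) (by norm_num) (show 0 < 8001 by norm_num)
    rw [pow_zero] at h6
    have h7 : Real.exp (-((M : ℝ) ^ 8001 / 4) + (M : ℝ) ^ 266) ≤ Real.exp (-32) :=
      Real.exp_le_exp.2 (by linarith only [h5, h6])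
    refine h7.trans ?_
    rw [Real.exp_neg, one_div]
    exact inv_anti₀ (by norm_num) (by linarith only [Real.add_one_le_exp (32 : ℝ)])
  change ‖D.lat D.s 0 t + ∑ k ∈ D.s.filter (fun k => t2 < D.x k),
    (((D.shift t).W k * (D.shift t).a k : ℝ) : ℂ) - _‖ ≤ _
  rw [h1, h2, add_sub_right_comm]
  refine (norm_add_le _ _).trans ((add_le_add m1 (h3.trans h4)).trans (le_of_eq (by ring)))

end Pool.Agent.Work.MP_97f157_lc.Tau
end
end

-- merged part: Pool.Agent.Work.MP_97f157_lc.TauCount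
section
/-! Counting the real zeros of `c + ∑ W a / (exp (a (s - x)) - 1)`. -/

noncomputable section
open Complex Finset Metric

namespace Pool.Agent.Work.MP_97f157_lc.Tau

variable {ι : Type*} {m M : ℕ}

/-- standing hypotheses -/
structure KIn (m M : ℕ) (D : Dat ι) (c : ℝ) : Prop where
  par : Par m M
  card : D.s.card ≤ m
  apos : ∀ k ∈ D.s, 0 < D.a k
  nfl : ∀ k ∈ D.s, D.fl k = false
  nz : ∀ x y : ℝ, x < y → ∃ t ∈ Set.Ioo x y, (c : ℂ) + D.lat D.s 0 t ≠ 0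

variable {D : Dat ι} {c : ℝ}

/-- counting along a finite cover -/
theorem cnt_cover {β : Type*} (J : Finset β) (P : β → ℝ → Prop) (Z : Finset ℝ) (N : ℝ)
    (hc : ∀ t ∈ Z, ∃ i ∈ J, P i t)
    (hN : ∀ i ∈ J, ∀ Y : Finset ℝ, (∀ t ∈ Y, t ∈ Z ∧ P i t) → (Y.card : ℝ) ≤ N) :
    (Z.card : ℝ) ≤ J.card * N := by
  classical
  have h1 : Z ⊆ J.biUnion (fun i => Z.filter (fun t => P i t)) := by
    intro t ht
    obtain ⟨i, hi, hP⟩ := hc t ht
    exact mem_biUnion.2 ⟨i, hi, mem_filter.2 ⟨ht, hP⟩⟩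
  have h2 : Z.card ≤ ∑ i ∈ J, (Z.filter (fun t => P i t)).card :=
    (card_le_card h1).trans card_biUnion_le
  have h3 : (Z.card : ℝ) ≤ ∑ i ∈ J, ((Z.filter (fun t => P i t)).card : ℝ) := by exact_mod_cast h2
  refine h3.trans ?_
  rw [← nsmul_eq_mul, ← sum_const]
  exact sum_le_sum fun i hi => hN i hi _ fun t ht => mem_filter.1 ht

theorem cnt_GG (M : ℕ) : (M : ℝ) ^ 16001 + 1 ≤ GG M := Real.add_one_le_exp _

theorem cnt_GG1 (hp : Par m M) : 1 < GG M := by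
  have := cnt_GG M
  have := hp.pow_pos 16001
  linarith

theorem cnt_re (D : Dat ι) (k : ι) (l : ℤ) : |D.x k| ≤ ‖D.node (k, l)‖ := by
  have h := abs_re_le_norm (D.node (k, l))
  have h2 : (D.node (k, l)).re = D.x k := by
    simp only [Dat.node, add_re, ofReal_re, mul_re, I_re, I_im, ofReal_im, zero_mul, mul_zero,
      sub_zero, add_zero]
  rwa [h2] at h

theorem cnt_im (D : Dat ι) (k : ι) (l : ℤ) : |(l : ℝ) * sp (D.a k)| ≤ ‖D.node (k, l)‖ := by
  have h := abs_im_le_norm (D.node (k, l))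
  have h2 : (D.node (k, l)).im = (l : ℝ) * sp (D.a k) := by
    simp only [Dat.node, add_im, ofReal_re, mul_im, I_re, I_im, ofReal_im, zero_mul, one_mul,
      zero_add]
  rwa [h2] at h

theorem cnt_mono {f g : ℝ → ℂ} {t1 t2 ε ε' : ℝ} {s : Finset (ℤ × ℝ)} {e : ℤ × ℝ → ℂ}
    (h : Approx f t1 t2 ε s e) (hε : ε ≤ ε') (hfg : ∀ t, g t = f t) : Approx g t1 t2 ε' s e := by
  intro t ht B hB hs
  rw [hfg]
  exact (h t ht B hB hs).trans (mul_le_mul_of_nonneg_right hε hB)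

theorem KIn.shift (h : KIn m M D c) (x0 : ℝ) : KIn m M (D.shift x0) c := by
  refine ⟨h.par, h.card, h.apos, h.nfl, fun x y hxy => ?_⟩
  obtain ⟨t, ht, hne⟩ := h.nz (x + x0) (y + x0) (by linarith)
  refine ⟨t - x0, ⟨by linarith [ht.1], by linarith [ht.2]⟩, ?_⟩
  rw [Dat.lat_shift]
  have : ((t - x0 : ℝ) : ℂ) + x0 = t := by push_cast; ring
  rw [this]
  exact hne

/-- `tw false a 0 (-w) = - tw false a 0 w - a` (each pair of terms of `tw0` changes sign) -/
theorem Dat.lat_refl_zero (D : Dat ι) (S : Finset ι) (z : ℂ) :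
    D.refl.lat S 0 z = -D.lat S 0 (-z) - ∑ k ∈ S, ((D.W k * D.a k : ℝ) : ℂ) := by
  rw [Dat.lat, Dat.lat, ← sum_neg_distrib, ← sum_sub_distrib]
  refine sum_congr rfl fun k _ => ?_
  have := lip_tw_neg (D.fl k) (D.a k) 0 (-z - D.x k)
  simp only [Dat.refl]
  rw [show z - ((-D.x k : ℝ) : ℂ) = -(-z - D.x k) by push_cast; ring, this, if_pos rfl]
  push_cast
  ring

theorem cnt_refl (D : Dat ι) (c : ℝ) (t : ℝ) :
    ((-c + ∑ k ∈ D.s, D.W k * D.a k : ℝ) : ℂ) + D.refl.lat D.refl.s 0 t =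
      -((c : ℂ) + D.lat D.s 0 ((-t : ℝ) : ℂ)) := by
  have : D.refl.s = D.s := rfl
  rw [this, Dat.lat_refl_zero]
  push_cast
  ring

theorem KIn.refl (h : KIn m M D c) : KIn m M D.refl (-c + ∑ k ∈ D.s, D.W k * D.a k) := by
  refine ⟨h.par, h.card, h.apos, h.nfl, fun x y hxy => ?_⟩
  obtain ⟨t, ht, hne⟩ := h.nz (-y) (-x) (by linarith)
  refine ⟨-t, ⟨by linarith [ht.2], by linarith [ht.1]⟩, ?_⟩
  rw [cnt_refl, neg_neg]
  exact neg_ne_zero.2 hne

theorem cnt_card (hp : Par m M) : 2 * M ^ 8000 + 1 + M + M ^ 528 ≤ 3 * M ^ 8000 := by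
  have h1 : 3 * M ^ 528 ≤ M ^ 8000 := hp.mul_pow_leN (by norm_num) (by norm_num)
  have h2 : M ^ 0 ≤ M ^ 528 := hp.pow_monoN (by norm_num)
  have h3 : M ^ 1 ≤ M ^ 528 := hp.pow_monoN (by norm_num)
  rw [pow_zero] at h2
  rw [pow_one] at h3
  generalize M ^ 8000 = A at *
  generalize M ^ 528 = B at *
  omega

/-- Split `s` into small `a` (`a t2 GG ≤ 1`) and large `a`.  The small ones form `DF` with the
near ones (`|x| GG ≤ t1`) flagged, `ρ = t2 GG / 32` (`approx_far`, `tw_true`, `approx_near`); the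
large ones are handled by `approx_hi`; `Approx.add`, `Approx.zeros` with `P = 3 M^8000`. -/
theorem KIn.clean (h : KIn m M D c) {t1 t2 : ℝ} (ht1 : 0 < t1) (ht : t1 < t2)
    (ha : ∀ k ∈ D.s, D.a k * t2 * GG M ≤ 1 ∨ GG M ≤ D.a k * t1)
    (hx : ∀ k ∈ D.s, |D.x k| * GG M ≤ t1 ∨ t2 * GG M ≤ |D.x k|)
    (hf : ∀ k ∈ D.s, ∀ k' ∈ D.s, ∀ n ∈ Icc 1 (M ^ 263), ∀ n' ∈ Icc 1 (M ^ 263),
      |(n : ℝ) * D.a k - n' * D.a k'| * t2 * GG M ≤ 1 ∨ GG M ≤ |(n : ℝ) * D.a k - n' * D.a k'| * t1)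
    (Z : Finset ℝ) (hZ : ∀ t ∈ Z, t ∈ Set.Icc t1 t2 ∧ (c : ℂ) + D.lat D.s 0 t = 0) :
    ∃ T ⊆ Z, T.card ≤ (3 * M ^ 8000) ^ 2 ∧ ∀ t ∈ Z, ∃ τ ∈ T, τ ≤ t ∧ t ≤ 6 * (M : ℝ) ^ 8000 * τ := by
  classical
  have hp := h.par
  have hG := cnt_GG1 hp
  have ht2 : 0 < t2 := ht1.trans ht
  have htG : t2 ≤ t2 * GG M := le_mul_of_one_le_right ht2.le hG.le
  set S1 := D.s.filter (fun k => D.a k * t2 * GG M ≤ 1) with hS1
  set S2 := D.s.filter (fun k => ¬ D.a k * t2 * GG M ≤ 1) with hS2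
  set SN := S1.filter (fun k => |D.x k| * GG M ≤ t1) with hSN
  let DF : Dat ι := { D with s := S1, fl := fun k => decide (|D.x k| * GG M ≤ t1) }
  let DH : Dat ι := { D with s := S2 }
  have hin : CoreIn m M DF (t2 * GG M / 32) := by
    refine ⟨hp, (card_filter_le _ _).trans h.card, fun k hk => h.apos k (mem_filter.1 hk).1,
      by positivity, fun k hk hfl => ?_, fun k hk l hl => ?_⟩
    · obtain ⟨hk1, hk2⟩ := mem_filter.1 hk
      have h1 : |D.x k| * GG M ≤ t1 := by simpa [DF] using hfl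
      have h2 : |D.x k| ≤ |D.x k| * GG M := le_mul_of_one_le_right (abs_nonneg _) hG.le
      have h3 : |D.x k| ≤ t2 * GG M := by linarith only [ht, htG, h1, h2]
      have h4 := mul_le_mul_of_nonneg_left h3 (h.apos k hk1).le
      change D.a k * |D.x k| ≤ 1
      linarith
    · obtain ⟨hk1, hk2⟩ := mem_filter.1 hk
      have hak := h.apos k hk1
      rw [show 32 * (t2 * GG M / 32) = t2 * GG M by ring]
      by_cases hl0 : l = 0
      · have h1 : ¬ |D.x k| * GG M ≤ t1 := fun h1 => hl ⟨by simpa [DF] using h1, hl0⟩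
        exact ((hx k hk1).resolve_left h1).trans (cnt_re DF k l)
      · refine le_trans ?_ (cnt_im DF k l)
        change t2 * GG M ≤ |(l : ℝ) * sp (D.a k)|
        have h1 : (1 : ℝ) ≤ |(l : ℝ)| := by exact_mod_cast Int.one_le_abs hl0
        have h2 := sp_pos hak
        rw [abs_mul, abs_of_pos h2]
        have h3 : t2 * GG M ≤ sp (D.a k) := by
          rw [sp, le_div_iff₀ hak]
          linarith only [hk2, Real.pi_gt_three]
        nlinarith only [h1, h2, h3]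
  obtain ⟨s1, e1, hc1, hm1, hA1⟩ := approx_far hin (t1 := t1) (t2 := t2) (fun k hk => by
      have hk2 := (mem_filter.1 hk).2
      change D.a k * (t2 * GG M / 32) ≤ 1
      linarith only [hk2]) ht1 (le_of_eq (by ring))
    ((c : ℂ) - ∑ k ∈ DH.s.filter (fun k => t2 < DH.x k), ((DH.W k * DH.a k : ℝ) : ℂ))
  obtain ⟨s2, e2, hc2, hm2, hA2⟩ := approx_near hp SN
    ((card_filter_le _ _).trans ((card_filter_le _ _).trans h.card)) D.W D.x (t1 := t1) (t2 := t2) ht1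
    (fun k hk => (mem_filter.1 hk).2)
  obtain ⟨s3, e3, hc3, hm3, hs3, hA3⟩ := approx_hi hp DH ((card_filter_le _ _).trans h.card)
    (fun k hk => h.nfl k (mem_filter.1 hk).1) ht1 ht.le
    (fun k hk => (ha k (mem_filter.1 hk).1).resolve_left (mem_filter.1 hk).2)
    (fun k hk => hx k (mem_filter.1 hk).1)
    (fun k hk k' hk' => hf k (mem_filter.1 hk).1 k' (mem_filter.1 hk').1)
  have hd12 : Disjoint s1 s2 := disjoint_left.2 fun p h1 h2 => by
    have := (hm1 p h1).1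
    have := (hm2 p h2).2.1
    omega
  have h0 : ∀ p ∈ s1 ∪ s2, p.2 = 0 := fun p hp' => by
    rcases mem_union.1 hp' with h1 | h1
    · exact (hm1 p h1).2.2
    · exact (hm2 p h1).2.2
  have hd3 : Disjoint (s1 ∪ s2) s3 := disjoint_left.2 fun p h1 h2 => by
    have h3 := (hm3 p h2).2.2
    rw [h0 p h1, abs_zero, zero_mul] at h3
    linarith only [hG, h3]
  obtain ⟨e12, hA12⟩ := hA1.add hA2 hd12
  obtain ⟨e, hA⟩ := hA12.add hA3 hd3
  have hA' : Approx (fun t => (c : ℂ) + D.lat D.s 0 t) t1 t2 (1 / 4) (s1 ∪ s2 ∪ s3) e := by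
    refine cnt_mono hA (by norm_num) fun t => ?_
    have e1 : D.lat D.s 0 t = D.lat S1 0 t + D.lat S2 0 t := by
      simp only [Dat.lat]
      rw [hS1, hS2, sum_filter_add_sum_filter_not]
    have e2 : DH.lat DH.s 0 t = D.lat S2 0 t := rfl
    have e3 : D.lat S1 0 t = DF.lat DF.s 0 t + ∑ k ∈ SN, (D.W k : ℂ) * pc 0 0 (t - D.x k) := by
      rw [hSN, sum_filter]
      simp only [Dat.lat, DF]
      rw [← sum_add_distrib]
      refine sum_congr rfl fun k hk => ?_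
      rw [h.nfl k (mem_filter.1 hk).1]
      by_cases hk2 : |D.x k| * GG M ≤ t1
      · rw [if_pos hk2, decide_eq_true hk2, tw_true, mul_add]
      · rw [if_neg hk2, decide_eq_false hk2, add_zero]
    rw [e1, e2, e3]
    ring
  have hM1 : M ≤ M ^ 8000 := by
    have := hp.pow_monoN (i := 1) (k := 8000) (by norm_num)
    rwa [pow_one] at this
  have hM2 : M ^ 264 ≤ M ^ 8000 := hp.pow_monoN (by norm_num)
  have hM1' : (M : ℤ) ≤ (M : ℤ) ^ 8000 := by exact_mod_cast hM1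
  have hM2' : (M : ℤ) ^ 264 ≤ (M : ℤ) ^ 8000 := by exact_mod_cast hM2
  have hM0 : (0 : ℤ) ≤ (M : ℤ) ^ 8000 := by positivity
  obtain ⟨T, hT, hTc, hTZ⟩ := hA'.zeros (G := GG M) (P := 3 * M ^ 8000) ht1
    (by
      have h1 := card_union_le (s1 ∪ s2) s3
      have h2 := card_union_le s1 s2
      have h3 := cnt_card hp
      generalize M ^ 8000 = A at *
      generalize M ^ 528 = B at *
      omega)
    (by
      intro p hp'
      rw [Nat.cast_mul, Nat.cast_pow, abs_le]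
      rcases mem_union.1 hp' with h1 | h1
      · rcases mem_union.1 h1 with h1 | h1
        · obtain ⟨h2, h3, -⟩ := hm1 p h1
          generalize (M : ℤ) ^ 8000 = A at *
          push_cast
          omega
        · obtain ⟨h2, h3, -⟩ := hm2 p h1
          generalize (M : ℤ) ^ 8000 = A at *
          push_cast
          omega
      · obtain ⟨h2, h3, -⟩ := hm3 p h1
        generalize (M : ℤ) ^ 8000 = A at *
        generalize (M : ℤ) ^ 264 = B at *
        push_cast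
        omega)
    (by
      have h1 := cnt_GG M
      have h2 : 6 * (M : ℝ) ^ 8000 ≤ (M : ℝ) ^ 16001 := hp.mul_pow_le (by norm_num) (by norm_num)
      rw [Nat.cast_mul, Nat.cast_pow, Nat.cast_ofNat]
      linarith only [h1, h2])
    (by
      intro p hp' q hq
      rcases mem_union.1 hp' with h1 | h1 <;> rcases mem_union.1 hq with h2 | h2
      · exact Or.inl (by rw [h0 p h1, h0 q h2])
      · exact Or.inr (by rw [h0 p h1, zero_sub, abs_neg]; exact (hm3 q h2).2.2)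
      · exact Or.inr (by rw [h0 q h2, sub_zero]; exact (hm3 p h1).2.2)
      · exact hs3 p h1 q h2)
    (by
      obtain ⟨t, ht', hne⟩ := h.nz t1 t2 ht
      exact ⟨t, Set.Ioo_subset_Icc_self ht', hne⟩) Z hZ
  refine ⟨T, hT, hTc, fun t ht' => ?_⟩
  obtain ⟨τ, hτ, h1, h2⟩ := hTZ t ht'
  refine ⟨τ, hτ, h1, h2.trans (le_of_eq ?_)⟩
  rw [Nat.cast_mul, Nat.cast_pow, Nat.cast_ofNat]
  ring

/-- two points with close logarithms -/
theorem cnt_close {t u : ℝ} (ht : 0 < t) (hu : 0 < u) (h : Real.log t - Real.log u < 1 / 129) :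
    t < u * (129 / 128) := by
  have h1 := Real.one_sub_inv_le_log_of_pos (div_pos ht hu)
  rw [Real.log_div ht.ne' hu.ne', inv_div] at h1
  have h2 : 128 / 129 < u / t := by linarith only [h, h1]
  rw [lt_div_iff₀ ht] at h2
  linarith only [h2]

/-- zeros `t > 0` at distance `≥ t` from all walls, with `τ ≤ t ≤ R τ`: cut into the pieces
`[τ q^r, τ q^(r+1))`, `q = 1 + 1/128`; if a piece contains such a zero `t0`, apply `CoreIn.zb` to
`D.shift t0` with `ρ = t0 / 32` -/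
theorem KIn.annulus (h : KIn m M D c) {τ R : ℝ} (hτ : 0 < τ) (hR : 1 ≤ R) (Z : Finset ℝ)
    (hZ : ∀ t ∈ Z, τ ≤ t ∧ t ≤ R * τ ∧ (∀ k ∈ D.s, t ≤ |t - D.x k|) ∧ (c : ℂ) + D.lat D.s 0 t = 0) :
    (Z.card : ℝ) ≤ (129 * Real.log R + 1) * (2 * (M : ℝ) ^ 16000) := by
  classical
  have hp := h.par
  have hN : (0 : ℝ) ≤ 2 * (M : ℝ) ^ 16000 := by positivity
  have hL : 0 ≤ Real.log R := Real.log_nonneg hR
  have key := cnt_cover (range (⌊129 * Real.log R⌋₊ + 1))
    (fun r t => ⌊129 * (Real.log t - Real.log τ)⌋₊ = r) Z (2 * (M : ℝ) ^ 16000) ?_ ?_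
  · refine key.trans (mul_le_mul_of_nonneg_right ?_ hN)
    rw [card_range, Nat.cast_add, Nat.cast_one]
    have := Nat.floor_le (a := 129 * Real.log R) (by positivity)
    linarith only [this]
  · intro t ht
    obtain ⟨h1, h2, -, -⟩ := hZ t ht
    refine ⟨_, mem_range.2 (Nat.lt_succ_of_le (Nat.floor_le_floor ?_)), rfl⟩
    have h3 := Real.log_le_log (hτ.trans_le h1) h2
    rw [Real.log_mul (by positivity) hτ.ne'] at h3
    linarith only [h3]
  · intro r _ Y hY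
    rcases Y.eq_empty_or_nonempty with rfl | ⟨t0, ht0⟩
    · rw [card_empty, Nat.cast_zero]
      exact hN
    have hfl : ∀ t ∈ Y, 0 < t ∧ (r : ℝ) ≤ 129 * (Real.log t - Real.log τ) ∧
        129 * (Real.log t - Real.log τ) < r + 1 := fun t ht => by
      obtain ⟨h1, h2⟩ := hY t ht
      have h3 := (hZ t h1).1
      have h4 := Real.log_le_log hτ h3
      refine ⟨hτ.trans_le h3, ?_, ?_⟩
      · rw [← h2]
        exact Nat.floor_le (by linarith only [h4])
      · rw [← h2]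
        exact Nat.lt_floor_add_one _
    obtain ⟨hpos, hl0, hu0⟩ := hfl t0 ht0
    have hin : CoreIn m M (D.shift t0) (t0 / 32) := by
      refine ⟨hp, h.card, h.apos, by positivity, fun k hk hk2 => ?_, fun k hk l _ => ?_⟩
      · have := h.nfl k hk
        change D.fl k = true at hk2
        rw [this] at hk2
        exact absurd hk2 (by simp)
      · refine le_trans ?_ (cnt_re _ k l)
        change 32 * (t0 / 32) ≤ |D.x k - t0|
        have := (hZ t0 (hY t0 ht0).1).2.2.1 k hk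
        rw [abs_sub_comm]
        linarith only [this]
    rcases hin.zb c with h0 | h0
    · obtain ⟨t, ht, hne⟩ := (h.shift t0).nz (-(t0 / 32 / 2)) (t0 / 32 / 2) (by linarith only [hpos])
      exact absurd (h0 t ht) hne
    · have hc : (Y.image (fun t => t - t0)).card = Y.card :=
        card_image_of_injective _ (sub_left_injective)
      rw [← hc]
      refine h0 _ fun u hu => ?_
      obtain ⟨t, ht, rfl⟩ := mem_image.1 hu
      obtain ⟨htp, hl, hu⟩ := hfl t ht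
      have h1 := cnt_close htp hpos (by linarith only [hl0, hu])
      have h2 := cnt_close hpos htp (by linarith only [hu0, hl])
      refine ⟨⟨by linarith only [htp, h2], by linarith only [hpos, h1]⟩, ?_⟩
      have h3 := (hZ t (hY t ht).1).2.2.2
      have h4 : ((t - t0 : ℝ) : ℂ) + t0 = t := by push_cast; ring
      simp only []
      rw [Dat.lat_shift, h4]
      exact h3

/-- the critical scales -/
theorem cnt_crit (h : KIn m M D c) : ∃ K : Finset ℝ, (K.card : ℝ) ≤ (M : ℝ) ^ 529 ∧ (∀ κ ∈ K, 0 < κ) ∧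
    (∀ k ∈ D.s, D.x k ≠ 0 → |D.x k| ∈ K) ∧ (∀ k ∈ D.s, 1 / D.a k ∈ K) ∧
    ∀ k ∈ D.s, ∀ k' ∈ D.s, ∀ n ∈ Icc 1 (M ^ 263), ∀ n' ∈ Icc 1 (M ^ 263),
      (n : ℝ) * D.a k - n' * D.a k' ≠ 0 → 1 / |(n : ℝ) * D.a k - n' * D.a k'| ∈ K := by
  classical
  have hp := h.par
  set P := D.s ×ˢ Icc 1 (M ^ 263) with hP
  set K1 := D.s.image (fun k => |D.x k|) with hK1
  set K2 := D.s.image (fun k => 1 / D.a k) with hK2
  set K3 := (P ×ˢ P).image
    (fun p : (ι × ℕ) × (ι × ℕ) => 1 / |(p.1.2 : ℝ) * D.a p.1.1 - p.2.2 * D.a p.2.1|) with hK3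
  refine ⟨(K1 ∪ K2 ∪ K3).filter (fun κ => 0 < κ), ?_, fun κ hκ => (mem_filter.1 hκ).2,
    fun k hk h0 => ?_, fun k hk => ?_, fun k hk k' hk' n hn n' hn' h0 => ?_⟩
  · have hm : D.s.card ≤ M := by
      have := h.card
      have := hp.two
      omega
    have h1 : K1.card ≤ M := card_image_le.trans hm
    have h2 : K2.card ≤ M := card_image_le.trans hm
    have h3 : P.card ≤ M ^ 264 := by
      rw [hP, card_product, Nat.card_Icc, Nat.add_sub_cancel, pow_succ' M 263]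
      exact Nat.mul_le_mul_right _ hm
    have h4 : K3.card ≤ M ^ 528 := by
      refine card_image_le.trans ?_
      rw [card_product, show 528 = 264 + 264 by rfl, pow_add]
      exact Nat.mul_le_mul h3 h3
    have h5 : 3 * M ^ 528 ≤ M ^ 529 := hp.mul_pow_leN (by norm_num) (by norm_num)
    have h6 : M ^ 1 ≤ M ^ 528 := hp.pow_monoN (by norm_num)
    rw [pow_one] at h6
    have h7 := card_union_le (K1 ∪ K2) K3
    have h8 := card_union_le K1 K2
    have h9 := card_filter_le (K1 ∪ K2 ∪ K3) (fun κ => 0 < κ)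
    have h10 : ((K1 ∪ K2 ∪ K3).filter (fun κ => 0 < κ)).card ≤ M ^ 529 := by
      generalize M ^ 529 = A at *
      generalize M ^ 528 = B at *
      omega
    exact_mod_cast h10
  · exact mem_filter.2 ⟨mem_union_left _ (mem_union_left _ (mem_image_of_mem _ hk)), abs_pos.2 h0⟩
  · exact mem_filter.2 ⟨mem_union_left _ (mem_union_right _ (mem_image_of_mem _ hk)),
      one_div_pos.2 (h.apos k hk)⟩
  · refine mem_filter.2 ⟨mem_union_right _ (mem_image.2 ⟨((k, n), (k', n')), ?_, rfl⟩),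
      one_div_pos.2 (abs_pos.2 h0)⟩
    exact mem_product.2 ⟨mem_product.2 ⟨hk, hn⟩, mem_product.2 ⟨hk', hn'⟩⟩

theorem cnt_inv {b t1 t2 G : ℝ} (hb : 0 < b) (h : 1 / b * G ≤ t1 ∨ t2 * G ≤ 1 / b) :
    b * t2 * G ≤ 1 ∨ G ≤ b * t1 := by
  rcases h with h | h
  · right
    rw [one_div, inv_mul_le_iff₀ hb] at h
    exact h
  · left
    rw [le_div_iff₀ hb] at h
    linarith

theorem cnt_num1 (hp : Par m M) :
    (129 * Real.log (GG M ^ 2) + 1) * (2 * (M : ℝ) ^ 16000) ≤ (M : ℝ) ^ 32003 := by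
  rw [Real.log_pow, GG, Real.log_exp]
  have h1 : (M : ℝ) ^ 0 ≤ (M : ℝ) ^ 16001 := hp.pow_mono (by norm_num)
  rw [pow_zero] at h1
  have h2 : 518 * (M : ℝ) ^ 32001 ≤ (M : ℝ) ^ 32003 := hp.mul_pow_le (by norm_num) (by norm_num)
  have h3 : (M : ℝ) ^ 32001 = (M : ℝ) ^ 16001 * (M : ℝ) ^ 16000 := by rw [← pow_add]
  have h4 := hp.pow_pos 16000
  rw [h3] at h2
  refine le_trans ?_ h2
  generalize (M : ℝ) ^ 16001 = A at *
  generalize (M : ℝ) ^ 16000 = B at *
  push_cast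
  linarith only [h1, h4, mul_nonneg_of_nonpos_of_nonpos (Mathlib.Tactic.Linarith.sub_nonpos_of_le h1) (le_of_lt (Mathlib.Tactic.Linarith.sub_neg_of_lt h4))]

theorem cnt_num2 (hp : Par m M) :
    (129 * Real.log (6 * (M : ℝ) ^ 8000) + 1) * (2 * (M : ℝ) ^ 16000) ≤ (M : ℝ) ^ 16002 := by
  have h1 : 6 * (M : ℝ) ^ 8000 ≤ Real.exp M :=
    (hp.mul_pow_le (k := 8001) (by norm_num) (by norm_num)).trans (hp.pow_le_exp (by norm_num))
  have h2 : Real.log (6 * (M : ℝ) ^ 8000) ≤ M := by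
    rw [Real.log_le_iff_le_exp (mul_pos (by norm_num) (hp.pow_pos _))]
    exact h1
  have h3 : 260 * (M : ℝ) ^ 16001 ≤ (M : ℝ) ^ 16002 := hp.mul_pow_le (by norm_num) (by norm_num)
  have h4 := hp.pow_pos 16000
  have h5 := hp.one_le
  rw [pow_succ' (M : ℝ) 16000] at h3
  refine le_trans ?_ h3
  generalize Real.log (6 * (M : ℝ) ^ 8000) = A at *
  generalize (M : ℝ) ^ 16000 = B at *
  linarith only [h5, h4, h2, mul_nonneg_of_nonpos_of_nonpos (Mathlib.Tactic.Linarith.sub_nonpos_of_le h5) (le_of_lt (Mathlib.Tactic.Linarith.sub_neg_of_lt h4)), mul_nonneg_of_nonpos_of_nonpos (Mathlib.Tactic.Linarith.sub_nonpos_of_le h2) (le_of_lt (Mathlib.Tactic.Linarith.sub_neg_of_lt h4))]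

/-- zeros in one gap between the critical scales -/
theorem cnt_group (h : KIn m M D c) (K : Finset ℝ) (hK0 : ∀ κ ∈ K, 0 < κ)
    (hK1 : ∀ k ∈ D.s, D.x k ≠ 0 → |D.x k| ∈ K) (hK2 : ∀ k ∈ D.s, 1 / D.a k ∈ K)
    (hK3 : ∀ k ∈ D.s, ∀ k' ∈ D.s, ∀ n ∈ Icc 1 (M ^ 263), ∀ n' ∈ Icc 1 (M ^ 263),
      (n : ℝ) * D.a k - n' * D.a k' ≠ 0 → 1 / |(n : ℝ) * D.a k - n' * D.a k'| ∈ K)
    (Y : Finset ℝ) (r : ℕ)
    (hZ : ∀ t ∈ Y, 0 < t ∧ (∀ k ∈ D.s, t ≤ |t - D.x k|) ∧ (c : ℂ) + D.lat D.s 0 t = 0)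
    (hY : ∀ t ∈ Y, (∀ κ ∈ K, t * GG M ≤ κ ∨ κ * GG M ≤ t) ∧ (K.filter (fun κ => κ ≤ t)).card = r) :
    (Y.card : ℝ) ≤ (M : ℝ) ^ 32003 := by
  classical
  have hp := h.par
  have hG := cnt_GG1 hp
  rcases Y.eq_empty_or_nonempty with rfl | hne
  · rw [card_empty, Nat.cast_zero]
    exact (hp.pow_pos _).le
  set t1 := Y.min' hne with ht1
  set t2 := Y.max' hne with ht2
  have m1 : t1 ∈ Y := Y.min'_mem hne
  have m2 : t2 ∈ Y := Y.max'_mem hne
  have hI : ∀ t ∈ Y, t ∈ Set.Icc t1 t2 := fun t ht => ⟨Y.min'_le t ht, Y.le_max' t ht⟩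
  have p1 : 0 < t1 := (hZ t1 m1).1
  rcases (hI t2 m2).1.eq_or_lt with he | hlt
  · have h1 : Y.card ≤ 1 := card_le_one.2 fun a ha b hb => by
      have := hI a ha
      have := hI b hb
      simp only [Set.mem_Icc] at *
      linarith
    have h2 : (M : ℝ) ^ 0 ≤ (M : ℝ) ^ 32003 := hp.pow_mono (by norm_num)
    rw [pow_zero] at h2
    have h3 : (Y.card : ℝ) ≤ 1 := by exact_mod_cast h1
    exact h3.trans h2
  have hgap : ∀ κ ∈ K, κ * GG M ≤ t1 ∨ t2 * GG M ≤ κ := by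
    have hsub : K.filter (fun κ => κ ≤ t1) ⊆ K.filter (fun κ => κ ≤ t2) := fun κ hκ =>
      mem_filter.2 ⟨(mem_filter.1 hκ).1, (mem_filter.1 hκ).2.trans hlt.le⟩
    have heq := eq_of_subset_of_card_le hsub (by rw [(hY t1 m1).2, (hY t2 m2).2])
    intro κ hκ
    have hκ0 := hK0 κ hκ
    by_cases hle : κ ≤ t2
    · have h1 : κ ∈ K.filter (fun κ => κ ≤ t1) := heq ▸ mem_filter.2 ⟨hκ, hle⟩
      have h2 := (mem_filter.1 h1).2
      refine Or.inl (((hY t1 m1).1 κ hκ).resolve_left fun h3 => ?_)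
      linarith only [h2, h3, hG, p1, mul_pos_of_neg_of_neg (Mathlib.Tactic.Linarith.sub_neg_of_lt hG) (Mathlib.Tactic.Linarith.sub_neg_of_lt p1)]
    · refine Or.inr (((hY t2 m2).1 κ hκ).resolve_right fun h3 => hle ?_)
      linarith only [hle, h3, hG, hκ0, mul_pos_of_neg_of_neg (Mathlib.Tactic.Linarith.sub_neg_of_lt hG) (Mathlib.Tactic.Linarith.sub_neg_of_lt hκ0)]
  obtain ⟨T, hT, hTc, hTY⟩ := h.clean p1 hlt
    (fun k hk => cnt_inv (h.apos k hk) (hgap _ (hK2 k hk)))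
    (fun k hk => by
      by_cases h0 : D.x k = 0
      · left
        rw [h0, abs_zero, zero_mul]
        exact p1.le
      · exact hgap _ (hK1 k hk h0))
    (fun k hk k' hk' n hn n' hn' => by
      by_cases h0 : (n : ℝ) * D.a k - n' * D.a k' = 0
      · left
        rw [h0, abs_zero, zero_mul, zero_mul]
        exact zero_le_one
      · exact cnt_inv (abs_pos.2 h0) (hgap _ (hK3 k hk k' hk' n hn n' hn' h0)))
    Y (fun t ht => ⟨hI t ht, (hZ t ht).2.2⟩)
  have hR : 1 ≤ 6 * (M : ℝ) ^ 8000 := by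
    have h2 : (M : ℝ) ^ 0 ≤ (M : ℝ) ^ 8000 := hp.pow_mono (by norm_num)
    rw [pow_zero] at h2
    linarith only [h2]
  have key := cnt_cover T (fun τ t => τ ≤ t ∧ t ≤ 6 * (M : ℝ) ^ 8000 * τ) Y ((M : ℝ) ^ 16002) hTY
    fun τ hτ X hX => (h.annulus (hZ τ (hT hτ)).1 hR X fun t ht =>
      ⟨(hX t ht).2.1, (hX t ht).2.2, (hZ t (hX t ht).1).2⟩).trans (cnt_num2 hp)
  refine key.trans ?_
  have h1 : (T.card : ℝ) ≤ (3 * (M : ℝ) ^ 8000) ^ 2 := by exact_mod_cast hTc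
  have h2 : (3 * (M : ℝ) ^ 8000) ^ 2 = 9 * (M : ℝ) ^ 16000 := by
    rw [mul_pow, ← pow_mul]
    norm_num
  have h3 : 9 * (M : ℝ) ^ 16000 ≤ (M : ℝ) ^ 16001 := hp.mul_pow_le (by norm_num) (by norm_num)
  rw [show 32003 = 16001 + 16002 by rfl, pow_add]
  exact mul_le_mul_of_nonneg_right (h1.trans (h2.le.trans h3)) (hp.pow_pos _).le

/-- Critical scales: the positive numbers among `|x k|`, `1 / a k`, `1 / |n a k - n' a k'|`
(at most `M^529`).  Zeros with `κ / GG < t < κ GG` for a critical `κ` are counted by `annulus` with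
`R = GG²`.  The others are grouped by the number of critical scales below them; in a group with
least and largest elements `t1 < t2` apply `clean` and `annulus` with `R = 6 M^8000`. -/
theorem KIn.side (h : KIn m M D c) (Z : Finset ℝ)
    (hZ : ∀ t ∈ Z, 0 < t ∧ (∀ k ∈ D.s, t ≤ |t - D.x k|) ∧ (c : ℂ) + D.lat D.s 0 t = 0) :
    Z.card ≤ M ^ 32600 := by
  classical
  have hp := h.par
  have hG := cnt_GG1 hp
  have hG0 : 0 < GG M := by linarith
  obtain ⟨K, hKc, hK0, hK1, hK2, hK3⟩ := cnt_crit h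
  set Q : ℝ → Prop := fun t => ∀ κ ∈ K, t * GG M ≤ κ ∨ κ * GG M ≤ t with hQ
  have k1 := cnt_cover (range (K.card + 1)) (fun r t => (K.filter (fun κ => κ ≤ t)).card = r)
    (Z.filter Q) ((M : ℝ) ^ 32003)
    (fun t _ => ⟨_, mem_range.2 (Nat.lt_succ_of_le (card_filter_le _ _)), rfl⟩)
    (fun r _ Y hY => cnt_group h K hK0 hK1 hK2 hK3 Y r
      (fun t ht => hZ t (mem_filter.1 (hY t ht).1).1)
      (fun t ht => ⟨(mem_filter.1 (hY t ht).1).2, (hY t ht).2⟩))
  have k2 := cnt_cover K (fun κ t => κ / GG M ≤ t ∧ t ≤ GG M ^ 2 * (κ / GG M))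
    (Z.filter (fun t => ¬ Q t)) ((M : ℝ) ^ 32003)
    (fun t ht => by
      have h1 := (mem_filter.1 ht).2
      simp only [hQ, not_forall, not_or, not_le] at h1
      obtain ⟨κ, hκ, h2, h3⟩ := h1
      refine ⟨κ, hκ, (div_le_iff₀ hG0).2 h2.le, h3.le.trans (le_of_eq ?_)⟩
      field_simp)
    (fun κ hκ Y hY => (h.annulus (div_pos (hK0 κ hκ) hG0) (one_le_pow₀ hG.le) Y fun t ht =>
      ⟨(hY t ht).2.1, (hY t ht).2.2, (hZ t (mem_filter.1 (hY t ht).1).1).2⟩).trans (cnt_num1 hp))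
  have k3 : ((Z.filter Q).card : ℝ) + (Z.filter (fun t => ¬ Q t)).card = Z.card := by
    exact_mod_cast card_filter_add_card_filter_not (s := Z) Q
  rw [card_range, Nat.cast_add, Nat.cast_one] at k1
  have h1 : (M : ℝ) ^ 0 ≤ (M : ℝ) ^ 529 := hp.pow_mono (by norm_num)
  rw [pow_zero] at h1
  have h2 : 3 * (M : ℝ) ^ 32532 ≤ (M : ℝ) ^ 32600 := hp.mul_pow_le (by norm_num) (by norm_num)
  rw [show 32532 = 529 + 32003 by rfl, pow_add] at h2
  have h3 := hp.pow_pos 32003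
  have h4 : (Z.card : ℝ) ≤ (M : ℝ) ^ 32600 := by
    refine le_trans ?_ h2
    generalize (M : ℝ) ^ 32003 = A at *
    generalize (M : ℝ) ^ 529 = B at *
    nlinarith only [k3, k1, k2, hKc, h1]
  exact_mod_cast h4

/-- attach each zero to a nearest wall and a side (`shift`, `refl`); if `s` is empty then `c ≠ 0` -/
theorem KIn.count (h : KIn m M D c) (Z : Finset ℝ)
    (hZ : ∀ t ∈ Z, (∀ k ∈ D.s, t ≠ D.x k) ∧ (c : ℂ) + D.lat D.s 0 t = 0) :
    Z.card ≤ M ^ 32601 := by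
  classical
  have hp := h.par
  rcases D.s.eq_empty_or_nonempty with h0 | hne
  · obtain ⟨u, -, hu⟩ := h.nz 0 1 one_pos
    have : Z = ∅ := eq_empty_of_forall_notMem fun t ht => hu (by
      have := (hZ t ht).2
      rw [h0] at this ⊢
      exact this)
    rw [this, card_empty]
    exact Nat.zero_le _
  have key := cnt_cover (D.s ×ˢ (univ : Finset Bool))
    (fun p t => (if p.2 then D.x p.1 < t else t < D.x p.1) ∧ ∀ k ∈ D.s, |t - D.x p.1| ≤ |t - D.x k|)
    Z ((M : ℝ) ^ 32600) ?_ ?_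
  · have h1 : ((D.s ×ˢ (univ : Finset Bool)).card : ℝ) ≤ M := by
      have h2 : (D.s ×ˢ (univ : Finset Bool)).card ≤ M := by
        rw [card_product, card_univ, Fintype.card_bool]
        have := h.card
        have := hp.two
        omega
      exact_mod_cast h2
    have h2 : (Z.card : ℝ) ≤ (M : ℝ) ^ 32601 := by
      rw [pow_succ' (M : ℝ) 32600]
      exact key.trans (mul_le_mul_of_nonneg_right h1 (hp.pow_pos _).le)
    exact_mod_cast h2
  · intro t ht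
    obtain ⟨k, hk, hmin⟩ := exists_min_image D.s (fun k => |t - D.x k|) hne
    rcases lt_or_gt_of_ne ((hZ t ht).1 k hk) with h1 | h1
    · exact ⟨(k, false), mem_product.2 ⟨hk, mem_univ _⟩, by simpa using h1, hmin⟩
    · exact ⟨(k, true), mem_product.2 ⟨hk, mem_univ _⟩, by simpa using h1, hmin⟩
  · rintro ⟨k0, b⟩ - Y hY
    cases b
    · have hc : (Y.image (fun t => D.x k0 - t)).card = Y.card :=
        card_image_of_injective _ (sub_right_injective)
      have := (h.shift (D.x k0)).refl.side (Y.image (fun t => D.x k0 - t)) fun u hu => by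
        obtain ⟨t, ht, rfl⟩ := mem_image.1 hu
        obtain ⟨h1, h2, h3⟩ := hY t ht
        have h4 : t < D.x k0 := by simpa using h2
        refine ⟨by linarith only [h4], fun k hk => ?_, ?_⟩
        · have h5 := h3 k hk
          change D.x k0 - t ≤ |D.x k0 - t - -(D.x k - D.x k0)|
          rw [abs_of_neg (by linarith)] at h5
          rw [show D.x k0 - t - -(D.x k - D.x k0) = -(t - D.x k) by ring, abs_neg]
          linarith
        · rw [cnt_refl, Dat.lat_shift,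
            show ((-(D.x k0 - t) : ℝ) : ℂ) + D.x k0 = t by push_cast; ring, neg_eq_zero]
          exact (hZ t h1).2
      rw [hc] at this
      exact_mod_cast this
    · have hc : (Y.image (fun t => t - D.x k0)).card = Y.card :=
        card_image_of_injective _ (sub_left_injective)
      have := (h.shift (D.x k0)).side (Y.image (fun t => t - D.x k0)) fun u hu => by
        obtain ⟨t, ht, rfl⟩ := mem_image.1 hu
        obtain ⟨h1, h2, h3⟩ := hY t ht
        have h4 : D.x k0 < t := by simpa using h2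
        refine ⟨by linarith, fun k hk => ?_, ?_⟩
        · have h5 := h3 k hk
          change t - D.x k0 ≤ |t - D.x k0 - (D.x k - D.x k0)|
          rw [abs_of_pos (by linarith)] at h5
          rw [show t - D.x k0 - (D.x k - D.x k0) = t - D.x k by ring]
          exact h5
        · rw [Dat.lat_shift, show ((t - D.x k0 : ℝ) : ℂ) + D.x k0 = t by push_cast; ring]
          exact (hZ t h1).2
      rw [hc] at this
      exact_mod_cast this

end Pool.Agent.Work.MP_97f157_lc.Tau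
end
end

-- merged part: Pool.Agent.Work.MP_97f157_lc.TauFinal
section
/-! From polynomials to lattice sums. -/

noncomputable section
open Finset Polynomial

namespace Pool.Agent.Work.MP_97f157_lc.Tau

variable {m M : ℕ}

theorem fin_tw_real {a : ℝ} (ha : 0 < a) {s x : ℝ} (h : s ≠ x) :
    tw false a 0 ((s : ℂ) - (x : ℂ)) = ((a / (Real.exp (a * (s - x)) - 1) : ℝ) : ℂ) := by
  rw [tw_zero ha]
  · push_cast
    rfl
  · intro l hl
    have := congrArg Complex.re hl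
    simp only [Complex.sub_re, Complex.ofReal_re, Complex.mul_re, Complex.I_re, Complex.I_im,
      Complex.ofReal_im, zero_mul, mul_zero, sub_zero] at this
    exact h (sub_eq_zero.1 this)

theorem fin_shape (p : ℝ[X]) (hp : p ≠ 0) (h2 : p.support.card ≤ 2) :
    (∃ (k : ℕ) (β : ℝ), β ≠ 0 ∧ p = C β * X ^ k) ∨
      ∃ (k a : ℕ) (β γ : ℝ), 0 < a ∧ β ≠ 0 ∧ γ ≠ 0 ∧ p = C β * X ^ k + C γ * X ^ (k + a) := by
  have h0 : p.support.card ≠ 0 := fun h => hp (card_support_eq_zero.1 h)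
  rcases (by omega : p.support.card = 1 ∨ p.support.card = 2) with h | h
  · obtain ⟨k, β, hβ, e⟩ := card_support_eq_one.1 h
    exact Or.inl ⟨k, β, hβ, e⟩
  · obtain ⟨k, l, hkl, β, γ, hβ, hγ, e⟩ := card_support_eq_two.1 h
    refine Or.inr ⟨k, l - k, β, γ, by omega, hβ, hγ, ?_⟩
    rw [e, show k + (l - k) = l by omega]

theorem fin_mono_deriv (β y : ℝ) (k : ℕ) :
    y * (derivative (C β * X ^ k : ℝ[X])).eval y = k * (β * y ^ k) := by
  rw [derivative_C_mul_X_pow]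
  cases k with
  | zero => simp
  | succ k =>
    simp only [eval_mul, eval_C, eval_pow, eval_X, Nat.add_sub_cancel]
    ring

/-- For `p = β X^i + γ X^k`, `i < k`, `a = k - i`, `|β/γ| = exp (a x0)`: if `β/γ < 0` the
logarithmic derivative is `i + a + φ_a`, otherwise `i + a - φ_a + φ_{2a}`, where
`φ_a = a / (exp (a (s - x0)) - 1) = tw false a 0 (s - x0)` (`tw_zero`).  For monomials take `W = 0`. -/
theorem binom_logderiv (p : ℝ[X]) (hp : p ≠ 0) (h2 : p.support.card ≤ 2) :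
    ∃ (c0 : ℝ) (W a x : Fin 2 → ℝ), (∀ i, 0 < a i) ∧ ∀ s : ℝ, (∀ i, s ≠ x i) →
      p.eval (Real.exp s) ≠ 0 ∧
      ((Real.exp s * p.derivative.eval (Real.exp s) / p.eval (Real.exp s) : ℝ) : ℂ) =
        (c0 : ℂ) + ∑ i, (W i : ℂ) * tw false (a i) 0 ((s : ℂ) - (x i : ℂ)) := by
  rcases fin_shape p hp h2 with ⟨k, β, hβ, rfl⟩ | ⟨k, a, β, γ, ha, hβ, hγ, rfl⟩
  · refine ⟨k, 0, 1, 0, fun _ => one_pos, fun s _ => ?_⟩
    have hy := Real.exp_pos s
    have he : (C β * X ^ k : ℝ[X]).eval (Real.exp s) = β * Real.exp s ^ k := by simp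
    have hne : β * Real.exp s ^ k ≠ 0 := mul_ne_zero hβ (pow_pos hy k).ne'
    refine ⟨he ▸ hne, ?_⟩
    rw [fin_mono_deriv, he, mul_div_assoc, div_self hne]
    simp
  · have ha' : (0 : ℝ) < a := by exact_mod_cast ha
    have hr : β / γ ≠ 0 := div_ne_zero hβ hγ
    have hρ : 0 < |β / γ| := abs_pos.2 hr
    set x0 : ℝ := Real.log |β / γ| / a with hx0
    have key : ∀ s : ℝ, Real.exp s ^ a = |β / γ| * Real.exp (a * (s - x0)) := fun s => by
      have e : (a : ℝ) * (s - x0) = a * s - Real.log |β / γ| := by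
        rw [hx0]; field_simp
      rw [e, Real.exp_sub, Real.exp_log hρ, Real.exp_nat_mul]
      field_simp
    have he : ∀ y : ℝ, (C β * X ^ k + C γ * X ^ (k + a) : ℝ[X]).eval y =
        y ^ k * γ * (β / γ + y ^ a) := fun y => by
      simp only [eval_add, eval_mul, eval_C, eval_pow, eval_X]
      field_simp
      ring
    have hd : ∀ y : ℝ, y * (derivative (C β * X ^ k + C γ * X ^ (k + a) : ℝ[X])).eval y =
        y ^ k * γ * (k * (β / γ) + (k + a) * y ^ a) := fun y => by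
      rw [derivative_add, eval_add, mul_add, fin_mono_deriv, fin_mono_deriv]
      push_cast
      field_simp
      ring
    have hE : ∀ s : ℝ, s ≠ x0 → Real.exp (a * (s - x0)) - 1 ≠ 0 := fun s hs h => by
      rw [sub_eq_zero, Real.exp_eq_one_iff] at h
      exact mul_ne_zero ha'.ne' (sub_ne_zero.2 hs) h
    rcases lt_or_gt_of_ne hr with hneg | hpos
    · refine ⟨k + a, ![1, 0], fun _ => a, fun _ => x0, fun _ => ha', fun s hs => ?_⟩
      have h1 := hE s (hs 0)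
      have h3 : Real.exp s ^ k * γ ≠ 0 := mul_ne_zero (pow_pos (Real.exp_pos s) k).ne' hγ
      have h4 := key s
      rw [abs_of_neg hneg] at h4
      have h5 : β / γ + Real.exp s ^ a = -(β / γ) * (Real.exp (a * (s - x0)) - 1) := by
        rw [h4]; ring
      have h6 : β / γ + Real.exp s ^ a ≠ 0 := h5 ▸ mul_ne_zero (neg_ne_zero.2 hr) h1
      refine ⟨by rw [he]; exact mul_ne_zero h3 h6, ?_⟩
      rw [hd, he, mul_div_mul_left _ _ h3, Fin.sum_univ_two, fin_tw_real ha' (hs 0)]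
      simp only [Matrix.cons_val_zero, Matrix.cons_val_one]
      norm_cast
      rw [h5, h4]
      push_cast
      generalize β / γ = r at hr
      generalize Real.exp (a * (s - x0)) = E at h1
      field_simp
      ring
    · refine ⟨k + a, ![-1, 1], ![a, 2 * a], fun _ => x0, fun i => ?_, fun s hs => ?_⟩
      · fin_cases i
        · simpa using ha
        · simpa using ha
      have h1 := hE s (hs 0)
      have h3 : Real.exp s ^ k * γ ≠ 0 := mul_ne_zero (pow_pos (Real.exp_pos s) k).ne' hγ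
      have h4 := key s
      rw [abs_of_pos hpos] at h4
      have h7 : Real.exp (a * (s - x0)) + 1 ≠ 0 := by positivity
      have h5 : β / γ + Real.exp s ^ a = β / γ * (Real.exp (a * (s - x0)) + 1) := by
        rw [h4]; ring
      have h6 : β / γ + Real.exp s ^ a ≠ 0 := h5 ▸ mul_ne_zero hr h7
      refine ⟨by rw [he]; exact mul_ne_zero h3 h6, ?_⟩
      have h8 : Real.exp (2 * a * (s - x0)) - 1 =
          (Real.exp (a * (s - x0)) - 1) * (Real.exp (a * (s - x0)) + 1) := by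
        rw [show 2 * (a : ℝ) * (s - x0) = a * (s - x0) + a * (s - x0) by ring, Real.exp_add]
        ring
      rw [hd, he, mul_div_mul_left _ _ h3, Fin.sum_univ_two]
      simp only [Matrix.cons_val_zero, Matrix.cons_val_one]
      rw [fin_tw_real ha' (hs 0), fin_tw_real (by positivity) (hs 0), h8]
      norm_cast
      rw [h5, h4]
      push_cast
      generalize β / γ = r at hr
      generalize Real.exp (a * (s - x0)) = E at h1 h7
      field_simp
      ring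

/-- Rolle off a finite exceptional set -/
theorem rolle_count (X : Finset ℝ) (h h' : ℝ → ℝ) (hd : ∀ s, s ∉ X → HasDerivAt h (h' s) s) (v : ℝ)
    (N : ℕ) (hN : ∀ Z' : Finset ℝ, (∀ s ∈ Z', s ∉ X ∧ h' s = 0) → Z'.card ≤ N) (Z : Finset ℝ)
    (hZ : ∀ s ∈ Z, s ∉ X ∧ h s = v) : Z.card ≤ N + X.card + 1 := by
  classical
  have key : ∀ p : ℝ × ℝ, ∃ z, p.1 ∈ Z → p.2 ∈ Z → p.1 < p.2 →
      p.1 < z ∧ z < p.2 ∧ (z ∉ X → h' z = 0) := by
    rintro ⟨x, y⟩
    by_cases hx : x ∈ Z ∧ y ∈ Z ∧ x < y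
    · obtain ⟨hx, hy, hxy⟩ := hx
      by_cases hX : ∃ z ∈ X, x < z ∧ z < y
      · obtain ⟨z, hz, h1, h2⟩ := hX
        exact ⟨z, fun _ _ _ => ⟨h1, h2, fun h => absurd hz h⟩⟩
      · have hn : ∀ z ∈ Set.Icc x y, z ∉ X := fun z hz hzX => by
          rcases hz.1.eq_or_lt with e | h1
          · exact (hZ x hx).1 (e ▸ hzX)
          rcases hz.2.eq_or_lt with e | h2
          · exact (hZ y hy).1 (e ▸ hzX)
          exact hX ⟨z, hzX, h1, h2⟩
        obtain ⟨z, hz, h0⟩ := exists_hasDerivAt_eq_zero hxy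
          (fun z hz => (hd z (hn z hz)).continuousAt.continuousWithinAt)
          ((hZ x hx).2.trans (hZ y hy).2.symm)
          (fun z hz => hd z (hn z (Set.Ioo_subset_Icc_self hz)))
        exact ⟨z, fun _ _ _ => ⟨hz.1, hz.2, fun _ => h0⟩⟩
    · exact ⟨0, fun h1 h2 h3 => absurd ⟨h1, h2, h3⟩ hx⟩
  choose g hg using key
  let t := ((Z ×ˢ Z).filter fun p => p.1 < p.2).image g
  have h1 : Z.card ≤ t.card + 1 := Finset.card_le_of_interleaved fun x hx y hy hxy _ =>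
    ⟨g (x, y), mem_image_of_mem g (by simp [hx, hy, hxy]), (hg (x, y) hx hy hxy).1,
      (hg (x, y) hx hy hxy).2.1⟩
  have h2 : (t.filter fun z => z ∉ X).card ≤ N := hN _ fun z hz => by
    rw [mem_filter] at hz
    obtain ⟨p, hp, rfl⟩ := mem_image.1 hz.1
    rw [mem_filter, mem_product] at hp
    exact ⟨hz.2, (hg p hp.1.1 hp.1.2 hp.2).2.2 hz.2⟩
  have h3 : (t.filter fun z => z ∈ X).card ≤ X.card :=
    card_le_card fun z hz => (mem_filter.1 hz).2
  have h4 := card_filter_add_card_filter_not (s := t) fun z => z ∈ X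
  omega

theorem fin_prod_logderiv {κ : Type*} (s : Finset κ) (G : κ → ℝ[X]) (β : κ → ℕ) (y : ℝ)
    (h : ∀ j ∈ s, (G j).eval y ≠ 0) :
    (derivative (∏ j ∈ s, G j ^ β j)).eval y =
      (∏ j ∈ s, G j ^ β j).eval y * ∑ j ∈ s, β j * ((derivative (G j)).eval y / (G j).eval y) := by
  classical
  induction s using Finset.induction_on with
  | empty => simp
  | insert j s hj ih =>
    have h1 := h j (mem_insert_self j s)
    rw [prod_insert hj, sum_insert hj, derivative_mul, eval_add, eval_mul, eval_mul, eval_mul,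
      ih fun i hi => h i (mem_insert_of_mem hi), derivative_pow]
    have e : (C (β j : ℝ) * G j ^ (β j - 1) * derivative (G j)).eval y =
        (G j ^ β j).eval y * (β j * ((derivative (G j)).eval y / (G j).eval y)) := by
      simp only [eval_mul, eval_C, eval_pow]
      cases β j with
      | zero => simp
      | succ n =>
        simp only [Nat.add_sub_cancel]
        field_simp
        ring
    rw [e]
    ring

/-- `A = ∏ F 0 j ^ α 0 j`, `B = ∏ F 1 j ^ α 1 j`.  Index type `Fin 2 × Fin m × Fin 2`, weights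
`± α i j * W`; off the walls `c + lat = x (A' B - A B') / (A B)` at `x = exp s`, which is not locally
zero.  `rolle_count` for `h s = A (exp s) / B (exp s)`, `v = -1`, and `KIn.count`. -/
theorem pos_count (hp : Par (4 * m) M) (F : Fin 2 → Fin m → ℝ[X]) (α : Fin 2 → Fin m → ℕ)
    (hF : ∀ i j, (F i j).support.card ≤ 2) (h0 : ∀ i j, F i j ≠ 0)
    (hW : derivative (∏ j, F 0 j ^ α 0 j) * (∏ j, F 1 j ^ α 1 j) -
      (∏ j, F 0 j ^ α 0 j) * derivative (∏ j, F 1 j ^ α 1 j) ≠ 0)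
    (Z : Finset ℝ) (hZ : ∀ x ∈ Z, 0 < x ∧ (∑ i, ∏ j, F i j ^ α i j).eval x = 0) :
    Z.card ≤ M ^ 32601 + 8 * m + 1 := by
  classical
  choose c0 W a x ha hl using fun i j => binom_logderiv (F i j) (h0 i j) (hF i j)
  set A := ∏ j, F 0 j ^ α 0 j with hA
  set B := ∏ j, F 1 j ^ α 1 j with hB
  set Wr := derivative A * B - A * derivative B with hWr
  let sg : Fin 2 → ℝ := ![1, -1]
  let D : Dat (Fin 2 × Fin m × Fin 2) :=
    { s := univ
      W := fun k => sg k.1 * α k.1 k.2.1 * W k.1 k.2.1 k.2.2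
      a := fun k => a k.1 k.2.1 k.2.2
      x := fun k => x k.1 k.2.1 k.2.2
      fl := fun _ => false }
  let c : ℝ := ∑ i, ∑ j, sg i * α i j * c0 i j
  let X : Finset ℝ := univ.image D.x
  have hcard : (univ : Finset (Fin 2 × Fin m × Fin 2)).card = 4 * m := by
    simp only [card_univ, Fintype.card_prod, Fintype.card_fin]
    ring
  have hXc : X.card ≤ 4 * m := card_image_le.trans hcard.le
  have hX : ∀ s, s ∉ X → ∀ i j l, s ≠ x i j l := fun s hs i j l e =>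
    hs (mem_image.2 ⟨(i, j, l), mem_univ _, e.symm⟩)
  have hne : ∀ s, s ∉ X → ∀ i, (∏ j, F i j ^ α i j).eval (Real.exp s) ≠ 0 := fun s hs i => by
    rw [eval_prod]
    exact prod_ne_zero_iff.2 fun j _ => by
      rw [eval_pow]
      exact pow_ne_zero _ (hl i j s (hX s hs i j)).1
  have hid : ∀ s, s ∉ X → (c : ℂ) + D.lat D.s 0 s =
      ((Real.exp s * Wr.eval (Real.exp s) / (A.eval (Real.exp s) * B.eval (Real.exp s)) : ℝ) : ℂ) := by
    intro s hs
    have h1 : (c : ℂ) + D.lat D.s 0 s = ∑ i, ∑ j, ((sg i * α i j : ℝ) : ℂ) *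
        ((c0 i j : ℂ) + ∑ l, (W i j l : ℂ) * tw false (a i j l) 0 ((s : ℂ) - (x i j l : ℂ))) := by
      simp only [c, D, Dat.lat, Fintype.sum_prod_type, mul_add, sum_add_distrib, mul_sum]
      push_cast
      simp only [mul_assoc]
    have h2 : ∀ i j, ((c0 i j : ℂ) +
        ∑ l, (W i j l : ℂ) * tw false (a i j l) 0 ((s : ℂ) - (x i j l : ℂ))) =
        ((Real.exp s * (F i j).derivative.eval (Real.exp s) / (F i j).eval (Real.exp s) : ℝ) : ℂ) :=
      fun i j => (hl i j s (hX s hs i j)).2.symm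
    have h3 := fun i => fin_prod_logderiv univ (F i) (α i) (Real.exp s)
      fun j _ => (hl i j s (hX s hs i j)).1
    have hA0 : A.eval (Real.exp s) ≠ 0 := hne s hs 0
    have hB0 : B.eval (Real.exp s) ≠ 0 := hne s hs 1
    rw [h1]
    simp only [h2]
    norm_cast
    rw [hWr, eval_sub, eval_mul, eval_mul, h3 0, h3 1, ← hA, ← hB, Fin.sum_univ_two]
    have e : ∀ i, ∑ j, sg i * α i j *
        (Real.exp s * (F i j).derivative.eval (Real.exp s) / (F i j).eval (Real.exp s)) =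
        sg i * Real.exp s *
          ∑ j, α i j * ((F i j).derivative.eval (Real.exp s) / (F i j).eval (Real.exp s)) :=
      fun i => by
        rw [mul_sum]
        exact sum_congr rfl fun j _ => by ring
    rw [e, e]
    simp only [sg, Matrix.cons_val_zero, Matrix.cons_val_one]
    field_simp
    ring
  have hK : KIn (4 * m) M D c :=
    { par := hp
      card := hcard.le
      apos := fun k _ => ha _ _ _
      nfl := fun _ _ => rfl
      nz := fun u v huv => by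
        obtain ⟨t, ht, hn⟩ := (Set.Ioo_infinite huv).exists_notMem_finset
          (X ∪ Wr.roots.toFinset.image Real.log)
        rw [mem_union, not_or] at hn
        refine ⟨t, ht, ?_⟩
        rw [hid t hn.1, Complex.ofReal_ne_zero]
        refine div_ne_zero (mul_ne_zero (Real.exp_pos t).ne' fun h => hn.2 ?_)
          (mul_ne_zero (hne t hn.1 0) (hne t hn.1 1))
        exact mem_image.2 ⟨Real.exp t, Multiset.mem_toFinset.2 ((mem_roots hW).2 h),
          Real.log_exp t⟩ }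
  have hinj : Set.InjOn Real.log Z := fun u hu v hv e =>
    Real.log_injOn_pos (hZ u hu).1 (hZ v hv).1 e
  have h1 := rolle_count X (fun s => A.eval (Real.exp s) / B.eval (Real.exp s))
    (fun s => Real.exp s * Wr.eval (Real.exp s) / B.eval (Real.exp s) ^ 2)
    (fun s hs => by
      have hA' := (A.hasDerivAt (Real.exp s)).comp s (Real.hasDerivAt_exp s)
      have hB' := (B.hasDerivAt (Real.exp s)).comp s (Real.hasDerivAt_exp s)
      refine (hA'.div hB' (hne s hs 1)).congr_deriv ?_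
      simp only [Function.comp_apply, hWr, eval_sub, eval_mul]
      ring)
    (-1) (M ^ 32601)
    (fun Z' hZ' => hK.count Z' fun t ht => by
      obtain ⟨h1, h2⟩ := hZ' t ht
      refine ⟨fun k _ => hX t h1 _ _ _, ?_⟩
      rw [div_eq_zero_iff, or_iff_left (pow_ne_zero _ (hne t h1 1))] at h2
      rw [hid t h1, h2, zero_div, Complex.ofReal_zero])
    ((Z.image Real.log).filter fun s => s ∉ X)
    (fun s hs => by
      rw [mem_filter] at hs
      obtain ⟨y, hy, rfl⟩ := mem_image.1 hs.1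
      refine ⟨hs.2, ?_⟩
      have h2 := (hZ y hy).2
      have h3 : B.eval (Real.exp (Real.log y)) ≠ 0 := hne _ hs.2 1
      rw [Fin.sum_univ_two, eval_add, ← hA, ← hB] at h2
      rw [div_eq_iff h3, Real.exp_log (hZ y hy).1]
      linarith only [h2])
  have h3 : ((Z.image Real.log).filter fun z => z ∈ X).card ≤ X.card :=
    card_le_card fun z hz => (mem_filter.1 hz).2
  have h4 := card_filter_add_card_filter_not (s := Z.image Real.log) fun z => z ∈ X
  rw [card_image_of_injOn hinj] at h4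
  generalize M ^ 32601 = N at h1 ⊢
  omega

/-- `A / B` has zero derivative beyond the roots of `B` -/
theorem prop_of_wronsk (A B : ℝ[X]) (hB : B ≠ 0) (hW : derivative A * B - A * derivative B = 0) :
    ∃ r : ℝ, A = C r * B := by
  obtain ⟨a, b, ha, hb, hu⟩ := extract_gcd A B
  generalize GCDMonoid.gcd A B = g at ha hb
  subst ha hb
  have hg : g ≠ 0 := left_ne_zero_of_mul hB
  have hb0 : b ≠ 0 := right_ne_zero_of_mul hB
  have hc : IsCoprime a b := (gcd_isUnit_iff a b).1 hu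
  have hw : wronskian a b = 0 := by
    have e : derivative (g * a) * (g * b) - g * a * derivative (g * b) =
        -(g ^ 2 * wronskian a b) := by
      rw [wronskian, derivative_mul, derivative_mul]
      ring
    rw [e, neg_eq_zero] at hW
    exact (mul_eq_zero.1 hW).resolve_left (pow_ne_zero _ hg)
  obtain ⟨h1, h2⟩ := hc.wronskian_eq_zero_iff.1 hw
  have ea := eq_C_of_derivative_eq_zero h1
  have eb := eq_C_of_derivative_eq_zero h2
  generalize a.coeff 0 = u at ea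
  generalize b.coeff 0 = w at eb
  subst ea eb
  have hw0 : w ≠ 0 := fun h => hb0 (by rw [h, C_0])
  refine ⟨u / w, ?_⟩
  rw [mul_left_comm, ← C_mul, div_mul_cancel₀ _ hw0]

theorem binom_roots (p : ℝ[X]) (h2 : p.support.card ≤ 2) : p.roots.toFinset.card ≤ 3 := by
  by_cases hp : p = 0
  · simp [hp]
  have h3 : ∀ ρ : ℝ, (∀ y, p.eval y = 0 → y ≠ 0 → |y| = ρ) → p.roots.toFinset.card ≤ 3 := by
    intro ρ h
    refine (card_le_card (t := {0, ρ, -ρ}) fun y hy => ?_).trans card_le_three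
    have h1 := h y ((mem_roots hp).1 (Multiset.mem_toFinset.1 hy))
    simp only [mem_insert, mem_singleton]
    by_cases h0 : y = 0
    · exact Or.inl h0
    · rw [← h1 h0]
      rcases abs_choice y with e | e
      · exact Or.inr (Or.inl e.symm)
      · exact Or.inr (Or.inr (by rw [e, neg_neg]))
  rcases fin_shape p hp h2 with ⟨k, β, hβ, e⟩ | ⟨k, a, β, γ, ha, hβ, hγ, e⟩
  · refine h3 0 fun y hy h0 => ?_
    rw [e] at hy
    simp [hβ, h0] at hy
  · refine h3 (|β / γ| ^ ((a : ℝ)⁻¹)) fun y hy h0 => ?_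
    rw [e] at hy
    simp only [eval_add, eval_mul, eval_C, eval_pow, eval_X] at hy
    have h4 : y ^ k * (β + γ * y ^ a) = 0 := by rw [← hy]; ring
    have h5 := (mul_eq_zero.1 h4).resolve_left (pow_ne_zero _ h0)
    have h6 : β / γ = -y ^ a := by
      field_simp
      linarith only [h5]
    rw [h6, abs_neg, abs_pow, Real.pow_rpow_inv_natCast (abs_nonneg y) ha.ne']

theorem prod_roots (G : Fin m → ℝ[X]) (β : Fin m → ℕ) (hG : ∀ j, (G j).support.card ≤ 2) :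
    (∏ j, G j ^ β j).roots.toFinset.card ≤ 3 * m := by
  classical
  by_cases hp : ∏ j, G j ^ β j = 0
  · simp [hp]
  have h1 : (∏ j, G j ^ β j).roots.toFinset ⊆ univ.biUnion fun j => (G j).roots.toFinset := by
    intro y hy
    have h2 : (∏ j, G j ^ β j).eval y = 0 := (mem_roots hp).1 (Multiset.mem_toFinset.1 hy)
    rw [eval_prod, prod_eq_zero_iff] at h2
    obtain ⟨j, -, hj⟩ := h2
    rw [eval_pow, pow_eq_zero_iff'] at hj
    have h3 : G j ≠ 0 := fun h => hp (prod_eq_zero (mem_univ j) (by rw [h, zero_pow hj.2]))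
    exact mem_biUnion.2 ⟨j, mem_univ j, Multiset.mem_toFinset.2 ((mem_roots h3).2 hj.1)⟩
  refine (card_le_card h1).trans ((card_biUnion_le_card_mul _ _ 3 fun j _ =>
    binom_roots _ (hG j)).trans ?_)
  simp [mul_comm]

theorem fin_neg_coeff (p : ℝ[X]) (n : ℕ) :
    (p.comp (C (-1) * X)).coeff n = 0 ↔ p.coeff n = 0 := by
  rw [comp_C_mul_X_coeff, mul_eq_zero, or_iff_left (pow_ne_zero _ (by norm_num))]

theorem fin_neg_support (p : ℝ[X]) : (p.comp (C (-1) * X)).support = p.support := by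
  ext n
  rw [mem_support_iff, mem_support_iff, Ne, Ne, fin_neg_coeff]

theorem fin_neg_ne {p : ℝ[X]} (hp : p ≠ 0) : p.comp (C (-1) * X) ≠ 0 := fun h =>
  hp (by rw [← support_eq_empty, ← fin_neg_support, h, support_zero])

theorem fin_main (hp : Par (4 * m) M) (F : Fin 2 → Fin m → ℝ[X]) (α : Fin 2 → Fin m → ℕ)
    (hF : ∀ i j, (F i j).support.card ≤ 2) (h0 : ∀ i j, F i j = 0 → α i j ≠ 0)
    (hS : (∑ i, ∏ j, F i j ^ α i j) ≠ 0) :
    (∑ i, ∏ j, F i j ^ α i j).roots.toFinset.card ≤ 2 * M ^ 32601 + 16 * m + 3 := by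
  classical
  have hA := prod_roots (F 0) (α 0) (hF 0)
  have hB := prod_roots (F 1) (α 1) (hF 1)
  have hpc := pos_count hp F α hF
  have hnc := pos_count hp (fun i j => (F i j).comp (C (-1) * X)) α
    (fun i j => by rw [fin_neg_support]; exact hF i j)
  generalize M ^ 32601 = N at hpc hnc ⊢
  by_cases hz : ∃ i j, F i j = 0
  · obtain ⟨i, j, hij⟩ := hz
    have h1 : ∏ j, F i j ^ α i j = 0 :=
      prod_eq_zero (mem_univ j) (by rw [hij, zero_pow (h0 i j hij)])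
    rw [Fin.sum_univ_two]
    fin_cases i
    · simp only [Fin.zero_eta] at h1
      rw [h1, zero_add]
      omega
    · simp only [Fin.mk_one] at h1
      rw [h1, add_zero]
      omega
  push Not at hz
  have hB0 : ∏ j, F 1 j ^ α 1 j ≠ 0 := prod_ne_zero_iff.2 fun j _ => pow_ne_zero _ (hz 1 j)
  by_cases hW : derivative (∏ j, F 0 j ^ α 0 j) * (∏ j, F 1 j ^ α 1 j) -
      (∏ j, F 0 j ^ α 0 j) * derivative (∏ j, F 1 j ^ α 1 j) = 0
  · obtain ⟨r, hr⟩ := prop_of_wronsk _ _ hB0 hW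
    have e : (∑ i, ∏ j, F i j ^ α i j) = C (r + 1) * ∏ j, F 1 j ^ α 1 j := by
      rw [Fin.sum_univ_two, hr, C_add, C_1]
      ring
    rw [e] at hS ⊢
    rw [roots_C_mul _ fun h => hS (by rw [h, C_0, zero_mul])]
    omega
  set R := (∑ i, ∏ j, F i j ^ α i j).roots.toFinset with hR
  have hroot : ∀ y ∈ R, (∑ i, ∏ j, F i j ^ α i j).eval y = 0 := fun y hy =>
    (mem_roots hS).1 (Multiset.mem_toFinset.1 hy)
  have h1 := hpc hz hW (R.filter fun y => 0 < y) fun y hy =>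
    ⟨(mem_filter.1 hy).2, hroot y (mem_filter.1 hy).1⟩
  have hcomp : ∀ i, ∏ j, (F i j).comp (C (-1) * X) ^ α i j =
      (∏ j, F i j ^ α i j).comp (C (-1) * X) := fun i => by
    simp only [Polynomial.prod_comp, pow_comp]
  have h2 := hnc (fun i j => fin_neg_ne (hz i j)) (by
      rw [hcomp, hcomp, derivative_comp, derivative_comp]
      intro h
      refine fin_neg_ne hW ?_
      rw [sub_comp, mul_comp, mul_comp]
      have e : derivative (C (-1) * X : ℝ[X]) = -1 := by simp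
      rw [e] at h
      linear_combination -h)
    ((R.filter fun y => y < 0).image fun y => -y) fun y hy => by
      obtain ⟨z, hz', rfl⟩ := mem_image.1 hy
      refine ⟨neg_pos.2 (mem_filter.1 hz').2, ?_⟩
      have h3 := hroot z (mem_filter.1 hz').1
      rw [Fin.sum_univ_two, eval_add] at h3 ⊢
      rw [hcomp, hcomp, eval_comp, eval_comp]
      simpa using h3
  rw [card_image_of_injective _ neg_injective] at h2
  have h3 : R ⊆ (R.filter fun y => 0 < y) ∪ (R.filter fun y => y < 0) ∪ {0} := fun y hy => by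
    simp only [mem_union, mem_filter, mem_singleton]
    rcases lt_trichotomy 0 y with h | h | h
    · exact Or.inl (Or.inl ⟨hy, h⟩)
    · exact Or.inr h.symm
    · exact Or.inl (Or.inr ⟨hy, h⟩)
  have h4 := (card_le_card h3).trans ((card_union_le _ _).trans
    (add_le_add (card_union_le _ _) (card_singleton _).le))
  omega

theorem fin_arith {C c e m M : ℕ} (h : M ≤ C * (4 * m + 1) ^ c) :
    2 * M ^ e + 16 * m + 3 ≤ (2 * (C * 4 ^ c) ^ e + 19) * (m + 1) ^ (c * e + 1) := by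
  have h1 : M ≤ C * 4 ^ c * (m + 1) ^ c := by
    rw [mul_assoc, ← mul_pow]
    exact h.trans (Nat.mul_le_mul_left _ (Nat.pow_le_pow_left (by omega) _))
  have h2 : M ^ e ≤ (C * 4 ^ c) ^ e * (m + 1) ^ (c * e + 1) := by
    refine (Nat.pow_le_pow_left h1 e).trans ?_
    rw [mul_pow, ← pow_mul]
    exact Nat.mul_le_mul_left _ (Nat.pow_le_pow_right (by omega) (by omega))
  have h3 : m + 1 ≤ (m + 1) ^ (c * e + 1) := Nat.le_self_pow (by omega) _
  rw [add_mul, mul_assoc]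
  omega

/-- Replace factors with exponent `0` by `1`.  If one product vanishes or the products are
proportional use `prod_roots`; otherwise `pos_count` for `F` and for `F.comp (-X)`;
`exists_par`. -/
theorem main : ∃ C c : ℕ, ∀ (m : ℕ) (F : Fin 2 → Fin m → ℝ[X]) (α : Fin 2 → Fin m → ℕ),
    (∀ i j, (F i j).support.card ≤ 2) → (∑ i, ∏ j, F i j ^ α i j) ≠ 0 →
      (∑ i, ∏ j, F i j ^ α i j).roots.toFinset.card ≤ C * (m + 1) ^ c := by
  obtain ⟨C0, c, h⟩ := exists_par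
  suffices H : ∀ e : ℕ, (∀ (m M : ℕ), Par (4 * m) M → ∀ (F : Fin 2 → Fin m → ℝ[X])
      (α : Fin 2 → Fin m → ℕ), (∀ i j, (F i j).support.card ≤ 2) → (∀ i j, F i j = 0 → α i j ≠ 0) →
      (∑ i, ∏ j, F i j ^ α i j) ≠ 0 →
      (∑ i, ∏ j, F i j ^ α i j).roots.toFinset.card ≤ 2 * M ^ e + 16 * m + 3) →
      ∃ C c : ℕ, ∀ (m : ℕ) (F : Fin 2 → Fin m → ℝ[X]) (α : Fin 2 → Fin m → ℕ),
        (∀ i j, (F i j).support.card ≤ 2) → (∑ i, ∏ j, F i j ^ α i j) ≠ 0 →
          (∑ i, ∏ j, F i j ^ α i j).roots.toFinset.card ≤ C * (m + 1) ^ c from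
    H 32601 fun _ _ hp F α => fin_main hp F α
  intro e he
  refine ⟨2 * (C0 * 4 ^ c) ^ e + 19, c * e + 1, fun m F α hF hS => ?_⟩
  obtain ⟨M, hp, hM⟩ := h (4 * m)
  have e1 : (∑ i, ∏ j, F i j ^ α i j) =
      ∑ i, ∏ j, (if α i j = 0 then 1 else F i j) ^ α i j :=
    sum_congr rfl fun i _ => prod_congr rfl fun j _ => by
      split_ifs with h0
      · rw [h0, pow_zero, pow_zero]
      · rfl
  rw [e1] at hS ⊢
  refine (he m M hp _ α (fun i j => ?_) (fun i j h1 h0 => ?_) hS).trans (fin_arith hM)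
  · split_ifs
    · rw [← C_1]
      exact (card_le_card (support_C_subset 1)).trans (by simp)
    · exact hF i j
  · rw [if_pos h0] at h1
    exact one_ne_zero h1

end Pool.Agent.Work.MP_97f157_lc.Tau
end
end
end
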