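import Mathlib

set_option autoImplicit false

open Polynomial Finset Filter Topology

namespace Pool.Agent.Work.MP_97f157_lc

/-! Sparsity bookkeeping -/

lemma card_support_add_le' (p q : ℝ[X]) : (p + q).support.card ≤ p.support.card + q.support.card :=
  (Finset.card_le_card Polynomial.support_add).trans (Finset.card_union_le _ _)

lemma card_support_C_mul_le (c : ℝ) (p : ℝ[X]) : (C c * p).support.card ≤ p.support.card := by
  apply Finset.card_le_card
  intro n hn
  rw [Polynomial.mem_support_iff] at hn ⊢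
  intro h
  apply hn
  simp [h]

lemma card_support_C_le (c : ℝ) : (C c : ℝ[X]).support.card ≤ 1 := by
  have : (C c : ℝ[X]).support ⊆ {0} := Polynomial.support_C_subset c
  simpa using Finset.card_le_card this

lemma card_support_sum_le {ι : Type*} (s : Finset ι) (f : ι → ℝ[X]) (T : ℕ)
    (h : ∀ i ∈ s, (f i).support.card ≤ T) : (∑ i ∈ s, f i).support.card ≤ s.card * T := by
  classical
  induction s using Finset.induction_on with
  | empty => simp
  | insert a s ha ih =>
    rw [Finset.sum_insert ha, Finset.card_insert_of_notMem ha]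
    have h1 := card_support_add_le' (f a) (∑ i ∈ s, f i)
    have h2 := h a (Finset.mem_insert_self _ _)
    have h3 := ih (fun i hi => h i (Finset.mem_insert_of_mem hi))
    nlinarith

lemma card_support_prod_le {ι : Type*} (s : Finset ι) (f : ι → ℝ[X]) (T : ℕ)
    (h : ∀ i ∈ s, (f i).support.card ≤ T) : (∏ i ∈ s, f i).support.card ≤ T ^ s.card := by
  classical
  induction s using Finset.induction_on with
  | empty => simpa using card_support_C_le 1
  | insert a s ha ih =>
    rw [Finset.prod_insert ha, Finset.card_insert_of_notMem ha, pow_succ']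
    have h1 : (f a * ∏ i ∈ s, f i).support.card ≤ _ := Polynomial.card_support_mul_le
    have h2 := h a (Finset.mem_insert_self _ _)
    have h3 := ih (fun i hi => h i (Finset.mem_insert_of_mem hi))
    exact h1.trans (Nat.mul_le_mul h2 h3)

lemma card_support_comp_quadratic (p l : ℝ[X]) (T : ℕ) (hp : p.natDegree ≤ 2)
    (hl : l.support.card ≤ T) : (p.comp l).support.card ≤ (T + 1) ^ 2 := by
  have hp' : p.degree ≤ 2 := Polynomial.degree_le_of_natDegree_le hp
  rw [Polynomial.eq_quadratic_of_degree_le_two hp']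
  simp only [add_comp, mul_comp, C_comp, pow_comp, X_comp]
  have h1 := card_support_add_le' (C (p.coeff 2) * l ^ 2 + C (p.coeff 1) * l) (C (p.coeff 0))
  have h2 := card_support_add_le' (C (p.coeff 2) * l ^ 2) (C (p.coeff 1) * l)
  have h3 := card_support_C_mul_le (p.coeff 2) (l ^ 2)
  have h4 := card_support_C_mul_le (p.coeff 1) l
  have h5 := card_support_C_le (p.coeff 0)
  have h6 : (l ^ 2).support.card ≤ T * T := by
    rw [pow_two]
    exact Polynomial.card_support_mul_le.trans (Nat.mul_le_mul hl hl)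
  nlinarith

/-- `f` is a product of at most `M` polynomials, each with at most `T` monomials. -/
def PS (M T : ℕ) (f : ℝ[X]) : Prop :=
  ∃ l : List ℝ[X], l.length ≤ M ∧ (∀ g ∈ l, g.support.card ≤ T) ∧ l.prod = f

lemma PS.mul {M M' T : ℕ} {f g : ℝ[X]} (hf : PS M T f) (hg : PS M' T g) :
    PS (M + M') T (f * g) := by
  obtain ⟨l, h1, h2, h3⟩ := hf
  obtain ⟨l', h1', h2', h3'⟩ := hg
  refine ⟨l ++ l', by simp; omega, ?_, by simp [h3, h3']⟩
  intro g hg
  rcases List.mem_append.1 hg with h | h
  · exact h2 g h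
  · exact h2' g h

lemma PS.one (T : ℕ) : PS 0 T 1 := ⟨[], by simp, by simp, by simp⟩

lemma PS.single {T : ℕ} {f : ℝ[X]} (h : f.support.card ≤ T) : PS 1 T f :=
  ⟨[f], by simp, by simpa using h, by simp⟩

lemma PS.mono {M M' T : ℕ} {f : ℝ[X]} (hf : PS M T f) (h : M ≤ M') : PS M' T f := by
  obtain ⟨l, h1, h2, h3⟩ := hf
  exact ⟨l, h1.trans h, h2, h3⟩

lemma PS.prod {ι : Type*} (s : Finset ι) (f : ι → ℝ[X]) (M T : ℕ)
    (h : ∀ i ∈ s, PS M T (f i)) : PS (s.card * M) T (∏ i ∈ s, f i) := by
  classical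
  induction s using Finset.induction_on with
  | empty => simpa using PS.one T
  | insert a s ha ih =>
    rw [Finset.prod_insert ha, Finset.card_insert_of_notMem ha]
    have := (h a (Finset.mem_insert_self _ _)).mul
      (ih (fun i hi => h i (Finset.mem_insert_of_mem hi)))
    refine this.mono ?_
    rw [add_mul]; omega

/-- A real polynomial of degree at most `n + 1` composed with a sparse polynomial is a product
of at most `n + 1` sparse polynomials. -/
lemma PS_comp (l : ℝ[X]) (T : ℕ) (hl : l.support.card ≤ T) (n : ℕ) :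
    ∀ p : ℝ[X], p.natDegree ≤ n + 1 → PS (n + 1) ((T + 1) ^ 2) (p.comp l) := by
  induction n with
  | zero =>
    intro p hp
    exact PS.single (card_support_comp_quadratic p l T (by omega) hl)
  | succ n ih =>
    intro p hp
    by_cases h2 : p.natDegree ≤ 2
    · exact (PS.single (card_support_comp_quadratic p l T h2 hl)).mono (by omega)
    · have hpos : 0 < p.natDegree := by omega
      have hp0 : p ≠ 0 := by rintro rfl; simp at hpos
      obtain ⟨q, hq, r, hr⟩ := Polynomial.exists_irreducible_of_natDegree_pos hpos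
      have hq2 : q.natDegree ≤ 2 := Polynomial.natDegree_le_of_degree_le hq.degree_le_two
      have hq1 : 0 < q.natDegree := hq.natDegree_pos
      have hr0 : r ≠ 0 := by rintro rfl; simp [hr] at hp0
      have hdeg : p.natDegree = q.natDegree + r.natDegree := by
        rw [hr, Polynomial.natDegree_mul hq.ne_zero hr0]
      have h1 := ih r (by omega)
      have h3 := PS.single (card_support_comp_quadratic q l T hq2 hl)
      rw [hr, mul_comp]
      exact (h3.mul h1).mono (by omega)

/-! Polarization -/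

lemma polarization {R : Type*} [CommRing R] (a : ℕ) (G : Fin a → R) :
    ∑ T : Finset (Fin a), (-1 : R) ^ T.card * (∑ q ∈ Tᶜ, G q) ^ a
      = ((Finset.univ.filter (fun φ : Fin a → Fin a => Function.Surjective φ)).card : R)
        * ∏ q, G q := by
  classical
  have h1 : ∀ T : Finset (Fin a), (∑ q ∈ Tᶜ, G q) ^ a
      = ∑ φ : Fin a → Fin a, if T ⊆ (Finset.univ.image φ)ᶜ then ∏ i, G (φ i) else 0 := by
    intro T
    have : (∑ q ∈ Tᶜ, G q) ^ a = ∏ _i : Fin a, ∑ q ∈ Tᶜ, G q := by simp
    rw [this, Finset.prod_univ_sum, ← Finset.sum_filter]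
    apply Finset.sum_congr _ (fun _ _ => rfl)
    ext φ
    simp only [Fintype.mem_piFinset, Finset.mem_compl, Finset.mem_filter, Finset.mem_univ,
      true_and, Finset.subset_iff, Finset.mem_image, not_exists]
    constructor
    · intro h x hx i hi
      exact h i (hi ▸ hx)
    · intro h i hi
      exact h hi i rfl
  simp_rw [h1, Finset.mul_sum]
  rw [Finset.sum_comm]
  have h2 : ∀ φ : Fin a → Fin a, (∑ T : Finset (Fin a), (-1 : R) ^ T.card *
      (if T ⊆ (Finset.univ.image φ)ᶜ then ∏ i, G (φ i) else 0))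
      = if Function.Surjective φ then ∏ q, G q else 0 := by
    intro φ
    have h3 : (∑ T : Finset (Fin a), (-1 : R) ^ T.card *
        (if T ⊆ (Finset.univ.image φ)ᶜ then ∏ i, G (φ i) else 0))
        = (∑ T ∈ ((Finset.univ.image φ)ᶜ).powerset, (-1 : R) ^ T.card) * ∏ i, G (φ i) := by
      rw [Finset.sum_mul]
      simp_rw [mul_ite, mul_zero]
      rw [← Finset.sum_filter]
      apply Finset.sum_congr _ (fun _ _ => rfl)
      ext T; simp
    have h4 : (∑ T ∈ ((Finset.univ.image φ)ᶜ).powerset, (-1 : R) ^ T.card)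
        = if (Finset.univ.image φ)ᶜ = ∅ then 1 else 0 := by
      have := Finset.sum_powerset_neg_one_pow_card (x := (Finset.univ.image φ)ᶜ)
      have h5 := congrArg (Int.cast : ℤ → R) this
      push_cast at h5
      rw [h5]
    rw [h3, h4]
    by_cases hs : Function.Surjective φ
    · have : (Finset.univ.image φ)ᶜ = ∅ := by
        rw [Finset.compl_eq_empty_iff]
        exact Finset.image_univ_of_surjective hs
      rw [if_pos this, if_pos hs, one_mul]
      have hb : Function.Bijective φ := ⟨Finite.injective_iff_surjective.2 hs, hs⟩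
      exact hb.prod_comp G
    · have : ¬ (Finset.univ.image φ)ᶜ = ∅ := by
        rw [Finset.compl_eq_empty_iff]
        intro h
        apply hs
        intro y
        have : y ∈ Finset.univ.image φ := by rw [h]; exact Finset.mem_univ y
        obtain ⟨x, _, hx⟩ := Finset.mem_image.1 this
        exact ⟨x, hx⟩
      rw [if_neg this, if_neg hs, zero_mul]
  simp_rw [h2]
  rw [← Finset.sum_filter]
  simp

lemma surj_card_pos (a : ℕ) :
    0 < (Finset.univ.filter (fun φ : Fin a → Fin a => Function.Surjective φ)).card := by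
  classical
  apply Finset.card_pos.2
  exact ⟨id, by simp [Function.surjective_id]⟩

/-! Blocking -/

lemma blocking (m a b t : ℕ) (hm : m ≤ a * b) (ht : 1 ≤ t) (F : Fin m → ℝ[X])
    (hF : ∀ j, (F j).support.card ≤ t) :
    ∃ G : Fin a → ℝ[X], (∀ q, (G q).support.card ≤ t ^ b) ∧ ∏ q, G q = ∏ j, F j := by
  classical
  obtain ⟨e⟩ : Nonempty (Fin m ↪ Fin a × Fin b) := by
    apply Function.Embedding.nonempty_of_card_le
    simpa using hm
  refine ⟨fun q => ∏ j ∈ Finset.univ.filter (fun j => (e j).1 = q), F j, ?_, ?_⟩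
  · intro q
    refine (card_support_prod_le _ _ t (fun j _ => hF j)).trans ?_
    apply Nat.pow_le_pow_right ht
    have : (Finset.univ.filter (fun j => (e j).1 = q)).card ≤ (Finset.univ : Finset (Fin b)).card := by
      apply Finset.card_le_card_of_injOn (fun j => (e j).2) (fun _ _ => by simp)
      intro j hj j' hj' h
      apply e.injective
      simp only [Finset.coe_filter, Finset.mem_univ, true_and, Set.mem_ofPred_eq] at hj hj'
      exact Prod.ext (hj.trans hj'.symm) h
    simpa using this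
  · exact Finset.prod_fiberwise Finset.univ (fun j => (e j).1) F

/-! The first order perturbation -/

lemma eventually_sign {ι : Type*} (s : Finset ι) (c : ι → ℝ) (h : ∑ i ∈ s, c i ≠ 0) :
    ∀ᶠ ε in 𝓝[>] (0 : ℝ), 0 < (∏ i ∈ s, (1 + ε * c i) - 1) * ∑ i ∈ s, c i := by
  classical
  have hd : HasDerivAt (fun ε : ℝ => ∏ i ∈ s, (1 + ε * c i)) (∑ i ∈ s, c i) 0 := by
    have := HasDerivAt.fun_finsetProd (u := s) (f := fun i (ε : ℝ) => 1 + ε * c i)
      (f' := c) (x := 0) (fun i _ => by
        simpa using ((hasDerivAt_id (0 : ℝ)).mul_const (c i)).const_add 1)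
    refine this.congr_deriv ?_
    simp
  have hs := hd.tendsto_slope_zero_right
  have hs2 := hs.mul_const (∑ i ∈ s, c i)
  have hpos : 0 < (∑ i ∈ s, c i) * ∑ i ∈ s, c i := mul_self_pos.2 h
  have := hs2.eventually (lt_mem_nhds hpos)
  filter_upwards [this, self_mem_nhdsWithin] with ε hε hε0
  have hε0' : 0 < ε := hε0
  simp only [zero_add, zero_mul, add_zero, Finset.prod_const_one, smul_eq_mul] at hε
  rw [mul_assoc] at hε
  exact (mul_pos_iff_of_pos_left (inv_pos.2 hε0')).1 hε

/-! Counting sign changes -/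

lemma sign_points (f : ℝ[X]) (hf : f ≠ 0) :
    ∃ (δ : ℝ) (A : Finset ℝ), A.Nonempty ∧ (∀ x ∈ A, f.eval x - δ ≠ 0) ∧
      ∀ g : ℝ[X], (∀ x ∈ A, 0 < g.eval x * (f.eval x - δ)) →
        f.roots.toFinset.card ≤ g.roots.toFinset.card := by
  classical
  set R := f.roots.toFinset with hR
  have hmem : ∀ x, x ∈ R ↔ f.eval x = 0 := by
    intro x; simp [hR, hf]
  by_cases hRe : R = ∅
  · refine ⟨0, {0}, by simp, ?_, ?_⟩
    · intro x hx
      have : x ∉ R := by simp [hRe]
      simpa [hmem] using this
    · intro g _; simp [hRe]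
  have hRne : R.Nonempty := Finset.nonempty_iff_ne_empty.2 hRe
  obtain ⟨η, hη, hgap⟩ : ∃ η : ℝ, 0 < η ∧ ∀ r ∈ R, ∀ r' ∈ R, r ≠ r' → 2 * η < |r - r'| := by
    have : ∀ᶠ η in 𝓝[>] (0 : ℝ), ∀ p ∈ R ×ˢ R, p.1 ≠ p.2 → 2 * η < |p.1 - p.2| := by
      rw [Finset.eventually_all]
      intro p _
      by_cases hp : p.1 = p.2
      · simp [hp]
      · have h0 : 0 < |p.1 - p.2| := abs_pos.2 (sub_ne_zero.2 hp)
        have ht : Tendsto (fun η : ℝ => 2 * η) (𝓝[>] 0) (𝓝 (2 * 0)) :=
          ((continuous_const.mul continuous_id).tendsto 0).mono_left nhdsWithin_le_nhds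
        rw [mul_zero] at ht
        filter_upwards [ht.eventually (gt_mem_nhds h0)] with η h _ using h
    obtain ⟨η, h1, h2⟩ := (this.and self_mem_nhdsWithin).exists
    exact ⟨η, h2, fun r hr r' hr' hne => h1 (r, r') (Finset.mem_product.2 ⟨hr, hr'⟩) hne⟩
  set S : Finset ℝ := {1, -1} with hS
  have hSsq : ∀ s ∈ S, s = 1 ∨ s = -1 := by intro s hs; simpa [hS] using hs
  set pt : ℝ × ℝ → ℝ := fun p => p.1 + p.2 * η with hpt
  have hnz : ∀ p ∈ R ×ˢ S, f.eval (pt p) ≠ 0 := by
    intro p hp h
    obtain ⟨h1, h2⟩ := Finset.mem_product.1 hp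
    have h3 : pt p ∈ R := (hmem _).2 h
    have habs : |pt p - p.1| = η := by
      rcases hSsq _ h2 with h | h <;> simp [hpt, h, abs_of_pos hη]
    have hne : pt p ≠ p.1 := by
      intro h; rw [h] at habs; simp at habs; linarith
    have := hgap _ h3 _ h1 hne
    linarith
  have hcard : (R ×ˢ S).card = 2 * R.card := by
    rw [Finset.card_product]
    have : S.card = 2 := by
      rw [hS]; apply Finset.card_pair; norm_num
    rw [this]; ring
  obtain ⟨σ, hσ, hσc⟩ : ∃ σ : ℝ, (σ = 1 ∨ σ = -1) ∧
      R.card ≤ ((R ×ˢ S).filter (fun p => 0 < σ * f.eval (pt p))).card := by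
    by_contra hcon
    push Not at hcon
    have h1 := hcon 1 (Or.inl rfl)
    have h2 := hcon (-1) (Or.inr rfl)
    have h3 : R ×ˢ S ⊆ ((R ×ˢ S).filter (fun p => 0 < 1 * f.eval (pt p))) ∪
        ((R ×ˢ S).filter (fun p => 0 < (-1) * f.eval (pt p))) := by
      intro p hp
      have := hnz p hp
      rcases lt_or_gt_of_ne this with h | h
      · exact Finset.mem_union_right _ (Finset.mem_filter.2 ⟨hp, by linarith⟩)
      · exact Finset.mem_union_left _ (Finset.mem_filter.2 ⟨hp, by linarith⟩)
    have h4 := (Finset.card_le_card h3).trans (Finset.card_union_le _ _)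
    omega
  obtain ⟨δ, hδ, hδlt⟩ : ∃ δ : ℝ, 0 < δ ∧ ∀ p ∈ R ×ˢ S, δ < |f.eval (pt p)| := by
    have : ∀ᶠ δ in 𝓝[>] (0 : ℝ), ∀ p ∈ R ×ˢ S, δ < |f.eval (pt p)| := by
      rw [Finset.eventually_all]
      intro p hp
      have h0 : 0 < |f.eval (pt p)| := abs_pos.2 (hnz p hp)
      exact nhdsWithin_le_nhds (gt_mem_nhds h0)
    obtain ⟨η, h1, h2⟩ := (this.and self_mem_nhdsWithin).exists
    exact ⟨η, h2, h1⟩
  have hσsq : σ * σ = 1 := by rcases hσ with h | h <;> simp [h]
  have hσabs : |σ| = 1 := by rcases hσ with h | h <;> simp [h]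
  refine ⟨σ * δ, R ∪ (R ×ˢ S).image pt, hRne.mono Finset.subset_union_left, ?_, ?_⟩
  · intro x hx
    rcases Finset.mem_union.1 hx with h | h
    · rw [(hmem x).1 h]
      have : σ ≠ 0 := by rintro rfl; simp at hσsq
      simp [this, hδ.ne']
    · obtain ⟨p, hp, rfl⟩ := Finset.mem_image.1 h
      intro h0
      have h1 := hδlt p hp
      rw [sub_eq_zero.1 h0, abs_mul, hσabs, one_mul, abs_of_pos hδ] at h1
      exact lt_irrefl _ h1
  · intro g hg
    have hg0 : g ≠ 0 := by
      rintro rfl
      obtain ⟨r, hr⟩ := hRne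
      have := hg r (Finset.mem_union_left _ hr)
      simp at this
    refine hσc.trans ?_
    have key : ∀ p ∈ (R ×ˢ S).filter (fun p => 0 < σ * f.eval (pt p)),
        ∃ z, g.eval z = 0 ∧ 0 < p.2 * (z - p.1) ∧ |z - p.1| ≤ η := by
      intro p hp
      obtain ⟨hp1, hp2⟩ := Finset.mem_filter.1 hp
      obtain ⟨h1, h2⟩ := Finset.mem_product.1 hp1
      have ha := hg p.1 (Finset.mem_union_left _ h1)
      have hb := hg (pt p) (Finset.mem_union_right _ (Finset.mem_image_of_mem _ hp1))
      rw [(hmem _).1 h1] at ha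
      have ha' : σ * g.eval p.1 < 0 := by nlinarith
      have hc : δ < σ * f.eval (pt p) := by
        have h5 := hδlt p hp1
        have h6 : |σ * f.eval (pt p)| = |f.eval (pt p)| := by rw [abs_mul, hσabs, one_mul]
        rw [← h6, abs_of_pos hp2] at h5
        exact h5
      have hb' : 0 < σ * g.eval (pt p) := by
        have h7 : g.eval (pt p) * (f.eval (pt p) - σ * δ)
            = (σ * g.eval (pt p)) * (σ * f.eval (pt p) - δ) := by
          have : f.eval (pt p) = σ * σ * f.eval (pt p) := by rw [hσsq, one_mul]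
          linear_combination (g.eval (pt p)) * this
        rw [h7] at hb
        exact (mul_pos_iff_of_pos_right (sub_pos.2 hc)).1 hb
      have hcont : ContinuousOn (fun u : ℝ => σ * g.eval (p.1 + p.2 * u)) (Set.Icc 0 η) := by
        apply Continuous.continuousOn
        exact continuous_const.mul (g.continuous.comp (by fun_prop))
      have hiv := intermediate_value_Ioo hη.le hcont
      have h0 : (0 : ℝ) ∈ Set.Ioo (σ * g.eval (p.1 + p.2 * 0)) (σ * g.eval (p.1 + p.2 * η)) := by
        constructor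
        · simpa using ha'
        · exact hb'
      obtain ⟨u, hu, hu0⟩ := hiv h0
      have hσ0 : σ ≠ 0 := by rintro rfl; simp at hσsq
      refine ⟨p.1 + p.2 * u, ?_, ?_, ?_⟩
      · simpa [hσ0] using hu0
      · rcases hSsq _ h2 with h | h <;> simp [h, hu.1]
      · rcases hSsq _ h2 with h | h <;> simp [h, abs_of_pos hu.1, hu.2.le]
    choose! z hz using key
    apply Finset.card_le_card_of_injOn z
    · intro p hp
      have := (hz p hp).1
      simp [hg0, this]
    · intro p hp p' hp' h
      obtain ⟨_, h2, h3⟩ := hz p hp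
      obtain ⟨_, h2', h3'⟩ := hz p' hp'
      have hp1 := Finset.mem_product.1 (Finset.mem_filter.1 hp).1
      have hp1' := Finset.mem_product.1 (Finset.mem_filter.1 hp').1
      have he : p.1 = p'.1 := by
        by_contra hne
        have h4 := hgap _ hp1.1 _ hp1'.1 hne
        have h5 : |p.1 - p'.1| ≤ |z p - p.1| + |z p' - p'.1| := by
          rw [h]
          have : p.1 - p'.1 = -(z p' - p.1) + (z p' - p'.1) := by ring
          rw [this]
          exact (abs_add_le _ _).trans (by rw [abs_neg])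
        linarith
      refine Prod.ext he ?_
      rw [h, he] at h2
      rcases hSsq _ hp1.2 with h6 | h6 <;> rcases hSsq _ hp1'.2 with h7 | h7 <;>
        rw [h6] at h2 ⊢ <;> rw [h7] at h2' ⊢ <;> linarith

/-! The reduction -/

theorem reduction (k m t a b : ℕ) (hm : m ≤ a * b) (ht : 1 ≤ t)
    (F : Fin k → Fin m → ℝ[X]) (hF : ∀ i j, (F i j).support.card ≤ t)
    (h0 : ∑ i, ∏ j, F i j ≠ 0) :
    ∃ (M : ℕ) (g : Fin M → ℝ[X]), M ≤ k * 2 ^ a * a + 1 ∧
      (∀ j, (g j).support.card ≤ (a * t ^ b + 1) ^ 2) ∧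
      (∏ j, g j) - 1 ≠ 0 ∧
      (∑ i, ∏ j, F i j).roots.toFinset.card ≤ ((∏ j, g j) - 1).roots.toFinset.card := by
  classical
  rcases Nat.eq_zero_or_pos a with rfl | hapos
  · have hm0 : m = 0 := by omega
    subst hm0
    refine ⟨1, fun _ => C 2, by simp, fun _ => (card_support_C_le 2).trans (by simp), ?_, ?_⟩
    · intro h
      have := congrArg (fun p => Polynomial.eval 0 p) h
      norm_num at this
    · have : (∑ i : Fin k, ∏ j : Fin 0, F i j) = C (k : ℝ) := by simp
      rw [this, Polynomial.roots_C]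
      simp
  obtain ⟨n, rfl⟩ : ∃ n, a = n + 1 := ⟨a - 1, by omega⟩
  set a := n + 1 with ha
  choose G hG hGp using fun i => blocking m a b t hm ht (F i) (hF i)
  set N : ℝ := ((Finset.univ.filter (fun φ : Fin a → Fin a => Function.Surjective φ)).card : ℝ)
    with hN
  have hN0 : N ≠ 0 := by
    have := surj_card_pos a
    rw [hN]; positivity
  set l : Fin k × Finset (Fin a) → ℝ[X] := fun u => ∑ q ∈ u.2ᶜ, G u.1 q with hl
  set c : Fin k × Finset (Fin a) → ℝ := fun u => (-1) ^ u.2.card / N with hc
  have hls : ∀ u, (l u).support.card ≤ a * t ^ b := by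
    intro u
    refine (card_support_sum_le _ _ (t ^ b) (fun q _ => hG u.1 q)).trans ?_
    apply Nat.mul_le_mul_right
    simpa using Finset.card_le_univ (u.2ᶜ)
  have hsum : ∀ x : ℝ, ∑ u, c u * ((l u).eval x) ^ a = (∑ i, ∏ j, F i j).eval x := by
    intro x
    rw [Fintype.sum_prod_type, Polynomial.eval_finsetSum]
    apply Finset.sum_congr rfl
    intro i _
    rw [← hGp i, Polynomial.eval_prod]
    have := polarization a (fun q => (G i q).eval x)
    rw [← hN] at this
    have h2 : ∑ T : Finset (Fin a), c (i, T) * ((l (i, T)).eval x) ^ a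
        = N⁻¹ * ∑ T : Finset (Fin a), (-1 : ℝ) ^ T.card * (∑ q ∈ Tᶜ, (G i q).eval x) ^ a := by
      rw [Finset.mul_sum]
      apply Finset.sum_congr rfl
      intro T _
      simp only [hc, hl, Polynomial.eval_finsetSum]
      ring
    rw [h2, this]
    field_simp
  obtain ⟨δ, A, hA, hAδ, hcount⟩ := sign_points _ h0
  set cc : ℝ → Option (Fin k × Finset (Fin a)) → ℝ :=
    fun x o => o.elim (-δ) (fun u => c u * ((l u).eval x) ^ a) with hcc
  have hccs : ∀ x, ∑ o, cc x o = (∑ i, ∏ j, F i j).eval x - δ := by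
    intro x
    rw [Fintype.sum_option]
    simp only [hcc, Option.elim]
    rw [hsum]; ring
  have hev : ∀ᶠ ε in 𝓝[>] (0 : ℝ), ∀ x ∈ A,
      0 < (∏ o, (1 + ε * cc x o) - 1) * ∑ o, cc x o := by
    rw [Finset.eventually_all]
    intro x hx
    exact eventually_sign _ _ (by rw [hccs]; exact hAδ x hx)
  obtain ⟨ε, hε⟩ := hev.exists
  set P : ℝ[X] := C (1 + ε * (-δ)) * ∏ u, ((1 + C (ε * c u) * X ^ a : ℝ[X]).comp (l u)) with hP
  have hPe : ∀ x, P.eval x = ∏ o, (1 + ε * cc x o) := by
    intro x
    rw [Fintype.prod_option]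
    simp only [hP, hcc, Option.elim, eval_mul, eval_C, Polynomial.eval_prod, eval_comp, eval_add,
      eval_one, eval_pow, eval_X, mul_assoc]
  have hPS : PS (1 + (Finset.univ : Finset (Fin k × Finset (Fin a))).card * a)
      ((a * t ^ b + 1) ^ 2) P := by
    apply PS.mul
    · exact PS.single ((card_support_C_le _).trans (Nat.one_le_pow _ _ (by omega)))
    · apply PS.prod
      intro u _
      apply PS_comp _ _ (hls u)
      refine (Polynomial.natDegree_add_le _ _).trans ?_
      refine max_le (by simp) ?_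
      exact (Polynomial.natDegree_C_mul_le _ _).trans (by simp [ha])
  obtain ⟨L, hL1, hL2, hL3⟩ := hPS
  have hprod : ∏ j : Fin L.length, L.get j = P := by
    rw [← hL3]
    simp
  have hsign : ∀ x ∈ A, 0 < (P - 1).eval x * ((∑ i, ∏ j, F i j).eval x - δ) := by
    intro x hx
    have := hε x hx
    rw [hccs, ← hPe] at this
    simpa using this
  refine ⟨L.length, L.get, ?_, fun j => hL2 _ (List.get_mem _ _), ?_, ?_⟩
  · simpa [add_comm] using hL1
  · rw [hprod]
    intro h
    obtain ⟨x, hx⟩ := hA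
    have := hsign x hx
    rw [h] at this
    simp at this
  · rw [hprod]
    exact hcount _ hsign

end Pool.Agent.Work.MP_97f157_lc
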