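import Mathlib
import Pool.Agent.Work.MP_97f157_lc.Reduce

set_option autoImplicit false

open Polynomial Finset

namespace Pool.Agent.Work.MP_97f157_lc

lemma PS.exists_fin {M T : ℕ} (hT : 1 ≤ T) {f : ℝ[X]} (h : PS M T f) :
    ∃ g : Fin M → ℝ[X], (∀ j, (g j).support.card ≤ T) ∧ ∏ j, g j = f := by
  obtain ⟨l, h1, h2, h3⟩ := h
  set l' := l ++ List.replicate (M - l.length) 1 with hl'
  have hlen : l'.length = M := by simp [hl']; omega
  refine ⟨fun j => l'.get (j.cast hlen.symm), ?_, ?_⟩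
  · intro j
    have hm : l'.get (j.cast hlen.symm) ∈ l' := List.get_mem _ _
    rcases List.mem_append.1 hm with h | h
    · exact h2 _ h
    · show (l'.get (j.cast hlen.symm)).support.card ≤ T
      rw [List.eq_of_mem_replicate h]
      simpa using (card_support_C_le 1).trans hT
  · have : ∏ j : Fin l'.length, l'.get j = f := by
      have h4 : ∏ j : Fin l'.length, l'.get j = l'.prod := by simp
      rw [h4, ← h3]; simp [hl']
    rw [← this]
    exact Fin.prod_congr' (fun j => l'.get j) hlen.symm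

lemma exists_interp (D a : ℕ) : ∃ lam : Fin (D + 1) → ℝ, ∀ i ≤ D,
    ∑ l, lam l * ((l : ℕ) : ℝ) ^ i = if i = a then 1 else 0 := by
  classical
  set V := Matrix.vandermonde (fun l : Fin (D + 1) => ((l : ℕ) : ℝ)) with hV
  have hdet : V.det ≠ 0 := by
    rw [hV, Matrix.det_vandermonde_ne_zero_iff]
    intro i j h
    have h' : ((i : ℕ) : ℝ) = (j : ℕ) := h
    exact Fin.ext (by exact_mod_cast h')
  have hU : IsUnit V.det := isUnit_iff_ne_zero.2 hdet
  set e : Fin (D + 1) → ℝ := fun i => if (i : ℕ) = a then 1 else 0 with he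
  refine ⟨Matrix.vecMul e V⁻¹, ?_⟩
  intro i hi
  have h1 : Matrix.vecMul (Matrix.vecMul e V⁻¹) V = e := by
    rw [Matrix.vecMul_vecMul, Matrix.nonsing_inv_mul _ hU, Matrix.vecMul_one]
  have h2 := congrFun h1 ⟨i, by omega⟩
  simpa [Matrix.vecMul, dotProduct, hV, Matrix.vandermonde, he] using h2

lemma coeff_eq_interp (D a : ℕ) (lam : Fin (D + 1) → ℝ)
    (hlam : ∀ i ≤ D, ∑ l, lam l * ((l : ℕ) : ℝ) ^ i = if i = a then 1 else 0)
    (V : ℝ[X][X]) (hV : V.natDegree ≤ D) :
    V.coeff a = ∑ l, C (lam l) * V.eval (C ((l : ℕ) : ℝ)) := by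
  have h1 : ∀ l : Fin (D + 1), V.eval (C ((l : ℕ) : ℝ)) =
      ∑ i ∈ Finset.range (D + 1), V.coeff i * C (((l : ℕ) : ℝ) ^ i) := by
    intro l
    rw [Polynomial.eval_eq_sum_range' (Nat.lt_succ_of_le hV)]
    simp
  simp_rw [h1, Finset.mul_sum]
  rw [Finset.sum_comm]
  have h2 : ∀ i ∈ Finset.range (D + 1), ∑ l, C (lam l) * (V.coeff i * C (((l : ℕ) : ℝ) ^ i))
      = if i = a then V.coeff i else 0 := by
    intro i hi
    have h3 := hlam i (Nat.lt_succ_iff.1 (Finset.mem_range.1 hi))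
    have h4 : ∑ l, C (lam l) * (V.coeff i * C (((l : ℕ) : ℝ) ^ i))
        = V.coeff i * C (∑ l, lam l * ((l : ℕ) : ℝ) ^ i) := by
      rw [map_sum, Finset.mul_sum]
      apply Finset.sum_congr rfl
      intro l _
      rw [C_mul]; ring
    rw [h4, h3]
    split_ifs <;> simp
  rw [Finset.sum_congr rfl h2, Finset.sum_ite_eq']
  split_ifs with h
  · rfl
  · apply Polynomial.coeff_eq_zero_of_natDegree_lt
    rw [Finset.mem_range] at h
    omega

lemma prod_one_add_mul_X {R ι : Type*} [CommRing R] (s : Finset ι) (y : ι → R) :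
    ∃ Q : R[X], ∏ e ∈ s, (1 + C (y e) * X) - 1 = X * (C (∑ e ∈ s, y e) + X * Q) := by
  classical
  induction s using Finset.induction_on with
  | empty => exact ⟨0, by simp⟩
  | insert a s ha ih =>
    obtain ⟨Q, hQ⟩ := ih
    refine ⟨Q + C (y a) * (C (∑ e ∈ s, y e) + X * Q), ?_⟩
    rw [Finset.prod_insert ha, Finset.sum_insert ha, C_add]
    linear_combination (1 + C (y a) * X) * hQ

/-- The auxiliary product of binomials in a new variable. -/
noncomputable def Ut (g : ℝ[X]) : ℝ[X][X] :=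
  ∏ e ∈ g.support, (1 + C (C (g.coeff e) * X ^ e) * X)

lemma Ut_natDegree (g : ℝ[X]) : (Ut g).natDegree ≤ g.support.card := by
  refine (Polynomial.natDegree_prod_le _ _).trans ?_
  have : ∀ e ∈ g.support, (1 + C (C (g.coeff e) * X ^ e) * X : ℝ[X][X]).natDegree ≤ 1 := by
    intro e _
    refine (Polynomial.natDegree_add_le _ _).trans (max_le (by simp) ?_)
    exact (Polynomial.natDegree_C_mul_le _ _).trans (by simp)
  simpa using Finset.sum_le_card_nsmul _ _ 1 this

lemma coeff_prod_Ut (a : ℕ) (G : Fin a → ℝ[X]) : (∏ q, (Ut (G q) - 1)).coeff a = ∏ q, G q := by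
  have h1 : ∀ q, ∃ Q : ℝ[X][X], Ut (G q) - 1 = X * (C (G q) + X * Q) := by
    intro q
    obtain ⟨Q, hQ⟩ := prod_one_add_mul_X (G q).support (fun e => C ((G q).coeff e) * X ^ e)
    refine ⟨Q, ?_⟩
    rw [Ut, hQ, ← Polynomial.as_sum_support_C_mul_X_pow]
  choose Q hQ using h1
  simp_rw [hQ]
  rw [Finset.prod_mul_distrib, Finset.prod_const, Finset.card_univ, Fintype.card_fin]
  have := Polynomial.coeff_X_pow_mul (∏ q, (C (G q) + X * Q q)) a 0
  rw [zero_add] at this
  rw [this, Polynomial.coeff_zero_eq_eval_zero, Polynomial.eval_prod]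
  simp

lemma PS_eval_Ut (g : ℝ[X]) (T : ℕ) (hg : g.support.card ≤ T) (z : ℝ) :
    PS T 2 ((Ut g).eval (C z)) := by
  rw [Ut, Polynomial.eval_prod]
  have := PS.prod g.support (fun e => (1 + C (C (g.coeff e) * X ^ e) * X : ℝ[X][X]).eval (C z))
    1 2 (by
      intro e _
      apply PS.single
      have h1 : (1 + C (C (g.coeff e) * X ^ e) * X : ℝ[X][X]).eval (C z)
          = C 1 + C (g.coeff e * z) * X ^ e := by
        simp only [eval_add, eval_one, eval_mul, eval_C, eval_X, C_mul, C_1]; ring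
      rw [h1]
      have h2 := card_support_add_le' (C 1) (C (g.coeff e * z) * X ^ e)
      have h3 := card_support_C_le 1
      have h4 : (C (g.coeff e * z) * X ^ e : ℝ[X]).support.card ≤ 1 :=
        Polynomial.card_support_C_mul_X_pow_le_one
      omega)
  exact this.mono (by omega)

theorem binomial_form (k m t a b : ℕ) (hm : m ≤ a * b) (ht : 1 ≤ t)
    (F : Fin k → Fin m → ℝ[X]) (hF : ∀ i j, (F i j).support.card ≤ t) :
    ∃ G : Fin (k * 2 ^ a * (a * t ^ b + 1)) → Fin (a * t ^ b + 1) → ℝ[X],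
      (∀ i j, (G i j).support.card ≤ 2) ∧ ∑ i, ∏ j, G i j = ∑ i, ∏ j, F i j := by
  classical
  choose G hG hGp using fun i => blocking m a b t hm ht (F i) (hF i)
  set D := a * t ^ b with hD
  obtain ⟨lam, hlam⟩ := exists_interp D a
  set H : Fin k × Finset (Fin a) × Fin (D + 1) → ℝ[X] := fun u =>
    C (lam u.2.2 * (-1) ^ (u.2.1ᶜ).card) * (∏ q ∈ u.2.1, Ut (G u.1 q)).eval (C ((u.2.2 : ℕ) : ℝ))
    with hH
  have hHPS : ∀ u, PS (D + 1) 2 (H u) := by
    intro u
    have h1 : PS 1 2 (C (lam u.2.2 * (-1) ^ (u.2.1ᶜ).card)) :=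
      PS.single ((card_support_C_le _).trans (by omega))
    have h2 := PS.prod u.2.1 (fun q => (Ut (G u.1 q)).eval (C ((u.2.2 : ℕ) : ℝ))) (t ^ b) 2
      (fun q _ => PS_eval_Ut _ _ (hG u.1 q) _)
    rw [← Polynomial.eval_prod] at h2
    refine (h1.mul h2).mono ?_
    have : u.2.1.card ≤ a := by simpa using Finset.card_le_univ u.2.1
    have := Nat.mul_le_mul_right (t ^ b) this
    omega
  have hsum : ∑ u, H u = ∑ i, ∏ j, F i j := by
    rw [Fintype.sum_prod_type]
    apply Finset.sum_congr rfl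
    intro i _
    rw [← hGp i, ← coeff_prod_Ut, Fintype.sum_prod_type]
    have h1 : ∏ q, (Ut (G i q) - 1) = ∑ S : Finset (Fin a),
        C (C ((-1 : ℝ) ^ (Sᶜ).card)) * ∏ q ∈ S, Ut (G i q) := by
      simp_rw [sub_eq_add_neg]
      rw [Finset.prod_add, Finset.powerset_univ]
      apply Finset.sum_congr rfl
      intro S _
      rw [Finset.prod_const, ← Finset.compl_eq_univ_sdiff, mul_comm]
      simp
    rw [h1, Polynomial.finsetSum_coeff]
    apply Finset.sum_congr rfl
    intro S _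
    have h2 : (∏ q ∈ S, Ut (G i q)).natDegree ≤ D := by
      refine (Polynomial.natDegree_prod_le _ _).trans ?_
      have h3 := Finset.sum_le_card_nsmul S (fun q => (Ut (G i q)).natDegree) (t ^ b)
        (fun q _ => (Ut_natDegree _).trans (hG i q))
      have h4 : S.card ≤ a := by simpa using Finset.card_le_univ S
      exact h3.trans (by simpa using Nat.mul_le_mul_right (t ^ b) h4)
    rw [Polynomial.coeff_C_mul, coeff_eq_interp D a lam hlam _ h2, Finset.mul_sum]
    apply Finset.sum_congr rfl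
    intro l _
    simp only [hH, C_mul]
    ring
  choose g hg hgp using fun u => (hHPS u).exists_fin (by omega)
  have hcard : Fintype.card (Fin k × Finset (Fin a) × Fin (D + 1)) = k * 2 ^ a * (D + 1) := by
    simp [mul_assoc]
  set e := Fintype.equivFinOfCardEq hcard with he
  refine ⟨fun i => g (e.symm i), fun i j => hg _ _, ?_⟩
  simp only [hgp]
  rw [Equiv.sum_comp e.symm H, hsum]

end Pool.Agent.Work.MP_97f157_lc
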