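import Mathlib

set_option autoImplicit false

open Polynomial Finset Filter Topology Complex
open scoped ComplexConjugate Real

namespace Pool.Agent.Work.MP_97f157_lc

/-- Number of positive real zeros of a function (zero if there are infinitely many). -/
noncomputable def zc (H : ℂ → ℂ) : ℕ := {x : ℝ | 0 < x ∧ H x = 0}.ncard

/-- Number of roots in the closed sector of half-angle `θ`, with multiplicity. -/
noncomputable def secC (θ : ℝ) (D : ℂ[X]) : ℕ :=
  Multiset.card (D.roots.filter (fun z => |arg z| ≤ θ))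

open Classical in
/-- Total variation of the argument of `x - τ` for `x` from `0` to infinity. -/
noncomputable def Ang (τ : ℂ) : ℝ := if τ.im = 0 ∧ 0 ≤ τ.re then 0 else arg (-τ)

lemma prod_polar (s : Multiset ℂ) :
    s.prod = ((s.map (fun z => ‖z‖)).prod : ℝ) * exp (((s.map arg).sum : ℝ) * I) := by
  induction s using Multiset.induction_on with
  | empty => simp
  | cons a s ih =>
    simp only [Multiset.prod_cons, Multiset.map_cons, Multiset.sum_cons]
    conv_lhs => rw [ih, ← norm_mul_exp_arg_mul_I a]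
    push_cast
    rw [add_mul, Complex.exp_add]
    ring

lemma exists_eq_of_tendsto (a : ℝ → ℝ) (hc : ContinuousOn a (Set.Ici 0)) (l : ℝ)
    (hl : Tendsto a atTop (𝓝 l)) (v : ℝ) (h1 : l < v) (h2 : v < a 0) :
    ∃ x, 0 < x ∧ a x = v := by
  have := (hl.eventually (gt_mem_nhds h1)).and (eventually_ge_atTop (0 : ℝ))
  obtain ⟨y, hy1, hy2⟩ := this.exists
  have hc' : ContinuousOn a (Set.Icc 0 y) := hc.mono (fun x hx => hx.1)
  obtain ⟨x, hx, hxv⟩ := intermediate_value_Ioo' hy2 hc' ⟨hy1, h2⟩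
  exact ⟨x, hx.1, hxv⟩

lemma finite_pos_zeros (p : ℂ[X]) (hp : p ≠ 0) :
    {x : ℝ | 0 < x ∧ p.eval (x : ℂ) = 0}.Finite := by
  have h1 : {z : ℂ | p.eval z = 0}.Finite := by
    have := Polynomial.finite_setOfPred_isRoot hp
    exact this
  have h2 := h1.preimage (f := fun x : ℝ => (x : ℂ)) (Complex.ofReal_injective.injOn)
  exact h2.subset (fun x hx => hx.2)

lemma eval_map_conj (p : ℂ[X]) (z : ℂ) :
    (p.map (starRingEnd ℂ)).eval (conj z) = conj (p.eval z) := by
  rw [Polynomial.eval_map, Polynomial.eval₂_at_apply]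

/-- The argument lemma. -/
lemma arg_lemma (s : Multiset ℂ) (κ : ℂ) (hκ : κ ≠ 0) :
    (s.map Ang).sum ≤
      π * (({x : ℝ | 0 < x ∧ (κ * (s.map (fun τ => (x : ℂ) - τ)).prod).re = 0}.ncard : ℝ) + 1) := by
  classical
  set P : ℂ → Prop := fun τ => τ.im = 0 ∧ 0 ≤ τ.re with hP
  set s0 := s.filter P with hs0
  set s1 := s.filter (fun τ => ¬ P τ) with hs1
  have hs : s = s0 + s1 := (Multiset.filter_add_not P s).symm
  set E := {x : ℝ | 0 < x ∧ (κ * (s.map (fun τ => (x : ℂ) - τ)).prod).re = 0} with hE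
  have hAng : (s.map Ang).sum = (s1.map (fun τ => arg (-τ))).sum := by
    rw [hs, Multiset.map_add, Multiset.sum_add]
    have h1 : (s0.map Ang).sum = 0 := by
      apply Multiset.sum_eq_zero
      intro x hx
      obtain ⟨τ, hτ, rfl⟩ := Multiset.mem_map.1 hx
      have := (Multiset.mem_filter.1 hτ).2
      simp only [Ang]
      rw [if_pos this]
    rw [h1, zero_add]
    congr 1
    apply Multiset.map_congr rfl
    intro τ hτ
    have := (Multiset.mem_filter.1 hτ).2
    simp only [Ang]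
    rw [if_neg this]
  set a : ℝ → ℝ := fun x => arg κ + (s1.map (fun τ => arg ((x : ℂ) - τ))).sum with ha
  have hslit : ∀ τ ∈ s1, ∀ x : ℝ, 0 ≤ x → (x : ℂ) - τ ∈ slitPlane := by
    intro τ hτ x hx
    have h := (Multiset.mem_filter.1 hτ).2
    simp only [hP, not_and, not_le] at h
    rw [Complex.mem_slitPlane_iff]
    by_cases him : τ.im = 0
    · left
      have := h him
      simp; linarith
    · right
      simpa using him
  have hcont : ContinuousOn a (Set.Ici 0) := by
    apply ContinuousOn.add continuousOn_const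
    apply continuousOn_multiset_sum
    intro τ hτ x hx
    apply ContinuousAt.continuousWithinAt
    have h1 : ContinuousAt (fun x : ℝ => (x : ℂ) - τ) x := by fun_prop
    exact ContinuousAt.comp (f := fun x : ℝ => (x : ℂ) - τ) (continuousAt_arg (hslit τ hτ x hx)) h1
  have hlim : Tendsto a atTop (𝓝 (arg κ)) := by
    have h1 : Tendsto (fun x : ℝ => (s1.map (fun τ => arg ((x : ℂ) - τ))).sum) atTop
        (𝓝 (s1.map (fun _ => (0 : ℝ))).sum) := by
      apply tendsto_multiset_sum
      intro τ _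
      have h2 : Tendsto (fun x : ℝ => (1 : ℂ) - τ * ((x⁻¹ : ℝ) : ℂ)) atTop (𝓝 (1 - τ * ((0 : ℝ) : ℂ))) := by
        apply Tendsto.sub tendsto_const_nhds
        apply Tendsto.const_mul
        exact (Complex.continuous_ofReal.tendsto 0).comp tendsto_inv_atTop_zero
      simp only [ofReal_zero, mul_zero, sub_zero] at h2
      have h3 := (continuousAt_arg Complex.one_mem_slitPlane).tendsto.comp h2
      rw [Complex.arg_one] at h3
      refine h3.congr' ?_
      filter_upwards [eventually_gt_atTop (0 : ℝ)] with x hx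
      have : (x : ℂ) - τ = (x : ℝ) * (1 - τ * ((x⁻¹ : ℝ) : ℂ)) := by
        have : (x : ℂ) ≠ 0 := by exact_mod_cast hx.ne'
        push_cast
        field_simp
      simp only [Function.comp]
      rw [this, Complex.arg_real_mul _ hx]
    simp only [Multiset.map_const', Multiset.sum_replicate, smul_zero] at h1
    simpa using h1.const_add (arg κ)
  have ha0 : a 0 = arg κ + (s.map Ang).sum := by
    rw [hAng]; simp [ha]
  set p : ℂ[X] := C κ * (s1.map (fun τ => X - C τ)).prod with hp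
  have hpe : ∀ z : ℂ, p.eval z = κ * (s1.map (fun τ => z - τ)).prod := by
    intro z; simp [hp, eval_multiset_prod]
  have hpolar : ∀ x : ℝ, 0 ≤ x → ∃ ρ : ℝ, 0 < ρ ∧ (p.eval (x : ℂ)).re = ρ * Real.cos (a x) := by
    intro x hx
    refine ⟨‖κ‖ * ((s1.map (fun τ => (x : ℂ) - τ)).map (fun z => ‖z‖)).prod, ?_, ?_⟩
    · apply mul_pos (norm_pos_iff.2 hκ)
      apply Multiset.prod_pos
      intro y hy
      obtain ⟨z, hz, rfl⟩ := Multiset.mem_map.1 hy
      obtain ⟨τ, hτ, rfl⟩ := Multiset.mem_map.1 hz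
      exact norm_pos_iff.2 (slitPlane_ne_zero (hslit τ hτ x hx))
    · rw [hpe, prod_polar]
      conv_lhs => rw [← norm_mul_exp_arg_mul_I κ]
      have : (‖κ‖ : ℂ) * exp (arg κ * I) *
          ((((s1.map (fun τ => (x : ℂ) - τ)).map (fun z => ‖z‖)).prod : ℝ) *
            exp (((((s1.map (fun τ => (x : ℂ) - τ)).map arg).sum : ℝ)) * I))
          = ((‖κ‖ * ((s1.map (fun τ => (x : ℂ) - τ)).map (fun z => ‖z‖)).prod : ℝ) : ℂ) *
            exp ((a x : ℝ) * I) := by
        simp only [ha, Multiset.map_map, Function.comp_def]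
        push_cast
        rw [add_mul, Complex.exp_add]
        ring
      rw [this, Complex.re_ofReal_mul, Complex.exp_ofReal_mul_I_re]
  set R : ℝ → ℝ := fun x => (s0.map (fun τ => x - τ.re)).prod with hR
  have hfac : ∀ x : ℝ, (κ * (s.map (fun τ => (x : ℂ) - τ)).prod).re = R x * (p.eval (x : ℂ)).re := by
    intro x
    have h1 : (s0.map (fun τ => (x : ℂ) - τ)).prod = (R x : ℝ) := by
      simp only [hR]
      have := map_multiset_prod Complex.ofRealHom (s0.map (fun τ => x - τ.re))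
      rw [Complex.ofRealHom_eq_coe] at this
      rw [this, Multiset.map_map]
      congr 1
      apply Multiset.map_congr rfl
      intro τ hτ
      have := (Multiset.mem_filter.1 hτ).2
      apply Complex.ext <;> simp [this.1]
    rw [hpe]
    conv_lhs => rw [hs, Multiset.map_add, Multiset.prod_add, h1]
    rw [mul_left_comm, Complex.re_ofReal_mul]
  set q : ℂ[X] := p + p.map (starRingEnd ℂ) with hq
  have hqe : ∀ x : ℝ, q.eval (x : ℂ) = ((2 * (p.eval (x : ℂ)).re : ℝ) : ℂ) := by
    intro x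
    have := eval_map_conj p x
    rw [Complex.conj_ofReal] at this
    rw [hq, eval_add, this, Complex.add_conj]
  by_contra hcon
  push Not at hcon
  have hpi := Real.pi_pos
  by_cases hq0 : q = 0
  · have hk : (0 : ℝ) ≤ E.ncard := by positivity
    set t : ℤ := ⌊arg κ / π⌋ + 1 with ht
    have h1 : arg κ < t * π := by
      have := Int.lt_floor_add_one (arg κ / π)
      rw [div_lt_iff₀ hpi] at this
      simpa [ht] using this
    have h2 : t * π ≤ arg κ + π := by
      have := Int.floor_le (arg κ / π)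
      rw [le_div_iff₀ hpi] at this
      simp only [ht]; push_cast; linarith
    obtain ⟨x, hx, hxv⟩ := exists_eq_of_tendsto a hcont _ hlim (t * π) h1 (by nlinarith)
    obtain ⟨ρ, hρ, hre⟩ := hpolar x hx.le
    have h3 := hqe x
    rw [hq0, eval_zero, hre, hxv, Real.cos_int_mul_pi] at h3
    have h4 : (2 * (ρ * (-1) ^ t) : ℝ) = 0 := by exact_mod_cast h3.symm
    have h5 : ((-1 : ℝ) ^ t) ≠ 0 := zpow_ne_zero _ (by norm_num)
    have : (2 * (ρ * (-1) ^ t) : ℝ) ≠ 0 := by positivity
    exact this h4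
  · have hfin : E.Finite := by
      have h1 := finite_pos_zeros q hq0
      have h2 : (↑(s0.map re).toFinset : Set ℝ).Finite := Finset.finite_toSet _
      refine (h1.union h2).subset ?_
      intro x hx
      have h3 := hx.2
      rw [hfac] at h3
      rcases mul_eq_zero.1 h3 with h | h
      · right
        simp only [hR, Multiset.prod_eq_zero_iff, Multiset.mem_map] at h
        obtain ⟨τ, hτ, h⟩ := h
        simp only [Finset.mem_coe, Multiset.mem_toFinset, Multiset.mem_map]
        exact ⟨τ, hτ, by linarith⟩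
      · left
        refine ⟨hx.1, ?_⟩
        rw [hqe, h]; simp
    set k := E.ncard with hk
    set t : ℤ := ⌊(arg κ - π / 2) / π⌋ + 1 with ht
    have h1 : arg κ < t * π + π / 2 := by
      have := Int.lt_floor_add_one ((arg κ - π / 2) / π)
      rw [div_lt_iff₀ hpi] at this
      simp only [ht]; push_cast; linarith
    have h2 : t * π + π / 2 ≤ arg κ + π := by
      have := Int.floor_le ((arg κ - π / 2) / π)
      rw [le_div_iff₀ hpi] at this
      simp only [ht]; push_cast; linarith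
    have h3 : ∀ i : Fin (k + 1), ∃ x, 0 < x ∧ a x = (t + (i : ℕ)) * π + π / 2 := by
      intro i
      have hi : ((i : ℕ) : ℝ) ≤ k := by exact_mod_cast Nat.lt_succ_iff.1 i.2
      have hi0 : (0 : ℝ) ≤ (i : ℕ) := by positivity
      apply exists_eq_of_tendsto a hcont _ hlim
      · nlinarith
      · nlinarith
    choose y hy hya using h3
    have hinj : Function.Injective y := by
      intro i j hij
      have h4 := hya i
      rw [hij, hya j] at h4
      have h5 : ((j : ℕ) : ℝ) = (i : ℕ) := by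
        have : ((j : ℕ) : ℝ) * π = (i : ℕ) * π := by linarith
        exact mul_right_cancel₀ hpi.ne' this
      exact Fin.ext (by exact_mod_cast h5.symm)
    have hmem : ∀ i, y i ∈ E := by
      intro i
      refine ⟨hy i, ?_⟩
      obtain ⟨ρ, hρ, hre⟩ := hpolar (y i) (hy i).le
      rw [hfac, hre, hya]
      have : Real.cos ((t + (i : ℕ)) * π + π / 2) = 0 := by
        rw [Real.cos_add_pi_div_two]
        have := Real.sin_int_mul_pi (t + (i : ℕ))
        push_cast at this
        rw [this, neg_zero]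
      rw [this]; simp
    have h6 : (Set.range y).ncard ≤ E.ncard :=
      Set.ncard_le_ncard (by rintro _ ⟨i, rfl⟩; exact hmem i) hfin
    rw [Set.ncard_range_of_injective hinj] at h6
    simp at h6
    omega

lemma Ang_of_mem {r v : ℝ} (hr : 0 < r) (h1 : -π < v) (h2 : v < π) {τ : ℂ}
    (hτ : -τ = r * exp (v * I)) : Ang τ = v := by
  have h3 : arg (-τ) = v := by
    rw [hτ, Complex.exp_mul_I]
    exact Complex.arg_mul_cos_add_sin_mul_I hr ⟨h1, h2.le⟩
  have h4 : ¬ (τ.im = 0 ∧ 0 ≤ τ.re) := by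
    rintro ⟨h5, h6⟩
    have hne : -τ ≠ 0 := by
      rw [hτ]
      exact mul_ne_zero (by exact_mod_cast hr.ne') (Complex.exp_ne_zero _)
    have h7 : τ.re ≠ 0 := by
      intro h
      apply hne
      apply Complex.ext <;> simp [h, h5]
    have : arg (-τ) = π := Complex.arg_eq_pi_iff.2
      ⟨by simp; exact lt_of_le_of_ne h6 h7.symm, by simp [h5]⟩
    linarith
  simp only [Ang]
  rw [if_neg h4, h3]

lemma Ang_pos {r v : ℝ} (hr : 0 < r) (h1 : 0 < v) (h2 : v < 2 * π) :
    Ang (r * exp (v * I)) = v - π := by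
  apply Ang_of_mem hr (by linarith) (by linarith)
  push_cast
  rw [sub_mul, Complex.exp_sub, Complex.exp_pi_mul_I]
  ring

lemma Ang_neg {r v : ℝ} (hr : 0 < r) (h1 : -(2 * π) < v) (h2 : v < 0) :
    Ang (r * exp (v * I)) = v + π := by
  apply Ang_of_mem hr (by linarith) (by linarith)
  push_cast
  rw [add_mul, Complex.exp_add, Complex.exp_pi_mul_I]
  ring

lemma Ang_real {r : ℝ} (hr : 0 ≤ r) : Ang (r : ℂ) = 0 := by
  simp [Ang, hr]

lemma Ang_zero {r v : ℝ} (hr : 0 < r) (h : v = 0 ∨ v = 2 * π ∨ v = -(2 * π)) :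
    Ang (r * exp (v * I)) = 0 := by
  have : exp (v * I) = 1 := by
    rcases h with rfl | rfl | rfl
    · simp
    · push_cast; exact Complex.exp_two_pi_mul_I
    · push_cast
      rw [neg_mul, Complex.exp_neg, Complex.exp_two_pi_mul_I, inv_one]
  rw [this, mul_one, Ang_real hr.le]

lemma Ang_cases {r : ℝ} (hr : 0 < r) (v : ℝ) (h1 : -(2 * π) ≤ v) (h2 : v ≤ 2 * π) :
    (0 < v ∧ v < 2 * π ∧ Ang (r * exp (v * I)) = v - π) ∨
    (-(2 * π) < v ∧ v < 0 ∧ Ang (r * exp (v * I)) = v + π) ∨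
    ((v = 0 ∨ v = 2 * π ∨ v = -(2 * π)) ∧ Ang (r * exp (v * I)) = 0) := by
  rcases lt_trichotomy v 0 with h | h | h
  · rcases h1.lt_or_eq with h3 | h3
    · exact Or.inr (Or.inl ⟨h3, h, Ang_neg hr h3 h⟩)
    · exact Or.inr (Or.inr ⟨Or.inr (Or.inr h3.symm), Ang_zero hr (Or.inr (Or.inr h3.symm))⟩)
  · exact Or.inr (Or.inr ⟨Or.inl h, Ang_zero hr (Or.inl h)⟩)
  · rcases h2.lt_or_eq with h3 | h3
    · exact Or.inl ⟨h, h3, Ang_pos hr h h3⟩
    · exact Or.inr (Or.inr ⟨Or.inr (Or.inl h3), Ang_zero hr (Or.inr (Or.inl h3))⟩)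

lemma polar_mul (ρ : ℂ) (φ : ℝ) :
    ρ * exp (φ * I) = (‖ρ‖ : ℝ) * exp ((arg ρ + φ : ℝ) * I) := by
  conv_lhs => rw [← norm_mul_exp_arg_mul_I ρ]
  push_cast
  rw [add_mul, Complex.exp_add]; ring

lemma polar_conj_mul (ρ : ℂ) (φ : ℝ) :
    conj ρ * exp (φ * I) = (‖ρ‖ : ℝ) * exp ((-arg ρ + φ : ℝ) * I) := by
  conv_lhs => rw [← norm_mul_exp_arg_mul_I ρ]
  rw [map_mul, Complex.conj_ofReal, ← Complex.exp_conj, map_mul, Complex.conj_ofReal,
    Complex.conj_I]
  push_cast
  rw [add_mul, Complex.exp_add]; ring_nf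

open Classical in
lemma Ang_pair_N (ρ : ℂ) {θ : ℝ} (h0 : 0 < θ) (hπ : θ ≤ π) :
    -2 * θ + (if ρ.im = 0 ∧ 0 < ρ.re then 2 * π else 0) ≤
      Ang (ρ * exp ((-θ : ℝ) * I)) + Ang (conj ρ * exp ((-θ : ℝ) * I)) := by
  have hpi := Real.pi_pos
  by_cases hρ : ρ = 0
  · subst hρ
    have : Ang 0 = 0 := by simpa using Ang_real (le_refl (0 : ℝ))
    simp [this]; linarith
  have hr : 0 < ‖ρ‖ := norm_pos_iff.2 hρ
  rw [polar_mul, polar_conj_mul]
  have hu1 := Complex.neg_pi_lt_arg ρ
  have hu2 := Complex.arg_le_pi ρ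
  have hind : (if ρ.im = 0 ∧ 0 < ρ.re then 2 * π else 0) = 0 ∨
      (arg ρ = 0 ∧ (if ρ.im = 0 ∧ 0 < ρ.re then 2 * π else 0) = 2 * π) := by
    by_cases h : ρ.im = 0 ∧ 0 < ρ.re
    · right; exact ⟨Complex.arg_eq_zero_iff.2 ⟨h.2.le, h.1⟩, if_pos h⟩
    · left; exact if_neg h
  have c1 := Ang_cases hr (arg ρ + -θ) (by linarith) (by linarith)
  have c2 := Ang_cases hr (-arg ρ + -θ) (by linarith) (by linarith)
  rcases hind with h | ⟨h', h⟩ <;> rw [h] <;>
    rcases c1 with ⟨a1, a2, a3⟩ | ⟨a1, a2, a3⟩ | ⟨a1 | a1 | a1, a3⟩ <;>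
    rcases c2 with ⟨b1, b2, b3⟩ | ⟨b1, b2, b3⟩ | ⟨b1 | b1 | b1, b3⟩ <;>
    rw [a3, b3] <;> linarith

lemma Ang_pair_D (ρ : ℂ) {θ : ℝ} (h0 : 0 < θ) (hπ : θ ≤ π) :
    2 * θ - (if |arg ρ| ≤ θ then 2 * π else 0) ≤
      Ang (ρ * exp (θ * I)) + Ang (conj ρ * exp (θ * I)) := by
  have hpi := Real.pi_pos
  by_cases hρ : ρ = 0
  · subst hρ
    have : Ang 0 = 0 := by simpa using Ang_real (le_refl (0 : ℝ))
    simp [this, h0.le]; linarith
  have hr : 0 < ‖ρ‖ := norm_pos_iff.2 hρ
  rw [polar_mul, polar_conj_mul]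
  have hu1 := Complex.neg_pi_lt_arg ρ
  have hu2 := Complex.arg_le_pi ρ
  have hind : ((θ < arg ρ ∨ arg ρ < -θ) ∧ (if |arg ρ| ≤ θ then 2 * π else 0) = 0) ∨
      ((-θ ≤ arg ρ ∧ arg ρ ≤ θ) ∧ (if |arg ρ| ≤ θ then 2 * π else 0) = 2 * π) := by
    by_cases h : |arg ρ| ≤ θ
    · right; exact ⟨abs_le.1 h, if_pos h⟩
    · left
      refine ⟨?_, if_neg h⟩
      rw [abs_le] at h
      by_contra hc
      push Not at hc
      exact h ⟨hc.2, hc.1⟩
  have c1 := Ang_cases hr (arg ρ + θ) (by linarith) (by linarith)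
  have c2 := Ang_cases hr (-arg ρ + θ) (by linarith) (by linarith)
  rcases hind with ⟨h' | h', h⟩ | ⟨⟨h', h''⟩, h⟩ <;> rw [h] <;>
    rcases c1 with ⟨a1, a2, a3⟩ | ⟨a1, a2, a3⟩ | ⟨a1 | a1 | a1, a3⟩ <;>
    rcases c2 with ⟨b1, b2, b3⟩ | ⟨b1, b2, b3⟩ | ⟨b1 | b1 | b1, b3⟩ <;>
    rw [a3, b3] <;> linarith

lemma sum_map_ite_const (s : Multiset ℂ) (p : ℂ → Prop) [DecidablePred p] (c : ℝ) :
    (s.map (fun x => if p x then c else 0)).sum = (Multiset.card (s.filter p) : ℝ) * c := by
  induction s using Multiset.induction_on with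
  | empty => simp
  | cons a s ih =>
    rw [Multiset.map_cons, Multiset.sum_cons, ih, Multiset.filter_cons]
    by_cases h : p a
    · simp [h]; ring
    · simp [h]

lemma roots_conj (N : ℂ[X]) (hN : N.map (starRingEnd ℂ) = N) :
    N.roots.map (starRingEnd ℂ) = N.roots := by
  rw [← (IsAlgClosed.splits N).roots_map, hN]

open Classical in
lemma zc_eval_le (N : ℂ[X]) :
    zc (fun z => N.eval z) ≤ Multiset.card (N.roots.filter (fun ρ => ρ.im = 0 ∧ 0 < ρ.re)) := by
  by_cases hN : N = 0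
  · subst hN
    have : {x : ℝ | 0 < x ∧ (0 : ℂ[X]).eval (x : ℂ) = 0}.Infinite := by
      refine (Set.Ioi_infinite (0 : ℝ)).mono ?_
      intro x hx
      exact ⟨hx, by simp⟩
    simp only [zc]
    rw [this.ncard]
    exact Nat.zero_le _
  refine le_trans ?_ (Multiset.toFinset_card_le _)
  simp only [zc]
  rw [← Set.ncard_coe_finset]
  apply Set.ncard_le_ncard_of_injOn (fun x : ℝ => (x : ℂ)) _ Complex.ofReal_injective.injOn
    (Finset.finite_toSet _)
  intro x hx
  simp only [Finset.mem_coe, Multiset.mem_toFinset, Multiset.mem_filter, Polynomial.mem_roots hN]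
  exact ⟨hx.2, by simp, by simpa using hx.1⟩

lemma prod_map_mul_const (s : Multiset ℂ) (w : ℂ) (f : ℂ → ℂ) :
    (s.map (fun ρ => w * f ρ)).prod = w ^ Multiset.card s * (s.map f).prod := by
  rw [Multiset.prod_map_mul]; simp

/-- The sector lemma (argument principle in the sector of half-angle `θ`). -/
theorem sector (N D : ℂ[X]) (hN : N.map (starRingEnd ℂ) = N) (hD : D.map (starRingEnd ℂ) = D)
    (hD0 : D ≠ 0) (hdeg : N.natDegree ≤ D.natDegree) {θ : ℝ} (h0 : 0 < θ) (hπ : θ ≤ π)
    (c : ℂ) (hc : c ≠ 0) :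
    zc (fun z => N.eval z) ≤ secC θ D +
      zc (fun z => c * N.eval (exp (θ * I) * z) * D.eval (exp ((-θ : ℝ) * I) * z) +
        conj c * N.eval (exp ((-θ : ℝ) * I) * z) * D.eval (exp (θ * I) * z)) + 1 := by
  classical
  by_cases hN0 : N = 0
  · have := zc_eval_le N
    subst hN0
    simp at this
    simp [this]
  set w : ℂ := exp (θ * I) with hw
  set w' : ℂ := exp ((-θ : ℝ) * I) with hw'
  have hww : w * w' = 1 := by
    rw [hw, hw', ← Complex.exp_add]; push_cast; simp
  have hw0 : w ≠ 0 := Complex.exp_ne_zero _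
  have hw0' : w' ≠ 0 := Complex.exp_ne_zero _
  have hcw : conj w = w' := by
    rw [hw, hw', ← Complex.exp_conj, map_mul, Complex.conj_ofReal, Complex.conj_I]
    push_cast; ring_nf
  have hcw' : conj w' = w := by rw [← hcw]; simp
  set s : Multiset ℂ := N.roots.map (fun ρ => ρ * w') + D.roots.map (fun ρ => ρ * w) with hs
  set κ : ℂ := c * (N.leadingCoeff * w ^ Multiset.card N.roots) *
    (D.leadingCoeff * w' ^ Multiset.card D.roots) with hκ
  have hκ0 : κ ≠ 0 := by
    have h1 := Polynomial.leadingCoeff_ne_zero.2 hN0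
    have h2 := Polynomial.leadingCoeff_ne_zero.2 hD0
    simp [hκ, hc, h1, h2, hw0, hw0']
  have hΦ : ∀ z : ℂ, c * N.eval (w * z) * D.eval (w' * z) = κ * (s.map (fun τ => z - τ)).prod := by
    intro z
    rw [(IsAlgClosed.splits N).eval_eq_prod_roots, (IsAlgClosed.splits D).eval_eq_prod_roots]
    have h1 : N.roots.map (fun ρ => w * z - ρ) = N.roots.map (fun ρ => w * (z - ρ * w')) := by
      apply Multiset.map_congr rfl
      intro ρ _
      linear_combination ρ * hww
    have h2 : D.roots.map (fun ρ => w' * z - ρ) = D.roots.map (fun ρ => w' * (z - ρ * w)) := by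
      apply Multiset.map_congr rfl
      intro ρ _
      linear_combination ρ * hww
    rw [h1, h2, prod_map_mul_const, prod_map_mul_const, hs, Multiset.map_add, Multiset.prod_add,
      Multiset.map_map, Multiset.map_map, hκ]
    simp only [Function.comp_def]
    ring
  have hset : {x : ℝ | 0 < x ∧ (κ * (s.map (fun τ => (x : ℂ) - τ)).prod).re = 0}
      = {x : ℝ | 0 < x ∧ c * N.eval (w * x) * D.eval (w' * x) +
        conj c * N.eval (w' * x) * D.eval (w * x) = 0} := by
    ext x
    simp only [Set.mem_ofPred_eq]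
    have h1 : conj c * N.eval (w' * x) * D.eval (w * x)
        = conj (c * N.eval (w * x) * D.eval (w' * x)) := by
      rw [map_mul, map_mul, ← eval_map_conj, ← eval_map_conj, hN, hD, map_mul, map_mul, hcw, hcw',
        Complex.conj_ofReal]
    rw [h1, Complex.add_conj, ← hΦ]
    constructor
    · rintro ⟨h2, h3⟩
      exact ⟨h2, by rw [h3]; simp⟩
    · rintro ⟨h2, h3⟩
      refine ⟨h2, ?_⟩
      have h4 : (2 * (c * N.eval (w * x) * D.eval (w' * x)).re : ℝ) = 0 := by exact_mod_cast h3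
      linarith
  have harg := arg_lemma s κ hκ0
  rw [hset] at harg
  have hsum : (s.map Ang).sum = (N.roots.map (fun ρ => Ang (ρ * w'))).sum +
      (D.roots.map (fun ρ => Ang (ρ * w))).sum := by
    rw [hs, Multiset.map_add, Multiset.sum_add, Multiset.map_map, Multiset.map_map]
    rfl
  have hNs : (N.roots.map (fun ρ => Ang (conj ρ * w'))).sum
      = (N.roots.map (fun ρ => Ang (ρ * w'))).sum := by
    conv_rhs => rw [← roots_conj N hN, Multiset.map_map]
    rfl
  have hDs : (D.roots.map (fun ρ => Ang (conj ρ * w))).sum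
      = (D.roots.map (fun ρ => Ang (ρ * w))).sum := by
    conv_rhs => rw [← roots_conj D hD, Multiset.map_map]
    rfl
  have hNb := Multiset.sum_map_le_sum_map (s := N.roots) _ _
    (fun ρ _ => Ang_pair_N ρ h0 hπ)
  have hDb := Multiset.sum_map_le_sum_map (s := D.roots) _ _
    (fun ρ _ => Ang_pair_D ρ h0 hπ)
  rw [Multiset.sum_map_add, Multiset.sum_map_add, sum_map_ite_const, hNs] at hNb
  rw [Multiset.sum_map_sub, Multiset.sum_map_add, sum_map_ite_const, hDs] at hDb
  simp only [Multiset.map_const', Multiset.sum_replicate, nsmul_eq_mul,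
    IsAlgClosed.card_roots_eq_natDegree] at hNb hDb
  have hz := zc_eval_le N
  have hz' : (zc (fun z => N.eval z) : ℝ) ≤
      (Multiset.card (N.roots.filter (fun ρ => ρ.im = 0 ∧ 0 < ρ.re)) : ℝ) := by exact_mod_cast hz
  have hdeg' : (N.natDegree : ℝ) ≤ D.natDegree := by exact_mod_cast hdeg
  have hpi := Real.pi_pos
  have key : π * (zc (fun z => N.eval z) : ℝ) ≤ π * ((secC θ D : ℝ) +
      (zc (fun z => c * N.eval (w * z) * D.eval (w' * z) +
        conj c * N.eval (w' * z) * D.eval (w * z)) : ℝ) + 1) := by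
    simp only [secC, zc] at hz' ⊢
    nlinarith
  have := le_of_mul_le_mul_left key hpi
  exact_mod_cast this

end Pool.Agent.Work.MP_97f157_lc
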