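import Mathlib
import Pool.Agent.Work.MP_97f157_lc.Sector

set_option autoImplicit false

open Polynomial Finset Filter Topology Complex
open scoped ComplexConjugate Real

namespace Pool.Agent.Work.MP_97f157_lc

/-- Symmetry under complex conjugation. -/
def Sym (H : ℂ → ℂ) : Prop := ∀ z, H (conj z) = conj (H z)

/-- `H` is a rational function, bounded at infinity, with at most `p` poles in the sector. -/
def Rep (θ : ℝ) (p : ℕ) (H : ℂ → ℂ) : Prop :=
  ∃ N D : ℂ[X], D ≠ 0 ∧ N.natDegree ≤ D.natDegree ∧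
    (∀ z, D.eval z ≠ 0 → H z * D.eval z = N.eval z) ∧ secC θ D ≤ p

/-- The set of positive zeros. -/
def zs (H : ℂ → ℂ) : Set ℝ := {x : ℝ | 0 < x ∧ H x = 0}

lemma zc_eq (H : ℂ → ℂ) : zc H = (zs H).ncard := rfl

lemma zc_le_add (f g h : ℂ → ℂ) (hg : (zs g).Finite) (hh : (zs h).Finite)
    (hsub : ∀ x : ℝ, 0 < x → f x = 0 → g x = 0 ∨ h x = 0) : zc f ≤ zc g + zc h := by
  rw [zc_eq, zc_eq, zc_eq]
  refine le_trans (Set.ncard_le_ncard ?_ (hg.union hh)) (Set.ncard_union_le _ _)
  intro x hx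
  rcases hsub x hx.1 hx.2 with h1 | h1
  · exact Or.inl ⟨hx.1, h1⟩
  · exact Or.inr ⟨hx.1, h1⟩

lemma zc_eq_zero_of_cofinite (f g : ℂ → ℂ) (hg : (zs g).Finite)
    (h : ∀ x : ℝ, 0 < x → g x ≠ 0 → f x = 0) : zc f = 0 := by
  rw [zc_eq]
  apply Set.Infinite.ncard
  refine ((Set.Ioi_infinite (0 : ℝ)).sdiff hg).mono ?_
  intro x hx
  refine ⟨hx.1, h x hx.1 ?_⟩
  intro h0
  exact hx.2 ⟨hx.1, h0⟩

lemma secC_mul (θ : ℝ) {D E : ℂ[X]} (hD : D ≠ 0) (hE : E ≠ 0) :
    secC θ (D * E) = secC θ D + secC θ E := by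
  simp only [secC]
  rw [Polynomial.roots_mul (mul_ne_zero hD hE), Multiset.filter_add, Multiset.card_add]

lemma abs_arg_conj (z : ℂ) : |arg (conj z)| = |arg z| := by
  rw [Complex.arg_conj]
  split_ifs with h
  · rw [h]
  · rw [abs_neg]

lemma secC_conj (θ : ℝ) (D : ℂ[X]) : secC θ (D.map (starRingEnd ℂ)) = secC θ D := by
  simp only [secC]
  rw [(IsAlgClosed.splits D).roots_map, Multiset.filter_map, Multiset.card_map]
  congr 1
  apply Multiset.filter_congr
  intro z _
  simp [abs_arg_conj]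

lemma finite_zs_rot (D : ℂ[X]) (hD : D ≠ 0) (w : ℂ) (hw : w ≠ 0) :
    (zs (fun z => D.eval (w * z))).Finite := by
  have h1 : {z : ℂ | D.eval z = 0}.Finite := Polynomial.finite_setOfPred_isRoot hD
  have hinj : Function.Injective (fun x : ℝ => w * (x : ℂ)) := by
    intro x y h
    exact Complex.ofReal_injective (mul_left_cancel₀ hw h)
  exact (h1.preimage hinj.injOn).subset (fun x hx => hx.2)

lemma zc_rot_le (θ : ℝ) (D : ℂ[X]) (hD : D ≠ 0) (w : ℂ) (hw : w ≠ 0) (harg : |arg w| ≤ θ) :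
    zc (fun z => D.eval (w * z)) ≤ secC θ D := by
  classical
  refine le_trans ?_ (Multiset.toFinset_card_le _)
  simp only [zc]
  rw [← Set.ncard_coe_finset]
  have hinj : Function.Injective (fun x : ℝ => w * (x : ℂ)) := by
    intro x y h
    exact Complex.ofReal_injective (mul_left_cancel₀ hw h)
  apply Set.ncard_le_ncard_of_injOn (fun x : ℝ => w * (x : ℂ)) _ hinj.injOn (Finset.finite_toSet _)
  intro x hx
  simp only [Finset.mem_coe, Multiset.mem_toFinset, Multiset.mem_filter, Polynomial.mem_roots hD]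
  exact ⟨hx.2, by rw [Complex.arg_mul_real hx.1]; exact harg⟩

lemma Rep.symm {θ : ℝ} {p : ℕ} {H : ℂ → ℂ} (hS : Sym H) (h : Rep θ p H) :
    ∃ N D : ℂ[X], N.map (starRingEnd ℂ) = N ∧ D.map (starRingEnd ℂ) = D ∧ D ≠ 0 ∧
      N.natDegree ≤ D.natDegree ∧ (∀ z, D.eval z ≠ 0 → H z * D.eval z = N.eval z) ∧
      secC θ D ≤ 2 * p := by
  obtain ⟨N, D, hD, hdeg, hrep, hp⟩ := h
  set D' := D.map (starRingEnd ℂ) with hD'
  have hD'0 : D' ≠ 0 := Polynomial.map_ne_zero hD
  have hsym : (D * D').map (starRingEnd ℂ) = D * D' := by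
    rw [Polynomial.map_mul, hD', Polynomial.map_map, mul_comm]
    congr 1
    have : (starRingEnd ℂ).comp (starRingEnd ℂ) = RingHom.id ℂ := by
      ext z; simp
    rw [this, Polynomial.map_id]
  have hrep' : ∀ z, (D * D').eval z ≠ 0 → H z * (D * D').eval z = (N * D').eval z := by
    intro z hz
    rw [eval_mul] at hz
    rw [eval_mul, eval_mul, ← mul_assoc, hrep z (left_ne_zero_of_mul hz)]
  refine ⟨N * D', D * D', ?_, hsym, mul_ne_zero hD hD'0, ?_, hrep', ?_⟩
  · apply Polynomial.eq_of_infinite_eval_eq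
    have h1 : {z : ℂ | (D * D').eval z = 0}.Finite :=
      Polynomial.finite_setOfPred_isRoot (mul_ne_zero hD hD'0)
    refine h1.infinite_compl.mono ?_
    intro z hz
    have hz' : (D * D').eval z ≠ 0 := hz
    have h2 := eval_map_conj (N * D') (conj z)
    have h3 := eval_map_conj (D * D') z
    rw [hsym] at h3
    have h4 : (D * D').eval (conj z) ≠ 0 := by
      rw [h3]; simpa using hz'
    rw [Complex.conj_conj, ← hrep' _ h4, hS z, h3] at h2
    simp only [Set.mem_ofPred_eq]
    rw [h2, ← hrep' z hz']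
    simp
  · rw [Polynomial.natDegree_mul hD hD'0]
    exact Polynomial.natDegree_mul_le.trans (by omega)
  · rw [secC_mul θ hD hD'0, hD', secC_conj]; omega

/-- The two-term rotation operator. -/
noncomputable def Bf (c : ℂ) (θ : ℝ) (H : ℂ → ℂ) : ℂ → ℂ :=
  fun z => c * H (exp (θ * I) * z) + conj c * H (exp ((-θ : ℝ) * I) * z)

lemma conj_exp (θ : ℝ) : conj (exp (θ * I)) = exp ((-θ : ℝ) * I) := by
  rw [← Complex.exp_conj, map_mul, Complex.conj_ofReal, Complex.conj_I]
  push_cast; ring_nf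

lemma Sym.Bf {H : ℂ → ℂ} (hS : Sym H) (c : ℂ) (θ : ℝ) : Sym (Bf c θ H) := by
  intro z
  simp only [Pool.Agent.Work.MP_97f157_lc.Bf, map_add, map_mul, Complex.conj_conj]
  rw [← hS, ← hS, map_mul, map_mul, conj_exp θ, ← conj_exp θ, Complex.conj_conj, add_comm]

theorem step {θ : ℝ} {p : ℕ} {H : ℂ → ℂ} (hS : Sym H) (h : Rep θ p H) (h0 : 0 < θ) (hπ : θ ≤ π)
    (c : ℂ) (hc : c ≠ 0) : zc H ≤ zc (Bf c θ H) + (8 * p + 1) := by
  obtain ⟨N, D, hN, hD, hD0, hdeg, hrep, hp⟩ := h.symm hS
  set w : ℂ := exp (θ * I) with hw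
  set w' : ℂ := exp ((-θ : ℝ) * I) with hw'
  have hw0 : w ≠ 0 := Complex.exp_ne_zero _
  have hw0' : w' ≠ 0 := Complex.exp_ne_zero _
  have hargw : |arg w| ≤ θ := by
    have : arg w = θ := by
      rw [hw, Complex.exp_mul_I]
      exact Complex.arg_cos_add_sin_mul_I ⟨by linarith [Real.pi_pos], hπ⟩
    rw [this, abs_of_pos h0]
  have hargw' : |arg w'| ≤ θ := by
    rw [hw', ← conj_exp, abs_arg_conj]; exact hargw
  have hfD : (zs (fun z => D.eval z)).Finite := finite_pos_zeros D hD0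
  have hzD : zc (fun z => D.eval z) ≤ 2 * p := by
    have := zc_rot_le θ D hD0 1 one_ne_zero (by simpa using h0.le)
    simp only [one_mul] at this
    exact this.trans hp
  have h1 : zc H ≤ zc (fun z => N.eval z) + 2 * p := by
    by_cases hN0 : N = 0
    · rw [zc_eq_zero_of_cofinite H _ hfD]
      · exact Nat.zero_le _
      · intro x _ hx
        have := hrep x hx
        rw [hN0, eval_zero] at this
        exact (mul_eq_zero.1 this).resolve_right hx
    · refine (zc_le_add H (fun z => N.eval z) (fun z => D.eval z) (finite_pos_zeros N hN0) hfD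
        ?_).trans (by omega)
      intro x _ hx
      by_cases hx' : D.eval (x : ℂ) = 0
      · exact Or.inr hx'
      · left
        show N.eval (x : ℂ) = 0
        rw [← hrep x hx', hx, zero_mul]
  have h2 := sector N D hN hD hD0 hdeg h0 hπ c hc
  rw [← hw, ← hw'] at h2
  set Np : ℂ[X] := C c * N.comp (C w * X) * D.comp (C w' * X) +
    C (conj c) * N.comp (C w' * X) * D.comp (C w * X) with hNp
  have hNpe : ∀ z, Np.eval z = c * N.eval (w * z) * D.eval (w' * z) +
      conj c * N.eval (w' * z) * D.eval (w * z) := by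
    intro z; simp [hNp, eval_comp]
  have hfun : (fun z => c * N.eval (w * z) * D.eval (w' * z) +
      conj c * N.eval (w' * z) * D.eval (w * z)) = fun z => Np.eval z := by
    ext z; rw [hNpe]
  rw [hfun] at h2
  have hrel : ∀ z, D.eval (w * z) * D.eval (w' * z) ≠ 0 →
      Bf c θ H z * (D.eval (w * z) * D.eval (w' * z)) = Np.eval z := by
    intro z hz
    rw [hNpe, ← hrep _ (left_ne_zero_of_mul hz), ← hrep _ (right_ne_zero_of_mul hz)]
    simp only [Bf]
    rw [← hw, ← hw']
    ring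
  have hf1 := finite_zs_rot D hD0 w hw0
  have hf2 := finite_zs_rot D hD0 w' hw0'
  have hf3 : (zs (fun z => D.eval (w * z) * D.eval (w' * z))).Finite := by
    refine (hf1.union hf2).subset ?_
    intro x hx
    rcases mul_eq_zero.1 hx.2 with h | h
    · exact Or.inl ⟨hx.1, h⟩
    · exact Or.inr ⟨hx.1, h⟩
  have hz3 : zc (fun z => D.eval (w * z) * D.eval (w' * z)) ≤ 4 * p := by
    have := zc_le_add (fun z => D.eval (w * z) * D.eval (w' * z)) _ _ hf1 hf2
      (fun x _ hx => mul_eq_zero.1 hx)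
    have h5 := zc_rot_le θ D hD0 w hw0 hargw
    have h6 := zc_rot_le θ D hD0 w' hw0' hargw'
    omega
  have h3 : zc (fun z => Np.eval z) ≤ zc (Bf c θ H) + 4 * p := by
    by_cases hNp0 : Np = 0
    · have := zc_eval_le Np
      rw [hNp0] at this ⊢
      simp only [roots_zero, Multiset.filter_zero, Multiset.card_zero] at this
      omega
    · have hf4 : (zs (Bf c θ H)).Finite := by
        refine ((finite_pos_zeros Np hNp0).union hf3).subset ?_
        intro x hx
        by_cases hx' : D.eval (w * x) * D.eval (w' * x) = 0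
        · exact Or.inr ⟨hx.1, hx'⟩
        · left
          refine ⟨hx.1, ?_⟩
          rw [← hrel _ hx', hx.2, zero_mul]
      refine (zc_le_add _ _ _ hf4 hf3 ?_).trans (by omega)
      intro x _ hx
      by_cases hx' : D.eval (w * x) * D.eval (w' * x) = 0
      · exact Or.inr hx'
      · left
        have := hrel _ hx'
        rw [hx] at this
        exact (mul_eq_zero.1 this).resolve_right hx'
  omega

lemma Rep.mono {θ : ℝ} {p p' : ℕ} {H : ℂ → ℂ} (h : Rep θ p H) (hp : p ≤ p') : Rep θ p' H := by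
  obtain ⟨N, D, h1, h2, h3, h4⟩ := h
  exact ⟨N, D, h1, h2, h3, h4.trans hp⟩

lemma Rep.zero (θ : ℝ) : Rep θ 0 0 :=
  ⟨0, 1, one_ne_zero, by simp, by simp, by simp [secC]⟩

lemma Rep.add {θ : ℝ} {p q : ℕ} {H K : ℂ → ℂ} (h : Rep θ p H) (h' : Rep θ q K) :
    Rep θ (p + q) (H + K) := by
  obtain ⟨N, D, h1, h2, h3, h4⟩ := h
  obtain ⟨N', D', h1', h2', h3', h4'⟩ := h'
  refine ⟨N * D' + N' * D, D * D', mul_ne_zero h1 h1', ?_, ?_, ?_⟩
  · rw [Polynomial.natDegree_mul h1 h1']
    refine (Polynomial.natDegree_add_le _ _).trans (max_le ?_ ?_)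
    · exact Polynomial.natDegree_mul_le.trans (by omega)
    · exact Polynomial.natDegree_mul_le.trans (by omega)
  · intro z hz
    rw [eval_mul] at hz
    simp only [Pi.add_apply, eval_add, eval_mul]
    rw [← h3 z (left_ne_zero_of_mul hz), ← h3' z (right_ne_zero_of_mul hz)]
    ring
  · rw [secC_mul θ h1 h1']; omega

lemma Rep.smul {θ : ℝ} {p : ℕ} {H : ℂ → ℂ} (h : Rep θ p H) (a : ℂ) : Rep θ p (a • H) := by
  obtain ⟨N, D, h1, h2, h3, h4⟩ := h
  refine ⟨C a * N, D, h1, (Polynomial.natDegree_C_mul_le _ _).trans h2, ?_, h4⟩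
  intro z hz
  simp only [Pi.smul_apply, smul_eq_mul, eval_mul, eval_C]
  rw [← h3 z hz]; ring

lemma Rep.sum {ι : Type*} {θ : ℝ} {p : ℕ} (s : Finset ι) (H : ι → ℂ → ℂ)
    (h : ∀ i ∈ s, Rep θ p (H i)) : Rep θ (s.card * p) (∑ i ∈ s, H i) := by
  classical
  induction s using Finset.induction_on with
  | empty => simpa using Rep.zero θ
  | insert a s ha ih =>
    rw [Finset.sum_insert ha, Finset.card_insert_of_notMem ha]
    have := (h a (Finset.mem_insert_self _ _)).add
      (ih (fun i hi => h i (Finset.mem_insert_of_mem hi)))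
    refine this.mono ?_
    rw [add_mul]; omega

/-- A binomial `a z^n - η` has at most two roots in a sector of half-angle at most `π / n`. -/
lemma secC_binomial {θ : ℝ} {n : ℕ} (hn : 0 < n) (hθ : θ ≤ π / n) (a η : ℂ) (ha : a ≠ 0)
    (hη : η ≠ 0) : secC θ (C a * X ^ n - C η) ≤ 2 := by
  classical
  have h1 : (C a * X ^ n - C η : ℂ[X]) = C a * (X ^ n - C (η / a)) := by
    rw [mul_sub, ← C_mul]
    congr 2
    field_simp
  set b := η / a with hb
  have hb0 : b ≠ 0 := div_ne_zero hη ha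
  simp only [secC]
  rw [h1, Polynomial.roots_C_mul _ ha]
  have hnd : (X ^ n - C b : ℂ[X]).roots.Nodup :=
    Polynomial.nodup_roots (Polynomial.separable_X_pow_sub_C b (by exact_mod_cast hn.ne') hb0)
  have hnd' := hnd.filter (fun z => |arg z| ≤ θ)
  rw [← Multiset.toFinset_card_of_nodup hnd']
  set r : ℝ := ‖b‖ ^ ((n : ℝ)⁻¹) with hr
  have hsub : (((X ^ n - C b : ℂ[X]).roots.filter (fun z => |arg z| ≤ θ)).toFinset) ⊆
      {(r : ℂ) * exp (((arg b / n : ℝ) : ℂ) * I), (r : ℂ) * exp ((((arg b - 2 * π) / n : ℝ) : ℂ) * I)} := by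
    intro z hz
    simp only [Multiset.mem_toFinset, Multiset.mem_filter] at hz
    obtain ⟨hz1, hz2⟩ := hz
    have hz3 : z ^ n = b := by
      have := (Polynomial.mem_roots (Polynomial.X_pow_sub_C_ne_zero hn b)).1 hz1
      simpa [sub_eq_zero] using this
    have hnR : (0 : ℝ) < n := by exact_mod_cast hn
    have hnorm : ‖z‖ = r := by
      rw [hr, ← hz3, norm_pow, Real.pow_rpow_inv_natCast (norm_nonneg _) hn.ne']
    have hz0 : z ≠ 0 := by
      rintro rfl
      rw [zero_pow hn.ne'] at hz3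
      exact hb0 hz3.symm
    have hang : ((n • arg z : ℝ) : Real.Angle) = (arg b : Real.Angle) := by
      rw [← hz3, Complex.arg_pow_coe_angle, Real.Angle.coe_nsmul]
    obtain ⟨k, hk⟩ := Real.Angle.angle_eq_iff_two_pi_dvd_sub.1 hang
    rw [nsmul_eq_mul] at hk
    have hb1 := Complex.neg_pi_lt_arg b
    have hb2 := Complex.arg_le_pi b
    have hpi := Real.pi_pos
    have hz4 : |n * arg z| ≤ π := by
      rw [abs_mul, abs_of_pos hnR]
      have := hz2.trans hθ
      rw [le_div_iff₀ hnR] at this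
      linarith
    rw [abs_le] at hz4
    have hk1 : (k : ℝ) < 1 := by nlinarith
    have hk2 : (-1 : ℝ) ≤ k := by nlinarith
    have hk1' : k < 1 := by exact_mod_cast hk1
    have hk2' : -1 ≤ k := by exact_mod_cast hk2
    have hpol := norm_mul_exp_arg_mul_I z
    rw [hnorm] at hpol
    simp only [Finset.mem_insert, Finset.mem_singleton]
    have hk3 : k = 0 ∨ k = -1 := by omega
    rcases hk3 with rfl | rfl
    · left
      have : arg z = arg b / n := by
        rw [eq_div_iff hnR.ne']; push_cast at hk; linarith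
      rw [← this, hpol]
    · right
      have : arg z = (arg b - 2 * π) / n := by
        rw [eq_div_iff hnR.ne']; push_cast at hk; linarith
      rw [← this, hpol]
  exact (Finset.card_le_card hsub).trans Finset.card_le_two

lemma secC_comp {θ : ℝ} {n : ℕ} (hn : 0 < n) (hθ : θ ≤ π / n) (a : ℂ) (ha : a ≠ 0)
    (g : ℂ[X]) (hg : g.eval 0 ≠ 0) : secC θ (g.comp (C a * X ^ n)) ≤ 2 * g.natDegree := by
  have hg0 : g ≠ 0 := by rintro rfl; simp at hg
  have key : ∀ s : Multiset ℂ, (∀ η ∈ s, η ≠ 0) →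
      (s.map (fun η => (C a * X ^ n - C η : ℂ[X]))).prod ≠ 0 ∧
      secC θ (s.map (fun η => (C a * X ^ n - C η : ℂ[X]))).prod ≤ 2 * Multiset.card s := by
    intro s
    induction s using Multiset.induction_on with
    | empty => intro _; simp [secC]
    | cons η s ih =>
      intro h
      have hη := h η (Multiset.mem_cons_self _ _)
      obtain ⟨h1, h2⟩ := ih (fun x hx => h x (Multiset.mem_cons_of_mem hx))
      have h3 : (C a * X ^ n - C η : ℂ[X]) ≠ 0 := by
        intro h4
        have := congrArg (fun p => Polynomial.eval 0 p) h4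
        simp [hn.ne', hη] at this
      rw [Multiset.map_cons, Multiset.prod_cons, Multiset.card_cons]
      refine ⟨mul_ne_zero h3 h1, ?_⟩
      rw [secC_mul θ h3 h1]
      have := secC_binomial hn hθ a η ha hη
      omega
  have hroots : ∀ η ∈ g.roots, η ≠ 0 := by
    intro η hη h
    rw [h, Polynomial.mem_roots hg0] at hη
    exact hg hη
  obtain ⟨h1, h2⟩ := key g.roots hroots
  have h3 : g.comp (C a * X ^ n) = C g.leadingCoeff *
      (g.roots.map (fun η => (C a * X ^ n - C η : ℂ[X]))).prod := by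
    conv_lhs => rw [(IsAlgClosed.splits g).eq_prod_roots]
    rw [mul_comp, C_comp, Polynomial.multiset_prod_comp, Multiset.map_map]
    simp
  rw [h3]
  simp only [secC] at h2 ⊢
  rw [Polynomial.roots_C_mul _ (Polynomial.leadingCoeff_ne_zero.2 hg0)]
  rw [IsAlgClosed.card_roots_eq_natDegree] at h2
  exact h2

/-- The basic rational function of `z ^ n`. -/
noncomputable def term (n : ℕ) (u g : ℂ[X]) : ℂ → ℂ := fun z => u.eval (z ^ n) / g.eval (z ^ n)

lemma rep_term {θ : ℝ} {n δ : ℕ} (hn : 0 < n) (hθ : θ ≤ π / n) (u g : ℂ[X]) (hg : g.eval 0 ≠ 0)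
    (hu : u.natDegree ≤ g.natDegree) (hδ : g.natDegree ≤ δ) (w : ℂ) (hw : w ≠ 0) :
    Rep θ (2 * δ) (fun z => term n u g (w * z)) := by
  have ha : w ^ n ≠ 0 := pow_ne_zero _ hw
  refine ⟨u.comp (C (w ^ n) * X ^ n), g.comp (C (w ^ n) * X ^ n), ?_, ?_, ?_, ?_⟩
  · intro h
    have := congrArg (fun p => Polynomial.eval 0 p) h
    simp [eval_comp, hn.ne'] at this
    exact hg this
  · rw [Polynomial.natDegree_comp, Polynomial.natDegree_comp]
    exact Nat.mul_le_mul_right _ hu
  · intro z hz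
    simp only [eval_comp, eval_mul, eval_C, eval_pow, eval_X] at hz ⊢
    simp only [term, mul_pow]
    field_simp
  · exact (secC_comp hn hθ _ ha g hg).trans (by omega)

end Pool.Agent.Work.MP_97f157_lc
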