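import Mathlib
import Pool.Agent.Work.MP_97f157_lc.Step

set_option autoImplicit false

open Polynomial Finset Filter Topology Complex
open scoped ComplexConjugate Real

namespace Pool.Agent.Work.MP_97f157_lc

/-- The group algebra of rotations. -/
abbrev Alg := AddMonoidAlgebra ℂ ℝ

noncomputable def tau (φ : ℝ) : Alg := AddMonoidAlgebra.single φ 1

lemma tau_add (a b : ℝ) : tau (a + b) = tau a * tau b := by
  simp [tau, AddMonoidAlgebra.single_mul_single]

lemma tau_zero : tau 0 = 1 := rfl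

lemma tau_pow (a : ℝ) (n : ℕ) : tau a ^ n = tau (n * a) := by
  induction n with
  | zero => simp [tau_zero]
  | succ n ih => rw [pow_succ, ih, ← tau_add]; push_cast; ring_nf

noncomputable def rotHom : Multiplicative ℝ →* Module.End ℂ (ℂ → ℂ) where
  toFun φ := LinearMap.funLeft ℂ ℂ (fun z => exp ((φ.toAdd : ℝ) * I) * z)
  map_one' := by
    ext H z; simp [LinearMap.funLeft_apply]
  map_mul' a b := by
    apply LinearMap.ext
    intro H
    funext z
    simp only [LinearMap.funLeft_apply, toAdd_mul, Module.End.mul_apply]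
    push_cast
    rw [add_mul, Complex.exp_add]
    ring_nf

noncomputable def act : Alg →ₐ[ℂ] Module.End ℂ (ℂ → ℂ) :=
  AddMonoidAlgebra.lift ℂ (Module.End ℂ (ℂ → ℂ)) ℝ rotHom

lemma act_tau (φ : ℝ) (H : ℂ → ℂ) : act (tau φ) H = fun z => H (exp (φ * I) * z) := by
  simp only [act, tau, AddMonoidAlgebra.lift_single, one_smul]
  rfl

lemma act_mul (A B : Alg) (H : ℂ → ℂ) : act (A * B) H = act A (act B H) := by
  rw [map_mul]; rfl

noncomputable def Bop (c : ℂ) (θ : ℝ) : Alg := c • tau θ + conj c • tau (-θ)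

lemma act_Bop (c : ℂ) (θ : ℝ) (H : ℂ → ℂ) : act (Bop c θ) H = Bf c θ H := by
  funext z
  simp only [Bop, map_add, map_smul, LinearMap.add_apply, LinearMap.smul_apply, act_tau,
    Pi.add_apply, Pi.smul_apply, smul_eq_mul, Bf]

def SymOp (A : Alg) : Prop := ∀ H, Sym H → Sym (act A H)

lemma SymOp.one : SymOp 1 := by intro H hH; simpa using hH

lemma SymOp.mul {A B : Alg} (hA : SymOp A) (hB : SymOp B) : SymOp (A * B) := by
  intro H hH; rw [act_mul]; exact hA _ (hB _ hH)

lemma SymOp.Bop (c : ℂ) (θ : ℝ) : SymOp (Bop c θ) := by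
  intro H hH; rw [act_Bop]; exact hH.Bf c θ

lemma SymOp.prod {ι : Type*} (s : Finset ι) (A : ι → Alg) (h : ∀ i ∈ s, SymOp (A i)) :
    SymOp (∏ i ∈ s, A i) :=
  Finset.prod_induction A SymOp (fun _ _ => SymOp.mul) SymOp.one h

/-- `A` is a combination of at most `k` rotations. -/
def Few (k : ℕ) (A : Alg) : Prop :=
  ∃ (ι : Type) (_ : Fintype ι) (a : ι → ℂ) (φ : ι → ℝ),
    Fintype.card ι ≤ k ∧ A = ∑ i, a i • tau (φ i)

lemma Few.mono {k k' : ℕ} {A : Alg} (h : Few k A) (hk : k ≤ k') : Few k' A := by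
  obtain ⟨ι, _, a, φ, h1, h2⟩ := h
  exact ⟨ι, inferInstance, a, φ, h1.trans hk, h2⟩

lemma Few.one : Few 1 1 := ⟨Unit, inferInstance, fun _ => 1, fun _ => 0, by simp, by simp [tau_zero]⟩

lemma Few.mul {k k' : ℕ} {A B : Alg} (hA : Few k A) (hB : Few k' B) : Few (k * k') (A * B) := by
  obtain ⟨ι, _, a, φ, h1, h2⟩ := hA
  obtain ⟨ι', _, a', φ', h1', h2'⟩ := hB
  refine ⟨ι × ι', inferInstance, fun p => a p.1 * a' p.2, fun p => φ p.1 + φ' p.2, ?_, ?_⟩
  · rw [Fintype.card_prod]; exact Nat.mul_le_mul h1 h1'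
  · rw [h2, h2', Finset.sum_mul_sum, Fintype.sum_prod_type]
    apply Finset.sum_congr rfl
    intro i _
    apply Finset.sum_congr rfl
    intro j _
    rw [tau_add, smul_mul_smul_comm]

lemma Few.Bop (c : ℂ) (θ : ℝ) : Few 2 (Bop c θ) :=
  ⟨Bool, inferInstance, fun b => if b then c else conj c, fun b => if b then θ else -θ,
    by simp, by simp [Pool.Agent.Work.MP_97f157_lc.Bop]⟩

lemma Few.prod {ι : Type*} (s : Finset ι) (A : ι → Alg) (k : ℕ) (h : ∀ i ∈ s, Few k (A i)) :
    Few (k ^ s.card) (∏ i ∈ s, A i) := by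
  classical
  induction s using Finset.induction_on with
  | empty => simpa using Few.one
  | insert a s ha ih =>
    rw [Finset.prod_insert ha, Finset.card_insert_of_notMem ha, pow_succ']
    exact (h a (Finset.mem_insert_self _ _)).mul (ih (fun i hi => h i (Finset.mem_insert_of_mem hi)))

lemma Few.rep {k p : ℕ} {A : Alg} (hA : Few k A) {θ : ℝ} {H : ℂ → ℂ}
    (h : ∀ w : ℂ, w ≠ 0 → Rep θ p (fun z => H (w * z))) : Rep θ (k * p) (act A H) := by
  obtain ⟨ι, _, a, φ, h1, h2⟩ := hA
  have : act A H = ∑ i, a i • (fun z => H (exp (φ i * I) * z)) := by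
    rw [h2, map_sum, LinearMap.sum_apply]
    apply Finset.sum_congr rfl
    intro i _
    rw [map_smul, LinearMap.smul_apply, act_tau]
  rw [this]
  refine (Rep.sum Finset.univ _ (fun i _ => (h _ (Complex.exp_ne_zero _)).smul (a i))).mono ?_
  exact Nat.mul_le_mul_right _ (by simpa using h1)

/-- Laurent polynomials in one rotation. -/
def Lat (θ : ℝ) (j : ℕ) (A : Alg) : Prop :=
  ∃ p : ℂ[X], p.natDegree ≤ j ∧ A = tau (-(j * θ)) * aeval (tau (2 * θ)) p

lemma Lat.one (θ : ℝ) : Lat θ 0 1 := ⟨1, by simp, by simp [tau_zero]⟩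

lemma Bop_eq (c : ℂ) (θ : ℝ) :
    Bop c θ = tau (-θ) * aeval (tau (2 * θ)) (C c * X + C (conj c) : ℂ[X]) := by
  simp only [Bop, map_add, map_mul, aeval_C, aeval_X, ← Algebra.smul_def, mul_add, mul_smul_comm,
    ← tau_add]
  rw [Algebra.algebraMap_eq_smul_one, mul_smul_comm, mul_one]
  congr 3
  ring

lemma Lat.mul_Bop {θ : ℝ} {j : ℕ} {A : Alg} (h : Lat θ j A) (c : ℂ) :
    Lat θ (j + 1) (A * Bop c θ) := by
  obtain ⟨p, hp, rfl⟩ := h
  refine ⟨p * (C c * X + C (conj c)), ?_, ?_⟩
  · refine Polynomial.natDegree_mul_le.trans ?_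
    have : (C c * X + C (conj c) : ℂ[X]).natDegree ≤ 1 := Polynomial.natDegree_linear_le
    omega
  · have : tau (-(((j + 1 : ℕ) : ℝ) * θ)) = tau (-(j * θ)) * tau (-θ) := by
      rw [← tau_add]; push_cast; ring_nf
    rw [Bop_eq, this, map_mul (aeval (tau (2 * θ))) p]
    ring

lemma Lat.few {θ : ℝ} {j : ℕ} {A : Alg} (h : Lat θ j A) : Few (j + 1) A := by
  obtain ⟨p, hp, rfl⟩ := h
  refine ⟨Fin (j + 1), inferInstance, fun i => p.coeff i, fun i => -(j * θ) + i * (2 * θ),
    by simp, ?_⟩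
  rw [Polynomial.aeval_eq_sum_range' (Nat.lt_succ_of_le hp), Finset.mul_sum,
    Finset.sum_range (fun i => tau (-(j * θ)) * p.coeff i • tau (2 * θ) ^ i)]
  apply Finset.sum_congr rfl
  intro i _
  rw [tau_pow, mul_smul_comm, ← tau_add]

lemma Lat.mul_prod {θ : ℝ} {j : ℕ} {A : Alg} (h : Lat θ j A) (cs : ℕ → ℂ) (n : ℕ) :
    Lat θ (j + n) (A * ∏ i ∈ Finset.range n, Bop (cs i) θ) := by
  induction n with
  | zero => simpa using h
  | succ n ih =>
    rw [Finset.prod_range_succ, ← mul_assoc]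
    exact ih.mul_Bop _

lemma transition (θ : ℝ) (q : ℕ) :
    ∃ (cs : ℕ → ℂ) (κ : ℂ), κ ≠ 0 ∧ (∀ i, cs i ≠ 0) ∧
      Bop I (((q + 1 : ℕ) : ℝ) * θ) = κ • (Bop I θ * ∏ i ∈ Finset.range q, Bop (cs i) θ) := by
  set n := q + 1 with hn
  have hn0 : n ≠ 0 := by omega
  set ζ : ℂ := exp (2 * π * I / n) with hζ
  have hprim : IsPrimitiveRoot ζ n := Complex.isPrimitiveRoot_exp n hn0
  set c : ℕ → ℂ := fun i => I * exp (((-(π * i / n) : ℝ)) * I) with hc
  have hc0 : ∀ i, c i ≠ 0 := fun i => mul_ne_zero Complex.I_ne_zero (Complex.exp_ne_zero _)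
  have hcc : ∀ i, conj (c i) = -(ζ ^ i) * c i := by
    intro i
    simp only [hc, map_mul, Complex.conj_I, conj_exp, hζ]
    rw [← Complex.exp_nat_mul]
    have : exp (i * (2 * π * I / n)) * exp (((-(π * i / n) : ℝ)) * I)
        = exp (((-(-(π * i / n)) : ℝ)) * I) := by
      rw [← Complex.exp_add]; push_cast; ring_nf
    rw [← this]; ring
  set t := tau (2 * θ) with ht
  have h1 : t ^ n - 1 = ∏ i ∈ Finset.range n, (t - algebraMap ℂ Alg (ζ ^ i)) := by
    have := X_pow_sub_C_eq_prod hprim (Nat.pos_of_ne_zero hn0) (one_pow n)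
    have h2 := congrArg (aeval t) this
    simpa [map_prod] using h2
  have h2 : ∀ i, tau (-θ) * (t - algebraMap ℂ Alg (ζ ^ i)) = (c i)⁻¹ • Bop (c i) θ := by
    intro i
    rw [Bop, hcc, smul_add, smul_smul, smul_smul, inv_mul_cancel₀ (hc0 i), one_smul, mul_sub,
      ht, ← tau_add, Algebra.algebraMap_eq_smul_one, mul_smul_comm, mul_one]
    have h3 : (c i)⁻¹ * (-(ζ ^ i) * c i) = -(ζ ^ i) := by
      have := hc0 i
      field_simp
    rw [h3, neg_smul, sub_eq_add_neg]
    congr 2
    ring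
  have h3 : Bop I (n * θ) = I • (tau (-θ) ^ n * (t ^ n - 1)) := by
    rw [Bop, Complex.conj_I, mul_sub, mul_one, ht, tau_pow, tau_pow, ← tau_add, smul_sub, neg_smul,
      sub_eq_add_neg]
    congr 3
    · ring
    · ring_nf
  have h4 : tau (-θ) ^ n * (t ^ n - 1) = ∏ i ∈ Finset.range n, ((c i)⁻¹ • Bop (c i) θ) := by
    rw [h1]
    simp_rw [← h2]
    rw [Finset.prod_mul_distrib]
    simp
  have hc00 : c 0 = I := by simp [hc]
  refine ⟨fun i => c (i + 1), I * ∏ i ∈ Finset.range n, (c i)⁻¹, ?_, fun i => hc0 _, ?_⟩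
  · exact mul_ne_zero Complex.I_ne_zero
      (Finset.prod_ne_zero_iff.2 (fun i _ => inv_ne_zero (hc0 i)))
  · rw [h3, h4, Finset.prod_smul, smul_smul, hn,
      Finset.prod_range_succ' (fun i => Bop (c i) θ), hc00, mul_comm (Bop I θ)]

lemma zc_smul (κ : ℂ) (hκ : κ ≠ 0) (H : ℂ → ℂ) : zc (κ • H) = zc H := by
  simp [zc, hκ]

lemma multi_step {θ : ℝ} (h0 : 0 < θ) (hπ : θ ≤ π) {p : ℕ} {G : ℂ → ℂ} (hG : Sym G) {A : Alg}
    (hA : SymOp A) (cs : ℕ → ℂ) (hcs : ∀ i, cs i ≠ 0) (q : ℕ)
    (hrep : ∀ j < q, Rep θ p (act (A * ∏ i ∈ Finset.range j, Bop (cs i) θ) G)) :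
    zc (act A G) ≤ zc (act (A * ∏ i ∈ Finset.range q, Bop (cs i) θ) G) + q * (8 * p + 1) := by
  induction q with
  | zero => simp
  | succ q ih =>
    have h1 := ih (fun j hj => hrep j (by omega))
    have hS : Sym (act (A * ∏ i ∈ Finset.range q, Bop (cs i) θ) G) :=
      (hA.mul (SymOp.prod _ _ (fun i _ => SymOp.Bop _ _))) G hG
    have h2 := step hS (hrep q (by omega)) h0 hπ (cs q) (hcs q)
    rw [← act_Bop, ← act_mul] at h2
    rw [Finset.prod_range_succ, ← mul_assoc, mul_comm _ (Bop (cs q) θ)]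
    rw [add_mul]
    omega

lemma kill {n n' : ℕ} (hn' : 0 < n') (hdvd : n' ∣ n) (u g : ℂ[X]) :
    act (Bop I (π / n')) (term n u g) = 0 := by
  obtain ⟨k, rfl⟩ := hdvd
  rw [act_Bop]
  funext z
  have hn : (n' : ℂ) ≠ 0 := by exact_mod_cast hn'.ne'
  have : (exp (((π / n' : ℝ) : ℂ) * I) * z) ^ (n' * k)
      = (exp (((-(π / n') : ℝ) : ℂ) * I) * z) ^ (n' * k) := by
    rw [mul_pow, mul_pow, ← Complex.exp_nat_mul, ← Complex.exp_nat_mul]
    congr 1
    rw [Complex.exp_eq_exp_iff_exists_int]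
    refine ⟨k, ?_⟩
    push_cast
    field_simp
    ring
  simp only [Bf, term, this, Complex.conj_I, Pi.zero_apply]
  ring

section Main

variable {w : ℕ} (L : Fin w → ℕ) (N : Fin w → ℕ → ℕ) (r : ℕ)

lemma N_pos (h0 : ∀ c, 0 < N c 0)
    (hN : ∀ c l, l < L c → ∃ q, 1 ≤ q ∧ q ≤ r ∧ N c (l + 1) = q * N c l) (c : Fin w) :
    ∀ l, l ≤ L c → 0 < N c l := by
  intro l
  induction l with
  | zero => intro _; exact h0 c
  | succ l ih =>
    intro hl
    obtain ⟨q, h1, _, h2⟩ := hN c l (by omega)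
    rw [h2]
    exact Nat.mul_pos h1 (ih (by omega))

lemma N_dvd (hN : ∀ c l, l < L c → ∃ q, 1 ≤ q ∧ q ≤ r ∧ N c (l + 1) = q * N c l) (c : Fin w)
    (l : ℕ) : ∀ l', l ≤ l' → l' ≤ L c → N c l ∣ N c l' := by
  intro l' h
  induction l', h using Nat.le_induction with
  | base => intro _; exact dvd_rfl
  | succ l' _ ih =>
    intro hl
    obtain ⟨q, _, _, h2⟩ := hN c l' (by omega)
    rw [h2]
    exact (ih (by omega)).mul_left q

noncomputable def Oc (c : Fin w) (l : ℕ) : Alg := if l ≤ L c then Bop I (π / N c l) else 1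

lemma Oc_sym (c : Fin w) (l : ℕ) : SymOp (Oc L N c l) := by
  simp only [Oc]
  split_ifs
  · exact SymOp.Bop _ _
  · exact SymOp.one

lemma Oc_few (c : Fin w) (l : ℕ) : Few 2 (Oc L N c l) := by
  simp only [Oc]
  split_ifs
  · exact Few.Bop _ _
  · exact Few.one.mono (by omega)

lemma Oc_step (hr : 1 ≤ r) (h0 : ∀ c, 0 < N c 0)
    (hN : ∀ c l, l < L c → ∃ q, 1 ≤ q ∧ q ≤ r ∧ N c (l + 1) = q * N c l) (c : Fin w) (l : ℕ)
    (hl : l ≤ L c) :
    ∃ (q : ℕ) (cs : ℕ → ℂ) (κ : ℂ), q ≤ r ∧ κ ≠ 0 ∧ (∀ i, cs i ≠ 0) ∧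
      Oc L N c l = κ • (Oc L N c (l + 1) *
        ∏ i ∈ Finset.range q, Bop (cs i) (π / N c (min (l + 1) (L c)))) ∧
      ∀ j < q, Few r (Oc L N c (l + 1) *
        ∏ i ∈ Finset.range j, Bop (cs i) (π / N c (min (l + 1) (L c)))) := by
  rcases hl.lt_or_eq with hl' | hl'
  · obtain ⟨q, h1, h2, h3⟩ := hN c l hl'
    obtain ⟨q, rfl⟩ : ∃ q', q = q' + 1 := ⟨q - 1, by omega⟩
    have hmin : min (l + 1) (L c) = l + 1 := by omega
    obtain ⟨cs, κ, hκ, hcs, heq⟩ := transition (π / N c (l + 1)) q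
    have hpos : (N c l : ℝ) ≠ 0 := by
      have := N_pos L N r h0 hN c l hl
      positivity
    have hang : ((q + 1 : ℕ) : ℝ) * (π / N c (l + 1)) = π / N c l := by
      rw [h3]; push_cast; field_simp
    rw [hang] at heq
    refine ⟨q, cs, κ, by omega, hκ, hcs, ?_, ?_⟩
    · rw [hmin]
      simp only [Oc]
      rw [if_pos hl, if_pos (by omega), heq]
    · intro j hj
      rw [hmin]
      simp only [Oc]
      rw [if_pos (by omega)]
      have h4 := ((Lat.one (π / N c (l + 1))).mul_Bop I).mul_prod cs j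
      rw [one_mul] at h4
      exact h4.few.mono (by omega)
  · have hmin : min (l + 1) (L c) = l := by omega
    refine ⟨1, fun _ => I, 1, hr, one_ne_zero, fun _ => Complex.I_ne_zero, ?_, ?_⟩
    · rw [hmin]
      simp only [Oc]
      rw [if_pos hl, if_neg (by omega)]
      simp
    · intro j hj
      have : j = 0 := by omega
      subst this
      simp only [Oc]
      rw [if_neg (by omega)]
      simpa using Few.one.mono hr

theorem chain_bound (hr : 1 ≤ r) (h0 : ∀ c, 0 < N c 0)
    (hN : ∀ c l, l < L c → ∃ q, 1 ≤ q ∧ q ≤ r ∧ N c (l + 1) = q * N c l)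
    {ι : Type} [Fintype ι] (cl : ι → Fin w) (lv : ι → ℕ) (hlv : ∀ j, lv j ≤ L (cl j))
    (δ : ℕ) (u g : ι → ℂ[X]) (hg : ∀ j, (g j).eval 0 ≠ 0)
    (hu : ∀ j, (u j).natDegree ≤ (g j).natDegree) (hδ : ∀ j, (g j).natDegree ≤ δ)
    (hS : Sym (∑ j, term (N (cl j) (lv j)) (u j) (g j))) :
    zc (∑ j, term (N (cl j) (lv j)) (u j) (g j)) ≤
      (∑ c, (L c + 1)) * (r * (8 * (2 ^ w * r * (Fintype.card ι * δ)) + 1)) := by
  classical
  set T : ι → ℂ → ℂ := fun j => term (N (cl j) (lv j)) (u j) (g j) with hT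
  set G : ℂ → ℂ := ∑ j, T j with hG
  set cost := r * (8 * (2 ^ w * r * (Fintype.card ι * δ)) + 1) with hcost
  have hdead : ∀ (l : Fin w → ℕ) (A : Alg) (j : ι), l (cl j) ≤ lv j →
      act ((∏ c, Oc L N c (l c)) * A) (T j) = 0 := by
    intro l A j hj
    rw [← Finset.mul_prod_erase _ _ (Finset.mem_univ (cl j)), mul_assoc, mul_comm, act_mul]
    have h1 : l (cl j) ≤ L (cl j) := hj.trans (hlv j)
    have : act (Oc L N (cl j) (l (cl j))) (T j) = 0 := by
      simp only [Oc]
      rw [if_pos h1]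
      exact kill (N_pos L N r h0 hN _ _ h1) (N_dvd L N r hN _ _ _ hj (hlv j)) _ _
    rw [this, map_zero]
  have halive : ∀ (l : Fin w → ℕ) (A : Alg), act ((∏ c, Oc L N c (l c)) * A) G =
      act ((∏ c, Oc L N c (l c)) * A)
        (∑ j ∈ Finset.univ.filter (fun j => lv j < l (cl j)), T j) := by
    intro l A
    rw [hG, map_sum, map_sum, Finset.sum_filter]
    apply Finset.sum_congr rfl
    intro j _
    split_ifs with h
    · rfl
    · exact hdead l A j (by omega)
  have key : ∀ (n : ℕ) (l : Fin w → ℕ), (∀ c, l c ≤ L c + 1) → ∑ c, l c = n →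
      zc (act (∏ c, Oc L N c (l c)) G) ≤ n * cost := by
    intro n
    induction n with
    | zero =>
      intro l _ hl
      have h1 : ∀ c, l c = 0 := fun c =>
        (Finset.sum_eq_zero_iff.1 hl) c (Finset.mem_univ c)
      have h2 := halive l 1
      rw [mul_one] at h2
      have h3 : Finset.univ.filter (fun j => lv j < l (cl j)) = ∅ := by
        ext j; simp [h1]
      rw [h2, h3, Finset.sum_empty, map_zero]
      have := zc_eval_le 0
      simp only [roots_zero, Multiset.filter_zero, Multiset.card_zero, eval_zero] at this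
      exact le_trans this (Nat.zero_le _)
    | succ n ih =>
      intro l hl hsum
      have hne : (Finset.univ.filter (fun c => 1 ≤ l c)).Nonempty := by
        by_contra hcon
        rw [Finset.not_nonempty_iff_eq_empty, Finset.filter_eq_empty_iff] at hcon
        have : ∑ c, l c = 0 := Finset.sum_eq_zero (fun c hc => by have := hcon hc; omega)
        omega
      obtain ⟨c, hc, hmax⟩ := Finset.exists_max_image _ (fun c => N c (min (l c) (L c))) hne
      have hc1 : 1 ≤ l c := (Finset.mem_filter.1 hc).2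
      obtain ⟨l0, hl0⟩ : ∃ l0, l c = l0 + 1 := ⟨l c - 1, by omega⟩
      have hl0L : l0 ≤ L c := by have := hl c; omega
      obtain ⟨q, cs, κ, hq, hκ, hcs, heq, hfew⟩ := Oc_step L N r hr h0 hN c l0 hl0L
      rw [← hl0] at heq hfew
      set K := N c (min (l c) (L c)) with hK
      have hKpos : 0 < K := N_pos L N r h0 hN c _ (min_le_right _ _)
      have hKR : (1 : ℝ) ≤ K := by exact_mod_cast hKpos
      have hpi := Real.pi_pos
      have hθ0 : 0 < π / K := by positivity
      have hθπ : π / K ≤ π := div_le_self hpi.le hKR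
      set l' := Function.update l c l0 with hl'
      set O' := ∏ c' ∈ Finset.univ.erase c, Oc L N c' (l c') with hO'
      have hO : ∏ c', Oc L N c' (l c') = Oc L N c (l c) * O' :=
        (Finset.mul_prod_erase _ _ (Finset.mem_univ c)).symm
      have hO2 : ∏ c', Oc L N c' (l' c') = Oc L N c l0 * O' := by
        rw [← Finset.mul_prod_erase _ _ (Finset.mem_univ c)]
        congr 1
        · simp [hl']
        · apply Finset.prod_congr rfl
          intro c' hc'
          simp [hl', Function.update_of_ne (Finset.ne_of_mem_erase hc')]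
      have hsum' : ∑ c', l' c' = n := by
        rw [hl', Finset.sum_update_of_mem (Finset.mem_univ c)]
        rw [← Finset.add_sum_erase _ _ (Finset.mem_univ c), hl0] at hsum
        rw [Finset.sdiff_singleton_eq_erase]
        omega
      have hl'le : ∀ c', l' c' ≤ L c' + 1 := by
        intro c'
        by_cases h : c' = c
        · subst h; simp [hl']; omega
        · simp [hl', Function.update_of_ne h, hl c']
      have h1 := ih l' hl'le hsum'
      have hOfew : Few (2 ^ (w - 1)) O' := by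
        have := Few.prod (Finset.univ.erase c) (fun c' => Oc L N c' (l c')) 2
          (fun c' _ => Oc_few L N c' _)
        simpa using this
      have hw : 1 ≤ w := c.pos
      have h2 := multi_step hθ0 hθπ (p := 2 ^ w * r * (Fintype.card ι * δ)) hS
        (SymOp.prod Finset.univ (fun c' => Oc L N c' (l c')) (fun c' _ => Oc_sym L N c' _))
        cs hcs q (by
          intro j hj
          rw [halive]
          have h3 : Few (2 ^ (w - 1) * r)
              ((∏ c', Oc L N c' (l c')) * ∏ i ∈ Finset.range j, Bop (cs i) (π / K)) := by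
            have := hOfew.mul (hfew j hj)
            rw [hO, mul_comm _ O', mul_assoc]
            exact this
          have h4 : ∀ w' : ℂ, w' ≠ 0 → Rep (π / K) (Fintype.card ι * (2 * δ))
              (fun z => (∑ j ∈ Finset.univ.filter (fun j => lv j < l (cl j)), T j) (w' * z)) := by
            intro w' hw'
            have h5 : (fun z => (∑ j ∈ Finset.univ.filter (fun j => lv j < l (cl j)), T j) (w' * z))
                = ∑ j ∈ Finset.univ.filter (fun j => lv j < l (cl j)), (fun z => T j (w' * z)) := by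
              funext z; simp [Finset.sum_apply]
            rw [h5]
            refine (Rep.sum (p := 2 * δ) _ _ ?_).mono
              (Nat.mul_le_mul_right _ (Finset.card_le_univ _))
            intro j hj
            have hj' : lv j < l (cl j) := (Finset.mem_filter.1 hj).2
            have hnpos := N_pos L N r h0 hN (cl j) (lv j) (hlv j)
            have h6 : N (cl j) (lv j) ≤ K := by
              refine le_trans ?_ (hmax (cl j) (by simp; omega))
              apply Nat.le_of_dvd (N_pos L N r h0 hN _ _ (min_le_right _ _))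
              exact N_dvd L N r hN _ _ _ (le_min hj'.le (hlv j)) (min_le_right _ _)
            apply rep_term hnpos _ _ _ (hg j) (hu j) (hδ j) w' hw'
            apply div_le_div_of_nonneg_left hpi.le (by exact_mod_cast hnpos) (by exact_mod_cast h6)
          refine (h3.rep h4).mono (le_of_eq ?_)
          obtain ⟨w0, rfl⟩ : ∃ w0, w = w0 + 1 := ⟨w - 1, by omega⟩
          simp only [Nat.add_sub_cancel, pow_succ]
          ring)
      have h7 : ∏ c', Oc L N c' (l' c') = κ • ((∏ c', Oc L N c' (l c')) *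
          ∏ i ∈ Finset.range q, Bop (cs i) (π / K)) := by
        rw [hO2, heq, hO, smul_mul_assoc]
        congr 1
        ring
      rw [h7, map_smul, LinearMap.smul_apply, zc_smul κ hκ] at h1
      have h8 : q * (8 * (2 ^ w * r * (Fintype.card ι * δ)) + 1) ≤ cost :=
        Nat.mul_le_mul_right _ hq
      rw [add_mul, one_mul]
      omega
  have := key _ (fun c => L c + 1) (fun c => le_rfl) rfl
  have h9 : ∏ c, Oc L N c (L c + 1) = 1 := by
    apply Finset.prod_eq_one
    intro c _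
    simp [Oc]
  rw [h9] at this
  simpa using this

end Main

end Pool.Agent.Work.MP_97f157_lc
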