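import Mathlib
import Pool.Agent.Work.MP_97f157_lc.Reduce

set_option autoImplicit false

namespace Pool.Agent.Results.MP_97f157_lc.ProductMinusOne

/-- Reduction of the real tau-conjecture to the shape `g_1 * ... * g_M - 1`:
a nonzero sum of `k` products of `m ≤ a * b` real `t`-sparse polynomials has at most as many
distinct real roots as some nonzero `g_1 * ... * g_M - 1` with `M ≤ k * 2 ^ a * a + 1` factors,
each with at most `(a * t ^ b + 1) ^ 2` monomials. -/
theorem result :
    ∀ (k m t a b : ℕ), m ≤ a * b → 1 ≤ t →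
      ∀ F : Fin k → Fin m → Polynomial ℝ, (∀ i j, (F i j).support.card ≤ t) →
        (∑ i, ∏ j, F i j) ≠ 0 →
        ∃ (M : ℕ) (g : Fin M → Polynomial ℝ), M ≤ k * 2 ^ a * a + 1 ∧
          (∀ j, (g j).support.card ≤ (a * t ^ b + 1) ^ 2) ∧
          (∏ j, g j) - 1 ≠ 0 ∧
          (∑ i, ∏ j, F i j).roots.toFinset.card ≤ ((∏ j, g j) - 1).roots.toFinset.card :=
  fun k m t a b hm ht F hF h0 =>
    Pool.Agent.Work.MP_97f157_lc.reduction k m t a b hm ht F hF h0

end Pool.Agent.Results.MP_97f157_lc.ProductMinusOne
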