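import Mathlib

set_option autoImplicit false

open Finset

namespace Pool.Agent.Work.MP_97f157_lc.Quad

theorem digits_bound (R : ℤ) (hR : 1 ≤ R) : ∀ (k : ℕ) (D : Fin k → ℤ), (∀ e, |D e| ≤ R - 1) →
    |∑ e, D e * R ^ (e : ℕ)| ≤ R ^ k - 1 := by
  intro k
  induction k with
  | zero => intro D _; simp
  | succ k ih =>
    intro D hD
    rw [Fin.sum_univ_castSucc]
    have h1 := ih (fun e => D e.castSucc) (fun e => hD _)
    have h2 : |D (Fin.last k) * R ^ k| ≤ (R - 1) * R ^ k := by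
      rw [abs_mul, abs_of_nonneg (by positivity : (0 : ℤ) ≤ R ^ k)]
      exact mul_le_mul_of_nonneg_right (hD _) (by positivity)
    simp only [Fin.val_castSucc, Fin.val_last] at h1 ⊢
    have h3 := abs_add_le (∑ e : Fin k, D e.castSucc * R ^ (e : ℕ)) (D (Fin.last k) * R ^ k)
    rw [pow_succ]
    linarith

theorem digits_zero (R : ℤ) (hR : 1 ≤ R) : ∀ (k : ℕ) (D : Fin k → ℤ), (∀ e, |D e| ≤ R - 1) →
    ∑ e, D e * R ^ (e : ℕ) = 0 → ∀ e, D e = 0 := by
  intro k
  induction k with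
  | zero => intro D _ _ e; exact e.elim0
  | succ k ih =>
    intro D hD h0
    rw [Fin.sum_univ_castSucc] at h0
    simp only [Fin.val_castSucc, Fin.val_last] at h0
    have h1 := digits_bound R hR k (fun e => D e.castSucc) (fun e => hD _)
    have hp : (0 : ℤ) < R ^ k := by positivity
    have hl : D (Fin.last k) = 0 := by
      by_contra hne
      have h2 : 1 ≤ |D (Fin.last k)| := Int.one_le_abs hne
      have h3 : ∑ e : Fin k, D e.castSucc * R ^ (e : ℕ) = -(D (Fin.last k) * R ^ k) := by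
        linarith
      rw [h3, abs_neg, abs_mul, abs_of_pos hp] at h1
      nlinarith
    rw [hl, zero_mul, add_zero] at h0
    have h4 := ih (fun e => D e.castSucc) (fun e => hD _) h0
    intro e
    refine Fin.lastCases hl (fun i => h4 i) e

theorem lex_weight {κ : Type} [Fintype κ] (x y : κ → ℤ) :
    ∃ A : ℤ, ∀ i, (0 < x i ∨ (x i = 0 ∧ 0 < y i)) → 0 < A * x i + y i := by
  refine ⟨1 + ∑ i, |y i|, fun i hi => ?_⟩
  have h1 : |y i| ≤ ∑ i, |y i| :=
    Finset.single_le_sum (f := fun i => |y i|) (fun _ _ => abs_nonneg _) (Finset.mem_univ i)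
  have h2 := neg_abs_le (y i)
  have h3 := abs_nonneg (y i)
  rcases hi with h | ⟨h, h'⟩
  · nlinarith
  · rw [h]; simpa using h'

/-- Vandermonde matrix on the nodes `0, ..., 2d`. -/
def vm (d : ℕ) : Matrix (Fin (d + 1 + d)) (Fin (d + 1 + d)) ℤ :=
  Matrix.vandermonde (fun j => ((j : ℕ) : ℤ))

/-- Its adjugate. -/
def gam (d : ℕ) : Matrix (Fin (d + 1 + d)) (Fin (d + 1 + d)) ℤ := (vm d).adjugate

/-- Its determinant. -/
def del (d : ℕ) : ℤ := (vm d).det

theorem del_ne (d : ℕ) : del d ≠ 0 := by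
  refine Matrix.det_vandermonde_ne_zero_iff.2 fun i j hij => ?_
  exact Fin.ext (by exact_mod_cast hij)

theorem gam_vm (d : ℕ) (e k : Fin (d + 1 + d)) :
    ∑ j, gam d e j * ((j : ℕ) : ℤ) ^ (k : ℕ) = if e = k then del d else 0 := by
  have := congrFun (congrFun (Matrix.adjugate_mul (vm d)) e) k
  rw [Matrix.mul_apply, Matrix.smul_apply, Matrix.one_apply] at this
  simpa [gam, del, vm, Matrix.vandermonde_apply] using this

theorem vm_gam (d : ℕ) (j j' : Fin (d + 1 + d)) :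
    ∑ e : Fin (d + 1 + d), ((j : ℕ) : ℤ) ^ (e : ℕ) * gam d e j' = if j = j' then del d else 0 := by
  have := congrFun (congrFun (Matrix.mul_adjugate (vm d)) j) j'
  rw [Matrix.mul_apply, Matrix.smul_apply, Matrix.one_apply] at this
  simpa [gam, del, vm, Matrix.vandermonde_apply] using this

/-- Scaled coefficients of the interpolating polynomial. -/
def yc (d : ℕ) (u : Fin (d + 1 + d) → ℤ) (e : Fin (d + 1 + d)) : ℤ := ∑ j, gam d e j * u j

/-- Values at the nodes of the polynomial with coefficients `y`. -/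
def enc (d : ℕ) (y : Fin (d + 1 + d) → ℤ) (j : Fin (d + 1 + d)) : ℤ :=
  ∑ k, y k * ((j : ℕ) : ℤ) ^ (k : ℕ)

theorem sum_yc (d : ℕ) (u : Fin (d + 1 + d) → ℤ) (j : Fin (d + 1 + d)) :
    ∑ e, yc d u e * ((j : ℕ) : ℤ) ^ (e : ℕ) = del d * u j := by
  have : ∀ e, yc d u e * ((j : ℕ) : ℤ) ^ (e : ℕ) =
      ∑ j', (((j : ℕ) : ℤ) ^ (e : ℕ) * gam d e j') * u j' := by
    intro e
    rw [yc, Finset.sum_mul]
    exact Finset.sum_congr rfl fun _ _ => by ring
  rw [Finset.sum_congr rfl fun e _ => this e, Finset.sum_comm]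
  simp only [← Finset.sum_mul, vm_gam]
  simp

theorem yc_enc (d : ℕ) (y : Fin (d + 1 + d) → ℤ) (e : Fin (d + 1 + d)) :
    yc d (enc d y) e = del d * y e := by
  have : ∀ j, gam d e j * enc d y j =
      ∑ k : Fin (d + 1 + d), (gam d e j * ((j : ℕ) : ℤ) ^ (k : ℕ)) * y k := by
    intro j
    rw [enc, Finset.mul_sum]
    exact Finset.sum_congr rfl fun _ _ => by ring
  rw [yc, Finset.sum_congr rfl fun j _ => this j, Finset.sum_comm]
  simp only [← Finset.sum_mul, gam_vm]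
  simp

/-- Scaled interpolation weights for evaluation at `R`. -/
def th (d : ℕ) (R : ℤ) (j : Fin (d + 1 + d)) : ℤ := ∑ e : Fin (d + 1 + d), R ^ (e : ℕ) * gam d e j

theorem th_u (d : ℕ) (R : ℤ) (u : Fin (d + 1 + d) → ℤ) :
    ∑ j, th d R j * u j = ∑ e, yc d u e * R ^ (e : ℕ) := by
  simp only [th, yc, Finset.sum_mul]
  rw [Finset.sum_comm]
  exact Finset.sum_congr rfl fun _ _ => Finset.sum_congr rfl fun _ _ => by ring

theorem th_pow (d : ℕ) (R : ℤ) (k : ℕ) (hk : k < d + 1 + d) :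
    ∑ j, th d R j * ((j : ℕ) : ℤ) ^ k = del d * R ^ k := by
  rw [th_u]
  have : ∀ e, yc d (fun j => ((j : ℕ) : ℤ) ^ k) e = if e = ⟨k, hk⟩ then del d else 0 :=
    fun e => gam_vm d e ⟨k, hk⟩
  simp only [this]
  simp

/-- Upper digit positions. -/
def up (d : ℕ) (l : Fin d) : Fin (d + 1 + d) := Fin.natAdd (d + 1) l

/-- Lower digit positions. -/
def lo (d : ℕ) (e : Fin (d + 1)) : Fin (d + 1 + d) := Fin.castAdd d e

theorem split_sum (d : ℕ) (f : Fin (d + 1 + d) → ℤ) (x : ℤ) :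
    ∑ e, f e * x ^ (e : ℕ) =
      ∑ e, f (lo d e) * x ^ (e : ℕ) + ∑ l, f (up d l) * x ^ (d + 1 + (l : ℕ)) := by
  rw [Fin.sum_univ_add]
  rfl

/-- Value of the hidden digits at `x`. -/
def gv (d : ℕ) (x : ℤ) (h : Fin d → ℤ) : ℤ := ∑ l, h l * x ^ (d + 1 + (l : ℕ))

/-- Slope moved to the visible variables. -/
def ph (d : ℕ) (R : ℤ) (j : Fin (d + 1 + d)) : ℤ :=
  ∑ l : Fin d, R ^ (d + 1 + (l : ℕ)) * (((d + 1 + d : ℕ) : ℤ) * gam d (up d l) j)

/-- Group register. -/
def reg (d : ℕ) (j : Fin (d + 1 + d)) (u : ℤ) (h : Fin d → ℤ) (l : Fin d) : ℤ :=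
  del d * h l - ((d + 1 + d : ℕ) : ℤ) * gam d (up d l) j * u

/-- First cost. -/
def c1 (d : ℕ) (R : ℤ) (h : Fin d → ℤ) : ℤ := del d ^ 2 * gv d R h ^ 2

/-- Second cost. -/
def c2 (d : ℕ) (R : ℤ) (j : Fin (d + 1 + d)) (u : ℤ) (h : Fin d → ℤ) : ℤ :=
  del d * th d R j * ((u - gv d ((j : ℕ) : ℤ) h) ^ 2 + 2 * gv d R h * u)

/-- Time. -/
def tm (d : ℕ) (R : ℤ) (y : Fin (d + 1 + d) → ℤ) : ℤ := ∑ e, y e * R ^ (e : ℕ)

/-- First total. -/
def k1 (d : ℕ) (R : ℤ) (y u : Fin (d + 1 + d) → ℤ) (h : Fin (d + 1 + d) → Fin d → ℤ) : ℤ :=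
  ∑ j, (c1 d R (h j) - 2 * del d * tm d R y * (ph d R j * u j))

/-- Second total. -/
def k2 (d : ℕ) (R : ℤ) (y u : Fin (d + 1 + d) → ℤ) (h : Fin (d + 1 + d) → Fin d → ℤ) : ℤ :=
  ∑ j, (c2 d R j (u j) (h j) - 2 * del d * tm d R y * (th d R j * u j))

theorem reg_sum (d : ℕ) (u : Fin (d + 1 + d) → ℤ) (h : Fin (d + 1 + d) → Fin d → ℤ) (l : Fin d) :
    ∑ j, reg d j (u j) (h j) l =
      del d * ∑ j, h j l - ((d + 1 + d : ℕ) : ℤ) * yc d u (up d l) := by
  simp only [reg, Finset.sum_sub_distrib, yc, Finset.mul_sum, mul_assoc]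

theorem k1_valid (d : ℕ) (R : ℤ) (y u : Fin (d + 1 + d) → ℤ) (h : Fin (d + 1 + d) → Fin d → ℤ)
    (hval : ∀ l, ∑ j, reg d j (u j) (h j) l = 0) :
    k1 d R y u h = del d ^ 2 * ∑ j, (gv d R (h j) ^ 2 - 2 * tm d R y * gv d R (h j)) := by
  have h1 : ∑ j, ph d R j * u j = del d * ∑ j, gv d R (h j) := by
    have e1 : ∑ j, ph d R j * u j =
        ∑ l : Fin d, R ^ (d + 1 + (l : ℕ)) * (((d + 1 + d : ℕ) : ℤ) * yc d u (up d l)) := by
      simp only [ph, yc, Finset.sum_mul, Finset.mul_sum]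
      rw [Finset.sum_comm]
      exact Finset.sum_congr rfl fun _ _ => Finset.sum_congr rfl fun _ _ => by ring
    have e2 : ∀ l, ((d + 1 + d : ℕ) : ℤ) * yc d u (up d l) = del d * ∑ j, h j l := by
      intro l
      have := hval l
      rw [reg_sum] at this
      linarith
    rw [e1]
    simp only [e2, gv, Finset.mul_sum]
    rw [Finset.sum_comm]
    exact Finset.sum_congr rfl fun _ _ => Finset.sum_congr rfl fun _ _ => by ring
  rw [k1, Finset.sum_sub_distrib, ← Finset.mul_sum, h1, Finset.sum_sub_distrib, ← Finset.mul_sum]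
  simp only [c1]
  rw [← Finset.mul_sum]
  ring

theorem k2_fibre (d : ℕ) (R : ℤ) (y u : Fin (d + 1 + d) → ℤ) (z : Fin d → ℤ)
    (hz : ∀ l, yc d u (up d l) = del d * z l) :
    k2 d R y u (fun _ => z) = (∑ e, yc d u (lo d e) * R ^ (e : ℕ)) ^ 2 +
      2 * del d * (gv d R z - tm d R y) *
        (∑ e, yc d u (lo d e) * R ^ (e : ℕ) + del d * gv d R z) := by
  set Q := ∑ e, yc d u (lo d e) * R ^ (e : ℕ) with hQ
  have hup : ∀ x : ℤ, ∑ l, yc d u (up d l) * x ^ (d + 1 + (l : ℕ)) = del d * gv d x z := by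
    intro x
    simp only [hz, gv, Finset.mul_sum, mul_assoc]
  have h1 : ∑ j, th d R j * u j = Q + del d * gv d R z := by
    rw [th_u, split_sum, hup]
  have h2 : ∀ j : Fin (d + 1 + d), del d * (u j - gv d ((j : ℕ) : ℤ) z) =
      ∑ e, yc d u (lo d e) * ((j : ℕ) : ℤ) ^ (e : ℕ) := by
    intro j
    have := sum_yc d u j
    rw [split_sum, hup] at this
    linarith
  have h3 : ∑ j, th d R j * (del d * (u j - gv d ((j : ℕ) : ℤ) z)) ^ 2 = del d * Q ^ 2 := by
    have e1 : ∀ j : Fin (d + 1 + d), th d R j * (del d * (u j - gv d ((j : ℕ) : ℤ) z)) ^ 2 =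
        ∑ e : Fin (d + 1), ∑ e' : Fin (d + 1), (yc d u (lo d e) * yc d u (lo d e')) *
          (th d R j * ((j : ℕ) : ℤ) ^ ((e : ℕ) + (e' : ℕ))) := by
      intro j
      rw [h2, sq, Finset.sum_mul_sum, Finset.mul_sum]
      refine Finset.sum_congr rfl fun e _ => ?_
      rw [Finset.mul_sum]
      exact Finset.sum_congr rfl fun e' _ => by ring
    rw [Finset.sum_congr rfl fun j _ => e1 j, Finset.sum_comm, hQ, sq, Finset.sum_mul_sum,
      Finset.mul_sum]
    refine Finset.sum_congr rfl fun e _ => ?_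
    rw [Finset.sum_comm, Finset.mul_sum]
    refine Finset.sum_congr rfl fun e' _ => ?_
    rw [← Finset.mul_sum, th_pow d R _ (by omega)]
    ring
  have h4 : ∑ j, del d * th d R j * (u j - gv d ((j : ℕ) : ℤ) z) ^ 2 = Q ^ 2 := by
    apply mul_left_cancel₀ (del_ne d)
    rw [← h3, Finset.mul_sum]
    exact Finset.sum_congr rfl fun _ _ => by ring
  have h5 : k2 d R y u (fun _ => z) =
      ∑ j, del d * th d R j * (u j - gv d ((j : ℕ) : ℤ) z) ^ 2 +
        2 * del d * (gv d R z - tm d R y) * ∑ j, th d R j * u j := by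
    rw [k2, Finset.mul_sum, ← Finset.sum_add_distrib]
    refine Finset.sum_congr rfl fun _ _ => ?_
    rw [c2]
    ring
  rw [h5, h4, h1]

theorem enc_valid (d : ℕ) (y : Fin (d + 1 + d) → ℤ) (l : Fin d) :
    ∑ j, reg d j (enc d y j) (fun l => y (up d l)) l = 0 := by
  rw [reg_sum d (enc d y) (fun _ l => y (up d l)), yc_enc]
  simp only [Finset.sum_const, Finset.card_univ, Fintype.card_fin, nsmul_eq_mul]
  ring

theorem parab (d : ℕ) (R : ℤ) (hR : 1 ≤ R) (y : Fin (d + 1 + d) → ℤ) (hy0 : ∀ e, 0 ≤ y e)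
    (hy : ∀ e, 2 * y e ≤ R - 1) (h : Fin d → ℤ) (hh : ∀ l, |h l - y (up d l)| ≤ R - 1)
    (hne : h ≠ fun l => y (up d l)) :
    gv d R (fun l => y (up d l)) ^ 2 - 2 * tm d R y * gv d R (fun l => y (up d l)) <
      gv d R h ^ 2 - 2 * tm d R y * gv d R h := by
  set v := ∑ e, y (lo d e) * R ^ (e : ℕ) with hv
  have ht : tm d R y = v + gv d R (fun l => y (up d l)) := by rw [tm, split_sum]; rfl
  have hv0 : 0 ≤ v := Finset.sum_nonneg fun e _ => mul_nonneg (hy0 _) (by positivity)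
  have hv1 : 2 * v ≤ R ^ (d + 1) - 1 := by
    have := digits_bound R hR (d + 1) (fun e => 2 * y (lo d e)) (fun e => by
      rw [abs_of_nonneg (by have := hy0 (lo d e); linarith)]; exact hy _)
    have e1 : ∑ e, 2 * y (lo d e) * R ^ (e : ℕ) = 2 * v := by
      rw [hv, Finset.mul_sum]; exact Finset.sum_congr rfl fun _ _ => by ring
    rw [e1] at this
    exact (le_abs_self _).trans this
  set D := ∑ l, (h l - y (up d l)) * R ^ (l : ℕ) with hD
  have hD0 : D ≠ 0 := by
    intro h0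
    apply hne
    funext l
    have := digits_zero R hR d (fun l => h l - y (up d l)) hh h0 l
    linarith
  have hg : gv d R h = gv d R (fun l => y (up d l)) + R ^ (d + 1) * D := by
    rw [hD, gv, gv, Finset.mul_sum, ← Finset.sum_add_distrib]
    exact Finset.sum_congr rfl fun _ _ => by ring
  have hp : (0 : ℤ) < R ^ (d + 1) := by positivity
  rw [hg, ht]
  set G := gv d R (fun l => y (up d l))
  set P := R ^ (d + 1)
  have : 0 < (P * D) * (P * D - 2 * v) := by
    rcases lt_or_gt_of_ne hD0 with hn | hq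
    · have : P * D < 0 := mul_neg_of_pos_of_neg hp hn
      exact mul_pos_of_neg_of_neg this (by linarith)
    · have h1 : P ≤ P * D := le_mul_of_one_le_right hp.le hq
      exact mul_pos (by linarith) (by linarith)
  nlinarith

theorem key (d : ℕ) (R : ℤ) (hR : 1 ≤ R) (y u : Fin (d + 1 + d) → ℤ)
    (h : Fin (d + 1 + d) → Fin d → ℤ) (hy0 : ∀ e, 0 ≤ y e) (hy : ∀ e, 2 * y e ≤ R - 1)
    (hh : ∀ j l, |h j l - y (up d l)| ≤ R - 1) (hu : ∀ e, |yc d u e - del d * y e| ≤ R - 1)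
    (hval : ∀ l, ∑ j, reg d j (u j) (h j) l = 0)
    (hne : ¬ (u = enc d y ∧ h = fun _ l => y (up d l))) :
    0 < k1 d R y u h - k1 d R y (enc d y) (fun _ l => y (up d l)) ∨
      (k1 d R y u h - k1 d R y (enc d y) (fun _ l => y (up d l)) = 0 ∧
        0 < k2 d R y u h - k2 d R y (enc d y) (fun _ l => y (up d l))) := by
  have hd2 : 0 < del d ^ 2 := by have := del_ne d; positivity
  rw [k1_valid d R y u h hval, k1_valid d R y (enc d y) _ (enc_valid d y)]
  by_cases hz : h = fun _ l => y (up d l)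
  · right
    subst hz
    refine ⟨sub_self _, ?_⟩
    have hq : ((d + 1 + d : ℕ) : ℤ) ≠ 0 := by positivity
    have h1 : ∀ l, yc d u (up d l) = del d * y (up d l) := by
      intro l
      have := hval l
      rw [reg_sum d u (fun _ l => y (up d l))] at this
      simp only [Finset.sum_const, Finset.card_univ, Fintype.card_fin, nsmul_eq_mul] at this
      apply mul_left_cancel₀ hq
      linarith
    rw [k2_fibre d R y u _ h1, k2_fibre d R y (enc d y) _ (fun l => yc_enc d y _)]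
    have ht : tm d R y = ∑ e, y (lo d e) * R ^ (e : ℕ) + gv d R (fun l => y (up d l)) := by
      rw [tm, split_sum]; rfl
    have h2 : ∑ e, yc d (enc d y) (lo d e) * R ^ (e : ℕ) =
        del d * ∑ e, y (lo d e) * R ^ (e : ℕ) := by
      simp only [yc_enc, Finset.mul_sum, mul_assoc]
    rw [h2, ht]
    have h3 : ∑ e, yc d u (lo d e) * R ^ (e : ℕ) - del d * ∑ e, y (lo d e) * R ^ (e : ℕ) ≠ 0 := by
      intro h0
      apply hne
      refine ⟨?_, rfl⟩
      have e1 : ∑ e, (yc d u (lo d e) - del d * y (lo d e)) * R ^ (e : ℕ) = 0 := by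
        rw [← h0, Finset.mul_sum, ← Finset.sum_sub_distrib]
        exact Finset.sum_congr rfl fun _ _ => by ring
      have e2 := digits_zero R hR (d + 1) _ (fun e => hu (lo d e)) e1
      funext j
      apply mul_left_cancel₀ (del_ne d)
      rw [← sum_yc, ← sum_yc, split_sum, split_sum]
      simp only [yc_enc, h1]
      congr 1
      refine Finset.sum_congr rfl fun e _ => ?_
      have := e2 e
      rw [sub_eq_zero] at this
      rw [this]
    have h4 := sq_pos_of_ne_zero h3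
    nlinarith
  · left
    rw [← mul_sub]
    refine mul_pos hd2 (sub_pos.2 ?_)
    obtain ⟨j, hj⟩ := Function.ne_iff.1 hz
    refine Finset.sum_lt_sum (fun j' _ => ?_) ⟨j, Finset.mem_univ _, ?_⟩
    · by_cases h0 : h j' = fun l => y (up d l)
      · rw [h0]
      · exact (parab d R hR y hy0 hy _ (hh j') h0).le
    · exact parab d R hR y hy0 hy _ (hh j) hj

end Pool.Agent.Work.MP_97f157_lc.Quad
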