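import Mathlib

set_option autoImplicit false

open Polynomial Finset Filter Topology

namespace Pool.Agent.Work.MP_97f157_lc.Quad

/-- Extraction of the constant term of a Laurent polynomial by interpolation. -/
theorem exists_extract (N B : ℕ) (h : 2 * B < N) :
    ∃ β : Fin N → ℝ, ∀ S : ℤ, |S| ≤ B →
      ∑ i, β i * ((i : ℝ) + 1) ^ S = if S = 0 then 1 else 0 := by
  classical
  set v : Fin N → ℝ := fun i => (i : ℝ) + 1 with hv
  have hinj : Function.Injective v := by
    intro i j hij
    have : (i : ℝ) = j := by simpa [hv] using hij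
    exact Fin.ext (by exact_mod_cast this)
  have hdet : (Matrix.vandermonde v).det ≠ 0 := Matrix.det_vandermonde_ne_zero_iff.2 hinj
  have hB : B < N := by omega
  set Γ := (Matrix.vandermonde v)⁻¹ with hΓ
  have hmul : Γ * Matrix.vandermonde v = 1 :=
    Matrix.nonsing_inv_mul _ (Ne.isUnit hdet)
  refine ⟨fun i => Γ ⟨B, hB⟩ i * v i ^ B, fun S hS => ?_⟩
  have h1 := abs_le.1 hS
  obtain ⟨k, hk⟩ : ∃ k : ℕ, (k : ℤ) = S + B := ⟨(S + B).toNat, by omega⟩
  have hkN : k < N := by omega
  have h2 := congrFun (congrFun hmul ⟨B, hB⟩) ⟨k, hkN⟩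
  rw [Matrix.mul_apply, Matrix.one_apply] at h2
  have h3 : ∀ i : Fin N, Γ ⟨B, hB⟩ i * v i ^ B * ((i : ℝ) + 1) ^ S
      = Γ ⟨B, hB⟩ i * Matrix.vandermonde v i ⟨k, hkN⟩ := by
    intro i
    have hpos : (0 : ℝ) < (i : ℝ) + 1 := by positivity
    rw [Matrix.vandermonde_apply, mul_assoc]
    congr 1
    simp only [hv]
    rw [← zpow_natCast, ← zpow_natCast, ← zpow_add₀ hpos.ne', hk, add_comm (B : ℤ) S]
  rw [Finset.sum_congr rfl fun i _ => h3 i, h2]
  by_cases h0 : S = 0
  · have : B = k := by omega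
    simp [h0, this]
  · have : B ≠ k := by omega
    simp [h0, this, Fin.ext_iff]

/-- The tropical realisation lemma with natural exponents. -/
theorem trop_core {ι T H τ : Type} [Fintype ι] [DecidableEq ι] [Fintype T] [Fintype H]
    [Fintype τ] (j₀ : ι) (d N B : ℕ) (hN : 2 * B < N)
    (a : ι → T → ℕ) (c σ : ι → T × H → ℝ) (hσ : ∀ j r, σ j r ^ 2 = 1)
    (g : ι → T × H → Fin d → ℤ)
    (hg : ∀ w : ι → T × H, ∀ l, |∑ j, g j (w j) l| ≤ B)
    (lam : τ → ℝ) (X : τ → ι → T × H) (hX : ∀ p l, ∑ j, g j (X p j) l = 0)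
    (hmin : ∀ p w, (∀ l, ∑ j, g j (w j) l = 0) → w ≠ X p →
      ∑ j, (c j (X p j) - lam p * a j (X p j).1) < ∑ j, (c j (w j) - lam p * a j (w j).1)) :
    ∃ s : ℝ, 0 < s ∧ ∃ F : (Fin d → Fin N) → ι → ℝ[X],
      (∀ i j, (F i j).support.card ≤ Fintype.card T) ∧
      ∀ p, 0 < (∏ j, σ j (X p j)) * eval (Real.exp (s * lam p)) (∑ i, ∏ j, F i j) := by
  classical
  obtain ⟨β, hβ⟩ := exists_extract N B hN
  set cost : τ → (ι → T × H) → ℝ := fun p w => ∑ j, (c j (w j) - lam p * a j (w j).1) with hcost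
  set valid : (ι → T × H) → Prop := fun w => ∀ l, ∑ j, g j (w j) l = 0 with hvalid
  set E : τ → ℝ → ℝ := fun p s => ∑ w : ι → T × H,
    if valid w then (∏ j, σ j (X p j)) * (∏ j, σ j (w j)) *
      Real.exp (-(s * (cost p w - cost p (X p)))) else 0 with hE
  have hlim : ∀ p, Tendsto (E p) atTop (𝓝 1) := by
    intro p
    have : (1 : ℝ) = ∑ w : ι → T × H, if w = X p then 1 else 0 := by simp
    rw [this]
    refine tendsto_finset_sum _ fun w _ => ?_
    by_cases hw : w = X p
    · subst hw
      have hv : valid (X p) := hX p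
      have h1 : (∏ j, σ j (X p j)) * (∏ j, σ j (X p j)) = 1 := by
        rw [← Finset.prod_mul_distrib]
        exact Finset.prod_eq_one fun j _ => by rw [← sq, hσ]
      simp [hv, h1]
    · by_cases hv : valid w
      · simp only [hv, hw, if_true, if_false]
        have hgap : 0 < cost p w - cost p (X p) := sub_pos.2 (hmin p w hv hw)
        have h2 : Tendsto (fun s : ℝ => Real.exp (-(s * (cost p w - cost p (X p))))) atTop (𝓝 0) :=
          Real.tendsto_exp_neg_atTop_nhds_zero.comp (tendsto_id.atTop_mul_const hgap)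
        simpa using h2.const_mul ((∏ j, σ j (X p j)) * (∏ j, σ j (w j)))
      · simp [hv, hw]
  have hev : ∀ᶠ s in atTop, 0 < s ∧ ∀ p, 0 < E p s := by
    refine (eventually_gt_atTop 0).and (Filter.eventually_all.2 fun p => ?_)
    exact (hlim p).eventually (lt_mem_nhds one_pos)
  obtain ⟨s, hs, hpos⟩ := hev.exists
  set b : (Fin d → Fin N) → ι → ℝ := fun i j => if j = j₀ then ∏ l, β (i l) else 1 with hb
  have hbprod : ∀ i, ∏ j, b i j = ∏ l, β (i l) := by
    intro i
    simp [hb]
  set co : (Fin d → Fin N) → ι → T × H → ℝ := fun i j r =>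
    b i j * σ j r * Real.exp (-(s * c j r)) * ∏ l, (((i l : ℕ) : ℝ) + 1) ^ (g j r l) with hco
  refine ⟨s, hs, fun i j => ∑ r : T × H, monomial (a j r.1) (co i j r), ?_, ?_⟩
  · intro i j
    have hsub : (∑ r : T × H, monomial (a j r.1) (co i j r)).support ⊆
        Finset.univ.image (a j) := by
      intro e he
      rw [mem_support_iff, finset_sum_coeff] at he
      obtain ⟨r, -, hr⟩ := Finset.exists_ne_zero_of_sum_ne_zero he
      rw [coeff_monomial] at hr
      have : a j r.1 = e := by
        by_contra hne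
        simp [hne] at hr
      exact Finset.mem_image.2 ⟨r.1, Finset.mem_univ _, this⟩
    exact (Finset.card_le_card hsub).trans (Finset.card_image_le.trans (by simp))
  · intro p
    have key : eval (Real.exp (s * lam p)) (∑ i : Fin d → Fin N, ∏ j,
        ∑ r : T × H, monomial (a j r.1) (co i j r)) =
        ∑ w : ι → T × H, if valid w then (∏ j, σ j (w j)) * Real.exp (-(s * cost p w)) else 0 := by
      rw [eval_finset_sum]
      simp only [eval_prod, eval_finset_sum, eval_monomial]
      simp only [Finset.prod_univ_sum, Fintype.piFinset_univ]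
      rw [Finset.sum_comm]
      refine Finset.sum_congr rfl fun w _ => ?_
      have h1 : ∀ i : Fin d → Fin N,
          ∏ j, co i j (w j) * Real.exp (s * lam p) ^ a j (w j).1 =
          ((∏ j, σ j (w j)) * Real.exp (-(s * cost p w))) *
            ∏ l, (β (i l) * (((i l : ℕ) : ℝ) + 1) ^ (∑ j, g j (w j) l)) := by
        intro i
        have e1 : Real.exp (-(s * cost p w)) =
            ∏ j, (Real.exp (-(s * c j (w j))) * Real.exp (s * lam p) ^ a j (w j).1) := by
          simp only [hcost]
          rw [Finset.mul_sum, ← Finset.sum_neg_distrib, Real.exp_sum]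
          refine Finset.prod_congr rfl fun j _ => ?_
          rw [← Real.exp_nat_mul, ← Real.exp_add]
          congr 1
          ring
        have e2 : ∏ l, (((i l : ℕ) : ℝ) + 1) ^ (∑ j, g j (w j) l) =
            ∏ j, ∏ l, (((i l : ℕ) : ℝ) + 1) ^ (g j (w j) l) := by
          rw [Finset.prod_comm]
          refine Finset.prod_congr rfl fun l _ => ?_
          have hne : (((i l : ℕ) : ℝ) + 1) ≠ 0 := by positivity
          induction (Finset.univ : Finset ι) using Finset.induction_on with
          | empty => simp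
          | insert x t hx ih => rw [Finset.sum_insert hx, Finset.prod_insert hx, zpow_add₀ hne, ih]
        rw [Finset.prod_mul_distrib (f := fun l => β (i l)), e1, e2, ← hbprod]
        simp only [hco, ← Finset.prod_mul_distrib]
        refine Finset.prod_congr rfl fun j _ => ?_
        ring
      rw [Finset.sum_congr rfl fun i _ => h1 i, ← Finset.mul_sum]
      have h2 : ∑ i : Fin d → Fin N,
          ∏ l, (β (i l) * (((i l : ℕ) : ℝ) + 1) ^ (∑ j, g j (w j) l)) =
          ∏ l, ∑ x : Fin N, β x * (((x : ℕ) : ℝ) + 1) ^ (∑ j, g j (w j) l) := by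
        rw [Finset.prod_univ_sum, Fintype.piFinset_univ]
      rw [h2, Finset.prod_congr rfl fun l _ => hβ _ (hg w l)]
      by_cases hv : valid w
      · have : ∀ l, ∑ j, g j (w j) l = 0 := hv
        simp [hv, this]
      · obtain ⟨l, hl⟩ := not_forall.1 hv
        rw [Finset.prod_eq_zero (Finset.mem_univ l) (by simp [hl])]
        simp [hv]
    rw [key]
    have h3 : (∏ j, σ j (X p j)) * (∑ w : ι → T × H,
        if valid w then (∏ j, σ j (w j)) * Real.exp (-(s * cost p w)) else 0) =
        Real.exp (-(s * cost p (X p))) * E p s := by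
      simp only [hE, Finset.mul_sum]
      refine Finset.sum_congr rfl fun w _ => ?_
      split_ifs
      · have : Real.exp (-(s * cost p w)) = Real.exp (-(s * cost p (X p))) *
            Real.exp (-(s * (cost p w - cost p (X p)))) := by
          rw [← Real.exp_add]; congr 1; ring
        rw [this]; ring
      · simp
    rw [h3]
    exact mul_pos (Real.exp_pos _) (hpos p)

/-- The tropical realisation lemma with integer exponents. -/
theorem trop {ι T H τ : Type} [Fintype ι] [DecidableEq ι] [Fintype T] [Fintype H]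
    [Fintype τ] (j₀ : ι) (d N B : ℕ) (hN : 2 * B < N)
    (a : ι → T → ℤ) (c σ : ι → T × H → ℝ) (hσ : ∀ j r, σ j r ^ 2 = 1)
    (g : ι → T × H → Fin d → ℤ)
    (hg : ∀ w : ι → T × H, ∀ l, |∑ j, g j (w j) l| ≤ B)
    (lam : τ → ℝ) (X : τ → ι → T × H) (hX : ∀ p l, ∑ j, g j (X p j) l = 0)
    (hmin : ∀ p w, (∀ l, ∑ j, g j (w j) l = 0) → w ≠ X p →
      ∑ j, (c j (X p j) - lam p * a j (X p j).1) < ∑ j, (c j (w j) - lam p * a j (w j).1)) :
    ∃ s : ℝ, 0 < s ∧ ∃ F : (Fin d → Fin N) → ι → ℝ[X],
      (∀ i j, (F i j).support.card ≤ Fintype.card T) ∧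
      ∀ p, 0 < (∏ j, σ j (X p j)) * eval (Real.exp (s * lam p)) (∑ i, ∏ j, F i j) := by
  have hcast : ∀ j r, (((a j r + ∑ r', |a j r'|).toNat : ℕ) : ℝ) =
      (a j r : ℝ) + ((∑ r', |a j r'| : ℤ) : ℝ) := by
    intro j r
    have h1 : |a j r| ≤ ∑ r', |a j r'| :=
      Finset.single_le_sum (f := fun r' => |a j r'|) (fun _ _ => abs_nonneg _) (Finset.mem_univ r)
    have h2 : 0 ≤ a j r + ∑ r', |a j r'| := by
      have := neg_abs_le (a j r)
      linarith
    have h3 : (((a j r + ∑ r', |a j r'|).toNat : ℕ) : ℤ) = a j r + ∑ r', |a j r'| :=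
      Int.toNat_of_nonneg h2
    exact_mod_cast congrArg (fun z : ℤ => (z : ℝ)) h3
  refine trop_core j₀ d N B hN (fun j r => (a j r + ∑ r', |a j r'|).toNat) c σ hσ g hg lam X hX ?_
  intro p w hw hne
  have := hmin p w hw hne
  simp only [hcast, mul_add, ← sub_sub, Finset.sum_sub_distrib] at this ⊢
  linarith

end Pool.Agent.Work.MP_97f157_lc.Quad
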