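import Mathlib
import Pool.Agent.Work.MP_97f157_lc.QuadTrop
import Pool.Agent.Work.MP_97f157_lc.QuadKey

set_option autoImplicit false

open Finset Polynomial

namespace Pool.Agent.Work.MP_97f157_lc.Quad

/-- Bound on the node values per unit digit. -/
def cu (d : ℕ) : ℕ := 1 + ∑ j : Fin (d + 1 + d), ∑ k : Fin (d + 1 + d), (j : ℕ) ^ (k : ℕ)

/-- Bound on the registers per unit digit. -/
def cb (d : ℕ) : ℕ :=
  (d + 1 + d) * (del d).natAbs +
    (d + 1 + d) * (∑ e : Fin (d + 1 + d), ∑ j : Fin (d + 1 + d), (gam d e j).natAbs) * cu d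

/-- Node values for natural digits. -/
def encN (d n : ℕ) (y : Fin (d + 1 + d) → Fin (n + 1)) (j : Fin (d + 1 + d)) : ℕ :=
  ∑ k, (y k : ℕ) * (j : ℕ) ^ (k : ℕ)

theorem encN_lt (d n : ℕ) (hn : 1 ≤ n) (y : Fin (d + 1 + d) → Fin (n + 1)) (j : Fin (d + 1 + d)) :
    encN d n y j < cu d * n := by
  have h1 : encN d n y j ≤ (∑ k : Fin (d + 1 + d), (j : ℕ) ^ (k : ℕ)) * n := by
    rw [encN, Finset.sum_mul]
    refine Finset.sum_le_sum fun k _ => ?_
    rw [mul_comm]
    exact Nat.mul_le_mul_left _ (Nat.lt_succ_iff.1 (y k).2)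
  have h2 : (∑ k : Fin (d + 1 + d), (j : ℕ) ^ (k : ℕ)) ≤
      ∑ j : Fin (d + 1 + d), ∑ k : Fin (d + 1 + d), (j : ℕ) ^ (k : ℕ) :=
    Finset.single_le_sum (f := fun j : Fin (d + 1 + d) => ∑ k : Fin (d + 1 + d), (j : ℕ) ^ (k : ℕ))
      (fun _ _ => Nat.zero_le _) (Finset.mem_univ j)
  have h3 := Nat.mul_le_mul_right n h2
  rw [cu, add_mul]
  omega

theorem encN_cast (d n : ℕ) (y : Fin (d + 1 + d) → Fin (n + 1)) (j : Fin (d + 1 + d)) :
    (encN d n y j : ℤ) = enc d (fun k => ((y k : ℕ) : ℤ)) j := by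
  simp [encN, enc]

theorem encN_zero (d n : ℕ) (y : Fin (d + 1 + d) → Fin (n + 1)) :
    encN d n y (lo d 0) = y (lo d 0) := by
  rw [encN, Finset.sum_eq_single (lo d 0)]
  · simp [lo]
  · intro k _ hk
    have : (k : ℕ) ≠ 0 := fun h => hk (Fin.ext (by simpa [lo] using h))
    simp [lo, this]
  · simp

theorem reg_bound (d n : ℕ) (w : Fin (d + 1 + d) → Fin (cu d * n) × (Fin d → Fin (n + 1)))
    (l : Fin d) :
    |∑ j, reg d j ((w j).1 : ℕ) (fun l => (((w j).2 l : ℕ) : ℤ)) l| ≤ ((cb d * n : ℕ) : ℤ) := by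
  refine (Finset.abs_sum_le_sum_abs _ _).trans ?_
  have h1 : ∀ j, |reg d j ((w j).1 : ℕ) (fun l => (((w j).2 l : ℕ) : ℤ)) l| ≤
      |del d| * n + ((d + 1 + d : ℕ) : ℤ) * |gam d (up d l) j| * ((cu d : ℤ) * n) := by
    intro j
    rw [reg]
    refine (abs_sub _ _).trans (add_le_add ?_ ?_)
    · rw [abs_mul, Nat.abs_cast]
      refine mul_le_mul_of_nonneg_left ?_ (abs_nonneg _)
      exact_mod_cast Nat.lt_succ_iff.1 ((w j).2 l).2
    · rw [abs_mul, abs_mul, Nat.abs_cast, Nat.abs_cast]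
      refine mul_le_mul_of_nonneg_left ?_ (by positivity)
      exact_mod_cast (w j).1.2.le
  refine (Finset.sum_le_sum fun j _ => h1 j).trans ?_
  have h2 : ∑ j, |gam d (up d l) j| ≤ ∑ e, ∑ j, |gam d e j| :=
    Finset.single_le_sum (f := fun e => ∑ j, |gam d e j|)
      (fun _ _ => Finset.sum_nonneg fun _ _ => abs_nonneg _) (Finset.mem_univ _)
  rw [Finset.sum_add_distrib, ← Finset.sum_mul, ← Finset.sum_mul, ← Finset.mul_sum]
  simp only [Finset.sum_const, Finset.card_univ, Fintype.card_fin, nsmul_eq_mul, cb]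
  push_cast
  have h3 : ((d : ℤ) + 1 + d) * (∑ j, |gam d (up d l) j|) * ((cu d : ℤ) * n) ≤
      ((d : ℤ) + 1 + d) * (∑ e, ∑ j, |gam d e j|) * ((cu d : ℤ) * n) := by
    gcongr
  nlinarith

theorem signs (d n : ℕ) (hn : 1 ≤ n) (N : ℕ) (hN : 2 * (cb d * n) < N) :
    ∃ (R : ℤ) (s : ℝ), 1 ≤ R ∧ (n : ℤ) ≤ R - 1 ∧ s ≠ 0 ∧
      ∃ F : (Fin d → Fin N) → Fin (d + 1 + d) → ℝ[X],
        (∀ i j, (F i j).support.card ≤ cu d * n) ∧
        ∀ p : Fin (d + 1 + d) → Fin (n + 1), 0 < (-1) ^ (p (lo d 0) : ℕ) *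
          eval (Real.exp (s * (tm d R (fun k => ((p k : ℕ) : ℤ)) : ℝ))) (∑ i, ∏ j, F i j) := by
  classical
  obtain ⟨R, hR1, hR2⟩ : ∃ R : ℤ, 2 * (n : ℤ) ≤ R - 1 ∧
      ∀ (u : Fin (d + 1 + d) → Fin (cu d * n)) (y : Fin (d + 1 + d) → Fin (n + 1)) e,
        |yc d (fun j => ((u j : ℕ) : ℤ)) e - del d * ((y e : ℕ) : ℤ)| ≤ R - 1 := by
    set f : (Fin (d + 1 + d) → Fin (cu d * n)) × (Fin (d + 1 + d) → Fin (n + 1)) ×
        Fin (d + 1 + d) → ℤ := fun z =>
      |yc d (fun j => ((z.1 j : ℕ) : ℤ)) z.2.2 - del d * ((z.2.1 z.2.2 : ℕ) : ℤ)| with hf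
    have hf0 : ∀ z, 0 ≤ f z := fun z => abs_nonneg _
    have hs : 0 ≤ ∑ z, f z := Finset.sum_nonneg fun z _ => hf0 z
    refine ⟨1 + 2 * n + ∑ z, f z, by linarith, fun u y e => ?_⟩
    have : f (u, y, e) ≤ ∑ z, f z := Finset.single_le_sum (fun z _ => hf0 z) (Finset.mem_univ _)
    have hn0 : (0 : ℤ) ≤ n := by positivity
    simp only [hf] at this ⊢
    linarith
  have hn0 : (0 : ℤ) ≤ n := by positivity
  have hR : 1 ≤ R := by linarith
  let T := Fin (cu d * n)
  let H := Fin d → Fin (n + 1)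
  let τ := Fin (d + 1 + d) → Fin (n + 1)
  let yz : τ → Fin (d + 1 + d) → ℤ := fun p k => ((p k : ℕ) : ℤ)
  let uz : (Fin (d + 1 + d) → T × H) → Fin (d + 1 + d) → ℤ := fun w j => (((w j).1 : ℕ) : ℤ)
  let hz : (Fin (d + 1 + d) → T × H) → Fin (d + 1 + d) → Fin d → ℤ :=
    fun w j l => (((w j).2 l : ℕ) : ℤ)
  let X : τ → Fin (d + 1 + d) → T × H :=
    fun p j => (⟨encN d n p j, encN_lt d n hn p j⟩, fun l => p (up d l))
  have hXu : ∀ p, uz (X p) = enc d (yz p) := fun p => funext fun j => encN_cast d n p j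
  have hXh : ∀ p, hz (X p) = fun _ l => yz p (up d l) := fun p => rfl
  obtain ⟨A, hA⟩ := lex_weight (κ := τ × (Fin (d + 1 + d) → T × H))
    (fun z => k1 d R (yz z.1) (uz z.2) (hz z.2) -
      k1 d R (yz z.1) (enc d (yz z.1)) (fun _ l => yz z.1 (up d l)))
    (fun z => k2 d R (yz z.1) (uz z.2) (hz z.2) -
      k2 d R (yz z.1) (enc d (yz z.1)) (fun _ l => yz z.1 (up d l)))
  have hcost : ∀ (p : τ) (w : Fin (d + 1 + d) → T × H),
      ∑ j, (((A * c1 d R (hz w j) + c2 d R j (uz w j) (hz w j) : ℤ) : ℝ) -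
        ((2 * del d * tm d R (yz p) : ℤ) : ℝ) * (((A * ph d R j + th d R j) * uz w j : ℤ) : ℝ)) =
      ((A * k1 d R (yz p) (uz w) (hz w) + k2 d R (yz p) (uz w) (hz w) : ℤ) : ℝ) := by
    intro p w
    have : ∑ j, ((A * c1 d R (hz w j) + c2 d R j (uz w j) (hz w j)) -
        (2 * del d * tm d R (yz p)) * ((A * ph d R j + th d R j) * uz w j)) =
        A * k1 d R (yz p) (uz w) (hz w) + k2 d R (yz p) (uz w) (hz w) := by
      rw [k1, k2, Finset.mul_sum, ← Finset.sum_add_distrib]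
      exact Finset.sum_congr rfl fun _ _ => by ring
    rw [← this]
    push_cast
    rfl
  obtain ⟨s, hs, F, hF, hsign⟩ := trop (ι := Fin (d + 1 + d)) (T := T) (H := H) (τ := τ)
    (lo d 0) d N (cb d * n) hN
    (fun j u => (A * ph d R j + th d R j) * ((u : ℕ) : ℤ))
    (fun j r => ((A * c1 d R (fun l => ((r.2 l : ℕ) : ℤ)) +
      c2 d R j ((r.1 : ℕ) : ℤ) (fun l => ((r.2 l : ℕ) : ℤ)) : ℤ) : ℝ))
    (fun j r => if j = lo d 0 then (-1) ^ (r.1 : ℕ) else 1)
    (fun j r => by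
      split_ifs
      · rw [← pow_mul, mul_comm, pow_mul]; simp
      · simp)
    (fun j r => reg d j ((r.1 : ℕ) : ℤ) (fun l => ((r.2 l : ℕ) : ℤ)))
    (reg_bound d n)
    (fun p => ((2 * del d * tm d R (yz p) : ℤ) : ℝ)) X
    (fun p l => by
      have := enc_valid d (yz p) l
      rw [← hXu p] at this
      exact this)
    (fun p w hw hne => by
      have h1 := hcost p w
      have h2 := hcost p (X p)
      rw [hXu, hXh] at h2
      have h3 := hA (p, w) (key d R hR (yz p) (uz w) (hz w) (fun e => by positivity)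
        (fun e => by
          have : ((p e : ℕ) : ℤ) ≤ n := by exact_mod_cast Nat.lt_succ_iff.1 (p e).2
          simp only [yz]; linarith)
        (fun j l => by
          have e1 : (((w j).2 l : ℕ) : ℤ) ≤ n := by
            exact_mod_cast Nat.lt_succ_iff.1 ((w j).2 l).2
          have e2 : ((p (up d l) : ℕ) : ℤ) ≤ n := by
            exact_mod_cast Nat.lt_succ_iff.1 (p (up d l)).2
          have e3 : (0 : ℤ) ≤ (((w j).2 l : ℕ) : ℤ) := by positivity
          have e4 : (0 : ℤ) ≤ ((p (up d l) : ℕ) : ℤ) := by positivity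
          simp only [yz, hz]
          rw [abs_le]
          constructor <;> linarith)
        (hR2 (fun j => (w j).1) p) hw
        (fun hc => by
          apply hne
          funext j
          refine Prod.ext (Fin.ext ?_) (funext fun l => Fin.ext ?_)
          · have := congrFun (hc.1.trans (hXu p).symm) j
            simp only [uz] at this
            exact_mod_cast this
          · have := congrFun (congrFun (hc.2.trans (hXh p).symm) j) l
            simp only [hz] at this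
            exact_mod_cast this))
      have h4 : A * k1 d R (yz p) (enc d (yz p)) (fun _ l => yz p (up d l)) +
          k2 d R (yz p) (enc d (yz p)) (fun _ l => yz p (up d l)) <
          A * k1 d R (yz p) (uz w) (hz w) + k2 d R (yz p) (uz w) (hz w) := by
        simp only at h3
        linarith
      have h5 := (Int.cast_lt (R := ℝ)).2 h4
      rw [← h1, ← h2, ← hXu] at h5
      exact h5)
  refine ⟨R, s * (2 * del d), hR, by linarith, ?_, F, fun i j => by simpa [T] using hF i j,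
    fun p => ?_⟩
  · have : (del d : ℝ) ≠ 0 := by exact_mod_cast del_ne d
    positivity
  · have := hsign p
    rw [Finset.prod_ite_eq' Finset.univ (lo d 0) (fun j => (-1 : ℝ) ^ ((X p j).1 : ℕ))] at this
    simp only [Finset.mem_univ, if_true, X, encN_zero] at this
    convert this using 4
    push_cast
    ring

theorem main (d m : ℕ) (hm : m = d + 1 + d) : ∃ C : ℕ, ∀ n : ℕ, 1 ≤ n →
    ∃ F : Fin ((C * n) ^ d) → Fin m → ℝ[X],
      (∀ i j, (F i j).support.card ≤ C * n) ∧ (∑ i, ∏ j, F i j) ≠ 0 ∧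
        n ^ m ≤ (∑ i, ∏ j, F i j).roots.toFinset.card := by
  classical
  subst hm
  refine ⟨2 * cb d + cu d, fun n hn => ?_⟩
  have hcu : 1 ≤ cu d := by rw [cu]; omega
  obtain ⟨R, s, hR, hRn, hs, F, hF, hsign⟩ := signs d n hn ((2 * cb d + cu d) * n) (by nlinarith)
  have hsum : ∑ i, ∏ j, F (finFunctionFinEquiv.symm i) j = ∑ i, ∏ j, F i j :=
    Equiv.sum_comp finFunctionFinEquiv.symm (fun i => ∏ j, F i j)
  refine ⟨fun i => F (finFunctionFinEquiv.symm i), fun i j => (hF _ j).trans (by nlinarith), ?_⟩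
  rw [hsum]
  set P := ∑ i, ∏ j, F i j with hP
  have hP0 : P ≠ 0 := by
    intro h0
    have := hsign 0
    simp [h0] at this
  refine ⟨hP0, ?_⟩
  have hroot : ∀ y : Fin (d + 1 + d) → Fin n, ∃ x : ℝ,
      x ∈ Set.Ioo (tm d R (fun k => ((y k : ℕ) : ℤ)) : ℝ) (tm d R (fun k => ((y k : ℕ) : ℤ)) + 1) ∧
        eval (Real.exp (s * x)) P = 0 := by
    intro y
    have h0 := hsign (fun k => (y k).castSucc)
    have h1 := hsign (Function.update (fun k => (y k).castSucc) (lo d 0) (y (lo d 0)).succ)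
    have ht : tm d R (fun k => (((Function.update (fun k => (y k).castSucc) (lo d 0)
        (y (lo d 0)).succ k : Fin (n + 1)) : ℕ) : ℤ)) = tm d R (fun k => ((y k : ℕ) : ℤ)) + 1 := by
      have : ∀ k, (((Function.update (fun k => (y k).castSucc) (lo d 0)
          (y (lo d 0)).succ k : Fin (n + 1)) : ℕ) : ℤ) * R ^ (k : ℕ) =
          ((y k : ℕ) : ℤ) * R ^ (k : ℕ) + if k = lo d 0 then 1 else 0 := by
        intro k
        by_cases hk : k = lo d 0
        · subst hk
          simp [lo]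
        · simp [hk]
      simp only [tm, this, Finset.sum_add_distrib]
      simp
    rw [ht] at h1
    simp only [Function.update_self, Fin.val_succ, Fin.val_castSucc] at h0 h1
    set a : ℝ := (tm d R (fun k => ((y k : ℕ) : ℤ)) : ℝ) with ha
    have hcont : Continuous fun x : ℝ => (-1 : ℝ) ^ (y (lo d 0) : ℕ) * eval (Real.exp (s * x)) P :=
      continuous_const.mul (P.continuous.comp (by fun_prop))
    have := intermediate_value_Ioo' (by linarith : a ≤ a + 1) hcont.continuousOn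
      (show (0 : ℝ) ∈ Set.Ioo _ _ from ⟨by
        push_cast at h1
        rw [pow_succ] at h1
        linarith, h0⟩)
    obtain ⟨x, hx, hx0⟩ := this
    refine ⟨x, hx, ?_⟩
    simpa using hx0
  choose x hx hx0 using hroot
  have hcard : n ^ (d + 1 + d) = (Finset.univ : Finset (Fin (d + 1 + d) → Fin n)).card := by simp
  rw [hcard]
  refine Finset.card_le_card_of_injOn (fun y => Real.exp (s * x y)) (fun y _ => ?_) ?_
  · simp only [Finset.mem_coe, Multiset.mem_toFinset]
    exact (mem_roots hP0).2 (hx0 y)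
  · intro y _ y' _ hyy
    have h1 : x y = x y' := mul_left_cancel₀ hs (Real.exp_injective hyy)
    have h2 := hx y
    have h3 := hx y'
    rw [h1] at h2
    have h4 : tm d R (fun k => ((y k : ℕ) : ℤ)) = tm d R (fun k => ((y' k : ℕ) : ℤ)) := by
      have e1 : (tm d R (fun k => ((y k : ℕ) : ℤ)) : ℝ) < tm d R (fun k => ((y' k : ℕ) : ℤ)) + 1 :=
        h2.1.trans h3.2
      have e2 : (tm d R (fun k => ((y' k : ℕ) : ℤ)) : ℝ) < tm d R (fun k => ((y k : ℕ) : ℤ)) + 1 :=
        h3.1.trans h2.2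
      have e3 : tm d R (fun k => ((y k : ℕ) : ℤ)) < tm d R (fun k => ((y' k : ℕ) : ℤ)) + 1 := by
        exact_mod_cast e1
      have e4 : tm d R (fun k => ((y' k : ℕ) : ℤ)) < tm d R (fun k => ((y k : ℕ) : ℤ)) + 1 := by
        exact_mod_cast e2
      omega
    have h5 := digits_zero R hR (d + 1 + d) (fun k => ((y k : ℕ) : ℤ) - ((y' k : ℕ) : ℤ))
      (fun k => by
        have e1 : ((y k : ℕ) : ℤ) ≤ n := by exact_mod_cast (y k).2.le
        have e2 : ((y' k : ℕ) : ℤ) ≤ n := by exact_mod_cast (y' k).2.le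
        have e3 : (0 : ℤ) ≤ ((y k : ℕ) : ℤ) := by positivity
        have e4 : (0 : ℤ) ≤ ((y' k : ℕ) : ℤ) := by positivity
        rw [abs_le]
        constructor <;> linarith)
      (by
        simp only [sub_mul, Finset.sum_sub_distrib]
        exact sub_eq_zero.2 h4)
    funext k
    have := h5 k
    exact Fin.ext (by omega)

end Pool.Agent.Work.MP_97f157_lc.Quad
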