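import Mathlib
import Pool.Agent.Work.MP_97f157_lc.Quad

set_option autoImplicit false

namespace Pool.Agent.Results.MP_97f157_lc.QuadraticLower

/-- Almost quadratic lower bound: with `m = 2d+1` factors, `t = O(n)` monomials per factor and
`k = O(n^d)` products there are nonzero polynomials with `n^(2d+1)` distinct real roots. -/
theorem result :
    ∀ d : ℕ, ∃ C : ℕ, ∀ n : ℕ, 1 ≤ n →
      ∃ F : Fin ((C * n) ^ d) → Fin (2 * d + 1) → Polynomial ℝ,
        (∀ i j, (F i j).support.card ≤ C * n) ∧ (∑ i, ∏ j, F i j) ≠ 0 ∧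
          n ^ (2 * d + 1) ≤ (∑ i, ∏ j, F i j).roots.toFinset.card :=
  fun d => Pool.Agent.Work.MP_97f157_lc.Quad.main d (2 * d + 1) (by omega)

end Pool.Agent.Results.MP_97f157_lc.QuadraticLower
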