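import Mathlib
import Pool.Agent.Lib.PRank.Count

-- merged part: Pool.Agent.Work.MP_97f157_lc.SmoPoly
section
-- merged part: Pool.Agent.Work.MP_97f157_lc.SmoZer
section
/-! Zero counts for exponential polynomials and a bookkeeping device for break points. -/

namespace Pool.Agent.Work.MP_97f157_lc.Smo

open Finset Polynomial

/-- `u` vanishes identically, or only inside a set of at most `n` points. -/
def Few (n : ℕ) (u : ℝ → ℝ) : Prop :=
  ∃ T : Finset ℝ, T.card ≤ n ∧ ((∀ s, u s = 0) ∨ ∀ s, u s = 0 → s ∈ T)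

lemma Few.mono {n n' : ℕ} {u : ℝ → ℝ} (h : Few n u) (hn : n ≤ n') : Few n' u := by
  obtain ⟨T, hT, h⟩ := h
  exact ⟨T, hT.trans hn, h⟩

lemma few_zero (n : ℕ) {u : ℝ → ℝ} (h : ∀ s, u s = 0) : Few n u :=
  ⟨∅, by simp, Or.inl h⟩

lemma hasDerivAt_twist {u w : ℝ → ℝ} {β : ℝ}
    (hu : ∀ s, HasDerivAt u (β * u s + w s) s) (s : ℝ) :
    HasDerivAt (fun x => u x * Real.exp (-β * x)) (w s * Real.exp (-β * s)) s := by
  have h1 : HasDerivAt (fun x => Real.exp (-β * x)) (Real.exp (-β * s) * (-β)) s := by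
    have : HasDerivAt (fun x => -β * x) (-β) s := by
      simpa using (hasDerivAt_id s).const_mul (-β)
    exact this.exp
  have h2 := (hu s).mul h1
  have e : (β * u s + w s) * Real.exp (-β * s) + u s * (Real.exp (-β * s) * (-β))
      = w s * Real.exp (-β * s) := by ring
  rw [e] at h2
  exact h2

lemma few_step {n : ℕ} {u w : ℝ → ℝ} {β : ℝ}
    (hu : ∀ s, HasDerivAt u (β * u s + w s) s) (hw : Few n w) : Few (n + 1) u := by
  classical
  obtain ⟨T, hT, hw⟩ := hw
  have hv := hasDerivAt_twist hu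
  rcases hw with hw | hw
  · have hc : ∀ s, u s * Real.exp (-β * s) = u 0 * Real.exp (-β * 0) := by
      intro s
      refine is_const_of_deriv_eq_zero (f := fun x => u x * Real.exp (-β * x))
        (fun x => (hv x).differentiableAt) (fun x => ?_) s 0
      rw [(hv x).deriv, hw x, zero_mul]
    by_cases h0 : u 0 = 0
    · refine few_zero _ fun s => ?_
      have := hc s
      rw [h0, zero_mul] at this
      exact (mul_eq_zero.1 this).resolve_right (Real.exp_pos _).ne'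
    · refine ⟨∅, by simp, Or.inr fun s hs => ?_⟩
      have := hc s
      rw [hs, zero_mul] at this
      exact absurd ((mul_eq_zero.1 this.symm).resolve_right (Real.exp_pos _).ne') h0
  · have key : ∀ Z : Finset ℝ, (∀ s ∈ Z, u s = 0) → Z.card ≤ n + 1 := by
      intro Z hZ
      refine (Finset.card_le_of_interleaved (t := T) ?_).trans (by omega)
      intro x hx y hy hxy _
      obtain ⟨c, hc, hc0⟩ := exists_hasDerivAt_eq_zero (f := fun x => u x * Real.exp (-β * x))
        (f' := fun s => w s * Real.exp (-β * s)) hxy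
        (fun s _ => (hv s).continuousAt.continuousWithinAt)
        (by simp [hZ x hx, hZ y hy]) (fun s _ => hv s)
      exact ⟨c, hw c ((mul_eq_zero.1 hc0).resolve_right (Real.exp_pos _).ne'), hc.1, hc.2⟩
    have hfin : {s | u s = 0}.Finite := by
      by_contra hinf
      obtain ⟨Z, hZ, hc⟩ := Set.Infinite.exists_subset_card_eq hinf (n + 2)
      have := key Z fun s hs => hZ hs
      omega
    exact ⟨hfin.toFinset, key _ (by simp), Or.inr (by simp)⟩

/-- exponential polynomial -/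
noncomputable def EP {ι : Type*} (S : Finset ι) (Q : ι → ℝ[X]) (Γ : ι → ℝ) (s : ℝ) : ℝ :=
  ∑ i ∈ S, (Q i).eval s * Real.exp (Γ i * s)

lemma hasDerivAt_EP {ι : Type*} (S : Finset ι) (Q : ι → ℝ[X]) (Γ : ι → ℝ) (β s : ℝ) :
    HasDerivAt (EP S Q Γ)
      (β * EP S Q Γ s + EP S (fun i => derivative (Q i) + C (Γ i - β) * Q i) Γ s) s := by
  have h : ∀ i ∈ S, HasDerivAt (fun x => (Q i).eval x * Real.exp (Γ i * x))
      ((derivative (Q i)).eval s * Real.exp (Γ i * s)
        + (Q i).eval s * (Real.exp (Γ i * s) * Γ i)) s := by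
    intro i _
    have h1 : HasDerivAt (fun x => Γ i * x) (Γ i) s := by
      simpa using (hasDerivAt_id s).const_mul (Γ i)
    exact ((Q i).hasDerivAt s).mul h1.exp
  have h2 := HasDerivAt.fun_sum h
  have e : ∑ i ∈ S, ((derivative (Q i)).eval s * Real.exp (Γ i * s)
        + (Q i).eval s * (Real.exp (Γ i * s) * Γ i))
      = β * EP S Q Γ s + EP S (fun i => derivative (Q i) + C (Γ i - β) * Q i) Γ s := by
    unfold EP
    rw [Finset.mul_sum, ← Finset.sum_add_distrib]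
    refine Finset.sum_congr rfl fun i _ => ?_
    simp only [eval_add, eval_mul, eval_C]
    ring
  rw [e] at h2
  exact h2

lemma few_EP {ι : Type*} (S : Finset ι) (Γ : ι → ℝ) (n : ℕ) :
    ∀ (d : ι → ℕ) (Q : ι → ℝ[X]), (∀ i ∈ S, (Q i).degree < d i) → ∑ i ∈ S, d i ≤ n →
      Few n (EP S Q Γ) := by
  classical
  have zero : ∀ (d : ι → ℕ) (Q : ι → ℝ[X]), (∀ i ∈ S, (Q i).degree < d i) →
      (∀ i ∈ S, d i = 0) → ∀ s, EP S Q Γ s = 0 := by
    intro d Q hQ hd s
    refine Finset.sum_eq_zero fun i hi => ?_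
    have h := hQ i hi
    rw [hd i hi] at h
    have : Q i = 0 := by
      by_contra hne
      rw [degree_eq_natDegree hne] at h
      exact absurd h (by simp)
    simp [this]
  induction n with
  | zero =>
    intro d Q hQ hd
    refine few_zero _ (zero d Q hQ fun i hi => ?_)
    have := Finset.single_le_sum (f := d) (fun _ _ => Nat.zero_le _) hi
    omega
  | succ n ih =>
    intro d Q hQ hd
    by_cases h0 : ∀ i ∈ S, d i = 0
    · exact few_zero _ (zero d Q hQ h0)
    push Not at h0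
    obtain ⟨i0, hi0, hd0⟩ := h0
    refine few_step (hasDerivAt_EP S Q Γ (Γ i0))
      (ih (Function.update d i0 (d i0 - 1)) _ ?_ ?_)
    · intro i hi
      by_cases hii : i = i0
      · subst hii
        simp only [sub_self, map_zero, zero_mul, add_zero, Function.update_self]
        by_cases hq : derivative (Q i) = 0
        · rw [hq, degree_zero]; exact WithBot.bot_lt_coe _
        · have hq0 : Q i ≠ 0 := by
            rintro h; exact hq (by simp [h])
          have h1 := hQ i hi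
          rw [degree_eq_natDegree hq0] at h1
          rw [degree_eq_natDegree hq]
          have h2 : (Q i).natDegree < d i := by exact_mod_cast h1
          have h3 : (Q i).natDegree ≠ 0 := by
            intro h
            exact hq (derivative_of_natDegree_zero h)
          have h4 := natDegree_derivative_lt h3
          exact_mod_cast (by omega : (derivative (Q i)).natDegree < d i - 1)
      · rw [Function.update_of_ne hii]
        refine (degree_add_le _ _).trans_lt (max_lt ?_ ?_)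
        · exact degree_derivative_le.trans_lt (hQ i hi)
        · rw [← smul_eq_C_mul]
          exact (degree_smul_le _ _).trans_lt (hQ i hi)
    · rw [Finset.sum_update_of_mem hi0]
      have := Finset.add_sum_erase S d hi0
      rw [Finset.sdiff_singleton_eq_erase]
      omega

/-- exponential sum -/
noncomputable def ES {ι : Type*} (S : Finset ι) (a γ : ι → ℝ) (s : ℝ) : ℝ :=
  ∑ i ∈ S, a i * Real.exp (γ i * s)

lemma few_ES {ι : Type*} (S : Finset ι) (a γ : ι → ℝ) : Few S.card (ES S a γ) := by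
  have h := few_EP S γ S.card (fun _ => 1) (fun i => C (a i))
    (fun i _ => degree_C_lt) (by simp)
  have e : EP S (fun i => C (a i)) γ = ES S a γ := by
    funext s; simp [EP, ES]
  rwa [e] at h

lemma continuous_ES {ι : Type*} (S : Finset ι) (a γ : ι → ℝ) : Continuous (ES S a γ) := by
  unfold ES; fun_prop

lemma continuous_EP {ι : Type*} (S : Finset ι) (Q : ι → ℝ[X]) (Γ : ι → ℝ) :
    Continuous (EP S Q Γ) := by
  unfold EP; fun_prop

/-- A property of intervals that holds on all intervals avoiding some set of `n` points. -/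
def Pw (n : ℕ) (Q : ℝ → ℝ → Prop) : Prop :=
  ∃ B : Finset ℝ, B.card ≤ n ∧ ∀ a b, a ≤ b → (∀ x ∈ B, x ∉ Set.Icc a b) → Q a b

lemma Pw.mono {n n' : ℕ} {Q Q' : ℝ → ℝ → Prop} (h : Pw n Q) (hn : n ≤ n')
    (hQ : ∀ a b, a ≤ b → Q a b → Q' a b) : Pw n' Q' := by
  obtain ⟨B, hB, h⟩ := h
  exact ⟨B, hB.trans hn, fun a b hab hx => hQ a b hab (h a b hab hx)⟩

lemma Pw.and {n n' : ℕ} {Q Q' : ℝ → ℝ → Prop} (h : Pw n Q) (h' : Pw n' Q') :
    Pw (n + n') fun a b => Q a b ∧ Q' a b := by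
  classical
  obtain ⟨B, hB, h⟩ := h
  obtain ⟨B', hB', h'⟩ := h'
  refine ⟨B ∪ B', (Finset.card_union_le _ _).trans (by omega), fun a b hab hx => ⟨?_, ?_⟩⟩
  · exact h a b hab fun x hx' => hx x (Finset.mem_union_left _ hx')
  · exact h' a b hab fun x hx' => hx x (Finset.mem_union_right _ hx')

lemma Pw.forall {κ : Type*} (A : Finset κ) {n : ℕ} {Q : κ → ℝ → ℝ → Prop}
    (h : ∀ j ∈ A, Pw n (Q j)) : Pw (A.card * n) fun a b => ∀ j ∈ A, Q j a b := by
  classical
  choose! B hB h using h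
  refine ⟨A.biUnion B, ?_, fun a b hab hx j hj => h j hj a b hab fun x hx' =>
    hx x (Finset.mem_biUnion.2 ⟨j, hj, hx'⟩)⟩
  refine Finset.card_biUnion_le.trans ?_
  simpa using Finset.sum_le_card_nsmul A _ n hB

lemma Pw.reflect {n : ℕ} {Q : ℝ → ℝ → Prop} (h : Pw n Q) : Pw n fun a b => Q (-b) (-a) := by
  classical
  obtain ⟨B, hB, h⟩ := h
  refine ⟨B.image fun x => -x, Finset.card_image_le.trans hB, fun a b hab hx => ?_⟩
  refine h _ _ (by linarith only [hab]) fun x hxB hxI => hx (-x) (Finset.mem_image_of_mem _ hxB) ?_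
  exact ⟨by linarith only [hxI, hxI.2], by linarith [hxI.1]⟩

/-- weakly constant sign on an interval -/
def Sg (u : ℝ → ℝ) (a b : ℝ) : Prop :=
  (∀ s ∈ Set.Icc a b, 0 ≤ u s) ∨ ∀ s ∈ Set.Icc a b, u s ≤ 0

lemma Few.pw_nz {n : ℕ} {u : ℝ → ℝ} (h : Few n u) :
    Pw n fun a b => (∀ s, u s = 0) ∨ ∀ s ∈ Set.Icc a b, u s ≠ 0 := by
  obtain ⟨T, hT, h⟩ := h
  refine ⟨T, hT, fun a b _ hx => h.imp id fun h s hs h0 => hx s (h s h0) hs⟩

lemma sg_of_nz {u : ℝ → ℝ} (hu : Continuous u) {a b : ℝ}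
    (h : (∀ s, u s = 0) ∨ ∀ s ∈ Set.Icc a b, u s ≠ 0) : Sg u a b := by
  rcases h with h | h
  · exact Or.inl fun s _ => (h s).ge
  · by_contra hc
    unfold Sg at hc
    push Not at hc
    obtain ⟨⟨x, hx, hx0⟩, y, hy, hy0⟩ := hc
    obtain ⟨z, hz, hz0⟩ := isPreconnected_Icc.intermediate_value hx hy hu.continuousOn
      (show (0 : ℝ) ∈ Set.Icc (u x) (u y) from ⟨hx0.le, hy0.le⟩)
    exact h z hz hz0

lemma Few.pw_sg {n : ℕ} {u : ℝ → ℝ} (h : Few n u) (hu : Continuous u) :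
    Pw n fun a b => Sg u a b :=
  h.pw_nz.mono le_rfl fun _ _ _ h => sg_of_nz hu h

/-- counting over the cells cut out by the break points -/
lemma Pw.card_le {n N : ℕ} {Z : Finset ℝ}
    (h : Pw n fun a b => ∀ Y : Finset ℝ, Y ⊆ Z → (∀ y ∈ Y, y ∈ Set.Icc a b) → Y.card ≤ N) :
    Z.card ≤ n + (n + 1) * N := by
  classical
  obtain ⟨B, hB, h⟩ := h
  set ρ : ℝ → ℕ := fun x => (B.filter fun z => z < x).card with hρ
  have h1 : (Z \ B).card ≤ N * ((Z \ B).image ρ).card := by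
    refine Finset.card_le_mul_card_image _ N fun v hv => ?_
    set Y := (Z \ B).filter fun x => ρ x = v with hY
    have hne : Y.Nonempty := by
      obtain ⟨x, hx, hxv⟩ := Finset.mem_image.1 hv
      exact ⟨x, Finset.mem_filter.2 ⟨hx, hxv⟩⟩
    have ha := Finset.mem_filter.1 (Y.min'_mem hne)
    have hb := Finset.mem_filter.1 (Y.max'_mem hne)
    refine h (Y.min' hne) (Y.max' hne) (Y.min'_le_max' hne) ?_ Y ?_ ?_
    · intro x hxB hxI
      have hlt : x < Y.max' hne := by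
        refine lt_of_le_of_ne hxI.2 fun hx => ?_
        exact (Finset.mem_sdiff.1 hb.1).2 (hx ▸ hxB)
      have hss : (B.filter fun z => z < Y.min' hne) ⊂ B.filter fun z => z < Y.max' hne := by
        refine Finset.ssubset_iff_subset_ne.2 ⟨fun z hz => ?_, fun he => ?_⟩
        · rw [Finset.mem_filter] at hz ⊢
          exact ⟨hz.1, hz.2.trans_le (Y.min'_le_max' hne)⟩
        · have : x ∈ B.filter fun z => z < Y.min' hne := by
            rw [he]; exact Finset.mem_filter.2 ⟨hxB, hlt⟩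
          exact absurd (Finset.mem_filter.1 this).2 (not_lt.2 hxI.1)
      have := Finset.card_lt_card hss
      have e1 : ρ (Y.min' hne) = v := ha.2
      have e2 : ρ (Y.max' hne) = v := hb.2
      simp only [hρ] at e1 e2
      omega
    · exact fun y hy => (Finset.mem_sdiff.1 (Finset.mem_filter.1 hy).1).1
    · exact fun y hy => ⟨Y.min'_le y hy, Y.le_max' y hy⟩
  have h2 : ((Z \ B).image ρ).card ≤ n + 1 := by
    have : (Z \ B).image ρ ⊆ Finset.range (n + 1) := by
      intro v hv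
      obtain ⟨x, _, rfl⟩ := Finset.mem_image.1 hv
      have := Finset.card_filter_le B fun z => z < x
      simp only [hρ, Finset.mem_range]
      omega
    simpa using Finset.card_le_card this
  have h3 : Z.card ≤ (Z \ B).card + B.card := Finset.card_le_card_sdiff_add_card
  have h4 : N * ((Z \ B).image ρ).card ≤ N * (n + 1) := Nat.mul_le_mul_left _ h2
  linarith only [hB, h1, h3, h4]

/-- counting when a point of `T` lies weakly between any two points of `Y` -/
lemma card_le_of_between {Y T : Finset ℝ}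
    (h : ∀ x ∈ Y, ∀ y ∈ Y, x < y → ∃ z ∈ T, x ≤ z ∧ z ≤ y) : Y.card ≤ 2 * T.card + 1 := by
  classical
  have h1 : (Y \ T).card ≤ T.card + 1 := by
    refine Finset.card_le_of_interleaved fun x hx y hy hxy _ => ?_
    rw [Finset.mem_sdiff] at hx hy
    obtain ⟨z, hz, h1, h2⟩ := h x hx.1 y hy.1 hxy
    refine ⟨z, hz, lt_of_le_of_ne h1 ?_, lt_of_le_of_ne h2 ?_⟩
    · rintro rfl; exact hx.2 hz
    · rintro rfl; exact hy.2 hz
  have h3 : Y.card ≤ (Y \ T).card + T.card := Finset.card_le_card_sdiff_add_card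
  omega

end Pool.Agent.Work.MP_97f157_lc.Smo
end

-- merged part: Pool.Agent.Work.MP_97f157_lc.SmoChain
section
/-! Rolle chains on an interval: growth estimate and relative polynomial approximation. -/

namespace Pool.Agent.Work.MP_97f157_lc.Smo

open Finset Polynomial

/-- A chain of first order operators with decreasing parameters in `[lo, hi]` kills `u`, and all
intermediate functions have a weakly constant sign on `[a, b]`. -/
def Ch (a b lo : ℝ) : ℕ → ℝ → (ℝ → ℝ) → Prop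
  | 0, _, u => ∀ s, u s = 0
  | r + 1, hi, u => Sg u a b ∧ ∃ β, lo ≤ β ∧ β ≤ hi ∧ ∃ w : ℝ → ℝ,
      (∀ s, HasDerivAt u (β * u s + w s) s) ∧ Ch a b lo r β w

lemma Ch.sg {a b lo : ℝ} {r : ℕ} {hi : ℝ} {u : ℝ → ℝ} (h : Ch a b lo r hi u) : Sg u a b := by
  cases r with
  | zero => exact Or.inl fun s _ => (h s).ge
  | succ r => exact h.1

lemma hasDerivAt_ES {ι : Type*} (S : Finset ι) (c γ : ι → ℝ) (β s : ℝ) :
    HasDerivAt (ES S c γ) (β * ES S c γ s + ES S (fun i => (γ i - β) * c i) γ s) s := by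
  have h := hasDerivAt_EP S (fun i => C (c i)) γ β s
  have e1 : EP S (fun i => C (c i)) γ = ES S c γ := by
    funext s; simp [EP, ES]
  have e2 : EP S (fun i => derivative (C (c i)) + C (γ i - β) * C (c i)) γ s
      = ES S (fun i => (γ i - β) * c i) γ s := by
    simp [EP, ES]
  rw [e1, e2] at h
  exact h

lemma pw_ch {ι : Type*} (γ : ι → ℝ) (r : ℕ) : ∀ (S : Finset ι) (c : ι → ℝ), S.card ≤ r →
    Pw (r * r) fun a b => ∀ lo hi, lo ≤ hi → (∀ i ∈ S, lo ≤ γ i ∧ γ i ≤ hi) →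
      Ch a b lo r hi (ES S c γ) := by
  classical
  induction r with
  | zero =>
    intro S c hS
    obtain rfl : S = ∅ := Finset.card_eq_zero.1 (by omega)
    exact ⟨∅, by simp, fun a b _ _ lo hi _ _ s => by simp [ES]⟩
  | succ r ih =>
    intro S c hS
    rcases S.eq_empty_or_nonempty with rfl | hne
    · refine (ih ∅ c (by simp)).mono (by linarith only []) fun a b _ h lo hi hl hS => ?_
      refine ⟨Or.inl fun s _ => by simp [ES], hi, hl, le_rfl, ES ∅ c γ, fun s => ?_,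
        h lo hi hl hS⟩
      have : ES ∅ c γ = fun _ => 0 := by funext s; simp [ES]
      rw [this]
      simpa using hasDerivAt_const s (0 : ℝ)
    · obtain ⟨i0, hi0, hmax⟩ := Finset.exists_max_image S γ hne
      have hc : (S.erase i0).card ≤ r := by rw [Finset.card_erase_of_mem hi0]; omega
      have h1 := ((few_ES S c γ).mono hS).pw_sg (continuous_ES S c γ)
      refine (h1.and (ih (S.erase i0) (fun i => (γ i - γ i0) * c i) hc)).mono (by linarith only [])
        fun a b _ h lo hi hl hS => ?_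
      refine ⟨h.1, γ i0, (hS i0 hi0).1, (hS i0 hi0).2,
        ES (S.erase i0) (fun i => (γ i - γ i0) * c i) γ, fun s => ?_,
        h.2 lo (γ i0) (hS i0 hi0).1 fun i hi =>
          ⟨(hS i (Finset.mem_of_mem_erase hi)).1, hmax i (Finset.mem_of_mem_erase hi)⟩⟩
      have e : ES (S.erase i0) (fun i => (γ i - γ i0) * c i) γ s
          = ES S (fun i => (γ i - γ i0) * c i) γ s := by
        unfold ES
        rw [← Finset.add_sum_erase S _ hi0]
        simp
      rw [e]
      exact hasDerivAt_ES S c γ _ s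

lemma mvt {v ω : ℝ → ℝ} (hv : ∀ s, HasDerivAt v (ω s) s) {x y : ℝ} (hxy : x ≤ y) :
    ∃ η ∈ Set.Icc x y, v y - v x = (y - x) * ω η := by
  rcases hxy.eq_or_lt with rfl | hlt
  · exact ⟨x, ⟨le_rfl, le_rfl⟩, by simp⟩
  · obtain ⟨c, hc, h⟩ := exists_hasDerivAt_eq_slope v ω hlt
      (fun s _ => (hv s).continuousAt.continuousWithinAt) (fun s _ => hv s)
    refine ⟨c, ⟨hc.1.le, hc.2.le⟩, ?_⟩
    rw [h]
    have : y - x ≠ 0 := by linarith
    field_simp

lemma Sg.neg {u : ℝ → ℝ} {a b : ℝ} (h : Sg u a b) : Sg (fun s => -u s) a b := by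
  rcases h with h | h
  · exact Or.inr fun s hs => by linarith [h s hs]
  · exact Or.inl fun s hs => by linarith [h s hs]

lemma Sg.mul_pos {u e : ℝ → ℝ} {a b : ℝ} (h : Sg u a b) (he : ∀ s, 0 < e s) :
    Sg (fun s => u s * e s) a b := by
  rcases h with h | h
  · exact Or.inl fun s hs => mul_nonneg (h s hs) (he s).le
  · exact Or.inr fun s hs => mul_nonpos_of_nonpos_of_nonneg (h s hs) (he s).le

lemma grow_pos {v ω : ℝ → ℝ} {a b d L x y : ℝ} (hv : ∀ s, HasDerivAt v (ω s) s)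
    (hv0 : ∀ s ∈ Set.Icc a b, 0 ≤ v s) (hω : Sg ω a b) (hd : 0 < d) (hL : 1 ≤ L)
    (hx : a + d ≤ x) (hxy : x ≤ y) (hy : y ≤ b)
    (hg : ∀ ξ η, x - d ≤ ξ → ξ ≤ η → η ≤ y → |ω η| ≤ L * |ω ξ|) :
    |v y| ≤ (1 + (b - a) / d) * L * |v x| := by
  have hxI : x ∈ Set.Icc a b := ⟨by linarith, by linarith⟩
  have hyI : y ∈ Set.Icc a b := ⟨by linarith, hy⟩
  rw [abs_of_nonneg (hv0 x hxI), abs_of_nonneg (hv0 y hyI)]
  obtain ⟨η, hη, e1⟩ := mvt hv hxy
  have hηI : η ∈ Set.Icc a b := ⟨by linarith [hη.1], by linarith [hη.2]⟩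
  have hq : 0 ≤ (b - a) / d := div_nonneg (by linarith) hd.le
  have hvx := hv0 x hxI
  have hLv : v x ≤ L * v x := by nlinarith only [hL, hvx]
  rcases hω with hω | hω
  · obtain ⟨ξ, hξ, e2⟩ := mvt hv (show x - d ≤ x by linarith)
    have hξI : ξ ∈ Set.Icc a b := ⟨by linarith [hξ.1], by linarith [hξ.2]⟩
    have h1 := hg ξ η hξ.1 (by linarith only [hξ, hη, hξ.2, hη.1]) hη.2
    rw [abs_of_nonneg (hω η hηI), abs_of_nonneg (hω ξ hξI)] at h1
    have h2 : 0 ≤ v (x - d) := hv0 _ ⟨by linarith, by linarith⟩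
    have h3 : ω ξ ≤ v x / d := by
      rw [le_div_iff₀ hd]; linarith
    have h4 : (y - x) * ω η ≤ (b - a) * (L * (v x / d)) := by
      refine mul_le_mul (by linarith) (h1.trans ?_) (hω η hηI) (by linarith)
      exact mul_le_mul_of_nonneg_left h3 (by linarith)
    have h5 : (1 + (b - a) / d) * L * v x = L * v x + (b - a) * (L * (v x / d)) := by ring
    linarith only [e1, hLv, h4, h5]
  · have h1 : (y - x) * ω η ≤ 0 := mul_nonpos_of_nonneg_of_nonpos (by linarith) (hω η hηI)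
    have h2 : 0 ≤ (b - a) / d * (L * v x) := mul_nonneg hq (by linarith)
    linarith only [e1, hLv, h1, h2]

lemma grow_step {v ω : ℝ → ℝ} {a b d L x y : ℝ} (hv : ∀ s, HasDerivAt v (ω s) s)
    (hv0 : Sg v a b) (hω : Sg ω a b) (hd : 0 < d) (hL : 1 ≤ L)
    (hx : a + d ≤ x) (hxy : x ≤ y) (hy : y ≤ b)
    (hg : ∀ ξ η, x - d ≤ ξ → ξ ≤ η → η ≤ y → |ω η| ≤ L * |ω ξ|) :
    |v y| ≤ (1 + (b - a) / d) * L * |v x| := by
  rcases hv0 with h | h
  · exact grow_pos hv h hω hd hL hx hxy hy hg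
  · have := grow_pos (v := fun s => -v s) (ω := fun s => -ω s) (fun s => (hv s).neg)
      (fun s hs => by linarith [h s hs]) hω.neg hd hL hx hxy hy (by simpa using hg)
    simpa using this

lemma Ch.growth {a b lo d : ℝ} (hd : 0 < d) (hab : a ≤ b) (r : ℕ) :
    ∀ (hi : ℝ) (u : ℝ → ℝ), Ch a b lo r hi u → ∀ x y, a + r * d ≤ x → x ≤ y → y ≤ b →
      |u y| ≤ (1 + (b - a) / d) ^ r * Real.exp (hi * (y - x)) * |u x| := by
  induction r with
  | zero =>
    intro hi u h x y _ _ _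
    simp [h x, h y]
  | succ r ih =>
    rintro hi u ⟨hsg, β, -, hβ, w, hw, hch⟩ x y hx hxy hy
    have hq : 0 ≤ (b - a) / d := div_nonneg (by linarith) hd.le
    have hK : (1 : ℝ) ≤ (1 + (b - a) / d) ^ r := one_le_pow₀ (by linarith only [hq])
    have hr : (0 : ℝ) ≤ r * d := by positivity
    push_cast at hx
    have h1 := grow_step (hasDerivAt_twist hw) (hsg.mul_pos fun s => Real.exp_pos _)
      (hch.sg.mul_pos fun s => Real.exp_pos _) hd hK (by linarith only [hr, hx]) hxy hy (by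
        intro ξ η h1 h2 h3
        have h4 := ih β w hch ξ η (by linarith only [hx, h1]) h2 (by linarith)
        rw [abs_mul, abs_mul, abs_of_pos (Real.exp_pos _), abs_of_pos (Real.exp_pos _)]
        have e : Real.exp (-β * ξ) = Real.exp (β * (η - ξ)) * Real.exp (-β * η) := by
          rw [← Real.exp_add]; congr 1; ring
        rw [e]
        have := mul_le_mul_of_nonneg_right h4 (Real.exp_pos (-β * η)).le
        linarith only [this])
    rw [abs_mul, abs_mul, abs_of_pos (Real.exp_pos _), abs_of_pos (Real.exp_pos _)] at h1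
    have e : Real.exp (-β * x) = Real.exp (β * (y - x)) * Real.exp (-β * y) := by
      rw [← Real.exp_add]; congr 1; ring
    rw [e] at h1
    have h2 : |u y| ≤ (1 + (b - a) / d) ^ (r + 1) * Real.exp (β * (y - x)) * |u x| := by
      refine le_of_mul_le_mul_right ?_ (Real.exp_pos (-β * y))
      rw [pow_succ]
      linarith only [h1]
    refine h2.trans ?_
    have h3 : Real.exp (β * (y - x)) ≤ Real.exp (hi * (y - x)) :=
      Real.exp_le_exp.2 (mul_le_mul_of_nonneg_right hβ (by linarith only [hxy]))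
    gcongr

lemma exists_antideriv (q : ℝ[X]) {D : ℕ} (hq : q.natDegree ≤ D) (e y : ℝ) :
    ∃ Q : ℝ[X], derivative Q = q ∧ Q.natDegree ≤ D + 1 ∧ Q.eval e = y := by
  obtain ⟨Q, h1, h2⟩ : ∃ Q : ℝ[X], derivative Q = q ∧ Q.natDegree ≤ D + 1 := by
    refine ⟨∑ n ∈ range (D + 1), monomial (n + 1) (q.coeff n / (n + 1)), ?_, ?_⟩
    · rw [derivative_sum]
      conv_rhs => rw [q.as_sum_range' (D + 1) (by omega)]
      refine Finset.sum_congr rfl fun n _ => ?_
      rw [derivative_monomial]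
      have : ((n : ℝ) + 1) ≠ 0 := by positivity
      simp only [Nat.add_sub_cancel]
      congr 1
      push_cast
      field_simp
    · refine natDegree_sum_le_of_forall_le _ _ fun n hn => (natDegree_monomial_le _).trans ?_
      have := Finset.mem_range.1 hn
      omega
  refine ⟨Q + C (y - Q.eval e), by simp [h1], ?_, by simp⟩
  rw [natDegree_add_C]; exact h2

lemma int_pos {v ω : ℝ → ℝ} {a b ε : ℝ} {q : ℝ[X]} {D : ℕ} (hv : ∀ s, HasDerivAt v (ω s) s)
    (hv0 : Sg v a b) (hω : ∀ s ∈ Set.Icc a b, 0 ≤ ω s) (hε : 0 ≤ ε) (hab : a ≤ b)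
    (hq : q.natDegree ≤ D) (hqω : ∀ s ∈ Set.Icc a b, |q.eval s - ω s| ≤ ε * |ω s|) :
    ∃ Q : ℝ[X], Q.natDegree ≤ D + 1 ∧ ∀ s ∈ Set.Icc a b, |Q.eval s - v s| ≤ ε * |v s| := by
  have key : ∀ Q : ℝ[X], derivative Q = q → ∀ x y, a ≤ x → x ≤ y → y ≤ b →
      |(Q.eval y - v y) - (Q.eval x - v x)| ≤ ε * (v y - v x) := by
    intro Q hQ x y hx hxy hy
    have hd : ∀ σ : ℝ, ∀ s, HasDerivAt (fun s => ε * v s + σ * (Q.eval s - v s))
        (ε * ω s + σ * (q.eval s - ω s)) s := by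
      intro σ s
      have h1 := Q.hasDerivAt s
      rw [hQ] at h1
      exact ((hv s).const_mul ε).add ((h1.sub (hv s)).const_mul σ)
    obtain ⟨η, hη, e1⟩ := mvt (hd 1) hxy
    obtain ⟨ξ, hξ, e2⟩ := mvt (hd (-1)) hxy
    have hηI : η ∈ Set.Icc a b := ⟨by linarith only [hx, hη, hη.1], by linarith only [hy, hη, hη.2]⟩
    have hξI : ξ ∈ Set.Icc a b := ⟨by linarith only [hx, hξ, hξ.1], by linarith only [hy, hξ, hξ.2]⟩
    have h1 := hqω η hηI
    have h2 := hqω ξ hξI
    rw [abs_of_nonneg (hω η hηI), abs_le] at h1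
    rw [abs_of_nonneg (hω ξ hξI), abs_le] at h2
    have h3 : 0 ≤ (y - x) * (ε * ω η + 1 * (q.eval η - ω η)) :=
      mul_nonneg (by linarith only [hxy]) (by linarith only [h1, h1.1])
    have h4 : 0 ≤ (y - x) * (ε * ω ξ + -1 * (q.eval ξ - ω ξ)) :=
      mul_nonneg (by linarith only [hxy]) (by linarith only [h2, h2.2])
    rw [abs_le]
    constructor <;> linarith only [e1, h3, e2, h4]
  rcases hv0 with h | h
  · obtain ⟨Q, h1, h2, h3⟩ := exists_antideriv q hq a (v a)
    refine ⟨Q, h2, fun s hs => ?_⟩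
    have h4 := key Q h1 a s le_rfl hs.1 hs.2
    rw [h3, sub_self, sub_zero] at h4
    rw [abs_of_nonneg (h s hs)]
    have := mul_nonneg hε (h a ⟨le_rfl, hab⟩)
    linarith only [h4, this]
  · obtain ⟨Q, h1, h2, h3⟩ := exists_antideriv q hq b (v b)
    refine ⟨Q, h2, fun s hs => ?_⟩
    have h4 := key Q h1 s b hs.1 hs.2 le_rfl
    rw [h3, sub_self, zero_sub, abs_neg] at h4
    rw [abs_of_nonpos (h s hs)]
    have := mul_nonneg hε (neg_nonneg.2 (h b ⟨hab, le_rfl⟩))
    linarith only [h4, this]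

lemma int_step {v ω : ℝ → ℝ} {a b ε : ℝ} {q : ℝ[X]} {D : ℕ} (hv : ∀ s, HasDerivAt v (ω s) s)
    (hv0 : Sg v a b) (hω : Sg ω a b) (hε : 0 ≤ ε) (hab : a ≤ b)
    (hq : q.natDegree ≤ D) (hqω : ∀ s ∈ Set.Icc a b, |q.eval s - ω s| ≤ ε * |ω s|) :
    ∃ Q : ℝ[X], Q.natDegree ≤ D + 1 ∧ ∀ s ∈ Set.Icc a b, |Q.eval s - v s| ≤ ε * |v s| := by
  rcases hω with h | h
  · exact int_pos hv hv0 h hε hab hq hqω
  · obtain ⟨Q, h1, h2⟩ := int_pos (v := fun s => -v s) (ω := fun s => -ω s) (q := -q) (D := D)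
      (fun s => (hv s).neg) hv0.neg (fun s hs => by linarith only [h, hs, h s hs]) hε hab
      (by rwa [natDegree_neg]) (fun s hs => by
        have := hqω s hs
        rw [eval_neg, abs_neg, ← abs_neg]
        convert this using 2
        ring)
    refine ⟨-Q, by rwa [natDegree_neg], fun s hs => ?_⟩
    have := h2 s hs
    rw [abs_neg] at this
    rw [eval_neg, ← abs_neg]
    convert this using 2
    ring

lemma Ch.approx {a b lo μ ε : ℝ} {D : ℕ} (hab : a ≤ b) (hε : 0 ≤ ε)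
    (hT : ∀ l : ℝ, |l| ≤ μ → ∃ T : ℝ[X], T.natDegree ≤ D ∧
      ∀ s ∈ Set.Icc a b, |T.eval s - Real.exp (l * s)| ≤ ε * Real.exp (l * s)) (r : ℕ) :
    ∀ (hi : ℝ) (u : ℝ → ℝ), Ch a b lo r hi u → hi - lo ≤ μ → ∀ γ, lo ≤ γ → γ ≤ hi →
      ∃ q : ℝ[X], q.natDegree ≤ r * (D + 1) ∧ ∀ s ∈ Set.Icc a b,
        |q.eval s - u s * Real.exp (-γ * s)| ≤ ((1 + ε) ^ r - 1) * |u s * Real.exp (-γ * s)| := by
  induction r with
  | zero =>
    intro hi u h _ γ _ _
    exact ⟨0, by simp, fun s _ => by simp [h s]⟩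
  | succ r ih =>
    rintro hi u ⟨hsg, β, hβ1, hβ2, w, hw, hch⟩ hμ γ hγ1 hγ2
    have hK : (0 : ℝ) ≤ (1 + ε) ^ r - 1 := sub_nonneg.2 (one_le_pow₀ (by linarith))
    obtain ⟨q, hq, hqw⟩ := ih β w hch (by linarith) β hβ1 le_rfl
    obtain ⟨Q, hQ, hQv⟩ := int_step (hasDerivAt_twist hw) (hsg.mul_pos fun s => Real.exp_pos _)
      (hch.sg.mul_pos fun s => Real.exp_pos _) hK hab hq hqw
    obtain ⟨T, hT1, hT2⟩ := hT (β - γ) (abs_le.2 ⟨by linarith only [hβ1, hμ, hγ2], by linarith only [hβ2, hμ, hγ1]⟩)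
    refine ⟨Q * T, natDegree_mul_le.trans (by linarith only [hQ, hT1]), fun s hs => ?_⟩
    have h1 := hQv s hs
    have h2 := hT2 s hs
    have e : u s * Real.exp (-γ * s) = u s * Real.exp (-β * s) * Real.exp ((β - γ) * s) := by
      rw [mul_assoc, ← Real.exp_add]; congr 2; ring
    rw [e, eval_mul]
    generalize u s * Real.exp (-β * s) = V at *
    have hE := Real.exp_pos ((β - γ) * s)
    generalize Real.exp ((β - γ) * s) = E at *
    have h3 : |T.eval s| ≤ (1 + ε) * E := by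
      have := abs_sub_abs_le_abs_sub (T.eval s) E
      rw [abs_of_pos hE] at this
      linarith only [h2, this]
    have e2 : Q.eval s * T.eval s - V * E = (Q.eval s - V) * T.eval s + V * (T.eval s - E) := by
      ring
    rw [e2, abs_mul, abs_of_pos hE]
    refine (abs_add_le _ _).trans ?_
    rw [abs_mul, abs_mul]
    have h4 : |Q.eval s - V| * |T.eval s| ≤ ((1 + ε) ^ r - 1) * |V| * ((1 + ε) * E) :=
      mul_le_mul h1 h3 (abs_nonneg _) (by positivity)
    have h5 : |V| * |T.eval s - E| ≤ |V| * (ε * E) :=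
      mul_le_mul_of_nonneg_left h2 (abs_nonneg _)
    rw [pow_succ]
    linarith only [h4, h5]

lemma taylor_exp {a b l : ℝ} {Λ p : ℕ} (hl : |l| * (b - a) ≤ Λ) :
    ∃ T : ℝ[X], T.natDegree ≤ 4 * Λ + p ∧ ∀ s ∈ Set.Icc a b,
      |T.eval s - Real.exp (l * s)| ≤ Real.exp (-p) * Real.exp (l * s) := by
  set n := 4 * Λ + p + 1 with hn
  refine ⟨C (Real.exp (l * a)) * ∑ j ∈ range n, C (l ^ j / j.factorial) * (X - C a) ^ j, ?_,
    fun s hs => ?_⟩
  · refine (natDegree_C_mul_le _ _).trans (natDegree_sum_le_of_forall_le _ _ fun j hj => ?_)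
    refine (natDegree_C_mul_le _ _).trans (natDegree_pow_le.trans ?_)
    rw [natDegree_X_sub_C]
    have := Finset.mem_range.1 hj
    omega
  · set z := l * (s - a) with hz
    have hzΛ : |z| ≤ Λ := by
      rw [hz, abs_mul, abs_of_nonneg (by linarith only [hs, hs.1] : 0 ≤ s - a)]
      exact (mul_le_mul_of_nonneg_left (by linarith only [hs, hs.2]) (abs_nonneg l)).trans hl
    have hev : (C (Real.exp (l * a)) * ∑ j ∈ range n,
        C (l ^ j / j.factorial) * (X - C a) ^ j).eval s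
        = Real.exp (l * a) * ∑ j ∈ range n, z ^ j / j.factorial := by
      rw [eval_mul, eval_C, eval_finsetSum]
      congr 1
      refine Finset.sum_congr rfl fun j _ => ?_
      simp only [eval_mul, eval_C, eval_pow, eval_sub, eval_X, hz, mul_pow]
      ring
    have hb : |Real.exp z - ∑ j ∈ range n, z ^ j / j.factorial| ≤ |z| ^ n / n.factorial * 2 := by
      have h1 : ‖(z : ℂ)‖ / n.succ ≤ 1 / 2 := by
        rw [Complex.norm_real, Real.norm_eq_abs, div_le_iff₀ (by positivity), hn]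
        push_cast
        have : (0 : ℝ) ≤ Λ := by positivity
        have : (0 : ℝ) ≤ p := by positivity
        linarith only [hzΛ]
      have h2 := Complex.exp_bound' h1
      rw [Complex.norm_real, Real.norm_eq_abs] at h2
      refine le_trans (le_of_eq ?_) h2
      rw [← Real.norm_eq_abs, ← Complex.norm_real]
      push_cast
      rfl
    have hf : |z| ^ n / n.factorial ≤ Real.exp (3 * Λ - n) := by
      have h1 : (Real.exp 1 * |z|) ^ n / n.factorial ≤ Real.exp (Real.exp 1 * |z|) :=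
        Real.pow_div_factorial_le_exp _ (by positivity) n
      have h2 : Real.exp 1 * |z| ≤ 3 * Λ :=
        mul_le_mul (by linarith only [Real.exp_one_lt_d9]) hzΛ (abs_nonneg _) (by norm_num)
      have h3 := Real.exp_le_exp.2 h2
      rw [mul_pow, ← Real.exp_nat_mul, mul_one, mul_div_assoc] at h1
      rw [Real.exp_sub, le_div_iff₀ (Real.exp_pos _)]
      linarith only [h1, h3]
    have hz' : Real.exp (3 * Λ - n) * 2 ≤ Real.exp (-p) * Real.exp z := by
      have h1 : (2 : ℝ) ≤ Real.exp 1 := by linarith only [Real.add_one_le_exp 1]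
      have h2 : Real.exp (3 * Λ - n) * Real.exp 1 ≤ Real.exp (-p) * Real.exp z := by
        rw [← Real.exp_add, ← Real.exp_add, Real.exp_le_exp, hn]
        push_cast
        linarith only [hzΛ, neg_abs_le z]
      exact (mul_le_mul_of_nonneg_left h1 (Real.exp_pos _).le).trans h2
    have e : Real.exp (l * s) = Real.exp (l * a) * Real.exp z := by
      rw [← Real.exp_add, hz]; congr 1; ring
    rw [hev, e, ← mul_sub, abs_mul, abs_of_pos (Real.exp_pos _), abs_sub_comm]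
    have := Real.exp_pos (l * a)
    calc _ ≤ Real.exp (l * a) * (Real.exp (-p) * Real.exp z) := by
          refine mul_le_mul_of_nonneg_left (hb.trans (le_trans ?_ hz')) this.le
          linarith only [hf]
      _ = _ := by ring

end Pool.Agent.Work.MP_97f157_lc.Smo
end

-- merged part: Pool.Agent.Work.MP_97f157_lc.SmoApx
section
/-! Piecewise relative approximation of an exponential sum by a polynomial of small degree times a
single exponential. -/

namespace Pool.Agent.Work.MP_97f157_lc.Smo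

open Finset Polynomial

lemma pw_up {ι : Type*} (γ : ι → ℝ) (S : Finset ι) (c : ι → ℝ) {t : ℕ} (hS : S.card ≤ t) :
    Pw (t * t) fun a b => ∀ hi d : ℝ, 0 < d → (∀ i ∈ S, γ i ≤ hi) →
      ∀ x y, a + t * d ≤ x → x ≤ y → y ≤ b →
        |ES S c γ y| ≤ (1 + (b - a) / d) ^ t * Real.exp (hi * (y - x)) * |ES S c γ x| := by
  classical
  refine (pw_ch γ t S c hS).mono le_rfl fun a b hab h hi d hd hγ => ?_
  obtain ⟨lo, hlo⟩ := (insert hi (S.image γ)).finite_toSet.bddBelow
  refine Ch.growth hd hab t hi _ (h lo hi (hlo (by simp)) fun i hi' => ⟨hlo ?_, hγ i hi'⟩)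
  simp only [Finset.coe_insert, Finset.coe_image, Set.mem_insert_iff]
  exact Or.inr ⟨i, hi', rfl⟩

lemma ES_neg {ι : Type*} (γ : ι → ℝ) (S : Finset ι) (c : ι → ℝ) (s : ℝ) :
    ES S c (fun i => -γ i) (-s) = ES S c γ s := by
  simp [ES]

lemma pw_down {ι : Type*} (γ : ι → ℝ) (S : Finset ι) (c : ι → ℝ) {t : ℕ} (hS : S.card ≤ t) :
    Pw (t * t) fun a b => ∀ lo d : ℝ, 0 < d → (∀ i ∈ S, lo ≤ γ i) →
      ∀ x y, a ≤ x → x ≤ y → y + t * d ≤ b →
        |ES S c γ x| ≤ (1 + (b - a) / d) ^ t * Real.exp (-lo * (y - x)) * |ES S c γ y| := by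
  refine (pw_up (fun i => -γ i) S c hS).reflect.mono le_rfl
    fun a b _ h lo d hd hγ x y hx hxy hy => ?_
  have := h (-lo) d hd (fun i hi => neg_le_neg (hγ i hi)) (-y) (-x) (by linarith only [hy]) (by linarith)
    (by linarith)
  rw [ES_neg, ES_neg] at this
  have e1 : -a - -b = b - a := by ring
  have e2 : -x - -y = y - x := by ring
  rwa [e1, e2] at this

lemma ES_sdiff {ι : Type*} [DecidableEq ι] (γ c : ι → ℝ) {A S : Finset ι} (h : A ⊆ S) (s : ℝ) :
    ES (S \ A) c γ s + ES A c γ s = ES S c γ s := Finset.sum_sdiff h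

lemma pw_comb {ι : Type*} [DecidableEq ι] (γ c : ι → ℝ) {A S : Finset ι} (h : A ⊆ S) {t : ℕ}
    (hS : S.card ≤ t) (α β : ℝ) :
    Pw t fun a b => Sg (fun s => α * ES A c γ s + β * ES (S \ A) c γ s) a b := by
  have e : (fun s => α * ES A c γ s + β * ES (S \ A) c γ s)
      = ES S (fun i => if i ∈ A then α * c i else β * c i) γ := by
    funext s
    rw [← ES_sdiff γ _ h s, add_comm]
    unfold ES
    rw [Finset.mul_sum, Finset.mul_sum]
    congr 1
    · refine Finset.sum_congr rfl fun i hi => ?_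
      simp only [(Finset.mem_sdiff.1 hi).2, if_false]
      ring
    · refine Finset.sum_congr rfl fun i hi => ?_
      simp only [hi, if_true]
      ring
  rw [e]
  exact ((few_ES S _ γ).mono hS).pw_sg (continuous_ES _ _ _)

lemma cmp_of_sg {U V : ℝ → ℝ} {a b : ℝ} (h1 : Sg (fun s => U s + V s) a b)
    (h2 : Sg (fun s => U s - V s) a b) :
    (∀ s ∈ Set.Icc a b, |U s| ≤ |V s|) ∨ ∀ s ∈ Set.Icc a b, |V s| ≤ |U s| := by
  rcases h1 with h1 | h1 <;> rcases h2 with h2 | h2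
  · refine Or.inr fun s hs => (abs_le.2 ⟨?_, ?_⟩).trans (le_abs_self _) <;>
      linarith only [h1, hs, h2, h1 s hs, h2 s hs]
  · refine Or.inl fun s hs => (abs_le.2 ⟨?_, ?_⟩).trans (le_abs_self _) <;>
      linarith only [h1, hs, h2, h1 s hs, h2 s hs]
  · refine Or.inl fun s hs => (abs_le.2 ⟨?_, ?_⟩).trans (neg_le_abs _) <;>
      linarith only [h2, hs, h1, h1 s hs, h2 s hs]
  · refine Or.inr fun s hs => (abs_le.2 ⟨?_, ?_⟩).trans (neg_le_abs _) <;>
      linarith only [h2, hs, h1, h1 s hs, h2 s hs]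

lemma pw_cmp {ι : Type*} [DecidableEq ι] (γ c : ι → ℝ) {A S : Finset ι} (h : A ⊆ S) {t : ℕ}
    (hS : S.card ≤ t) {α β : ℝ} (hα : 0 ≤ α) (hβ : 0 ≤ β) :
    Pw (t + t) fun a b =>
      (∀ s ∈ Set.Icc a b, α * |ES A c γ s| ≤ β * |ES (S \ A) c γ s|) ∨
        ∀ s ∈ Set.Icc a b, β * |ES (S \ A) c γ s| ≤ α * |ES A c γ s| := by
  refine ((pw_comb γ c h hS α β).and (pw_comb γ c h hS α (-β))).mono le_rfl fun a b _ hh => ?_
  have h2 : Sg (fun s => α * ES A c γ s - β * ES (S \ A) c γ s) a b := by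
    simpa [sub_eq_add_neg] using hh.2
  simpa [abs_mul, abs_of_nonneg hα, abs_of_nonneg hβ] using cmp_of_sg hh.1 h2

lemma pw_dich {ι : Type*} [DecidableEq ι] (γ c : ι → ℝ) {A S : Finset ι} (h : A ⊆ S) {t : ℕ}
    (ht : 1 ≤ t) (hS : S.card ≤ t) (p : ℕ) :
    Pw (2 * t * t + 4 * t) fun a b => a < b → (∀ s ∈ Set.Icc a b, ES S c γ s ≠ 0) → ∀ x : ℝ,
      (∀ i ∈ A, γ i ≤ x) → (∀ i ∈ S \ A, x + (16 * t ^ 2 + 4 * p + 1) / (b - a) ≤ γ i) →
      (∀ s ∈ Set.Icc a b, |ES (S \ A) c γ s| ≤ Real.exp (-p) * |ES A c γ s|) ∨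
        ∀ s ∈ Set.Icc a b, |ES A c γ s| ≤ Real.exp (-p) * |ES (S \ A) c γ s| := by
  have hA : A.card ≤ t := (Finset.card_le_card h).trans hS
  have hR : (S \ A).card ≤ t := (Finset.card_le_card Finset.sdiff_subset).trans hS
  have hη := Real.exp_pos (-(p : ℝ))
  refine (((pw_up γ A c hA).and (pw_down γ (S \ A) c hR)).and
    ((pw_cmp γ c h hS hη.le zero_le_one).and (pw_cmp γ c h hS zero_le_one hη.le))).mono
    (by linarith only []) fun a b _ hh hab hne x hx1 hx2 => ?_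
  obtain ⟨⟨hup, hdown⟩, h1, h2⟩ := hh
  rcases h1 with h1 | h1
  swap
  · exact Or.inl (by simpa using h1)
  rcases h2 with h2 | h2
  · exact Or.inr (by simpa using h2)
  exfalso
  have ht0 : (0 : ℝ) < t := by exact_mod_cast ht
  have hl : 0 < b - a := by linarith only [hab]
  set d := (b - a) / (4 * t) with hd
  have hd0 : 0 < d := by positivity
  have htd : t * d = (b - a) / 4 := by rw [hd]; field_simp
  have hK : 1 + (b - a) / d = 1 + 4 * t := by rw [hd]; field_simp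
  have hu := hup x d hd0 hx1 (a + (b - a) / 4) (b - (b - a) / 4) (by linarith only [htd]) (by linarith only [hab])
    (by linarith only [hab])
  have hdn := hdown _ d hd0 hx2 (a + (b - a) / 4) (b - (b - a) / 4) (by linarith only [hab]) (by linarith only [hab])
    (by linarith only [htd])
  have hxI : a + (b - a) / 4 ∈ Set.Icc a b := ⟨by linarith only [hab], by linarith only [hab]⟩
  have hyI : b - (b - a) / 4 ∈ Set.Icc a b := ⟨by linarith only [hab], by linarith only [hab]⟩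
  have h1x := h1 _ hxI
  have h1y := h1 _ hyI
  have h2y := h2 _ hyI
  have hsum := ES_sdiff γ c h (b - (b - a) / 4)
  have hney := hne _ hyI
  rw [hK] at hu hdn
  have hKt : (1 + 4 * (t : ℝ)) ^ t ≤ Real.exp (4 * t ^ 2) := by
    have : (1 + 4 * (t : ℝ)) ^ t ≤ Real.exp (4 * t) ^ t :=
      pow_le_pow_left₀ (by positivity) (by linarith only [Real.add_one_le_exp (4 * (t : ℝ))]) t
    rw [← Real.exp_nat_mul] at this
    refine this.trans (le_of_eq ?_)
    congr 1; ring
  generalize |ES A c γ (a + (b - a) / 4)| = Lx at *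
  generalize |ES (S \ A) c γ (a + (b - a) / 4)| = Rx at *
  have hLy0 := abs_nonneg (ES A c γ (b - (b - a) / 4))
  have hRy0 := abs_nonneg (ES (S \ A) c γ (b - (b - a) / 4))
  have hRy : |ES (S \ A) c γ (b - (b - a) / 4)| = 0 := by
    by_contra hne0
    have hpos := lt_of_le_of_ne hRy0 (Ne.symm hne0)
    generalize |ES A c γ (b - (b - a) / 4)| = Ly at *
    generalize |ES (S \ A) c γ (b - (b - a) / 4)| = Ry at *
    set E1 := Real.exp (x * (b - (b - a) / 4 - (a + (b - a) / 4))) with hE1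
    set E2 := Real.exp (-(x + (16 * t ^ 2 + 4 * p + 1) / (b - a)) *
      (b - (b - a) / 4 - (a + (b - a) / 4))) with hE2
    have hE1p : 0 < E1 := Real.exp_pos _
    have hE2p : 0 < E2 := Real.exp_pos _
    have hK0 : 0 ≤ (1 + 4 * (t : ℝ)) ^ t := by positivity
    have e12 : Real.exp (4 * t ^ 2) * Real.exp (4 * t ^ 2) * (E1 * E2)
        = Real.exp (-p) * Real.exp (-p) * Real.exp (-(1 / 2)) := by
      rw [hE1, hE2]
      simp only [← Real.exp_add]
      congr 1
      field_simp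
      ring
    have hlt : Real.exp (-(1 / 2)) < 1 := Real.exp_lt_one_iff.2 (by norm_num)
    generalize Real.exp (-(p : ℝ)) = η at *
    generalize (1 + 4 * (t : ℝ)) ^ t = K at *
    generalize Real.exp (4 * (t : ℝ) ^ 2) = K' at *
    have s1 : η * (η * Ry) ≤ η * (K * E1 * Lx) :=
      mul_le_mul_of_nonneg_left (by linarith only [h2y, hu]) hη.le
    have s2 : K * E1 * (η * Lx) ≤ K * E1 * (K * E2 * Ry) :=
      mul_le_mul_of_nonneg_left (by linarith only [h1x, hdn]) (by positivity)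
    have s3 : K * K ≤ K' * K' := mul_le_mul hKt hKt hK0 (by linarith only [hK0, hKt])
    have s4 : K * K * (E1 * E2 * Ry) ≤ K' * K' * (E1 * E2 * Ry) :=
      mul_le_mul_of_nonneg_right s3 (by positivity)
    have s5 : K' * K' * (E1 * E2) * Ry = η * η * Real.exp (-(1 / 2)) * Ry := by rw [e12]
    have s6 : η * η * Ry * Real.exp (-(1 / 2)) < η * η * Ry * 1 :=
      mul_lt_mul_of_pos_left hlt (by positivity)
    linarith only [s1, s2, s4, s5, s6]
  rw [hRy] at h1y
  have hLy : |ES A c γ (b - (b - a) / 4)| = 0 := by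
    refine le_antisymm ?_ hLy0
    by_contra hc
    have := mul_pos hη (not_le.1 hc)
    linarith only [h1y, this]
  rw [abs_eq_zero] at hRy hLy
  rw [hRy, hLy, add_zero] at hsum
  exact hney hsum.symm

lemma exists_gap {ι : Type*} (γ : ι → ℝ) {S : Finset ι} {t : ℕ} (hS : S.card ≤ t) (x : ℝ) {θ : ℝ}
    (hθ : 0 < θ) : ∃ j : ℕ, j ≤ t ∧ ∀ i ∈ S, x - (j + 1) * θ < γ i → x - j * θ < γ i := by
  by_contra hc
  push Not at hc
  have : Nonempty ι := ⟨(hc 0 (Nat.zero_le _)).choose⟩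
  choose! φ hφ using hc
  have h1 : (range (t + 1)).card ≤ S.card := by
    refine Finset.card_le_card_of_injOn φ (fun j hj => (hφ j ?_).1) fun j hj j' hj' he => ?_
    · have := Finset.mem_range.1 (Finset.mem_coe.1 hj); omega
    · have h1 := hφ j (by have := Finset.mem_range.1 (Finset.mem_coe.1 hj); omega)
      have h2 := hφ j' (by have := Finset.mem_range.1 (Finset.mem_coe.1 hj'); omega)
      rw [he] at h1
      have h3 : (j' : ℝ) < j + 1 := lt_of_mul_lt_mul_right (by linarith only [h1, h2, h1.2.1, h2.2.2]) hθ.le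
      have h4 : (j : ℝ) < j' + 1 := lt_of_mul_lt_mul_right (by linarith only [h1, h2, h1.2.2, h2.2.1]) hθ.le
      have h5 : j' < j + 1 := by exact_mod_cast h3
      have h6 : j < j' + 1 := by exact_mod_cast h4
      omega
  rw [Finset.card_range] at h1
  omega

lemma one_add_pow_sub_le {ε : ℝ} {m : ℕ} (hε : 0 ≤ ε) (h : m * ε ≤ 1) :
    (1 + ε) ^ m - 1 ≤ 2 * (m * ε) := by
  have h1 : (1 + ε) ^ m ≤ Real.exp ε ^ m :=
    pow_le_pow_left₀ (by positivity) (by linarith [Real.add_one_le_exp ε]) m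
  rw [← Real.exp_nat_mul] at h1
  have h0 : 0 ≤ m * ε := by positivity
  have h2 := Real.abs_exp_sub_one_le (x := m * ε) (by rwa [abs_of_nonneg h0])
  rw [abs_of_nonneg h0] at h2
  linarith [le_abs_self (Real.exp (m * ε) - 1)]

lemma nat_mul_exp_le (m : ℕ) (x : ℝ) : m * Real.exp (-(x + m)) ≤ Real.exp (-x) := by
  have h1 : (m : ℝ) ≤ Real.exp m := by linarith [Real.add_one_le_exp (m : ℝ)]
  have e : Real.exp (-x) = Real.exp m * Real.exp (-(x + m)) := by
    rw [← Real.exp_add]; congr 1; ring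
  rw [e]
  exact mul_le_mul_of_nonneg_right h1 (Real.exp_pos _).le

lemma dom_bound {L R η : ℝ} (hη : η ≤ 1 / 2) (h0 : 0 ≤ η) (h : |R| ≤ η * |L|) :
    |R| ≤ 2 * η * |R + L| := by
  have h1 : |L| ≤ |R + L| + |R| := by
    have := abs_sub (R + L) R
    rwa [add_sub_cancel_left] at this
  have h2 : η * |L| ≤ 1 / 2 * |L| := mul_le_mul_of_nonneg_right hη (abs_nonneg _)
  have h3 : η * |L| ≤ η * (2 * |R + L|) := mul_le_mul_of_nonneg_left (by linarith only [h, h1, h2]) h0
  linarith only [h, h3]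

theorem pw_apx {ι : Type*} (γ c : ι → ℝ) {S : Finset ι} {t : ℕ} (ht : 1 ≤ t) (hS : S.card ≤ t)
    (n : ℕ) :
    Pw (2 * (t + 1) ^ 4) fun a b =>
      ((∀ s, ES S c γ s = 0) ∨ ∀ s ∈ Set.Icc a b, ES S c γ s ≠ 0) ∧
      ∃ (q : ℝ[X]) (g : ℝ), q.natDegree ≤ 120 * (t + 1) ^ 4 * (n + 1) ∧ ∀ s ∈ Set.Icc a b,
        |q.eval s * Real.exp (g * s) - ES S c γ s| ≤ Real.exp (-n) * |ES S c γ s| := by
  classical
  set Lo : ℝ → Finset ι := fun x => S.filter fun i => γ i ≤ x with hLo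
  set 𝓛 : Finset (Finset ι) := insert ∅ (S.image fun i => Lo (γ i)) with h𝓛
  have h𝓛c : 𝓛.card ≤ t + 1 :=
    (Finset.card_insert_le _ _).trans (by have := Finset.card_image_le (s := S) (f := fun i => Lo (γ i)); omega)
  have h𝓛S : ∀ A ∈ 𝓛, A ⊆ S := by
    intro A hA
    rcases Finset.mem_insert.1 hA with rfl | hA
    · exact Finset.empty_subset _
    · obtain ⟨i, _, rfl⟩ := Finset.mem_image.1 hA
      exact Finset.filter_subset _ _
  have P1 := ((few_ES S c γ).mono hS).pw_nz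
  have P2 := Pw.forall 𝓛 fun A hA => pw_dich γ c (h𝓛S A hA) ht hS (n + 3)
  have P3 := Pw.forall (𝓛 ×ˢ 𝓛) (Q := fun AA a b => ∀ lo hi, lo ≤ hi →
      (∀ i ∈ AA.2 \ AA.1, lo ≤ γ i ∧ γ i ≤ hi) → Ch a b lo t hi (ES (AA.2 \ AA.1) c γ))
    fun AA hA => pw_ch γ t (AA.2 \ AA.1) c ((Finset.card_le_card (Finset.sdiff_subset.trans
      (h𝓛S _ (Finset.mem_product.1 hA).2))).trans hS)
  refine ((P1.and P2).and P3).mono ?_ fun a b hab hh => ?_
  · rw [Finset.card_product]
    have h1 : 𝓛.card * (2 * t * t + 4 * t) ≤ (t + 1) * (2 * t * t + 4 * t) :=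
      Nat.mul_le_mul_right _ h𝓛c
    have h2 : 𝓛.card * 𝓛.card * (t * t) ≤ (t + 1) * (t + 1) * (t * t) :=
      Nat.mul_le_mul_right _ (Nat.mul_le_mul h𝓛c h𝓛c)
    have h3 : t + (t + 1) * (2 * t * t + 4 * t) + (t + 1) * (t + 1) * (t * t)
        ≤ 2 * (t + 1) ^ 4 := by
      ring_nf
      linarith only [ht, Nat.zero_le (t ^ 2), Nat.zero_le (t ^ 3), Nat.zero_le (t ^ 4)]
    omega
  obtain ⟨⟨hnz, hdi⟩, hch⟩ := hh
  refine ⟨hnz, ?_⟩
  rcases hnz with hz | hnz
  · exact ⟨0, 0, by simp, fun s _ => by simp [hz s]⟩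
  rcases hab.eq_or_lt with rfl | hab
  · refine ⟨C (ES S c γ a), 0, by simp, fun s hs => ?_⟩
    obtain rfl : s = a := le_antisymm hs.2 hs.1
    simp only [eval_C, zero_mul, Real.exp_zero, mul_one, sub_self, abs_zero]
    positivity
  have hl : 0 < b - a := by linarith only [hab]
  set θ : ℝ := (16 * t ^ 2 + 4 * (n + 3 : ℕ) + 1) / (b - a) with hθ
  have hθ0 : 0 < θ := by positivity
  set η : ℝ := Real.exp (-(n + 3 : ℕ)) with hη
  have hη0 : 0 < η := Real.exp_pos _
  have hSne : S.Nonempty := by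
    rw [Finset.nonempty_iff_ne_empty]
    rintro rfl
    exact hnz a ⟨le_rfl, hab.le⟩ (by simp [ES])
  set G := S.filter fun i => (∀ i' ∈ S, γ i < γ i' → γ i + θ ≤ γ i') ∧
    ∀ s ∈ Set.Icc a b, |ES (S \ Lo (γ i)) c γ s| ≤ η * |ES (Lo (γ i)) c γ s| with hG
  have hGne : G.Nonempty := by
    obtain ⟨i, hi, hmax⟩ := Finset.exists_max_image S γ hSne
    refine ⟨i, Finset.mem_filter.2 ⟨hi, fun i' hi' h => absurd (hmax i' hi') (not_le.2 h),
      fun s _ => ?_⟩⟩
    have : S \ Lo (γ i) = ∅ := by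
      rw [Finset.sdiff_eq_empty_iff_subset]
      exact fun j hj => Finset.mem_filter.2 ⟨hj, hmax j hj⟩
    rw [this]
    simp only [ES, Finset.sum_empty, abs_zero]
    positivity
  obtain ⟨i1, hi1, hmin⟩ := Finset.exists_min_image G γ hGne
  obtain ⟨hi1S, -, hLd⟩ := Finset.mem_filter.1 hi1
  obtain ⟨j, hj, hgap⟩ := exists_gap γ hS (γ i1) hθ0
  set x := γ i1 - (j + 1) * θ with hx
  have hjθ : 0 ≤ j * θ := by positivity
  have hxlt : x < γ i1 := by linarith only [hθ0, hjθ]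
  have hout : ∀ i ∈ S \ Lo x, x + θ < γ i := by
    intro i hi
    rw [Finset.mem_sdiff] at hi
    have h1 : x < γ i := by
      by_contra hc
      exact hi.2 (Finset.mem_filter.2 ⟨hi.1, not_lt.1 hc⟩)
    have := hgap i hi.1 h1
    linarith only [this]
  have hA : Lo x ∈ 𝓛 ∧ ∀ s ∈ Set.Icc a b, |ES (Lo x) c γ s| ≤ η * |ES (S \ Lo x) c γ s| := by
    rcases (Lo x).eq_empty_or_nonempty with he | hne
    · rw [he]
      refine ⟨Finset.mem_insert_self _ _, fun s _ => ?_⟩
      simp only [ES, Finset.sum_empty, abs_zero]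
      positivity
    · obtain ⟨i2, hi2, hmax⟩ := Finset.exists_max_image (Lo x) γ hne
      obtain ⟨hi2S, hi2x⟩ := Finset.mem_filter.1 hi2
      have he : Lo (γ i2) = Lo x := by
        ext i
        constructor
        · intro hi
          obtain ⟨h1, h2⟩ := Finset.mem_filter.1 hi
          exact Finset.mem_filter.2 ⟨h1, h2.trans hi2x⟩
        · intro hi
          exact Finset.mem_filter.2 ⟨(Finset.mem_filter.1 hi).1, hmax i hi⟩
      have hmem : Lo x ∈ 𝓛 := Finset.mem_insert_of_mem (Finset.mem_image.2 ⟨i2, hi2S, he⟩)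
      refine ⟨hmem, (hdi _ hmem hab hnz x (fun i hi => (Finset.mem_filter.1 hi).2)
        fun i hi => (hout i hi).le).resolve_left fun hL => ?_⟩
      have hG2 : i2 ∈ G := by
        refine Finset.mem_filter.2 ⟨hi2S, fun i' hi' h => ?_, by rw [he]; exact hL⟩
        have := hout i' (Finset.mem_sdiff.2 ⟨hi', fun hc => absurd (hmax i' hc) (not_le.2 h)⟩)
        linarith only [hi2x, this]
      have := hmin i2 hG2
      linarith only [hθ0, hjθ, hi2x, this]
  obtain ⟨hA𝓛, hRd⟩ := hA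
  have hA' : Lo (γ i1) ∈ 𝓛 := Finset.mem_insert_of_mem (Finset.mem_image_of_mem _ hi1S)
  have hsub : Lo x ⊆ Lo (γ i1) := by
    intro i hi
    obtain ⟨h1, h2⟩ := Finset.mem_filter.1 hi
    exact Finset.mem_filter.2 ⟨h1, h2.trans hxlt.le⟩
  have hM := hch (Lo x, Lo (γ i1)) (Finset.mem_product.2 ⟨hA𝓛, hA'⟩) x (γ i1) hxlt.le (by
    intro i hi
    obtain ⟨h1, h2⟩ := Finset.mem_sdiff.1 hi
    obtain ⟨h3, h4⟩ := Finset.mem_filter.1 h1
    have := hout i (Finset.mem_sdiff.2 ⟨h3, h2⟩)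
    exact ⟨by linarith only [hθ0, this], h4⟩)
  obtain ⟨q, hq, hqa⟩ := Ch.approx (μ := (t + 1) * θ) hab.le (Real.exp_pos _).le
    (fun l hl' => taylor_exp (a := a) (b := b) (l := l)
      (Λ := (t + 1) * (16 * t ^ 2 + 4 * (n + 3) + 1)) (p := n + 3 + t) (by
        refine (mul_le_mul_of_nonneg_right hl' hl.le).trans (le_of_eq ?_)
        rw [hθ]
        push_cast
        field_simp)) t (γ i1) _ hM (by
      have : (j : ℝ) ≤ t := by exact_mod_cast hj
      have := mul_le_mul_of_nonneg_right this hθ0.le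
      linarith only [this]) (γ i1) hxlt.le le_rfl
  refine ⟨q, γ i1, hq.trans ?_, fun s hs => ?_⟩
  · ring_nf
    linarith only [ht, Nat.zero_le (t ^ 2), Nat.zero_le (t ^ 3), Nat.zero_le (t ^ 4), Nat.zero_le (t * n),
      Nat.zero_le (t ^ 2 * n), Nat.zero_le (t ^ 3 * n), Nat.zero_le (t ^ 4 * n)]
  have hηe : 8 * η ≤ Real.exp (-n) := by
    have e : Real.exp (-n) = Real.exp 3 * η := by
      rw [hη, ← Real.exp_add]; congr 1; push_cast; ring
    have h8 : (8 : ℝ) ≤ Real.exp 3 := by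
      have h1 : (2 : ℝ) ≤ Real.exp 1 := by linarith only [Real.add_one_le_exp 1]
      have h2 := pow_le_pow_left₀ (by norm_num) h1 3
      rw [← Real.exp_nat_mul] at h2
      norm_num at h2
      exact h2
    rw [e]
    exact mul_le_mul_of_nonneg_right h8 hη0.le
  have hn1 : Real.exp (-(n : ℝ)) ≤ 1 := Real.exp_le_one_iff.2 (by simp)
  have hε : t * Real.exp (-((n + 3 + t : ℕ) : ℝ)) ≤ η := by
    have := nat_mul_exp_le t (n + 3 : ℕ)
    rw [hη]
    push_cast at this ⊢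
    exact this
  have hεt := one_add_pow_sub_le (Real.exp_pos (-((n + 3 + t : ℕ) : ℝ))).le
    (m := t) (by linarith only [hη0, hηe, hn1, hε])
  have h1 := dom_bound (by linarith only [hη0, hηe, hn1]) hη0.le (hLd s hs)
  have h2 := dom_bound (by linarith only [hη0, hηe, hn1]) hη0.le (hRd s hs)
  have e1 := ES_sdiff γ c (h𝓛S _ hA') s
  have e2 := ES_sdiff γ c (h𝓛S _ hA𝓛) s
  have e3 := ES_sdiff γ c hsub s
  rw [e1] at h1
  rw [add_comm, e2] at h2
  have h3 := hqa s hs
  simp only at h3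
  have hE := Real.exp_pos (γ i1 * s)
  have e4 : Real.exp (-γ i1 * s) * Real.exp (γ i1 * s) = 1 := by
    rw [← Real.exp_add]; simp
  have h4 : |q.eval s * Real.exp (γ i1 * s) - ES (Lo (γ i1) \ Lo x) c γ s|
      ≤ 2 * η * |ES (Lo (γ i1) \ Lo x) c γ s| := by
    generalize ES (Lo (γ i1) \ Lo x) c γ s = u at *
    have e5 : q.eval s * Real.exp (γ i1 * s) - u
        = (q.eval s - u * Real.exp (-γ i1 * s)) * Real.exp (γ i1 * s) := by
      rw [sub_mul, mul_assoc, e4, mul_one]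
    have e6 : |u| = |u * Real.exp (-γ i1 * s)| * Real.exp (γ i1 * s) := by
      rw [abs_mul, abs_of_pos (Real.exp_pos _), mul_assoc, e4, mul_one]
    rw [e5, abs_mul, abs_of_pos hE, e6, ← mul_assoc]
    refine mul_le_mul_of_nonneg_right (h3.trans ?_) hE.le
    exact mul_le_mul_of_nonneg_right (by linarith only [hε, hεt]) (abs_nonneg _)
  generalize ES (Lo (γ i1) \ Lo x) c γ s = u at *
  generalize ES (S \ Lo (γ i1)) c γ s = R at *
  generalize ES (Lo x) c γ s = L at *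
  generalize ES S c γ s = f at *
  have e7 : u - f = -R - L := by linarith only [e3, e1]
  have h5 : |u - f| ≤ 4 * η * |f| := by
    rw [e7]
    have := abs_sub (-R) L
    rw [abs_neg] at this
    linarith only [h1, h2, this]
  have hf := abs_nonneg f
  have h6 : |u| ≤ 2 * |f| := by
    have := abs_sub_abs_le_abs_sub u f
    have h7 : 4 * η * |f| ≤ 1 * |f| := mul_le_mul_of_nonneg_right (by linarith only [hη0, hηe, hn1]) hf
    linarith only [h5, this, h7]
  have h8 := abs_sub_le (q.eval s * Real.exp (γ i1 * s)) u f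
  have h9 : 2 * η * |u| ≤ 2 * η * (2 * |f|) := mul_le_mul_of_nonneg_left h6 (by linarith only [hη0])
  have h10 : 8 * η * |f| ≤ Real.exp (-n) * |f| := mul_le_mul_of_nonneg_right hηe hf
  linarith only [h4, h5, h8, h9, h10]

end Pool.Agent.Work.MP_97f157_lc.Smo
end

-- merged part: Pool.Agent.Work.MP_97f157_lc.SmoCount
section
/-! Counting robust zeros of a combination of products of exponential sums. -/

namespace Pool.Agent.Work.MP_97f157_lc.Smo

open Finset Polynomial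

lemma cross {U V : ℝ → ℝ} {n : ℕ} (hU : Continuous U) (hV : Continuous V)
    (h1 : Few n fun s => U s + V s) (h2 : Few n fun s => U s - V s) :
    ∃ T : Finset ℝ, T.card ≤ 2 * n ∧ ∀ r z, r ≤ z → |U r| ≤ |V r| → |V z| < |U z| →
      ∃ y ∈ T, r ≤ y ∧ y ≤ z := by
  classical
  obtain ⟨T1, hT1, h1⟩ := h1
  obtain ⟨T2, hT2, h2⟩ := h2
  refine ⟨T1 ∪ T2, (Finset.card_union_le _ _).trans (by omega), fun r z hrz hr hz => ?_⟩
  have hc : Continuous fun s => |U s| - |V s| := hU.abs.sub hV.abs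
  obtain ⟨y, hy, hy0⟩ := intermediate_value_Icc hrz hc.continuousOn
    (show (0 : ℝ) ∈ Set.Icc (|U r| - |V r|) (|U z| - |V z|) from ⟨by linarith only [hr], by linarith⟩)
  refine ⟨y, ?_, hy.1, hy.2⟩
  have hy1 : |U y| = |V y| := by simpa [sub_eq_zero] using hy0
  rcases abs_eq_abs.1 hy1 with h | h
  · refine Finset.mem_union_right _ (h2.resolve_left (fun hz0 => ?_) y (by simp [h]))
    have : U z = V z := by simpa [sub_eq_zero] using hz0 z
    rw [this] at hz
    exact lt_irrefl _ hz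
  · refine Finset.mem_union_left _ (h1.resolve_left (fun hz0 => ?_) y (by simp [h]))
    have : U z = -V z := by simpa [add_eq_zero_iff_eq_neg] using hz0 z
    rw [this, abs_neg] at hz
    exact lt_irrefl _ hz

lemma cross_lin {κ : Type*} [Fintype κ] [DecidableEq κ] {P0 : κ → ℝ → ℝ} {N : ℕ}
    (hfew : ∀ α : κ → ℝ, Few N fun s => ∑ l, α l * P0 l s) (hcont : ∀ l, Continuous (P0 l))
    (α : κ → ℝ) {ρ : ℝ} (hρ : 0 ≤ ρ) (i : κ) :
    ∃ T : Finset ℝ, T.card ≤ 2 * N ∧ ∀ r z, r ≤ z → |∑ l, α l * P0 l r| ≤ ρ * |P0 i r| →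
      ρ * |P0 i z| < |∑ l, α l * P0 l z| → ∃ y ∈ T, r ≤ y ∧ y ≤ z := by
  have e : ∀ σ : ℝ, (fun s => ∑ l, (α l + if l = i then σ else 0) * P0 l s)
      = fun s => ∑ l, α l * P0 l s + σ * P0 i s := by
    intro σ
    funext s
    simp [add_mul, Finset.sum_add_distrib]
  have h1 := hfew fun l => α l + if l = i then ρ else 0
  have h2 := hfew fun l => α l + if l = i then -ρ else 0
  rw [e] at h1 h2
  obtain ⟨T, hT, h⟩ := cross (U := fun s => ∑ l, α l * P0 l s) (V := fun s => ρ * P0 i s)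
    (by fun_prop) (by fun_prop) h1 (by simpa [sub_eq_add_neg] using h2)
  refine ⟨T, hT, fun r z hrz hr hz => h r z hrz ?_ ?_⟩
  · rwa [abs_mul, abs_of_nonneg hρ]
  · rwa [abs_mul, abs_of_nonneg hρ]

lemma cell_count {κ : Type*} [Fintype κ] [Nonempty κ] {P P0 : κ → ℝ → ℝ} {c : κ → ℝ}
    {δ ε a b : ℝ} {N : ℕ} (hc : ∀ l, |c l| ≤ 1) (hδ : 0 ≤ δ) (hε0 : 0 ≤ ε) (hε : ε ≤ 1 / 8)
    (hεδ : Fintype.card κ * ε ≤ δ / 8)
    (hfew : ∀ α : κ → ℝ, Few N fun s => ∑ l, α l * P0 l s) (hcont : ∀ l, Continuous (P0 l))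
    (happ : ∀ l, ∀ s ∈ Set.Icc a b, |P0 l s - P l s| ≤ ε * |P l s|)
    (hnz : ∀ r ∈ Set.Icc a b, ∀ i, (∀ l, |P l r| ≤ |P i r|) → ∀ s ∈ Set.Icc a b, P i s ≠ 0)
    (H : ∀ i r r', r < r' → ∑ l, c l * P l r = 0 → ∑ l, c l * P l r' = 0 →
      (∀ s ∈ Set.Icc r r', P i s ≠ 0) → ∃ z ∈ Set.Icc r r', δ * |P i z| < |∑ l, c l * P l z|)
    (Y : Finset ℝ) (hY0 : ∀ y ∈ Y, ∑ l, c l * P l y = 0) (hY : ∀ y ∈ Y, y ∈ Set.Icc a b) :
    Y.card ≤ 2 * ((Fintype.card κ + 1) * Fintype.card κ * (2 * N)) + 1 := by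
  classical
  choose T1 hT1 h1 using fun i => cross_lin hfew hcont c (ρ := δ / 2) (by linarith only [hδ]) i
  choose T2 hT2 h2 using fun p : κ × κ => cross_lin hfew hcont (fun l => if l = p.1 then 1 else 0)
    (ρ := 3 / 2) (by norm_num) p.2
  have hcard : (univ.biUnion T1 ∪ univ.biUnion T2).card
      ≤ (Fintype.card κ + 1) * Fintype.card κ * (2 * N) := by
    have e1 : (univ.biUnion T1).card ≤ Fintype.card κ * (2 * N) := by
      refine Finset.card_biUnion_le.trans ?_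
      simpa using Finset.sum_le_card_nsmul univ _ _ fun i _ => hT1 i
    have e2 : (univ.biUnion T2).card ≤ Fintype.card κ * Fintype.card κ * (2 * N) := by
      refine Finset.card_biUnion_le.trans ?_
      simpa using Finset.sum_le_card_nsmul univ _ _ fun i _ => hT2 i
    refine (Finset.card_union_le _ _).trans ?_
    linarith only [e1, e2]
  refine (card_le_of_between (T := univ.biUnion T1 ∪ univ.biUnion T2) ?_).trans (by omega)
  intro r hr r' hr' hrr'
  have hrI := hY r hr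
  have hr'I := hY r' hr'
  obtain ⟨i, hi⟩ := Finite.exists_max fun l => |P l r|
  obtain ⟨z, hz, hzδ⟩ := H i r r' hrr' (hY0 r hr) (hY0 r' hr') fun s hs =>
    hnz r hrI i hi s ⟨hrI.1.trans hs.1, hs.2.trans hr'I.2⟩
  have hzI : z ∈ Set.Icc a b := ⟨hrI.1.trans hz.1, hz.2.trans hr'I.2⟩
  have hup : ∀ l, ∀ s ∈ Set.Icc a b, |P0 l s| ≤ 9 / 8 * |P l s| := by
    intro l s hs
    have h3 := happ l s hs
    have h4 := abs_sub_abs_le_abs_sub (P0 l s) (P l s)
    have h5 := mul_le_mul_of_nonneg_right hε (abs_nonneg (P l s))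
    linarith only [h3, h4, h5]
  have hlo : ∀ l, ∀ s ∈ Set.Icc a b, 7 / 8 * |P l s| ≤ |P0 l s| := by
    intro l s hs
    have h3 := happ l s hs
    have h4 := abs_sub_abs_le_abs_sub (P l s) (P0 l s)
    rw [abs_sub_comm] at h4
    have h5 := mul_le_mul_of_nonneg_right hε (abs_nonneg (P l s))
    linarith only [h3, h4, h5]
  have herr : ∀ s ∈ Set.Icc a b, ∀ M : ℝ, 0 ≤ M → (∀ l, |P l s| ≤ M) →
      |∑ l, c l * P0 l s - ∑ l, c l * P l s| ≤ δ / 8 * M := by
    intro s hs M hM0 hM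
    rw [← Finset.sum_sub_distrib]
    refine (Finset.abs_sum_le_sum_abs _ _).trans ?_
    have : ∀ l ∈ (univ : Finset κ), |c l * P0 l s - c l * P l s| ≤ ε * M := by
      intro l _
      rw [← mul_sub, abs_mul]
      have h3 := (happ l s hs).trans (mul_le_mul_of_nonneg_left (hM l) hε0)
      have h4 := mul_le_mul (hc l) h3 (abs_nonneg _) zero_le_one
      linarith only [h4]
    refine (Finset.sum_le_card_nsmul univ _ _ this).trans ?_
    rw [nsmul_eq_mul, Finset.card_univ, ← mul_assoc]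
    exact mul_le_mul_of_nonneg_right hεδ hM0
  by_cases hA : ∀ l, |P l z| ≤ 2 * |P i z|
  · obtain ⟨y, hy, hy1, hy2⟩ := h1 i r z hz.1 (by
      have h3 := herr r hrI _ (abs_nonneg _) hi
      rw [hY0 r hr, sub_zero] at h3
      have h4 := mul_le_mul_of_nonneg_left (hlo i r hrI) hδ
      have h5 := mul_nonneg hδ (abs_nonneg (P i r))
      linarith only [h3, h4, h5]) (by
      have h3 := herr z hzI _ (by positivity) hA
      have h4 := mul_le_mul_of_nonneg_left (hup i z hzI) hδ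
      have h5 := mul_nonneg hδ (abs_nonneg (P i z))
      have h6 := abs_sub_abs_le_abs_sub (∑ l, c l * P l z) (∑ l, c l * P0 l z)
      rw [abs_sub_comm] at h6
      linarith only [hzδ, h3, h4, h5, h6])
    exact ⟨y, Finset.mem_union_left _ (Finset.mem_biUnion.2 ⟨i, Finset.mem_univ _, hy⟩), hy1,
      hy2.trans hz.2⟩
  · push Not at hA
    obtain ⟨l, hl⟩ := hA
    obtain ⟨y, hy, hy1, hy2⟩ := h2 (l, i) r z hz.1 (by
      simp only [ite_mul, one_mul, zero_mul, Finset.sum_ite_eq', Finset.mem_univ, if_true]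
      linarith only [hup l r hrI, hlo i r hrI, hi l, abs_nonneg (P i r)]) (by
      simp only [ite_mul, one_mul, zero_mul, Finset.sum_ite_eq', Finset.mem_univ, if_true]
      linarith only [hl, hlo, hzI, hup, hlo l z hzI, hup i z hzI, abs_nonneg (P i z)])
    exact ⟨y, Finset.mem_union_right _ (Finset.mem_biUnion.2 ⟨(l, i), Finset.mem_univ _, hy⟩), hy1,
      hy2.trans hz.2⟩

lemma prod_rel {μ : Type*} (s : Finset μ) {q f : μ → ℝ} {η : ℝ} (hη : 0 ≤ η)
    (h : ∀ j ∈ s, |q j - f j| ≤ η * |f j|) :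
    |∏ j ∈ s, q j - ∏ j ∈ s, f j| ≤ ((1 + η) ^ s.card - 1) * |∏ j ∈ s, f j| := by
  classical
  induction s using Finset.induction_on with
  | empty => simp
  | insert j s hj ih =>
    rw [Finset.prod_insert hj, Finset.prod_insert hj, Finset.card_insert_of_notMem hj]
    have h1 := ih fun j hj => h j (Finset.mem_insert_of_mem hj)
    have h2 := h j (Finset.mem_insert_self _ _)
    have hK : (0 : ℝ) ≤ (1 + η) ^ s.card - 1 := sub_nonneg.2 (one_le_pow₀ (by linarith only [hη]))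
    generalize ∏ j ∈ s, q j = Q at *
    generalize ∏ j ∈ s, f j = F at *
    have h3 : |q j| ≤ (1 + η) * |f j| := by
      linarith only [h2, abs_sub_abs_le_abs_sub (q j) (f j)]
    have e : q j * Q - f j * F = q j * (Q - F) + (q j - f j) * F := by ring
    rw [e, abs_mul (f j)]
    refine (abs_add_le _ _).trans ?_
    rw [abs_mul, abs_mul]
    have h4 : |q j| * |Q - F| ≤ (1 + η) * |f j| * (((1 + η) ^ s.card - 1) * |F|) :=
      mul_le_mul h3 h1 (abs_nonneg _) (by positivity)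
    have h5 : |q j - f j| * |F| ≤ η * |f j| * |F| :=
      mul_le_mul_of_nonneg_right h2 (abs_nonneg _)
    rw [pow_succ]
    linarith only [h4, h5]

/-- number of break points -/
def nB (k m t : ℕ) : ℕ := k * m * (2 * (t + 1) ^ 4)

/-- bound for the number of zeros in one cell -/
def nC (k m t n : ℕ) : ℕ :=
  2 * ((k + 1) * k * (2 * (k * (m * (120 * (t + 1) ^ 4 * (n + 4 + k + m + 1)) + 1)))) + 1

theorem count_exp {ι : Type*} {k m t n : ℕ} (ht : 1 ≤ t) (γ : ι → ℝ)
    (S : Fin k → Fin m → Finset ι) (a : Fin k → Fin m → ι → ℝ) (hS : ∀ i j, (S i j).card ≤ t)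
    (c : Fin k → ℝ)
    (hF : ∃ s, ∑ l, c l * ∏ j, ES (S l j) (a l j) γ s ≠ 0)
    (H : ∀ i r r', r < r' → ∑ l, c l * ∏ j, ES (S l j) (a l j) γ r = 0 →
      ∑ l, c l * ∏ j, ES (S l j) (a l j) γ r' = 0 →
      (∀ s ∈ Set.Icc r r', c i * ∏ j, ES (S i j) (a i j) γ s ≠ 0) → ∃ z ∈ Set.Icc r r',
        Real.exp (-n) * |c i * ∏ j, ES (S i j) (a i j) γ z|
          < |∑ l, c l * ∏ j, ES (S l j) (a l j) γ z|)
    (Z : Finset ℝ) (hZ : ∀ y ∈ Z, ∑ l, c l * ∏ j, ES (S l j) (a l j) γ y = 0) :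
    Z.card ≤ nB k m t + (nB k m t + 1) * nC k m t n := by
  classical
  obtain ⟨s0, hs0⟩ := hF
  obtain ⟨l0, -, hl0⟩ := Finset.exists_ne_zero_of_sum_ne_zero hs0
  have hl0' : ∀ j, ES (S l0 j) (a l0 j) γ s0 ≠ 0 := fun j =>
    Finset.prod_ne_zero_iff.1 (right_ne_zero_of_mul hl0) j (Finset.mem_univ _)
  have : Nonempty (Fin k) := ⟨l0⟩
  refine Pw.card_le ((Pw.forall (univ : Finset (Fin k × Fin m)) fun p _ =>
    pw_apx γ (a p.1 p.2) ht (hS p.1 p.2) (n + 4 + k + m)).mono (by simp [nB])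
    fun A B _ hh Y hYZ hY => ?_)
  have hnz := fun i j => (hh (i, j) (Finset.mem_univ _)).1
  choose q g hq happ using fun i j => (hh (i, j) (Finset.mem_univ _)).2
  simp only at hnz happ
  set η := Real.exp (-((n + 4 + k + m : ℕ) : ℝ)) with hη
  have hη0 : 0 < η := Real.exp_pos _
  have h1 : m * η ≤ Real.exp (-((n + 4 : ℝ) + k)) := by
    have := nat_mul_exp_le m (n + 4 + k)
    rw [hη]; push_cast; exact this
  have h2 : k * Real.exp (-((n + 4 : ℝ) + k)) ≤ Real.exp (-(n + 4 : ℝ)) := nat_mul_exp_le k _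
  have h3 : 16 * Real.exp (-(n + 4 : ℝ)) ≤ Real.exp (-n) := by
    have e : Real.exp (-n) = Real.exp 4 * Real.exp (-(n + 4 : ℝ)) := by
      rw [← Real.exp_add]; congr 1; ring
    have h8 : (16 : ℝ) ≤ Real.exp 4 := by
      have h1 : (2 : ℝ) ≤ Real.exp 1 := by linarith only [Real.add_one_le_exp 1]
      have h2 := pow_le_pow_left₀ (by norm_num) h1 4
      rw [← Real.exp_nat_mul] at h2
      norm_num at h2
      exact h2
    rw [e]
    exact mul_le_mul_of_nonneg_right h8 (Real.exp_pos _).le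
  have h4 : Real.exp (-(n : ℝ)) ≤ 1 := Real.exp_le_one_iff.2 (by simp)
  have h5 : Real.exp (-((n + 4 : ℝ) + k)) ≤ Real.exp (-(n + 4 : ℝ)) :=
    Real.exp_le_exp.2 (by linarith only [(Nat.cast_nonneg k : (0 : ℝ) ≤ k)])
  have h6 := one_add_pow_sub_le hη0.le (m := m) (by linarith only [h1, h3, h4, h5])
  have hε0 := Real.exp_pos (-((n + 4 : ℝ) + k))
  have := cell_count (κ := Fin k) (P := fun l s => c l * ∏ j, ES (S l j) (a l j) γ s)
    (P0 := fun l s => c l * ((∏ j, q l j).eval s * Real.exp ((∑ j, g l j) * s)))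
    (c := fun _ => 1)
    (δ := Real.exp (-n)) (ε := 2 * Real.exp (-((n + 4 : ℝ) + k))) (a := A) (b := B)
    (N := k * (m * (120 * (t + 1) ^ 4 * (n + 4 + k + m + 1)) + 1)) (by simp) (Real.exp_pos _).le
    (by linarith only [hε0]) (by linarith only [h3, h4, h5]) (by rw [Fintype.card_fin]; linarith only [h2, h3]) ?_ (fun l => by fun_prop)
    ?_ ?_ (by simpa only [one_mul] using H) Y
    (fun y hy => by simpa only [one_mul] using hZ y (hYZ hy)) hY
  · simpa [nC] using this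
  · intro α
    have := few_EP univ (fun l => ∑ j, g l j) _
      (fun _ => m * (120 * (t + 1) ^ 4 * (n + 4 + k + m + 1)) + 1)
      (fun l => C (α l * c l) * ∏ j, q l j) (fun l _ => by
        refine degree_le_natDegree.trans_lt ?_
        have h7 : (C (α l * c l) * ∏ j, q l j).natDegree
            ≤ m * (120 * (t + 1) ^ 4 * (n + 4 + k + m + 1)) := by
          refine (natDegree_C_mul_le _ _).trans ((natDegree_prod_le _ _).trans ?_)
          simpa using Finset.sum_le_card_nsmul univ _ _ fun j _ => hq l j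
        exact_mod_cast Nat.lt_succ_of_le h7) le_rfl
    have e : EP univ (fun l => C (α l * c l) * ∏ j, q l j) (fun l => ∑ j, g l j)
        = fun s => ∑ l, α l * (c l * ((∏ j, q l j).eval s * Real.exp ((∑ j, g l j) * s))) := by
      funext s
      simp only [EP, eval_mul, eval_C, mul_assoc]
    rw [e] at this
    simpa using this
  · intro l s hs
    have h7 := prod_rel univ hη0.le fun j _ => happ l j s hs
    have e : ∏ j, (q l j).eval s * Real.exp (g l j * s)
        = (∏ j, q l j).eval s * Real.exp ((∑ j, g l j) * s) := by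
      rw [Finset.prod_mul_distrib, eval_prod, Finset.sum_mul, Real.exp_sum]
    rw [e, Finset.card_univ, Fintype.card_fin] at h7
    have h8 := h7.trans (mul_le_mul_of_nonneg_right
      (show _ ≤ 2 * Real.exp (-((n + 4 : ℝ) + k)) by linarith only [h1, h6]) (abs_nonneg _))
    have h9 := mul_le_mul_of_nonneg_left h8 (abs_nonneg (c l))
    rw [← mul_sub, abs_mul, abs_mul]
    linarith only [h9]
  · intro r hr i hi s hs
    have h7 : c l0 * ∏ j, ES (S l0 j) (a l0 j) γ r ≠ 0 :=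
      mul_ne_zero (left_ne_zero_of_mul hl0) (Finset.prod_ne_zero_iff.2 fun j _ =>
        (hnz l0 j).resolve_left (fun h => hl0' j (h s0)) r hr)
    have h8 : c i * ∏ j, ES (S i j) (a i j) γ r ≠ 0 := by
      have := (abs_pos.2 h7).trans_le (hi l0)
      exact abs_pos.1 this
    exact mul_ne_zero (left_ne_zero_of_mul h8) (Finset.prod_ne_zero_iff.2 fun j _ =>
      (hnz i j).resolve_left (fun h => Finset.prod_ne_zero_iff.1 (right_ne_zero_of_mul h8) j
        (Finset.mem_univ _) (h r)) s hs)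

end Pool.Agent.Work.MP_97f157_lc.Smo
end

-- merged part: Pool.Agent.Work.MP_97f157_lc.SmoPoly
section
/-! Transfer to polynomials: root counts for well conditioned sums of products. -/

namespace Pool.Agent.Work.MP_97f157_lc.Smo

open Finset Polynomial

lemma eval_exp (p : ℝ[X]) (σ s : ℝ) : p.eval (σ * Real.exp s)
    = ES p.support (fun n => p.coeff n * σ ^ n) (fun n => (n : ℝ)) s := by
  rw [eval_eq_sum, Polynomial.sum_def, ES]
  refine Finset.sum_congr rfl fun n _ => ?_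
  rw [mul_pow, Real.exp_nat_mul, mul_assoc]

lemma exists_eval_ne {p : ℝ[X]} (hp : p ≠ 0) {σ : ℝ} (hσ : σ ≠ 0) :
    ∃ s, p.eval (σ * Real.exp s) ≠ 0 := by
  by_contra hc
  push Not at hc
  refine hp (p.eq_zero_of_infinite_isRoot ?_)
  exact Set.infinite_of_injective_forall_mem (f := fun s => σ * Real.exp s)
    (fun x y h => Real.exp_injective (mul_left_cancel₀ hσ h)) fun s => hc s

lemma roots_le {p : ℝ[X]} {n : ℕ}
    (h : ∀ σ : ℝ, σ * σ = 1 → ∀ Z : Finset ℝ, (∀ s ∈ Z, p.eval (σ * Real.exp s) = 0) →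
      Z.card ≤ n) : p.roots.toFinset.card ≤ 2 * n + 1 := by
  classical
  have key : ∀ σ : ℝ, σ * σ = 1 → (p.roots.toFinset.filter fun x => 0 < σ * x).card ≤ n := by
    intro σ hσ
    have hinv : ∀ x, 0 < σ * x → σ * Real.exp (Real.log (σ * x)) = x := by
      intro x hx
      rw [Real.exp_log hx, ← mul_assoc, hσ, one_mul]
    rw [← Finset.card_image_of_injOn (f := fun x => Real.log (σ * x))]
    · refine h σ hσ _ fun s hs => ?_
      obtain ⟨x, hx, rfl⟩ := Finset.mem_image.1 hs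
      rw [Finset.mem_filter, Multiset.mem_toFinset] at hx
      rw [hinv x hx.2]
      exact isRoot_of_mem_roots hx.1
    · intro x hx y hy hxy
      rw [Finset.mem_coe, Finset.mem_filter] at hx hy
      rw [← hinv x hx.2, ← hinv y hy.2]
      simp only at hxy
      rw [hxy]
  have hsub : p.roots.toFinset ⊆ insert 0 ((p.roots.toFinset.filter fun x => 0 < 1 * x) ∪
      p.roots.toFinset.filter fun x => 0 < -1 * x) := by
    intro x hx
    rcases lt_trichotomy x 0 with h0 | h0 | h0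
    · exact Finset.mem_insert_of_mem (Finset.mem_union_right _
        (Finset.mem_filter.2 ⟨hx, by linarith⟩))
    · exact h0 ▸ Finset.mem_insert_self _ _
    · exact Finset.mem_insert_of_mem (Finset.mem_union_left _
        (Finset.mem_filter.2 ⟨hx, by linarith⟩))
  have h1 := key 1 (by norm_num)
  have h2 := key (-1) (by norm_num)
  have h3 := (Finset.card_le_card hsub).trans (Finset.card_insert_le _ _)
  have h4 := Finset.card_union_le (p.roots.toFinset.filter fun x => 0 < 1 * x)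
    (p.roots.toFinset.filter fun x => 0 < -1 * x)
  omega

lemma sparse_roots (p : ℝ[X]) : p.roots.toFinset.card ≤ 2 * p.support.card + 1 := by
  by_cases hp : p = 0
  · simp [hp]
  refine roots_le fun σ hσ Z hZ => ?_
  have hσ0 : σ ≠ 0 := by rintro rfl; simp at hσ
  obtain ⟨T, hT, h⟩ := few_ES p.support (fun n => p.coeff n * σ ^ n) (fun n => (n : ℝ))
  obtain ⟨s, hs⟩ := exists_eval_ne hp hσ0
  rw [eval_exp] at hs
  refine (Finset.card_le_card fun z hz => h.resolve_left (fun h => hs (h s)) z ?_).trans hT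
  rw [← eval_exp]
  exact hZ z hz

lemma rolle_quot {F P : ℝ[X]} {σ r r' : ℝ} (hσ : σ ≠ 0) (hrr : r < r')
    (h1 : F.eval (σ * Real.exp r) = 0) (h2 : F.eval (σ * Real.exp r') = 0)
    (hP : ∀ s ∈ Set.Icc r r', P.eval (σ * Real.exp s) ≠ 0) :
    ∃ z ∈ Set.Icc r r', (derivative F * P - F * derivative P).eval (σ * Real.exp z) = 0 := by
  have hd : ∀ (p : ℝ[X]) (s : ℝ), HasDerivAt (fun s => p.eval (σ * Real.exp s))
      ((derivative p).eval (σ * Real.exp s) * (σ * Real.exp s)) s := fun p s =>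
    (p.hasDerivAt _).comp s ((Real.hasDerivAt_exp s).const_mul σ)
  have hq := fun s (hs : s ∈ Set.Icc r r') => (hd F s).div (hd P s) (hP s hs)
  obtain ⟨z, hz, hz0⟩ := exists_hasDerivAt_eq_zero hrr
    (fun s hs => (hq s hs).continuousAt.continuousWithinAt) (by simp [h1, h2])
    (fun s hs => hq s ⟨hs.1.le, hs.2.le⟩)
  refine ⟨z, ⟨hz.1.le, hz.2.le⟩, ?_⟩
  have h3 := hP z ⟨hz.1.le, hz.2.le⟩
  have h4 : σ * Real.exp z ≠ 0 := mul_ne_zero hσ (Real.exp_pos z).ne'
  rw [div_eq_zero_iff] at hz0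
  have h5 := hz0.resolve_right (pow_ne_zero _ h3)
  simp only [eval_sub, eval_mul]
  apply mul_right_cancel₀ h4
  linarith only [h5]

theorem count_poly {k m t n : ℕ} (ht : 1 ≤ t) (f : Fin k → Fin m → ℝ[X])
    (hf : ∀ i j, (f i j).support.card ≤ t) (c : Fin k → ℝ)
    (H : ∀ i x, c i * (∏ j, f i j).eval x ≠ 0 →
      (derivative (∑ l, C (c l) * ∏ j, f l j) * ∏ j, f i j
        - (∑ l, C (c l) * ∏ j, f l j) * derivative (∏ j, f i j)).eval x = 0 →
      Real.exp (-n) * |c i * (∏ j, f i j).eval x| < |(∑ l, C (c l) * ∏ j, f l j).eval x|) :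
    (∑ l, C (c l) * ∏ j, f l j).roots.toFinset.card
      ≤ 2 * (nB k m t + (nB k m t + 1) * nC k m t n) + 1 := by
  by_cases hF : ∑ l, C (c l) * ∏ j, f l j = 0
  · simp [hF]
  refine roots_le fun σ hσ Z hZ => ?_
  have hσ0 : σ ≠ 0 := by rintro rfl; simp at hσ
  have eP : ∀ i s, ∏ j, ES (f i j).support (fun n => (f i j).coeff n * σ ^ n)
      (fun n => (n : ℝ)) s = (∏ j, f i j).eval (σ * Real.exp s) := by
    intro i s
    rw [eval_prod]
    exact Finset.prod_congr rfl fun j _ => (eval_exp _ _ _).symm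
  have eF : ∀ s, ∑ l, c l * (∏ j, f l j).eval (σ * Real.exp s)
      = (∑ l, C (c l) * ∏ j, f l j).eval (σ * Real.exp s) := by
    intro s
    simp only [eval_finsetSum, eval_mul, eval_C]
  refine count_exp ht (fun n : ℕ => (n : ℝ)) (fun i j => (f i j).support)
    (fun i j n => (f i j).coeff n * σ ^ n) hf c ?_ ?_ Z ?_
  · simp only [eP, eF]
    exact exists_eval_ne hF hσ0
  · simp only [eP, eF]
    intro i r r' hrr h1 h2 hP
    obtain ⟨z, hz, hz0⟩ := rolle_quot hσ0 hrr h1 h2 fun s hs => right_ne_zero_of_mul (hP s hs)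
    exact ⟨z, hz, H i _ (hP z hz) hz0⟩
  · simp only [eP, eF]
    exact hZ

lemma total_le {k m t n x : ℕ} (hx : 1 ≤ x) (hk : k ≤ x) (hm : m ≤ x) (ht : t ≤ x) :
    2 * (nB k m t + (nB k m t + 1) * nC k m t n) + 1 ≤ 2 ^ 25 * x ^ 15 * (n + 1) := by
  have h1 : t + 1 ≤ 2 * x := by omega
  have hB : nB k m t + 1 ≤ 33 * x ^ 6 := by
    have : nB k m t ≤ x * x * (2 * (2 * x) ^ 4) := by unfold nB; gcongr
    have h2 : 1 ≤ x ^ 6 := Nat.one_le_pow _ _ hx
    have e : x * x * (2 * (2 * x) ^ 4) = 32 * x ^ 6 := by ring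
    omega
  have h3 : n + 4 + k + m + 1 ≤ 7 * x * (n + 1) := by nlinarith only [hx, hk, hm]
  have h4 : m * (120 * (t + 1) ^ 4 * (n + 4 + k + m + 1)) + 1 ≤ 13441 * (x ^ 6 * (n + 1)) := by
    have : m * (120 * (t + 1) ^ 4 * (n + 4 + k + m + 1))
        ≤ x * (120 * (2 * x) ^ 4 * (7 * x * (n + 1))) := by gcongr
    have h2 : 1 ≤ x ^ 6 * (n + 1) := Nat.mul_pos (Nat.one_le_pow _ _ hx) (by omega)
    have e : x * (120 * (2 * x) ^ 4 * (7 * x * (n + 1))) = 13440 * (x ^ 6 * (n + 1)) := by ring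
    omega
  have hC : nC k m t n + 1 ≤ 107530 * (x ^ 9 * (n + 1)) := by
    have h5 : k + 1 ≤ 2 * x := by omega
    have : nC k m t n ≤ 2 * (2 * x * x * (2 * (x * (13441 * (x ^ 6 * (n + 1)))))) + 1 := by
      unfold nC; gcongr
    have h2 : 1 ≤ x ^ 9 * (n + 1) := Nat.mul_pos (Nat.one_le_pow _ _ hx) (by omega)
    have e : 2 * (2 * x * x * (2 * (x * (13441 * (x ^ 6 * (n + 1))))))
        = 107528 * (x ^ 9 * (n + 1)) := by ring
    omega
  have h6 : (nB k m t + 1) * (nC k m t n + 1) ≤ 33 * x ^ 6 * (107530 * (x ^ 9 * (n + 1))) :=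
    Nat.mul_le_mul hB hC
  have e : 33 * x ^ 6 * (107530 * (x ^ 9 * (n + 1))) = 3548490 * (x ^ 15 * (n + 1)) := by ring
  have e2 : 2 ^ 25 * x ^ 15 * (n + 1) = 33554432 * (x ^ 15 * (n + 1)) := by ring
  have e3 : (nB k m t + 1) * (nC k m t n + 1)
      = nB k m t + (nB k m t + 1) * nC k m t n + 1 := by ring
  omega

end Pool.Agent.Work.MP_97f157_lc.Smo
end
end

-- merged part: Pool.Agent.Work.MP_97f157_lc.RsFinal
section
-- merged part: Pool.Agent.Work.MP_97f157_lc.RsChart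
section
-- merged part: Pool.Agent.Work.MP_97f157_lc.RsDefs
section
/-! Definitions for the random-support form of the real tau-conjecture. -/

namespace Pool.Agent.Work.MP_97f157_lc.Rs

open Finset

/-- Slots: the pair (polynomial, monomial). -/
abbrev Ix (q t : ℕ) := Fin q × Fin t

/-- Paths: a product and one monomial in each of its factors. -/
abbrev Pa (k m t : ℕ) := Fin k × (Fin m → Fin t)

variable {k m t q : ℕ}

/-- The slot used by the path `x` in its factor `j`. -/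
def sl (π : Fin k → Fin m → Fin q) (x : Pa k m t) (j : Fin m) : Ix q t := (π x.1 j, x.2 j)

/-- The coefficient of a path. -/
def cf (π : Fin k → Fin m → Fin q) (a : Fin k → ℝ) (c : Ix q t → ℝ) (x : Pa k m t) : ℝ :=
  a x.1 * ∏ j, c (sl π x j)

/-- The exponent of a path. -/
def wt (π : Fin k → Fin m → Fin q) (α : Ix q t → ℝ) (x : Pa k m t) : ℝ := ∑ j, α (sl π x j)

/-- How often the path `x` uses the slot `b`. -/
def mu (π : Fin k → Fin m → Fin q) (b : Ix q t) (x : Pa k m t) : ℕ :=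
  (univ.filter fun j => sl π x j = b).card

/-- Taylor coefficients at `0` of the exponential sum. -/
noncomputable def mom (π : Fin k → Fin m → Fin q) (a : Fin k → ℝ) (c α : Ix q t → ℝ) (r : ℕ) :
    ℝ :=
  ∑ x : Pa k m t, cf π a c x * wt π α x ^ r / (r.factorial : ℝ)

/-- `c b` times the derivative of `mom` in the coefficient `c b`. -/
noncomputable def tm (π : Fin k → Fin m → Fin q) (a : Fin k → ℝ) (c α : Ix q t → ℝ)
    (b : Ix q t) (r : ℕ) : ℝ :=
  ∑ x : Pa k m t, (mu π b x : ℝ) * cf π a c x * wt π α x ^ r / (r.factorial : ℝ)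

/-- The derivative of `mom` in the exponent `α b`; it is `tm` at `r - 1`, and `0` at `r = 0`. -/
noncomputable def tp (π : Fin k → Fin m → Fin q) (a : Fin k → ℝ) (c α : Ix q t → ℝ)
    (b : Ix q t) (r : ℕ) : ℝ :=
  ∑ x : Pa k m t,
    (mu π b x : ℝ) * cf π a c x * ((r : ℝ) * wt π α x ^ (r - 1)) / (r.factorial : ℝ)

/-- Every product has a factor that occurs in no other product. -/
def Priv (π : Fin k → Fin m → Fin q) : Prop :=
  ∀ i, ∃ j, ∀ i' j', π i' j' = π i j → i' = i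

/-- Chart centres for coefficients. -/
noncomputable def ctr (η : ℝ) {P : ℕ} (z : SignType × Fin (P + 1)) : ℝ :=
  (z.1 : ℝ) * (1 + η)⁻¹ ^ (z.2 : ℕ)

/-- Jacobian matrix of a polynomial map. -/
noncomputable def jac {J : Type*} (f : J → MvPolynomial J ℝ) (z : J → ℝ) : Matrix J J ℝ :=
  Matrix.of fun i j => MvPolynomial.eval z (MvPolynomial.pderiv j (f i))

end Pool.Agent.Work.MP_97f157_lc.Rs
end

-- merged part: Pool.Agent.Work.MP_97f157_lc.RsBez
section
namespace Pool.Agent.Work.MP_97f157_lc.Rs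

open MvPolynomial

theorem bez_taylor {J : Type} [Fintype J] [DecidableEq J] (z : J → ℝ) (F : MvPolynomial J ℝ) :
    ∃ G : J → MvPolynomial J ℝ, F - C (eval z F) = ∑ v, G v * (X v - C (z v)) ∧
      ∀ v, eval z (G v) = eval z (pderiv v F) := by
  induction F using MvPolynomial.induction_on with
  | C a => exact ⟨0, by simp, by simp⟩
  | add F F' h h' =>
    obtain ⟨G, h1, h2⟩ := h
    obtain ⟨G', h3, h4⟩ := h'
    refine ⟨G + G', ?_, fun v => by simp [h2, h4]⟩
    simp only [Pi.add_apply, add_mul, Finset.sum_add_distrib, ← h1, ← h3, map_add]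
    ring
  | mul_X F n h =>
    obtain ⟨G, h1, h2⟩ := h
    refine ⟨fun v => G v * X n + if v = n then C (eval z F) else 0, ?_, fun v => ?_⟩
    · simp only [add_mul, Finset.sum_add_distrib, mul_right_comm _ (X n), ← Finset.sum_mul, ← h1,
        ite_mul, zero_mul, Finset.sum_ite_eq', Finset.mem_univ, if_true, map_mul, eval_X]
      ring
    · by_cases e : v = n
      · simp [h2, e, add_comm, mul_comm]
      · simp [h2, e, pderiv_X, Ne.symm e, mul_comm]

/-- Bezout bound for nondegenerate real solutions of a square polynomial system. -/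
theorem bezout_nondeg {J : Type} [Fintype J] [DecidableEq J] (f : J → MvPolynomial J ℝ) {d : ℕ}
    (hd : 1 ≤ d) (hf : ∀ i, (f i).totalDegree ≤ d) (p : J → ℝ) (Z : Finset (J → ℝ))
    (hZ : ∀ z ∈ Z, (∀ i, eval z (f i) = p i) ∧ (jac f z).det ≠ 0) :
    Z.card ≤ d ^ Fintype.card J := by
  refine (Pool.Agent.Lib.PRank.card_isolated_le rfl (fun i => f i - C (p i)) (fun _ => d)
    (fun _ => hd) (fun i => (totalDegree_sub_C_le _ _).trans (hf i)) Z fun z hz => ?_).trans
    (by simp)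
  obtain ⟨h1, h2⟩ := hZ z hz
  refine ⟨⟨RingHom.ker_isPrime _, Ideal.span_le.2 ?_⟩, fun P hP hz => ?_⟩
  · rintro _ ⟨i, rfl⟩
    exact Pool.Agent.Lib.PRank.CountAux.mem_pt.2 (by simp [h1])
  refine Pool.Agent.Lib.PRank.CountAux.pt_le fun v => ?_
  choose G h3 h4 using fun i => bez_taylor z (f i)
  have e : (Matrix.of G).mulVec (fun v => X v - C (z v)) = fun i => f i - C (p i) :=
    funext fun i => by rw [← h1, h3]; rfl
  have e1 := congrFun (congrArg (Matrix.of G).adjugate.mulVec e) v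
  rw [Matrix.mulVec_mulVec, Matrix.adjugate_mul, Matrix.smul_mulVec, Matrix.one_mulVec] at e1
  refine (hP.1.mem_or_mem (x := (Matrix.of G).det) ?_).resolve_left
    fun n => h2 ?_
  · exact (show (Matrix.of G).det * (X v - C (z v)) = _ from e1) ▸ Ideal.sum_mem _ fun i _ =>
      Ideal.mul_mem_left _ _ (hP.2 (Ideal.subset_span ⟨i, rfl⟩))
  · rw [← Pool.Agent.Lib.PRank.CountAux.mem_pt.1 (hz n), RingHom.map_det]
    exact congrArg _ (Matrix.ext fun i j => (h4 i j).symm)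

end Pool.Agent.Work.MP_97f157_lc.Rs
end

-- merged part: Pool.Agent.Work.MP_97f157_lc.RsArea
section
namespace Pool.Agent.Work.MP_97f157_lc.Rs

open MvPolynomial MeasureTheory

theorem area_strict {J : Type} [Fintype J] [DecidableEq J] (F : MvPolynomial J ℝ) (z : J → ℝ) :
    HasStrictFDerivAt (fun y : J → ℝ => eval y F)
      (∑ v, eval z (pderiv v F) • (ContinuousLinearMap.proj v : (J → ℝ) →L[ℝ] ℝ)) z := by
  induction F using MvPolynomial.induction_on with
  | C a => simpa using hasStrictFDerivAt_const a z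
  | add F F' h h' => simpa [add_smul, Finset.sum_add_distrib] using h.fun_add h'
  | mul_X F n h =>
    simp only [map_mul, eval_X]
    refine (h.fun_mul (hasStrictFDerivAt_apply n z)).congr_fderiv ?_
    simp [pderiv_X, Pi.single_apply, add_smul, Finset.sum_add_distrib, Finset.smul_sum, smul_smul,
      apply_ite (eval z), ite_smul]

theorem area_deriv {J : Type} [Fintype J] [DecidableEq J] (f : J → MvPolynomial J ℝ) :
    ∃ A : (J → ℝ) → (J → ℝ) →L[ℝ] (J → ℝ), ∀ z, (A z).det = (jac f z).det ∧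
      HasStrictFDerivAt (fun (z : J → ℝ) (i : J) => eval z (f i)) (A z) z := by
  refine ⟨_, fun z => ⟨?_, hasStrictFDerivAt_pi.2 fun i => area_strict (f i) z⟩⟩
  rw [← LinearMap.det_toLin']
  refine congrArg LinearMap.det (LinearMap.ext fun y => funext fun i => ?_)
  simp [jac, Matrix.mulVec, dotProduct]

/-- Derivative of a polynomial along one coordinate. -/
theorem hasDerivAt_eval_update {J : Type} [Fintype J] [DecidableEq J] (F : MvPolynomial J ℝ)
    (z : J → ℝ) (v : J) :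
    HasDerivAt (fun s : ℝ => eval (Function.update z v s) F) (eval z (pderiv v F)) (z v) := by
  have h := (area_strict F (Function.update z v (z v))).hasFDerivAt.comp_hasDerivAt _
    (hasDerivAt_update z v (z v))
  rw [Function.update_eq_self] at h
  exact h.congr_deriv (by simp [Pi.single_apply])

/-- The image of a set has volume at most the integral of the Jacobian. -/
theorem image_le_jac {J : Type} [Fintype J] [DecidableEq J] (f : J → MvPolynomial J ℝ)
    {Ω : Set (J → ℝ)} (hΩ : MeasurableSet Ω) :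
    volume ((fun (z : J → ℝ) (i : J) => eval z (f i)) '' Ω)
      ≤ ∫⁻ z in Ω, ENNReal.ofReal |(jac f z).det| := by
  obtain ⟨A, hA⟩ := area_deriv f
  simpa only [fun z => (hA z).1] using addHaar_image_le_lintegral_abs_det_fderiv volume hΩ
    fun z _ => (hA z).2.hasFDerivAt.hasFDerivWithinAt

/-- Area formula with multiplicity and Bezout. -/
theorem jac_le_image {J : Type} [Fintype J] [DecidableEq J] (f : J → MvPolynomial J ℝ) {d : ℕ}
    (hd : 1 ≤ d) (hf : ∀ i, (f i).totalDegree ≤ d) {Ω S : Set (J → ℝ)} (hΩ : MeasurableSet Ω)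
    (hS : MeasurableSet S) (h : ∀ z ∈ Ω, (fun i => eval z (f i)) ∈ S) :
    ∫⁻ z in Ω, ENNReal.ofReal |(jac f z).det|
      ≤ ((d ^ Fintype.card J : ℕ) : ENNReal) * volume S := by
  classical
  obtain ⟨A, hA⟩ := area_deriv f
  set Φ := fun (z : J → ℝ) (i : J) => eval z (f i)
  obtain ⟨T, hT, h1, h2⟩ := TopologicalSpace.isOpen_sUnion_countable
    {s | IsOpen s ∧ Set.InjOn Φ s} fun _ hs => hs.1
  obtain ⟨V, hV⟩ := (hT.insert ∅).exists_eq_range (Set.insert_nonempty _ _)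
  have hV' : ∀ n, IsOpen (V n) ∧ Set.InjOn Φ (V n) := fun n =>
    (hV.ge ⟨n, rfl⟩).elim (fun e => e ▸ ⟨isOpen_empty, Set.injOn_empty _⟩) fun e => h1 e
  have hU : MeasurableSet {z | (jac f z).det ≠ 0} := (isOpen_ne_fun (Continuous.matrix_det
    (continuous_matrix fun i j => MvPolynomial.continuous_eval _)) continuous_const).measurableSet
  obtain ⟨W, hW⟩ : ∃ W : ℕ → Set (J → ℝ),
      ∀ n, W n = disjointed V n ∩ (Ω ∩ {z | (jac f z).det ≠ 0}) := ⟨_, fun _ => rfl⟩
  have m1 : ∀ n, MeasurableSet (W n) := fun n =>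
    hW n ▸ (MeasurableSet.disjointed (fun n => (hV' n).1.measurableSet) n).inter (hΩ.inter hU)
  have i1 : ∀ n, Set.InjOn Φ (W n) := fun n => (hV' n).2.mono
    (hW n ▸ Set.inter_subset_left.trans (disjointed_subset V n))
  have d1 : ∀ n, ∀ z ∈ W n, HasFDerivWithinAt Φ (A z) (W n) z := fun n z _ =>
    (hA z).2.hasFDerivAt.hasFDerivWithinAt
  have m2 := fun n => measurable_image_of_fderivWithin (m1 n) (d1 n) (i1 n)
  calc ∫⁻ z in Ω, ENNReal.ofReal |(jac f z).det|
      ≤ ∫⁻ z in ⋃ n, W n, ENNReal.ofReal |(jac f z).det| := by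
        rw [← lintegral_indicator hΩ, ← lintegral_indicator (MeasurableSet.iUnion m1)]
        refine lintegral_mono fun z => Set.indicator_apply_le fun hz => ?_
        by_cases e : (jac f z).det = 0
        · simp [e]
        refine (Set.indicator_of_mem ?_ fun z => ENNReal.ofReal |(jac f z).det|).ge
        have k : HasStrictFDerivAt Φ (((A z).toContinuousLinearEquivOfDetNeZero
          ((hA z).1 ▸ e) : (J → ℝ) ≃L[ℝ] J → ℝ) : (J → ℝ) →L[ℝ] J → ℝ) z := (hA z).2
        obtain ⟨s, hs, hz'⟩ := h2.ge ⟨_, ⟨(k.toOpenPartialHomeomorph Φ).open_source,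
          (k.toOpenPartialHomeomorph Φ).injOn⟩, k.mem_toOpenPartialHomeomorph_source⟩
        obtain ⟨n, rfl⟩ := hV.le (Set.mem_insert_of_mem _ hs)
        obtain ⟨j, hj⟩ := Set.mem_iUnion.1 (iUnion_disjointed.ge (Set.mem_iUnion.2 ⟨n, hz'⟩))
        exact Set.mem_iUnion.2 ⟨j, hW j ▸ ⟨hj, hz, e⟩⟩
    _ ≤ ∑' n, ∫⁻ p, (Φ '' W n).indicator 1 p := by
        refine (lintegral_iUnion_le _ _).trans (ENNReal.tsum_le_tsum fun n => ?_)
        rw [lintegral_indicator_one (m2 n)]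
        simpa only [fun z => (hA z).1] using
          lintegral_abs_det_fderiv_le_addHaar_image volume (m1 n) (d1 n) (i1 n)
    _ ≤ ∫⁻ p, S.indicator (fun _ => ((d ^ Fintype.card J : ℕ) : ENNReal)) p := by
        rw [← lintegral_tsum fun n => (measurable_one.indicator (m2 n)).aemeasurable]
        refine lintegral_mono fun p => ?_
        rw [ENNReal.tsum_eq_iSup_sum]
        refine iSup_le fun s => ?_
        by_cases e : p ∈ S
        · choose! z hz using fun n (hn : p ∈ Φ '' W n) => hn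
          simp only [Set.indicator_apply, Pi.one_apply, Finset.sum_boole, if_pos e, Nat.cast_le]
          rw [← Finset.card_image_of_injOn (f := z) fun n hn j hj e => ?_]
          · refine bezout_nondeg f hd hf p _ fun y hy => ?_
            obtain ⟨n, hn, rfl⟩ := Finset.mem_image.1 hy
            obtain ⟨k1, k2⟩ := hz n (Finset.mem_filter.1 hn).2
            exact ⟨congrFun k2, (hW n ▸ k1).2.2⟩
          · by_contra n'
            exact Set.disjoint_left.1 (disjoint_disjointed V n')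
              (hW n ▸ (hz n (Finset.mem_filter.1 hn).2).1).1
              (e ▸ (hW j ▸ (hz j (Finset.mem_filter.1 hj).2).1).1)
        · refine (Finset.sum_eq_zero fun n _ => Set.indicator_of_notMem ?_ _).trans_le zero_le
          rintro ⟨z, hz, rfl⟩
          exact e (h z (hW n ▸ hz).2.1)
    _ = _ := lintegral_indicator_const hS _

end Pool.Agent.Work.MP_97f157_lc.Rs
end

-- merged part: Pool.Agent.Work.MP_97f157_lc.RsSard
section
namespace Pool.Agent.Work.MP_97f157_lc.Rs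

open MvPolynomial MeasureTheory

lemma sard_deg_pderiv {J : Type} (v : J) (F : MvPolynomial J ℝ) :
    (pderiv v F).totalDegree ≤ F.totalDegree := by
  classical
  have h : pderiv v F = ∑ s ∈ F.support, pderiv v (monomial s (coeff s F)) := by
    rw [← map_sum, ← F.as_sum]
  rw [h]
  refine totalDegree_finsetSum_le fun s hs => ?_
  rw [pderiv_monomial]
  refine (totalDegree_monomial_le _ _).trans (le_trans ?_ (le_totalDegree hs))
  exact Finsupp.sum_le_sum_index tsub_le_self (fun _ _ => monotone_id) fun _ _ => rfl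

set_option linter.unusedSectionVars false

variable {I : Type} [Fintype I] [DecidableEq I]

lemma sard_row (A : Matrix (I ⊕ I) (I ⊕ I) ℝ) (hA : ∀ b, A (Sum.inl b) = Pi.single (Sum.inl b) 1)
    (a : I) (w : I ⊕ I → ℝ) :
    (A.updateRow (Sum.inl a) w).det = A.det * w (Sum.inl a)
      + ∑ b, (A.updateRow (Sum.inl a) (Pi.single (Sum.inr b) 1)).det * w (Sum.inr b) := by
  rw [← Matrix.cramer_transpose_apply]
  conv_lhs => rw [pi_eq_sum_univ' w]
  rw [map_sum, Finset.sum_apply, Fintype.sum_sum_type]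
  simp only [map_smul, Pi.smul_apply, smul_eq_mul]
  simp only [Matrix.cramer_transpose_apply]
  congr 1
  · rw [Finset.sum_eq_single a]
    · rw [← hA a, Matrix.updateRow_eq_self, mul_comm]
    · intro b _ hb
      rw [← hA b, Matrix.det_updateRow_eq_zero (by simpa using hb), mul_zero]
    · simp
  · exact Finset.sum_congr rfl fun b _ => mul_comm _ _

/-- The map `(α, u) ↦ (α, ∇_u G)`. -/
noncomputable def sardP (G : MvPolynomial (I ⊕ I) ℝ) : I ⊕ I → MvPolynomial (I ⊕ I) ℝ :=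
  Sum.elim (fun b => X (Sum.inl b)) fun b => pderiv (Sum.inr b) G

lemma sard_jac_update (f : I ⊕ I → MvPolynomial (I ⊕ I) ℝ) (i : I ⊕ I)
    (g : MvPolynomial (I ⊕ I) ℝ) (z : I ⊕ I → ℝ) :
    jac (Function.update f i g) z = (jac f z).updateRow i fun j => eval z (pderiv j g) := by
  ext i' j
  by_cases h : i' = i
  · subst h; simp [jac]
  · simp [jac, h]

lemma sard_grad_X (i : I ⊕ I) (z : I ⊕ I → ℝ) :
    (fun j => eval z (pderiv j (X i : MvPolynomial (I ⊕ I) ℝ))) = Pi.single i 1 := by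
  funext j
  by_cases h : j = i
  · subst h; simp
  · simp [pderiv_X, h, Ne.symm h]

lemma sard_det (G g : MvPolynomial (I ⊕ I) ℝ) (a : I) (z : I ⊕ I → ℝ) :
    (jac (Function.update (sardP G) (Sum.inl a) g) z).det
      = (jac (sardP G) z).det * eval z (pderiv (Sum.inl a) g)
        + ∑ b, (jac (Function.update (sardP G) (Sum.inl a) (X (Sum.inr b))) z).det
          * eval z (pderiv (Sum.inr b) g) := by
  simp only [sard_jac_update, sard_grad_X]
  exact sard_row _ (fun b => sard_grad_X _ z) a _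

lemma sard_meas (f : I ⊕ I → MvPolynomial (I ⊕ I) ℝ) :
    Measurable fun z => ENNReal.ofReal |(jac f z).det| := by
  refine ENNReal.measurable_ofReal.comp (Continuous.measurable (Continuous.abs ?_))
  exact Continuous.matrix_det (continuous_matrix fun i j => MvPolynomial.continuous_eval _)

lemma sard_deg {G : MvPolynomial (I ⊕ I) ℝ} {d : ℕ} (hd : 1 ≤ d) (hG : G.totalDegree ≤ d)
    (i : I ⊕ I) : (sardP G i).totalDegree ≤ d := by
  rcases i with b | b
  · simpa [sardP] using hd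
  · exact (sard_deg_pderiv _ _).trans hG

lemma sard_one {G g : MvPolynomial (I ⊕ I) ℝ} {d : ℕ} (hd : 1 ≤ d) (hG : G.totalDegree ≤ d)
    (hg : g.totalDegree ≤ d) (a : I) {Ω : Set (I ⊕ I → ℝ)} (hΩ : MeasurableSet Ω)
    {lo hi τ : ℝ} (hlo : lo ≤ hi) (hτ : 0 ≤ τ)
    (h1 : ∀ z ∈ Ω, ∀ b, z (Sum.inl b) ∈ Set.Icc (0 : ℝ) 1)
    (h2 : ∀ z ∈ Ω, eval z g ∈ Set.Icc lo hi)
    (h3 : ∀ z ∈ Ω, ∀ b, |eval z (pderiv (Sum.inr b) G)| ≤ τ) :
    ∫⁻ z in Ω, ENNReal.ofReal |(jac (Function.update (sardP G) (Sum.inl a) g) z).det|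
      ≤ ENNReal.ofReal ((d : ℝ) ^ (2 * Fintype.card I) * ((hi - lo) * (2 * τ) ^ Fintype.card I)) := by
  let T : I ⊕ I → Set ℝ :=
    Sum.elim (fun b => if b = a then Set.Icc lo hi else Set.Icc 0 1) fun _ => Set.Icc (-τ) τ
  have hT : MeasurableSet (Set.pi Set.univ T) := MeasurableSet.univ_pi fun i => by
    rcases i with b | b
    · simp only [T, Sum.elim_inl]; split_ifs <;> exact measurableSet_Icc
    · exact measurableSet_Icc
  refine (jac_le_image _ hd (fun i => ?_) hΩ hT fun z hz i _ => ?_).trans (le_of_eq ?_)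
  · by_cases h : i = Sum.inl a
    · subst h; simpa using hg
    · rw [Function.update_of_ne h]; exact sard_deg hd hG i
  · rcases i with b | b
    · by_cases h : b = a
      · subst h; simpa [T] using h2 z hz
      · have := h1 z hz b
        simpa [T, h, sardP] using this
    · have := abs_le.1 (h3 z hz b)
      simpa [T, sardP] using this
  · rw [volume_pi_pi, Fintype.prod_sum_type]
    have e1 : ∏ b, volume (T (Sum.inl b)) = ENNReal.ofReal (hi - lo) := by
      rw [Finset.prod_eq_single a]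
      · simp [T]
      · intro b _ hb; simp [T, hb]
      · simp
    have e2 : ∏ b, volume (T (Sum.inr b)) = ENNReal.ofReal ((2 * τ) ^ Fintype.card I) := by
      rw [ENNReal.ofReal_pow (by positivity)]
      simp only [T, Sum.elim_inr, Real.volume_Icc, Finset.prod_const, Finset.card_univ]
      congr 2; ring
    rw [e1, e2, ENNReal.ofReal_mul (by positivity), ENNReal.ofReal_mul (by linarith only [hlo]),
      Fintype.card_sum, ← two_mul, ← ENNReal.ofReal_natCast]
    push_cast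
    rfl

/-- The penalised sum of squares. -/
noncomputable def sardG {M : ℕ} (g : Fin M → MvPolynomial (I ⊕ I) ℝ) (c : ℝ) :
    MvPolynomial (I ⊕ I) ℝ :=
  ∑ r, g r ^ 2 + C c * ∑ b, (X (Sum.inr b) - C 1) ^ 2

omit [DecidableEq I] in
lemma sardG_deg {M d : ℕ} (hd : 1 ≤ d) {g : Fin M → MvPolynomial (I ⊕ I) ℝ}
    (hg : ∀ r, (g r).totalDegree ≤ d) (c : ℝ) : (sardG g c).totalDegree ≤ 2 * d := by
  refine (totalDegree_add _ _).trans (max_le (totalDegree_finsetSum_le fun r _ => ?_) ?_)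
  · exact (totalDegree_pow _ _).trans (Nat.mul_le_mul_left _ (hg r))
  · refine (totalDegree_mul _ _).trans ?_
    rw [totalDegree_C, zero_add]
    refine totalDegree_finsetSum_le fun b _ => (totalDegree_pow _ _).trans
      (Nat.mul_le_mul_left _ ((totalDegree_sub_C_le _ _).trans ?_))
    simpa using hd

omit [DecidableEq I] in
lemma sardG_eval {M : ℕ} (g : Fin M → MvPolynomial (I ⊕ I) ℝ) (c : ℝ) (α u : I → ℝ) :
    eval (Sum.elim α u) (sardG g c)
      = ∑ r, eval (Sum.elim α u) (g r) ^ 2 + c * ∑ b, (u b - 1) ^ 2 := by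
  simp [sardG]

lemma sard_min {M : ℕ} (g : Fin M → MvPolynomial (I ⊕ I) ℝ) {ε K η : ℝ} (hε : 0 < ε) (hK : 0 < K)
    (hη : η ≤ 1 / 2) (h1 : ((M : ℝ) + Fintype.card I) / K + Fintype.card I * η ^ 2 < 1 / 4)
    (h2 : (M : ℝ) + Fintype.card I + K * (Fintype.card I * η ^ 2) ≤ K ^ 2)
    (α u0 w : I → ℝ) (hu0 : ∀ b, |u0 b - 1| ≤ η) (hg : ∀ r, |eval (Sum.elim α u0) (g r)| ≤ ε)
    (hw : ∀ b, |w b| ≤ ε ^ 2) :
    ∃ u : I → ℝ, (∀ b, u b ∈ Set.Icc (1 / 2 : ℝ) (3 / 2)) ∧
      (∀ r, |eval (Sum.elim α u) (g r)| ≤ K * ε) ∧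
      ∀ b, eval (Sum.elim α u) (pderiv (Sum.inr b) (sardG g (ε ^ 2 * K))) = w b := by
  set G := sardG g (ε ^ 2 * K) with hG
  let φ : (I → ℝ) → ℝ := fun u => eval (Sum.elim α u) G - ∑ b, w b * u b
  have hφ : Continuous φ := by
    refine Continuous.sub ((MvPolynomial.continuous_eval G).comp ?_) (by fun_prop)
    refine continuous_pi fun i => ?_
    rcases i with b | b
    · exact continuous_const
    · exact continuous_apply b
  let B : Set (I → ℝ) := Set.pi Set.univ fun _ => Set.Icc (1 / 2) (3 / 2)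
  have hB : IsCompact B := isCompact_univ_pi fun _ => isCompact_Icc
  have hu0B : u0 ∈ B := fun b _ => by
    have := abs_le.1 (hu0 b)
    constructor <;> linarith only [hη, this, this.1, this.2]
  obtain ⟨u, huB, hmin⟩ := hB.exists_isMinOn ⟨u0, hu0B⟩ hφ.continuousOn
  have hle : φ u ≤ φ u0 := hmin hu0B
  set n : ℝ := (Fintype.card I : ℝ) with hn
  have e1 : ∑ r, eval (Sum.elim α u0) (g r) ^ 2 ≤ M * ε ^ 2 := by
    have := Finset.sum_le_card_nsmul Finset.univ (fun r => eval (Sum.elim α u0) (g r) ^ 2) (ε ^ 2)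
      fun r _ => sq_le_sq' (abs_le.1 (hg r)).1 (abs_le.1 (hg r)).2
    simpa using this
  have e2 : ∑ b, (u0 b - 1) ^ 2 ≤ n * η ^ 2 := by
    have := Finset.sum_le_card_nsmul Finset.univ (fun b => (u0 b - 1) ^ 2) (η ^ 2)
      fun b _ => sq_le_sq' (abs_le.1 (hu0 b)).1 (abs_le.1 (hu0 b)).2
    simpa using this
  have e3 : ∑ b, w b * u b - ∑ b, w b * u0 b ≤ n * ε ^ 2 := by
    rw [← Finset.sum_sub_distrib]
    have := Finset.sum_le_card_nsmul Finset.univ (fun b => w b * u b - w b * u0 b) (ε ^ 2)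
      fun b _ => by
        obtain ⟨a1, a2⟩ := huB b trivial
        obtain ⟨a3, a4⟩ := hu0B b trivial
        obtain ⟨a5, a6⟩ := abs_le.1 (hw b)
        rcases le_total (u b) (u0 b) with h | h <;> nlinarith only [a1, a2, a3, a4, a5, a6]
    simpa using this
  have e4 : ∑ r, eval (Sum.elim α u) (g r) ^ 2 + ε ^ 2 * K * ∑ b, (u b - 1) ^ 2
      ≤ ε ^ 2 * (M + n + K * (n * η ^ 2)) := by
    simp only [φ, hG, sardG_eval] at hle
    have := mul_le_mul_of_nonneg_left e2 (show 0 ≤ ε ^ 2 * K by positivity)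
    linarith only [e1, e3, hle, this]
  have p1 : 0 ≤ ∑ r, eval (Sum.elim α u) (g r) ^ 2 := by positivity
  have p2 : 0 ≤ ε ^ 2 * K * ∑ b, (u b - 1) ^ 2 := by positivity
  refine ⟨u, fun b => huB b trivial, fun r => ?_, fun b => ?_⟩
  · refine abs_le_of_sq_le_sq' ?_ (by positivity) |> abs_le.2
    have := Finset.single_le_sum (f := fun r => eval (Sum.elim α u) (g r) ^ 2)
      (fun r _ => sq_nonneg _) (Finset.mem_univ r)
    have := mul_le_mul_of_nonneg_left h2 (sq_nonneg ε)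
    linarith
  · have q1 := Finset.single_le_sum (f := fun b => (u b - 1) ^ 2)
      (fun r _ => sq_nonneg _) (Finset.mem_univ b)
    have q2 : K * (u b - 1) ^ 2 ≤ M + n + K * (n * η ^ 2) := by
      refine le_of_mul_le_mul_left ?_ (show 0 < ε ^ 2 by positivity)
      have := mul_le_mul_of_nonneg_left q1 (show 0 ≤ ε ^ 2 * K by positivity)
      linarith only [e4, p1, this]
    have q3 : (u b - 1) ^ 2 < 1 / 4 := by
      refine lt_of_le_of_lt ?_ h1
      rw [div_add' _ _ _ hK.ne', le_div_iff₀ hK]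
      linarith only [q2]
    have q4 : Set.Icc (1 / 2 : ℝ) (3 / 2) ∈ nhds (u b) :=
      Icc_mem_nhds (by nlinarith only [q3]) (by nlinarith only [q3])
    have hloc : IsLocalMin (fun s => φ (Function.update u b s)) (u b) := by
      filter_upwards [q4] with s hs
      rw [Function.update_eq_self]
      refine hmin (a := Function.update u b s) fun b' _ => ?_
      by_cases h : b' = b
      · subst h; simpa using hs
      · rw [Function.update_of_ne h]; exact huB b' trivial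
    have d1 := hasDerivAt_eval_update G (Sum.elim α u) (Sum.inr b)
    have d2 : HasDerivAt (fun s => ∑ b', w b' * Function.update u b s b') (w b) (u b) := by
      have e : (fun s => ∑ b', w b' * Function.update u b s b')
          = fun s => w b * s + ∑ b' ∈ Finset.univ.erase b, w b' * u b' := by
        funext s
        rw [← Finset.add_sum_erase _ _ (Finset.mem_univ b), Function.update_self]
        congr 1
        exact Finset.sum_congr rfl fun b' hb' => by
          rw [Function.update_of_ne (Finset.ne_of_mem_erase hb')]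
      rw [e]
      simpa using ((hasDerivAt_id (u b)).const_mul (w b)).add_const
        (∑ b' ∈ Finset.univ.erase b, w b' * u b')
    have d3 : HasDerivAt (fun s => φ (Function.update u b s))
        (eval (Sum.elim α u) (pderiv (Sum.inr b) G) - w b) (u b) := by
      refine HasDerivAt.sub ?_ d2
      have e : ∀ s, Sum.elim α (Function.update u b s)
          = Function.update (Sum.elim α u) (Sum.inr b) s := fun s => Sum.elim_update_right ..
      simp only [e]
      exact d1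
    exact sub_eq_zero.1 (hloc.hasDerivAt_eq_zero d3)

lemma sard_point {M : ℕ} (g : Fin M → MvPolynomial (I ⊕ I) ℝ) (G : MvPolynomial (I ⊕ I) ℝ)
    (z : I ⊕ I → ℝ) {L κ : ℝ} (hL : 0 < L) (hκ : 0 < κ)
    (hrig : ∀ Λ : I → I → ℝ, (∀ a b, |Λ a b| ≤ L) →
        ∃ a r, κ < |eval z (pderiv (Sum.inl a) (g r))
          - ∑ b, Λ a b * eval z (pderiv (Sum.inr b) (g r))|) :
    |(jac (sardP G) z).det| ≤
      ∑ p : I × I, L⁻¹ * |(jac (Function.update (sardP G) (Sum.inl p.1) (X (Sum.inr p.2))) z).det|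
      + ∑ p : I × Fin M, κ⁻¹ * |(jac (Function.update (sardP G) (Sum.inl p.1) (g p.2)) z).det| := by
  by_contra hc
  push Not at hc
  set J := (jac (sardP G) z).det with hJ
  set S1 := ∑ p : I × I,
    L⁻¹ * |(jac (Function.update (sardP G) (Sum.inl p.1) (X (Sum.inr p.2))) z).det| with hS1
  set S2 := ∑ p : I × Fin M,
    κ⁻¹ * |(jac (Function.update (sardP G) (Sum.inl p.1) (g p.2)) z).det| with hS2
  have p1 : 0 ≤ S1 := Finset.sum_nonneg fun _ _ => by positivity
  have p2 : 0 ≤ S2 := Finset.sum_nonneg fun _ _ => by positivity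
  have hJ0 : 0 < |J| := by linarith only [hc, p1, p2]
  have hJ1 : J ≠ 0 := abs_pos.1 hJ0
  obtain ⟨a, r, h⟩ := hrig (fun a b =>
    -(jac (Function.update (sardP G) (Sum.inl a) (X (Sum.inr b))) z).det / J) fun a b => by
      clear * - L I G a b z hL J hJ0 S1 S2 hc p2
      have := Finset.single_le_sum (f := fun p : I × I =>
        L⁻¹ * |(jac (Function.update (sardP G) (Sum.inl p.1) (X (Sum.inr p.2))) z).det|)
        (fun _ _ => by positivity) (Finset.mem_univ (a, b))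
      rw [abs_div, abs_neg, div_le_iff₀ hJ0, ← inv_mul_le_iff₀ hL]
      linarith only [hc, p2, this]
  have e : eval z (pderiv (Sum.inl a) (g r)) - ∑ b,
      -(jac (Function.update (sardP G) (Sum.inl a) (X (Sum.inr b))) z).det / J
        * eval z (pderiv (Sum.inr b) (g r))
      = (jac (Function.update (sardP G) (Sum.inl a) (g r)) z).det / J := by
    rw [sard_det G (g r) a z, ← hJ, add_div, Finset.sum_div, mul_div_cancel_left₀ _ hJ1,
      sub_eq_add_neg, ← Finset.sum_neg_distrib]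
    congr 1
    exact Finset.sum_congr rfl fun b _ => by ring
  have := Finset.single_le_sum (f := fun p : I × Fin M =>
    κ⁻¹ * |(jac (Function.update (sardP G) (Sum.inl p.1) (g p.2)) z).det|)
    (fun _ _ => by clear * - κ I G M g z hκ a r; positivity) (Finset.mem_univ (a, r))
  rw [e, abs_div, lt_div_iff₀ hJ0, ← lt_inv_mul_iff₀ hκ] at h
  linarith only [hc, p1, h, this]

lemma sard_boxes {D : ℕ} (hD : 0 < D) {τ : ℝ} (hτ : 0 ≤ τ) (E : Finset (I → Fin D))
    {S : Set (I ⊕ I → ℝ)}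
    (h : ∀ e ∈ E, ∀ α w : I → ℝ, (∀ b, ((e b : ℕ) : ℝ) ≤ D * α b ∧ D * α b < (e b : ℕ) + 1) →
      (∀ b, |w b| ≤ τ) → Sum.elim α w ∈ S) :
    ENNReal.ofReal (E.card * ((1 / D : ℝ) ^ Fintype.card I * (2 * τ) ^ Fintype.card I))
      ≤ volume S := by
  have hD' : (0 : ℝ) < D := by exact_mod_cast hD
  let T : (I → Fin D) → I ⊕ I → Set ℝ := fun e =>
    Sum.elim (fun b => Set.Ico (((e b : ℕ) : ℝ) / D) ((((e b : ℕ) : ℝ) + 1) / D))
      fun _ => Set.Icc (-τ) τ
  have hmem : ∀ e, ∀ z ∈ Set.pi Set.univ (T e), ∀ b,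
      ((e b : ℕ) : ℝ) ≤ D * z (Sum.inl b) ∧ D * z (Sum.inl b) < (e b : ℕ) + 1 := fun e z hz b => by
    obtain ⟨h1, h2⟩ := hz (Sum.inl b) trivial
    rw [div_le_iff₀ hD'] at h1
    rw [lt_div_iff₀ hD'] at h2
    constructor <;> linarith only [h1, h2]
  have hsub : (⋃ e ∈ E, Set.pi Set.univ (T e)) ⊆ S := by
    intro z hz
    obtain ⟨e, he, hz⟩ := Set.mem_iUnion₂.1 hz
    have := h e he (fun b => z (Sum.inl b)) (fun b => z (Sum.inr b)) (hmem e z hz)
      fun b => abs_le.2 (hz (Sum.inr b) trivial)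
    convert this
    funext i; rcases i with b | b <;> rfl
  refine le_trans (le_of_eq ?_) (measure_mono hsub)
  rw [measure_biUnion_finset]
  · have hv : ∀ e, volume (Set.pi Set.univ (T e))
        = ENNReal.ofReal ((1 / D : ℝ) ^ Fintype.card I * (2 * τ) ^ Fintype.card I) := fun e => by
      rw [volume_pi_pi, Fintype.prod_sum_type, ENNReal.ofReal_mul (by positivity),
        ENNReal.ofReal_pow (by positivity), ENNReal.ofReal_pow (by positivity)]
      have e1 : ∀ b, (((e b : ℕ) : ℝ) + 1) / D - ((e b : ℕ) : ℝ) / D = 1 / D := fun b => by ring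
      have e2 : τ - -τ = 2 * τ := by ring
      simp only [T, Sum.elim_inl, Sum.elim_inr, Real.volume_Icc, Real.volume_Ico, e1, e2,
        Finset.prod_const, Finset.card_univ]
    simp only [hv, Finset.sum_const, nsmul_eq_mul]
    rw [ENNReal.ofReal_mul (by positivity), ENNReal.ofReal_natCast]
  · intro e _ e' _ hne
    refine Set.disjoint_left.2 fun z hz hz' => hne (funext fun b => Fin.ext ?_)
    obtain ⟨h1, h2⟩ := hmem e z hz b
    obtain ⟨h3, h4⟩ := hmem e' z hz' b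
    have h5 : (e b : ℕ) < (e' b : ℕ) + 1 := by exact_mod_cast h1.trans_lt h4
    have h6 : (e' b : ℕ) < (e b : ℕ) + 1 := by exact_mod_cast h3.trans_lt h2
    omega
  · intro e _
    refine MeasurableSet.univ_pi fun i => ?_
    rcases i with b | b
    · exact measurableSet_Ico
    · exact measurableSet_Icc

/-- Quantitative Sard theorem: if the system `g` is infinitesimally rigid over `A`, few grid
cubes consist of parameters `α` at which the system is almost solvable in `u`. -/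
theorem sard {I : Type} [Fintype I] [DecidableEq I] {M d D : ℕ} (hd : 1 ≤ d) (hD : 0 < D)
    (g : Fin M → MvPolynomial (I ⊕ I) ℝ) (hg : ∀ r, (g r).totalDegree ≤ d)
    {A : Set (I → ℝ)} (hA : MeasurableSet A) (hA1 : ∀ α ∈ A, ∀ b, α b ∈ Set.Icc (0 : ℝ) 1)
    {L κ ε K η : ℝ} (hL : 0 < L) (hκ : 0 < κ) (hε : 0 < ε) (hK : 0 < K) (hη : η ≤ 1 / 2)
    (h1 : ((M : ℝ) + Fintype.card I) / K + Fintype.card I * η ^ 2 < 1 / 4)
    (h2 : (M : ℝ) + Fintype.card I + K * (Fintype.card I * η ^ 2) ≤ K ^ 2)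
    (hrig : ∀ α ∈ A, ∀ u : I → ℝ, (∀ b, u b ∈ Set.Icc (1 / 2 : ℝ) (3 / 2)) →
      ∀ Λ : I → I → ℝ, (∀ a b, |Λ a b| ≤ L) →
        ∃ a r, κ < |eval (Sum.elim α u) (pderiv (Sum.inl a) (g r))
          - ∑ b, Λ a b * eval (Sum.elim α u) (pderiv (Sum.inr b) (g r))|)
    (E : Finset (I → Fin D))
    (hE : ∀ e ∈ E, ∀ α : I → ℝ, (∀ b, ((e b : ℕ) : ℝ) ≤ D * α b ∧ D * α b < (e b : ℕ) + 1) →
      α ∈ A ∧ ∃ u : I → ℝ, (∀ b, |u b - 1| ≤ η) ∧ ∀ r, |eval (Sum.elim α u) (g r)| ≤ ε) :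
    (E.card : ℝ) ≤ (D : ℝ) ^ Fintype.card I * (2 * d : ℝ) ^ (2 * Fintype.card I)
      * ((Fintype.card I : ℝ) ^ 2 / L + 2 * Fintype.card I * M * K * ε / κ) := by
  set G := sardG g (ε ^ 2 * K) with hG
  have hGd : G.totalDegree ≤ 2 * d := sardG_deg hd hg _
  have hd2 : 1 ≤ 2 * d := by omega
  let Ω : Set (I ⊕ I → ℝ) := {z | (fun b => z (Sum.inl b)) ∈ A ∧
    (∀ b, z (Sum.inr b) ∈ Set.Icc (1 / 2 : ℝ) (3 / 2)) ∧ (∀ r, |eval z (g r)| ≤ K * ε) ∧
    ∀ b, |eval z (pderiv (Sum.inr b) G)| ≤ ε ^ 2}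
  have hΩ : MeasurableSet Ω := by
    simp only [Ω, Set.ofPred_and, Set.ofPred_forall]
    refine MeasurableSet.inter ?_ (MeasurableSet.inter (MeasurableSet.iInter fun b => ?_)
      (MeasurableSet.inter (MeasurableSet.iInter fun r => ?_) (MeasurableSet.iInter fun b => ?_)))
    · exact hA.preimage (measurable_pi_lambda _ fun b => measurable_pi_apply _)
    · exact measurableSet_Icc.preimage (measurable_pi_apply _)
    · exact (isClosed_le (MvPolynomial.continuous_eval _).abs continuous_const).measurableSet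
    · exact (isClosed_le (MvPolynomial.continuous_eval _).abs continuous_const).measurableSet
  have s1 := sard_boxes hD (sq_nonneg ε) E
    (S := (fun (z : I ⊕ I → ℝ) i => eval z (sardP G i)) '' Ω) fun e he α w hα hw => by
      obtain ⟨hαA, u0, hu0, hg0⟩ := hE e he α hα
      obtain ⟨u, a1, a2, a3⟩ := sard_min g hε hK hη h1 h2 α u0 w hu0 hg0 hw
      refine ⟨Sum.elim α u, ⟨hαA, a1, a2, fun b => by rw [hG, a3 b]; exact hw b⟩, ?_⟩
      funext i
      rcases i with b | b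
      · simp [sardP]
      · exact a3 b
  have s2 := image_le_jac (sardP G) hΩ
  set n := Fintype.card I with hn
  set B : ℝ := ((2 * d : ℕ) : ℝ) ^ (2 * n) with hB
  set V : ℝ := (2 * ε ^ 2) ^ n with hV
  have hV0 : 0 < V := by positivity
  have s3 : ∫⁻ z in Ω, ENNReal.ofReal |(jac (sardP G) z).det| ≤ ∫⁻ z in Ω,
      (∑ p : I × I, ENNReal.ofReal L⁻¹ * ENNReal.ofReal
        |(jac (Function.update (sardP G) (Sum.inl p.1) (X (Sum.inr p.2))) z).det|
      + ∑ p : I × Fin M, ENNReal.ofReal κ⁻¹ * ENNReal.ofReal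
        |(jac (Function.update (sardP G) (Sum.inl p.1) (g p.2)) z).det|) := by
    clear * - I Ω G L M κ g hΩ hL hκ hrig A K ε
    refine setLIntegral_mono' hΩ fun z hz => ?_
    have hz' : z = Sum.elim (fun b => z (Sum.inl b)) fun b => z (Sum.inr b) := by
      funext i; rcases i with b | b <;> rfl
    have h := sard_point g G z hL hκ (by rw [hz']; exact hrig _ hz.1 _ hz.2.1)
    refine (ENNReal.ofReal_le_ofReal h).trans (le_of_eq ?_)
    rw [ENNReal.ofReal_add (by positivity) (by positivity),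
      ENNReal.ofReal_sum_of_nonneg fun _ _ => by positivity,
      ENNReal.ofReal_sum_of_nonneg fun _ _ => by positivity]
    simp only [ENNReal.ofReal_mul (inv_pos.2 hL).le, ENNReal.ofReal_mul (inv_pos.2 hκ).le]
  rw [lintegral_add_left (Finset.measurable_sum _ fun _ _ => (sard_meas _).const_mul _),
    lintegral_finsetSum _ fun _ _ => (sard_meas _).const_mul _,
    lintegral_finsetSum _ fun _ _ => (sard_meas _).const_mul _] at s3
  simp only [lintegral_const_mul _ (sard_meas _)] at s3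
  have hΩ1 : ∀ z ∈ Ω, ∀ b, z (Sum.inl b) ∈ Set.Icc (0 : ℝ) 1 := fun z hz => hA1 _ hz.1
  have s4 := Finset.sum_le_card_nsmul Finset.univ (fun p : I × I => ENNReal.ofReal L⁻¹ * ∫⁻ z in Ω,
    ENNReal.ofReal |(jac (Function.update (sardP G) (Sum.inl p.1) (X (Sum.inr p.2))) z).det|)
    (ENNReal.ofReal L⁻¹ * ENNReal.ofReal (B * ((3 / 2 - 1 / 2) * V))) fun p _ =>
    mul_le_mul_right (sard_one hd2 hGd (by simpa using hd2) p.1 hΩ (by norm_num) (sq_nonneg ε) hΩ1
      (fun z hz => by clear * - I z p M g K ε G A hz; simpa using hz.2.1 p.2) fun z hz => hz.2.2.2) _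
  have s5 := Finset.sum_le_card_nsmul Finset.univ (fun p : I × Fin M => ENNReal.ofReal κ⁻¹ *
    ∫⁻ z in Ω, ENNReal.ofReal |(jac (Function.update (sardP G) (Sum.inl p.1) (g p.2)) z).det|)
    (ENNReal.ofReal κ⁻¹ * ENNReal.ofReal (B * ((K * ε - -(K * ε)) * V))) fun p _ =>
    mul_le_mul_right (sard_one hd2 hGd ((hg _).trans (by omega)) p.1 hΩ
      (neg_le_self (by positivity)) (sq_nonneg ε) hΩ1
      (fun z hz => abs_le.1 (hz.2.2.1 p.2)) fun z hz => hz.2.2.2) _
  have s6 := s1.trans (s2.trans (s3.trans (add_le_add s4 s5)))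
  have hB0 : 0 ≤ B := by positivity
  have hKε : 0 < K * ε := by positivity
  have e1 : K * ε - -(K * ε) = 2 * (K * ε) := by ring
  have e2 : (3 / 2 - 1 / 2 : ℝ) = 1 := by norm_num
  rw [e1, e2, nsmul_eq_mul, nsmul_eq_mul, ← ENNReal.ofReal_natCast, ← ENNReal.ofReal_natCast,
    ← ENNReal.ofReal_mul (by positivity), ← ENNReal.ofReal_mul (by clear * - I; positivity),
    ← ENNReal.ofReal_mul (by positivity), ← ENNReal.ofReal_mul (by clear * - I M; positivity),
    ← ENNReal.ofReal_add (by clear * - I L B V hL d hd n ε hε; positivity) (by clear * - I M κ B K ε V hκ d hd n hK hε; positivity),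
    ENNReal.ofReal_le_ofReal_iff (by clear * - I L B V M κ K ε hL d hd n hε hκ hK s6; positivity)] at s6
  simp only [Finset.card_univ, Fintype.card_prod, Fintype.card_fin, ← hn] at s6
  have hD' : (0 : ℝ) < D := by exact_mod_cast hD
  have hDn : (0 : ℝ) < (D : ℝ) ^ n := by positivity
  refine le_of_mul_le_mul_right (a := (1 / D : ℝ) ^ n * V) (s6.trans (le_of_eq ?_))
    (by positivity)
  rw [hB, one_div_pow]
  push_cast
  clear * - n L d V M κ K ε D hκ hL hD hV0 hd; field_simp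

end Pool.Agent.Work.MP_97f157_lc.Rs
end

-- merged part: Pool.Agent.Work.MP_97f157_lc.RsGap
section
namespace Pool.Agent.Work.MP_97f157_lc.Rs

open Finset

variable {k m t q : ℕ}

/-- Shifting the variable rescales the coefficients. -/
theorem cf_shift (π : Fin k → Fin m → Fin q) (a : Fin k → ℝ) (c α : Ix q t → ℝ) (s : ℝ)
    (x : Pa k m t) :
    cf π a (fun b => c b * Real.exp (α b * s)) x = cf π a c x * Real.exp (wt π α x * s) := by
  simp only [cf, wt, Finset.prod_mul_distrib, Finset.sum_mul, Real.exp_sum, mul_assoc]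

/-- The exponent of a path is an integer combination of the exponents. -/
theorem wt_eq (π : Fin k → Fin m → Fin q) (α : Ix q t → ℝ) (x : Pa k m t) :
    wt π α x = ∑ b, (mu π b x : ℝ) * α b := by
  rw [wt, ← Finset.sum_fiberwise (s := univ) (g := fun j => sl π x j)]
  refine Finset.sum_congr rfl fun b _ => ?_
  rw [Finset.sum_congr rfl (g := fun _ => α b) fun j hj => by rw [(Finset.mem_filter.1 hj).2],
    Finset.sum_const, nsmul_eq_mul, mu]

theorem mu_le (π : Fin k → Fin m → Fin q) (b : Ix q t) (x : Pa k m t) : mu π b x ≤ m := by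
  simpa [mu] using Finset.card_filter_le (univ : Finset (Fin m)) fun j => sl π x j = b

/-- Few grid points lie near an integer hyperplane of small height. -/
theorem gap_count {I : Type} [Fintype I] [DecidableEq I] {D H : ℕ} {R : ℝ} (hR : 0 ≤ R)
    (E : Finset (I → Fin D))
    (hE : ∀ e ∈ E, ∃ v : I → ℤ, v ≠ 0 ∧ (∀ b, |v b| ≤ H) ∧
      |∑ b, (v b : ℝ) * ((e b : ℕ) : ℝ)| < R) :
    (E.card : ℝ) * D ≤ (2 * H + 1 : ℝ) ^ Fintype.card I * (D : ℝ) ^ Fintype.card I
      * (2 * R + 1) := by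
  rcases isEmpty_or_nonempty I with hI | hI
  · obtain rfl : E = ∅ := Finset.eq_empty_of_forall_notMem fun e he => by
      obtain ⟨v, hv, -⟩ := hE e he
      exact hv (Subsingleton.elim _ _)
    rw [Finset.card_empty, Nat.cast_zero, zero_mul]
    positivity
  choose! v hv hH hv' using hE
  have h0 : ∀ u : I → ℤ, u ≠ 0 → ∃ b, u b ≠ 0 := fun u hu => Function.ne_iff.1 hu
  choose! β hβ using h0
  have h1 : (E ×ˢ (univ : Finset (Fin D))).card ≤
      ((Fintype.piFinset fun _ : I => Finset.Icc (-(H : ℤ)) H) ×ˢ (univ : Finset (I → Fin D)) ×ˢ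
        Finset.Icc (-(⌊R⌋₊ : ℤ)) ⌊R⌋₊).card := by
    refine Finset.card_le_card_of_injOn (fun z => (v z.1, Function.update z.1 (β (v z.1)) z.2,
      ∑ b, v z.1 b * ((z.1 b : ℕ) : ℤ))) (fun z hz => ?_) fun z hz z' hz' e => ?_
    · have hz1 := (Finset.mem_product.1 hz).1
      refine Finset.mem_product.2 ⟨Fintype.mem_piFinset.2 fun b =>
        Finset.mem_Icc.2 (abs_le.1 (hH _ hz1 b)), Finset.mem_product.2 ⟨mem_univ _, ?_⟩⟩
      refine Finset.mem_Icc.2 (abs_le.1 ?_)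
      rw [Int.natCast_floor_eq_floor hR, Int.le_floor]
      push_cast
      exact (hv' _ hz1).le
    · have hz1 := (Finset.mem_product.1 hz).1
      simp only [Prod.mk.injEq] at e
      obtain ⟨e1, e2, e3⟩ := e
      rw [← e1] at e2 e3
      have e4 : ∀ b, b ≠ β (v z.1) → z.1 b = z'.1 b := fun b hb => by
        simpa [Function.update_of_ne hb] using congrFun e2 b
      have e5 : z.2 = z'.2 := by simpa using congrFun e2 (β (v z.1))
      refine Prod.ext (funext fun b => ?_) e5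
      by_cases hb : b = β (v z.1)
      · rw [← Finset.add_sum_erase _ _ (mem_univ b), ← Finset.add_sum_erase _ _ (mem_univ b),
          Finset.sum_congr rfl fun b' hb' => by
            rw [e4 b' (hb ▸ (Finset.mem_erase.1 hb').1)]] at e3
        have e6 := mul_left_cancel₀ (hb ▸ hβ _ (hv _ hz1)) (add_right_cancel e3)
        exact Fin.ext (by exact_mod_cast e6)
      · exact e4 b hb
  have h2 : ∀ n : ℕ, (Finset.Icc (-(n : ℤ)) n).card = 2 * n + 1 := fun n => by
    rw [Int.card_Icc]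
    omega
  simp only [Finset.card_product, Fintype.card_piFinset, h2, Finset.prod_const, Finset.card_univ,
    Fintype.card_fin, Fintype.card_fun] at h1
  have h3 : (E.card : ℝ) * D ≤ (2 * H + 1 : ℝ) ^ Fintype.card I *
      ((D : ℝ) ^ Fintype.card I * (2 * (⌊R⌋₊ : ℝ) + 1)) := by exact_mod_cast h1
  have h4 := Nat.floor_le hR
  rw [mul_assoc]
  refine h3.trans ?_
  gcongr

end Pool.Agent.Work.MP_97f157_lc.Rs
end

-- merged part: Pool.Agent.Work.MP_97f157_lc.RsZero
section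
namespace Pool.Agent.Work.MP_97f157_lc.Rs

open Finset

/-- One Rolle step on a finite set of zeros. -/
theorem zer_rolle {f f' : ℝ → ℝ} (hf : ∀ s, HasDerivAt f (f' s) s) {a b : ℝ} (T : Finset ℝ)
    (hT : ∀ s ∈ T, s ∈ Set.Icc a b ∧ f s = 0) :
    ∃ T' : Finset ℝ, T.card ≤ T'.card + 1 ∧ ∀ s ∈ T', s ∈ Set.Icc a b ∧ f' s = 0 := by
  classical
  have h : ∀ z : ℝ × ℝ, ∃ c, z.1 ∈ T → z.2 ∈ T → z.1 < z.2 → c ∈ Set.Ioo z.1 z.2 ∧ f' c = 0 := by
    intro z
    by_cases hz : z.1 ∈ T ∧ z.2 ∈ T ∧ z.1 < z.2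
    · obtain ⟨c, hc⟩ := exists_hasDerivAt_eq_zero hz.2.2
        (fun s _ => (hf s).continuousAt.continuousWithinAt)
        ((hT _ hz.1).2.trans (hT _ hz.2.1).2.symm) fun s _ => hf s
      exact ⟨c, fun _ _ _ => hc⟩
    · exact ⟨0, fun h1 h2 h3 => absurd ⟨h1, h2, h3⟩ hz⟩
  choose c hc using h
  refine ⟨((T ×ˢ T).filter fun z => z.1 < z.2).image c, ?_, fun s hs => ?_⟩
  · refine card_le_of_interleaved fun x hx y hy hxy _ => ?_
    exact ⟨c (x, y), mem_image_of_mem _ (mem_filter.2 ⟨mem_product.2 ⟨hx, hy⟩, hxy⟩),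
      (hc (x, y) hx hy hxy).1⟩
  · obtain ⟨z, hz, rfl⟩ := mem_image.1 hs
    obtain ⟨h1, h2⟩ := mem_filter.1 hz
    obtain ⟨h3, h4⟩ := mem_product.1 h1
    obtain ⟨h5, h6⟩ := hc z h3 h4 h2
    exact ⟨⟨(hT _ h3).1.1.trans h5.1.le, h5.2.le.trans (hT _ h4).1.2⟩, h6⟩

/-- Many zeros in a short interval make all lower derivatives small. -/
theorem zer_small {g : ℕ → ℝ → ℝ} (hg : ∀ i s, HasDerivAt (g i) (g (i + 1) s) s) {a b len S : ℝ}
    (hlen : b - a ≤ len) {Z : ℕ} (T : Finset ℝ) (hZ : Z ≤ T.card)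
    (hT : ∀ s ∈ T, s ∈ Set.Icc a b ∧ g 0 s = 0) (hS : ∀ s ∈ Set.Icc a b, |g Z s| ≤ S) :
    ∀ j i, i + j = Z → ∀ s ∈ Set.Icc a b, |g i s| ≤ S * len ^ j := by
  have h1 : ∀ i, ∃ T' : Finset ℝ, Z ≤ T'.card + i ∧ ∀ s ∈ T', s ∈ Set.Icc a b ∧ g i s = 0 := by
    intro i
    induction i with
    | zero => exact ⟨T, hZ, hT⟩
    | succ i ih =>
      obtain ⟨T1, h1, h2⟩ := ih
      obtain ⟨T2, h3, h4⟩ := zer_rolle (hg i) T1 h2
      exact ⟨T2, by omega, h4⟩
  intro j
  induction j with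
  | zero =>
    intro i hi s hs
    obtain rfl : i = Z := by omega
    simpa using hS s hs
  | succ j ih =>
    intro i hi s hs
    obtain ⟨T1, h2, h3⟩ := h1 i
    obtain ⟨z, hz⟩ : T1.Nonempty := card_pos.1 (by omega)
    obtain ⟨hz1, hz2⟩ := h3 z hz
    have hb := ih (i + 1) (by omega)
    have h4 := (convex_Icc a b).norm_image_sub_le_of_norm_hasDerivWithin_le
      (fun t _ => (hg i t).hasDerivWithinAt) (C := S * len ^ j) hb hz1 hs
    rw [hz2, sub_zero, Real.norm_eq_abs, Real.norm_eq_abs] at h4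
    have h5 : |s - z| ≤ len := by
      rw [abs_le]; constructor <;> linarith only [hlen, hs.1, hs.2, hz1.1, hz1.2]
    have h6 : 0 ≤ S * len ^ j := (abs_nonneg _).trans (hb s hs)
    calc |g i s| ≤ S * len ^ j * |s - z| := h4
      _ ≤ S * len ^ j * len := mul_le_mul_of_nonneg_left h5 h6
      _ = S * len ^ (j + 1) := by ring

/-- The logarithmic scale. -/
theorem zer_key {Z k : ℕ} (hZ : 1 ≤ Z) {b l : ℝ} (hb : 0 < b) (hl : 0 ≤ l)
    (hk : ⌊4 * (Z : ℝ) * Real.log (1 + l / b)⌋₊ = k) :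
    b * (Real.exp (k / (4 * Z)) - 1) ≤ l ∧
      l ≤ b * (Real.exp (k / (4 * Z)) - 1) + (b * (Real.exp (k / (4 * Z)) - 1) + b) / (2 * Z) := by
  have hZ' : (1 : ℝ) ≤ Z := by exact_mod_cast hZ
  have h4 : (0 : ℝ) < 4 * Z := by linarith only [hZ']
  have hq : 0 ≤ l / b := div_nonneg hl hb.le
  have hp : 0 < 1 + l / b := by linarith only [hq]
  have h0 : 0 ≤ 4 * (Z : ℝ) * Real.log (1 + l / b) :=
    mul_nonneg h4.le (Real.log_nonneg (by linarith only [hq]))
  have h1 := Nat.floor_le h0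
  have h2 := Nat.lt_floor_add_one (4 * (Z : ℝ) * Real.log (1 + l / b))
  rw [hk] at h1 h2
  have e : l = b * (l / b) := by field_simp
  have a1 : Real.exp (k / (4 * Z)) ≤ 1 + l / b := by
    rw [← Real.le_log_iff_exp_le hp, div_le_iff₀ h4]; linarith only [h1]
  have a2 : 1 + l / b ≤ Real.exp (k / (4 * Z) + 1 / (4 * Z)) := by
    rw [← Real.log_le_iff_le_exp hp, ← add_div, le_div_iff₀ h4]; linarith only [h2]
  have x0 : (0 : ℝ) < 1 / (4 * Z) := by positivity
  have x1 : (1 : ℝ) / (4 * Z) ≤ 1 / 4 := one_div_le_one_div_of_le (by norm_num) (by linarith only [hZ'])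
  have a3 : Real.exp (1 / (4 * Z)) ≤ 1 + 2 * (1 / (4 * Z)) := by
    refine (Real.exp_bound_div_one_sub_of_interval x0.le (by linarith only [x0, x1])).trans ?_
    rw [div_le_iff₀ (by linarith only [x0, x1])]
    nlinarith only [x0, x1]
  rw [Real.exp_add] at a2
  set E := Real.exp (k / (4 * Z)) with hE
  have hE0 : 0 < E := Real.exp_pos _
  have a4 : 1 + l / b ≤ E * (1 + 2 * (1 / (4 * Z))) :=
    a2.trans (mul_le_mul_of_nonneg_left a3 hE0.le)
  constructor
  · rw [e]; exact mul_le_mul_of_nonneg_left (by linarith only [a1]) hb.le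
  · have : b * (E - 1) + (b * (E - 1) + b) / (2 * Z) = b * (E * (1 + 2 * (1 / (4 * Z))) - 1) := by
      field_simp; ring
    rw [this, e]
    exact mul_le_mul_of_nonneg_left (by linarith only [a4]) hb.le

/-- The derivatives of the normalised exponential sum. -/
noncomputable def zer_g {X : Type} [Fintype X] (v cf : X → ℝ) (i : ℕ) (s : ℝ) : ℝ :=
  ∑ x, cf x * v x ^ i * Real.exp (v x * s)

theorem zer_deriv {X : Type} [Fintype X] (v cf : X → ℝ) (i : ℕ) (s : ℝ) :
    HasDerivAt (zer_g v cf i) (zer_g v cf (i + 1) s) s := by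
  refine HasDerivAt.fun_sum fun x _ => ?_
  have h := (((hasDerivAt_id s).const_mul (v x)).exp).const_mul (cf x * v x ^ i)
  refine h.congr_deriv ?_
  simp only [id]
  ring

theorem zer_abs {X : Type} [Fintype X] (v cf : X → ℝ) (i : ℕ) (s : ℝ) {B : ℝ}
    (h : ∀ x, |v x| ^ i * (|cf x| * Real.exp (v x * s)) ≤ B) :
    |zer_g v cf i s| ≤ Fintype.card X * B := by
  refine (abs_sum_le_sum_abs _ _).trans ?_
  rw [← nsmul_eq_mul, ← card_univ]
  refine sum_le_card_nsmul _ _ _ fun x _ => ?_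
  rw [abs_mul, abs_mul, abs_pow, abs_of_pos (Real.exp_pos _)]
  linarith only [h, h x]

theorem zer_nc {X : Type} [Fintype X] (w cf : X → ℝ) {W w0 e s B : ℝ} {M r : ℕ}
    (h0 : 0 ≤ w0) (h1 : w0 ≤ W) (hr : r < M)
    (h : e * Real.exp (w0 * s) ≤ |∑ x, cf x * Real.exp (w x * s) * w x ^ r / (r.factorial : ℝ)|)
    (hB : ∀ i < M, |zer_g (fun x => w x - w0) cf i s| ≤ B) : e ≤ (1 + W) ^ M * B := by
  have hB0 : 0 ≤ B := (abs_nonneg _).trans (hB 0 (by omega))
  have hE := Real.exp_pos (w0 * s)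
  have e1 : ∑ x, cf x * Real.exp (w x * s) * w x ^ r / (r.factorial : ℝ) =
      (∑ i ∈ range (r + 1), zer_g (fun x => w x - w0) cf i s * (w0 ^ (r - i) * r.choose i)) *
        Real.exp (w0 * s) / (r.factorial : ℝ) := by
    simp only [zer_g, sum_mul]
    rw [sum_comm, sum_div]
    refine sum_congr rfl fun x _ => ?_
    have : w x ^ r = ((w x - w0) + w0) ^ r := by ring
    rw [this, add_pow, mul_sum,
      show Real.exp (w x * s) = Real.exp ((w x - w0) * s) * Real.exp (w0 * s) by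
        rw [← Real.exp_add]; ring_nf]
    refine congrArg (· / (r.factorial : ℝ)) (sum_congr rfl fun i _ => ?_)
    ring
  have hf : (1 : ℝ) ≤ r.factorial := by exact_mod_cast r.factorial_pos
  have e2 : |∑ i ∈ range (r + 1), zer_g (fun x => w x - w0) cf i s * (w0 ^ (r - i) * r.choose i)|
      ≤ (1 + W) ^ M * B := by
    calc _ ≤ ∑ i ∈ range (r + 1), B * (1 ^ i * w0 ^ (r - i) * r.choose i) := by
          refine (abs_sum_le_sum_abs _ _).trans (sum_le_sum fun i hi => ?_)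
          have hp : 0 ≤ w0 ^ (r - i) * r.choose i := by positivity
          rw [abs_mul, abs_of_nonneg hp, one_pow, one_mul]
          exact mul_le_mul_of_nonneg_right (hB i (by have := mem_range.1 hi; omega)) hp
      _ = (1 + w0) ^ r * B := by rw [← mul_sum, ← add_pow, mul_comm]
      _ ≤ (1 + W) ^ M * B := by
          refine mul_le_mul_of_nonneg_right ?_ hB0
          exact (pow_le_pow_left₀ (by linarith only [h0]) (by linarith only [h1]) r).trans
            (pow_le_pow_right₀ (by linarith only [h0, h1]) hr.le)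
  rw [e1, abs_div, abs_mul, abs_of_pos hE, abs_of_pos (by linarith only [hf] : (0 : ℝ) < r.factorial)] at h
  refine le_trans (le_of_mul_le_mul_right (h.trans ?_) hE) e2
  exact div_le_self (by positivity) hf

theorem zer_dom {c v A P Q s l : ℝ} (hc : 0 ≤ c) (hP : c * Real.exp (v * P) ≤ A)
    (hQ : c * Real.exp (v * Q) ≤ A) (h1 : l ≤ s - P) (h2 : l ≤ Q - s) :
    c * Real.exp (v * s) ≤ A * Real.exp (-(|v| * l)) := by
  rcases le_total 0 v with hv | hv
  · rw [abs_of_nonneg hv]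
    calc c * Real.exp (v * s) ≤ c * (Real.exp (v * Q) * Real.exp (-(v * l))) := by
          rw [← Real.exp_add]
          exact mul_le_mul_of_nonneg_left (Real.exp_le_exp.2 (by linarith only [h2, hv, mul_nonneg_of_nonpos_of_nonpos (Mathlib.Tactic.Linarith.sub_nonpos_of_le h2) (Mathlib.Tactic.Linarith.sub_nonpos_of_le hv)])) hc
      _ ≤ A * Real.exp (-(v * l)) := by
          rw [← mul_assoc]; exact mul_le_mul_of_nonneg_right hQ (Real.exp_pos _).le
  · rw [abs_of_nonpos hv]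
    calc c * Real.exp (v * s) ≤ c * (Real.exp (v * P) * Real.exp (-(-v * l))) := by
          rw [← Real.exp_add]
          exact mul_le_mul_of_nonneg_left (Real.exp_le_exp.2 (by linarith only [h1, hv, mul_nonneg_of_nonpos_of_nonpos (Mathlib.Tactic.Linarith.sub_nonpos_of_le h1) (Mathlib.Tactic.Linarith.sub_nonpos_of_le hv)])) hc
      _ ≤ A * Real.exp (-(-v * l)) := by
          rw [← mul_assoc]; exact mul_le_mul_of_nonneg_right hP (Real.exp_pos _).le

theorem zer_half {u W lam : ℝ} {Z : ℕ} (hZ : 1 ≤ Z) (hW : 1 ≤ W) (hu0 : 0 ≤ u) (hu : u ≤ W)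
    (hl : 0 ≤ lam) :
    u ^ Z * Real.exp (-(u * lam)) * ((lam + Z / W) / (2 * Z)) ^ Z ≤ (1 / 2) ^ Z := by
  have hZ' : (1 : ℝ) ≤ Z := by exact_mod_cast hZ
  have h1 := Real.one_sub_div_pow_le_exp_neg (n := Z) (t := -(u * lam))
    (by linarith only [hZ', hu0, hl, mul_nonneg hu0 hl])
  rw [neg_neg] at h1
  have h2 : u * ((lam + Z / W) / (2 * Z)) ≤ 1 / 2 * (1 - -(u * lam) / Z) := by
    have : u / W ≤ 1 := (div_le_one (by linarith only [hW])).2 hu
    have e1 : u * ((lam + Z / W) / (2 * Z)) = 1 / 2 * (u / W - -(u * lam) / Z) := by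
      field_simp; ring
    rw [e1]; linarith only [this]
  have h3 := pow_le_pow_left₀ (by positivity) h2 Z
  rw [mul_pow, mul_pow] at h3
  have h4 : Real.exp (u * lam) * Real.exp (-(u * lam)) = 1 := by rw [← Real.exp_add]; simp
  calc u ^ Z * Real.exp (-(u * lam)) * ((lam + Z / W) / (2 * Z)) ^ Z
      = u ^ Z * ((lam + Z / W) / (2 * Z)) ^ Z * Real.exp (-(u * lam)) := by ring
    _ ≤ (1 / 2) ^ Z * Real.exp (u * lam) * Real.exp (-(u * lam)) :=
        mul_le_mul_of_nonneg_right (h3.trans (mul_le_mul_of_nonneg_left h1 (by positivity)))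
          (Real.exp_pos _).le
    _ = (1 / 2) ^ Z := by rw [mul_assoc, h4, mul_one]

/-- Zeros of an exponential sum without cancellation at which one fixed term dominates. -/
theorem zero_top {X : Type} [Fintype X] (w cf : X → ℝ) {W δ ε l0 : ℝ} {M Z U : ℕ}
    (hW : 1 ≤ W) (hw : ∀ x, w x ∈ Set.Icc 0 W) (hδ : 0 < δ)
    (hgap : ∀ x x', w x = w x' ∨ δ ≤ |w x - w x'|)
    (hNC : ∀ (s : ℝ) (x : X), ∃ r < M, ε * (|cf x| * Real.exp (w x * s))
      ≤ |∑ x', cf x' * Real.exp (w x' * s) * w x' ^ r / (r.factorial : ℝ)|)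
    (hMZ : M ≤ Z) (hZ : 1 ≤ Z)
    (hfar : (Fintype.card X : ℝ) * (1 + W) ^ (2 * M) * Real.exp (-(δ * l0)) < ε)
    (hnear : (Fintype.card X : ℝ) * ((1 + W) * (2 * W)) ^ M * (1 / 2) ^ Z < ε)
    (hU : 1 + l0 * W / Z ≤ Real.exp U)
    (x0 : X) (h0 : cf x0 ≠ 0) (Y : Finset ℝ)
    (hY : ∀ s ∈ Y, ∑ x, cf x * Real.exp (w x * s) = 0)
    (htop : ∀ s ∈ Y, ∀ x, |cf x| * Real.exp (w x * s) ≤ |cf x0| * Real.exp (w x0 * s)) :
    Y.card ≤ 2 * (4 * Z * U + 1) * Z := by
  classical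
  rcases Y.eq_empty_or_nonempty with rfl | hne
  · simp
  have hZ' : (1 : ℝ) ≤ Z := by exact_mod_cast hZ
  set v : X → ℝ := fun x => w x - w x0 with hv
  set A := |cf x0| with hA
  have hA0 : 0 < A := abs_pos.2 h0
  have hvW : ∀ x, |v x| ≤ W := fun x => by
    rw [abs_le]; constructor <;> linarith only [(hw x).1, (hw x).2, (hw x0).1, (hw x0).2, hv ▸ rfl (a := v x)]
  have hexp : ∀ x s, Real.exp (w x * s) = Real.exp (v x * s) * Real.exp (w x0 * s) := fun x s => by
    rw [← Real.exp_add]; simp only [hv]; ring_nf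
  have g0 : ∀ s ∈ Y, zer_g v cf 0 s = 0 := fun s hs => by
    have h := hY s hs
    have e : zer_g v cf 0 s * Real.exp (w x0 * s) = 0 := by
      rw [← h, zer_g, sum_mul]
      exact sum_congr rfl fun x _ => by rw [hexp x s]; ring
    exact (mul_eq_zero.1 e).resolve_right (Real.exp_pos _).ne'
  have top : ∀ s ∈ Y, ∀ x, |cf x| * Real.exp (v x * s) ≤ A := fun s hs x => by
    have h := htop s hs x
    rw [hexp x s, ← mul_assoc] at h
    exact le_of_mul_le_mul_right h (Real.exp_pos _)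
  have nc : ∀ s B, (∀ i < M, |zer_g v cf i s| ≤ B) → ε * A ≤ (1 + W) ^ M * B := fun s B hB => by
    obtain ⟨r, hr, h⟩ := hNC s x0
    rw [← mul_assoc] at h
    exact zer_nc w cf (hw x0).1 (hw x0).2 hr h hB
  set P := Y.min' hne with hP
  set Q := Y.max' hne with hQ
  have hPY : P ∈ Y := Y.min'_mem hne
  have hQY : Q ∈ Y := Y.max'_mem hne
  have dom : ∀ s l, l ≤ s - P → l ≤ Q - s → ∀ x,
      |cf x| * Real.exp (v x * s) ≤ A * Real.exp (-(|v x| * l)) := fun s l h1 h2 x =>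
    zer_dom (abs_nonneg _) (top P hPY x) (top Q hQY x) h1 h2
  set l : ℝ → ℝ := fun s => min (s - P) (Q - s) with hl
  have l1 : ∀ s, l s ≤ s - P := fun s => min_le_left _ _
  have l2 : ∀ s, l s ≤ Q - s := fun s => min_le_right _ _
  have l0' : ∀ s ∈ Y, 0 ≤ l s := fun s hs =>
    le_min (sub_nonneg.2 (Y.min'_le s hs)) (sub_nonneg.2 (Y.le_max' s hs))
  have far : ∀ s ∈ Y, l s < l0 := fun s hs => by
    clear * - l s l0 W M A δ hW cf x0 h0 ε X nc v g0 hs w hgap hvW dom l1 l2 hδ l0' hA0 hfar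
    by_contra hc
    push Not at hc
    have hpos : 0 ≤ (1 + W) ^ M * (A * Real.exp (-(δ * l0))) := by positivity
    have h := nc s (Fintype.card X * ((1 + W) ^ M * (A * Real.exp (-(δ * l0))))) fun i hi => by
      rcases Nat.eq_zero_or_pos i with rfl | hi0
      · rw [g0 s hs, abs_zero]; positivity
      · refine zer_abs v cf i s fun x => ?_
        rcases hgap x x0 with hx | hx
        · have : v x = 0 := sub_eq_zero.2 hx
          rw [this, abs_zero, zero_pow hi0.ne', zero_mul]; exact hpos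
        · refine mul_le_mul ?_ ((dom s (l s) (l1 s) (l2 s) x).trans ?_) (by positivity)
            (by positivity)
          · exact (pow_le_pow_left₀ (abs_nonneg _) (by linarith only [hvW, hvW x]) i).trans
              (pow_le_pow_right₀ (by linarith only [hW]) hi.le)
          · refine mul_le_mul_of_nonneg_left (Real.exp_le_exp.2 (neg_le_neg ?_)) hA0.le
            exact (mul_le_mul_of_nonneg_left hc hδ.le).trans
              (mul_le_mul_of_nonneg_right hx (l0' s hs))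
    have h2 := mul_lt_mul_of_pos_right hfar hA0
    rw [two_mul, pow_add] at h2
    linarith only [h, h2]
  set b : ℝ := Z / W with hb
  have hb0 : 0 < b := by positivity
  let key : ℝ → Bool × ℕ := fun s =>
    (decide (s - P ≤ Q - s), ⌊4 * (Z : ℝ) * Real.log (1 + l s / b)⌋₊)
  have hmap : ∀ s ∈ Y, key s ∈ (univ : Finset Bool) ×ˢ range (4 * Z * U + 1) := fun s hs => by
    clear * - Z U key s l b l0 W hb far hs hW l0' hb0 hU hZ'
    refine mem_product.2 ⟨mem_univ _, mem_range.2 (Nat.lt_succ_of_le (Nat.floor_le_of_le ?_))⟩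
    have h1 : l s / b ≤ l0 * W / Z := by
      rw [hb, div_div_eq_mul_div]
      exact div_le_div_of_nonneg_right
        (mul_le_mul_of_nonneg_right (far s hs).le (by linarith only [hW])) (by linarith only [hZ'])
    have h2 : 0 ≤ l s / b := div_nonneg (l0' s hs) hb0.le
    have h3 : Real.log (1 + l s / b) ≤ U := by
      rw [Real.log_le_iff_le_exp (by linarith only [h2])]; linarith only [hU, h1]
    push_cast
    exact mul_le_mul_of_nonneg_left h3 (by linarith only [hZ'])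
  have hfib := card_le_mul_card_image_of_maps_to hmap Z fun z _ => ?_
  · rw [card_product, card_univ, Fintype.card_bool, card_range] at hfib
    linarith only [hfib]
  by_contra hc
  push Not at hc
  set T := Y.filter fun a => key a = z with hT
  have hTne : T.Nonempty := card_pos.1 (by omega)
  set lam := b * (Real.exp (z.2 / (4 * Z)) - 1) with hlam
  have hlam0 : 0 ≤ lam :=
    mul_nonneg hb0.le (sub_nonneg.2 (Real.one_le_exp (by positivity)))
  set len := (lam + b) / (2 * Z) with hlen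
  have hlen0 : 0 < len := by positivity
  have hk : ∀ s ∈ T, lam ≤ l s ∧ l s ≤ lam + len := fun s hs =>
    zer_key hZ hb0 (l0' s (mem_filter.1 hs).1) (congrArg Prod.snd (mem_filter.1 hs).2)
  set s1 := T.min' hTne with hs1
  set s2 := T.max' hTne with hs2
  have m1 : s1 ∈ T := T.min'_mem hTne
  have m2 : s2 ∈ T := T.max'_mem hTne
  have hside : (s1 - P ≤ Q - s1) ↔ (s2 - P ≤ Q - s2) :=
    decide_eq_decide.1 (congrArg Prod.fst ((mem_filter.1 m1).2.trans (mem_filter.1 m2).2.symm))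
  have hd : s2 - s1 ≤ len := by
    have a1 := hk s1 m1
    have a2 := hk s2 m2
    by_cases h : s1 - P ≤ Q - s1
    · have e1 : l s1 = s1 - P := min_eq_left h
      have e2 : l s2 = s2 - P := min_eq_left (hside.1 h)
      linarith only [a1, a2, e1, e2, a1.1, a2.2]
    · have e1 : l s1 = Q - s1 := min_eq_right (not_le.1 h).le
      have e2 : l s2 = Q - s2 := min_eq_right (not_le.1 fun h' => h (hside.2 h')).le
      linarith only [a1, a2, e1, e2, a1.2, a2.1]
  have hS : ∀ s ∈ Set.Icc s1 s2,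
      |zer_g v cf Z s| ≤ Fintype.card X * (A * (1 / 2) ^ Z / len ^ Z) := fun s hs => by
    clear * - X v cf Z s A len lam dom P l s1 W z b hk m1 l1 s2 hs Q m2 l2 hZ hW hvW hlam0 hA0
    refine zer_abs v cf Z s fun x => ?_
    have a1 := dom s lam (by linarith only [hk, m1, l1, hs, (hk s1 m1).1, l1 s1, hs.1])
      (by linarith only [hk, m2, l2, hs, (hk s2 m2).1, l2 s2, hs.2]) x
    have a2 := zer_half hZ hW (abs_nonneg (v x)) (hvW x) hlam0
    rw [le_div_iff₀ (by positivity)]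
    calc |v x| ^ Z * (|cf x| * Real.exp (v x * s)) * len ^ Z
        ≤ |v x| ^ Z * (A * Real.exp (-(|v x| * lam))) * len ^ Z := by clear * - len Z v x cf s A lam a1 b hlam0 W hZ hW; gcongr
      _ = A * (|v x| ^ Z * Real.exp (-(|v x| * lam)) * len ^ Z) := by ring
      _ ≤ A * (1 / 2) ^ Z := mul_le_mul_of_nonneg_left a2 hA0.le
  have hsm := zer_small (zer_deriv v cf) hd T hc.le
    (fun s hs => ⟨⟨T.min'_le s hs, T.le_max' s hs⟩, g0 s (mem_filter.1 hs).1⟩) hS
  have hWl : 1 ≤ 2 * W * len := by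
    clear * - W len lam Z b hlen hb hW hZ z hlam0
    have : 2 * W * len = 1 + W * lam / Z := by rw [hlen, hb]; field_simp; ring
    rw [this]
    have : 0 ≤ W * lam / Z := by positivity
    linarith only [this]
  have h := nc s1 (Fintype.card X * (A * (1 / 2) ^ Z) * (2 * W) ^ M) fun i hi => by
    clear * - Z i X v cf s1 A W M hi hMZ len hsm s2 T m2 hlen0 hA0 lam b hlam0 hZ hW hWl x0 h0
    obtain ⟨j, hj⟩ := Nat.exists_eq_add_of_le (hi.le.trans hMZ)
    refine (hsm j i hj.symm s1 ⟨le_rfl, T.min'_le s2 m2⟩).trans ?_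
    have e : (Fintype.card X : ℝ) * (A * (1 / 2) ^ Z / len ^ Z) * len ^ j =
        Fintype.card X * (A * (1 / 2) ^ Z) * (1 / len) ^ i := by
      rw [show len ^ Z = len ^ i * len ^ j by rw [hj, pow_add], div_pow 1 len, one_pow]
      field_simp
    rw [e]
    refine mul_le_mul_of_nonneg_left ?_ (by positivity)
    exact (pow_le_pow_left₀ (by positivity) ((div_le_iff₀ hlen0).2 hWl) i).trans
      (pow_le_pow_right₀ (by linarith only [hW]) hi.le)
  have h2 := mul_lt_mul_of_pos_right hnear hA0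
  rw [mul_pow] at h2
  linarith only [h, h2]

end Pool.Agent.Work.MP_97f157_lc.Rs
end

-- merged part: Pool.Agent.Work.MP_97f157_lc.RsChart
section
namespace Pool.Agent.Work.MP_97f157_lc.Rs

open Finset

variable {k m t q : ℕ}

lemma chart_abs_sign {x : ℝ} (h : x ≠ 0) : |(SignType.sign x : ℝ)| = 1 := by
  rcases lt_or_gt_of_ne h with h | h
  · simp [sign_neg h]
  · simp [sign_pos h]

lemma chart_abs_coe_le (s : SignType) : |(s : ℝ)| ≤ 1 := by
  rcases s with _ | _ | _ <;> simp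

/-- Normalisation: the outer coefficients become signs. -/
theorem normalise (π : Fin k → Fin m → Fin q) (hπ : Priv π) (a : Fin k → ℝ) (c : Ix q t → ℝ)
    (x0 : Pa k m t) (h0 : cf π a c x0 ≠ 0) :
    ∃ (σ : Fin k → SignType) (c' : Ix q t → ℝ) (T : ℝ), |cf π a c x0| ≤ T ∧
      (∀ b, |c' b| ≤ 1) ∧ (∃ i0, |(σ i0 : ℝ)| = 1 ∧ ∀ j, ∃ l, |c' (π i0 j, l)| = 1) ∧
      ∀ x : Pa k m t, cf π a c x = T * cf π (fun i => (σ i : ℝ)) c' x := by
  classical
  choose jj hjj using hπ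
  have : Nonempty (Fin t) := ⟨x0.2 (jj x0.1)⟩
  have hA : ∀ p : Fin q, ∃ l : Fin t, ∀ l', |c (p, l')| ≤ |c (p, l)| := fun p => by
    obtain ⟨l, -, hl⟩ := Finset.exists_max_image univ (fun l : Fin t => |c (p, l)|) univ_nonempty
    exact ⟨l, fun l' => hl l' (mem_univ _)⟩
  choose ll hll using hA
  set A : Fin q → ℝ := fun p => |c (p, ll p)| with hAdef
  have hA0 : ∀ p, 0 ≤ A p := fun p => abs_nonneg _
  obtain ⟨i0, -, hi0⟩ := Finset.exists_max_image univ (fun i => |a i| * ∏ j, A (π i j))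
    ⟨x0.1, mem_univ _⟩
  set T : ℝ := |a i0| * ∏ j, A (π i0 j) with hT
  have hx0 : |cf π a c x0| ≤ T := by
    refine le_trans ?_ (hi0 x0.1 (mem_univ _))
    rw [cf, abs_mul, Finset.abs_prod]
    exact mul_le_mul_of_nonneg_left
      (Finset.prod_le_prod (fun j _ => abs_nonneg _) fun j _ => hll _ _) (abs_nonneg _)
  have hT0 : 0 < T := (abs_pos.2 h0).trans_le hx0
  set a' : Fin k → ℝ := fun i => a i * (∏ j, A (π i j)) / T with ha'
  have habs : ∀ i, |a' i| = |a i| * (∏ j, A (π i j)) / T := fun i => by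
    simp only [ha']
    rw [abs_div, abs_mul, abs_of_pos hT0, abs_of_nonneg (Finset.prod_nonneg fun j _ => hA0 _)]
  have ha1 : ∀ i, |a' i| ≤ 1 := fun i => by
    rw [habs, div_le_one hT0]; exact hi0 i (mem_univ _)
  have ha0 : |a' i0| = 1 := by rw [habs, div_self hT0.ne']
  set ν : Fin k → ℕ := fun i => (univ.filter fun j => π i (jj i) = π i j).card with hν
  have hν0 : ∀ i, ν i ≠ 0 := fun i =>
    (Finset.card_pos.2 ⟨jj i, by simp⟩).ne'
  set lam : Fin k → ℝ := fun i => |a' i| ^ ((ν i : ℝ)⁻¹) with hlam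
  have hl0 : ∀ i, 0 ≤ lam i := fun i => Real.rpow_nonneg (abs_nonneg _) _
  have hl1 : ∀ i, lam i ≤ 1 := fun i => Real.rpow_le_one (abs_nonneg _) (ha1 i) (by clear * - ν i; positivity)
  set s : Fin q → ℝ := fun p => ∏ i ∈ univ.filter (fun i => π i (jj i) = p), lam i with hs
  have hs0 : ∀ p, 0 ≤ s p := fun p => Finset.prod_nonneg fun i _ => hl0 i
  have hs1 : ∀ p, s p ≤ 1 := fun p => Finset.prod_le_one (fun i _ => hl0 i) fun i _ => hl1 i
  have hsv : ∀ i j, s (π i j) = if π i (jj i) = π i j then lam i else 1 := fun i j => by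
    simp only [hs]
    rw [Finset.prod_filter, Finset.prod_eq_single i]
    · intro i' _ hi'
      rw [if_neg fun e => hi' (hjj i' i j e.symm).symm]
    · simp
  have hsp : ∀ i, ∏ j, s (π i j) = |a' i| := fun i => by
    simp only [hsv]
    rw [← Finset.prod_filter, Finset.prod_const]
    exact Real.rpow_inv_natCast_pow (abs_nonneg _) (hν0 i)
  refine ⟨fun i => SignType.sign (a' i), fun b => s b.1 * (c b / A b.1), T, hx0, fun b => ?_,
    ⟨i0, chart_abs_sign (by rw [← abs_pos, ha0]; exact one_pos), fun j => ⟨ll (π i0 j), ?_⟩⟩,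
    fun x => ?_⟩
  · rw [abs_mul, abs_of_nonneg (hs0 _), abs_div, abs_of_nonneg (hA0 _)]
    exact mul_le_one₀ (hs1 _) (by positivity) (div_le_one_of_le₀ (hll b.1 b.2) (hA0 _))
  · have hAj : A (π i0 j) ≠ 0 := fun e => by
      have : T = 0 := by rw [hT, Finset.prod_eq_zero (mem_univ j) e, mul_zero]
      exact hT0.ne' this
    have h1 : s (π i0 j) = 1 := by
      rw [hsv]
      split
      · simp only [hlam]; rw [ha0, Real.one_rpow]
      · rfl
    simp only
    rw [h1, one_mul, abs_div, abs_of_nonneg (hA0 _)]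
    exact div_self hAj
  · have hc : ∀ b : Ix q t, A b.1 * (c b / A b.1) = c b := fun b => by
      by_cases e : A b.1 = 0
      · have : |c b| ≤ 0 := e ▸ hll b.1 b.2
        rw [abs_nonpos_iff.1 this]; simp
      · field_simp
    have h2 : ∏ j, c (sl π x j) = (∏ j, A (π x.1 j)) * ∏ j, (c (sl π x j) / A (π x.1 j)) := by
      rw [← Finset.prod_mul_distrib]
      exact Finset.prod_congr rfl fun j _ => (hc (sl π x j)).symm
    have h3 : T * a' x.1 = a x.1 * ∏ j, A (π x.1 j) := by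
      clear * - T a' k m t x a A π ha' hT0
      simp only [ha']; field_simp
    simp only [cf]
    rw [Finset.prod_mul_distrib]
    change _ = T * (_ * ((∏ j, s (π x.1 j)) * ∏ j, (c (sl π x j) / A (π x.1 j))))
    rw [hsp, ← mul_assoc _ |a' x.1|, sign_mul_abs, ← mul_assoc, h3, h2, mul_assoc]

/-- Rounding of one coefficient to a chart centre. -/
lemma chart_round {P : ℕ} {θ η y : ℝ} (hη : 0 < η) (hθ : 0 < θ) (hθ1 : θ < 1)
    (hP : (1 + η)⁻¹ ^ P ≤ θ) (hy : |y| ≤ 1) :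
    ∃ (z : SignType × Fin (P + 1)) (u : ℝ), |u - 1| ≤ η ∧ (|y| = 1 → |ctr η z| = 1) ∧
      (ctr η z * u = y ∨ (ctr η z * u = 0 ∧ |y| ≤ θ)) := by
  by_cases h : |y| ≤ θ
  · exact ⟨(0, 0), 1, by simpa using hη.le, fun e => absurd h (by rw [e]; linarith only [hθ1, h, e]),
      .inr ⟨by simp [ctr], h⟩⟩
  push Not at h
  have h1 : 0 < 1 + η := by linarith only [hη, hθ, hθ1]
  have hi0 : 0 < (1 + η)⁻¹ := inv_pos.2 h1
  have hi1 : (1 + η)⁻¹ < 1 := inv_lt_one_of_one_lt₀ (by linarith only [hη])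
  obtain ⟨p, hp1, hp2⟩ := exists_nat_pow_near_of_lt_one (hθ.trans h) hy hi0 hi1
  have hpP : p < P + 1 := by
    by_contra e
    have : (1 + η)⁻¹ ^ p ≤ (1 + η)⁻¹ ^ P := pow_le_pow_of_le_one hi0.le hi1.le (by omega)
    linarith only [hP, h, hp2, this]
  have hq : 0 < (1 + η) ^ p := pow_pos h1 p
  have hinv : (1 + η)⁻¹ ^ p * (1 + η) ^ p = 1 := by rw [← mul_pow, inv_mul_cancel₀ h1.ne', one_pow]
  refine ⟨(SignType.sign y, ⟨p, hpP⟩), |y| * (1 + η) ^ p, ?_, fun e => ?_, .inl ?_⟩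
  · have u1 : |y| * (1 + η) ^ p ≤ 1 := (mul_le_mul_of_nonneg_right hp2 hq.le).trans_eq hinv
    have u2 : (1 + η)⁻¹ ≤ |y| * (1 + η) ^ p := by
      have := mul_le_mul_of_nonneg_right hp1.le hq.le
      rwa [pow_succ, mul_right_comm, hinv, one_mul] at this
    have u3 : 1 - η ≤ (1 + η)⁻¹ := by
      rw [← one_div, le_div_iff₀ h1]; nlinarith only [hη]
    rw [abs_le]; constructor <;> linarith only [u2, u3, hη, u1]
  · have hp0 : p = 0 := by
      by_contra e'
      have := pow_lt_one₀ hi0.le hi1 e'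
      linarith only [hp2, e, this]
    subst hp0
    simp only [ctr, pow_zero, mul_one]
    exact chart_abs_sign (by rw [← abs_pos, e]; exact one_pos)
  · simp only [ctr]
    rw [mul_mul_mul_comm, sign_mul_abs, hinv, mul_one]

lemma chart_cf_le (π : Fin k → Fin m → Fin q) (σ : Fin k → SignType) {c : Ix q t → ℝ}
    (hc : ∀ b, |c b| ≤ 1) (x : Pa k m t) : |cf π (fun i => (σ i : ℝ)) c x| ≤ 1 := by
  rw [cf, abs_mul, Finset.abs_prod]
  exact mul_le_one₀ (chart_abs_coe_le _) (Finset.prod_nonneg fun j _ => abs_nonneg _)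
    (Finset.prod_le_one (fun j _ => abs_nonneg _) fun j _ => hc _)

lemma chart_cf_sub (π : Fin k → Fin m → Fin q) (σ : Fin k → SignType) {c c' : Ix q t → ℝ} {θ : ℝ}
    (hθ : 0 ≤ θ) (hc : ∀ b, |c b| ≤ 1) (h : ∀ b, c' b = c b ∨ (c' b = 0 ∧ |c b| ≤ θ))
    (x : Pa k m t) :
    |cf π (fun i => (σ i : ℝ)) c' x - cf π (fun i => (σ i : ℝ)) c x| ≤ θ := by
  by_cases e : ∀ j, c' (sl π x j) = c (sl π x j)
  · simp only [cf, e, sub_self, abs_zero, hθ]
  push Not at e
  obtain ⟨j, hj⟩ := e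
  obtain ⟨h1, h2⟩ := (h _).resolve_left hj
  have e1 : cf π (fun i => (σ i : ℝ)) c' x = 0 := by
    rw [cf, Finset.prod_eq_zero (mem_univ j) h1, mul_zero]
  rw [e1, zero_sub, abs_neg, cf, abs_mul, Finset.abs_prod,
    ← Finset.mul_prod_erase univ _ (mem_univ j)]
  have e2 : ∏ i ∈ univ.erase j, |c (sl π x i)| ≤ 1 :=
    Finset.prod_le_one (fun j _ => abs_nonneg _) fun j _ => hc _
  have e3 : 0 ≤ ∏ i ∈ univ.erase j, |c (sl π x i)| := Finset.prod_nonneg fun j _ => abs_nonneg _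
  calc _ ≤ 1 * (θ * 1) := by
        gcongr
        exact chart_abs_coe_le _
    _ = θ := by ring

lemma chart_wt_abs (π : Fin k → Fin m → Fin q) {α : Ix q t → ℝ}
    (hα : ∀ b, α b ∈ Set.Icc (0 : ℝ) 1) (x : Pa k m t) : |wt π α x| ≤ m := by
  rw [wt, abs_of_nonneg (Finset.sum_nonneg fun j _ => (hα _).1)]
  simpa using Finset.sum_le_card_nsmul univ (fun j => α (sl π x j)) 1 fun j _ => (hα _).2

lemma chart_wt_sub (π : Fin k → Fin m → Fin q) {α α' : Ix q t → ℝ} {ρ : ℝ}
    (h : ∀ b, |α' b - α b| ≤ ρ) (x : Pa k m t) : |wt π α' x - wt π α x| ≤ m * ρ := by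
  rw [wt, wt, ← Finset.sum_sub_distrib]
  refine (Finset.abs_sum_le_sum_abs _ _).trans ?_
  simpa using Finset.sum_le_card_nsmul univ (fun j => |α' (sl π x j) - α (sl π x j)|) ρ
    fun j _ => h _

/-- A bad exponent vector lies in one of few charts, together with its neighbours. -/
theorem chart (π : Fin k → Fin m → Fin q) (hπ : Priv π) (a : Fin k → ℝ) (c : Ix q t → ℝ)
    (x0 : Pa k m t) (α : Ix q t → ℝ) (hα : ∀ b, α b ∈ Set.Icc (0 : ℝ) 1)
    {M P : ℕ} {ε θ η ρ : ℝ} (hM : 0 < M) (hε : 0 < ε) (hη : 0 < η) (hθ : 0 < θ) (hθ1 : θ < 1)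
    (hρ : 0 ≤ ρ) (hP : (1 + η)⁻¹ ^ P ≤ θ)
    (hdrop : (k * t ^ m : ℝ) * θ * (m + 1) ^ M ≤ ε / 4)
    (hlip : (k * t ^ m : ℝ) * (M * (m + 1) ^ (M + 1)) * ρ ≤ ε / 4)
    (hbad : ∀ r < M, |mom π a c α r| < ε / 4 * |cf π a c x0|) :
    ∃ (σ : Fin k → SignType) (z : Ix q t → SignType × Fin (P + 1)) (u : Ix q t → ℝ),
      (∃ i0, |(σ i0 : ℝ)| = 1 ∧ ∀ j, ∃ l, |ctr η (z (π i0 j, l))| = 1) ∧ (∀ b, |u b - 1| ≤ η) ∧
      ∀ α' : Ix q t → ℝ, (∀ b, α' b ∈ Set.Icc (0 : ℝ) 1) → (∀ b, |α' b - α b| ≤ ρ) →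
        ∀ r < M, |mom π (fun i => (σ i : ℝ)) (fun b => ctr η (z b) * u b) α' r| ≤ ε := by
  have h0 : cf π a c x0 ≠ 0 := fun e => by
    have := hbad 0 hM
    rw [e, abs_zero, mul_zero] at this
    exact absurd this (not_lt.2 (abs_nonneg _))
  obtain ⟨σ, c', T, hT, hc', ⟨i0, hi0, hj0⟩, hcf⟩ := normalise π hπ a c x0 h0
  have hT0 : 0 < T := (abs_pos.2 h0).trans_le hT
  choose z u hu hz hzu using fun b => chart_round hη hθ hθ1 hP (hc' b)
  refine ⟨σ, z, u, ⟨i0, hi0, fun j => (hj0 j).imp fun l hl => hz _ hl⟩, hu,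
    fun α' hα' hd r hr => ?_⟩
  have hm : |mom π (fun i => (σ i : ℝ)) c' α r| ≤ ε / 4 := by
    have e : mom π a c α r = T * mom π (fun i => (σ i : ℝ)) c' α r := by
      simp only [mom, Finset.mul_sum, hcf]
      exact Finset.sum_congr rfl fun x _ => by ring
    have := hbad r hr
    rw [e, abs_mul, abs_of_pos hT0] at this
    have h2 : ε / 4 * |cf π a c x0| ≤ T * (ε / 4) := by
      rw [mul_comm T]; exact mul_le_mul_of_nonneg_left hT (by positivity)
    exact le_of_mul_le_mul_left (this.le.trans h2) hT0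
  have hc'' : ∀ b, |ctr η (z b) * u b| ≤ 1 := fun b => by
    rcases hzu b with e | ⟨e, -⟩
    · rw [e]; exact hc' b
    · rw [e]; simp
  have hm1 : (1 : ℝ) ≤ m + 1 := by linarith only [Nat.cast_nonneg (α := ℝ) m]
  have hterm : ∀ x : Pa k m t,
      |cf π (fun i => (σ i : ℝ)) (fun b => ctr η (z b) * u b) x * wt π α' x ^ r / r.factorial -
        cf π (fun i => (σ i : ℝ)) c' x * wt π α x ^ r / r.factorial| ≤
      (M * (m + 1) ^ (M + 1)) * ρ + θ * (m + 1) ^ M := fun x => by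
    clear * - r k m t q π σ η P z u x hc'' c' θ hθ hc' hzu α' α M ρ hd hα' hα hm1 hr hρ hM hθ1
    have f1 : (1 : ℝ) ≤ r.factorial := by exact_mod_cast Nat.factorial_pos r
    have a1 := chart_cf_le π σ hc'' x
    have a2 := chart_cf_sub π σ hθ.le hc' hzu x
    have a3 : |wt π α' x ^ r - wt π α x ^ r| ≤ (M * (m + 1) ^ (M + 1)) * ρ := by
      clear * - k m t q π α' x r α M ρ hd hα' hα hm1 hr hρ hM hθ hθ1
      refine (abs_pow_sub_pow_le _ _ _).trans ?_
      have b1 := chart_wt_sub π hd x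
      have b2 : max |wt π α' x| |wt π α x| ≤ m + 1 :=
        max_le ((chart_wt_abs π hα' x).trans (by linarith only [hθ, hθ1]))
          ((chart_wt_abs π hα x).trans (by linarith only [hθ, hθ1]))
      have b3 : max |wt π α' x| |wt π α x| ^ (r - 1) ≤ (m + 1) ^ M :=
        (pow_le_pow_left₀ (le_max_of_le_left (abs_nonneg _)) b2 _).trans
          (pow_le_pow_right₀ hm1 (by omega))
      have b4 : (r : ℝ) ≤ M := by exact_mod_cast hr.le
      calc _ ≤ ((m + 1) * ρ) * M * (m + 1) ^ M := by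
            gcongr
            exact b1.trans (by linarith only [hρ])
        _ = _ := by ring
    have a4 : |wt π α x ^ r| ≤ (m + 1) ^ M := by
      rw [abs_pow]
      exact (pow_le_pow_left₀ (abs_nonneg _) ((chart_wt_abs π hα x).trans (by linarith only [hθ, hθ1])) _).trans
        (pow_le_pow_right₀ hm1 hr.le)
    rw [← sub_div, abs_div, Nat.abs_cast]
    refine (div_le_self (abs_nonneg _) f1).trans ?_
    generalize cf π (fun i => (σ i : ℝ)) (fun b => ctr η (z b) * u b) x = A at a1 a2 ⊢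
    generalize cf π (fun i => (σ i : ℝ)) c' x = B at a2 ⊢
    generalize wt π α' x ^ r = U at a3 ⊢
    generalize wt π α x ^ r = V at a3 a4 ⊢
    have e : A * U - B * V = A * (U - V) + (A - B) * V := by ring
    rw [e]
    refine (abs_add_le _ _).trans (add_le_add ?_ ?_)
    · rw [abs_mul]
      exact (mul_le_of_le_one_left (abs_nonneg _) a1).trans a3
    · rw [abs_mul]
      exact mul_le_mul a2 a4 (abs_nonneg _) hθ.le
  have hdiff : |mom π (fun i => (σ i : ℝ)) (fun b => ctr η (z b) * u b) α' r -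
      mom π (fun i => (σ i : ℝ)) c' α r| ≤
      (k * t ^ m : ℝ) * ((M * (m + 1) ^ (M + 1)) * ρ + θ * (m + 1) ^ M) := by
    clear * - k m t q π σ η P z u α' r c' α M ρ θ hterm
    rw [mom, mom, ← Finset.sum_sub_distrib]
    refine (Finset.abs_sum_le_sum_abs _ _).trans ?_
    refine (Finset.sum_le_card_nsmul univ _ _ fun x _ => hterm x).trans_eq ?_
    simp [mul_add]
  have := abs_sub_abs_le_abs_sub (mom π (fun i => (σ i : ℝ)) (fun b => ctr η (z b) * u b) α' r)
    (mom π (fun i => (σ i : ℝ)) c' α r)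
  rw [mul_add, ← mul_assoc, ← mul_assoc _ θ] at hdiff
  linarith only [hε, hdrop, hlip, hm, hdiff, this]

end Pool.Agent.Work.MP_97f157_lc.Rs
end
end

-- merged part: Pool.Agent.Work.MP_97f157_lc.RsFinal
section
-- merged part: Pool.Agent.Work.MP_97f157_lc.RsRigA
section
namespace Pool.Agent.Work.MP_97f157_lc.Rs

open Finset

lemma riga_exp {u v : ℝ} (hu : 0 ≤ u) (hv : 0 ≤ v) : |u - v| ≤ |Real.exp u - Real.exp v| := by
  wlog h : v ≤ u generalizing u v
  · rw [abs_sub_comm, abs_sub_comm (Real.exp u)]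
    exact this hv hu (le_of_not_ge h)
  have h1 : Real.exp u = Real.exp v * Real.exp (u - v) := by
    rw [← Real.exp_add, add_sub_cancel]
  have h2 := Real.add_one_le_exp (u - v)
  have h3 := Real.one_le_exp hv
  rw [abs_of_nonneg (sub_nonneg.2 h)]
  exact le_abs.2 (.inl (by linarith only [h1, h2, h, h3, mul_nonneg_of_nonpos_of_nonpos (Mathlib.Tactic.Linarith.sub_nonpos_of_le h) (Mathlib.Tactic.Linarith.sub_nonpos_of_le h3), mul_nonneg_of_nonpos_of_nonpos (Mathlib.Tactic.Linarith.sub_nonpos_of_le h2) (Mathlib.Tactic.Linarith.sub_nonpos_of_le h3)]))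

lemma riga_turan {ι : Type} (α : ι → ℝ) (hα : ∀ l, α l ∈ Set.Icc (0 : ℝ) 1) {δ h : ℝ}
    (hδ : 0 < δ) (hh : 0 < h) (hh1 : h ≤ 1 / 2) (l₀ : ι) {s : ℝ} (hs : 0 ≤ s) (S : Finset ι) :
    (∀ l ∈ S, δ ≤ |α l₀ - α l|) → ∀ (c : ι → ℝ) (b : ℝ), (∀ r : ℕ, r ≤ S.card →
      |c l₀ * Real.exp (α l₀ * (s + r * h)) + ∑ l ∈ S, c l * Real.exp (α l * (s + r * h))| ≤ b) →
      |c l₀| * (δ * h / 4) ^ S.card ≤ b := by
  classical
  induction S using Finset.induction_on with
  | empty =>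
    intro _ c b hb
    have h1 := hb 0 le_rfl
    have h2 := Real.one_le_exp (mul_nonneg (hα l₀).1 hs)
    simp only [Nat.cast_zero, zero_mul, add_zero, sum_empty, abs_mul, Real.abs_exp] at h1
    rw [card_empty, pow_zero]
    exact (mul_le_mul_of_nonneg_left h2 (abs_nonneg _)).trans h1
  | insert a S ha ih =>
    intro hg c b hb
    rw [card_insert_of_notMem ha] at hb ⊢
    have he : Real.exp (α a * h) ≤ 3 :=
      (Real.exp_le_exp.2 (by linarith only [hh1, hh, hα, (hα a).1, (hα a).2, mul_pos_of_neg_of_neg (Mathlib.Tactic.Linarith.sub_neg_of_lt hh) (Mathlib.Tactic.Linarith.sub_neg_of_lt hh), mul_nonneg_of_nonpos_of_nonpos (le_of_lt (Mathlib.Tactic.Linarith.sub_neg_of_lt hh)) (Mathlib.Tactic.Linarith.sub_nonpos_of_le hh1), mul_nonneg_of_nonpos_of_nonpos (le_of_lt (Mathlib.Tactic.Linarith.sub_neg_of_lt hh)) (Mathlib.Tactic.Linarith.sub_nonpos_of_le (hα a).right)])).trans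
        (Real.exp_one_lt_d9.le.trans (by norm_num))
    have h1 := ih (fun l hl => hg l (mem_insert_of_mem hl))
      (fun l => c l * (Real.exp (α l * h) - Real.exp (α a * h))) (4 * b) fun r hr => by
        have b1 := hb r (by omega)
        have b2 := hb (r + 1) (by omega)
        have e : ∀ l, Real.exp (α l * (s + (r + 1 : ℕ) * h)) =
            Real.exp (α l * (s + r * h)) * Real.exp (α l * h) := fun l => by
          rw [← Real.exp_add]
          push_cast
          ring_nf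
        simp only [e, sum_insert ha] at b1 b2
        have e2 : ∑ l ∈ S, c l * (Real.exp (α l * h) - Real.exp (α a * h)) *
            Real.exp (α l * (s + r * h)) =
            ∑ l ∈ S, c l * (Real.exp (α l * (s + r * h)) * Real.exp (α l * h)) -
            Real.exp (α a * h) * ∑ l ∈ S, c l * Real.exp (α l * (s + r * h)) := by
          rw [mul_sum, ← sum_sub_distrib]
          exact sum_congr rfl fun l _ => by ring
        have e0 := Real.exp_pos (α a * h)
        rw [e2]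
        rw [abs_le] at b1 b2 ⊢
        constructor <;> (refine le_of_not_gt fun h_nl => ?_; linarith only [h_nl, b1, b2, hh, hh1, he, e0, b1.1, b1.2, b2.1, b2.2, mul_pos_of_neg_of_neg (Mathlib.Tactic.Linarith.sub_neg_of_lt hh) (Mathlib.Tactic.Linarith.sub_neg_of_lt h_nl), mul_nonneg_of_nonpos_of_nonpos (Mathlib.Tactic.Linarith.sub_nonpos_of_le hh1) (le_of_lt (Mathlib.Tactic.Linarith.sub_neg_of_lt h_nl)), mul_nonneg_of_nonpos_of_nonpos (Mathlib.Tactic.Linarith.sub_nonpos_of_le he) (Mathlib.Tactic.Linarith.sub_nonpos_of_le b1.left), mul_nonneg_of_nonpos_of_nonpos (Mathlib.Tactic.Linarith.sub_nonpos_of_le b1.right) (le_of_lt (Mathlib.Tactic.Linarith.sub_neg_of_lt e0)), mul_nonneg_of_nonpos_of_nonpos (Mathlib.Tactic.Linarith.sub_nonpos_of_le he) (Mathlib.Tactic.Linarith.sub_nonpos_of_le b1.right), mul_nonneg_of_nonpos_of_nonpos (Mathlib.Tactic.Linarith.sub_nonpos_of_le b1.left) (le_of_lt (Mathlib.Tactic.Linarith.sub_neg_of_lt e0))])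
    have h2 := riga_exp (mul_nonneg (hα l₀).1 hh.le) (mul_nonneg (hα a).1 hh.le)
    rw [← sub_mul, abs_mul, abs_of_pos hh] at h2
    have h3 : δ * h ≤ |Real.exp (α l₀ * h) - Real.exp (α a * h)| :=
      (mul_le_mul_of_nonneg_right (hg a (mem_insert_self _ _)) hh.le).trans h2
    have h4 : |c l₀| * (δ * h) * (δ * h / 4) ^ S.card ≤ 4 * b := by
      refine le_trans ?_ h1
      rw [abs_mul]
      gcongr
    rw [pow_succ]
    linarith only [h4]

lemma riga_sg {t : ℕ} (c α : Fin t → ℝ) (β : ℝ) :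
    Smo.Pw (t + 1) fun a b => Smo.Sg (fun z => ∑ l, c l * Real.exp (α l * z) + β) a b := by
  have h := (Smo.few_ES (univ : Finset (Option (Fin t))) (fun o => o.elim β c)
    fun o => o.elim 0 α).pw_sg (Smo.continuous_ES _ _ _)
  have e : Smo.ES (univ : Finset (Option (Fin t))) (fun o => o.elim β c) (fun o => o.elim 0 α) =
      fun z => ∑ l, c l * Real.exp (α l * z) + β := by
    funext z
    simp [Smo.ES, add_comm]
  rw [e] at h
  simpa using h

lemma riga_prod {h : ℝ} (hh : 0 < h) (z : ℂ) (R : Multiset ℂ) :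
    (∀ x ∈ R, h ≤ ‖z - x‖) → h ^ R.card ≤ ‖(R.map (z - ·)).prod‖ := by
  induction R using Multiset.induction_on with
  | empty => simp
  | cons a R ih =>
    intro hR
    rw [Multiset.card_cons, Multiset.map_cons, Multiset.prod_cons, norm_mul, pow_succ']
    exact mul_le_mul (hR a (Multiset.mem_cons_self _ _))
      (ih fun x hx => hR x (Multiset.mem_cons_of_mem hx)) (by positivity) (norm_nonneg _)

lemma riga_det {I : Type} [Fintype I] [DecidableEq I] (Λ : Matrix I I ℝ) {h : ℝ} (hh : 0 < h) :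
    Smo.Pw (Fintype.card I) fun a b => ∀ z, a + h ≤ z → z + h ≤ b →
      h ^ Fintype.card I ≤ |(z • (1 : Matrix I I ℝ) - Λ).det| := by
  classical
  obtain ⟨p, hp⟩ : ∃ p, p = Λ.charpoly.map (algebraMap ℝ ℂ) := ⟨_, rfl⟩
  have hm : p.Monic := hp ▸ Λ.charpoly_monic.map _
  have hc : p.roots.card = Fintype.card I := by
    rw [← (IsAlgClosed.splits p).natDegree_eq_card_roots, hp, Polynomial.natDegree_map,
      Matrix.charpoly_natDegree_eq_dim]
  refine ⟨p.roots.toFinset.image Complex.re,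
    card_image_le.trans ((Multiset.toFinset_card_le _).trans hc.le), fun a b _ hx z h1 h2 => ?_⟩
  have h3 := riga_prod hh z p.roots fun x hxr => by
    have h4 := hx x.re (mem_image_of_mem _ (Multiset.mem_toFinset.2 hxr))
    refine le_trans ?_ (Complex.abs_re_le_norm _)
    rw [Complex.sub_re, Complex.ofReal_re, le_abs]
    rw [Set.mem_Icc, not_and_or, not_le, not_le] at h4
    exact h4.imp (fun h => by linarith only [h1, h]) fun h => by linarith
  rw [hc, ← (IsAlgClosed.splits p).eval_eq_prod_roots_of_monic hm, hp,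
    show (z : ℂ) = algebraMap ℝ ℂ z from rfl, Polynomial.eval_map_algebraMap,
    Polynomial.aeval_algebraMap_apply, Polynomial.coe_aeval_eq_eval, Matrix.eval_charpoly] at h3
  simpa [Matrix.smul_one_eq_diagonal] using h3

lemma riga_block {n : ℕ} {Q : ℝ → ℝ → Prop} (h : Smo.Pw n Q) {L g : ℝ} (hL : 0 ≤ L) (hg : 0 < g) :
    ∃ i : ℕ, i ≤ n ∧ Q (i * (L + g)) (i * (L + g) + L) := by
  obtain ⟨B, hB, h⟩ := h
  by_contra hn
  have h1 : ∀ i ∈ range (n + 1), ∃ x ∈ B, x ∈ Set.Icc (i * (L + g)) (i * (L + g) + L) :=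
    fun i hi => by
      by_contra h2
      push Not at h2
      exact hn ⟨i, Nat.lt_succ_iff.1 (mem_range.1 hi), h _ _ (by linarith only [hL]) h2⟩
  choose! f f1 f2 using h1
  obtain ⟨i, hi, j, hj, hne, e⟩ := exists_ne_map_eq_of_card_lt_of_maps_to
    (by rw [card_range]; omega) f1
  wlog hij : i < j generalizing i j
  · exact this j hj i hi hne.symm e.symm (by omega)
  have h2 : (i : ℝ) + 1 ≤ j := by exact_mod_cast hij
  have h3 := (f2 i hi).2
  have h4 := (f2 j hj).1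
  linarith only [hg, e, h3, h4, hL, h2, mul_nonneg_of_nonpos_of_nonpos (Mathlib.Tactic.Linarith.sub_nonpos_of_le hL) (Mathlib.Tactic.Linarith.sub_nonpos_of_le h2), mul_nonneg_of_nonpos_of_nonpos (le_of_lt (Mathlib.Tactic.Linarith.sub_neg_of_lt hg)) (Mathlib.Tactic.Linarith.sub_nonpos_of_le h2)]

/-- A point of `[0, R]` where a characteristic polynomial and `m` exponential sums are all
not too small. -/
theorem good_point {I : Type} [Fintype I] [DecidableEq I] (Λ : Matrix I I ℝ) {m t : ℕ}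
    (c α : Fin m → Fin t → ℝ) (hc : ∀ j, ∃ l, 1 / 2 ≤ |c j l|)
    (hα : ∀ j l, α j l ∈ Set.Icc (0 : ℝ) 1) {δ h : ℝ} (hδ : 0 < δ) (hδ1 : δ ≤ 1)
    (hh : 0 < h) (hh1 : h ≤ 1 / 2)
    (hgap : ∀ j l l', l ≠ l' → δ ≤ |α j l - α j l'|) (ht : 1 ≤ t) :
    ∃ z : ℝ, 0 ≤ z ∧ z ≤ ((Fintype.card I : ℝ) + 2 * m * (t + 1) + 1) * (t + 2) * h ∧
      h ^ Fintype.card I ≤ |(z • (1 : Matrix I I ℝ) - Λ).det| ∧
      ∀ j, (δ * h / 4) ^ t / 4 ≤ |∑ l, c j l * Real.exp (α j l * z)| := by
  obtain ⟨β, hβ⟩ : ∃ β, β = (δ * h / 4) ^ t / 4 := ⟨_, rfl⟩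
  have P1 := Smo.Pw.forall univ (n := (t + 1) + (t + 1)) fun j _ =>
    (riga_sg (c j) (α j) (-β)).and (riga_sg (c j) (α j) β)
  obtain ⟨i, hi, q1, q2⟩ := riga_block ((riga_det Λ hh).and P1) (L := (t + 1) * h)
    (by positivity) hh
  have ht' : (1 : ℝ) ≤ t := by exact_mod_cast ht
  obtain ⟨s, hs⟩ : ∃ s : ℝ, s = i * ((t + 1) * h + h) := ⟨_, rfl⟩
  rw [← hs] at q1 q2
  have hs0 : 0 ≤ s := by rw [hs]; positivity
  have hz : s + h ∈ Set.Icc s (s + (t + 1) * h) := ⟨by linarith only [hh], by linarith only [hh, mul_nonneg_of_nonpos_of_nonpos (Mathlib.Tactic.Linarith.sub_nonpos_of_le (Mathlib.Tactic.Linarith.natCast_nonneg ℝ t)) (le_of_lt (Mathlib.Tactic.Linarith.sub_neg_of_lt hh))]⟩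
  refine ⟨s + h, by linarith only [hh, hs0], ?_, q1 _ le_rfl (by linarith only [hh, ht', mul_nonneg_of_nonpos_of_nonpos (le_of_lt (Mathlib.Tactic.Linarith.sub_neg_of_lt hh)) (Mathlib.Tactic.Linarith.sub_nonpos_of_le ht')]), fun j => ?_⟩
  · have hi' : (i : ℝ) ≤ Fintype.card I + m * ((t + 1) + (t + 1)) := by
      rw [card_univ, Fintype.card_fin] at hi
      exact_mod_cast hi
    have h2 : s ≤ (Fintype.card I + m * ((t + 1) + (t + 1))) * ((t + 1) * h + h) := by
      rw [hs]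
      gcongr
    linarith only [hh, h2, mul_nonneg_of_nonpos_of_nonpos (Mathlib.Tactic.Linarith.sub_nonpos_of_le (Mathlib.Tactic.Linarith.natCast_nonneg ℝ t)) (le_of_lt (Mathlib.Tactic.Linarith.sub_neg_of_lt hh))]
  · rw [← hβ]
    obtain ⟨l, hl⟩ := hc j
    obtain ⟨u, hu, hF⟩ : ∃ u ∈ Set.Icc s (s + (t + 1) * h),
        β < |∑ l, c j l * Real.exp (α j l * u)| := by
      by_contra hn
      push Not at hn
      obtain ⟨n, rfl⟩ : ∃ n, t = n + 1 := ⟨t - 1, by omega⟩
      have hcard : (univ.erase l).card = n := by simp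
      have h3 := riga_turan (α j) (hα j) hδ hh hh1 l hs0 (univ.erase l)
        (fun a ha => hgap j _ _ (ne_of_mem_erase ha).symm) (c j) β fun r hr => by
          rw [add_sum_erase _ (fun l => c j l * Real.exp (α j l * (s + r * h))) (mem_univ l)]
          have h4 : (r : ℝ) ≤ n := by exact_mod_cast hr.trans_eq hcard
          have h5 : (0 : ℝ) ≤ r * h := by positivity
          exact hn _ ⟨by linarith only [h5], by push_cast; linarith only [hh, hh1, h4, mul_pos_of_neg_of_neg (Mathlib.Tactic.Linarith.sub_neg_of_lt hh) (Mathlib.Tactic.Linarith.sub_neg_of_lt hh), mul_nonneg_of_nonpos_of_nonpos (le_of_lt (Mathlib.Tactic.Linarith.sub_neg_of_lt hh)) (Mathlib.Tactic.Linarith.sub_nonpos_of_le hh1), mul_nonneg_of_nonpos_of_nonpos (le_of_lt (Mathlib.Tactic.Linarith.sub_neg_of_lt hh)) (Mathlib.Tactic.Linarith.sub_nonpos_of_le h4)]⟩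
      rw [hcard, hβ, pow_succ] at h3
      have h6 : 0 < (δ * h / 4) ^ n := by positivity
      have h7 : δ * h ≤ 1 := by linarith only [hδ1, hh, hh1, hδ, mul_nonneg_of_nonpos_of_nonpos (le_of_lt (Mathlib.Tactic.Linarith.sub_neg_of_lt hδ)) (Mathlib.Tactic.Linarith.sub_nonpos_of_le hh1)]
      linarith only [h3, hh, h6, hh1, hl, h7, mul_pos_of_neg_of_neg (Mathlib.Tactic.Linarith.sub_neg_of_lt hh) (Mathlib.Tactic.Linarith.sub_neg_of_lt h6), mul_nonneg_of_nonpos_of_nonpos (Mathlib.Tactic.Linarith.sub_nonpos_of_le hh1) (le_of_lt (Mathlib.Tactic.Linarith.sub_neg_of_lt h6)), mul_nonneg_of_nonpos_of_nonpos (Mathlib.Tactic.Linarith.sub_nonpos_of_le hl) (le_of_lt (Mathlib.Tactic.Linarith.sub_neg_of_lt h6)), mul_nonneg_of_nonpos_of_nonpos (le_of_lt (Mathlib.Tactic.Linarith.sub_neg_of_lt h6)) (Mathlib.Tactic.Linarith.sub_nonpos_of_le h7)]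
    obtain ⟨p1, p2⟩ := q2 j (mem_univ j)
    rcases lt_abs.1 hF with h3 | h3
    · rcases p1 with p | p
      · exact le_abs.2 (.inl (by linarith only [p, hz, p _ hz]))
      · linarith only [h3, p, hu, p _ hu]
    · rcases p2 with p | p
      · linarith only [h3, p, hu, p _ hu]
      · exact le_abs.2 (.inr (by linarith only [p, hz, p _ hz]))

end Pool.Agent.Work.MP_97f157_lc.Rs
end

-- merged part: Pool.Agent.Work.MP_97f157_lc.RsRig
section
namespace Pool.Agent.Work.MP_97f157_lc.Rs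

open Finset

lemma rig_exp {y ρ : ℝ} (h0 : 0 ≤ y) (h1 : y ≤ ρ) (h2 : ρ ≤ 1) {N : ℕ} (hN : 1 ≤ N) :
    |Real.exp y - ∑ r ∈ range N, y ^ r / (r.factorial : ℝ)| ≤ 2 * ρ ^ N := by
  refine (Real.exp_bound (by rw [abs_of_nonneg h0]; linarith only [h1, h2]) hN).trans ?_
  rw [abs_of_nonneg h0, mul_comm]
  refine mul_le_mul ?_ (pow_le_pow_left₀ h0 h1 N) (by positivity) (by norm_num)
  have a1 : (1 : ℝ) ≤ N := by exact_mod_cast hN
  have a2 : (1 : ℝ) ≤ N.factorial := by exact_mod_cast N.factorial_pos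
  rw [div_le_iff₀ (by positivity), Nat.cast_succ]
  linarith only [a1, a2, mul_nonneg_of_nonpos_of_nonpos (Mathlib.Tactic.Linarith.sub_nonpos_of_le (Mathlib.Tactic.Linarith.natCast_nonneg ℝ N)) (Mathlib.Tactic.Linarith.sub_nonpos_of_le a2)]

lemma rig_tail {X : Type} [Fintype X] (g W : X → ℝ) {z ρ S : ℝ} (h0 : ∀ x, 0 ≤ W x * z)
    (h1 : ∀ x, W x * z ≤ ρ) (h2 : ρ ≤ 1) (hS : ∑ x, |g x| ≤ S) {N : ℕ} (hN : 1 ≤ N)
    (hρ : 0 ≤ ρ) :
    |∑ x, g x * Real.exp (W x * z) -
      ∑ r ∈ range N, (∑ x, g x * W x ^ r / (r.factorial : ℝ)) * z ^ r| ≤ S * (2 * ρ ^ N) := by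
  have e : ∑ r ∈ range N, (∑ x, g x * W x ^ r / (r.factorial : ℝ)) * z ^ r =
      ∑ x, g x * ∑ r ∈ range N, (W x * z) ^ r / (r.factorial : ℝ) := by
    simp only [sum_mul, mul_sum]
    rw [sum_comm]
    exact sum_congr rfl fun x _ => sum_congr rfl fun r _ => by ring
  rw [e, ← sum_sub_distrib]
  refine (abs_sum_le_sum_abs _ _).trans (le_trans ?_
    (mul_le_mul_of_nonneg_right hS (by positivity)))
  rw [sum_mul]
  refine sum_le_sum fun x _ => ?_
  rw [← mul_sub, abs_mul]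
  exact mul_le_mul_of_nonneg_left (rig_exp (h0 x) (h1 x) h2 hN) (abs_nonneg _)

lemma rig_adj {I : Type} [Fintype I] [DecidableEq I] (A : Matrix I I ℝ) (T : I → ℝ) {B e : ℝ}
    (hB : 1 ≤ B) (hA : ∀ i j, |A i j| ≤ B) (he : ∀ i, |∑ j, A i j * T j| ≤ e) (b : I) :
    |A.det| * |T b| ≤
      Fintype.card I * (((Fintype.card I).factorial * B ^ Fintype.card I) * e) := by
  have h1 : A.det * T b = ∑ i, A.adjugate b i * ∑ j, A i j * T j := by
    have := congrFun (congrArg (fun M : Matrix I I ℝ => M.mulVec T) A.adjugate_mul) b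
    simp only [← Matrix.mulVec_mulVec, Matrix.smul_mulVec, Matrix.one_mulVec, Pi.smul_apply,
      smul_eq_mul] at this
    exact this.symm
  rw [← abs_mul, h1]
  refine (abs_sum_le_sum_abs _ _).trans ((sum_le_card_nsmul _ _ _ fun i _ => ?_).trans
    (by rw [card_univ, nsmul_eq_mul]))
  rw [abs_mul]
  refine mul_le_mul ?_ (he i) (abs_nonneg _) (by positivity)
  rw [Matrix.adjugate_apply, ← nsmul_eq_mul]
  refine Matrix.det_le (abv := AbsoluteValue.abs) fun u v => ?_
  rw [AbsoluteValue.abs_apply, Matrix.updateRow_apply]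
  split_ifs
  · rw [Pi.single_apply]
    split_ifs
    · rwa [abs_one]
    · rw [abs_zero]; linarith
  · exact hA u v

lemma rig_tp0 {k m t q : ℕ} (π : Fin k → Fin m → Fin q) (a : Fin k → ℝ) (c α : Ix q t → ℝ)
    (b : Ix q t) : tp π a c α b 0 = 0 := by
  simp [tp]

lemma rig_tp {k m t q : ℕ} (π : Fin k → Fin m → Fin q) (a : Fin k → ℝ) (c α : Ix q t → ℝ)
    (b : Ix q t) (r : ℕ) : tp π a c α b (r + 1) = tm π a c α b r := by
  refine sum_congr rfl fun x _ => ?_
  rw [Nat.factorial_succ, Nat.cast_mul, Nat.add_sub_cancel]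
  have : ((r + 1 : ℕ) : ℝ) ≠ 0 := by positivity
  field_simp

lemma rig_mu {k m t q : ℕ} (π : Fin k → Fin m → Fin q) (p : Fin q) (x : Pa k m t) :
    ∑ l, mu π (p, l) x = (univ.filter fun j => π x.1 j = p).card := by
  simp only [mu, sl, card_filter, Prod.mk.injEq]
  rw [sum_comm]
  refine sum_congr rfl fun j _ => ?_
  by_cases h : π x.1 j = p <;> simp [h]

/-- Infinitesimal rigidity: moving the exponents cannot be undone by a bounded move of the
coefficients. -/
theorem rigid {k m t q : ℕ} (π : Fin k → Fin m → Fin q) (hπ : Priv π) (a : Fin k → ℝ)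
    (ha : ∀ i, |a i| ≤ 1) (c : Ix q t → ℝ) (hc : ∀ b, |c b| ≤ 3 / 2) (i0 : Fin k)
    (ha0 : |a i0| = 1) (hc0 : ∀ j, ∃ l, 1 / 2 ≤ |c (π i0 j, l)|)
    (α : Ix q t → ℝ) (hα : ∀ b, α b ∈ Set.Icc (0 : ℝ) 1) {δ h L κ : ℝ} {M : ℕ}
    (hδ : 0 < δ) (hδ1 : δ ≤ 1) (hh : 0 < h) (hκ : 0 ≤ κ) (hM : 2 ≤ M)
    (hgap : ∀ p l l', l ≠ l' → δ ≤ |α (p, l) - α (p, l')|)
    (hR : (m : ℝ) * (((q * t : ℕ) + 2 * m * (t + 1) + 1) * (t + 2) * h) ≤ 1 / 2)
    (hnum : (t : ℝ) * (q * t : ℕ) * ((q * t).factorial * (1 + L) ^ (q * t))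
        * (2 * κ + 2 * (m * (k * t ^ m) * (3 / 2) ^ m) * (1 + (q * t : ℕ) * L)
          * ((m : ℝ) * (((q * t : ℕ) + 2 * m * (t + 1) + 1) * (t + 2) * h)) ^ M)
      < h ^ (q * t) * ((δ * h / 4) ^ t / 4) ^ m)
    (Λ : Ix q t → Ix q t → ℝ) (hΛ : ∀ b b', |Λ b b'| ≤ L) :
    ∃ b, ∃ r < M, κ < |tp π a c α b r - ∑ b', Λ b b' * tm π a c α b' r| := by
  by_contra! H
  obtain ⟨j0, hj0⟩ := hπ i0
  obtain ⟨l0, -⟩ := hc0 j0
  have hm : (1 : ℝ) ≤ m := by exact_mod_cast j0.pos
  have ht : 1 ≤ t := l0.pos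
  have hL : 0 ≤ L := (abs_nonneg _).trans (hΛ (π i0 j0, l0) (π i0 j0, l0))
  have hcard : Fintype.card (Ix q t) = q * t := by clear * - q t; simp
  obtain ⟨R, hRe⟩ : ∃ R : ℝ, R = (((q * t : ℕ) + 2 * m * (t + 1) + 1) * (t + 2) * h) := ⟨_, rfl⟩
  have hhR : h ≤ R := by
    clear * - h R q t m hRe hh hm ht
    rw [hRe]
    refine le_mul_of_one_le_left hh.le (one_le_mul_of_one_le_of_one_le ?_ ?_)
    · exact le_add_of_nonneg_left (by positivity)
    · have : (0 : ℝ) ≤ t := Nat.cast_nonneg t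
      linarith only []
  rw [← hRe] at hR hnum
  have hR2 : R ≤ 1 / 2 := (le_mul_of_one_le_left (hh.le.trans hhR) hm).trans hR
  obtain ⟨z, z0, z1, z2, z3⟩ := good_point (Matrix.of Λ) (fun j l => c (π i0 j, l))
    (fun j l => α (π i0 j, l)) hc0 (fun _ _ => hα _) hδ hδ1 hh (hhR.trans hR2)
    (fun j => hgap _) ht
  rw [hcard] at z1 z2
  rw [← hRe] at z1
  obtain ⟨S, hS⟩ : ∃ S : ℝ, S = m * (k * t ^ m) * (3 / 2) ^ m := ⟨_, rfl⟩
  rw [← hS] at hnum
  have hS0 : 0 ≤ S := by rw [hS]; positivity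
  have hg : ∀ b, ∑ x : Pa k m t, |(mu π b x : ℝ) * cf π a c x| ≤ S := fun b => by
    clear * - k m t q π b a c S ha hc hm hS
    refine (sum_le_card_nsmul _ _ ((m : ℝ) * (3 / 2) ^ m) fun x _ => ?_).trans (le_of_eq ?_)
    · rw [abs_mul, Nat.abs_cast, cf, abs_mul, abs_prod]
      refine mul_le_mul (by exact_mod_cast mu_le π b x) ?_ (by positivity) (by positivity)
      refine (mul_le_of_le_one_left (by positivity) (ha _)).trans ?_
      refine (prod_le_prod (fun _ _ => abs_nonneg _) fun j _ => hc _).trans (le_of_eq ?_)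
      rw [prod_const, card_univ, Fintype.card_fin]
    · simp only [hS, card_univ, Fintype.card_prod, Fintype.card_fin, Fintype.card_pi, prod_const,
        nsmul_eq_mul, Nat.cast_mul, Nat.cast_pow]
      ring
  have w0 : ∀ x : Pa k m t, 0 ≤ wt π α x * z := fun x =>
    mul_nonneg (sum_nonneg fun j _ => (hα _).1) z0
  have w1 : ∀ x : Pa k m t, wt π α x * z ≤ m * z := fun x => by
    refine mul_le_mul_of_nonneg_right ?_ z0
    refine (sum_le_card_nsmul _ _ (1 : ℝ) fun j _ => (hα _).2).trans (by simp)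
  have r1 : (m : ℝ) * z ≤ m * R := by clear * - m z R z1 hm; gcongr
  have r0 : 0 ≤ (m : ℝ) * z := by positivity
  let T : Ix q t → ℝ := fun b =>
    ∑ x : Pa k m t, (mu π b x : ℝ) * cf π a c x * Real.exp (wt π α x * z)
  have t1 : ∀ b N, 1 ≤ N → |T b - ∑ r ∈ range N, tm π a c α b r * z ^ r| ≤
      S * (2 * (m * z) ^ N) := fun b N hN =>
    rig_tail _ _ w0 w1 (by linarith only [hh, hR, hhR, hR2, r1]) (hg b) hN r0
  have p1 : ((m : ℝ) * z) ^ M ≤ (m * R) ^ M := by clear * - m z R hm z0 r1 M; gcongr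
  have t2 : ∀ b, |T b - ∑ r ∈ range M, tm π a c α b r * z ^ r| ≤ S * (2 * (m * R) ^ M) :=
    fun b => (t1 b M (by omega)).trans (by clear * - S m z M R p1 hS0; gcongr)
  have t3 : ∀ b, |z * T b - ∑ r ∈ range M, tp π a c α b r * z ^ r| ≤ S * (2 * (m * R) ^ M) := by
    clear * - q t M z T k m π a c α S R hM Λ κ L h δ z0 hm t1 r0 hS0 H hnum p1 t2
    intro b
    obtain ⟨N, rfl⟩ : ∃ N, M = N + 1 := ⟨M - 1, by omega⟩
    have e : ∑ r ∈ range (N + 1), tp π a c α b r * z ^ r =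
        z * ∑ r ∈ range N, tm π a c α b r * z ^ r := by
      rw [sum_range_succ', rig_tp0, zero_mul, add_zero, mul_sum]
      exact sum_congr rfl fun r _ => by rw [rig_tp]; ring
    rw [e, ← mul_sub, abs_mul, abs_of_nonneg z0]
    calc _ ≤ (m * z) * (S * (2 * (m * z) ^ N)) :=
          mul_le_mul (le_mul_of_one_le_left z0 hm) (t1 b N (by omega)) (abs_nonneg _) r0
      _ = S * (2 * (m * z) ^ (N + 1)) := by ring
      _ ≤ _ := by gcongr
  have t4 : ∀ b, |∑ r ∈ range M, (tp π a c α b r - ∑ b', Λ b b' * tm π a c α b' r) * z ^ r| ≤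
      2 * κ := fun b => by
    clear * - M k m t q π a c α b Λ z κ z0 H R z1 hR2 hκ
    refine (abs_sum_le_sum_abs _ _).trans ?_
    calc _ ≤ ∑ r ∈ range M, κ * (1 / 2) ^ r := sum_le_sum fun r hr => by
          rw [abs_mul, abs_of_nonneg (pow_nonneg z0 r)]
          exact mul_le_mul (H b r (mem_range.1 hr)) (pow_le_pow_left₀ z0 (z1.trans hR2) r)
            (by positivity) hκ
      _ ≤ κ * 2 := by rw [← mul_sum]; exact mul_le_mul_of_nonneg_left (sum_geometric_two_le M) hκ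
      _ = _ := mul_comm _ _
  have t5 : ∀ b, |∑ b', (z • (1 : Matrix (Ix q t) (Ix q t) ℝ) - Matrix.of Λ) b b' * T b'| ≤
      2 * κ + 2 * S * (1 + (q * t : ℕ) * L) * (m * R) ^ M := fun b => by
    clear * - q t z Λ b T M k m π a c α L S R hΛ t2 hL hcard κ t3 t4
    have e : ∑ b', (z • (1 : Matrix (Ix q t) (Ix q t) ℝ) - Matrix.of Λ) b b' * T b' =
        (z * T b - ∑ r ∈ range M, tp π a c α b r * z ^ r) +
        ∑ r ∈ range M, (tp π a c α b r - ∑ b', Λ b b' * tm π a c α b' r) * z ^ r -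
        ∑ b', Λ b b' * (T b' - ∑ r ∈ range M, tm π a c α b' r * z ^ r) := by
      simp only [Matrix.sub_apply, Matrix.smul_apply, Matrix.one_apply, Matrix.of_apply,
        smul_eq_mul, sub_mul, sum_sub_distrib, mul_ite, mul_one, mul_zero, ite_mul, zero_mul,
        sum_ite_eq, mem_univ, if_true, mul_sub, mul_sum, sum_mul, mul_assoc]
      rw [sum_comm (s := range M)]
      ring
    have e2 : |∑ b', Λ b b' * (T b' - ∑ r ∈ range M, tm π a c α b' r * z ^ r)| ≤
        (q * t : ℕ) * (L * (S * (2 * (m * R) ^ M))) := by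
      refine (abs_sum_le_sum_abs _ _).trans ((sum_le_card_nsmul _ _ (L * (S * (2 * (m * R) ^ M)))
        fun b' _ => ?_).trans (by rw [card_univ, hcard, nsmul_eq_mul]))
      rw [abs_mul]
      exact mul_le_mul (hΛ _ _) (t2 b') (abs_nonneg _) hL
    rw [e]
    refine (abs_sub _ _).trans ((add_le_add ((abs_add_le _ _).trans (add_le_add (t3 b) (t4 b)))
      e2).trans (le_of_eq ?_))
    ring
  have t6 := rig_adj (z • (1 : Matrix (Ix q t) (Ix q t) ℝ) - Matrix.of Λ) T (B := 1 + L)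
    (by linarith only [hL]) (fun b b' => by
      clear * - q t z Λ b b' L z0 h R hh hhR hR2 z1 hΛ t5
      rw [Matrix.sub_apply, Matrix.smul_apply, Matrix.of_apply, smul_eq_mul]
      refine (abs_sub _ _).trans (add_le_add ?_ (hΛ b b'))
      rw [Matrix.one_apply]
      split_ifs
      · rw [mul_one, abs_of_nonneg z0]; linarith only [hh, hhR, hR2, z1]
      · simp) t5
  rw [hcard] at t6
  have s1 : ∑ l, T (π i0 j0, l) = ((univ.filter fun j => π i0 j = π i0 j0).card : ℝ) * a i0 *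
      ∏ j, ∑ l, c (π i0 j, l) * Real.exp (α (π i0 j, l) * z) := by
    clear * - t T q π i0 j0 m a c α z k hj0
    simp only [T, mul_assoc]
    rw [sum_comm]
    simp only [← sum_mul, ← Nat.cast_sum, rig_mu]
    rw [Fintype.sum_prod_type, sum_eq_single i0 (fun i _ hi => ?_) (by simp), prod_univ_sum,
      Fintype.piFinset_univ, mul_sum (a := a i0), mul_sum]
    · refine sum_congr rfl fun f _ => ?_
      simp only [cf, wt, sl, sum_mul, Real.exp_sum, prod_mul_distrib, mul_assoc]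
    · have : (univ.filter fun j => π i j = π i0 j0) = ∅ :=
        filter_eq_empty_iff.2 fun j _ e => hi (hj0 i j e)
      simp [this]
  have s2 : ((δ * h / 4) ^ t / 4) ^ m ≤ |∑ l, T (π i0 j0, l)| := by
    clear * - δ h t m T q π i0 j0 a c α z s1 ha0 hδ hh z3
    rw [s1, abs_mul, abs_mul, ha0, mul_one, Nat.abs_cast, abs_prod]
    have : (1 : ℝ) ≤ (univ.filter fun j => π i0 j = π i0 j0).card := by
      exact_mod_cast card_pos.2 ⟨j0, by simp⟩
    refine le_trans ?_ (le_mul_of_one_le_left (by positivity) this)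
    refine le_trans (le_of_eq ?_) (prod_le_prod (fun _ _ => by positivity) fun j _ => z3 j)
    rw [prod_const, card_univ, Fintype.card_fin]
  refine absurd hnum (not_lt.2 ?_)
  calc _ ≤ |(z • (1 : Matrix (Ix q t) (Ix q t) ℝ) - Matrix.of Λ).det| * ∑ l, |T (π i0 j0, l)| :=
        mul_le_mul z2 (s2.trans (abs_sum_le_sum_abs _ _)) (by positivity) (abs_nonneg _)
    _ ≤ _ := by
        rw [mul_sum]
        refine (sum_le_card_nsmul _ _ _ fun l _ => t6 _).trans (le_of_eq ?_)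
        rw [card_univ, Fintype.card_fin, nsmul_eq_mul]
        ring

end Pool.Agent.Work.MP_97f157_lc.Rs
end

-- merged part: Pool.Agent.Work.MP_97f157_lc.RsTop
section
namespace Pool.Agent.Work.MP_97f157_lc.Rs

open Finset Polynomial

variable {k m t q : ℕ}

theorem top_abs (π : Fin k → Fin m → Fin q) (a : Fin k → ℝ) (c α : Ix q t → ℝ) (s : ℝ)
    (x : Pa k m t) : |cf π a c x| * Real.exp (wt π α x * s) =
      |a x.1| * ∏ j, |c (sl π x j)| * Real.exp (α (sl π x j) * s) := by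
  simp only [cf, wt, abs_mul, Finset.abs_prod, Finset.prod_mul_distrib, Finset.sum_mul,
    Real.exp_sum, mul_assoc]

theorem top_sg (u v β γ : ℝ) : Smo.Pw 2 fun x y =>
    Smo.Sg (fun s => u * Real.exp (β * s) - v * Real.exp (γ * s)) x y := by
  have h := (Smo.few_ES (univ : Finset (Fin 2)) ![u, -v] ![β, γ]).pw_sg (Smo.continuous_ES _ _ _)
  have e : Smo.ES (univ : Finset (Fin 2)) ![u, -v] ![β, γ] =
      fun s => u * Real.exp (β * s) - v * Real.exp (γ * s) := by
    funext s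
    simp [Smo.ES, sub_eq_add_neg]
  rwa [e] at h

theorem top_sel {L : Type} [Fintype L] [Nonempty L] (f : L → ℝ → ℝ) {x y : ℝ}
    (h : ∀ l l', Smo.Sg (fun s => f l s - f l' s) x y) (Y : Finset ℝ)
    (hY : ∀ s ∈ Y, s ∈ Set.Icc x y) : ∃ l0, ∀ l, ∀ s ∈ Y, f l s ≤ f l0 s := by
  obtain ⟨l0, -, h0⟩ := Finset.exists_max_image univ (fun l => ∑ s ∈ Y, f l s) univ_nonempty
  refine ⟨l0, fun l => ?_⟩
  rcases h l l0 with h1 | h1
  · have h2 : ∀ s ∈ Y, f l0 s ≤ f l s := fun s hs => sub_nonneg.1 (h1 s (hY s hs))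
    exact fun s hs => ((Finset.sum_eq_sum_iff_of_le h2).1
      (le_antisymm (Finset.sum_le_sum h2) (h0 l (mem_univ l))) s hs).ge
  · exact fun s hs => sub_nonpos.1 (h1 s (hY s hs))

/-- Few paths are ever dominant. -/
theorem zeros_le (π : Fin k → Fin m → Fin q) (a : Fin k → ℝ) (c α : Ix q t → ℝ) {N0 : ℕ}
    (ht : 0 < t)
    (h : ∀ x0 : Pa k m t, cf π a c x0 ≠ 0 → ∀ Y : Finset ℝ,
      (∀ s ∈ Y, ∑ x : Pa k m t, cf π a c x * Real.exp (wt π α x * s) = 0) →
      (∀ s ∈ Y, ∀ x : Pa k m t, |cf π a c x| * Real.exp (wt π α x * s)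
        ≤ |cf π a c x0| * Real.exp (wt π α x0 * s)) → Y.card ≤ N0)
    (hne : ∃ x : Pa k m t, cf π a c x ≠ 0) (Z : Finset ℝ)
    (hZ : ∀ s ∈ Z, ∑ x : Pa k m t, cf π a c x * Real.exp (wt π α x * s) = 0) :
    Z.card ≤ 2 * (q * t) ^ 2 + (2 * (q * t) ^ 2 + 1) * (k * N0) := by
  classical
  obtain ⟨x1, hx1⟩ := hne
  have : Nonempty (Fin t) := ⟨⟨0, ht⟩⟩
  have : Nonempty (Fin k) := ⟨x1.1⟩
  have h1 := Smo.Pw.forall (univ : Finset (Ix q t × Ix q t))
    fun b _ => top_sg |c b.1| |c b.2| (α b.1) (α b.2)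
  refine Smo.Pw.card_le (h1.mono ?_ fun x y _ hs Y hYZ hY => ?_)
  · simp only [card_univ, Fintype.card_prod, Fintype.card_fin]
    exact le_of_eq (by ring)
  choose sel hsel using fun p : Fin q => top_sel
    (fun (l : Fin t) s => |c (p, l)| * Real.exp (α (p, l) * s))
    (fun l l' => hs ((p, l), (p, l')) (mem_univ _)) Y hY
  let P : Fin k → Pa k m t := fun i => (i, fun j => sel (π i j))
  have h2 : Y ⊆ univ.biUnion fun i => Y.filter fun s => ∀ x : Pa k m t,
      |cf π a c x| * Real.exp (wt π α x * s) ≤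
        |cf π a c (P i)| * Real.exp (wt π α (P i) * s) := fun s hs => by
    obtain ⟨i, -, hi⟩ := Finset.exists_max_image univ
      (fun i => |cf π a c (P i)| * Real.exp (wt π α (P i) * s)) univ_nonempty
    refine Finset.mem_biUnion.2 ⟨i, mem_univ _, Finset.mem_filter.2 ⟨hs, fun x => ?_⟩⟩
    refine le_trans ?_ (hi x.1 (mem_univ _))
    rw [top_abs, top_abs]
    refine mul_le_mul_of_nonneg_left (Finset.prod_le_prod (fun j _ => by positivity)
      fun j _ => hsel _ _ s hs) (abs_nonneg _)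
  refine (Finset.card_le_card h2).trans (Finset.card_biUnion_le.trans ?_)
  refine (Finset.sum_le_card_nsmul _ _ N0 fun i _ => ?_).trans (by simp)
  rcases (Y.filter fun s => ∀ x : Pa k m t, |cf π a c x| * Real.exp (wt π α x * s) ≤
    |cf π a c (P i)| * Real.exp (wt π α (P i) * s)).eq_empty_or_nonempty with h3 | ⟨s, h3⟩
  · rw [h3]
    exact Nat.zero_le _
  · refine h (P i) (fun e => ?_) _ (fun s hs => hZ s (hYZ (Finset.mem_filter.1 hs).1))
      fun s hs => (Finset.mem_filter.1 hs).2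
    have h4 := (Finset.mem_filter.1 h3).2 x1
    rw [e, abs_zero, zero_mul] at h4
    exact absurd h4 (not_le.2 (mul_pos (abs_pos.2 hx1) (Real.exp_pos _)))

/-- From exponential sums to real roots. -/
theorem roots_bridge (π : Fin k → Fin m → Fin q) (a : Fin k → ℝ) (g : Fin q → ℝ[X])
    (e : Ix q t → ℕ) (he : ∀ p l l', e (p, l) = e (p, l') → l = l')
    (hg : ∀ p, ∀ n ∈ (g p).support, ∃ l, n = e (p, l)) {D : ℝ} (hD : 0 < D) {n0 : ℕ}
    (h : ∀ c : Ix q t → ℝ, (∃ x : Pa k m t, cf π a c x ≠ 0) → ∀ Z : Finset ℝ,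
      (∀ s ∈ Z, ∑ x : Pa k m t,
        cf π a c x * Real.exp (wt π (fun b => (e b : ℝ) / D) x * s) = 0) → Z.card ≤ n0) :
    (∑ i, C (a i) * ∏ j, g (π i j)).roots.toFinset.card ≤ 2 * n0 + 1 := by
  classical
  by_cases hF : ∑ i, C (a i) * ∏ j, g (π i j) = 0
  · simp [hF]
  refine Smo.roots_le fun σ hσ Z hZ => ?_
  have hσ0 : σ ≠ 0 := by
    rintro rfl
    simp at hσ
  obtain ⟨c, hc⟩ : ∃ c : Ix q t → ℝ, ∀ b, c b = (g b.1).coeff (e b) * σ ^ e b :=
    ⟨_, fun _ => rfl⟩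
  have h1 : ∀ p s, (g p).eval (σ * Real.exp s) =
      ∑ l, c (p, l) * Real.exp ((e (p, l) : ℝ) / D * (D * s)) := fun p s => by
    rw [Smo.eval_exp, Smo.ES, Finset.sum_subset (s₂ := univ.image fun l => e (p, l)),
      Finset.sum_image fun l _ l' _ => he p l l']
    · refine Finset.sum_congr rfl fun l _ => ?_
      rw [hc, ← mul_assoc, div_mul_cancel₀ _ hD.ne']
    · intro n hn
      obtain ⟨l, rfl⟩ := hg p n hn
      exact Finset.mem_image_of_mem _ (mem_univ l)
    · intro n _ hn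
      rw [notMem_support_iff.1 hn, zero_mul, zero_mul]
  have h2 : ∀ s, (∑ i, C (a i) * ∏ j, g (π i j)).eval (σ * Real.exp s) = ∑ x : Pa k m t,
      cf π a c x * Real.exp (wt π (fun b => (e b : ℝ) / D) x * (D * s)) := fun s => by
    simp only [← cf_shift, eval_finsetSum, eval_mul, eval_C, eval_prod, h1, Finset.prod_univ_sum,
      Fintype.piFinset_univ, Finset.mul_sum]
    rw [Fintype.sum_prod_type]
    rfl
  rw [← Finset.card_image_of_injective Z (mul_right_injective₀ hD.ne')]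
  refine h c ?_ _ fun s hs => ?_
  · obtain ⟨s, hs⟩ := Smo.exists_eval_ne hF hσ0
    rw [h2] at hs
    obtain ⟨x, -, hx⟩ := Finset.exists_ne_zero_of_sum_ne_zero hs
    exact ⟨x, left_ne_zero_of_mul hx⟩
  · obtain ⟨s, hs', rfl⟩ := Finset.mem_image.1 hs
    rw [← h2]
    exact hZ s hs'

end Pool.Agent.Work.MP_97f157_lc.Rs
end

-- merged part: Pool.Agent.Work.MP_97f157_lc.RsPoly
section
namespace Pool.Agent.Work.MP_97f157_lc.Rs

open Finset MvPolynomial

variable {k m t q : ℕ}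

/-- The moments as polynomials in the exponents and the relative coefficients. -/
noncomputable def momP (π : Fin k → Fin m → Fin q) (a : Fin k → ℝ) (c0 : Ix q t → ℝ) (r : ℕ) :
    MvPolynomial (Ix q t ⊕ Ix q t) ℝ :=
  ∑ x : Pa k m t, C (cf π a c0 x / (r.factorial : ℝ)) * (∏ j, X (Sum.inr (sl π x j)))
    * (∑ j, X (Sum.inl (sl π x j))) ^ r

theorem poly_cf (π : Fin k → Fin m → Fin q) (a : Fin k → ℝ) (c0 u : Ix q t → ℝ) (x : Pa k m t) :
    cf π a (fun b => c0 b * u b) x = cf π a c0 x * ∏ j, u (sl π x j) := by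
  simp only [cf, prod_mul_distrib, mul_assoc]

theorem poly_sum {I J : Type} [DecidableEq I] (s : Finset J) (f : J → I) (b : I) :
    pderiv b (∑ j ∈ s, (X (f j) : MvPolynomial I ℝ)) =
      C ((s.filter fun j => f j = b).card : ℝ) := by
  rw [map_sum, card_filter]
  push_cast
  rw [map_sum]
  refine sum_congr rfl fun j _ => ?_
  by_cases h : f j = b
  · simp [h]
  · simp [h, pderiv_X_of_ne h]

theorem poly_prod {I J : Type} [DecidableEq I] [DecidableEq J] (s : Finset J) (f : J → I) (b : I) :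
    X b * pderiv b (∏ j ∈ s, (X (f j) : MvPolynomial I ℝ)) =
      C ((s.filter fun j => f j = b).card : ℝ) * ∏ j ∈ s, X (f j) := by
  induction s using Finset.induction_on with
  | empty => simp
  | insert j s hj ih =>
    rw [prod_insert hj, Derivation.leibniz, filter_insert]
    by_cases h : f j = b
    · rw [if_pos h, card_insert_of_notMem fun k => hj (mem_filter.1 k).1, h, pderiv_X_self]
      simp only [smul_eq_mul, Nat.cast_add, Nat.cast_one, map_add, map_one]
      linear_combination (X b) * ih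
    · rw [if_neg h, pderiv_X_of_ne h]
      simp only [smul_eq_mul]
      linear_combination (X (f j)) * ih

theorem momP_deg (π : Fin k → Fin m → Fin q) (a : Fin k → ℝ) (c0 : Ix q t → ℝ) (r : ℕ) :
    (momP π a c0 r).totalDegree ≤ m + r := by
  refine totalDegree_finsetSum_le fun x _ => ?_
  refine (totalDegree_mul _ _).trans (add_le_add ((totalDegree_mul _ _).trans ?_) ?_)
  · rw [totalDegree_C, zero_add]
    refine (totalDegree_finset_prod _ _).trans ?_
    simp [totalDegree_X]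
  · refine (totalDegree_pow _ _).trans ?_
    have : (∑ j, X (Sum.inl (sl π x j)) : MvPolynomial (Ix q t ⊕ Ix q t) ℝ).totalDegree ≤ 1 :=
      totalDegree_finsetSum_le fun j _ => (totalDegree_X _).le
    simpa using Nat.mul_le_mul_left r this

theorem momP_eval (π : Fin k → Fin m → Fin q) (a : Fin k → ℝ) (c0 α u : Ix q t → ℝ) (r : ℕ) :
    eval (Sum.elim α u) (momP π a c0 r) = mom π a (fun b => c0 b * u b) α r := by
  simp only [momP, mom, map_sum, map_mul, map_pow, map_prod, eval_C, eval_X, Sum.elim_inl,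
    Sum.elim_inr, poly_cf, wt]
  exact sum_congr rfl fun x _ => by ring

theorem momP_inl (π : Fin k → Fin m → Fin q) (a : Fin k → ℝ) (c0 α u : Ix q t → ℝ) (r : ℕ)
    (b : Ix q t) :
    eval (Sum.elim α u) (pderiv (Sum.inl b) (momP π a c0 r))
      = tp π a (fun b => c0 b * u b) α b r := by
  simp only [momP, tp, map_sum, poly_cf, wt]
  refine sum_congr rfl fun x _ => ?_
  have h1 : pderiv (Sum.inl b) (∏ j, X (Sum.inr (sl π x j)) : MvPolynomial (Ix q t ⊕ Ix q t) ℝ)
      = 0 := by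
    have h := poly_prod univ (fun j => (Sum.inr (sl π x j) : Ix q t ⊕ Ix q t)) (Sum.inl b)
    simpa using h
  have h2 := poly_sum univ (fun j => (Sum.inl (sl π x j) : Ix q t ⊕ Ix q t)) (Sum.inl b)
  simp only [Sum.inl.injEq] at h2
  rw [Derivation.leibniz, Derivation.leibniz, Derivation.leibniz_pow, h1, h2, pderiv_C]
  simp only [smul_eq_mul, nsmul_eq_mul, mul_zero, add_zero, map_mul, map_pow, map_prod, map_sum,
    eval_C, eval_X, Sum.elim_inl, Sum.elim_inr, map_natCast, mu]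
  ring

theorem momP_inr (π : Fin k → Fin m → Fin q) (a : Fin k → ℝ) (c0 α u : Ix q t → ℝ) (r : ℕ)
    (b : Ix q t) :
    u b * eval (Sum.elim α u) (pderiv (Sum.inr b) (momP π a c0 r))
      = tm π a (fun b => c0 b * u b) α b r := by
  simp only [momP, tm, map_sum, poly_cf, wt, mul_sum]
  refine sum_congr rfl fun x _ => ?_
  have h1 := congrArg (eval (Sum.elim α u))
    (poly_prod univ (fun j => (Sum.inr (sl π x j) : Ix q t ⊕ Ix q t)) (Sum.inr b))
  have h2 := poly_sum univ (fun j => (Sum.inl (sl π x j) : Ix q t ⊕ Ix q t)) (Sum.inr b)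
  simp only [Sum.inr.injEq, map_mul, eval_X, Sum.elim_inr, eval_C, map_prod] at h1
  rw [Derivation.leibniz, Derivation.leibniz, Derivation.leibniz_pow, h2, pderiv_C]
  simp only [smul_eq_mul, mul_zero, add_zero, map_mul, map_pow, map_sum, reduceCtorEq,
    filter_false, card_empty, Nat.cast_zero, map_zero, smul_zero, zero_add,
    eval_C, eval_X, Sum.elim_inl, mu]
  linear_combination (∑ j, α (sl π x j)) ^ r * (cf π a c0 x / (r.factorial : ℝ)) * h1

end Pool.Agent.Work.MP_97f157_lc.Rs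
end

-- merged part: Pool.Agent.Work.MP_97f157_lc.RsNum
section
namespace Pool.Agent.Work.MP_97f157_lc.Rs

open Real

/-- `x` is nonnegative and at most `exp p`. -/
def Bd (x p : ℝ) : Prop := 0 ≤ x ∧ x ≤ exp p

lemma Bd.mono {x p p' : ℝ} (h : Bd x p) (hp : p ≤ p') : Bd x p' :=
  ⟨h.1, h.2.trans (exp_le_exp.2 hp)⟩

lemma Bd.mul {x y p p' : ℝ} (h : Bd x p) (h' : Bd y p') : Bd (x * y) (p + p') :=
  ⟨mul_nonneg h.1 h'.1, by rw [exp_add]; exact mul_le_mul h.2 h'.2 h'.1 (exp_pos _).le⟩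

lemma Bd.pow {x p : ℝ} (h : Bd x p) (n : ℕ) : Bd (x ^ n) (n * p) :=
  ⟨pow_nonneg h.1 _, by rw [exp_nat_mul]; exact pow_le_pow_left₀ h.1 h.2 _⟩

lemma Bd.pow_le {x p Y : ℝ} (h : Bd x p) (hp : 0 ≤ p) {n : ℕ} (hn : (n : ℝ) ≤ Y) :
    Bd (x ^ n) (Y * p) :=
  (h.pow n).mono (mul_le_mul_of_nonneg_right hn hp)

lemma bd_of_le {x p : ℝ} (h0 : 0 ≤ x) (h : x ≤ p + 1) : Bd x p :=
  ⟨h0, h.trans (add_one_le_exp p)⟩

lemma bd_exp (p : ℝ) : Bd (exp p) p := ⟨(exp_pos _).le, le_rfl⟩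

lemma Bd.add {x y p : ℝ} (h : Bd x p) (h' : Bd y p) : Bd (x + y) (p + 1) := by
  refine ⟨add_nonneg h.1 h'.1, ?_⟩
  have h2 : (2 : ℝ) ≤ exp 1 := by have := add_one_le_exp (1 : ℝ); linarith
  rw [exp_add]
  have := exp_pos p
  linarith only [h, h', h2, this, h.2, h'.2, mul_nonneg_of_nonpos_of_nonpos (Mathlib.Tactic.Linarith.sub_nonpos_of_le h2) (le_of_lt (Mathlib.Tactic.Linarith.sub_neg_of_lt this))]

lemma Bd.div_exp {x p : ℝ} (h : Bd x p) (p' : ℝ) : Bd (x / exp p') (p - p') := by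
  have := h.mul (bd_exp (-p'))
  rwa [exp_neg, ← div_eq_mul_inv, ← sub_eq_add_neg] at this

lemma exp_sub_two_lt (p : ℝ) : exp (p - 2) < exp p / 4 := by
  have h2 : (2 : ℝ) < exp 1 := by have := add_one_lt_exp (one_ne_zero (α := ℝ)); linarith
  have h : exp p = exp (p - 2) * (exp 1 * exp 1) := by rw [← exp_add, ← exp_add]; ring_nf
  have h4 : 4 < exp 1 * exp 1 := by linarith only [h2, mul_pos_of_neg_of_neg (Mathlib.Tactic.Linarith.sub_neg_of_lt h2) (Mathlib.Tactic.Linarith.sub_neg_of_lt h2)]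
  have := exp_pos (p - 2)
  rw [lt_div_iff₀ (by norm_num), h]
  nlinarith

lemma Bd.lt_quarter {x p p' : ℝ} (h : Bd x p) (hp : p ≤ p' - 2) : x < exp p' / 4 :=
  (h.mono hp).2.trans_lt (exp_sub_two_lt p')

lemma Bd.le_half {x p p' : ℝ} (h : Bd x p) (hp : p ≤ p' - 2) : x ≤ exp p' / 2 := by
  have := h.lt_quarter hp
  have := exp_pos p'
  linarith

lemma bd_half : Bd (1 / 2) (-(1 / 2)) := by
  refine ⟨by norm_num, ?_⟩
  have := add_one_le_exp (-(1 / 2) : ℝ)
  linarith only [this]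

/-- Size relations between the parameters. -/
structure Sz (k m t q N y : ℕ) : Prop where
  big : 1000 ≤ y
  hk : k ≤ y
  hm : m ≤ y
  ht : t ≤ y
  hN : N ≤ y
  hn : q * t ≤ y
  hmt : m * t ≤ y
  hkmq : k * m * q ≤ y
  hmn : 2 * m * (q * t) ≤ y
  hX : k + m * t ≤ y

lemma sz_of {k m t q N : ℕ} (hk : 0 < k) (hm : 0 < m) (ht : 0 < t) (hq : 0 < q) :
    Sz k m t q N (1000 * (k * m * t * q * (N + 1))) := by
  obtain ⟨k, rfl⟩ : ∃ a, k = a + 1 := ⟨k - 1, by omega⟩
  obtain ⟨m, rfl⟩ : ∃ a, m = a + 1 := ⟨m - 1, by omega⟩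
  obtain ⟨t, rfl⟩ : ∃ a, t = a + 1 := ⟨t - 1, by omega⟩
  obtain ⟨q, rfl⟩ : ∃ a, q = a + 1 := ⟨q - 1, by omega⟩
  constructor <;> ring_nf <;> omega

/-- The ladder of powers of a large number. -/
lemma ladder {Y : ℝ} (hY : 1000 ≤ Y) :
    1000 * Y ≤ Y ^ 2 ∧ 1000 * Y ^ 2 ≤ Y ^ 3 ∧ 1000 * Y ^ 3 ≤ Y ^ 4 ∧ 1000 * Y ^ 4 ≤ Y ^ 5 ∧
      1000 * Y ^ 5 ≤ Y ^ 6 ∧ 1000 * Y ^ 6 ≤ Y ^ 7 ∧ 1000 * Y ^ 7 ≤ Y ^ 8 ∧
      1000 * Y ^ 8 ≤ Y ^ 9 := by
  have h : ∀ n : ℕ, 1000 * Y ^ n ≤ Y ^ (n + 1) := fun n => by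
    rw [pow_succ, mul_comm]
    exact mul_le_mul_of_nonneg_left hY (by positivity)
  refine ⟨by simpa using h 1, h 2, h 3, h 4, h 5, h 6, h 7, h 8⟩

namespace Sz

variable {k m t q N y : ℕ} (S : Sz k m t q N y)
include S

lemma bigR : (1000 : ℝ) ≤ y := by exact_mod_cast S.big
lemma kR : (k : ℝ) ≤ y := by exact_mod_cast S.hk
lemma mR : (m : ℝ) ≤ y := by exact_mod_cast S.hm
lemma tR : (t : ℝ) ≤ y := by exact_mod_cast S.ht
lemma NR : (N : ℝ) ≤ y := by exact_mod_cast S.hN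
lemma nR : ((q * t : ℕ) : ℝ) ≤ y := by exact_mod_cast S.hn
lemma mtR : (m : ℝ) * t ≤ y := by exact_mod_cast S.hmt

lemma bdX : Bd ((k : ℝ) * t ^ m) y := by
  have h1 : Bd (k : ℝ) k := bd_of_le (by positivity) (by linarith)
  have h2 : Bd (t : ℝ) t := bd_of_le (by positivity) (by linarith)
  refine (h1.mul (h2.pow m)).mono ?_
  exact_mod_cast S.hX

lemma bdm1 : Bd ((m : ℝ) + 1) y := bd_of_le (by positivity) (by linarith [S.mR])

lemma bdR : Bd ((m : ℝ) * (((q * t : ℕ) + 2 * m * (t + 1) + 1) * (t + 2) * exp (-(y : ℝ) ^ 5)))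
    (10 * y - (y : ℝ) ^ 5) := by
  have := S.bigR; have := S.mR; have := S.tR; have := S.nR; have := S.mtR
  have h1 : Bd (m : ℝ) y := bd_of_le (by positivity) (by linarith)
  have h2 : Bd (((q * t : ℕ) : ℝ) + 2 * m * (t + 1) + 1) (6 * y) :=
    bd_of_le (by positivity) (by nlinarith)
  have h3 : Bd ((t : ℝ) + 2) (3 * y) := bd_of_le (by positivity) (by linarith)
  exact (h1.mul ((h2.mul h3).mul (bd_exp _))).mono (by linarith)

lemma num_R : (m : ℝ) * (((q * t : ℕ) + 2 * m * (t + 1) + 1) * (t + 2) * exp (-(y : ℝ) ^ 5))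
    ≤ 1 / 2 := by
  obtain ⟨l1, l2, l3, l4, l5, l6, l7, l8⟩ := ladder S.bigR
  have := S.bigR
  have h := S.bdR.le_half (p' := 0) (by linarith only [l1, l2, l3, l4, this])
  simpa using h

lemma num_rig : (t : ℝ) * (q * t : ℕ) * ((q * t).factorial * (1 + 2 * exp ((y : ℝ) ^ 3)) ^ (q * t))
      * (2 * exp (-(y : ℝ) ^ 7) + 2 * (m * (k * t ^ m) * (3 / 2) ^ m)
        * (1 + (q * t : ℕ) * (2 * exp ((y : ℝ) ^ 3)))
        * ((m : ℝ) * (((q * t : ℕ) + 2 * m * (t + 1) + 1) * (t + 2) * exp (-(y : ℝ) ^ 5)))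
          ^ (2 * y + 1))
    < exp (-(y : ℝ) ^ 5) ^ (q * t)
      * ((exp (-(4 * (y : ℝ))) / 2 * exp (-(y : ℝ) ^ 5) / 4) ^ t / 4) ^ m := by
  obtain ⟨l1, l2, l3, l4, l5, l6, l7, l8⟩ := ladder S.bigR
  have := S.bigR; have := S.mR; have := S.tR; have hn := S.nR; have := S.mtR
  set Y : ℝ := (y : ℝ) with hY
  have h1 : Bd (m : ℝ) Y := bd_of_le (by positivity) (by linarith)
  have h2 : Bd (t : ℝ) Y := bd_of_le (by positivity) (by linarith)
  have h3 : Bd ((q * t : ℕ) : ℝ) Y := bd_of_le (by positivity) (by linarith only [hn])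
  have h4 : Bd (((q * t).factorial : ℕ) : ℝ) (Y * Y) := by
    have h := h3.pow_le (by linarith) hn
    refine ⟨by positivity, le_trans ?_ h.2⟩
    exact_mod_cast Nat.factorial_le_pow _
  have b2 : Bd 2 1 := bd_of_le (by norm_num) (by norm_num)
  have b1 : Bd 1 0 := bd_of_le (by norm_num) (by norm_num)
  have h5 : Bd (2 * exp (Y ^ 3)) (1 + Y ^ 3) := b2.mul (bd_exp _)
  have h6 : Bd (1 + 2 * exp (Y ^ 3)) (1 + Y ^ 3 + 1) := (b1.mono (by linarith)).add h5
  have h7 := h6.pow_le (by linarith) hn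
  have h8 : Bd ((3 / 2 : ℝ) ^ m) (Y * 1) :=
    (bd_of_le (x := 3 / 2) (p := 1) (by norm_num) (by norm_num)).pow_le (by norm_num) S.mR
  have h9 : Bd (1 + ((q * t : ℕ) : ℝ) * (2 * exp (Y ^ 3))) (Y + (1 + Y ^ 3) + 1) :=
    (b1.mono (by linarith)).add (h3.mul h5)
  have h10 := ((b2.mul ((h1.mul S.bdX).mul h8)).mul h9).mul (S.bdR.pow (2 * y + 1))
  have h11 := (b2.mul (bd_exp (-Y ^ 7))).mono (p' := -2 * Y ^ 6 - Y ^ 5 + 2 * Y ^ 3)
    (by linarith)
  have h12 := h11.add (h10.mono (by push_cast; rw [← hY]; linarith))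
  have h13 := ((h2.mul h3).mul (h4.mul h7)).mul h12
  refine (h13.mono (p' := -2 * Y ^ 6 - Y ^ 5 + 2 * Y ^ 4) (by linarith)).2.trans_lt ?_
  have e1 : exp (-3) ≤ (1 / 8 : ℝ) := by
    have h := (bd_exp (-1)).le_half (p' := 0 + 1) (by norm_num)
    have h2 : (2 : ℝ) ≤ exp 1 := by have := add_one_le_exp (1 : ℝ); linarith only [this]
    have h3 : exp (-3) * (exp 1 * exp 1 * exp 1) = 1 := by
      rw [← exp_add, ← exp_add, ← exp_add]; norm_num
    have h4 : 8 ≤ exp 1 * exp 1 * exp 1 := by linarith only [h2, mul_nonneg_of_nonpos_of_nonpos (Mathlib.Tactic.Linarith.sub_nonpos_of_le (mul_self_nonneg (rexp (1 : ℝ)))) (Mathlib.Tactic.Linarith.sub_nonpos_of_le h2), mul_nonneg_of_nonpos_of_nonpos (Mathlib.Tactic.Linarith.sub_nonpos_of_le h2) (Mathlib.Tactic.Linarith.sub_nonpos_of_le h2)]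
    have := exp_pos (-3)
    linarith only [h3, h4, this, mul_nonneg_of_nonpos_of_nonpos (Mathlib.Tactic.Linarith.sub_nonpos_of_le h4) (le_of_lt (Mathlib.Tactic.Linarith.sub_neg_of_lt this))]
  have e2 : exp (-(4 * Y) - Y ^ 5 - 3) ≤ exp (-(4 * Y)) / 2 * exp (-Y ^ 5) / 4 := by
    have : exp (-(4 * Y) - Y ^ 5 - 3) = exp (-(4 * Y)) * exp (-Y ^ 5) * exp (-3) := by
      rw [← exp_add, ← exp_add]; ring_nf
    rw [this]
    have h0 : 0 < exp (-(4 * Y)) * exp (-Y ^ 5) := by positivity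
    linarith only [e1, h0, mul_nonneg_of_nonpos_of_nonpos (Mathlib.Tactic.Linarith.sub_nonpos_of_le e1) (le_of_lt (Mathlib.Tactic.Linarith.sub_neg_of_lt h0))]
  have e3 : exp (t * (-(4 * Y) - Y ^ 5 - 3) - 3)
      ≤ (exp (-(4 * Y)) / 2 * exp (-Y ^ 5) / 4) ^ t / 4 := by
    rw [sub_eq_add_neg, exp_add, exp_nat_mul]
    have h := pow_le_pow_left₀ (exp_pos _).le e2 t
    have h0 : 0 < exp (-(4 * Y) - Y ^ 5 - 3) ^ t := by positivity
    linarith only [h, h0, e1, mul_nonneg_of_nonpos_of_nonpos (Mathlib.Tactic.Linarith.sub_nonpos_of_le e1) (le_of_lt (Mathlib.Tactic.Linarith.sub_neg_of_lt h0))]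
  have e4 := pow_le_pow_left₀ (exp_pos _).le e3 m
  refine lt_of_lt_of_le ?_ (mul_le_mul_of_nonneg_left e4 (by positivity))
  rw [← exp_nat_mul, ← exp_nat_mul, ← exp_add, exp_lt_exp]
  have a1 : ((q * t : ℕ) : ℝ) * Y ^ 5 ≤ Y * Y ^ 5 := mul_le_mul_of_nonneg_right hn (by positivity)
  have a2 : (m : ℝ) * t * (4 * Y + Y ^ 5 + 3) ≤ Y * (4 * Y + Y ^ 5 + 3) :=
    mul_le_mul_of_nonneg_right S.mtR (by positivity)
  linarith

lemma num_h1 : (((2 * y + 1 : ℕ) : ℝ) + (q * t : ℕ)) / (25 * y) + (q * t : ℕ) * (1 / (3 * y) : ℝ) ^ 2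
    < 1 / 4 := by
  have hy := S.bigR; have hn := S.nR
  have h1 : (((2 * y + 1 : ℕ) : ℝ) + (q * t : ℕ)) / (25 * y) ≤ 4 / 25 := by
    rw [div_le_div_iff₀ (by positivity) (by norm_num)]
    push_cast at hn ⊢; linarith only [hy, hn]
  have h2 : ((q * t : ℕ) : ℝ) * (1 / (3 * y) : ℝ) ^ 2 ≤ 1 / 100 := by
    rw [div_pow, mul_div_assoc', div_le_div_iff₀ (by positivity) (by norm_num)]
    linarith only [hy, hn, mul_nonneg_of_nonpos_of_nonpos (Mathlib.Tactic.Linarith.sub_nonpos_of_le (Mathlib.Tactic.Linarith.natCast_nonneg ℝ y)) (Mathlib.Tactic.Linarith.sub_nonpos_of_le hy)]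
  linarith only [h1, h2]

lemma num_h2 : ((2 * y + 1 : ℕ) : ℝ) + (q * t : ℕ) + 25 * y * ((q * t : ℕ) * (1 / (3 * y) : ℝ) ^ 2)
    ≤ (25 * y) ^ 2 := by
  have hy := S.bigR; have hn := S.nR
  have h2 : ((q * t : ℕ) : ℝ) * (1 / (3 * y) : ℝ) ^ 2 ≤ 1 / 100 := by
    rw [div_pow, mul_div_assoc', div_le_div_iff₀ (by positivity) (by norm_num)]
    linarith only [hy, hn, mul_nonneg_of_nonpos_of_nonpos (Mathlib.Tactic.Linarith.sub_nonpos_of_le (Mathlib.Tactic.Linarith.natCast_nonneg ℝ y)) (Mathlib.Tactic.Linarith.sub_nonpos_of_le hy)]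
  have h3 := mul_le_mul_of_nonneg_left h2 (show (0 : ℝ) ≤ 25 * y by positivity)
  push_cast at hn h3 ⊢
  linarith only [hy, hn, h3, mul_nonneg_of_nonpos_of_nonpos (Mathlib.Tactic.Linarith.sub_nonpos_of_le (Mathlib.Tactic.Linarith.natCast_nonneg ℝ y)) (Mathlib.Tactic.Linarith.sub_nonpos_of_le hy)]

lemma num_P : (1 + 1 / (3 * y) : ℝ)⁻¹ ^ (y ^ 10) ≤ exp (-(2 * (y : ℝ) ^ 8)) := by
  obtain ⟨l1, l2, l3, l4, l5, l6, l7, l8⟩ := ladder S.bigR
  have hy := S.bigR
  set η : ℝ := 1 / (3 * y) with hη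
  have h0 : 0 < η := by positivity
  have h1 : η ≤ 1 := by rw [hη, div_le_one (by positivity)]; linarith only [hy]
  have h2 : Bd (1 + η)⁻¹ (-(η / 2)) := by
    refine bd_of_le (by positivity) ?_
    rw [inv_le_iff_one_le_mul₀ (by positivity)]
    linarith only [h0, h1, mul_nonneg_of_nonpos_of_nonpos (le_of_lt (Mathlib.Tactic.Linarith.sub_neg_of_lt h0)) (Mathlib.Tactic.Linarith.sub_nonpos_of_le h1)]
  refine ((h2.pow _).mono ?_).2
  have : (((y ^ 10 : ℕ) : ℝ)) * -(η / 2) = -((y : ℝ) ^ 9 / 6) := by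
    rw [hη]; push_cast; field_simp; ring
  rw [this]
  have : (0 : ℝ) ≤ (y : ℝ) ^ 8 := by positivity
  linarith only [l1, l2, l3, l4, l5, l6, l7, l8, hy]

lemma num_drop : (k * t ^ m : ℝ) * exp (-(2 * (y : ℝ) ^ 8)) * (m + 1) ^ (2 * y + 1)
    ≤ exp (-(y : ℝ) ^ 8) / 4 := by
  obtain ⟨l1, l2, l3, l4, l5, l6, l7, l8⟩ := ladder S.bigR
  have hy := S.bigR
  refine (((S.bdX.mul (bd_exp _)).mul (S.bdm1.pow _)).lt_quarter ?_).le
  push_cast; linarith only [l1, l2, l3, l4, l5, l6, l7, hy]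

lemma bdD {D : ℕ} (hD : 2 ^ (y ^ 23) ≤ D) : Bd (1 / D : ℝ) (-(2 * (y : ℝ) ^ 8)) := by
  obtain ⟨l1, l2, l3, l4, l5, l6, l7, l8⟩ := ladder S.bigR
  have hy := S.bigR
  have h := bd_half.pow (y ^ 23)
  have h1 : (1 / D : ℝ) ≤ (1 / 2) ^ (y ^ 23) := by
    rw [one_div_pow]
    exact one_div_le_one_div_of_le (by positivity) (by exact_mod_cast hD)
  refine Bd.mono ⟨by positivity, h1.trans h.2⟩ ?_
  have h2 : (y : ℝ) ^ 9 ≤ (y : ℝ) ^ 23 := pow_le_pow_right₀ (by linarith only [hy]) (by norm_num)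
  have : (0 : ℝ) ≤ (y : ℝ) ^ 8 := by positivity
  push_cast; linarith only [l1, l2, l3, l4, l5, l6, l7, l8, hy, h2]

lemma num_lip {D : ℕ} (hD : 2 ^ (y ^ 23) ≤ D) :
    (k * t ^ m : ℝ) * ((2 * y + 1 : ℕ) * (m + 1) ^ (2 * y + 1 + 1)) * (1 / D)
      ≤ exp (-(y : ℝ) ^ 8) / 4 := by
  obtain ⟨l1, l2, l3, l4, l5, l6, l7, l8⟩ := ladder S.bigR
  have hy := S.bigR
  have h1 : Bd ((2 * y + 1 : ℕ) : ℝ) (2 * y) := bd_of_le (by positivity) (by push_cast; linarith only [])
  refine (((S.bdX.mul (h1.mul (S.bdm1.pow _))).mul (S.bdD hD)).lt_quarter ?_).le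
  push_cast; linarith only [l1, l2, l3, l4, l5, l6, l7, hy]

lemma num_D {D : ℕ} (hD : 2 ^ (y ^ 23) ≤ D) : (1 / D : ℝ) ≤ exp (-(4 * (y : ℝ))) / 2 := by
  obtain ⟨l1, l2, l3, l4, l5, l6, l7, l8⟩ := ladder S.bigR
  have hy := S.bigR
  exact (S.bdD hD).le_half (by linarith only [l1, l2, l3, l4, l5, l6, l7, hy])

lemma num_far : (k * t ^ m : ℝ) * (1 + m) ^ (2 * (2 * y + 1))
    * exp (-(exp (-(4 * (y : ℝ))) * ((y : ℝ) ^ 9 * exp (4 * y)))) < exp (-(y : ℝ) ^ 8) / 4 := by
  obtain ⟨l1, l2, l3, l4, l5, l6, l7, l8⟩ := ladder S.bigR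
  have hy := S.bigR
  have e : exp (-(4 * (y : ℝ))) * ((y : ℝ) ^ 9 * exp (4 * y)) = (y : ℝ) ^ 9 := by
    rw [exp_neg]; field_simp
  rw [e, add_comm (1 : ℝ)]
  refine ((S.bdX.mul (S.bdm1.pow _)).mul (bd_exp _)).lt_quarter ?_
  push_cast; linarith only [l1, l2, l3, l4, l5, l6, l7, l8, hy]

lemma num_near : (k * t ^ m : ℝ) * ((1 + m) * (2 * m)) ^ (2 * y + 1) * (1 / 2) ^ (y ^ 9)
    < exp (-(y : ℝ) ^ 8) / 4 := by
  obtain ⟨l1, l2, l3, l4, l5, l6, l7, l8⟩ := ladder S.bigR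
  have hy := S.bigR; have := S.mR
  have h1 : Bd (2 * (m : ℝ)) (2 * y) := bd_of_le (by positivity) (by linarith only [this])
  rw [add_comm (1 : ℝ)]
  refine ((S.bdX.mul ((S.bdm1.mul h1).pow _)).mul (bd_half.pow _)).lt_quarter ?_
  push_cast; linarith only [l1, l2, l3, l4, l5, l6, l7, l8, hy]

lemma num_U : 1 + (y : ℝ) ^ 9 * exp (4 * y) * m / (y ^ 9 : ℕ) ≤ exp ((6 * y : ℕ) : ℝ) := by
  have hy := S.bigR; have := S.mR
  have e : (y : ℝ) ^ 9 * exp (4 * y) * m / (y ^ 9 : ℕ) = exp (4 * y) * m := by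
    push_cast; field_simp
  have h1 : Bd (m : ℝ) y := bd_of_le (by positivity) (by linarith only [this])
  have b1 : Bd 1 (4 * y + y) := bd_of_le (by norm_num) (by linarith only [hy])
  rw [e]
  refine ((b1.add ((bd_exp _).mul h1)).mono ?_).2
  push_cast; linarith only [hy]

lemma num_count {D : ℕ} (hD : 2 ^ (y ^ 23) ≤ D) :
    (2 : ℝ) ^ N * ((2 * m + 1 : ℝ) ^ (q * t) * (2 * exp (-(4 * (y : ℝ))) + 1 / D)
      + (q ^ (k * m) * 3 ^ k * (3 * ((y ^ 10 : ℕ) + 1)) ^ (q * t) : ℝ)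
        * ((2 * (m + (2 * y + 1) : ℕ) : ℝ) ^ (2 * (q * t))
          * (((q * t : ℕ) : ℝ) ^ 2 / exp ((y : ℝ) ^ 3) + 2 * (q * t : ℕ) * (2 * y + 1 : ℕ) * (25 * y)
            * exp (-(y : ℝ) ^ 8) / exp (-(y : ℝ) ^ 7)))) ≤ 1 := by
  obtain ⟨l1, l2, l3, l4, l5, l6, l7, l8⟩ := ladder S.bigR
  have hy := S.bigR; have := S.mR; have hn := S.nR; have := S.kR; have := S.NR
  set Y : ℝ := (y : ℝ) with hY
  have b2 : Bd 2 1 := bd_of_le (by norm_num) (by norm_num)
  have b3 : Bd 3 2 := bd_of_le (by norm_num) (by norm_num)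
  have b1 : Bd 1 0 := bd_of_le (by norm_num) (by norm_num)
  have hYY : Bd Y Y := bd_of_le (by positivity) (by linarith only [])
  have h1 : Bd ((2 * m + 1 : ℝ) ^ (q * t)) Y := by
    refine ((bd_of_le (x := 2 * m + 1) (p := 2 * m) (by positivity) le_rfl).pow _).mono ?_
    have h : ((2 * m * (q * t) : ℕ) : ℝ) ≤ Y := by rw [hY]; exact_mod_cast S.hmn
    push_cast at h ⊢; linarith only [h]
  have h2 := (b2.mul (bd_exp (-(4 * Y)))).add ((S.bdD hD).mono (by linarith only [l1, l2, l3, l4, l5, l6, l7, hy]))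
  have h3 : Bd ((q : ℝ) ^ (k * m)) Y := by
    refine ((bd_of_le (x := q) (p := q) (by positivity) (by linarith only [])).pow _).mono ?_
    have h : ((k * m * q : ℕ) : ℝ) ≤ Y := by rw [hY]; exact_mod_cast S.hkmq
    push_cast at h ⊢; linarith only [h]
  have h4 := b3.pow_le (by norm_num) S.kR
  have h5 : Bd (((y ^ 10 : ℕ) : ℝ) + 1) (10 * Y + 1) := by
    have h := hYY.pow 10
    push_cast at h ⊢
    exact h.add (b1.mono (by linarith only [hy]))
  have h6 := (b3.mul h5).pow_le (by linarith only [hy]) hn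
  have h7 : Bd (2 * ((m + (2 * y + 1) : ℕ) : ℝ)) (8 * Y) :=
    bd_of_le (by positivity) (by push_cast; linarith)
  have h8 := h7.pow_le (n := 2 * (q * t)) (Y := 2 * Y) (by linarith only [hy])
    (by push_cast at hn ⊢; linarith only [hn])
  have h9 : Bd ((q * t : ℕ) : ℝ) Y := bd_of_le (by positivity) (by linarith only [hn])
  have h10 := (h9.pow 2).div_exp (Y ^ 3)
  have h11 : Bd ((2 * y + 1 : ℕ) : ℝ) (2 * Y) := bd_of_le (by positivity) (by push_cast; linarith only [])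
  have h12 : Bd (25 * Y) (25 * Y) := bd_of_le (by positivity) (by linarith only [])
  have h13 := ((((b2.mul h9).mul h11).mul h12).mul (bd_exp (-Y ^ 8))).div_exp (-Y ^ 7)
  have h14 := h10.add (h13.mono (by push_cast; linarith only [l1, l2, l3, l4, l5, l6, l7, hy]))
  have h15 := ((h3.mul h4).mul h6).mul (h8.mul h14)
  have h16 := (h1.mul h2).add (h15.mono (by push_cast; linarith only [l1, l2, hy]))
  have h17 := (b2.pow_le (by norm_num) S.NR).mul h16
  have := (h17.mono (p' := 0) (by linarith only [hy])).2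
  simpa using this

lemma num_roots : 2 * (2 * (q * t) ^ 2 + (2 * (q * t) ^ 2 + 1)
    * (k * (2 * (4 * y ^ 9 * (6 * y) + 1) * y ^ 9))) + 1 ≤ y ^ 23 := by
  have hy := S.big; have hn := S.hn; have hk := S.hk
  have h1 : (q * t) ^ 2 ≤ y ^ 2 := Nat.pow_le_pow_left hn 2
  have p1 : 1 ≤ y ^ 2 := Nat.one_le_pow _ _ (by omega)
  have p2 : 1 ≤ y ^ 10 := Nat.one_le_pow _ _ (by omega)
  have p3 : y ^ 2 ≤ y ^ 22 := Nat.pow_le_pow_right (by omega) (by norm_num)
  have h2 : 2 * (4 * y ^ 9 * (6 * y) + 1) * y ^ 9 ≤ 2 * (25 * y ^ 10) * y ^ 9 := by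
    gcongr
    have : 4 * y ^ 9 * (6 * y) = 24 * y ^ 10 := by ring
    omega
  have h3 : (2 * (q * t) ^ 2 + 1) * (k * (2 * (4 * y ^ 9 * (6 * y) + 1) * y ^ 9))
      ≤ (3 * y ^ 2) * (y * (2 * (25 * y ^ 10) * y ^ 9)) := by
    gcongr
    omega
  have h4 : (3 * y ^ 2) * (y * (2 * (25 * y ^ 10) * y ^ 9)) = 150 * y ^ 22 := by ring
  have h5 : 1000 * y ^ 22 ≤ y ^ 23 := by
    rw [pow_succ y 22, mul_comm]; exact Nat.mul_le_mul_left _ hy
  omega

end Sz

end Pool.Agent.Work.MP_97f157_lc.Rs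
end

-- merged part: Pool.Agent.Work.MP_97f157_lc.RsFinal
section
namespace Pool.Agent.Work.MP_97f157_lc.Rs

open Finset Polynomial
open Real (exp exp_pos exp_le_one_iff exp_lt_one_iff)

variable {k m t q N y D : ℕ}

/-- No small integer relation between the exponents. -/
def Gap (H : ℕ) (R : ℝ) (e : Ix q t → Fin D) : Prop :=
  ∀ v : Ix q t → ℤ, v ≠ 0 → (∀ b, |v b| ≤ H) → R ≤ |∑ b, (v b : ℝ) * ((e b : ℕ) : ℝ)|

/-- No simultaneous cancellation of the first `M` moments. -/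
def NoCancel (k m M : ℕ) (ε : ℝ) (α : Ix q t → ℝ) : Prop :=
  ∀ π : Fin k → Fin m → Fin q, Priv π → ∀ (a : Fin k → ℝ) (c : Ix q t → ℝ) (x : Pa k m t),
    ∃ r < M, ε / 4 * |cf π a c x| ≤ |mom π a c α r|

lemma Gap.pair {R : ℝ} {e : Ix q t → Fin D} (h : Gap m R e) (hm : 0 < m) {b b' : Ix q t}
    (hb : b ≠ b') : R ≤ |((e b : ℕ) : ℝ) - ((e b' : ℕ) : ℝ)| := by
  have h1 := h (Pi.single b 1 - Pi.single b' 1) (fun h0 => by
    have := congrFun h0 b
    simp [hb] at this) (fun x => by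
    have : (1 : ℤ) ≤ m := by exact_mod_cast hm
    by_cases h1 : x = b <;> by_cases h2 : x = b' <;>
      simp_all)
  simpa [Pi.single_apply, sub_mul, Finset.sum_sub_distrib] using h1

lemma Gap.wt {δ : ℝ} {e : Ix q t → Fin D} (hD : 0 < D) (h : Gap m (δ * D) e)
    (π : Fin k → Fin m → Fin q) (x x' : Pa k m t) :
    wt π (fun b => ((e b : ℕ) : ℝ) / D) x = wt π (fun b => ((e b : ℕ) : ℝ) / D) x' ∨
      δ ≤ |wt π (fun b => ((e b : ℕ) : ℝ) / D) x - wt π (fun b => ((e b : ℕ) : ℝ) / D) x'| := by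
  have hD' : (0 : ℝ) < D := by exact_mod_cast hD
  set v : Ix q t → ℤ := fun b => (mu π b x : ℤ) - mu π b x' with hv
  have e1 : Rs.wt π (fun b => ((e b : ℕ) : ℝ) / D) x - Rs.wt π (fun b => ((e b : ℕ) : ℝ) / D) x'
      = (∑ b, (v b : ℝ) * ((e b : ℕ) : ℝ)) / D := by
    rw [wt_eq, wt_eq, ← Finset.sum_sub_distrib, Finset.sum_div]
    refine Finset.sum_congr rfl fun b _ => ?_
    simp only [hv]; push_cast; ring
  by_cases h0 : v = 0
  · left
    rw [← sub_eq_zero, e1, h0]; simp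
  · right
    have h1 := h v h0 fun b => by
      have h1 : (mu π b x : ℤ) ≤ m := by exact_mod_cast mu_le π b x
      have h2 : (mu π b x' : ℤ) ≤ m := by exact_mod_cast mu_le π b x'
      simp only [hv]
      rw [abs_le]; constructor <;> omega
    rw [e1, abs_div, abs_of_pos hD', le_div_iff₀ hD']
    exact h1

lemma grid_mem (e : Ix q t → Fin D) (b : Ix q t) :
    ((e b : ℕ) : ℝ) / D ∈ Set.Icc (0 : ℝ) 1 := by
  have h : ((e b : ℕ) : ℝ) < D := by exact_mod_cast (e b).2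
  have h0 : (0 : ℝ) ≤ (e b : ℕ) := by positivity
  exact ⟨by positivity, (div_le_one (by linarith)).2 h.le⟩

lemma wt_mem (π : Fin k → Fin m → Fin q) {α : Ix q t → ℝ} (hα : ∀ b, α b ∈ Set.Icc (0 : ℝ) 1)
    (x : Pa k m t) : wt π α x ∈ Set.Icc (0 : ℝ) m := by
  refine ⟨Finset.sum_nonneg fun j _ => (hα _).1, ?_⟩
  have := Finset.sum_le_card_nsmul univ (fun j => α (sl π x j)) 1 fun j _ => (hα _).2
  simpa [wt] using this

theorem good_roots (S : Sz k m t q N y) (hm : 0 < m) (ht : 0 < t) (hD : 0 < D)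
    (e : Ix q t → Fin D) (hG : Gap m (exp (-(4 * (y : ℝ))) * D) e)
    (hN : NoCancel k m (2 * y + 1) (exp (-(y : ℝ) ^ 8)) fun b => ((e b : ℕ) : ℝ) / D)
    (π : Fin k → Fin m → Fin q) (hπ : Priv π) (a : Fin k → ℝ) (g : Fin q → ℝ[X])
    (hg : ∀ p, ∀ n ∈ (g p).support, ∃ l, n = (e (p, l) : ℕ)) :
    (∑ i, C (a i) * ∏ j, g (π i j)).roots.toFinset.card ≤ y ^ 23 := by
  have hD' : (0 : ℝ) < D := by exact_mod_cast hD
  refine le_trans (roots_bridge π a g (fun b => (e b : ℕ)) (fun p l l' h => ?_) hg hD'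
    fun c hne Z hZ => ?_) S.num_roots
  · by_contra hl
    have h1 := hG.pair hm (b := (p, l)) (b' := (p, l')) (by simpa using hl)
    have h2 : ((e (p, l) : ℕ) : ℝ) = (e (p, l') : ℕ) := by exact_mod_cast h
    rw [h2, sub_self, abs_zero] at h1
    have : 0 < exp (-(4 * (y : ℝ))) * D := by positivity
    linarith only [h1, this]
  refine zeros_le π a c _ ht (fun x0 h0 Y hY htop => ?_) hne Z hZ
  have hX : (Fintype.card (Pa k m t) : ℝ) = k * t ^ m := by simp
  have hy := S.big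
  refine zero_top (wt π fun b => ((e b : ℕ) : ℝ) / D) (cf π a c) (W := m)
    (δ := exp (-(4 * (y : ℝ)))) (ε := exp (-(y : ℝ) ^ 8) / 4) (l0 := (y : ℝ) ^ 9 * exp (4 * y))
    (M := 2 * y + 1) (Z := y ^ 9) (U := 6 * y) (by exact_mod_cast hm)
    (wt_mem π (grid_mem e)) (exp_pos _) (hG.wt hD π) (fun s x => ?_) ?_
    (Nat.one_le_pow _ _ (by omega)) (by rw [hX]; exact S.num_far) (by rw [hX]; exact S.num_near)
    S.num_U x0 h0 Y hY htop
  · obtain ⟨r, hr, h⟩ := hN π hπ a (fun b => c b * exp (((e b : ℕ) : ℝ) / D * s)) x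
    refine ⟨r, hr, ?_⟩
    rw [cf_shift, abs_mul, abs_of_pos (exp_pos _)] at h
    refine h.trans (le_of_eq ?_)
    unfold mom
    congr 1
    refine Finset.sum_congr rfl fun x' _ => ?_
    rw [cf_shift]
  · have h1 : y ^ 2 ≤ y ^ 9 := Nat.pow_le_pow_right (by omega) (by norm_num)
    nlinarith only [hy, h1]

lemma abs_ctr_le {η : ℝ} (hη : 0 ≤ η) {P : ℕ} (z : SignType × Fin (P + 1)) : |ctr η z| ≤ 1 := by
  have h1 : |(z.1 : ℝ)| ≤ 1 := by rcases z.1 with _ | _ | _ <;> simp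
  have h2 : (1 + η)⁻¹ ^ (z.2 : ℕ) ≤ 1 :=
    pow_le_one₀ (by positivity) (inv_le_one_of_one_le₀ (by linarith))
  rw [ctr, abs_mul, abs_of_nonneg (a := (1 + η)⁻¹ ^ (z.2 : ℕ)) (by positivity)]
  exact mul_le_one₀ h1 (by positivity) h2

/-- One chart. -/
theorem chart_count (S : Sz k m t q N y) (hm : 0 < m) (hD : 2 ^ (y ^ 23) ≤ D)
    (π : Fin k → Fin m → Fin q) (hπ : Priv π) (σ : Fin k → SignType)
    (z : Ix q t → SignType × Fin (y ^ 10 + 1)) (i0 : Fin k) (h0 : |(σ i0 : ℝ)| = 1)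
    (h1 : ∀ j, ∃ l, |ctr (1 / (3 * y)) (z (π i0 j, l))| = 1) (E : Finset (Ix q t → Fin D))
    (hE : ∀ e ∈ E, Gap m (exp (-(4 * (y : ℝ))) * D) e ∧ ∃ u : Ix q t → ℝ,
      (∀ b, |u b - 1| ≤ 1 / (3 * y)) ∧ ∀ α' : Ix q t → ℝ, (∀ b, α' b ∈ Set.Icc (0 : ℝ) 1) →
        (∀ b, |α' b - ((e b : ℕ) : ℝ) / D| ≤ 1 / D) → ∀ r < 2 * y + 1,
          |mom π (fun i => (σ i : ℝ)) (fun b => ctr (1 / (3 * y)) (z b) * u b) α' r|
            ≤ exp (-(y : ℝ) ^ 8)) :
    (E.card : ℝ) ≤ (D : ℝ) ^ (q * t) * ((2 * (m + (2 * y + 1) : ℕ) : ℝ) ^ (2 * (q * t))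
      * (((q * t : ℕ) : ℝ) ^ 2 / exp ((y : ℝ) ^ 3) + 2 * (q * t : ℕ) * (2 * y + 1 : ℕ) * (25 * y)
        * exp (-(y : ℝ) ^ 8) / exp (-(y : ℝ) ^ 7))) := by
  have hD0 : 0 < D := lt_of_lt_of_le (by positivity) hD
  have hD' : (0 : ℝ) < D := by exact_mod_cast hD0
  have hy := S.bigR
  have hI : Fintype.card (Ix q t) = q * t := by simp
  set δ : ℝ := exp (-(4 * (y : ℝ))) with hδ
  have hδ0 : 0 < δ := exp_pos _
  have hδ1 : δ ≤ 1 := exp_le_one_iff.2 (by linarith only [hy])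
  have key := sard (I := Ix q t) (M := 2 * y + 1) (d := m + (2 * y + 1)) (D := D) (by omega) hD0
    (fun r => momP π (fun i => (σ i : ℝ)) (fun b => ctr (1 / (3 * y)) (z b)) r)
    (fun r => (momP_deg _ _ _ _).trans (by have := r.2; omega))
    (A := {α | (∀ b, α b ∈ Set.Icc (0 : ℝ) 1) ∧
      ∀ p l l', l ≠ l' → δ / 2 ≤ |α (p, l) - α (p, l')|}) ?_ (fun α h => h.1)
    (L := exp ((y : ℝ) ^ 3)) (κ := exp (-(y : ℝ) ^ 7)) (ε := exp (-(y : ℝ) ^ 8)) (K := 25 * y)
    (η := 1 / (3 * y)) (exp_pos _) (exp_pos _) (exp_pos _) (by positivity)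
    (one_div_le_one_div_of_le (by norm_num) (by linarith only [hy]))
    (by rw [hI]; exact S.num_h1) (by rw [hI]; exact S.num_h2) ?_ E ?_
  · rw [hI] at key
    rw [← mul_assoc]
    exact key
  · apply IsClosed.measurableSet
    simp only [Set.ofPred_and, Set.ofPred_forall]
    refine IsClosed.inter (isClosed_iInter fun b => ?_) (isClosed_iInter fun p =>
      isClosed_iInter fun l => isClosed_iInter fun l' => isClosed_iInter fun _ => ?_)
    · exact isClosed_Icc.preimage (continuous_apply b)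
    · exact isClosed_le continuous_const (by fun_prop)
  · rintro α ⟨hα, hgap⟩ u hu Λ hΛ
    have hη : (0 : ℝ) ≤ 1 / (3 * y) := by positivity
    obtain ⟨b, r, hr, h⟩ := rigid π hπ (fun i => (σ i : ℝ))
      (fun i => by rcases σ i with _ | _ | _ <;> simp)
      (fun b => ctr (1 / (3 * y)) (z b) * u b) (fun b => by
        rw [abs_mul, abs_of_nonneg (a := u b) (by linarith only [hu, (hu b).1])]
        have := abs_ctr_le hη (z b)
        linarith only [this, hu, (hu b).1, (hu b).2, abs_nonneg (ctr (1 / (3 * y)) (z b)), mul_nonneg_of_nonpos_of_nonpos (Mathlib.Tactic.Linarith.sub_nonpos_of_le this) (Mathlib.Tactic.Linarith.sub_nonpos_of_le (hu b).left)]) i0 h0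
      (fun j => by
        obtain ⟨l, hl⟩ := h1 j
        refine ⟨l, ?_⟩
        rw [abs_mul, hl, one_mul, abs_of_nonneg (by linarith only [hu, (hu (π i0 j, l)).1])]
        exact (hu _).1) α hα (δ := δ / 2) (h := exp (-(y : ℝ) ^ 5)) (L := 2 * exp ((y : ℝ) ^ 3))
      (κ := exp (-(y : ℝ) ^ 7)) (M := 2 * y + 1) (by positivity) (by linarith only [hδ1]) (exp_pos _)
      (exp_pos _).le (by have := S.big; omega) hgap S.num_R S.num_rig
      (fun b b' => Λ b b' / u b') (fun b b' => by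
        clear * - u b' hu Λ b y hΛ
        have h2 := (hu b').1
        rw [abs_div, abs_of_nonneg (a := u b') (by linarith only [h2]), div_le_iff₀ (by linarith only [h2])]
        have := hΛ b b'
        have := exp_pos ((y : ℝ) ^ 3)
        nlinarith)
    refine ⟨b, ⟨r, hr⟩, h.trans_eq ?_⟩
    congr 1
    rw [momP_inl]
    congr 1
    refine Finset.sum_congr rfl fun b' _ => ?_
    have h2 := (hu b').1
    have h3 : u b' ≠ 0 := by linarith only [h2]
    rw [← momP_inr]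
    clear * - Λ b b' u q t α k m π σ y z r hr h3; field_simp
  · intro e he α hα
    obtain ⟨hG, u, hu, hmom⟩ := hE e he
    have hα1 : ∀ b, α b ∈ Set.Icc (0 : ℝ) 1 := fun b => by
      have h2 : ((e b : ℕ) : ℝ) + 1 ≤ D := by exact_mod_cast (e b).2
      have h3 : (0 : ℝ) ≤ (e b : ℕ) := by positivity
      obtain ⟨h4, h5⟩ := hα b
      constructor <;> (refine le_of_not_gt fun h_nl => ?_; linarith only [h_nl, h4, hD', h2, h5, mul_pos_of_neg_of_neg (Mathlib.Tactic.Linarith.sub_neg_of_lt hD') (Mathlib.Tactic.Linarith.sub_neg_of_lt h_nl), mul_nonneg_of_nonpos_of_nonpos (Mathlib.Tactic.Linarith.sub_nonpos_of_le (Mathlib.Tactic.Linarith.natCast_nonneg ℝ D)) (le_of_lt (Mathlib.Tactic.Linarith.sub_neg_of_lt h_nl))])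
    refine ⟨⟨hα1, fun p l l' hl => ?_⟩, u, hu, fun r => ?_⟩
    · have h2 := hG.pair hm (b := (p, l)) (b' := (p, l')) (by simpa using hl)
      have h3 := S.num_D hD
      rw [← hδ, div_le_iff₀ hD'] at h3
      obtain ⟨h4, h5⟩ := hα (p, l)
      obtain ⟨h6, h7⟩ := hα (p, l')
      have h8 : δ / 2 * D ≤ |α (p, l) - α (p, l')| * D := by
        rw [← abs_of_pos hD', ← abs_mul, abs_of_pos hD']
        rcases le_abs.1 h2 with h | h
        · exact le_abs.2 (Or.inl (by linarith only [h3, h4, h7, h]))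
        · exact le_abs.2 (Or.inr (by linarith only [h3, h5, h6, h]))
      exact le_of_mul_le_mul_right h8 hD'
    · rw [momP_eval]
      refine hmom α hα1 (fun b => ?_) r r.2
      obtain ⟨h4, h5⟩ := hα b
      have e1 : α b - ((e b : ℕ) : ℝ) / D = (D * α b - (e b : ℕ)) / D := by field_simp
      rw [e1, abs_div, abs_of_pos hD', div_le_div_iff_of_pos_right hD', abs_le]
      constructor <;> linarith only [h4, h5]

theorem bad_count (S : Sz k m t q N y) (hm : 0 < m) (hD : 2 ^ (y ^ 23) ≤ D)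
    (E : Finset (Ix q t → Fin D))
    (hE : ∀ e ∈ E, Gap m (exp (-(4 * (y : ℝ))) * D) e ∧
      ¬ NoCancel k m (2 * y + 1) (exp (-(y : ℝ) ^ 8)) fun b => ((e b : ℕ) : ℝ) / D) :
    (E.card : ℝ) ≤ (q ^ (k * m) * 3 ^ k * (3 * ((y ^ 10 : ℕ) + 1)) ^ (q * t) : ℝ)
      * ((D : ℝ) ^ (q * t) * ((2 * (m + (2 * y + 1) : ℕ) : ℝ) ^ (2 * (q * t))
      * (((q * t : ℕ) : ℝ) ^ 2 / exp ((y : ℝ) ^ 3) + 2 * (q * t : ℕ) * (2 * y + 1 : ℕ) * (25 * y)
        * exp (-(y : ℝ) ^ 8) / exp (-(y : ℝ) ^ 7)))) := by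
  classical
  have hy := S.bigR
  set B : ℝ := (D : ℝ) ^ (q * t) * ((2 * (m + (2 * y + 1) : ℕ) : ℝ) ^ (2 * (q * t))
      * (((q * t : ℕ) : ℝ) ^ 2 / exp ((y : ℝ) ^ 3) + 2 * (q * t : ℕ) * (2 * y + 1 : ℕ) * (25 * y)
        * exp (-(y : ℝ) ^ 8) / exp (-(y : ℝ) ^ 7))) with hB
  have hB0 : 0 ≤ B := by positivity
  let Ch := (Fin k → Fin m → Fin q) × (Fin k → SignType) × (Ix q t → SignType × Fin (y ^ 10 + 1))
  let Q : Ch → (Ix q t → Fin D) → Prop := fun ch e => Priv ch.1 ∧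
    (∃ i0, |(ch.2.1 i0 : ℝ)| = 1 ∧ ∀ j, ∃ l, |ctr (1 / (3 * y)) (ch.2.2 (ch.1 i0 j, l))| = 1) ∧
    ∃ u : Ix q t → ℝ,
      (∀ b, |u b - 1| ≤ 1 / (3 * y)) ∧ ∀ α' : Ix q t → ℝ, (∀ b, α' b ∈ Set.Icc (0 : ℝ) 1) →
        (∀ b, |α' b - ((e b : ℕ) : ℝ) / D| ≤ 1 / D) → ∀ r < 2 * y + 1,
          |mom ch.1 (fun i => (ch.2.1 i : ℝ)) (fun b => ctr (1 / (3 * y)) (ch.2.2 b) * u b) α' r|
            ≤ exp (-(y : ℝ) ^ 8)
  have hsub : E ⊆ univ.biUnion fun ch : Ch => E.filter (Q ch) := by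
    intro e he
    have h := (hE e he).2
    unfold NoCancel at h
    push Not at h
    obtain ⟨π, hπ, a, c, x, h⟩ := h
    obtain ⟨σ, z, u, h1, h2, h3⟩ := chart π hπ a c x _ (grid_mem e) (M := 2 * y + 1)
      (P := y ^ 10) (ε := exp (-(y : ℝ) ^ 8)) (θ := exp (-(2 * (y : ℝ) ^ 8))) (η := 1 / (3 * y))
      (ρ := 1 / D) (by omega) (exp_pos _) (by positivity) (exp_pos _)
      (exp_lt_one_iff.2 (by
        have : (0 : ℝ) < (y : ℝ) ^ 8 := by positivity
        linarith only [this])) (by positivity) S.num_P S.num_drop (S.num_lip hD) h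
    exact mem_biUnion.2 ⟨(π, σ, z), mem_univ _, mem_filter.2 ⟨he, hπ, h1, u, h2, h3⟩⟩
  have hone : ∀ ch : Ch, ((E.filter (Q ch)).card : ℝ) ≤ B := fun ch => by
    rcases (E.filter (Q ch)).eq_empty_or_nonempty with h | ⟨e0, h⟩
    · rw [h]; simpa using hB0
    obtain ⟨-, hπ, ⟨i0, h0, h1⟩, -⟩ := mem_filter.1 h
    exact chart_count S hm hD ch.1 hπ ch.2.1 ch.2.2 i0 h0 h1 _ fun e he =>
      ⟨(hE e (mem_filter.1 he).1).1, (mem_filter.1 he).2.2.2⟩
  have h1 : (E.card : ℝ) ≤ ∑ ch : Ch, ((E.filter (Q ch)).card : ℝ) := by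
    exact_mod_cast (card_le_card hsub).trans card_biUnion_le
  have h2 := Finset.sum_le_card_nsmul univ _ B fun ch _ => hone ch
  refine h1.trans (h2.trans (le_of_eq ?_))
  have h3 : Fintype.card SignType = 3 := rfl
  rw [nsmul_eq_mul, card_univ]
  congr 1
  simp only [Ch, Fintype.card_prod, Fintype.card_fun, Fintype.card_fin, h3]
  push_cast
  rw [← pow_mul, mul_comm m k, mul_assoc]

theorem main_count (hk : 0 < k) (hm : 0 < m) (ht : 0 < t) (hq : 0 < q)
    (hD : 2 ^ ((1000 * (k * m * t * q * (N + 1))) ^ 23) ≤ D) (E : Finset (Ix q t → Fin D))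
    (hE : ∀ e ∈ E, ∃ (π : Fin k → Fin m → Fin q) (a : Fin k → ℝ) (g : Fin q → ℝ[X]), Priv π ∧
      (∀ p, ∀ n ∈ (g p).support, ∃ l, n = (e (p, l) : ℕ)) ∧
      (1000 * (k * m * t * q * (N + 1))) ^ 23
        < (∑ i, C (a i) * ∏ j, g (π i j)).roots.toFinset.card) :
    2 ^ N * E.card ≤ D ^ (q * t) := by
  classical
  have S := sz_of (N := N) hk hm ht hq
  set y := 1000 * (k * m * t * q * (N + 1))
  have hD0 : 0 < D := lt_of_lt_of_le (by positivity) hD
  have hD' : (0 : ℝ) < D := by exact_mod_cast hD0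
  set R : ℝ := exp (-(4 * (y : ℝ))) * D with hR
  have h1 := gap_count (I := Ix q t) (D := D) (H := m) (R := R) (by positivity)
    (E.filter fun e => ¬ Gap m R e) fun e he => by
      have h := (mem_filter.1 he).2
      unfold Gap at h
      push Not at h
      exact h
  have h2 := bad_count S hm hD (E.filter fun e => Gap m R e) fun e he => by
    obtain ⟨he1, he2⟩ := mem_filter.1 he
    refine ⟨he2, fun hN => ?_⟩
    obtain ⟨π, a, g, hπ, hg, hlt⟩ := hE e he1
    exact absurd (good_roots S hm ht hD0 e he2 hN π hπ a g hg) (not_le.2 hlt)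
  have h3 := S.num_count hD
  have h4 : (E.card : ℝ) = (E.filter fun e => Gap m R e).card
      + (E.filter fun e => ¬ Gap m R e).card := by
    exact_mod_cast (card_filter_add_card_filter_not _).symm
  have hI : Fintype.card (Ix q t) = q * t := by simp
  rw [hI] at h1
  have h5 : (((E.filter fun e => ¬ Gap m R e).card : ℕ) : ℝ) ≤ (D : ℝ) ^ (q * t)
      * ((2 * m + 1 : ℝ) ^ (q * t) * (2 * exp (-(4 * (y : ℝ))) + 1 / D)) := by
    refine le_of_mul_le_mul_right (h1.trans (le_of_eq ?_)) hD'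
    rw [hR]; field_simp
  have h6 := mul_le_mul_of_nonneg_left h3 (show (0 : ℝ) ≤ (D : ℝ) ^ (q * t) by positivity)
  have h7 : (2 : ℝ) ^ N * E.card ≤ (D : ℝ) ^ (q * t) := by
    rw [h4]
    have h8 := mul_le_mul_of_nonneg_left (add_le_add h2 h5)
      (show (0 : ℝ) ≤ (2 : ℝ) ^ N by positivity)
    refine h8.trans (le_trans (le_of_eq ?_) (h6.trans (le_of_eq (mul_one _))))
    ring
  exact_mod_cast h7

theorem random_supports : ∃ C c : ℕ, ∀ k m t q N D : ℕ, 0 < k → 0 < m → 0 < t → 0 < q →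
    2 ^ (C * (k * m * t * q * (N + 1)) ^ c) ≤ D →
    2 ^ N * {e : Fin q → Fin t → Fin D | ∃ (π : Fin k → Fin m → Fin q) (a : Fin k → ℝ)
        (g : Fin q → Polynomial ℝ), (∀ i, ∃ j, ∀ i' j', π i' j' = π i j → i' = i) ∧
        (∀ p, ∀ n ∈ (g p).support, ∃ l, n = (e p l : ℕ)) ∧
        C * (k * m * t * q * (N + 1)) ^ c
          < (∑ i, Polynomial.C (a i) * ∏ j, g (π i j)).roots.toFinset.card}.ncard
      ≤ D ^ (q * t) := by
  classical
  refine ⟨1000 ^ 23, 23, fun k m t q N D hk hm ht hq hD => ?_⟩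
  rw [← mul_pow] at hD ⊢
  set s : Set (Fin q → Fin t → Fin D) := _ with hs
  have h := main_count (N := N) hk hm ht hq hD ((Set.toFinite s).toFinset.image Function.uncurry)
    fun e he => by
      obtain ⟨e', he', rfl⟩ := mem_image.1 he
      rw [Set.Finite.mem_toFinset, hs] at he'
      exact he'
  rwa [card_image_of_injective _ Function.uncurry_injective, ← Set.ncard_eq_toFinset_card] at h

end Pool.Agent.Work.MP_97f157_lc.Rs
end
end
end
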