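import Mathlib

set_option autoImplicit false

open Finset Filter Topology

namespace Pool.Agent.Work.MP_97f157_lc

/-! Lower envelopes of segments with superlinear complexity (Shor's construction). -/

/-- Fans of segments: apex `(p φ, q φ)`, one segment for each `x ∈ K`, slope `a φ x`,
right end `ρ φ x`. -/
structure Fans (Φ : Type) where
  p : Φ → ℝ
  q : Φ → ℝ
  a : Φ → ℝ → ℝ
  ρ : Φ → ℝ → ℝ

def Fans.val {Φ : Type} (S : Fans Φ) (j : Φ × ℝ) (z : ℝ) : ℝ :=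
  S.q j.1 + S.a j.1 j.2 * (z - S.p j.1)

/-- Segment `j` is the unique lowest segment above the abscissa `z`. -/
def Fans.Low {Φ : Type} (S : Fans Φ) (K : Finset ℝ) (z : ℝ) (j : Φ × ℝ) : Prop :=
  j.2 ∈ K ∧ S.p j.1 < z ∧ z < S.ρ j.1 j.2 ∧
    ∀ j' : Φ × ℝ, j'.2 ∈ K → j' ≠ j → S.p j'.1 ≤ z → z ≤ S.ρ j'.1 j'.2 → S.val j z < S.val j' z

structure Wit (Φ Ω : Type) where
  u : Ω → ℝ
  v : Ω → ℝ
  su : Ω → Φ × ℝ
  sv : Ω → Φ × ℝ

structure Good {Φ Ω : Type} (K : Finset ℝ) (S : Fans Φ) (W : Wit Φ Ω) : Prop where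
  inj : Function.Injective S.p
  lt : ∀ φ, ∀ x ∈ K, S.p φ < S.ρ φ x
  apex : ∀ φ (j : Φ × ℝ), j.2 ∈ K → j.1 ≠ φ → S.p j.1 ≤ S.p φ → S.p φ ≤ S.ρ j.1 j.2 →
    S.q φ < S.val j (S.p φ)
  adapt : ∀ φ, ∀ x ∈ K, ∃ ζ : ℝ, 0 < ζ ∧ ∀ y ∈ K, y ≠ x → S.a φ x * ζ - x < S.a φ y * ζ - y
  uv : ∀ ω, W.u ω < W.v ω
  lowu : ∀ ω, S.Low K (W.u ω) (W.su ω)
  lowv : ∀ ω, S.Low K (W.v ω) (W.sv ω)
  ne : ∀ ω, W.su ω ≠ W.sv ω
  out : ∀ ω φ, S.p φ < W.u ω ∨ W.v ω < S.p φ
  disj : ∀ ω ω', ω ≠ ω' → W.v ω ≤ W.u ω' ∨ W.v ω' ≤ W.u ω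

def HasCfg (K : Finset ℝ) (k f : ℕ) : Prop :=
  ∃ (Φ Ω : Type) (_ : Fintype Φ) (_ : Fintype Ω) (S : Fans Φ) (W : Wit Φ Ω), Good K S W ∧
    f ≤ Fintype.card Φ ∧ k * (Fintype.card Φ * K.card) ≤ 2 * Fintype.card Ω

lemma hasCfg_zero (K : Finset ℝ) : HasCfg K 0 1 := by
  refine ⟨Unit, Empty, inferInstance, inferInstance,
    ⟨fun _ => 0, fun _ => 0, fun _ x => Real.exp x, fun _ _ => 1⟩,
    ⟨fun e => e.elim, fun e => e.elim, fun e => e.elim, fun e => e.elim⟩, ?_, by simp, by simp⟩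
  refine ⟨fun _ _ _ => rfl, by simp, ?_, ?_, fun e => e.elim, fun e => e.elim, fun e => e.elim,
    fun e => e.elim, fun e => e.elim, fun e => e.elim⟩
  · intro φ j _ h; exact absurd rfl h
  · intro φ x _
    refine ⟨Real.exp (-x), Real.exp_pos _, ?_⟩
    intro y _ hyx
    simp only [← Real.exp_add]
    have := Real.add_one_lt_exp (sub_ne_zero.2 hyx)
    rw [add_neg_cancel, Real.exp_zero, ← sub_eq_add_neg]
    linarith

lemma hasCfg_empty (k : ℕ) : HasCfg ∅ k 2 := by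
  refine ⟨Bool, Empty, inferInstance, inferInstance,
    ⟨fun b => if b then 1 else 0, fun _ => 0, fun _ _ => 0, fun _ _ => 0⟩,
    ⟨fun e => e.elim, fun e => e.elim, fun e => e.elim, fun e => e.elim⟩, ?_, by simp, by simp⟩
  refine ⟨?_, by simp, by simp, by simp, fun e => e.elim, fun e => e.elim, fun e => e.elim,
    fun e => e.elim, fun e => e.elim, fun e => e.elim⟩
  intro b c h
  cases b <;> cases c <;> simp_all

lemma ev_top (c d : ℝ) (hc : 0 < c) : ∀ᶠ A in atTop, d < A * c := by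
  filter_upwards [eventually_gt_atTop (d / c)] with A hA
  rwa [div_lt_iff₀ hc] at hA

lemma ev_top' (P : Prop) (c d : ℝ) (hc : P → 0 < c) : ∀ᶠ A in atTop, P → d < A * c := by
  by_cases h : P
  · filter_upwards [ev_top c d (hc h)] with A hA _ using hA
  · simp [h]

lemma ev_abs (c : ℝ) : ∀ᶠ R in atTop, |c| ≤ R := eventually_ge_atTop _

lemma ev_eps (P : Prop) (c d : ℝ) (hd : P → 0 < d) : ∀ᶠ ε in 𝓝[>] (0 : ℝ), P → ε * c < d := by
  by_cases h : P
  · have ht : Tendsto (fun ε : ℝ => ε * c) (𝓝[>] 0) (𝓝 (0 * c)) :=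
      ((continuous_id.mul continuous_const).tendsto 0).mono_left nhdsWithin_le_nhds
    rw [zero_mul] at ht
    filter_upwards [ht.eventually (gt_mem_nhds (hd h))] with ε hε _ using hε
  · simp [h]

open Classical in
/-- The composed family of fans. -/
noncomputable def comp {Φ Ψ : Type} (T : Fans Ψ) (S : Fans Φ) (t A ε : ℝ) : Fans (Ψ × Φ) where
  p := fun c => T.p c.1 + ε * S.p c.2
  q := fun c => T.q c.1 + ε * (S.q c.2 - A * S.p c.2)
  a := fun c x => if x = t then T.a c.1 (S.p c.2) else S.a c.2 x - A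
  ρ := fun c x => if x = t then T.ρ c.1 (S.p c.2) else T.p c.1 + ε * S.ρ c.2 x

lemma comp_val_short {Φ Ψ : Type} (T : Fans Ψ) (S : Fans Φ) (t A ε : ℝ) (ψ : Ψ) (φ : Φ) (x z : ℝ)
    (hx : x ≠ t) :
    (comp T S t A ε).val ((ψ, φ), x) (T.p ψ + ε * z) = T.q ψ + ε * (S.val (φ, x) z - A * z) := by
  simp only [Fans.val, comp, if_neg hx]; ring

lemma comp_val_long {Φ Ψ : Type} (T : Fans Ψ) (S : Fans Φ) (t A ε : ℝ) (ψ : Ψ) (φ : Φ) (z : ℝ) :
    (comp T S t A ε).val ((ψ, φ), t) z = T.val (ψ, S.p φ) z +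
      ε * (S.q φ - A * S.p φ - T.a ψ (S.p φ) * S.p φ) := by
  simp only [Fans.val, comp, if_true]; ring

lemma comp_val_long' {Φ Ψ : Type} (T : Fans Ψ) (S : Fans Φ) (t A ε : ℝ) (ψ : Ψ) (φ : Φ) (z : ℝ) :
    (comp T S t A ε).val ((ψ, φ), t) (T.p ψ + ε * z) = T.q ψ +
      ε * (S.q φ - A * S.p φ + T.a ψ (S.p φ) * (z - S.p φ)) := by
  simp only [Fans.val, comp, if_true]; ring

theorem cfg_step (K : Finset ℝ) (t : ℝ) (ht : ∀ x ∈ K, x < t) (k : ℕ)
    (h1 : HasCfg K (k + 1) 2) (h2 : ∀ K' : Finset ℝ, HasCfg K' k 1) :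
    HasCfg (insert t K) (k + 1) 2 := by
  classical
  obtain ⟨Φ, Ω, _, _, S, W, hS, hf, hc⟩ := h1
  set L : Finset ℝ := Finset.univ.image S.p with hL
  have hLc : L.card = Fintype.card Φ := by
    rw [hL, Finset.card_image_of_injective _ hS.inj]; simp
  have hLm : ∀ φ, S.p φ ∈ L := fun φ => Finset.mem_image_of_mem _ (Finset.mem_univ _)
  obtain ⟨Ψ, Θ, _, _, T, V, hT, hf', hc'⟩ := h2 L
  have htK : t ∉ K := fun h => lt_irrefl _ (ht t h)
  have hKt : ∀ x ∈ K, x ≠ t := fun x hx => (ht x hx).ne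
  choose! ζ hζ0 hζ using hS.adapt
  choose! ξ hξ0 hξ using hT.adapt
  -- enumeration of the apices of `S`
  obtain ⟨r, hr⟩ : ∃ r, Fintype.card Φ = r + 1 := ⟨Fintype.card Φ - 1, by omega⟩
  have hLr : L.card = r + 1 := hLc.trans hr
  have hex : ∀ i : Fin (r + 1), ∃ φ, S.p φ = L.orderEmbOfFin hLr i := by
    intro i
    have := L.orderEmbOfFin_mem hLr i
    obtain ⟨φ, _, h⟩ := Finset.mem_image.1 this
    exact ⟨φ, h⟩
  choose e he using hex
  have hemono : ∀ i j, i < j → S.p (e i) < S.p (e j) := by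
    intro i j hij
    rw [he, he]
    exact (L.orderEmbOfFin hLr).strictMono hij
  have hξanti : ∀ ψ φ φ', S.p φ < S.p φ' → ξ ψ (S.p φ') < ξ ψ (S.p φ) := by
    intro ψ φ φ' h
    have a1 := hξ ψ _ (hLm φ) _ (hLm φ') h.ne'
    have a2 := hξ ψ _ (hLm φ') _ (hLm φ) h.ne
    have b1 := hξ0 ψ _ (hLm φ)
    have b2 := hξ0 ψ _ (hLm φ')
    by_contra hcon
    push Not at hcon
    have c1 : 0 < (T.a ψ (S.p φ') - T.a ψ (S.p φ)) * ξ ψ (S.p φ) := by linarith
    have c2 : 0 < T.a ψ (S.p φ') - T.a ψ (S.p φ) := (mul_pos_iff_of_pos_right b1).1 c1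
    nlinarith
  -- choice of the shear
  obtain ⟨A, hA0, hA1, hA2, hA3, hA4, hA5, hA5', hA6⟩ : ∃ A : ℝ, 0 < A ∧
      (∀ ψ φ φ', S.p φ' < S.p φ →
        S.q φ - S.q φ' - T.a ψ (S.p φ') * (S.p φ - S.p φ') < A * (S.p φ - S.p φ')) ∧
      (∀ ψ φ' ω, S.p φ' < W.u ω →
        S.val (W.su ω) (W.u ω) - S.q φ' - T.a ψ (S.p φ') * (W.u ω - S.p φ')
          < A * (W.u ω - S.p φ')) ∧
      (∀ ψ φ' ω, S.p φ' < W.v ω →
        S.val (W.sv ω) (W.v ω) - S.q φ' - T.a ψ (S.p φ') * (W.v ω - S.p φ')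
          < A * (W.v ω - S.p φ')) ∧
      (∀ ψ φ, ∀ x ∈ K, S.a φ x * ζ φ x - x - T.a ψ (S.p φ) * ζ φ x + t < A * ζ φ x) ∧
      (∀ ψ φ φ', ∀ x ∈ K, S.ρ φ' x < A * ξ ψ (S.p φ)) ∧
      (∀ ψ φ φ', S.p φ' < A * ξ ψ (S.p φ)) ∧
      (∀ ψ φ φ', φ' ≠ φ →
        S.q φ - T.a ψ (S.p φ) * S.p φ - (S.q φ' - T.a ψ (S.p φ') * S.p φ') <
          A * ((T.a ψ (S.p φ') * ξ ψ (S.p φ) - S.p φ') - (T.a ψ (S.p φ) * ξ ψ (S.p φ) - S.p φ))) := by
    apply Filter.Eventually.exists (f := atTop)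
    refine (eventually_gt_atTop 0).and (Filter.Eventually.and ?_ (Filter.Eventually.and ?_
      (Filter.Eventually.and ?_ (Filter.Eventually.and ?_ (Filter.Eventually.and ?_
      (Filter.Eventually.and ?_ ?_))))))
    · simp only [Filter.eventually_all]
      intro ψ φ φ' h
      exact ev_top _ _ (sub_pos.2 h)
    · simp only [Filter.eventually_all]
      intro ψ φ φ' h
      exact ev_top _ _ (sub_pos.2 h)
    · simp only [Filter.eventually_all]
      intro ψ φ φ' h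
      exact ev_top _ _ (sub_pos.2 h)
    · simp only [Filter.eventually_all, Finset.eventually_all]
      intro ψ φ x hx
      exact ev_top _ _ (hζ0 φ x hx)
    · simp only [Filter.eventually_all, Finset.eventually_all]
      intro ψ φ φ' x _
      exact ev_top _ _ (hξ0 ψ _ (hLm φ))
    · simp only [Filter.eventually_all]
      intro ψ φ φ'
      exact ev_top _ _ (hξ0 ψ _ (hLm φ))
    · simp only [Filter.eventually_all]
      intro ψ φ φ' h
      exact ev_top _ _ (sub_pos.2 (hξ ψ _ (hLm φ) _ (hLm φ') (fun h' => h (hS.inj h'))))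
  -- a uniform bound
  obtain ⟨R, hR0, hR1, hR2, hR3, hR4, hR5, hR6, hR7, hR8, hR9, hR10, hR11⟩ : ∃ R : ℝ, 0 < R ∧
      (∀ φ, |S.p φ| ≤ R) ∧ (∀ φ, ∀ x ∈ K, |S.ρ φ x| ≤ R) ∧ (∀ ω, |W.u ω| ≤ R) ∧
      (∀ ω, |W.v ω| ≤ R) ∧ (∀ ψ φ, |A * ξ ψ (S.p φ)| ≤ R) ∧ (∀ ψ φ, |T.a ψ (S.p φ)| ≤ R) ∧
      (∀ ψ φ, |S.q φ - A * S.p φ - T.a ψ (S.p φ) * S.p φ| ≤ R) ∧
      (∀ φ, |S.q φ - A * S.p φ| ≤ R) ∧
      (∀ ω, |S.val (W.su ω) (W.u ω) - A * W.u ω| ≤ R) ∧
      (∀ ω, |S.val (W.sv ω) (W.v ω) - A * W.v ω| ≤ R) ∧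
      (∀ ψ φ, |S.q φ - A * S.p φ + T.a ψ (S.p φ) * (A * ξ ψ (S.p φ) - S.p φ)| ≤ R) := by
    apply Filter.Eventually.exists (f := atTop)
    simp only [Filter.eventually_and, Filter.eventually_all, Finset.eventually_all]
    exact ⟨eventually_gt_atTop 0, fun _ => ev_abs _, fun _ _ _ => ev_abs _, fun _ => ev_abs _,
      fun _ => ev_abs _, fun _ _ => ev_abs _, fun _ _ => ev_abs _, fun _ _ => ev_abs _,
      fun _ => ev_abs _, fun _ => ev_abs _, fun _ => ev_abs _, fun _ _ => ev_abs _⟩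
  -- choice of the scale
  obtain ⟨ε, hε0, hE1, hE2, hE2', hE3, hE4, hE5, hE5'⟩ : ∃ ε : ℝ, 0 < ε ∧
      (∀ ψ ψ', ψ ≠ ψ' → ε * (2 * R) < |T.p ψ - T.p ψ'|) ∧
      (∀ ψ θ, ε * R < |V.u θ - T.p ψ|) ∧ (∀ ψ θ, ε * R < |V.v θ - T.p ψ|) ∧
      (∀ ψ ψ' φ, T.p ψ ≠ T.ρ ψ' (S.p φ) → ε * R < |T.p ψ - T.ρ ψ' (S.p φ)|) ∧
      (∀ ψ ψ' φ, T.q ψ < T.val (ψ', S.p φ) (T.p ψ) →
        ε * (2 * R + R * R) < T.val (ψ', S.p φ) (T.p ψ) - T.q ψ) ∧
      (∀ θ ψ φ, T.val (V.su θ) (V.u θ) < T.val (ψ, S.p φ) (V.u θ) →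
        ε * (2 * R) < T.val (ψ, S.p φ) (V.u θ) - T.val (V.su θ) (V.u θ)) ∧
      (∀ θ ψ φ, T.val (V.sv θ) (V.v θ) < T.val (ψ, S.p φ) (V.v θ) →
        ε * (2 * R) < T.val (ψ, S.p φ) (V.v θ) - T.val (V.sv θ) (V.v θ)) := by
    apply Filter.Eventually.exists (f := 𝓝[>] 0)
    refine Filter.Eventually.and self_mem_nhdsWithin (Filter.Eventually.and ?_
      (Filter.Eventually.and ?_ (Filter.Eventually.and ?_ (Filter.Eventually.and ?_
      (Filter.Eventually.and ?_ (Filter.Eventually.and ?_ ?_))))))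
    · rw [Filter.eventually_all]; intro ψ; rw [Filter.eventually_all]; intro ψ'
      exact ev_eps _ _ _ (fun h => abs_pos.2 (sub_ne_zero.2 (fun h' => h (hT.inj h'))))
    · rw [Filter.eventually_all]; intro ψ; rw [Filter.eventually_all]; intro θ
      have := ev_eps True R |V.u θ - T.p ψ| (fun _ => abs_pos.2 (sub_ne_zero.2 (by
        have := hT.uv θ
        rcases hT.out θ ψ with h | h
        · exact h.ne'
        · exact (this.trans h).ne)))
      simpa using this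
    · rw [Filter.eventually_all]; intro ψ; rw [Filter.eventually_all]; intro θ
      have := ev_eps True R |V.v θ - T.p ψ| (fun _ => abs_pos.2 (sub_ne_zero.2 (by
        have := hT.uv θ
        rcases hT.out θ ψ with h | h
        · exact (h.trans this).ne'
        · exact h.ne)))
      simpa using this
    · rw [Filter.eventually_all]; intro ψ; rw [Filter.eventually_all]; intro ψ'
      rw [Filter.eventually_all]; intro φ
      exact ev_eps _ _ _ (fun h => abs_pos.2 (sub_ne_zero.2 h))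
    · rw [Filter.eventually_all]; intro ψ; rw [Filter.eventually_all]; intro ψ'
      rw [Filter.eventually_all]; intro φ
      exact ev_eps _ _ _ (fun h => sub_pos.2 h)
    · rw [Filter.eventually_all]; intro ψ; rw [Filter.eventually_all]; intro ψ'
      rw [Filter.eventually_all]; intro φ
      exact ev_eps _ _ _ (fun h => sub_pos.2 h)
    · rw [Filter.eventually_all]; intro ψ; rw [Filter.eventually_all]; intro ψ'
      rw [Filter.eventually_all]; intro φ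
      exact ev_eps _ _ _ (fun h => sub_pos.2 h)
  set N := comp T S t A ε with hN
  have hNp : ∀ ψ φ, N.p (ψ, φ) = T.p ψ + ε * S.p φ := fun _ _ => rfl
  have hNq : ∀ ψ φ, N.q (ψ, φ) = T.q ψ + ε * (S.q φ - A * S.p φ) := fun _ _ => rfl
  have hNρl : ∀ ψ φ, N.ρ (ψ, φ) t = T.ρ ψ (S.p φ) := fun _ _ => by simp [hN, comp]
  have hNρs : ∀ ψ φ, ∀ x ∈ K, N.ρ (ψ, φ) x = T.p ψ + ε * S.ρ φ x :=
    fun _ _ x hx => by simp [hN, comp, hKt x hx]
  have hb : ∀ z, |z| ≤ R → -(ε * R) ≤ ε * z ∧ ε * z ≤ ε * R := by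
    intro z hz
    rw [abs_le] at hz
    constructor <;> nlinarith [hz.1, hz.2]
  have hlt : ∀ {z z' : ℝ}, z < z' → ε * z < ε * z' := fun h => mul_lt_mul_of_pos_left h hε0
  have hle : ∀ {z z' : ℝ}, ε * z ≤ ε * z' → z ≤ z' := fun h => le_of_mul_le_mul_left h hε0
  -- clusters are ordered
  have hord : ∀ ψ ψ' z z', T.p ψ < T.p ψ' → |z| ≤ R → |z'| ≤ R →
      T.p ψ + ε * z < T.p ψ' + ε * z' := by
    intro ψ ψ' z z' h hz hz'
    have := hE1 ψ ψ' (fun h' => by rw [h'] at h; exact lt_irrefl _ h)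
    rw [abs_sub_comm, abs_of_pos (sub_pos.2 h)] at this
    have b1 := hb z hz
    have b2 := hb z' hz'
    linarith [b1.2, b2.1]
  have hord' : ∀ ψ ψ' z z', ψ ≠ ψ' → |z| ≤ R → |z'| ≤ R →
      T.p ψ + ε * z ≤ T.p ψ' + ε * z' → T.p ψ < T.p ψ' := by
    intro ψ ψ' z z' h hz hz' h'
    rcases lt_trichotomy (T.p ψ) (T.p ψ') with h3 | h3 | h3
    · exact h3
    · exact absurd (hT.inj h3) h
    · exact absurd (hord ψ' ψ z' z h3 hz' hz) (not_lt.2 h')
  have hlong : ∀ ψ φ z, |z| ≤ R → T.p ψ + ε * z < T.ρ ψ (S.p φ) := by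
    intro ψ φ z hz
    have h3 := hT.lt ψ _ (hLm φ)
    have := hE3 ψ ψ φ h3.ne
    rw [abs_sub_comm, abs_of_pos (sub_pos.2 h3)] at this
    linarith [(hb z hz).2]
  -- segments of other clusters are far above
  have hfar : ∀ ψ z h, |z| ≤ R → |h| ≤ R → ∀ (J : (Ψ × Φ) × ℝ), J.2 ∈ insert t K → J.1.1 ≠ ψ →
      N.p J.1 ≤ T.p ψ + ε * z → T.p ψ + ε * z ≤ N.ρ J.1 J.2 →
      T.q ψ + ε * h < N.val J (T.p ψ + ε * z) := by
    rintro ψ z h hz hh ⟨⟨ψ', φ'⟩, x⟩ hx hne h3 h4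
    simp only at hx hne h3 h4
    rw [hNp] at h3
    have h5 := hord' ψ' ψ _ _ hne (hR1 φ') hz h3
    rcases Finset.mem_insert.1 hx with rfl | hx
    · rw [hNρl] at h4
      have h6 : T.p ψ ≤ T.ρ ψ' (S.p φ') := by
        by_contra hcon
        push Not at hcon
        have := hE3 ψ ψ' φ' hcon.ne'
        rw [abs_of_pos (sub_pos.2 hcon)] at this
        linarith [(hb z hz).1]
      have h7 := hE4 ψ ψ' φ' (hT.apex ψ (ψ', S.p φ') (hLm φ') hne h5.le h6)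
      rw [hN, comp_val_long]
      have h8 : T.val (ψ', S.p φ') (T.p ψ + ε * z)
          = T.val (ψ', S.p φ') (T.p ψ) + ε * (T.a ψ' (S.p φ') * z) := by
        simp only [Fans.val]; ring
      have h9 : |T.a ψ' (S.p φ') * z| ≤ R * R := by
        rw [abs_mul]; exact mul_le_mul (hR6 _ _) hz (abs_nonneg _) hR0.le
      have h10 : -(ε * (R * R)) ≤ ε * (T.a ψ' (S.p φ') * z) := by
        rw [abs_le] at h9
        nlinarith [h9.1]
      rw [h8]
      linarith [(hb h hh).2, (hb _ (hR7 ψ' φ')).1]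
    · rw [hNρs _ _ _ hx] at h4
      exact absurd (hord ψ' ψ _ _ h5 (hR2 φ' x hx) hz) (not_lt.2 h4)
  -- samples of the small configuration
  have hlowS : ∀ ψ z (j : Φ × ℝ), S.Low K z j → |z| ≤ R → |S.val j z - A * z| ≤ R →
      (∀ φ', S.p φ' ≠ z) →
      (∀ φ', S.p φ' < z → S.val j z - S.q φ' - T.a ψ (S.p φ') * (z - S.p φ') < A * (z - S.p φ')) →
      N.Low (insert t K) (T.p ψ + ε * z) ((ψ, j.1), j.2) := by
    rintro ψ z ⟨φ, x⟩ ⟨l1, l2, l3, l4⟩ hz hh hne hA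
    simp only at l1 l2 l3 l4 ⊢
    refine ⟨Finset.mem_insert_of_mem l1, ?_, ?_, ?_⟩
    · show N.p (ψ, φ) < _
      rw [hNp]; linarith [hlt l2]
    · show _ < N.ρ (ψ, φ) x
      rw [hNρs _ _ _ l1]; linarith [hlt l3]
    · rintro ⟨⟨ψ', φ'⟩, x'⟩ hx' hJ h3 h4
      rw [hN, comp_val_short _ _ _ _ _ _ _ _ _ (hKt x l1), ← hN]
      by_cases hψ : ψ' = ψ
      · subst hψ
        simp only at hx' h3 h4
        rw [hNp] at h3
        have h5 : S.p φ' ≤ z := hle (by linarith)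
        rcases Finset.mem_insert.1 hx' with rfl | hx'
        · rw [hN, comp_val_long']
          have h6 := hA φ' (lt_of_le_of_ne h5 (hne φ'))
          have := hlt (z := S.val (φ, x) z - A * z)
            (z' := S.q φ' - A * S.p φ' + T.a ψ' (S.p φ') * (z - S.p φ')) (by linarith)
          linarith
        · rw [hNρs _ _ _ hx'] at h4
          rw [hN, comp_val_short _ _ _ _ _ _ _ _ _ (hKt x' hx')]
          have h6 := l4 (φ', x') hx' (by
            intro h; apply hJ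
            rw [Prod.mk.injEq] at h
            rw [h.1, h.2]) h5 (hle (by linarith))
          have := hlt (z := S.val (φ, x) z - A * z) (z' := S.val (φ', x') z - A * z) (by linarith)
          linarith
      · exact hfar ψ z _ hz hh _ hx' hψ h3 h4
  -- samples of the large configuration
  have hinv : ∀ y ∈ L, ∃ φ, S.p φ = y := by
    intro y hy
    obtain ⟨φ, _, h⟩ := Finset.mem_image.1 hy
    exact ⟨φ, h⟩
  have hne : Nonempty Φ := Fintype.card_pos_iff.1 (by omega)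
  choose! g hg using hinv
  have hside : ∀ z ψ, ε * R < |z - T.p ψ| → ∀ z', |z'| ≤ R →
      (T.p ψ + ε * z' < z ↔ T.p ψ < z) ∧ (z < T.p ψ + ε * z' ↔ z < T.p ψ) := by
    intro z ψ h z' hz'
    have b := hb z' hz'
    have hεR : 0 < ε * R := mul_pos hε0 hR0
    rcases le_total 0 (z - T.p ψ) with h3 | h3
    · rw [abs_of_nonneg h3] at h
      exact ⟨⟨fun _ => by linarith, fun _ => by linarith [b.2]⟩,
        ⟨fun _ => by linarith [b.2], fun _ => by linarith⟩⟩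
    · rw [abs_of_nonpos h3] at h
      exact ⟨⟨fun _ => by linarith [b.1], fun _ => by linarith⟩,
        ⟨fun _ => by linarith, fun _ => by linarith [b.1]⟩⟩
  have hlowT : ∀ z (j : Ψ × ℝ), T.Low L z j → (∀ ψ, ε * R < |z - T.p ψ|) →
      (∀ ψ φ, T.val j z < T.val (ψ, S.p φ) z → ε * (2 * R) < T.val (ψ, S.p φ) z - T.val j z) →
      N.Low (insert t K) z ((j.1, g j.2), t) := by
    rintro z ⟨ψ, y⟩ ⟨l1, l2, l3, l4⟩ hz hE
    simp only at l1 l2 l3 l4 ⊢
    have hgy := hg y l1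
    refine ⟨Finset.mem_insert_self _ _, ?_, ?_, ?_⟩
    · show N.p (ψ, g y) < _
      rw [hNp]; exact (hside z ψ (hz ψ) _ (hR1 _)).1.2 l2
    · show _ < N.ρ (ψ, g y) t
      rw [hNρl, hgy]; exact l3
    · rintro ⟨⟨ψ', φ'⟩, x'⟩ hx' hJ h3 h4
      simp only at hx' h3 h4
      rw [hNp] at h3
      have h5 : T.p ψ' ≤ z := by
        by_contra hcon
        push Not at hcon
        exact absurd ((hside z ψ' (hz ψ') _ (hR1 φ')).2.2 hcon) (not_lt.2 h3)
      rcases Finset.mem_insert.1 hx' with rfl | hx'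
      · rw [hNρl] at h4
        rw [hN, comp_val_long, comp_val_long, hgy]
        have h6 := l4 (ψ', S.p φ') (hLm φ') (by
          intro h; apply hJ
          rw [Prod.mk.injEq] at h
          have : φ' = g y := hS.inj (by rw [hgy]; exact h.2)
          rw [h.1, this]) h5 h4
        have h7 := hE ψ' φ' h6
        have h8 := hb _ (hR7 ψ (g y))
        rw [hgy] at h8
        linarith [h8.2, (hb _ (hR7 ψ' φ')).1]
      · rw [hNρs _ _ _ hx'] at h4
        have h6 : T.p ψ' < z := by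
          rcases h5.lt_or_eq with h | h
          · exact h
          · have := hz ψ'
            rw [h, sub_self, abs_zero] at this
            exact absurd this (not_lt.2 (mul_pos hε0 hR0).le)
        exact absurd ((hside z ψ' (hz ψ') _ (hR2 φ' x' hx')).1.2 h6) (not_lt.2 h4)
  -- new samples
  have hlowN : ∀ ψ φ, N.Low (insert t K) (T.p ψ + ε * (A * ξ ψ (S.p φ))) ((ψ, φ), t) := by
    intro ψ φ
    refine ⟨Finset.mem_insert_self _ _, ?_, ?_, ?_⟩
    · show N.p (ψ, φ) < _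
      rw [hNp]; linarith [hlt (hA5' ψ φ φ)]
    · show _ < N.ρ (ψ, φ) t
      rw [hNρl]; exact hlong ψ φ _ (hR5 ψ φ)
    · rintro ⟨⟨ψ', φ'⟩, x'⟩ hx' hJ h3 h4
      rw [hN, comp_val_long', ← hN]
      by_cases hψ : ψ' = ψ
      · subst hψ
        simp only at hx' h3 h4
        rcases Finset.mem_insert.1 hx' with rfl | hx'
        · rw [hN, comp_val_long']
          have h6 := hA6 ψ' φ φ' (by rintro rfl; exact hJ rfl)
          have := hlt
            (z := S.q φ - A * S.p φ + T.a ψ' (S.p φ) * (A * ξ ψ' (S.p φ) - S.p φ))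
            (z' := S.q φ' - A * S.p φ' + T.a ψ' (S.p φ') * (A * ξ ψ' (S.p φ) - S.p φ'))
            (by linarith)
          linarith
        · rw [hNρs _ _ _ hx'] at h4
          exact absurd (hlt (hA5 ψ' φ φ' x' hx')) (not_lt.2 (by linarith))
      · exact hfar ψ _ _ (hR5 ψ φ) (hR11 ψ φ) _ hx' hψ h3 h4
  -- relative witnesses inside a cluster
  set ru : Ψ → Ω ⊕ Fin r → ℝ := fun ψ => Sum.elim W.u (fun i => A * ξ ψ (S.p (e i.succ))) with hru
  set rv : Ψ → Ω ⊕ Fin r → ℝ := fun ψ => Sum.elim W.v (fun i => A * ξ ψ (S.p (e i.castSucc)))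
    with hrv
  set rsu : Ω ⊕ Fin r → Φ × ℝ := Sum.elim W.su (fun i => (e i.succ, t)) with hrsu
  set rsv : Ω ⊕ Fin r → Φ × ℝ := Sum.elim W.sv (fun i => (e i.castSucc, t)) with hrsv
  have hruR : ∀ ψ o, |ru ψ o| ≤ R := by
    rintro ψ (ω | i)
    · exact hR3 ω
    · exact hR5 ψ _
  have hrvR : ∀ ψ o, |rv ψ o| ≤ R := by
    rintro ψ (ω | i)
    · exact hR4 ω
    · exact hR5 ψ _
  have hruv : ∀ ψ o, ru ψ o < rv ψ o := by
    rintro ψ (ω | i)
    · exact hS.uv ω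
    · exact mul_lt_mul_of_pos_left (hξanti ψ _ _ (hemono _ _ Fin.castSucc_lt_succ)) hA0
  have hrout : ∀ ψ o φ, S.p φ < ru ψ o ∨ rv ψ o < S.p φ := by
    rintro ψ (ω | i) φ
    · exact hS.out ω φ
    · exact Or.inl (hA5' ψ _ φ)
  have hrdisj : ∀ ψ o o', o ≠ o' → rv ψ o ≤ ru ψ o' ∨ rv ψ o' ≤ ru ψ o := by
    have h3 : ∀ ψ ω i, rv ψ (Sum.inl ω) ≤ ru ψ (Sum.inr i) := by
      intro ψ ω i
      obtain ⟨l1, _, l3, _⟩ := hS.lowv ω
      exact (l3.trans (hA5 ψ _ _ _ l1)).le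
    have h4 : ∀ ψ (i j : Fin r), i < j → rv ψ (Sum.inr j) ≤ ru ψ (Sum.inr i) := by
      intro ψ i j hij
      show A * ξ ψ (S.p (e j.castSucc)) ≤ A * ξ ψ (S.p (e i.succ))
      apply mul_le_mul_of_nonneg_left _ hA0.le
      have : i.succ ≤ j.castSucc := by
        rw [Fin.le_def]; simp; exact hij
      rcases this.lt_or_eq with h | h
      · exact (hξanti ψ _ _ (hemono _ _ h)).le
      · rw [h]
    rintro ψ (ω | i) (ω' | j) h
    · exact hS.disj ω ω' (fun h' => h (by rw [h']))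
    · exact Or.inl (h3 ψ ω j)
    · exact Or.inr (h3 ψ ω' i)
    · rcases lt_trichotomy i j with h' | h' | h'
      · exact Or.inr (h4 ψ i j h')
      · exact absurd (by rw [h']) h
      · exact Or.inl (h4 ψ j i h')
  refine ⟨Ψ × Φ, Θ ⊕ (Ψ × (Ω ⊕ Fin r)), inferInstance, inferInstance, N,
    ⟨Sum.elim V.u (fun c => T.p c.1 + ε * ru c.1 c.2),
     Sum.elim V.v (fun c => T.p c.1 + ε * rv c.1 c.2),
     Sum.elim (fun θ => (((V.su θ).1, g (V.su θ).2), t)) (fun c => ((c.1, (rsu c.2).1), (rsu c.2).2)),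
     Sum.elim (fun θ => (((V.sv θ).1, g (V.sv θ).2), t))
      (fun c => ((c.1, (rsv c.2).1), (rsv c.2).2))⟩, ⟨?_, ?_, ?_, ?_, ?_, ?_, ?_, ?_, ?_, ?_⟩, ?_, ?_⟩
  · rintro ⟨ψ, φ⟩ ⟨ψ', φ'⟩ h
    rw [hNp, hNp] at h
    by_cases hψ : ψ = ψ'
    · subst hψ
      have : S.p φ = S.p φ' := mul_left_cancel₀ hε0.ne' (by linarith)
      rw [hS.inj this]
    · have h3 := hord' ψ ψ' _ _ hψ (hR1 φ) (hR1 φ') h.le
      have h4 := hord' ψ' ψ _ _ (Ne.symm hψ) (hR1 φ') (hR1 φ) h.ge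
      exact absurd h3 (not_lt.2 h4.le)
  · rintro ⟨ψ, φ⟩ x hx
    rw [hNp]
    rcases Finset.mem_insert.1 hx with rfl | hx
    · rw [hNρl]; exact hlong ψ φ _ (hR1 φ)
    · rw [hNρs _ _ _ hx]; linarith [hlt (hS.lt φ x hx)]
  · rintro ⟨ψ, φ⟩ ⟨⟨ψ', φ'⟩, x'⟩ hx' hJ h3 h4
    rw [hNq]
    rw [hNp ψ φ] at h3 h4 ⊢
    by_cases hψ : ψ' = ψ
    · subst hψ
      simp only at hx' h3 h4 hJ
      rw [hNp] at h3
      have hφ : φ' ≠ φ := by rintro rfl; exact hJ rfl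
      have h5 : S.p φ' ≤ S.p φ := hle (by linarith)
      rcases Finset.mem_insert.1 hx' with rfl | hx'
      · rw [hN, comp_val_long']
        have h6 := hA1 ψ' φ φ' (lt_of_le_of_ne h5 (fun h => hφ (hS.inj h)))
        have := hlt (z := S.q φ - A * S.p φ)
          (z' := S.q φ' - A * S.p φ' + T.a ψ' (S.p φ') * (S.p φ - S.p φ')) (by linarith)
        linarith
      · rw [hNρs _ _ _ hx'] at h4
        rw [hN, comp_val_short _ _ _ _ _ _ _ _ _ (hKt x' hx')]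
        have h6 := hS.apex φ (φ', x') hx' hφ h5 (hle (by linarith))
        have := hlt (z := S.q φ - A * S.p φ) (z' := S.val (φ', x') (S.p φ) - A * S.p φ)
          (by linarith)
        linarith
    · exact hfar ψ _ _ (hR1 φ) (hR8 φ) _ hx' hψ h3 h4
  · rintro ⟨ψ, φ⟩ x hx
    have hat : N.a (ψ, φ) t = T.a ψ (S.p φ) := by simp [hN, comp]
    have has : ∀ y ∈ K, N.a (ψ, φ) y = S.a φ y - A := fun y hy => by simp [hN, comp, hKt y hy]
    rcases Finset.mem_insert.1 hx with rfl | hx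
    · have : ∀ᶠ z in 𝓝[>] (0 : ℝ), ∀ y ∈ K, z * (T.a ψ (S.p φ) - (S.a φ y - A)) < x - y := by
        rw [Finset.eventually_all]
        intro y hy
        have := ev_eps True (T.a ψ (S.p φ) - (S.a φ y - A)) (x - y) (fun _ => sub_pos.2 (ht y hy))
        simpa using this
      obtain ⟨z, hz1, hz2⟩ := (this.and self_mem_nhdsWithin).exists
      refine ⟨z, hz2, ?_⟩
      intro y hy hyx
      have hy' : y ∈ K := (Finset.mem_insert.1 hy).resolve_left hyx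
      rw [hat, has y hy']
      linarith [hz1 y hy']
    · refine ⟨ζ φ x, hζ0 φ x hx, ?_⟩
      intro y hy hyx
      rw [has x hx]
      have h7 := hA4 ψ φ x hx
      rcases Finset.mem_insert.1 hy with h8 | h8
      · rw [h8, hat]; linarith
      · rw [has y h8]; linarith [hζ φ x hx y h8 hyx]
  · rintro (θ | ⟨ψ, o⟩)
    · exact hT.uv θ
    · show T.p ψ + ε * ru ψ o < T.p ψ + ε * rv ψ o
      linarith [hlt (hruv ψ o)]
  · rintro (θ | ⟨ψ, ω | i⟩)
    · exact hlowT _ _ (hT.lowu θ) (fun ψ => hE2 ψ θ) (hE5 θ)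
    · exact hlowS ψ _ _ (hS.lowu ω) (hR3 ω) (hR9 ω) (fun φ' => by
        rcases hS.out ω φ' with h | h
        · exact h.ne
        · exact ((hS.uv ω).trans h).ne') (fun φ' => hA2 ψ φ' ω)
    · exact hlowN ψ _
  · rintro (θ | ⟨ψ, ω | i⟩)
    · exact hlowT _ _ (hT.lowv θ) (fun ψ => hE2' ψ θ) (hE5' θ)
    · exact hlowS ψ _ _ (hS.lowv ω) (hR4 ω) (hR10 ω) (fun φ' => by
        rcases hS.out ω φ' with h | h
        · exact (h.trans (hS.uv ω)).ne
        · exact h.ne') (fun φ' => hA3 ψ φ' ω)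
    · exact hlowN ψ _
  · rintro (θ | ⟨ψ, ω | i⟩) h
    · apply hT.ne θ
      simp only [Sum.elim_inl, Prod.mk.injEq, and_true] at h
      refine Prod.ext h.1 ?_
      rw [← hg _ (hT.lowu θ).1, ← hg _ (hT.lowv θ).1, h.2]
    · apply hS.ne ω
      simp only [Sum.elim_inr, hrsu, hrsv, Sum.elim_inl, Prod.mk.injEq, true_and] at h
      exact Prod.ext h.1 h.2
    · simp only [Sum.elim_inr, hrsu, hrsv, Prod.mk.injEq, true_and, and_true] at h
      have := hemono _ _ (Fin.castSucc_lt_succ (i := i))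
      rw [h] at this
      exact lt_irrefl _ this
  · rintro (θ | ⟨ψ, o⟩) ⟨ψ', φ'⟩
    · show N.p (ψ', φ') < V.u θ ∨ V.v θ < N.p (ψ', φ')
      rw [hNp]
      rcases hT.out θ ψ' with h | h
      · exact Or.inl ((hside _ ψ' (hE2 ψ' θ) _ (hR1 φ')).1.2 h)
      · exact Or.inr ((hside _ ψ' (hE2' ψ' θ) _ (hR1 φ')).2.2 h)
    · show N.p (ψ', φ') < T.p ψ + ε * ru ψ o ∨ T.p ψ + ε * rv ψ o < N.p (ψ', φ')
      rw [hNp]
      rcases lt_trichotomy (T.p ψ) (T.p ψ') with h | h | h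
      · exact Or.inr (hord _ _ _ _ h (hrvR ψ o) (hR1 φ'))
      · rw [← h]
        rcases hrout ψ o φ' with h' | h'
        · left; linarith [hlt h']
        · right; linarith [hlt h']
      · exact Or.inl (hord _ _ _ _ h (hR1 φ') (hruR ψ o))
  · have h3 : ∀ θ ψ o, V.v θ ≤ T.p ψ + ε * ru ψ o ∨ T.p ψ + ε * rv ψ o ≤ V.u θ := by
      intro θ ψ o
      rcases hT.out θ ψ with h | h
      · exact Or.inr ((hside _ ψ (hE2 ψ θ) _ (hrvR ψ o)).1.2 h).le
      · exact Or.inl ((hside _ ψ (hE2' ψ θ) _ (hruR ψ o)).2.2 h).le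
    rintro (θ | ⟨ψ, o⟩) (θ' | ⟨ψ', o'⟩) h
    · exact hT.disj θ θ' (fun h' => h (by rw [h']))
    · exact h3 θ ψ' o'
    · exact (h3 θ' ψ o).symm
    · show T.p ψ + ε * rv ψ o ≤ T.p ψ' + ε * ru ψ' o' ∨ T.p ψ' + ε * rv ψ' o' ≤ T.p ψ + ε * ru ψ o
      rcases lt_trichotomy (T.p ψ) (T.p ψ') with h' | h' | h'
      · exact Or.inl (hord _ _ _ _ h' (hrvR ψ o) (hruR ψ' o')).le
      · have := hT.inj h'
        subst this
        rcases hrdisj ψ o o' (fun h'' => h (by rw [h''])) with h4 | h4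
        · left; nlinarith
        · right; nlinarith
      · exact Or.inr (hord _ _ _ _ h' (hrvR ψ' o') (hruR ψ o)).le
  · rw [Fintype.card_prod]; nlinarith
  · rw [Finset.card_insert_of_notMem htK]
    simp only [Fintype.card_prod, Fintype.card_sum, Fintype.card_fin]
    rw [hLc] at hc'
    rw [hr] at hc hc' hf ⊢
    have h3 : Fintype.card Ψ * ((k + 1) * ((r + 1) * K.card)) ≤
        Fintype.card Ψ * (2 * Fintype.card Ω) := Nat.mul_le_mul_left _ hc
    have h4 : Fintype.card Ψ * (r + 1) ≤ Fintype.card Ψ * (2 * r) :=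
      Nat.mul_le_mul_left _ (by omega)
    nlinarith

theorem hasCfg (k : ℕ) : ∀ K : Finset ℝ, HasCfg K k 1 := by
  induction k with
  | zero => exact hasCfg_zero
  | succ k ih =>
    intro K
    have : HasCfg K (k + 1) 2 := by
      induction K using Finset.induction_on_max with
      | empty => exact hasCfg_empty _
      | insert t K ht ih' => exact cfg_step K t ht k ih' ih
    obtain ⟨Φ, Ω, _, _, S, W, h1, h2, h3⟩ := this
    exact ⟨Φ, Ω, inferInstance, inferInstance, S, W, h1, by omega, h3⟩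

end Pool.Agent.Work.MP_97f157_lc
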