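import Pool.Agent.Work.MP_97f157_lc.SmoPoly

/-! The set of badly conditioned coefficient vectors has small volume. -/

namespace Pool.Agent.Work.MP_97f157_lc.Smo

open Finset Polynomial MeasureTheory
open scoped ENNReal

lemma supp_sub_le (p q : ℝ[X]) : (p - q).support.card ≤ p.support.card + q.support.card := by
  rw [sub_eq_add_neg]
  refine (Finset.card_le_card support_add).trans ((Finset.card_union_le _ _).trans ?_)
  rw [support_neg]

lemma supp_sum_le {κ : Type*} (s : Finset κ) (p : κ → ℝ[X]) {n : ℕ}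
    (h : ∀ l ∈ s, (p l).support.card ≤ n) : (∑ l ∈ s, p l).support.card ≤ s.card * n := by
  classical
  induction s using Finset.induction_on with
  | empty => simp
  | insert j s hj ih =>
    rw [Finset.sum_insert hj, Finset.card_insert_of_notMem hj]
    refine (Finset.card_le_card support_add).trans ((Finset.card_union_le _ _).trans ?_)
    have h1 := ih fun l hl => h l (Finset.mem_insert_of_mem hl)
    have h2 := h j (Finset.mem_insert_self _ _)
    nlinarith

lemma supp_prod_le {κ : Type*} (s : Finset κ) (p : κ → ℝ[X]) {n : ℕ}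
    (h : ∀ l ∈ s, (p l).support.card ≤ n) : (∏ l ∈ s, p l).support.card ≤ n ^ s.card := by
  classical
  induction s using Finset.induction_on with
  | empty =>
    rw [Finset.prod_empty, ← C_1]
    simpa using Finset.card_le_card (support_C_subset (1 : ℝ))
  | insert j s hj ih =>
    rw [Finset.prod_insert hj, Finset.card_insert_of_notMem hj, pow_succ']
    exact card_support_mul_le.trans (Nat.mul_le_mul (h j (Finset.mem_insert_self _ _))
      (ih fun l hl => h l (Finset.mem_insert_of_mem hl)))

lemma supp_C_mul_le (a : ℝ) (p : ℝ[X]) : (C a * p).support.card ≤ p.support.card := by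
  rw [← smul_eq_C_mul]
  exact Finset.card_le_card (support_smul _ _)

lemma supp_deriv_le (p : ℝ[X]) : (derivative p).support.card ≤ p.support.card :=
  Finset.card_le_card_of_injOn (fun n => n + 1) (fun _ hn => of_mem_support_derivative hn)
    fun _ _ _ _ h => by simpa using h

lemma wronsk_zero {G P : ℝ[X]} (hW : derivative G * P - G * derivative P = 0) {x0 : ℝ}
    (h0 : P.eval x0 ≠ 0) : G = C (G.eval x0 / P.eval x0) * P := by
  set H := G - C (G.eval x0 / P.eval x0) * P with hH
  have hr : H.IsRoot x0 := by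
    simp only [hH, IsRoot, eval_sub, eval_mul, eval_C]
    field_simp
    ring
  have hW' : derivative H * P = H * derivative P := by
    simp only [hH, derivative_sub, derivative_mul, derivative_C, zero_mul, zero_add]
    linear_combination hW
  by_contra hne
  have hH0 : H ≠ 0 := sub_ne_zero.2 hne
  have hP0 : P ≠ 0 := by rintro rfl; simp at h0
  have hpos : 0 < H.rootMultiplicity x0 := (rootMultiplicity_pos hH0).2 hr
  have hd0 : derivative H ≠ 0 := by
    intro h
    have h1 := eq_C_of_natDegree_eq_zero (derivative_eq_zero.1 h)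
    rw [h1] at hr hH0
    simp only [IsRoot, eval_C] at hr
    exact hH0 (by rw [hr, C_0])
  have h1 := rootMultiplicity_mul (x := x0) (mul_ne_zero hd0 hP0)
  have h2 := rootMultiplicity_mul (x := x0) (hW' ▸ mul_ne_zero hd0 hP0)
  rw [hW', h2, derivative_rootMultiplicity_of_root hr,
    rootMultiplicity_eq_zero (p := P) h0] at h1
  omega

lemma crit_values (G P : ℝ[X]) :
    ∃ V : Finset ℝ, V.card ≤ 4 * (G.support.card * P.support.card) + 1 ∧ ∀ x, P.eval x ≠ 0 →
      (derivative G * P - G * derivative P).eval x = 0 → G.eval x / P.eval x ∈ V := by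
  classical
  by_cases hW : derivative G * P - G * derivative P = 0
  · by_cases hP : ∃ x0, P.eval x0 ≠ 0
    · obtain ⟨x0, h0⟩ := hP
      refine ⟨{G.eval x0 / P.eval x0}, by simp, fun x hx _ => ?_⟩
      rw [Finset.mem_singleton]
      conv_lhs => rw [wronsk_zero hW h0]
      rw [eval_mul, eval_C, mul_div_cancel_right₀ _ hx]
    · exact ⟨∅, by simp, fun x hx _ => absurd ⟨x, hx⟩ hP⟩
  · refine ⟨(derivative G * P - G * derivative P).roots.toFinset.image
      fun x => G.eval x / P.eval x, Finset.card_image_le.trans ((sparse_roots _).trans ?_),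
      fun x _ hx => Finset.mem_image_of_mem _ ?_⟩
    · have h1 := supp_sub_le (derivative G * P) (G * derivative P)
      have h2 : (derivative G * P).support.card ≤ G.support.card * P.support.card :=
        card_support_mul_le.trans (Nat.mul_le_mul_right _ (supp_deriv_le G))
      have h3 : (G * derivative P).support.card ≤ G.support.card * P.support.card :=
        card_support_mul_le.trans (Nat.mul_le_mul_left _ (supp_deriv_le P))
      omega
    · rw [Multiset.mem_toFinset, mem_roots hW]
      exact hx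

/-- badly conditioned coefficient vectors -/
def Bad {k : ℕ} (P : Fin k → ℝ[X]) (δ : ℝ) (i : Fin k) : Set (Fin k → ℝ) :=
  {c | ∃ x, c i * (P i).eval x ≠ 0 ∧
    (derivative (∑ l, C (c l) * P l) * P i - (∑ l, C (c l) * P l) * derivative (P i)).eval x = 0 ∧
    |(∑ l, C (c l) * P l).eval x| ≤ δ * |c i * (P i).eval x|}

lemma measurableSet_bad {k : ℕ} (P : Fin k → ℝ[X]) (δ : ℝ) (i : Fin k) :
    MeasurableSet (Bad P δ i) := by
  have e : Bad P δ i = ⋃ n : ℕ, Prod.fst '' ((Metric.closedBall (0 : (Fin k → ℝ) × ℝ) n)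
      ∩ {p : (Fin k → ℝ) × ℝ | 1 ≤ (n : ℝ) * |p.1 i * (P i).eval p.2| ∧
        (∑ l, p.1 l * (derivative (P l)).eval p.2) * (P i).eval p.2
          - (∑ l, p.1 l * (P l).eval p.2) * (derivative (P i)).eval p.2 = 0 ∧
        |∑ l, p.1 l * (P l).eval p.2| ≤ δ * |p.1 i * (P i).eval p.2|}) := by
    ext c
    simp only [Bad, Set.mem_ofPred_eq, Set.mem_iUnion, Set.mem_image, Set.mem_inter_iff,
      Prod.exists, exists_and_right, exists_eq_right, eval_sub,
      eval_mul, derivative_sum, derivative_mul, derivative_C, zero_mul, zero_add, eval_finsetSum,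
      eval_C, mem_closedBall_zero_iff]
    constructor
    · rintro ⟨x, hx, h1, h2⟩
      obtain ⟨n, hn⟩ := exists_nat_ge (max ‖(c, x)‖ (1 / |c i * (P i).eval x|))
      have h4 := (le_max_right _ _).trans hn
      rw [div_le_iff₀ (abs_pos.2 hx)] at h4
      exact ⟨n, x, (le_max_left _ _).trans hn, h4, h1, h2⟩
    · rintro ⟨n, x, -, h4, h1, h2⟩
      refine ⟨x, fun h => ?_, h1, h2⟩
      rw [h, abs_zero, mul_zero] at h4
      linarith
  rw [e]
  refine MeasurableSet.iUnion fun n => (IsCompact.image ?_ continuous_fst).measurableSet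
  refine (isCompact_closedBall _ _).inter_right ?_
  refine IsClosed.and (isClosed_le ?_ ?_) (IsClosed.and (isClosed_eq ?_ ?_) (isClosed_le ?_ ?_))
  all_goals fun_prop

lemma fibre_le {k : ℕ} (P : Fin k → ℝ[X]) {T : ℕ} (hP : ∀ l, (P l).support.card ≤ T) {δ δ' : ℝ}
    (hδ : δ' < δ) {ν : Measure ℝ} {ε : ℝ≥0∞} (hν : ∀ v, ν {y | |y - v| < δ * |y|} ≤ ε)
    (i : Fin k) (c : Fin k → ℝ) :
    ν {y : ℝ | Function.update c i y ∈ Bad P δ' i} ≤ (4 * (k * T * T) + 1 : ℕ) * ε := by
  classical
  set G := ∑ l ∈ univ.erase i, C (c l) * P l with hG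
  obtain ⟨V, hV, h⟩ := crit_values G (P i)
  have hGc : G.support.card ≤ k * T := by
    refine (supp_sum_le _ _ fun l _ => (supp_C_mul_le _ _).trans (hP l)).trans ?_
    refine Nat.mul_le_mul_right _ (Finset.card_erase_le.trans ?_)
    simp
  have hVc : V.card ≤ 4 * (k * T * T) + 1 := by
    have := Nat.mul_le_mul hGc (hP i)
    omega
  have hsub : {y : ℝ | Function.update c i y ∈ Bad P δ' i}
      ⊆ ⋃ v ∈ V, {y | |y - -v| < δ * |y|} := by
    rintro y ⟨x, hx', h1, h2⟩
    have e : ∑ l, C (Function.update c i y l) * P l = C y * P i + G := by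
      rw [← Finset.add_sum_erase _ _ (Finset.mem_univ i), Function.update_self, hG]
      congr 1
      refine Finset.sum_congr rfl fun l hl => ?_
      rw [Function.update_of_ne (Finset.ne_of_mem_erase hl)]
    rw [e] at h1 h2
    rw [Function.update_self] at hx' h2
    have hx := right_ne_zero_of_mul hx'
    have h3 := h x hx (by
      simp only [derivative_add, derivative_mul, derivative_C, zero_mul, zero_add, eval_sub,
        eval_mul, eval_add, eval_C] at h1 ⊢
      linarith)
    simp only [Set.mem_iUnion]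
    refine ⟨_, h3, ?_⟩
    have e2 : (C y * P i + G).eval x = (y + G.eval x / (P i).eval x) * (P i).eval x := by
      simp only [eval_add, eval_mul, eval_C]
      field_simp
    rw [e2, abs_mul, abs_mul, ← mul_assoc] at h2
    have h4 := le_of_mul_le_mul_right h2 (abs_pos.2 hx)
    rw [Set.mem_ofPred_eq, sub_neg_eq_add]
    exact h4.trans_lt (mul_lt_mul_of_pos_right hδ (abs_pos.2 (left_ne_zero_of_mul hx')))
  refine (measure_mono hsub).trans ((measure_biUnion_finset_le _ _).trans ?_)
  refine (Finset.sum_le_card_nsmul V _ _ fun v _ => hν (-v)).trans ?_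
  rw [nsmul_eq_mul]
  gcongr

lemma pi_le_of_fibre {k : ℕ} (ν : Fin k → Measure ℝ) [∀ i, IsProbabilityMeasure (ν i)]
    {B : Set (Fin k → ℝ)} (hB : MeasurableSet B) (i : Fin k) {ε : ℝ≥0∞}
    (h : ∀ c, ν i {y : ℝ | Function.update c i y ∈ B} ≤ ε) : Measure.pi ν B ≤ ε := by
  classical
  have hm : Measurable (B.indicator (1 : (Fin k → ℝ) → ℝ≥0∞)) := measurable_one.indicator hB
  rw [← lintegral_indicator_one hB, lintegral_eq_lmarginal_univ (fun _ => 0),
    lmarginal_erase' _ hm (Finset.mem_univ i)]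
  refine (lmarginal_mono (g := fun _ => ε) (fun c => ?_) _).trans ?_
  · have e2 : (fun y => B.indicator (1 : (Fin k → ℝ) → ℝ≥0∞) (Function.update c i y))
        = {y : ℝ | Function.update c i y ∈ B}.indicator 1 := by
      funext y
      by_cases hy : Function.update c i y ∈ B <;> simp [Set.indicator, hy]
    have hm2 : MeasurableSet {y : ℝ | Function.update c i y ∈ B} :=
      measurable_update c hB
    simp only
    rw [e2, lintegral_indicator_one hm2]
    exact h c
  · rw [lmarginal, lintegral_const, measure_univ, mul_one]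

theorem smoothed {k m t n : ℕ} (hk : 0 < k) (hm : 0 < m) (ht : 0 < t)
    (f : Fin k → Fin m → ℝ[X]) (hf : ∀ i j, (f i j).support.card ≤ t)
    (ν : Fin k → Measure ℝ) [∀ i, IsProbabilityMeasure (ν i)] {ε : ℝ≥0∞}
    (hν : ∀ i v, ν i {y | |y - v| < 2⁻¹ ^ n * |y|} ≤ ε) :
    Measure.pi ν {a : Fin k → ℝ | 2 ^ 26 * (k * m * t) ^ 15 * (n + 1) <
      (∑ i, C (a i) * ∏ j, f i j).roots.toFinset.card} ≤ (5 * k ^ 2 * t ^ (2 * m) : ℕ) * ε := by
  have hP : ∀ l, (∏ j, f l j).support.card ≤ t ^ m := fun l => by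
    simpa using supp_prod_le univ (f l) fun j _ => hf l j
  have hx1 : 1 ≤ k * m * t := Nat.mul_pos (Nat.mul_pos hk hm) ht
  have hmt : 1 ≤ m * t := Nat.mul_pos hm ht
  have hkx : k ≤ k * m * t := by rw [mul_assoc]; exact Nat.le_mul_of_pos_right _ hmt
  have hmtx : m * t ≤ k * m * t := by rw [mul_assoc]; exact Nat.le_mul_of_pos_left _ hk
  have hmx : m ≤ k * m * t := (Nat.le_mul_of_pos_right _ ht).trans hmtx
  have htx : t ≤ k * m * t := (Nat.le_mul_of_pos_left _ hm).trans hmtx
  have hδ : Real.exp (-((n + 1 : ℕ) : ℝ)) < 2⁻¹ ^ n := by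
    have h1 : (2 : ℝ) ≤ Real.exp 1 := by linarith [Real.add_one_le_exp 1]
    have h2 := pow_le_pow_left₀ (by norm_num) h1 n
    rw [← Real.exp_nat_mul, mul_one] at h2
    rw [Real.exp_neg, inv_pow]
    refine inv_strictAnti₀ (by positivity) (h2.trans_lt (Real.exp_lt_exp.2 ?_))
    simp
  refine (measure_mono (t := ⋃ i, Bad (fun l => ∏ j, f l j) (Real.exp (-((n + 1 : ℕ) : ℝ))) i)
    ?_).trans ((measure_iUnion_fintype_le _ _).trans ?_)
  · intro a hlt
    by_contra hc
    simp only [Set.mem_iUnion, not_exists] at hc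
    have h1 := count_poly (n := n + 1) ht f hf a fun i x hx hW => by
      by_contra hle
      exact hc i ⟨x, hx, hW, not_lt.1 hle⟩
    have h2 := total_le (n := n + 1) hx1 hkx hmx htx
    have h3 : 2 ^ 25 * (k * m * t) ^ 15 * (n + 1 + 1) ≤ 2 ^ 25 * (k * m * t) ^ 15 * (2 * (n + 1)) :=
      Nat.mul_le_mul_left _ (by omega)
    have e : 2 ^ 25 * (k * m * t) ^ 15 * (2 * (n + 1)) = 2 ^ 26 * (k * m * t) ^ 15 * (n + 1) := by
      ring
    rw [Set.mem_ofPred_eq] at hlt
    omega
  · refine (Finset.sum_le_card_nsmul univ _ _ fun i _ => pi_le_of_fibre ν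
      (measurableSet_bad _ _ i) i (fibre_le _ hP hδ (hν i) i)).trans ?_
    rw [nsmul_eq_mul, Finset.card_univ, Fintype.card_fin, ← mul_assoc, ← Nat.cast_mul]
    have h1 : 1 ≤ k * t ^ m * t ^ m := by
      have : 0 < k * t ^ m * t ^ m := by positivity
      omega
    have h2 : k * (4 * (k * t ^ m * t ^ m) + 1) ≤ 5 * k ^ 2 * t ^ (2 * m) := by
      calc _ ≤ k * (5 * (k * t ^ m * t ^ m)) := Nat.mul_le_mul_left _ (by omega)
        _ = _ := by ring
    gcongr

end Pool.Agent.Work.MP_97f157_lc.Smo
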