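import Pool.Agent.Work.MP_97f157_lc.SmoProb

open Polynomial MeasureTheory

/-- Smoothed form of the real tau-conjecture: arbitrary sparse factors, independent
anti-concentrated top coefficients, exponential tails. -/
theorem Pool.Agent.Results.MP_97f157_lc.Smoothed.result :
    ∃ C c : ℕ, ∀ (k m t n : ℕ) (f : Fin k → Fin m → Polynomial ℝ)
      (ν : Fin k → Measure ℝ) (ε : ENNReal),
      0 < k → 0 < m → 0 < t → (∀ i j, (f i j).support.card ≤ t) →
      (∀ i, IsProbabilityMeasure (ν i)) →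
      (∀ (i : Fin k) (v : ℝ), ν i {y : ℝ | |y - v| < 2⁻¹ ^ n * |y|} ≤ ε) →
      Measure.pi ν {a : Fin k → ℝ | C * (k * m * t) ^ c * (n + 1) <
          (∑ i, Polynomial.C (a i) * ∏ j, f i j).roots.toFinset.card}
        ≤ ((5 * k ^ 2 * t ^ (2 * m) : ℕ) : ENNReal) * ε :=
  ⟨2 ^ 26, 15, fun _ _ _ _ f ν _ hk hm ht hf _ hν =>
    Pool.Agent.Work.MP_97f157_lc.Smo.smoothed hk hm ht f hf ν hν⟩
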