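import Mathlib

-- merged part: Pool.Agent.Work.MP_97f157_lc.SosA
section
/-! Sums of squares of sparse polynomials: bookkeeping, and a real rooted test polynomial. -/

namespace Pool.Agent.Work.MP_97f157_lc.Sos

open Finset Polynomial

/-- `f` is a combination of at most `k` squares of polynomials with at most `T` monomials. -/
def Sq (T k : ℕ) (f : ℝ[X]) : Prop :=
  ∃ l : List (ℝ × ℝ[X]), l.length ≤ k ∧ (∀ p ∈ l, p.2.support.card ≤ T) ∧
    f = (l.map fun p => C p.1 * p.2 ^ 2).sum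

lemma Sq.mono {T k k' : ℕ} {f : ℝ[X]} (h : Sq T k f) (hk : k ≤ k') : Sq T k' f := by
  obtain ⟨l, h1, h2, h3⟩ := h
  exact ⟨l, h1.trans hk, h2, h3⟩

lemma sq_zero (T : ℕ) : Sq T 0 0 := ⟨[], le_rfl, by simp, by simp⟩

lemma Sq.add {T k k' : ℕ} {f g : ℝ[X]} (h : Sq T k f) (h' : Sq T k' g) :
    Sq T (k + k') (f + g) := by
  obtain ⟨l, h1, h2, rfl⟩ := h
  obtain ⟨l', h1', h2', rfl⟩ := h'
  refine ⟨l ++ l', by rw [List.length_append]; omega, fun p hp => ?_, by simp⟩
  exact (List.mem_append.1 hp).elim (h2 p) (h2' p)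

lemma Sq.sum {ι : Type*} {T : ℕ} (s : Finset ι) {k : ι → ℕ} {f : ι → ℝ[X]}
    (h : ∀ i ∈ s, Sq T (k i) (f i)) : Sq T (∑ i ∈ s, k i) (∑ i ∈ s, f i) := by
  classical
  induction s using Finset.induction_on with
  | empty => simpa using sq_zero T
  | insert j s hj ih =>
    rw [Finset.sum_insert hj, Finset.sum_insert hj]
    exact (h j (Finset.mem_insert_self _ _)).add
      (ih fun i hi => h i (Finset.mem_insert_of_mem hi))

lemma supp_add_le (p q : ℝ[X]) : (p + q).support.card ≤ p.support.card + q.support.card :=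
  (Finset.card_le_card support_add).trans (Finset.card_union_le _ _)

lemma sq_mul {t : ℕ} {g h : ℝ[X]} (hg : g.support.card ≤ t) (hh : h.support.card ≤ t) :
    Sq (2 * t) 2 (g * h) := by
  refine ⟨[(1 / 4, g + h), (-1 / 4, g + -h)], le_rfl, ?_, ?_⟩
  · intro p hp
    simp only [List.mem_cons, List.not_mem_nil, or_false] at hp
    rcases hp with rfl | rfl
    · have := supp_add_le g h
      simp only
      omega
    · have := supp_add_le g (-h)
      rw [support_neg] at this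
      simp only
      omega
  · have e : (C (1 / 4 : ℝ)) * 4 = 1 := by
      rw [show (4 : ℝ[X]) = C 4 from rfl, ← C_mul]; norm_num
    have e2 : C (-1 / 4 : ℝ) = -C (1 / 4) := by rw [← C_neg]; norm_num
    simp only [List.map_cons, List.map_nil, List.sum_cons, List.sum_nil, e2]
    linear_combination (-(g * h)) * e

lemma exists_split {t : ℕ} {g : ℝ[X]} (hg : t ≤ g.support.card) :
    ∃ g1 g2 : ℝ[X], g = g1 + g2 ∧ g1.support.card ≤ t ∧ g2.support.card + t ≤ g.support.card := by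
  classical
  obtain ⟨A, hA, hc⟩ := Finset.exists_subset_card_eq hg
  have hco : ∀ n, (∑ i ∈ A, monomial i (g.coeff i)).coeff n = if n ∈ A then g.coeff n else 0 := by
    intro n
    simp [finsetSum_coeff, coeff_monomial]
  refine ⟨∑ i ∈ A, monomial i (g.coeff i), g - ∑ i ∈ A, monomial i (g.coeff i), by ring, ?_, ?_⟩
  · refine le_trans (Finset.card_le_card fun n hn => ?_) hc.le
    rw [mem_support_iff, hco] at hn
    by_contra h
    exact hn (if_neg h)
  · have : (g - ∑ i ∈ A, monomial i (g.coeff i)).support ⊆ g.support \ A := by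
      intro n hn
      rw [mem_support_iff, coeff_sub, hco] at hn
      rw [Finset.mem_sdiff, mem_support_iff]
      by_cases h : n ∈ A
      · simp [h] at hn
      · simpa [h] using hn
    have h1 := Finset.card_le_card this
    rw [Finset.card_sdiff_of_subset hA] at h1
    omega

lemma sq_mul_right {t T κ : ℕ} (ht : 0 < t) {g : ℝ[X]}
    (hg : ∀ h : ℝ[X], h.support.card ≤ t → Sq T κ (g * h)) (s : ℕ) :
    ∀ h : ℝ[X], h.support.card ≤ s → Sq T (κ * (s / t + 1)) (g * h) := by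
  induction s using Nat.strong_induction_on with
  | _ s ih =>
    intro h hh
    by_cases h1 : h.support.card ≤ t
    · exact (hg h h1).mono (Nat.le_mul_of_pos_right _ (Nat.succ_pos _))
    · obtain ⟨h1', h2, rfl, h3, h4⟩ := exists_split (not_le.1 h1).le
      rw [mul_add g]
      refine ((hg _ h3).add (ih (s - t) (by omega) h2 (by omega))).mono (le_of_eq ?_)
      rw [Nat.div_eq_sub_div ht (by omega : t ≤ s)]
      ring

lemma sq_mul_big {t s s' : ℕ} (ht : 0 < t) {g h : ℝ[X]} (hg : g.support.card ≤ s)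
    (hh : h.support.card ≤ s') : Sq (2 * t) (2 * (s / t + 1) * (s' / t + 1)) (g * h) := by
  refine sq_mul_right ht (fun h' hh' => ?_) s' h hh
  rw [mul_comm g h']
  exact sq_mul_right ht (fun g' hg' => sq_mul hh' hg') s g hg

lemma supp_sum_monomial {ι : Type*} (s : Finset ι) (e : ι → ℕ) (c : ι → ℝ) :
    (∑ i ∈ s, C (c i) * X ^ e i).support.card ≤ (s.filter fun i => c i ≠ 0).card := by
  classical
  refine le_trans (Finset.card_le_card fun n hn => ?_)
    (Finset.card_image_le (s := s.filter fun i => c i ≠ 0) (f := e))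
  rw [mem_support_iff, finsetSum_coeff] at hn
  obtain ⟨i, hi, h⟩ := Finset.exists_ne_zero_of_sum_ne_zero hn
  rw [coeff_C_mul_X_pow] at h
  by_cases hne : n = e i
  · rw [if_pos hne] at h
    exact Finset.mem_image.2 ⟨i, Finset.mem_filter.2 ⟨hi, h⟩, hne.symm⟩
  · exact absurd (if_neg hne) h

lemma Sq.fin {T k : ℕ} {f : ℝ[X]} (h : Sq T k f) :
    ∃ (c : Fin k → ℝ) (g : Fin k → ℝ[X]), (∀ i, (g i).support.card ≤ T) ∧
      f = ∑ i, C (c i) * g i ^ 2 := by
  obtain ⟨l, h1, h2, rfl⟩ := h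
  obtain ⟨j, rfl⟩ := Nat.exists_eq_add_of_le h1
  refine ⟨Fin.append (fun i => l[i.1].1) fun _ => 0, Fin.append (fun i => l[i.1].2) fun _ => 0,
    fun i => ?_, ?_⟩
  · refine Fin.addCases (fun i => ?_) (fun i => ?_) i
    · rw [Fin.append_left]; exact h2 _ (List.getElem_mem _)
    · rw [Fin.append_right]; simp
  · rw [Fin.sum_univ_add]
    simp only [Fin.append_left, Fin.append_right, C_0, zero_mul, Finset.sum_const_zero, add_zero]
    exact (Fin.sum_univ_fun_getElem l fun p => C p.1 * p.2 ^ 2).symm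

/-- the test polynomial -/
noncomputable def V (N : ℕ) : ℝ[X] :=
  ∑ i ∈ range N, C ((-1) ^ i * ((N : ℝ) + 1) ^ (-(i : ℤ) ^ 2)) * X ^ i

lemma V_sign {N j : ℕ} (hj : j < N) : 0 < (-1) ^ j * (V N).eval (((N : ℝ) + 1) ^ (2 * j)) := by
  set R : ℝ := (N : ℝ) + 1 with hR
  have hR1 : 1 ≤ R := by rw [hR]; linarith [(Nat.cast_nonneg N : (0 : ℝ) ≤ N)]
  have hR0 : 0 < R := by linarith
  have e : ∀ i : ℕ, (C ((-1) ^ i * R ^ (-(i : ℤ) ^ 2)) * X ^ i).eval (R ^ (2 * j))
      = (-1) ^ i * R ^ ((j : ℤ) ^ 2 - ((i : ℤ) - j) ^ 2) := by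
    intro i
    rw [eval_mul, eval_C, eval_pow, eval_X, ← pow_mul, ← zpow_natCast R, mul_assoc,
      ← zpow_add₀ hR0.ne']
    congr 2
    push_cast
    ring
  rw [V, eval_finsetSum, Finset.mul_sum, ← Finset.add_sum_erase _ _ (Finset.mem_range.2 hj)]
  simp only [← hR, e]
  have h1 : ∀ i ∈ (range N).erase j, -R ^ ((j : ℤ) ^ 2 - 1)
      ≤ (-1) ^ j * ((-1) ^ i * R ^ ((j : ℤ) ^ 2 - ((i : ℤ) - j) ^ 2)) := by
    intro i hi
    have hij : (i : ℤ) - j ≠ 0 := sub_ne_zero.2 (by exact_mod_cast Finset.ne_of_mem_erase hi)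
    have h2 : R ^ ((j : ℤ) ^ 2 - ((i : ℤ) - j) ^ 2) ≤ R ^ ((j : ℤ) ^ 2 - 1) :=
      zpow_le_zpow_right₀ hR1 (by have := pow_pos (abs_pos.2 hij) 2; rw [sq_abs] at this; omega)
    have h3 := neg_abs_le ((-1) ^ j * ((-1) ^ i * R ^ ((j : ℤ) ^ 2 - ((i : ℤ) - j) ^ 2)))
    rw [abs_mul, abs_mul, abs_neg_one_pow, abs_neg_one_pow, one_mul, one_mul,
      abs_of_pos (zpow_pos hR0 _)] at h3
    linarith
  have h2 := Finset.card_nsmul_le_sum _ _ _ h1
  have h3 : (((range N).erase j).card : ℝ) ≤ N := by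
    exact_mod_cast Finset.card_erase_le.trans (by simp)
  have h4 : R ^ ((j : ℤ) ^ 2) = R * R ^ ((j : ℤ) ^ 2 - 1) := by
    rw [zpow_sub_one₀ hR0.ne']; field_simp
  have h5 := zpow_pos hR0 ((j : ℤ) ^ 2 - 1)
  have h6 : ((-1 : ℝ)) ^ j * (-1) ^ j = 1 := by rw [← mul_pow]; simp
  rw [nsmul_eq_mul] at h2
  rw [sub_self, zero_pow two_ne_zero, sub_zero, ← mul_assoc, h6, one_mul, h4]
  nlinarith

lemma V_roots {N : ℕ} (hN : 0 < N) : V N ≠ 0 ∧ N ≤ (V N).roots.toFinset.card + 1 := by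
  classical
  have hV : V N ≠ 0 := by
    intro h
    simpa [h] using V_sign hN
  refine ⟨hV, ?_⟩
  set R : ℝ := (N : ℝ) + 1 with hR
  have hR1 : 1 < R := by
    have : (0 : ℝ) < N := by exact_mod_cast hN
    rw [hR]; linarith
  have key : ∀ j, j + 1 < N → ∃ y ∈ Set.Ioo (R ^ (2 * j)) (R ^ (2 * (j + 1))),
      (V N).eval y = 0 := by
    intro j hj
    have h1 := V_sign (show j < N by omega)
    have h2 := V_sign hj
    rw [pow_succ] at h2
    have hle : R ^ (2 * j) ≤ R ^ (2 * (j + 1)) := pow_le_pow_right₀ hR1.le (by omega)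
    have hc : Continuous fun x => (-1) ^ j * (V N).eval x := by fun_prop
    obtain ⟨y, hy, hy0⟩ := intermediate_value_Ioo' hle hc.continuousOn
      (show (0 : ℝ) ∈ Set.Ioo _ _ from ⟨by simp only [← hR] at h2 ⊢; linarith, h1⟩)
    exact ⟨y, hy, (mul_eq_zero.1 hy0).resolve_left (by simp)⟩
  choose! y hy hy0 using key
  have hlt : ∀ i j, i < j → j + 1 < N → y i < y j := fun i j hij hj =>
    (hy i (by omega)).2.trans_le ((pow_le_pow_right₀ hR1.le (by omega)).trans (hy j hj).1.le)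
  have h1 : (range (N - 1)).card ≤ (V N).roots.toFinset.card := by
    refine Finset.card_le_card_of_injOn y (fun j hj => ?_) fun i hi j hj hij => ?_
    · have := Finset.mem_range.1 (Finset.mem_coe.1 hj)
      rw [Finset.mem_coe, Multiset.mem_toFinset, mem_roots hV]
      exact hy0 j (by omega)
    · have h1 := Finset.mem_range.1 (Finset.mem_coe.1 hi)
      have h2 := Finset.mem_range.1 (Finset.mem_coe.1 hj)
      rcases lt_trichotomy i j with h | h | h
      · exact absurd hij (hlt i j h (by omega)).ne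
      · exact h
      · exact absurd hij (hlt j i h (by omega)).ne'
  rw [Finset.card_range] at h1
  omega

end Pool.Agent.Work.MP_97f157_lc.Sos
end

-- merged part: Pool.Agent.Work.MP_97f157_lc.SosB
section
/-! A low rank plus sparse decomposition of Hankel matrices by the polynomial method. -/

namespace Pool.Agent.Work.MP_97f157_lc.Sos

open Finset Polynomial

/-- digit sum -/
def ad (a b : Fin 2) : Fin 3 := ⟨a + b, by omega⟩

/-- position of the digit sum in the node order 1, 0, 2 -/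
def ix (a b : Fin 2) : ℕ := if a = b then a + 1 else 0

/-- Newton basis for the node order 1, 0, 2 -/
def Nw (e : Fin 3) (a b : Fin 2) : ℝ := ![1, ((a : ℕ) : ℝ) + (b : ℕ) - 1, ((a : ℕ) : ℝ) * (b : ℕ)] e

/-- coordinates of the indicator functions in the Newton basis -/
def mm (z e : Fin 3) : ℝ := ![![0, -1, 1], ![1, 1, -2], ![0, 0, 1]] z e

/-- monomial coordinates of the Newton basis -/
def nu (e : Fin 3) (s t : Fin 2) : ℝ :=
  ![![![1, 0], ![0, 0]], ![![-1, 1], ![1, 0]], ![![0, 0], ![0, 1]]] e s t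

lemma ind_eq (a b : Fin 2) (z : Fin 3) :
    (if ad a b = z then (1 : ℝ) else 0) = ∑ e, mm z e * Nw e a b := by
  fin_cases a <;> fin_cases b <;> fin_cases z <;> simp [ad, mm, Nw, Fin.sum_univ_three]
  norm_num

lemma Nw_eq (e : Fin 3) (a b : Fin 2) :
    Nw e a b = ∑ s, ∑ t, nu e s t * (((a : ℕ) : ℝ) ^ (s : ℕ) * ((b : ℕ) : ℝ) ^ (t : ℕ)) := by
  fin_cases e <;> simp [nu, Nw, Fin.sum_univ_two]
  ring

lemma Nw_ne (e : Fin 3) (a b : Fin 2) (h : Nw e a b ≠ 0) : (e : ℕ) ≤ ix a b := by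
  revert h
  fin_cases e <;> fin_cases a <;> fin_cases b <;> simp [Nw, ix]

lemma nu_ne (e : Fin 3) (s t : Fin 2) (h : nu e s t ≠ 0) : (s : ℕ) + t ≤ e := by
  revert h
  fin_cases e <;> fin_cases s <;> fin_cases t <;> simp [nu]

/-- weight of a binary vector -/
def wt {d : ℕ} (s : Fin d → Fin 2) : ℕ := ∑ i, (s i : ℕ)

/-- total node index -/
def idx {d : ℕ} (a b : Fin d → Fin 2) : ℕ := ∑ i, ix (a i) (b i)

/-- multilinear monomial -/
def chi {d : ℕ} (s a : Fin d → Fin 2) : ℝ := ∏ i, ((a i : ℕ) : ℝ) ^ (s i : ℕ)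

lemma prod_sum_pi {d : ℕ} {β : Type*} [Fintype β] (f : Fin d → β → ℝ) :
    ∏ i, ∑ y, f i y = ∑ x : Fin d → β, ∏ i, f i (x i) := by
  classical
  rw [Finset.prod_univ_sum, Fintype.piFinset_univ]

theorem clp {d : ℕ} (H : (Fin d → Fin 3) → ℝ) (D : ℕ) :
    ∃ κ : (Fin d → Fin 2) → (Fin d → Fin 2) → ℝ, (∀ s t, D < wt s + wt t → κ s t = 0) ∧
      ∀ a b, idx a b ≤ D →
        ∑ s, ∑ t, κ s t * (chi s a * chi t b) = H fun i => ad (a i) (b i) := by
  classical
  set Hh : (Fin d → Fin 3) → ℝ := fun e => ∑ z, H z * ∏ i, mm (z i) (e i) with hHh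
  refine ⟨fun s t => ∑ e ∈ univ.filter fun e : Fin d → Fin 3 => ∑ i, (e i : ℕ) ≤ D,
    Hh e * ∏ i, nu (e i) (s i) (t i), fun s t hst => ?_, fun a b hab => ?_⟩
  · refine Finset.sum_eq_zero fun e he => ?_
    by_contra hne
    have h1 := Finset.prod_ne_zero_iff.1 (right_ne_zero_of_mul hne)
    have h2 : ∑ i, ((s i : ℕ) + t i) ≤ ∑ i, (e i : ℕ) :=
      Finset.sum_le_sum fun i hi => nu_ne _ _ _ (h1 i hi)
    rw [Finset.sum_add_distrib] at h2
    have h3 := (Finset.mem_filter.1 he).2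
    unfold wt at hst
    omega
  · have e1 : ∀ e : Fin d → Fin 3, ∏ i, Nw (e i) (a i) (b i)
        = ∑ s : Fin d → Fin 2, ∑ t : Fin d → Fin 2,
          (∏ i, nu (e i) (s i) (t i)) * (chi s a * chi t b) := by
      intro e
      simp only [Nw_eq]
      rw [prod_sum_pi]
      refine Finset.sum_congr rfl fun s _ => ?_
      rw [prod_sum_pi]
      refine Finset.sum_congr rfl fun t _ => ?_
      rw [Finset.prod_mul_distrib, Finset.prod_mul_distrib, chi, chi]
    have e2 : H (fun i => ad (a i) (b i)) = ∑ e, Hh e * ∏ i, Nw (e i) (a i) (b i) := by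
      have e3 : ∀ z : Fin d → Fin 3, (if (fun i => ad (a i) (b i)) = z then (1 : ℝ) else 0)
          = ∑ e : Fin d → Fin 3, (∏ i, mm (z i) (e i)) * ∏ i, Nw (e i) (a i) (b i) := by
        intro z
        simp only [← Finset.prod_mul_distrib]
        rw [← prod_sum_pi fun i e => mm (z i) e * Nw e (a i) (b i)]
        simp only [← ind_eq]
        rw [Finset.prod_ite_zero]
        simp [funext_iff]
      calc H (fun i => ad (a i) (b i))
          = ∑ z, H z * (if (fun i => ad (a i) (b i)) = z then (1 : ℝ) else 0) := by simp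
        _ = _ := by
          simp only [e3, hHh, Finset.mul_sum, Finset.sum_mul]
          rw [Finset.sum_comm]
          simp only [mul_assoc]
    rw [e2, ← Finset.sum_filter_of_ne (p := fun e : Fin d → Fin 3 => ∑ i, (e i : ℕ) ≤ D)]
    · simp only [e1, Finset.mul_sum, Finset.sum_mul]
      rw [Finset.sum_comm' (t' := univ) (s' := fun _ => univ.filter fun e : Fin d → Fin 3 =>
        ∑ i, (e i : ℕ) ≤ D) (s := univ.filter fun e : Fin d → Fin 3 => ∑ i, (e i : ℕ) ≤ D)
        (t := fun _ => univ) (by simp)]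
      refine Finset.sum_congr rfl fun s _ => ?_
      rw [Finset.sum_comm]
      simp only [mul_assoc]
    · intro e _ hne
      have h1 := Finset.prod_ne_zero_iff.1 (right_ne_zero_of_mul hne)
      exact (Finset.sum_le_sum fun i hi => Nw_ne _ _ _ (h1 i hi)).trans hab

lemma card_low (v : ℕ) :
    (univ.filter fun s : Fin (140 * v) → Fin 2 => wt s ≤ 60 * v).card ≤ 2 ^ (138 * v) := by
  have h1 : ∑ s : Fin (140 * v) → Fin 2, (3 / 4 : ℝ) ^ wt s = (7 / 4) ^ (140 * v) := by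
    simp only [wt, ← Finset.prod_pow_eq_pow_sum]
    rw [← prod_sum_pi fun _ (y : Fin 2) => (3 / 4 : ℝ) ^ (y : ℕ)]
    simp only [Fin.sum_univ_two, Finset.prod_const, Finset.card_univ, Fintype.card_fin]
    norm_num
  have h2 : ((univ.filter fun s : Fin (140 * v) → Fin 2 => wt s ≤ 60 * v).card : ℝ)
      * (3 / 4) ^ (60 * v) ≤ (7 / 4) ^ (140 * v) := by
    rw [← h1, ← nsmul_eq_mul]
    refine (Finset.card_nsmul_le_sum _ (fun s => (3 / 4 : ℝ) ^ wt s) _ fun s hs => ?_).trans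
      (Finset.sum_le_sum_of_subset_of_nonneg (Finset.filter_subset _ _) fun _ _ _ => by positivity)
    exact pow_le_pow_of_le_one (by norm_num) (by norm_num) (Finset.mem_filter.1 hs).2
  have h3 : (7 / 4 : ℝ) ^ (140 * v) ≤ 2 ^ (138 * v) * (3 / 4) ^ (60 * v) := by
    rw [pow_mul, pow_mul, pow_mul, ← mul_pow]
    exact pow_le_pow_left₀ (by positivity) (by norm_num) v
  exact_mod_cast le_of_mul_le_mul_right (h2.trans h3) (by positivity)

lemma card_high (v : ℕ) :
    ∑ a : Fin (140 * v) → Fin 2, (univ.filter fun b => 120 * v < idx a b).card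
      ≤ 2 ^ (279 * v) := by
  have h1 : ∑ a : Fin (140 * v) → Fin 2, ∑ b : Fin (140 * v) → Fin 2, (7 / 6 : ℝ) ^ idx a b
      = (163 / 36) ^ (140 * v) := by
    simp only [idx, ← Finset.prod_pow_eq_pow_sum]
    have : ∀ a : Fin (140 * v) → Fin 2, ∑ b : Fin (140 * v) → Fin 2,
        ∏ i, (7 / 6 : ℝ) ^ ix (a i) (b i) = ∏ i, ∑ y, (7 / 6 : ℝ) ^ ix (a i) y := fun a =>
      (prod_sum_pi fun i y => (7 / 6 : ℝ) ^ ix (a i) y).symm
    simp only [this]
    rw [← prod_sum_pi fun _ (x : Fin 2) => ∑ y, (7 / 6 : ℝ) ^ ix x y]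
    simp only [Fin.sum_univ_two, Finset.prod_const, Finset.card_univ, Fintype.card_fin, ix]
    norm_num
  have h2 : ((∑ a : Fin (140 * v) → Fin 2,
      (univ.filter fun b => 120 * v < idx a b).card : ℕ) : ℝ) * (7 / 6) ^ (120 * v)
      ≤ (163 / 36) ^ (140 * v) := by
    rw [← h1, Nat.cast_sum, Finset.sum_mul]
    refine Finset.sum_le_sum fun a _ => ?_
    rw [← nsmul_eq_mul]
    refine (Finset.card_nsmul_le_sum _ (fun b => (7 / 6 : ℝ) ^ idx a b) _ fun s hs => ?_).trans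
      (Finset.sum_le_sum_of_subset_of_nonneg (Finset.filter_subset _ _) fun _ _ _ => by positivity)
    exact pow_le_pow_right₀ (by norm_num) (Finset.mem_filter.1 hs).2.le
  have h3 : (163 / 36 : ℝ) ^ (140 * v) ≤ 2 ^ (279 * v) * (7 / 6) ^ (120 * v) := by
    rw [pow_mul, pow_mul, pow_mul, ← mul_pow, show 279 = 140 + 139 from rfl, pow_add]
    exact pow_le_pow_left₀ (by positivity) (by norm_num) v
  exact_mod_cast le_of_mul_le_mul_right (h2.trans h3) (by positivity)

end Pool.Agent.Work.MP_97f157_lc.Sos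
end

-- merged part: Pool.Agent.Work.MP_97f157_lc.SosC
section
/-! Few sparse squares for a polynomial with many real roots. -/

namespace Pool.Agent.Work.MP_97f157_lc.Sos

open Finset Polynomial

/-- the polynomial with coefficient matrix `M` -/
noncomputable def Bil {B : Type*} [Fintype B] (α β : B → ℕ) (M : B → B → ℝ) : ℝ[X] :=
  ∑ a, ∑ b, C (M a b) * X ^ (α a + β b)

section
variable {B : Type*} [Fintype B] (α β : B → ℕ)

lemma Bil_add (M M' : B → B → ℝ) :
    Bil α β (fun a b => M a b + M' a b) = Bil α β M + Bil α β M' := by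
  simp only [Bil, C_add, add_mul, Finset.sum_add_distrib]

lemma Bil_sum {σ : Type*} (S : Finset σ) (M : σ → B → B → ℝ) :
    Bil α β (fun a b => ∑ s ∈ S, M s a b) = ∑ s ∈ S, Bil α β (M s) := by
  simp only [Bil, map_sum, Finset.sum_mul]
  rw [Finset.sum_comm (s := S)]
  refine Finset.sum_congr rfl fun a _ => ?_
  rw [Finset.sum_comm]

lemma sq_rank_one {t : ℕ} (ht : 0 < t) (u w : B → ℝ) :
    Sq (2 * t) (2 * (Fintype.card B / t + 1) * (Fintype.card B / t + 1))
      (Bil α β fun a b => u a * w b) := by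
  have e : (Bil α β fun a b => u a * w b)
      = (∑ a, C (u a) * X ^ α a) * ∑ b, C (w b) * X ^ β b := by
    rw [Bil, Finset.sum_mul_sum]
    refine Finset.sum_congr rfl fun a _ => Finset.sum_congr rfl fun b _ => ?_
    rw [C_mul, pow_add]
    ring
  rw [e]
  exact sq_mul_big ht ((supp_sum_monomial _ _ _).trans (Finset.card_filter_le _ _))
    ((supp_sum_monomial _ _ _).trans (Finset.card_filter_le _ _))

lemma sq_sparse {t : ℕ} (ht : 0 < t) (M : B → B → ℝ) (s : B → ℕ)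
    (hs : ∀ a, (univ.filter fun b => M a b ≠ 0).card ≤ s a) :
    Sq (2 * t) (∑ a, 2 * (1 / t + 1) * (s a / t + 1)) (Bil α β M) := by
  refine Sq.sum univ fun a _ => ?_
  have e : ∑ b, C (M a b) * X ^ (α a + β b) = X ^ α a * ∑ b, C (M a b) * X ^ β b := by
    rw [Finset.mul_sum]
    refine Finset.sum_congr rfl fun b _ => ?_
    rw [pow_add]
    ring
  rw [e]
  refine sq_mul_big ht ?_ ((supp_sum_monomial _ _ _).trans (hs a))
  rw [support_X_pow]
  simp

end

theorem hankel_sq (v : ℕ) (α β : (Fin (140 * v) → Fin 2) → ℕ)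
    (H : (Fin (140 * v) → Fin 3) → ℝ) (r c : (Fin (140 * v) → Fin 2) → ℝ) :
    ∃ k, k * (2 * 2 ^ (139 * v)) ≤ 48 * 2 ^ (279 * v) ∧ Sq (2 * 2 ^ (139 * v)) k
      (Bil α β fun a b => r a * c b * H fun i => ad (a i) (b i)) := by
  classical
  obtain ⟨κ, hκ, hL⟩ := clp H (120 * v)
  set Lo := univ.filter fun s : Fin (140 * v) → Fin 2 => wt s ≤ 60 * v with hLo
  set Hi := univ.filter fun s : Fin (140 * v) → Fin 2 => ¬ wt s ≤ 60 * v with hHi
  have ht : 0 < 2 ^ (139 * v) := by positivity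
  have e1 : ∀ a b, ∑ s, ∑ t, κ s t * (chi s a * chi t b)
      = ∑ s ∈ Lo, chi s a * ∑ t, κ s t * chi t b
        + ∑ t ∈ Lo, (∑ s ∈ Hi, κ s t * chi s a) * chi t b := by
    intro a b
    rw [← Finset.sum_filter_add_sum_filter_not univ fun s => wt s ≤ 60 * v]
    congr 1
    · refine Finset.sum_congr rfl fun s _ => ?_
      rw [Finset.mul_sum]
      exact Finset.sum_congr rfl fun t _ => by ring
    · simp only [Finset.sum_mul]
      rw [Finset.sum_comm (s := Lo)]
      refine Finset.sum_congr rfl fun s hs => ?_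
      rw [hLo, Finset.sum_filter]
      refine Finset.sum_congr rfl fun t _ => ?_
      split_ifs with h
      · ring
      · rw [hκ s t (by have := (Finset.mem_filter.1 hs).2; omega), zero_mul]
  have e2 : (fun a b => r a * c b * H fun i => ad (a i) (b i)) = fun a b =>
      (∑ s ∈ Lo, (r a * chi s a) * (c b * ∑ t, κ s t * chi t b)
        + ∑ t ∈ Lo, (r a * ∑ s ∈ Hi, κ s t * chi s a) * (c b * chi t b))
      + r a * c b * ((H fun i => ad (a i) (b i)) - ∑ s, ∑ t, κ s t * (chi s a * chi t b)) := by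
    funext a b
    rw [e1, mul_sub, mul_add, Finset.mul_sum, Finset.mul_sum]
    have h1 : ∑ s ∈ Lo, (r a * chi s a) * (c b * ∑ t, κ s t * chi t b)
        = ∑ s ∈ Lo, r a * c b * (chi s a * ∑ t, κ s t * chi t b) :=
      Finset.sum_congr rfl fun _ _ => by ring
    have h2 : ∑ t ∈ Lo, (r a * ∑ s ∈ Hi, κ s t * chi s a) * (c b * chi t b)
        = ∑ t ∈ Lo, r a * c b * ((∑ s ∈ Hi, κ s t * chi s a) * chi t b) :=
      Finset.sum_congr rfl fun _ _ => by ring
    rw [h1, h2]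
    ring
  rw [e2, Bil_add, Bil_add, Bil_sum, Bil_sum]
  refine ⟨_, ?_, ((Sq.sum Lo fun s _ => sq_rank_one α β ht _ _).add
    (Sq.sum Lo fun s _ => sq_rank_one α β ht _ _)).add
    (sq_sparse α β ht _ (fun a => (univ.filter fun b => 120 * v < idx a b).card) fun a =>
      Finset.card_le_card fun b hb => ?_)⟩
  · have hc : Fintype.card (Fin (140 * v) → Fin 2) = 2 ^ v * 2 ^ (139 * v) := by
      rw [Fintype.card_fun, Fintype.card_fin, Fintype.card_fin, ← pow_add]
      congr 1; ring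
    have h1 := card_low v
    have h2 := card_high v
    rw [← hLo] at h1
    have h3 : 1 ≤ 2 ^ v := Nat.one_le_two_pow
    have h4 : ∑ a : Fin (140 * v) → Fin 2, 2 * (1 / 2 ^ (139 * v) + 1) *
        ((univ.filter fun b => 120 * v < idx a b).card / 2 ^ (139 * v) + 1) * (2 * 2 ^ (139 * v))
        ≤ ∑ a : Fin (140 * v) → Fin 2,
          (8 * (univ.filter fun b => 120 * v < idx a b).card + 8 * 2 ^ (139 * v)) := by
      refine Finset.sum_le_sum fun a _ => ?_
      have h5 := Nat.div_mul_le_self (univ.filter fun b => 120 * v < idx a b).card (2 ^ (139 * v))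
      have h6 : 1 / 2 ^ (139 * v) ≤ 1 := Nat.div_le_self _ _
      generalize (univ.filter fun b => 120 * v < idx a b).card / 2 ^ (139 * v) = q at *
      generalize 1 / 2 ^ (139 * v) = u at *
      calc 2 * (u + 1) * (q + 1) * (2 * 2 ^ (139 * v))
          ≤ 2 * (1 + 1) * (q + 1) * (2 * 2 ^ (139 * v)) := by gcongr
        _ = 8 * (q * 2 ^ (139 * v)) + 8 * 2 ^ (139 * v) := by ring
        _ ≤ _ := by omega
    rw [Finset.sum_add_distrib, ← Finset.mul_sum, Finset.sum_const, Finset.card_univ, hc,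
      smul_eq_mul, ← Finset.sum_mul] at h4
    rw [Finset.sum_const, smul_eq_mul, hc, Nat.mul_div_cancel _ ht, add_mul]
    have h5 : (Lo.card * (2 * (2 ^ v + 1) * (2 ^ v + 1)) + Lo.card * (2 * (2 ^ v + 1) * (2 ^ v + 1)))
        * (2 * 2 ^ (139 * v)) ≤ 32 * 2 ^ (279 * v) := by
      have h6 : 2 ^ v + 1 ≤ 2 * 2 ^ v := by omega
      calc _ ≤ (2 ^ (138 * v) * (2 * (2 * 2 ^ v) * (2 * 2 ^ v))
            + 2 ^ (138 * v) * (2 * (2 * 2 ^ v) * (2 * 2 ^ v))) * (2 * 2 ^ (139 * v)) := by gcongr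
        _ = _ := by ring
    have e3 : 2 ^ v * 2 ^ (139 * v) * (8 * 2 ^ (139 * v)) = 8 * 2 ^ (279 * v) := by ring
    omega
  · rw [Finset.mem_filter] at hb ⊢
    refine ⟨hb.1, ?_⟩
    by_contra h
    exact hb.2 (by rw [hL a b (not_lt.1 h), sub_self, mul_zero])

lemma V_eq (d : ℕ) : ∃ (α β : (Fin d → Fin 2) → ℕ) (H : (Fin d → Fin 3) → ℝ)
    (r c : (Fin d → Fin 2) → ℝ),
    V (2 ^ d * 2 ^ d) = Bil α β fun a b => r a * c b * H fun i => ad (a i) (b i) := by
  set n : ℕ := 2 ^ d with hn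
  set R : ℝ := ((n * n : ℕ) : ℝ) + 1 with hR
  have hR0 : R ≠ 0 := by positivity
  set val : (Fin d → Fin 2) → ℕ := fun a => (finFunctionFinEquiv a : ℕ) with hval
  refine ⟨val, fun b => n * val b, fun z => R ^ (-(n : ℤ) * ((∑ i, (z i : ℕ) * 2 ^ (i : ℕ) : ℕ) : ℤ) ^ 2),
    fun a => (-1) ^ val a * R ^ (((n : ℤ) - 1) * (val a : ℤ) ^ 2),
    fun b => (-1) ^ (n * val b) * R ^ (((n : ℤ) - n ^ 2) * (val b : ℤ) ^ 2), ?_⟩
  rw [V, Finset.sum_range, ← finProdFinEquiv.sum_comp, Fintype.sum_prod_type, Finset.sum_comm, Bil,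
    ← (finFunctionFinEquiv (m := 2) (n := d)).sum_comp]
  refine Finset.sum_congr rfl fun a _ => ?_
  rw [← (finFunctionFinEquiv (m := 2) (n := d)).sum_comp]
  refine Finset.sum_congr rfl fun b _ => ?_
  have e1 : ((finProdFinEquiv (finFunctionFinEquiv b, finFunctionFinEquiv a) : Fin (n * n)) : ℕ)
      = val a + n * val b := rfl
  have e2 : ∑ i, (ad (a i) (b i) : ℕ) * 2 ^ (i : ℕ) = val a + val b := by
    simp only [hval, finFunctionFinEquiv_apply, ad, add_mul, Finset.sum_add_distrib]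
  beta_reduce
  rw [e1, e2, ← hR]
  congr 2
  have e3 : -((val a + n * val b : ℕ) : ℤ) ^ 2 = ((n : ℤ) - 1) * (val a : ℤ) ^ 2
      + ((n : ℤ) - n ^ 2) * (val b : ℤ) ^ 2 + -(n : ℤ) * ((val a + val b : ℕ) : ℤ) ^ 2 := by
    push_cast
    ring
  rw [e3, zpow_add₀ hR0, zpow_add₀ hR0, pow_add]
  ring

theorem main (v : ℕ) : ∃ (k t : ℕ) (c : Fin k → ℝ) (g : Fin k → ℝ[X]),
    (∀ i, (g i).support.card ≤ t) ∧ ∑ i, C (c i) * g i ^ 2 ≠ 0 ∧ k * t ≤ 48 * 2 ^ (279 * v) ∧
      2 ^ (280 * v) ≤ (∑ i, C (c i) * g i ^ 2).roots.toFinset.card + 1 := by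
  obtain ⟨α, β, H, r, c, hV⟩ := V_eq (140 * v)
  obtain ⟨k, hk, hsq⟩ := hankel_sq v α β H r c
  rw [← hV] at hsq
  obtain ⟨c', g, hg, he⟩ := hsq.fin
  obtain ⟨h1, h2⟩ := V_roots (N := 2 ^ (140 * v) * 2 ^ (140 * v)) (by positivity)
  refine ⟨k, _, c', g, hg, he ▸ h1, hk, ?_⟩
  rw [← he]
  refine le_trans (le_of_eq ?_) h2
  ring

end Pool.Agent.Work.MP_97f157_lc.Sos
end
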