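import Mathlib
import Pool.Agent.Work.MP_97f157_lc.Reduce
import Pool.Agent.Work.MP_97f157_lc.Shor

set_option autoImplicit false

open Polynomial Finset Filter Topology

namespace Pool.Agent.Work.MP_97f157_lc

lemma exists_cut {ι Ω : Type} [Fintype ι] [Fintype Ω] [DecidableEq ι] (a b : Ω → ι)
    (h : ∀ ω, a ω ≠ b ω) :
    ∃ σ : ι → Bool, Fintype.card Ω ≤ 2 * (Finset.univ.filter (fun ω => σ (a ω) ≠ σ (b ω))).card := by
  classical
  have h1 : ∀ ω, Fintype.card (ι → Bool) ≤
      2 * (Finset.univ.filter (fun σ : ι → Bool => σ (a ω) ≠ σ (b ω))).card := by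
    intro ω
    have h2 : (Finset.univ.filter (fun σ : ι → Bool => ¬ (σ (a ω) ≠ σ (b ω)))).card ≤
        (Finset.univ.filter (fun σ : ι → Bool => σ (a ω) ≠ σ (b ω))).card := by
      apply Finset.card_le_card_of_injOn (fun σ => Function.update σ (a ω) (!σ (a ω)))
      · intro σ hσ
        simp only [Finset.coe_filter, Finset.mem_univ, true_and, Set.mem_ofPred_eq, not_not] at hσ ⊢
        rw [Function.update_self, Function.update_of_ne (h ω).symm, hσ]
        simp
      · intro σ _ τ _ hst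
        funext i
        have := congrFun hst i
        by_cases hi : i = a ω
        · subst hi
          simpa using this
        · simpa [Function.update_of_ne hi] using this
    have h3 := Finset.card_filter_add_card_filter_not (s := (Finset.univ : Finset (ι → Bool)))
      (fun σ : ι → Bool => σ (a ω) ≠ σ (b ω))
    rw [Finset.card_univ] at h3
    omega
  have h4 : ∑ σ : ι → Bool, Fintype.card Ω ≤
      ∑ σ : ι → Bool, 2 * (Finset.univ.filter (fun ω => σ (a ω) ≠ σ (b ω))).card := by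
    rw [← Finset.mul_sum]
    have h5 : ∑ σ : ι → Bool, (Finset.univ.filter (fun ω => σ (a ω) ≠ σ (b ω))).card
        = ∑ ω, (Finset.univ.filter (fun σ : ι → Bool => σ (a ω) ≠ σ (b ω))).card := by
      simp only [Finset.card_filter]
      exact Finset.sum_comm
    rw [h5, Finset.mul_sum]
    calc ∑ σ : ι → Bool, Fintype.card Ω = ∑ _ω : Ω, Fintype.card (ι → Bool) := by
          simp [mul_comm]
      _ ≤ _ := Finset.sum_le_sum (fun ω _ => h1 ω)
  obtain ⟨σ, _, hσ⟩ := Finset.exists_le_of_sum_le Finset.univ_nonempty h4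
  exact ⟨σ, hσ⟩

lemma card_support_monomial_le (c : ℝ) (n : ℕ) : (C c * X ^ n : ℝ[X]).support.card ≤ 1 :=
  Polynomial.card_support_C_mul_X_pow_le_one

/-- The denominator attached to a segment. -/
noncomputable def den (p q a ρ : ℝ) (B T : ℕ) (s : ℝ) : ℝ :=
  (Real.exp (T * (q + B * p)) + Real.exp (T * (q - a * p)) * Real.exp ((⌊T * a⌋ + T * B) * s)) *
    (1 + Real.exp (-(T * (a + B) * ρ)) * Real.exp ((⌊T * a⌋ + T * B) * s))

lemma den_pos (p q a ρ : ℝ) (B T : ℕ) (s : ℝ) : 0 < den p q a ρ B T s := by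
  unfold den; positivity

lemma floor_err (y s : ℝ) : |(⌊y⌋ : ℝ) * s - y * s| ≤ |s| := by
  rw [← sub_mul, abs_mul]
  have h1 := Int.floor_le y
  have h2 := Int.lt_floor_add_one y
  have : |(⌊y⌋ : ℝ) - y| ≤ 1 := by rw [abs_le]; constructor <;> linarith
  exact mul_le_of_le_one_left (abs_nonneg _) this

lemma den_le (p q a ρ : ℝ) (B T : ℕ) (s : ℝ) (h1 : p ≤ s) (h2 : s ≤ ρ) (ha : 0 ≤ a + B) :
    den p q a ρ B T s ≤ Real.exp (T * (q + a * (s - p) + B * s) + 2 * |s|) * 4 := by
  unfold den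
  have hT : (0 : ℝ) ≤ T := by positivity
  have h0 := (abs_le.1 (floor_err (T * a) s)).2
  have hs := abs_nonneg s
  rw [← Real.exp_add, ← Real.exp_add]
  have e1 : Real.exp (T * (q + B * p)) ≤ Real.exp (T * (q + a * (s - p) + B * s) + |s|) := by
    apply Real.exp_le_exp.2
    have h3 : 0 ≤ T * ((a + B) * (s - p)) := mul_nonneg hT (mul_nonneg ha (by linarith))
    linarith
  have e3 : Real.exp (T * (q - a * p) + (⌊T * a⌋ + T * B) * s) ≤
      Real.exp (T * (q + a * (s - p) + B * s) + |s|) := Real.exp_le_exp.2 (by linarith)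
  have e2 : Real.exp (-(T * (a + B) * ρ) + (⌊T * a⌋ + T * B) * s) ≤ Real.exp |s| := by
    apply Real.exp_le_exp.2
    have h3 : 0 ≤ T * ((a + B) * (ρ - s)) := mul_nonneg hT (mul_nonneg ha (by linarith))
    linarith
  have e4 : 1 ≤ Real.exp |s| := Real.one_le_exp hs
  have e5 := mul_le_mul (add_le_add e1 e3) (add_le_add e4 e2) (by positivity) (by positivity)
  refine e5.trans (le_of_eq ?_)
  rw [two_mul |s|, ← add_assoc, Real.exp_add _ |s|, Real.exp_add (_ + |s|) |s|, Real.exp_add _ |s|]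
  ring

lemma le_den (p q a ρ : ℝ) (B T : ℕ) (s d : ℝ)
    (hd : d = 0 ∨ d = (a + B) * (p - s) ∨ d = (a + B) * (s - ρ)) :
    Real.exp (T * (q + a * (s - p) + B * s + d) - 2 * |s|) ≤ den p q a ρ B T s := by
  unfold den
  have h0 := (abs_le.1 (floor_err (T * a) s)).1
  have hs := abs_nonneg s
  rw [← Real.exp_add, ← Real.exp_add]
  have p1 := Real.exp_pos (T * (q + B * p))
  have p2 := Real.exp_pos (T * (q - a * p) + (⌊T * a⌋ + T * B) * s)
  have p3 := Real.exp_pos (-(T * (a + B) * ρ) + (⌊T * a⌋ + T * B) * s)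
  have p4 := mul_pos p2 p3
  have p5 := mul_pos p1 p3
  rw [add_mul, mul_add (Real.exp _), mul_add (Real.exp _), mul_one, mul_one]
  rcases hd with rfl | rfl | rfl
  · have : Real.exp (T * (q + a * (s - p) + B * s + 0) - 2 * |s|) ≤
        Real.exp (T * (q - a * p) + (⌊T * a⌋ + T * B) * s) := Real.exp_le_exp.2 (by linarith)
    linarith
  · have : Real.exp (T * (q + a * (s - p) + B * s + (a + B) * (p - s)) - 2 * |s|) ≤
        Real.exp (T * (q + B * p)) := Real.exp_le_exp.2 (by linarith)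
    linarith
  · have : Real.exp (T * (q + a * (s - p) + B * s + (a + B) * (s - ρ)) - 2 * |s|) ≤
        Real.exp (T * (q - a * p) + (⌊T * a⌋ + T * B) * s) *
          Real.exp (-(T * (a + B) * ρ) + (⌊T * a⌋ + T * B) * s) := by
      rw [← Real.exp_add]
      exact Real.exp_le_exp.2 (by linarith)
    linarith

lemma den_binomials (p q a ρ : ℝ) (B T : ℕ) (ha : 0 < a + B) (hT : 0 < T) (hρ : p < ρ) :
    ∃ (f : Bool → ℝ[X]) (w : Bool → ℝ), (∀ b (c : ℝ), (f b + C c).support.card ≤ 2) ∧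
      (∀ b s, 0 < (f b).eval (Real.exp s)) ∧ ∀ s : ℝ,
        ∑ b, w b / (f b).eval (Real.exp s) = 1 / den p q a ρ B T s := by
  have hT' : (0 : ℝ) < T := by exact_mod_cast hT
  have h1 : 0 ≤ ⌊T * a⌋ + T * B := by
    have : ⌊T * a + ((T * B : ℕ) : ℝ)⌋ = ⌊T * a⌋ + ((T * B : ℕ) : ℤ) := Int.floor_add_natCast _ _
    push_cast at this
    rw [← this]
    apply Int.floor_nonneg.2
    nlinarith
  obtain ⟨n, hn⟩ := Int.eq_ofNat_of_zero_le h1
  have hn' : (⌊T * a⌋ : ℝ) + T * B = n := by exact_mod_cast hn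
  set c1 := Real.exp (T * (q + B * p)) with hc1
  set c2 := Real.exp (T * (q - a * p)) with hc2
  set c4 := Real.exp (-(T * (a + B) * ρ)) with hc4
  have p1 : 0 < c1 := Real.exp_pos _
  have p2 : 0 < c2 := Real.exp_pos _
  have p4 : 0 < c4 := Real.exp_pos _
  have hne : c2 - c1 * c4 ≠ 0 := by
    apply ne_of_gt
    rw [sub_pos, hc1, hc4, ← Real.exp_add]
    apply Real.exp_lt_exp.2
    have : 0 < T * ((a + B) * (ρ - p)) := mul_pos hT' (mul_pos ha (by linarith))
    linarith
  have hb : ∀ (x y c : ℝ), (C x + C y * X ^ n + C c : ℝ[X]).support.card ≤ 2 := by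
    intro x y c
    have : (C x + C y * X ^ n + C c : ℝ[X]) = C (x + c) + C y * X ^ n := by
      rw [C_add]; ring
    rw [this]
    have h2 := card_support_add_le' (C (x + c)) (C y * X ^ n)
    have h3 := card_support_C_le (x + c)
    have h4 := card_support_monomial_le y n
    omega
  refine ⟨fun b => if b then C c1 + C c2 * X ^ n else C 1 + C c4 * X ^ n,
    fun b => if b then c2 / (c2 - c1 * c4) else -c4 / (c2 - c1 * c4), ?_, ?_, ?_⟩
  · intro b c
    cases b
    · exact hb _ _ _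
    · exact hb _ _ _
  · intro b s
    cases b <;> simp <;> positivity
  · intro s
    unfold den
    rw [hn', ← hc1, ← hc2, ← hc4, Real.exp_nat_mul]
    have p5 : 0 < Real.exp s ^ n := by positivity
    have q1 : c1 + c2 * Real.exp s ^ n ≠ 0 := by positivity
    have q2 : 1 + c4 * Real.exp s ^ n ≠ 0 := by positivity
    simp only [Fintype.sum_bool, if_true, Bool.false_eq_true, if_false, eval_add, eval_mul, eval_C,
      eval_pow, eval_X]
    field_simp
    ring

lemma dominance {ι : Type} [Fintype ι] [DecidableEq ι] (D : ι → ℝ) (hD : ∀ i, 0 < D i) (j : ι)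
    (h : ∀ i, i ≠ j → D j * Fintype.card ι < D i) (σ : ι → ℝ) (hσ : ∀ i, σ i = 1 ∨ σ i = -1) :
    0 < σ j * ∑ i, σ i / D i := by
  rw [← Finset.add_sum_erase _ _ (Finset.mem_univ j), mul_add]
  have hn : (0 : ℝ) < Fintype.card ι := by
    have : 0 < Fintype.card ι := Fintype.card_pos_iff.2 ⟨j⟩
    exact_mod_cast this
  have h1 : σ j * (σ j / D j) = 1 / D j := by
    rcases hσ j with h | h <;> rw [h] <;> ring
  have h2 : ∀ i ∈ Finset.univ.erase j, -(1 / (D j * Fintype.card ι)) ≤ σ j * (σ i / D i) := by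
    intro i hi
    have h3 := h i (Finset.ne_of_mem_erase hi)
    have h4 : 1 / D i ≤ 1 / (D j * Fintype.card ι) :=
      one_div_le_one_div_of_le (mul_pos (hD j) hn) h3.le
    have h5 : 0 < 1 / D i := one_div_pos.2 (hD i)
    have h6 : σ j * (σ i / D i) = (σ j * σ i) * (1 / D i) := by ring
    rw [h6]
    rcases hσ j with h | h <;> rcases hσ i with h' | h' <;> rw [h, h'] <;> linarith
  have h3 := Finset.card_nsmul_le_sum _ _ _ h2
  rw [Finset.card_erase_of_mem (Finset.mem_univ j), Finset.card_univ, nsmul_eq_mul,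
    ← Finset.mul_sum] at h3
  have h4 : ((Fintype.card ι - 1 : ℕ) : ℝ) = Fintype.card ι - 1 := by
    have : 1 ≤ Fintype.card ι := Fintype.card_pos_iff.2 ⟨j⟩
    push_cast [this]; ring
  rw [h4] at h3
  have h5 : (Fintype.card ι - 1 : ℝ) * -(1 / (D j * Fintype.card ι))
      = -(1 / D j) + 1 / (D j * Fintype.card ι) := by
    have := (hD j).ne'
    field_simp
    ring
  have h6 : 0 < 1 / (D j * Fintype.card ι) := one_div_pos.2 (mul_pos (hD j) hn)
  rw [h1]
  linarith

theorem superlinear (c : ℕ) :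
    ∃ (m : ℕ) (F : Fin 2 → Fin m → ℝ[X]), 1 ≤ m ∧ (∀ i j, (F i j).support.card ≤ 2) ∧
      ∑ i, ∏ j, F i j ≠ 0 ∧ c * m ≤ (∑ i, ∏ j, F i j).roots.toFinset.card := by
  classical
  obtain ⟨Φ, Ω, _, _, S, W, hS, hf, hc⟩ := hasCfg (12 * c + 4) {0}
  simp only [Finset.card_singleton, mul_one] at hc
  have hsu : ∀ ω, (W.su ω).2 = 0 := fun ω => Finset.mem_singleton.1 (hS.lowu ω).1
  have hsv : ∀ ω, (W.sv ω).2 = 0 := fun ω => Finset.mem_singleton.1 (hS.lowv ω).1
  obtain ⟨σ0, hσ0⟩ := exists_cut (fun ω => (W.su ω).1) (fun ω => (W.sv ω).1) (by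
    intro ω h
    exact hS.ne ω (Prod.ext h ((hsu ω).trans (hsv ω).symm)))
  set σ : Φ → ℝ := fun φ => if σ0 φ then 1 else -1 with hσdef
  have hσ : ∀ φ, σ φ = 1 ∨ σ φ = -1 := by
    intro φ; simp only [hσdef]; split_ifs <;> simp
  -- samples
  set z : Ω ⊕ Ω → ℝ := Sum.elim W.u W.v with hz
  set sy : Ω ⊕ Ω → Φ := Sum.elim (fun ω => (W.su ω).1) (fun ω => (W.sv ω).1) with hsy
  have hlow : ∀ o, S.Low {0} (z o) (sy o, 0) := by
    rintro (ω | ω)
    · have := hS.lowu ω
      rwa [show W.su ω = ((W.su ω).1, 0) from Prod.ext rfl (hsu ω)] at this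
    · have := hS.lowv ω
      rwa [show W.sv ω = ((W.sv ω).1, 0) from Prod.ext rfl (hsv ω)] at this
  obtain ⟨B, hB0, hB⟩ : ∃ B : ℕ, (∀ φ, 0 < S.a φ 0 + B) ∧ ∀ o φ, φ ≠ sy o →
      ∃ d, (d = 0 ∨ d = (S.a φ 0 + B) * (S.p φ - z o) ∨ d = (S.a φ 0 + B) * (z o - S.ρ φ 0)) ∧
      S.val (sy o, 0) (z o) < S.val (φ, 0) (z o) + d := by
    apply Filter.Eventually.exists (f := atTop)
    apply Filter.Eventually.and
    · rw [Filter.eventually_all]; intro φ
      filter_upwards [tendsto_natCast_atTop_atTop.eventually (eventually_gt_atTop (-S.a φ 0))]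
        with B hB
      linarith
    rw [Filter.eventually_all]; intro o
    rw [Filter.eventually_all]; intro φ
    rw [Filter.eventually_all]; intro hφ
    have hev : ∀ d e : ℝ, 0 < d → ∀ᶠ B : ℕ in atTop,
        S.val (sy o, 0) (z o) < S.val (φ, 0) (z o) + (e + B) * d := by
      intro d e hd
      have := tendsto_natCast_atTop_atTop.eventually
        (ev_top d (S.val (sy o, 0) (z o) - S.val (φ, 0) (z o) - e * d) hd)
      filter_upwards [this] with B hB
      linarith
    by_cases h1 : S.p φ ≤ z o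
    · by_cases h2 : z o ≤ S.ρ φ 0
      · apply Filter.Eventually.of_forall
        intro B
        refine ⟨0, Or.inl rfl, ?_⟩
        have := (hlow o).2.2.2 (φ, 0) (by simp) (fun h => hφ (congrArg Prod.fst h)) h1 h2
        simpa using this
      · filter_upwards [hev _ (S.a φ 0) (sub_pos.2 (not_le.1 h2))] with B hB
        exact ⟨_, Or.inr (Or.inr rfl), hB⟩
    · filter_upwards [hev _ (S.a φ 0) (sub_pos.2 (not_le.1 h1))] with B hB
      exact ⟨_, Or.inr (Or.inl rfl), hB⟩
  obtain ⟨T, hT0, hT⟩ : ∃ T : ℕ, 0 < T ∧ ∀ o φ, φ ≠ sy o →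
      den (S.p (sy o)) (S.q (sy o)) (S.a (sy o) 0) (S.ρ (sy o) 0) B T (z o) * Fintype.card Φ <
        den (S.p φ) (S.q φ) (S.a φ 0) (S.ρ φ 0) B T (z o) := by
    apply Filter.Eventually.exists (f := atTop)
    refine (eventually_gt_atTop 0).and ?_
    rw [Filter.eventually_all]; intro o
    rw [Filter.eventually_all]; intro φ
    rw [Filter.eventually_all]; intro hφ
    obtain ⟨d, hd, hlt⟩ := hB o φ hφ
    have := tendsto_natCast_atTop_atTop.eventually
      (ev_top _ (4 * |z o| + 4 * Fintype.card Φ) (sub_pos.2 hlt))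
    filter_upwards [this] with T hT
    refine lt_of_lt_of_le ?_ (le_den _ _ _ _ B T _ d hd)
    have h1 := den_le (S.p (sy o)) (S.q (sy o)) (S.a (sy o) 0) (S.ρ (sy o) 0) B T (z o)
      (hlow o).2.1.le (hlow o).2.2.1.le (hB0 _).le
    refine lt_of_le_of_lt (mul_le_mul_of_nonneg_right h1 (by positivity)) ?_
    have h2 : (4 : ℝ) * Fintype.card Φ < Real.exp (4 * Fintype.card Φ) := by
      have := Real.add_one_le_exp (4 * (Fintype.card Φ : ℝ))
      linarith
    rw [mul_assoc]
    refine lt_of_lt_of_le (mul_lt_mul_of_pos_left h2 (Real.exp_pos _)) ?_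
    rw [← Real.exp_add]
    apply Real.exp_le_exp.2
    simp only [Fans.val] at hT
    linarith
  set D : Φ → ℝ → ℝ := fun φ s => den (S.p φ) (S.q φ) (S.a φ 0) (S.ρ φ 0) B T s with hD
  have hDpos : ∀ φ s, 0 < D φ s := fun φ s => den_pos _ _ _ _ _ _ _
  have hdom : ∀ o, 0 < σ (sy o) * ∑ φ, σ φ / D φ (z o) := fun o =>
    dominance (fun φ => D φ (z o)) (fun φ => hDpos φ _) (sy o) (hT o) σ hσ
  choose f w hf2 hfpos hfe using fun φ => den_binomials (S.p φ) (S.q φ) (S.a φ 0) (S.ρ φ 0) B T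
    (hB0 φ) hT0 (hS.lt φ 0 (by simp))
  set y : Φ × Bool → ℝ → ℝ := fun i s => σ i.1 * w i.1 i.2 / (f i.1 i.2).eval (Real.exp s) with hy
  have hsum : ∀ s, ∑ i, y i s = ∑ φ, σ φ / D φ s := by
    intro s
    rw [Fintype.sum_prod_type]
    apply Finset.sum_congr rfl
    intro φ _
    simp only [hy, mul_div_assoc]
    rw [← Finset.mul_sum, hfe, mul_one_div]
  obtain ⟨ε, hε⟩ : ∃ ε : ℝ, ∀ o, 0 < (∏ i, (1 + ε * y i (z o)) - 1) * ∑ i, y i (z o) := by
    apply Filter.Eventually.exists (f := 𝓝[>] 0)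
    rw [Filter.eventually_all]; intro o
    exact eventually_sign _ _ (by rw [hsum]; exact right_ne_zero_of_mul (hdom o).ne')
  set n := Fintype.card (Φ × Bool) with hn
  have hn2 : n = 2 * Fintype.card Φ := by simp [hn, mul_comm]
  set eq : Fin n ≃ Φ × Bool := (Fintype.equivFin (Φ × Bool)).symm with heq
  set F : Fin 2 → Fin (n + 1) → ℝ[X] :=
    ![Fin.cons (C 1) (fun j => f (eq j).1 (eq j).2 + C (ε * (σ (eq j).1 * w (eq j).1 (eq j).2))),
      Fin.cons (C (-1)) (fun j => f (eq j).1 (eq j).2)] with hF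
  set G := ∑ i, ∏ j, F i j with hG
  have hGe : ∀ s, G.eval (Real.exp s) = (∏ i : Φ × Bool, (f i.1 i.2).eval (Real.exp s)) *
      (∏ i, (1 + ε * y i s) - 1) := by
    intro s
    rw [hG, Fin.sum_univ_two]
    simp only [hF, Matrix.cons_val_zero, Matrix.cons_val_one, Fin.prod_univ_succ, Fin.cons_zero,
      Fin.cons_succ, eval_add, eval_mul, eval_C, Polynomial.eval_prod]
    rw [Equiv.prod_comp eq (fun i => (f i.1 i.2).eval (Real.exp s) + ε * (σ i.1 * w i.1 i.2)),
      Equiv.prod_comp eq (fun i => (f i.1 i.2).eval (Real.exp s)),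
      mul_sub, ← Finset.prod_mul_distrib]
    have : ∀ i : Φ × Bool, (f i.1 i.2).eval (Real.exp s) * (1 + ε * y i s) =
        (f i.1 i.2).eval (Real.exp s) + ε * (σ i.1 * w i.1 i.2) := by
      intro i
      have := (hfpos i.1 i.2 s).ne'
      simp only [hy]
      field_simp
    simp_rw [this]
    ring
  have hsign : ∀ o, 0 < σ (sy o) * G.eval (Real.exp (z o)) := by
    intro o
    rw [hGe]
    have h1 : 0 < ∏ i : Φ × Bool, (f i.1 i.2).eval (Real.exp (z o)) :=
      Finset.prod_pos (fun i _ => hfpos _ _ _)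
    have h5 := hε o
    rw [hsum] at h5
    have h2 := mul_pos (hdom o) h5
    have h3 : 0 < (∑ φ, σ φ / D φ (z o)) * ∑ φ, σ φ / D φ (z o) :=
      mul_self_pos.2 (right_ne_zero_of_mul (hdom o).ne')
    have h4 : 0 < σ (sy o) * (∏ i, (1 + ε * y i (z o)) - 1) := by
      apply (mul_pos_iff_of_pos_right h3).1
      linarith
    rw [mul_left_comm]
    exact mul_pos h1 h4
  set Y := Finset.univ.filter (fun ω => σ0 (W.su ω).1 ≠ σ0 (W.sv ω).1) with hY
  have hYc : c * (n + 1) + 1 ≤ Y.card := by rw [hn2]; nlinarith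
  have hG0 : G ≠ 0 := by
    obtain ⟨ω, _⟩ : Y.Nonempty := Finset.card_pos.1 (by omega)
    intro h
    have := hsign (Sum.inl ω)
    rw [h] at this
    simp at this
  refine ⟨n + 1, F, by omega, ?_, hG0, ?_⟩
  · intro i j
    fin_cases i
    · refine Fin.cases ?_ (fun j => ?_) j
      · exact (card_support_C_le 1).trans (by omega)
      · exact hf2 _ _ _
    · refine Fin.cases ?_ (fun j => ?_) j
      · exact (card_support_C_le (-1)).trans (by omega)
      · have := hf2 (eq j).1 (eq j).2 0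
        rw [C_0, add_zero] at this
        exact this
  · have key : ∀ ω ∈ Y, ∃ s, W.u ω < s ∧ s < W.v ω ∧ G.eval (Real.exp s) = 0 := by
      intro ω hω
      have h1 : σ0 (W.su ω).1 ≠ σ0 (W.sv ω).1 := (Finset.mem_filter.1 hω).2
      have h2 : σ (W.sv ω).1 = -σ (W.su ω).1 := by
        simp only [hσdef]
        cases h3 : σ0 (W.su ω).1 <;> cases h4 : σ0 (W.sv ω).1 <;> simp_all
      have h3 : 0 < σ (W.su ω).1 * G.eval (Real.exp (W.u ω)) := hsign (Sum.inl ω)
      have h4 : 0 < σ (W.sv ω).1 * G.eval (Real.exp (W.v ω)) := hsign (Sum.inr ω)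
      rw [h2] at h4
      have hcont : ContinuousOn (fun s => σ (W.su ω).1 * G.eval (Real.exp s))
          (Set.Icc (W.u ω) (W.v ω)) :=
        (continuous_const.mul (G.continuous.comp Real.continuous_exp)).continuousOn
      obtain ⟨s, hs, hs0⟩ := intermediate_value_Ioo' (hS.uv ω).le hcont
        (show (0 : ℝ) ∈ Set.Ioo _ _ from ⟨by linarith, h3⟩)
      refine ⟨s, hs.1, hs.2, ?_⟩
      have h5 : σ (W.su ω).1 ≠ 0 := left_ne_zero_of_mul h3.ne'
      exact (mul_eq_zero.1 hs0).resolve_left h5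
    choose! s hs using key
    refine le_trans (by omega : c * (n + 1) ≤ Y.card) ?_
    apply Finset.card_le_card_of_injOn (fun ω => Real.exp (s ω))
    · intro ω hω
      have := (hs ω hω).2.2
      simp only [Finset.mem_coe, Multiset.mem_toFinset]
      exact (Polynomial.mem_roots hG0).2 this
    · intro ω hω ω' hω' h
      by_contra hne
      have h1 : s ω = s ω' := Real.exp_injective h
      obtain ⟨a1, a2, _⟩ := hs ω hω
      obtain ⟨b1, b2, _⟩ := hs ω' hω'
      rcases hS.disj ω ω' hne with h2 | h2 <;> linarith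

end Pool.Agent.Work.MP_97f157_lc
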