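import Mathlib
import Pool.Agent.Work.MP_97f157_lc.Superlinear

set_option autoImplicit false

namespace Pool.Agent.Results.MP_97f157_lc.Superlinear

/-- No linear bound: for every `c` some nonzero sum of two products of `m ≥ 1` real binomials
has at least `c * m` distinct real roots. -/
theorem result :
    ∀ c : ℕ, ∃ (m : ℕ) (F : Fin 2 → Fin m → Polynomial ℝ), 1 ≤ m ∧
      (∀ i j, (F i j).support.card ≤ 2) ∧ (∑ i, ∏ j, F i j) ≠ 0 ∧
      c * m ≤ (∑ i, ∏ j, F i j).roots.toFinset.card :=
  Pool.Agent.Work.MP_97f157_lc.superlinear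

end Pool.Agent.Results.MP_97f157_lc.Superlinear
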