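import Pool.Agent.Work.MP_97f157_lc.TauIsoBAux
import Pool.Agent.Work.MP_97f157_lc.TauApxHAux

-- merged part: Pool.Agent.Work.MP_97f157_lc.TauPois
section
/-! Poisson weights and comparison of lines seen from a shifted base point. -/

noncomputable section
open Finset

namespace Pool.Agent.Work.MP_97f157_lc.Tau

variable {m M : ℕ}

/-- `stirling_two` at `n = ⌊x⌋₊` -/
theorem pois_mode {x : ℝ} (hx : 1 ≤ x) :
    Real.exp x ≤ 9 * √x * (x ^ ⌊x⌋₊ / (⌊x⌋₊.factorial : ℝ)) := by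
  have hn : 1 ≤ ⌊x⌋₊ := Nat.le_floor (by exact_mod_cast hx)
  have h1 : (⌊x⌋₊ : ℝ) ≤ x := Nat.floor_le (by linarith)
  have h2 : x < ⌊x⌋₊ + 1 := Nat.lt_floor_add_one x
  have h3 := (stirling_two hn).1
  generalize ⌊x⌋₊ = n at *
  have hn' : (1 : ℝ) ≤ n := by exact_mod_cast hn
  have hs : 0 < √(n : ℝ) := Real.sqrt_pos.2 (by linarith)
  have hf : (0 : ℝ) < n.factorial := by exact_mod_cast n.factorial_pos
  have h4 : Real.exp x ≤ 3 * Real.exp n := by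
    have h5 : Real.exp x ≤ Real.exp 1 * Real.exp n := by
      rw [← Real.exp_add]
      exact Real.exp_le_exp.2 (by linarith)
    have h6 : Real.exp 1 ≤ 3 := Real.exp_one_lt_three.le
    exact h5.trans (by gcongr)
  have h5 : Real.exp n ≤ 3 * √(n : ℝ) * ((n : ℝ) ^ n / n.factorial) := by
    rw [Real.exp_neg, div_le_div_iff₀ (by positivity) hf] at h3
    have he := Real.exp_pos (n : ℝ)
    rw [← mul_div_assoc, le_div_iff₀ hf]
    calc Real.exp n * n.factorial = Real.exp n * (1 * n.factorial) := by ring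
      _ ≤ Real.exp n * ((n : ℝ) ^ n * (Real.exp n)⁻¹ * (3 * √(n : ℝ))) := by gcongr
      _ = _ := by field_simp
  calc Real.exp x ≤ 3 * (3 * √(n : ℝ) * ((n : ℝ) ^ n / n.factorial)) := by linarith
    _ ≤ 3 * (3 * √x * (x ^ n / n.factorial)) := by gcongr
    _ = _ := by ring

/-- `x^j e^{-x} / j! = (j^j e^{-j} / j!) gw j (x/j)`, `gw_le` -/
theorem pois_le {x : ℝ} (hx : 0 ≤ x) {j : ℕ} (hj : 1 ≤ j) :
    x ^ j * Real.exp (-x) / (j.factorial : ℝ) ≤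
      Real.exp (-(((j : ℝ) - x) ^ 2 / (2 * (j + |(j : ℝ) - x|)))) := by
  rcases hx.eq_or_lt with rfl | hx0
  · rw [zero_pow (by omega), zero_mul, zero_div]
    exact (Real.exp_pos _).le
  have hj' : (1 : ℝ) ≤ j := by exact_mod_cast hj
  have hj0 : (0 : ℝ) < j := by linarith
  have h1 := gw_le j (div_pos hx0 hj0)
  have h2 := (stirling_two hj).2
  have h3 : 1 / √(j : ℝ) ≤ 1 := by
    rw [div_le_one (Real.sqrt_pos.2 hj0)]
    exact Real.one_le_sqrt.2 hj'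
  have h4 : x ^ j * Real.exp (-x) / (j.factorial : ℝ) =
      (j : ℝ) ^ j * Real.exp (-j) / j.factorial * gw j (x / j) := by
    have : -x = -j + -(j * (x / j - 1)) := by field_simp; ring
    rw [gw, div_pow, this, Real.exp_add]
    field_simp
  have h5 : (j : ℝ) * ((x / j - 1) ^ 2 / (2 * (1 + |x / j - 1|))) =
      ((j : ℝ) - x) ^ 2 / (2 * (j + |(j : ℝ) - x|)) := by
    have : |x / j - 1| = |(j : ℝ) - x| / j := by
      rw [div_sub_one hj0.ne', abs_div, abs_of_pos hj0, abs_sub_comm]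
    rw [this]
    have := abs_nonneg ((j : ℝ) - x)
    field_simp
    ring
  rw [h4, ← h5]
  have h6 : 0 ≤ gw j (x / j) := by unfold gw; positivity
  calc _ ≤ 1 * gw j (x / j) := by gcongr; exact h2.trans h3
    _ ≤ _ := by rwa [one_mul]

theorem pois_up {x A : ℝ} (hx : 0 < x) (j k : ℕ)
    (h : A * x ^ (j + k) / ((j + k).factorial : ℝ) ≤ 1) :
    A * x ^ j / (j.factorial : ℝ) ≤ Real.exp (-(k * ((x - (j + k)) / x))) := by
  have h1 : (j + k).factorial ≤ j.factorial * (j + k) ^ k := by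
    have h2 := Nat.factorial_mul_descFactorial (Nat.le_add_left k j)
    rw [Nat.add_sub_cancel] at h2
    rw [← h2]
    exact Nat.mul_le_mul_left _ (Nat.descFactorial_le_pow _ _)
  have h2 : ((j + k).factorial : ℝ) ≤ j.factorial * ((j : ℝ) + k) ^ k := by exact_mod_cast h1
  have hf : (0 : ℝ) < j.factorial := by exact_mod_cast j.factorial_pos
  have hf' : (0 : ℝ) < (j + k).factorial := by exact_mod_cast (j + k).factorial_pos
  rw [div_le_one hf'] at h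
  have h3 : A * x ^ j / (j.factorial : ℝ) ≤ (((j : ℝ) + k) / x) ^ k := by
    rw [div_pow, div_le_div_iff₀ hf (by positivity), mul_assoc, ← pow_add]
    linarith
  refine h3.trans ?_
  rw [← mul_neg, Real.exp_nat_mul]
  refine pow_le_pow_left₀ (by positivity) ?_ k
  have := Real.add_one_le_exp (-((x - (j + k)) / x))
  refine le_trans (le_of_eq ?_) this
  field_simp
  ring

theorem pois_down {x A : ℝ} (hx : 0 ≤ x) (hA : 0 ≤ A) (i k : ℕ) (hi : 0 < i)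
    (h : A * x ^ i / (i.factorial : ℝ) ≤ 1) :
    A * x ^ (i + k) / ((i + k).factorial : ℝ) ≤ Real.exp (-(k * ((i - x) / i))) := by
  have h1 : i.factorial * i ^ k ≤ (i + k).factorial :=
    le_trans (Nat.mul_le_mul_left _ (Nat.pow_le_pow_left (Nat.le_succ i) k))
      Nat.factorial_mul_pow_le_factorial
  have h2 : (i.factorial : ℝ) * (i : ℝ) ^ k ≤ (i + k).factorial := by exact_mod_cast h1
  have hf : (0 : ℝ) < i.factorial := by exact_mod_cast i.factorial_pos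
  have hi' : (0 : ℝ) < i := by exact_mod_cast hi
  have h3 : A * x ^ (i + k) / ((i + k).factorial : ℝ) ≤ (x / i) ^ k :=
    calc _ ≤ A * x ^ (i + k) / ((i.factorial : ℝ) * (i : ℝ) ^ k) := by gcongr
      _ = A * x ^ i / (i.factorial : ℝ) * (x / i) ^ k := by
        rw [pow_add, div_pow]; field_simp
      _ ≤ 1 * (x / i) ^ k := by gcongr
      _ = _ := one_mul _
  refine h3.trans ?_
  rw [← mul_neg, Real.exp_nat_mul]
  refine pow_le_pow_left₀ (by positivity) ?_ k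
  have := Real.add_one_le_exp (-((i - x) / i))
  refine le_trans (le_of_eq ?_) this
  field_simp
  ring

theorem pois_core {m' E T : ℝ} {U jc j : ℕ} (hm : 100 ≤ m') (hU : m' ^ 12 ≤ U)
    (hE : 72 * (m' ^ 2 * U) ≤ Real.exp m') (hT : T ^ 2 = m' ^ 12 * U) (hT0 : 0 ≤ T)
    (hE' : E = m' ^ 10 / 6)
    (hjc1 : m' ^ 2 * U ≤ jc) (hjc2 : jc ≤ 2 * (m' ^ 2 * U))
    (hj1 : jc ≤ j + 2 * U) (hj2 : j ≤ jc + 2 * U) (x θ A : ℝ) (hx0 : 0 ≤ x)
    (hx : x ≤ 8 * (m' ^ 2 * U)) (hθ0 : 0 ≤ θ) (hθ : θ ≤ (m' ^ 5)⁻¹) (hA0 : 0 ≤ A)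
    (h : ∀ i : ℕ, jc ≤ i + 8 * U → i ≤ jc + 8 * U → A * x ^ i / (i.factorial : ℝ) ≤ 1) :
    A * (x * (1 - θ)) ^ j * Real.exp (θ * x) / (j.factorial : ℝ) ≤ Real.exp m' ∧
      (T ≤ |(j : ℝ) - x * (1 - θ)| →
        A * (x * (1 - θ)) ^ j * Real.exp (θ * x) / (j.factorial : ℝ) ≤ Real.exp (-E)) := by
  have hm0 : 0 < m' := by linarith
  have hm2 : 10000 ≤ m' ^ 2 := by nlinarith only [hm]
  have hm3 : 100 ≤ m' ^ 3 := by nlinarith only [hm, hm2]
  have h10 : 0 < m' ^ 10 := by positivity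
  have hU0 : (0 : ℝ) < U := lt_of_lt_of_le (by positivity) hU
  have hθ1 : θ * m' ^ 2 ≤ 1 / 100 := by
    have h1 : θ * m' ^ 5 ≤ 1 := by
      rwa [inv_eq_one_div, le_div_iff₀ (by positivity)] at hθ
    have h2 : θ * m' ^ 5 = θ * m' ^ 2 * m' ^ 3 := by ring
    have h3 : 0 ≤ θ * m' ^ 2 := by positivity
    nlinarith only [hm3, h1, h3]
  have hθ2 : θ ≤ 1 := by nlinarith only [hm2, hθ1]
  have hj1' : (jc : ℝ) ≤ j + 2 * U := by exact_mod_cast hj1
  have hj2' : (j : ℝ) ≤ jc + 2 * U := by exact_mod_cast hj2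
  have hUU : 10000 * (U : ℝ) ≤ m' ^ 2 * U := by gcongr
  have hEU : E * m' ^ 2 ≤ U / 6 := by
    rw [hE']
    have : m' ^ 10 / 6 * m' ^ 2 = m' ^ 12 / 6 := by ring
    linarith only [hU]
  have hE0 : 0 ≤ E := by rw [hE']; positivity
  have hf : (0 : ℝ) < j.factorial := by exact_mod_cast j.factorial_pos
  have hQ : A * (x * (1 - θ)) ^ j * Real.exp (θ * x) / (j.factorial : ℝ) ≤
      A * x ^ j / (j.factorial : ℝ) * Real.exp (θ * (x - j)) := by
    clear * - θ j hθ2 A x hA0 hx0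
    have h1 : (1 - θ) ^ j ≤ Real.exp (-θ) ^ j :=
      pow_le_pow_left₀ (by linarith) (by linarith [Real.add_one_le_exp (-θ)]) j
    rw [← Real.exp_nat_mul] at h1
    calc _ = A * x ^ j / (j.factorial : ℝ) * ((1 - θ) ^ j * Real.exp (θ * x)) := by
          rw [mul_pow]; ring
      _ ≤ A * x ^ j / (j.factorial : ℝ) * (Real.exp (j * -θ) * Real.exp (θ * x)) := by gcongr
      _ = _ := by rw [← Real.exp_add]; congr 2; ring
  have hfin : A * (x * (1 - θ)) ^ j * Real.exp (θ * x) / (j.factorial : ℝ) ≤ Real.exp (-E) →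
      A * (x * (1 - θ)) ^ j * Real.exp (θ * x) / (j.factorial : ℝ) ≤ Real.exp m' ∧
      (T ≤ |(j : ℝ) - x * (1 - θ)| →
        A * (x * (1 - θ)) ^ j * Real.exp (θ * x) / (j.factorial : ℝ) ≤ Real.exp (-E)) :=
    fun hh => ⟨hh.trans (Real.exp_le_exp.2 (by linarith only [hm, hE', h10])), fun _ => hh⟩
  by_cases c1 : (j : ℝ) + 6 * U ≤ x
  · refine hfin (hQ.trans ?_)
    have hxp : 0 < x := by linarith only [hjc1, hU0, hj1', hUU, c1, Nat.cast_nonneg (α := ℝ) j]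
    have h1 := pois_up hxp j (3 * U) (h _ (by omega) (by omega))
    refine (mul_le_mul_of_nonneg_right h1 (Real.exp_pos _).le).trans ?_
    rw [← Real.exp_add, Real.exp_le_exp]
    push_cast
    have h2 : (x - j) / (16 * (m' ^ 2 * U)) ≤ (x - (j + 3 * U)) / x := by
      clear * - x j m' U hm hU0 hxp hx c1 jc hjc2
      rw [div_le_div_iff₀ (by positivity) hxp]
      have : (x - j) * x ≤ (x - j) * (8 * (m' ^ 2 * U)) := by gcongr; linarith only [hU0, c1]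
      have h3 : 0 < m' ^ 2 * U := by positivity
      nlinarith only [hjc2, c1, this]
    have h3 : 3 * (U : ℝ) * ((x - j) / (16 * (m' ^ 2 * U))) = 3 / 16 * ((x - j) / m' ^ 2) := by
      field_simp
    have h4 : θ * (x - j) ≤ 1 / 100 * ((x - j) / m' ^ 2) := by
      clear * - θ x j m' hm hθ1 U hU0 c1
      have : θ * (x - j) = θ * m' ^ 2 * ((x - j) / m' ^ 2) := by field_simp
      rw [this]
      gcongr
      exact div_nonneg (by linarith only [hU0, c1]) (by positivity)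
    have h5 : 6 * E ≤ (x - j) / m' ^ 2 := by
      rw [le_div_iff₀ (by positivity)]
      linarith only [hU0, hEU, c1]
    have h6 : 3 * (U : ℝ) * ((x - j) / (16 * (m' ^ 2 * U))) ≤ 3 * U * ((x - (j + 3 * U)) / x) := by
      gcongr
    clear * - U x j θ E m' hE' h10 h3 h4 h5 h6; linarith only [hE', h10, h3, h4, h5, h6]
  by_cases c2 : x + 6 * U ≤ j
  · refine hfin (hQ.trans ?_)
    have h0 : 6 * U ≤ j := by
      clear * - U j m' jc hjc1 hU0 hj1' hUU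
      have : ((6 * U : ℕ) : ℝ) ≤ j := by push_cast; linarith
      exact_mod_cast this
    have hUp : 0 < U := by exact_mod_cast hU0
    obtain ⟨i, rfl⟩ : ∃ i, j = i + 3 * U := ⟨j - 3 * U, by omega⟩
    have h1 := pois_down hx0 hA0 i (3 * U) (by omega) (h _ (by omega) (by omega))
    refine (mul_le_mul_of_nonneg_right h1 (Real.exp_pos _).le).trans ?_
    rw [← Real.exp_add, Real.exp_le_exp]
    have hi : (0 : ℝ) < i := by exact_mod_cast (by omega : 0 < i)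
    push_cast at *
    have h2 : 1 / m' ^ 2 ≤ (i - x) / i := by
      clear * - m' i x hm hi U c2 jc hjc2 hU0 hUU hj2'
      rw [div_le_div_iff₀ (by positivity) hi]
      have : 3 * (U : ℝ) * m' ^ 2 ≤ (i - x) * m' ^ 2 := by gcongr; linarith only [c2]
      linarith only [hjc2, hU0, hUU, hj2', this]
    have h3 : θ * (x - (i + 3 * U)) ≤ 0 := mul_nonpos_of_nonneg_of_nonpos hθ0 (by linarith only [hU0, c2])
    have h4 : E ≤ 3 * U * (1 / m' ^ 2) := by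
      rw [mul_one_div, le_div_iff₀ (by positivity)]
      linarith only [hU0, hEU]
    have h5 : 3 * (U : ℝ) * (1 / m' ^ 2) ≤ 3 * U * ((i - x) / i) := by gcongr
    linarith only [h3, h4, h5]
  push Not at c1 c2
  have hU1 : (1 : ℝ) ≤ U := (one_le_pow₀ (by clear * - m' hm hU; linarith)).trans hU
  have hx1 : 1 ≤ x := by clear * - x m' U jc j hjc1 hU0 hj1' hUU c2 hU1; linarith
  have hj0 : 1 ≤ j := by
    clear * - j m' U jc hjc1 hU0 hj1' hUU hU1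
    have : (1 : ℝ) ≤ j := by linarith
    exact_mod_cast this
  have h1 := h ⌊x⌋₊ (by
      have : jc - 8 * U ≤ ⌊x⌋₊ := by
        rcases le_total jc (8 * U) with hh | hh
        · omega
        · apply Nat.le_floor
          rw [Nat.cast_sub hh]
          push_cast
          linarith only [hj1', c2]
      omega) (by
      apply Nat.floor_le_of_le
      push_cast
      linarith only [hj2', c1])
  have h2 := pois_mode hx1
  have h3 : A * Real.exp x ≤ Real.exp m' := by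
    clear * - x hx0 m' U jc j hjc1 hj1' hUU c2 hU1 A h2 hA0 h1 hx1 hE hx hU0
    have h4 : √x ≤ x := by
      rw [Real.sqrt_le_left hx0]
      nlinarith only [hjc1, hx0, hx, hU0, hj1', hUU, c2, hU1]
    calc _ ≤ A * (9 * √x * (x ^ ⌊x⌋₊ / (⌊x⌋₊.factorial : ℝ))) := by gcongr
      _ = 9 * √x * (A * x ^ ⌊x⌋₊ / (⌊x⌋₊.factorial : ℝ)) := by ring
      _ ≤ 9 * √x * 1 := by gcongr
      _ ≤ _ := by linarith only [hE, hx, h4]
  have hx' : 0 ≤ x * (1 - θ) := mul_nonneg hx0 (by clear * - θ hθ2; linarith)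
  have h4 := pois_le hx' hj0
  have h5 : A * (x * (1 - θ)) ^ j * Real.exp (θ * x) / (j.factorial : ℝ) ≤ Real.exp m' *
      Real.exp (-(((j : ℝ) - x * (1 - θ)) ^ 2 / (2 * (j + |(j : ℝ) - x * (1 - θ)|)))) := by
    clear * - θ x A j m' h3 h4 hx1 hθ2
    have : θ * x = x + -(x * (1 - θ)) := by ring
    calc _ = A * Real.exp x *
          ((x * (1 - θ)) ^ j * Real.exp (-(x * (1 - θ))) / (j.factorial : ℝ)) := by
          rw [this, Real.exp_add]; ring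
      _ ≤ _ := by gcongr
  rw [← Real.exp_add] at h5
  have hj0' : (0 : ℝ) < j := by exact_mod_cast hj0
  refine ⟨h5.trans (Real.exp_le_exp.2 ?_), fun hD => h5.trans (Real.exp_le_exp.2 ?_)⟩
  · have : 0 ≤ ((j : ℝ) - x * (1 - θ)) ^ 2 / (2 * (j + |(j : ℝ) - x * (1 - θ)|)) := by clear * - j x θ hj0; positivity
    linarith only [this]
  · have a1 : θ * x ≤ U := by
      clear * - θ x m' U hx hθ0 hθ1 hU0
      have b1 : θ * x ≤ θ * (8 * (m' ^ 2 * U)) := by gcongr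
      have b2 : θ * m' ^ 2 * U ≤ 1 / 100 * U := by gcongr
      linarith only [hU0, b1, b2]
    have a0 : 0 ≤ θ * x := by positivity
    have a2 : |(j : ℝ) - x * (1 - θ)| ≤ 7 * U := by
      rw [abs_le, mul_one_sub, mul_comm x θ]; constructor <;> linarith only [hU0, c1, a0, c2, a1]
    have a3 : T ^ 2 ≤ ((j : ℝ) - x * (1 - θ)) ^ 2 := by
      rw [← sq_abs ((j : ℝ) - x * (1 - θ))]
      gcongr
    have a4 : m' ^ 10 / 5 ≤
        ((j : ℝ) - x * (1 - θ)) ^ 2 / (2 * (j + |(j : ℝ) - x * (1 - θ)|)) := by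
      clear * - m' j x θ hj0 U jc hjc2 hU0 hj2' hUU a2 hm T hT a3
      rw [div_le_div_iff₀ (by norm_num) (by positivity)]
      have b1 : 2 * (j + |(j : ℝ) - x * (1 - θ)|) ≤ 5 * (m' ^ 2 * U) := by linarith only [hjc2, hU0, hj2', hUU, a2]
      have b2 : m' ^ 10 * (2 * (j + |(j : ℝ) - x * (1 - θ)|)) ≤ m' ^ 10 * (5 * (m' ^ 2 * U)) := by
        gcongr
      have b3 : m' ^ 10 * (5 * (m' ^ 2 * U)) = m' ^ 12 * U * 5 := by ring
      linarith only [hT, a3, b2]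
    have a5 : 30 * m' ≤ m' ^ 10 := by
      clear * - m' hm hm2
      have b1 : m' ^ 2 ≤ m' ^ 10 := pow_le_pow_right₀ (by linarith only [hm]) (by norm_num)
      nlinarith only [hm, hm2, b1]
    rw [hE']
    linarith only [a4, a5]

/-- `U = M^7998`, `f i = x^i / i!`.  Always `(1-θ)^j e^{θ x} ≤ e^{θ (x - j)}`.  If `x ≥ j + 6U` use
`i = j + 3U`, `f i / f j ≥ (x/(j+3U))^{3U} ≥ exp (3U (x-j) / (2x))`; if `x ≤ j - 6U` use `i = j - 3U`;
otherwise use `i = ⌊x⌋₊`, `pois_mode` and `pois_le` at `x (1-θ)`. -/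
theorem pois_ratio (hp : Par m M) (jc j : ℕ) (hjc1 : M ^ 8000 ≤ jc) (hjc2 : jc ≤ 2 * M ^ 8000)
    (hj1 : jc ≤ j + 2 * M ^ 7998) (hj2 : j ≤ jc + 2 * M ^ 7998) (x θ A : ℝ) (hx0 : 0 ≤ x)
    (hx : x ≤ 8 * (M : ℝ) ^ 8000) (hθ0 : 0 ≤ θ) (hθ : θ ≤ ((M : ℝ) ^ 5)⁻¹) (hA0 : 0 ≤ A)
    (h : ∀ i : ℕ, jc ≤ i + 8 * M ^ 7998 → i ≤ jc + 8 * M ^ 7998 →
      A * x ^ i / (i.factorial : ℝ) ≤ 1) :
    A * (x * (1 - θ)) ^ j * Real.exp (θ * x) / (j.factorial : ℝ) ≤ Real.exp M ∧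
      ((M : ℝ) ^ 4005 ≤ |(j : ℝ) - x * (1 - θ)| →
        A * (x * (1 - θ)) ^ j * Real.exp (θ * x) / (j.factorial : ℝ) ≤
          Real.exp (-((M : ℝ) ^ 10 / 6))) := by
  have e1 : (M : ℝ) ^ 8000 = (M : ℝ) ^ 2 * ((M ^ 7998 : ℕ) : ℝ) := by
    rw [Nat.cast_pow, ← pow_add]
  refine pois_core (m' := M) (U := M ^ 7998) (jc := jc) (le_trans (by norm_num) hp.bigR) ?_ ?_ ?_
    (hp.pow_pos _).le rfl ?_ ?_ hj1 hj2 x θ A hx0 (e1 ▸ hx) hθ0 hθ hA0 h
  · rw [Nat.cast_pow]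
    exact hp.pow_mono (by norm_num)
  · rw [← e1]
    exact (hp.mul_pow_le (by norm_num) (show 8000 < 8001 by norm_num)).trans
      (hp.pow_le_exp (by norm_num))
  · rw [Nat.cast_pow, ← pow_add, ← pow_mul]
  · rw [← e1, ← Nat.cast_pow]
    exact Nat.cast_le.2 hjc1
  · rw [← e1, ← Nat.cast_pow]
    have : (jc : ℝ) ≤ ((2 * M ^ 8000 : ℕ) : ℝ) := Nat.cast_le.2 hjc2
    rwa [Nat.cast_mul, Nat.cast_ofNat] at this

theorem pois_shift {θ : ℝ} {U : ℕ} (N N0 r d e : ℝ) (hN : 0 ≤ N) (hd : 0 < d) (hr : d / 2 ≤ r)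
    (he0 : 0 ≤ e) (hθ0 : 0 ≤ θ) (hθ : θ ≤ 1 / 4) (he : e ≤ θ * d) (j : ℕ) (hj1 : 8 * U ≤ j)
    (hj2 : ((j : ℝ) + 1) * θ ≤ U)
    (h1 : N / r ^ (j - 8 * U + 1) ≤ N0 / d ^ (j - 8 * U + 1))
    (h2 : N / r ^ (j + 8 * U + 1) ≤ N0 / d ^ (j + 8 * U + 1)) :
    N / (r - e) ^ (j + 1) ≤
      Real.exp (-(4 * (U : ℝ) * |Real.log (r / d)|)) * (N0 / (d - e) ^ (j + 1)) := by
  have hr0 : 0 < r := by linarith
  have he4 : e ≤ d / 4 := by nlinarith only [hd, hθ, he]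
  have hre : 0 < r - e := by linarith
  have hde : 0 < d - e := by linarith
  have key : ∀ (a b : ℝ) (n : ℕ), 0 < a → 0 < b → ∀ X : ℝ, (N / a ^ n ≤ X / b ^ n ↔
      N ≤ X * Real.exp (n * Real.log (a / b))) := fun a b n ha hb X => by
    rw [Real.exp_nat_mul, Real.exp_log (div_pos ha hb), div_pow, div_le_iff₀ (by positivity),
      div_mul_eq_mul_div, mul_div_assoc]
  rw [key _ _ _ hr0 hd] at h1 h2
  rw [← mul_div_assoc, key _ _ _ hre hde, mul_comm _ N0, mul_assoc, ← Real.exp_add]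
  have hN0 : 0 ≤ N0 := by
    by_contra hh
    have := mul_neg_of_neg_of_pos (not_le.1 hh)
      (Real.exp_pos (((j + 8 * U + 1 : ℕ) : ℝ) * Real.log (r / d)))
    linarith
  have hU : (0 : ℝ) ≤ U := Nat.cast_nonneg U
  have hj : (0 : ℝ) ≤ (j : ℝ) + 1 := by positivity
  rcases le_total d r with hdr | hdr
  · have ht : 0 ≤ Real.log (r / d) := Real.log_nonneg ((one_le_div hd).2 hdr)
    have hs : Real.log (r / d) ≤ Real.log ((r - e) / (d - e)) := by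
      apply Real.log_le_log (by positivity)
      rw [div_le_div_iff₀ hd hde]
      nlinarith only [he0, hdr]
    refine h1.trans (mul_le_mul_of_nonneg_left (Real.exp_le_exp.2 ?_) hN0)
    rw [abs_of_nonneg ht]
    push_cast [Nat.cast_sub hj1]
    have := mul_le_mul_of_nonneg_left hs hj
    have := mul_nonneg hU ht
    linarith
  · have ht : Real.log (r / d) ≤ 0 := Real.log_nonpos (by positivity) ((div_le_one hd).2 hdr)
    have a1 := Real.log_le_sub_one_of_pos (div_pos hr0 hd)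
    have a2 := Real.log_le_sub_one_of_pos (div_pos (div_pos hr0 hd) (div_pos hre hde))
    rw [Real.log_div (by positivity) (by positivity)] at a2
    have a3 : r / d / ((r - e) / (d - e)) - 1 = e / (r - e) * (1 - r / d) := by
      field_simp
      ring
    have a4 : e / (r - e) ≤ 4 * θ := by
      rw [div_le_iff₀ hre]
      nlinarith only [hr, he0, hθ0, hθ, he]
    have a5 : 0 ≤ 1 - r / d := by linarith only [hd, hdr, (div_le_one hd).2 hdr]
    have a6 : e / (r - e) * (1 - r / d) ≤ 4 * θ * (-Real.log (r / d)) := by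
      gcongr
      linarith only [a1]
    refine h2.trans (mul_le_mul_of_nonneg_left (Real.exp_le_exp.2 ?_) hN0)
    rw [abs_of_nonpos ht]
    push_cast
    have a7 : Real.log (r / d) - Real.log ((r - e) / (d - e)) ≤ 4 * θ * (-Real.log (r / d)) := by
      linarith only [a2, a3, a6]
    have a8 := mul_le_mul_of_nonneg_left a7 hj
    have a9 := mul_le_mul_of_nonneg_right hj2 (neg_nonneg.2 ht)
    linarith only [a8, a9]

/-- With `t = log (r/d)` one has `log ((r-e)/(d-e)) = t (1 + θ)`, `0 ≤ θ ≤ 3 M^{-5}`; use the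
hypothesis at `j - q` if `t ≥ 0` and at `j + q` if `t < 0`, `q = 8 M^7998`. -/
theorem line_shift (hp : Par m M) (N N0 r d e : ℝ) (hN : 0 ≤ N) (hd : 0 < d) (hr : d / 2 ≤ r)
    (he0 : 0 ≤ e) (he : e ≤ ((M : ℝ) ^ 5)⁻¹ * d) (j : ℕ) (hj1 : 8 * M ^ 7998 ≤ j)
    (hj2 : j ≤ 3 * M ^ 8000)
    (h1 : N / r ^ (j - 8 * M ^ 7998 + 1) ≤ N0 / d ^ (j - 8 * M ^ 7998 + 1))
    (h2 : N / r ^ (j + 8 * M ^ 7998 + 1) ≤ N0 / d ^ (j + 8 * M ^ 7998 + 1)) :
    N / (r - e) ^ (j + 1) ≤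
      Real.exp (-(4 * (M : ℝ) ^ 7998 * |Real.log (r / d)|)) * (N0 / (d - e) ^ (j + 1)) := by
  have hθ : ((M : ℝ) ^ 5)⁻¹ ≤ 1 / 4 := by
    have := hp.inv_pow_le (c := 4) (by norm_num) (show 0 < 5 by norm_num)
    rw [pow_zero, inv_one] at this
    linarith
  have := pois_shift (U := M ^ 7998) N N0 r d e hN hd hr he0 (inv_pos.2 (hp.pow_pos 5)).le hθ he j
    hj1 (by
      have a1 : (j : ℝ) ≤ ((3 * M ^ 8000 : ℕ) : ℝ) := Nat.cast_le.2 hj2
      rw [Nat.cast_mul, Nat.cast_ofNat, Nat.cast_pow] at a1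
      have a2 : (1 : ℝ) ≤ (M : ℝ) ^ 8000 := one_le_pow₀ hp.one_le
      have a3 := hp.mul_pow_le (c := 4) (by norm_num) (show 8000 < 7998 + 5 by norm_num)
      rw [← div_eq_mul_inv, div_le_iff₀ (hp.pow_pos 5), Nat.cast_pow, ← pow_add]
      linarith) h1 h2
  rwa [Nat.cast_pow] at this

end Pool.Agent.Work.MP_97f157_lc.Tau
end
end

-- merged part: Pool.Agent.Work.MP_97f157_lc.TauHi
section
-- merged part: Pool.Agent.Work.MP_97f157_lc.TauEnv
section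
/-! Basic facts about a `Setup` and envelopes. -/

noncomputable section
open Complex Finset Metric

namespace Pool.Agent.Work.MP_97f157_lc.Tau

variable {ι : Type*} {m M : ℕ}

theorem env_fact (j n : ℕ) : ((j + n).factorial : ℝ) ≤ (j.factorial : ℝ) * ((j + n : ℕ) : ℝ) ^ n := by
  have h : (j + n).factorial ≤ j.factorial * (j + n) ^ n := by
    rw [← Nat.factorial_mul_ascFactorial]
    exact Nat.mul_le_mul_left _ (Nat.ascFactorial_le_pow_add j n)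
  exact_mod_cast h

theorem env_four (hp : Par m M) : (4 : ℝ) ≤ Real.exp M := by
  have h1 := hp.bigR
  have h2 := Real.add_one_le_exp (M : ℝ)
  have : (4 : ℝ) ≤ 10 ^ 12 := by norm_num
  linarith only [h1, h2]

theorem env_eA1_pos (hp : Par m M) : 0 < eA1 M := inv_pos.2 (hp.pow_pos _)

theorem env_eA1_le (hp : Par m M) : 4 * eA1 M ≤ ((M : ℝ) ^ 265)⁻¹ :=
  hp.inv_pow_le (by norm_num) (by norm_num)

theorem env_inv_le (hp : Par m M) (i : ℕ) : ((M : ℝ) ^ i)⁻¹ ≤ 1 :=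
  inv_le_one_of_one_le₀ (one_le_pow₀ hp.one_le)

theorem env_ratio {ρ : ℝ} {z p : ℂ} (hz : ‖z‖ ≤ 4 * ρ) (hp : 32 * ρ ≤ ‖p‖) (n : ℕ) :
    ‖p‖ ^ n ≤ (8 / 7) ^ n * ‖z - p‖ ^ n := by
  rw [← mul_pow]
  refine pow_le_pow_left₀ (norm_nonneg _) ?_ n
  have := norm_sub_norm_le p z
  rw [norm_sub_rev] at this
  linarith only [hz, hp, this]

theorem env_div {N K a b E : ℝ} (hN : 0 ≤ N) (ha : 0 < a) (hK : 0 ≤ K) (hb : 0 ≤ b) (h : a ≤ K * b)
    (hE : N / a ≤ E) : N / b ≤ K * E := by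
  have hb' : 0 < b := by
    rcases hb.lt_or_eq with h' | h'
    · exact h'
    · rw [← h', mul_zero] at h; linarith only [ha, h]
  calc N / b ≤ K * (N / a) := by
        rw [div_le_iff₀ hb', mul_assoc, mul_comm (N / a), ← mul_assoc, ← mul_div_assoc, le_div_iff₀ ha]
        linarith only [hN, h, mul_nonneg_of_nonpos_of_nonpos (Mathlib.Tactic.Linarith.sub_nonpos_of_le hN) (Mathlib.Tactic.Linarith.sub_nonpos_of_le h)]
    _ ≤ K * E := mul_le_mul_of_nonneg_left hE hK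

theorem env_sum {β : Type*} (t : Finset β) (F : β → ℂ) {b c : ℝ} (hb : 0 ≤ b)
    (h : ∀ r ∈ t, ‖F r‖ ≤ b) (hc : (t.card : ℝ) ≤ c) : ‖∑ r ∈ t, F r‖ ≤ c * b := by
  refine (norm_sum_le _ _).trans ((sum_le_card_nsmul _ _ _ h).trans ?_)
  rw [nsmul_eq_mul]
  exact mul_le_mul_of_nonneg_right hc hb

theorem env_87 (hp : Par m M) {j : ℕ} (hj : j ≤ 3 * M ^ 8000) :
    (8 / 7 : ℝ) ^ (j + 1) ≤ Real.exp ((M : ℝ) ^ 8000) := by
  have h1 : (8 / 7 : ℝ) ≤ Real.exp (1 / 7) := by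
    have := Real.add_one_le_exp (1 / 7 : ℝ)
    linarith only [this]
  have h2 : (j : ℝ) ≤ 3 * (M : ℝ) ^ 8000 := by exact_mod_cast hj
  have h3 : (1 : ℝ) ≤ (M : ℝ) ^ 8000 := one_le_pow₀ hp.one_le
  refine (pow_le_pow_left₀ (by norm_num) h1 _).trans ?_
  rw [← Real.exp_nat_mul]
  apply Real.exp_le_exp.2
  push_cast
  generalize (M : ℝ) ^ 8000 = Y at *
  linarith only [h2, h3]

namespace Pre
variable (P : Pre ι m M)

theorem env_B {k : ι} : k ∈ P.B ↔ k ∈ P.D.s ∧ P.D.T k ≤ P.TB := mem_filter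
theorem env_C {k : ι} : k ∈ P.C ↔ k ∈ P.D.s ∧ (P.TB < P.D.T k ∧ P.D.T k ≤ P.TA) := mem_filter
theorem env_A {k : ι} : k ∈ P.A ↔ k ∈ P.D.s ∧ P.TA < P.D.T k := mem_filter

theorem env_nfl {k : ι} (hk : k ∈ P.D.s) (h : 1 < P.D.T k) : P.D.fl k = false := by
  by_contra hf
  have := P.flT k hk (by simpa using hf)
  linarith only [h, this]

theorem env_x {k : ι} (hk : k ∈ P.D.s) (h : P.D.fl k = false) : 32 * P.ρ ≤ |P.D.x k| := by
  have := P.far k hk 0 (by simp [h])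
  simpa [Dat.node] using this

theorem env_PA {ν : ι × ℕ} : ν ∈ P.PA ↔ ν.1 ∈ P.A ∧ 1 ≤ ν.2 ∧ ν.2 ≤ M ^ 263 := by
  unfold PA Dat.pA
  rw [mem_product, mem_Icc]

theorem env_cardB : P.B.card ≤ m := (card_filter_le _ _).trans P.card
theorem env_cardC : P.C.card ≤ m := (card_filter_le _ _).trans P.card
theorem env_cardA : P.A.card ≤ m := (card_filter_le _ _).trans P.card

theorem hcl : CClus P.C P.D.a P.D.x P.cl (eC1 M) (eC0 M) := P.clus
theorem nfl_C : ∀ k ∈ P.C, P.D.fl k = false := by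
  intro k hk
  obtain ⟨h1, h2, -⟩ := P.env_C.1 hk
  have h3 : (1 : ℝ) ≤ (M : ℝ) ^ 267 := one_le_pow₀ P.par.one_le
  exact P.env_nfl h1 (lt_of_le_of_lt (h3.trans P.TB1) h2)
theorem nfl_A : ∀ k ∈ P.A, P.D.fl k = false := by
  intro k hk
  obtain ⟨h1, h2⟩ := P.env_A.1 hk
  have h3 : (1 : ℝ) ≤ (M : ℝ) ^ 7738 := one_le_pow₀ P.par.one_le
  exact P.env_nfl h1 (lt_of_le_of_lt (h3.trans P.TA1) h2)
theorem x_C : ∀ k ∈ P.C, 32 * P.ρ ≤ |P.D.x k| := fun k hk =>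
  P.env_x (P.env_C.1 hk).1 (P.nfl_C k hk)
theorem x_A : ∀ k ∈ P.A, 32 * P.ρ ≤ |P.D.x k| := fun k hk =>
  P.env_x (P.env_A.1 hk).1 (P.nfl_A k hk)
theorem node_PB : ∀ ν ∈ P.PB, 32 * P.ρ ≤ ‖P.D.node ν‖ := by
  intro ν hν
  unfold PB Dat.pB at hν
  obtain ⟨h1, h2⟩ := mem_filter.1 hν
  exact P.far ν.1 (P.env_B.1 (mem_product.1 h1).1).1 ν.2 h2
theorem node_ne : ∀ ν ∈ P.PB, P.D.node ν ≠ 0 := by
  intro ν hν h
  have h1 := P.node_PB ν hν
  have h2 := P.ρpos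
  rw [h, norm_zero] at h1
  linarith only [h1, h2]
theorem freq_ne : ∀ ν ∈ P.PA, P.D.freq ν ≠ 0 := by
  intro ν hν
  obtain ⟨h1, h2, -⟩ := P.env_PA.1 hν
  have h3 := P.apos _ (P.env_A.1 h1).1
  have h4 : (0 : ℝ) < ν.2 := by exact_mod_cast h2
  unfold Dat.freq Dat.sg
  refine mul_ne_zero ?_ (mul_pos h4 h3).ne'
  split_ifs <;> norm_num
theorem card_PA : 2 * P.PA.card ≤ M ^ 264 := by
  have h1 : P.PA.card = P.A.card * M ^ 263 := by
    unfold PA Dat.pA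
    rw [card_product, Nat.card_Icc, Nat.add_sub_cancel]
  have h2 := P.env_cardA
  have h3 := P.par.two
  rw [h1, pow_succ M 263, ← mul_assoc, mul_comm (M ^ 263)]
  exact Nat.mul_le_mul_right _ (by omega)
theorem card_PB : P.PB.card ≤ M ^ 271 := by
  have h1 : P.PB.card ≤ P.B.card * (2 * M ^ 269 + 1) := by
    unfold PB Dat.pB
    refine (card_filter_le _ _).trans ?_
    rw [card_product, Int.card_Icc]
    refine Nat.mul_le_mul_left _ ?_
    generalize M ^ 269 = L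
    omega
  have h2 := P.env_cardB
  have h3 := P.par.two
  have h4 : 1 ≤ M ^ 269 := Nat.one_le_pow _ _ P.par.one_leN
  have h5 : 3 * M ^ 269 ≤ M ^ 270 := P.par.mul_pow_leN (by norm_num) (by norm_num)
  rw [pow_succ M 270, mul_comm (M ^ 270)]
  refine h1.trans (Nat.mul_le_mul (by omega) ?_)
  generalize M ^ 269 = L at *
  generalize M ^ 270 = L' at *
  omega
theorem lat_split (j : ℕ) (z : ℂ) :
    P.D.lat P.D.s j z = P.D.lat P.B j z + P.D.lat P.C j z + P.D.lat P.A j z := by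
  have h : P.TB ≤ P.TA :=
    P.TB2.trans ((P.par.mul_pow_le (by norm_num) (by norm_num)).trans P.TA1)
  unfold Dat.lat B C A
  rw [sum_filter, sum_filter, sum_filter, ← sum_add_distrib, ← sum_add_distrib]
  refine sum_congr rfl fun k _ => ?_
  by_cases h1 : P.D.T k ≤ P.TB
  · rw [if_pos h1, if_neg (fun h' => by linarith only [h1, h', h'.1]), if_neg (by linarith), add_zero, add_zero]
  · by_cases h2 : P.D.T k ≤ P.TA
    · rw [if_neg h1, if_pos ⟨not_le.1 h1, h2⟩, if_neg (by linarith only [h2]), add_zero, zero_add]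
    · rw [if_neg h1, if_neg (fun h' => h2 h'.2), if_pos (not_le.1 h2), add_zero, zero_add]
theorem NC_nonneg (r : ι) : 0 ≤ P.NC r := Nm_nonneg

end Pre

namespace Setup
variable (S : Setup ι m M)

theorem env_Lo {ν : ι × ℕ} : ν ∈ S.Lo ↔ ν ∈ S.PA ∧ |S.D.freq ν| * S.ρ ≤ S.Tc := mem_filter

theorem env_Tc : 0 < S.Tc := lt_of_lt_of_le (S.par.pow_pos _) S.Tc1

theorem env_freq_ne : ∀ ν ∈ S.PA, (fun ν => (S.D.freq ν : ℂ)) ν ≠ 0 := fun ν hν =>
  ofReal_ne_zero.2 (S.freq_ne ν hν)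

theorem Lo_sat : ∀ ν ∈ S.PA, ν ∈ S.Lo ↔ S.at' ν ∈ S.Lo := by
  intro ν hν
  have hα := S.hat.mem ν hν
  have hn := S.hat.near ν hν
  rw [← ofReal_sub, norm_real, norm_real, Real.norm_eq_abs, Real.norm_eq_abs] at hn
  have h1 := abs_sub_abs_le_abs_sub (S.D.freq ν) (S.D.freq (S.at' ν))
  have h2 := abs_sub_abs_le_abs_sub (S.D.freq (S.at' ν)) (S.D.freq ν)
  rw [abs_sub_comm] at h2
  have he0 := env_eA1_pos S.par
  have he := env_eA1_le S.par
  have hδ := env_inv_le S.par 265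
  have hT := S.env_Tc
  have hρ := S.ρpos
  have g1 := S.gapc ν hν
  have g2 := S.gapc _ hα
  rw [S.env_Lo, S.env_Lo]
  generalize ((M : ℝ) ^ 265)⁻¹ = δ at *
  generalize eA1 M = e at *
  generalize |S.D.freq ν - S.D.freq (S.at' ν)| = c at *
  have ha0 := abs_nonneg (S.D.freq ν)
  have hb0 := abs_nonneg (S.D.freq (S.at' ν))
  generalize |S.D.freq ν| = a at *
  generalize |S.D.freq (S.at' ν)| = b at *
  have k1 : a * S.ρ ≤ (1 + e / 4) * (b * S.ρ) := by linarith only [hρ, hn, h1, mul_nonneg_of_nonpos_of_nonpos (le_of_lt (Mathlib.Tactic.Linarith.sub_neg_of_lt hρ)) (Mathlib.Tactic.Linarith.sub_nonpos_of_le hn), mul_nonneg_of_nonpos_of_nonpos (le_of_lt (Mathlib.Tactic.Linarith.sub_neg_of_lt hρ)) (Mathlib.Tactic.Linarith.sub_nonpos_of_le h1)]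
  have k2 : (1 - e / 4) * (b * S.ρ) ≤ a * S.ρ := by linarith only [hρ, hn, h2, mul_nonneg_of_nonpos_of_nonpos (le_of_lt (Mathlib.Tactic.Linarith.sub_neg_of_lt hρ)) (Mathlib.Tactic.Linarith.sub_nonpos_of_le hn), mul_nonneg_of_nonpos_of_nonpos (le_of_lt (Mathlib.Tactic.Linarith.sub_neg_of_lt hρ)) (Mathlib.Tactic.Linarith.sub_nonpos_of_le h2)]
  constructor
  · rintro ⟨-, h⟩
    refine ⟨hα, g2.resolve_right fun h' => ?_⟩
    have k3 : (1 - e / 4) * (S.Tc * (1 + δ)) ≤ (1 - e / 4) * (b * S.ρ) :=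
      mul_le_mul_of_nonneg_left h' (by linarith only [hδ, he0, he])
    have k4 : 1 < (1 - e / 4) * (1 + δ) := by linarith only [he0, he, hδ, mul_nonneg_of_nonpos_of_nonpos (Mathlib.Tactic.Linarith.sub_nonpos_of_le hδ) (le_of_lt (Mathlib.Tactic.Linarith.sub_neg_of_lt he0))]
    linarith only [k2, h, k3, hT, k4, mul_pos_of_neg_of_neg (Mathlib.Tactic.Linarith.sub_neg_of_lt hT) (Mathlib.Tactic.Linarith.sub_neg_of_lt k4)]
  · rintro ⟨-, h⟩
    refine ⟨hν, g1.resolve_right fun h' => ?_⟩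
    have k3 : (1 + e / 4) * (b * S.ρ) ≤ (1 + e / 4) * S.Tc :=
      mul_le_mul_of_nonneg_left h (by linarith only [hδ, he0, he])
    linarith only [k1, h', k3, hT, he0, he, mul_pos_of_neg_of_neg (Mathlib.Tactic.Linarith.sub_neg_of_lt hT) (Mathlib.Tactic.Linarith.sub_neg_of_lt he0), mul_nonneg_of_nonpos_of_nonpos (le_of_lt (Mathlib.Tactic.Linarith.sub_neg_of_lt hT)) (Mathlib.Tactic.Linarith.sub_nonpos_of_le he)]
theorem chain_bc : Chain S.bc (ball 0 (32 * S.ρ)) :=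
  (S.D.chain_lat S.B (fun k hk => S.apos k (S.env_B.1 hk).1)
    (fun k hk => S.far k (S.env_B.1 hk).1)).add
  (S.D.chain_lat S.C (fun k hk => S.apos k (S.env_C.1 hk).1)
    (fun k hk => S.far k (S.env_C.1 hk).1))
theorem chain_lo : Chain S.lo (ball 0 (32 * S.ρ)) :=
  S.chain_bc.add ((S.D.chain_exps S.Lo S.D.cf).mono (Set.subset_univ _))
theorem EC.mono {j : ℕ} {E E' : ℝ} (h : S.EC j E) (hE : E ≤ E') : S.EC j E' :=
  fun r hr hrr => (h r hr hrr).trans hE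
theorem EB.mono {j : ℕ} {E E' : ℝ} (h : S.EB j E) (hE : E ≤ E') : S.EB j E' :=
  fun r hr hrr => (h r hr hrr).trans hE
theorem EA.mono {g : ι × ℕ → ℂ} {j : ℕ} {E E' : ℝ} (h : S.EA g j E) (hE : E ≤ E') : S.EA g j E' :=
  fun r hr hrr => (h r hr hrr).trans hE

/-- for `j ≥ 1`, on the disc, the full sum is `lo` plus high atoms plus the tail -/
theorem lat_eq {j : ℕ} (hj : 1 ≤ j) {z : ℂ} (hz : ‖z‖ < 32 * S.ρ) :
    S.D.lat S.D.s j z = S.lo j z + S.D.exps S.Hi S.D.cf j z + S.D.tailA S.A (M ^ 263) j z := by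
  have h1 := S.D.lat_eq_exps_add_tail S.A (fun k hk => S.apos k (S.env_A.1 hk).1) S.nfl_A
    (M ^ 263) j (z := z)
    (fun k hk => lt_of_le_of_lt (abs_re_le_norm z) (lt_of_lt_of_le hz (S.x_A k hk)))
  rw [if_neg (by omega), add_zero] at h1
  have h2 : S.D.exps S.PA S.D.cf j z = S.D.exps S.Lo S.D.cf j z + S.D.exps S.Hi S.D.cf j z :=
    (sum_filter_add_sum_filter_not _ _ _).symm
  rw [S.lat_split, h1]
  change _ + (S.D.exps S.PA S.D.cf j z + _) = _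
  rw [h2]
  unfold lo bc
  ring

theorem env_latC {j : ℕ} (hj1 : 1 ≤ j) (hj : j ≤ 3 * M ^ 8000) {E : ℝ} (hE : 0 ≤ E)
    (h : S.EC j E) {z : ℂ} (hz : ‖z‖ ≤ 4 * S.ρ) {K : ℝ} (hK0 : 0 ≤ K)
    (hK : ∀ p : ℂ, 32 * S.ρ ≤ ‖p‖ → ‖p‖ ^ (j + 1) ≤ K * ‖(z.re : ℂ) - p‖ ^ (j + 1)) :
    ‖S.D.lat S.C j z‖ ≤ Real.exp M * (K * E) := by
  classical
  have hρ := S.ρpos
  have e1 : S.D.lat S.C j z = ∑ r ∈ S.C.filter (fun r => S.cl r = r), S.D.lat (cls S.C S.cl r) j z :=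
    sum_cls S.hcl.mem S.hcl.idem (Subset.refl _)
      (fun k hk => ⟨fun _ => S.hcl.mem k hk, fun _ => hk⟩) _
  have hx0 : ∀ k ∈ S.C, S.D.x k ≠ 0 := fun k hk h0 => by
    have := S.x_C k hk
    rw [h0, abs_zero] at this
    linarith only [hρ, this]
  have hc : ((S.C.filter (fun r => S.cl r = r)).card : ℝ) ≤ M := by
    have h1 := (card_filter_le S.C (fun r => S.cl r = r)).trans S.env_cardC
    have h2 := S.par.two
    exact_mod_cast (by omega : (S.C.filter (fun r => S.cl r = r)).card ≤ M)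
  have hb : 0 ≤ (M : ℝ) ^ 8000 * (K * E) := mul_nonneg (S.par.pow_pos _).le (mul_nonneg hK0 hE)
  rw [e1]
  refine (env_sum _ _ hb (fun r hr => ?_) hc).trans ?_
  · obtain ⟨hr, hrr⟩ := mem_filter.1 hr
    have hxr := S.x_C r hr
    have hT : S.D.T r ≤ (M : ℝ) ^ 7990 :=
      (S.env_C.1 hr).2.2.trans (S.TA2.trans (S.par.mul_pow_le (by norm_num) (by norm_num)))
    have h1 := cluster_bound S.par S.D S.C S.cl S.hcl (fun k hk => S.apos k (S.env_C.1 hk).1) hx0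
      S.nfl_C r hr hrr hT j hj1 (hj.trans (Nat.mul_le_mul_right _ (by norm_num))) z (by linarith only [hz, hρ, hxr]) 0
      le_rfl (abs_nonneg _) (fun l => abs_nonneg _)
    rw [zero_pow two_ne_zero, mul_zero, zero_div, neg_zero, Real.exp_zero, mul_one,
      mul_div_assoc] at h1
    refine h1.trans (mul_le_mul_of_nonneg_left ?_ (S.par.pow_pos _).le)
    have h2 := hK (S.D.x r) (by rwa [norm_real, Real.norm_eq_abs])
    rw [← ofReal_sub, norm_real, norm_real, Real.norm_eq_abs, Real.norm_eq_abs] at h2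
    exact env_div (S.NC_nonneg r) (pow_pos (by linarith only [hρ, hxr]) _) hK0 (pow_nonneg (abs_nonneg _) _) h2
      (h r hr hrr)
  · rw [← mul_assoc, ← pow_succ']
    exact mul_le_mul_of_nonneg_right (S.par.pow_le_exp (by norm_num)) (mul_nonneg hK0 hE)

theorem env_poles {j : ℕ} (hj : j ≤ 3 * M ^ 8000) {E : ℝ} (hE : 0 ≤ E)
    (h : S.EB j E) {z : ℂ} (hz : ‖z‖ ≤ 4 * S.ρ) {K : ℝ} (hK0 : 0 ≤ K)
    (hK : ∀ p : ℂ, 32 * S.ρ ≤ ‖p‖ → ‖p‖ ^ (j + 1) ≤ K * ‖z - p‖ ^ (j + 1)) :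
    ‖S.D.poles S.PB j z‖ ≤ Real.exp M * (K * E) := by
  classical
  have hρ := S.ρpos
  have e1 : S.D.poles S.PB j z =
      ∑ r ∈ S.PB.filter (fun r => S.bt r = r), S.D.poles (cls S.PB S.bt r) j z :=
    sum_cls S.hbt.mem S.hbt.idem (Subset.refl _)
      (fun k hk => ⟨fun _ => S.hbt.mem k hk, fun _ => hk⟩) _
  have hc : ((S.PB.filter (fun r => S.bt r = r)).card : ℝ) ≤ (M : ℝ) ^ 271 := by
    exact_mod_cast (card_filter_le S.PB (fun r => S.bt r = r)).trans S.card_PB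
  have hb : 0 ≤ 2 * (K * E) := mul_nonneg zero_le_two (mul_nonneg hK0 hE)
  rw [e1]
  refine (env_sum _ _ hb (fun r hr => ?_) hc).trans ?_
  · obtain ⟨hr, hrr⟩ := mem_filter.1 hr
    have hxr := S.node_PB r hr
    have h1 := pole_atom_bound S.par S.D S.PB S.bt S.hbt S.node_ne r hr hrr j
      (hj.trans (Nat.mul_le_mul_right _ (by norm_num))) z (by linarith only [hz, hρ, hxr])
    rw [mul_div_assoc] at h1
    refine h1.trans (mul_le_mul_of_nonneg_left ?_ zero_le_two)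
    exact env_div Nm_nonneg (pow_pos (by linarith only [hρ, hxr]) _) hK0 (pow_nonneg (norm_nonneg _) _) (hK _ hxr)
      (h r hr hrr)
  · rw [← mul_assoc, mul_comm _ (2 : ℝ)]
    refine mul_le_mul_of_nonneg_right ?_ (mul_nonneg hK0 hE)
    exact (S.par.mul_pow_le (k := 272) (by norm_num) (by norm_num)).trans
      (S.par.pow_le_exp (by norm_num))

theorem env_tailB {j : ℕ} (hj1 : M ^ 8000 ≤ j) {E : ℝ} (hE : 0 ≤ E) (h : S.EB j E) {z : ℂ}
    (hz : ‖z‖ ≤ 4 * S.ρ) :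
    ‖S.D.lat S.B j z - S.D.poles S.PB j z‖ ≤ Real.exp (-(10 * (M : ℝ) ^ 8000)) * E :=
  tailB_le S.par S.D S.B S.env_cardB (fun k hk => S.apos k (S.env_B.1 hk).1) S.ρ
    (fun _ hk => (S.env_B.1 hk).2.trans S.TB2)
    (fun k hk => S.far k (S.env_B.1 hk).1 1 (fun h => one_ne_zero h.2)) S.bt S.hbt S.node_ne j hj1 E hE
    h z hz

theorem env_exps (g : ι × ℕ → ℂ) {j : ℕ} (hj : j ≤ 3 * M ^ 8000) {E : ℝ} (hE : 0 ≤ E)
    (h : S.EA g j E) {R : ℝ} (hR : R ≤ 4 * S.ρ) {z : ℂ} (hz : ‖z‖ ≤ R) :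
    ‖S.D.exps S.Lo g j z‖ ≤ Real.exp M * (Real.exp (S.Tc * R / S.ρ) * E) := by
  classical
  have hρ := S.ρpos
  have hT := S.env_Tc
  have e1 : S.D.exps S.Lo g j z =
      ∑ r ∈ S.Lo.filter (fun r => S.at' r = r), S.D.exps (cls S.PA S.at' r) g j z :=
    sum_cls S.hat.mem S.hat.idem (filter_subset _ _) S.Lo_sat _
  have hc : ((S.Lo.filter (fun r => S.at' r = r)).card : ℝ) ≤ (M : ℝ) ^ 264 := by
    have h1 := (card_filter_le S.Lo (fun r => S.at' r = r)).trans (card_filter_le _ _)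
    have h2 := S.card_PA
    exact_mod_cast h1.trans ((Nat.le_mul_of_pos_left _ two_pos).trans h2)
  have hb0 : 0 ≤ Real.exp (S.Tc * R / S.ρ) * E := mul_nonneg (Real.exp_pos _).le hE
  have hb : 0 ≤ 2 * (Real.exp (S.Tc * R / S.ρ) * E) := mul_nonneg zero_le_two hb0
  rw [e1]
  refine (env_sum _ _ hb (fun r hr => ?_) hc).trans ?_
  · obtain ⟨hr, hrr⟩ := mem_filter.1 hr
    obtain ⟨hr1, hr2⟩ := S.env_Lo.1 hr
    have h0 : |S.D.freq r| * ‖z‖ ≤ S.Tc * R / S.ρ := by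
      rw [le_div_iff₀ hρ, mul_right_comm]
      exact mul_le_mul hr2 hz (norm_nonneg _) hT.le
    have h2 : S.Tc * R / S.ρ ≤ (M : ℝ) ^ 9000 := by
      have h3 : S.Tc * R / S.ρ ≤ 4 * S.Tc := by
        rw [div_le_iff₀ hρ]
        linarith only [hR, hT, mul_nonneg_of_nonpos_of_nonpos (Mathlib.Tactic.Linarith.sub_nonpos_of_le hR) (le_of_lt (Mathlib.Tactic.Linarith.sub_neg_of_lt hT))]
      have h4 : 8 * (M : ℝ) ^ 8540 ≤ (M : ℝ) ^ 9000 := S.par.mul_pow_le (by norm_num) (by norm_num)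
      have h5 := S.Tc2
      generalize (M : ℝ) ^ 8540 = Y at *
      generalize (M : ℝ) ^ 9000 = Y' at *
      linarith only [h3, h5, h4]
    have h1 := exp_atom_bound S.par S.D S.PA S.at' S.hat S.freq_ne g r hr1 hrr j
      (hj.trans (Nat.mul_le_mul_right _ (by norm_num))) z (h0.trans h2)
    refine h1.trans ?_
    rw [mul_assoc, mul_comm (Real.exp _) E]
    refine mul_le_mul_of_nonneg_left
      (mul_le_mul (h r hr hrr) (Real.exp_le_exp.2 ?_) (Real.exp_pos _).le hE) zero_le_two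
    refine (le_abs_self _).trans (le_trans ?_ h0)
    rw [abs_mul]
    exact mul_le_mul_of_nonneg_left (abs_re_le_norm z) (abs_nonneg _)
  · rw [← mul_assoc, mul_comm _ (2 : ℝ)]
    refine mul_le_mul_of_nonneg_right ?_ hb0
    exact (S.par.mul_pow_le (k := 265) (by norm_num) (by norm_num)).trans
      (S.par.pow_le_exp (by norm_num))

theorem env_bc {j : ℕ} (hj1 : M ^ 8000 ≤ j) (hj : j ≤ 3 * M ^ 8000) {E : ℝ} (hE : 0 ≤ E)
    (hC : S.EC j E) (hB : S.EB j E) {z : ℂ} (hz : ‖z‖ ≤ 4 * S.ρ) {K : ℝ} (hK0 : 1 ≤ K)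
    (hK : ∀ p : ℂ, 32 * S.ρ ≤ ‖p‖ → ‖p‖ ^ (j + 1) ≤ K * ‖z - p‖ ^ (j + 1))
    (hK' : ∀ p : ℂ, 32 * S.ρ ≤ ‖p‖ → ‖p‖ ^ (j + 1) ≤ K * ‖(z.re : ℂ) - p‖ ^ (j + 1)) :
    ‖S.bc j z‖ ≤ 3 * (Real.exp M * (K * E)) := by
  have h1 := S.env_latC ((Nat.one_le_pow _ _ S.par.one_leN).trans hj1) hj hE hC hz
    (zero_le_one.trans hK0) hK'
  have h2 := S.env_poles hj hE hB hz (zero_le_one.trans hK0) hK
  have h3 := S.env_tailB hj1 hE hB hz
  have h4 : Real.exp (-(10 * (M : ℝ) ^ 8000)) * E ≤ Real.exp M * (K * E) := by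
    refine mul_le_mul (Real.exp_le_exp.2 ?_) (le_mul_of_one_le_left hE hK0) hE (Real.exp_pos _).le
    have := S.par.pow_pos 8000
    have := S.par.pos
    generalize (M : ℝ) ^ 8000 = Y at *
    linarith
  have e : S.bc j z = (S.D.lat S.B j z - S.D.poles S.PB j z) + S.D.poles S.PB j z +
      S.D.lat S.C j z := by
    unfold bc
    ring
  rw [e]
  refine (norm_add₃_le).trans ?_
  linarith only [h1, h2, h3, h4]

theorem latC_zero {j : ℕ} (hj1 : 1 ≤ j) (hj : j ≤ 3 * M ^ 8000) {E : ℝ} (hE : 0 ≤ E)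
    (h : S.EC j E) : ‖S.D.lat S.C j 0‖ ≤ Real.exp M * E := by
  have hρ := S.ρpos
  have := S.env_latC hj1 hj hE h (z := 0) (by rw [norm_zero]; linarith only [hρ]) zero_le_one
    (fun p _ => by rw [zero_re, ofReal_zero, zero_sub, norm_neg, one_mul])
  rwa [one_mul] at this

theorem tailB_zero {j : ℕ} (hj1 : M ^ 8000 ≤ j) {E : ℝ} (hE : 0 ≤ E) (h : S.EB j E) :
    ‖S.D.lat S.B j 0 - S.D.poles S.PB j 0‖ ≤ Real.exp (-(10 * (M : ℝ) ^ 8000)) * E := by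
  have hρ := S.ρpos
  exact S.env_tailB hj1 hE h (by rw [norm_zero]; linarith only [hρ])

theorem bc_zero {j : ℕ} (hj1 : M ^ 8000 ≤ j) (hj : j ≤ 3 * M ^ 8000) {E : ℝ} (hE : 0 ≤ E)
    (hC : S.EC j E) (hB : S.EB j E) : ‖S.bc j 0‖ ≤ 3 * Real.exp M * E := by
  have hρ := S.ρpos
  have := S.env_bc hj1 hj hE hC hB (z := 0) (by rw [norm_zero]; linarith only [hρ]) le_rfl
    (fun p _ => by rw [zero_sub, norm_neg, one_mul])
    (fun p _ => by rw [zero_re, ofReal_zero, zero_sub, norm_neg, one_mul])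
  rwa [one_mul, ← mul_assoc] at this

theorem expsLo_zero (g : ι × ℕ → ℂ) {j : ℕ} (hj : j ≤ 3 * M ^ 8000) {E : ℝ} (hE : 0 ≤ E)
    (h : S.EA g j E) : ‖S.D.exps S.Lo g j 0‖ ≤ Real.exp M * E := by
  have hρ := S.ρpos
  have := S.env_exps g hj hE h (R := 0) (by linarith only [hρ]) (z := 0) (by rw [norm_zero])
  rwa [mul_zero, zero_div, Real.exp_zero, one_mul] at this

theorem lo_zero {j : ℕ} (hj1 : M ^ 8000 ≤ j) (hj : j ≤ 3 * M ^ 8000) {E : ℝ} (h : S.Env j E) :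
    ‖S.lo j 0‖ ≤ 4 * Real.exp M * E := by
  obtain ⟨hE, hC, hB, hA⟩ := h
  have h1 := S.bc_zero hj1 hj hE hC hB
  have h2 := S.expsLo_zero _ hj hE hA
  refine (norm_add_le _ _).trans ?_
  linarith only [h1, h2]

/-- on discs: poles cost `(8/7)^(j+1) ≤ exp (M^8000)`, exponentials `exp (Tc R / ρ)` -/
theorem lo_sup {j : ℕ} (hj1 : M ^ 8000 ≤ j) (hj : j ≤ 3 * M ^ 8000) {E : ℝ} (h : S.Env j E)
    {R : ℝ} (hR0 : 0 ≤ R) (hR : R ≤ 4 * S.ρ) {z : ℂ} (hz : ‖z‖ ≤ R) :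
    ‖S.lo j z‖ ≤ Real.exp (2 * (M : ℝ) ^ 8000 + S.Tc * R / S.ρ) * E := by
  obtain ⟨hE, hC, hB, hA⟩ := h
  have hz4 := hz.trans hR
  have hz5 : ‖(z.re : ℂ)‖ ≤ 4 * S.ρ := by
    rw [norm_real, Real.norm_eq_abs]
    exact (abs_re_le_norm z).trans hz4
  have h87 := env_87 S.par hj
  have h1 := S.env_bc hj1 hj hE hC hB hz4 (K := Real.exp ((M : ℝ) ^ 8000))
    (Real.one_le_exp (S.par.pow_pos _).le)
    (fun p hp => (env_ratio hz4 hp _).trans
      (mul_le_mul_of_nonneg_right h87 (pow_nonneg (norm_nonneg _) _)))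
    (fun p hp => (env_ratio hz5 hp _).trans
      (mul_le_mul_of_nonneg_right h87 (pow_nonneg (norm_nonneg _) _)))
  have h2 := S.env_exps _ hj hE hA hR hz
  have h3 : 0 ≤ S.Tc * R / S.ρ := div_nonneg (mul_nonneg S.env_Tc.le hR0) S.ρpos.le
  have h4 : 2 * (M : ℝ) ^ 1 ≤ (M : ℝ) ^ 8000 := S.par.mul_pow_le (by norm_num) (by norm_num)
  rw [pow_one] at h4
  have h5 := env_four S.par
  have h6 := S.par.pos
  refine (norm_add_le _ _).trans ((add_le_add h1 h2).trans ?_)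
  generalize (M : ℝ) ^ 8000 = Y at *
  generalize S.Tc * R / S.ρ = t at *
  have h7 : Real.exp M * (Real.exp Y * E) ≤ Real.exp (M + Y + t) * E := by
    rw [← mul_assoc, ← Real.exp_add]
    exact mul_le_mul_of_nonneg_right (Real.exp_le_exp.2 (by linarith only [h3])) hE
  have h8 : Real.exp M * (Real.exp t * E) ≤ Real.exp (M + Y + t) * E := by
    rw [← mul_assoc, ← Real.exp_add]
    exact mul_le_mul_of_nonneg_right (Real.exp_le_exp.2 (by linarith only [h6, h4])) hE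
  have h9 : 4 * (Real.exp (M + Y + t) * E) ≤ Real.exp (2 * Y + t) * E := by
    rw [← mul_assoc]
    refine mul_le_mul_of_nonneg_right ?_ hE
    refine (mul_le_mul_of_nonneg_right h5 (Real.exp_pos _).le).trans ?_
    rw [← Real.exp_add]
    exact Real.exp_le_exp.2 (by linarith only [h4])
  linarith only [h7, h8, h9]

theorem env_unmod (l : List ℝ) (α : ι × ℕ) (hα : α ∈ S.PA) {t K : ℝ} (ht0 : 0 ≤ t)
    (ht : ∀ μ ∈ l, μ ≠ 0 ∧ |S.D.freq α| ≤ t * |μ|) (ht1 : t * (1 + eA1 M) < 1)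
    (hK : (1 - t * (1 + eA1 M))⁻¹ ^ l.length ≤ K) :
    S.NA S.D.cf α ≤ K * S.NA (S.D.cfL l) α := by
  have he0 := env_eA1_pos S.par
  have hu : ∀ k ∈ cls S.PA S.at' α, ‖rv (fun ν => (S.D.freq ν : ℂ)) S.at' (eA1 M) k‖ ≤ 1 :=
    fun k hk => (S.hat.rv_le he0 S.env_freq_ne k (mem_cls.1 hk).1).trans (by norm_num)
  have hv : ∀ k ∈ cls S.PA S.at' α, ‖(fun _ : ι × ℕ => (0 : ℂ)) k‖ ≤ 1 := fun _ _ => by simp
  have hq : ∀ μ ∈ l, ‖(S.D.freq α : ℂ) / (μ : ℂ)‖ ≤ t := fun μ hμ => by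
    rw [norm_div, norm_real, norm_real, Real.norm_eq_abs, Real.norm_eq_abs,
      div_le_iff₀ (abs_pos.2 (ht μ hμ).1)]
    exact (ht μ hμ).2
  have hm0 : ∀ μ ∈ l, Mu (cls S.PA S.at' α) (rv (fun ν => (S.D.freq ν : ℂ)) S.at' (eA1 M))
      (fun _ => 0) (fun ν => (S.D.freq ν : ℂ) / (μ : ℂ)) (t * (1 + eA1 M)) := by
    intro μ hμ
    have h1 := ((Mu.one (s := cls S.PA S.at' α) (u := rv (fun ν => (S.D.freq ν : ℂ)) S.at' (eA1 M))
      (v := fun _ => 0)).add (Mu.fst.smul (eA1 M : ℂ))).smul ((S.D.freq α : ℂ) / (μ : ℂ))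
    refine (h1.mono ?_).congr fun ν hν => ?_
    · rw [norm_real, Real.norm_eq_abs, abs_of_pos he0, mul_one]
      exact mul_le_mul_of_nonneg_right (hq μ hμ) (by linarith only [he0])
    · obtain ⟨h2, h3⟩ := mem_cls.1 hν
      have h4 := rv_eq (f := fun ν => (S.D.freq ν : ℂ)) (rep := S.at') he0.ne' (k := ν)
        (by rw [h3]; exact S.env_freq_ne α hα)
      rw [h3] at h4
      rw [h4]
      ring
  have hm1 : ∀ μ ∈ l, Mu (cls S.PA S.at' α) (rv (fun ν => (S.D.freq ν : ℂ)) S.at' (eA1 M))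
      (fun _ => 0) (fun ν => (1 - (S.D.freq ν : ℂ) / (μ : ℂ))⁻¹) (1 - t * (1 + eA1 M))⁻¹ := by
    intro μ hμ
    have := (hm0 μ hμ).inv_sub hu hv (mul_nonneg ht0 (by linarith)) (c := 1) (by rwa [norm_one])
    rwa [norm_one] at this
  have hm2 := Mu.listprod l (fun μ ν => (1 - (S.D.freq ν : ℂ) / (μ : ℂ))⁻¹)
    (fun _ => (1 - t * (1 + eA1 M))⁻¹) hm1
  rw [List.map_const', List.prod_replicate] at hm2
  have h5 := (hm2.mono hK) _ _ (nb_Nm (g := S.D.cfL l) hu hv)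
  refine NB.Nm_le (h5.congr (fun _ _ => rfl) (fun _ _ => rfl) fun ν hν => ?_)
  have h6 : ∀ μ ∈ l, (1 - (S.D.freq ν : ℂ) / (μ : ℂ)) ≠ 0 := fun μ hμ h0 => by
    have h7 := (hm0 μ hμ).pt hu hv ν hν
    rw [sub_eq_zero] at h0
    rw [← h0, norm_one] at h7
    linarith only [ht1, h7]
  unfold Dat.cfL Dat.cf Lm
  rw [← mul_assoc, ← List.prod_map_mul, List.prod_eq_one, one_mul]
  intro y hy
  obtain ⟨μ, hμ, rfl⟩ := List.mem_map.1 hy
  exact inv_mul_cancel₀ (h6 μ hμ)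

theorem env_adm {l : List ℝ} (hl : S.Adm l) : ∀ μ ∈ l, μ ≠ 0 ∧ S.Tc ≤ |μ| * S.ρ := by
  intro μ hμ
  have h1 := hl.2 μ hμ
  have h2 : 0 < ((M : ℝ) ^ 265)⁻¹ := inv_pos.2 (S.par.pow_pos _)
  have h3 := S.env_Tc
  have h4 : S.Tc ≤ |μ| * S.ρ := le_trans (le_mul_of_one_le_right h3.le (by linarith only [h2])) h1
  refine ⟨fun h0 => ?_, h4⟩
  rw [h0, abs_zero, zero_mul] at h4
  linarith only [h3, h4]

/-- each factor `(1 - μ/μ')⁻¹` is a multiplier of norm `≤ 4 M^265` on a low atom -/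
theorem unmod_le (l : List ℝ) (hl : S.Adm l) (α : ι × ℕ) (hα : α ∈ S.Lo) (hαα : S.at' α = α) :
    S.NA S.D.cf α ≤ Real.exp ((M : ℝ) ^ 266) * S.NA (S.D.cfL l) α := by
  obtain ⟨h1, h2⟩ := S.env_Lo.1 hα
  have he0 := env_eA1_pos S.par
  have he := env_eA1_le S.par
  have hδ := env_inv_le S.par 265
  have hδ0 : 0 < ((M : ℝ) ^ 265)⁻¹ := inv_pos.2 (S.par.pow_pos _)
  have hρ := S.ρpos
  have h4 : 4 * (((M : ℝ) ^ 265)⁻¹)⁻¹ ≤ Real.exp M := by
    rw [inv_inv]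
    exact (S.par.mul_pow_le (k := 266) (by norm_num) (by norm_num)).trans
      (S.par.pow_le_exp (by norm_num))
  have h5 : Real.exp M ^ l.length ≤ Real.exp ((M : ℝ) ^ 266) := by
    rw [← Real.exp_nat_mul, pow_succ]
    refine Real.exp_le_exp.2 (mul_le_mul_of_nonneg_right ?_ S.par.pos.le)
    exact_mod_cast hl.1
  have h6 := hl.2
  have h7 := S.env_adm hl
  generalize ((M : ℝ) ^ 265)⁻¹ = δ at *
  have h8 : δ / 4 ≤ 1 - (1 + δ)⁻¹ * (1 + eA1 M) := by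
    rw [inv_mul_eq_div, le_sub_comm, div_le_iff₀ (by linarith only [he0, he, hδ])]
    linarith only [he, he0, hδ, mul_pos_of_neg_of_neg (Mathlib.Tactic.Linarith.sub_neg_of_lt he0) (Mathlib.Tactic.Linarith.sub_neg_of_lt he0), mul_nonneg_of_nonpos_of_nonpos (le_of_lt (Mathlib.Tactic.Linarith.sub_neg_of_lt he0)) (Mathlib.Tactic.Linarith.sub_nonpos_of_le he), mul_nonneg_of_nonpos_of_nonpos (le_of_lt (Mathlib.Tactic.Linarith.sub_neg_of_lt he0)) (Mathlib.Tactic.Linarith.sub_nonpos_of_le hδ), mul_nonneg_of_nonpos_of_nonpos (Mathlib.Tactic.Linarith.sub_nonpos_of_le he) (Mathlib.Tactic.Linarith.sub_nonpos_of_le hδ)]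
  refine S.env_unmod l α h1 (t := (1 + δ)⁻¹) (inv_nonneg.2 (by linarith only [he0, he, hδ])) (fun μ hμ => ⟨(h7 μ hμ).1, ?_⟩)
    (by linarith only [he0, he, h8]) (le_trans (pow_le_pow_left₀ (inv_nonneg.2 (by linarith only [he0, he, h8])) ?_ _) h5)
  · rw [inv_mul_eq_div, le_div_iff₀ (by linarith only [he0, he, hδ])]
    refine le_of_mul_le_mul_right ?_ hρ
    refine le_trans ?_ (h6 μ hμ)
    rw [mul_right_comm]
    exact mul_le_mul_of_nonneg_right h2 (by linarith only [he0, he, hδ])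
  · refine (inv_anti₀ (by linarith only [he0, he]) h8).trans (le_trans (le_of_eq ?_) h4)
    rw [inv_div, div_eq_mul_inv]

theorem unmod_le_two (l : List ℝ) (hl : S.Adm l) (α : ι × ℕ) (hα : α ∈ S.Lo) (hαα : S.at' α = α)
    (h : |S.D.freq α| * S.ρ ≤ (M : ℝ) ^ 8000) : S.NA S.D.cf α ≤ 2 * S.NA (S.D.cfL l) α := by
  obtain ⟨h1, -⟩ := S.env_Lo.1 hα
  have he0 := env_eA1_pos S.par
  have he : eA1 M ≤ 1 := env_inv_le S.par _
  have hρ := S.ρpos
  have ht0 : 0 < ((M : ℝ) ^ 540)⁻¹ := inv_pos.2 (S.par.pow_pos _)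
  have h3 : ((M : ℝ) ^ 540)⁻¹ * (M : ℝ) ^ 8540 = (M : ℝ) ^ 8000 := by
    rw [show 8540 = 540 + 8000 from rfl, pow_add, ← mul_assoc,
      inv_mul_cancel₀ (S.par.pow_pos _).ne', one_mul]
  have h4 : (M : ℝ) ^ 265 * (4 * ((M : ℝ) ^ 540)⁻¹) ≤ 1 := by
    have := S.par.inv_pow_le (c := 4) (i := 265) (k := 540) (by norm_num) (by norm_num)
    refine (mul_le_mul_of_nonneg_left this (S.par.pow_pos _).le).trans (le_of_eq ?_)
    exact mul_inv_cancel₀ (S.par.pow_pos _).ne'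
  have h5 : (l.length : ℝ) ≤ (M : ℝ) ^ 265 := by exact_mod_cast hl.1
  have h6 : (1 : ℝ) ≤ (M : ℝ) ^ 265 := one_le_pow₀ S.par.one_le
  have h7 := S.env_adm hl
  have h8 := S.Tc1
  generalize ((M : ℝ) ^ 540)⁻¹ = t at *
  generalize (M : ℝ) ^ 265 = Y1 at *
  generalize (M : ℝ) ^ 8540 = Y2 at *
  generalize (M : ℝ) ^ 8000 = Y3 at *
  have h9 : t * (1 + eA1 M) ≤ 2 * t := by linarith only [he, ht0, mul_nonneg_of_nonpos_of_nonpos (Mathlib.Tactic.Linarith.sub_nonpos_of_le he) (le_of_lt (Mathlib.Tactic.Linarith.sub_neg_of_lt ht0))]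
  have h10 : 4 * t ≤ 1 := by linarith only [h4, ht0, h6, mul_nonneg_of_nonpos_of_nonpos (le_of_lt (Mathlib.Tactic.Linarith.sub_neg_of_lt ht0)) (Mathlib.Tactic.Linarith.sub_nonpos_of_le h6)]
  have h11 : 0 ≤ t * (1 + eA1 M) := by positivity
  refine S.env_unmod l α h1 (t := t) ht0.le (fun μ hμ => ⟨(h7 μ hμ).1, ?_⟩) (by linarith only [ht0, h9, h10]) ?_
  · refine le_of_mul_le_mul_right ?_ hρ
    rw [mul_assoc]
    refine h.trans (h3 ▸ mul_le_mul_of_nonneg_left (h8.trans (h7 μ hμ).2) ht0.le)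
  · generalize t * (1 + eA1 M) = x at *
    have h12 := one_add_mul_le_pow (a := -x) (by linarith only [ht0, h10, h9]) l.length
    have h13 : (l.length : ℝ) * x ≤ 1 / 2 := by
      have : (l.length : ℝ) * x ≤ Y1 * (2 * t) := mul_le_mul h5 h9 h11 (by linarith)
      linarith only [h4, this]
    rw [inv_pow, inv_le_comm₀ (pow_pos (by linarith only [ht0, h10, h9]) _) two_pos, sub_eq_add_neg]
    linarith only [h12, h13]

/-- if `|μ| d > 10 M^8000` the atom grows by a factor `≥ 3` per step relative to `d^{-j}` -/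
theorem unmod_window (l : List ℝ) (hl : S.Adm l) (d E : ℝ) (hd : 16 * S.ρ ≤ d) (hE : 0 ≤ E)
    (j1 j2 : ℕ) (hj2 : j2 + M ^ 267 ≤ 3 * M ^ 8000)
    (h : ∀ j, j1 ≤ j → j ≤ j2 + M ^ 267 → S.EA (S.D.cfL l) j (E / d ^ (j + 1))) :
    ∀ j, j1 ≤ j → j ≤ j2 → S.EA S.D.cf j (2 * E / d ^ (j + 1)) := by
  intro j hj hj' α hα hαα
  have hρ := S.ρpos
  have hd0 : 0 < d := by linarith only [hd, hρ]
  have hf : (0 : ℝ) < j.factorial := by exact_mod_cast j.factorial_pos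
  have hw : 0 ≤ |S.D.freq α| ^ j / (j.factorial : ℝ) :=
    div_nonneg (pow_nonneg (abs_nonneg _) _) hf.le
  rw [mul_div_assoc, mul_div_assoc]
  by_cases hc : |S.D.freq α| * S.ρ ≤ (M : ℝ) ^ 8000
  · have h1 := h j hj (hj'.trans (Nat.le_add_right _ _)) α hα hαα
    rw [mul_div_assoc] at h1
    refine (mul_le_mul_of_nonneg_right (S.unmod_le_two l hl α hα hαα hc) hw).trans ?_
    rw [mul_assoc]
    exact mul_le_mul_of_nonneg_left h1 zero_le_two
  · have h1 := h (j + M ^ 267) (hj.trans (Nat.le_add_right _ _)) (Nat.add_le_add_right hj' _) α hα hαα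
    have h2 := S.unmod_le l hl α hα hαα
    have h3 : ((j + M ^ 267 : ℕ) : ℝ) ≤ 3 * (M : ℝ) ^ 8000 := by
      exact_mod_cast (Nat.add_le_add_right hj' _).trans hj2
    have h4 : (M : ℝ) ^ 266 ≤ ((M ^ 267 : ℕ) : ℝ) := by
      rw [Nat.cast_pow]
      exact S.par.pow_mono (by norm_num)
    have h5 := env_fact j (M ^ 267)
    have hN : 0 ≤ S.NA (S.D.cfL l) α := Nm_nonneg
    have hY := S.par.pow_pos 8000
    generalize M ^ 267 = n at *
    generalize (M : ℝ) ^ 266 = Y1 at *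
    generalize (M : ℝ) ^ 8000 = Y at *
    generalize S.NA (S.D.cfL l) α = N at *
    have hμ0 := abs_nonneg (S.D.freq α)
    generalize |S.D.freq α| = μ at *
    have hf' : (0 : ℝ) < (j + n).factorial := by exact_mod_cast (j + n).factorial_pos
    have h6 : Real.exp 1 * ((j + n : ℕ) : ℝ) ≤ μ * d := by
      have := Real.exp_one_lt_d9
      have h7 : Real.exp 1 * ((j + n : ℕ) : ℝ) ≤ 3 * (3 * Y) :=
        mul_le_mul (by linarith only [this]) h3 (Nat.cast_nonneg _) (by norm_num)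
      have h8 : μ * (16 * S.ρ) ≤ μ * d := mul_le_mul_of_nonneg_left hd hμ0
      linarith only [hY, hc, h7, h8]
    have h7 : Real.exp Y1 * ((j + n : ℕ) : ℝ) ^ n ≤ μ ^ n * d ^ n := by
      rw [← mul_pow]
      refine le_trans ?_ (pow_le_pow_left₀ (by positivity) h6 n)
      rw [mul_pow, ← Real.exp_nat_mul, mul_one]
      exact mul_le_mul_of_nonneg_right (Real.exp_le_exp.2 h4) (by positivity)
    rw [div_le_div_iff₀ hf' (pow_pos hd0 _)] at h1
    have h8 : Real.exp Y1 * N * (μ ^ j / (j.factorial : ℝ)) ≤ E / d ^ (j + 1) := by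
      rw [← mul_div_assoc, div_le_div_iff₀ hf (pow_pos hd0 _)]
      have hpos : (0 : ℝ) < μ ^ n * d ^ n := by
        have : 0 < μ * d := by linarith only [hY, hc, hd, hμ0, mul_nonneg_of_nonpos_of_nonpos (Mathlib.Tactic.Linarith.sub_nonpos_of_le hd) (Mathlib.Tactic.Linarith.sub_nonpos_of_le hμ0)]
        rw [← mul_pow]
        exact pow_pos this _
      refine le_of_mul_le_mul_right ?_ hpos
      calc Real.exp Y1 * N * μ ^ j * d ^ (j + 1) * (μ ^ n * d ^ n)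
          = Real.exp Y1 * (N * μ ^ (j + n) * d ^ (j + n + 1)) := by ring
        _ ≤ Real.exp Y1 * (E * ((j.factorial : ℝ) * ((j + n : ℕ) : ℝ) ^ n)) :=
          mul_le_mul_of_nonneg_left (h1.trans (mul_le_mul_of_nonneg_left h5 hE)) (Real.exp_pos _).le
        _ = E * (j.factorial : ℝ) * (Real.exp Y1 * ((j + n : ℕ) : ℝ) ^ n) := by ring
        _ ≤ _ := mul_le_mul_of_nonneg_left h7 (mul_nonneg hE hf.le)
    have h9 : 0 ≤ E / d ^ (j + 1) := div_nonneg hE (pow_pos hd0 _).le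
    have h10 := mul_le_mul_of_nonneg_right h2 hw
    linarith only [h8, h9, h10]

/-- from a lower bound for `lo` to `Good` (`LL_select` with `μ0 = Tc / ρ`, `lo_zero`) -/
theorem good_of_lo (l : List ℝ) (hl : S.Adm l) (d N X : ℝ) (hd : 16 * S.ρ ≤ d) (hN : 0 ≤ N)
    (j0 i1 : ℕ) (hj0 : M ^ 8000 ≤ j0) (hj1 : j0 + i1 + M ^ 265 ≤ 2 * M ^ 8000) (hX0 : 0 ≤ X)
    (hX : 2 * (X + 2 * M) ≤ i1)
    (henv : ∀ j, j0 ≤ j → j ≤ j0 + i1 + M ^ 265 → S.Env j (N / d ^ (j + 1)))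
    (hlo : Real.exp (-X) * (N / d ^ (j0 + 1)) ≤ ‖S.lo j0 0‖) : S.Good l := by
  have hρ := S.ρpos
  have hd0 : 0 < d := by linarith only [hd, hρ]
  have hT := S.env_Tc
  have hlen := hl.1
  have hdiv : ∀ j : ℕ, N / d ^ (j + 1) * d ^ j = N / d := fun j => by
    rw [pow_succ]
    field_simp
  have hq : 8 * l.length * ((j0 : ℝ) + i1 + l.length) ≤ S.Tc / S.ρ * d := by
    have h1 : (l.length : ℝ) ≤ (M : ℝ) ^ 265 := by exact_mod_cast hlen
    have h2 : (j0 : ℝ) + i1 + l.length ≤ 2 * (M : ℝ) ^ 8000 := by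
      exact_mod_cast (Nat.add_le_add_left hlen _).trans hj1
    have h3 : (M : ℝ) ^ 265 * (M : ℝ) ^ 8000 ≤ S.Tc := by
      rw [← pow_add]
      exact (S.par.pow_mono (by norm_num)).trans S.Tc1
    have h4 : 16 * S.Tc ≤ S.Tc / S.ρ * d := by
      rw [div_mul_eq_mul_div, le_div_iff₀ hρ]
      linarith only [hd, hT, mul_nonneg_of_nonpos_of_nonpos (Mathlib.Tactic.Linarith.sub_nonpos_of_le hd) (le_of_lt (Mathlib.Tactic.Linarith.sub_neg_of_lt hT))]
    have h5 : (l.length : ℝ) * ((j0 : ℝ) + i1 + l.length) ≤ (M : ℝ) ^ 265 * (2 * (M : ℝ) ^ 8000) :=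
      mul_le_mul h1 h2 (by positivity) (S.par.pow_pos _).le
    generalize (M : ℝ) ^ 265 = Y1 at *
    generalize (M : ℝ) ^ 8000 = Y at *
    linarith only [h4, h3, h5]
  have hi1 : X + 1 ≤ (M : ℝ) ^ 8000 := by
    have h1 : i1 ≤ M ^ 8000 := by
      generalize M ^ 265 = n at *
      generalize M ^ 8000 = n' at *
      omega
    have h2 : (i1 : ℝ) ≤ (M : ℝ) ^ 8000 := by exact_mod_cast h1
    have h3 := S.par.one_le
    generalize (M : ℝ) ^ 8000 = Y at *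
    linarith only [hX0, hX, h3, h2]
  obtain ⟨j, h1, h2, h3⟩ := LL_select l (fun j => S.lo j 0) j0 i1 d (Real.exp (-X) * (N / d))
    (X + 2 * M) (S.Tc / S.ρ) hd0 (div_pos hT hρ)
    (fun μ hμ => (div_le_iff₀ hρ).2 (S.env_adm hl μ hμ).2) hq hX
    (by
      rw [← hdiv j0, ← mul_assoc]
      exact mul_le_mul_of_nonneg_right hlo (pow_pos hd0 _).le)
    (fun j hj hj' => by
      have h1 := hj'.trans (Nat.add_le_add_left hlen _)
      have h2 := S.lo_zero (hj0.trans hj)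
        (h1.trans (hj1.trans (Nat.mul_le_mul_right _ (by norm_num)))) (henv j hj h1)
      refine (mul_le_mul_of_nonneg_right h2 (pow_pos hd0 _).le).trans ?_
      rw [mul_assoc, hdiv, ← mul_assoc, ← Real.exp_add]
      refine mul_le_mul_of_nonneg_right ?_ (div_nonneg hN hd0.le)
      refine (mul_le_mul_of_nonneg_right (env_four S.par) (Real.exp_pos _).le).trans ?_
      rw [← Real.exp_add]
      exact Real.exp_le_exp.2 (by linarith only []))
  have h4 : j ≤ j0 + i1 + M ^ 265 := h2.trans (Nat.le_add_right _ _)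
  refine ⟨j, hj0.trans h1, h4.trans hj1, N / d ^ (j + 1), henv j h1 h4, ?_⟩
  refine le_of_mul_le_mul_right (le_trans ?_ h3) (pow_pos hd0 j)
  rw [mul_assoc, hdiv, mul_div_right_comm]
  refine mul_le_mul_of_nonneg_right ?_ (div_nonneg hN hd0.le)
  have h5 : Real.exp (-(M : ℝ) ^ 8000) * Real.exp 1 ≤ Real.exp (-X) := by
    rw [← Real.exp_add]
    refine Real.exp_le_exp.2 ?_
    generalize (M : ℝ) ^ 8000 = Y at *
    linarith only [hi1]
  have h6 := Real.add_one_le_exp (1 : ℝ)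
  have h7 := Real.exp_pos (-(M : ℝ) ^ 8000)
  generalize Real.exp (-(M : ℝ) ^ 8000) = Z at *
  linarith only [h5, h6, h7, mul_nonneg_of_nonpos_of_nonpos (Mathlib.Tactic.Linarith.sub_nonpos_of_le h6) (le_of_lt (Mathlib.Tactic.Linarith.sub_neg_of_lt h7))]

end Setup

end Pool.Agent.Work.MP_97f157_lc.Tau
end
end

-- merged part: Pool.Agent.Work.MP_97f157_lc.TauCC3
section
/-! The middle case: bounds at probe points. -/

noncomputable section
open Complex Finset Metric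

namespace Pool.Agent.Work.MP_97f157_lc.Tau

variable {ι : Type*} {m M : ℕ}

/-- probes with a long range of `j` -/
structure PReg (M ja : ℕ) (d : ℝ) (j : ℕ) (Dd τ : ℝ) : Prop where
  hj1 : ja + 30 * M ^ 7998 ≤ j
  hj2 : j ≤ ja + 34 * M ^ 7998
  hD1 : d * (1 - ((M : ℝ) ^ 5)⁻¹) ≤ Dd
  hD2 : Dd ≤ d * (1 - ((M : ℝ) ^ 5)⁻¹ / 2)
  hτ : |τ| ≤ 3 * d * ((M : ℝ) ^ 5)⁻¹

theorem cc3_eps (hp : Par m M) : 0 < ((M : ℝ) ^ 5)⁻¹ ∧ 1000 * ((M : ℝ) ^ 5)⁻¹ ≤ ((M : ℝ) ^ 2)⁻¹ ∧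
    1000 * ((M : ℝ) ^ 2)⁻¹ ≤ 1 :=
  ⟨inv_pos.2 (hp.pow_pos _), hp.inv_pow_le (by norm_num) (by norm_num), by
    simpa using hp.inv_pow_le (c := 1000) (i := 0) (k := 2) (by norm_num) (by norm_num)⟩

theorem cc3_div {N a b t X : ℝ} {n : ℕ} (hN : 0 ≤ N) (hb : 0 < b) (h : b ≤ Real.exp (-t) * a)
    (hX : X ≤ n * t) : N / a ^ n ≤ Real.exp (-X) * (N / b ^ n) := by
  have ha : 0 < a := by
    by_contra hc
    have := mul_nonpos_of_nonneg_of_nonpos (Real.exp_pos (-t)).le (not_lt.1 hc)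
    linarith
  refine env_div hN (pow_pos hb n) (Real.exp_pos _).le (pow_pos ha n).le ?_ le_rfl
  calc b ^ n ≤ (Real.exp (-t) * a) ^ n := pow_le_pow_left₀ hb.le h n
    _ = Real.exp (-(n * t)) * a ^ n := by rw [mul_pow, ← Real.exp_nat_mul, mul_neg]
    _ ≤ Real.exp (-X) * a ^ n :=
        mul_le_mul_of_nonneg_right (Real.exp_le_exp.2 (neg_le_neg hX)) (pow_pos ha n).le

theorem cc3_log {R d δ : ℝ} (hd : 0 < d) (hR : 0 < R) (hδ0 : 0 ≤ δ) (hδ : δ ≤ 1)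
    (h : δ * d ≤ |R - d|) : δ / 2 ≤ |Real.log (R / d)| := by
  have ht : 0 < R / d := div_pos hR hd
  rcases le_abs'.1 h with h | h
  · have h1 := Real.log_le_sub_one_of_pos ht
    have h2 : R / d ≤ 1 - δ := by rw [div_le_iff₀ hd]; linarith only [h]
    exact le_abs'.2 (Or.inl (by linarith only [hδ0, h1, h2]))
  · have h1 := Real.one_sub_inv_le_log_of_pos ht
    have h2 : (R / d)⁻¹ ≤ 1 - δ / 2 := by
      rw [inv_div, div_le_iff₀ hR]
      (refine le_of_not_gt fun h_nl => ?_; linarith only [h_nl, h, hR, hδ0, hδ, mul_nonneg hδ0 (sub_nonneg.2 hδ), mul_nonneg (mul_nonneg hδ0 (sub_nonneg.2 hδ)) hd.le, mul_nonneg_of_nonpos_of_nonpos (le_of_lt (Mathlib.Tactic.Linarith.sub_neg_of_lt hR)) (Mathlib.Tactic.Linarith.sub_nonpos_of_le (mul_nonneg hδ0 (sub_nonneg.mpr hδ))), mul_nonneg_of_nonpos_of_nonpos (Mathlib.Tactic.Linarith.sub_nonpos_of_le hδ0) (le_of_lt (Mathlib.Tactic.Linarith.sub_neg_of_lt h_nl))])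
    exact le_abs'.2 (Or.inr (by linarith only [h1, h2]))

theorem cc3_re (d Dd τ : ℝ) : (zp d Dd τ).re = -d + Dd := by simp [zp]

theorem cc3_im (d Dd τ : ℝ) : (zp d Dd τ).im = τ := by simp [zp]

theorem cc3_exp {a b N D : ℝ} (h : a ≤ b) (hN : 0 ≤ N) (hD : 0 ≤ D) :
    Real.exp a * (N / D) ≤ Real.exp b * N / D := by
  rw [mul_div_assoc]
  exact mul_le_mul_of_nonneg_right (Real.exp_le_exp.2 h) (div_nonneg hN hD)

theorem Reg.cc3_two (hp : Par m M) {jc j : ℕ} {d Dd τ : ℝ} (hd : 0 < d) (h : Reg M 1 jc d j Dd τ)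
    {j' : ℕ} {τ' : ℝ} (hj : |(j' : ℝ) - j| ≤ (M : ℝ) ^ 7994)
    (hτ : |τ' - τ| ≤ d * ((M : ℝ) ^ 5)⁻¹ / 4) : Reg M 2 jc d j' Dd τ' := by
  have h1 := abs_le.1 h.hj
  have h2 := abs_le.1 hj
  have h3 := abs_le.1 hτ
  have h4 := h.hτ1
  have h5 := h.hτ2
  have h6 : 0 < d * ((M : ℝ) ^ 5)⁻¹ := mul_pos hd (cc3_eps hp).1
  rw [mul_assoc] at h5
  refine ⟨abs_le.2 ⟨by linarith only [h1, h2], by linarith only [h1, h2]⟩, h.hD1, h.hD2, by linarith only [h3, h4], ?_⟩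
  rw [mul_assoc]
  linarith only [h3, h5, h6]

theorem Reg.preg (hp : Par m M) {ja j : ℕ} {d Dd τ : ℝ} (hd : 0 < d)
    (h : Reg M 2 (ja + 32 * M ^ 7998) d j Dd τ) : PReg M ja d j Dd τ := by
  have h1 := abs_le.1 h.hj
  have h2 : (M : ℝ) ^ 7994 ≤ (M : ℝ) ^ 7998 := hp.pow_mono (by norm_num)
  have h3 := h.hτ1
  have h4 := h.hτ2
  have h6 : 0 < d * ((M : ℝ) ^ 5)⁻¹ := mul_pos hd (cc3_eps hp).1
  rw [Nat.cast_add, Nat.cast_mul, Nat.cast_pow, Nat.cast_ofNat] at h1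
  refine ⟨?_, ?_, h.hD1, h.hD2, ?_⟩
  · have : ((ja + 30 * M ^ 7998 : ℕ) : ℝ) ≤ j := by
      rw [Nat.cast_add, Nat.cast_mul, Nat.cast_pow, Nat.cast_ofNat]
      linarith only [h1, h2]
    exact_mod_cast this
  · have : (j : ℝ) ≤ ((ja + 34 * M ^ 7998 : ℕ) : ℝ) := by
      rw [Nat.cast_add, Nat.cast_mul, Nat.cast_pow, Nat.cast_ofNat]
      linarith only [h1, h2]
    exact_mod_cast this
  · rw [abs_of_nonneg (by linarith only [h3, h6])]
    linarith only [h4]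

theorem PReg.norm_le (hp : Par m M) {ja j : ℕ} {d Dd τ : ℝ} (hd : 0 < d) (h : PReg M ja d j Dd τ) :
    ‖zp d Dd τ‖ ≤ 4 * ((M : ℝ) ^ 5)⁻¹ * d ∧ 0 < Dd ∧ Dd ≤ d := by
  obtain ⟨e0, e1, e2⟩ := cc3_eps hp
  have h1 := h.hD1
  have h2 := h.hD2
  have h3 := h.hτ
  have h4 := norm_le_abs_re_add_abs_im (zp d Dd τ)
  rw [cc3_re, cc3_im] at h4
  generalize ((M : ℝ) ^ 5)⁻¹ = ε at *
  have h5 : 0 < d * ε := mul_pos hd e0
  have h6 : d * ε ≤ d / 2 := by linarith only [h5, hd, e2, e1, mul_nonneg_of_nonpos_of_nonpos (le_of_lt (Mathlib.Tactic.Linarith.sub_neg_of_lt hd)) (Mathlib.Tactic.Linarith.sub_nonpos_of_le e2), mul_nonneg_of_nonpos_of_nonpos (le_of_lt (Mathlib.Tactic.Linarith.sub_neg_of_lt hd)) (Mathlib.Tactic.Linarith.sub_nonpos_of_le e1)]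
  rw [abs_of_nonpos (by linarith only [h2, h5])] at h4
  exact ⟨by linarith only [h4, h1, h3], by linarith only [h1, h5, h6], by linarith only [h2, h5]⟩

theorem PReg.cc3_ratio (hp : Par m M) {ja j : ℕ} {d Dd τ N : ℝ} (hd : 0 < d) (hN : 0 ≤ N)
    (h : PReg M ja d j Dd τ) (hja : M ^ 8000 ≤ ja) :
    N / d ^ (j + 1) ≤ Real.exp (-((M : ℝ) ^ 7995 / 2)) * (N / Dd ^ (j + 1)) := by
  refine cc3_div (t := ((M : ℝ) ^ 5)⁻¹ / 2) hN (h.norm_le hp hd).2.1 (h.hD2.trans ?_) ?_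
  · rw [mul_comm]
    exact mul_le_mul_of_nonneg_right (by linarith only [Real.add_one_le_exp (-(((M : ℝ) ^ 5)⁻¹ / 2))])
      hd.le
  · have h1 : (M : ℝ) ^ 8000 ≤ ((j + 1 : ℕ) : ℝ) := by
      have := h.hj1
      exact_mod_cast (by omega : M ^ 8000 ≤ j + 1)
    have h2 : (M : ℝ) ^ 7995 = (M : ℝ) ^ 8000 * ((M : ℝ) ^ 5)⁻¹ := by
      rw [eq_mul_inv_iff_mul_eq₀ (hp.pow_pos _).ne', ← pow_add]
    rw [h2, mul_div_assoc]
    exact mul_le_mul_of_nonneg_right h1 (half_pos (cc3_eps hp).1).le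

namespace Setup
variable (S : Setup ι m M)

/-- the clusters of `C1` outside the band -/
def C2 (d : ℝ) : Finset ι := (S.C1 d).filter (fun k => ¬ |S.D.x (S.cl k) + d| ≤ ((M : ℝ) ^ 7989)⁻¹ * d)

variable {S} {ja : ℕ} {d N0 : ℝ}

theorem CHyp.dpos (h : S.CHyp ja d N0) : 0 < d := by
  have h1 := h.top.dge
  have h2 := S.ρpos
  linarith only [h1, h2]

theorem cc3_C1 {k : ι} :
    k ∈ S.C1 d ↔ k ∈ S.C ∧ (1 - ((M : ℝ) ^ 2)⁻¹) * d ≤ |S.D.x (S.cl k)| := mem_filter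

theorem cc3_Wb (hd : 0 < d) : S.Wb d =
    (S.C1 d).filter (fun k => |S.D.x (S.cl k) + d| ≤ ((M : ℝ) ^ 7989)⁻¹ * d) := by
  ext k
  rw [mem_filter, cc3_C1]
  refine mem_filter.trans ⟨fun h => ⟨⟨h.1, ?_⟩, h.2⟩, fun h => ⟨h.1.1, h.2⟩⟩
  have h1 : 1 * ((M : ℝ) ^ 7989)⁻¹ ≤ ((M : ℝ) ^ 2)⁻¹ := S.par.inv_pow_le (by norm_num) (by norm_num)
  have h2 := mul_le_mul_of_nonneg_right h1 hd.le
  have h3 := (abs_le.1 h.2).2
  have h4 := neg_abs_le (S.D.x (S.cl k))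
  linarith only [h2, h3, h4]

theorem lat_C1 (hd : 0 < d) (j : ℕ) (z : ℂ) :
    S.D.lat (S.C1 d) j z = S.D.lat (S.Wb d) j z + S.D.lat (S.C2 d) j z := by
  rw [cc3_Wb hd]
  exact (sum_filter_add_sum_filter_not _ _ _).symm

theorem cc3_PA1 {ν : ι × ℕ} :
    ν ∈ S.PA1 d ↔ ν ∈ S.PA ∧ |S.D.freq (S.at' ν)| * d ≤ 8 * (M : ℝ) ^ 8000 := mem_filter

theorem cc3_PB1 {ν : ι × ℤ} :
    ν ∈ S.PB1 d ↔ ν ∈ S.PB ∧ (1 - ((M : ℝ) ^ 2)⁻¹) * d ≤ ‖S.D.node (S.bt ν)‖ := mem_filter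

theorem PA1_sub (hd : 32 * S.ρ ≤ d) : S.PA1 d ⊆ S.Lo := by
  intro ν hν
  obtain ⟨h1, h2⟩ := cc3_PA1.1 hν
  refine (S.Lo_sat ν h1).2 (S.env_Lo.2 ⟨S.hat.mem ν h1, ?_⟩)
  have h3 : 8 * (M : ℝ) ^ 8000 ≤ (M : ℝ) ^ 8540 := S.par.mul_pow_le (by norm_num) (by norm_num)
  have h4 : |S.D.freq (S.at' ν)| * S.ρ ≤ |S.D.freq (S.at' ν)| * d :=
    mul_le_mul_of_nonneg_left (by linarith only [hd, S.ρpos]) (abs_nonneg _)
  exact h4.trans (h2.trans (h3.trans S.Tc1))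
theorem PA1_sat (d : ℝ) : ∀ ν ∈ S.PA, ν ∈ S.PA1 d ↔ S.at' ν ∈ S.PA1 d := by
  intro ν hν
  rw [cc3_PA1, cc3_PA1, S.hat.idem ν hν]
  exact ⟨fun h => ⟨S.hat.mem ν hν, h.2⟩, fun h => ⟨hν, h.2⟩⟩
theorem PB1_sat (d : ℝ) : ∀ ν ∈ S.PB, ν ∈ S.PB1 d ↔ S.bt ν ∈ S.PB1 d := by
  intro ν hν
  rw [cc3_PB1, cc3_PB1, S.hbt.idem ν hν]
  exact ⟨fun h => ⟨S.hbt.mem ν hν, h.2⟩, fun h => ⟨hν, h.2⟩⟩
theorem PB1_node (hd : 0 < d) : ∀ ν ∈ S.PB1 d, (1 - 2 * ((M : ℝ) ^ 2)⁻¹) * d ≤ ‖S.D.node ν‖ := by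
  intro ν hν
  obtain ⟨h1, h2⟩ := cc3_PB1.1 hν
  obtain ⟨e0, e1, e2⟩ := cc3_eps S.par
  have h3 := S.hbt.near ν h1
  have h4 : 1 * eA1 M ≤ ((M : ℝ) ^ 2)⁻¹ := S.par.inv_pow_le (by norm_num) (by norm_num)
  have h5 := norm_sub_norm_le (S.D.node (S.bt ν)) (S.D.node ν)
  rw [norm_sub_rev] at h5
  have h6 := env_eA1_pos S.par
  generalize ((M : ℝ) ^ 2)⁻¹ = δ at *
  generalize eA1 M = e at *
  generalize ‖S.D.node (S.bt ν)‖ = R at *
  have h7 : (1 - δ) * ((1 - δ) * d) ≤ (1 - e / 4) * R :=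
    mul_le_mul (by linarith only [e0, e1, h4]) h2 (mul_nonneg (by linarith only [e0, e1, e2]) hd.le) (by linarith only [e0, e1, e2, h4])
  linarith only [h5, h3, h7, hd, mul_nonneg (mul_self_nonneg δ) hd.le, mul_self_nonneg δ]

theorem CHyp.cc3_j (h : S.CHyp ja d N0) {j : ℕ} {Dd τ : ℝ} (hR : PReg M ja d j Dd τ) :
    M ^ 8000 ≤ j ∧ j ≤ 2 * M ^ 8000 ∧ 1 ≤ j := by
  have h1 := h.top.lo
  have h2 := h.top.hi
  have h3 := hR.hj1
  have h4 := hR.hj2
  have h5 : M ^ 0 ≤ M ^ 8000 := S.par.pow_monoN (by norm_num)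
  rw [pow_zero] at h5
  omega

/-- the line of a cluster seen from a probe -/
theorem cc3_line (h : S.CHyp ja d N0) {j : ℕ} {Dd τ : ℝ} (hR : PReg M ja d j Dd τ) {r : ι}
    (hr : r ∈ S.C) (hrr : S.cl r = r) (hx : (1 - ((M : ℝ) ^ 2)⁻¹) * d ≤ |S.D.x r|) :
    S.NC r / |-d + Dd - S.D.x r| ^ (j + 1) ≤ N0 / Dd ^ (j + 1) ∧
      (¬ |S.D.x r + d| ≤ ((M : ℝ) ^ 7989)⁻¹ * d →
        S.NC r / |-d + Dd - S.D.x r| ^ (j + 1) ≤
          Real.exp (-(2 * (M : ℝ) ^ 9)) * (N0 / Dd ^ (j + 1))) := by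
  have hp := S.par
  have hd := h.dpos
  obtain ⟨-, hD0, hDd⟩ := hR.norm_le hp hd
  obtain ⟨e0, e1, e2⟩ := cc3_eps hp
  obtain ⟨j1, j2, -⟩ := h.cc3_j hR
  have j3 := hR.hj1
  have j4 := hR.hj2
  have hN := S.NC_nonneg r
  have hL : 0 ≤ N0 / Dd ^ (j + 1) := div_nonneg h.pos.le (pow_pos hD0 _).le
  have hx2 : 3 / 4 * d ≤ |S.D.x r| :=
    le_trans (mul_le_mul_of_nonneg_right (by linarith only [e0, e1, e2]) hd.le) hx
  have hD1 := hR.hD1
  have he : d - Dd ≤ ((M : ℝ) ^ 5)⁻¹ * d := by linarith only [hD1]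
  have he' : ((M : ℝ) ^ 5)⁻¹ * d ≤ 1 / 4 * d := mul_le_mul_of_nonneg_right (by linarith only [e0, e1, e2]) hd.le
  rcases le_total (S.D.x r) 0 with hs | hs
  · have h1 := line_shift hp (S.NC r) N0 |S.D.x r| d (d - Dd) hN hd (by linarith only [hd, hx2]) (by linarith only [hDd]) he
      j (by omega) (by omega) (h.top.top r hr hrr _ (by omega) (by omega))
      (h.top.top r hr hrr _ (by omega) (by omega))
    have e : |-d + Dd - S.D.x r| = |S.D.x r| - (d - Dd) := by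
      rw [abs_of_nonpos hs] at hx2 ⊢
      rw [abs_of_nonneg (by linarith only [hD0, hx2, hD1, he'])]
      ring
    rw [sub_sub_cancel, ← e] at h1
    refine ⟨h1.trans (mul_le_of_le_one_left hL (Real.exp_le_one_iff.2 (neg_nonpos.2
      (mul_nonneg (mul_pos four_pos (hp.pow_pos _)).le (abs_nonneg _))))), fun hb => h1.trans
      (mul_le_mul_of_nonneg_right (Real.exp_le_exp.2 (neg_le_neg ?_)) hL)⟩
    have h2 := cc3_log (R := |S.D.x r|) (δ := ((M : ℝ) ^ 7989)⁻¹) hd (by linarith only [hd, hx2])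
      (inv_pos.2 (hp.pow_pos _)).le (env_inv_le hp _) (by
        rw [abs_of_nonpos hs, ← abs_neg, neg_sub, sub_neg_eq_add, add_comm]
        exact (not_le.1 hb).le)
    have h3 : (M : ℝ) ^ 9 = (M : ℝ) ^ 7998 * ((M : ℝ) ^ 7989)⁻¹ := by
      rw [eq_mul_inv_iff_mul_eq₀ (hp.pow_pos _).ne', ← pow_add]
    have h4 := mul_le_mul_of_nonneg_left h2 (mul_pos four_pos (hp.pow_pos 7998)).le
    refine le_trans (le_of_eq ?_) h4
    rw [h3]
    generalize (M : ℝ) ^ 7998 = A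
    generalize ((M : ℝ) ^ 7989)⁻¹ = B
    ring
  · have h1 : S.NC r / |-d + Dd - S.D.x r| ^ (j + 1) ≤ S.NC r / |S.D.x r| ^ (j + 1) := by
      refine div_le_div_of_nonneg_left hN (pow_pos (by linarith only [hd, hx2]) _)
        (pow_le_pow_left₀ (abs_nonneg _) ?_ _)
      rw [abs_of_nonneg hs, abs_of_nonpos (by linarith only [hDd, hs])]
      linarith only [hDd]
    have h2 := h1.trans ((h.top.top r hr hrr j (by omega) (by omega)).trans
      (hR.cc3_ratio hp hd h.pos.le h.top.lo))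
    have h3 : 4 * (M : ℝ) ^ 9 ≤ (M : ℝ) ^ 7995 := hp.mul_pow_le (by norm_num) (by norm_num)
    have h4 := hp.pow_pos 9
    exact ⟨h2.trans (mul_le_of_le_one_left hL (Real.exp_le_one_iff.2 (by linarith only [h3, h4]))),
      fun _ => h2.trans (mul_le_mul_of_nonneg_right (Real.exp_le_exp.2 (by linarith only [h3])) hL)⟩

theorem cc3_lat (h : S.CHyp ja d N0) {j : ℕ} {Dd τ : ℝ} (hR : PReg M ja d j Dd τ)
    (q : ι → Prop) [DecidablePred fun k => q (S.cl k)] {E : ℝ} (hE : 0 ≤ E)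
    (hq : ∀ r ∈ S.C, S.cl r = r → (1 - ((M : ℝ) ^ 2)⁻¹) * d ≤ |S.D.x r| → q r →
      S.NC r / |-d + Dd - S.D.x r| ^ (j + 1) ≤ E) :
    ‖S.D.lat ((S.C1 d).filter fun k => q (S.cl k)) j (zp d Dd τ)‖ ≤ Real.exp M * E := by
  classical
  have hp := S.par
  have hρ := S.ρpos
  have hd := h.dpos
  obtain ⟨hz, -, -⟩ := hR.norm_le hp hd
  obtain ⟨e0, e1, e2⟩ := cc3_eps hp
  obtain ⟨-, j2, j1⟩ := h.cc3_j hR
  have hsub : ((S.C1 d).filter fun k => q (S.cl k)) ⊆ S.C :=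
    (filter_subset _ _).trans (filter_subset _ _)
  have e1 : S.D.lat ((S.C1 d).filter fun k => q (S.cl k)) j (zp d Dd τ) =
      ∑ r ∈ ((S.C1 d).filter fun k => q (S.cl k)).filter (fun r => S.cl r = r),
        S.D.lat (cls S.C S.cl r) j (zp d Dd τ) :=
    sum_cls S.hcl.mem S.hcl.idem hsub (fun k hk => by
      rw [mem_filter, mem_filter, cc3_C1, cc3_C1, S.hcl.idem k hk]
      exact ⟨fun h => ⟨⟨S.hcl.mem k hk, h.1.2⟩, h.2⟩, fun h => ⟨⟨hk, h.1.2⟩, h.2⟩⟩) _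
  have hx0 : ∀ k ∈ S.C, S.D.x k ≠ 0 := fun k hk h0 => by
    have := S.x_C k hk
    rw [h0, abs_zero] at this
    linarith only [hρ, this]
  have hc : ((((S.C1 d).filter fun k => q (S.cl k)).filter (fun r => S.cl r = r)).card : ℝ) ≤ M := by
    have h1 := (card_le_card ((filter_subset (fun r => S.cl r = r) _).trans hsub)).trans S.env_cardC
    have h2 := S.par.two
    exact_mod_cast h1.trans (by omega : m ≤ M)
  have hb : 0 ≤ (M : ℝ) ^ 8000 * E := mul_nonneg (S.par.pow_pos _).le hE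
  rw [e1]
  refine (env_sum _ _ hb (fun r hr => ?_) hc).trans ?_
  · obtain ⟨hr, hrr⟩ := mem_filter.1 hr
    obtain ⟨hr, hqr⟩ := mem_filter.1 hr
    obtain ⟨hr, hxr⟩ := cc3_C1.1 hr
    rw [hrr] at hqr hxr
    have hT : S.D.T r ≤ (M : ℝ) ^ 7990 :=
      (S.env_C.1 hr).2.2.trans (S.TA2.trans (S.par.mul_pow_le (by norm_num) (by norm_num)))
    have hz2 : 2 * ‖zp d Dd τ‖ ≤ |S.D.x r| := by
      refine le_trans ?_ hxr
      have : 2 * (4 * ((M : ℝ) ^ 5)⁻¹) * d ≤ (1 - ((M : ℝ) ^ 2)⁻¹) * d :=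
        mul_le_mul_of_nonneg_right (by linarith) hd.le
      linarith only [hz, this]
    have h1 := cluster_bound S.par S.D S.C S.cl S.hcl (fun k hk => S.apos k (S.env_C.1 hk).1) hx0
      S.nfl_C r hr hrr hT j j1 (by omega) (zp d Dd τ) hz2 0
      le_rfl (abs_nonneg _) (fun l => abs_nonneg _)
    rw [zero_pow two_ne_zero, mul_zero, zero_div, neg_zero, Real.exp_zero, mul_one,
      mul_div_assoc, cc3_re] at h1
    exact h1.trans (mul_le_mul_of_nonneg_left (hq r hr hrr hxr hqr) (S.par.pow_pos _).le)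
  · rw [← mul_assoc, ← pow_succ']
    exact mul_le_mul_of_nonneg_right (S.par.pow_le_exp (by norm_num)) hE

theorem cc3_exps (h : S.CHyp ja d N0) {j : ℕ} {Dd τ : ℝ} (hR : PReg M ja d j Dd τ) {E : ℝ}
    (hE : 0 ≤ E) (hq : ∀ α ∈ S.PA1 d, S.at' α = α →
      S.NA S.D.cf α * |S.D.freq α| ^ j / (j.factorial : ℝ) * Real.exp (S.D.freq α * (-d + Dd)) ≤ E) :
    ‖S.D.exps (S.PA1 d) S.D.cf j (zp d Dd τ)‖ ≤ Real.exp M * E := by
  classical
  have hp := S.par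
  have hd := h.dpos
  obtain ⟨hz, -, -⟩ := hR.norm_le hp hd
  obtain ⟨e0, e1, e2⟩ := cc3_eps hp
  obtain ⟨-, j2, -⟩ := h.cc3_j hR
  have e1 : S.D.exps (S.PA1 d) S.D.cf j (zp d Dd τ) =
      ∑ r ∈ (S.PA1 d).filter (fun r => S.at' r = r),
        S.D.exps (cls S.PA S.at' r) S.D.cf j (zp d Dd τ) :=
    sum_cls S.hat.mem S.hat.idem (filter_subset _ _) (PA1_sat d) _
  have hc : (((S.PA1 d).filter (fun r => S.at' r = r)).card : ℝ) ≤ (M : ℝ) ^ 264 := by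
    have h1 := (card_filter_le (S.PA1 d) (fun r => S.at' r = r)).trans (card_filter_le _ _)
    have h2 := S.card_PA
    exact_mod_cast h1.trans ((Nat.le_mul_of_pos_left _ two_pos).trans h2)
  rw [e1]
  refine (env_sum _ _ (mul_nonneg zero_le_two hE) (fun r hr => ?_) hc).trans ?_
  · obtain ⟨hr, hrr⟩ := mem_filter.1 hr
    obtain ⟨hr1, hr2⟩ := cc3_PA1.1 hr
    rw [hrr] at hr2
    have h0 : |S.D.freq r| * ‖zp d Dd τ‖ ≤ (M : ℝ) ^ 9000 := by
      have h3 : ‖zp d Dd τ‖ ≤ d := hz.trans (mul_le_of_le_one_left hd.le (by linarith))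
      exact (mul_le_mul_of_nonneg_left h3 (abs_nonneg _)).trans
        (hr2.trans (hp.mul_pow_le (by norm_num) (by norm_num)))
    have h1 := exp_atom_bound S.par S.D S.PA S.at' S.hat S.freq_ne S.D.cf r hr1 hrr j
      (by omega) _ h0
    rw [cc3_re, mul_assoc] at h1
    exact h1.trans (mul_le_mul_of_nonneg_left (hq r hr hrr) zero_le_two)
  · rw [← mul_assoc, mul_comm _ (2 : ℝ)]
    refine mul_le_mul_of_nonneg_right ?_ hE
    exact (S.par.mul_pow_le (k := 265) (by norm_num) (by norm_num)).trans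
      (S.par.pow_le_exp (by norm_num))

theorem cc3_far (h : S.CHyp ja d N0) {j : ℕ} {Dd τ : ℝ} (hR : PReg M ja d j Dd τ) {α : ι × ℤ}
    (hα : α ∈ S.PB1 d) : 2 * ‖zp d Dd τ‖ ≤ ‖S.D.node α‖ ∧ 0 < ‖zp d Dd τ - S.D.node α‖ := by
  have hd := h.dpos
  obtain ⟨hz, -, -⟩ := hR.norm_le S.par hd
  obtain ⟨e0, e1, e2⟩ := cc3_eps S.par
  have h1 := PB1_node hd α hα
  have h2 : 2 * (4 * ((M : ℝ) ^ 5)⁻¹) * d ≤ 1 / 2 * d :=
    mul_le_mul_of_nonneg_right (by linarith only [e0, e1, e2]) hd.le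
  have h3 : 1 / 2 * d ≤ (1 - 2 * ((M : ℝ) ^ 2)⁻¹) * d :=
    mul_le_mul_of_nonneg_right (by linarith only [e0, e1, e2]) hd.le
  have h4 := norm_sub_norm_le (S.D.node α) (zp d Dd τ)
  rw [norm_sub_rev] at h4
  exact ⟨by linarith only [hz, h1, h2, h3], by linarith only [hd, hz, h1, h2, h3, h4]⟩

theorem cc3_poles (h : S.CHyp ja d N0) {j : ℕ} {Dd τ : ℝ} (hR : PReg M ja d j Dd τ) {E : ℝ}
    (hE : 0 ≤ E) (hq : ∀ α ∈ S.PB1 d, S.bt α = α →
      S.NP α / ‖zp d Dd τ - S.D.node α‖ ^ (j + 1) ≤ E) :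
    ‖S.D.poles (S.PB1 d) j (zp d Dd τ)‖ ≤ Real.exp M * E := by
  classical
  obtain ⟨-, j2, -⟩ := h.cc3_j hR
  have e1 : S.D.poles (S.PB1 d) j (zp d Dd τ) =
      ∑ r ∈ (S.PB1 d).filter (fun r => S.bt r = r), S.D.poles (cls S.PB S.bt r) j (zp d Dd τ) :=
    sum_cls S.hbt.mem S.hbt.idem (filter_subset _ _) (PB1_sat d) _
  have hc : (((S.PB1 d).filter (fun r => S.bt r = r)).card : ℝ) ≤ (M : ℝ) ^ 271 := by
    exact_mod_cast (card_filter_le (S.PB1 d) (fun r => S.bt r = r)).trans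
      ((card_filter_le _ _).trans S.card_PB)
  rw [e1]
  refine (env_sum _ _ (mul_nonneg zero_le_two hE) (fun r hr => ?_) hc).trans ?_
  · obtain ⟨hr, hrr⟩ := mem_filter.1 hr
    have h1 := pole_atom_bound S.par S.D S.PB S.bt S.hbt S.node_ne r (cc3_PB1.1 hr).1 hrr j
      (by omega) _ (cc3_far h hR hr).1
    rw [mul_div_assoc] at h1
    exact h1.trans (mul_le_mul_of_nonneg_left (hq r hr hrr) zero_le_two)
  · rw [← mul_assoc, mul_comm _ (2 : ℝ)]
    refine mul_le_mul_of_nonneg_right ?_ hE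
    exact (S.par.mul_pow_le (k := 272) (by norm_num) (by norm_num)).trans
      (S.par.pow_le_exp (by norm_num))

/-- `cluster_bound` with `Δ = 0`; `line_shift` for left clusters; right clusters are at most
`N0 / d^(j+1)` and `(Dd/d)^(j+1) ≤ exp (-M^7995 / 2)` -/
theorem probe_C2 (h : S.CHyp ja d N0) {j : ℕ} {Dd τ : ℝ} (hR : PReg M ja d j Dd τ) :
    ‖S.D.lat (S.C2 d) j (zp d Dd τ)‖ ≤ Real.exp (-(M : ℝ) ^ 8) * N0 / Dd ^ (j + 1) := by
  have hp := S.par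
  have hD := (pow_pos (hR.norm_le hp h.dpos).2.1 (j + 1)).le
  have h1 := cc3_lat h hR (fun r => ¬ |S.D.x r + d| ≤ ((M : ℝ) ^ 7989)⁻¹ * d)
    (mul_nonneg (Real.exp_pos _).le (div_nonneg h.pos.le hD))
    fun r hr hrr hx hq => (cc3_line h hR hr hrr hx).2 hq
  rw [← mul_assoc, ← Real.exp_add] at h1
  have r1 : (M : ℝ) ≤ (M : ℝ) ^ 9 := by simpa using hp.pow_mono (i := 1) (k := 9) (by norm_num)
  have r2 : (M : ℝ) ^ 8 ≤ (M : ℝ) ^ 9 := hp.pow_mono (by norm_num)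
  exact h1.trans (cc3_exp (by linarith only [r1, r2]) h.pos.le hD)

theorem probe_Wb (h : S.CHyp ja d N0) {j : ℕ} {Dd τ : ℝ} (hR : PReg M ja d j Dd τ) :
    ‖S.D.lat (S.Wb d) j (zp d Dd τ)‖ ≤ Real.exp M * N0 / Dd ^ (j + 1) := by
  have hD := (pow_pos (hR.norm_le S.par h.dpos).2.1 (j + 1)).le
  rw [cc3_Wb h.dpos, mul_div_assoc]
  exact cc3_lat h hR (fun r => |S.D.x r + d| ≤ ((M : ℝ) ^ 7989)⁻¹ * d)
    (div_nonneg h.pos.le hD) fun r hr hrr hx _ => (cc3_line h hR hr hrr hx).1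

/-- size of an exponential atom at a probe: `pois_ratio` with `x = |μ| d`, `θ = 1 - Dd/d`,
`A = NA d / (exp (2 M^6) N0)` for `μ < 0`; for `μ > 0` use `hA` at `j` and `(Dd/d)^(j+1)` -/
theorem probe_size (h : S.CHyp ja d N0) {j : ℕ} {Dd τ : ℝ} (hR : PReg M ja d j Dd τ)
    (α : ι × ℕ) (hα : α ∈ S.PA1 d) (hαα : S.at' α = α) :
    S.NA S.D.cf α * |S.D.freq α| ^ j / (j.factorial : ℝ) * Real.exp (S.D.freq α * (-d + Dd)) ≤
        Real.exp (2 * (M : ℝ) ^ 6 + M) * N0 / Dd ^ (j + 1) ∧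
      ((0 < S.D.freq α ∨ (M : ℝ) ^ 4005 ≤ |(j : ℝ) - |S.D.freq α| * Dd|) →
        S.NA S.D.cf α * |S.D.freq α| ^ j / (j.factorial : ℝ) * Real.exp (S.D.freq α * (-d + Dd)) ≤
          Real.exp (-(2 * (M : ℝ) ^ 9)) * N0 / Dd ^ (j + 1)) := by
  have hp := S.par
  have hd := h.dpos
  have hN := h.pos
  obtain ⟨-, hD0, hDd⟩ := hR.norm_le hp hd
  have hD := (pow_pos hD0 (j + 1)).le
  have j1 := h.top.lo
  have j2 := h.top.hi
  have j3 := hR.hj1
  have j4 := hR.hj2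
  have hlo := PA1_sub h.top.dge hα
  have hx := (cc3_PA1.1 hα).2
  rw [hαα] at hx
  have hNA : 0 ≤ S.NA S.D.cf α := Nm_nonneg
  have hA : ∀ i, ja + 24 * M ^ 7998 ≤ i → i ≤ ja + 40 * M ^ 7998 →
      S.NA S.D.cf α * |S.D.freq α| ^ i / (i.factorial : ℝ) ≤
        Real.exp (2 * (M : ℝ) ^ 6) * N0 / d ^ (i + 1) := fun i h1 h2 => h.hA i h1 h2 α hlo hαα
  generalize S.NA S.D.cf α = A at *
  generalize S.D.freq α = μ at *
  have hK := Real.exp_pos (2 * (M : ℝ) ^ 6)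
  have hθ0 : 0 ≤ 1 - Dd / d := sub_nonneg.2 ((div_le_one hd).2 hDd)
  have hθ : 1 - Dd / d ≤ ((M : ℝ) ^ 5)⁻¹ := by
    have := (le_div_iff₀' hd).2 hR.hD1
    linarith only [this]
  have hr := pois_ratio hp (ja + 32 * M ^ 7998) j (by omega) (by omega) (by omega) (by omega)
    (|μ| * d) (1 - Dd / d) (A * d / (Real.exp (2 * (M : ℝ) ^ 6) * N0)) (by positivity) hx hθ0 hθ
    (by positivity) fun i h1 h2 => by
      have h3 := hA i (by omega) (by omega)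
      rw [le_div_iff₀ (by positivity)] at h3
      refine le_trans (le_of_eq ?_) ((div_le_one (mul_pos hK hN)).2 h3)
      rw [mul_pow]
      generalize Real.exp (2 * (M : ℝ) ^ 6) = K
      ring
  have e1 : |μ| * d * (1 - (1 - Dd / d)) = |μ| * Dd := by field_simp; ring
  have e2 : (1 - Dd / d) * (|μ| * d) = |μ| * (d - Dd) := by field_simp
  rw [e1, e2] at hr
  have key : ∀ X : ℝ, A * d / (Real.exp (2 * (M : ℝ) ^ 6) * N0) * (|μ| * Dd) ^ j *
      Real.exp (|μ| * (d - Dd)) / (j.factorial : ℝ) ≤ Real.exp X →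
      A * |μ| ^ j / (j.factorial : ℝ) * Real.exp (μ * (-d + Dd)) ≤
        Real.exp (2 * (M : ℝ) ^ 6 + X) * (N0 / Dd ^ (j + 1)) := by
    intro X hX
    have h1 : Real.exp (μ * (-d + Dd)) ≤ Real.exp (|μ| * (d - Dd)) := by
      refine Real.exp_le_exp.2 ?_
      have := mul_le_mul_of_nonneg_right (neg_le_abs μ) (sub_nonneg.2 hDd)
      linarith only [this]
    have h2 := mul_le_mul_of_nonneg_right hX
      (div_nonneg (mul_pos hK hN).le (mul_pos hd (pow_pos hD0 j)).le)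
    have h3 : Real.exp (2 * (M : ℝ) ^ 6) * N0 / (d * Dd ^ j) ≤
        Real.exp (2 * (M : ℝ) ^ 6) * N0 / Dd ^ (j + 1) := by
      refine div_le_div_of_nonneg_left (mul_pos hK hN).le (pow_pos hD0 _) ?_
      rw [pow_succ']
      exact mul_le_mul_of_nonneg_right hDd (pow_pos hD0 j).le
    rw [Real.exp_add]
    generalize Real.exp (2 * (M : ℝ) ^ 6) = K at *
    calc A * |μ| ^ j / (j.factorial : ℝ) * Real.exp (μ * (-d + Dd))
        ≤ A * |μ| ^ j / (j.factorial : ℝ) * Real.exp (|μ| * (d - Dd)) :=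
          mul_le_mul_of_nonneg_left h1 (by positivity)
      _ = A * d / (K * N0) * (|μ| * Dd) ^ j * Real.exp (|μ| * (d - Dd)) / (j.factorial : ℝ) *
            (K * N0 / (d * Dd ^ j)) := by
          rw [mul_pow]
          field_simp
      _ ≤ Real.exp X * (K * N0 / (d * Dd ^ j)) := h2
      _ ≤ Real.exp X * (K * N0 / Dd ^ (j + 1)) := mul_le_mul_of_nonneg_left h3 (Real.exp_pos _).le
      _ = K * Real.exp X * (N0 / Dd ^ (j + 1)) := by ring
  have r1 : (M : ℝ) ^ 6 ≤ (M : ℝ) ^ 9 := hp.pow_mono (by norm_num)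
  have r2 : 24 * (M : ℝ) ^ 9 ≤ (M : ℝ) ^ 10 := hp.mul_pow_le (by norm_num) (by norm_num)
  have r3 : 8 * (M : ℝ) ^ 9 ≤ (M : ℝ) ^ 7995 := hp.mul_pow_le (by norm_num) (by norm_num)
  refine ⟨(key _ hr.1).trans (cc3_exp le_rfl hN.le hD), ?_⟩
  rintro (hμ | hμ)
  · have h1 : Real.exp (μ * (-d + Dd)) ≤ 1 :=
      Real.exp_le_one_iff.2 (mul_nonpos_of_nonneg_of_nonpos hμ.le (by linarith only [hDd]))
    have h2 := hA j (by omega) (by omega)
    rw [mul_div_assoc (Real.exp _)] at h2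
    have h3 := h2.trans (mul_le_mul_of_nonneg_left (hR.cc3_ratio hp hd hN.le j1) hK.le)
    rw [← mul_assoc, ← Real.exp_add] at h3
    exact (mul_le_of_le_one_right (by positivity) h1).trans
      (h3.trans (cc3_exp (by linarith only [r1, r3]) hN.le hD))
  · exact (key _ (hr.2 hμ)).trans (cc3_exp (by linarith only [r1, r2]) hN.le hD)

theorem probe_A (h : S.CHyp ja d N0) {j : ℕ} {Dd τ : ℝ} (hR : PReg M ja d j Dd τ) :
    ‖S.D.exps (S.PA1 d) S.D.cf j (zp d Dd τ)‖ ≤ Real.exp (3 * (M : ℝ) ^ 6) * N0 / Dd ^ (j + 1) := by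
  have hp := S.par
  have hD := (pow_pos (hR.norm_le hp h.dpos).2.1 (j + 1)).le
  have h1 := cc3_exps h hR (div_nonneg (mul_nonneg (Real.exp_pos _).le h.pos.le) hD)
    fun α hα hαα => (probe_size h hR α hα hαα).1
  rw [mul_div_assoc, ← mul_assoc, ← Real.exp_add] at h1
  have r1 : 2 * (M : ℝ) ≤ (M : ℝ) ^ 6 := by
    simpa using hp.mul_pow_le (c := 2) (i := 1) (k := 6) (by norm_num) (by norm_num)
  exact h1.trans (cc3_exp (by linarith only [r1]) h.pos.le hD)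

theorem probe_A_negl (h : S.CHyp ja d N0) {j : ℕ} {Dd τ : ℝ} (hR : PReg M ja d j Dd τ)
    (hL : ∀ α ∈ S.PA, S.at' α = α → (M : ℝ) ^ 4005 ≤ |(j : ℝ) - |S.D.freq α| * Dd|) :
    ‖S.D.exps (S.PA1 d) S.D.cf j (zp d Dd τ)‖ ≤ Real.exp (-(M : ℝ) ^ 8) * N0 / Dd ^ (j + 1) := by
  have hp := S.par
  have hD := (pow_pos (hR.norm_le hp h.dpos).2.1 (j + 1)).le
  have h1 := cc3_exps h hR (div_nonneg (mul_nonneg (Real.exp_pos _).le h.pos.le) hD)
    fun α hα hαα => (probe_size h hR α hα hαα).2 (Or.inr (hL α (cc3_PA1.1 hα).1 hαα))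
  rw [mul_div_assoc, ← mul_assoc, ← Real.exp_add] at h1
  have r1 : (M : ℝ) ≤ (M : ℝ) ^ 9 := by simpa using hp.pow_mono (i := 1) (k := 9) (by norm_num)
  have r2 : (M : ℝ) ^ 8 ≤ (M : ℝ) ^ 9 := hp.pow_mono (by norm_num)
  exact h1.trans (cc3_exp (by linarith only [r1, r2]) h.pos.le hD)

/-- `pole_atom_bound` and `NoZ` -/
theorem probe_B (h : S.CHyp ja d N0) (hz : S.NoZ ja d N0) {j : ℕ} {Dd τ : ℝ}
    (hR : Reg M 2 (ja + 32 * M ^ 7998) d j Dd τ) :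
    ‖S.D.poles (S.PB1 d) j (zp d Dd τ)‖ ≤ Real.exp (2 * (M : ℝ) ^ 7) * N0 / Dd ^ (j + 1) := by
  have hp := S.par
  have hP := hR.preg hp h.dpos
  have hD := (pow_pos (hP.norm_le hp h.dpos).2.1 (j + 1)).le
  have h1 := cc3_poles h hP (div_nonneg (mul_nonneg (Real.exp_pos _).le h.pos.le) hD)
    (hz j Dd τ hR)
  rw [mul_div_assoc, ← mul_assoc, ← Real.exp_add] at h1
  have r1 : (M : ℝ) ≤ (M : ℝ) ^ 7 := by simpa using hp.pow_mono (i := 1) (k := 7) (by norm_num)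
  exact h1.trans (cc3_exp (by linarith only [r1]) h.pos.le hD)

omit S in
/-- moving the height towards the pole -/
theorem cc3_move (d Dd τ Δ : ℝ) (p : ℂ) (hΔ : 0 ≤ Δ) (h : Δ ≤ |τ - p.im|) :
    ∃ τ', |τ' - τ| ≤ Δ ∧ ‖zp d Dd τ' - p‖ ^ 2 + Δ ^ 2 ≤ ‖zp d Dd τ - p‖ ^ 2 := by
  have e : ∀ t, ‖zp d Dd t - p‖ ^ 2 = (-d + Dd - p.re) ^ 2 + (t - p.im) ^ 2 := fun t => by
    rw [Complex.sq_norm, normSq_apply, sub_re, sub_im, cc3_re, cc3_im]
    ring
  rcases le_abs'.1 h with h | h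
  · refine ⟨τ + Δ, by rw [add_sub_cancel_left, abs_of_nonneg hΔ], ?_⟩
    rw [e, e]
    linarith only [hΔ, h, mul_nonneg_of_nonpos_of_nonpos (Mathlib.Tactic.Linarith.sub_nonpos_of_le hΔ) (Mathlib.Tactic.Linarith.sub_nonpos_of_le h)]
  · refine ⟨τ - Δ, by rw [sub_sub_cancel_left, abs_neg, abs_of_nonneg hΔ], ?_⟩
    rw [e, e]
    linarith only [hΔ, h, mul_nonneg_of_nonpos_of_nonpos (Mathlib.Tactic.Linarith.sub_nonpos_of_le hΔ) (Mathlib.Tactic.Linarith.sub_nonpos_of_le h)]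

/-- the height of a probe is away from the height of the pole -/
theorem cc3_height (hd : 0 < d) {jc j : ℕ} {Dd τ : ℝ} (hR : Reg M 1 jc d j Dd τ)
    (hH : ∀ k ∈ S.B, (1 - 2 * ((M : ℝ) ^ 2)⁻¹) * d ≤ |S.D.x k| → ∀ l : ℤ,
      (M : ℝ) ^ 5 * d / (M : ℝ) ^ 4000 ≤ |τ - l * sp (S.D.a k)|)
    {α : ι × ℤ} (hα : α ∈ S.PB1 d) (hαα : S.bt α = α) :
    ((M : ℝ) ^ 3995)⁻¹ * d ≤ |τ - (S.D.node α).im| := by
  have hp := S.par
  obtain ⟨h1, h2⟩ := cc3_PB1.1 hα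
  rw [hαα] at h2
  have him : (S.D.node α).im = α.2 * sp (S.D.a α.1) := by simp [Dat.node]
  have hre : (S.D.node α).re = S.D.x α.1 := by simp [Dat.node]
  by_cases hx : (1 - 2 * ((M : ℝ) ^ 2)⁻¹) * d ≤ |S.D.x α.1|
  · have h3 := hH α.1 (mem_product.1 (mem_filter.1 h1).1).1 hx α.2
    rw [him]
    refine le_trans (le_of_eq ?_) h3
    rw [eq_div_iff (hp.pow_pos _).ne', mul_right_comm, inv_mul_eq_div,
      (div_eq_iff (hp.pow_pos _).ne').2 (pow_add (M : ℝ) 5 3995)]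
  · obtain ⟨e0, e1, e2⟩ := cc3_eps hp
    have e3 : 1 * ((M : ℝ) ^ 3995)⁻¹ ≤ ((M : ℝ) ^ 5)⁻¹ := hp.inv_pow_le (by norm_num) (by norm_num)
    have h3 := hR.hτ1
    have h4 := hR.hτ2
    have h5 : ‖S.D.node α‖ ^ 2 = |S.D.x α.1| ^ 2 + |(S.D.node α).im| ^ 2 := by
      rw [Complex.sq_norm, normSq_apply, hre, sq_abs, sq_abs]
      ring
    have h6 := abs_sub_abs_le_abs_sub (S.D.node α).im τ
    rw [abs_sub_comm] at h6
    have h7 := abs_nonneg (S.D.node α).im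
    have h8 := abs_nonneg (S.D.x α.1)
    generalize |(S.D.node α).im| = Y at *
    generalize |S.D.x α.1| = X at *
    generalize ‖S.D.node α‖ = R at *
    generalize ((M : ℝ) ^ 2)⁻¹ = δ at *
    generalize ((M : ℝ) ^ 5)⁻¹ = ε at *
    generalize ((M : ℝ) ^ 3995)⁻¹ = η at *
    have h9 : 0 < d * ε := mul_pos hd e0
    have h10 : δ * d ≤ Y := by
      by_contra hc
      have hY : Y < δ * d := not_le.1 hc
      have hX : X < (1 - 2 * δ) * d := not_le.1 hx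
      have h11 : R ≤ X + Y := by
        refine le_of_sq_le_sq ?_ (by linarith only [h7, h8])
        linarith only [h5, h7, h8, mul_nonneg h7 h8]
      linarith only [hx, h2, hc, h11]
    have h11 : 1000 * ε * d ≤ δ * d := mul_le_mul_of_nonneg_right e1 hd.le
    have h12 : 1 * η * d ≤ ε * d := mul_le_mul_of_nonneg_right e3 hd.le
    rw [abs_of_nonneg (by linarith only [h3, h9] : 0 ≤ τ)] at h6
    linarith only [h6, h4, h9, h10, h11, h12]

/-- For an atom `α = (k, l)` with node `p`, `Δ = M^5 d / M^4000`: `Δ ≤ |τ - Im p|` (if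
`|x k| < (1 - 2 M^{-2}) d` then `|Im p| ≥ d / M`).  If `‖z - p‖ ≥ 2d` use `NoZ` at `j - M^7994`;
otherwise use `NoZ` at the height `τ ± Δ` closer to `Im p`, where `‖z' - p‖² ≤ ‖z - p‖² - Δ²`. -/
theorem probe_B_negl (h : S.CHyp ja d N0) (hz : S.NoZ ja d N0) {j : ℕ} {Dd τ : ℝ}
    (hR : Reg M 1 (ja + 32 * M ^ 7998) d j Dd τ)
    (hH : ∀ k ∈ S.B, (1 - 2 * ((M : ℝ) ^ 2)⁻¹) * d ≤ |S.D.x k| → ∀ l : ℤ,
      (M : ℝ) ^ 5 * d / (M : ℝ) ^ 4000 ≤ |τ - l * sp (S.D.a k)|) :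
    ‖S.D.poles (S.PB1 d) j (zp d Dd τ)‖ ≤ Real.exp (-(M : ℝ) ^ 8) * N0 / Dd ^ (j + 1) := by
  have hp := S.par
  have hd := h.dpos
  have hN := h.pos
  obtain ⟨e0, -, -⟩ := cc3_eps hp
  have hq0 : (0 : ℝ) ≤ (M : ℝ) ^ 7994 := (hp.pow_pos _).le
  have hε : 0 ≤ d * ((M : ℝ) ^ 5)⁻¹ / 4 := by positivity
  have hP := (hR.cc3_two hp hd (j' := j) (τ' := τ) (by rwa [sub_self, abs_zero])
    (by rwa [sub_self, abs_zero])).preg hp hd
  obtain ⟨-, hD0, hDd⟩ := hP.norm_le hp hd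
  have hD := (pow_pos hD0 (j + 1)).le
  obtain ⟨j1, -, -⟩ := h.cc3_j hP
  have hK := Real.exp_pos ((M : ℝ) ^ 7)
  have h1 := cc3_poles h hP (E := Real.exp (-((M : ℝ) ^ 10 / 8)) *
      (Real.exp ((M : ℝ) ^ 7) * N0 / Dd ^ (j + 1))) (by positivity) fun α hα hαα => by
    have hNP : 0 ≤ S.NP α := Nm_nonneg
    rcases le_total (2 * d) ‖zp d Dd τ - S.D.node α‖ with hc | hc
    · have n1 : M ^ 7994 ≤ M ^ 8000 := hp.pow_monoN (by norm_num)
      obtain ⟨i, rfl⟩ := Nat.exists_eq_add_of_le' (n1.trans j1)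
      have h2 := hz i Dd τ (hR.cc3_two hp hd (by
        rw [Nat.cast_add, Nat.cast_pow, sub_add_cancel_left, abs_neg, abs_of_nonneg hq0])
        (by rwa [sub_self, abs_zero])) α hα hαα
      have h3 := cc3_div (N := 1) (a := ‖zp d Dd τ - S.D.node α‖) (b := Dd) (t := 1 / 2)
        (X := (M : ℝ) ^ 10 / 8) (n := M ^ 7994) zero_le_one hD0 (by
          have := mul_le_mul (by linarith only [Real.add_one_le_exp (-(1 / 2) : ℝ)] :
            (1 / 2 : ℝ) ≤ Real.exp (-(1 / 2))) hc (by linarith only [hd]) (Real.exp_pos _).le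
          linarith only [hDd, this]) (by
          have : (M : ℝ) ^ 10 ≤ (M : ℝ) ^ 7994 := hp.pow_mono (by norm_num)
          rw [Nat.cast_pow]
          linarith only [hq0, this])
      have h4 := mul_le_mul h2 h3 (by positivity) (by positivity)
      rw [add_right_comm, pow_add, pow_add Dd]
      refine le_trans (le_of_eq ?_) (h4.trans (le_of_eq ?_))
      · rw [div_mul_div_comm, mul_one]
      · rw [mul_left_comm, div_mul_div_comm, mul_one]
    · have hη := inv_pos.2 (hp.pow_pos 3995)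
      obtain ⟨τ', h2, h3⟩ := cc3_move d Dd τ _ (S.D.node α) (mul_pos hη hd).le
        (cc3_height hd hR hH hα hαα)
      have e3 : 4 * ((M : ℝ) ^ 3995)⁻¹ ≤ ((M : ℝ) ^ 5)⁻¹ :=
        hp.inv_pow_le (by norm_num) (by norm_num)
      have hR' := hR.cc3_two hp hd (j' := j) (τ' := τ') (by rwa [sub_self, abs_zero]) (by
        have := mul_le_mul_of_nonneg_right e3 hd.le
        linarith only [h2, this])
      have h4 := hz j Dd τ' hR' α hα hαα
      have h5 := (cc3_far h (hR'.preg hp hd) hα).2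
      refine le_trans (cc3_div (t := ((M : ℝ) ^ 3995)⁻¹ ^ 2 / 8) hNP h5 ?_ ?_)
        (mul_le_mul_of_nonneg_left h4 (Real.exp_pos _).le)
      · have h6 := norm_nonneg (zp d Dd τ - S.D.node α)
        generalize ‖zp d Dd τ' - S.D.node α‖ = a' at *
        generalize ‖zp d Dd τ - S.D.node α‖ = a at *
        generalize ((M : ℝ) ^ 3995)⁻¹ = η at *
        refine le_of_sq_le_sq ?_ (by positivity)
        have h7 : 1 - η ^ 2 / 4 ≤ Real.exp (-(η ^ 2 / 8)) ^ 2 := by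
          rw [← Real.exp_nat_mul]
          have := Real.add_one_le_exp (((2 : ℕ) : ℝ) * -(η ^ 2 / 8))
          push_cast at this ⊢
          linarith only [this]
        have h8 : a ^ 2 ≤ (2 * d) ^ 2 := pow_le_pow_left₀ h6 hc 2
        have h9 := mul_le_mul_of_nonneg_left h8 (sq_nonneg η)
        have h10 := mul_le_mul_of_nonneg_right h7 (sq_nonneg a)
        rw [mul_pow]
        linarith only [h3, h9, h10]
      · have h6 : (M : ℝ) ^ 8000 ≤ ((j + 1 : ℕ) : ℝ) := by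
          exact_mod_cast (by omega : M ^ 8000 ≤ j + 1)
        have h7 : (M : ℝ) ^ 10 = (M : ℝ) ^ 8000 * ((M : ℝ) ^ 3995)⁻¹ ^ 2 := by
          rw [inv_pow, ← pow_mul, eq_mul_inv_iff_mul_eq₀ (hp.pow_pos _).ne', ← pow_add]
        rw [h7, mul_div_assoc]
        exact mul_le_mul_of_nonneg_right h6 (div_nonneg (sq_nonneg _) (by norm_num))
  rw [mul_div_assoc, ← mul_assoc, ← mul_assoc, ← Real.exp_add, ← Real.exp_add] at h1
  have r1 : (M : ℝ) ≤ (M : ℝ) ^ 8 := by simpa using hp.pow_mono (i := 1) (k := 8) (by norm_num)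
  have r2 : (M : ℝ) ^ 7 ≤ (M : ℝ) ^ 8 := hp.pow_mono (by norm_num)
  have r3 : 24 * (M : ℝ) ^ 8 ≤ (M : ℝ) ^ 10 := hp.mul_pow_le (by norm_num) (by norm_num)
  exact h1.trans (cc3_exp (by linarith only [r1, r2, r3]) hN.le hD)

end Setup

end Pool.Agent.Work.MP_97f157_lc.Tau
end
end

-- merged part: Pool.Agent.Work.MP_97f157_lc.TauHi
section
/-! High frequencies: absolute clusters. -/

noncomputable section
open Complex Finset Metric

namespace Pool.Agent.Work.MP_97f157_lc.Tau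

variable {ι : Type*} {m M : ℕ}

theorem hi_pow_exp (hp : Par m M) {c : ℝ} (hc0 : 0 ≤ c) (hc : c ≤ Real.exp M) {n k : ℕ}
    (hn : n ≤ M ^ k) : c ^ n ≤ Real.exp ((M : ℝ) ^ (k + 1)) := by
  refine (pow_le_pow_left₀ hc0 hc n).trans ?_
  rw [← Real.exp_nat_mul, pow_succ]
  refine Real.exp_le_exp.2 (mul_le_mul_of_nonneg_right ?_ hp.pos.le)
  exact_mod_cast hn

theorem hi_c_exp (hp : Par m M) {c : ℝ} (hc : c ≤ 10 ^ 12) {k : ℕ} (hk : k < 100000) :
    c * (M : ℝ) ^ k ≤ Real.exp M :=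
  (hp.mul_pow_le hc (Nat.lt_succ_self k)).trans (hp.pow_le_exp hk)

theorem hi_c_exp' (hp : Par m M) {c : ℝ} (hc : c ≤ 10 ^ 12) : c ≤ Real.exp M := by
  have := hi_c_exp hp hc (k := 0) (by norm_num)
  rwa [pow_zero, mul_one] at this

theorem hi_pow_self {b : ℝ} {n : ℕ} (hb : 256 * (n : ℝ) ^ 2 ≤ b) : b ^ (2 * n) ≤ Real.exp (b / 4) := by
  have hb0 : 0 ≤ b := le_trans (by positivity) hb
  have h1 : 16 * (n : ℝ) ≤ √b := Real.le_sqrt_of_sq_le (by linarith)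
  have h2 : √b * √b = b := Real.mul_self_sqrt hb0
  have h3 : √b ≤ Real.exp √b := by linarith [Real.add_one_le_exp √b]
  have h0 := Real.sqrt_nonneg b
  generalize √b = s at *
  have h4 : b ≤ Real.exp (2 * s) := by
    rw [two_mul, Real.exp_add, ← h2]
    exact mul_le_mul h3 h3 h0 (Real.exp_pos _).le
  refine (pow_le_pow_left₀ hb0 h4 _).trans ?_
  rw [← Real.exp_nat_mul]
  refine Real.exp_le_exp.2 ?_
  push_cast
  linarith only [hb, h2, h1, mul_nonneg_of_nonpos_of_nonpos (Mathlib.Tactic.Linarith.sub_nonpos_of_le h1) (Mathlib.Tactic.Linarith.sub_nonpos_of_le h1)]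

namespace Setup
variable (S : Setup ι m M)

/-- absolute clustering of the high frequencies at scale `1/ρ` -/
def HiClus (sb : ι × ℕ → ι × ℕ) : Prop :=
  AClus S.Hi S.D.freq sb (1 / (4 * S.ρ)) (1 / (4 * S.ρ * (M : ℝ) ^ 264))

/-- norm of an absolute cluster -/
def NS (sb : ι × ℕ → ι × ℕ) (β : ι × ℕ) : ℝ :=
  Nm (cls S.Hi sb β) (fun ν => (((S.D.freq ν - S.D.freq β) * S.ρ : ℝ) : ℂ)) (fun _ => 0) S.D.cf

def hiV (β ν : ι × ℕ) : ℂ := (((S.D.freq ν - S.D.freq β) * S.ρ : ℝ) : ℂ)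

theorem hi_mem {ν : ι × ℕ} : ν ∈ S.Hi ↔ ν ∈ S.PA ∧ ¬ |S.D.freq ν| * S.ρ ≤ S.Tc := mem_filter

theorem hi_cardPA : S.PA.card ≤ M ^ 264 := (Nat.le_mul_of_pos_left _ two_pos).trans S.card_PA

theorem hi_card : S.Hi.card ≤ M ^ 264 := (card_filter_le _ _).trans S.hi_cardPA

theorem hi_card_cls {κ : Type*} (s : Finset κ) (rep : κ → κ) (r : κ) : (cls s rep r).card ≤ s.card :=
  card_le_card fun _ hk => (mem_cls.1 hk).1

theorem exists_hiClus : ∃ sb, S.HiClus sb := by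
  have hρ := S.ρpos
  have hY := S.par.pow_pos 264
  refine exists_aclus S.Hi S.D.freq S.hi_card (by positivity) (le_of_eq ?_)
  rw [Nat.cast_pow]
  generalize (M : ℝ) ^ 264 = Y at *
  field_simp

theorem Hi_freq : ∀ ν ∈ S.Hi, S.Tc * (1 + ((M : ℝ) ^ 265)⁻¹) ≤ |S.D.freq ν| * S.ρ :=
  fun ν hν => (S.gapc ν (S.hi_mem.1 hν).1).resolve_left (S.hi_mem.1 hν).2

theorem hi_big : ∀ ν ∈ S.Hi, (M : ℝ) ^ 8540 ≤ |S.D.freq ν| * S.ρ :=
  fun _ hν => S.Tc1.trans (not_le.1 (S.hi_mem.1 hν).2).le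

theorem hi_four : ∀ ν ∈ S.Hi, 4 ≤ |S.D.freq ν| * S.ρ := fun ν hν => by
  have := S.par.mul_pow_le (c := 4) (i := 0) (k := 8540) (by norm_num) (by norm_num)
  rw [pow_zero, mul_one] at this
  exact this.trans (S.hi_big ν hν)

theorem hi_near {sb : ι × ℕ → ι × ℕ} (hsb : S.HiClus sb) {ν : ι × ℕ} (hν : ν ∈ S.Hi) :
    |S.D.freq ν - S.D.freq (sb ν)| * S.ρ ≤ 1 / 4 := by
  have hρ := S.ρpos
  refine (mul_le_mul_of_nonneg_right (hsb.near ν hν) hρ.le).trans (le_of_eq ?_)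
  field_simp

theorem hi_v {sb : ι × ℕ → ι × ℕ} (hsb : S.HiClus sb) (β : ι × ℕ) :
    ∀ ν ∈ cls S.Hi sb β, ‖S.hiV β ν‖ ≤ 1 / 4 := by
  intro ν hν
  obtain ⟨h1, rfl⟩ := mem_cls.1 hν
  rw [hiV, norm_real, Real.norm_eq_abs, abs_mul, abs_of_pos S.ρpos]
  exact S.hi_near hsb h1

theorem hi_atom_sub {α : ι × ℕ} (hα : α ∈ S.Hi) : cls S.PA S.at' α ⊆ S.Hi := by
  intro ν hν
  obtain ⟨h1, h2⟩ := mem_cls.1 hν
  refine S.hi_mem.2 ⟨h1, fun h => ?_⟩
  have := (S.Lo_sat ν h1).1 (S.env_Lo.2 ⟨h1, h⟩)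
  rw [h2] at this
  exact (S.hi_mem.1 hα).2 (S.env_Lo.1 this).2

theorem hi_close {sb : ι × ℕ → ι × ℕ} (hsb : S.HiClus sb) {α k : ι × ℕ} (hα : α ∈ S.Hi)
    (hk : k ∈ cls S.PA S.at' α) :
    |S.D.freq (sb k) - S.D.freq α| * S.ρ ≤ 1 / 4 + eA1 M / 4 * (|S.D.freq α| * S.ρ) := by
  have h1 := S.hi_near hsb (S.hi_atom_sub hα hk)
  obtain ⟨h2, h3⟩ := mem_cls.1 hk
  have h4 := S.hat.near k h2
  rw [h3, ← ofReal_sub, norm_real, norm_real, Real.norm_eq_abs, Real.norm_eq_abs] at h4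
  have h5 := abs_sub_le (S.D.freq (sb k)) (S.D.freq k) (S.D.freq α)
  rw [abs_sub_comm (S.D.freq (sb k)) (S.D.freq k)] at h5
  have hρ := S.ρpos
  have h6 := mul_le_mul_of_nonneg_right h5 hρ.le
  have h7 := mul_le_mul_of_nonneg_right h4 hρ.le
  linarith only [h1, h6, h7]

theorem hi_piece [DecidableEq (ι × ℕ)] {sb : ι × ℕ → ι × ℕ} (hsb : S.HiClus sb) {α k : ι × ℕ}
    (hα : α ∈ S.Hi) (hk : k ∈ cls S.PA S.at' α) :
    NB ((cls S.PA S.at' α).filter fun k' => sb k' = sb k)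
      (rv (fun ν => (S.D.freq ν : ℂ)) S.at' (eA1 M)) (fun _ => 0) S.D.cf
      (Real.exp (4 * (M : ℝ) ^ 529) * S.NS sb (sb k)) := by
  have hρ := S.ρpos
  have he := env_eA1_pos S.par
  have he0 : 0 < eA0 M := inv_pos.2 (S.par.pow_pos _)
  have hsub : ((cls S.PA S.at' α).filter fun k' => sb k' = sb k) ⊆ cls S.Hi sb (sb k) :=
    fun ν hν => mem_cls.2 ⟨S.hi_atom_sub hα (mem_filter.1 hν).1, (mem_filter.1 hν).2⟩
  have hc : (cls S.Hi sb (sb k)).card ≤ M ^ 264 := (hi_card_cls _ _ _).trans S.hi_card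
  have hu : ∀ ν ∈ cls S.Hi sb (sb k), ‖S.hiV (sb k) ν‖ ≤ 1 :=
    fun ν hν => (S.hi_v hsb _ ν hν).trans (by norm_num)
  have h0 : NB (cls S.Hi sb (sb k)) (S.hiV (sb k)) (fun _ => 0) S.D.cf (S.NS sb (sb k)) :=
    nb_Nm hu (fun _ _ => by simp)
  have h1 := h0.restrict hsub hc he0 (env_inv_le S.par _) hu (fun k1 hk1 w hw hw' => by
    obtain ⟨a1, a2⟩ := mem_cls.1 (mem_filter.1 hk1).1
    obtain ⟨a3, a4⟩ := mem_cls.1 hw
    have a5 := S.hat.sep k1 a1 w (S.hi_mem.1 a3).1 (fun h =>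
      hw' (mem_filter.2 ⟨mem_cls.2 ⟨(S.hi_mem.1 a3).1, h ▸ a2⟩, a4⟩))
    rw [← ofReal_sub, norm_real, norm_real, norm_real, Real.norm_eq_abs, Real.norm_eq_abs,
      Real.norm_eq_abs] at a5
    have a6 := S.hi_four k1 (mem_cls.1 (hsub hk1)).1
    have a7 := S.hi_four w a3
    have a8 : 1 ≤ min |S.D.freq k1| |S.D.freq w| * S.ρ := by
      rw [min_mul_of_nonneg _ _ hρ.le]
      exact le_min (by linarith only [a6]) (by linarith only [a7])
    rw [hiV, hiV, ← ofReal_sub, norm_real, Real.norm_eq_abs, ← sub_mul, sub_sub_sub_cancel_right,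
      abs_mul, abs_of_pos hρ]
    refine le_trans ?_ (mul_le_mul_of_nonneg_right a5.le hρ.le)
    rw [mul_assoc]
    exact le_mul_of_one_le_right he0.le a8)
  have hα4 := S.hi_four α hα
  have hf0 : S.D.freq α ≠ 0 := S.freq_ne α (S.hi_mem.1 hα).1
  have hfa : 0 < |S.D.freq α| := abs_pos.2 hf0
  have hK : (eA1 M * (|S.D.freq α| * S.ρ))⁻¹ * 1 +
      |S.D.freq (sb k) - S.D.freq α| * S.ρ / (eA1 M * (|S.D.freq α| * S.ρ)) ≤ Real.exp M := by
    have b1 := S.hi_close hsb hα hk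
    have b2 : (eA1 M)⁻¹ ≤ Real.exp M := by
      rw [eA1, inv_inv]
      exact S.par.pow_le_exp (by norm_num)
    have b3 : eA1 M ≤ 1 := env_inv_le S.par _
    refine le_trans ?_ b2
    generalize |S.D.freq (sb k) - S.D.freq α| * S.ρ = c at *
    generalize |S.D.freq α| * S.ρ = a at *
    generalize eA1 M = e at *
    have b4 : 0 < e * a := mul_pos he (by linarith only [hα4])
    rw [inv_mul_eq_div, ← add_div, div_le_iff₀ b4, ← mul_assoc, inv_mul_cancel₀ he.ne', one_mul]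
    linarith only [hα4, b3, b1, mul_nonneg_of_nonpos_of_nonpos (Mathlib.Tactic.Linarith.sub_nonpos_of_le hα4) (Mathlib.Tactic.Linarith.sub_nonpos_of_le b3)]
  have hm : Mu ((cls S.PA S.at' α).filter fun k' => sb k' = sb k) (S.hiV (sb k)) (fun _ => 0)
      (rv (fun ν => (S.D.freq ν : ℂ)) S.at' (eA1 M)) (Real.exp M) := by
    refine (((Mu.fst.smul (((eA1 M * (S.D.freq α * S.ρ))⁻¹ : ℝ) : ℂ)).add (Mu.const
      (((S.D.freq (sb k) - S.D.freq α) * S.ρ / (eA1 M * (S.D.freq α * S.ρ)) : ℝ) : ℂ))).mono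
        (le_trans (le_of_eq ?_) hK)).congr fun ν hν => ?_
    · simp only [norm_real, Real.norm_eq_abs, abs_inv, abs_div, abs_mul, abs_of_pos he,
        abs_of_pos hρ]
    · have a1 := (mem_cls.1 (mem_filter.1 hν).1).2
      have a2 : (S.D.freq α : ℂ) ≠ 0 := ofReal_ne_zero.2 hf0
      have a3 : (S.ρ : ℂ) ≠ 0 := ofReal_ne_zero.2 hρ.ne'
      have a4 : (eA1 M : ℂ) ≠ 0 := ofReal_ne_zero.2 he.ne'
      simp only [rv, hiV, a1]
      push_cast
      field_simp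
      ring
  have hM1 : 1 ≤ Real.exp M := Real.one_le_exp S.par.pos.le
  have h2 := h1.recenter (u' := rv (fun ν => (S.D.freq ν : ℂ)) S.at' (eA1 M)) (v' := fun _ => 0)
    ((card_le_card hsub).trans hc) hM1 hm (Mu.snd.mono hM1)
    (fun ν hν => (S.hat.rv_le he S.env_freq_ne ν (mem_cls.1 (mem_filter.1 hν).1).1).trans
      (by norm_num)) (fun _ _ => by simp)
  refine h2.mono ?_
  rw [← mul_assoc]
  refine mul_le_mul_of_nonneg_right ?_ h0.nonneg
  have c1 : (9 : ℝ) ^ M ^ 264 ≤ Real.exp ((M : ℝ) ^ 529) :=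
    hi_pow_exp S.par (by norm_num) (hi_c_exp' S.par (by norm_num)) (S.par.pow_monoN (by norm_num))
  have c2 : Real.exp M ^ (2 * M ^ 264) ≤ Real.exp ((M : ℝ) ^ 529) :=
    hi_pow_exp S.par (Real.exp_pos _).le le_rfl (S.par.mul_pow_leN (by norm_num) (by norm_num))
  have c3 : (4 / eA0 M) ^ (M ^ 264 * M ^ 264) ≤ Real.exp ((M : ℝ) ^ 529) := by
    refine hi_pow_exp S.par (div_nonneg (by norm_num) he0.le) ?_ (le_of_eq (pow_add M 264 264).symm)
    rw [eA0, div_inv_eq_mul]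
    exact hi_c_exp S.par (by norm_num) (by norm_num)
  have c4 := S.par.pow_pos 529
  refine (mul_le_mul (mul_le_mul c1 c2 (pow_nonneg (Real.exp_pos _).le _) (Real.exp_pos _).le) c3
    (pow_nonneg (div_nonneg (by norm_num) he0.le) _)
    (mul_nonneg (Real.exp_pos _).le (Real.exp_pos _).le)).trans ?_
  rw [← Real.exp_add, ← Real.exp_add]
  refine Real.exp_le_exp.2 ?_
  generalize (M : ℝ) ^ 529 = Y at *
  linarith only [c4]

/-- Split the atom `α` (contained in `Hi`, `Lo_sat`) along the absolute clusters `β` meeting it.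
`NB.restrict` from `cls Hi sb β` to its intersection with the atom (separation
`δ = eA0 * M^8540 / 2` in `v = (μ - μ_β) ρ`, `n = M^264`), `NB.recenter` to `rv` with `K = 2 M^32000`;
the total loss `exp (M^530)` is absorbed by `exp (ρ |μ| / 8)`, `ρ |μ| ≥ M^8540`. -/
theorem hi_atom_le {sb : ι × ℕ → ι × ℕ} (hsb : S.HiClus sb) {j : ℕ} (hj : j ≤ 3 * M ^ 8000) {E : ℝ}
    (hE : 0 ≤ E) (h : ∀ β ∈ S.Hi, sb β = β →
      S.NS sb β * |S.D.freq β| ^ j / (j.factorial : ℝ) ≤ E * Real.exp (3 * S.ρ * |S.D.freq β|))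
    (α : ι × ℕ) (hα : α ∈ S.Hi) (hαα : S.at' α = α) :
    S.NA S.D.cf α * |S.D.freq α| ^ j / (j.factorial : ℝ) ≤
      E * Real.exp (13 / 4 * S.ρ * |S.D.freq α|) := by
  classical
  have hρ := S.ρpos
  have hα4 := S.hi_four α hα
  have hfa : 0 < |S.D.freq α| := abs_pos.2 (S.freq_ne α (S.hi_mem.1 hα).1)
  have hw : 0 < |S.D.freq α| ^ j / (j.factorial : ℝ) :=
    div_pos (pow_pos hfa _) (by exact_mod_cast j.factorial_pos)
  have he : 6 * eA1 M ≤ 1 := by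
    have := S.par.inv_pow_le (c := 6) (i := 0) (k := 32000) (by norm_num) (by norm_num)
    rwa [pow_zero, inv_one] at this
  have h2j : (2 : ℝ) ^ j ≤ Real.exp (3 * (M : ℝ) ^ 8000) := by
    have a1 : (2 : ℝ) ≤ Real.exp 1 := by linarith only [Real.add_one_le_exp (1 : ℝ)]
    refine (pow_le_pow_left₀ (by norm_num) a1 j).trans ?_
    rw [← Real.exp_nat_mul, mul_one]
    exact Real.exp_le_exp.2 (by exact_mod_cast hj)
  set B0 := E * Real.exp (25 / 8 * (|S.D.freq α| * S.ρ) + 1 + 3 * (M : ℝ) ^ 8000) with hB0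
  have hB : 0 ≤ B0 := mul_nonneg hE (Real.exp_pos _).le
  have key : ∀ k ∈ cls S.PA S.at' α,
      S.NS sb (sb k) ≤ B0 / (|S.D.freq α| ^ j / (j.factorial : ℝ)) := by
    intro k hk
    have hk' := S.hi_atom_sub hα hk
    have a1 := h (sb k) (hsb.mem k hk') (hsb.idem k hk')
    have a2 := S.hi_close hsb hα hk
    have a3 := mul_le_mul_of_nonneg_right (abs_sub_abs_le_abs_sub (S.D.freq (sb k)) (S.D.freq α))
      hρ.le
    have a4 := mul_le_mul_of_nonneg_right (abs_sub_abs_le_abs_sub (S.D.freq α) (S.D.freq (sb k)))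
      hρ.le
    rw [abs_sub_comm] at a4
    have a5 : eA1 M / 4 * (|S.D.freq α| * S.ρ) ≤ 1 / 24 * (|S.D.freq α| * S.ρ) :=
      mul_le_mul_of_nonneg_right (by linarith only [he]) (by linarith only [hα4])
    have a6 : |S.D.freq α| ≤ 2 * |S.D.freq (sb k)| := le_of_mul_le_mul_right (by linarith only [hα4, a2, a4, a5]) hρ
    have a7 : |S.D.freq α| ^ j ≤ 2 ^ j * |S.D.freq (sb k)| ^ j := by
      rw [← mul_pow]
      exact pow_le_pow_left₀ hfa.le a6 j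
    have a8 : 0 ≤ S.NS sb (sb k) := Nm_nonneg
    rw [le_div_iff₀ hw]
    calc S.NS sb (sb k) * (|S.D.freq α| ^ j / (j.factorial : ℝ))
        ≤ S.NS sb (sb k) * (2 ^ j * |S.D.freq (sb k)| ^ j / (j.factorial : ℝ)) := by gcongr
      _ = S.NS sb (sb k) * |S.D.freq (sb k)| ^ j / (j.factorial : ℝ) * 2 ^ j := by ring
      _ ≤ E * Real.exp (3 * S.ρ * |S.D.freq (sb k)|) * Real.exp (3 * (M : ℝ) ^ 8000) :=
        mul_le_mul a1 h2j (by positivity) (mul_nonneg hE (Real.exp_pos _).le)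
      _ ≤ B0 := by
        rw [hB0, mul_assoc, ← Real.exp_add]
        refine mul_le_mul_of_nonneg_left (Real.exp_le_exp.2 ?_) hE
        generalize (M : ℝ) ^ 8000 = Y
        linarith only [a2, a3, a5]
  have h1 := (Kill_fib sb (mul_nonneg (Real.exp_pos (4 * (M : ℝ) ^ 529)).le (div_nonneg hB hw.le))
    (fun k hk => (S.hi_piece hsb hα hk).mono
      (mul_le_mul_of_nonneg_left (key k hk) (Real.exp_pos _).le))).Nm_le
  have h2 : ((cls S.PA S.at' α).card : ℝ) ≤ Real.exp M := by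
    refine le_trans ?_ (S.par.pow_le_exp (k := 264) (by norm_num))
    exact_mod_cast (hi_card_cls _ _ _).trans S.hi_cardPA
  rw [mul_div_assoc, ← le_div_iff₀ hw]
  refine h1.trans ?_
  rw [← mul_div_assoc, ← mul_div_assoc]
  refine div_le_div_of_nonneg_right ?_ hw.le
  refine (mul_le_mul_of_nonneg_right h2 (mul_nonneg (Real.exp_pos _).le hB)).trans ?_
  rw [hB0, mul_left_comm (Real.exp _) E, mul_left_comm (Real.exp _) E, ← Real.exp_add,
    ← Real.exp_add]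
  refine mul_le_mul_of_nonneg_left (Real.exp_le_exp.2 ?_) hE
  have c1 := S.hi_big α hα
  have c2 : 72 * (M : ℝ) ^ 8000 ≤ (M : ℝ) ^ 8540 := S.par.mul_pow_le (by norm_num) (by norm_num)
  have c3 : (M : ℝ) ^ 529 ≤ (M : ℝ) ^ 8000 := S.par.pow_mono (by norm_num)
  have c4 : (M : ℝ) ^ 1 ≤ (M : ℝ) ^ 8000 := S.par.pow_mono (by norm_num)
  have c5 := S.par.one_le
  rw [pow_one] at c4
  clear_value B0
  generalize (M : ℝ) ^ 8000 = Y at *
  generalize (M : ℝ) ^ 8540 = Y1 at *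
  generalize (M : ℝ) ^ 529 = Y2 at *
  linarith only [c5, c4, c1, c2, c3]

theorem hi_factor {sb : ι × ℕ → ι × ℕ} (hsb : S.HiClus sb) {β ν' : ι × ℕ} (hβ : β ∈ S.Hi)
    (hν' : ν' ∈ S.Hi) (hne : sb ν' ≠ β) :
    Mu (cls S.Hi sb β) (S.hiV β) (fun _ => 0)
      (fun ν => (1 - (S.D.freq ν : ℂ) / (S.D.freq ν' : ℂ))⁻¹)
      (2 * (|S.D.freq β| * S.ρ) * Real.exp (2 * (M : ℝ) ^ 265)) := by
  have hρ := S.ρpos
  have hρ' : (S.ρ : ℂ) ≠ 0 := ofReal_ne_zero.2 hρ.ne'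
  have h4 := S.hi_four β hβ
  have h4' := S.hi_four ν' hν'
  have hf : S.D.freq ν' ≠ 0 := S.freq_ne ν' (S.hi_mem.1 hν').1
  have hf' : (S.D.freq ν' : ℂ) ≠ 0 := ofReal_ne_zero.2 hf
  have hu : ∀ ν ∈ cls S.Hi sb β, ‖S.hiV β ν‖ ≤ 1 :=
    fun ν hν => (S.hi_v hsb _ ν hν).trans (by norm_num)
  have hv : ∀ k ∈ cls S.Hi sb β, ‖(fun _ : ι × ℕ => (0 : ℂ)) k‖ ≤ 1 := fun _ _ => by simp
  have hY := S.par.pow_pos 265
  by_cases hc : 2 * |S.D.freq β| ≤ |S.D.freq ν'|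
  · have h1 : Mu (cls S.Hi sb β) (S.hiV β) (fun _ => 0)
        (fun ν => (S.D.freq ν : ℂ) / (S.D.freq ν' : ℂ)) (3 / 4) := by
      refine (((Mu.const ((S.D.freq β / S.D.freq ν' : ℝ) : ℂ)).add
        (Mu.fst.smul (((S.D.freq ν' * S.ρ)⁻¹ : ℝ) : ℂ))).mono ?_).congr fun ν _ => ?_
      · simp only [norm_real, Real.norm_eq_abs, abs_inv, abs_div, abs_mul, abs_of_pos hρ, mul_one]
        have a1 : |S.D.freq β| / |S.D.freq ν'| ≤ 1 / 2 := by
          rw [div_le_iff₀ (abs_pos.2 hf)]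
          linarith only [hc]
        have a2 : (|S.D.freq ν'| * S.ρ)⁻¹ ≤ 4⁻¹ := inv_anti₀ (by norm_num) h4'
        linarith only [a1, a2]
      · simp only [hiV]
        push_cast
        field_simp
        ring
    refine (h1.inv_sub hu hv (by norm_num) (c := 1) (by rw [norm_one]; norm_num)).mono ?_
    have a1 : 1 ≤ Real.exp (2 * (M : ℝ) ^ 265) := Real.one_le_exp (by linarith only [hY])
    rw [norm_one]
    generalize Real.exp (2 * (M : ℝ) ^ 265) = Z at *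
    norm_num
    linarith only [h4, a1, mul_nonneg_of_nonpos_of_nonpos (Mathlib.Tactic.Linarith.sub_nonpos_of_le h4) (Mathlib.Tactic.Linarith.sub_nonpos_of_le a1)]
  · have hδ : 0 < (4 * (M : ℝ) ^ 264)⁻¹ := inv_pos.2 (mul_pos (by norm_num) (S.par.pow_pos _))
    have hδ1 : (4 * (M : ℝ) ^ 264)⁻¹ ≤ 1 :=
      inv_le_one_of_one_le₀ (by linarith only [one_le_pow₀ (n := 264) S.par.one_le])
    have h1 := Mu.inv_lin (s := cls S.Hi sb β) (u := S.hiV β) (v := fun _ => 0)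
      (x := S.hiV β) (w := S.hiV β ν') (K := 2) ((hi_card_cls _ _ _).trans S.hi_card) hδ
      (hδ1.trans one_le_two)
      (fun k' hk' => (Mu.fst.sub (Mu.const _)).mono (by linarith only [hu, hk', hu k' hk']))
      (fun k hk => by
        obtain ⟨a1, a2⟩ := mem_cls.1 hk
        have a3 := hsb.sep ν' hν' k a1 (by rwa [a2])
        rw [hiV, hiV, ← ofReal_sub, norm_real, Real.norm_eq_abs, ← sub_mul,
          sub_sub_sub_cancel_right, abs_mul, abs_of_pos hρ]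
        refine le_trans (le_of_eq ?_) (mul_le_mul_of_nonneg_right a3.le hρ.le)
        have := S.par.pow_pos 264
        generalize (M : ℝ) ^ 264 = Y at *
        field_simp)
    refine ((h1.smul ((S.D.freq ν' * S.ρ : ℝ) : ℂ)).mono ?_).congr fun ν _ => ?_
    · rw [norm_real, Real.norm_eq_abs, abs_mul, abs_of_pos hρ, inv_inv, div_inv_eq_mul]
      have a1 : ((M ^ 264 : ℕ) : ℝ) * (4 * (M : ℝ) ^ 264) ≤ Real.exp ((M : ℝ) ^ 265) := by
        rw [Nat.cast_pow, mul_left_comm, ← pow_add]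
        refine (hi_c_exp S.par (by norm_num) (by norm_num)).trans (Real.exp_le_exp.2 ?_)
        exact le_self_pow₀ S.par.one_le (by norm_num)
      have a2 : (2 * (4 * (M : ℝ) ^ 264)) ^ M ^ 264 ≤ Real.exp ((M : ℝ) ^ 265) := by
        refine hi_pow_exp S.par (mul_nonneg zero_le_two (inv_pos.1 hδ).le) ?_ le_rfl
        rw [← mul_assoc]
        exact hi_c_exp S.par (by norm_num) (by norm_num)
      have a3 : 0 ≤ (2 * (4 * (M : ℝ) ^ 264)) ^ M ^ 264 :=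
        pow_nonneg (mul_nonneg zero_le_two (inv_pos.1 hδ).le) _
      have a4 := mul_le_mul a1 a2 a3 (Real.exp_pos _).le
      rw [← Real.exp_add, ← two_mul] at a4
      refine mul_le_mul ?_ a4 (mul_nonneg (mul_nonneg (Nat.cast_nonneg _) (inv_pos.1 hδ).le) a3)
        (by linarith only [h4])
      rw [← mul_assoc]
      exact mul_le_mul_of_nonneg_right (not_le.1 hc).le hρ.le
    · have : 1 - (S.D.freq ν : ℂ) / (S.D.freq ν' : ℂ) =
          (S.hiV β ν' - S.hiV β ν) / ((S.D.freq ν' * S.ρ : ℝ) : ℂ) := by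
        simp only [hiV]
        push_cast
        field_simp
        ring
      rw [this, inv_div, div_eq_mul_inv]

theorem hi_invpow {sb : ι × ℕ → ι × ℕ} (hsb : S.HiClus sb) {β : ι × ℕ} (hβ : β ∈ S.Hi) {j : ℕ}
    (hj : j ≤ 3 * M ^ 8000) :
    Mu (cls S.Hi sb β) (S.hiV β) (fun _ => 0) (fun ν => (ec (S.D.freq ν) j 0)⁻¹)
      (2 * (|S.D.freq β| ^ j / (j.factorial : ℝ))⁻¹) := by
  have hρ := S.ρpos
  have hρ' : (S.ρ : ℂ) ≠ 0 := ofReal_ne_zero.2 hρ.ne'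
  have h4 := S.hi_four β hβ
  have hu : ∀ ν ∈ cls S.Hi sb β, ‖S.hiV β ν‖ ≤ 1 :=
    fun ν hν => (S.hi_v hsb _ ν hν).trans (by norm_num)
  have hv : ∀ k ∈ cls S.Hi sb β, ‖(fun _ : ι × ℕ => (0 : ℂ)) k‖ ≤ 1 := fun _ _ => by simp
  have hn : ‖((-(S.D.freq β * S.ρ) : ℝ) : ℂ)‖ = |S.D.freq β| * S.ρ := by
    rw [norm_real, Real.norm_eq_abs, abs_neg, abs_mul, abs_of_pos hρ]
  have h1 := (Mu.fst (s := cls S.Hi sb β) (u := S.hiV β) (v := fun _ => 0)).inv_sub hu hv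
    zero_le_one (c := ((-(S.D.freq β * S.ρ) : ℝ) : ℂ)) (by rw [hn]; linarith only [h4])
  rw [hn] at h1
  refine ((((h1.smul (S.ρ : ℂ)).pow j).smul (j.factorial : ℂ)).mono ?_).congr fun ν _ => ?_
  · rw [norm_natCast, norm_real, Real.norm_eq_abs, abs_of_pos hρ, inv_div]
    have a1 : (j : ℝ) ≤ 3 * (M : ℝ) ^ 8000 := by exact_mod_cast hj
    have a2 : 6 * (M : ℝ) ^ 8000 ≤ (M : ℝ) ^ 8540 := S.par.mul_pow_le (by norm_num) (by norm_num)
    have a3 : 2 * (j : ℝ) ≤ |S.D.freq β| * S.ρ := by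
      have := S.hi_big β hβ
      generalize (M : ℝ) ^ 8000 = Y at *
      generalize (M : ℝ) ^ 8540 = Y1 at *
      linarith only [a1, this, a2]
    have hfa : 0 < |S.D.freq β| := abs_pos.2 (S.freq_ne β (S.hi_mem.1 hβ).1)
    generalize |S.D.freq β| = μ at *
    have b0 : 0 < μ * S.ρ := by linarith only [h4]
    have b1 : (μ * S.ρ)⁻¹ ≤ 4⁻¹ := inv_anti₀ (by norm_num) h4
    have b2 := one_add_mul_le_pow (a := -(μ * S.ρ)⁻¹) (by linarith only [b1]) j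
    have b3 : (j : ℝ) * (μ * S.ρ)⁻¹ ≤ 1 / 2 := by
      rw [← div_eq_mul_inv, div_le_iff₀ b0]
      linarith only [a3]
    have b4 : S.ρ * (μ * S.ρ - 1)⁻¹ = (μ * (1 + -(μ * S.ρ)⁻¹))⁻¹ := by
      have : μ * S.ρ - 1 ≠ 0 := by linarith only [h4]
      have : μ * S.ρ + -1 ≠ 0 := by linarith only [h4]
      field_simp
      ring
    rw [b4, inv_pow, mul_pow, mul_inv, ← mul_assoc, ← div_eq_mul_inv, mul_comm 2]
    refine mul_le_mul_of_nonneg_left ?_ (by positivity)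
    rw [inv_le_comm₀ (by linarith only [b2, b3]) two_pos]
    linarith only [b2, b3]
  · have : ((-(S.D.freq β * S.ρ) : ℝ) : ℂ) - S.hiV β ν = -(S.D.freq ν : ℂ) * S.ρ := by
      simp only [hiV]
      push_cast
      ring
    rw [this, mul_inv, mul_left_comm, mul_inv_cancel₀ hρ', mul_one, ec, mul_zero, exp_zero, mul_one,
      inv_div, inv_pow, div_eq_mul_inv]

theorem hi_Lm_rep (i : ℕ) (μ ν : ℝ) : Lm (List.replicate i μ) ν = (1 - (ν : ℂ) / (μ : ℂ)) ^ i := by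
  rw [Lm, List.map_replicate, List.prod_replicate]

/-- `l = l1 ++ replicate i μ`, `μ = freq β`, `l1` the list of the frequencies of `Hi` outside the
class of `β` (`Lm_eq_zero`, `Lm_append`).  With `v = (freq ν - μ) ρ`, `g = cf * Lm l1 * (-freq)^j / j!`,
`N' = Nm (cls β) v 0 g`, take `i < M^264` from `exists_low_moment`; `1 - freq ν / μ = - v / (μ ρ)`.
The value at `0` is `(|μ| ρ)^{-i} ‖∑ g v^i‖`; on the disc the multiplier `v^i exp (v z / ρ)` has norm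
`≤ e²`.  Conversely `NS β |μ|^j / j! ≤ 2 (2 |μ| ρ exp (M^265))^{|l1|} N'`: the factor
`(1 - freq ν / μ')⁻¹ = μ' ρ / ((μ' - μ) ρ - v)` is a multiplier of norm `≤ 4` if `|μ'| ≥ 2 |μ|`
(`Mu.inv_sub`) and `≤ 2 |μ| ρ exp (M^265)` otherwise (`Mu.inv_lin`, `δ = 1/(4 M^264)`, `K = 2`). -/
theorem hi_main {sb : ι × ℕ → ι × ℕ} (hsb : S.HiClus sb) {j : ℕ} (hj : j ≤ 3 * M ^ 8000)
    (β : ι × ℕ) (hβ : β ∈ S.Hi) (hββ : sb β = β) : ∃ l : List ℝ, S.Adm l ∧
      S.NS sb β * |S.D.freq β| ^ j / (j.factorial : ℝ) * Real.exp (-(S.ρ * |S.D.freq β| / 2)) ≤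
        ‖S.D.exps S.Hi (S.D.cfL l) j 0‖ ∧
      ∀ z : ℂ, ‖z‖ ≤ 2 * S.ρ → ‖exp (-((S.D.freq β : ℂ) * z)) * S.D.exps S.Hi (S.D.cfL l) j z‖ ≤
        Real.exp ((M : ℝ) ^ 266) * ‖S.D.exps S.Hi (S.D.cfL l) j 0‖ := by
  classical
  have hρ := S.ρpos
  have hρ' : (S.ρ : ℂ) ≠ 0 := ofReal_ne_zero.2 hρ.ne'
  have h4 := S.hi_four β hβ
  have hf : S.D.freq β ≠ 0 := S.freq_ne β (S.hi_mem.1 hβ).1
  have hf' : (S.D.freq β : ℂ) ≠ 0 := ofReal_ne_zero.2 hf
  have hu : ∀ ν ∈ cls S.Hi sb β, ‖S.hiV β ν‖ ≤ 1 :=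
    fun ν hν => (S.hi_v hsb _ ν hν).trans (by norm_num)
  have hv : ∀ k ∈ cls S.Hi sb β, ‖(fun _ : ι × ℕ => (0 : ℂ)) k‖ ≤ 1 := fun _ _ => by simp
  obtain ⟨l1, hl1, hl2, hl3⟩ : ∃ l1 : List ℝ, l1.length ≤ M ^ 264 ∧
      (∀ μ ∈ l1, ∃ ν' ∈ S.Hi, sb ν' ≠ β ∧ S.D.freq ν' = μ) ∧
      ∀ ν' ∈ S.Hi, sb ν' ≠ β → S.D.freq ν' ∈ l1 := by
    refine ⟨(S.Hi.filter fun ν => sb ν ≠ β).toList.map S.D.freq, ?_, fun μ hμ => ?_,
      fun ν' h1 h2 => List.mem_map.2 ⟨ν', mem_toList.2 (mem_filter.2 ⟨h1, h2⟩), rfl⟩⟩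
    · rw [List.length_map, length_toList]
      exact (card_filter_le _ _).trans S.hi_card
    · obtain ⟨ν', h1, h2⟩ := List.mem_map.1 hμ
      obtain ⟨h3, h5⟩ := mem_filter.1 (mem_toList.1 h1)
      exact ⟨ν', h3, h5, h2⟩
  set g : ι × ℕ → ℂ := fun ν => S.D.cfL l1 ν * ec (S.D.freq ν) j 0 with hg
  obtain ⟨i, hi, hN⟩ := exists_low_moment (s := cls S.Hi sb β) (u := S.hiV β) (g := g)
    ((hi_card_cls _ _ _).trans S.hi_card) (Nat.one_le_pow 264 _ S.par.one_leN)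
    (fun ν hν => (S.hi_v hsb _ ν hν).trans (by norm_num))
  have hNB : NB (cls S.Hi sb β) (S.hiV β) (fun _ => 0) g
      (3 ^ M ^ 264 * ‖∑ ν ∈ cls S.Hi sb β, g ν * S.hiV β ν ^ i‖) := (nb_Nm hu hv).mono hN
  have main : ∀ z : ℂ, exp (-((S.D.freq β : ℂ) * z)) *
      S.D.exps S.Hi (S.D.cfL (l1 ++ List.replicate i (S.D.freq β))) j z =
      (((-(S.D.freq β * S.ρ)⁻¹ : ℝ) : ℂ)) ^ i *
        ∑ ν ∈ cls S.Hi sb β, exp (z / S.ρ * S.hiV β ν) * S.hiV β ν ^ i * g ν := by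
    intro z
    rw [Dat.exps, ← sum_subset (s₁ := cls S.Hi sb β) (fun _ hν => (mem_cls.1 hν).1), mul_sum,
      mul_sum]
    · refine sum_congr rfl fun ν _ => ?_
      have e1 : 1 - (S.D.freq ν : ℂ) / (S.D.freq β : ℂ) =
          ((-(S.D.freq β * S.ρ)⁻¹ : ℝ) : ℂ) * S.hiV β ν := by
        simp only [hiV]
        push_cast
        field_simp
        ring
      have e2 : exp (z / S.ρ * S.hiV β ν) =
          exp (-((S.D.freq β : ℂ) * z)) * exp ((S.D.freq ν : ℂ) * z) := by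
        rw [← exp_add]
        congr 1
        simp only [hiV]
        push_cast
        field_simp
        ring
      simp only [hg, Dat.cfL, Lm_append, hi_Lm_rep, e1, e2, ec, mul_zero, exp_zero, mul_pow]
      ring
    · intro ν h1 h2
      rw [Dat.cfL, Lm_append, Lm_eq_zero (hl3 ν h1 fun h => h2 (mem_cls.2 ⟨h1, h⟩))
        (S.freq_ne ν (S.hi_mem.1 h1).1), zero_mul, zero_mul, zero_mul]
  have hn : ‖(((-(S.D.freq β * S.ρ)⁻¹ : ℝ) : ℂ)) ^ i‖ = ((|S.D.freq β| * S.ρ) ^ i)⁻¹ := by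
    rw [norm_pow, norm_real, Real.norm_eq_abs, abs_neg, abs_inv, abs_mul, abs_of_pos hρ, inv_pow]
  have main0 : ‖S.D.exps S.Hi (S.D.cfL (l1 ++ List.replicate i (S.D.freq β))) j 0‖ =
      ((|S.D.freq β| * S.ρ) ^ i)⁻¹ * ‖∑ ν ∈ cls S.Hi sb β, g ν * S.hiV β ν ^ i‖ := by
    have := main 0
    simp only [mul_zero, neg_zero, exp_zero, one_mul, zero_div, zero_mul] at this
    rw [this, norm_mul, hn]
    simp only [mul_comm]
  have h3n : (3 : ℝ) ^ M ^ 264 ≤ Real.exp ((M : ℝ) ^ 265) :=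
    hi_pow_exp S.par (by norm_num) (hi_c_exp' S.par (by norm_num)) le_rfl
  refine ⟨l1 ++ List.replicate i (S.D.freq β), ⟨?_, fun μ hμ => ?_⟩, ?_, fun z hz => ?_⟩
  · rw [List.length_append, List.length_replicate]
    refine (Nat.add_le_add hl1 hi.le).trans ?_
    rw [← two_mul]
    exact S.par.mul_pow_leN (by norm_num) (by norm_num)
  · rcases List.mem_append.1 hμ with h | h
    · obtain ⟨ν', h1, -, rfl⟩ := hl2 μ h
      exact S.Hi_freq ν' h1
    · rw [List.eq_of_mem_replicate h]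
      exact S.Hi_freq β hβ
  · have hm2 := Mu.listprod l1 (fun μ ν => (1 - (S.D.freq ν : ℂ) / (μ : ℂ))⁻¹)
      (fun _ => 2 * (|S.D.freq β| * S.ρ) * Real.exp (2 * (M : ℝ) ^ 265)) (fun μ hμ => by
        obtain ⟨ν', h1, h2, rfl⟩ := hl2 μ hμ
        exact S.hi_factor hsb hβ h1 h2)
    rw [List.map_const', List.prod_replicate] at hm2
    have h5 : S.NS sb β ≤ _ := NB.Nm_le (((hm2.mul (S.hi_invpow hsb hβ hj)) _ _ hNB).congr
      (fun _ _ => rfl) (fun _ _ => rfl) fun ν hν => by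
        obtain ⟨a1, a2⟩ := mem_cls.1 hν
        have a3 : (S.D.freq ν : ℂ) ≠ 0 := ofReal_ne_zero.2 (S.freq_ne ν (S.hi_mem.1 a1).1)
        have a4 : ec (S.D.freq ν) j 0 ≠ 0 :=
          div_ne_zero (mul_ne_zero (pow_ne_zero _ (neg_ne_zero.2 a3)) (exp_ne_zero _))
            (Nat.cast_ne_zero.2 j.factorial_ne_zero)
        have a5 : (l1.map fun μ : ℝ => (1 - (S.D.freq ν : ℂ) / (μ : ℂ))⁻¹).prod *
            Lm l1 (S.D.freq ν) = 1 := by
          rw [Lm, ← List.prod_map_mul]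
          refine List.prod_eq_one fun y hy => ?_
          obtain ⟨μ, hμ, rfl⟩ := List.mem_map.1 hy
          obtain ⟨ν', h1, h2, rfl⟩ := hl2 μ hμ
          refine inv_mul_cancel₀ fun h0 => ?_
          rw [sub_eq_zero, eq_comm,
            div_eq_one_iff_eq (ofReal_ne_zero.2 (S.freq_ne ν' (S.hi_mem.1 h1).1)), ofReal_inj] at h0
          have a6 := hsb.sep ν' h1 ν a1 (by rwa [a2])
          rw [h0, sub_self, abs_zero] at a6
          exact absurd a6 (not_lt.2 (one_div_nonneg.2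
            (mul_nonneg (mul_nonneg (by norm_num) hρ.le) (S.par.pow_pos _).le)))
        calc _ = (l1.map fun μ : ℝ => (1 - (S.D.freq ν : ℂ) / (μ : ℂ))⁻¹).prod *
              Lm l1 (S.D.freq ν) * ((ec (S.D.freq ν) j 0)⁻¹ * ec (S.D.freq ν) j 0) * S.D.cf ν := by
              simp only [hg, Dat.cfL, Dat.cf]
              ring
          _ = _ := by rw [a5, inv_mul_cancel₀ a4, one_mul, one_mul])
    have hw : 0 < |S.D.freq β| ^ j / (j.factorial : ℝ) :=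
      div_pos (pow_pos (abs_pos.2 hf) _) (by exact_mod_cast j.factorial_pos)
    rw [main0, mul_div_assoc, mul_comm S.ρ]
    have hX := norm_nonneg (∑ ν ∈ cls S.Hi sb β, g ν * S.hiV β ν ^ i)
    have hb := S.hi_big β hβ
    generalize ‖∑ ν ∈ cls S.Hi sb β, g ν * S.hiV β ν ^ i‖ = X at *
    generalize |S.D.freq β| ^ j / (j.factorial : ℝ) = w at *
    generalize |S.D.freq β| * S.ρ = b at *
    have hY := S.par.pow_pos 265
    have c0 : 1 ≤ Real.exp (2 * (M : ℝ) ^ 265) := Real.one_le_exp (by linarith only [hY])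
    have c1 : (2 * b * Real.exp (2 * (M : ℝ) ^ 265)) ^ l1.length ≤
        b ^ M ^ 264 * Real.exp (3 * (M : ℝ) ^ 529) := by
      refine (pow_le_pow_right₀ (one_le_mul_of_one_le_of_one_le (by linarith only [h4]) c0) hl1).trans ?_
      rw [mul_pow, mul_pow, mul_comm (2 ^ _), mul_assoc]
      refine mul_le_mul_of_nonneg_left ?_ (pow_nonneg (by linarith only [h4]) _)
      have d1 : (2 : ℝ) ^ M ^ 264 ≤ Real.exp ((M : ℝ) ^ 529) :=
        hi_pow_exp S.par (by norm_num) (hi_c_exp' S.par (by norm_num))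
          (S.par.pow_monoN (by norm_num))
      refine (mul_le_mul_of_nonneg_right d1 (pow_nonneg (Real.exp_pos _).le _)).trans (le_of_eq ?_)
      rw [← Real.exp_nat_mul, ← Real.exp_add, Nat.cast_pow, mul_left_comm, ← pow_add]
      congr 1
      generalize (M : ℝ) ^ 529 = Y
      ring
    have c2 : b ^ (2 * M ^ 264) ≤ Real.exp (b / 4) := by
      refine hi_pow_self (le_trans ?_ hb)
      rw [Nat.cast_pow, ← pow_mul]
      exact S.par.mul_pow_le (by norm_num) (by norm_num)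
    have c3 : b ^ i ≤ b ^ M ^ 264 := pow_le_pow_right₀ (by linarith only [h4]) hi.le
    have c4 : Real.exp (3 * (M : ℝ) ^ 529) * (Real.exp 1 * Real.exp ((M : ℝ) ^ 265)) ≤
        Real.exp (b / 4) := by
      rw [← Real.exp_add, ← Real.exp_add]
      refine Real.exp_le_exp.2 ?_
      have d1 : 20 * (M : ℝ) ^ 529 ≤ (M : ℝ) ^ 8540 := S.par.mul_pow_le (by norm_num) (by norm_num)
      have d2 : (M : ℝ) ^ 265 ≤ (M : ℝ) ^ 529 := S.par.pow_mono (by norm_num)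
      have d3 : (1 : ℝ) ≤ (M : ℝ) ^ 529 := one_le_pow₀ S.par.one_le
      generalize (M : ℝ) ^ 529 = Y at *
      generalize (M : ℝ) ^ 265 = Y1 at *
      generalize (M : ℝ) ^ 8540 = Y2 at *
      linarith only [d3, d2, hb, d1]
    have c5 : (2 : ℝ) ≤ Real.exp 1 := by linarith only [Real.add_one_le_exp (1 : ℝ)]
    have c6 : 2 * (3 : ℝ) ^ M ^ 264 ≤ Real.exp 1 * Real.exp ((M : ℝ) ^ 265) :=
      mul_le_mul c5 h3n (pow_nonneg (by norm_num) _) (Real.exp_pos _).le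
    have c7 : 0 ≤ 2 * (3 : ℝ) ^ M ^ 264 := mul_nonneg zero_le_two (pow_nonneg (by norm_num) _)
    have c8 : 0 < b ^ i := pow_pos (by linarith only [h4]) _
    have c9 : (2 * b * Real.exp (2 * (M : ℝ) ^ 265)) ^ l1.length * (2 * (3 : ℝ) ^ M ^ 264) * b ^ i ≤
        Real.exp (b / 2) := by
      have d0 : 0 ≤ b ^ M ^ 264 := c8.le.trans c3
      have d1 := mul_le_mul (mul_le_mul c1 c6 c7 (mul_nonneg d0 (Real.exp_pos _).le)) c3 c8.le
        (mul_nonneg (mul_nonneg d0 (Real.exp_pos _).le)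
          (mul_nonneg (Real.exp_pos _).le (Real.exp_pos _).le))
      refine d1.trans ?_
      rw [mul_assoc (b ^ _), mul_right_comm, ← pow_add, ← two_mul]
      refine (mul_le_mul c2 c4 (mul_nonneg (Real.exp_pos _).le
        (mul_nonneg (Real.exp_pos _).le (Real.exp_pos _).le)) (Real.exp_pos _).le).trans ?_
      rw [← Real.exp_add]
      exact Real.exp_le_exp.2 (by linarith only [])
    clear c1 c2 c3 c4 c6 h3n
    generalize (2 * b * Real.exp (2 * (M : ℝ) ^ 265)) ^ l1.length = K at *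
    generalize (3 : ℝ) ^ M ^ 264 = T at *
    rw [Real.exp_neg, ← div_eq_mul_inv, inv_mul_eq_div, div_le_div_iff₀ (Real.exp_pos _) c8]
    calc S.NS sb β * w * b ^ i ≤ K * (2 * w⁻¹) * (T * X) * w * b ^ i := by gcongr
      _ = X * (K * (2 * T) * b ^ i) := by field_simp
      _ ≤ _ := mul_le_mul_of_nonneg_left c9 hX
  · have h1 : Mu (cls S.Hi sb β) (S.hiV β) (fun _ => 0) (fun ν => z / S.ρ * S.hiV β ν) 2 := by
      refine (Mu.fst.smul _).mono ?_
      rw [mul_one, norm_div, norm_real, Real.norm_eq_abs, abs_of_pos hρ, div_le_iff₀ hρ]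
      exact hz
    have h2 := ((h1.exp zero_le_two).mul (Mu.fst.pow i)).apply hNB
    rw [main, main0, norm_mul, hn, mul_left_comm]
    refine mul_le_mul_of_nonneg_left (h2.trans ?_) (inv_nonneg.2 (pow_nonneg (by linarith only [h4]) _))
    rw [one_pow, mul_one, ← mul_assoc]
    refine mul_le_mul_of_nonneg_right ?_ (norm_nonneg _)
    refine (mul_le_mul_of_nonneg_left h3n (Real.exp_pos _).le).trans ?_
    rw [← Real.exp_add]
    refine Real.exp_le_exp.2 ?_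
    have d1 : 3 * (M : ℝ) ^ 265 ≤ (M : ℝ) ^ 266 := S.par.mul_pow_le (by norm_num) (by norm_num)
    have d3 : (1 : ℝ) ≤ (M : ℝ) ^ 265 := one_le_pow₀ S.par.one_le
    generalize (M : ℝ) ^ 265 = Y at *
    generalize (M : ℝ) ^ 266 = Y1 at *
    linarith only [d3, d1]

end Setup

end Pool.Agent.Work.MP_97f157_lc.Tau
end
end
end

-- merged part: Pool.Agent.Work.MP_97f157_lc.TauCaseA
section
-- merged part: Pool.Agent.Work.MP_97f157_lc.TauCC1
section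
-- merged part: Pool.Agent.Work.MP_97f157_lc.TauAtom
section
/-! A power sum is not much smaller than its top atom. -/

noncomputable section
open Complex Finset

namespace Pool.Agent.Work.MP_97f157_lc.Tau

variable {ι κ : Type*} {m M : ℕ}

theorem atm_log_near {x : ℂ} {ε : ℝ} (hε : ε ≤ 1 / 2) (h : ‖x - 1‖ ≤ ε) :
    |Real.log ‖x‖| ≤ 2 * ε := by
  have h1 : |‖x‖ - 1| ≤ ε := by
    have := abs_norm_sub_norm_le x 1
    rw [norm_one] at this
    exact this.trans h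
  have hε0 : 0 ≤ ε := (abs_nonneg _).trans h1
  obtain ⟨h2, h3⟩ := abs_le.1 h1
  have hx : 0 < ‖x‖ := by linarith
  rw [abs_le]
  constructor
  · have h4 := Real.one_sub_inv_le_log_of_pos hx
    have h5 : ‖x‖⁻¹ ≤ 1 + 2 * ε := by
      rw [inv_le_comm₀ hx (by linarith), inv_eq_one_div, div_le_iff₀ (by linarith)]
      nlinarith only [hε, hε0, h2, h3]
    linarith
  · have := Real.log_le_sub_one_of_pos hx
    linarith

theorem atm_pow_le {ε : ℝ} {j : ℕ} (hε : 0 ≤ ε) (h : 8 * ε * j ≤ 1) : (1 + ε) ^ j ≤ 2 := by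
  have h1 : (1 + ε) ^ j ≤ Real.exp (ε * j) := by
    rw [mul_comm, Real.exp_nat_mul]
    exact pow_le_pow_left₀ (by linarith) (by linarith [Real.add_one_le_exp ε]) j
  have h2 : Real.exp (ε * j) ≤ Real.exp (1 / 8) := Real.exp_le_exp.2 (by linarith)
  have h3 : Real.exp (1 / 8) ≤ 1 / (1 - 1 / 8) := Real.exp_bound_div_one_sub_of_interval
    (by norm_num) (by norm_num)
  linarith [show (1 : ℝ) / (1 - 1 / 8) ≤ 2 by norm_num]

theorem atm_inv_pow_le {ε : ℝ} {j : ℕ} (_hε : 0 ≤ ε) (hε1 : ε ≤ 1 / 2) (h : 8 * ε * j ≤ 1) :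
    ((1 - ε)⁻¹) ^ j ≤ 2 := by
  have h1 : 1 + (j : ℝ) * (-ε) ≤ (1 + -ε) ^ j := one_add_mul_le_pow (by linarith) j
  rw [inv_pow, inv_le_comm₀ (pow_pos (by linarith) j) (by norm_num)]
  rw [show 1 - ε = 1 + -ε by ring]
  linarith

theorem atm_ratio {a b t : ℝ} (ha : 0 < a) (hb : 0 < b) (h : |Real.log (a / b)| ≤ t)
    (ht : t ≤ 1 / 4) : a ≤ 2 * b ∧ b ≤ 2 * a := by
  have h3 : Real.exp (1 / 4) ≤ 1 / (1 - 1 / 4) := Real.exp_bound_div_one_sub_of_interval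
    (by norm_num) (by norm_num)
  have h4 : Real.exp (1 / 4) ≤ 2 := h3.trans (by norm_num)
  obtain ⟨h1, h2⟩ := abs_le.1 h
  constructor
  · have : a / b ≤ 2 := by
      rw [← Real.exp_log (div_pos ha hb)]
      exact (Real.exp_le_exp.2 (by linarith)).trans h4
    rwa [div_le_iff₀ hb] at this
  · have h5 : Real.log (b / a) = -Real.log (a / b) := by
      rw [← Real.log_inv, inv_div]
    have : b / a ≤ 2 := by
      rw [← Real.exp_log (div_pos hb ha)]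
      exact (Real.exp_le_exp.2 (by linarith)).trans h4
    rwa [div_le_iff₀ ha] at this

theorem atm_num (hp : Par m M) {δ K : ℝ} (hδ : Real.exp (-M) ≤ δ) (hK0 : 0 ≤ K)
    (hK : K ≤ Real.exp M ^ 2) :
    2 * (9 ^ M * Real.exp M ^ (2 * M) * (9 ^ M * K ^ (2 * M) * ((4 / (δ / 8)) ^ (M * M) *
      (3 ^ M * (2 * Real.exp (-(M : ℝ) ^ 4)))))) < 1 := by
  set E := Real.exp M with hE
  have hM := hp.bigR
  have hE32 : (32 : ℝ) ≤ E := by
    have := Real.add_one_le_exp (M : ℝ)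
    linarith
  have hδ0 : 0 < δ := (Real.exp_pos _).trans_le hδ
  have h1 : 4 / (δ / 8) ≤ E ^ 2 := by
    rw [div_le_iff₀ (by positivity)]
    have : E * Real.exp (-M) = 1 := by rw [hE, ← Real.exp_add]; simp
    have h2 : 1 ≤ E * δ := by
      rw [← this]; exact mul_le_mul_of_nonneg_left hδ (by linarith)
    nlinarith only [hδ, hE32, this]
  have h9 : (9 : ℝ) ^ M ≤ E ^ M := pow_le_pow_left₀ (by norm_num) (by linarith) M
  have h3 : (3 : ℝ) ^ M ≤ E ^ M := pow_le_pow_left₀ (by norm_num) (by linarith) M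
  have hK' : K ^ (2 * M) ≤ (E ^ 2) ^ (2 * M) := pow_le_pow_left₀ hK0 hK _
  have h1' : (4 / (δ / 8)) ^ (M * M) ≤ (E ^ 2) ^ (M * M) := pow_le_pow_left₀ (by positivity) h1 _
  have h2 : (2 : ℝ) ≤ E := by linarith
  have hx : Real.exp (-(M : ℝ) ^ 4) = (E ^ (M ^ 3))⁻¹ := by
    rw [hE, ← Real.exp_nat_mul, ← Real.exp_neg]
    congr 1
    push_cast
    ring
  have hE0 : 0 < E := by linarith
  calc _ ≤ E * (E ^ M * E ^ (2 * M) * (E ^ M * (E ^ 2) ^ (2 * M) * ((E ^ 2) ^ (M * M) *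
      (E ^ M * (E * Real.exp (-(M : ℝ) ^ 4)))))) := by gcongr
    _ = E ^ (2 * (M * M) + 9 * M + 2) / E ^ (M ^ 3) := by
      rw [hx]; ring
    _ < 1 := by
      rw [div_lt_one (by positivity)]
      apply pow_lt_pow_right₀ (by linarith)
      have hb := hp.big
      have : 100 ≤ M := le_trans (by norm_num) hb
      have h5 : 100 * (M * M) ≤ M ^ 3 := by
        rw [show M ^ 3 = M * (M * M) by ring]
        exact Nat.mul_le_mul_right _ this
      nlinarith only [hb, h5]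

/-- contribution of one atom -/
theorem atm_one {s : Finset κ} {w c u : κ → ℂ} {w0 : ℂ} {ε : ℝ} (hw0 : w0 ≠ 0)
    (hu : ∀ ν ∈ s, ‖u ν‖ ≤ 1 / 2) (hε : 0 ≤ ε) {j : ℕ} (hj : 8 * ε * j ≤ 1)
    (hmu : Mu s u (fun _ => 0) (fun ν => w ν / w0 - 1) ε) :
    ‖∑ ν ∈ s, c ν * w ν ^ j‖ ≤ 2 * (Nm s u (fun _ => 0) c * ‖w0‖ ^ j) := by
  have h1 := ((Mu.one.add hmu).pow j).apply
    (nb_Nm (g := c) (fun ν hν => (hu ν hν).trans (by norm_num)) (fun _ _ => by simp))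
  have h2 : ∑ ν ∈ s, c ν * w ν ^ j = w0 ^ j * ∑ ν ∈ s, (1 + (w ν / w0 - 1)) ^ j * c ν := by
    rw [mul_sum]
    refine sum_congr rfl fun ν _ => ?_
    rw [add_sub_cancel, div_pow]
    field_simp
  rw [h2, norm_mul, norm_pow]
  have h3 := atm_pow_le hε hj
  have h4 : 0 ≤ Nm s u (fun _ => 0) c := Nm_nonneg
  calc _ ≤ ‖w0‖ ^ j * (2 * Nm s u (fun _ => 0) c) := by
        refine mul_le_mul_of_nonneg_left (h1.trans ?_) (by positivity)
        gcongr
    _ = _ := by ring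

/-- Suppose all values are smaller.  Let `R` be the union of the atoms `α` with
`|log (‖w α‖/‖w α0‖)| ≤ η` (`card R ≤ M`); the other atoms contribute
`≤ card P * 2 exp (-M^8) N0 ‖w α0‖^j` (`line_gap`, `Mu.pow` of `1 + (w/w α - 1)`).  With
`U = w / w α0`, `g = c U^j0`: the moments of `U/4` of order `< M` are `≤ 2 exp(-M^4) N0`;
`reduce_one`, `NB.restrict` to the atom (`δ/8`), `NB.recenter` to `(U-1)/ε2` (`K = 5/ε2`),
`NB.recenter` to `u` (`K = exp M`), multiply by `U^{-j0}` (norm `≤ 2`): contradiction. -/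
theorem atom_lower (hp : Par m M) (P : Finset κ) (hP : (P.card : ℝ) ≤ Real.exp M)
    (w c u : κ → ℂ) (at' : κ → κ) (hmem : ∀ ν ∈ P, at' ν ∈ P)
    (hidem : ∀ ν ∈ P, at' (at' ν) = at' ν) (hu : ∀ ν ∈ P, ‖u ν‖ ≤ 1 / 2) (hw0 : ∀ ν ∈ P, w ν ≠ 0)
    (ε1 ε2 δ η : ℝ) (j1 q : ℕ) (hε1 : 0 ≤ ε1) (hε1j : 8 * ε1 * (j1 + 4 * q + 1) ≤ 1)
    (hε1η : 2 * ε1 ≤ η) (hη : η ≤ 1 / 8) (hηq : (M : ℝ) ^ 8 ≤ η * q) (hqM : M ≤ q)
    (hmu : ∀ α ∈ P, at' α = α → Mu (cls P at' α) u (fun _ => 0) (fun ν => w ν / w α - 1) ε1)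
    (hδ : Real.exp (-M) ≤ δ) (hδ1 : δ ≤ 1)
    (hsep : ∀ ν ∈ P, ∀ ν' ∈ P, at' ν ≠ at' ν' → δ * min ‖w ν‖ ‖w ν'‖ ≤ ‖w ν - w ν'‖)
    (α0 : κ) (hα0 : α0 ∈ P) (hα0' : at' α0 = α0) (hε2 : Real.exp (-M) ≤ ε2) (hε2' : ε2 ≤ 1)
    (hw2 : ∀ ν ∈ cls P at' α0, ‖(w ν / w α0 - 1) / (ε2 : ℂ)‖ ≤ 1 / 2)
    (hmu2 : Mu (cls P at' α0) (fun ν => (w ν / w α0 - 1) / (ε2 : ℂ)) (fun _ => 0) u (Real.exp M))
    (htop : ∀ α ∈ P, at' α = α → ∀ j, j1 ≤ j → j ≤ j1 + 4 * q →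
      Nm (cls P at' α) u (fun _ => 0) c * ‖w α‖ ^ j ≤ Nm (cls P at' α0) u (fun _ => 0) c * ‖w α0‖ ^ j)
    (hcount : ∀ R ⊆ P, (∀ ν ∈ R, |Real.log (‖w ν‖ / ‖w α0‖)| ≤ 2 * η) → R.card ≤ M)
    (j0 : ℕ) (hj0 : j1 + q ≤ j0) (hj0' : j0 ≤ j1 + 2 * q) :
    ∃ j, j0 ≤ j ∧ j < j0 + M ∧
      Real.exp (-(M : ℝ) ^ 4) * (Nm (cls P at' α0) u (fun _ => 0) c * ‖w α0‖ ^ j) ≤
        ‖∑ ν ∈ P, c ν * w ν ^ j‖ := by
  classical
  set N0 := Nm (cls P at' α0) u (fun _ => 0) c with hN0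
  have hN0nn : 0 ≤ N0 := Nm_nonneg
  have hM1 := hp.one_leN
  rcases hN0nn.eq_or_lt with h0 | hN0pos
  · exact ⟨j0, le_rfl, by omega, by rw [← h0]; simp⟩
  by_contra hcon
  push Not at hcon
  have hρ : ∀ ν ∈ P, 0 < ‖w ν‖ := fun ν hν => norm_pos_iff.2 (hw0 ν hν)
  have hρ0 := hρ α0 hα0
  have hw00 := hw0 α0 hα0
  have hε116 : ε1 ≤ 1 / 16 := by linarith
  have hcls : ∀ α, cls P at' α ⊆ P := fun α ν hν => (mem_cls.1 hν).1
  have hu1 : ∀ α, ∀ ν ∈ cls P at' α, ‖u ν‖ ≤ 1 := fun α ν hν =>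
    (hu ν (hcls α hν)).trans (by norm_num)
  have hj8 : ∀ j : ℕ, j ≤ j1 + 4 * q → 8 * ε1 * j ≤ 1 := fun j hj => by
    have : (j : ℝ) ≤ j1 + 4 * q := by exact_mod_cast hj
    nlinarith only [hε1j, this]
  set R := P.filter (fun ν => |Real.log (‖w (at' ν)‖ / ‖w α0‖)| ≤ η) with hR
  have hRP : R ⊆ P := filter_subset _ _
  have hRlog : ∀ ν ∈ R, |Real.log (‖w ν‖ / ‖w α0‖)| ≤ 2 * η := fun ν hν => by
    obtain ⟨hνP, hν2⟩ := mem_filter.1 hν
    have h1 := (hmu _ (hmem ν hνP) (hidem ν hνP)).pt (hu1 _) (fun _ _ => by simp) ν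
      (mem_cls.2 ⟨hνP, rfl⟩)
    have h2 := atm_log_near (by linarith only [hε1η, hη]) h1
    have h3 := hρ _ (hmem ν hνP)
    have h4 := hρ _ hνP
    have h5 : Real.log (‖w ν‖ / ‖w α0‖) =
        Real.log ‖w ν / w (at' ν)‖ + Real.log (‖w (at' ν)‖ / ‖w α0‖) := by
      rw [norm_div, ← Real.log_mul (by positivity) (by positivity)]
      congr 1
      field_simp
    rw [h5]
    exact (abs_add_le _ _).trans (by linarith)
  have hRc : R.card ≤ M := hcount R hRP hRlog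
  have hRr : ∀ ν ∈ R, ‖w ν‖ ≤ 2 * ‖w α0‖ ∧ ‖w α0‖ ≤ 2 * ‖w ν‖ := fun ν hν =>
    atm_ratio (hρ ν (hRP hν)) hρ0 (hRlog ν hν) (by linarith)
  have hη0 : 0 ≤ η := by linarith
  have htR : cls P at' α0 ⊆ R := fun ν hν => by
    obtain ⟨h1, h2⟩ := mem_cls.1 hν
    refine mem_filter.2 ⟨h1, ?_⟩
    rw [h2, div_self hρ0.ne', Real.log_one, abs_zero]
    exact hη0
  -- the far atoms
  have hfar : ∀ j, j0 ≤ j → j < j0 + M → ‖∑ ν ∈ P \ R, c ν * w ν ^ j‖ ≤
      Real.exp (-(M : ℝ) ^ 4) * (N0 * ‖w α0‖ ^ j) := fun j hj hj' => by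
    have hsat : ∀ k ∈ P, k ∈ P \ R ↔ at' k ∈ P \ R := fun k hk => by
      simp only [hR, mem_sdiff, mem_filter, hk, hmem k hk, hidem k hk]
    rw [sum_cls hmem hidem sdiff_subset hsat]
    have hb : ∀ r ∈ (P \ R).filter (fun r => at' r = r), ‖∑ ν ∈ cls P at' r, c ν * w ν ^ j‖ ≤
        2 * (Real.exp (-(M : ℝ) ^ 8) * (N0 * ‖w α0‖ ^ j)) := fun r hr => by
      obtain ⟨hr1, hr2⟩ := mem_filter.1 hr
      obtain ⟨hrP, hrR⟩ := mem_sdiff.1 hr1
      have hlog : η ≤ |Real.log (‖w r‖ / ‖w α0‖)| := by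
        by_contra hh
        exact hrR (mem_filter.2 ⟨hrP, by rw [hr2]; exact (not_le.1 hh).le⟩)
      have h1 := atm_one (c := c) (hw0 r hrP) (fun ν hν => hu ν (hcls r hν)) hε1
        (hj8 j (by omega)) (hmu r hrP hr2)
      have h2 := line_gap Nm_nonneg hN0nn (hρ r hrP) hρ0 (j := j) (q := q) (by omega)
        (htop r hrP hr2 _ (by omega) (by omega)) (htop r hrP hr2 _ (by omega) (by omega)) hlog
      refine h1.trans (mul_le_mul_of_nonneg_left (h2.trans ?_) (by norm_num))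
      exact mul_le_mul_of_nonneg_right (Real.exp_le_exp.2 (by linarith only [hηq])) (by positivity)
    refine (norm_sum_le _ _).trans ((sum_le_card_nsmul _ _ _ hb).trans ?_)
    rw [nsmul_eq_mul]
    have hc : (((P \ R).filter (fun r => at' r = r)).card : ℝ) ≤ Real.exp M := by
      refine le_trans ?_ hP
      exact_mod_cast card_le_card ((filter_subset _ _).trans sdiff_subset)
    have hM := hp.bigR
    have hnum : Real.exp M * (2 * Real.exp (-(M : ℝ) ^ 8)) ≤ Real.exp (-(M : ℝ) ^ 4) := by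
      have h2 : (2 : ℝ) ≤ Real.exp M := by linarith [Real.add_one_le_exp (M : ℝ)]
      have h3 := hp.mul_pow_le (c := 3) (by norm_num) (show 4 < 8 by norm_num)
      have h4 := hp.pow_mono (show 1 ≤ 4 by norm_num)
      rw [pow_one] at h4
      calc _ ≤ Real.exp M * (Real.exp M * Real.exp (-(M : ℝ) ^ 8)) := by gcongr
        _ = Real.exp (M + (M + -(M : ℝ) ^ 8)) := by rw [Real.exp_add, Real.exp_add]
        _ ≤ _ := Real.exp_le_exp.2 (by linarith only [h3, h4])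
    calc _ ≤ Real.exp M * (2 * (Real.exp (-(M : ℝ) ^ 8) * (N0 * ‖w α0‖ ^ j))) := by gcongr
      _ = Real.exp M * (2 * Real.exp (-(M : ℝ) ^ 8)) * (N0 * ‖w α0‖ ^ j) := by ring
      _ ≤ _ := by gcongr
  -- the moments on `R`
  set g : κ → ℂ := fun ν => c ν * (w ν / w α0) ^ j0 with hg
  have hmom : ∀ i < M, ‖∑ ν ∈ R, g ν * (w ν / w α0 / 4) ^ i‖ ≤
      2 * Real.exp (-(M : ℝ) ^ 4) * N0 := fun i hi => by
    have h1 := hfar (j0 + i) (by omega) (by omega)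
    have h2 := hcon (j0 + i) (by omega) (by omega)
    have h3 : ∑ ν ∈ R, c ν * w ν ^ (j0 + i) =
        ∑ ν ∈ P, c ν * w ν ^ (j0 + i) - ∑ ν ∈ P \ R, c ν * w ν ^ (j0 + i) := by
      rw [← sum_sdiff hRP]; ring
    have h4 : ‖∑ ν ∈ R, c ν * w ν ^ (j0 + i)‖ ≤
        2 * Real.exp (-(M : ℝ) ^ 4) * N0 * ‖w α0‖ ^ (j0 + i) := by
      rw [h3]
      exact (norm_sub_le _ _).trans (by linarith only [h1, h2])
    have h5 : ∑ ν ∈ R, g ν * (w ν / w α0 / 4) ^ i =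
        (∑ ν ∈ R, c ν * w ν ^ (j0 + i)) / (w α0 ^ (j0 + i) * 4 ^ i) := by
      rw [sum_div]
      refine sum_congr rfl fun ν _ => ?_
      simp only [hg, div_pow, pow_add]
      field_simp
    rw [h5, norm_div, norm_mul, norm_pow, norm_pow, div_le_iff₀ (by simp; positivity)]
    refine h4.trans ?_
    have h6 : (1 : ℝ) ≤ ‖(4 : ℂ)‖ ^ i := one_le_pow₀ (by simp)
    have h7 : 0 ≤ 2 * Real.exp (-(M : ℝ) ^ 4) * N0 * ‖w α0‖ ^ (j0 + i) := by positivity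
    calc _ = 2 * Real.exp (-(M : ℝ) ^ 4) * N0 * ‖w α0‖ ^ (j0 + i) * 1 := by ring
      _ ≤ 2 * Real.exp (-(M : ℝ) ^ 4) * N0 * ‖w α0‖ ^ (j0 + i) * ‖(4 : ℂ)‖ ^ i := by gcongr
      _ = _ := by ring
  have hU : ∀ ν ∈ R, ‖w ν / w α0 / 4‖ ≤ 1 / 2 := fun ν hν => by
    have := (hRr ν hν).1
    rw [norm_div, norm_div, div_le_iff₀ (by simp), div_le_iff₀ hρ0]
    simp only [Complex.norm_ofNat]
    linarith only [this]
  have hδ0 : 0 < δ := (Real.exp_pos _).trans_le hδ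
  have hε20 : 0 < ε2 := (Real.exp_pos _).trans_le hε2
  have hNB1 := NB.of_one (reduce_one hRc hU (by positivity) hmom)
  have hNB2 := hNB1.restrict htR hRc (δ := δ / 8) (by positivity) (by linarith)
    (fun ν hν => (hU ν hν).trans (by norm_num)) (fun k hk k' hk' hk'' => by
      obtain ⟨h1, h2⟩ := mem_cls.1 hk
      have h3 : at' k ≠ at' k' := fun h => hk'' (mem_cls.2 ⟨hRP hk', h ▸ h2⟩)
      have h4 := hsep k h1 k' (hRP hk') h3
      have h5 : ‖w α0‖ / 2 ≤ min ‖w k‖ ‖w k'‖ :=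
        le_min (by linarith [(hRr k (htR hk)).2]) (by linarith [(hRr k' hk').2])
      rw [← sub_div, ← sub_div, norm_div, norm_div, le_div_iff₀ (by simp), le_div_iff₀ hρ0]
      simp only [Complex.norm_ofNat]
      nlinarith only [hδ0, h4, h5])
  have htc : (cls P at' α0).card ≤ M := (card_le_card htR).trans hRc
  have hE1 : (1 : ℝ) ≤ Real.exp M := Real.one_le_exp (by positivity)
  have hε2c : (ε2 : ℂ) ≠ 0 := by exact_mod_cast hε20.ne'
  have hK1 : 1 ≤ 5 / ε2 := by rw [le_div_iff₀ hε20]; linarith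
  have hMu1 : Mu (cls P at' α0) (fun ν => w ν / w α0 / 4) (fun _ => 0)
      (fun ν => (w ν / w α0 - 1) / (ε2 : ℂ)) (5 / ε2) := by
    have := (Mu.fst (s := cls P at' α0) (u := fun ν => w ν / w α0 / 4) (v := fun _ => 0)).smul
      (4 / (ε2 : ℂ)) |>.sub (Mu.const (1 / (ε2 : ℂ)))
    refine (this.congr fun k _ => by field_simp).mono (le_of_eq ?_)
    simp only [norm_div, Complex.norm_ofNat, Complex.norm_real, Real.norm_of_nonneg hε20.le,
      norm_one]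
    ring
  have hNB3 := hNB2.recenter htc hK1 hMu1 (Mu.snd.mono hK1) hw2 (fun _ _ => by simp)
  have hNB4 := hNB3.recenter htc hE1 hmu2 (Mu.snd.mono hE1)
    (fun ν hν => hu ν (hcls _ hν)) (fun _ _ => by simp)
  have hMu2 := ((hmu α0 hα0 hα0').inv_add (hu1 α0) (fun _ _ => by simp) hε1 (c := 1)
    (by rw [norm_one]; linarith only [hε1η, hη])).pow j0
  rw [norm_one] at hMu2
  have hNB5 := (hMu2.mono (atm_inv_pow_le hε1 (by linarith only [hε1η, hη]) (hj8 j0 (by omega)))) _ _ hNB4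
  have hNB6 := (hNB5.congr (fun _ _ => rfl) (fun _ _ => rfl) (g' := c) fun k hk => by
    have := hw0 k (hcls _ hk)
    simp only [hg, add_sub_cancel, inv_pow, div_pow]
    field_simp).Nm_le
  have hK : 5 / ε2 ≤ Real.exp M ^ 2 := by
    have hM := hp.bigR
    have h5 : (5 : ℝ) ≤ Real.exp M := by linarith only [hM, Real.add_one_le_exp (M : ℝ)]
    have : Real.exp M * Real.exp (-M) = 1 := by rw [← Real.exp_add]; simp
    have h2 : 1 ≤ Real.exp M * ε2 := by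
      rw [← this]; exact mul_le_mul_of_nonneg_left hε2 (by linarith only [h5])
    rw [div_le_iff₀ hε20]
    nlinarith only [hP, hε2, h5, this]
  have hfin := atm_num hp hδ (by linarith only [hK1]) hK
  rw [← hN0] at hNB6
  have := mul_lt_mul_of_pos_right hfin hN0pos
  linarith only [hNB6, this]

theorem atm_cls {P Q : Finset κ} {rep : κ → κ} (hQ : Q ⊆ P) (hsat : ∀ ν ∈ P, ν ∈ Q ↔ rep ν ∈ Q)
    {α : κ} (hα : α ∈ Q) : cls Q rep α = cls P rep α := by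
  ext ν
  rw [mem_cls, mem_cls]
  exact ⟨fun h => ⟨hQ h.1, h.2⟩, fun h => ⟨(hsat ν h.1).2 (h.2 ▸ hα), h.2⟩⟩

theorem atm_exp_neg (hp : Par m M) {k : ℕ} (hk : k ≤ 100000) :
    Real.exp (-M) ≤ ((M : ℝ) ^ k)⁻¹ := by
  rw [Real.exp_neg]
  exact inv_anti₀ (hp.pow_pos k) (hp.pow_le_exp hk)

theorem atm_inv_le_one (hp : Par m M) {c : ℝ} (hc : c ≤ 10 ^ 12) {k : ℕ} (hk : 0 < k) :
    c * ((M : ℝ) ^ k)⁻¹ ≤ 1 := by
  have := hp.inv_pow_le hc hk
  rwa [pow_zero, inv_one] at this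

theorem atm_j (hp : Par m M) {x : ℝ} (hx : x ≤ 3 * (M : ℝ) ^ 8000 + 2) :
    16 * eA1 M * x ≤ 1 := by
  have h1 : (1 : ℝ) ≤ (M : ℝ) ^ 8000 := one_le_pow₀ hp.one_le
  have h2 := hp.mul_pow_le (c := 80) (by norm_num) (show 8000 < 32000 by norm_num)
  have h3 := hp.pow_pos 32000
  unfold eA1
  generalize (M : ℝ) ^ 8000 = a at *
  generalize (M : ℝ) ^ 32000 = b at *
  rw [mul_assoc, inv_mul_eq_div, ← mul_div_assoc, div_le_one h3]
  linarith

/-- two positive numbers in a thin annulus -/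
theorem atm_thin {a b c t : ℝ} (ha : 0 < a) (hb : 0 < b) (hc : 0 < c)
    (h1 : |Real.log (a / c)| ≤ t) (h2 : |Real.log (b / c)| ≤ t) : 1 - a / b ≤ 2 * t := by
  have h3 := Real.one_sub_inv_le_log_of_pos (div_pos hb ha)
  rw [inv_div] at h3
  rw [Real.log_div ha.ne' hc.ne'] at h1
  rw [Real.log_div hb.ne' hc.ne'] at h2
  rw [Real.log_div hb.ne' ha.ne'] at h3
  linarith [(abs_le.1 h1).1, (abs_le.1 h2).2]

theorem atm_freq (D : Dat ι) (ν : ι × ℕ) (ha : 0 < D.a ν.1) : |D.freq ν| = ν.2 * D.a ν.1 := by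
  unfold Dat.freq Dat.sg
  split_ifs <;> simp [abs_mul, abs_of_pos ha]

/-- `atom_lower` on `Q` with `w = -freq`, `u = rv`, `ε1 = ε2 = eA1`, `η = M^{-3600}`; a lattice has
at most one harmonic `n ≤ M^263` in the thin annulus. -/
theorem atomA (hp : Par m M) (D : Dat ι) (A : Finset ι) (hA : A.card ≤ m)
    (ha : ∀ k ∈ A, 0 < D.a k) (at' : ι × ℕ → ι × ℕ)
    (hat : RClus (Dat.pA A (M ^ 263)) (fun ν => (D.freq ν : ℂ)) at' (eA1 M) (eA0 M))
    (Q : Finset (ι × ℕ)) (hQ : Q ⊆ Dat.pA A (M ^ 263))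
    (hsat : ∀ ν ∈ Dat.pA A (M ^ 263), ν ∈ Q ↔ at' ν ∈ Q) (g : ι × ℕ → ℂ)
    (α0 : ι × ℕ) (hα0 : α0 ∈ Q) (hα0' : at' α0 = α0) (j1 : ℕ)
    (hj1 : j1 + 4 * M ^ 3700 ≤ 3 * M ^ 8000)
    (htop : ∀ α ∈ Q, at' α = α → ∀ j, j1 ≤ j → j ≤ j1 + 4 * M ^ 3700 →
      D.NA M (Dat.pA A (M ^ 263)) at' g α * |D.freq α| ^ j ≤
        D.NA M (Dat.pA A (M ^ 263)) at' g α0 * |D.freq α0| ^ j)
    (j0 : ℕ) (hj0 : j1 + M ^ 3700 ≤ j0) (hj0' : j0 ≤ j1 + 2 * M ^ 3700) :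
    ∃ j, j0 ≤ j ∧ j < j0 + M ∧
      Real.exp (-(M : ℝ) ^ 4) * (D.NA M (Dat.pA A (M ^ 263)) at' g α0 * |D.freq α0| ^ j /
        (j.factorial : ℝ)) ≤ ‖D.exps Q g j 0‖ := by
  classical
  have hmemA : ∀ ν ∈ Dat.pA A (M ^ 263), ν.1 ∈ A ∧ 1 ≤ ν.2 ∧ ν.2 ≤ M ^ 263 := fun ν hν => by
    simpa only [Dat.pA, mem_product, mem_Icc] using hν
  have hfr : ∀ ν ∈ Dat.pA A (M ^ 263), 0 < |D.freq ν| := fun ν hν => by
    obtain ⟨h1, h2, -⟩ := hmemA ν hν
    rw [atm_freq D ν (ha _ h1)]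
    have : (0 : ℝ) < ν.2 := by exact_mod_cast h2
    exact mul_pos this (ha _ h1)
  have hf0 : ∀ ν ∈ Dat.pA A (M ^ 263), (D.freq ν : ℂ) ≠ 0 := fun ν hν => by
    exact_mod_cast abs_pos.1 (hfr ν hν)
  have he1 : 0 < eA1 M := inv_pos.2 (hp.pow_pos _)
  have he1c : ((eA1 M : ℝ) : ℂ) ≠ 0 := by exact_mod_cast he1.ne'
  have hu := hat.rv_le he1 hf0
  have hnorm : ∀ ν, ‖-(D.freq ν : ℂ)‖ = |D.freq ν| := fun ν => by
    rw [norm_neg, Complex.norm_real, Real.norm_eq_abs]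
  have hrv : ∀ α, ∀ ν ∈ cls Q at' α, (-(D.freq ν : ℂ) / -(D.freq α : ℂ) - 1) / (eA1 M : ℝ) =
      rv (fun ν => (D.freq ν : ℂ)) at' (eA1 M) ν := fun α ν hν => by
    rw [rv, (mem_cls.1 hν).2, neg_div_neg_eq]
  have hM2 := hp.two
  have hE1 : (1 : ℝ) ≤ Real.exp M := Real.one_le_exp (by positivity)
  obtain ⟨j, h1, h2, h3⟩ := atom_lower hp Q (by
      have h1 : Q.card ≤ M ^ 264 := by
        refine (card_le_card hQ).trans ?_
        rw [Dat.pA, card_product, Nat.card_Icc, Nat.add_sub_cancel, pow_succ' M 263]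
        exact Nat.mul_le_mul_right _ (by omega)
      exact le_trans (by exact_mod_cast h1) (hp.pow_le_exp (k := 264) (by norm_num)))
    (fun ν => -(D.freq ν : ℂ)) g (rv (fun ν => (D.freq ν : ℂ)) at' (eA1 M)) at'
    (fun ν hν => (hsat ν (hQ hν)).1 hν) (fun ν hν => hat.idem ν (hQ hν))
    (fun ν hν => (hu ν (hQ hν)).trans (by norm_num)) (fun ν hν => neg_ne_zero.2 (hf0 ν (hQ hν)))
    (eA1 M) (eA1 M) (eA0 M) ((M : ℝ) ^ 3600)⁻¹ j1 (M ^ 3700) he1.le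
    (by
      have h1 : ((j1 + 4 * M ^ 3700 : ℕ) : ℝ) ≤ ((3 * M ^ 8000 : ℕ) : ℝ) := Nat.cast_le.2 hj1
      rw [Nat.cast_add, Nat.cast_mul, Nat.cast_mul, Nat.cast_pow M 8000] at h1
      have h2 := atm_j hp (x := (j1 : ℝ) + 4 * ((M ^ 3700 : ℕ) : ℝ) + 1) (by
        simp only [Nat.cast_ofNat] at h1; linarith)
      have h3 : 0 ≤ eA1 M * ((j1 : ℝ) + 4 * ((M ^ 3700 : ℕ) : ℝ) + 1) := by positivity
      linarith)
    (hp.inv_pow_le (by norm_num) (by norm_num))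
    (by have := atm_inv_le_one hp (c := 8) (by norm_num) (k := 3600) (by norm_num); linarith)
    (by
      rw [Nat.cast_pow, inv_mul_eq_div, le_div_iff₀ (hp.pow_pos _), ← pow_add]
      exact hp.pow_mono (by norm_num))
    (by simpa only [pow_one] using hp.pow_monoN (show 1 ≤ 3700 by norm_num))
    (fun α _ _ => by
      refine ((Mu.fst.smul ((eA1 M : ℝ) : ℂ)).congr fun ν hν => ?_).mono (le_of_eq ?_)
      · rw [← hrv α ν hν]; field_simp
      · rw [Complex.norm_real, Real.norm_of_nonneg he1.le, mul_one])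
    (atm_exp_neg hp (by norm_num))
    (by have := atm_inv_le_one hp (c := 1) (by norm_num) (k := 32300) (by norm_num)
        rwa [one_mul] at this)
    (fun ν hν ν' hν' hne => by
      have := (hat.sep ν (hQ hν) ν' (hQ hν') hne).le
      rwa [norm_neg, norm_neg, neg_sub_neg, norm_sub_rev])
    α0 hα0 hα0' (atm_exp_neg hp (by norm_num))
    (by have := atm_inv_le_one hp (c := 1) (by norm_num) (k := 32000) (by norm_num)
        rwa [one_mul] at this)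
    (fun ν hν => by
      rw [hrv α0 ν hν]
      exact (hu ν (hQ (mem_cls.1 hν).1)).trans (by norm_num))
    ((Mu.fst.congr fun ν hν => hrv α0 ν hν).mono hE1)
    (fun α hα hα' j hj hj' => by
      rw [atm_cls hQ hsat hα, atm_cls hQ hsat hα0, hnorm, hnorm]
      exact htop α hα hα' j hj hj')
    (fun R hR hlog => by
      have key : ∀ k ∈ A, ∀ n n' : ℕ, (k, n) ∈ R → (k, n') ∈ R → ¬ n < n' := by
        intro k hk n n' hn hn' hlt
        have h1 := hlog _ hn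
        have h2 := hlog _ hn'
        rw [hnorm, hnorm] at h1 h2
        have h3 := atm_thin (hfr _ (hQ (hR hn))) (hfr _ (hQ (hR hn'))) (hfr _ (hQ hα0)) h1 h2
        rw [atm_freq D _ (ha k hk), atm_freq D _ (ha k hk), mul_div_mul_right _ _ (ha k hk).ne']
          at h3
        have h4 : (n' : ℝ) ≤ (M : ℝ) ^ 263 := by exact_mod_cast (hmemA _ (hQ (hR hn'))).2.2
        have h5 : (n : ℝ) + 1 ≤ n' := by exact_mod_cast hlt
        have h6 : (0 : ℝ) < n' := by linarith only [h5, Nat.cast_nonneg (α := ℝ) n]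
        have h7 : ((M : ℝ) ^ 263)⁻¹ ≤ 1 - (n : ℝ) / n' := by
          refine (inv_anti₀ h6 h4).trans ?_
          rw [one_sub_div h6.ne', inv_eq_one_div]
          gcongr
          linarith only [h5]
        have h8 := hp.inv_pow_le (c := 8) (by norm_num) (show 263 < 3600 by norm_num)
        have h9 := inv_pos.2 (hp.pow_pos 3600)
        simp only at h3
        linarith only [h3, h7, h8, h9]
      have : R.card ≤ A.card := by
        refine card_le_card_of_injOn Prod.fst (fun ν hν => (hmemA _ (hQ (hR hν))).1) ?_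
        rintro ⟨k, n⟩ hn ⟨k', n'⟩ hn' (rfl : k = k')
        have hk := (hmemA _ (hQ (hR hn))).1
        have h1 := key k hk n n' hn hn'
        have h2 := key k hk n' n hn' hn
        congr 1
        omega
      omega)
    j0 hj0 hj0'
  refine ⟨j, h1, h2, ?_⟩
  rw [atm_cls hQ hsat hα0, hnorm] at h3
  have h4 : D.exps Q g j 0 = (∑ ν ∈ Q, g ν * (-(D.freq ν : ℂ)) ^ j) / (j.factorial : ℂ) := by
    rw [Dat.exps, sum_div]
    refine sum_congr rfl fun ν _ => ?_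
    rw [ec, mul_zero, Complex.exp_zero, mul_one, mul_div_assoc]
  rw [h4, norm_div, Complex.norm_natCast, ← mul_div_assoc]
  exact div_le_div_of_nonneg_right h3 (by positivity)

theorem atm_dist {z p : ℂ} (hz : 4 * ‖z‖ ≤ ‖p‖) :
    3 / 4 * ‖p‖ ≤ ‖z - p‖ ∧ ‖z - p‖ ≤ 5 / 4 * ‖p‖ := by
  have h1 := norm_sub_le z p
  have h2 := norm_sub_norm_le p z
  rw [norm_sub_rev] at h2
  constructor <;> linarith only [hz, h2, h1]

theorem atm_muB {s : Finset κ} {nd u : κ → ℂ} {z p : ℂ} {e : ℝ} (he : 0 < e) (he1 : e ≤ 1 / 8)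
    (hp : p ≠ 0) (hz : 4 * ‖z‖ ≤ ‖p‖) (hu : ∀ ν ∈ s, ‖u ν‖ ≤ 1)
    (hnd : ∀ ν ∈ s, nd ν = p * (1 + (e : ℂ) * u ν)) :
    Mu s u (fun _ => 0) (fun ν => (z - nd ν)⁻¹ / (z - p)⁻¹ - 1) (2 * e) ∧
    (∀ ν ∈ s, ‖((z - nd ν)⁻¹ / (z - p)⁻¹ - 1) / ((4 * e : ℝ) : ℂ)‖ ≤ 1 / 2) ∧
    Mu s (fun ν => ((z - nd ν)⁻¹ / (z - p)⁻¹ - 1) / ((4 * e : ℝ) : ℂ)) (fun _ => 0) u 10 := by
  obtain ⟨h1, h2⟩ := atm_dist hz
  have hp0 := norm_pos_iff.2 hp
  have hzp0 : 0 < ‖z - p‖ := by linarith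
  have hzp : z - p ≠ 0 := norm_pos_iff.1 hzp0
  have hec : (e : ℂ) ≠ 0 := by exact_mod_cast he.ne'
  set t : ℂ := -((e : ℂ) * p / (z - p)) with ht
  have ht0 : t ≠ 0 := neg_ne_zero.2 (div_ne_zero (mul_ne_zero hec hp) hzp)
  have htn : ‖t‖ = e * ‖p‖ / ‖z - p‖ := by
    rw [ht, norm_neg, norm_div, norm_mul, Complex.norm_real, Real.norm_of_nonneg he.le]
  have hid : ∀ ν ∈ s, (z - nd ν)⁻¹ / (z - p)⁻¹ = (1 + t * u ν)⁻¹ := fun ν hν => by
    have : z - nd ν = (z - p) * (1 + t * u ν) := by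
      rw [hnd ν hν, ht]
      field_simp
      ring
    rw [this, mul_inv, mul_div_cancel_left₀ _ (inv_ne_zero hzp)]
  have ht1 : ‖t‖ * 1 ≤ 4 / 3 * e := by
    rw [mul_one, htn, div_le_iff₀ hzp0]
    nlinarith only [he, h1]
  have hA : Mu s u (fun _ => 0) (fun ν => (z - nd ν)⁻¹ / (z - p)⁻¹ - 1) (2 * e) := by
    have := ((Mu.fst (s := s) (u := u) (v := fun _ => 0)).smul t).mono ht1 |>.inv_one_add_sub hu
      (fun _ _ => by simp) (by positivity) (by linarith only [he, he1])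
    refine (this.congr fun ν hν => by rw [hid ν hν]).mono ?_
    rw [div_le_iff₀ (by linarith only [he, he1])]
    nlinarith only [he, he1]
  have hn4 : ‖((4 * e : ℝ) : ℂ)‖ = 4 * e := by
    rw [Complex.norm_real, Real.norm_of_nonneg (by positivity)]
  have hB : ∀ ν ∈ s, ‖((z - nd ν)⁻¹ / (z - p)⁻¹ - 1) / ((4 * e : ℝ) : ℂ)‖ ≤ 1 / 2 := fun ν hν => by
    have := hA.pt hu (fun _ _ => by simp) ν hν
    rw [norm_div, hn4, div_le_iff₀ (by positivity)]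
    linarith only [this]
  refine ⟨hA, hB, ?_⟩
  have h4 : ((4 * e : ℝ) : ℂ) ≠ 0 := by
    rw [← norm_pos_iff, hn4]
    positivity
  have := (((Mu.fst (s := s)
    (u := fun ν => ((z - nd ν)⁻¹ / (z - p)⁻¹ - 1) / ((4 * e : ℝ) : ℂ)) (v := fun _ => 0)).smul
    ((4 * e : ℝ) : ℂ)).mono (K' := 4 * e) (by rw [hn4, mul_one]) |>.inv_one_add_sub
      (fun ν hν => (hB ν hν).trans (by norm_num)) (fun _ _ => by simp) (by positivity)
      (by linarith)).smul t⁻¹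
  refine (this.congr fun ν hν => ?_).mono ?_
  · rw [mul_div_cancel₀ _ h4, add_sub_cancel, hid ν hν, inv_inv, add_sub_cancel_left,
      inv_mul_cancel_left₀ ht0]
  · have h5 : ‖t⁻¹‖ ≤ 5 / (4 * e) := by
      rw [norm_inv, htn, inv_div, div_le_div_iff₀ (by positivity) (by positivity)]
      nlinarith only [he, h2]
    have h6 : 4 * e / (1 - 4 * e) ≤ 8 * e := by
      rw [div_le_iff₀ (by linarith)]
      nlinarith only [he, he1]
    have h7 : 0 ≤ 4 * e / (1 - 4 * e) := div_nonneg (by positivity) (by linarith)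
    calc _ ≤ 5 / (4 * e) * (8 * e) := by gcongr
      _ = 10 := by field_simp; norm_num

theorem atm_sepB {z a b : ℂ} {e : ℝ} (he : 0 ≤ e) (ha0 : a ≠ 0) (hb0 : b ≠ 0)
    (ha : 4 * ‖z‖ ≤ ‖a‖) (hb : 4 * ‖z‖ ≤ ‖b‖) (h : e * min ‖a‖ ‖b‖ ≤ ‖a - b‖) :
    e / 2 * min ‖(z - a)⁻¹‖ ‖(z - b)⁻¹‖ ≤ ‖(z - a)⁻¹ - (z - b)⁻¹‖ := by
  obtain ⟨h1, h2⟩ := atm_dist ha
  obtain ⟨h3, h4⟩ := atm_dist hb
  have ha1 := norm_pos_iff.2 ha0
  have hb1 := norm_pos_iff.2 hb0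
  have hp : 0 < ‖z - a‖ := by linarith
  have hq : 0 < ‖z - b‖ := by linarith
  have hid : (z - a)⁻¹ - (z - b)⁻¹ = (a - b) * ((z - a)⁻¹ * (z - b)⁻¹) := by
    have := norm_pos_iff.1 hp
    have := norm_pos_iff.1 hq
    field_simp
    ring
  rw [hid, norm_mul, norm_mul, norm_inv, norm_inv]
  have hp' := inv_pos.2 hp
  have hq' := inv_pos.2 hq
  rcases le_total ‖a‖ ‖b‖ with hab | hab
  · rw [min_eq_left hab] at h
    calc _ ≤ e / 2 * ‖z - b‖⁻¹ := by gcongr; exact min_le_right _ _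
      _ = e / 2 * ‖z - a‖ * (‖z - a‖⁻¹ * ‖z - b‖⁻¹) := by field_simp
      _ ≤ _ := by gcongr; nlinarith only [he, h, h1, h2]
  · rw [min_eq_right hab] at h
    calc _ ≤ e / 2 * ‖z - a‖⁻¹ := by gcongr; exact min_le_left _ _
      _ = e / 2 * ‖z - b‖ * (‖z - a‖⁻¹ * ‖z - b‖⁻¹) := by field_simp
      _ ≤ _ := by gcongr; nlinarith only [he, h, h3, h4]

theorem atm_side {y b s t : ℝ} (hb : 0 ≤ b) (hst : s + b ≤ t) (hside : y ≤ s ↔ y ≤ t) :
    b ^ 2 + (y - s) ^ 2 ≤ (y - t) ^ 2 ∨ b ^ 2 + (y - t) ^ 2 ≤ (y - s) ^ 2 := by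
  by_cases h : y ≤ s
  · left
    nlinarith
  · right
    have h' : t < y := not_le.1 fun h' => h (hside.2 h')
    nlinarith

theorem atm_node_sq (D : Dat ι) (z : ℂ) (ν : ι × ℤ) : ‖z - D.node ν‖ ^ 2 =
    (z.re - D.x ν.1) ^ 2 + (z.im - ν.2 * sp (D.a ν.1)) ^ 2 := by
  rw [Complex.sq_norm, Complex.normSq_apply]
  simp [Dat.node]
  ring

theorem atm_node_le (hp : Par m M) (D : Dat ι) (ν : ι × ℤ) (ha : 0 < D.a ν.1)
    (hT : D.T ν.1 ≤ 2 * (M : ℝ) ^ 267) (hl : |(ν.2 : ℝ)| ≤ (M : ℝ) ^ 269) :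
    ‖D.node ν‖ ≤ 2 * (M : ℝ) ^ 269 * sp (D.a ν.1) := by
  have hb : 0 < sp (D.a ν.1) := div_pos Real.two_pi_pos ha
  have h1 : ‖D.node ν‖ ≤ |D.x ν.1| + |(ν.2 : ℝ)| * sp (D.a ν.1) := by
    refine (norm_add_le _ _).trans (le_of_eq ?_)
    rw [norm_mul, Complex.norm_I, one_mul, Complex.norm_real, Complex.norm_real, Real.norm_eq_abs,
      Real.norm_eq_abs, abs_mul, abs_of_pos hb]
  have h2 : |D.x ν.1| ≤ (M : ℝ) ^ 269 * sp (D.a ν.1) := by
    have h3 := hp.pow_mono (show 267 ≤ 269 by norm_num)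
    have h4 := hp.pow_pos 269
    rw [sp, ← mul_div_assoc, le_div_iff₀ ha, mul_comm]
    have h5 := Real.pi_gt_three
    unfold Dat.T at hT
    nlinarith only [hT, h3, h4, h5]
  have h3 : |(ν.2 : ℝ)| * sp (D.a ν.1) ≤ (M : ℝ) ^ 269 * sp (D.a ν.1) := by gcongr
  linarith

/-- `atom_lower` on `Q` with `w = (z - node)⁻¹` and exponent `j + 1`, `ε1 = 2 eA1`, `ε2 = 4 eA1`,
`δ = eA0 / 2`, `η = M^{-600}`; a lattice has at most two poles in the thin annulus (one on each side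
of the height `Im z`), since consecutive values of `‖z - node‖²` on one side differ by `≥ b²`. -/
theorem atomB (hp : Par m M) (D : Dat ι) (B : Finset ι) (hB : B.card ≤ m)
    (ha : ∀ k ∈ B, 0 < D.a k) (hT : ∀ k ∈ B, D.T k ≤ 2 * (M : ℝ) ^ 267)
    (bt : ι × ℤ → ι × ℤ) (hbt : RClus (D.pB B (M ^ 269)) D.node bt (eA1 M) (eA0 M))
    (hne : ∀ ν ∈ D.pB B (M ^ 269), D.node ν ≠ 0)
    (Q : Finset (ι × ℤ)) (hQ : Q ⊆ D.pB B (M ^ 269))
    (hsat : ∀ ν ∈ D.pB B (M ^ 269), ν ∈ Q ↔ bt ν ∈ Q) (z : ℂ)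
    (hz : ∀ ν ∈ Q, 4 * ‖z‖ ≤ ‖D.node ν‖)
    (α0 : ι × ℤ) (hα0 : α0 ∈ Q) (hα0' : bt α0 = α0) (j1 q : ℕ) (hq : M ^ 7000 ≤ q)
    (hj1 : j1 + 4 * q ≤ 3 * M ^ 8000)
    (htop : ∀ α ∈ Q, bt α = α → ∀ j, j1 ≤ j → j ≤ j1 + 4 * q →
      D.NP M (D.pB B (M ^ 269)) bt α / ‖z - D.node α‖ ^ (j + 1) ≤
        D.NP M (D.pB B (M ^ 269)) bt α0 / ‖z - D.node α0‖ ^ (j + 1))
    (j0 : ℕ) (hj0 : j1 + q ≤ j0) (hj0' : j0 ≤ j1 + 2 * q) :
    ∃ j, j0 ≤ j ∧ j < j0 + M ∧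
      Real.exp (-(M : ℝ) ^ 4) * (D.NP M (D.pB B (M ^ 269)) bt α0 / ‖z - D.node α0‖ ^ (j + 1)) ≤
        ‖D.poles Q j z‖ := by
  classical
  have hmemB : ∀ ν ∈ D.pB B (M ^ 269), ν.1 ∈ B ∧ |(ν.2 : ℝ)| ≤ (M : ℝ) ^ 269 := fun ν hν => by
    obtain ⟨h1, h2⟩ := mem_product.1 (mem_filter.1 hν).1
    refine ⟨h1, ?_⟩
    have h3 : |ν.2| ≤ ((M ^ 269 : ℕ) : ℤ) := abs_le.2 (mem_Icc.1 h2)
    exact_mod_cast h3
  have he1 : 0 < eA1 M := inv_pos.2 (hp.pow_pos _)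
  have he8 : eA1 M ≤ 1 / 8 := by
    have := atm_inv_le_one hp (c := 8) (by norm_num) (k := 32000) (by norm_num)
    unfold eA1
    linarith
  have he0 : 0 < eA0 M := inv_pos.2 (hp.pow_pos _)
  have hu := hbt.rv_le he1 hne
  have hpos : ∀ ν ∈ Q, 0 < ‖z - D.node ν‖ := fun ν hν => by
    have := norm_pos_iff.2 (hne ν (hQ hν))
    linarith [(atm_dist (hz ν hν)).1]
  have hmu : ∀ α ∈ Q, _ := fun α hα => atm_muB (s := cls Q bt α) (nd := D.node)
    (u := rv D.node bt (eA1 M)) he1 he8 (hne α (hQ hα)) (hz α hα)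
    (fun ν hν => (hu ν (hQ (mem_cls.1 hν).1)).trans (by norm_num)) (fun ν hν => by
      obtain ⟨h1, h2⟩ := mem_cls.1 hν
      have := rv_eq (f := D.node) (rep := bt) (k := ν) he1.ne' (hne _ (hbt.mem ν (hQ h1)))
      rwa [h2] at this)
  have hM2 := hp.two
  have hM := hp.bigR
  have hE : (10 : ℝ) ≤ Real.exp M := by linarith [Real.add_one_le_exp (M : ℝ)]
  obtain ⟨j, h1, h2, h3⟩ := atom_lower hp Q (by
      have h1 : Q.card ≤ M ^ 271 := by
        refine (card_le_card (hQ.trans (filter_subset _ _))).trans ?_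
        rw [card_product, Int.card_Icc]
        have h2 := hp.mul_pow_leN (c := 3) (by norm_num) (show 269 < 270 by norm_num)
        have h3 : 1 ≤ M ^ 269 := Nat.one_le_pow _ _ hp.one_leN
        rw [pow_succ' M 270]
        refine Nat.mul_le_mul (by omega) ?_
        generalize M ^ 269 = a at *
        omega
      exact le_trans (by exact_mod_cast h1) (hp.pow_le_exp (k := 271) (by norm_num)))
    (fun ν => (z - D.node ν)⁻¹) (fun ν => (D.W ν.1 : ℂ)) (rv D.node bt (eA1 M)) bt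
    (fun ν hν => (hsat ν (hQ hν)).1 hν) (fun ν hν => hbt.idem ν (hQ hν))
    (fun ν hν => (hu ν (hQ hν)).trans (by norm_num))
    (fun ν hν => inv_ne_zero (norm_pos_iff.1 (hpos ν hν)))
    (2 * eA1 M) (4 * eA1 M) (eA0 M / 2) ((M : ℝ) ^ 600)⁻¹ (j1 + 1) q (by positivity)
    (by
      have h1 : ((j1 + 4 * q : ℕ) : ℝ) ≤ ((3 * M ^ 8000 : ℕ) : ℝ) := Nat.cast_le.2 hj1
      rw [Nat.cast_add, Nat.cast_mul, Nat.cast_mul, Nat.cast_pow M 8000] at h1
      have h2 := atm_j hp (x := ((j1 + 1 : ℕ) : ℝ) + 4 * (q : ℝ) + 1) (by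
        rw [Nat.cast_add, Nat.cast_one]
        simp only [Nat.cast_ofNat] at h1; linarith)
      linarith)
    (by have := hp.inv_pow_le (c := 4) (by norm_num) (show 600 < 32000 by norm_num)
        unfold eA1
        linarith)
    (by have := atm_inv_le_one hp (c := 8) (by norm_num) (k := 600) (by norm_num); linarith)
    (by
      rw [inv_mul_eq_div, le_div_iff₀ (hp.pow_pos _), ← pow_add]
      refine (hp.pow_mono (k := 7000) (by norm_num)).trans ?_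
      exact_mod_cast hq)
    (by
      refine le_trans ?_ hq
      simpa only [pow_one] using hp.pow_monoN (show 1 ≤ 7000 by norm_num))
    (fun α hα _ => (hmu α hα).1)
    (by
      have h1 := atm_exp_neg hp (k := 32301) (by norm_num)
      have h2 := hp.inv_pow_le (c := 2) (by norm_num) (show 32300 < 32301 by norm_num)
      unfold eA0
      linarith)
    (by have := atm_inv_le_one hp (c := 1) (by norm_num) (k := 32300) (by norm_num)
        unfold eA0 at he0 ⊢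
        linarith only [he1, he8, this])
    (fun ν hν ν' hν' hn => atm_sepB he0.le (hne ν (hQ hν)) (hne ν' (hQ hν')) (hz ν hν) (hz ν' hν')
      (hbt.sep ν (hQ hν) ν' (hQ hν') hn).le)
    α0 hα0 hα0'
    (by have := atm_exp_neg hp (k := 32000) (by norm_num)
        unfold eA1 at he1 ⊢
        linarith only [he1, this])
    (by linarith) (hmu α0 hα0).2.1 ((hmu α0 hα0).2.2.mono hE)
    (fun α hα hα' j hj hj' => by
      obtain ⟨j, rfl⟩ : ∃ i, j = i + 1 := ⟨j - 1, by omega⟩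
      rw [atm_cls hQ hsat hα, atm_cls hQ hsat hα0, norm_inv, norm_inv, inv_pow, inv_pow,
        ← div_eq_mul_inv, ← div_eq_mul_inv]
      exact htop α hα hα' j (by omega) (by omega))
    (fun R hR hlog => by
      have key : ∀ k ∈ B, ∀ l l' : ℤ, (k, l) ∈ R → (k, l') ∈ R →
          ¬ sp (D.a k) ^ 2 + (z.im - l * sp (D.a k)) ^ 2 ≤ (z.im - l' * sp (D.a k)) ^ 2 := by
        intro k hk l l' hl hl' hle
        have hb : 0 < sp (D.a k) := div_pos Real.two_pi_pos (ha k hk)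
        have p1 := hpos _ (hR hl)
        have p2 := hpos _ (hR hl')
        have h1 := hlog _ hl
        have h2 := hlog _ hl'
        have h3 := atm_thin (norm_pos_iff.2 (inv_ne_zero (norm_pos_iff.1 p2)))
          (norm_pos_iff.2 (inv_ne_zero (norm_pos_iff.1 p1)))
          (norm_pos_iff.2 (inv_ne_zero (norm_pos_iff.1 (hpos _ hα0)))) h2 h1
        rw [norm_inv, norm_inv, inv_div_inv, one_sub_div p2.ne', div_le_iff₀ p2] at h3
        have h4 := atm_node_sq D z (k, l)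
        have h5 := atm_node_sq D z (k, l')
        have h6 := atm_node_le hp D (k, l') (ha k hk) (hT k hk) (hmemB _ (hQ (hR hl'))).2
        have h7 := (atm_dist (hz _ (hR hl'))).2
        simp only at h4 h5 h6
        have h8 := hp.inv_pow_le (c := 100) (by norm_num) (show 269 * 2 < 600 by norm_num)
        have h9 := inv_pos.2 (hp.pow_pos 600)
        have h10 := hp.pow_pos 269
        rw [pow_mul] at h8
        generalize ((M : ℝ) ^ 600)⁻¹ = η at *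
        generalize (M : ℝ) ^ 269 = X at *
        generalize ‖z - D.node (k, l)‖ = p at *
        generalize ‖z - D.node (k, l')‖ = p' at *
        generalize sp (D.a k) = b at *
        have a1 : b ^ 2 + p ^ 2 ≤ p' ^ 2 := by linarith only [hle, h4, h5]
        have a2 : p ≤ p' := by nlinarith only [p1, p2, hle, h4, h5]
        have a3 : b ^ 2 ≤ 8 * η * p' ^ 2 := by nlinarith only [he1, he8, p2, h3, hle, h4, h5, a2]
        have a4 : p' ^ 2 ≤ (3 * X * b) ^ 2 := by gcongr; linarith only [p2, h7, h6]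
        have a5 : 100 * η * X ^ 2 ≤ 1 := by
          rwa [inv_eq_one_div, le_div_iff₀ (by positivity)] at h8
        have a6 : 0 < b ^ 2 := by positivity
        have a7 : 8 * η * p' ^ 2 ≤ 8 * η * (3 * X * b) ^ 2 := by gcongr
        nlinarith only [a3, a5, a6, a7]
      have key2 : ∀ k ∈ B, ∀ l l' : ℤ, (k, l) ∈ R → (k, l') ∈ R →
          (z.im ≤ l * sp (D.a k) ↔ z.im ≤ l' * sp (D.a k)) → ¬ l < l' := by
        intro k hk l l' hl hl' hside hlt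
        have hb : 0 < sp (D.a k) := div_pos Real.two_pi_pos (ha k hk)
        have h1 : (l : ℝ) + 1 ≤ l' := by exact_mod_cast hlt
        rcases atm_side hb.le (by nlinarith only [he1, he8, hb, h1]) hside with h | h
        · exact key k hk l l' hl hl' h
        · exact key k hk l' l hl' hl h
      have : R.card ≤ (B ×ˢ (univ : Finset Prop)).card := by
        refine card_le_card_of_injOn (fun ν => (ν.1, z.im ≤ ν.2 * sp (D.a ν.1)))
          (fun ν hν => mem_coe.2 (mem_product.2 ⟨(hmemB _ (hQ (hR hν))).1, mem_univ _⟩)) ?_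
        rintro ⟨k, n⟩ hn ⟨k', n'⟩ hn' heq
        obtain ⟨rfl, h0⟩ := Prod.mk.inj heq
        have hk := (hmemB _ (hQ (hR hn))).1
        have h1 := key2 k hk n n' hn hn' h0.to_iff
        have h2 := key2 k hk n' n hn' hn h0.to_iff.symm
        congr 1
        omega
      rw [card_product, card_univ, Fintype.card_prop] at this
      omega)
    (j0 + 1) (by omega) (by omega)
  obtain ⟨j, rfl⟩ : ∃ i, j = i + 1 := ⟨j - 1, by omega⟩
  refine ⟨j, by omega, by omega, ?_⟩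
  rw [atm_cls hQ hsat hα0, norm_inv, inv_pow, ← div_eq_mul_inv] at h3
  exact h3

end Pool.Agent.Work.MP_97f157_lc.Tau
end
end

-- merged part: Pool.Agent.Work.MP_97f157_lc.TauCC1
section
/-! The middle case: translation back to the base point, and a large pole atom at a probe. -/

noncomputable section
open Complex Finset Metric

namespace Pool.Agent.Work.MP_97f157_lc.Tau

variable {ι : Type*} {m M : ℕ}

/-! ### numerical facts -/

theorem cc1_small (hp : Par m M) {k : ℕ} (hk : 0 < k) : ((M : ℝ) ^ k)⁻¹ ≤ 1 / 1000 := by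
  have := atm_inv_le_one hp (c := 1000) (by norm_num) hk
  linarith

theorem cc1_inv_pos (hp : Par m M) (k : ℕ) : 0 < ((M : ℝ) ^ k)⁻¹ := inv_pos.2 (hp.pow_pos k)

theorem cc1_cancel (hp : Par m M) (a b : ℕ) : ((M : ℝ) ^ a)⁻¹ * (M : ℝ) ^ (a + b) = (M : ℝ) ^ b := by
  rw [pow_add, ← mul_assoc, inv_mul_cancel₀ (hp.pow_pos a).ne', one_mul]

theorem cc1_5 (hp : Par m M) : ((M : ℝ) ^ 5)⁻¹ * (M : ℝ) ^ 8000 = (M : ℝ) ^ 7995 :=
  cc1_cancel hp 5 7995

theorem cc1_2 (hp : Par m M) : ((M : ℝ) ^ 2)⁻¹ * (M : ℝ) ^ 7998 = (M : ℝ) ^ 7996 :=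
  cc1_cancel hp 2 7996

theorem cc1_inv_exp {t : ℝ} (h0 : 0 ≤ t) (h : t ≤ 1 / 2) : (1 - t)⁻¹ ≤ Real.exp (2 * t) := by
  have h1 := Real.add_one_le_exp (2 * t)
  have h2 : 0 < 1 - t := by linarith
  refine le_trans ?_ h1
  rw [inv_le_iff_one_le_mul₀ h2]
  nlinarith

theorem cc1_inv_pow {t : ℝ} (h0 : 0 ≤ t) (h : t ≤ 1 / 2) (n : ℕ) :
    (1 - t)⁻¹ ^ n ≤ Real.exp (2 * t * n) := by
  rw [mul_comm, Real.exp_nat_mul]
  exact pow_le_pow_left₀ (inv_nonneg.2 (by linarith)) (cc1_inv_exp h0 h) n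

/-- the cost of moving the base point by a relative amount `c M^{-5}` -/
theorem cc1_cost (hp : Par m M) {c : ℝ} (hc0 : 0 ≤ c) (hc : c ≤ 17) {j : ℕ}
    (hj : j ≤ 2 * M ^ 8000) :
    (1 - c * ((M : ℝ) ^ 5)⁻¹)⁻¹ ^ (j + 1) ≤ Real.exp (102 * (M : ℝ) ^ 7995) := by
  have h1 := cc1_small hp (k := 5) (by norm_num)
  have h2 := cc1_inv_pos hp 5
  have h3 := cc1_5 hp
  have h4 : (j : ℝ) ≤ 2 * (M : ℝ) ^ 8000 := by exact_mod_cast hj
  have h5 : (1 : ℝ) ≤ (M : ℝ) ^ 8000 := one_le_pow₀ hp.one_le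
  refine (cc1_inv_pow (by positivity) (by nlinarith only [hc0, hc, h1, h2]) _).trans (Real.exp_le_exp.2 ?_)
  push_cast
  generalize ((M : ℝ) ^ 5)⁻¹ = u at *
  generalize (M : ℝ) ^ 8000 = Y at *
  generalize (M : ℝ) ^ 7995 = Z at *
  have h6 : 2 * (c * u) * ((j : ℝ) + 1) ≤ 2 * (17 * u) * (3 * Y) :=
    mul_le_mul (by nlinarith only [hc, h2]) (by linarith) (by positivity) (by positivity)
  linarith

theorem cc1_ratio {a b t : ℝ} (ha : 0 ≤ a) (ht : t < 1) (h : (1 - t) * a ≤ b) (n : ℕ) :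
    a ^ n ≤ (1 - t)⁻¹ ^ n * b ^ n := by
  rw [← mul_pow]
  refine pow_le_pow_left₀ ha ?_ n
  rw [← div_eq_inv_mul, le_div_iff₀ (by linarith)]
  linarith

/-- a line of smaller radius lying below at `j + q` is far below at `j` -/
theorem cc1_gap {N N' r d η : ℝ} (hN' : 0 ≤ N') (hr : 0 < r) (hd : 0 < d)
    (hη : r ≤ (1 - η) * d) {j q : ℕ} (h : N / r ^ (j + q + 1) ≤ N' / d ^ (j + q + 1)) :
    N / r ^ (j + 1) ≤ Real.exp (-(η * q)) * (N' / d ^ (j + 1)) := by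
  have h1 : r / d ≤ Real.exp (-η) := by
    have := Real.add_one_le_exp (-η)
    rw [div_le_iff₀ hd]
    nlinarith
  have h2 : (r / d) ^ q ≤ Real.exp (-(η * q)) := by
    rw [show -(η * q) = q * -η by ring, Real.exp_nat_mul]
    exact pow_le_pow_left₀ (by positivity) h1 q
  calc N / r ^ (j + 1) = r ^ q * (N / r ^ (j + q + 1)) := by
        field_simp
        ring
    _ ≤ r ^ q * (N' / d ^ (j + q + 1)) := mul_le_mul_of_nonneg_left h (by positivity)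
    _ = (r / d) ^ q * (N' / d ^ (j + 1)) := by
        rw [div_pow]
        field_simp
        ring
    _ ≤ _ := mul_le_mul_of_nonneg_right h2 (by positivity)

/-- a fast exponential atom -/
theorem cc1_fast {N E μ d Y : ℝ} (hE : 0 ≤ E) (hd : 0 < d) (hY : 0 < Y)
    {j q : ℕ} (hjq : ((j + q : ℕ) : ℝ) ≤ 2 * Y) (hμd : 8 * Y ≤ μ * d)
    (h : N * μ ^ (j + q) / ((j + q).factorial : ℝ) ≤ E / d ^ (j + q + 1)) :
    N * μ ^ j / (j.factorial : ℝ) ≤ Real.exp (-q) * (E / d ^ (j + 1)) := by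
  have hf : (0 : ℝ) < j.factorial := by exact_mod_cast j.factorial_pos
  have hf' : (0 : ℝ) < (j + q).factorial := by exact_mod_cast (j + q).factorial_pos
  have h5 := env_fact j q
  have h6 : Real.exp 1 * ((j + q : ℕ) : ℝ) ≤ μ * d := by
    have := Real.exp_one_lt_d9
    have h7 : Real.exp 1 * ((j + q : ℕ) : ℝ) ≤ 3 * (2 * Y) :=
      mul_le_mul (by linarith) hjq (Nat.cast_nonneg _) (by norm_num)
    linarith
  have h7 : Real.exp q * ((j + q : ℕ) : ℝ) ^ q ≤ μ ^ q * d ^ q := by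
    rw [← mul_pow]
    refine le_trans ?_ (pow_le_pow_left₀ (by positivity) h6 q)
    rw [mul_pow, ← Real.exp_nat_mul, mul_one]
  rw [div_le_div_iff₀ hf' (pow_pos hd _)] at h
  have h8 : Real.exp q * (N * μ ^ j) / (j.factorial : ℝ) ≤ E / d ^ (j + 1) := by
    rw [div_le_div_iff₀ hf (pow_pos hd _)]
    have hpos : (0 : ℝ) < μ ^ q * d ^ q := by
      have : 0 < μ * d := by linarith
      rw [← mul_pow]
      exact pow_pos this _
    refine le_of_mul_le_mul_right ?_ hpos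
    calc Real.exp q * (N * μ ^ j) * d ^ (j + 1) * (μ ^ q * d ^ q)
        = Real.exp q * (N * μ ^ (j + q) * d ^ (j + q + 1)) := by ring
      _ ≤ Real.exp q * (E * ((j.factorial : ℝ) * ((j + q : ℕ) : ℝ) ^ q)) :=
        mul_le_mul_of_nonneg_left (h.trans (mul_le_mul_of_nonneg_left h5 hE)) (Real.exp_pos _).le
      _ = E * (j.factorial : ℝ) * (Real.exp q * ((j + q : ℕ) : ℝ) ^ q) := by ring
      _ ≤ _ := mul_le_mul_of_nonneg_left h7 (mul_nonneg hE hf.le)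
  rw [Real.exp_neg, ← div_eq_inv_mul, le_div_iff₀ (Real.exp_pos _), mul_comm, ← mul_div_assoc]
  exact h8

theorem cc1_sum4 {a b c e X Y B : ℝ} (hB : 0 ≤ B) (ha : a ≤ Real.exp X * B)
    (hb : b ≤ Real.exp X * B) (hc : c ≤ Real.exp X * B) (he : e ≤ Real.exp X * B)
    (hXY : X + 4 ≤ Y) : a + b + c + e ≤ Real.exp Y * B := by
  have h1 : Real.exp X * 4 ≤ Real.exp Y := by
    refine le_trans ?_ (Real.exp_le_exp.2 hXY)
    rw [Real.exp_add]
    have := Real.add_one_le_exp (4 : ℝ)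
    exact mul_le_mul_of_nonneg_left (by linarith) (Real.exp_pos _).le
  have h2 := mul_le_mul_of_nonneg_right h1 hB
  linarith

theorem cc1_exp3 {a X1 X2 X3 X B : ℝ} (hB : 0 ≤ B)
    (h : a ≤ Real.exp X1 * (Real.exp X2 * (Real.exp X3 * B))) (hX : X1 + X2 + X3 ≤ X) :
    a ≤ Real.exp X * B := by
  refine h.trans ?_
  rw [← mul_assoc, ← mul_assoc, ← Real.exp_add, ← Real.exp_add]
  exact mul_le_mul_of_nonneg_right (Real.exp_le_exp.2 hX) hB

namespace Setup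
variable {S : Setup ι m M} {ja : ℕ} {d N0 : ℝ}

/-! ### sums over saturated subsets -/

theorem cc1_lat {T : Finset ι} (hT : T ⊆ S.C) (hsat : ∀ k ∈ S.C, k ∈ T ↔ S.cl k ∈ T) {j : ℕ}
    (hj1 : 1 ≤ j) (hj : j ≤ 2 * M ^ 8000) {z : ℂ} {b : ℝ} (hb : 0 ≤ b)
    (h : ∀ r ∈ T, S.cl r = r →
      2 * ‖z‖ ≤ |S.D.x r| ∧ S.NC r / |z.re - S.D.x r| ^ (j + 1) ≤ b) :
    ‖S.D.lat T j z‖ ≤ Real.exp M * b := by
  classical
  have hρ := S.ρpos
  have e1 : S.D.lat T j z = ∑ r ∈ T.filter (fun r => S.cl r = r), S.D.lat (cls S.C S.cl r) j z :=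
    sum_cls S.hcl.mem S.hcl.idem hT hsat _
  have hx0 : ∀ k ∈ S.C, S.D.x k ≠ 0 := fun k hk h0 => by
    have := S.x_C k hk
    rw [h0, abs_zero] at this
    linarith
  have hc : ((T.filter (fun r => S.cl r = r)).card : ℝ) ≤ M := by
    have h1 := ((card_filter_le T (fun r => S.cl r = r)).trans (card_le_card hT)).trans S.env_cardC
    have h2 := S.par.two
    exact_mod_cast (by omega : (T.filter (fun r => S.cl r = r)).card ≤ M)
  rw [e1]
  refine (env_sum _ _ (mul_nonneg (S.par.pow_pos 8000).le hb) (fun r hr => ?_) hc).trans ?_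
  · obtain ⟨hr, hrr⟩ := mem_filter.1 hr
    obtain ⟨h2, h3⟩ := h r hr hrr
    have hr' := hT hr
    have hT' : S.D.T r ≤ (M : ℝ) ^ 7990 :=
      (S.env_C.1 hr').2.2.trans (S.TA2.trans (S.par.mul_pow_le (by norm_num) (by norm_num)))
    have h1 := cluster_bound S.par S.D S.C S.cl S.hcl (fun k hk => S.apos k (S.env_C.1 hk).1) hx0
      S.nfl_C r hr' hrr hT' j hj1 (hj.trans (Nat.mul_le_mul_right _ (by norm_num))) z h2 0
      le_rfl (abs_nonneg _) (fun l => abs_nonneg _)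
    rw [zero_pow two_ne_zero, mul_zero, zero_div, neg_zero, Real.exp_zero, mul_one,
      mul_div_assoc] at h1
    exact h1.trans (mul_le_mul_of_nonneg_left h3 (S.par.pow_pos _).le)
  · rw [← mul_assoc, ← pow_succ']
    exact mul_le_mul_of_nonneg_right (S.par.pow_le_exp (by norm_num)) hb

theorem cc1_poles {T : Finset (ι × ℤ)} (hT : T ⊆ S.PB) (hsat : ∀ k ∈ S.PB, k ∈ T ↔ S.bt k ∈ T)
    {j : ℕ} (hj : j ≤ 2 * M ^ 8000) {z : ℂ} {b : ℝ} (hb : 0 ≤ b)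
    (h : ∀ r ∈ T, S.bt r = r →
      2 * ‖z‖ ≤ ‖S.D.node r‖ ∧ S.NP r / ‖z - S.D.node r‖ ^ (j + 1) ≤ b) :
    ‖S.D.poles T j z‖ ≤ Real.exp M * b := by
  classical
  have e1 : S.D.poles T j z =
      ∑ r ∈ T.filter (fun r => S.bt r = r), S.D.poles (cls S.PB S.bt r) j z :=
    sum_cls S.hbt.mem S.hbt.idem hT hsat _
  have hc : ((T.filter (fun r => S.bt r = r)).card : ℝ) ≤ (M : ℝ) ^ 271 := by
    exact_mod_cast ((card_filter_le T (fun r => S.bt r = r)).trans (card_le_card hT)).trans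
      S.card_PB
  rw [e1]
  refine (env_sum _ _ (mul_nonneg zero_le_two hb) (fun r hr => ?_) hc).trans ?_
  · obtain ⟨hr, hrr⟩ := mem_filter.1 hr
    obtain ⟨h2, h3⟩ := h r hr hrr
    have h1 := pole_atom_bound S.par S.D S.PB S.bt S.hbt S.node_ne r (hT hr) hrr j
      (hj.trans (Nat.mul_le_mul_right _ (by norm_num))) z h2
    rw [mul_div_assoc] at h1
    exact h1.trans (mul_le_mul_of_nonneg_left h3 zero_le_two)
  · rw [← mul_assoc, mul_comm _ (2 : ℝ)]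
    refine mul_le_mul_of_nonneg_right ?_ hb
    exact (S.par.mul_pow_le (k := 272) (by norm_num) (by norm_num)).trans
      (S.par.pow_le_exp (by norm_num))

theorem cc1_exps {T : Finset (ι × ℕ)} (hT : T ⊆ S.PA) (hsat : ∀ k ∈ S.PA, k ∈ T ↔ S.at' k ∈ T)
    {j : ℕ} (hj : j ≤ 2 * M ^ 8000) {z : ℂ} {b : ℝ} (hb : 0 ≤ b)
    (h : ∀ r ∈ T, S.at' r = r → |S.D.freq r| * ‖z‖ ≤ (M : ℝ) ^ 9000 ∧
      S.NA S.D.cf r * |S.D.freq r| ^ j / (j.factorial : ℝ) * Real.exp (S.D.freq r * z.re) ≤ b) :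
    ‖S.D.exps T S.D.cf j z‖ ≤ Real.exp M * b := by
  classical
  have e1 : S.D.exps T S.D.cf j z =
      ∑ r ∈ T.filter (fun r => S.at' r = r), S.D.exps (cls S.PA S.at' r) S.D.cf j z :=
    sum_cls S.hat.mem S.hat.idem hT hsat _
  have hc : ((T.filter (fun r => S.at' r = r)).card : ℝ) ≤ (M : ℝ) ^ 264 := by
    have h1 := (card_filter_le T (fun r => S.at' r = r)).trans (card_le_card hT)
    have h2 := S.card_PA
    exact_mod_cast h1.trans ((Nat.le_mul_of_pos_left _ two_pos).trans h2)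
  rw [e1]
  refine (env_sum _ _ (mul_nonneg zero_le_two hb) (fun r hr => ?_) hc).trans ?_
  · obtain ⟨hr, hrr⟩ := mem_filter.1 hr
    obtain ⟨h2, h3⟩ := h r hr hrr
    have h1 := exp_atom_bound S.par S.D S.PA S.at' S.hat S.freq_ne S.D.cf r (hT hr) hrr j
      (hj.trans (Nat.mul_le_mul_right _ (by norm_num))) z h2
    rw [mul_assoc] at h1
    exact h1.trans (mul_le_mul_of_nonneg_left h3 zero_le_two)
  · rw [← mul_assoc, mul_comm _ (2 : ℝ)]
    refine mul_le_mul_of_nonneg_right ?_ hb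
    exact (S.par.mul_pow_le (k := 265) (by norm_num) (by norm_num)).trans
      (S.par.pow_le_exp (by norm_num))

theorem cc1_satC (p : ι → Prop) [DecidablePred fun k => p (S.cl k)] :
    ∀ k ∈ S.C, k ∈ S.C.filter (fun k => p (S.cl k)) ↔
      S.cl k ∈ S.C.filter (fun k => p (S.cl k)) := fun k hk => by
  rw [mem_filter, mem_filter, S.hcl.idem k hk]
  exact ⟨fun h => ⟨S.hcl.mem k hk, h.2⟩, fun h => ⟨hk, h.2⟩⟩

theorem cc1_satB (p : ι × ℤ → Prop) [DecidablePred fun k => p (S.bt k)] :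
    ∀ k ∈ S.PB, k ∈ S.PB.filter (fun k => p (S.bt k)) ↔
      S.bt k ∈ S.PB.filter (fun k => p (S.bt k)) := fun k hk => by
  rw [mem_filter, mem_filter, S.hbt.idem k hk]
  exact ⟨fun h => ⟨S.hbt.mem k hk, h.2⟩, fun h => ⟨hk, h.2⟩⟩

theorem cc1_satA (p : ι × ℕ → Prop) [DecidablePred fun k => p (S.at' k)] :
    ∀ k ∈ S.PA, k ∈ S.Lo.filter (fun k => p (S.at' k)) ↔
      S.at' k ∈ S.Lo.filter (fun k => p (S.at' k)) := fun k hk => by
  rw [mem_filter, mem_filter, S.hat.idem k hk, S.Lo_sat k hk]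

theorem cc1_hi (h : S.CHyp ja d N0) {j : ℕ} (hj : j ≤ ja + 64 * M ^ 7998) : j ≤ 2 * M ^ 8000 :=
  hj.trans h.top.hi

theorem cc1_lo (h : S.CHyp ja d N0) {j : ℕ} (hj : ja ≤ j) : 1 ≤ j :=
  (Nat.one_le_pow _ _ S.par.one_leN).trans (h.top.lo.trans hj)

theorem chain_F1 (hd : 0 < d) : Chain (S.F1 d) (ball 0 (d / 2)) := by
  have h2 := cc1_small S.par (k := 2) (by norm_num)
  refine ((S.D.chain_lat (S.C1 d) (fun k hk => S.apos k (S.env_C.1 (mem_filter.1 hk).1).1)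
    (fun k hk l _ => ?_)).add (S.D.chain_poles (S.PB1 d) fun ν hν => ?_)).add
    ((S.D.chain_exps (S.PA1 d) S.D.cf).mono (Set.subset_univ _))
  · obtain ⟨hk, h1⟩ := mem_filter.1 hk
    have h3 := S.hcl.nearx k hk
    have h4 : eC1 M ≤ 1 / 1000 := cc1_small S.par (by norm_num)
    have h5 := abs_sub_abs_le_abs_sub (S.D.x (S.cl k)) (S.D.x k)
    rw [abs_sub_comm] at h5
    have h6 : |S.D.x k| ≤ ‖S.D.node (k, l)‖ := by
      have := abs_re_le_norm (S.D.node (k, l))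
      simpa [Dat.node] using this
    have h7 := abs_nonneg (S.D.x (S.cl k))
    have h8 : eC1 M / 4 * |S.D.x (S.cl k)| ≤ 1 / 4000 * |S.D.x (S.cl k)| :=
      mul_le_mul_of_nonneg_right (by linarith) h7
    nlinarith only [hd, h2, h1, h3, h5, h6, h8]
  · have := PB1_node hd ν hν
    nlinarith

/-- clusters and pole atoms cost `(1 - 17 M^{-5})^{-(j+1)}`, exponentials `exp (128 M^7995)` -/
theorem F1_sup (h : S.CHyp ja d N0) {j : ℕ} (hj1 : ja + 30 * M ^ 7998 ≤ j)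
    (hj2 : j ≤ ja + 34 * M ^ 7998) {z : ℂ} (hz : ‖z‖ ≤ 16 * ((M : ℝ) ^ 5)⁻¹ * d) :
    ‖S.F1 d j z‖ ≤ Real.exp (150 * (M : ℝ) ^ 7995) * N0 / d ^ (j + 1) := by
  have hp := S.par
  have hd := h.dpos
  have hj : j ≤ 2 * M ^ 8000 := cc1_hi h (by omega)
  have hB : 0 ≤ N0 / d ^ (j + 1) := div_nonneg h.pos.le (pow_pos hd _).le
  have hK := cc1_cost hp (c := 17) (by norm_num) le_rfl hj
  have u1 := cc1_small hp (k := 5) (by norm_num)
  have u0 := cc1_inv_pos hp 5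
  have v1 := cc1_small hp (k := 2) (by norm_num)
  have key : ∀ a b : ℝ, (1 - ((M : ℝ) ^ 2)⁻¹) * d ≤ a → a - ‖z‖ ≤ b →
      0 < a ∧ 2 * ‖z‖ ≤ a ∧ a ^ (j + 1) ≤ Real.exp (102 * (M : ℝ) ^ 7995) * b ^ (j + 1) := by
    intro a b ha hb
    have a1 : 999 / 1000 * d ≤ a := by nlinarith only [hd, v1, ha]
    have a2 : ‖z‖ ≤ 17 * ((M : ℝ) ^ 5)⁻¹ * a := by nlinarith only [hz, hd, u0, a1]
    have a3 : 0 < a := by linarith only [hd, a1]
    have a4 : ‖z‖ ≤ 17 / 1000 * a := by nlinarith only [hz, hd, u1, a1, a3]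
    refine ⟨a3, by linarith only [a3, a4], ?_⟩
    refine (cc1_ratio (t := 17 * ((M : ℝ) ^ 5)⁻¹) (b := b) a3.le (by linarith only [u1, u0])
      (by linarith only [hb, a2]) _).trans ?_
    exact mul_le_mul_of_nonneg_right hK (pow_nonneg (by linarith only [hb, a3, a4]) _)
  have b1 : ‖S.D.lat (S.C1 d) j z‖ ≤ Real.exp M *
      (Real.exp (102 * (M : ℝ) ^ 7995) * (Real.exp 0 * (N0 / d ^ (j + 1)))) := by
    refine cc1_lat (filter_subset _ _)
      (cc1_satC fun r => (1 - ((M : ℝ) ^ 2)⁻¹) * d ≤ |S.D.x r|) (cc1_lo h (by omega)) hj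
      (by positivity) fun r hr hrr => ?_
    obtain ⟨hr, h1⟩ := mem_filter.1 hr
    rw [hrr] at h1
    have h2 := abs_sub_abs_le_abs_sub (S.D.x r) z.re
    rw [abs_sub_comm] at h2
    obtain ⟨k1, k2, k3⟩ := key _ |z.re - S.D.x r| h1 (by linarith only [h2, abs_re_le_norm z])
    refine ⟨k2, env_div (S.NC_nonneg r) (pow_pos k1 _) (Real.exp_pos _).le (by positivity) k3 ?_⟩
    rw [Real.exp_zero, one_mul]
    exact h.top.top r hr hrr j (by omega) (by omega)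
  have b2 : ‖S.D.poles (S.PB1 d) j z‖ ≤ Real.exp M *
      (Real.exp (102 * (M : ℝ) ^ 7995) * (Real.exp ((M : ℝ) ^ 5) * (N0 / d ^ (j + 1)))) := by
    refine cc1_poles (filter_subset _ _) (PB1_sat d) hj (by positivity) fun r hr hrr => ?_
    obtain ⟨hr, h1⟩ := mem_filter.1 hr
    rw [hrr] at h1
    have h2 := norm_sub_norm_le (S.D.node r) z
    rw [norm_sub_rev] at h2
    obtain ⟨k1, k2, k3⟩ := key _ ‖z - S.D.node r‖ h1 h2
    refine ⟨k2, env_div Nm_nonneg (pow_pos k1 _) (Real.exp_pos _).le (by positivity) k3 ?_⟩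
    rw [← mul_div_assoc]
    exact h.hB j (by omega) (by omega) r hr hrr
  have b3 : ‖S.D.exps (S.PA1 d) S.D.cf j z‖ ≤ Real.exp M *
      (Real.exp (128 * (M : ℝ) ^ 7995) * (Real.exp (2 * (M : ℝ) ^ 6) * (N0 / d ^ (j + 1)))) := by
    refine cc1_exps (filter_subset _ _) (PA1_sat d) hj (by positivity) fun r hr hrr => ?_
    have hlo := PA1_sub h.top.dge hr
    obtain ⟨hr, h1⟩ := mem_filter.1 hr
    rw [hrr] at h1
    have h2 : |S.D.freq r| * ‖z‖ ≤ 128 * (M : ℝ) ^ 7995 := by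
      refine (mul_le_mul_of_nonneg_left hz (abs_nonneg _)).trans ?_
      rw [← cc1_5 hp]
      have := mul_le_mul_of_nonneg_left h1 (mul_nonneg (by norm_num : (0 : ℝ) ≤ 16) u0.le)
      generalize ((M : ℝ) ^ 5)⁻¹ = u at *
      generalize (M : ℝ) ^ 8000 = Y at *
      linarith only [this]
    refine ⟨h2.trans (hp.mul_pow_le (by norm_num) (by norm_num)), ?_⟩
    rw [mul_comm (Real.exp (128 * (M : ℝ) ^ 7995)), ← mul_div_assoc]
    refine mul_le_mul (h.hA j (by omega) (by omega) r hlo hrr) (Real.exp_le_exp.2 ?_)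
      (Real.exp_pos _).le (div_nonneg (mul_nonneg (Real.exp_pos _).le h.pos.le) (pow_pos hd _).le)
    refine (le_abs_self _).trans (le_trans ?_ h2)
    rw [abs_mul]
    exact mul_le_mul_of_nonneg_left (abs_re_le_norm z) (abs_nonneg _)
  have n1 : 4 * (M : ℝ) ^ 1 ≤ (M : ℝ) ^ 7995 := hp.mul_pow_le (by norm_num) (by norm_num)
  have n2 : (M : ℝ) ^ 5 ≤ (M : ℝ) ^ 7995 := hp.pow_mono (by norm_num)
  have n3 : 2 * (M : ℝ) ^ 6 ≤ (M : ℝ) ^ 7995 := hp.mul_pow_le (by norm_num) (by norm_num)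
  have n4 := hp.one_le
  rw [pow_one] at n1
  rw [mul_div_assoc]
  have e : ‖S.F1 d j z‖ ≤ ‖S.D.lat (S.C1 d) j z‖ + ‖S.D.poles (S.PB1 d) j z‖ +
      ‖S.D.exps (S.PA1 d) S.D.cf j z‖ + 0 := by
    rw [add_zero]
    exact norm_add₃_le
  generalize (M : ℝ) ^ 7995 = Z at *
  generalize (M : ℝ) ^ 5 = Z5 at *
  generalize (M : ℝ) ^ 6 = Z6 at *
  exact e.trans (cc1_sum4 (X := 140 * Z) hB (cc1_exp3 hB b1 (by linarith only [n4, n1, u1, u0]))
    (cc1_exp3 hB b2 (by linarith only [n4, n1, u1, u0, n2])) (cc1_exp3 hB b3 (by linarith only [n4, n1, u1, u0, n3])) (by positivity) (by linarith only [n4, n1, u1, u0]))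

/-- `lo - F1 = lat (C \ C1) + (lat B - poles PB) + poles (PB \ PB1) + exps (Lo \ PA1)`.  Clusters and
pole atoms at distance `< (1 - M^{-2}) d` gain `exp (-4 M^7996)` by `line_gap` with `q = 4 M^7998`;
atoms with `|μ| d > 8 M^8000` grow by a factor `≥ 3` per step relative to `d^{-j}`, so compare with
`hA` at `j + 4 M^7998`; `tailB_zero`. -/
theorem lo_sub_F1 (h : S.CHyp ja d N0) {j : ℕ} (hj1 : ja + 29 * M ^ 7998 ≤ j)
    (hj2 : j ≤ ja + 35 * M ^ 7998) :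
    ‖S.lo j 0 - S.F1 d j 0‖ ≤ Real.exp (-(3 * (M : ℝ) ^ 7996)) * N0 / d ^ (j + 1) := by
  have hp := S.par
  have hd := h.dpos
  have hρ := S.ρpos
  have hj : j ≤ 2 * M ^ 8000 := cc1_hi h (by omega)
  have hB : 0 ≤ N0 / d ^ (j + 1) := div_nonneg h.pos.le (pow_pos hd _).le
  have hq : ((M : ℝ) ^ 2)⁻¹ * ((4 * M ^ 7998 : ℕ) : ℝ) = 4 * (M : ℝ) ^ 7996 := by
    rw [← cc1_2 hp, Nat.cast_mul, Nat.cast_pow, Nat.cast_ofNat, mul_left_comm]
  have e1 : S.D.lat S.C j 0 = S.D.lat (S.C1 d) j 0 + S.D.lat (S.C.filter fun k =>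
      ¬ (1 - ((M : ℝ) ^ 2)⁻¹) * d ≤ |S.D.x (S.cl k)|) j 0 :=
    (sum_filter_add_sum_filter_not _ _ _).symm
  have e2 : S.D.poles S.PB j 0 = S.D.poles (S.PB1 d) j 0 + S.D.poles (S.PB.filter fun ν =>
      ¬ (1 - ((M : ℝ) ^ 2)⁻¹) * d ≤ ‖S.D.node (S.bt ν)‖) j 0 :=
    (sum_filter_add_sum_filter_not _ _ _).symm
  have e3 : S.D.exps S.Lo S.D.cf j 0 = S.D.exps (S.PA1 d) S.D.cf j 0 +
      S.D.exps (S.Lo.filter fun ν => ¬ |S.D.freq (S.at' ν)| * d ≤ 8 * (M : ℝ) ^ 8000) S.D.cf j 0 := by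
    have : S.PA1 d = S.Lo.filter fun ν => |S.D.freq (S.at' ν)| * d ≤ 8 * (M : ℝ) ^ 8000 := by
      ext ν
      rw [mem_filter]
      exact ⟨fun hν => ⟨PA1_sub h.top.dge hν, (mem_filter.1 hν).2⟩,
        fun hν => mem_filter.2 ⟨(S.env_Lo.1 hν.1).1, hν.2⟩⟩
    rw [this]
    exact (sum_filter_add_sum_filter_not _ _ _).symm
  have b1 : ‖S.D.lat (S.C.filter fun k => ¬ (1 - ((M : ℝ) ^ 2)⁻¹) * d ≤ |S.D.x (S.cl k)|) j 0‖ ≤
      Real.exp M * (Real.exp (-(4 * (M : ℝ) ^ 7996)) * (Real.exp 0 * (N0 / d ^ (j + 1)))) := by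
    refine cc1_lat (filter_subset _ _)
      (cc1_satC fun r => ¬ (1 - ((M : ℝ) ^ 2)⁻¹) * d ≤ |S.D.x r|) (cc1_lo h (by omega)) hj
      (by positivity) fun r hr hrr => ?_
    obtain ⟨hr, h1⟩ := mem_filter.1 hr
    rw [hrr, not_le] at h1
    have h2 := S.x_C r hr
    refine ⟨by rw [norm_zero, mul_zero]; exact abs_nonneg _, ?_⟩
    rw [zero_re, zero_sub, abs_neg, Real.exp_zero, one_mul, ← hq]
    exact cc1_gap h.pos.le (by linarith only [hρ, h2]) hd h1.le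
      (h.top.top r hr hrr (j + 4 * M ^ 7998) (by omega) (by omega))
  have b2 : ‖S.D.poles (S.PB.filter fun ν =>
      ¬ (1 - ((M : ℝ) ^ 2)⁻¹) * d ≤ ‖S.D.node (S.bt ν)‖) j 0‖ ≤ Real.exp M *
      (Real.exp (-(4 * (M : ℝ) ^ 7996)) * (Real.exp ((M : ℝ) ^ 5) * (N0 / d ^ (j + 1)))) := by
    refine cc1_poles (filter_subset _ _)
      (cc1_satB fun r => ¬ (1 - ((M : ℝ) ^ 2)⁻¹) * d ≤ ‖S.D.node r‖) hj
      (by positivity) fun r hr hrr => ?_
    obtain ⟨hr, h1⟩ := mem_filter.1 hr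
    rw [hrr, not_le] at h1
    have h2 := S.node_PB r hr
    refine ⟨by rw [norm_zero, mul_zero]; exact norm_nonneg _, ?_⟩
    rw [zero_sub, norm_neg, ← hq, ← mul_div_assoc (Real.exp ((M : ℝ) ^ 5))]
    exact cc1_gap (mul_nonneg (Real.exp_pos _).le h.pos.le) (by linarith only [hρ, h2]) hd h1.le
      (h.hB (j + 4 * M ^ 7998) (by omega) (by omega) r hr hrr)
  have b3 : ‖S.D.exps (S.Lo.filter fun ν =>
      ¬ |S.D.freq (S.at' ν)| * d ≤ 8 * (M : ℝ) ^ 8000) S.D.cf j 0‖ ≤ Real.exp M *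
      (Real.exp (-((4 * M ^ 7998 : ℕ) : ℝ)) *
        (Real.exp (2 * (M : ℝ) ^ 6) * (N0 / d ^ (j + 1)))) := by
    refine cc1_exps ((filter_subset _ _).trans (filter_subset _ _))
      (cc1_satA fun r => ¬ |S.D.freq r| * d ≤ 8 * (M : ℝ) ^ 8000) hj
      (by positivity) fun r hr hrr => ?_
    obtain ⟨hr, h1⟩ := mem_filter.1 hr
    rw [hrr, not_le] at h1
    refine ⟨by rw [norm_zero, mul_zero]; exact (hp.pow_pos _).le, ?_⟩
    rw [zero_re, mul_zero, Real.exp_zero, mul_one, ← mul_div_assoc (Real.exp (2 * (M : ℝ) ^ 6))]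
    refine cc1_fast (mul_nonneg (Real.exp_pos _).le h.pos.le) hd (hp.pow_pos 8000)
      ?_ h1.le (h.hA (j + 4 * M ^ 7998) (by omega) (by omega) r hr hrr)
    exact_mod_cast cc1_hi h (j := j + 4 * M ^ 7998) (by omega)
  have b4 : ‖S.D.lat S.B j 0 - S.D.poles S.PB j 0‖ ≤ Real.exp 0 *
      (Real.exp (-(10 * (M : ℝ) ^ 8000)) * (Real.exp ((M : ℝ) ^ 5) * (N0 / d ^ (j + 1)))) := by
    rw [Real.exp_zero, one_mul, ← mul_div_assoc (Real.exp ((M : ℝ) ^ 5))]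
    exact S.tailB_zero (h.top.lo.trans (by omega))
      (div_nonneg (mul_nonneg (Real.exp_pos _).le h.pos.le) (pow_pos hd _).le)
      (h.hB j (by omega) (by omega))
  have e : S.lo j 0 - S.F1 d j 0 =
      S.D.lat (S.C.filter fun k => ¬ (1 - ((M : ℝ) ^ 2)⁻¹) * d ≤ |S.D.x (S.cl k)|) j 0 +
      S.D.poles (S.PB.filter fun ν => ¬ (1 - ((M : ℝ) ^ 2)⁻¹) * d ≤ ‖S.D.node (S.bt ν)‖) j 0 +
      S.D.exps (S.Lo.filter fun ν => ¬ |S.D.freq (S.at' ν)| * d ≤ 8 * (M : ℝ) ^ 8000) S.D.cf j 0 +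
      (S.D.lat S.B j 0 - S.D.poles S.PB j 0) := by
    rw [lo, bc, F1, e1, e2, e3]
    abel
  have n1 : 40 * (M : ℝ) ^ 1 ≤ (M : ℝ) ^ 7996 := hp.mul_pow_le (by norm_num) (by norm_num)
  have n2 : 10 * (M : ℝ) ^ 5 ≤ (M : ℝ) ^ 7996 := hp.mul_pow_le (by norm_num) (by norm_num)
  have n3 : 20 * (M : ℝ) ^ 6 ≤ (M : ℝ) ^ 7996 := hp.mul_pow_le (by norm_num) (by norm_num)
  have n4 := hp.one_le
  have n5 : (M : ℝ) ^ 7996 ≤ (M : ℝ) ^ 8000 := hp.pow_mono (by norm_num)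
  have n6 : 4 * (M : ℝ) ^ 7996 ≤ ((4 * M ^ 7998 : ℕ) : ℝ) := by
    rw [Nat.cast_mul, Nat.cast_pow, Nat.cast_ofNat]
    exact mul_le_mul_of_nonneg_left (hp.pow_mono (by norm_num)) (by norm_num)
  rw [pow_one] at n1
  rw [mul_div_assoc, e]
  refine (norm_add_le _ _).trans ((add_le_add norm_add₃_le le_rfl).trans ?_)
  generalize ((4 * M ^ 7998 : ℕ) : ℝ) = Q at *
  refine cc1_sum4 (X := -(7 / 2 * (M : ℝ) ^ 7996)) hB (cc1_exp3 hB b1 ?_)
    (cc1_exp3 hB b2 ?_) (cc1_exp3 hB b3 ?_) (cc1_exp3 hB b4 ?_) ?_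
  all_goals
    clear b1 b2 b3 b4 e e1 e2 e3 hq
    generalize (M : ℝ) ^ 7996 = Z at *
    generalize (M : ℝ) ^ 8000 = Y at *
    generalize (M : ℝ) ^ 5 = Z5 at *
    generalize (M : ℝ) ^ 6 = Z6 at *
    linarith only [n4, n1, n2, n6, n3, n5]

/-- `Chain.translate` with `r = 4 M^{-5} d`, `X = 151 M^7995`, `i0 = M^7998`; `choose_mul_pow_le` -/
theorem lo_of_hit (h : S.CHyp ja d N0) (hit : S.Hit ja d N0) :
    ∃ j, ja + 30 * M ^ 7998 ≤ j ∧ j ≤ ja + 35 * M ^ 7998 ∧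
      Real.exp (-(M : ℝ) ^ 7996) * (N0 / d ^ (j + 1)) ≤ ‖S.lo j 0‖ := by
  have hp := S.par
  have hd := h.dpos
  obtain ⟨j, z, hj1, hj2, hz, hβ⟩ := hit
  have hj : j ≤ 2 * M ^ 8000 := cc1_hi h (by omega)
  have u1 := cc1_small hp (k := 5) (by norm_num)
  have u0 := cc1_inv_pos hp 5
  have n2 : (M : ℝ) ^ 6 ≤ (M : ℝ) ^ 7995 := hp.pow_mono (by norm_num)
  have n3 : (1 : ℝ) ≤ (M : ℝ) ^ 7995 := one_le_pow₀ hp.one_le
  have n4 : 152 * (M : ℝ) ^ 7995 ≤ (M : ℝ) ^ 7996 := hp.mul_pow_le (by norm_num) (by norm_num)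
  have n5 : (M : ℝ) ^ 7996 ≤ ((M ^ 7998 : ℕ) : ℝ) := by
    rw [Nat.cast_pow]
    exact hp.pow_mono (by norm_num)
  obtain ⟨i, hi, h1⟩ := (chain_F1 (S := S) hd).translate (r := 4 * ((M : ℝ) ^ 5)⁻¹ * d)
    (X := 151 * (M : ℝ) ^ 7995) (by positivity) (by nlinarith only [hd, u1]) j (M ^ 7998) z hz hβ
    (by
      generalize (M : ℝ) ^ 7995 = Z at *
      generalize (M : ℝ) ^ 7996 = Z' at *
      linarith)
    (fun z' hz' => by
      refine (F1_sup h hj1 hj2 (by linarith)).trans ?_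
      rw [mul_div_assoc, mul_div_assoc, ← mul_assoc, ← Real.exp_add]
      refine mul_le_mul_of_nonneg_right (Real.exp_le_exp.2 ?_)
        (div_nonneg h.pos.le (pow_pos hd _).le)
      generalize (M : ℝ) ^ 7995 = Z at *
      linarith)
  refine ⟨j + i, by omega, by omega, ?_⟩
  have h2 := lo_sub_F1 h (j := j + i) (by omega) (by omega)
  have h3 := (choose_mul_pow_le j i (t := 8 * ((M : ℝ) ^ 5)⁻¹) (by positivity) (by linarith only [u1, u0])).trans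
    (cc1_cost hp (c := 8) (by norm_num) (by norm_num) hj)
  have hB : 0 ≤ N0 / d ^ (j + i + 1) := div_nonneg h.pos.le (pow_pos hd _).le
  have h4 : Real.exp (-(M : ℝ) ^ 6) * (N0 / d ^ (j + i + 1)) ≤
      4 * Real.exp (102 * (M : ℝ) ^ 7995) * ‖S.F1 d (j + i) 0‖ := by
    refine le_of_mul_le_mul_right ?_ (pow_pos hd i)
    calc Real.exp (-(M : ℝ) ^ 6) * (N0 / d ^ (j + i + 1)) * d ^ i
        = Real.exp (-(M : ℝ) ^ 6) * N0 / d ^ (j + 1) := by
          generalize Real.exp (-(M : ℝ) ^ 6) = c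
          field_simp
          ring
      _ ≤ _ := h1
      _ = 4 * (((j + i).choose i : ℝ) * (8 * ((M : ℝ) ^ 5)⁻¹) ^ i) * ‖S.F1 d (j + i) 0‖ * d ^ i := by
          rw [show 2 * (4 * ((M : ℝ) ^ 5)⁻¹ * d) = 8 * ((M : ℝ) ^ 5)⁻¹ * d by ring, mul_pow]
          ring
      _ ≤ _ := mul_le_mul_of_nonneg_right (mul_le_mul_of_nonneg_right
          (mul_le_mul_of_nonneg_left h3 (by norm_num)) (norm_nonneg _)) (pow_pos hd i).le
  have h5 : 8 * Real.exp (102 * (M : ℝ) ^ 7995) * Real.exp (-(M : ℝ) ^ 7996) ≤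
      Real.exp (-(M : ℝ) ^ 6) := by
    have k : (8 : ℝ) ≤ Real.exp 7 := by
      have := Real.add_one_le_exp (7 : ℝ)
      linarith only [this]
    refine (mul_le_mul_of_nonneg_right (mul_le_mul_of_nonneg_right k (Real.exp_pos _).le)
      (Real.exp_pos _).le).trans ?_
    rw [← Real.exp_add, ← Real.exp_add]
    refine Real.exp_le_exp.2 ?_
    generalize (M : ℝ) ^ 7995 = Z at *
    generalize (M : ℝ) ^ 7996 = Z' at *
    linarith only [u1, u0, n2, n3, n4]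
  have h6 : 2 * (Real.exp (-(M : ℝ) ^ 7996) * (N0 / d ^ (j + i + 1))) ≤ ‖S.F1 d (j + i) 0‖ := by
    have k := (mul_le_mul_of_nonneg_right h5 hB).trans h4
    have k0 := Real.exp_pos (102 * (M : ℝ) ^ 7995)
    generalize Real.exp (102 * (M : ℝ) ^ 7995) = K at *
    generalize Real.exp (-(M : ℝ) ^ 7996) = c at *
    refine le_of_mul_le_mul_left ?_ (by positivity : 0 < 4 * K)
    linarith only [k]
  have h7 : Real.exp (-(3 * (M : ℝ) ^ 7996)) ≤ Real.exp (-(M : ℝ) ^ 7996) := by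
    refine Real.exp_le_exp.2 ?_
    have := hp.pow_pos 7996
    generalize (M : ℝ) ^ 7996 = Z' at *
    linarith only [u1, u0, n3, n4]
  rw [mul_div_assoc] at h2
  have h8 := h2.trans (mul_le_mul_of_nonneg_right h7 hB)
  have h9 := norm_sub_norm_le (S.F1 d (j + i) 0) (S.lo (j + i) 0)
  rw [norm_sub_rev] at h9
  generalize Real.exp (-(M : ℝ) ^ 7996) * (N0 / d ^ (j + i + 1)) = c at *
  linarith only [h9, h6, h8]

theorem cc1_line (N r : ℝ) (i : ℕ) : N / r * r⁻¹ ^ i = N / r ^ (i + 1) := by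
  rw [inv_pow, pow_succ', div_mul_eq_div_div, div_eq_mul_inv (N / r)]

/-- `line_side` keeps the atom above the line `exp (M^7) N0 / Dd^(j+1)` on an interval of length
`M^7998 / 2` on one side of `j`; `exists_top` among the atoms of `PB1` (lines
`NP α * ‖z - node α‖⁻¹ * (‖z - node α‖⁻¹)^j`) gives a piece of length `4 M^7000`; `atomB` with
`Q = PB1`; subtract `probe_C2`, `probe_Wb`, `probe_A`. -/
theorem hit_of_not_noZ (h : S.CHyp ja d N0) (hz : ¬ S.NoZ ja d N0) : S.Hit ja d N0 := by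
  classical
  have hp := S.par
  have hd := h.dpos
  simp only [NoZ, not_forall, not_le] at hz
  obtain ⟨j, Dd, τ, hR, α, hα, hαα, hlt⟩ := hz
  have hP := hR.preg hp hd
  obtain ⟨z1, D0, D1⟩ := hP.norm_le hp hd
  have u1 := cc1_small hp (k := 5) (by norm_num)
  have v1 := cc1_small hp (k := 2) (by norm_num)
  have hfar : ∀ ν ∈ S.PB1 d, 4 * ‖zp d Dd τ‖ ≤ ‖S.D.node ν‖ ∧ 0 < ‖zp d Dd τ - S.D.node ν‖ := by
    intro ν hν
    have k1 := PB1_node hd ν hν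
    have k2 := norm_sub_norm_le (S.D.node ν) (zp d Dd τ)
    rw [norm_sub_rev] at k2
    have k3 : ‖zp d Dd τ‖ ≤ 4 / 1000 * d := by nlinarith only [hd, z1, u1]
    have k4 : 998 / 1000 * d ≤ ‖S.D.node ν‖ := by nlinarith only [hd, v1, k1]
    constructor <;> linarith only [hd, k3, k4, k2]
  have hjr : ja + 31 * M ^ 7998 ≤ j ∧ j ≤ ja + 33 * M ^ 7998 := by
    have k1 := abs_le.1 (hR.hj.trans (hp.mul_pow_le (k := 7998) (by norm_num) (by norm_num)))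
    rw [← Nat.cast_pow] at k1
    generalize M ^ 7998 = U at *
    obtain ⟨k1, k2⟩ := k1
    push_cast at k1 k2
    constructor
    · exact_mod_cast (by linarith : (ja : ℝ) + 31 * U ≤ j)
    · exact_mod_cast (by linarith : (j : ℝ) ≤ ja + 33 * U)
  have hN' : 0 ≤ Real.exp ((M : ℝ) ^ 7) * N0 := mul_nonneg (Real.exp_pos _).le h.pos.le
  obtain ⟨j0, k1, k2, k3⟩ : ∃ j0, ja + 30 * M ^ 7998 ≤ j0 ∧ j0 ≤ ja + 33 * M ^ 7998 ∧
      ∀ i, j0 ≤ i → i ≤ j0 + M ^ 7998 → Real.exp ((M : ℝ) ^ 7) * N0 / Dd ^ (i + 1) <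
        S.NP α / ‖zp d Dd τ - S.D.node α‖ ^ (i + 1) := by
    rw [← cc1_line, ← cc1_line] at hlt
    rcases line_side (inv_pos.2 (hfar α hα).2) (inv_pos.2 D0) (div_nonneg hN' D0.le) hlt with
      k | k
    · refine ⟨j, by omega, by omega, fun i a b => ?_⟩
      rw [← cc1_line, ← cc1_line]
      exact k i a
    · refine ⟨j - M ^ 7998, by omega, by omega, fun i a b => ?_⟩
      rw [← cc1_line, ← cc1_line]
      exact k i (by omega)
  have hW : M ^ 271 * (4 * M ^ 7000 + 1) ≤ M ^ 7998 + 1 := by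
    have a1 : 5 * M ^ 7271 ≤ M ^ 7998 := hp.mul_pow_leN (by norm_num) (by norm_num)
    have a2 : M ^ 7271 = M ^ 271 * M ^ 7000 := pow_add M 271 7000
    have a3 : 1 ≤ M ^ 7000 := Nat.one_le_pow _ _ hp.one_leN
    rw [a2] at a1
    generalize M ^ 7000 = q at *
    generalize M ^ 271 = n at *
    generalize M ^ 7998 = U at *
    nlinarith only [a3, a1]
  obtain ⟨α0, hα0, j1, t1, t2, t3⟩ := exists_top ((S.PB1 d).filter fun r => S.bt r = r)
    ⟨α, mem_filter.2 ⟨hα, hαα⟩⟩ (fun r => S.NP r / ‖zp d Dd τ - S.D.node r‖)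
    (fun r => ‖zp d Dd τ - S.D.node r‖⁻¹) (fun r _ => div_nonneg Nm_nonneg (norm_nonneg _))
    (fun r hr => inv_pos.2 (hfar r (mem_filter.1 hr).1).2) (j0 := j0)
    (((card_filter_le _ _).trans (card_filter_le _ _)).trans S.card_PB) hW
  simp only [cc1_line] at t3
  obtain ⟨a0, a0'⟩ := mem_filter.1 hα0
  have hM : M ≤ M ^ 7000 := Nat.le_self_pow (by norm_num) M
  have hi := h.top.hi
  obtain ⟨i, i1, i2, i3⟩ := atomB hp S.D S.B S.env_cardB (fun k hk => S.apos k (S.env_B.1 hk).1)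
    (fun _ hk => (S.env_B.1 hk).2.trans S.TB2) S.bt S.hbt S.node_ne (S.PB1 d) (filter_subset _ _)
    (PB1_sat d) (zp d Dd τ) (fun ν hν => (hfar ν hν).1) α0 a0 a0' j1 (M ^ 7000) le_rfl (by omega)
    (fun r hr hrr i a b => t3 r (mem_filter.2 ⟨hr, hrr⟩) i a b) (j1 + M ^ 7000) le_rfl (by omega)
  have hP' : PReg M ja d i Dd τ := ⟨by omega, by omega, hP.hD1, hP.hD2, hP.hτ⟩
  have c1 := probe_C2 h hP'
  have c2 := probe_Wb h hP'
  have c3 := probe_A h hP'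
  have c4 : Real.exp (-(M : ℝ) ^ 4) * (Real.exp ((M : ℝ) ^ 7) * N0 / Dd ^ (i + 1)) ≤
      ‖S.D.poles (S.PB1 d) i (zp d Dd τ)‖ :=
    (mul_le_mul_of_nonneg_left ((k3 i (by omega) (by omega)).le.trans
      (t3 α (mem_filter.2 ⟨hα, hαα⟩) i (by omega) (by omega))) (Real.exp_pos _).le).trans i3
  refine ⟨i, zp d Dd τ, hP'.hj1, hP'.hj2, z1, ?_⟩
  have hB : 0 ≤ N0 / Dd ^ (i + 1) := div_nonneg h.pos.le (pow_pos D0 _).le
  have c5 : Real.exp (-(M : ℝ) ^ 6) * N0 / d ^ (i + 1) ≤ Real.exp 0 * (N0 / Dd ^ (i + 1)) := by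
    rw [mul_div_assoc]
    exact mul_le_mul (Real.exp_le_exp.2 (neg_nonpos.2 (hp.pow_pos 6).le))
      (div_le_div_of_nonneg_left h.pos.le (pow_pos D0 _) (pow_le_pow_left₀ D0.le D1 _))
      (div_nonneg h.pos.le (pow_pos hd _).le) (Real.exp_pos _).le
  rw [mul_div_assoc] at c1 c2 c3 c4
  rw [← mul_assoc, ← Real.exp_add] at c4
  have n1 : (M : ℝ) ^ 1 ≤ (M : ℝ) ^ 6 := hp.pow_mono (by norm_num)
  have n2 : (M : ℝ) ^ 4 ≤ (M : ℝ) ^ 6 := hp.pow_mono (by norm_num)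
  have n3 : 8 * (M : ℝ) ^ 6 ≤ (M : ℝ) ^ 7 := hp.mul_pow_le (by norm_num) (by norm_num)
  have n4 := hp.one_le
  have n5 := hp.pow_pos 8
  rw [pow_one] at n1
  have mono : ∀ {a X : ℝ}, a ≤ Real.exp X * (N0 / Dd ^ (i + 1)) → X ≤ 3 * (M : ℝ) ^ 6 →
      a ≤ Real.exp (3 * (M : ℝ) ^ 6) * (N0 / Dd ^ (i + 1)) := fun a b =>
    a.trans (mul_le_mul_of_nonneg_right (Real.exp_le_exp.2 b) hB)
  have c6 := (cc1_sum4 (Y := -(M : ℝ) ^ 4 + (M : ℝ) ^ 7) hB (mono c1 (by linarith only [n1, n4, n5]))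
    (mono c2 (by linarith only [n1, n4])) c3 (mono c5 (by linarith only [n1, n4])) (by linarith only [n1, n2, n3, n4])).trans c4
  have e : S.D.poles (S.PB1 d) i (zp d Dd τ) = S.F1 d i (zp d Dd τ) -
      (S.D.lat (S.C2 d) i (zp d Dd τ) + S.D.lat (S.Wb d) i (zp d Dd τ) +
        S.D.exps (S.PA1 d) S.D.cf i (zp d Dd τ)) := by
    rw [F1, lat_C1 hd]
    abel
  rw [e] at c6
  have c7 := c6.trans ((norm_sub_le _ _).trans (add_le_add le_rfl norm_add₃_le))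
  linarith only [c7]

end Setup

end Pool.Agent.Work.MP_97f157_lc.Tau
end
end
end

-- merged part: Pool.Agent.Work.MP_97f157_lc.TauCaseA
section
/-! The cases where an exponential atom or a pole atom dominates. -/

noncomputable section
open Complex Finset Metric

namespace Pool.Agent.Work.MP_97f157_lc.Tau

variable {ι : Type*} {m M : ℕ}

theorem caseA_up {x c : ℝ} (hx : 0 ≤ x) (hc : 0 ≤ c) (n k : ℕ)
    (h : ∀ i < k, (n : ℝ) + i + 1 ≤ c * x) :
    x ^ n / n.factorial ≤ c ^ k * (x ^ (n + k) / (n + k).factorial) := by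
  induction k with
  | zero => simp
  | succ k ih =>
    refine (ih fun i hi => h i (by omega)).trans ?_
    have h1 := h k (by omega)
    have hf : (0 : ℝ) < (n + k).factorial := by exact_mod_cast (n + k).factorial_pos
    have hp : (0 : ℝ) < (n : ℝ) + k + 1 := by positivity
    have e : c ^ (k + 1) * (x ^ (n + (k + 1)) / (n + (k + 1)).factorial) =
        c ^ k * (x ^ (n + k) / (n + k).factorial) * (c * x / ((n : ℝ) + k + 1)) := by
      rw [← add_assoc, Nat.factorial_succ]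
      push_cast
      field_simp
      ring
    rw [e]
    exact le_mul_of_one_le_right (by positivity) ((one_le_div hp).2 h1)

theorem caseA_down {x c : ℝ} (hx : 0 ≤ x) (hc : 0 ≤ c) (n k : ℕ)
    (h : ∀ i < k, x ≤ c * ((n : ℝ) + i + 1)) :
    x ^ (n + k) / (n + k).factorial ≤ c ^ k * (x ^ n / n.factorial) := by
  induction k with
  | zero => simp
  | succ k ih =>
    have h0 := ih fun i hi => h i (by omega)
    have h1 := h k (by omega)
    have hf : (0 : ℝ) < (n + k).factorial := by exact_mod_cast (n + k).factorial_pos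
    have hp : (0 : ℝ) < (n : ℝ) + k + 1 := by positivity
    have e : x ^ (n + (k + 1)) / (n + (k + 1)).factorial =
        x ^ (n + k) / (n + k).factorial * (x / ((n : ℝ) + k + 1)) := by
      rw [← add_assoc, Nat.factorial_succ]
      push_cast
      field_simp
      ring
    rw [e, pow_succ c k, mul_right_comm]
    exact mul_le_mul h0 ((div_le_iff₀ hp).2 h1) (by positivity) (by positivity)

theorem caseA_exp_pow {t : ℝ} (ht : 0 ≤ t) {k H : ℕ} (hk : k ≤ H) :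
    Real.exp (-(H * t)) * Real.exp t ^ k ≤ 1 := by
  rw [← Real.exp_nat_mul, ← Real.exp_add, Real.exp_le_one_iff]
  have : (k : ℝ) ≤ H := by exact_mod_cast hk
  nlinarith

/-- Poisson-type sizes `f j = x^j / j!` (here `x = |μ| d`) are log-concave: on one side of `j1`
they stay `≥ exp (-(j - j1)²/J0) f j1` -/
theorem pois_side (x : ℝ) (hx : 0 ≤ x) (j1 H J0 : ℕ) (hJ0 : 1 ≤ J0) (hH : J0 + H ≤ j1) :
    (∀ j, j1 ≤ j → j ≤ j1 + H →
        Real.exp (-((H : ℝ) ^ 2 / J0)) * (x ^ j1 / j1.factorial) ≤ x ^ j / j.factorial) ∨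
      (∀ j, j1 - H ≤ j → j ≤ j1 →
        Real.exp (-((H : ℝ) ^ 2 / J0)) * (x ^ j1 / j1.factorial) ≤ x ^ j / j.factorial) := by
  have hJ : (0 : ℝ) < J0 := by exact_mod_cast hJ0
  have hH' : (J0 : ℝ) + H ≤ j1 := by exact_mod_cast hH
  have hH0 : (0 : ℝ) ≤ H := by positivity
  set t : ℝ := H / J0 with ht
  have ht0 : 0 ≤ t := by positivity
  have htJ : t * J0 = H := by rw [ht]; field_simp
  have hsq : (H : ℝ) ^ 2 / J0 = H * t := by rw [ht]; ring
  have hc : 1 + t ≤ Real.exp t := by linarith [Real.add_one_le_exp t]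
  have fin : ∀ {A B : ℝ} {k : ℕ}, k ≤ H → 0 ≤ B → A ≤ Real.exp t ^ k * B →
      Real.exp (-(H * t)) * A ≤ B := fun {A B k} hk hB h =>
    calc Real.exp (-(H * t)) * A ≤ Real.exp (-(H * t)) * (Real.exp t ^ k * B) :=
          mul_le_mul_of_nonneg_left h (Real.exp_pos _).le
      _ = Real.exp (-(H * t)) * Real.exp t ^ k * B := by ring
      _ ≤ B := mul_le_of_le_one_left hB (caseA_exp_pow ht0 hk)
  rw [hsq]
  rcases le_total (j1 : ℝ) x with h | h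
  · refine Or.inl fun j h1 h2 => ?_
    obtain ⟨k, rfl⟩ := Nat.exists_eq_add_of_le h1
    refine fin (k := k) (by omega) (by positivity)
      (caseA_up hx (Real.exp_pos t).le j1 k fun i hi => ?_)
    have hi' : (i : ℝ) + 1 ≤ H := by exact_mod_cast (by omega : i + 1 ≤ H)
    calc (j1 : ℝ) + i + 1 ≤ (1 + t) * j1 := by nlinarith only [hH', htJ, hi']
      _ ≤ Real.exp t * x := mul_le_mul hc h (by positivity) (Real.exp_pos t).le
  · refine Or.inr fun j h1 h2 => ?_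
    obtain ⟨k, rfl⟩ := Nat.exists_eq_add_of_le h2
    refine fin (k := k) (by omega) (by positivity)
      (caseA_down hx (Real.exp_pos t).le j k fun i hi => ?_)
    have hk : (k : ℝ) ≤ H := by exact_mod_cast (by omega : k ≤ H)
    have hj : (J0 : ℝ) ≤ j := by exact_mod_cast (by omega : J0 ≤ j)
    have hi0 : (0 : ℝ) ≤ i := by positivity
    push_cast at h
    calc x ≤ (1 + t) * ((j : ℝ) + i + 1) := by nlinarith only [hJ, ht0, htJ, hk, hj, h]
      _ ≤ Real.exp t * ((j : ℝ) + i + 1) := mul_le_mul_of_nonneg_right hc (by positivity)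

/-- away from its peak a Poisson-type size gains a Gaussian factor by moving `Δ` towards the peak -/
theorem pois_gain (x : ℝ) (hx : 0 ≤ x) (j Δ J1 : ℕ) (hΔ : Δ ≤ j) (hJ1 : j + 2 * Δ ≤ J1) (hJ : 1 ≤ J1)
    (h : 2 * (Δ : ℝ) ≤ |(j : ℝ) - x|) :
    ∃ j', j - Δ ≤ j' ∧ j' ≤ j + Δ ∧
      x ^ j / j.factorial ≤ Real.exp (-((Δ : ℝ) ^ 2 / J1)) * (x ^ j' / j'.factorial) := by
  have hJ' : (0 : ℝ) < J1 := by exact_mod_cast hJ
  have hJ1' : (j : ℝ) + 2 * Δ ≤ J1 := by exact_mod_cast hJ1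
  have hΔ0 : (0 : ℝ) ≤ Δ := by positivity
  have hj0 : (0 : ℝ) ≤ j := by positivity
  set t : ℝ := Δ / J1 with ht
  have ht0 : 0 ≤ t := by positivity
  have htJ : t * J1 = Δ := by rw [ht]; field_simp
  have ht1 : t ≤ 1 := by rw [ht, div_le_one hJ']; linarith
  have hsq : Real.exp (-((Δ : ℝ) ^ 2 / J1)) = Real.exp (-t) ^ Δ := by
    rw [← Real.exp_nat_mul, ht]; congr 1; ring
  have hc : 1 - t ≤ Real.exp (-t) := by linarith [Real.add_one_le_exp (-t)]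
  rw [hsq]
  rcases le_abs'.1 h with h | h
  · refine ⟨j + Δ, by omega, le_rfl, caseA_up hx (Real.exp_pos _).le j Δ fun i hi => ?_⟩
    have hi' : (i : ℝ) + 1 ≤ Δ := by exact_mod_cast (by omega : i + 1 ≤ Δ)
    calc (j : ℝ) + i + 1 ≤ (1 - t) * (j + 2 * Δ) := by nlinarith only [hJ', hJ1', htJ, hi']
      _ ≤ Real.exp (-t) * x := mul_le_mul hc (by linarith) (by positivity) (Real.exp_pos _).le
  · obtain ⟨n, rfl⟩ := Nat.exists_eq_add_of_le' hΔ
    refine ⟨n, by omega, by omega, caseA_down hx (Real.exp_pos _).le n Δ fun i hi => ?_⟩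
    have hi' : (i : ℝ) + 1 ≤ Δ := by exact_mod_cast (by omega : i + 1 ≤ Δ)
    have hi0 : (0 : ℝ) ≤ i := by positivity
    have hn0 : (0 : ℝ) ≤ n := by positivity
    push_cast at h hJ1'
    calc x ≤ (1 - t) * ((n : ℝ) + i + 1) := by nlinarith only [hx, htJ, hi', h, hJ1']
      _ ≤ Real.exp (-t) * ((n : ℝ) + i + 1) := mul_le_mul_of_nonneg_right hc (by positivity)

/-- the size of an exponential atom relative to the line `d^{-(j+1)}` -/
theorem caseA_scale {A μ d : ℝ} (hd : 0 < d) (j : ℕ) :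
    A * μ ^ j / j.factorial = A * d * ((μ * d) ^ j / j.factorial) / d ^ (j + 1) := by
  rw [mul_pow]
  field_simp
  ring

theorem caseA_exp_le (hp : Par m M) {a b : ℝ} (h : a + M ≤ b) :
    12 * Real.exp a ≤ Real.exp b := by
  have h1 : (M : ℝ) ≤ Real.exp M := by simpa using hp.pow_le_exp (k := 1) (by norm_num)
  have h2 : (12 : ℝ) ≤ M := le_trans (by norm_num) hp.bigR
  calc 12 * Real.exp a ≤ Real.exp M * Real.exp a :=
        mul_le_mul_of_nonneg_right (h2.trans h1) (Real.exp_pos a).le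
    _ = Real.exp (a + M) := by rw [Real.exp_add, mul_comm]
    _ ≤ Real.exp b := Real.exp_le_exp.2 h

namespace Setup
variable (S : Setup ι m M)

theorem caseA_Lo_sub : S.Lo ⊆ S.PA := Finset.filter_subset _ _

theorem caseA_card_PA : S.PA.card ≤ M ^ 264 := by
  have := S.toPre.card_PA
  omega

/-- `Lop l bc` is of the size of the line -/
theorem caseA_bc (l : List ℝ) (hl : S.Adm l) (N d : ℝ) (hN : 0 ≤ N) (hd : 16 * S.ρ ≤ d) (j : ℕ)
    (hj1 : M ^ 8000 ≤ j) (hj2 : j + M ^ 265 ≤ 2 * M ^ 8000)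
    (hBC : ∀ i, j ≤ i → i ≤ j + M ^ 265 → S.EC i (N / d ^ (i + 1)) ∧ S.EB i (N / d ^ (i + 1))) :
    ‖Lop l S.bc j 0‖ ≤ 6 * Real.exp M * (N / d ^ (j + 1)) := by
  have hp := S.par
  have hρ := S.ρpos
  have hd0 : 0 < d := by linarith
  have hT := S.Tc1
  have hT0 : 0 < S.Tc := lt_of_lt_of_le (hp.pow_pos _) hT
  have hlen := hl.1
  have hx : ∀ i ≤ l.length, ‖S.bc (j + i) 0‖ * d ^ i ≤ 3 * Real.exp M * (N / d ^ (j + 1)) := by
    intro i hi
    obtain ⟨h1, h2⟩ := hBC (j + i) (by omega) (by omega)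
    have h3 := S.bc_zero (j := j + i) (by omega) (by omega) (by positivity) h1 h2
    calc ‖S.bc (j + i) 0‖ * d ^ i ≤ 3 * Real.exp M * (N / d ^ (j + i + 1)) * d ^ i :=
          mul_le_mul_of_nonneg_right h3 (by positivity)
      _ = 3 * Real.exp M * (N / d ^ (j + 1)) := by
          field_simp
          ring
  have h := LL_near l (fun i => S.bc i 0) j d _ (S.Tc / S.ρ) hd0 (by positivity)
    (fun μ hμ => by
      rw [div_le_iff₀ hρ]
      refine le_trans ?_ (hl.2 μ hμ)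
      exact le_mul_of_one_le_right hT0.le (le_add_of_nonneg_right (inv_pos.2 (hp.pow_pos _)).le))
    (by
      have a1 : (l.length : ℝ) ≤ (M : ℝ) ^ 265 := by exact_mod_cast hlen
      have a2 : (j : ℝ) + l.length ≤ 2 * (M : ℝ) ^ 8000 := by
        exact_mod_cast (by omega : j + l.length ≤ 2 * M ^ 8000)
      have a3 : 8 * (M : ℝ) ^ 8265 ≤ (M : ℝ) ^ 8540 := hp.mul_pow_le (by norm_num) (by norm_num)
      have a4 : S.Tc ≤ S.Tc / S.ρ * d := by
        rw [div_mul_eq_mul_div, le_div_iff₀ hρ]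
        exact mul_le_mul_of_nonneg_left (by linarith) hT0.le
      have a5 : (M : ℝ) ^ 8265 = (M : ℝ) ^ 265 * (M : ℝ) ^ 8000 := by rw [← pow_add]
      have a6 : 4 * (l.length : ℝ) * ((j : ℝ) + l.length) ≤
          4 * (M : ℝ) ^ 265 * (2 * (M : ℝ) ^ 8000) :=
        mul_le_mul (by linarith) a2 (by positivity) (by have := hp.pow_pos 265; linarith)
      calc 4 * (l.length : ℝ) * ((j : ℝ) + l.length)
          ≤ 4 * (M : ℝ) ^ 265 * (2 * (M : ℝ) ^ 8000) := a6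
        _ = 8 * (M : ℝ) ^ 8265 := by
            rw [a5]
            generalize (M : ℝ) ^ 265 = A
            generalize (M : ℝ) ^ 8000 = B
            ring
        _ ≤ S.Tc / S.ρ * d := a3.trans (hT.trans a4)) hx
  have h0 := hx 0 (Nat.zero_le _)
  rw [add_zero, pow_zero, mul_one] at h0
  have h1 : ‖Lop l S.bc j 0‖ ≤ ‖LL l (fun i => S.bc i 0) j - S.bc j 0‖ + ‖S.bc j 0‖ :=
    norm_le_norm_sub_add _ _
  have h2 : 0 ≤ 3 * Real.exp M * (N / d ^ (j + 1)) := by positivity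
  linarith only [h, h0, h1, h2]

theorem caseA_split (l : List ℝ) (j : ℕ) :
    Lop l S.lo j 0 = Lop l S.bc j 0 + S.D.exps S.Lo (S.D.cfL l) j 0 := by
  rw [← Dat.Lop_exps]
  exact LL_add l (fun i => S.bc i 0) (fun i => S.D.exps S.Lo S.D.cf i 0) j

/-- `pois_side` with `H = M^4002`, `J0 = M^8000 / 2`-ish gives a window on which the atom `α`
exceeds `exp (M^6/2)` times the line; `exists_top` among the low atoms (lines
`NA (cfL l) α * |freq α|^j`) gives a piece of length `4 M^3700`; `atomA` with `Q = Lo`, `g = cfL l`;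
`Lop l lo = Lop l bc + exps Lo (cfL l)` (`Dat.Lop_exps`), `‖Lop l bc j 0‖ ≤ 2 * 3 exp M * line`
(`LL_near` with `w = d`, `bc_zero`).  Envelope `E = exp (M^266) * top` (`unmod_le`). -/
theorem caseA (l : List ℝ) (hl : S.Adm l) (N d : ℝ) (hN : 0 ≤ N) (hd : 16 * S.ρ ≤ d) (j1 : ℕ)
    (hj1 : M ^ 8000 + M ^ 4003 ≤ j1) (hj2 : j1 + M ^ 4003 ≤ 2 * M ^ 8000)
    (hBC : ∀ j, j1 ≤ j + M ^ 4003 → j ≤ j1 + M ^ 4003 →
      S.EC j (N / d ^ (j + 1)) ∧ S.EB j (N / d ^ (j + 1)))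
    (hA : ¬ S.EA (S.D.cfL l) j1 (Real.exp ((M : ℝ) ^ 6) * N / d ^ (j1 + 1))) : S.Good l := by
  classical
  have hp := S.par
  have hρ := S.ρpos
  have hd0 : 0 < d := by linarith
  have hM := hp.pos
  unfold EA at hA
  push Not at hA
  obtain ⟨α, hα, hαα, hA⟩ := hA
  have hNA : ∀ β, 0 ≤ S.NA (S.D.cfL l) β := fun β => Nm_nonneg
  have n1 : 2 * M ^ 4002 ≤ M ^ 4003 := hp.mul_pow_leN (by norm_num) (by norm_num)
  have n2 : M ^ 265 ≤ M ^ 4002 := hp.pow_monoN (by norm_num)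
  have n3 : M ≤ M ^ 3700 := by simpa using hp.pow_monoN (i := 1) (k := 3700) (by norm_num)
  have n4 : M ^ 264 * (4 * M ^ 3700 + 1) ≤ M ^ 4002 + 1 := by
    have b1 : 5 * M ^ 3964 ≤ M ^ 4002 := hp.mul_pow_leN (by norm_num) (by norm_num)
    have b2 : M ^ 3964 = M ^ 264 * M ^ 3700 := by rw [← pow_add]
    have b3 : M ^ 264 * (4 * M ^ 3700 + 1) ≤ M ^ 264 * (5 * M ^ 3700) :=
      Nat.mul_le_mul_left _ (by have := hp.one_leN; omega)
    have b4 : M ^ 264 * (5 * M ^ 3700) = 5 * M ^ 3964 := by rw [b2, Nat.mul_left_comm]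
    omega
  have n5 : 1 ≤ M ^ 8000 := by simpa using hp.pow_monoN (i := 0) (k := 8000) (by norm_num)
  -- the window on which the atom `α` is large
  obtain ⟨a, ha1, ha2, hwin⟩ : ∃ a, j1 ≤ a + M ^ 4002 ∧ a ≤ j1 ∧ ∀ j, a ≤ j → j ≤ a + M ^ 4002 →
      Real.exp ((M : ℝ) ^ 6 - (M : ℝ) ^ 4) * (N / d ^ (j + 1)) ≤
        S.NA (S.D.cfL l) α * |S.D.freq α| ^ j / j.factorial := by
    have e : (((M ^ 4002 : ℕ) : ℝ)) ^ 2 / ((M ^ 8000 : ℕ) : ℝ) = (M : ℝ) ^ 4 := by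
      rw [Nat.cast_pow, Nat.cast_pow, ← pow_mul, div_eq_iff (hp.pow_pos _).ne', ← pow_add]
    have key : ∀ j : ℕ, Real.exp (-(M : ℝ) ^ 4) * ((|S.D.freq α| * d) ^ j1 / j1.factorial) ≤
        (|S.D.freq α| * d) ^ j / j.factorial →
        Real.exp ((M : ℝ) ^ 6 - (M : ℝ) ^ 4) * (N / d ^ (j + 1)) ≤
          S.NA (S.D.cfL l) α * |S.D.freq α| ^ j / j.factorial := by
      intro j h
      rw [caseA_scale hd0, div_lt_div_iff_of_pos_right (by positivity)] at hA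
      rw [caseA_scale hd0, ← mul_div_assoc, div_le_div_iff_of_pos_right (by positivity)]
      have h1 := mul_le_mul_of_nonneg_left h (mul_nonneg (hNA α) hd0.le)
      have h2 := mul_le_mul_of_nonneg_left hA.le (Real.exp_pos (-(M : ℝ) ^ 4)).le
      rw [sub_eq_neg_add, Real.exp_add, mul_assoc]
      refine h2.trans (le_trans (le_of_eq ?_) h1)
      ring
    have hs := pois_side (|S.D.freq α| * d) (by positivity) j1 (M ^ 4002) (M ^ 8000) n5 (by omega)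
    rw [e] at hs
    rcases hs with hs | hs
    · exact ⟨j1, by omega, le_rfl, fun j h1 h2 => key j (hs j h1 h2)⟩
    · exact ⟨j1 - M ^ 4002, by omega, by omega, fun j h1 h2 => key j (hs j h1 (by omega))⟩
  -- the top atom
  obtain ⟨r, hr, j2, hj3, hj4, htop⟩ := exists_top (S.Lo.filter fun β => S.at' β = β)
    ⟨α, Finset.mem_filter.2 ⟨hα, hαα⟩⟩ (S.NA (S.D.cfL l)) (fun β => |S.D.freq β|)
    (fun β _ => hNA β)
    (fun β hβ => abs_pos.2 (S.toPre.freq_ne β (S.caseA_Lo_sub (Finset.mem_filter.1 hβ).1)))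
    (n := M ^ 264) (H := 4 * M ^ 3700) (j0 := a) (W := M ^ 4002)
    ((Finset.card_le_card ((Finset.filter_subset _ _).trans S.caseA_Lo_sub)).trans S.caseA_card_PA)
    n4
  obtain ⟨hr1, hr2⟩ := Finset.mem_filter.1 hr
  obtain ⟨j, hj5, hj6, hlow⟩ := atomA hp S.D S.A
    ((Finset.card_le_card (Finset.filter_subset _ _)).trans S.card)
    (fun k hk => S.apos k (Finset.mem_filter.1 hk).1) S.at' S.hat S.Lo S.caseA_Lo_sub S.Lo_sat
    (S.D.cfL l) r hr1 hr2 j2 (by omega)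
    (fun β hβ hβ' => htop β (Finset.mem_filter.2 ⟨hβ, hβ'⟩)) (j2 + M ^ 3700) le_rfl (by omega)
  change Real.exp (-(M : ℝ) ^ 4) * (S.NA (S.D.cfL l) r * |S.D.freq r| ^ j / j.factorial) ≤ _ at hlow
  set T : ℝ := S.NA (S.D.cfL l) r * |S.D.freq r| ^ j / j.factorial with hT
  have hT0 : 0 ≤ T := div_nonneg (mul_nonneg (hNA r) (by positivity)) (by positivity)
  have htopj : ∀ β ∈ S.Lo, S.at' β = β →
      S.NA (S.D.cfL l) β * |S.D.freq β| ^ j / j.factorial ≤ T := fun β hβ hβ' =>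
    div_le_div_of_nonneg_right (htop β (Finset.mem_filter.2 ⟨hβ, hβ'⟩) j (by omega) (by omega))
      (by positivity)
  have hline : Real.exp ((M : ℝ) ^ 6 - (M : ℝ) ^ 4) * (N / d ^ (j + 1)) ≤ T :=
    (hwin j (by omega) (by omega)).trans (htopj α hα hαα)
  have hL0 : 0 ≤ N / d ^ (j + 1) := by positivity
  have r1 : 4 * (M : ℝ) ^ 4 ≤ (M : ℝ) ^ 6 := hp.mul_pow_le (by norm_num) (by norm_num)
  have r2 : (M : ℝ) ≤ (M : ℝ) ^ 4 := by simpa using hp.pow_mono (i := 1) (k := 4) (by norm_num)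
  have r3 : (M : ℝ) ^ 4 ≤ (M : ℝ) ^ 266 := hp.pow_mono (by norm_num)
  have r4 : 3 * (M : ℝ) ^ 266 ≤ (M : ℝ) ^ 8000 := hp.mul_pow_le (by norm_num) (by norm_num)
  have hE : T ≤ Real.exp ((M : ℝ) ^ 266) * T :=
    le_mul_of_one_le_left hT0 (Real.one_le_exp (hp.pow_pos _).le)
  have hLT : N / d ^ (j + 1) ≤ Real.exp ((M : ℝ) ^ 266) * T :=
    (le_mul_of_one_le_left hL0 (Real.one_le_exp (by linarith only [hM, r1, r2]))).trans (hline.trans hE)
  obtain ⟨hC, hB⟩ := hBC j (by omega) (by omega)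
  refine ⟨j, by omega, by omega, Real.exp ((M : ℝ) ^ 266) * T,
    ⟨by positivity, EC.mono S hC hLT, EB.mono S hB hLT, fun β hβ hβ' => ?_⟩, ?_⟩
  · refine le_trans ?_ (mul_le_mul_of_nonneg_left (htopj β hβ hβ') (Real.exp_pos _).le)
    rw [← mul_div_assoc, ← mul_assoc]
    exact div_le_div_of_nonneg_right
      (mul_le_mul_of_nonneg_right (S.unmod_le l hl β hβ hβ') (by positivity)) (by positivity)
  · have hbc := S.caseA_bc l hl N d hN hd j (by omega) (by omega)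
      fun i h1 h2 => hBC i (by omega) (by omega)
    have t1 : ‖S.D.exps S.Lo (S.D.cfL l) j 0‖ ≤ ‖Lop l S.lo j 0‖ + ‖Lop l S.bc j 0‖ := by
      rw [S.caseA_split, add_comm (Lop l S.bc j 0)]
      exact norm_le_add_norm_add _ _
    have t2 : 12 * Real.exp M * (N / d ^ (j + 1)) ≤ Real.exp (-(M : ℝ) ^ 4) * T := by
      refine le_trans ?_ (mul_le_mul_of_nonneg_left hline (Real.exp_pos _).le)
      rw [← mul_assoc, ← Real.exp_add]
      exact mul_le_mul_of_nonneg_right (caseA_exp_le hp (by linarith only [r1, r2])) hL0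
    have t3 : 12 * (Real.exp (-(M : ℝ) ^ 8000) * (Real.exp ((M : ℝ) ^ 266) * T)) ≤
        Real.exp (-(M : ℝ) ^ 4) * T := by
      rw [← mul_assoc (Real.exp _), ← Real.exp_add, ← mul_assoc]
      exact mul_le_mul_of_nonneg_right (caseA_exp_le hp (by linarith only [r2, r3, r4])) hT0
    have t4 : 0 ≤ Real.exp (-(M : ℝ) ^ 8000) * (Real.exp ((M : ℝ) ^ 266) * T) := by positivity
    linarith only [hlow, hbc, t1, t2, t3, t4]

/-- `V = M^7700`.  `unmod_window` on `[j1+2V, j1+5V]`; `exists_free_window` gives a window of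
length `M^270` inside `[j1+3V, j1+4V]` at distance `≥ 2 M^4005` from all `|freq α| d`
(`d = ‖node α0‖`), where `pois_gain` makes the low atoms `≤ exp (-M^8)` times the line;
`atomB` with `Q = PB`, `z = 0`, `q = 2V`; subtract `latC_zero`, `tailB_zero`, `expsLo_zero`;
finish with `good_of_lo`. -/
theorem caseB (l : List ℝ) (hl : S.Adm l) (α0 : ι × ℤ) (hα0 : α0 ∈ S.PB) (hα0' : S.bt α0 = α0)
    (j1 : ℕ) (hj1 : M ^ 8000 ≤ j1) (hj2 : j1 + 8 * M ^ 7700 ≤ 2 * M ^ 8000)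
    (hB : ∀ j, j1 ≤ j → j ≤ j1 + 8 * M ^ 7700 → S.EB j (S.NP α0 / ‖S.D.node α0‖ ^ (j + 1)))
    (hC : ∀ j, j1 ≤ j → j ≤ j1 + 8 * M ^ 7700 →
      S.EC j (Real.exp (-(M : ℝ) ^ 5) * (S.NP α0 / ‖S.D.node α0‖ ^ (j + 1))))
    (hA : ∀ j, j1 + 2 * M ^ 7700 ≤ j → j ≤ j1 + 6 * M ^ 7700 →
      S.EA (S.D.cfL l) j (Real.exp ((M : ℝ) ^ 6) * S.NP α0 / ‖S.D.node α0‖ ^ (j + 1))) :
    S.Good l := by
  classical
  have hp := S.par
  have hρ := S.ρpos
  have hM := hp.pos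
  have hd : 32 * S.ρ ≤ ‖S.D.node α0‖ := S.toPre.node_PB α0 hα0
  have hN : 0 ≤ S.NP α0 := Nm_nonneg
  have hatom := atomB hp S.D S.B ((Finset.card_le_card (Finset.filter_subset _ _)).trans S.card)
    (fun k hk => S.apos k (Finset.mem_filter.1 hk).1)
    (fun k hk => (Finset.mem_filter.1 hk).2.trans S.TB2) S.bt S.hbt S.toPre.node_ne S.PB
    (Finset.Subset.refl _) (fun ν hν => ⟨fun _ => S.hbt.mem ν hν, fun _ => hν⟩) 0
    (fun ν _ => by simp) α0 hα0 hα0' j1 (2 * M ^ 7700)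
    (by have := hp.pow_monoN (i := 7000) (k := 7700) (by norm_num); omega) (by omega)
    (fun α hα hα' j h1 h2 => by
      simp only [zero_sub, norm_neg]
      exact hB j h1 (by omega) α hα hα')
  simp only [zero_sub, norm_neg] at hatom
  change ∀ j0, _ → _ → ∃ j, _ ∧ _ ∧ Real.exp (-(M : ℝ) ^ 4) *
    (S.NP α0 / ‖S.D.node α0‖ ^ (j + 1)) ≤ _ at hatom
  generalize ‖S.D.node α0‖ = d at *
  generalize S.NP α0 = N at *
  have hd0 : 0 < d := by linarith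
  have n1 : M ^ 267 ≤ M ^ 7700 := hp.pow_monoN (by norm_num)
  have n2 : 2 * M ^ 7000 ≤ M ^ 7700 := hp.mul_pow_leN (by norm_num) (by norm_num)
  have n3 : 2 * M ^ 4005 ≤ M ^ 7000 := hp.mul_pow_leN (by norm_num) (by norm_num)
  have n4 : M ^ 270 ≤ M ^ 4005 := hp.pow_monoN (by norm_num)
  have n5 : 3 * M ^ 265 ≤ M ^ 270 := hp.mul_pow_leN (by norm_num) (by norm_num)
  have n6 : M ^ 5 ≤ M ^ 265 := hp.pow_monoN (by norm_num)
  have n7 : M ≤ M ^ 5 := by simpa using hp.pow_monoN (i := 1) (k := 5) (by norm_num)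
  have n8 := hp.one_leN
  have r1 : (M : ℝ) ≤ (M : ℝ) ^ 4 := by simpa using hp.pow_mono (i := 1) (k := 4) (by norm_num)
  have r2 : 8 * (M : ℝ) ^ 4 ≤ (M : ℝ) ^ 5 := hp.mul_pow_le (by norm_num) (by norm_num)
  have r3 : (M : ℝ) ^ 5 ≤ (M : ℝ) ^ 6 := hp.pow_mono (by norm_num)
  have r4 : (M : ℝ) ^ 6 ≤ (M : ℝ) ^ 8 := hp.pow_mono (by norm_num)
  have r5 : 6 * (M : ℝ) ^ 8 ≤ (M : ℝ) ^ 10 := hp.mul_pow_le (by norm_num) (by norm_num)
  have r6 : (M : ℝ) ^ 8 ≤ (M : ℝ) ^ 8000 := hp.pow_mono (by norm_num)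
  have hA' := S.unmod_window l hl d (Real.exp ((M : ℝ) ^ 6) * N) (by linarith) (by positivity)
    (j1 + 2 * M ^ 7700) (j1 + 5 * M ^ 7700) (by omega) fun j h1 h2 => hA j h1 (by omega)
  obtain ⟨j3, hj3, hj4, hfree⟩ := exists_free_window (S.PA.image fun α => |S.D.freq α| * d)
    (2 * (M : ℝ) ^ 4005) (by positivity) (j1 + 3 * M ^ 7700) (M ^ 7000) (M ^ 270) (by
      have a1 : (((S.PA.image fun α => |S.D.freq α| * d).card : ℕ) : ℝ) ≤ (M : ℝ) ^ 264 := by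
        exact_mod_cast Finset.card_image_le.trans S.caseA_card_PA
      have a2 : (M : ℝ) ^ 270 ≤ (M : ℝ) ^ 4005 := hp.pow_mono (by norm_num)
      have a3 : (1 : ℝ) ≤ (M : ℝ) ^ 4005 := one_le_pow₀ hp.one_le
      have a4 : 7 * (M : ℝ) ^ 4269 ≤ (M : ℝ) ^ 7000 := hp.mul_pow_le (by norm_num) (by norm_num)
      have a5 : (M : ℝ) ^ 4269 = (M : ℝ) ^ 264 * (M : ℝ) ^ 4005 := by rw [← pow_add]
      have a6 := hp.pow_pos 4269
      rw [Nat.cast_pow, Nat.cast_pow]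
      calc _ ≤ (M : ℝ) ^ 264 * (6 * (M : ℝ) ^ 4005) :=
            mul_le_mul a1 (by linarith only [a2, a3]) (by positivity) (by positivity)
        _ = 6 * (M : ℝ) ^ 4269 := by rw [a5, mul_left_comm]
        _ < (M : ℝ) ^ 7000 := by linarith only [a4, a6])
  -- on the free window the low atoms are tiny
  have hsmall : ∀ j, j3 ≤ j → j ≤ j3 + M ^ 270 →
      S.EA S.D.cf j (Real.exp (-(M : ℝ) ^ 8) * (N / d ^ (j + 1))) := by
    intro j h1 h2 α hα hα'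
    have hNA : 0 ≤ S.NA S.D.cf α := Nm_nonneg
    obtain ⟨j', h3, h4, h5⟩ := pois_gain (|S.D.freq α| * d) (by positivity) j (M ^ 4005)
      (2 * M ^ 8000) (by omega) (by omega) (by omega) (by
        rw [Nat.cast_pow]
        exact hfree j h1 h2 _ (Finset.mem_image_of_mem _ (S.caseA_Lo_sub hα)))
    have e : (((M ^ 4005 : ℕ) : ℝ)) ^ 2 / ((2 * M ^ 8000 : ℕ) : ℝ) = (M : ℝ) ^ 10 / 2 := by
      rw [Nat.cast_mul, Nat.cast_pow, Nat.cast_pow, ← pow_mul, Nat.cast_ofNat,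
        div_eq_div_iff (mul_pos two_pos (hp.pow_pos _)).ne' two_ne_zero, mul_left_comm, ← pow_add,
        mul_comm]
    rw [e] at h5
    have h6 := hA' j' (by omega) (by omega) α hα hα'
    rw [caseA_scale hd0, div_le_div_iff_of_pos_right (by positivity)] at h6
    rw [caseA_scale hd0, ← mul_div_assoc (Real.exp _),
      div_le_div_iff_of_pos_right (by positivity)]
    have h7 := mul_le_mul_of_nonneg_left h5 (mul_nonneg hNA hd0.le)
    have h8 := mul_le_mul_of_nonneg_left h6 (Real.exp_pos (-((M : ℝ) ^ 10 / 2))).le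
    have h9 : 12 * Real.exp (-((M : ℝ) ^ 10 / 2) + (M : ℝ) ^ 6) ≤ Real.exp (-(M : ℝ) ^ 8) :=
      caseA_exp_le hp (by linarith only [hM, r1, r2, r3, r4, r5])
    have h10 := mul_le_mul_of_nonneg_right h9 hN
    have h11 : 0 ≤ Real.exp (-((M : ℝ) ^ 10 / 2) + (M : ℝ) ^ 6) * N := by positivity
    rw [mul_left_comm] at h7
    refine h7.trans (h8.trans ?_)
    rw [mul_left_comm, ← mul_assoc (Real.exp _), ← Real.exp_add]
    linarith only [h10, h11]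
  obtain ⟨j, hj5, hj6, hlow⟩ := hatom j3 (by omega) (by omega)
  refine S.good_of_lo l hl d N (2 * (M : ℝ) ^ 4) (by linarith only [hρ, hd]) hN j (M ^ 5) (by omega) (by omega)
    (by positivity) (by rw [Nat.cast_pow]; linarith only [r1, r2]) (fun i h1 h2 => ?_) ?_
  · have hL : 0 ≤ N / d ^ (i + 1) := by positivity
    refine ⟨hL, EC.mono S (hC i (by omega) (by omega)) ?_, hB i (by omega) (by omega),
      EA.mono S (hsmall i (by omega) (by omega)) ?_⟩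
    · exact mul_le_of_le_one_left hL (Real.exp_le_one_iff.2 (by linarith only [hM, r1, r2]))
    · exact mul_le_of_le_one_left hL (Real.exp_le_one_iff.2 (by linarith only [hM, r1, r2, r3, r4]))
  · have hL : 0 ≤ N / d ^ (j + 1) := by positivity
    have t1 := S.tailB_zero (j := j) (by omega) hL (hB j (by omega) (by omega))
    have t2 := S.latC_zero (j := j) (by omega) (by omega) (by positivity)
      (hC j (by omega) (by omega))
    have t3 := S.expsLo_zero S.D.cf (j := j) (by omega) (by positivity)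
      (hsmall j (by omega) (by omega))
    rw [← mul_assoc, ← Real.exp_add] at t2 t3
    have u1 := mul_le_mul_of_nonneg_right (caseA_exp_le hp (a := -(10 * (M : ℝ) ^ 8000))
      (b := -(M : ℝ) ^ 4) (by linarith only [hM, r1, r2, r3, r4, r6])) hL
    have u2 := mul_le_mul_of_nonneg_right (caseA_exp_le hp (a := M + -(M : ℝ) ^ 5)
      (b := -(M : ℝ) ^ 4) (by linarith only [hM, r1, r2])) hL
    have u3 := mul_le_mul_of_nonneg_right (caseA_exp_le hp (a := M + -(M : ℝ) ^ 8)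
      (b := -(M : ℝ) ^ 4) (by linarith only [hM, r1, r2, r3, r4])) hL
    have u4 := mul_le_mul_of_nonneg_right (caseA_exp_le hp (a := -(2 * (M : ℝ) ^ 4))
      (b := -(M : ℝ) ^ 4) (by linarith only [r1])) hL
    have e : S.D.poles S.PB j 0 = S.lo j 0 - (S.D.lat S.B j 0 - S.D.poles S.PB j 0) -
        S.D.lat S.C j 0 - S.D.exps S.Lo S.D.cf j 0 := by
      unfold lo bc
      ring
    have t4 : ‖S.D.poles S.PB j 0‖ ≤ ‖S.lo j 0‖ + ‖S.D.lat S.B j 0 - S.D.poles S.PB j 0‖ +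
        ‖S.D.lat S.C j 0‖ + ‖S.D.exps S.Lo S.D.cf j 0‖ := by
      conv_lhs => rw [e]
      exact (norm_sub_le _ _).trans (add_le_add ((norm_sub_le _ _).trans
        (add_le_add (norm_sub_le _ _) le_rfl)) le_rfl)
    have t5 : 0 ≤ Real.exp (-(M : ℝ) ^ 4) * (N / d ^ (j + 1)) := by positivity
    rw [mul_assoc] at u1 u2 u3 u4
    linarith only [hlow, t1, t2, t3, u1, u2, u3, u4, t4, t5]

end Setup

end Pool.Agent.Work.MP_97f157_lc.Tau
end
end
end
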