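import Mathlib
import Pool.Agent.Work.MP_97f157_lc.Binomials

set_option autoImplicit false

namespace Pool.Agent.Results.MP_97f157_lc.ToBinomials

/-- Reduction of the real tau-conjecture to binomials: a sum of `k` products of `m ≤ a * b` real
`t`-sparse polynomials is a sum of `k * 2 ^ a * (a * t ^ b + 1)` products of `a * t ^ b + 1`
real polynomials with at most two monomials. -/
theorem result :
    ∀ (k m t a b : ℕ), m ≤ a * b → 1 ≤ t →
      ∀ F : Fin k → Fin m → Polynomial ℝ, (∀ i j, (F i j).support.card ≤ t) →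
        ∃ G : Fin (k * 2 ^ a * (a * t ^ b + 1)) → Fin (a * t ^ b + 1) → Polynomial ℝ,
          (∀ i j, (G i j).support.card ≤ 2) ∧ ∑ i, ∏ j, G i j = ∑ i, ∏ j, F i j :=
  fun k m t a b hm ht F hF =>
    Pool.Agent.Work.MP_97f157_lc.binomial_form k m t a b hm ht F hF

end Pool.Agent.Results.MP_97f157_lc.ToBinomials
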