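import Mathlib
import Pool.Agent.Work.MP_97f157_lc.Chain

set_option autoImplicit false

open Polynomial Finset Filter Topology
open scoped ComplexConjugate Real

namespace Pool.Agent.Work.MP_97f157_lc

/-- Positive roots of a real polynomial. -/
noncomputable def pr (p : ℝ[X]) : Finset ℝ := p.roots.toFinset.filter (fun x => 0 < x)

lemma mem_pr {p : ℝ[X]} (hp : p ≠ 0) {x : ℝ} : x ∈ pr p ↔ 0 < x ∧ p.eval x = 0 := by
  simp [pr, hp, and_comm]

lemma pr_factor {n δ e a : ℕ} {κ : ℝ} (hn : 0 < n) {g : ℝ[X]} (hδ : g.natDegree ≤ δ)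
    (hf : C κ * X ^ e * g.comp (X ^ n) ^ a ≠ 0) :
    (pr (C κ * X ^ e * g.comp (X ^ n) ^ a)).card ≤ δ := by
  classical
  have hκ : κ ≠ 0 := by rintro rfl; simp at hf
  rcases Nat.eq_zero_or_pos a with rfl | ha
  · have : pr (C κ * X ^ e * g.comp (X ^ n) ^ 0) = ∅ := by
      rw [Finset.eq_empty_iff_forall_notMem]
      intro x hx
      obtain ⟨h1, h2⟩ := (mem_pr hf).1 hx
      simp [h1.ne', hκ] at h2
    rw [this]; simp
  have hg : g ≠ 0 := by rintro rfl; simp [ha.ne'] at hf
  refine le_trans ?_ ((Multiset.toFinset_card_le g.roots).trans ((Polynomial.card_roots' g).trans hδ))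
  apply Finset.card_le_card_of_injOn (fun x => x ^ n)
  · intro x hx
    obtain ⟨h1, h2⟩ := (mem_pr hf).1 hx
    simp only [eval_mul, eval_pow, eval_X, eval_comp, mul_eq_zero, pow_eq_zero_iff', h1.ne',
      false_and, false_or, eval_C, hκ] at h2
    simpa [hg] using h2.1
  · intro x hx y hy h
    have h1 := ((mem_pr hf).1 hx).1
    have h2 := ((mem_pr hf).1 hy).1
    exact (pow_left_inj₀ h1.le h2.le hn.ne').1 h

lemma pr_prod {ι : Type*} (s : Finset ι) (f : ι → ℝ[X]) (δ : ℕ) (hne : ∏ i ∈ s, f i ≠ 0)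
    (h : ∀ i ∈ s, (pr (f i)).card ≤ δ) : (pr (∏ i ∈ s, f i)).card ≤ s.card * δ := by
  classical
  have hsub : pr (∏ i ∈ s, f i) ⊆ s.biUnion (fun i => pr (f i)) := by
    intro x hx
    obtain ⟨h1, h2⟩ := (mem_pr hne).1 hx
    rw [Polynomial.eval_prod, Finset.prod_eq_zero_iff] at h2
    obtain ⟨i, hi, h3⟩ := h2
    exact Finset.mem_biUnion.2 ⟨i, hi,
      (mem_pr (Finset.prod_ne_zero_iff.1 hne i hi)).2 ⟨h1, h3⟩⟩
  refine (Finset.card_le_card hsub).trans (Finset.card_biUnion_le.trans ?_)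
  simpa using Finset.sum_le_card_nsmul s _ δ h

lemma strip (n e a : ℕ) (κ : ℝ) (g : ℝ[X]) (hf : C κ * X ^ e * g.comp (X ^ n) ^ a ≠ 0) :
    ∃ (e' a' : ℕ) (g' : ℝ[X]), 0 < a' ∧ g'.eval 0 ≠ 0 ∧ g'.natDegree ≤ g.natDegree ∧
      C κ * X ^ e * g.comp (X ^ n) ^ a = C κ * X ^ e' * g'.comp (X ^ n) ^ a' := by
  rcases Nat.eq_zero_or_pos a with rfl | ha
  · exact ⟨e, 1, 1, by simp, by simp, by simp, by simp⟩
  have hg : g ≠ 0 := by rintro rfl; simp [ha.ne'] at hf
  obtain ⟨q, hq, hq'⟩ := Polynomial.exists_eq_pow_rootMultiplicity_mul_and_not_dvd g hg 0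
  set b := g.rootMultiplicity 0
  refine ⟨e + n * b * a, a, q, ha, ?_, ?_, ?_⟩
  · intro h
    exact hq' (Polynomial.dvd_iff_isRoot.2 h)
  · exact Polynomial.natDegree_le_of_dvd (Dvd.intro_left _ hq.symm) hg
  · conv_lhs => rw [hq]
    simp only [map_zero, sub_zero, mul_comp, pow_comp, X_comp]
    rw [pow_add, pow_mul, pow_mul]; ring

/-- Numerator of the logarithmic derivative. -/
noncomputable def numer (n e a : ℕ) (g : ℝ[X]) : ℝ[X] :=
  C (e : ℝ) * g + C ((a : ℝ) * n) * (X * derivative g)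

lemma numer_natDegree (n e a : ℕ) (g : ℝ[X]) : (numer n e a g).natDegree ≤ g.natDegree := by
  refine (Polynomial.natDegree_add_le _ _).trans (max_le (Polynomial.natDegree_C_mul_le _ _) ?_)
  refine (Polynomial.natDegree_C_mul_le _ _).trans ?_
  by_cases h : g.natDegree = 0
  · rw [Polynomial.derivative_of_natDegree_zero h]; simp
  · have h1 := Polynomial.natDegree_derivative_lt h
    have h2 : (X * derivative g).natDegree ≤ 1 + (derivative g).natDegree :=
      Polynomial.natDegree_mul_le.trans (by simp)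
    omega

lemma logder_factor (n e a : ℕ) (κ : ℝ) (g : ℝ[X]) (x : ℝ) (hg : g.eval (x ^ n) ≠ 0) :
    x * (derivative (C κ * X ^ e * g.comp (X ^ n) ^ a)).eval x =
      (C κ * X ^ e * g.comp (X ^ n) ^ a).eval x *
        ((numer n e a g).eval (x ^ n) / g.eval (x ^ n)) := by
  have h1 : ∀ (y : ℝ) (k : ℕ), y * ((k : ℝ) * y ^ (k - 1)) = k * y ^ k := by
    intro y k
    cases k with
    | zero => simp
    | succ k => simp [pow_succ]; ring
  simp only [derivative_mul, derivative_pow, Polynomial.derivative_comp, derivative_C,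
    eval_add, eval_mul, eval_C, eval_pow, eval_X, eval_comp, numer, derivative_X, eval_one,
    eval_zero]
  rw [← mul_div_assoc, eq_div_iff hg]
  have h2 := h1 x e
  have h3 := h1 x n
  have h4 := h1 (g.eval (x ^ n)) a
  linear_combination κ * (g.eval (x ^ n)) ^ a * (g.eval (x ^ n)) * h2 +
    (κ * x ^ e * (derivative g).eval (x ^ n) * (a * g.eval (x ^ n) ^ (a - 1)) *
      g.eval (x ^ n)) * h3 +
    (κ * x ^ e * (derivative g).eval (x ^ n) * (n * x ^ n)) * h4

lemma logder_prod {ι : Type*} (s : Finset ι) (f : ι → ℝ[X]) (l : ι → ℝ) (x : ℝ)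
    (h : ∀ i ∈ s, x * (derivative (f i)).eval x = (f i).eval x * l i) :
    x * (derivative (∏ i ∈ s, f i)).eval x = (∏ i ∈ s, f i).eval x * ∑ i ∈ s, l i := by
  classical
  induction s using Finset.induction_on with
  | empty => simp
  | insert a s ha ih =>
    rw [Finset.prod_insert ha, Finset.sum_insert ha]
    have h1 := h a (Finset.mem_insert_self _ _)
    have h2 := ih (fun i hi => h i (Finset.mem_insert_of_mem hi))
    simp only [derivative_mul, eval_add, eval_mul]
    linear_combination (∏ i ∈ s, f i).eval x * h1 + (f a).eval x * h2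

lemma term_real (n : ℕ) (u g : ℝ[X]) (x : ℝ) :
    term n (u.map (algebraMap ℝ ℂ)) (g.map (algebraMap ℝ ℂ)) x
      = ((u.eval (x ^ n) / g.eval (x ^ n) : ℝ) : ℂ) := by
  have : ∀ p : ℝ[X], (p.map (algebraMap ℝ ℂ)).eval ((x : ℂ) ^ n) = ((p.eval (x ^ n) : ℝ) : ℂ) := by
    intro p
    have := Polynomial.eval₂_at_apply (p := p) (algebraMap ℝ ℂ) (x ^ n)
    rw [Polynomial.eval_map]
    simpa using this
  simp only [term, this]
  push_cast; rfl

lemma term_sym (n : ℕ) (u g : ℝ[X]) :
    Sym (term n (u.map (algebraMap ℝ ℂ)) (g.map (algebraMap ℝ ℂ))) := by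
  intro z
  have : ∀ p : ℝ[X], (p.map (algebraMap ℝ ℂ)).eval ((conj z) ^ n)
      = conj ((p.map (algebraMap ℝ ℂ)).eval (z ^ n)) := by
    intro p
    rw [← eval_map_conj, Polynomial.map_map, map_pow]
    congr 2
    ext x; simp
  simp only [term, this, map_div₀]

lemma Sym.sum {ι : Type*} (s : Finset ι) (H : ι → ℂ → ℂ) (h : ∀ i ∈ s, Sym (H i)) :
    Sym (∑ i ∈ s, H i) := by
  intro z
  simp only [Finset.sum_apply, map_sum]
  exact Finset.sum_congr rfl (fun i hi => h i hi z)

lemma rolle_count (P Q : ℝ[X]) (hP : P ≠ 0) (hQ : Q ≠ 0) (hF : P + Q ≠ 0) (G : ℂ → ℂ)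
    (hG : ∀ x : ℝ, 0 < x → P.eval x ≠ 0 → Q.eval x ≠ 0 →
      (G x = 0 ↔ (derivative P * Q - P * derivative Q).eval x = 0)) :
    (pr (P + Q)).card ≤ zc G + (pr P).card + 2 * (pr Q).card + 1 := by
  classical
  set F := P + Q with hFdef
  set W := derivative P * Q - P * derivative Q with hW
  have hW' : W = derivative F * Q - F * derivative Q := by
    rw [hW, hFdef, derivative_add]; ring
  set S := (pr F).filter (fun x => Q.eval x ≠ 0) with hS
  have h1 : (pr F).card ≤ S.card + (pr Q).card := by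
    refine le_trans (Finset.card_le_card ?_) (Finset.card_union_le _ _)
    intro x hx
    by_cases h : Q.eval x = 0
    · exact Finset.mem_union_right _ ((mem_pr hQ).2 ⟨((mem_pr hF).1 hx).1, h⟩)
    · exact Finset.mem_union_left _ (Finset.mem_filter.2 ⟨hx, h⟩)
  by_cases hW0 : W = 0
  · have : S = ∅ := by
      rw [Finset.eq_empty_iff_forall_notMem]
      intro x hx
      obtain ⟨hx1, hx2⟩ := Finset.mem_filter.1 hx
      have hroot : F.IsRoot x := ((mem_pr hF).1 hx1).2
      have h2 := Polynomial.derivative_rootMultiplicity_of_root hroot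
      have h3 : derivative F * Q = F * derivative Q := by
        rw [hW'] at hW0; exact sub_eq_zero.1 hW0
      have hF' : derivative F ≠ 0 := by
        intro h
        have h4 := Polynomial.eq_C_of_derivative_eq_zero h
        rw [h4] at hroot hF
        simp only [IsRoot.def, eval_C] at hroot
        exact hF (by rw [hroot]; simp)
      have h5 : derivative F * Q ≠ 0 := mul_ne_zero hF' hQ
      have h6 := Polynomial.rootMultiplicity_mul (x := x) h5
      have h7 := Polynomial.rootMultiplicity_mul (x := x) (h3 ▸ h5 : F * derivative Q ≠ 0)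
      rw [h3, h7, Polynomial.rootMultiplicity_eq_zero (p := Q) hx2] at h6
      have h8 : 0 < F.rootMultiplicity x := (Polynomial.rootMultiplicity_pos hF).2 hroot
      omega
    rw [this] at h1
    simp at h1
    omega
  · have hfin : (zs G).Finite := by
      refine (Finset.finite_toSet (pr W ∪ pr P ∪ pr Q)).subset ?_
      intro x hx
      simp only [Finset.coe_union, Set.mem_union, Finset.mem_coe, mem_pr hW0, mem_pr hP, mem_pr hQ]
      by_cases h2 : P.eval x = 0
      · exact Or.inl (Or.inr ⟨hx.1, h2⟩)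
      by_cases h3 : Q.eval x = 0
      · exact Or.inr ⟨hx.1, h3⟩
      exact Or.inl (Or.inl ⟨hx.1, (hG x hx.1 h2 h3).1 hx.2⟩)
    have h2 : S.card ≤ (hfin.toFinset ∪ pr P ∪ pr Q).card + 1 := by
      apply Finset.card_le_of_interleaved
      intro x hx y hy hxy _
      obtain ⟨hx1, hx2⟩ := Finset.mem_filter.1 hx
      obtain ⟨hy1, hy2⟩ := Finset.mem_filter.1 hy
      obtain ⟨hx0, hxF⟩ := (mem_pr hF).1 hx1
      obtain ⟨_, hyF⟩ := (mem_pr hF).1 hy1
      by_cases hz : ∃ z, x < z ∧ z < y ∧ Q.eval z = 0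
      · obtain ⟨z, h3, h4, h5⟩ := hz
        exact ⟨z, Finset.mem_union_right _ ((mem_pr hQ).2 ⟨hx0.trans h3, h5⟩), h3, h4⟩
      push Not at hz
      have hQne : ∀ z ∈ Set.Icc x y, Q.eval z ≠ 0 := by
        intro z hz'
        rcases hz'.1.lt_or_eq with h3 | h3
        · rcases hz'.2.lt_or_eq with h4 | h4
          · exact hz z h3 h4
          · rw [h4]; exact hy2
        · rw [← h3]; exact hx2
      have hcont : ContinuousOn (fun z => F.eval z / Q.eval z) (Set.Icc x y) :=
        F.continuous.continuousOn.div Q.continuous.continuousOn hQne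
      obtain ⟨z, hz1, hz2⟩ := exists_hasDerivAt_eq_zero hxy hcont (by simp [hxF, hyF])
        (f' := fun z => ((derivative F).eval z * Q.eval z - F.eval z * (derivative Q).eval z)
          / Q.eval z ^ 2)
        (fun z hz' => (F.hasDerivAt z).div (Q.hasDerivAt z) (hQne z (Set.Ioo_subset_Icc_self hz')))
      have hQz := hQne z (Set.Ioo_subset_Icc_self hz1)
      have hz0 : 0 < z := hx0.trans hz1.1
      have hWz : W.eval z = 0 := by
        rw [hW']
        simp only [eval_sub, eval_mul]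
        exact (div_eq_zero_iff.1 hz2).resolve_right (pow_ne_zero 2 hQz)
      refine ⟨z, Finset.mem_union_left _ ?_, hz1.1, hz1.2⟩
      by_cases hPz : P.eval z = 0
      · exact Finset.mem_union_right _ ((mem_pr hP).2 ⟨hz0, hPz⟩)
      · apply Finset.mem_union_left
        rw [Set.Finite.mem_toFinset]
        exact ⟨hz0, (hG z hz0 hPz hQz).2 hWz⟩
    have h3 := (Finset.card_union_le (hfin.toFinset ∪ pr P) (pr Q)).trans
      (Nat.add_le_add_right (Finset.card_union_le _ _) _)
    rw [zc_eq, Set.ncard_eq_toFinset_card _ hfin]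
    omega

section Main

variable {w : ℕ} (L : Fin w → ℕ) (N : Fin w → ℕ → ℕ) (r : ℕ)

theorem pos_bound (hr : 1 ≤ r) (h0 : ∀ c, 0 < N c 0)
    (hN : ∀ c l, l < L c → ∃ q, 1 ≤ q ∧ q ≤ r ∧ N c (l + 1) = q * N c l)
    (m δ : ℕ) (F : Fin 2 → Fin m → ℝ[X])
    (hF : ∀ i j, ∃ (c : Fin w) (l e a : ℕ) (κ : ℝ) (g : ℝ[X]), l ≤ L c ∧ g.natDegree ≤ δ ∧
      F i j = C κ * X ^ e * g.comp (X ^ N c l) ^ a)
    (hne : ∑ i, ∏ j, F i j ≠ 0) :
    (pr (∑ i, ∏ j, F i j)).card ≤
      (∑ c, (L c + 1)) * (r * (8 * (2 ^ w * r * (2 * m * δ)) + 1)) + 3 * (m * δ) + 1 := by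
  classical
  rw [Fin.sum_univ_two] at hne ⊢
  have hpr : ∀ i, ∏ j, F i j ≠ 0 → (pr (∏ j, F i j)).card ≤ m * δ := by
    intro i hi
    have := pr_prod Finset.univ (F i) δ hi (by
      intro j hj
      obtain ⟨c, l, e, a, κ, g, h1, h2, h3⟩ := hF i j
      have h4 := Finset.prod_ne_zero_iff.1 hi j hj
      rw [h3] at h4 ⊢
      exact pr_factor (N_pos L N r h0 hN c l h1) h2 h4)
    simpa using this
  by_cases hP : ∏ j, F 0 j = 0
  · rw [hP, zero_add] at hne ⊢
    have := hpr 1 hne
    omega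
  by_cases hQ : ∏ j, F 1 j = 0
  · rw [hQ, add_zero]
    have := hpr 0 hP
    omega
  have hFne : ∀ i j, F i j ≠ 0 := by
    intro i j
    fin_cases i
    · exact Finset.prod_ne_zero_iff.1 hP j (Finset.mem_univ _)
    · exact Finset.prod_ne_zero_iff.1 hQ j (Finset.mem_univ _)
  have hF' : ∀ p : Fin 2 × Fin m, ∃ (c : Fin w) (l e a : ℕ) (κ : ℝ) (g : ℝ[X]), l ≤ L c ∧
      g.natDegree ≤ δ ∧ 0 < a ∧ g.eval 0 ≠ 0 ∧
      F p.1 p.2 = C κ * X ^ e * g.comp (X ^ N c l) ^ a := by
    intro p
    obtain ⟨c, l, e, a, κ, g, h1, h2, h3⟩ := hF p.1 p.2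
    obtain ⟨e', a', g', h7, h4, h5, h6⟩ := strip (N c l) e a κ g (h3 ▸ hFne p.1 p.2)
    exact ⟨c, l, e', a', κ, g', h1, h5.trans h2, h7, h4, h3.trans h6⟩
  choose cl lv e a κ g hlv hδ ha hg0 hFeq using hF'
  set sg : Fin 2 → ℝ := ![1, -1] with hsg
  set u : Fin 2 × Fin m → ℝ[X] := fun p => C (sg p.1) * numer (N (cl p) (lv p)) (e p) (a p) (g p)
    with hu
  have hb := chain_bound L N r hr h0 hN cl lv hlv δ (fun p => (u p).map (algebraMap ℝ ℂ))
    (fun p => (g p).map (algebraMap ℝ ℂ))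
    (by
      intro p
      have := Polynomial.eval₂_at_apply (p := g p) (algebraMap ℝ ℂ) 0
      rw [Polynomial.eval_map]
      rw [map_zero] at this
      rw [this]
      simpa using hg0 p)
    (by
      intro p
      rw [Polynomial.natDegree_map, Polynomial.natDegree_map]
      exact (Polynomial.natDegree_C_mul_le _ _).trans (numer_natDegree _ _ _ _))
    (by
      intro p
      rw [Polynomial.natDegree_map]; exact hδ p)
    (Sym.sum _ _ (fun p _ => term_sym _ _ _))
  have hrc := rolle_count _ _ hP hQ hne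
    (∑ p, term (N (cl p) (lv p)) ((u p).map (algebraMap ℝ ℂ)) ((g p).map (algebraMap ℝ ℂ))) (by
      intro x hx hPx hQx
      set l : Fin 2 × Fin m → ℝ := fun p =>
        (numer (N (cl p) (lv p)) (e p) (a p) (g p)).eval (x ^ N (cl p) (lv p)) /
          (g p).eval (x ^ N (cl p) (lv p)) with hl
      have hlog : ∀ i, (∏ j, F i j).eval x ≠ 0 →
          x * (derivative (∏ j, F i j)).eval x = (∏ j, F i j).eval x * ∑ j, l (i, j) := by
        intro i hi
        apply logder_prod
        intro j hj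
        rw [Polynomial.eval_prod] at hi
        have h1 := Finset.prod_ne_zero_iff.1 hi j hj
        have h2 := hFeq (i, j)
        simp only at h2
        rw [h2] at h1 ⊢
        apply logder_factor
        simp only [eval_mul, eval_comp, eval_pow, eval_X] at h1
        intro h3
        rw [h3, zero_pow (ha (i, j)).ne', mul_zero] at h1
        exact h1 rfl
      have hval : (∑ p, term (N (cl p) (lv p)) ((u p).map (algebraMap ℝ ℂ))
          ((g p).map (algebraMap ℝ ℂ))) (x : ℂ) = ((∑ j, l (0, j) - ∑ j, l (1, j) : ℝ) : ℂ) := by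
        rw [Finset.sum_apply]
        simp_rw [term_real]
        rw [← Complex.ofReal_sum, Fintype.sum_prod_type, Fin.sum_univ_two, sub_eq_add_neg,
          ← Finset.sum_neg_distrib]
        congr 2
        · apply Finset.sum_congr rfl
          intro j _
          simp [hu, hsg, hl]
        · apply Finset.sum_congr rfl
          intro j _
          simp [hu, hsg, hl, neg_div]
      rw [hval, Complex.ofReal_eq_zero]
      have h1 := hlog 0 hPx
      have h2 := hlog 1 hQx
      have h3 : x * (derivative (∏ j, F 0 j) * ∏ j, F 1 j -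
          (∏ j, F 0 j) * derivative (∏ j, F 1 j)).eval x
          = (∏ j, F 0 j).eval x * (∏ j, F 1 j).eval x * (∑ j, l (0, j) - ∑ j, l (1, j)) := by
        simp only [eval_sub, eval_mul]
        linear_combination (∏ j, F 1 j).eval x * h1 - (∏ j, F 0 j).eval x * h2
      constructor
      · intro h
        rw [h, mul_zero] at h3
        exact (mul_eq_zero.1 h3).resolve_left hx.ne'
      · intro h
        rw [h, mul_zero] at h3
        exact (mul_eq_zero.1 h3.symm).resolve_left (mul_ne_zero hPx hQx))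
  have h1 := hpr 0 hP
  have h2 := hpr 1 hQ
  simp only [Fintype.card_prod, Fintype.card_fin] at hb
  omega

lemma roots_split (f : ℝ[X]) (hf : f ≠ 0) :
    f.roots.toFinset.card ≤ (pr f).card + (pr (f.comp (-X))).card + 1 := by
  classical
  have hf' : f.comp (-X) ≠ 0 := by
    intro h
    apply hf
    have := congrArg (fun p => p.comp (-X)) h
    simpa [Polynomial.comp_neg_X_comp_neg_X] using this
  have hsub : f.roots.toFinset ⊆ pr f ∪ (pr (f.comp (-X))).image (fun x => -x) ∪ {0} := by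
    intro x hx
    have hx' : f.eval x = 0 := by simpa [hf] using hx
    rcases lt_trichotomy x 0 with h | h | h
    · apply Finset.mem_union_left
      apply Finset.mem_union_right
      refine Finset.mem_image.2 ⟨-x, (mem_pr hf').2 ⟨by linarith, ?_⟩, by simp⟩
      simpa [eval_comp] using hx'
    · exact Finset.mem_union_right _ (by simp [h])
    · exact Finset.mem_union_left _ (Finset.mem_union_left _ ((mem_pr hf).2 ⟨h, hx'⟩))
  refine (Finset.card_le_card hsub).trans ((Finset.card_union_le _ _).trans ?_)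
  have h1 := Finset.card_union_le (pr f) ((pr (f.comp (-X))).image (fun x => -x))
  have h2 : ((pr (f.comp (-X))).image (fun x => -x)).card ≤ _ := Finset.card_image_le
  simp only [Finset.card_singleton]
  omega

theorem two_products (hr : 1 ≤ r) (h0 : ∀ c, 0 < N c 0)
    (hN : ∀ c l, l < L c → ∃ q, 1 ≤ q ∧ q ≤ r ∧ N c (l + 1) = q * N c l)
    (m δ : ℕ) (F : Fin 2 → Fin m → ℝ[X])
    (hF : ∀ i j, ∃ (c : Fin w) (l e a : ℕ) (κ : ℝ) (g : ℝ[X]), l ≤ L c ∧ g.natDegree ≤ δ ∧
      F i j = C κ * X ^ e * g.comp (X ^ N c l) ^ a)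
    (hne : ∑ i, ∏ j, F i j ≠ 0) :
    (∑ i, ∏ j, F i j).roots.toFinset.card ≤
      2 ^ (w + 6) * r ^ 2 * (∑ c, (L c + 1)) * (m * δ + 1) := by
  rcases Nat.eq_zero_or_pos w with rfl | hw
  · rcases Nat.eq_zero_or_pos m with rfl | hm
    · have : (∑ i : Fin 2, ∏ j : Fin 0, F i j) = C (2 : ℝ) := by
        simp; rfl
      rw [this, Polynomial.roots_C]
      simp
    · obtain ⟨c, _⟩ := hF 0 ⟨0, hm⟩
      exact c.elim0
  have h1 := roots_split _ hne
  have h2 := pos_bound L N r hr h0 hN m δ F hF hne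
  have hcomp : (∑ i, ∏ j, F i j).comp (-X) = ∑ i, ∏ j, (F i j).comp (-X) := by
    rw [Polynomial.sum_comp]
    apply Finset.sum_congr rfl
    intro i _
    rw [Polynomial.prod_comp]
  have h3 := pos_bound L N r hr h0 hN m δ (fun i j => (F i j).comp (-X)) (by
      intro i j
      obtain ⟨c, l, e, a, κ, g, h4, h5, h6⟩ := hF i j
      refine ⟨c, l, e, a, κ * (-1) ^ e, g.comp (C ((-1) ^ N c l) * X), h4, ?_, ?_⟩
      · rw [Polynomial.natDegree_comp]
        have : (C ((-1 : ℝ) ^ N c l) * X).natDegree ≤ 1 :=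
          (Polynomial.natDegree_C_mul_le _ _).trans (by simp)
        nlinarith
      · rw [h6]
        simp only [mul_comp, pow_comp, X_comp, C_comp, comp_assoc, map_pow, map_neg, map_one,
          map_mul, neg_comp, one_comp]
        rw [neg_pow (X : ℝ[X]) e, neg_pow (X : ℝ[X]) (N c l)]
        ring)
    (by
      rw [← hcomp]
      intro h
      apply hne
      have := congrArg (fun p => p.comp (-X)) h
      simpa [Polynomial.comp_neg_X_comp_neg_X] using this)
  rw [← hcomp] at h3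
  set s := ∑ c, (L c + 1) with hs
  have hs1 : 1 ≤ s := by
    have := Finset.single_le_sum (f := fun c => L c + 1) (fun _ _ => Nat.zero_le _)
      (Finset.mem_univ (⟨0, hw⟩ : Fin w))
    omega
  have hW : 1 ≤ 2 ^ w := Nat.one_le_two_pow
  set W := 2 ^ w with hWdef
  set a := m * δ with ha
  have e1 : 2 ^ (w + 6) = 64 * W := by rw [pow_add]; ring
  have e2 : s * (r * (8 * (W * r * (2 * m * δ)) + 1)) = 16 * (W * r ^ 2 * s * a) + s * r := by
    rw [ha]; ring
  rw [e2] at h2 h3
  have e3 : 64 * W * r ^ 2 * s * (a + 1) = 64 * (W * r ^ 2 * s * a) + 64 * (W * r ^ 2 * s) := by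
    ring
  rw [e1, e3]
  have hrs : 1 ≤ s * r := Nat.mul_pos hs1 hr
  have i1 : s * r ≤ W * r ^ 2 * s := by
    have : W * r ^ 2 * s = (W * r) * (s * r) := by ring
    rw [this]
    exact Nat.le_mul_of_pos_left _ (Nat.mul_pos hW hr)
  have i2 : a ≤ W * r ^ 2 * s * a := Nat.le_mul_of_pos_left _ (by omega)
  omega

end Main

end Pool.Agent.Work.MP_97f157_lc
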